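import Pool.Agent.Lib.MP_4d7d0a_gt.TB1

-- part Pool.Agent.Lib.MP_4d7d0a_gt.PathFA
section

/-! Functors on path groupoids. -/

set_option autoImplicit false

open Set Filter Topology
open scoped ContDiff

namespace Pool.Agent.Lib.MP_4d7d0a_gt

/-- a path in `S` -/
def IsPath {X : Type} [TopologicalSpace X] (S : Set X) (c : ℝ → X) : Prop :=
  ContinuousOn c (Icc 0 1) ∧ MapsTo c (Icc 0 1) S

/-- concatenation -/
noncomputable def cat {X : Type} (c c' : ℝ → X) (t : ℝ) : X :=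
  if t ≤ 1 / 2 then c (2 * t) else c' (2 * t - 1)

namespace PathFun

variable {X : Type} [TopologicalSpace X] {S : Set X} {G : Type} [Group G] (F : PathFun S G)

theorem congr {c c' : ℝ → X} (hc : IsPath S c) (h : ∀ t ∈ Icc (0 : ℝ) 1, c' t = c t) :
    F.F c' = F.F c := by
  have h1 := F.hom (fun s t => if s = 0 then c' t else c t) ?_ ?_ ?_
  · simpa using h1
  · have h2 : ContinuousOn (fun a : ℝ × ℝ => c a.2) (Icc 0 1 ×ˢ Icc 0 1) :=
      hc.1.comp continuous_snd.continuousOn fun a ha => ha.2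
    refine h2.congr fun a ha => ?_
    by_cases h0 : a.1 = 0
    · simp only [if_pos h0]
      exact h _ ha.2
    · simp only [if_neg h0]
  · intro s _ t ht
    by_cases h0 : s = 0
    · simp only [if_pos h0]
      rw [h t ht]
      exact hc.2 ht
    · simp only [if_neg h0]
      exact hc.2 ht
  · intro s _
    by_cases h0 : s = 0
    · simp [h0]
    · simp only [if_neg h0, if_true]
      exact ⟨(h 0 ⟨le_rfl, zero_le_one⟩).symm, (h 1 ⟨zero_le_one, le_rfl⟩).symm⟩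

theorem const {x : X} (hx : x ∈ S) : F.F (fun _ => x) = 1 := by
  have h := F.mul (fun _ => x) continuousOn_const fun _ _ => hx
  exact left_eq_mul.1 h

omit [TopologicalSpace X] in
theorem pathFA_cat_right {c c' : ℝ → X} (h : c 1 = c' 0) {t : ℝ} (ht : 1 / 2 ≤ t) :
    cat c c' t = c' (2 * t - 1) := by
  rcases ht.eq_or_lt with h1 | h1
  · rw [cat, if_pos h1.ge, ← h1]
    norm_num
    exact h
  · exact if_neg (not_le.2 h1)

theorem isPath_cat {c c' : ℝ → X} (hc : IsPath S c) (hc' : IsPath S c') (h : c 1 = c' 0) :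
    IsPath S (cat c c') := by
  constructor
  · have h1 : Icc (0 : ℝ) 1 = Icc 0 (1 / 2) ∪ Icc (1 / 2) 1 :=
      (Icc_union_Icc_eq_Icc (by norm_num) (by norm_num)).symm
    rw [h1]
    refine ContinuousOn.union_of_isClosed ?_ ?_ isClosed_Icc isClosed_Icc
    · have h2 : ContinuousOn (fun t : ℝ => c (2 * t)) (Icc 0 (1 / 2)) :=
        hc.1.comp (by fun_prop) fun t ht => ⟨by linarith [ht.1], by linarith [ht.2]⟩
      exact h2.congr fun t ht => if_pos ht.2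
    · have h2 : ContinuousOn (fun t : ℝ => c' (2 * t - 1)) (Icc (1 / 2) 1) :=
        hc'.1.comp (by fun_prop) fun t ht => ⟨by linarith [ht.1], by linarith [ht.2]⟩
      exact h2.congr fun t ht => pathFA_cat_right h ht.1
  · intro t ht
    by_cases h1 : t ≤ 1 / 2
    · rw [cat, if_pos h1]
      exact hc.2 ⟨by linarith [ht.1], by linarith⟩
    · rw [cat, if_neg h1]
      exact hc'.2 ⟨by linarith [not_le.1 h1], by linarith [ht.2]⟩

theorem cat_eq {c c' : ℝ → X} (hc : IsPath S c) (hc' : IsPath S c') (h : c 1 = c' 0) :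
    F.F (cat c c') = F.F c * F.F c' := by
  have h1 := isPath_cat hc hc' h
  rw [F.mul _ h1.1 h1.2]
  congr 1
  · refine F.congr hc fun t ht => ?_
    rw [cat, if_pos (by linarith [ht.2])]
    congr 1
    ring
  · refine F.congr hc' fun t ht => ?_
    rw [pathFA_cat_right h (by linarith [ht.1])]
    congr 1
    ring

/-- paths through a convex parameter domain only depend on the end points -/
theorem conv {E : Type} [NormedAddCommGroup E] [NormedSpace ℝ E] {C : Set E} (hC : Convex ℝ C)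
    {f : E → X} (hf : ContinuousOn f C) (hS : MapsTo f C S) {c c' : ℝ → E} (hc : IsPath C c)
    (hc' : IsPath C c') (h0 : c 0 = c' 0) (h1 : c 1 = c' 1) :
    F.F (fun t => f (c t)) = F.F fun t => f (c' t) := by
  have hm : ∀ s ∈ Icc (0 : ℝ) 1, ∀ t ∈ Icc (0 : ℝ) 1, (1 - s) • c t + s • c' t ∈ C :=
    fun s hs t ht => hC (hc.2 ht) (hc'.2 ht) (by linarith [hs.2]) hs.1 (by ring)
  have h2 := F.hom (fun s t => f ((1 - s) • c t + s • c' t)) ?_ ?_ ?_
  · simpa using h2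
  · have h3 : ContinuousOn (fun a : ℝ × ℝ => c a.2) (Icc 0 1 ×ˢ Icc 0 1) :=
      hc.1.comp continuous_snd.continuousOn fun a ha => ha.2
    have h4 : ContinuousOn (fun a : ℝ × ℝ => c' a.2) (Icc 0 1 ×ˢ Icc 0 1) :=
      hc'.1.comp continuous_snd.continuousOn fun a ha => ha.2
    have h5 : ContinuousOn (fun a : ℝ × ℝ => (1 - a.1) • c a.2 + a.1 • c' a.2)
        (Icc 0 1 ×ˢ Icc 0 1) :=
      ((continuous_const.sub continuous_fst).continuousOn.smul h3).add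
        (continuous_fst.continuousOn.smul h4)
    exact hf.comp h5 fun a ha => hm _ ha.1 _ ha.2
  · exact fun s hs t ht => hS (hm s hs t ht)
  · intro s _
    simp only [← h0, ← h1, ← add_smul, sub_add_cancel, and_self]

theorem pathFA_seg {I : Set ℝ} (hC : Convex ℝ I) {a b : ℝ} (ha : a ∈ I) (hb : b ∈ I) :
    IsPath I fun t => a + t * (b - a) :=
  ⟨by fun_prop, fun t ht => hC.add_smul_sub_mem ha hb ht⟩

theorem pathFA_comp {Y : Type} [TopologicalSpace Y] {S' : Set Y} {f : Y → X}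
    (hf : ContinuousOn f S') (hS : MapsTo f S' S) {c : ℝ → Y} (hc : IsPath S' c) :
    IsPath S fun t => f (c t) :=
  ⟨hf.comp hc.1 hc.2, fun _ ht => hS (hc.2 ht)⟩

omit [TopologicalSpace X] in
theorem pathFA_cat_comp {Y : Type} (f : Y → X) (c c' : ℝ → Y) :
    (fun t => f (cat c c' t)) = cat (fun t => f (c t)) fun t => f (c' t) := by
  funext t
  simp only [cat]
  split_ifs <;> rfl

/-- cutting a curve defined on an interval containing `a`, `b`, `d` in any order -/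
theorem cut {c : ℝ → X} {I : Set ℝ} (hI : I.OrdConnected) (hc : ContinuousOn c I)
    (hS : MapsTo c I S) {a b d : ℝ} (ha : a ∈ I) (hb : b ∈ I) (hd : d ∈ I) :
    F.F (fun t => c (a + t * (d - a))) =
      F.F (fun t => c (a + t * (b - a))) * F.F fun t => c (b + t * (d - b)) := by
  have hC : Convex ℝ I := hI.convex
  have h1 := pathFA_seg hC ha hb
  have h2 := pathFA_seg hC hb hd
  have h3 : (fun t : ℝ => a + t * (b - a)) 1 = (fun t : ℝ => b + t * (d - b)) 0 := by simp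
  rw [← F.cat_eq (pathFA_comp hc hS h1) (pathFA_comp hc hS h2) (congrArg c h3), ← pathFA_cat_comp]
  refine F.conv hC hc hS (pathFA_seg hC ha hd) (isPath_cat h1 h2 h3) ?_ ?_
  · simp [cat]
  · rw [pathFA_cat_right h3 (by norm_num)]
    ring

theorem rev {c : ℝ → X} (hc : IsPath S c) : F.F (fun t => c (1 - t)) = (F.F c)⁻¹ := by
  have h0 : (0 : ℝ) ∈ Icc (0 : ℝ) 1 := ⟨le_rfl, zero_le_one⟩
  have h1 : (1 : ℝ) ∈ Icc (0 : ℝ) 1 := ⟨zero_le_one, le_rfl⟩
  have h := F.cut ordConnected_Icc hc.1 hc.2 h0 h1 h0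
  simp only [sub_self, mul_zero, add_zero, zero_add, sub_zero, mul_one, zero_sub, mul_neg,
    ← sub_eq_add_neg] at h
  rw [F.const (hc.2 h0)] at h
  exact eq_inv_of_mul_eq_one_right h.symm

/-- a square -/
theorem square {H : ℝ → ℝ → X}
    (hH : ContinuousOn (fun a : ℝ × ℝ => H a.1 a.2) (Icc 0 1 ×ˢ Icc 0 1))
    (hS : ∀ s ∈ Icc (0 : ℝ) 1, ∀ t ∈ Icc (0 : ℝ) 1, H s t ∈ S) :
    F.F (H 0) * F.F (fun s => H s 1) = F.F (fun s => H s 0) * F.F (H 1) := by
  have h0 : (0 : ℝ) ∈ Icc (0 : ℝ) 1 := ⟨le_rfl, zero_le_one⟩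
  have h1 : (1 : ℝ) ∈ Icc (0 : ℝ) 1 := ⟨zero_le_one, le_rfl⟩
  have hS' : MapsTo (fun a : ℝ × ℝ => H a.1 a.2) (Icc 0 1 ×ˢ Icc 0 1) S :=
    fun a ha => hS _ ha.1 _ ha.2
  have hv : ∀ s ∈ Icc (0 : ℝ) 1, IsPath (Icc (0 : ℝ) 1 ×ˢ Icc (0 : ℝ) 1) fun t => (s, t) :=
    fun s hs => ⟨by fun_prop, fun t ht => ⟨hs, ht⟩⟩
  have hh : ∀ t ∈ Icc (0 : ℝ) 1, IsPath (Icc (0 : ℝ) 1 ×ˢ Icc (0 : ℝ) 1) fun s => (s, t) :=
    fun t ht => ⟨by fun_prop, fun s hs => ⟨hs, ht⟩⟩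
  have h2 := F.conv ((convex_Icc (0 : ℝ) 1).prod (convex_Icc (0 : ℝ) 1)) hH hS'
    (isPath_cat (hv 0 h0) (hh 1 h1) rfl) (isPath_cat (hh 0 h0) (hv 1 h1) rfl)
    (by simp [cat]) (by
      rw [pathFA_cat_right (c := fun t : ℝ => ((0 : ℝ), t)) (c' := fun s : ℝ => (s, (1 : ℝ))) rfl
        (by norm_num), pathFA_cat_right (c := fun s : ℝ => (s, (0 : ℝ)))
        (c' := fun t : ℝ => ((1 : ℝ), t)) rfl (by norm_num)]
      norm_num)
  rw [pathFA_cat_comp (fun a : ℝ × ℝ => H a.1 a.2), pathFA_cat_comp (fun a : ℝ × ℝ => H a.1 a.2),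
    F.cat_eq (pathFA_comp hH hS' (hv 0 h0)) (pathFA_comp hH hS' (hh 1 h1)) rfl,
    F.cat_eq (pathFA_comp hH hS' (hh 0 h0)) (pathFA_comp hH hS' (hv 1 h1)) rfl] at h2
  exact h2

/-- pull back along a continuous map -/
theorem exists_comap {Y : Type} [TopologicalSpace Y] {S' : Set Y} {f : Y → X}
    (hf : ContinuousOn f S') (hS : MapsTo f S' S) :
    ∃ F' : PathFun S' G, ∀ c, F'.F c = F.F fun t => f (c t) := by
  refine ⟨⟨fun c => F.F fun t => f (c t), fun H hH hHS hE => ?_, fun c hc hcS => ?_⟩,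
    fun c => rfl⟩
  · exact F.hom (fun s t => f (H s t)) (hf.comp hH fun a ha => hHS _ ha.1 _ ha.2)
      (fun s hs t ht => hS (hHS s hs t ht))
      fun s hs => ⟨congrArg f (hE s hs).1, congrArg f (hE s hs).2⟩
  · exact F.mul (fun t => f (c t)) (hf.comp hc hcS) fun t ht => hS (hcS ht)

/-- generation: a gauge that works locally works globally -/
theorem gen (H : Subgroup G) (g : X → G)
    (h : ∀ x ∈ S, ∃ U ∈ 𝓝 x, ∀ c, IsPath (S ∩ U) c → (g (c 0))⁻¹ * F.F c * g (c 1) ∈ H)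
    {c : ℝ → X} (hc : IsPath S c) : (g (c 0))⁻¹ * F.F c * g (c 1) ∈ H := by
  have h0 : (0 : ℝ) ∈ Icc (0 : ℝ) 1 := ⟨le_rfl, zero_le_one⟩
  have h1 : (1 : ℝ) ∈ Icc (0 : ℝ) 1 := ⟨zero_le_one, le_rfl⟩
  have key := (isPreconnected_Icc (a := (0 : ℝ)) (b := 1)).induction₂'
    (fun a b => (g (c a))⁻¹ * F.F (fun t => c (a + t * (b - a))) * g (c b) ∈ H) ?_ ?_ h0 h1
  · simpa using key
  · intro a ha
    obtain ⟨U, hU, hUH⟩ := h (c a) (hc.2 ha)
    obtain ⟨δ, hδ, hb⟩ := Metric.mem_nhdsWithin_iff.1 (hc.1 a ha hU)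
    have hC : Convex ℝ (Metric.ball a δ ∩ Icc (0 : ℝ) 1) :=
      (convex_ball a δ).inter (convex_Icc 0 1)
    have hloc : ∀ u ∈ Metric.ball a δ ∩ Icc (0 : ℝ) 1, ∀ v ∈ Metric.ball a δ ∩ Icc (0 : ℝ) 1,
        (g (c u))⁻¹ * F.F (fun t => c (u + t * (v - u))) * g (c v) ∈ H := by
      intro u hu v hv
      have h2 := hUH _ (pathFA_comp (S := S ∩ U) (hc.1.mono inter_subset_right)
        (fun t ht => ⟨hc.2 ht.2, hb ht⟩) (pathFA_seg hC hu hv))
      simpa using h2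
    have ha' : a ∈ Metric.ball a δ ∩ Icc (0 : ℝ) 1 := ⟨Metric.mem_ball_self hδ, ha⟩
    filter_upwards [inter_mem (mem_nhdsWithin_of_mem_nhds (Metric.ball_mem_nhds a hδ))
      self_mem_nhdsWithin] with b hb'
    exact ⟨hloc a ha' b hb', hloc b hb' a ha'⟩
  · intro a b d ha hb hd h2 h3
    have h4 := H.mul_mem h2 h3
    rw [F.cut ordConnected_Icc hc.1 hc.2 ha hb hd]
    simpa only [mul_assoc, mul_inv_cancel_left] using h4

end PathFun

/-- the functor of a potential -/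
theorem pathFun_pot {X : Type} [TopologicalSpace X] (S : Set X) {G : Type} [Group G] (g : X → G) :
    ∃ F : PathFun S G, ∀ c, F.F c = (g (c 0))⁻¹ * g (c 1) := by
  refine ⟨⟨fun c => (g (c 0))⁻¹ * g (c 1), fun H _ _ hE => ?_, fun c _ _ => ?_⟩, fun c => rfl⟩
  · obtain ⟨h1, h2⟩ := hE 1 ⟨zero_le_one, le_rfl⟩
    simp only [h1, h2]
  · norm_num

end Pool.Agent.Lib.MP_4d7d0a_gt
end

-- part Pool.Agent.Lib.MP_4d7d0a_gt.PathF
section

/-! Gluing of functors on path groupoids. -/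

set_option autoImplicit false

open Set Filter Topology
open scoped ContDiff

namespace Pool.Agent.Lib.MP_4d7d0a_gt

namespace GlueAux

variable {X : Type} [TopologicalSpace X] {S : Set X} {G : Type} [Group G] {I : Type}

theorem mem_l {t : ℝ} (ht : t ∈ Icc (0 : ℝ) 1) : t / 2 ∈ Icc (0 : ℝ) 1 :=
  ⟨by linarith [ht.1], by linarith [ht.2]⟩

theorem mem_r {t : ℝ} (ht : t ∈ Icc (0 : ℝ) 1) : (t + 1) / 2 ∈ Icc (0 : ℝ) 1 :=
  ⟨by linarith [ht.1], by linarith [ht.2]⟩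

theorem path_l {T : Set X} {c : ℝ → X} (hc : IsPath T c) : IsPath T fun t => c (t / 2) :=
  ⟨hc.1.comp (f := fun t : ℝ => t / 2) (by fun_prop) fun _ ht => mem_l ht,
    fun _ ht => hc.2 (mem_l ht)⟩

theorem path_r {T : Set X} {c : ℝ → X} (hc : IsPath T c) : IsPath T fun t => c ((t + 1) / 2) :=
  ⟨hc.1.comp (f := fun t : ℝ => (t + 1) / 2) (by fun_prop) fun _ ht => mem_r ht,
    fun _ ht => hc.2 (mem_r ht)⟩

/-- all dyadic pieces of depth `n` lie in a member of the cover -/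
def Fine (S : Set X) (U : I → Set X) : ℕ → (ℝ → X) → Prop
  | 0, c => ∃ i, IsPath (S ∩ U i) c
  | n + 1, c => Fine S U n (fun t => c (t / 2)) ∧ Fine S U n fun t => c ((t + 1) / 2)

open Classical in
/-- the value of a small path -/
noncomputable def loc {U : I → Set X} (F : ∀ i, PathFun (S ∩ U i) G) (c : ℝ → X) : G :=
  if h : ∃ i, IsPath (S ∩ U i) c then (F h.choose).F c else 1

/-- the product over the dyadic pieces -/
noncomputable def dy {U : I → Set X} (F : ∀ i, PathFun (S ∩ U i) G) : ℕ → (ℝ → X) → G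
  | 0, c => loc F c
  | n + 1, c => dy F n (fun t => c (t / 2)) * dy F n fun t => c ((t + 1) / 2)

open Classical in
/-- the glued value -/
noncomputable def gl {U : I → Set X} (F : ∀ i, PathFun (S ∩ U i) G) (c : ℝ → X) : G :=
  if h : ∃ n, Fine S U n c then dy F h.choose c else 1

variable {U : I → Set X} {F : ∀ i, PathFun (S ∩ U i) G}

theorem loc_eq (hF : ∀ i j c, IsPath (S ∩ U i ∩ U j) c → (F i).F c = (F j).F c) {i : I}
    {c : ℝ → X} (hc : IsPath (S ∩ U i) c) : loc F c = (F i).F c := by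
  have h : ∃ i, IsPath (S ∩ U i) c := ⟨i, hc⟩
  unfold loc
  rw [dif_pos h]
  apply hF
  exact ⟨hc.1, fun t ht => ⟨h.choose_spec.2 ht, (hc.2 ht).2⟩⟩

theorem fine_succ (hF : ∀ i j c, IsPath (S ∩ U i ∩ U j) c → (F i).F c = (F j).F c) (n : ℕ) :
    ∀ c : ℝ → X, Fine S U n c → Fine S U (n + 1) c ∧ dy F (n + 1) c = dy F n c := by
  induction n with
  | zero =>
    rintro c ⟨i, hc⟩
    refine ⟨⟨⟨i, path_l hc⟩, ⟨i, path_r hc⟩⟩, ?_⟩
    change loc F (fun t => c (t / 2)) * loc F (fun t => c ((t + 1) / 2)) = loc F c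
    rw [loc_eq hF (path_l hc), loc_eq hF (path_r hc), loc_eq hF hc]
    exact ((F i).mul c hc.1 hc.2).symm
  | succ n ih =>
    rintro c ⟨h1, h2⟩
    obtain ⟨a1, b1⟩ := ih _ h1
    obtain ⟨a2, b2⟩ := ih _ h2
    refine ⟨⟨a1, a2⟩, ?_⟩
    change dy F (n + 1) (fun t => c (t / 2)) * dy F (n + 1) (fun t => c ((t + 1) / 2)) =
      dy F n (fun t => c (t / 2)) * dy F n fun t => c ((t + 1) / 2)
    rw [b1, b2]

theorem fine_le (hF : ∀ i j c, IsPath (S ∩ U i ∩ U j) c → (F i).F c = (F j).F c) {n m : ℕ}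
    (h : n ≤ m) {c : ℝ → X} (hc : Fine S U n c) : Fine S U m c ∧ dy F m c = dy F n c := by
  induction m, h using Nat.le_induction with
  | base => exact ⟨hc, rfl⟩
  | succ m _ ih =>
    obtain ⟨a, b⟩ := fine_succ hF m c ih.1
    exact ⟨a, b.trans ih.2⟩

theorem gl_eq (hF : ∀ i j c, IsPath (S ∩ U i ∩ U j) c → (F i).F c = (F j).F c) {n : ℕ}
    {c : ℝ → X} (hc : Fine S U n c) : gl F c = dy F n c := by
  have h : ∃ n, Fine S U n c := ⟨n, hc⟩
  unfold gl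
  rw [dif_pos h]
  exact (fine_le hF (le_max_left _ n) h.choose_spec).2.symm.trans
    (fine_le hF (le_max_right _ n) hc).2

theorem gl_loc (hF : ∀ i j c, IsPath (S ∩ U i ∩ U j) c → (F i).F c = (F j).F c) {i : I}
    {c : ℝ → X} (hc : IsPath (S ∩ U i) c) : gl F c = (F i).F c :=
  (gl_eq hF (n := 0) ⟨i, hc⟩).trans (loc_eq hF hc)

/-- a continuous square in `S` -/
def IsSq (S : Set X) (H : ℝ → ℝ → X) : Prop :=
  ContinuousOn (fun a : ℝ × ℝ => H a.1 a.2) (Icc 0 1 ×ˢ Icc 0 1) ∧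
    ∀ s ∈ Icc (0 : ℝ) 1, ∀ t ∈ Icc (0 : ℝ) 1, H s t ∈ S

/-- all subsquares of side `2 ^ (-n)` are mapped into a member of the cover -/
def Mesh (U : I → Set X) (n : ℕ) (H : ℝ → ℝ → X) : Prop :=
  ∀ a b : ℝ, 0 ≤ a → a + 1 / 2 ^ n ≤ 1 → 0 ≤ b → b + 1 / 2 ^ n ≤ 1 →
    ∃ i, ∀ s ∈ Icc a (a + 1 / 2 ^ n), ∀ t ∈ Icc b (b + 1 / 2 ^ n), H s t ∈ U i

theorem exists_mesh (hU : ∀ i, IsOpen (U i)) (hcov : ∀ x ∈ S, ∃ i, x ∈ U i) {H : ℝ → ℝ → X}
    (hH : IsSq S H) : ∃ n, Mesh U n H := by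
  have h1 := continuousOn_iff'.1 hH.1
  choose V hV hVe using fun i => h1 (U i) (hU i)
  have hK : IsCompact (Icc (0 : ℝ) 1 ×ˢ Icc (0 : ℝ) 1) := isCompact_Icc.prod isCompact_Icc
  obtain ⟨δ, hδ, hball⟩ := lebesgue_number_lemma_of_metric hK hV (by
    intro p hp
    obtain ⟨i, hi⟩ := hcov _ (hH.2 p.1 hp.1 p.2 hp.2)
    have : p ∈ V i ∩ Icc (0 : ℝ) 1 ×ˢ Icc (0 : ℝ) 1 := by
      rw [← hVe]
      exact ⟨hi, hp⟩
    exact mem_iUnion.2 ⟨i, this.1⟩)
  obtain ⟨n, hn⟩ := exists_pow_lt_of_lt_one hδ (show (1 / 2 : ℝ) < 1 by norm_num)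
  rw [one_div_pow] at hn
  refine ⟨n, fun a b ha ha' hb hb' => ?_⟩
  have hp : (0 : ℝ) < 1 / 2 ^ n := by positivity
  obtain ⟨i, hi⟩ := hball (a, b) ⟨⟨ha, by linarith⟩, ⟨hb, by linarith⟩⟩
  refine ⟨i, fun s hs t ht => ?_⟩
  have hm : (s, t) ∈ V i ∩ Icc (0 : ℝ) 1 ×ˢ Icc (0 : ℝ) 1 := by
    refine ⟨hi ?_, ⟨by linarith [hs.1], by linarith [hs.2]⟩, ⟨by linarith [ht.1], by linarith [ht.2]⟩⟩
    rw [Metric.mem_ball, Prod.dist_eq, max_lt_iff, Real.dist_eq, Real.dist_eq, abs_lt, abs_lt]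
    refine ⟨⟨?_, ?_⟩, ?_, ?_⟩
    · linarith [hs.1]
    · linarith [hs.2]
    · linarith [ht.1]
    · linarith [ht.2]
  rw [← hVe] at hm
  exact hm.1

omit [TopologicalSpace X] in
theorem mesh_half {n : ℕ} {H : ℝ → ℝ → X} (h : Mesh U (n + 1) H) {u v : ℝ}
    (hu : u ∈ Icc (0 : ℝ) 1) (hv : v ∈ Icc (0 : ℝ) 1) :
    Mesh U n fun s t => H ((s + u) / 2) ((t + v) / 2) := by
  intro a b ha ha' hb hb'
  have e : (1 : ℝ) / 2 ^ (n + 1) = 1 / 2 ^ n / 2 := by
    rw [pow_succ, div_div]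
  obtain ⟨i, hi⟩ := h ((a + u) / 2) ((b + v) / 2) (by linarith [hu.1]) (by linarith [hu.2])
    (by linarith [hv.1]) (by linarith [hv.2])
  refine ⟨i, fun s hs t ht => hi _ ⟨?_, ?_⟩ _ ⟨?_, ?_⟩⟩
  · linarith [hs.1]
  · linarith [hs.2]
  · linarith [ht.1]
  · linarith [ht.2]

theorem fine_of_mesh (n : ℕ) :
    ∀ c : ℝ → X, IsPath S c → Mesh U n (fun _ t => c t) → Fine S U n c := by
  induction n with
  | zero =>
    intro c hc h
    obtain ⟨i, hi⟩ := h 0 0 le_rfl (by norm_num) le_rfl (by norm_num)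
    refine ⟨i, hc.1, fun t ht => ⟨hc.2 ht, hi 0 ⟨le_rfl, by norm_num⟩ t ⟨ht.1, ?_⟩⟩⟩
    have := ht.2
    norm_num
    exact this
  | succ n ih =>
    intro c hc h
    refine ⟨ih _ (path_l hc) ?_, ih _ (path_r hc) ?_⟩
    · have := mesh_half h (u := 0) (v := 0) ⟨le_rfl, zero_le_one⟩ ⟨le_rfl, zero_le_one⟩
      simpa only [add_zero] using this
    · exact mesh_half h (u := 0) (v := 1) ⟨le_rfl, zero_le_one⟩ ⟨zero_le_one, le_rfl⟩

theorem exists_fine (hU : ∀ i, IsOpen (U i)) (hcov : ∀ x ∈ S, ∃ i, x ∈ U i) {c : ℝ → X}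
    (hc : IsPath S c) : ∃ n, Fine S U n c := by
  obtain ⟨n, hn⟩ := exists_mesh hU hcov (H := fun _ t => c t)
    ⟨hc.1.comp continuous_snd.continuousOn fun _ hp => hp.2, fun _ _ _ ht => hc.2 ht⟩
  exact ⟨n, fine_of_mesh n c hc hn⟩

theorem gl_mul (hU : ∀ i, IsOpen (U i)) (hcov : ∀ x ∈ S, ∃ i, x ∈ U i)
    (hF : ∀ i j c, IsPath (S ∩ U i ∩ U j) c → (F i).F c = (F j).F c) {c : ℝ → X}
    (hc : IsPath S c) :
    gl F c = gl F (fun t => c (t / 2)) * gl F fun t => c ((t + 1) / 2) := by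
  obtain ⟨n, hn⟩ := exists_fine hU hcov hc
  obtain ⟨h1, -⟩ := fine_succ hF n c hn
  rw [gl_eq hF h1, gl_eq hF h1.1, gl_eq hF h1.2]
  rfl

theorem sq_row {T : Set X} {H : ℝ → ℝ → X} (hH : IsSq T H) {s : ℝ} (hs : s ∈ Icc (0 : ℝ) 1) :
    IsPath T (H s) :=
  ⟨hH.1.comp (f := fun t : ℝ => (s, t)) (by fun_prop) fun _ ht => ⟨hs, ht⟩,
    fun t ht => hH.2 s hs t ht⟩

theorem sq_col {T : Set X} {H : ℝ → ℝ → X} (hH : IsSq T H) {t : ℝ} (ht : t ∈ Icc (0 : ℝ) 1) :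
    IsPath T fun s => H s t :=
  ⟨hH.1.comp (f := fun s : ℝ => (s, t)) (by fun_prop) fun _ hs => ⟨hs, ht⟩,
    fun s hs => hH.2 s hs t ht⟩

theorem sq_half {T : Set X} {H : ℝ → ℝ → X} (hH : IsSq T H) {u v : ℝ}
    (hu : u ∈ Icc (0 : ℝ) 1) (hv : v ∈ Icc (0 : ℝ) 1) :
    IsSq T fun s t => H ((s + u) / 2) ((t + v) / 2) := by
  have m : ∀ {s u : ℝ}, s ∈ Icc (0 : ℝ) 1 → u ∈ Icc (0 : ℝ) 1 → (s + u) / 2 ∈ Icc (0 : ℝ) 1 :=
    fun hs hu => ⟨by linarith [hs.1, hu.1], by linarith [hs.2, hu.2]⟩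
  exact ⟨hH.1.comp (f := fun a : ℝ × ℝ => ((a.1 + u) / 2, (a.2 + v) / 2)) (by fun_prop)
    fun _ hp => ⟨m hp.1 hu, m hp.2 hv⟩, fun s hs t ht => hH.2 _ (m hs hu) _ (m ht hv)⟩

theorem gl_sq_mesh (hU : ∀ i, IsOpen (U i)) (hcov : ∀ x ∈ S, ∃ i, x ∈ U i)
    (hF : ∀ i j c, IsPath (S ∩ U i ∩ U j) c → (F i).F c = (F j).F c) (n : ℕ) :
    ∀ H : ℝ → ℝ → X, IsSq S H → Mesh U n H →
      gl F (H 0) * gl F (fun s => H s 1) = gl F (fun s => H s 0) * gl F (H 1) := by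
  have z : (0 : ℝ) ∈ Icc (0 : ℝ) 1 := ⟨le_rfl, zero_le_one⟩
  have o : (1 : ℝ) ∈ Icc (0 : ℝ) 1 := ⟨zero_le_one, le_rfl⟩
  induction n with
  | zero =>
    intro H hH h
    obtain ⟨i, hi⟩ := h 0 0 le_rfl (by norm_num) le_rfl (by norm_num)
    have e : (0 : ℝ) + 1 / 2 ^ 0 = 1 := by norm_num
    rw [e] at hi
    have hH' : IsSq (S ∩ U i) H := ⟨hH.1, fun s hs t ht => ⟨hH.2 s hs t ht, hi s hs t ht⟩⟩
    rw [gl_loc hF (sq_row hH' z), gl_loc hF (sq_row hH' o), gl_loc hF (sq_col hH' z),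
      gl_loc hF (sq_col hH' o)]
    exact (F i).square hH'.1 hH'.2
  | succ n ih =>
    intro H hH h
    have q00 := ih _ (sq_half hH z z) (mesh_half h z z)
    have q01 := ih _ (sq_half hH z o) (mesh_half h z o)
    have q10 := ih _ (sq_half hH o z) (mesh_half h o z)
    have q11 := ih _ (sq_half hH o o) (mesh_half h o o)
    have e2 : ((1 : ℝ) + 1) / 2 = 1 := by norm_num
    simp only [add_zero, zero_add, zero_div, e2] at q00 q01 q10 q11
    rw [gl_mul hU hcov hF (sq_row hH z), gl_mul hU hcov hF (sq_row hH o),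
      gl_mul hU hcov hF (sq_col hH z), gl_mul hU hcov hF (sq_col hH o)]
    calc _ = gl F (fun t => H 0 (t / 2)) * (gl F (fun t => H 0 ((t + 1) / 2)) *
          gl F (fun s => H (s / 2) 1)) * gl F (fun s => H ((s + 1) / 2) 1) := by
          simp only [mul_assoc]
      _ = (gl F (fun t => H 0 (t / 2)) * gl F (fun s => H (s / 2) (1 / 2))) *
          (gl F (fun t => H (1 / 2) ((t + 1) / 2)) * gl F (fun s => H ((s + 1) / 2) 1)) := by
          rw [q01]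
          simp only [mul_assoc]
      _ = gl F (fun s => H (s / 2) 0) * (gl F (fun t => H (1 / 2) (t / 2)) *
          gl F (fun s => H ((s + 1) / 2) (1 / 2))) * gl F (fun t => H 1 ((t + 1) / 2)) := by
          rw [q00, q11]
          simp only [mul_assoc]
      _ = _ := by
          rw [q10]
          simp only [mul_assoc]

theorem gl_const (hcov : ∀ x ∈ S, ∃ i, x ∈ U i)
    (hF : ∀ i j c, IsPath (S ∩ U i ∩ U j) c → (F i).F c = (F j).F c) {c : ℝ → X} {x : X}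
    (hx : x ∈ S) (h : ∀ t ∈ Icc (0 : ℝ) 1, c t = x) : gl F c = 1 := by
  obtain ⟨i, hi⟩ := hcov x hx
  have h0 : IsPath (S ∩ U i) fun _ => x := ⟨continuousOn_const, fun _ _ => ⟨hx, hi⟩⟩
  have h1 : IsPath (S ∩ U i) c :=
    ⟨h0.1.congr h, fun t ht => by rw [h t ht]; exact ⟨hx, hi⟩⟩
  rw [gl_loc hF h1, (F i).congr h0 h]
  exact (F i).const ⟨hx, hi⟩

end GlueAux

/-- gluing of functors given on an open cover -/
theorem pathFun_glue {X : Type} [TopologicalSpace X] {S : Set X} {G : Type} [Group G] {I : Type}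
    (U : I → Set X) (hU : ∀ i, IsOpen (U i)) (hcov : ∀ x ∈ S, ∃ i, x ∈ U i)
    (F : ∀ i, PathFun (S ∩ U i) G)
    (hF : ∀ i j c, IsPath (S ∩ U i ∩ U j) c → (F i).F c = (F j).F c) :
    ∃ F' : PathFun S G, ∀ i c, IsPath (S ∩ U i) c → F'.F c = (F i).F c := by
  refine ⟨⟨GlueAux.gl F, ?_, fun c h1 h2 => GlueAux.gl_mul hU hcov hF ⟨h1, h2⟩⟩,
    fun i c hc => GlueAux.gl_loc hF hc⟩
  intro H h1 h2 h3
  have z : (0 : ℝ) ∈ Icc (0 : ℝ) 1 := ⟨le_rfl, zero_le_one⟩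
  have o : (1 : ℝ) ∈ Icc (0 : ℝ) 1 := ⟨zero_le_one, le_rfl⟩
  obtain ⟨n, hn⟩ := GlueAux.exists_mesh hU hcov (H := H) ⟨h1, h2⟩
  have h := GlueAux.gl_sq_mesh hU hcov hF n H ⟨h1, h2⟩ hn
  rw [GlueAux.gl_const hcov hF (h2 0 z 1 o) fun s hs => (h3 s hs).2,
    GlueAux.gl_const hcov hF (h2 0 z 0 z) fun s hs => (h3 s hs).1, mul_one, one_mul] at h
  exact h

end Pool.Agent.Lib.MP_4d7d0a_gt
end

-- part Pool.Agent.Lib.MP_4d7d0a_gt.TFA
section

/-! Additive homotopy invariants of free loops. -/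

set_option autoImplicit false

open Set Filter Topology
open scoped ContDiff

namespace Pool.Agent.Lib.MP_4d7d0a_gt

/-- an additive homotopy invariant of the free loops in `S` -/
structure LoopFun {X : Type} [TopologicalSpace X] (S : Set X) where
  L : (ℝ → X) → ℤ
  hom : ∀ H : ℝ → ℝ → X, ContinuousOn (fun a : ℝ × ℝ => H a.1 a.2) (Icc 0 1 ×ˢ Icc 0 1) →
    (∀ s ∈ Icc (0 : ℝ) 1, ∀ t ∈ Icc (0 : ℝ) 1, H s t ∈ S) → (∀ s ∈ Icc (0 : ℝ) 1, H s 1 = H s 0) →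
    L (H 0) = L (H 1)
  add : ∀ c : ℝ → X, IsPath S c → c 1 = c 0 → c (1 / 2) = c 0 →
    L c = L (fun t => c (t / 2)) + L fun t => c ((t + 1) / 2)

namespace LoopFun

variable {X : Type} [TopologicalSpace X] {S : Set X} (Λ : LoopFun S)

theorem congr {c c' : ℝ → X} (hc : IsPath S c) (h1 : c 1 = c 0)
    (h : ∀ t ∈ Icc (0 : ℝ) 1, c' t = c t) : Λ.L c' = Λ.L c := by
  have h2 := Λ.hom (fun s t => if s = 0 then c' t else c t) ?_ ?_ ?_
  · simpa using h2
  · have h2 : ContinuousOn (fun a : ℝ × ℝ => c a.2) (Icc 0 1 ×ˢ Icc 0 1) :=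
      hc.1.comp continuous_snd.continuousOn fun a ha => ha.2
    refine h2.congr fun a ha => ?_
    by_cases h0 : a.1 = 0
    · simp only [if_pos h0]
      exact h _ ha.2
    · simp only [if_neg h0]
  · intro s _ t ht
    by_cases h0 : s = 0
    · simp only [if_pos h0]
      rw [h t ht]
      exact hc.2 ht
    · simp only [if_neg h0]
      exact hc.2 ht
  · intro s _
    by_cases h0 : s = 0
    · simp only [if_pos h0]
      rw [h 0 ⟨le_rfl, zero_le_one⟩, h 1 ⟨zero_le_one, le_rfl⟩, h1]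
    · simp only [if_neg h0]
      exact h1

theorem const {x : X} (hx : x ∈ S) : Λ.L (fun _ => x) = 0 := by
  have h := Λ.add (fun _ => x) ⟨continuousOn_const, fun _ _ => hx⟩ rfl rfl
  omega

theorem tfa_path_rev {c : ℝ → X} (hc : IsPath S c) : IsPath S fun t => c (1 - t) :=
  ⟨hc.1.comp (f := fun t : ℝ => 1 - t) (by fun_prop)
      fun _ ht => ⟨by linarith [ht.2], by linarith [ht.1]⟩,
    fun _ ht => hc.2 ⟨by linarith [ht.2], by linarith [ht.1]⟩⟩

theorem rev {c : ℝ → X} (hc : IsPath S c) (h1 : c 1 = c 0) :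
    Λ.L (fun t => c (1 - t)) = -Λ.L c := by
  have hm : ∀ s ∈ Icc (0 : ℝ) 1, ∀ t ∈ Icc (0 : ℝ) 1, (1 - s) * (1 - |2 * t - 1|) ∈ Icc (0 : ℝ) 1 := by
    intro s hs t ht
    have a1 : |2 * t - 1| ≤ 1 := abs_le.2 ⟨by linarith [ht.1], by linarith [ht.2]⟩
    have a2 := abs_nonneg (2 * t - 1)
    exact ⟨mul_nonneg (by linarith [hs.2]) (by linarith),
      mul_le_one₀ (by linarith [hs.1]) (by linarith) (by linarith)⟩
  have hH := Λ.hom (fun s t => c ((1 - s) * (1 - |2 * t - 1|)))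
    (hc.1.comp (f := fun a : ℝ × ℝ => (1 - a.1) * (1 - |2 * a.2 - 1|)) (by fun_prop)
      fun a ha => hm _ ha.1 _ ha.2) (fun s hs t ht => hc.2 (hm s hs t ht))
    (fun s _ => by norm_num)
  simp only [sub_zero, one_mul, sub_self, zero_mul] at hH
  rw [Λ.const (hc.2 ⟨le_rfl, zero_le_one⟩)] at hH
  have hm0 : ∀ t ∈ Icc (0 : ℝ) 1, 1 - |2 * t - 1| ∈ Icc (0 : ℝ) 1 := fun t ht => by
    simpa using hm 0 ⟨le_rfl, zero_le_one⟩ t ht
  have hA := Λ.add (fun t => c (1 - |2 * t - 1|))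
    ⟨hc.1.comp (f := fun t : ℝ => 1 - |2 * t - 1|) (by fun_prop) hm0, fun t ht => hc.2 (hm0 t ht)⟩
    (by norm_num) (by norm_num [h1])
  have e1 : Λ.L (fun t => c (1 - |2 * (t / 2) - 1|)) = Λ.L c := Λ.congr hc h1 fun t ht => by
    rw [abs_of_nonpos (by linarith [ht.2])]
    congr 1
    ring
  have e2 : Λ.L (fun t => c (1 - |2 * ((t + 1) / 2) - 1|)) = Λ.L fun t => c (1 - t) :=
    Λ.congr (tfa_path_rev hc) (by simp [h1]) fun t ht => by
      rw [abs_of_nonneg (by linarith [ht.1])]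
      congr 1
      ring
  rw [hH, e1, e2] at hA
  omega

/-- the diagonal of a torus is the sum of the two sides -/
theorem torus {Φ : ℝ → ℝ → X}
    (hΦ : ContinuousOn (fun a : ℝ × ℝ => Φ a.1 a.2) (Icc 0 1 ×ˢ Icc 0 1))
    (hS : ∀ s ∈ Icc (0 : ℝ) 1, ∀ t ∈ Icc (0 : ℝ) 1, Φ s t ∈ S)
    (h1 : ∀ t ∈ Icc (0 : ℝ) 1, Φ 1 t = Φ 0 t) (h2 : ∀ s ∈ Icc (0 : ℝ) 1, Φ s 1 = Φ s 0) :
    Λ.L (fun t => Φ t t) = Λ.L (fun t => Φ t 0) + Λ.L fun t => Φ 0 t := by
  have z0 : (0 : ℝ) ∈ Icc (0 : ℝ) 1 := ⟨le_rfl, zero_le_one⟩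
  have z1 : (1 : ℝ) ∈ Icc (0 : ℝ) 1 := ⟨zero_le_one, le_rfl⟩
  have m1 : ∀ t ∈ Icc (0 : ℝ) 1, min (2 * t) 1 ∈ Icc (0 : ℝ) 1 := fun t ht =>
    ⟨le_min (by linarith [ht.1]) zero_le_one, min_le_right _ _⟩
  have m2 : ∀ t ∈ Icc (0 : ℝ) 1, max (2 * t - 1) 0 ∈ Icc (0 : ℝ) 1 := fun t ht =>
    ⟨le_max_right _ _, max_le (by linarith [ht.2]) zero_le_one⟩
  have cv : ∀ s ∈ Icc (0 : ℝ) 1, ∀ a ∈ Icc (0 : ℝ) 1, ∀ b ∈ Icc (0 : ℝ) 1,
      (1 - s) * a + s * b ∈ Icc (0 : ℝ) 1 := fun s hs a ha b hb =>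
    ⟨by nlinarith [hs.1, hs.2, ha.1, hb.1], by nlinarith [hs.1, hs.2, ha.2, hb.2]⟩
  have pth : ∀ α β : ℝ → ℝ, Continuous α → Continuous β → MapsTo α (Icc 0 1) (Icc 0 1) →
      MapsTo β (Icc 0 1) (Icc 0 1) → IsPath S fun t => Φ (α t) (β t) := fun α β a b a' b' =>
    ⟨hΦ.comp (f := fun t => (α t, β t)) (by fun_prop) fun t ht => ⟨a' ht, b' ht⟩,
      fun t ht => hS _ (a' ht) _ (b' ht)⟩
  have h11 : Φ 1 1 = Φ 0 0 := (h1 1 z1).trans (h2 0 z0)
  have hH := Λ.hom (fun s t => Φ ((1 - s) * t + s * min (2 * t) 1)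
      ((1 - s) * t + s * max (2 * t - 1) 0))
    (hΦ.comp (f := fun a : ℝ × ℝ => ((1 - a.1) * a.2 + a.1 * min (2 * a.2) 1,
      (1 - a.1) * a.2 + a.1 * max (2 * a.2 - 1) 0)) (by fun_prop)
      fun a ha => ⟨cv _ ha.1 _ ha.2 _ (m1 _ ha.2), cv _ ha.1 _ ha.2 _ (m2 _ ha.2)⟩)
    (fun s hs t ht => hS _ (cv _ hs _ ht _ (m1 _ ht)) _ (cv _ hs _ ht _ (m2 _ ht)))
    (fun s _ => by norm_num [h11])
  simp only [sub_zero, one_mul, sub_self, zero_mul, add_zero, zero_add] at hH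
  have hA := Λ.add _ (pth (fun t => min (2 * t) 1) (fun t => max (2 * t - 1) 0) (by fun_prop)
    (by fun_prop) m1 m2) (by norm_num [h11]) (by norm_num [h1 0 z0])
  have e1 : Λ.L (fun t => Φ (min (2 * (t / 2)) 1) (max (2 * (t / 2) - 1) 0)) =
      Λ.L fun t => Φ t 0 :=
    Λ.congr (pth (fun t => t) (fun _ => 0) (by fun_prop) (by fun_prop) (fun _ h => h)
      fun _ _ => z0) (h1 0 z0) fun t ht => by
      rw [min_eq_left (by linarith [ht.2]), max_eq_right (by linarith [ht.2])]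
      congr 1
      ring
  have e2 : Λ.L (fun t => Φ (min (2 * ((t + 1) / 2)) 1) (max (2 * ((t + 1) / 2) - 1) 0)) =
      Λ.L fun t => Φ 0 t :=
    Λ.congr (pth (fun _ => 0) (fun t => t) (by fun_prop) (by fun_prop) (fun _ _ => z0)
      fun _ h => h) (h2 0 z0) fun t ht => by
      rw [min_eq_right (by linarith [ht.1]), max_eq_left (by linarith [ht.1]), ← h1 t ht]
      congr 1
      ring
  rw [hH, hA, e1, e2]

theorem exists_comap {Y : Type} [TopologicalSpace Y] {S' : Set Y} {f : Y → X}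
    (hf : ContinuousOn f S') (hS : MapsTo f S' S) :
    ∃ Λ' : LoopFun S', ∀ c, Λ'.L c = Λ.L fun t => f (c t) :=
  ⟨⟨fun c => Λ.L fun t => f (c t),
    fun H hc hs hl => Λ.hom (fun s t => f (H s t)) (hf.comp hc fun a ha => hs _ ha.1 _ ha.2)
      (fun s h t ht => hS (hs s h t ht)) fun s h => by rw [hl s h],
    fun c hc h1 h2 => Λ.add (fun t => f (c t)) ⟨hf.comp hc.1 hc.2, fun t ht => hS (hc.2 ht)⟩
      (by simp only [h1]) (by simp only [h2])⟩, fun _ => rfl⟩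

end LoopFun

/-- the linking number in the second argument -/
theorem exists_lkR (T : KTheory) {A : ℝ → P3} (hA : IsLoop A) :
    ∃ Λ : LoopFun (A '' Icc (0 : ℝ) 1)ᶜ, ∀ B, Λ.L B = T.lk A B :=
  ⟨⟨T.lk A, fun H hc hs hl => T.lk_hom (fun _ => A) H
      (hA.1.comp continuous_snd.continuousOn fun _ ha => ha.2) hc
      fun s h => ⟨hA.2, hl s h, fun u hu t ht e => hs s h t ht ⟨u, hu, e⟩⟩,
    fun c hc h1 h2 => T.lk_add_right A c hA ⟨hc.1, h1⟩
      (fun u hu _ ht e => hc.2 ht ⟨u, hu, e⟩) h2⟩, fun _ => rfl⟩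

/-- the linking number in the first argument -/
theorem exists_lkL (T : KTheory) {B : ℝ → P3} (hB : IsLoop B) :
    ∃ Λ : LoopFun (B '' Icc (0 : ℝ) 1)ᶜ, ∀ A, Λ.L A = T.lk A B :=
  ⟨⟨fun A => T.lk A B, fun H hc hs hl => T.lk_hom H (fun _ => B) hc
      (hB.1.comp continuous_snd.continuousOn fun _ ha => ha.2)
      fun s h => ⟨hl s h, hB.2, fun t ht u hu e => hs s h t ht ⟨u, hu, e.symm⟩⟩,
    fun c hc h1 h2 => T.lk_add_left c B ⟨hc.1, h1⟩ hB
      (fun _ ht u hu e => hc.2 ht ⟨u, hu, e.symm⟩) h2⟩, fun _ => rfl⟩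

theorem tfa_pathL {A B : ℝ → P3} (hA : IsLoop A) (h : Apart A B) :
    IsPath (B '' Icc (0 : ℝ) 1)ᶜ A :=
  ⟨hA.1, fun t ht ⟨u, hu, e⟩ => h t ht u hu e.symm⟩

theorem tfa_pathR {A B : ℝ → P3} (hB : IsLoop B) (h : Apart A B) :
    IsPath (A '' Icc (0 : ℝ) 1)ᶜ B :=
  ⟨hB.1, fun t ht ⟨u, hu, e⟩ => h u hu t ht e⟩

theorem lk_congr (T : KTheory) {A B A' B' : ℝ → P3} (hA : IsLoop A) (hB : IsLoop B)
    (h : Apart A B) (hA' : ∀ t ∈ Icc (0 : ℝ) 1, A' t = A t) (hB' : ∀ t ∈ Icc (0 : ℝ) 1, B' t = B t) :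
    T.lk A' B' = T.lk A B := by
  have lB : IsLoop B' := ⟨hB.1.congr hB', by
    rw [hB' 0 ⟨le_rfl, zero_le_one⟩, hB' 1 ⟨zero_le_one, le_rfl⟩, hB.2]⟩
  have h' : Apart A B' := fun s hs t ht => by
    rw [hB' t ht]
    exact h s hs t ht
  obtain ⟨Λ, hΛ⟩ := exists_lkL T lB
  obtain ⟨Λ', hΛ'⟩ := exists_lkR T hA
  rw [← hΛ A', Λ.congr (tfa_pathL hA h') hA.2 hA', hΛ, ← hΛ' B',
    Λ'.congr (tfa_pathR hB h) hB.2 hB', hΛ']

theorem lk_rev (T : KTheory) {A B : ℝ → P3} (hA : IsLoop A) (hB : IsLoop B) (h : Apart A B) :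
    T.lk (fun t => A (1 - t)) (fun t => B (1 - t)) = T.lk A B := by
  have lB : IsLoop fun t => B (1 - t) :=
    ⟨(LoopFun.tfa_path_rev (tfa_pathR hB h)).1, by simp [hB.2]⟩
  have h' : Apart A fun t => B (1 - t) := fun s hs t ht =>
    h s hs _ ⟨by linarith [ht.2], by linarith [ht.1]⟩
  obtain ⟨Λ, hΛ⟩ := exists_lkL T lB
  obtain ⟨Λ', hΛ'⟩ := exists_lkR T hA
  rw [← hΛ, Λ.rev (tfa_pathL hA h') hA.2, hΛ, ← hΛ', Λ'.rev (tfa_pathR hB h) hB.2, hΛ', neg_neg]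

end Pool.Agent.Lib.MP_4d7d0a_gt
end

-- part Pool.Agent.Lib.MP_4d7d0a_gt.TFC
section

/-! Framed knots: push-offs miss the knot. -/

set_option autoImplicit false

open Set Filter Topology
open scoped ContDiff

namespace Pool.Agent.Lib.MP_4d7d0a_gt

/-- a knot `c` with velocity `d` and a framing `v` -/
structure Framed (c d v : ℝ → P3) : Prop where
  der : ∀ t, HasDerivAt c (d t) t
  cd : Continuous d
  cv : Continuous v
  per : ∀ t, c (t + 1) = c t
  perv : ∀ t, v (t + 1) = v t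
  inj : InjOn c (Ico 0 1)
  ind : ∀ (t a b : ℝ), a • d t + b • v t = 0 → a = 0 ∧ b = 0

theorem tfc_int {X : Type} {c : ℝ → X} (per : ∀ t, c (t + 1) = c t) (t : ℝ) (k : ℤ) :
    c (t + k) = c t := by
  have hp : Function.Periodic c 1 := per
  simpa using hp.int_mul k t

theorem tfc_eq {X : Type} {c : ℝ → X} (per : ∀ t, c (t + 1) = c t) (inj : InjOn c (Ico 0 1))
    {s t : ℝ} (h : c s = c t) : ∃ k : ℤ, s = t + k := by
  have hfr : ∀ x : ℝ, c (Int.fract x) = c x := fun x => by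
    rw [← tfc_int per (Int.fract x) ⌊x⌋, Int.fract_add_floor]
  have h1 : Int.fract s = Int.fract t :=
    inj ⟨Int.fract_nonneg s, Int.fract_lt_one s⟩ ⟨Int.fract_nonneg t, Int.fract_lt_one t⟩
      (by rw [hfr, hfr, h])
  refine ⟨⌊s⌋ - ⌊t⌋, ?_⟩
  have a := Int.fract_add_floor s
  have b := Int.fract_add_floor t
  push_cast
  linarith

theorem tfc_red (t t' : ℝ) : ∃ (k k' : ℤ) (a τ : ℝ), a ∈ Icc (0 : ℝ) 1 ∧
    τ ∈ Icc (-(1 / 2) : ℝ) (1 / 2) ∧ t = a + k ∧ t' = a + τ + k' := by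
  refine ⟨⌊t⌋, ⌊t⌋ + round (t' - t), Int.fract t, t' - t - round (t' - t),
    ⟨Int.fract_nonneg t, (Int.fract_lt_one t).le⟩, abs_le.1 (abs_sub_round _),
    (Int.fract_add_floor t).symm, ?_⟩
  have a := Int.fract_add_floor t
  push_cast
  linarith

theorem tfc_fun {d v : P3} (h : ∀ a b : ℝ, a • d + b • v = 0 → a = 0 ∧ b = 0) :
    ∃ m l : P3 →L[ℝ] ℝ, m d = 1 ∧ m v = 0 ∧ l d = 0 ∧ l v = 1 := by
  let φ : (ℝ × ℝ) →ₗ[ℝ] P3 :=
    (LinearMap.fst ℝ ℝ ℝ).smulRight d + (LinearMap.snd ℝ ℝ ℝ).smulRight v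
  have hφ : ∀ a : ℝ × ℝ, φ a = a.1 • d + a.2 • v := fun a => rfl
  obtain ⟨g, hg⟩ := φ.exists_leftInverse_of_injective (LinearMap.ker_eq_bot'.2 fun a ha => by
    have := h a.1 a.2 (by rw [← hφ]; exact ha)
    exact Prod.ext this.1 this.2)
  have h1 : g d = (1, 0) := by
    have := LinearMap.congr_fun hg (1, 0)
    simpa [hφ] using this
  have h2 : g v = (0, 1) := by
    have := LinearMap.congr_fun hg (0, 1)
    simpa [hφ] using this
  exact ⟨((LinearMap.fst ℝ ℝ ℝ).comp g).toContinuousLinearMap,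
    ((LinearMap.snd ℝ ℝ ℝ).comp g).toContinuousLinearMap, by simp [h1], by simp [h2],
    by simp [h1], by simp [h2]⟩

theorem tfc_mono {c d : ℝ → P3} (der : ∀ t, HasDerivAt c (d t) t) (m : P3 →L[ℝ] ℝ) {I : Set ℝ}
    (hI : Convex ℝ I) (hm : ∀ t ∈ I, 0 < m (d t)) : StrictMonoOn (fun t => m (c t)) I := by
  have hd : ∀ t, HasDerivAt (fun t => m (c t)) (m (d t)) t := fun t =>
    m.hasFDerivAt.comp_hasDerivAt t (der t)
  refine strictMonoOn_of_deriv_pos hI (fun t _ => (hd t).continuousAt.continuousWithinAt)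
    fun t ht => ?_
  rw [(hd t).deriv]
  exact hm t (interior_subset ht)

/-- the cone estimate on an interval -/
theorem tfc_cone {c d : ℝ → P3} (der : ∀ t, HasDerivAt c (d t) t) (m l : P3 →L[ℝ] ℝ) {I : Set ℝ}
    (hI : Convex ℝ I) (hm : ∀ t ∈ I, |l (d t)| < m (d t)) {t t' : ℝ} (ht : t ∈ I) (ht' : t' ∈ I) :
    (c t = c t' → t = t') ∧ |l (c t - c t')| ≤ |m (c t - c t')| := by
  have h1 := tfc_mono der (m + l) hI fun x hx => by
    have := abs_lt.1 (hm x hx)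
    simp only [add_apply]
    linarith [this.1]
  have h2 := tfc_mono der (m - l) hI fun x hx => by
    have := abs_lt.1 (hm x hx)
    simp only [sub_apply]
    linarith [this.2]
  refine ⟨fun h => h1.injOn ht ht' (by simp only [h]), ?_⟩
  rcases le_total t t' with h | h
  · have a := h1.monotoneOn ht ht' h
    have b := h2.monotoneOn ht ht' h
    simp only [add_apply, sub_apply] at a b
    rw [map_sub, map_sub]
    refine le_trans (abs_le.2 ⟨by linarith, by linarith⟩) (neg_le_abs _)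
  · have a := h1.monotoneOn ht' ht h
    have b := h2.monotoneOn ht' ht h
    simp only [add_apply, sub_apply] at a b
    rw [map_sub, map_sub]
    refine le_trans (abs_le.2 ⟨by linarith, by linarith⟩) (le_abs_self _)

/-- near a framed knot, curves are embedded and miss their approximate push-offs -/
theorem fr_loc {Z : Type} [TopologicalSpace Z] {c d v : Z → ℝ → P3} {s₀ : Z}
    (hc : Continuous fun a : Z × ℝ => c a.1 a.2) (hd : Continuous fun a : Z × ℝ => d a.1 a.2)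
    (hv : Continuous fun a : Z × ℝ => v a.1 a.2) (der : ∀ s t, HasDerivAt (c s) (d s t) t)
    (per : ∀ s t, c s (t + 1) = c s t) (perv : ∀ s t, v s (t + 1) = v s t)
    (h0 : Framed (c s₀) (d s₀) (v s₀)) :
    ∀ᶠ z : Z × ℝ in 𝓝 (s₀, 0), InjOn (c z.1) (Ico 0 1) ∧ ∀ (t t' ε : ℝ) (e : P3), 0 < ε →
      ε ≤ z.2 → ‖e‖ ≤ z.2 * ε → c z.1 t ≠ c z.1 t' + ε • v z.1 t' + e := by
  have hK : IsCompact (Icc (0 : ℝ) 1 ×ˢ Icc (-(1 / 2) : ℝ) (1 / 2)) :=
    isCompact_Icc.prod isCompact_Icc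
  have key := hK.eventually_forall_of_forall_eventually (x₀ := ((s₀, 0) : Z × ℝ))
    (P := fun z y => (c z.1 (y.1 + y.2) = c z.1 y.1 → y.2 = 0) ∧ ∀ (ε : ℝ) (e : P3), 0 < ε →
      ε ≤ z.2 → ‖e‖ ≤ z.2 * ε → c z.1 (y.1 + y.2) ≠ c z.1 y.1 + ε • v z.1 y.1 + e) ?_
  · filter_upwards [key] with z hz
    refine ⟨fun t ht t' ht' h => ?_, fun t t' ε e h1 h2 h3 => ?_⟩
    · obtain ⟨k, k', a, τ, ha, hτ, rfl, rfl⟩ := tfc_red t' t
      rw [tfc_int (per z.1), tfc_int (per z.1)] at h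
      have h4 : τ = 0 := (hz (a, τ) ⟨ha, hτ⟩).1 h
      subst h4
      have h5 : ((k' - k : ℤ) : ℝ) < 1 := by
        push_cast
        linarith [ht.2, ht'.1]
      have h6 : (-1 : ℝ) < ((k' - k : ℤ) : ℝ) := by
        push_cast
        linarith [ht.1, ht'.2]
      have h7 : k' - k < 1 := by exact_mod_cast h5
      have h8 : -1 < k' - k := by exact_mod_cast h6
      have h9 : k' = k := by omega
      rw [h9, add_zero]
    · obtain ⟨k, k', a, τ, ha, hτ, rfl, rfl⟩ := tfc_red t' t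
      rw [tfc_int (per z.1), tfc_int (per z.1), tfc_int (perv z.1)]
      exact (hz (a, τ) ⟨ha, hτ⟩).2 ε e h1 h2 h3
  rintro ⟨a, τ⟩ ⟨-, hτ⟩
  have c1 : Continuous fun w : (Z × ℝ) × ℝ × ℝ => c w.1.1 (w.2.1 + w.2.2) :=
    hc.comp (f := fun w : (Z × ℝ) × ℝ × ℝ => (w.1.1, w.2.1 + w.2.2)) (by fun_prop)
  have c2 : Continuous fun w : (Z × ℝ) × ℝ × ℝ => c w.1.1 w.2.1 :=
    hc.comp (f := fun w : (Z × ℝ) × ℝ × ℝ => (w.1.1, w.2.1)) (by fun_prop)
  have c3 : Continuous fun w : (Z × ℝ) × ℝ × ℝ => v w.1.1 w.2.1 :=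
    hv.comp (f := fun w : (Z × ℝ) × ℝ × ℝ => (w.1.1, w.2.1)) (by fun_prop)
  by_cases h0τ : τ = 0
  · subst h0τ
    obtain ⟨m, l, hm1, hm2, hl1, hl2⟩ := tfc_fun (h0.ind a)
    have o1 : IsOpen {w : Z × ℝ | |l (d w.1 w.2)| < m (d w.1 w.2)} :=
      isOpen_lt (by fun_prop) (by fun_prop)
    have m1 : (s₀, a) ∈ {w : Z × ℝ | |l (d w.1 w.2)| < m (d w.1 w.2)} := by
      simp [hm1, hl1]
    obtain ⟨N, hN, W, hW, hNW⟩ := mem_nhds_prod_iff.1 (o1.mem_nhds m1)
    obtain ⟨δ, hδ, hδW⟩ := Metric.mem_nhds_iff.1 hW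
    have e1 : ∀ᶠ w : (Z × ℝ) × ℝ × ℝ in 𝓝 ((s₀, 0), a, 0), w.1.1 ∈ N :=
      (continuous_fst.comp continuous_fst).continuousAt.preimage_mem_nhds hN
    have e2 : ∀ᶠ w : (Z × ℝ) × ℝ × ℝ in 𝓝 ((s₀, 0), a, 0), w.2.1 ∈ Metric.ball a δ :=
      (continuous_fst.comp continuous_snd).continuousAt.preimage_mem_nhds
        (Metric.ball_mem_nhds a hδ)
    have e3 : ∀ᶠ w : (Z × ℝ) × ℝ × ℝ in 𝓝 ((s₀, 0), a, 0), w.2.1 + w.2.2 ∈ Metric.ball a δ := by
      have : ContinuousAt (fun w : (Z × ℝ) × ℝ × ℝ => w.2.1 + w.2.2) ((s₀, 0), a, 0) := by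
        fun_prop
      exact this.preimage_mem_nhds (by simpa using Metric.ball_mem_nhds a hδ)
    have e4 : ∀ᶠ w : (Z × ℝ) × ℝ × ℝ in 𝓝 ((s₀, 0), a, 0),
        |m (v w.1.1 w.2.1)| + (‖m‖ + ‖l‖) * w.1.2 < l (v w.1.1 w.2.1) := by
      refine (isOpen_lt (by fun_prop) (by fun_prop)).mem_nhds ?_
      simp [hm2, hl2]
    filter_upwards [e1, e2, e3, e4] with w w1 w2 w3 w4
    have hcone := tfc_cone (der w.1.1) m l (convex_ball a δ)
      (fun t ht => hNW (mk_mem_prod w1 (hδW ht))) w3 w2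
    refine ⟨fun h => by linarith [hcone.1 h], fun ε e h1 h2 h3 h4 => ?_⟩
    have h5 := hcone.2
    have h6 : c w.1.1 (w.2.1 + w.2.2) - c w.1.1 w.2.1 = ε • v w.1.1 w.2.1 + e := by
      rw [h4]
      abel
    rw [h6, map_add, map_add, map_smul, map_smul, smul_eq_mul, smul_eq_mul] at h5
    have b1 : |m e| ≤ ‖m‖ * (w.1.2 * ε) :=
      (m.le_opNorm e).trans (mul_le_mul_of_nonneg_left h3 (norm_nonneg _))
    have b2 : |l e| ≤ ‖l‖ * (w.1.2 * ε) :=
      (l.le_opNorm e).trans (mul_le_mul_of_nonneg_left h3 (norm_nonneg _))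
    have b3 := abs_add_le (ε * m (v w.1.1 w.2.1)) (m e)
    rw [abs_mul, abs_of_pos h1] at b3
    have b4 := le_abs_self (ε * l (v w.1.1 w.2.1) + l e)
    have b5 := neg_abs_le (l e)
    have b6 := mul_lt_mul_of_pos_left w4 h1
    nlinarith
  · have hne : c s₀ (a + τ) ≠ c s₀ a := fun h => by
      obtain ⟨k, hk⟩ := tfc_eq h0.per h0.inj h
      have h1 : τ = k := by linarith
      have h2 : (k : ℝ) < 1 := by linarith [hτ.2]
      have h3 : (-1 : ℝ) < k := by linarith [hτ.1]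
      have h4 : k < 1 := by exact_mod_cast h2
      have h5 : -1 < k := by exact_mod_cast h3
      have h6 : k = 0 := by omega
      exact h0τ (by rw [h1, h6, Int.cast_zero])
    have e1 : ∀ᶠ w : (Z × ℝ) × ℝ × ℝ in 𝓝 ((s₀, 0), a, τ),
        |w.1.2| * (‖v w.1.1 w.2.1‖ + |w.1.2|) < ‖c w.1.1 (w.2.1 + w.2.2) - c w.1.1 w.2.1‖ := by
      refine (isOpen_lt (by fun_prop) (by fun_prop)).mem_nhds ?_
      simpa using sub_ne_zero.2 hne
    filter_upwards [e1] with w hw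
    refine ⟨fun h => ?_, fun ε e h1 h2 h3 h4 => ?_⟩
    · rw [h, sub_self, norm_zero] at hw
      exact absurd hw (not_lt.2 (by positivity))
    · have h6 : c w.1.1 (w.2.1 + w.2.2) - c w.1.1 w.2.1 = ε • v w.1.1 w.2.1 + e := by
        rw [h4]
        abel
      rw [h6, abs_of_pos (h1.trans_le h2)] at hw
      have b1 := norm_add_le (ε • v w.1.1 w.2.1) e
      rw [norm_smul, Real.norm_of_nonneg h1.le] at b1
      have b2 := mul_le_mul_of_nonneg_right h2 (norm_nonneg (v w.1.1 w.2.1))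
      have b3 := mul_le_mul_of_nonneg_left h2 (h1.trans_le h2).le
      nlinarith

/-- the uniform version over a compact family -/
theorem fr_unif {Z : Type} [TopologicalSpace Z] {c d v : Z → ℝ → P3} {Q : Set Z}
    (hQ : IsCompact Q)
    (hc : Continuous fun a : Z × ℝ => c a.1 a.2) (hd : Continuous fun a : Z × ℝ => d a.1 a.2)
    (hv : Continuous fun a : Z × ℝ => v a.1 a.2) (h : ∀ s ∈ Q, Framed (c s) (d s) (v s)) :
    ∃ η : ℝ, 0 < η ∧ ∀ s ∈ Q, ∀ (t t' ε : ℝ) (e : P3), 0 < ε → ε ≤ η → ‖e‖ ≤ η * ε →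
      c s t ≠ c s t' + ε • v s t' + e := by
  have : CompactSpace Q := isCompact_iff_compactSpace.1 hQ
  have hi : Continuous fun a : Q × ℝ => ((a.1 : Z), a.2) := by fun_prop
  have key := (isCompact_univ (X := Q)).eventually_forall_of_forall_eventually (x₀ := (0 : ℝ))
    (P := fun η s => ∀ (t t' ε : ℝ) (e : P3), 0 < ε → ε ≤ η → ‖e‖ ≤ η * ε →
      c s t ≠ c s t' + ε • v s t' + e) fun s _ => by
      have h1 := fr_loc (c := fun s : Q => c s) (d := fun s : Q => d s) (v := fun s : Q => v s)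
        (s₀ := s) (hc.comp hi) (hd.comp hi) (hv.comp hi) (fun s => (h s s.2).der)
        (fun s => (h s s.2).per) (fun s => (h s s.2).perv) (h s s.2)
      exact (continuous_swap.tendsto ((0 : ℝ), s)).eventually (h1.mono fun z hz => hz.2)
  obtain ⟨η, h1, h2⟩ := ((key.filter_mono nhdsWithin_le_nhds).and
    (self_mem_nhdsWithin (a := (0 : ℝ)) (s := Ioi 0))).exists
  exact ⟨η, h2, fun s hs => h1 ⟨s, hs⟩ trivial⟩

end Pool.Agent.Lib.MP_4d7d0a_gt
end

-- part Pool.Agent.Lib.MP_4d7d0a_gt.TFR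
section

/-! The framing number. -/

set_option autoImplicit false

open Set Filter Topology
open scoped ContDiff

namespace Pool.Agent.Lib.MP_4d7d0a_gt

/-- the linking number of a knot with its small push-offs along `v` -/
noncomputable def fr (T : KTheory) (c v : ℝ → P3) : ℤ :=
  Classical.epsilon fun n : ℤ => ∀ᶠ ε : ℝ in 𝓝[>] 0, T.lk c (fun t => c t + ε • v t) = n

theorem tfr_cont {c d v : ℝ → P3} (h : Framed c d v) : Continuous c :=
  continuous_iff_continuousAt.2 fun t => (h.der t).continuousAt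

theorem tfr_scale (T : KTheory) {c v : ℝ → P3} (hc : Continuous c) (hv : Continuous v)
    (pc : c 1 = c 0) (pv : v 1 = v 0) {η : ℝ}
    (hap : ∀ t t' ε : ℝ, 0 < ε → ε ≤ η → c t ≠ c t' + ε • v t') {ε : ℝ} (h0 : 0 < ε)
    (h1 : ε ≤ η) : T.lk c (fun t => c t + ε • v t) = T.lk c fun t => c t + η • v t := by
  have := T.lk_hom (fun _ => c) (fun s t => c t + (ε + s * (η - ε)) • v t)
    (by fun_prop) (by fun_prop) (fun s hs => ⟨pc, by rw [pc, pv], fun t _ t' _ =>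
      hap t t' _ (by nlinarith [hs.1]) (by nlinarith [hs.2])⟩)
  simpa using this

theorem tfr_eq (T : KTheory) {c v : ℝ → P3} (hc : Continuous c) (hv : Continuous v)
    (pc : c 1 = c 0) (pv : v 1 = v 0) {η : ℝ} (hη : 0 < η)
    (hap : ∀ t t' ε : ℝ, 0 < ε → ε ≤ η → c t ≠ c t' + ε • v t') :
    fr T c v = T.lk c fun t => c t + η • v t := by
  have h1 : ∀ᶠ ε : ℝ in 𝓝[>] 0,
      T.lk c (fun t => c t + ε • v t) = T.lk c fun t => c t + η • v t := by
    filter_upwards [Ioc_mem_nhdsGT hη] with ε hε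
    exact tfr_scale T hc hv pc pv hap hε.1 hε.2
  have h2 : ∀ᶠ ε : ℝ in 𝓝[>] 0, T.lk c (fun t => c t + ε • v t) = fr T c v :=
    Classical.epsilon_spec
      (p := fun n : ℤ => ∀ᶠ ε : ℝ in 𝓝[>] 0, T.lk c (fun t => c t + ε • v t) = n) ⟨_, h1⟩
  obtain ⟨ε, e1, e2⟩ := (h1.and h2).exists
  exact e2.symm.trans e1

theorem tfr_p1 {c : ℝ → P3} (h : ∀ t, c (t + 1) = c t) : c 1 = c 0 := by
  simpa using h 0

theorem tfr_eta {c d v : ℝ → P3} (h : Framed c d v) : ∃ η : ℝ, 0 < η ∧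
    ∀ (t t' ε : ℝ) (e : P3), 0 < ε → ε ≤ η → ‖e‖ ≤ η * ε → c t ≠ c t' + ε • v t' + e := by
  obtain ⟨η, hη, H⟩ := fr_unif (Z := Unit) (c := fun _ => c) (d := fun _ => d) (v := fun _ => v)
    (Q := univ) isCompact_univ ((tfr_cont h).comp continuous_snd) (h.cd.comp continuous_snd)
    (h.cv.comp continuous_snd) fun _ _ => h
  exact ⟨η, hη, H () (mem_univ _)⟩

theorem tfr_hap {c v : ℝ → P3} {η : ℝ} (hη : 0 < η)
    (H : ∀ (t t' ε : ℝ) (e : P3), 0 < ε → ε ≤ η → ‖e‖ ≤ η * ε → c t ≠ c t' + ε • v t' + e)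
    (t t' ε : ℝ) (h0 : 0 < ε) (h1 : ε ≤ η) : c t ≠ c t' + ε • v t' := by
  have := H t t' ε 0 h0 h1 (by rw [norm_zero]; positivity)
  rwa [add_zero] at this

theorem fr_val (T : KTheory) {c d v : ℝ → P3} (h : Framed c d v) :
    ∃ η : ℝ, 0 < η ∧ ∀ ε : ℝ, 0 < ε → ε ≤ η → ∀ B : ℝ → P3, IsLoop B →
      (∀ t ∈ Icc (0 : ℝ) 1, ‖B t - (c t + ε • v t)‖ ≤ η * ε) → T.lk c B = fr T c v := by
  obtain ⟨η, hη, H⟩ := tfr_eta h
  have hc := tfr_cont h
  have hv := h.cv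
  have pc := tfr_p1 h.per
  have pv := tfr_p1 h.perv
  refine ⟨η, hη, fun ε h0 h1 B hB hd => ?_⟩
  rw [tfr_eq T hc hv pc pv hη (tfr_hap hη H), ← tfr_scale T hc hv pc pv (tfr_hap hη H) h0 h1]
  have hB' : ContinuousOn (fun a : ℝ × ℝ => B a.2) (Icc 0 1 ×ˢ Icc 0 1) :=
    hB.1.comp continuousOn_snd fun a ha => ha.2
  have hp : ContinuousOn (fun a : ℝ × ℝ => c a.2 + ε • v a.2) (Icc 0 1 ×ˢ Icc 0 1) :=
    Continuous.continuousOn (by fun_prop)
  have := T.lk_hom (fun _ => c) (fun s t => c t + ε • v t + s • (B t - (c t + ε • v t)))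
    (by fun_prop) (hp.add (continuousOn_fst.smul (hB'.sub hp))) (fun s hs => ⟨pc, by rw [pc, pv, hB.2], fun t _ t' ht' =>
      H t t' ε _ h0 h1 (by
        rw [norm_smul, Real.norm_of_nonneg hs.1]
        exact (mul_le_of_le_one_left (norm_nonneg _) hs.2).trans (hd t' ht'))⟩)
  simpa using this.symm

/-- if all push-offs up to size `η` miss the knot, the one of size `η` computes the number -/
theorem fr_eq (T : KTheory) {c d v : ℝ → P3} (h : Framed c d v) {η : ℝ} (hη : 0 < η)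
    (hap : ∀ t t' ε : ℝ, 0 < ε → ε ≤ η → c t ≠ c t' + ε • v t') :
    fr T c v = T.lk c fun t => c t + η • v t :=
  tfr_eq T (tfr_cont h) h.cv (tfr_p1 h.per) (tfr_p1 h.perv) hη hap

theorem fr_hom (T : KTheory) {c d v : ℝ → ℝ → P3}
    (hc : Continuous fun a : ℝ × ℝ => c a.1 a.2) (hd : Continuous fun a : ℝ × ℝ => d a.1 a.2)
    (hv : Continuous fun a : ℝ × ℝ => v a.1 a.2)
    (h : ∀ s ∈ Icc (0 : ℝ) 1, Framed (c s) (d s) (v s)) :
    fr T (c 0) (v 0) = fr T (c 1) (v 1) := by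
  obtain ⟨η, hη, H⟩ := fr_unif isCompact_Icc hc hd hv h
  rw [fr_eq T (h 0 (left_mem_Icc.2 zero_le_one)) hη
      (tfr_hap hη (H 0 (left_mem_Icc.2 zero_le_one))),
    fr_eq T (h 1 (right_mem_Icc.2 zero_le_one)) hη
      (tfr_hap hη (H 1 (right_mem_Icc.2 zero_le_one)))]
  exact T.lk_hom c (fun s t => c s t + η • v s t) hc.continuousOn
    (hc.add (hv.const_smul η)).continuousOn fun s hs => ⟨tfr_p1 (h s hs).per,
      by rw [tfr_p1 (h s hs).per, tfr_p1 (h s hs).perv],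
      fun t _ t' _ => tfr_hap hη (H s hs) t t' η hη le_rfl⟩

theorem fr_rev (T : KTheory) {c d v : ℝ → P3} (h : Framed c d v) :
    fr T (fun t => c (-t)) (fun t => v (-t)) = fr T c v := by
  obtain ⟨η, hη, H⟩ := tfr_eta h
  have hc := tfr_cont h
  have hv := h.cv
  have pc := tfr_p1 h.per
  have pv := tfr_p1 h.perv
  have ec : ∀ t, c (-t) = c (1 - t) := fun t => by rw [← h.per (-t), neg_add_eq_sub]
  have ev : ∀ t, v (-t) = v (1 - t) := fun t => by rw [← h.perv (-t), neg_add_eq_sub]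
  rw [tfr_eq T (c := fun t => c (-t)) (v := fun t => v (-t)) (by fun_prop) (by fun_prop)
      (by rw [ec, ec, sub_self, sub_zero, pc]) (by rw [ev, ev, sub_self, sub_zero, pv]) hη
      (fun t t' => tfr_hap hη H (-t) (-t')),
    tfr_eq T hc hv pc pv hη (tfr_hap hη H)]
  simp only [ec, ev]
  exact lk_rev T (A := c) (B := fun t => c t + η • v t) ⟨hc.continuousOn, pc⟩
    ⟨by fun_prop, by beta_reduce; rw [pc, pv]⟩ fun t _ t' _ => tfr_hap hη H t t' η hη le_rfl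

end Pool.Agent.Lib.MP_4d7d0a_gt
end

-- part Pool.Agent.Lib.MP_4d7d0a_gt.TFP
section

/-! A loop invariant comes from a functor on the path groupoid. -/

set_option autoImplicit false

open Set Filter Topology
open scoped ContDiff

namespace Pool.Agent.Lib.MP_4d7d0a_gt

namespace TFP

open Path

variable {X : Type} [TopologicalSpace X] {S : Set X} (Λ : LoopFun S)

/-- a path in the subspace as a function on the line -/
noncomputable def ev {x y : S} (γ : Path x y) (t : ℝ) : X := (γ.extend t : X)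

theorem ev_cont {x y : S} (γ : Path x y) : Continuous (ev γ) :=
  continuous_subtype_val.comp γ.continuous_extend

theorem ev_path {x y : S} (γ : Path x y) : IsPath S (ev γ) :=
  ⟨(ev_cont γ).continuousOn, fun t _ => (γ.extend t).2⟩

theorem ev_loop {x : S} (γ : Path x x) : ev γ 1 = ev γ 0 := by
  simp only [ev, Path.extend_one, Path.extend_zero]

theorem ev_le {x y z : S} (γ : Path x y) (γ' : Path y z) {t : ℝ} (ht : t ≤ 1 / 2) :
    ev (γ.trans γ') t = ev γ (2 * t) :=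
  congrArg Subtype.val (Path.extend_trans_of_le_half γ γ' ht)

theorem ev_ge {x y z : S} (γ : Path x y) (γ' : Path y z) {t : ℝ} (ht : 1 / 2 ≤ t) :
    ev (γ.trans γ') t = ev γ' (2 * t - 1) :=
  congrArg Subtype.val (Path.extend_trans_of_half_le γ γ' ht)

theorem l_hom {x : S} {γ γ' : Path x x} (h : γ.Homotopic γ') : Λ.L (ev γ) = Λ.L (ev γ') := by
  obtain ⟨F⟩ := h
  have h1 := Λ.hom (fun s t => (F (projIcc 0 1 zero_le_one s, projIcc 0 1 zero_le_one t) : X))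
    (continuous_subtype_val.comp (F.continuous.comp
      ((continuous_projIcc.comp continuous_fst).prodMk
        (continuous_projIcc.comp continuous_snd)))).continuousOn
    (fun s _ t _ => Subtype.prop _) fun s _ => by
      rw [projIcc_left, projIcc_right]
      exact congrArg Subtype.val ((F.target _).trans (F.source _).symm)
  rw [projIcc_left, projIcc_right] at h1
  have e0 : ev γ = fun t => (F (⟨0, left_mem_Icc.2 zero_le_one⟩, projIcc 0 1 zero_le_one t) : X) :=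
    funext fun t => congrArg Subtype.val (F.apply_zero _).symm
  have e1 : ev γ' =
      fun t => (F (⟨1, right_mem_Icc.2 zero_le_one⟩, projIcc 0 1 zero_le_one t) : X) :=
    funext fun t => congrArg Subtype.val (F.apply_one _).symm
  rw [e0, e1]
  exact h1

theorem l_trans {x : S} (γ γ' : Path x x) :
    Λ.L (ev (γ.trans γ')) = Λ.L (ev γ) + Λ.L (ev γ') := by
  rw [Λ.add _ (ev_path _) (ev_loop _) (by
    rw [ev_le _ _ le_rfl, ev_le _ _ (by norm_num), mul_one_div_cancel two_ne_zero, mul_zero,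
      ev_loop])]
  congr 1
  · refine Λ.congr (ev_path γ) (ev_loop γ) fun t ht => ?_
    rw [ev_le _ _ (by linarith [ht.2])]
    congr 1
    ring
  · refine Λ.congr (ev_path γ') (ev_loop γ') fun t ht => ?_
    rw [ev_ge _ _ (by linarith [ht.1])]
    congr 1
    ring

theorem l_rot {x y : S} (α : Path x y) (β : Path y x) :
    Λ.L (ev (α.trans β)) = Λ.L (ev (β.trans α)) := by
  have h1 := Λ.hom (fun s t => ev ((α.trans β).trans (α.trans β)) ((t + s / 2) / 2))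
    ((ev_cont _).comp (by fun_prop)).continuousOn
    (fun s _ t _ => Subtype.prop _) fun s hs => by
      rw [ev_ge (α.trans β) _ (by linarith [hs.1]), ev_le (α.trans β) _ (by linarith [hs.2])]
      congr 1
      ring
  refine (Λ.congr (ev_path _) (ev_loop _) fun t ht => ?_).symm.trans
    (h1.trans (Λ.congr (ev_path _) (ev_loop _) fun t ht => ?_))
  · rw [ev_le (α.trans β) _ (by linarith [ht.2])]
    congr 1
    ring
  · rcases le_total t (1 / 2) with h | h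
    · rw [ev_le (α.trans β) _ (by linarith), ev_ge α _ (by linarith [ht.1]), ev_le β _ h]
      congr 1
      ring
    · rw [ev_ge (α.trans β) _ (by linarith), ev_le α _ (by linarith [ht.2]), ev_ge β _ h]
      congr 1
      ring

/-- the invariant on homotopy classes of loops -/
noncomputable def q {x : S} (P : Homotopic.Quotient x x) : ℤ :=
  Quotient.lift (fun γ : Path x x => Λ.L (ev γ)) (fun _ _ h => l_hom Λ h) P

theorem q_trans {x : S} (P P' : Homotopic.Quotient x x) :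
    q Λ (P.trans P') = q Λ P + q Λ P' := by
  induction P, P' using Homotopic.Quotient.ind₂ with
  | _ γ γ' => exact l_trans Λ γ γ'

theorem q_rot {x y : S} (P : Homotopic.Quotient x y) (P' : Homotopic.Quotient y x) :
    q Λ (P.trans P') = q Λ (P'.trans P) := by
  induction P, P' using Homotopic.Quotient.ind₂ with
  | _ γ γ' => exact l_rot Λ γ γ'

/-- a path closed up through a base point -/
noncomputable def gb {β x y : S} (hx : Joined β x) (hy : Joined β y)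
    (P : Homotopic.Quotient x y) : ℤ :=
  q Λ ((Homotopic.Quotient.mk hx.somePath).trans
    (P.trans (Homotopic.Quotient.mk hy.somePath).symm))

theorem gb_congr {β β' x y : S} (e : β = β') (hx : Joined β x) (hy : Joined β y)
    (hx' : Joined β' x) (hy' : Joined β' y) (P : Homotopic.Quotient x y) :
    gb Λ hx hy P = gb Λ hx' hy' P := by
  subst e
  rfl

theorem gb_trans {β x y z : S} (hx : Joined β x) (hy : Joined β y) (hz : Joined β z)
    (P : Homotopic.Quotient x y) (P' : Homotopic.Quotient y z) :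
    gb Λ hx hz (P.trans P') = gb Λ hx hy P + gb Λ hy hz P' := by
  rw [gb, gb, gb, ← q_trans, Homotopic.Quotient.trans_assoc, Homotopic.Quotient.trans_assoc,
    Homotopic.Quotient.trans_assoc,
    ← Homotopic.Quotient.trans_assoc (Homotopic.Quotient.mk hy.somePath).symm,
    Homotopic.Quotient.symm_trans, Homotopic.Quotient.refl_trans]

theorem gb_loop {β x : S} (hx : Joined β x) (P : Homotopic.Quotient x x) :
    gb Λ hx hx P = q Λ P := by
  rw [gb, q_rot, Homotopic.Quotient.trans_assoc, Homotopic.Quotient.symm_trans,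
    Homotopic.Quotient.trans_refl]

/-- the base point of a path component -/
noncomputable def base (x : S) : S := (Quotient.mk (pathSetoid S) x).out

theorem base_joined (x : S) : Joined (base x) x :=
  Quotient.exact (s := pathSetoid S) (Quotient.out_eq _)

theorem base_eq {x y : S} (h : Joined x y) : base x = base y :=
  congrArg Quotient.out (Quotient.sound (s := pathSetoid S) h)

/-- the invariant of a path -/
noncomputable def g {x y : S} (γ : Path x y) : ℤ :=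
  gb Λ (base_joined x) ((base_joined x).trans ⟨γ⟩) (Homotopic.Quotient.mk γ)

theorem g_hom {x y : S} {γ γ' : Path x y} (h : γ.Homotopic γ') : g Λ γ = g Λ γ' := by
  rw [g, g, Homotopic.Quotient.eq.2 h]

theorem g_trans {x y z : S} (γ : Path x y) (γ' : Path y z) :
    g Λ (γ.trans γ') = g Λ γ + g Λ γ' := by
  rw [g, g, g, Homotopic.Quotient.mk_trans, gb_trans Λ _ ((base_joined x).trans ⟨γ⟩)]
  congr 1
  exact gb_congr Λ (base_eq ⟨γ⟩) _ _ _ _ _

theorem g_loop {x : S} (γ : Path x x) : g Λ γ = Λ.L (ev γ) := gb_loop Λ _ _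

/-- a function on the line as a path in the subspace -/
def toP {c : ℝ → X} (hc : IsPath S c) {x y : S} (h0 : c 0 = x) (h1 : c 1 = y) : Path x y where
  toFun t := ⟨c t, hc.2 t.2⟩
  continuous_toFun := hc.1.domRestrict.subtype_mk _
  source' := Subtype.ext h0
  target' := Subtype.ext h1

open Classical in
/-- the invariant of a function on the line -/
noncomputable def f (c : ℝ → X) : ℤ :=
  if hc : IsPath S c then g Λ (toP hc (x := ⟨c 0, hc.2 (left_mem_Icc.2 zero_le_one)⟩)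
    (y := ⟨c 1, hc.2 (right_mem_Icc.2 zero_le_one)⟩) rfl rfl) else 0

theorem f_eq {c : ℝ → X} (hc : IsPath S c) {x y : S} (h0 : c 0 = x) (h1 : c 1 = y) :
    f Λ c = g Λ (toP hc h0 h1) := by
  obtain rfl : x = ⟨c 0, hc.2 (left_mem_Icc.2 zero_le_one)⟩ := Subtype.ext h0.symm
  obtain rfl : y = ⟨c 1, hc.2 (right_mem_Icc.2 zero_le_one)⟩ := Subtype.ext h1.symm
  exact dif_pos hc

end TFP

open TFP in
theorem LoopFun.exists_pathFun {X : Type} [TopologicalSpace X] {S : Set X} (Λ : LoopFun S) :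
    ∃ F : PathFun S (Multiplicative ℤ), ∀ c, IsPath S c → c 1 = c 0 →
      F.F c = Multiplicative.ofAdd (Λ.L c) := by
  have m0 : (0 : ℝ) ∈ Icc (0 : ℝ) 1 := left_mem_Icc.2 zero_le_one
  have m1 : (1 : ℝ) ∈ Icc (0 : ℝ) 1 := right_mem_Icc.2 zero_le_one
  refine ⟨⟨fun c => Multiplicative.ofAdd (f Λ c), fun H hH hS he => ?_, fun c h1 h2 => ?_⟩,
    fun c hc h => ?_⟩
  · have hp : ∀ s ∈ Icc (0 : ℝ) 1, IsPath S (H s) := fun s hs =>
      ⟨hH.comp (continuous_const.prodMk continuous_id).continuousOn fun t ht => ⟨hs, ht⟩, hS s hs⟩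
    rw [f_eq Λ (hp 0 m0) (x := ⟨H 0 0, hS 0 m0 0 m0⟩) (y := ⟨H 0 1, hS 0 m0 1 m1⟩) rfl rfl,
      f_eq Λ (hp 1 m1) (x := ⟨H 0 0, hS 0 m0 0 m0⟩) (y := ⟨H 0 1, hS 0 m0 1 m1⟩) (he 1 m1).1
        (he 1 m1).2]
    refine congrArg _ (g_hom Λ ⟨⟨⟨⟨fun a => ⟨H a.1 a.2, hS _ a.1.2 _ a.2.2⟩, ?_⟩,
      fun _ => rfl, fun _ => rfl⟩, ?_⟩⟩)
    · exact (hH.comp_continuous ((continuous_subtype_val.comp continuous_fst).prodMk
        (continuous_subtype_val.comp continuous_snd)) fun a => ⟨a.1.2, a.2.2⟩).subtype_mk _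
    · rintro s _ (rfl | rfl)
      · exact Subtype.ext (he s s.2).1
      · exact Subtype.ext (he s s.2).2
  · have mh : (1 / 2 : ℝ) ∈ Icc (0 : ℝ) 1 := ⟨by norm_num, by norm_num⟩
    have a1 : MapsTo (fun t : ℝ => t / 2) (Icc 0 1) (Icc 0 1) := fun t ht =>
      ⟨by linarith [ht.1], by linarith [ht.2]⟩
    have a2 : MapsTo (fun t : ℝ => (t + 1) / 2) (Icc 0 1) (Icc 0 1) := fun t ht =>
      ⟨by linarith [ht.1], by linarith [ht.2]⟩
    have p1 : IsPath S fun t => c (t / 2) := ⟨h1.comp (by fun_prop) a1, h2.comp a1⟩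
    have p2 : IsPath S fun t => c ((t + 1) / 2) := ⟨h1.comp (by fun_prop) a2, h2.comp a2⟩
    rw [f_eq Λ ⟨h1, h2⟩ (x := ⟨c 0, h2 m0⟩) (y := ⟨c 1, h2 m1⟩) rfl rfl,
      f_eq Λ p1 (x := ⟨c 0, h2 m0⟩) (y := ⟨c (1 / 2), h2 mh⟩) (by simp) rfl,
      f_eq Λ p2 (x := ⟨c (1 / 2), h2 mh⟩) (y := ⟨c 1, h2 m1⟩) (by simp) (by simp),
      ← ofAdd_add, ← g_trans]
    congr 2
    ext t
    rw [Path.trans_apply]
    split_ifs
    · show c t = c (2 * t / 2)
      congr 1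
      ring
    · show c t = c ((2 * t - 1 + 1) / 2)
      congr 1
      ring
  · show Multiplicative.ofAdd (f Λ c) = _
    rw [f_eq Λ hc (x := ⟨c 0, hc.2 m0⟩) (y := ⟨c 0, hc.2 m0⟩) rfl h, g_loop]
    refine congrArg _ (Λ.congr hc h fun t ht => ?_)
    rw [ev, Path.extend_apply _ ht]
    rfl

end Pool.Agent.Lib.MP_4d7d0a_gt
end
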