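import Pool.Agent.Lib.MP_4d7d0a_gt.TBCab
import Pool.Agent.Lib.MP_4d7d0a_gt.TFP

-- part Pool.Agent.Lib.MP_4d7d0a_gt.ADef
section

/-! Definitions for the geometric construction of the family. -/

set_option autoImplicit false

open Set Filter Topology
open scoped ContDiff

namespace Pool.Agent.Lib.MP_4d7d0a_gt

/-- the sign attached to a component: `true` is the upper one -/
def es (c : Bool) : ℝ := if c then 1 else -1

/-- the vertex list of a component -/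
def Wc (c : Bool) : List Z3 := if c then Wb else Wa

/-- speed of the knot `L` along the two tips -/
def vv : ℝ := 86 * sg

/-- a thin neighbourhood of the strip `y = 0`, `|z| ≤ ζ` -/
def slab (ζ ε : ℝ) : Set P3 := {p | |p.2.1| < ε ∧ |p.2.2| < ζ + ε}

/-- period one in `x` and injective on `D` modulo the period -/
def SlabMap {X : Type} (f : P3 → X) (D : Set P3) : Prop :=
  (∀ p : P3, f (p.1 + 1, p.2) = f p) ∧
    ∀ p ∈ D, ∀ q ∈ D, f p = f q → p.2 = q.2 ∧ ∃ k : ℤ, p.1 = q.1 + k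

/-- the profile functions of the surgery twist and a cut-off -/
structure Tw where
  R : ℝ → ℝ
  β : ℝ → ℝ
  χ : ℝ → ℝ
  R_sm : ContDiff ℝ ∞ R
  β_sm : ContDiff ℝ ∞ β
  χ_sm : ContDiff ℝ ∞ χ
  R_odd : ∀ p, R (-p) = -R p
  R_der : ∀ p, 0 ≤ deriv R p
  R_mid : ∀ p, |p| ≤ 99 / 100 → R p = p
  R_one : ∀ p, 2 ≤ p → R p = 1
  β_der : ∀ p, HasDerivAt β (-(p * deriv R p) / 4) p
  β_zero : ∀ p, 2 ≤ |p| → β p = 0
  β_even : ∀ p, β (-p) = β p
  β_mem : ∀ p, 0 ≤ β p ∧ β p ≤ 1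
  χ_one : ∀ T, -(11 / 20) ≤ T → T ≤ 41 + 11 / 20 → χ T = 1
  χ_zero : ∀ T, T ≤ -(3 / 4) ∨ 41 + 3 / 4 ≤ T → χ T = 0
  χ_mem : ∀ T, 0 ≤ χ T ∧ χ T ≤ 1

/-- the gluing of surgery data in cartesian coordinates -/
structure Cart (tw : Tw) {K : ℝ → P3} {M : Type} [TopologicalSpace M] [ChartedSpace P3 M]
    (sd : SD K M) : Prop where
  le : ∀ p, sd.r' * Real.exp (tw.β p) ≤ sd.r
  up : ∀ x y z : ℝ, y ^ 2 + z ^ 2 < sd.r' ^ 2 → 0 < z →
    sd.nu (x + 127 / 172 - tw.R (y / z) / 4, Real.exp (tw.β (y / z)) * y,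
        Real.exp (tw.β (y / z)) * z) ∉ range K ∧
      sd.ns (x, y, z) = sd.psi (sd.nu (x + 127 / 172 - tw.R (y / z) / 4,
        Real.exp (tw.β (y / z)) * y, Real.exp (tw.β (y / z)) * z))
  down : ∀ x y z : ℝ, y ^ 2 + z ^ 2 < sd.r' ^ 2 → z < 0 →
    sd.nu (x + 41 / 172 - tw.R (y / z) / 4, Real.exp (tw.β (y / z)) * y,
        Real.exp (tw.β (y / z)) * z) ∉ range K ∧
      sd.ns (x, y, z) = sd.psi (sd.nu (x + 41 / 172 - tw.R (y / z) / 4,
        Real.exp (tw.β (y / z)) * y, Real.exp (tw.β (y / z)) * z))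
  left : ∀ x y z : ℝ, y ^ 2 + z ^ 2 < sd.r' ^ 2 → 0 < y → 2 * |z| ≤ y →
    sd.nu (x + 42 / 86, y, z) ∉ range K ∧ sd.ns (x, y, z) = sd.psi (sd.nu (x + 42 / 86, y, z))
  right : ∀ x y z : ℝ, y ^ 2 + z ^ 2 < sd.r' ^ 2 → y < 0 → 2 * |z| ≤ -y →
    sd.nu (x - 1 / 86, y, z) ∉ range K ∧ sd.ns (x, y, z) = sd.psi (sd.nu (x - 1 / 86, y, z))

/-- the facts on the knot `L` and its canonical chart used in the construction -/
structure LOK (π : Prof) (ε₀ : ℝ) : Prop where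
  pos : 0 < ε₀
  le_one : ε₀ ≤ 1
  leg : IsLeg3 (π.knot WL)
  ct : ∀ p : P3, |p.2.1| < ε₀ → ContactAt (can (π.knot WL)) p ∧
    ∀ w, al (can (π.knot WL) p) (fderiv ℝ (can (π.knot WL)) p w) = al p w
  box : ∀ p q : P3, |p.2.1| < ε₀ → |q.2.1| < ε₀ → |p.2.2| ≤ 12 * sg → |q.2.2| ≤ 12 * sg →
    can (π.knot WL) p = can (π.knot WL) q → p.2 = q.2 ∧ ∃ k : ℤ, p.1 = q.1 + k
  near : ∀ p : P3, |p.2.1| < ε₀ → ‖can (π.knot WL) p - (π.knot WL p.1 + (0, 0, p.2.2))‖ < 1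
  tipL : ∀ p : P3, |86 * p.1 - 42| < 15 / 16 → can (π.knot WL) p =
    (-1 + p.2.1 / vv, -(vv * (p.1 - 42 / 86)), p.2.2 - (p.1 - 42 / 86) * p.2.1)
  tipR : ∀ p : P3, |86 * p.1 + 1| < 15 / 16 → can (π.knot WL) p =
    (1 + p.2.1 / vv, -(vv * (p.1 + 1 / 86)), p.2.2 - (p.1 + 1 / 86) * p.2.1)
  zone : ∀ s : ℝ, |(π.knot WL s).1| ≤ 64 → |(π.knot WL s).2.1| ≤ 3 / 4 * sg →
    ∃ k : ℤ, |86 * (s - k) - 42| ≤ 7 / 8 ∨ |86 * (s - k) + 1| ≤ 7 / 8

/-- the facts on the curves `a`, `b` -/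
structure ZOK (π : Prof) : Prop where
  sm : ∀ c, ContDiff ℝ ∞ (π.real (cyc (Wc c)))
  per : ∀ c T, π.real (cyc (Wc c)) (T + 44) = π.real (cyc (Wc c)) T
  leg : ∀ c T, al (π.real (cyc (Wc c)) T) (deriv (π.real (cyc (Wc c))) T) = 0
  eq : ∀ c T, -(7 / 8) ≤ T → T ≤ 41 + 7 / 8 →
    π.real (cyc (Wc c)) T = π.knot WL ((42 + es c * (42 - T)) / 86)
  mono : ∀ c T, 41 + 1 / 8 ≤ T → T ≤ 43 + 7 / 8 →
    0 < (deriv (π.real (cyc (Wc c))) T).1 + es c / sg * (deriv (π.real (cyc (Wc c))) T).2.1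
  bd : ∀ c T, 41 + 1 / 2 ≤ T → T ≤ 43 + 1 / 2 → |(π.real (cyc (Wc c)) T).1| ≤ 2 ∧
    |(π.real (cyc (Wc c)) T).2.1| ≤ 11 / 20 * sg ∧ |(π.real (cyc (Wc c)) T).2.2| ≤ 1

/-- the time on `a` or `b` of the point of slope `p` -/
noncomputable def Tw.T (tw : Tw) (p : ℝ) : ℝ := 41 / 2 + 43 / 2 * tw.R p

/-- the leaf family in the coordinates of the canonical chart, as a function of the slope -/
noncomputable def Tw.co (tw : Tw) (ζ : ℝ) (c : Bool) (l p : ℝ) : P3 :=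
  ((42 + es c * (42 - tw.T p)) / 86,
    ζ * ((1 - l * tw.χ (tw.T p)) * Real.exp (tw.β p) * p +
      86 * l * deriv tw.χ (tw.T p) * (Real.exp (tw.β p) - 1)),
    es c * (ζ + l * (8 * sg - ζ) + ζ * (1 - l * tw.χ (tw.T p)) * (Real.exp (tw.β p) - 1)))

/-- the leaves of the annulus in the surgered manifold seen in `ℝ³` (`l = 0`) and their
isotopy away from `L` -/
noncomputable def leaf (π : Prof) (tw : Tw) (ζ : ℝ) (c : Bool) (l x : ℝ) : P3 :=
  can (π.knot WL) (tw.co ζ c l (2 * vv * (x - round x) / ζ))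

/-- the region in which the component `c` moves -/
def Reg (π : Prof) (ε₀ : ℝ) (c : Bool) (q : P3) : Prop :=
  (∃ p : P3, |p.2.1| < ε₀ ∧ 0 < es c * p.2.2 ∧ |p.2.2| ≤ 12 * sg ∧ q = can (π.knot WL) p) ∨
    (|q.1| < 1 ∧ q.2.1 = 0 ∧ 0 < es c * q.2.2) ∨
    (|q.1| ≤ 4 ∧ |q.2.1| ≤ 3 / 5 * sg ∧ 6 * sg ≤ es c * q.2.2)

/-- the model twist of the slab -/
structure TauOK (ζ ε : ℝ) (τ : ℤ → P3 → P3) (W : Set P3) : Prop where
  zero : ∀ p, τ 0 p = p
  add : ∀ n m p, τ n (τ m p) = τ (n + m) p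
  equi : ∀ n (p : P3) (a : ℝ), τ n (p.1 + a, p.2) = ((τ n p).1 + a, (τ n p).2)
  W_sub : ∀ p ∈ W, |p.2.1| ≤ ε / 2 ∧ |p.2.2| < ζ
  W_inv : ∀ p ∈ W, ∀ a : ℝ, ((p.1 + a, p.2) : P3) ∈ W
  W_map : ∀ n, ∀ p ∈ W, τ n p ∈ W
  W_closed : IsClosed (W ∪ {p | p.2.1 = 0 ∧ |p.2.2| = ζ})
  off : ∀ n p, p ∉ W → τ n p = p ∨ τ n p = (p.1 + n, p.2)
  off_pos : ∀ n p, p ∉ W → |p.2.2| < ζ → 0 < p.2.1 → τ n p = (p.1 + n, p.2)
  off_neg : ∀ n p, p ∉ W → p.2.1 < 0 → τ n p = p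
  ct : ∀ n (p : P3), |p.2.2| < ζ → ContactAt (τ n) p
  core : ∀ n (ρ : ℝ), 0 < ρ → ∃ ρ' : ℝ, 0 < ρ' ∧ ∀ c, ∀ p ∈ tube ρ',
    τ n (p + (0, 0, es c * ζ)) - (0, 0, es c * ζ) ∈ tube ρ

/-- `T` is the twist of `N` along the slab `j` -/
structure TwistOK {N : Type} [TopologicalSpace N] [ChartedSpace P3 N] (ζ ε : ℝ) (j : P3 → N)
    (τ : ℤ → P3 → P3) (W : Set P3) (T : ℤ → N → N) : Prop where
  on : ∀ n, ∀ p ∈ slab ζ ε, T n (j p) = j (τ n p)
  off : ∀ n m, m ∉ j '' W → T n m = m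
  zero : ∀ m, T 0 m = m
  add : ∀ n k m, T n (T k m) = T (n + k) m
  closed : IsClosed (j '' (W ∪ {p | p.2.1 = 0 ∧ |p.2.2| = ζ}))
  ct : ∀ n (F : P3 → N) (p : P3), (∀ c x, F p ≠ j (x, 0, es c * ζ)) →
    (∀ᶠ q in 𝓝 p, CtInto F q) → ∀ᶠ q in 𝓝 p, CtInto (fun w => T n (F w)) q

/-- two slabs, one in `ℝ³` and one in the surgered manifold, that agree near the boundary
leaves -/
structure Slabs {K : ℝ → P3} {M : Type} [TopologicalSpace M] [ChartedSpace P3 M] (sd : SD K M)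
    (ζ ε ρ κ : ℝ) (j : P3 → P3) (j' : P3 → M) : Prop where
  ζ_pos : 0 < ζ
  ε_pos : 0 < ε
  ρ_pos : 0 < ρ
  ρ_le : ρ ≤ ε
  κ_pos : 0 < κ
  κ_le : κ * ε < 1 / 2
  lt_r : ζ + ε < sd.r'
  j_map : SlabMap j (slab ζ ε)
  j_ct : ∀ p ∈ slab ζ ε, ContactAt j p
  j'_map : SlabMap j' (slab ζ ε)
  j'_ct : ∀ p ∈ slab ζ ε, CtInto j' p
  mat : ∀ c, ∀ p ∈ tube ρ, j (p + (0, 0, es c * ζ)) ∉ range K ∧
    j' (p + (0, 0, es c * ζ)) = sd.psi (j (p + (0, 0, es c * ζ)))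
  minf_ne : ∀ p ∈ slab ζ ε, j' p ≠ sd.minf
  mid : ∀ y z : ℝ, |y| < ε → |z| < ζ + ε → j' (0, y, z) = sd.ns (-(κ * y), 0, z)
  core : ∀ p ∈ slab ζ ε, ∀ x : ℝ, j' p = sd.ns (x, 0, 0) → (∃ k : ℤ, p.1 = k) ∧ p.2.2 = 0

end Pool.Agent.Lib.MP_4d7d0a_gt
end

-- part Pool.Agent.Lib.MP_4d7d0a_gt.ALeaf2
section

/-! Reparametrisation and interpolation of Legendrian curves. -/

set_option autoImplicit false

open Set Filter Topology
open scoped ContDiff

namespace Pool.Agent.Lib.MP_4d7d0a_gt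

namespace ALeaf2Aux

theorem per_int {X : Type} {K : ℝ → X} (h : ∀ t, K (t + 1) = K t) (k : ℤ) (t : ℝ) :
    K (t + k) = K t := by
  have hp : Function.Periodic K 1 := h
  simpa using hp.int_mul k t

theorem per_deriv {E : Type} [NormedAddCommGroup E] [NormedSpace ℝ E] {K : ℝ → E}
    (h : ∀ t, K (t + 1) = K t) (t : ℝ) : deriv K (t + 1) = deriv K t := by
  rw [← deriv_comp_add_const]
  congr 1
  funext x
  exact h x

theorem eq_int {K : ℝ → P3} (hK : IsLeg3 K) {a b : ℝ} (h : K a = K b) : ∃ k : ℤ, a = b + k := by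
  have ha : K (Int.fract a) = K a := by
    have := per_int hK.2.1 ⌊a⌋ (Int.fract a)
    rw [Int.fract_add_floor] at this
    exact this.symm
  have hb : K (Int.fract b) = K b := by
    have := per_int hK.2.1 ⌊b⌋ (Int.fract b)
    rw [Int.fract_add_floor] at this
    exact this.symm
  have := hK.2.2.1 ⟨Int.fract_nonneg a, Int.fract_lt_one a⟩
    ⟨Int.fract_nonneg b, Int.fract_lt_one b⟩ (ha.trans (h.trans hb.symm))
  refine ⟨⌊a⌋ - ⌊b⌋, ?_⟩
  have h1 := Int.fract_add_floor a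
  have h2 := Int.fract_add_floor b
  push_cast
  linarith

theorem hd1 {c : ℝ → P3} {t : ℝ} {v : P3} (h : HasDerivAt c v t) :
    HasDerivAt (fun r => (c r).1) v.1 t :=
  (ContinuousLinearMap.fst ℝ ℝ (ℝ × ℝ)).hasFDerivAt.comp_hasDerivAt t h

theorem hd2 {c : ℝ → P3} {t : ℝ} {v : P3} (h : HasDerivAt c v t) :
    HasDerivAt (fun r => (c r).2) v.2 t :=
  (ContinuousLinearMap.snd ℝ ℝ (ℝ × ℝ)).hasFDerivAt.comp_hasDerivAt t h

theorem hd21 {c : ℝ → P3} {t : ℝ} {v : P3} (h : HasDerivAt c v t) :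
    HasDerivAt (fun r => (c r).2.1) v.2.1 t :=
  (ContinuousLinearMap.fst ℝ ℝ ℝ).hasFDerivAt.comp_hasDerivAt t (hd2 h)

theorem hd22 {c : ℝ → P3} {t : ℝ} {v : P3} (h : HasDerivAt c v t) :
    HasDerivAt (fun r => (c r).2.2) v.2.2 t :=
  (ContinuousLinearMap.snd ℝ ℝ ℝ).hasFDerivAt.comp_hasDerivAt t (hd2 h)

/-- the staircase -/
noncomputable def stair (a d : ℝ) (t : ℝ) : ℝ :=
  ⌊t - a⌋ + Real.smoothTransition ((t - a - ⌊t - a⌋ - d) / ((1 - d) / 2))

theorem stair_ev {a d : ℝ} (hd0 : 0 < d) (hd : d < 1) (t : ℝ) :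
    stair a d =ᶠ[𝓝 t] fun r => (⌊t - a⌋ : ℝ) +
      Real.smoothTransition ((r - a - ⌊t - a⌋ - d) / ((1 - d) / 2)) := by
  have h1 := Int.floor_le (t - a)
  have h2 := Int.lt_floor_add_one (t - a)
  have he : 0 < (1 - d) / 2 := by linarith
  have hm : Ioo (a + ⌊t - a⌋ - (1 - d) / 2) (a + ⌊t - a⌋ + 1) ∈ 𝓝 t :=
    Ioo_mem_nhds (by linarith) (by linarith)
  filter_upwards [hm] with r hr
  rcases le_or_gt ((⌊t - a⌋ : ℤ) : ℝ) (r - a) with h | h
  · have : ⌊r - a⌋ = ⌊t - a⌋ := Int.floor_eq_iff.2 ⟨h, by linarith [hr.2]⟩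
    simp only [stair, this]
  · have : ⌊r - a⌋ = ⌊t - a⌋ - 1 := Int.floor_eq_iff.2 ⟨by push_cast; linarith [hr.1], by
      push_cast; linarith⟩
    simp only [stair, this]
    rw [Real.smoothTransition.one_of_one_le, Real.smoothTransition.zero_of_nonpos]
    · push_cast; ring
    · exact div_nonpos_of_nonpos_of_nonneg (by linarith) he.le
    · rw [le_div_iff₀ he]; push_cast; linarith [hr.1]

/-- the first new coordinate -/
def uu (κ : ℝ) (p : P3) : ℝ := p.1 + κ * p.2.1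

/-- the second new coordinate -/
noncomputable def ww (κ : ℝ) (p : P3) : ℝ := p.2.2 + κ * p.2.1 ^ 2 / 2

/-- the slope of the interpolated curve -/
noncomputable def qq (c₀ c₁ : ℝ → P3) (κ m t : ℝ) : ℝ :=
  (c₁ t).2.1 + (1 - m) * uu κ (deriv c₀ t) * ((c₀ t).2.1 - (c₁ t).2.1) /
    ((1 - m) * uu κ (deriv c₀ t) + m * uu κ (deriv c₁ t))

/-- the interpolated curve -/
noncomputable def gg (c₀ c₁ : ℝ → P3) (κ m t : ℝ) : P3 :=
  ((1 - m) * uu κ (c₀ t) + m * uu κ (c₁ t) - κ * qq c₀ c₁ κ m t, qq c₀ c₁ κ m t,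
    (1 - m) * ww κ (c₀ t) + m * ww κ (c₁ t) - κ * qq c₀ c₁ κ m t ^ 2 / 2)

theorem gg_of_eq {c₀ c₁ : ℝ → P3} (κ m : ℝ) {t : ℝ} (h : c₀ t = c₁ t) :
    gg c₀ c₁ κ m t = c₁ t := by
  have hq : qq c₀ c₁ κ m t = (c₁ t).2.1 := by simp [qq, h]
  simp only [gg, hq, h, uu, ww]
  refine Prod.ext ?_ (Prod.ext rfl ?_)
  · simp only; ring
  · simp only; ring

theorem gg_one {c₀ c₁ : ℝ → P3} (κ t : ℝ) : gg c₀ c₁ κ 1 t = c₁ t := by
  have hq : qq c₀ c₁ κ 1 t = (c₁ t).2.1 := by simp [qq]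
  simp only [gg, hq, uu, ww]
  refine Prod.ext ?_ (Prod.ext rfl ?_)
  · simp only; ring
  · simp only; ring

theorem gg_zero {c₀ c₁ : ℝ → P3} (κ : ℝ) {t : ℝ} (h : 0 < uu κ (deriv c₀ t)) :
    gg c₀ c₁ κ 0 t = c₀ t := by
  have hq : qq c₀ c₁ κ 0 t = (c₀ t).2.1 := by
    simp only [qq, sub_zero, one_mul, zero_mul, add_zero]
    rw [mul_div_cancel_left₀ _ h.ne']
    ring
  simp only [gg, hq, uu, ww]
  refine Prod.ext ?_ (Prod.ext rfl ?_)
  · simp only; ring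
  · simp only; ring

theorem den_pos {m A B : ℝ} (h0 : 0 ≤ m) (h1 : m ≤ 1) (hA : 0 < A) (hB : 0 < B) :
    0 < (1 - m) * A + m * B := by
  rcases h0.eq_or_lt with h | h
  · subst h; simpa using hA
  · have := mul_pos h hB
    have := mul_nonneg (sub_nonneg.2 h1) hA.le
    linarith

theorem sm_uu {E : Type} [NormedAddCommGroup E] [NormedSpace ℝ E] {c : E → P3} (κ : ℝ)
    (h : ContDiff ℝ ∞ c) : ContDiff ℝ ∞ fun e => uu κ (c e) :=
  h.fst.add (contDiff_const.mul h.snd.fst)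

theorem sm_ww {E : Type} [NormedAddCommGroup E] [NormedSpace ℝ E] {c : E → P3} (κ : ℝ)
    (h : ContDiff ℝ ∞ c) : ContDiff ℝ ∞ fun e => ww κ (c e) :=
  h.snd.snd.add ((contDiff_const.mul (h.snd.fst.pow 2)).div_const 2)

theorem sm_deriv {c : ℝ → P3} (h : ContDiff ℝ ∞ c) : ContDiff ℝ ∞ (deriv c) :=
  (contDiff_infty_iff_deriv.1 h).2

theorem sm_qq {E : Type} [NormedAddCommGroup E] [NormedSpace ℝ E] {c₀ c₁ : ℝ → P3} (κ : ℝ)
    (s₀ : ContDiff ℝ ∞ c₀) (s₁ : ContDiff ℝ ∞ c₁) {m τ : E → ℝ} (hm : ContDiff ℝ ∞ m)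
    (hτ : ContDiff ℝ ∞ τ) {e : E}
    (h : (1 - m e) * uu κ (deriv c₀ (τ e)) + m e * uu κ (deriv c₁ (τ e)) ≠ 0) :
    ContDiffAt ℝ ∞ (fun e => qq c₀ c₁ κ (m e) (τ e)) e := by
  have a0 := s₀.comp hτ
  have a1 := s₁.comp hτ
  have b0 := sm_uu κ ((sm_deriv s₀).comp hτ)
  have b1 := sm_uu κ ((sm_deriv s₁).comp hτ)
  have c1 : ContDiff ℝ ∞ fun e => (1 : ℝ) - m e := contDiff_const.sub hm
  exact a1.snd.fst.contDiffAt.add
    ((((c1.mul b0).mul (a0.snd.fst.sub a1.snd.fst)).contDiffAt).div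
      ((c1.mul b0).add (hm.mul b1)).contDiffAt h)

theorem sm_gg {E : Type} [NormedAddCommGroup E] [NormedSpace ℝ E] {c₀ c₁ : ℝ → P3} (κ : ℝ)
    (s₀ : ContDiff ℝ ∞ c₀) (s₁ : ContDiff ℝ ∞ c₁) {m τ : E → ℝ} (hm : ContDiff ℝ ∞ m)
    (hτ : ContDiff ℝ ∞ τ) {e : E}
    (h : (1 - m e) * uu κ (deriv c₀ (τ e)) + m e * uu κ (deriv c₁ (τ e)) ≠ 0) :
    ContDiffAt ℝ ∞ (fun e => gg c₀ c₁ κ (m e) (τ e)) e := by
  have q := sm_qq κ s₀ s₁ hm hτ h
  have a0 := s₀.comp hτ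
  have a1 := s₁.comp hτ
  have c1 : ContDiff ℝ ∞ fun e => (1 : ℝ) - m e := contDiff_const.sub hm
  exact (((c1.mul (sm_uu κ a0)).add (hm.mul (sm_uu κ a1))).contDiffAt.sub
    (contDiffAt_const.mul q)).prodMk (q.prodMk
      (((c1.mul (sm_ww κ a0)).add (hm.mul (sm_ww κ a1))).contDiffAt.sub
        ((contDiffAt_const.mul (q.pow 2)).div_const 2)))

theorem hd_uu {c : ℝ → P3} (κ : ℝ) {t : ℝ} {v : P3} (h : HasDerivAt c v t) :
    HasDerivAt (fun r => uu κ (c r)) (uu κ v) t :=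
  (hd1 h).add ((hd21 h).const_mul κ)

theorem hd_ww {c : ℝ → P3} (κ : ℝ) {t : ℝ} {v : P3} (h : HasDerivAt c v t)
    (hl : al (c t) v = 0) : HasDerivAt (fun r => ww κ (c r)) ((c t).2.1 * uu κ v) t := by
  have := (hd22 h).add ((((hd21 h).pow 2).const_mul κ).div_const 2)
  refine this.congr_deriv ?_
  simp only [al] at hl
  simp only [uu]
  norm_num
  linear_combination hl

theorem hd_gg {c₀ c₁ : ℝ → P3} (κ m : ℝ) (s₀ : ContDiff ℝ ∞ c₀) (s₁ : ContDiff ℝ ∞ c₁)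
    (l₀ : ∀ t, al (c₀ t) (deriv c₀ t) = 0) (l₁ : ∀ t, al (c₁ t) (deriv c₁ t) = 0) {t : ℝ}
    (h : (1 - m) * uu κ (deriv c₀ t) + m * uu κ (deriv c₁ t) ≠ 0) :
    uu κ (deriv (gg c₀ c₁ κ m) t) = (1 - m) * uu κ (deriv c₀ t) + m * uu κ (deriv c₁ t) ∧
      al (gg c₀ c₁ κ m t) (deriv (gg c₀ c₁ κ m) t) = 0 := by
  have hq : DifferentiableAt ℝ (qq c₀ c₁ κ m) t :=
    (sm_qq κ s₀ s₁ (m := fun _ : ℝ => m) (τ := fun r => r) contDiff_const contDiff_id
      h).differentiableAt (by simp)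
  have d0 : HasDerivAt c₀ (deriv c₀ t) t := (s₀.differentiable (by simp) t).hasDerivAt
  have d1 : HasDerivAt c₁ (deriv c₁ t) t := (s₁.differentiable (by simp) t).hasDerivAt
  have dq := hq.hasDerivAt
  have dg : HasDerivAt (gg c₀ c₁ κ m)
      ((1 - m) * uu κ (deriv c₀ t) + m * uu κ (deriv c₁ t) - κ * deriv (qq c₀ c₁ κ m) t,
        deriv (qq c₀ c₁ κ m) t,
        (1 - m) * ((c₀ t).2.1 * uu κ (deriv c₀ t)) + m * ((c₁ t).2.1 * uu κ (deriv c₁ t)) -
          κ * (((2 : ℕ) : ℝ) * qq c₀ c₁ κ m t ^ (2 - 1) * deriv (qq c₀ c₁ κ m) t) / 2) t :=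
    ((((hd_uu κ d0).const_mul (1 - m)).add ((hd_uu κ d1).const_mul m)).sub
      (dq.const_mul κ)).prodMk (dq.prodMk
        ((((hd_ww κ d0 (l₀ t)).const_mul (1 - m)).add ((hd_ww κ d1 (l₁ t)).const_mul m)).sub
          (((dq.pow 2).const_mul κ).div_const 2)))
  rw [dg.deriv]
  have key : qq c₀ c₁ κ m t * ((1 - m) * uu κ (deriv c₀ t) + m * uu κ (deriv c₁ t)) =
      (1 - m) * ((c₀ t).2.1 * uu κ (deriv c₀ t)) + m * ((c₁ t).2.1 * uu κ (deriv c₁ t)) := by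
    simp only [qq]
    field_simp
    ring
  constructor
  · rw [uu]; simp only; ring
  · simp only [al, gg]
    norm_num
    linear_combination -key

end ALeaf2Aux

open ALeaf2Aux

theorem LegChain.trans {ι : Type} {K K' K'' : ι → ℝ → P3} (h : LegChain K K')
    (h' : LegChain K' K'') : LegChain K K'' := Relation.ReflTransGen.trans h h'

theorem LegChain.of_fam {ι : Type} {G : ι → ℝ → ℝ → P3} (h : IsLegFam G) :
    LegChain (fun i => G i 0) fun i => G i 1 :=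
  Relation.ReflTransGen.single ⟨G, h, fun _ => rfl, fun _ => rfl⟩

theorem LegChain.symm {ι : Type} {K K' : ι → ℝ → P3} (h : LegChain K K') : LegChain K' K := by
  induction h with
  | refl => exact Relation.ReflTransGen.refl
  | tail _ hs ih =>
    obtain ⟨G, hG, h0, h1⟩ := hs
    refine Relation.ReflTransGen.head ⟨fun i s => G i (1 - s), ⟨fun i => ?_, fun i s hs => ?_,
      fun i j hij s hs => ?_⟩, fun i => by simpa using h1 i, fun i => by simpa using h0 i⟩ ih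
    · exact (hG.1 i).comp ((contDiff_const.sub contDiff_fst).prodMk contDiff_snd)
    · exact hG.2.1 i _ ⟨by linarith [hs.2], by linarith [hs.1]⟩
    · exact hG.2.2 i j hij _ ⟨by linarith [hs.2], by linarith [hs.1]⟩

/-- the property of being a Legendrian link passes along a chain -/
theorem LegChain.link {ι : Type} {K K' : ι → ℝ → P3} (h : LegChain K K') (hK : ∀ i, IsLeg3 (K i))
    (hd : ∀ i j, i ≠ j → ∀ t t', K i t ≠ K j t') :
    (∀ i, IsLeg3 (K' i)) ∧ ∀ i j, i ≠ j → ∀ t t', K' i t ≠ K' j t' := by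
  induction h with
  | refl => exact ⟨hK, hd⟩
  | tail _ hs _ =>
    obtain ⟨G, hG, _, h1⟩ := hs
    refine ⟨fun i => h1 i ▸ hG.2.1 i 1 ⟨zero_le_one, le_rfl⟩, fun i j hij => ?_⟩
    rw [← h1 i, ← h1 j]
    exact hG.2.2 i j hij 1 ⟨zero_le_one, le_rfl⟩

theorem isLegFam_reparam {ι : Type} {K : ι → ℝ → P3} (hK : ∀ i, IsLeg3 (K i))
    (hd : ∀ i j, i ≠ j → ∀ t t', K i t ≠ K j t') {g : ι → ℝ → ℝ} (hg : ∀ i, ContDiff ℝ ∞ (g i))
    (hg' : ∀ i t, 0 < deriv (g i) t) (hp : ∀ i t, g i (t + 1) = g i t + 1) :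
    IsLegFam fun i s t => K i ((1 - s) * t + s * g i t) := by
  refine ⟨fun i => ?_, fun i s hs => ?_, fun i j hij s _ t t' => hd i j hij _ _⟩
  · exact (hK i).1.comp (((contDiff_const.sub contDiff_fst).mul contDiff_snd).add
      (contDiff_fst.mul ((hg i).comp contDiff_snd)))
  · have hder : ∀ t, HasDerivAt (fun t => (1 - s) * t + s * g i t)
        ((1 - s) * 1 + s * deriv (g i) t) t := fun t =>
      ((hasDerivAt_id' t).const_mul (1 - s)).add
        ((((hg i).differentiable (by simp) t).hasDerivAt).const_mul s)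
    have hpos : ∀ t, 0 < (1 - s) * 1 + s * deriv (g i) t := fun t =>
      den_pos hs.1 hs.2 one_pos (hg' i t)
    have hmono : StrictMono fun t => (1 - s) * t + s * g i t :=
      strictMono_of_deriv_pos fun t => by rw [(hder t).deriv]; exact hpos t
    have hper : ∀ t, (1 - s) * (t + 1) + s * g i (t + 1) = (1 - s) * t + s * g i t + 1 :=
      fun t => by rw [hp]; ring
    have hD : ∀ t, deriv (fun t => K i ((1 - s) * t + s * g i t)) t =
        ((1 - s) * 1 + s * deriv (g i) t) • deriv (K i) ((1 - s) * t + s * g i t) := fun t =>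
      ((((hK i).1.differentiable (by simp) _).hasDerivAt).scomp t (hder t)).deriv
    have key : ∀ t ∈ Ico (0 : ℝ) 1, ∀ t' ∈ Ico (0 : ℝ) 1, t < t' →
        K i ((1 - s) * t + s * g i t) ≠ K i ((1 - s) * t' + s * g i t') := by
      intro t ht t' ht' hlt he
      obtain ⟨k, hk⟩ := eq_int (hK i) he.symm
      have a1 := hmono hlt
      have a2 := hmono (show t' < t + 1 by linarith [ht.1, ht'.2])
      simp only at a1 a2
      rw [hper] at a2
      have b1 : (0 : ℝ) < k := by linarith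
      have b2 : (k : ℝ) < 1 := by linarith
      have b1' : 0 < k := by exact_mod_cast b1
      have b2' : k < 1 := by exact_mod_cast b2
      omega
    refine ⟨?_, fun t => ?_, fun t ht t' ht' he => ?_, fun t => ?_, fun t => ?_⟩
    · exact (hK i).1.comp ((contDiff_const.mul contDiff_id).add (contDiff_const.mul (hg i)))
    · simp only [hper]; exact (hK i).2.1 _
    · rcases lt_trichotomy t t' with h | h | h
      · exact absurd he (key t ht t' ht' h)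
      · exact h
      · exact absurd he.symm (key t' ht' t ht h)
    · rw [hD]; exact smul_ne_zero (hpos t).ne' ((hK i).2.2.2.1 _)
    · rw [hD]
      have := (hK i).2.2.2.2 ((1 - s) * t + s * g i t)
      simp only [al, Prod.smul_fst, Prod.smul_snd, smul_eq_mul] at this ⊢
      linear_combination ((1 - s) * 1 + s * deriv (g i) t) * this

/-- a diffeomorphism of the circle that is a given contraction on an arc -/
theorem exists_stair {k a b : ℝ} (hk : 0 < k) (hk1 : k ≤ 1) (hab : a < b) (h1 : b - a < 1) :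
    ∃ g : ℝ → ℝ, ContDiff ℝ ∞ g ∧ (∀ t, 0 < deriv g t) ∧ (∀ t, g (t + 1) = g t + 1) ∧
      ∀ t ∈ Icc a b, g t = k * t := by
  have hd0 : 0 < b - a := by linarith
  have he : 0 < (1 - (b - a)) / 2 := by linarith
  have hs : ContDiff ℝ ∞ (stair a (b - a)) := by
    refine contDiff_iff_contDiffAt.2 fun t => ContDiffAt.congr_of_eventuallyEq ?_
      (stair_ev hd0 h1 t)
    exact (contDiff_const.add (Real.smoothTransition.contDiff.comp
      ((((contDiff_id.sub contDiff_const).sub contDiff_const).sub contDiff_const).div_const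
        _))).contDiffAt
  have hn : ∀ t, 0 ≤ deriv (stair a (b - a)) t := fun t => by
    rw [(stair_ev hd0 h1 t).deriv_eq]
    refine Monotone.deriv_nonneg fun x y hxy => ?_
    refine add_le_add le_rfl (Real.smoothTransition.monotone ?_)
    exact div_le_div_of_nonneg_right (by linarith) he.le
  refine ⟨fun t => k * t + (1 - k) * stair a (b - a) t,
    (contDiff_const.mul contDiff_id).add (contDiff_const.mul hs), fun t => ?_, fun t => ?_,
    fun t ht => ?_⟩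
  · have : HasDerivAt (fun t => k * t + (1 - k) * stair a (b - a) t)
        (k * 1 + (1 - k) * deriv (stair a (b - a)) t) t :=
      ((hasDerivAt_id' t).const_mul k).add
        (((hs.differentiable (by simp) t).hasDerivAt).const_mul (1 - k))
    rw [this.deriv]
    have := mul_nonneg (sub_nonneg.2 hk1) (hn t)
    linarith
  · have : ⌊t + 1 - a⌋ = ⌊t - a⌋ + 1 := by
      rw [show t + 1 - a = t - a + 1 by ring, Int.floor_add_one]
    simp only [stair, this]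
    push_cast
    rw [show t + 1 - a - (⌊t - a⌋ + 1) = t - a - ⌊t - a⌋ by ring]
    ring
  · have : ⌊t - a⌋ = 0 := Int.floor_eq_iff.2 ⟨by push_cast; linarith [ht.1], by
      push_cast; linarith [ht.2]⟩
    simp only [stair, this]
    rw [Real.smoothTransition.zero_of_nonpos]
    · simp
    · exact div_nonpos_of_nonpos_of_nonneg (by push_cast; linarith [ht.2]) he.le

/-- interpolation of two Legendrian curves that agree outside an arc on which `x + κ y` is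
increasing -/
theorem zone_fam {c₀ c₁ : ℝ → P3} {κ a a' b' b : ℝ} (s₀ : ContDiff ℝ ∞ c₀) (s₁ : ContDiff ℝ ∞ c₁)
    (p₀ : ∀ t, c₀ (t + 1) = c₀ t) (p₁ : ∀ t, c₁ (t + 1) = c₁ t)
    (l₀ : ∀ t, al (c₀ t) (deriv c₀ t) = 0) (l₁ : ∀ t, al (c₁ t) (deriv c₁ t) = 0)
    (h1 : a < a') (h2 : a' < b') (h3 : b' < b) (h4 : b - a < 1)
    (he : ∀ t ∈ Icc b' (a' + 1), c₀ t = c₁ t)
    (m₀ : ∀ t ∈ Icc a b, 0 < (deriv c₀ t).1 + κ * (deriv c₀ t).2.1)
    (m₁ : ∀ t ∈ Icc a b, 0 < (deriv c₁ t).1 + κ * (deriv c₁ t).2.1) :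
    ∃ G : ℝ → ℝ → P3, ContDiff ℝ ∞ (fun w : ℝ × ℝ => G w.1 w.2) ∧ G 0 = c₀ ∧ G 1 = c₁ ∧
      ∀ s, (∀ t, G s (t + 1) = G s t) ∧ (∀ t, al (G s t) (deriv (G s) t) = 0) ∧
        (∀ t ∈ Icc b' (a' + 1), G s t = c₁ t) ∧
        ∀ t ∈ Icc a b, 0 < (deriv (G s) t).1 + κ * (deriv (G s) t).2.1 ∧
          (G s t).2.1 ∈ segment ℝ (c₀ t).2.1 (c₁ t).2.1 ∧
          (G s t).1 + κ * (G s t).2.1 ∈
            segment ℝ ((c₀ t).1 + κ * (c₀ t).2.1) ((c₁ t).1 + κ * (c₁ t).2.1) ∧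
          (G s t).2.2 + κ * (G s t).2.1 ^ 2 / 2 ∈
            segment ℝ ((c₀ t).2.2 + κ * (c₀ t).2.1 ^ 2 / 2)
              ((c₁ t).2.2 + κ * (c₁ t).2.1 ^ 2 / 2) := by
  have cover : ∀ t, (0 < uu κ (deriv c₀ t) ∧ 0 < uu κ (deriv c₁ t)) ∨
      ∀ᶠ r in 𝓝 t, c₀ r = c₁ r := by
    intro t
    have f1 := Int.floor_le (t - a)
    have f2 := Int.lt_floor_add_one (t - a)
    rcases le_or_gt (t - ⌊t - a⌋) b with h | h
    · left
      have hm : t + ((-⌊t - a⌋ : ℤ) : ℝ) ∈ Icc a b :=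
        ⟨by push_cast; linarith, by push_cast; linarith⟩
      have e0 := m₀ _ hm
      have e1 := m₁ _ hm
      rw [per_int (per_deriv p₀)] at e0
      rw [per_int (per_deriv p₁)] at e1
      exact ⟨e0, e1⟩
    · right
      have hm : Ioo (b' + ⌊t - a⌋) (a' + 1 + ⌊t - a⌋) ∈ 𝓝 t :=
        Ioo_mem_nhds (by linarith) (by linarith)
      filter_upwards [hm] with r hr
      have := he (r + ((-⌊t - a⌋ : ℤ) : ℝ))
        ⟨by push_cast; linarith [hr.1], by push_cast; linarith [hr.2]⟩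
      rwa [per_int p₀, per_int p₁] at this
  have dp : ∀ s {A B : ℝ}, 0 < A → 0 < B →
      0 < (1 - Real.smoothTransition s) * A + Real.smoothTransition s * B := fun s _ _ hA hB =>
    den_pos (Real.smoothTransition.nonneg s) (Real.smoothTransition.le_one s) hA hB
  refine ⟨fun s t => gg c₀ c₁ κ (Real.smoothTransition s) t, ?_, ?_, ?_, fun s =>
    ⟨fun t => ?_, fun t => ?_, fun t ht => gg_of_eq κ _ (he t ht), fun t ht => ?_⟩⟩
  · refine contDiff_iff_contDiffAt.2 fun w => ?_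
    rcases cover w.2 with h | h
    · exact sm_gg κ s₀ s₁ (m := fun w : ℝ × ℝ => Real.smoothTransition w.1) (τ := fun w => w.2)
        (Real.smoothTransition.contDiff.comp contDiff_fst) contDiff_snd (dp _ h.1 h.2).ne'
    · refine ContDiffAt.congr_of_eventuallyEq (s₁.comp contDiff_snd).contDiffAt ?_
      filter_upwards [continuous_snd.continuousAt.eventually h] with v hv
      exact gg_of_eq κ _ hv
  · funext t
    simp only [Real.smoothTransition.zero]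
    rcases cover t with h | h
    · exact gg_zero κ h.1
    · rw [gg_of_eq κ _ h.self_of_nhds, h.self_of_nhds]
  · funext t
    simp only [Real.smoothTransition.one]
    exact gg_one κ t
  · simp only [gg, qq, p₀, p₁, per_deriv p₀, per_deriv p₁]
  · rcases cover t with h | h
    · exact (hd_gg κ _ s₀ s₁ l₀ l₁ (dp s h.1 h.2).ne').2
    · have hev : gg c₀ c₁ κ (Real.smoothTransition s) =ᶠ[𝓝 t] c₁ := by
        filter_upwards [h] with r hr
        exact gg_of_eq κ _ hr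
      have e1 := hev.deriv_eq
      have e2 := hev.self_of_nhds
      change al (gg c₀ c₁ κ (Real.smoothTransition s) t)
        (deriv (gg c₀ c₁ κ (Real.smoothTransition s)) t) = 0
      rw [e1, e2]
      exact l₁ t
  · have hA : 0 < uu κ (deriv c₀ t) := m₀ t ht
    have hB : 0 < uu κ (deriv c₁ t) := m₁ t ht
    have hD := dp s hA hB
    have n0 := Real.smoothTransition.nonneg s
    have n1 := sub_nonneg.2 (Real.smoothTransition.le_one s)
    refine ⟨?_, ?_, ?_, ?_⟩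
    · have := (hd_gg κ _ s₀ s₁ l₀ l₁ hD.ne').1
      rw [← this] at hD
      exact hD
    · refine ⟨(1 - Real.smoothTransition s) * uu κ (deriv c₀ t) /
          ((1 - Real.smoothTransition s) * uu κ (deriv c₀ t) +
            Real.smoothTransition s * uu κ (deriv c₁ t)),
        Real.smoothTransition s * uu κ (deriv c₁ t) /
          ((1 - Real.smoothTransition s) * uu κ (deriv c₀ t) +
            Real.smoothTransition s * uu κ (deriv c₁ t)),
        div_nonneg (mul_nonneg n1 hA.le) hD.le, div_nonneg (mul_nonneg n0 hB.le) hD.le, ?_, ?_⟩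
      · rw [← add_div, div_self hD.ne']
      · simp only [gg, qq, smul_eq_mul]
        have := hD.ne'
        field_simp
        ring
    · refine ⟨1 - Real.smoothTransition s, Real.smoothTransition s, n1, n0, by ring, ?_⟩
      simp only [gg, uu, smul_eq_mul]
      ring
    · refine ⟨1 - Real.smoothTransition s, Real.smoothTransition s, n1, n0, by ring, ?_⟩
      simp only [gg, ww, smul_eq_mul]
      ring

end Pool.Agent.Lib.MP_4d7d0a_gt
end

-- part Pool.Agent.Lib.MP_4d7d0a_gt.AGlue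
section

/-! Gluing a contact manifold from parametrisations. -/

set_option autoImplicit false

open Set Filter Topology
open scoped ContDiff

namespace Pool.Agent.Lib.MP_4d7d0a_gt

theorem exists_glue {X I : Type} (O : I → Set P3) (φ : I → P3 → X) (hO : ∀ i, IsOpen (O i))
    (hinj : ∀ i, InjOn (φ i) (O i)) (hcov : ∀ x, ∃ i, ∃ p ∈ O i, φ i p = x)
    (htr : ∀ i j, ∀ p ∈ O i, ∀ q ∈ O j, φ i p = φ j q →
      ∃ g : P3 → P3, g p = q ∧ ContactAt g p ∧ ∀ᶠ w in 𝓝 p, φ j (g w) = φ i w)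
    (hsep : ∀ i j, ∀ p ∈ O i, ∀ q ∈ O j, φ i p ≠ φ j q →
      ∀ᶠ a : P3 × P3 in 𝓝 (p, q), φ i a.1 ≠ φ j a.2) :
    ∃ (_ : TopologicalSpace X) (_ : ChartedSpace P3 X), T2Space X ∧ IsContactAtlas X ∧
      ∀ i, ∀ p ∈ O i, CtInto (φ i) p := by
  let τ : TopologicalSpace X :=
    { IsOpen := fun U => ∀ i, IsOpen (O i ∩ φ i ⁻¹' U)
      isOpen_univ := fun i => by simpa using hO i
      isOpen_inter := fun s t hs ht i => by
        rw [preimage_inter, inter_inter_distrib_left]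
        exact (hs i).inter (ht i)
      isOpen_sUnion := fun S hS i => by
        rw [preimage_sUnion, inter_iUnion₂]
        exact isOpen_biUnion fun t ht => hS t ht i }
  have hc : ∀ i, ContinuousOn (φ i) (O i) := fun i =>
    (continuousOn_open_iff (hO i)).2 fun t ht => ht i
  have hop : ∀ i, ∀ V : Set P3, IsOpen V → V ⊆ O i → IsOpen (φ i '' V) := fun i V hV hVO j => by
    refine isOpen_iff_mem_nhds.2 ?_
    rintro q ⟨hq, p, hp, e⟩
    obtain ⟨g, g0, g1, g2⟩ := htr j i q hq p (hVO hp) e.symm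
    filter_upwards [(hO j).mem_nhds hq, g2,
      g1.1.continuousAt.eventually (hV.mem_nhds (g0.symm ▸ hp))] with w h1 h2 h3
    exact ⟨h1, g w, h3, h2⟩
  let e : I → OpenPartialHomeomorph P3 X := fun i =>
    OpenPartialHomeomorph.ofContinuousOpenRestrict ((hinj i).toPartialEquiv (φ i) (O i)) (hc i)
      (fun U hU => by
        have h1 := hop i _ ((hO i).isOpenMap_subtype_val U hU) (Subtype.coe_image_subset _ _)
        rw [← image_comp] at h1
        exact h1) (hO i)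
  have e1 : ∀ i, ∀ p ∈ O i, (e i).symm (φ i p) = p := fun i p hp => (e i).left_inv hp
  have key : ∀ i j, ∀ p ∈ O i, φ i p ∈ φ j '' O j →
      ContactAt (fun w => (e j).symm (φ i w)) p := by
    rintro i j p hp ⟨q, hq, h⟩
    obtain ⟨g, g0, g1, g2⟩ := htr i j p hp q hq h.symm
    refine g1.congr ?_
    filter_upwards [g2, g1.1.continuousAt.eventually ((hO j).mem_nhds (g0.symm ▸ hq))]
      with w h1 h2
    rw [← h1, e1 j _ h2]
  choose ix hix using hcov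
  let C : ChartedSpace P3 X :=
    { atlas := range fun i => (e i).symm
      chartAt := fun x => (e (ix x)).symm
      mem_chart_source := fun x => hix x
      chart_mem_atlas := fun x => mem_range_self (ix x) }
  refine ⟨τ, C, ⟨fun x y hxy => ?_⟩, ?_, fun i p hp =>
    ⟨(hc i).continuousAt ((hO i).mem_nhds hp), key i (ix (φ i p)) p hp (hix _)⟩⟩
  · obtain ⟨p, hp, h1⟩ := hix x
    obtain ⟨q, hq, h2⟩ := hix y
    obtain ⟨U, V, hU, hpU, hV, hqV, h⟩ :=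
      mem_nhds_prod_iff'.1 (hsep _ _ p hp q hq (by rwa [h1, h2]))
    refine ⟨_, _, hop (ix x) _ (hU.inter (hO _)) inter_subset_right,
      hop (ix y) _ (hV.inter (hO _)) inter_subset_right, ⟨p, ⟨hpU, hp⟩, h1⟩, ⟨q, ⟨hqV, hq⟩, h2⟩,
      Set.disjoint_left.2 ?_⟩
    rintro _ ⟨a, ha, rfl⟩ ⟨b, hb, h3⟩
    exact h (mk_mem_prod ha.1 hb.1) h3.symm
  · rintro _ ⟨i, rfl⟩ _ ⟨j, rfl⟩ m ⟨⟨p, hp, rfl⟩, hj⟩
    change ContactAt (fun w => (e j).symm (φ i w)) ((e i).symm (φ i p))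
    rw [e1 i p hp]
    exact key i j p hp hj

end Pool.Agent.Lib.MP_4d7d0a_gt
end

-- part Pool.Agent.Lib.MP_4d7d0a_gt.AHp
section

/-! The class of the twisted core. -/

set_option autoImplicit false

open Set Filter Topology
open scoped ContDiff

namespace Pool.Agent.Lib.MP_4d7d0a_gt

namespace AHpAux

theorem per_int {X : Type} {f : P3 → X} (h : ∀ p : P3, f (p.1 + 1, p.2) = f p) (k : ℤ) (x : ℝ)
    (w : ℝ × ℝ) : f (x + k, w) = f (x, w) := by
  have h1 : Function.Periodic (fun x : ℝ => f (x, w)) 1 := fun x => h (x, w)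
  have h2 := h1.int_mul k x
  rwa [mul_one] at h2

variable {X : Type} [TopologicalSpace X] {S : Set X} {G : Type} [Group G]

/-- the value of the image of a segment -/
def sv (F : PathFun S G) (f : P3 → X) (p q : P3) : G := F.F fun t => f (p + t • (q - p))

theorem seg_path {C : Set P3} (hC : Convex ℝ C) {p q : P3} (hp : p ∈ C) (hq : q ∈ C) :
    IsPath C fun t : ℝ => p + t • (q - p) :=
  ⟨by fun_prop, fun t ht => hC.add_smul_sub_mem hp hq ht⟩

variable (F : PathFun S G) {C : Set P3} {f : P3 → X}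

theorem sv_any (hC : Convex ℝ C) (hf : ContinuousOn f C) (hS : MapsTo f C S) {c : ℝ → P3}
    (hc : IsPath C c) : F.F (fun t => f (c t)) = sv F f (c 0) (c 1) :=
  F.conv hC hf hS hc (seg_path hC (hc.2 ⟨le_rfl, zero_le_one⟩) (hc.2 ⟨zero_le_one, le_rfl⟩))
    (by simp) (by simp)

theorem sv_mul (hC : Convex ℝ C) (hf : ContinuousOn f C) (hS : MapsTo f C S) {p q r : P3}
    (hp : p ∈ C) (hq : q ∈ C) (hr : r ∈ C) : sv F f p q * sv F f q r = sv F f p r := by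
  have h1 := seg_path hC hp hq
  have h2 := seg_path hC hq hr
  have h3 : (fun t : ℝ => p + t • (q - p)) 1 = (fun t : ℝ => q + t • (r - q)) 0 := by simp
  have h4 := sv_any F hC hf hS (PathFun.isPath_cat h1 h2 h3)
  rw [PathFun.pathFA_cat_comp, F.cat_eq (PathFun.pathFA_comp hf hS h1)
    (PathFun.pathFA_comp hf hS h2) (congrArg f h3),
    PathFun.pathFA_cat_right h3 (show (1 : ℝ) / 2 ≤ 1 by norm_num)] at h4
  have h5 : cat (fun t : ℝ => p + t • (q - p)) (fun t : ℝ => q + t • (r - q)) 0 = p := by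
    simp [cat]
  have h6 : q + ((2 : ℝ) * 1 - 1) • (r - q) = r := by norm_num
  rw [h5, h6] at h4
  exact h4

theorem sv_self (hS : MapsTo f C S) {p : P3} (hp : p ∈ C) : sv F f p p = 1 := by
  unfold sv
  simp only [sub_self, smul_zero, add_zero]
  exact F.const (hS hp)

theorem sv_inv (hC : Convex ℝ C) (hf : ContinuousOn f C) (hS : MapsTo f C S) {p q : P3}
    (hp : p ∈ C) (hq : q ∈ C) : sv F f q p = (sv F f p q)⁻¹ :=
  eq_inv_of_mul_eq_one_right (by rw [sv_mul F hC hf hS hp hq hp, sv_self F hS hp])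

theorem sv_shift (h : ∀ p : P3, f (p.1 + 1, p.2) = f p) (k : ℤ) (x y : ℝ) (v w : ℝ × ℝ) :
    sv F f (x + k, v) (y + k, w) = sv F f (x, v) (y, w) := by
  unfold sv
  congr 1
  funext t
  have h1 : ((x + k, v) : P3) + t • (((y + k, w) : P3) - (x + k, v)) =
      (x + t * (y - x) + k, v + t • (w - v)) := by
    refine Prod.ext ?_ rfl
    simp only [Prod.fst_add, Prod.smul_fst, Prod.fst_sub, smul_eq_mul]
    ring
  rw [h1, per_int h]
  rfl

theorem sv_pow (hC : Convex ℝ C) (hf : ContinuousOn f C) (hS : MapsTo f C S)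
    (h : ∀ p : P3, f (p.1 + 1, p.2) = f p) {w : ℝ × ℝ} (hw : ∀ x : ℝ, ((x, w) : P3) ∈ C) (k : ℤ) :
    sv F f (0, w) (k, w) = sv F f (0, w) (1, w) ^ k := by
  have step : ∀ k : ℤ, sv F f (0, w) (((k + 1 : ℤ) : ℝ), w) =
      sv F f (0, w) (k, w) * sv F f (0, w) (1, w) := fun k => by
    have h1 := sv_shift F h k 0 1 w w
    rw [zero_add, add_comm] at h1
    rw [← h1, sv_mul F hC hf hS (hw _) (hw _) (hw _), Int.cast_add, Int.cast_one]
  induction k using Int.induction_on with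
  | zero => rw [zpow_zero, Int.cast_zero, sv_self F hS (hw 0)]
  | succ k ih => rw [step, ih, zpow_add_one]
  | pred k ih =>
    have h1 := step (-(k : ℤ) - 1)
    rw [sub_add_cancel, ih] at h1
    rw [zpow_sub_one, h1, mul_inv_cancel_right]

theorem slab_convex (ζ ε : ℝ) : Convex ℝ (slab ζ ε) := by
  have h1 : slab ζ ε = univ ×ˢ (Ioo (-ε) ε ×ˢ Ioo (-(ζ + ε)) (ζ + ε)) := by
    ext p
    simp [slab, abs_lt]
  rw [h1]
  exact convex_univ.prod ((convex_Ioo _ _).prod (convex_Ioo _ _))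

/-- a vertical strip through the core -/
def strip (r : ℝ) : Set P3 := {p | p.2.1 = 0 ∧ |p.2.2| < r}

theorem strip_convex (r : ℝ) : Convex ℝ (strip r) := by
  have h1 : strip r = univ ×ˢ ({0} ×ˢ Ioo (-r) r) := by
    ext p
    simp [strip, abs_lt]
  rw [h1]
  exact convex_univ.prod ((convex_singleton _).prod (convex_Ioo _ _))

variable {M : Type} [TopologicalSpace M] [ChartedSpace P3 M] {L : ℝ → P3}

theorem strip_tube (sd : SD L M) {p : P3} (hp : p ∈ strip sd.r') : p ∈ tube sd.r := by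
  have h1 : |p.2.2| < |sd.r| := hp.2.trans_le (sd.r'_le.trans (le_abs_self _))
  have h2 := sq_lt_sq.2 h1
  show p.2.1 ^ 2 + p.2.2 ^ 2 < sd.r ^ 2
  rw [hp.1]
  linarith

theorem strip_cont (sd : SD L M) : ContinuousOn sd.ns (strip sd.r') := fun p hp =>
  (sd.ns_ct p (strip_tube sd hp)).1.continuousWithinAt

theorem strip_maps (sd : SD L M) : MapsTo sd.ns (strip sd.r') ({sd.minf}ᶜ : Set M) := by
  rintro ⟨x, y, z⟩ ⟨h1, h2⟩ h
  have h0 : y = 0 := h1
  have h3 : |z| < sd.r' := h2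
  subst h0
  have h4 : sd.ns (x, 0, z) = sd.minf := h
  rcases lt_trichotomy z 0 with hz | hz | hz
  · rw [abs_of_neg hz] at h3
    obtain ⟨h5, h6⟩ := sd.ns_eq (x := x) (a := -(Real.pi / 2)) (neg_pos.2 hz) h3
    refine sd.psi_ne h5 (h6.symm.trans ?_)
    rw [Real.cos_neg, Real.sin_neg, Real.cos_pi_div_two, Real.sin_pi_div_two, mul_zero,
      mul_neg_one, neg_neg]
    exact h4
  · subst hz
    exact sd.minf_not ⟨x, h4⟩
  · rw [abs_of_pos hz] at h3
    obtain ⟨h5, h6⟩ := sd.ns_eq (x := x) (a := Real.pi / 2) hz h3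
    refine sd.psi_ne h5 (h6.symm.trans ?_)
    rw [Real.cos_pi_div_two, Real.sin_pi_div_two, mul_zero, mul_one]
    exact h4

theorem conj_aux (a b c x l g : G) (h : c * a * b = g * l * x * g⁻¹) :
    IsConj (a * b * c) (x * l) :=
  isConj_iff.2 ⟨x * g⁻¹ * c, by
    calc x * g⁻¹ * c * (a * b * c) * (x * g⁻¹ * c)⁻¹
        = x * g⁻¹ * (c * a * b) * (x * g⁻¹)⁻¹ := by group
      _ = x * l := by rw [h]; group⟩

end AHpAux

open AHpAux in
theorem core_conj {M : Type} [TopologicalSpace M] [ChartedSpace P3 M] {L : ℝ → P3}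
    (sd : SD L M) {ζ ε ρ κ : ℝ} {j : P3 → P3} {j' : P3 → M} (S : Slabs sd ζ ε ρ κ j j')
    {τ : ℤ → P3 → P3} {W : Set P3} (hτ : TauOK ζ ε τ W) {T' : ℤ → M → M}
    (hT' : TwistOK ζ ε j' τ W T') (n : ℤ) {G : Type} [Group G]
    (F : PathFun ({sd.minf}ᶜ : Set M) G) :
    IsConj (F.F fun t => T' n (sd.ns (t, 0, 0)))
      (F.F (fun t => sd.ns (t, 0, -ζ)) * F.F (fun t => j' (t, 0, -ζ)) ^ (-n)) := by
  have hζ := S.ζ_pos
  have hε := S.ε_pos
  have hκ := S.κ_pos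
  have hκε := S.κ_le
  have hr := S.lt_r
  obtain ⟨e, he⟩ : ∃ e : ℝ, e = 3 / 4 * ε := ⟨_, rfl⟩
  obtain ⟨d, hd⟩ : ∃ d : ℝ, d = κ * e := ⟨_, rfl⟩
  have he0 : 0 < e := by linarith
  have hd0 : 0 < d := by rw [hd]; positivity
  have hd1 : d < 3 / 8 := by rw [hd, he]; linarith
  have hC := slab_convex ζ ε
  have hjc : ContinuousOn j' (slab ζ ε) := fun p hp => (S.j'_ct p hp).1.continuousWithinAt
  have hjm : MapsTo j' (slab ζ ε) ({sd.minf}ᶜ : Set M) := fun p hp => S.minf_ne p hp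
  have hD := strip_convex sd.r'
  have hnc := strip_cont sd
  have hnm := strip_maps sd
  have hW : W ⊆ slab ζ ε := fun p hp =>
    ⟨by linarith [(hτ.W_sub p hp).1], by linarith [(hτ.W_sub p hp).2]⟩
  have hτs : ∀ p ∈ slab ζ ε, τ n p ∈ slab ζ ε := fun p hp => by
    by_cases h : p ∈ W
    · exact hW (hτ.W_map n p h)
    · rcases hτ.off n p h with h1 | h1 <;> rw [h1] <;> exact hp
  have sl0 : ∀ x y : ℝ, |y| ≤ e → ((x, y, 0) : P3) ∈ slab ζ ε := fun x y hy =>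
    ⟨show |y| < ε by linarith, show |(0 : ℝ)| < ζ + ε by rw [abs_zero]; linarith⟩
  have slb : ∀ x : ℝ, ((x, 0, -ζ) : P3) ∈ slab ζ ε := fun x =>
    ⟨show |(0 : ℝ)| < ε by rwa [abs_zero],
      show |-ζ| < ζ + ε by rw [abs_neg, abs_of_pos hζ]; linarith⟩
  have st0 : ∀ x : ℝ, ((x, 0, 0) : P3) ∈ strip sd.r' := fun x =>
    ⟨rfl, show |(0 : ℝ)| < sd.r' by rw [abs_zero]; exact sd.r'_pos⟩
  have stb : ∀ x : ℝ, ((x, 0, -ζ) : P3) ∈ strip sd.r' := fun x =>
    ⟨rfl, show |-ζ| < sd.r' by rw [abs_neg, abs_of_pos hζ]; linarith⟩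
  have hep : |e| ≤ e := (abs_of_pos he0).le
  have hen : |-e| ≤ e := by rw [abs_neg]; exact hep
  have hy : ∀ t ∈ Icc (-d) d, |-t / κ| ≤ e := fun t ht => by
    rw [abs_div, abs_neg, abs_of_pos hκ, div_le_iff₀ hκ, abs_le]
    constructor <;> linarith [ht.1, ht.2]
  let γ : ℝ → M := fun t => T' n (sd.ns (t, 0, 0))
  let c : ℝ → P3 := fun t => τ n (0, -t / κ, 0)
  have g1 : ∀ t ∈ Icc (-d) d, γ t = j' (c t) := fun t ht => by
    have h1 := S.mid (-t / κ) 0 (sl0 0 _ (hy t ht)).1 (sl0 0 _ (hy t ht)).2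
    have h2 : -(κ * (-t / κ)) = t := by field_simp
    rw [h2] at h1
    show T' n (sd.ns (t, 0, 0)) = _
    rw [← h1]
    exact hT'.on n _ (sl0 0 _ (hy t ht))
  have c1 : Continuous c := continuous_iff_continuousAt.2 fun t =>
    ContinuousAt.comp (g := τ n) (f := fun t : ℝ => ((0, -t / κ, 0) : P3))
      (hτ.ct n _ (show |(0 : ℝ)| < ζ by rwa [abs_zero])).1.continuousAt (by fun_prop)
  have c2 : MapsTo c (Icc (-d) d) (slab ζ ε) := fun t ht => hτs _ (sl0 0 _ (hy t ht))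
  have c3 : c d = (0, -e, 0) := by
    have h1 : -d / κ = -e := by rw [hd]; field_simp
    show τ n (0, -d / κ, 0) = _
    rw [h1]
    refine hτ.off_neg n _ (fun h => ?_) (neg_neg_iff_pos.2 he0)
    have h2 : |-e| ≤ ε / 2 := (hτ.W_sub _ h).1
    rw [abs_neg, abs_of_pos he0] at h2
    linarith
  have c4 : c (-d) = ((0 : ℝ) + n, e, 0) := by
    have h1 : - -d / κ = e := by rw [hd]; field_simp
    show τ n (0, - -d / κ, 0) = _
    rw [h1]
    refine hτ.off_pos n _ (fun h => ?_) (show |(0 : ℝ)| < ζ by rwa [abs_zero]) he0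
    have h2 : |e| ≤ ε / 2 := (hτ.W_sub _ h).1
    rw [abs_of_pos he0] at h2
    linarith
  have g2 : ∀ t ∈ Icc d (1 - d), γ t = sd.ns (t, 0, 0) := fun t ht => by
    refine hT'.off n _ ?_
    rintro ⟨⟨x, y, z⟩, hp, h⟩
    obtain ⟨⟨k, hk⟩, hz⟩ := S.core _ (hW hp) t h
    have hx : x = 0 + (k : ℝ) := by rw [zero_add]; exact hk
    have hz' : z = 0 := hz
    have h1 : |y| ≤ ε / 2 := (hτ.W_sub _ hp).1
    subst hx hz'
    rw [per_int S.j'_map.1, S.mid y 0 (hW hp).1 (hW hp).2] at h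
    obtain ⟨-, m, hm⟩ := sd.ns_tube.2 _ (strip_tube sd (st0 _)) _ (strip_tube sd (st0 _)) h
    have hm' : -(κ * y) = t + m := hm
    have h2 : |κ * y| ≤ κ * (ε / 2) := by
      rw [abs_mul, abs_of_pos hκ]
      exact mul_le_mul_of_nonneg_left h1 hκ.le
    have h3 : κ * (ε / 2) < d := by
      rw [hd]
      exact mul_lt_mul_of_pos_left (by linarith) hκ
    rw [abs_le] at h2
    have h4 : (m : ℝ) < 0 := by linarith [ht.1, h2.1]
    have h5 : (-1 : ℝ) < m := by linarith [ht.2, h2.2]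
    have h6 : m < 0 := by exact_mod_cast h4
    have h7 : -1 < m := by exact_mod_cast h5
    omega
  have g3 : ∀ t, γ (t + 1) = γ t := fun t => congrArg (T' n) (sd.ns_tube.1 (t, 0, 0))
  have a1 : ContinuousOn γ (Icc (-d) d) := (hjc.comp c1.continuousOn c2).congr g1
  have a2 : MapsTo γ (Icc (-d) d) ({sd.minf}ᶜ : Set M) := fun t ht => by
    rw [g1 t ht]
    exact hjm (c2 ht)
  have a3 : ContinuousOn γ (Icc d (1 - d)) :=
    (hnc.comp (f := fun t : ℝ => ((t, 0, 0) : P3)) (by fun_prop) fun t _ => st0 t).congr g2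
  have a4 : MapsTo γ (Icc d (1 - d)) ({sd.minf}ᶜ : Set M) := fun t ht => by
    rw [g2 t ht]
    exact hnm (st0 t)
  have g4 : ∀ t, γ t = γ (t - 1) := fun t => by rw [← g3 (t - 1), sub_add_cancel]
  have a5 : MapsTo (fun t : ℝ => t - 1) (Icc (1 - d) (1 + d)) (Icc (-d) d) := fun t ht =>
    ⟨by linarith [ht.1], by linarith [ht.2]⟩
  have hI : Icc (-d) (1 + d) = Icc (-d) d ∪ Icc d (1 - d) ∪ Icc (1 - d) (1 + d) := by
    rw [Icc_union_Icc_eq_Icc (by linarith) (by linarith),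
      Icc_union_Icc_eq_Icc (by linarith) (by linarith)]
  have a6 : ContinuousOn γ (Icc (-d) (1 + d)) := by
    rw [hI]
    exact (a1.union_of_isClosed a3 isClosed_Icc isClosed_Icc).union_of_isClosed
      ((a1.comp (by fun_prop) a5).congr fun t _ => g4 t) (isClosed_Icc.union isClosed_Icc)
      isClosed_Icc
  have a7 : MapsTo γ (Icc (-d) (1 + d)) ({sd.minf}ᶜ : Set M) := by
    rw [hI]
    refine (a2.union a4).union fun t ht => ?_
    rw [g4 t]
    exact a2 (a5 ht)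
  have m0 : (0 : ℝ) ∈ Icc (-d) (1 + d) := ⟨by linarith, by linarith⟩
  have m1 : (1 : ℝ) ∈ Icc (-d) (1 + d) := ⟨by linarith, by linarith⟩
  have m2 : d ∈ Icc (-d) (1 + d) := ⟨by linarith, by linarith⟩
  have m3 : 1 - d ∈ Icc (-d) (1 + d) := ⟨by linarith, by linarith⟩
  have m4 : -d ∈ Icc (-d) (1 + d) := ⟨by linarith, by linarith⟩
  have e1 : F.F γ = F.F (fun t => γ (0 + t * (d - 0))) * F.F (fun t => γ (d + t * (1 - d - d))) *
      F.F (fun t => γ (-d + t * (0 - -d))) := by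
    have h1 : γ = fun t => γ (0 + t * (1 - 0)) := by simp
    have h2 : (fun t => γ (-d + t * (0 - -d))) = fun t => γ (1 - d + t * (1 - (1 - d))) := by
      funext t
      rw [← g3]
      congr 1
      ring
    rw [h2, ← F.cut ordConnected_Icc a6 a7 m0 m2 m3, ← F.cut ordConnected_Icc a6 a7 m0 m3 m1,
      ← h1]
  have s1 : ∀ t ∈ Icc (0 : ℝ) 1, -d + t * (d - -d) ∈ Icc (-d) d := fun t ht =>
    ⟨by nlinarith [ht.1], by nlinarith [ht.2]⟩
  have s2 : ∀ t ∈ Icc (0 : ℝ) 1, d + t * (1 - d - d) ∈ Icc d (1 - d) := fun t ht =>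
    ⟨by nlinarith [ht.1], by nlinarith [ht.2]⟩
  have e2 : F.F (fun t => γ (-d + t * (d - -d))) = sv F j' ((0 : ℝ) + n, e, 0) (0, -e, 0) := by
    have hp : IsPath (slab ζ ε) fun t => c (-d + t * (d - -d)) :=
      ⟨(c1.comp (by fun_prop)).continuousOn, fun t ht => c2 (s1 t ht)⟩
    rw [F.congr (PathFun.pathFA_comp hjc hjm hp) fun t ht => g1 _ (s1 t ht),
      sv_any F hC hjc hjm hp]
    have h1 : -d + 0 * (d - -d) = -d := by ring
    have h2 : -d + 1 * (d - -d) = d := by ring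
    rw [h1, h2, c3, c4]
  have e3 : F.F (fun t => γ (d + t * (1 - d - d))) =
      sv F sd.ns (d, 0, 0) (-d + (1 : ℤ), 0, 0) := by
    have hp : IsPath (strip sd.r') fun t : ℝ => ((d + t * (1 - d - d), 0, 0) : P3) :=
      ⟨by fun_prop, fun t _ => st0 _⟩
    rw [F.congr (PathFun.pathFA_comp hnc hnm hp) fun t ht => g2 _ (s2 t ht),
      sv_any F hD hnc hnm hp]
    have h1 : d + 0 * (1 - d - d) = d := by ring
    have h2 : d + 1 * (1 - d - d) = -d + (1 : ℤ) := by push_cast; ring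
    rw [h1, h2]
  have e4 : F.F (fun t => sd.ns (t, 0, -ζ)) = sv F sd.ns (0, 0, -ζ) (1, 0, -ζ) :=
    sv_any F hD hnc hnm (c := fun t : ℝ => ((t, 0, -ζ) : P3)) ⟨by fun_prop, fun t _ => stb t⟩
  have e5 : F.F (fun t => j' (t, 0, -ζ)) = sv F j' (0, 0, -ζ) (1, 0, -ζ) :=
    sv_any F hC hjc hjm (c := fun t : ℝ => ((t, 0, -ζ) : P3)) ⟨by fun_prop, fun t _ => slb t⟩
  have e6 : ∀ y : ℝ, |y| ≤ e →
      sv F j' (0, 0, -ζ) (0, y, 0) = sv F sd.ns (0, 0, -ζ) (-(κ * y), 0, 0) := fun y hy => by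
    refine F.congr (PathFun.pathFA_comp hnc hnm (seg_path hD (stb 0) (st0 _))) fun t ht => ?_
    have h1 := (seg_path hC (slb 0) (sl0 0 y hy)).2 ht
    have h2 : ((0, 0, -ζ) : P3) + t • (((0, y, 0) : P3) - (0, 0, -ζ)) =
        (0, t * y, -ζ + t * ζ) := by simp
    have h3 : ((0, 0, -ζ) : P3) + t • (((-(κ * y), 0, 0) : P3) - (0, 0, -ζ)) =
        (-(κ * (t * y)), 0, -ζ + t * ζ) := by
      simp only [Prod.mk_sub_mk, Prod.smul_mk, Prod.mk_add_mk, smul_eq_mul, Prod.mk.injEq]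
      refine ⟨by ring, by ring, by ring⟩
    simp only [h2] at h1
    rw [h2, h3]
    exact S.mid _ _ h1.1 h1.2
  have e7 := e6 e hep
  have e8 := e6 (-e) hen
  rw [← hd] at e7
  rw [mul_neg, neg_neg, ← hd] at e8
  show IsConj (F.F γ) _
  rw [e1]
  refine conj_aux _ _ _ _ _ (sv F sd.ns (0, 0, -ζ) (-d, 0, 0))⁻¹ ?_
  have f1 : sv F j' ((0 : ℝ) + n, e, 0) (0, -e, 0) = (sv F sd.ns (0, 0, -ζ) (-d, 0, 0))⁻¹ *
      sv F j' (0, 0, -ζ) (1, 0, -ζ) ^ (-n) * sv F sd.ns (0, 0, -ζ) (d, 0, 0) := by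
    rw [← e7, ← e8, zpow_neg, ← sv_pow F hC hjc hjm S.j'_map.1 slb n,
      ← sv_inv F hC hjc hjm (slb _) (slb _), ← sv_inv F hC hjc hjm (slb _) (sl0 _ _ hep),
      ← sv_shift F S.j'_map.1 n 0 0 (e, 0) (0, -ζ), zero_add,
      sv_mul F hC hjc hjm (sl0 _ _ hep) (slb _) (slb _),
      sv_mul F hC hjc hjm (sl0 _ _ hep) (slb _) (sl0 _ _ hen)]
  have f2 : sv F sd.ns (d, 0, 0) (-d + (1 : ℤ), 0, 0) = (sv F sd.ns (0, 0, -ζ) (d, 0, 0))⁻¹ *
      sv F sd.ns (0, 0, -ζ) (1, 0, -ζ) * sv F sd.ns (0, 0, -ζ) (-d, 0, 0) := by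
    rw [← sv_inv F hD hnc hnm (stb _) (st0 _), ← sv_shift F sd.ns_tube.1 1 0 (-d) (0, -ζ) (0, 0),
      zero_add, sv_mul F hD hnc hnm (st0 _) (stb _) (stb _), Int.cast_one,
      sv_mul F hD hnc hnm (st0 _) (stb _) (st0 _)]
  rw [← F.cut ordConnected_Icc a6 a7 m4 m0 m2, e2, e3, e4, e5, f1, f2]
  group

end Pool.Agent.Lib.MP_4d7d0a_gt
end
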