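import Pool.Agent.Lib.MP_4d7d0a_gt.AGeo
import Pool.Agent.Lib.MP_4d7d0a_gt.AHp
import Pool.Agent.Lib.MP_4d7d0a_gt.TFP

-- part Pool.Agent.Lib.MP_4d7d0a_gt.ALeaf1
section

/-! The first isotopy of the leaves. -/

set_option autoImplicit false

open Set Filter Topology
open scoped ContDiff

namespace Pool.Agent.Lib.MP_4d7d0a_gt

namespace ALeaf1Aux

theorem es_sq (c : Bool) : es c * es c = 1 := by cases c <;> simp [es]

theorem es_abs (c : Bool) : |es c| = 1 := by cases c <;> simp [es]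

theorem es_ne (c : Bool) : es c ≠ 0 := by cases c <;> simp [es]

theorem sg_eq : sg = 16384 := rfl

theorem vv_eq : vv = 1409024 := by
  unfold vv
  rw [sg_eq]
  norm_num

theorem comp_fst {E F : Type} [NormedAddCommGroup E] [NormedSpace ℝ E] [NormedAddCommGroup F]
    [NormedSpace ℝ F] {f : ℝ → E × F} {f' : E × F} {x : ℝ} (h : HasDerivAt f f' x) :
    HasDerivAt (fun y => (f y).1) f'.1 x :=
  (ContinuousLinearMap.fst ℝ E F).hasFDerivAt.comp_hasDerivAt x h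

theorem comp_snd {E F : Type} [NormedAddCommGroup E] [NormedSpace ℝ E] [NormedAddCommGroup F]
    [NormedSpace ℝ F] {f : ℝ → E × F} {f' : E × F} {x : ℝ} (h : HasDerivAt f f' x) :
    HasDerivAt (fun y => (f y).2) f'.2 x :=
  (ContinuousLinearMap.snd ℝ E F).hasFDerivAt.comp_hasDerivAt x h

variable (tw : Tw)

theorem R_diff : Differentiable ℝ tw.R := tw.R_sm.differentiable (by simp)

theorem R_mono : Monotone tw.R := monotone_of_deriv_nonneg (R_diff tw) tw.R_der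

theorem R_le (p : ℝ) : tw.R p ≤ 1 := by
  rcases le_total p 2 with h | h
  · exact (R_mono tw h).trans (tw.R_one 2 le_rfl).le
  · exact (tw.R_one p h).le

theorem R_ge (p : ℝ) : -1 ≤ tw.R p := by
  have := R_le tw (-p)
  rw [tw.R_odd] at this
  linarith

theorem R_neg {p : ℝ} (h : p ≤ -2) : tw.R p = -1 := by
  have := tw.R_one (-p) (by linarith)
  rw [tw.R_odd] at this
  linarith

theorem R_lb {a p : ℝ} (ha : |a| ≤ 99 / 100) (h : a ≤ p) : a ≤ tw.R p :=
  (tw.R_mid a ha).symm.le.trans (R_mono tw h)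

theorem R_ub {a p : ℝ} (ha : |a| ≤ 99 / 100) (h : p ≤ a) : tw.R p ≤ a :=
  (R_mono tw h).trans (tw.R_mid a ha).le

theorem R_der_one {p : ℝ} (h : |p| < 99 / 100) : deriv tw.R p = 1 := by
  have h1 : ∀ᶠ q in 𝓝 p, |q| < 99 / 100 := (continuous_abs.tendsto p).eventually_lt_const h
  have h2 : tw.R =ᶠ[𝓝 p] fun q => q := h1.mono fun q hq => tw.R_mid q hq.le
  rw [h2.deriv_eq, deriv_id'']

theorem T_mem (p : ℝ) : -1 ≤ tw.T p ∧ tw.T p ≤ 42 := by
  have := R_le tw p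
  have := R_ge tw p
  unfold Tw.T
  constructor <;> linarith

theorem chi_der {T : ℝ} (h : tw.χ T = 0 ∨ tw.χ T = 1) : deriv tw.χ T = 0 := by
  rcases h with h | h
  · exact IsLocalMin.deriv_eq_zero (Eventually.of_forall fun S => h.le.trans (tw.χ_mem S).1)
  · exact IsLocalMax.deriv_eq_zero (Eventually.of_forall fun S => (tw.χ_mem S).2.trans h.ge)

theorem chi_far {p : ℝ} (h : 99 / 100 ≤ |p|) :
    tw.χ (tw.T p) = 0 ∧ deriv tw.χ (tw.T p) = 0 := by
  have h1 : tw.χ (tw.T p) = 0 := by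
    apply tw.χ_zero
    unfold Tw.T
    rcases le_abs.1 h with h | h
    · have := R_lb tw (a := 99 / 100) (by norm_num) h
      right
      linarith
    · have := R_ub tw (a := -(99 / 100)) (p := p) (by norm_num) (by linarith)
      left
      linarith
  exact ⟨h1, chi_der tw (Or.inl h1)⟩

theorem E_mem (p : ℝ) : 1 ≤ Real.exp (tw.β p) ∧ Real.exp (tw.β p) ≤ 3 :=
  ⟨Real.one_le_exp (tw.β_mem p).1,
    (Real.exp_le_exp.2 (tw.β_mem p).2).trans (Real.exp_one_lt_d9.le.trans (by norm_num))⟩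

/-- the normalised second coordinate -/
noncomputable def Yf (l p : ℝ) : ℝ :=
  (1 - l * tw.χ (tw.T p)) * Real.exp (tw.β p) * p +
    86 * l * deriv tw.χ (tw.T p) * (Real.exp (tw.β p) - 1)

/-- the part of its derivative that carries the factor `R'` -/
noncomputable def Psi (l p : ℝ) : ℝ :=
  -(l * deriv tw.χ (tw.T p) * (43 / 2) * Real.exp (tw.β p) * p) -
    (1 - l * tw.χ (tw.T p)) * Real.exp (tw.β p) * p ^ 2 / 4 +
    86 * l * deriv (deriv tw.χ) (tw.T p) * (43 / 2) * (Real.exp (tw.β p) - 1) -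
    86 * l * deriv tw.χ (tw.T p) * Real.exp (tw.β p) * p / 4

theorem chi1_sm : ContDiff ℝ ∞ (deriv tw.χ) := (contDiff_infty_iff_deriv.1 tw.χ_sm).2

theorem chi2_sm : ContDiff ℝ ∞ (deriv (deriv tw.χ)) := (contDiff_infty_iff_deriv.1 (chi1_sm tw)).2

theorem T_sm : ContDiff ℝ ∞ tw.T := contDiff_const.add (contDiff_const.mul tw.R_sm)

theorem T_der (p : ℝ) : HasDerivAt tw.T (43 / 2 * deriv tw.R p) p :=
  ((R_diff tw p).hasDerivAt.const_mul (43 / 2)).const_add (41 / 2)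

theorem Y_der (l p : ℝ) : HasDerivAt (Yf tw l)
    ((1 - l * tw.χ (tw.T p)) * Real.exp (tw.β p) + deriv tw.R p * Psi tw l p) p := by
  have h1 := ((tw.χ_sm.differentiable (by simp)) (tw.T p)).hasDerivAt.comp p (T_der tw p)
  have h2 := (((chi1_sm tw).differentiable (by simp)) (tw.T p)).hasDerivAt.comp p (T_der tw p)
  have h3 := (tw.β_der p).exp
  have h4 := ((((h1.const_mul l).const_sub 1).fun_mul h3).fun_mul (hasDerivAt_id' p)).fun_add
    ((h2.const_mul (86 * l)).fun_mul (h3.sub_const 1))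
  refine h4.congr_deriv ?_
  simp only [Function.comp_apply, Psi]
  ring

theorem co_der (ζ : ℝ) (c : Bool) (l p : ℝ) : HasDerivAt (tw.co ζ c l)
    (-(es c * deriv tw.R p / 4),
      ζ * ((1 - l * tw.χ (tw.T p)) * Real.exp (tw.β p) + deriv tw.R p * Psi tw l p),
      ζ * Yf tw l p * -(es c * deriv tw.R p / 4)) p := by
  have h1 := ((tw.χ_sm.differentiable (by simp)) (tw.T p)).hasDerivAt.comp p (T_der tw p)
  have h3 := (tw.β_der p).exp
  refine HasDerivAt.prodMk ?_ (HasDerivAt.prodMk ((Y_der tw l p).const_mul ζ) ?_)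
  · refine (((((T_der tw p).const_sub 42).const_mul (es c)).const_add 42).div_const 86).congr_deriv
      ?_
    ring
  · refine ((((((h1.const_mul l).const_sub 1).const_mul ζ).fun_mul (h3.sub_const 1)).const_add
      (ζ + l * (8 * sg - ζ))).const_mul (es c)).congr_deriv ?_
    simp only [Function.comp_apply, Yf]
    ring

theorem co_sm (ζ : ℝ) (c : Bool) : ContDiff ℝ ∞ fun a : ℝ × ℝ => tw.co ζ c a.1 a.2 := by
  have h0 := (T_sm tw).comp (contDiff_snd (𝕜 := ℝ) (E := ℝ) (F := ℝ))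
  have h1 := tw.χ_sm.comp h0
  have h2 := (chi1_sm tw).comp h0
  have h3 := (tw.β_sm.comp (contDiff_snd (𝕜 := ℝ) (E := ℝ) (F := ℝ))).exp
  have h4 := contDiff_const.sub (contDiff_fst.mul h1) (f := fun _ => (1 : ℝ))
  refine ContDiff.prodMk ?_ (ContDiff.prodMk ?_ ?_)
  · exact (contDiff_const.add (contDiff_const.mul (contDiff_const.sub h0))).div_const 86
  · exact contDiff_const.mul (((h4.mul h3).mul contDiff_snd).add
      (((contDiff_const.mul contDiff_fst).mul h2).mul (h3.sub contDiff_const)))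
  · exact contDiff_const.mul ((contDiff_const.add (contDiff_fst.mul contDiff_const)).add
      ((contDiff_const.mul h4).mul (h3.sub contDiff_const)))

theorem exists_bd : ∃ C : ℝ, 0 < C ∧ ∀ l ∈ Icc (0 : ℝ) 1, ∀ p : ℝ, |p| ≤ 3 →
    |Yf tw l p| ≤ C ∧ |Psi tw l p| ≤ C := by
  have a0 := (T_sm tw).continuous
  have a1 := tw.χ_sm.continuous
  have a2 := (chi1_sm tw).continuous
  have a3 := (chi2_sm tw).continuous
  have a4 := tw.β_sm.continuous
  have hc : Continuous fun a : ℝ × ℝ => (Yf tw a.1 a.2, Psi tw a.1 a.2) := by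
    unfold Yf Psi
    fun_prop
  obtain ⟨C, hC⟩ := ((isCompact_Icc (a := (0 : ℝ)) (b := 1)).prod
    (isCompact_Icc (a := (-3 : ℝ)) (b := 3))).exists_bound_of_continuousOn hc.continuousOn
  refine ⟨|C| + 1, by positivity, fun l hl p hp => ?_⟩
  have h1 := hC (l, p) ⟨hl, abs_le.1 hp⟩
  have h2 := le_abs_self C
  exact ⟨((norm_fst_le (Yf tw l p, Psi tw l p)).trans h1).trans (by linarith),
    ((norm_snd_le (Yf tw l p, Psi tw l p)).trans h1).trans (by linarith)⟩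

/-- the size conditions on `ζ` -/
structure Good (ε₀ ζ : ℝ) : Prop where
  pos : 0 < ζ
  le : ζ ≤ 1 / 2
  bd : ∀ l ∈ Icc (0 : ℝ) 1, ∀ p : ℝ, |p| ≤ 3 → |ζ * Yf tw l p| < ε₀ ∧ |ζ * Psi tw l p| < ε₀

theorem exists_good {ε₀ : ℝ} (h : 0 < ε₀) :
    ∃ ζ₀ : ℝ, 0 < ζ₀ ∧ ∀ ζ : ℝ, 0 < ζ → ζ < ζ₀ → Good tw ε₀ ζ := by
  obtain ⟨C, hC, hb⟩ := exists_bd tw
  refine ⟨min (1 / 2) (ε₀ / C), by positivity, fun ζ h0 h1 => ?_⟩
  have h2 : ζ * C < ε₀ := (lt_div_iff₀ hC).1 (h1.trans_le (min_le_right _ _))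
  refine ⟨h0, (h1.trans_le (min_le_left _ _)).le, fun l hl p hp => ?_⟩
  obtain ⟨b1, b2⟩ := hb l hl p hp
  rw [abs_mul, abs_mul, abs_of_pos h0]
  exact ⟨(mul_le_mul_of_nonneg_left b1 h0.le).trans_lt h2,
    (mul_le_mul_of_nonneg_left b2 h0.le).trans_lt h2⟩

theorem co_far (ζ : ℝ) (c : Bool) (l : ℝ) {p : ℝ} (h : 99 / 100 ≤ |p|) :
    (tw.co ζ c l p).2 = (ζ * (Real.exp (tw.β p) * p),
      es c * (ζ + l * (8 * sg - ζ) + ζ * (Real.exp (tw.β p) - 1))) := by
  obtain ⟨h1, h2⟩ := chi_far tw h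
  simp only [Tw.co, h1, h2]
  simp

variable {tw} {π : Prof} {ε₀ ζ : ℝ}

/-- the point over the left tip -/
theorem can_left (h : LOK π ε₀) (c : Bool) (l : ℝ) {p : ℝ} (hT : 42 - tw.T p < 15 / 16) :
    can (π.knot WL) (tw.co ζ c l p) = (-1 + ζ * Yf tw l p / vv, -(sg * es c * (42 - tw.T p)),
      (tw.co ζ c l p).2.2 - es c * (42 - tw.T p) / 86 * (ζ * Yf tw l p)) := by
  have e : (tw.co ζ c l p).1 - 42 / 86 = es c * (42 - tw.T p) / 86 := by
    simp only [Tw.co]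
    ring
  rw [h.tipL, e]
  · refine Prod.ext rfl (Prod.ext ?_ rfl)
    simp only [vv]
    ring
  · have e2 : 86 * (tw.co ζ c l p).1 - 42 = es c * (42 - tw.T p) := by linarith
    rw [e2, abs_mul, es_abs, one_mul, abs_of_nonneg (by linarith [(T_mem tw p).2])]
    exact hT

/-- the point over the right tip -/
theorem can_right (h : LOK π ε₀) (c : Bool) (l : ℝ) {p : ℝ} (hT : tw.T p + 1 < 15 / 16) :
    can (π.knot WL) (tw.co ζ c l p) = (1 + ζ * Yf tw l p / vv, sg * es c * (tw.T p + 1),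
      (tw.co ζ c l p).2.2 + es c * (tw.T p + 1) / 86 * (ζ * Yf tw l p)) := by
  obtain ⟨k, hk⟩ : ∃ k : ℤ, (tw.co ζ c l p).1 + k + 1 / 86 = -(es c * (tw.T p + 1) / 86) := by
    cases c
    · refine ⟨0, ?_⟩
      simp only [Tw.co, es]
      norm_num
      ring
    · refine ⟨-1, ?_⟩
      simp only [Tw.co, es]
      norm_num
      ring
  rw [← h.can_int _ k, h.tipR]
  · simp only [hk]
    refine Prod.ext rfl (Prod.ext ?_ ?_)
    · simp only [vv]
      ring
    · simp only [Tw.co, Yf]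
      ring
  · have e2 : 86 * ((tw.co ζ c l p).1 + k) + 1 = -(es c * (tw.T p + 1)) := by linarith
    simp only
    rw [e2, abs_neg, abs_mul, es_abs, one_mul, abs_of_nonneg (by linarith [(T_mem tw p).1])]
    exact hT

theorem leaf_chart (c : Bool) (l : ℝ) {x : ℝ} {k : ℤ} (hx : |x - k| < 1 / 2) :
    leaf π tw ζ c l x = can (π.knot WL) (tw.co ζ c l (2 * vv * (x - k) / ζ)) := by
  have : round x = k := by
    rw [round_eq, Int.floor_eq_iff]
    constructor <;> linarith [(abs_lt.1 hx).1, (abs_lt.1 hx).2]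
  rw [leaf, this]

theorem leaf_gap (h : LOK π ε₀) (h0 : 0 < ζ) (c : Bool) (l : ℝ) {x : ℝ} {n : ℤ}
    (h1 : n + ζ / vv ≤ x) (h2 : x ≤ n + 1 - ζ / vv) :
    leaf π tw ζ c l x = (-1 + 2 * (x - n), 0, es c * (ζ + l * (8 * sg - ζ))) := by
  have hv : (0 : ℝ) < vv := by rw [vv_eq]; norm_num
  have hq : 0 < ζ / vv := by positivity
  have hz : ζ = vv * (ζ / vv) := by field_simp
  rcases lt_or_ge x (n + 1 / 2) with h3 | h3
  · have hr : round x = n := by
      rw [round_eq, Int.floor_eq_iff]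
      constructor <;> linarith
    have hp : 2 ≤ 2 * vv * (x - n) / ζ := by
      rw [le_div_iff₀ h0]
      nlinarith
    have hp' : 2 ≤ |2 * vv * (x - n) / ζ| := hp.trans (le_abs_self _)
    have hT : tw.T (2 * vv * (x - n) / ζ) = 42 := by
      rw [Tw.T, tw.R_one _ hp]
      norm_num
    obtain ⟨a1, a2⟩ := chi_far tw (p := 2 * vv * (x - n) / ζ) (by linarith)
    rw [leaf, hr, can_left h c l (by rw [hT]; norm_num), co_far tw ζ c l (by linarith), Yf, a1, a2,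
      tw.β_zero _ hp', hT]
    refine Prod.ext ?_ (Prod.ext (by simp) (by simp))
    simp only [Real.exp_zero]
    field_simp
    ring
  · have hr : round x = n + 1 := by
      rw [round_eq, Int.floor_eq_iff]
      push_cast
      constructor <;> linarith
    have hp : 2 * vv * (x - (n + 1)) / ζ ≤ -2 := by
      rw [div_le_iff₀ h0]
      nlinarith
    have hp' : 2 ≤ |2 * vv * (x - (n + 1)) / ζ| := le_abs.2 (Or.inr (by linarith))
    have hT : tw.T (2 * vv * (x - (n + 1)) / ζ) = -1 := by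
      rw [Tw.T, R_neg tw hp]
      norm_num
    obtain ⟨a1, a2⟩ := chi_far tw (p := 2 * vv * (x - (n + 1)) / ζ) (by linarith)
    rw [leaf, hr]
    push_cast
    rw [can_right h c l (by rw [hT]; norm_num), co_far tw ζ c l (by linarith), Yf, a1, a2,
      tw.β_zero _ hp', hT]
    refine Prod.ext ?_ (Prod.ext (by simp) (by simp))
    simp only [Real.exp_zero]
    field_simp
    ring

/-- every parameter is in the chart part or in the gap part -/
theorem cover (x : ℝ) {a b : ℝ} (hab : b < a) :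
    (∃ k : ℤ, |x - k| < a) ∨ ∃ n : ℤ, n + b < x ∧ x < n + 1 - b := by
  have h1 := Int.floor_le x
  have h2 := Int.lt_floor_add_one x
  by_cases h3 : x - ⌊x⌋ < a
  · exact Or.inl ⟨⌊x⌋, by rwa [abs_of_nonneg (by linarith)]⟩
  by_cases h4 : ⌊x⌋ + 1 - x < a
  · refine Or.inl ⟨⌊x⌋ + 1, ?_⟩
    push_cast
    rw [abs_of_nonpos (by linarith)]
    linarith
  exact Or.inr ⟨⌊x⌋, by linarith, by linarith⟩

theorem scale (hg : Good tw ε₀ ζ) {y a : ℝ} (ha : a ≤ 3) (hy : |y| < a * (ζ / vv) / 2) :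
    |y| < 1 / 2 ∧ |2 * vv * y / ζ| < a := by
  have h0 := hg.pos
  have h1 := hg.le
  have h2 := abs_nonneg y
  rw [vv_eq] at hy ⊢
  refine ⟨by nlinarith, ?_⟩
  rw [abs_div, abs_mul, abs_of_pos h0, div_lt_iff₀ h0, abs_of_pos (by norm_num)]
  linarith

theorem Z_mem (hg : Good tw ε₀ ζ) (c : Bool) {l : ℝ} (hl : l ∈ Icc (0 : ℝ) 1) (p : ℝ) :
    0 < es c * (tw.co ζ c l p).2.2 ∧ |(tw.co ζ c l p).2.2| ≤ 12 * sg := by
  have h0 := hg.pos
  have h1 := hg.le
  obtain ⟨e1, e2⟩ := E_mem tw p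
  obtain ⟨c1, c2⟩ := tw.χ_mem (tw.T p)
  have a1 : 0 ≤ 1 - l * tw.χ (tw.T p) := by nlinarith [hl.1, hl.2]
  have a2 : 1 - l * tw.χ (tw.T p) ≤ 1 := by nlinarith [hl.1, hl.2]
  have a3 : 0 ≤ (1 - l * tw.χ (tw.T p)) * (Real.exp (tw.β p) - 1) := mul_nonneg a1 (by linarith)
  have a4 : (1 - l * tw.χ (tw.T p)) * (Real.exp (tw.β p) - 1) ≤ 2 := by nlinarith
  have a5 : 0 ≤ l * (8 * sg - ζ) := mul_nonneg hl.1 (by rw [sg_eq]; linarith)
  have a6 : l * (8 * sg - ζ) ≤ 8 * sg - ζ :=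
    mul_le_of_le_one_left (by rw [sg_eq]; linarith) hl.2
  have a7 : 0 < ζ + l * (8 * sg - ζ) + ζ * (1 - l * tw.χ (tw.T p)) * (Real.exp (tw.β p) - 1) := by
    nlinarith
  simp only [Tw.co]
  rw [← mul_assoc, es_sq, one_mul, abs_mul, es_abs, one_mul, abs_of_pos a7]
  refine ⟨a7, ?_⟩
  rw [sg_eq] at *
  nlinarith

theorem Z0_pos (hg : Good tw ε₀ ζ) {l : ℝ} (hl : l ∈ Icc (0 : ℝ) 1) :
    0 < ζ + l * (8 * sg - ζ) := by
  have a5 : 0 ≤ l * (8 * sg - ζ) := mul_nonneg hl.1 (by rw [sg_eq]; linarith [hg.le])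
  linarith [hg.pos]

theorem leaf_sm (h : LOK π ε₀) (hg : Good tw ε₀ ζ) (c : Bool) {f : ℝ → ℝ} (hf : ContDiff ℝ ∞ f)
    (hm : ∀ s, f s ∈ Icc (0 : ℝ) 1) : ContDiff ℝ ∞ fun a : ℝ × ℝ => leaf π tw ζ c (f a.1) a.2 := by
  have hq : 0 < ζ / vv := div_pos hg.pos (by rw [vv_eq]; norm_num)
  refine contDiff_iff_contDiffAt.2 fun a => ?_
  rcases cover a.2 (a := 3 * (ζ / vv) / 2) (b := ζ / vv) (by linarith) with ⟨k, hk⟩ | ⟨n, h1, h2⟩
  · obtain ⟨b1, b2⟩ := scale hg le_rfl hk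
    have h3 : ContDiff ℝ ∞ fun a : ℝ × ℝ => tw.co ζ c (f a.1) (2 * vv * (a.2 - k) / ζ) :=
      (co_sm tw ζ c).comp ((hf.comp contDiff_fst).prodMk
        ((contDiff_const.mul (contDiff_snd.sub contDiff_const)).div_const ζ))
    have h4 := (h.ct (tw.co ζ c (f a.1) (2 * vv * (a.2 - k) / ζ)) (hg.bd _ (hm _) _ b2.le).1).1.1
    refine (h4.comp a h3.contDiffAt).congr_of_eventuallyEq ?_
    have h5 : ∀ᶠ b : ℝ × ℝ in 𝓝 a, |b.2 - k| < 1 / 2 :=
      (Continuous.tendsto (by fun_prop) a).eventually_lt_const b1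
    exact h5.mono fun b hb => leaf_chart c _ hb
  · have h3 : ContDiff ℝ ∞ fun a : ℝ × ℝ =>
        ((-1 + 2 * (a.2 - n), 0, es c * (ζ + f a.1 * (8 * sg - ζ))) : P3) := by fun_prop
    refine h3.contDiffAt.congr_of_eventuallyEq ?_
    have h5 : ∀ᶠ b : ℝ × ℝ in 𝓝 a, b.2 ∈ Ioo (n + ζ / vv) (n + 1 - ζ / vv) :=
      (continuous_snd.tendsto a).eventually (Ioo_mem_nhds h1 h2)
    exact h5.mono fun b hb => leaf_gap h hg.pos c _ hb.1.le hb.2.le

theorem leaf_sm1 (h : LOK π ε₀) (hg : Good tw ε₀ ζ) (c : Bool) {l : ℝ} (hl : l ∈ Icc (0 : ℝ) 1) :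
    ContDiff ℝ ∞ (leaf π tw ζ c l) := by
  have h1 := leaf_sm h hg c (f := fun _ => l) contDiff_const fun _ => hl
  have h2 : ContDiff ℝ ∞ fun x : ℝ => ((0, x) : ℝ × ℝ) := by fun_prop
  have h3 := h1.comp h2
  simp only [Function.comp_def] at h3
  exact h3

theorem gap_der (h : LOK π ε₀) (hg : Good tw ε₀ ζ) (c : Bool) (l : ℝ) {x : ℝ} {n : ℤ}
    (h1 : n + ζ / vv < x) (h2 : x < n + 1 - ζ / vv) :
    deriv (leaf π tw ζ c l) x = (2, 0, 0) := by
  have h3 : HasDerivAt (fun x : ℝ =>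
      ((-1 + 2 * (x - n), 0, es c * (ζ + l * (8 * sg - ζ))) : P3)) (2, 0, 0) x := by
    refine HasDerivAt.prodMk ?_ ((hasDerivAt_const _ _).prodMk (hasDerivAt_const _ _))
    simpa using (((hasDerivAt_id' x).sub_const (n : ℝ)).const_mul 2).const_add (-1)
  refine (h3.congr_of_eventuallyEq ?_).deriv
  filter_upwards [Ioo_mem_nhds h1 h2] with y hy using leaf_gap h hg.pos c _ hy.1.le hy.2.le

theorem par_der (ζ x : ℝ) (k : ℤ) :
    HasDerivAt (fun x : ℝ => 2 * vv * (x - k) / ζ) (2 * vv / ζ) x := by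
  simpa using (((hasDerivAt_id' x).sub_const (k : ℝ)).const_mul (2 * vv)).div_const ζ

theorem leaf_reg (h : LOK π ε₀) (hg : Good tw ε₀ ζ) (c : Bool) {l : ℝ} (hl : l ∈ Icc (0 : ℝ) 1)
    (x : ℝ) : deriv (leaf π tw ζ c l) x ≠ 0 ∧
      al (leaf π tw ζ c l x) (deriv (leaf π tw ζ c l) x) = 0 ∧ Reg π ε₀ c (leaf π tw ζ c l x) := by
  have hv : (0 : ℝ) < vv := by rw [vv_eq]; norm_num
  have h0 := hg.pos
  have hq : 0 < ζ / vv := div_pos h0 hv
  rcases cover x (a := 3 * (ζ / vv) / 2) (b := ζ / vv) (by linarith) with ⟨k, hk⟩ | ⟨n, h1, h2⟩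
  · obtain ⟨b1, b2⟩ := scale hg le_rfl hk
    set p := 2 * vv * (x - k) / ζ with hp
    have hY : |(tw.co ζ c l p).2.1| < ε₀ := (hg.bd l hl p b2.le).1
    have h4 := h.ct _ hY
    have h5 := (co_der tw ζ c l p).scomp x (par_der ζ x k)
    have h6 := (h4.1.1.differentiableAt (by simp)).hasFDerivAt.comp_hasDerivAt x h5
    have h7 : ∀ᶠ y : ℝ in 𝓝 x, |y - k| < 1 / 2 :=
      (Continuous.tendsto (by fun_prop) x).eventually_lt_const b1
    have h8 := (h6.congr_of_eventuallyEq (f₁ := leaf π tw ζ c l)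
      (h7.mono fun y hy => leaf_chart c l hy)).deriv
    have h9 : ∀ᶠ q : P3 in 𝓝 (tw.co ζ c l p), |q.2.1| < ε₀ :=
      (Continuous.tendsto (by fun_prop) _).eventually_lt_const hY
    have h10 := fderiv_inj_of_contact (h9.mono fun q hq => (h.ct q hq).1)
    rw [h8, leaf_chart c l b1]
    refine ⟨fun e => ?_, ?_, Or.inl ⟨_, hY, (Z_mem hg c hl p).1, (Z_mem hg c hl p).2, rfl⟩⟩
    · rw [← map_zero (fderiv ℝ (can (π.knot WL)) (tw.co ζ c l p))] at e
      have e1 := (smul_eq_zero.1 (h10 e)).resolve_left (by positivity)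
      have e2 : -(es c * deriv tw.R p / 4) = 0 := congrArg Prod.fst e1
      have e3 : deriv tw.R p = 0 := (mul_eq_zero.1 (by linarith)).resolve_left (es_ne c)
      have e4 : ζ * ((1 - l * tw.χ (tw.T p)) * Real.exp (tw.β p) + deriv tw.R p * Psi tw l p) = 0 :=
        congrArg (fun q : P3 => q.2.1) e1
      have e5 : 99 / 100 ≤ |p| := by
        by_contra e6
        rw [R_der_one tw (not_le.1 e6)] at e3
        exact one_ne_zero e3
      rw [e3, (chi_far tw e5).1] at e4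
      have := Real.exp_pos (tw.β p)
      nlinarith
    · rw [h4.2]
      simp only [al, Tw.co, Yf, Prod.smul_snd, Prod.smul_fst, smul_eq_mul]
      ring
  · rw [gap_der h hg c l h1 h2, leaf_gap h h0 c l h1.le h2.le]
    refine ⟨by simp, by simp [al], Or.inr (Or.inl ⟨?_, rfl, ?_⟩)⟩
    · exact abs_lt.2 ⟨by simp only; linarith, by simp only; linarith⟩
    · simp only
      rw [← mul_assoc, es_sq, one_mul]
      exact Z0_pos hg hl

theorem chart_inj (h : LOK π ε₀) (hg : Good tw ε₀ ζ) (c : Bool) {l : ℝ} (hl : l ∈ Icc (0 : ℝ) 1)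
    {p q : ℝ} (hp : |p| ≤ 3) (hq : |q| ≤ 3)
    (e : can (π.knot WL) (tw.co ζ c l p) = can (π.knot WL) (tw.co ζ c l q)) : p = q := by
  obtain ⟨e1, k, e2⟩ := h.box _ _ (hg.bd l hl p hp).1 (hg.bd l hl q hq).1 (Z_mem hg c hl p).2
    (Z_mem hg c hl q).2 e
  obtain ⟨a1, a2⟩ := T_mem tw p
  obtain ⟨a3, a4⟩ := T_mem tw q
  have e3 : es c * (tw.T q - tw.T p) = 86 * k := by
    simp only [Tw.co] at e2
    linarith
  have e4 : |(86 * k : ℝ)| ≤ 43 := by
    rw [← e3, abs_mul, es_abs, one_mul]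
    exact abs_le.2 ⟨by linarith, by linarith⟩
  have e5 : k = 0 := by
    have b1 : (-1 : ℝ) < k := by linarith [(abs_le.1 e4).1]
    have b2 : (k : ℝ) < 1 := by linarith [(abs_le.1 e4).2]
    have b3 : -1 < k := by exact_mod_cast b1
    have b4 : k < 1 := by exact_mod_cast b2
    omega
  rw [e5, Int.cast_zero, mul_zero] at e3
  have e6 : tw.R p = tw.R q := by
    have := (mul_eq_zero.1 e3).resolve_left (es_ne c)
    unfold Tw.T at this
    linarith
  have key : ∀ p q : ℝ, tw.R p = tw.R q → |p| < 99 / 100 → p = q := by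
    intro p q e6 b
    rw [tw.R_mid p b.le] at e6
    have b1 : q < 99 / 100 := by
      by_contra b2
      linarith [R_lb tw (a := 99 / 100) (by norm_num) (not_lt.1 b2), (abs_lt.1 b).2]
    have b2 : -(99 / 100) < q := by
      by_contra b2
      linarith [R_ub tw (a := -(99 / 100)) (by norm_num) (not_lt.1 b2), (abs_lt.1 b).1]
    rwa [tw.R_mid q (abs_le.2 ⟨b2.le, b1.le⟩)] at e6
  rcases lt_or_ge |p| (99 / 100) with b | b
  · exact key p q e6 b
  rcases lt_or_ge |q| (99 / 100) with b' | b'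
  · exact (key q p e6.symm b').symm
  rw [co_far tw ζ c l b, co_far tw ζ c l b'] at e1
  have f1 := mul_left_cancel₀ hg.pos.ne' (congrArg Prod.fst e1)
  have f2 := mul_left_cancel₀ (es_ne c) (congrArg Prod.snd e1)
  have f3 : Real.exp (tw.β p) = Real.exp (tw.β q) := by
    have := mul_left_cancel₀ hg.pos.ne' (add_left_cancel f2)
    linarith
  rw [f3] at f1
  exact mul_left_cancel₀ (Real.exp_pos _).ne' f1

theorem chart_gap (h : LOK π ε₀) (hg : Good tw ε₀ ζ) (c : Bool) {l : ℝ} (hl : l ∈ Icc (0 : ℝ) 1)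
    {p X : ℝ} (hp : |p| < 2) (hX : |X| ≤ 1 - 2 * (ζ / vv)) :
    can (π.knot WL) (tw.co ζ c l p) ≠ (X, 0, es c * (ζ + l * (8 * sg - ζ))) := by
  intro e
  have hv : (0 : ℝ) < vv := by rw [vv_eq]; norm_num
  have h0 := hg.pos
  have hq : 0 < ζ / vv := div_pos h0 hv
  have hs : (0 : ℝ) < sg := by rw [sg_eq]; norm_num
  obtain ⟨a1, a2⟩ := T_mem tw p
  obtain ⟨k, hk⟩ := h.tip (hg.bd l hl p (by linarith)).1 (by rw [e]; simp only; linarith)
    (by rw [e]; simp only [abs_zero]; positivity)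
  have hT : 42 - tw.T p < 15 / 16 ∨ tw.T p + 1 < 15 / 16 := by
    have e0 : 86 * ((tw.co ζ c l p).1 - k) = 42 + es c * (42 - tw.T p) - 86 * k := by
      simp only [Tw.co]
      ring
    rw [e0] at hk
    rcases le_or_gt k (-1) with b | b
    · have b' : (k : ℝ) ≤ -1 := by exact_mod_cast b
      cases c <;> simp only [es, abs_le] at hk <;> norm_num at hk <;> rcases hk with hk | hk <;>
        (left; linarith)
    rcases le_or_gt 1 k with b1 | b1
    · have b' : (1 : ℝ) ≤ k := by exact_mod_cast b1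
      cases c <;> simp only [es, abs_le] at hk <;> norm_num at hk <;> rcases hk with hk | hk <;>
        (right; linarith)
    · have b' : k = 0 := by omega
      subst b'
      cases c <;> simp only [es, abs_le] at hk <;> norm_num at hk <;> rcases hk with hk | hk <;>
        first | (left; linarith) | (right; linarith)
  have fin : ∀ (hf : 99 / 100 ≤ |p|), (tw.co ζ c l p).2.2 = es c * (ζ + l * (8 * sg - ζ)) →
      Yf tw l p = p := by
    intro hf e1
    rw [co_far tw ζ c l hf] at e1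
    have f2 := mul_left_cancel₀ (es_ne c) e1
    have f3 : ζ * (Real.exp (tw.β p) - 1) = 0 := by linarith
    have f4 : Real.exp (tw.β p) = 1 := by linarith [(mul_eq_zero.1 f3).resolve_left h0.ne']
    rw [Yf, (chi_far tw hf).1, (chi_far tw hf).2, f4]
    ring
  rcases hT with hT | hT
  · rw [can_left h c l hT] at e
    have e1 : -(sg * es c * (42 - tw.T p)) = 0 := congrArg (fun q : P3 => q.2.1) e
    have e2 : 42 - tw.T p = 0 :=
      (mul_eq_zero.1 (neg_eq_zero.1 e1)).resolve_left (mul_ne_zero hs.ne' (es_ne c))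
    have e3 : 99 / 100 ≤ |p| := by
      by_contra b
      have b' := not_le.1 b
      rw [Tw.T, tw.R_mid p b'.le] at e2
      linarith [(abs_lt.1 b').2]
    have e4 : (tw.co ζ c l p).2.2 - es c * (42 - tw.T p) / 86 * (ζ * Yf tw l p) =
      es c * (ζ + l * (8 * sg - ζ)) := congrArg (fun q : P3 => q.2.2) e
    rw [e2] at e4
    have e5 : -1 + ζ * Yf tw l p / vv = X := congrArg Prod.fst e
    rw [fin e3 (by linarith), mul_comm, mul_div_assoc] at e5
    nlinarith [(abs_le.1 hX).1, (abs_lt.1 hp).2]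
  · rw [can_right h c l hT] at e
    have e1 : sg * es c * (tw.T p + 1) = 0 := congrArg (fun q : P3 => q.2.1) e
    have e2 : tw.T p + 1 = 0 := (mul_eq_zero.1 e1).resolve_left (mul_ne_zero hs.ne' (es_ne c))
    have e3 : 99 / 100 ≤ |p| := by
      by_contra b
      have b' := not_le.1 b
      rw [Tw.T, tw.R_mid p b'.le] at e2
      linarith [(abs_lt.1 b').1]
    have e4 : (tw.co ζ c l p).2.2 + es c * (tw.T p + 1) / 86 * (ζ * Yf tw l p) =
      es c * (ζ + l * (8 * sg - ζ)) := congrArg (fun q : P3 => q.2.2) e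
    rw [e2] at e4
    have e5 : 1 + ζ * Yf tw l p / vv = X := congrArg Prod.fst e
    rw [fin e3 (by linarith), mul_comm, mul_div_assoc] at e5
    nlinarith [(abs_le.1 hX).2, (abs_lt.1 hp).1]

theorem cover' (x a : ℝ) : (∃ k : ℤ, |x - k| < 2 * a / 2) ∨ ∃ n : ℤ, n + a ≤ x ∧ x ≤ n + 1 - a := by
  have h1 := Int.floor_le x
  have h2 := Int.lt_floor_add_one x
  by_cases h3 : x - ⌊x⌋ < a
  · exact Or.inl ⟨⌊x⌋, by rw [abs_of_nonneg (by linarith)]; linarith⟩
  by_cases h4 : ⌊x⌋ + 1 - x < a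
  · refine Or.inl ⟨⌊x⌋ + 1, ?_⟩
    push_cast
    rw [abs_of_nonpos (by linarith)]
    linarith
  exact Or.inr ⟨⌊x⌋, by linarith, by linarith⟩

theorem leaf_inj (h : LOK π ε₀) (hg : Good tw ε₀ ζ) (c : Bool) {l : ℝ} (hl : l ∈ Icc (0 : ℝ) 1) :
    InjOn (leaf π tw ζ c l) (Ico 0 1) := by
  intro x hx y hy e
  have hv : (0 : ℝ) < vv := by rw [vv_eq]; norm_num
  have h0 := hg.pos
  have fin : ∀ k k' : ℤ, x - k = y - k' → x = y := by
    intro k k' e1
    have b1 : (-1 : ℝ) < (k - k' : ℤ) := by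
      push_cast
      linarith [hx.1, hy.2]
    have b2 : ((k - k' : ℤ) : ℝ) < 1 := by
      push_cast
      linarith [hx.2, hy.1]
    have b3 : -1 < k - k' := by exact_mod_cast b1
    have b4 : k - k' < 1 := by exact_mod_cast b2
    have b5 : k = k' := by omega
    rw [b5] at e1
    linarith
  rcases cover' x (ζ / vv) with ⟨k, hk⟩ | ⟨n, h1, h2⟩ <;>
    rcases cover' y (ζ / vv) with ⟨k', hk'⟩ | ⟨n', h1', h2'⟩
  · obtain ⟨b1, b2⟩ := scale hg (by norm_num) hk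
    obtain ⟨b3, b4⟩ := scale hg (by norm_num) hk'
    rw [leaf_chart c l b1, leaf_chart c l b3] at e
    have e1 := chart_inj h hg c hl (by linarith) (by linarith) e
    rw [div_left_inj' h0.ne'] at e1
    exact fin k k' (mul_left_cancel₀ (by positivity) e1)
  · obtain ⟨b1, b2⟩ := scale hg (by norm_num) hk
    rw [leaf_chart c l b1, leaf_gap h h0 c l h1' h2'] at e
    exact absurd e (chart_gap h hg c hl b2 (abs_le.2 ⟨by linarith, by linarith⟩))
  · obtain ⟨b1, b2⟩ := scale hg (by norm_num) hk'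
    rw [leaf_chart c l b1, leaf_gap h h0 c l h1 h2] at e
    exact absurd e.symm (chart_gap h hg c hl b2 (abs_le.2 ⟨by linarith, by linarith⟩))
  · rw [leaf_gap h h0 c l h1 h2, leaf_gap h h0 c l h1' h2'] at e
    have e1 : -1 + 2 * (x - n) = -1 + 2 * (y - n') := congrArg Prod.fst e
    exact fin n n' (by linarith)

/-- the covector increases in the chart part -/
theorem u_pos (h : LOK π ε₀) (hg : Good tw ε₀ ζ) {p : ℝ} (hp : |p| ≤ 3) :
    0 < ζ * ((1 - 1 * tw.χ (tw.T p)) * Real.exp (tw.β p) + deriv tw.R p * Psi tw 1 p) / vv +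
      43 / 2 * deriv tw.R p := by
  have h0 := hg.pos
  have b1 := (abs_lt.1 ((hg.bd 1 ⟨zero_le_one, le_rfl⟩ p hp).2.trans_le h.le_one)).1
  have b2 := tw.R_der p
  have b3 := Real.exp_pos (tw.β p)
  have b4 : 0 ≤ (1 - 1 * tw.χ (tw.T p)) * Real.exp (tw.β p) :=
    mul_nonneg (by linarith [(tw.χ_mem (tw.T p)).2]) b3.le
  have b5 : 0 ≤ deriv tw.R p * (ζ * Psi tw 1 p + 1) := mul_nonneg b2 (by linarith)
  rw [vv_eq]
  rcases lt_or_ge |p| (99 / 100) with b | b
  · rw [R_der_one tw b] at b5 ⊢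
    nlinarith
  · rw [(chi_far tw b).1]
    nlinarith

theorem end_part (hg : Good tw ε₀ ζ) {x d : ℝ} (hd : 0 < d) (hd' : d ≤ 21)
    (h1 : ζ * d / (43 * vv) ≤ x) (h2 : x ≤ 1 + ζ * -d / (43 * vv)) :
    (|x - (0 : ℤ)| < 1 / 2 ∧ |2 * vv * (x - (0 : ℤ)) / ζ| < 3 ∧
        41 / 2 + d ≤ tw.T (2 * vv * (x - (0 : ℤ)) / ζ)) ∨
      (|x - (1 : ℤ)| < 1 / 2 ∧ |2 * vv * (x - (1 : ℤ)) / ζ| < 3 ∧
        tw.T (2 * vv * (x - (1 : ℤ)) / ζ) ≤ 41 / 2 - d) ∨
      ((0 : ℤ) + ζ / vv < x ∧ x < (0 : ℤ) + 1 - ζ / vv) := by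
  have hv : (0 : ℝ) < vv := by rw [vv_eq]; norm_num
  have h0 := hg.pos
  have hq : 0 < ζ / vv := div_pos h0 hv
  have e1 : ζ * d / (43 * vv) = d / 43 * (ζ / vv) := by field_simp
  have e2 : ζ * -d / (43 * vv) = -(d / 43 * (ζ / vv)) := by field_simp
  have e3 : 0 < d / 43 * (ζ / vv) := by positivity
  have hz : ζ = vv * (ζ / vv) := by field_simp
  rw [e1] at h1
  rw [e2] at h2
  by_cases c1 : x < 3 * (ζ / vv) / 2
  · obtain ⟨b1, b2⟩ := scale hg (y := x - (0 : ℤ)) le_rfl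
      (abs_lt.2 ⟨by push_cast; linarith, by push_cast; linarith⟩)
    refine Or.inl ⟨b1, b2, ?_⟩
    have : 2 * d / 43 ≤ 2 * vv * (x - (0 : ℤ)) / ζ := by
      rw [le_div_iff₀ h0]
      push_cast
      nlinarith
    have := R_lb tw (abs_le.2 ⟨by linarith, by linarith⟩) this
    unfold Tw.T
    linarith
  by_cases c2 : 1 - 3 * (ζ / vv) / 2 < x
  · obtain ⟨b1, b2⟩ := scale hg (y := x - (1 : ℤ)) le_rfl
      (abs_lt.2 ⟨by push_cast; linarith, by push_cast; linarith⟩)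
    refine Or.inr (Or.inl ⟨b1, b2, ?_⟩)
    have : 2 * vv * (x - (1 : ℤ)) / ζ ≤ -(2 * d / 43) := by
      rw [div_le_iff₀ h0]
      push_cast
      nlinarith
    have := R_ub tw (abs_le.2 ⟨by linarith, by linarith⟩) this
    unfold Tw.T
    linarith
  · exact Or.inr (Or.inr ⟨by push_cast; linarith, by push_cast; linarith⟩)

theorem end_mono (h : LOK π ε₀) (hg : Good tw ε₀ ζ) (c : Bool) {x : ℝ}
    (h1 : ζ * (165 / 8) / (43 * vv) ≤ x) (h2 : x ≤ 1 + ζ * -(165 / 8) / (43 * vv)) :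
    0 < (deriv (leaf π tw ζ c 1) x).1 + es c / sg * (deriv (leaf π tw ζ c 1) x).2.1 := by
  have hv : (0 : ℝ) < vv := by rw [vv_eq]; norm_num
  have hs : (0 : ℝ) < sg := by rw [sg_eq]; norm_num
  have h0 := hg.pos
  have hd : DifferentiableAt ℝ (leaf π tw ζ c 1) x :=
    (leaf_sm1 h hg c ⟨zero_le_one, le_rfl⟩).differentiable (by simp) x
  have hu : HasDerivAt (fun y => (leaf π tw ζ c 1 y).1 + es c / sg * (leaf π tw ζ c 1 y).2.1)
      ((deriv (leaf π tw ζ c 1) x).1 + es c / sg * (deriv (leaf π tw ζ c 1) x).2.1) x :=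
    (comp_fst hd.hasDerivAt).fun_add ((comp_fst (comp_snd hd.hasDerivAt)).const_mul _)
  have key : ∀ (k : ℤ) (a : ℝ), |2 * vv * (x - k) / ζ| < 3 →
      (∀ᶠ y in 𝓝 x, (leaf π tw ζ c 1 y).1 + es c / sg * (leaf π tw ζ c 1 y).2.1 =
        a + ζ * Yf tw 1 (2 * vv * (y - k) / ζ) / vv + tw.T (2 * vv * (y - k) / ζ)) →
      0 < (deriv (leaf π tw ζ c 1) x).1 + es c / sg * (deriv (leaf π tw ζ c 1) x).2.1 := by
    intro k a hp he
    have d1 := (((((Y_der tw 1 (2 * vv * (x - k) / ζ)).const_mul ζ).div_const vv).const_add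
      a).fun_add (T_der tw _)).comp x (par_der ζ x k)
    rw [hu.unique (d1.congr_of_eventuallyEq he)]
    exact mul_pos (u_pos h hg hp.le) (by positivity)
  have hTc : ∀ k : ℤ, Continuous fun y : ℝ => tw.T (2 * vv * (y - k) / ζ) := fun k =>
    (T_sm tw).continuous.comp (by fun_prop)
  rcases end_part hg (by norm_num) (by norm_num) h1 h2 with ⟨a1, a2, a3⟩ | ⟨a1, a2, a3⟩ | ⟨a1, a2⟩
  · refine key 0 (-43) a2 ?_
    have b1 : ∀ᶠ y : ℝ in 𝓝 x, |y - (0 : ℤ)| < 1 / 2 :=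
      (Continuous.tendsto (by fun_prop) x).eventually_lt_const a1
    have b2 : ∀ᶠ y in 𝓝 x, 42 - 15 / 16 < tw.T (2 * vv * (y - (0 : ℤ)) / ζ) :=
      ((hTc 0).tendsto x).eventually_const_lt (by linarith)
    filter_upwards [b1, b2] with y y1 y2
    rw [leaf_chart c 1 y1, can_left h c 1 (by linarith)]
    have := es_sq c
    field_simp
    linear_combination (-(vv * (42 - tw.T (2 * vv * (y - (0 : ℤ)) / ζ)))) * this
  · refine key 1 2 a2 ?_
    have b1 : ∀ᶠ y : ℝ in 𝓝 x, |y - (1 : ℤ)| < 1 / 2 :=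
      (Continuous.tendsto (by fun_prop) x).eventually_lt_const a1
    have b2 : ∀ᶠ y in 𝓝 x, tw.T (2 * vv * (y - (1 : ℤ)) / ζ) < 15 / 16 - 1 :=
      ((hTc 1).tendsto x).eventually_lt_const (by linarith)
    filter_upwards [b1, b2] with y y1 y2
    rw [leaf_chart c 1 y1, can_right h c 1 (by linarith)]
    have := es_sq c
    field_simp
    linear_combination (vv * (tw.T (2 * vv * (y - (1 : ℤ)) / ζ) + 1)) * this
  · rw [gap_der h hg c 1 a1 a2]
    simp

theorem end_aux (h : LOK π ε₀) (hg : Good tw ε₀ ζ) (c : Bool) {p : ℝ} (hp : |p| ≤ 3) {t : ℝ}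
    (h1 : 0 ≤ t) (h2 : t ≤ 1 / 2) : |ζ * Yf tw 1 p / vv| ≤ 1 ∧ |sg * es c * t| ≤ 11 / 20 * sg ∧
      |(tw.co ζ c 1 p).2.2 - es c * (8 * sg)| ≤ 1 ∧ |es c * t / 86 * (ζ * Yf tw 1 p)| ≤ 1 := by
  have b1 := ((hg.bd 1 ⟨zero_le_one, le_rfl⟩ p hp).1.trans_le h.le_one).le
  have h0 := hg.pos
  have h3 := hg.le
  refine ⟨?_, ?_, ?_, ?_⟩
  · rw [abs_div, vv_eq, abs_of_pos (a := (1409024 : ℝ)) (by norm_num)]
    linarith
  · rw [abs_mul, abs_mul, es_abs, sg_eq, abs_of_nonneg h1, abs_of_pos (by norm_num)]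
    linarith
  · obtain ⟨e1, e2⟩ := E_mem tw p
    obtain ⟨c1, c2⟩ := tw.χ_mem (tw.T p)
    have e : (tw.co ζ c 1 p).2.2 - es c * (8 * sg) =
        es c * (ζ * ((1 - tw.χ (tw.T p)) * (Real.exp (tw.β p) - 1))) := by
      simp only [Tw.co]
      ring
    have a3 : 0 ≤ (1 - tw.χ (tw.T p)) * (Real.exp (tw.β p) - 1) :=
      mul_nonneg (by linarith) (by linarith)
    have a4 : (1 - tw.χ (tw.T p)) * (Real.exp (tw.β p) - 1) ≤ 2 := by nlinarith
    rw [e, abs_mul, es_abs, one_mul, abs_of_nonneg (by positivity)]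
    nlinarith
  · rw [abs_mul, abs_div, abs_mul, es_abs, one_mul, abs_of_nonneg h1,
      abs_of_pos (a := (86 : ℝ)) (by norm_num)]
    nlinarith [abs_nonneg (ζ * Yf tw 1 p)]

theorem end_bd (h : LOK π ε₀) (hg : Good tw ε₀ ζ) (c : Bool) {x : ℝ}
    (h1 : ζ * 21 / (43 * vv) ≤ x) (h2 : x ≤ 1 + ζ * -21 / (43 * vv)) :
    |(leaf π tw ζ c 1 x).1| ≤ 2 ∧ |(leaf π tw ζ c 1 x).2.1| ≤ 11 / 20 * sg ∧
      |(leaf π tw ζ c 1 x).2.2 - es c * (8 * sg)| ≤ 2 := by
  have hq : 0 < ζ / vv := div_pos hg.pos (by rw [vv_eq]; norm_num)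
  rcases end_part hg (by norm_num) le_rfl h1 h2 with ⟨a1, a2, a3⟩ | ⟨a1, a2, a3⟩ | ⟨a1, a2⟩
  · obtain ⟨b1, b2, b3, b4⟩ := end_aux h hg c a2.le (t := 42 - tw.T (2 * vv * (x - (0 : ℤ)) / ζ))
      (by linarith [(T_mem tw (2 * vv * (x - (0 : ℤ)) / ζ)).2]) (by linarith)
    rw [leaf_chart c 1 a1, can_left h c 1 (by linarith)]
    rw [abs_le] at b1 b3 b4
    exact ⟨abs_le.2 ⟨by simp only; linarith, by simp only; linarith⟩, by rwa [abs_neg],
      abs_le.2 ⟨by simp only; linarith, by simp only; linarith⟩⟩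
  · obtain ⟨b1, b2, b3, b4⟩ := end_aux h hg c a2.le (t := tw.T (2 * vv * (x - (1 : ℤ)) / ζ) + 1)
      (by linarith [(T_mem tw (2 * vv * (x - (1 : ℤ)) / ζ)).1]) (by linarith)
    rw [leaf_chart c 1 a1, can_right h c 1 (by linarith)]
    rw [abs_le] at b1 b3 b4
    exact ⟨abs_le.2 ⟨by simp only; linarith, by simp only; linarith⟩, b2,
      abs_le.2 ⟨by simp only; linarith, by simp only; linarith⟩⟩
  · rw [leaf_gap h hg.pos c 1 a1.le a2.le]
    push_cast at a1 a2 ⊢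
    refine ⟨abs_le.2 ⟨by linarith, by linarith⟩, ?_, ?_⟩
    · rw [abs_zero, sg_eq]
      norm_num
    · rw [one_mul, add_sub_cancel, sub_self, abs_zero]
      norm_num

end ALeaf1Aux

open ALeaf1Aux

theorem leaf_base (π : Prof) (tw : Tw) (ζ : ℝ) (c : Bool) (l : ℝ) :
    leaf π tw ζ c l 0 = π.knot WL ((42 + es c * (43 / 2)) / 86) +
      (0, 0, es c * (ζ + l * (8 * sg - ζ) + ζ * (1 - l) * (Real.exp (tw.β 0) - 1))) := by
  have hT : tw.T 0 = 41 / 2 := by
    rw [Tw.T, tw.R_mid 0 (by norm_num)]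
    norm_num
  have h1 : tw.χ (41 / 2) = 1 := tw.χ_one _ (by norm_num) (by norm_num)
  have h2 := chi_der tw (Or.inr h1)
  rw [← can_core]
  simp only [leaf, round_zero, Int.cast_zero, sub_self, mul_zero, zero_div, Tw.co, hT, h1, h2]
  norm_num

theorem leaf_fam {π : Prof} {ε₀ : ℝ} (h : LOK π ε₀) (tw : Tw) :
    ∃ ζ₀ : ℝ, 0 < ζ₀ ∧ ∀ ζ : ℝ, 0 < ζ → ζ < ζ₀ → ∀ c,
      ContDiff ℝ ∞ (fun a : ℝ × ℝ => leaf π tw ζ c (Real.smoothTransition a.1) a.2) ∧
      ∀ l ∈ Icc (0 : ℝ) 1, IsLeg3 (leaf π tw ζ c l) ∧ ∀ x, Reg π ε₀ c (leaf π tw ζ c l x) := by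
  obtain ⟨ζ₀, h0, hG⟩ := exists_good tw h.pos
  refine ⟨ζ₀, h0, fun ζ z0 z1 c => ?_⟩
  have hg := hG ζ z0 z1
  refine ⟨leaf_sm h hg c Real.smoothTransition.contDiff fun s =>
    ⟨Real.smoothTransition.nonneg s, Real.smoothTransition.le_one s⟩, fun l hl =>
    ⟨⟨?_, fun t => ?_, leaf_inj h hg c hl, fun t => (leaf_reg h hg c hl t).1,
      fun t => (leaf_reg h hg c hl t).2.1⟩, fun x => (leaf_reg h hg c hl x).2.2⟩⟩
  · exact leaf_sm1 h hg c hl
  · simp [leaf, round_add_one]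

/-- the end of the first isotopy; `ζ * (T - 41 / 2) / (43 * vv)` is the point with time `T` -/
theorem leaf_end {π : Prof} {ε₀ : ℝ} (h : LOK π ε₀) (tw : Tw) :
    ∃ ζ₀ : ℝ, 0 < ζ₀ ∧ ∀ ζ : ℝ, 0 < ζ → ζ < ζ₀ → ∀ c,
      (∀ T : ℝ, -(11 / 20) ≤ T → T ≤ 41 + 11 / 20 →
        leaf π tw ζ c 1 (ζ * (T - 41 / 2) / (43 * vv)) =
          π.knot WL ((42 + es c * (42 - T)) / 86) + (0, 0, es c * (8 * sg))) ∧
      (∀ x : ℝ, ζ * (41 + 1 / 8 - 41 / 2) / (43 * vv) ≤ x →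
        x ≤ 1 + ζ * (-(1 / 8) - 41 / 2) / (43 * vv) →
        0 < (deriv (leaf π tw ζ c 1) x).1 + es c / sg * (deriv (leaf π tw ζ c 1) x).2.1) ∧
      ∀ x : ℝ, ζ * (41 + 1 / 2 - 41 / 2) / (43 * vv) ≤ x →
        x ≤ 1 + ζ * (-(1 / 2) - 41 / 2) / (43 * vv) → |(leaf π tw ζ c 1 x).1| ≤ 2 ∧
          |(leaf π tw ζ c 1 x).2.1| ≤ 11 / 20 * sg ∧
          |(leaf π tw ζ c 1 x).2.2 - es c * (8 * sg)| ≤ 2 := by
  obtain ⟨ζ₀, h0, hG⟩ := exists_good tw h.pos
  refine ⟨ζ₀, h0, fun ζ z0 z1 c => ?_⟩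
  have hg := hG ζ z0 z1
  refine ⟨fun T t0 t1 => ?_, fun x x0 x1 => end_mono h hg c ?_ ?_,
    fun x x0 x1 => end_bd h hg c ?_ ?_⟩
  · have hv : (0 : ℝ) < vv := by rw [vv_eq]; norm_num
    have hz := hg.le
    have a1 : |ζ * (T - 41 / 2) / (43 * vv) - (0 : ℤ)| < 1 / 2 := by
      rw [vv_eq]
      push_cast
      exact abs_lt.2 ⟨by nlinarith, by nlinarith⟩
    have a2 : 2 * vv * (ζ * (T - 41 / 2) / (43 * vv) - (0 : ℤ)) / ζ = 2 * (T - 41 / 2) / 43 := by
      push_cast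
      field_simp
      ring
    have a3 : tw.T (2 * (T - 41 / 2) / 43) = T := by
      rw [Tw.T, tw.R_mid _ (abs_le.2 ⟨by linarith, by linarith⟩)]
      ring
    have a4 := tw.χ_one T t0 t1
    have a5 := chi_der tw (Or.inr a4)
    rw [leaf_chart c 1 a1, a2, ← can_core]
    simp only [Tw.co, a3, a4, a5]
    norm_num
  · convert x0 using 3
    norm_num
  · convert x1 using 4
    norm_num
  · convert x0 using 3
    norm_num
  · convert x1 using 4
    norm_num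

end Pool.Agent.Lib.MP_4d7d0a_gt
end

-- part Pool.Agent.Lib.MP_4d7d0a_gt.ALeaf3
section

/-! The leaves are isotopic to the push-offs of the curves a and b. -/

set_option autoImplicit false

open Set Filter Topology
open scoped ContDiff

namespace Pool.Agent.Lib.MP_4d7d0a_gt

/-- the vertical segment from height `-h` to height `-8 sg` below the base point -/
noncomputable def vseg (π : Prof) (h t : ℝ) : P3 :=
  π.knot WL (41 / 172) - (0, 0, (1 - t) * h + t * (8 * sg))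

namespace L3Aux

theorem es_cases (c : Bool) : es c = 1 ∨ es c = -1 := by cases c <;> simp [es]

theorem exists_rep (a t : ℝ) : ∃ k : ℤ, a ≤ t - k ∧ t - k < a + 1 :=
  ⟨⌊t - a⌋, by linarith [Int.floor_le (t - a)], by linarith [Int.lt_floor_add_one (t - a)]⟩

theorem per_int {X : Type} {K : ℝ → X} (h : ∀ t, K (t + 1) = K t) (t : ℝ) (k : ℤ) :
    K (t - k) = K t := by
  have h1 : Function.Periodic K 1 := h
  have h2 := h1.sub_int_mul_eq (x := t) k
  rwa [mul_one] at h2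

theorem inj_mod {K : ℝ → P3} (hK : IsLeg3 K) {t t' : ℝ} (h : K t = K t') :
    ∃ k : ℤ, t = t' + k := by
  obtain ⟨k, h1, h2⟩ := exists_rep 0 t
  obtain ⟨k', h3, h4⟩ := exists_rep 0 t'
  have h5 : t - k = t' - k' := hK.2.2.1 ⟨h1, by linarith⟩ ⟨h3, by linarith⟩
    (by rw [per_int hK.2.1, per_int hK.2.1, h])
  exact ⟨k - k', by push_cast; linarith⟩

theorem injOn_of_mod {K : ℝ → P3} (h : ∀ t t', K t = K t' → ∃ k : ℤ, t = t' + k) :
    InjOn K (Ico 0 1) := by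
  intro t ht t' ht' e
  obtain ⟨k, hk⟩ := h t t' e
  have h1 : (k : ℝ) < 1 := by linarith [ht.1, ht.2, ht'.1, ht'.2]
  have h2 : (-1 : ℝ) < k := by linarith [ht.1, ht.2, ht'.1, ht'.2]
  have h3 : k < 1 := by exact_mod_cast h1
  have h4 : -1 < k := by exact_mod_cast h2
  have h5 : k = 0 := by omega
  rw [hk, h5]
  simp

theorem der_per {K : ℝ → P3} (h : ∀ t, K (t + 1) = K t) (t : ℝ) :
    deriv K (t + 1) = deriv K t := by
  rw [← deriv_comp_add_const, funext h]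

theorem u_der {G : ℝ → P3} (sG : ContDiff ℝ ∞ G) (κ t : ℝ) :
    HasDerivAt (fun t => (G t).1 + κ * (G t).2.1)
      ((deriv G t).1 + κ * (deriv G t).2.1) t := by
  have h0 := (sG.differentiable (by simp) t).hasDerivAt
  have h1 := (ContinuousLinearMap.fst ℝ ℝ (ℝ × ℝ)).hasFDerivAt.comp_hasDerivAt t h0
  have h2 := (ContinuousLinearMap.snd ℝ ℝ (ℝ × ℝ)).hasFDerivAt.comp_hasDerivAt t h0
  have h3 := (ContinuousLinearMap.fst ℝ ℝ ℝ).hasFDerivAt.comp_hasDerivAt t h2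
  exact h1.add (h3.const_mul κ)

/-- a curve that agrees with a knot outside an arc on which a linear form increases -/
theorem zone_leg {G c₀ : ℝ → P3} {κ a a' b' b : ℝ} (hc : IsLeg3 c₀) (sG : ContDiff ℝ ∞ G)
    (pG : ∀ t, G (t + 1) = G t) (lG : ∀ t, al (G t) (deriv G t) = 0)
    (h1 : a < a') (h3 : b' < b) (h4 : b - a < 1)
    (he : ∀ t ∈ Icc b' (a' + 1), G t = c₀ t)
    (m : ∀ t ∈ Icc a b, 0 < (deriv G t).1 + κ * (deriv G t).2.1)
    (sep : ∀ t ∈ Icc a' b', ∀ t' ∈ Ioo b (a + 1), G t ≠ c₀ t') : IsLeg3 G := by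
  have mono : StrictMonoOn (fun t => (G t).1 + κ * (G t).2.1) (Icc a b) := by
    refine strictMonoOn_of_deriv_pos (convex_Icc a b)
      (fun t _ => (u_der sG κ t).continuousAt.continuousWithinAt) fun t ht => ?_
    rw [(u_der sG κ t).deriv]
    exact m t (interior_subset ht)
  have out : ∀ t, a ≤ t → t < a + 1 → t ∉ Icc a' b' → G t = c₀ t := by
    intro t ha hb hn
    by_cases h5 : t < a'
    · rw [← pG, ← hc.2.1]
      exact he _ ⟨by linarith, by linarith⟩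
    · have h6 : b' < t := by
        by_contra h7
        exact hn ⟨not_lt.1 h5, not_lt.1 h7⟩
      exact he _ ⟨h6.le, by linarith⟩
  have one : ∀ t t', t ∈ Icc a' b' → a ≤ t' → t' < a + 1 → G t = G t' → t = t' := by
    intro t t' ht ha hb e
    by_cases h5 : t' ≤ b
    · refine mono.injOn ⟨by linarith [ht.1], by linarith [ht.2]⟩ ⟨ha, h5⟩ ?_
      simp only [e]
    · have h6 := not_le.1 h5
      rw [he t' ⟨by linarith, by linarith⟩] at e
      exact absurd e (sep t ht t' ⟨h6, hb⟩)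
  refine ⟨sG, pG, injOn_of_mod fun t t' e => ?_, fun t => ?_, lG⟩
  · obtain ⟨k, h5, h6⟩ := exists_rep a t
    obtain ⟨k', h7, h8⟩ := exists_rep a t'
    have e' : G (t - k) = G (t' - k') := by rw [per_int pG, per_int pG, e]
    by_cases c1 : t - k ∈ Icc a' b'
    · exact ⟨k - k', by push_cast; linarith [one _ _ c1 h7 h8 e']⟩
    by_cases c2 : t' - k' ∈ Icc a' b'
    · exact ⟨k - k', by push_cast; linarith [one _ _ c2 h5 h6 e'.symm]⟩
    rw [out _ h5 h6 c1, out _ h7 h8 c2] at e'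
    obtain ⟨j, hj⟩ := inj_mod hc e'
    exact ⟨j + k - k', by push_cast; linarith⟩
  · obtain ⟨k, h5, h6⟩ := exists_rep a t
    rw [← per_int (der_per pG) t k]
    by_cases c1 : t - k ≤ b
    · intro e
      have h7 := m _ ⟨h5, c1⟩
      rw [e] at h7
      simp at h7
    · have h7 := not_le.1 c1
      have h8 : G =ᶠ[𝓝 (t - k)] c₀ := by
        filter_upwards [Ioo_mem_nhds (show b' < t - k by linarith)
          (show t - k < a' + 1 by linarith)] with x hx
        exact he x (Ioo_subset_Icc_self hx)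
      rw [h8.deriv_eq]
      exact hc.2.2.2.1 _

theorem seg_abs {x u v M : ℝ} (h : x ∈ segment ℝ u v) (hu : |u| ≤ M) (hv : |v| ≤ M) :
    |x| ≤ M := by
  obtain ⟨p, q, hp, hq, hpq, rfl⟩ := h
  obtain ⟨h1, h2⟩ := abs_le.1 hu
  obtain ⟨h3, h4⟩ := abs_le.1 hv
  simp only [smul_eq_mul]
  have e : M = p * M + q * M := by rw [← add_mul, hpq, one_mul]
  refine abs_le.2 ⟨?_, ?_⟩ <;> nlinarith

theorem seg_ge {x u v M e : ℝ} (h : x ∈ segment ℝ u v) (hu : M ≤ e * u) (hv : M ≤ e * v) :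
    M ≤ e * x := by
  obtain ⟨p, q, hp, hq, hpq, rfl⟩ := h
  simp only [smul_eq_mul]
  have e1 : M = p * M + q * M := by rw [← add_mul, hpq, one_mul]
  nlinarith [mul_le_mul_of_nonneg_left hu hp, mul_le_mul_of_nonneg_left hv hq]

/-- the bounds on an interpolated point -/
theorem zone_bd {e : ℝ} (he : e = 1 ∨ e = -1) {p p₀ p₁ : P3}
    (b₀ : |p₀.1| ≤ 2 ∧ |p₀.2.1| ≤ 11 / 20 * sg ∧ |p₀.2.2 - e * (8 * sg)| ≤ 2)
    (b₁ : |p₁.1| ≤ 2 ∧ |p₁.2.1| ≤ 11 / 20 * sg ∧ |p₁.2.2 - e * (8 * sg)| ≤ 2)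
    (hy : p.2.1 ∈ segment ℝ p₀.2.1 p₁.2.1)
    (hu : p.1 + e / sg * p.2.1 ∈ segment ℝ (p₀.1 + e / sg * p₀.2.1) (p₁.1 + e / sg * p₁.2.1))
    (hw : p.2.2 + e / sg * p.2.1 ^ 2 / 2 ∈
      segment ℝ (p₀.2.2 + e / sg * p₀.2.1 ^ 2 / 2) (p₁.2.2 + e / sg * p₁.2.1 ^ 2 / 2)) :
    |p.1| ≤ 4 ∧ |p.2.1| ≤ 3 / 5 * sg ∧ 6 * sg ≤ e * p.2.2 := by
  have y := seg_abs hy b₀.2.1 b₁.2.1
  have hU : ∀ q : P3, |q.1| ≤ 2 → |q.2.1| ≤ 11 / 20 * sg → |q.1 + e / sg * q.2.1| ≤ 3 := by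
    intro q h1 h2
    obtain ⟨h3, h4⟩ := abs_le.1 h1
    obtain ⟨h5, h6⟩ := abs_le.1 h2
    simp only [sg] at h5 h6 ⊢
    rcases he with rfl | rfl <;> refine abs_le.2 ⟨?_, ?_⟩ <;> linarith
  have hW : ∀ q : P3, |q.2.2 - e * (8 * sg)| ≤ 2 →
      8 * sg - 2 ≤ e * (q.2.2 + e / sg * q.2.1 ^ 2 / 2) := by
    intro q h1
    obtain ⟨h3, h4⟩ := abs_le.1 h1
    have h5 := sq_nonneg q.2.1
    simp only [sg] at h3 h4 ⊢
    rcases he with rfl | rfl <;> linarith
  have u := seg_abs hu (hU _ b₀.1 b₀.2.1) (hU _ b₁.1 b₁.2.1)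
  have w := seg_ge hw (hW _ b₀.2.2) (hW _ b₁.2.2)
  obtain ⟨h1, h2⟩ := abs_le.1 y
  obtain ⟨h3, h4⟩ := abs_le.1 u
  have h5 : p.2.1 ^ 2 ≤ (11 / 20 * sg) ^ 2 := sq_le_sq' h1 h2
  simp only [sg] at h1 h2 h3 h4 h5 w ⊢
  rcases he with rfl | rfl <;> refine ⟨abs_le.2 ⟨?_, ?_⟩, abs_le.2 ⟨?_, ?_⟩, ?_⟩ <;> linarith

/-- the push-off of `a` or `b` based at the time `20.5` -/
noncomputable def cOne (π : Prof) (c : Bool) (t : ℝ) : P3 :=
  π.real (cyc (Wc c)) (44 * t + 41 / 2) + (0, 0, es c * (8 * sg))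

variable {π : Prof} {ε₀ : ℝ}

theorem cOne_sm (hz : ZOK π) (c : Bool) : ContDiff ℝ ∞ (cOne π c) := by
  have h := hz.sm c
  unfold cOne
  fun_prop

theorem cOne_per (hz : ZOK π) (c : Bool) (t : ℝ) : cOne π c (t + 1) = cOne π c t := by
  unfold cOne
  rw [← hz.per c (44 * t + 41 / 2)]
  congr 2
  ring

theorem cOne_der (hz : ZOK π) (c : Bool) (t : ℝ) :
    deriv (cOne π c) t = (44 : ℝ) • deriv (π.real (cyc (Wc c))) (44 * t + 41 / 2) := by
  have h1 : HasDerivAt (fun t : ℝ => 44 * t + 41 / 2) 44 t := by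
    simpa using ((hasDerivAt_id t).const_mul (44 : ℝ)).add_const (41 / 2 : ℝ)
  have h2 := (((hz.sm c).differentiable (by simp) (44 * t + 41 / 2)).hasDerivAt.scomp t
    h1).add_const ((0, 0, es c * (8 * sg)) : P3)
  exact h2.deriv

theorem cOne_leg (hz : ZOK π) (c : Bool) (t : ℝ) :
    al (cOne π c t) (deriv (cOne π c) t) = 0 := by
  have h := hz.leg c (44 * t + 41 / 2)
  rw [cOne_der hz]
  simp only [al, cOne, Prod.smul_fst, Prod.smul_snd, smul_eq_mul, Prod.snd_add, Prod.fst_add,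
    add_zero] at h ⊢
  linear_combination 44 * h

/-- a point of `L` outside the tips is far from the gap -/
theorem far (h : LOK π ε₀) {e T : ℝ} (he : e = 1 ∨ e = -1) (h1 : -(1 / 8) < T)
    (h2 : T < 41 + 1 / 8) (hx : |(π.knot WL ((42 + e * (42 - T)) / 86)).1| ≤ 4)
    (hy : |(π.knot WL ((42 + e * (42 - T)) / 86)).2.1| ≤ 3 / 5 * sg) : False := by
  obtain ⟨k, hk⟩ := h.zone _ (hx.trans (by norm_num)) (hy.trans (by norm_num [sg]))
  have hk0 : (k : ℝ) ≤ -1 ∨ (k : ℝ) = 0 ∨ (k : ℝ) = 1 ∨ (2 : ℝ) ≤ k := by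
    rcases (by omega : k ≤ -1 ∨ k = 0 ∨ k = 1 ∨ 2 ≤ k) with h3 | h3 | h3 | h3
    · exact Or.inl (by exact_mod_cast h3)
    · exact Or.inr (Or.inl (by exact_mod_cast h3))
    · exact Or.inr (Or.inr (Or.inl (by exact_mod_cast h3)))
    · exact Or.inr (Or.inr (Or.inr (by exact_mod_cast h3)))
  rcases hk with hk | hk <;> obtain ⟨h3, h4⟩ := abs_le.1 hk <;> rcases he with rfl | rfl <;>
    rcases hk0 with h5 | h5 | h5 | h5 <;> linarith

theorem stage3 (h : LOK π ε₀) (hz : ZOK π) (c : Bool) {c₀ : ℝ → P3} (hc : IsLeg3 c₀)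
    (hr : ∀ t, Reg π ε₀ c (c₀ t))
    (he : ∀ t ∈ Icc (-(21 / 44) : ℝ) (21 / 44), c₀ t = cOne π c t)
    (m₀ : ∀ t ∈ Icc (165 / 352 : ℝ) (187 / 352),
      0 < (deriv c₀ t).1 + es c / sg * (deriv c₀ t).2.1)
    (bd : ∀ t ∈ Icc (21 / 44 : ℝ) (23 / 44), |(c₀ t).1| ≤ 2 ∧ |(c₀ t).2.1| ≤ 11 / 20 * sg ∧
      |(c₀ t).2.2 - es c * (8 * sg)| ≤ 2) :
    ∃ G : ℝ → ℝ → P3, ContDiff ℝ ∞ (fun w : ℝ × ℝ => G w.1 w.2) ∧ G 0 = c₀ ∧ G 1 = cOne π c ∧
      ∀ s, IsLeg3 (G s) ∧ (∀ t, Reg π ε₀ c (G s t)) ∧ G s 0 = c₀ 0 := by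
  have he' : ∀ t ∈ Icc (23 / 44 : ℝ) (21 / 44 + 1), c₀ t = cOne π c t := by
    intro t ht
    have h1 := he (t - 1) ⟨by linarith [ht.1], by linarith [ht.2]⟩
    rwa [← hc.2.1, ← cOne_per hz, sub_add_cancel] at h1
  have m₁ : ∀ t ∈ Icc (165 / 352 : ℝ) (187 / 352),
      0 < (deriv (cOne π c) t).1 + es c / sg * (deriv (cOne π c) t).2.1 := by
    intro t ht
    have h1 := hz.mono c (44 * t + 41 / 2) (by linarith [ht.1]) (by linarith [ht.2])
    rw [cOne_der hz]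
    simp only [Prod.smul_fst, Prod.smul_snd, smul_eq_mul]
    nlinarith
  obtain ⟨G, sG, G0, G1, hG⟩ := zone_fam (κ := es c / sg) (a := 165 / 352) (a' := 21 / 44)
    (b' := 23 / 44) (b := 187 / 352) hc.1 (cOne_sm hz c) hc.2.1 (cOne_per hz c) hc.2.2.2.2
    (cOne_leg hz c) (by norm_num) (by norm_num) (by norm_num) (by norm_num) he' m₀ m₁
  refine ⟨G, sG, G0, G1, fun s => ?_⟩
  obtain ⟨pG, lG, eG, zG⟩ := hG s
  have eG' : ∀ t ∈ Icc (23 / 44 : ℝ) (21 / 44 + 1), G s t = c₀ t := fun t ht => by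
    rw [eG t ht, he' t ht]
  have zb : ∀ t ∈ Icc (21 / 44 : ℝ) (23 / 44),
      |(G s t).1| ≤ 4 ∧ |(G s t).2.1| ≤ 3 / 5 * sg ∧ 6 * sg ≤ es c * (G s t).2.2 := by
    intro t ht
    obtain ⟨-, h1, h2, h3⟩ := zG t ⟨by linarith [ht.1], by linarith [ht.2]⟩
    obtain ⟨h4, h5, h6⟩ := hz.bd c (44 * t + 41 / 2) (by linarith [ht.1]) (by linarith [ht.2])
    refine zone_bd (es_cases c) (bd t ht) ⟨?_, ?_, ?_⟩ h1 h2 h3
    · simpa [cOne] using h4
    · simpa [cOne] using h5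
    · simpa [cOne] using h6.trans (by norm_num : (1 : ℝ) ≤ 2)
  refine ⟨zone_leg (a := 165 / 352) (a' := 21 / 44) (b' := 23 / 44) (b := 187 / 352) hc
    (sG.comp (contDiff_const.prodMk contDiff_id)) pG lG (by norm_num) (by norm_num) (by norm_num)
    eG' (fun t ht => (zG t ht).1) fun t ht t' ht' e => ?_, fun t => ?_, ?_⟩
  · obtain ⟨h1, h2, -⟩ := zb t ht
    have h3 := he (t' - 1) ⟨by linarith [ht'.1], by linarith [ht'.2]⟩
    rw [← hc.2.1, sub_add_cancel, cOne,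
      hz.eq c _ (by linarith [ht'.1]) (by linarith [ht'.2])] at h3
    rw [e, h3] at h1 h2
    refine far h (es_cases c) (T := 44 * (t' - 1) + 41 / 2) (by linarith [ht'.1])
      (by linarith [ht'.2]) ?_ ?_
    · simpa using h1
    · simpa using h2
  · obtain ⟨k, h1, h2⟩ := exists_rep (21 / 44) t
    rw [← per_int pG t k]
    by_cases h3 : t - k ≤ 23 / 44
    · exact Or.inr (Or.inr (zb _ ⟨h1, h3⟩))
    · rw [eG' _ ⟨(not_le.1 h3).le, h2.le⟩]
      exact hr _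
  · rw [← pG, ← hc.2.1]
    exact eG' _ ⟨by norm_num, by norm_num⟩

theorem disj (h : LOK π ε₀) {c c' : Bool} (hc : c ≠ c') {p q : P3} (hp : Reg π ε₀ c p)
    (hq : Reg π ε₀ c' q) : p ≠ q := by
  rintro rfl
  cases c <;> cases c'
  · exact hc rfl
  · exact h.reg_disj hq hp
  · exact h.reg_disj hp hq
  · exact hc rfl

theorem len_WL : (WL.length : ℝ) = 86 := by
  have h : WL.length = 86 := rfl
  rw [h]
  norm_num

theorem len_Wc (c : Bool) : ((Wc c).length : ℝ) = 44 := by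
  have h : (Wc c).length = 44 := by cases c <;> rfl
  rw [h]
  norm_num

theorem leaf_vseg (π : Prof) (tw : Tw) (ζ l : ℝ) :
    leaf π tw ζ false l 0 = vseg π (ζ * Real.exp (tw.β 0)) l := by
  rw [leaf_base, vseg]
  have h1 : (42 + es false * (43 / 2)) / 86 = (41 / 172 : ℝ) := by norm_num [es]
  rw [h1, sub_eq_add_neg (π.knot WL _)]
  congr 1
  simp only [es, Bool.false_eq_true, if_false, Prod.neg_mk, neg_zero, Prod.mk.injEq, true_and]
  ring

end L3Aux

open L3Aux in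
theorem leaf_chain {π : Prof} {ε₀ : ℝ} (h : LOK π ε₀) (hz : ZOK π) (tw : Tw) :
    ∃ ζ₀ : ℝ, 0 < ζ₀ ∧ ∀ ζ : ℝ, 0 < ζ → ζ < ζ₀ →
      (∀ c, IsLeg3 (leaf π tw ζ c 0)) ∧
      (∀ c c', c ≠ c' → ∀ t t', leaf π tw ζ c 0 t ≠ leaf π tw ζ c' 0 t') ∧
      (∀ c t, leaf π tw ζ c 0 t ∉ range (π.knot WL)) ∧
      LegChain (fun c => leaf π tw ζ c 0)
        (fun c : Bool => if c then fun t => π.knot Wb t + (0, 0, 8 * sg)
          else fun t => π.knot Wa t + (0, 0, -(8 * sg))) ∧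
      ∀ (G : Type) [Group G] (F : PathFun (range (π.knot WL))ᶜ G),
        F.F (leaf π tw ζ false 0) * F.F (vseg π (ζ * Real.exp (tw.β 0))) =
          F.F (vseg π (ζ * Real.exp (tw.β 0))) * F.F (loopY π) := by
  obtain ⟨ζ₁, p₁, f₁⟩ := leaf_fam h tw
  obtain ⟨ζ₂, p₂, f₂⟩ := leaf_end h tw
  refine ⟨min (min ζ₁ ζ₂) 1, by positivity, fun ζ hζ hlt => ?_⟩
  have fam := f₁ ζ hζ (hlt.trans_le ((min_le_left _ _).trans (min_le_left _ _)))
  have fin := f₂ ζ hζ (hlt.trans_le ((min_le_left _ _).trans (min_le_right _ _)))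
  have hζ1 : ζ < 1 := hlt.trans_le (min_le_right _ _)
  have z : (0 : ℝ) ∈ Icc (0 : ℝ) 1 := ⟨le_rfl, zero_le_one⟩
  have o : (1 : ℝ) ∈ Icc (0 : ℝ) 1 := ⟨zero_le_one, le_rfl⟩
  have sT : ∀ s, Real.smoothTransition s ∈ Icc (0 : ℝ) 1 := fun s =>
    ⟨Real.smoothTransition.nonneg s, Real.smoothTransition.le_one s⟩
  have hv : (0 : ℝ) < 43 * vv := by norm_num [vv, sg]
  -- first family
  have F1 : IsLegFam fun c s t => leaf π tw ζ c (Real.smoothTransition s) t :=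
    ⟨fun c => (fam c).1, fun c s _ => ((fam c).2 _ (sT s)).1, fun c c' hc s _ t t' =>
      disj h hc (((fam c).2 _ (sT s)).2 t) (((fam c').2 _ (sT s)).2 t')⟩
  -- second family
  obtain ⟨g, gs, gd, gp, ge⟩ := exists_stair (k := 44 * ζ / (43 * vv)) (a := -(211 / 440))
    (b := 211 / 440) (by positivity)
    (by rw [div_le_one hv]; norm_num [vv, sg]; linarith) (by norm_num) (by norm_num)
  have ge' : ∀ t : ℝ, -(211 / 440) ≤ t → t ≤ 211 / 440 →
      g t = ζ * (44 * t + 41 / 2 - 41 / 2) / (43 * vv) := by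
    intro t h1 h2
    rw [ge t ⟨h1, h2⟩]
    field_simp
    ring
  have gm : Monotone g := (strictMono_of_deriv_pos gd).monotone
  have g0 : g 0 = 0 := by rw [ge 0 ⟨by norm_num, by norm_num⟩, mul_zero]
  have g1 : g 1 = 1 := by simpa [g0] using gp 0
  have l1 : ∀ c, IsLeg3 (leaf π tw ζ c 1) := fun c => ((fam c).2 1 o).1
  have r1 : ∀ c t, Reg π ε₀ c (leaf π tw ζ c 1 t) := fun c => ((fam c).2 1 o).2
  have F2 := isLegFam_reparam (K := fun c => leaf π tw ζ c 1) l1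
    (fun c c' hc t t' => disj h hc (r1 c t) (r1 c' t')) (g := fun _ => g) (fun _ => gs)
    (fun _ => gd) fun _ => gp
  have l2 : ∀ c, IsLeg3 fun t => leaf π tw ζ c 1 (g t) := fun c => by
    simpa using F2.2.1 c 1 o
  have gr : ∀ t u w : ℝ, u ≤ t → t ≤ w + 1 → -(211 / 440) ≤ u → u ≤ 211 / 440 →
      -(211 / 440) ≤ w → w ≤ 211 / 440 → ζ * (44 * u + 41 / 2 - 41 / 2) / (43 * vv) ≤ g t ∧
        g t ≤ 1 + ζ * (44 * w + 41 / 2 - 41 / 2) / (43 * vv) := by
    intro t u w h1 h2 h3 h4 h5 h6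
    rw [← ge' u h3 h4, ← ge' w h5 h6, add_comm 1, ← gp]
    exact ⟨gm h1, gm h2⟩
  -- third family
  have S3 : ∀ c, ∃ G : ℝ → ℝ → P3, ContDiff ℝ ∞ (fun w : ℝ × ℝ => G w.1 w.2) ∧
      (G 0 = fun t => leaf π tw ζ c 1 (g t)) ∧ G 1 = cOne π c ∧
      ∀ s, IsLeg3 (G s) ∧ (∀ t, Reg π ε₀ c (G s t)) ∧ G s 0 = leaf π tw ζ c 1 (g 0) := by
    intro c
    obtain ⟨e1, e2, e3⟩ := fin c
    refine stage3 h hz c (l2 c) (fun t => r1 c _) (fun t ht => ?_) (fun t ht => ?_)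
      fun t ht => ?_
    · show leaf π tw ζ c 1 (g t) = _
      rw [ge' t (by linarith [ht.1]) (by linarith [ht.2]),
        e1 _ (by linarith [ht.1]) (by linarith [ht.2]), cOne,
        hz.eq c _ (by linarith [ht.1]) (by linarith [ht.2])]
    · obtain ⟨h1, h2⟩ := gr t (165 / 352) (-(165 / 352)) ht.1 (by linarith [ht.2])
        (by norm_num) (by norm_num) (by norm_num) (by norm_num)
      have h3 := e2 (g t) (le_of_eq_of_le (by norm_num) h1) (h2.trans_eq (by norm_num))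
      have h4 := ((l1 c).1.differentiable (by simp) (g t)).hasDerivAt.scomp t
        (gs.differentiable (by simp) t).hasDerivAt
      have h5 : deriv (fun t => leaf π tw ζ c 1 (g t)) t =
        deriv g t • deriv (leaf π tw ζ c 1) (g t) := h4.deriv
      rw [h5]
      simp only [Prod.smul_fst, Prod.smul_snd, smul_eq_mul]
      nlinarith [mul_pos (gd t) h3]
    · obtain ⟨h1, h2⟩ := gr t (21 / 44) (-(21 / 44)) ht.1 (by linarith [ht.2])
        (by norm_num) (by norm_num) (by norm_num) (by norm_num)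
      exact e3 (g t) (le_of_eq_of_le (by norm_num) h1) (h2.trans_eq (by norm_num))
  choose G3 s3 a3 b3 h3 using S3
  have F3 : IsLegFam G3 := ⟨s3, fun c s _ => (h3 c s).1, fun c c' hc s _ t t' =>
    disj h hc ((h3 c s).2.1 t) ((h3 c' s).2.1 t')⟩
  -- fourth family
  have F4 := isLegFam_reparam (K := fun c => G3 c 1) (fun c => (h3 c 1).1)
    (fun c c' hc => F3.2.2 c c' hc 1 o) (g := fun _ t => t - 41 / 88) (fun _ => by fun_prop)
    (fun _ t => by rw [deriv_sub_const]; simp) fun _ t => by ring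
  refine ⟨fun c => ((fam c).2 0 z).1, fun c c' hc t t' =>
    disj h hc (((fam c).2 0 z).2 t) (((fam c').2 0 z).2 t'),
    fun c t => h.reg_not (((fam c).2 0 z).2 t), ?_, fun G _ F => ?_⟩
  · have c1 : LegChain (fun c => leaf π tw ζ c 0) fun c => leaf π tw ζ c 1 := by
      simpa [Real.smoothTransition.zero, Real.smoothTransition.one] using LegChain.of_fam F1
    have c2 : LegChain (fun c => leaf π tw ζ c 1) fun c => G3 c 0 := by
      simpa [a3] using LegChain.of_fam F2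
    have c4 : LegChain (fun c => G3 c 1) fun c t => G3 c 1 (t - 41 / 88) := by
      simpa using LegChain.of_fam F4
    have e : (fun c t => G3 c 1 (t - 41 / 88)) =
        fun c : Bool => if c then fun t => π.knot Wb t + (0, 0, 8 * sg)
          else fun t => π.knot Wa t + (0, 0, -(8 * sg)) := by
      funext c t
      have h1 : 44 * (t - 41 / 88) + 41 / 2 = ((Wc c).length : ℝ) * t := by
        rw [len_Wc]
        ring
      rw [b3, cOne, h1]
      cases c <;> simp [Wc, es, Prof.knot]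
    rw [← e]
    exact ((c1.trans c2).trans (LegChain.of_fam F3)).trans c4
  · have nr : ∀ {p : P3}, Reg π ε₀ false p → p ∈ (range (π.knot WL))ᶜ := fun hp => h.reg_not hp
    have q1 := F.square (H := fun s t => leaf π tw ζ false (Real.smoothTransition s) t)
      (F1.1 false).continuous.continuousOn fun s _ t _ => nr (((fam false).2 _ (sT s)).2 t)
    have e1 : (fun s => leaf π tw ζ false (Real.smoothTransition s) 0) =
        fun s => vseg π (ζ * Real.exp (tw.β 0)) (Real.smoothTransition s) :=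
      funext fun s => leaf_vseg π tw ζ _
    have e2 : (fun s => leaf π tw ζ false (Real.smoothTransition s) 1) =
        fun s => vseg π (ζ * Real.exp (tw.β 0)) (Real.smoothTransition s) := by
      rw [← e1]
      funext s
      simpa using ((fam false).2 _ (sT s)).1.2.1 0
    have e3 : F.F (fun s => vseg π (ζ * Real.exp (tw.β 0)) (Real.smoothTransition s)) =
        F.F (vseg π (ζ * Real.exp (tw.β 0))) := by
      refine F.conv (convex_Icc (0 : ℝ) 1) (f := vseg π (ζ * Real.exp (tw.β 0)))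
        (c := Real.smoothTransition) (c' := fun t => t) ?_ (fun l hl => ?_)
        ⟨Real.smoothTransition.continuous.continuousOn, fun s _ => sT s⟩
        ⟨continuousOn_id, fun s hs => hs⟩ Real.smoothTransition.zero Real.smoothTransition.one
      · unfold vseg
        fun_prop
      · rw [← leaf_vseg]
        exact nr (((fam false).2 l hl).2 0)
    have q2 := F.hom (fun s t => leaf π tw ζ false 1 ((1 - s) * t + s * g t))
      (F2.1 false).continuous.continuousOn (fun s _ t _ => nr (r1 false _))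
      fun s _ => by simp [g0, g1]
    have q3 := F.hom (G3 false) (s3 false).continuous.continuousOn
      (fun s _ t _ => nr ((h3 false s).2.1 t)) fun s _ => by
        have k1 := (h3 false s).1.2.1 0
        have k2 := (h3 false 0).1.2.1 0
        rw [zero_add] at k1 k2
        rw [k1, k2, (h3 false s).2.2, (h3 false 0).2.2]
        exact ⟨rfl, rfl⟩
    have e4 : cOne π false = loopY π := by
      funext t
      simp [cOne, loopY, Wc, es, sub_eq_add_neg]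
    rw [a3, b3, e4] at q3
    simp only [sub_zero, one_mul, zero_mul, add_zero, sub_self, zero_add] at q2
    simp only [e1, e2, e3, Real.smoothTransition.zero, Real.smoothTransition.one] at q1
    rw [← q3, ← q2]
    exact q1

theorem push_hom {π : Prof} {ε₀ : ℝ} (h : LOK π ε₀) {a : ℝ} (h0 : 0 < a) (h1 : a ≤ 12 * sg)
    {G : Type} [Group G] (F : PathFun (range (π.knot WL))ᶜ G) :
    F.F (fun t => π.knot WL (t + 41 / 172) - (0, 0, a)) * F.F (vseg π a) =
      F.F (vseg π a) * F.F (loopX π) := by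
  have hc := h.leg.1.continuous
  have hs : (0 : ℝ) < sg := by norm_num [sg]
  have q := F.square
    (H := fun s t => π.knot WL (t + 41 / 172) - (0, 0, (1 - s) * a + s * (8 * sg)))
    (by fun_prop) fun s hs' t _ => by
      have k1 : 0 < (1 - s) * a + s * (8 * sg) := by
        rcases hs'.1.eq_or_lt with h2 | h2
        · rw [← h2]
          linarith
        · nlinarith [mul_nonneg (sub_nonneg.2 hs'.2) h0.le, mul_pos h2 hs]
      have k2 : (1 - s) * a + s * (8 * sg) ≤ 12 * sg := by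
        nlinarith [mul_le_mul_of_nonneg_left h1 (sub_nonneg.2 hs'.2), mul_nonneg hs'.1 hs.le]
      refine h.reg_not (c := false) (Or.inl
        ⟨(t + 41 / 172, 0, -((1 - s) * a + s * (8 * sg))), by simpa using h.pos, ?_, ?_, ?_⟩)
      · simpa [es] using k1
      · rw [abs_neg, abs_of_pos k1]
        exact k2
      · rw [can_core, sub_eq_add_neg]
        simp
  have e1 : (fun s => π.knot WL (0 + 41 / 172) - (0, 0, (1 - s) * a + s * (8 * sg))) =
      vseg π a := by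
    funext s
    rw [vseg, zero_add]
  have e2 : (fun s => π.knot WL (1 + 41 / 172) - (0, 0, (1 - s) * a + s * (8 * sg))) =
      vseg π a := by
    funext s
    rw [vseg, add_comm, h.leg.2.1]
  have e3 : (fun t => π.knot WL (t + 41 / 172) - (0, 0, (1 - 1) * a + 1 * (8 * sg))) =
      loopX π := by
    funext t
    have k : (WL.length : ℝ) * (t + 41 / 172) = 86 * t + 41 / 2 := by
      rw [L3Aux.len_WL]
      ring
    rw [loopX, Prof.knot, k]
    simp
  simp only [e1, e2, e3] at q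
  simpa using q

end Pool.Agent.Lib.MP_4d7d0a_gt
end
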