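import Pool.Agent.Lib.MP_4d7d0a_gt.AHp

-- part Pool.Agent.Lib.MP_4d7d0a_gt.ATau
section

/-! The model twist and its transport along a slab. -/

set_option autoImplicit false

open Set Filter Topology
open scoped ContDiff

namespace Pool.Agent.Lib.MP_4d7d0a_gt

namespace ATauAux

theorem ct_of {f : P3 → P3} {p : P3} (hf : ContDiffAt ℝ ∞ f p) {A B : P3 →L[ℝ] ℝ}
    (h1 : HasFDerivAt (fun q => (f q).1) A p) (h3 : HasFDerivAt (fun q => (f q).2.2) B p)
    {c : ℝ} (hc : 0 < c) (h : ∀ v, B v - (f p).2.1 * A v = c * al p v) : ContactAt f p := by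
  refine ⟨hf, c, hc, fun v => ?_⟩
  have h0 := locA_hasFDerivAt hf
  have e1 := h1.unique h0.fst
  have e3 := h3.unique h0.snd.snd
  rw [← h v, e1, e3]
  rfl

theorem exists_prof {δ : ℝ} (hδ : 0 < δ) : ∃ G H : ℝ → ℝ, ContDiff ℝ ∞ G ∧ ContDiff ℝ ∞ H ∧
    (∀ q, HasDerivAt H (q * deriv G q) q) ∧ (∀ q, δ < q → G q = 1 ∧ H q = 0) ∧
    ∀ q, q < -δ → G q = 0 ∧ H q = 0 := by
  let g : ℝ → ℝ := fun q => q * Real.smoothTransition ((q / δ + 1) / 2)
  have hg : ContDiff ℝ ∞ g :=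
    contDiff_id.mul (Real.smoothTransition.contDiff.comp (by fun_prop))
  have hG : ContDiff ℝ ∞ (deriv g) := (contDiff_infty_iff_deriv.1 hg).2
  refine ⟨deriv g, fun q => q * deriv g q - g q, hG, (contDiff_id.mul hG).sub hg, fun q => ?_,
    fun q hq => ?_, fun q hq => ?_⟩
  · have h1 := (hG.differentiable (by simp) q).hasDerivAt
    have h2 := (hg.differentiable (by simp) q).hasDerivAt
    exact (((hasDerivAt_id q).mul h1).sub h2).congr_deriv (by simp)
  · have h1 : g =ᶠ[𝓝 q] fun t => t := by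
      filter_upwards [Ioi_mem_nhds hq] with t ht
      have h2 : 1 ≤ t / δ := by rw [le_div_iff₀ hδ]; linarith [mem_Ioi.1 ht]
      simp only [g]
      rw [Real.smoothTransition.one_of_one_le (by linarith), mul_one]
    have h3 : deriv g q = 1 := by rw [h1.deriv_eq]; simp
    refine ⟨h3, ?_⟩
    simp only [h3, h1.eq_of_nhds]
    ring
  · have h1 : g =ᶠ[𝓝 q] fun _ => 0 := by
      filter_upwards [Iio_mem_nhds hq] with t ht
      have h2 : t / δ ≤ -1 := by rw [div_le_iff₀ hδ]; linarith [mem_Iio.1 ht]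
      simp only [g]
      rw [Real.smoothTransition.zero_of_nonpos (by linarith), mul_zero]
    have h3 : deriv g q = 0 := by rw [h1.deriv_eq]; simp
    refine ⟨h3, ?_⟩
    simp only [h3, h1.eq_of_nhds]
    ring

/-- the height as a function of the logarithmic coordinate -/
noncomputable def Zf (ζ s : ℝ) : ℝ := ζ * (Real.exp s - 1) / (Real.exp s + 1)

/-- the conformal factor -/
noncomputable def ff (ζ Z : ℝ) : ℝ := (ζ ^ 2 - Z ^ 2) / (2 * ζ)

/-- the chart of the open strip -/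
noncomputable def CC (ζ : ℝ) (p : P3) : P3 := (p.1, p.2.1 * ff ζ (Zf ζ p.2.2), Zf ζ p.2.2)

/-- its inverse -/
noncomputable def DD (ζ : ℝ) (p : P3) : P3 :=
  (p.1, p.2.1 / ff ζ p.2.2, Real.log ((ζ + p.2.2) / (ζ - p.2.2)))

variable {ζ : ℝ}

theorem sub_Zf (s : ℝ) : ζ - Zf ζ s = 2 * ζ / (Real.exp s + 1) := by
  have := Real.exp_pos s
  unfold Zf
  field_simp
  ring

theorem add_Zf (s : ℝ) : ζ + Zf ζ s = 2 * ζ * Real.exp s / (Real.exp s + 1) := by
  have := Real.exp_pos s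
  unfold Zf
  field_simp
  ring

theorem Zf_lt (hζ : 0 < ζ) (s : ℝ) : |Zf ζ s| < ζ := by
  have h := Real.exp_pos s
  have h1 : 0 < ζ - Zf ζ s := by rw [sub_Zf]; positivity
  have h2 : 0 < ζ + Zf ζ s := by rw [add_Zf]; positivity
  rw [abs_lt]
  constructor <;> linarith

theorem ff_pos (hζ : 0 < ζ) {Z : ℝ} (h : |Z| < ζ) : 0 < ff ζ Z := by
  rw [abs_lt] at h
  unfold ff
  apply div_pos _ (by positivity)
  nlinarith [h.1, h.2]

theorem ff_le (hζ : 0 < ζ) {Z : ℝ} (h : |Z| < ζ) (c : Bool) : ff ζ Z ≤ ζ - es c * Z := by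
  rw [abs_lt] at h
  unfold ff
  rw [div_le_iff₀ (by positivity)]
  cases c <;> simp only [es, if_true, Bool.false_eq_true, if_false] <;> nlinarith [h.1, h.2]

theorem ff_half (hζ : 0 < ζ) (Z : ℝ) : ff ζ Z ≤ ζ / 2 := by
  unfold ff
  rw [div_le_iff₀ (by positivity)]
  nlinarith [sq_nonneg Z]

theorem Zf_der (hζ : 0 < ζ) (s : ℝ) : HasDerivAt (Zf ζ) (ff ζ (Zf ζ s)) s := by
  have h := Real.exp_pos s
  have h1 := (((Real.hasDerivAt_exp s).sub_const 1).const_mul ζ).div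
    ((Real.hasDerivAt_exp s).add_const 1) (by positivity)
  refine h1.congr_deriv ?_
  unfold ff Zf
  field_simp
  ring

theorem Zf_sm : ContDiff ℝ ∞ (Zf ζ) := by
  unfold Zf
  exact ContDiff.div (by fun_prop) (by fun_prop) fun s => by positivity

theorem ff_sm : ContDiff ℝ ∞ (ff ζ) := by
  unfold ff
  fun_prop

theorem DD_CC (hζ : 0 < ζ) (p : P3) : DD ζ (CC ζ p) = p := by
  have h := Real.exp_pos p.2.2
  have h1 := ff_pos hζ (Zf_lt hζ p.2.2)
  refine Prod.ext rfl (Prod.ext ?_ ?_)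
  · simp only [DD, CC]
    field_simp
  · simp only [DD, CC]
    rw [sub_Zf, add_Zf]
    have : 2 * ζ * Real.exp p.2.2 / (Real.exp p.2.2 + 1) / (2 * ζ / (Real.exp p.2.2 + 1)) =
        Real.exp p.2.2 := by field_simp
    rw [this, Real.log_exp]

theorem Zf_log {Z : ℝ} (h : |Z| < ζ) : Zf ζ (Real.log ((ζ + Z) / (ζ - Z))) = Z := by
  rw [abs_lt] at h
  have h1 : 0 < ζ - Z := by linarith [h.2]
  have h2 : 0 < ζ + Z := by linarith [h.1]
  unfold Zf
  rw [Real.exp_log (div_pos h2 h1)]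
  field_simp
  ring

theorem CC_DD (hζ : 0 < ζ) {p : P3} (h : |p.2.2| < ζ) : CC ζ (DD ζ p) = p := by
  have h1 := ff_pos hζ h
  refine Prod.ext rfl (Prod.ext ?_ ?_)
  · simp only [DD, CC]
    rw [Zf_log h]
    field_simp
  · simp only [DD, CC]
    exact Zf_log h

theorem CC_ct (hζ : 0 < ζ) (p : P3) : ContactAt (CC ζ) p := by
  have hz : ContDiff ℝ ∞ fun q : P3 => Zf ζ q.2.2 := Zf_sm.comp (by fun_prop)
  have hs : ContDiff ℝ ∞ (CC ζ) :=
    contDiff_fst.prodMk (((contDiff_fst.comp contDiff_snd).mul (ff_sm.comp hz)).prodMk hz)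
  have h3 : HasFDerivAt (fun q : P3 => q.2.2) ((ContinuousLinearMap.snd ℝ ℝ ℝ).comp
      (ContinuousLinearMap.snd ℝ ℝ (ℝ × ℝ))) p := hasFDerivAt_snd.snd
  have h4 := (Zf_der hζ p.2.2).comp_hasFDerivAt p h3
  refine ct_of hs.contDiffAt hasFDerivAt_fst h4 (ff_pos hζ (Zf_lt hζ p.2.2)) fun v => ?_
  simp [CC, al]
  ring

theorem strip_open : IsOpen {p : P3 | |p.2.2| < ζ} := isOpen_lt (by fun_prop) continuous_const

theorem DD_ct (hζ : 0 < ζ) {p : P3} (h : |p.2.2| < ζ) : ContactAt (DD ζ) p := by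
  have h1 := ff_pos hζ h
  have h' := abs_lt.1 h
  have h2 : 0 < ζ - p.2.2 := by linarith [h'.2]
  have h3 : 0 < ζ + p.2.2 := by linarith [h'.1]
  have hf : ContDiff ℝ ∞ fun q : P3 => ff ζ q.2.2 := ff_sm.comp (by fun_prop)
  refine locA_of_smooth_inv (CC_ct hζ _) ?_ ?_
  · refine contDiffAt_fst.prodMk (ContDiffAt.prodMk ?_ ?_)
    · exact ContDiffAt.div (by fun_prop) hf.contDiffAt h1.ne'
    · exact ContDiffAt.log (ContDiffAt.div (by fun_prop) (by fun_prop) h2.ne')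
        (div_pos h3 h2).ne'
  · filter_upwards [strip_open.mem_nhds h] with q hq
    exact CC_DD hζ hq

/-- the shear in the chart -/
def sh (G H : ℝ → ℝ) (n : ℤ) (p : P3) : P3 := (p.1 + n * G p.2.1, p.2.1, p.2.2 + n * H p.2.1)

theorem sh_ct {G H : ℝ → ℝ} (hG : ContDiff ℝ ∞ G) (hH : ContDiff ℝ ∞ H)
    (hd : ∀ q, HasDerivAt H (q * deriv G q) q) (n : ℤ) (p : P3) : ContactAt (sh G H n) p := by
  have hs : ContDiff ℝ ∞ (sh G H n) := by
    unfold sh
    fun_prop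
  have h2 : HasFDerivAt (fun q : P3 => q.2.1) ((ContinuousLinearMap.fst ℝ ℝ ℝ).comp
      (ContinuousLinearMap.snd ℝ ℝ (ℝ × ℝ))) p := hasFDerivAt_snd.fst
  have h3 : HasFDerivAt (fun q : P3 => q.2.2) ((ContinuousLinearMap.snd ℝ ℝ ℝ).comp
      (ContinuousLinearMap.snd ℝ ℝ (ℝ × ℝ))) p := hasFDerivAt_snd.snd
  have h4 := (hG.differentiable (by simp) p.2.1).hasDerivAt
  refine ct_of hs.contDiffAt
    (hasFDerivAt_fst.add ((h4.comp_hasFDerivAt p h2).const_mul (n : ℝ)))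
    (h3.add (((hd p.2.1).comp_hasFDerivAt p h2).const_mul (n : ℝ))) one_pos fun v => ?_
  simp [sh, al]
  ring

open Classical in
/-- the model twist -/
noncomputable def tau (ζ : ℝ) (G H : ℝ → ℝ) (n : ℤ) (p : P3) : P3 :=
  if |p.2.2| < ζ then CC ζ (sh G H n (DD ζ p)) else p

theorem gap_le (hζ : 0 < ζ) {s s' b : ℝ} (h : |s' - s| ≤ b) (c : Bool) :
    ζ - es c * Zf ζ s' ≤ Real.exp b * (ζ - es c * Zf ζ s) := by
  have h0 := Real.exp_pos s
  have h0' := Real.exp_pos s'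
  have hb : 1 ≤ Real.exp b := Real.one_le_exp ((abs_nonneg _).trans h)
  rw [abs_le] at h
  cases c
  · simp only [es, Bool.false_eq_true, if_false, neg_mul, one_mul, sub_neg_eq_add]
    have h1 : Real.exp s' ≤ Real.exp b * Real.exp s := by
      rw [← Real.exp_add]; exact Real.exp_le_exp.2 (by linarith [h.2])
    rw [add_Zf, add_Zf, ← mul_div_assoc, div_le_div_iff₀ (by positivity) (by positivity)]
    have h2 : Real.exp s' * Real.exp s ≤ Real.exp b * (Real.exp s' * Real.exp s) :=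
      le_mul_of_one_le_left (by positivity) hb
    nlinarith
  · simp only [es, if_true, one_mul]
    have h1 : Real.exp s ≤ Real.exp b * Real.exp s' := by
      rw [← Real.exp_add]; exact Real.exp_le_exp.2 (by linarith [h.1])
    rw [sub_Zf, sub_Zf, ← mul_div_assoc, div_le_div_iff₀ (by positivity) (by positivity)]
    nlinarith

theorem es_sq (c : Bool) : es c ^ 2 = 1 := by cases c <;> simp [es]

theorem per_int {X : Type} {j : P3 → X} (h : ∀ p : P3, j (p.1 + 1, p.2) = j p) (p : P3) (k : ℤ) :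
    j (p.1 + k, p.2) = j p := by
  have hp : Function.Periodic (fun x : ℝ => j (x, p.2)) 1 := fun x => h (x, p.2)
  simpa using hp.int_mul k p.1

end ATauAux

open ATauAux

theorem exists_tau {ζ ε : ℝ} (hζ : 0 < ζ) (hε : 0 < ε) : ∃ τ W, TauOK ζ ε τ W := by
  have hδ : 0 < ε / ζ := div_pos hε hζ
  generalize hδe : ε / ζ = δ at hδ
  have hδe' : δ * (ζ / 2) = ε / 2 := by rw [← hδe]; field_simp
  obtain ⟨G, H, hG, hH, hd, hpos, hneg⟩ := exists_prof hδ
  have tin : ∀ n (p : P3), |p.2.2| < ζ → tau ζ G H n p = CC ζ (sh G H n (DD ζ p)) :=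
    fun n p h => if_pos h
  have tout : ∀ n (p : P3), ¬ |p.2.2| < ζ → tau ζ G H n p = p := fun n p h => if_neg h
  have opos : ∀ n (p : P3), ¬ (|p.2.2| < ζ ∧ |p.2.1| ≤ δ * ff ζ p.2.2) → |p.2.2| < ζ →
      0 < p.2.1 → tau ζ G H n p = (p.1 + n, p.2) := by
    intro n p h1 h2 h3
    have h4 : δ < p.2.1 / ff ζ p.2.2 := by
      rw [lt_div_iff₀ (ff_pos hζ h2)]
      have := not_le.1 fun h => h1 ⟨h2, h⟩
      rwa [abs_of_pos h3] at this
    have h5 : sh G H n (DD ζ p) = DD ζ (p.1 + n, p.2) := by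
      simp only [sh, DD, (hpos _ h4).1, (hpos _ h4).2, mul_one, mul_zero, add_zero]
    rw [tin n p h2, h5]
    exact CC_DD hζ h2
  have oneg : ∀ n (p : P3), ¬ (|p.2.2| < ζ ∧ |p.2.1| ≤ δ * ff ζ p.2.2) → p.2.1 ≤ 0 →
      tau ζ G H n p = p := by
    intro n p h1 h3
    by_cases h2 : |p.2.2| < ζ
    swap
    · exact tout n p h2
    have h4 : p.2.1 / ff ζ p.2.2 < -δ := by
      rw [div_lt_iff₀ (ff_pos hζ h2)]
      have := not_le.1 fun h => h1 ⟨h2, h⟩
      rw [abs_of_nonpos h3] at this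
      linarith
    have h5 : sh G H n (DD ζ p) = DD ζ p := by
      simp only [sh, DD, (hneg _ h4).1, (hneg _ h4).2, mul_zero, add_zero]
    rw [tin n p h2, h5]
    exact CC_DD hζ h2
  have ooff : ∀ n (p : P3), ¬ (|p.2.2| < ζ ∧ |p.2.1| ≤ δ * ff ζ p.2.2) →
      tau ζ G H n p = p ∨ tau ζ G H n p = (p.1 + n, p.2) := by
    intro n p h1
    by_cases h2 : |p.2.2| < ζ
    · rcases le_or_gt p.2.1 0 with h3 | h3
      · exact Or.inl (oneg n p h1 h3)
      · exact Or.inr (opos n p h1 h2 h3)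
    · exact Or.inl (tout n p h2)
  have qle : ∀ p : P3, |p.2.2| < ζ → |p.2.1| ≤ δ * ff ζ p.2.2 → |p.2.1 / ff ζ p.2.2| ≤ δ := by
    intro p h1 h2
    rw [abs_div, abs_of_pos (ff_pos hζ h1), div_le_iff₀ (ff_pos hζ h1)]
    exact h2
  have wmap : ∀ n (p : P3), |p.2.2| < ζ → |p.2.1| ≤ δ * ff ζ p.2.2 →
      |(tau ζ G H n p).2.2| < ζ ∧ |(tau ζ G H n p).2.1| ≤ δ * ff ζ (tau ζ G H n p).2.2 := by
    intro n p h1 h2
    rw [tin n p h1]
    refine ⟨Zf_lt hζ _, ?_⟩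
    simp only [CC]
    rw [abs_mul, abs_of_pos (ff_pos hζ (Zf_lt hζ _))]
    exact mul_le_mul_of_nonneg_right (qle p h1 h2) (ff_pos hζ (Zf_lt hζ _)).le
  refine ⟨tau ζ G H, {p | |p.2.2| < ζ ∧ |p.2.1| ≤ δ * ff ζ p.2.2}, fun p => ?_, fun n m p => ?_,
    fun n p a => ?_, fun p hp => ⟨?_, hp.1⟩, fun p hp a => hp, fun n p hp => wmap n p hp.1 hp.2,
    ?_, ooff, opos, fun n p h1 h2 => oneg n p h1 h2.le, fun n p hp => ?_, fun n ρ hρ => ?_⟩
  · by_cases h : |p.2.2| < ζ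
    · rw [tin 0 p h]
      simpa [sh] using CC_DD hζ h
    · exact tout 0 p h
  · by_cases h : |p.2.2| < ζ
    · rw [tin m p h, tin (n + m) p h, tin n _ (Zf_lt hζ _), DD_CC hζ]
      congr 1
      simp only [sh]
      push_cast
      refine Prod.ext ?_ (Prod.ext rfl ?_) <;> simp only <;> ring
    · rw [tout m p h, tout n p h, tout (n + m) p h]
  · by_cases h : |p.2.2| < ζ
    · rw [tin n p h, tin n (p.1 + a, p.2) h]
      simp only [CC, sh, DD]
      refine Prod.ext ?_ rfl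
      simp only
      ring
    · rw [tout n p h, tout n (p.1 + a, p.2) h]
  · refine hp.2.trans ?_
    rw [← hδe']
    exact mul_le_mul_of_nonneg_left (ff_half hζ _) hδ.le
  · have e : ({p : P3 | |p.2.2| < ζ ∧ |p.2.1| ≤ δ * ff ζ p.2.2} ∪ {p | p.2.1 = 0 ∧ |p.2.2| = ζ}) =
        {p : P3 | |p.2.2| ≤ ζ} ∩ {p : P3 | |p.2.1| ≤ δ * ff ζ p.2.2} := by
      have z : ∀ Z : ℝ, |Z| = ζ → ff ζ Z = 0 := fun Z h => by
        unfold ff
        rw [← h, sq_abs, sub_self, zero_div]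
      ext p
      simp only [mem_union, mem_inter_iff, mem_ofPred_eq]
      constructor
      · rintro (h | h)
        · exact ⟨h.1.le, h.2⟩
        · exact ⟨h.2.le, by rw [h.1, z _ h.2]; simp⟩
      · rintro ⟨h1, h2⟩
        rcases h1.lt_or_eq with h3 | h3
        · exact Or.inl ⟨h3, h2⟩
        · rw [z _ h3, mul_zero] at h2
          exact Or.inr ⟨abs_nonpos_iff.1 h2, h3⟩
    rw [e]
    have hf : Continuous fun q : P3 => ff ζ q.2.2 := ff_sm.continuous.comp (by fun_prop)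
    exact (isClosed_le (by fun_prop) continuous_const).inter
      (isClosed_le (by fun_prop) (continuous_const.mul hf))
  · refine (ContactAt.comp (g := CC ζ) (CC_ct hζ _)
      (ContactAt.comp (g := sh G H n) (sh_ct hG hH hd n _) (DD_ct hζ hp))).congr ?_
    filter_upwards [strip_open.mem_nhds hp] with q hq
    exact tin n q hq
  · obtain ⟨B, hB⟩ := (isCompact_Icc (a := -δ) (b := δ)).exists_bound_of_continuousOn
      hH.continuous.continuousOn
    have hB0 : 0 ≤ B := (norm_nonneg _).trans (hB 0 ⟨by linarith, by linarith⟩)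
    have hb : 1 ≤ Real.exp (|(n : ℝ)| * B) := Real.one_le_exp (by positivity)
    generalize hE : Real.exp (|(n : ℝ)| * B) = E at hb
    have hM : 1 ≤ (δ + 1) * E := by nlinarith
    have hρ' : 0 < ρ / ((δ + 1) * E) := by positivity
    have hmul : ρ / ((δ + 1) * E) * ((δ + 1) * E) = ρ := by field_simp
    generalize ρ / ((δ + 1) * E) = ρ' at hρ' hmul
    refine ⟨ρ', hρ', fun c p hp => ?_⟩
    have hle : ρ' ≤ ρ := by nlinarith
    by_cases hW : |(p + (0, 0, es c * ζ) : P3).2.2| < ζ ∧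
      |(p + (0, 0, es c * ζ) : P3).2.1| ≤ δ * ff ζ (p + (0, 0, es c * ζ) : P3).2.2
    swap
    · rcases ooff n _ hW with h | h
      · rw [h, add_sub_cancel_right]
        exact tube_mono hρ'.le hle hp
      · rw [h]
        have := tube_mono hρ'.le hle hp
        simpa [tube] using this
    have hz : ζ - es c * (p + (0, 0, es c * ζ) : P3).2.2 = -(es c * p.2.2) := by
      simp only [Prod.snd_add]
      linear_combination (-ζ) * es_sq c
    generalize (p + (0, 0, es c * ζ) : P3) = p' at hW hz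
    obtain ⟨w1, w2⟩ := wmap n p' hW.1 hW.2
    have g1 : ζ - es c * (tau ζ G H n p').2.2 ≤ E * (ζ - es c * p'.2.2) := by
      have h1 := gap_le hζ (s := (DD ζ p').2.2) (s' := (sh G H n (DD ζ p')).2.2)
        (b := |(n : ℝ)| * B) (by
          simp only [sh, add_sub_cancel_left, abs_mul]
          exact mul_le_mul_of_nonneg_left (hB _ (abs_le.1 (qle p' hW.1 hW.2))) (abs_nonneg _)) c
      rw [hE] at h1
      have h2 : Zf ζ (DD ζ p').2.2 = p'.2.2 := Zf_log hW.1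
      rw [h2] at h1
      rw [tin n p' hW.1]
      exact h1
    have g2 := ff_le hζ w1 c
    have g3 := ff_pos hζ w1
    generalize tau ζ G H n p' = r at w1 w2 g1 g2 g3
    have g4 : (r.2.2 - es c * ζ) ^ 2 = (ζ - es c * r.2.2) ^ 2 := by
      linear_combination (ζ ^ 2 - r.2.2 ^ 2) * es_sq c
    have g5 : r.2.1 ^ 2 ≤ (δ * (ζ - es c * r.2.2)) ^ 2 := by
      rw [← sq_abs]
      exact pow_le_pow_left₀ (abs_nonneg _)
        (w2.trans (mul_le_mul_of_nonneg_left g2 hδ.le)) 2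
    have g6 : (ζ - es c * r.2.2) ^ 2 ≤ E ^ 2 * p.2.2 ^ 2 := by
      have := pow_le_pow_left₀ (g3.le.trans g2) g1 2
      rw [hz, mul_pow, neg_sq, mul_pow, es_sq, one_mul] at this
      exact this
    have g7 : p.2.2 ^ 2 < ρ' ^ 2 := by
      have : p.2.1 ^ 2 + p.2.2 ^ 2 < ρ' ^ 2 := hp
      nlinarith [sq_nonneg p.2.1]
    change (r - (0, 0, es c * ζ) : P3).2.1 ^ 2 + (r - (0, 0, es c * ζ) : P3).2.2 ^ 2 < ρ ^ 2
    simp only [Prod.snd_sub, Prod.fst_sub, sub_zero]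
    rw [g4, ← hmul]
    have g8 : E ^ 2 * p.2.2 ^ 2 < E ^ 2 * ρ' ^ 2 := mul_lt_mul_of_pos_left g7 (by positivity)
    have g9 : (δ ^ 2 + 1) * (ζ - es c * r.2.2) ^ 2 < (δ ^ 2 + 1) * (E ^ 2 * ρ' ^ 2) :=
      mul_lt_mul_of_pos_left (g6.trans_lt g8) (by positivity)
    have g10 : 0 ≤ δ * (E ^ 2 * ρ' ^ 2) := by positivity
    nlinarith

theorem exists_twist {N : Type} [TopologicalSpace N] [ChartedSpace P3 N] [T2Space N]
    (hA : IsContactAtlas N) {ζ ε : ℝ} (hζ : 0 < ζ) (hε : 0 < ε) {j : P3 → N}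
    (hj : SlabMap j (slab ζ ε)) (hc : ∀ p ∈ slab ζ ε, CtInto j p) {τ : ℤ → P3 → P3} {W : Set P3}
    (hτ : TauOK ζ ε τ W) : ∃ T, TwistOK ζ ε j τ W T := by
  classical
  have hWs : W ⊆ slab ζ ε := fun p hp =>
    ⟨by linarith [(hτ.W_sub p hp).1], by linarith [(hτ.W_sub p hp).2]⟩
  have so : IsOpen (slab ζ ε) :=
    IsOpen.inter (s := {p : P3 | |p.2.1| < ε}) (t := {p : P3 | |p.2.2| < ζ + ε})
      (isOpen_lt (by fun_prop) continuous_const) strip_open
  have hmap : ∀ n, ∀ p ∈ slab ζ ε, τ n p ∈ slab ζ ε := by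
    intro n p hp
    by_cases h : p ∈ W
    · exact hWs (hτ.W_map n p h)
    · rcases hτ.off n p h with e | e <;> rw [e] <;> exact hp
  let T : ℤ → N → N := fun n m => if h : m ∈ j '' W then j (τ n h.choose) else m
  have off : ∀ n m, m ∉ j '' W → T n m = m := fun n m h => dif_neg h
  have on : ∀ n, ∀ p ∈ slab ζ ε, T n (j p) = j (τ n p) := by
    intro n p hp
    by_cases h : j p ∈ j '' W
    · have e : T n (j p) = j (τ n h.choose) := dif_pos h
      obtain ⟨h1, h2⟩ := h.choose_spec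
      obtain ⟨h3, k, h4⟩ := hj.2 _ (hWs h1) _ hp h2
      have h5 : h.choose = (p.1 + k, p.2) := Prod.ext h4 h3
      rw [e, h5, hτ.equi, per_int hj.1]
    · rw [off n _ h]
      rcases hτ.off n p (fun h' => h (mem_image_of_mem j h')) with e | e
      · rw [e]
      · rw [e, per_int hj.1]
  have closed : IsClosed (j '' (W ∪ {p | p.2.1 = 0 ∧ |p.2.2| = ζ})) := by
    have e : j '' (W ∪ {p | p.2.1 = 0 ∧ |p.2.2| = ζ}) =
        j '' ((Icc (0 : ℝ) 1 ×ˢ Icc (-(ε / 2)) (ε / 2) ×ˢ Icc (-ζ) ζ) ∩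
          (W ∪ {p | p.2.1 = 0 ∧ |p.2.2| = ζ})) := by
      refine Subset.antisymm ?_ (image_mono inter_subset_right)
      rintro _ ⟨p, hp, rfl⟩
      refine ⟨(p.1 + ((-⌊p.1⌋ : ℤ) : ℝ), p.2), ⟨⟨?_, ?_⟩, ?_⟩, per_int hj.1 p _⟩
      · have h1 := Int.floor_le p.1
        have h2 := Int.lt_floor_add_one p.1
        push_cast
        constructor <;> linarith
      · rcases hp with hp | hp
        · exact ⟨abs_le.1 (hτ.W_sub p hp).1, abs_le.1 (hτ.W_sub p hp).2.le⟩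
        · exact ⟨abs_le.1 (by rw [hp.1, abs_zero]; linarith), abs_le.1 hp.2.le⟩
      · rcases hp with hp | hp
        · exact Or.inl (hτ.W_inv p hp _)
        · exact Or.inr hp
    rw [e]
    refine (((isCompact_Icc.prod (isCompact_Icc.prod isCompact_Icc)).inter_right
      hτ.W_closed).image_of_continuousOn fun p hp => (hc p ?_).1.continuousWithinAt).isClosed
    exact ⟨lt_of_le_of_lt (abs_le.2 hp.1.2.1) (by linarith),
      lt_of_le_of_lt (abs_le.2 hp.1.2.2) (by linarith)⟩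
  refine ⟨T, on, off, fun m => ?_, fun n k m => ?_, closed, fun n F p h1 h2 => ?_⟩
  · by_cases h : m ∈ j '' W
    · obtain ⟨w, hw, rfl⟩ := h
      rw [on 0 w (hWs hw), hτ.zero]
    · exact off 0 m h
  · by_cases h : m ∈ j '' W
    · obtain ⟨w, hw, rfl⟩ := h
      rw [on k w (hWs hw), on n _ (hmap k w (hWs hw)), on _ w (hWs hw), hτ.add]
    · rw [off k m h, off n m h, off _ m h]
  have hF := h2.self_of_nhds.1
  by_cases h : F p ∈ j '' W
  · obtain ⟨w, hw, hw'⟩ := h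
    obtain ⟨G, g1, g2⟩ := exists_ctInto_inv hA (F := j) (p := w)
      (by filter_upwards [so.mem_nhds (hWs hw)] with q hq using hc q hq)
    have g3 : ∀ᶠ m in 𝓝 (j w), G m ∈ slab ζ ε ∧ |(G m).2.2| < ζ := by
      apply g1.self_of_nhds.1.eventually (p := fun q => q ∈ slab ζ ε ∧ |q.2.2| < ζ)
      rw [g2.self_of_nhds]
      exact (so.inter strip_open).mem_nhds ⟨hWs hw, (hτ.W_sub w hw).2⟩
    rw [hw'] at g1 g3
    have g4 := hF.eventually (g1.and g3)
    filter_upwards [g4.eventually_nhds, h2] with q hq hq'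
    obtain ⟨⟨-, a2, -⟩, a4, a5⟩ := hq.self_of_nhds
    refine (CtInto.comp (F := j) (f := fun q => τ n (G (F q))) (hc _ (hmap n _ a4))
      (ContactAt.comp (g := τ n) (hτ.ct n _ a5) (a2.comp_into hq'))).congr ?_
    filter_upwards [hq] with q' hq''
    rw [← on n _ hq''.2.1, hq''.1.2.2]
  · have h3 : F p ∉ j '' (W ∪ {p | p.2.1 = 0 ∧ |p.2.2| = ζ}) := by
      rintro ⟨w, hw | hw, hw'⟩
      · exact h ⟨w, hw, hw'⟩
      · rcases (abs_eq hζ.le).1 hw.2 with e | e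
        · apply h1 true w.1
          rw [← hw']
          congr 1
          exact Prod.ext rfl (Prod.ext hw.1 (by simp [es, e]))
        · apply h1 false w.1
          rw [← hw']
          congr 1
          exact Prod.ext rfl (Prod.ext hw.1 (by simp [es, e]))
    have g4 := hF.eventually (closed.isOpen_compl.mem_nhds h3)
    filter_upwards [g4.eventually_nhds, h2] with q hq hq'
    refine hq'.congr ?_
    filter_upwards [hq] with q' hq''
    exact off n _ fun h5 => hq'' (image_mono subset_union_left h5)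

theorem isContactAtlas_P3 : IsContactAtlas P3 := by
  intro e he e' he' m _
  rw [chartedSpaceSelf_atlas] at he he'
  subst he he'
  exact contactAt_id _

theorem ctInto_P3 {F : P3 → P3} {p : P3} : CtInto F p ↔ ContactAt F p :=
  ⟨fun h => h.2, fun h => ⟨h.1.continuousAt, h⟩⟩

end Pool.Agent.Lib.MP_4d7d0a_gt
end

-- part Pool.Agent.Lib.MP_4d7d0a_gt.ATwSD
section

/-! The surgery data of the twisted knots. -/

set_option autoImplicit false

open Set Filter Topology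
open scoped ContDiff

namespace Pool.Agent.Lib.MP_4d7d0a_gt

theorem atwsd_abs_es (c : Bool) {ζ : ℝ} (hζ : 0 < ζ) : |es c * ζ| = ζ := by
  cases c
  · simp [es, abs_of_pos hζ]
  · simp [es, abs_of_pos hζ]

theorem atwsd_core_slab {ζ ε : ℝ} (hζ : 0 < ζ) (hε : 0 < ε) (c : Bool) (x : ℝ) :
    ((x, 0, es c * ζ) : P3) ∈ slab ζ ε := by
  refine ⟨by simpa using hε, ?_⟩
  show |es c * ζ| < ζ + ε
  rw [atwsd_abs_es c hζ]
  linarith

theorem atwsd_open_slab (ζ ε : ℝ) : IsOpen (slab ζ ε) := by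
  have h1 : IsOpen {p : P3 | |p.2.1| < ε} := isOpen_lt (by fun_prop) continuous_const
  have h2 : IsOpen {p : P3 | |p.2.2| < ζ + ε} := isOpen_lt (by fun_prop) continuous_const
  exact h1.inter h2

theorem atwsd_W_slab {ζ ε : ℝ} (hε : 0 < ε) {τ : ℤ → P3 → P3} {W : Set P3}
    (hτ : TauOK ζ ε τ W) {p : P3} (hp : p ∈ W) : p ∈ slab ζ ε := by
  obtain ⟨h1, h2⟩ := hτ.W_sub p hp
  exact ⟨by linarith, by linarith⟩

theorem atwsd_tube_slab {ζ ε ρ : ℝ} (hζ : 0 < ζ) (hρ : 0 < ρ) (hle : ρ ≤ ε) (c : Bool) {p : P3}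
    (hp : p ∈ tube ρ) : p + (0, 0, es c * ζ) ∈ slab ζ ε := by
  have h0 : p.2.1 ^ 2 + p.2.2 ^ 2 < ρ ^ 2 := hp
  have h1 : |p.2.1| < ρ := abs_lt_of_sq_lt_sq (by nlinarith [sq_nonneg p.2.2]) hρ.le
  have h2 : |p.2.2| < ρ := abs_lt_of_sq_lt_sq (by nlinarith [sq_nonneg p.2.1]) hρ.le
  refine ⟨?_, ?_⟩
  · show |p.2.1 + 0| < ε
    rw [add_zero]
    linarith
  · show |p.2.2 + es c * ζ| < ζ + ε
    have h3 := abs_add_le p.2.2 (es c * ζ)
    rw [atwsd_abs_es c hζ] at h3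
    linarith

theorem atwsd_core_eq (c : Bool) (ζ x : ℝ) :
    ((x, 0, 0) : P3) + (0, 0, es c * ζ) = (x, 0, es c * ζ) := by
  simp

theorem atwsd_fract {X : Type} {f : P3 → X} (hf : ∀ p : P3, f (p.1 + 1, p.2) = f p) (p : P3) :
    f (Int.fract p.1, p.2) = f p := by
  have hp : Function.Periodic (fun x : ℝ => f (x, p.2)) 1 := fun x => hf (x, p.2)
  have h1 := hp.int_mul ⌊p.1⌋ (Int.fract p.1)
  simp only [mul_one, Int.fract_add_floor] at h1
  exact h1.symm

section Gen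

variable {N : Type} [TopologicalSpace N] [ChartedSpace P3 N] {ζ ε : ℝ} {j : P3 → N}
  {τ : ℤ → P3 → P3} {W : Set P3} {T : ℤ → N → N}

theorem atwsd_inv (hT : TwistOK ζ ε j τ W T) (n : ℤ) (m : N) : T (-n) (T n m) = m := by
  rw [hT.add, neg_add_cancel, hT.zero]

theorem atwsd_inv' (hT : TwistOK ζ ε j τ W T) (n : ℤ) (m : N) : T n (T (-n) m) = m := by
  rw [hT.add, add_neg_cancel, hT.zero]

theorem atwsd_inj (hT : TwistOK ζ ε j τ W T) (n : ℤ) : Function.Injective (T n) :=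
  Function.LeftInverse.injective (atwsd_inv hT n)

theorem atwsd_fix (hζ : 0 < ζ) (hε : 0 < ε) (hj : SlabMap j (slab ζ ε)) (hτ : TauOK ζ ε τ W)
    (hT : TwistOK ζ ε j τ W T) (n : ℤ) (c : Bool) (x : ℝ) :
    T n (j (x, 0, es c * ζ)) = j (x, 0, es c * ζ) := by
  refine hT.off n _ ?_
  rintro ⟨w, hw, h⟩
  have h1 := (hj.2 w (atwsd_W_slab hε hτ hw) _ (atwsd_core_slab hζ hε c x) h).1
  have h2 := (hτ.W_sub w hw).2
  rw [h1] at h2
  have h3 : |es c * ζ| < ζ := h2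
  rw [atwsd_abs_es c hζ] at h3
  exact lt_irrefl _ h3

theorem atwsd_range (hT : TwistOK ζ ε j τ W T) (n : ℤ) {K : ℝ → N} {m : N} :
    (m ∈ range fun t => T n (K t)) ↔ T (-n) m ∈ range K := by
  constructor
  · rintro ⟨t, ht⟩
    exact ⟨t, by rw [← ht, atwsd_inv hT]⟩
  · rintro ⟨t, ht⟩
    exact ⟨t, by simp only [ht, atwsd_inv' hT]⟩

omit [ChartedSpace P3 N] in
theorem atwsd_closed [T2Space N] (hζ : 0 < ζ) (hε : 0 < ε) (hj : SlabMap j (slab ζ ε))
    (hc : ∀ p ∈ slab ζ ε, ContinuousAt j p) :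
    IsClosed {m | ∃ c x, m = j (x, 0, es c * ζ)} := by
  have h1 : ∀ c, IsClosed (range fun x : ℝ => j (x, 0, es c * ζ)) := fun c => by
    have hp : Function.Periodic (fun x : ℝ => j (x, 0, es c * ζ)) 1 := fun x =>
      hj.1 (x, 0, es c * ζ)
    refine (hp.compact_of_continuous one_ne_zero ?_).isClosed
    refine continuous_iff_continuousAt.2 fun x => ?_
    exact ContinuousAt.comp (g := j) (f := fun x : ℝ => ((x, 0, es c * ζ) : P3))
      (hc _ (atwsd_core_slab hζ hε c x)) (by fun_prop)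
  have h2 : {m | ∃ c x, m = j (x, 0, es c * ζ)} = ⋃ c, range fun x : ℝ => j (x, 0, es c * ζ) := by
    ext m
    simp only [mem_ofPred_eq, mem_iUnion, mem_range, eq_comm]
  rw [h2]
  exact isClosed_iUnion_of_finite h1

omit [ChartedSpace P3 N] in
theorem atwsd_shrink {f : P3 → N} {r : ℝ} (hr : 0 < r) (hf : ∀ p : P3, f (p.1 + 1, p.2) = f p)
    (hc : ∀ p ∈ tube r, ContinuousAt f p) {C : Set N} (hC : IsClosed C)
    (h0 : ∀ x : ℝ, f (x, 0, 0) ∉ C) : ∃ δ : ℝ, 0 < δ ∧ ∀ p ∈ tube δ, f p ∉ C := by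
  have hK : IsCompact ((fun x : ℝ => ((x, 0, 0) : P3)) '' Icc 0 1) :=
    isCompact_Icc.image (by fun_prop)
  have hs : (fun x : ℝ => ((x, 0, 0) : P3)) '' Icc 0 1 ⊆ interior (f ⁻¹' Cᶜ) := by
    rintro _ ⟨x, -, rfl⟩
    exact mem_interior_iff_mem_nhds.2
      ((hc _ (loc_aux_core hr x)).preimage_mem_nhds (hC.isOpen_compl.mem_nhds (h0 x)))
  obtain ⟨δ, hδ, h⟩ := hK.exists_thickening_subset_open isOpen_interior hs
  refine ⟨δ, hδ, fun p hp => ?_⟩
  have e0 : p.2.1 ^ 2 + p.2.2 ^ 2 < δ ^ 2 := hp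
  have h1 : |p.2.1| < δ := abs_lt_of_sq_lt_sq (by nlinarith [sq_nonneg p.2.2]) hδ.le
  have h2 : |p.2.2| < δ := abs_lt_of_sq_lt_sq (by nlinarith [sq_nonneg p.2.1]) hδ.le
  have h3 : ((Int.fract p.1, p.2) : P3) ∈
      Metric.thickening δ ((fun x : ℝ => ((x, 0, 0) : P3)) '' Icc 0 1) := by
    refine Metric.mem_thickening_iff.2 ⟨(Int.fract p.1, 0, 0),
      ⟨Int.fract p.1, ⟨Int.fract_nonneg _, (Int.fract_lt_one _).le⟩, rfl⟩, ?_⟩
    simp only [Prod.dist_eq, dist_self, Real.dist_eq, sub_zero, max_lt_iff]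
    exact ⟨hδ, h1, h2⟩
  have h4 := interior_subset (h h3)
  rw [mem_preimage, atwsd_fract hf] at h4
  exact h4

theorem atwsd_chart {X : Type} {G G' : N → X} {m : N} (h : G =ᶠ[𝓝 m] G') :
    (fun p => G ((chartAt P3 m).symm p)) =ᶠ[𝓝 (chartAt P3 m m)]
      fun p => G' ((chartAt P3 m).symm p) := by
  have h1 := ((chartAt P3 m).continuousAt_symm (mem_chart_target P3 m)).tendsto
  rw [(chartAt P3 m).left_inv (mem_chart_source P3 m)] at h1
  exact h1.eventually h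

end Gen

theorem atwsd_bdd {ζ ε : ℝ} (hε : 0 < ε) {j : P3 → P3} (hj : SlabMap j (slab ζ ε))
    (hc : ∀ p ∈ slab ζ ε, ContinuousAt j p) {τ : ℤ → P3 → P3} {W : Set P3}
    (hτ : TauOK ζ ε τ W) : ∃ R : ℝ, ∀ q ∈ j '' W, ‖q‖ ≤ R := by
  have hK : IsCompact (Icc (0 : ℝ) 1 ×ˢ Icc (-(ε / 2)) (ε / 2) ×ˢ Icc (-ζ) ζ) :=
    isCompact_Icc.prod (isCompact_Icc.prod isCompact_Icc)
  have hco : ContinuousOn j (Icc (0 : ℝ) 1 ×ˢ Icc (-(ε / 2)) (ε / 2) ×ˢ Icc (-ζ) ζ) := by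
    intro p hp
    refine (hc p ⟨?_, ?_⟩).continuousWithinAt
    · have := abs_le.2 hp.2.1
      linarith
    · have := abs_le.2 hp.2.2
      linarith
  obtain ⟨R, hR⟩ := hK.exists_bound_of_continuousOn hco
  refine ⟨R, ?_⟩
  rintro _ ⟨w, hw, rfl⟩
  obtain ⟨h1, h2⟩ := hτ.W_sub w hw
  rw [← atwsd_fract hj.1 w]
  exact hR _ ⟨⟨Int.fract_nonneg _, (Int.fract_lt_one _).le⟩, abs_le.1 h1, abs_le.1 h2.le⟩

open Classical in
/-- a self-map of `ℝ³` extended to the sphere -/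
noncomputable def atwsdHat (f : P3 → P3) (q : P4) : P4 :=
  if q = pole then pole else cay (f (cai q))

theorem atwsdHat_pole (f : P3 → P3) : atwsdHat f pole = pole := if_pos rfl

theorem atwsdHat_cay (f : P3 → P3) (p : P3) : atwsdHat f (cay p) = cay (f p) := by
  unfold atwsdHat
  rw [if_neg (cay_ne_pole p), cai_cay]

theorem atwsd_cases {q : P4} (hq : q ∈ S3) : q = pole ∨ ∃ p, q = cay p := by
  by_cases h : q = pole
  · exact Or.inl h
  · exact Or.inr ⟨cai q, (cay_cai hq h).symm⟩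

theorem atwsdHat_maps {f : P3 → P3} {K K' : ℝ → P3} (h : ∀ p, f p ∈ range K' → p ∈ range K) :
    MapsTo (atwsdHat f) (S3 \ range fun t => cay (K t)) (S3 \ range fun t => cay (K' t)) := by
  intro q hq
  rcases atwsd_cases hq.1 with rfl | ⟨p, rfl⟩
  · rw [atwsdHat_pole]
    exact ⟨pole_mem, fun ⟨t, ht⟩ => cay_ne_pole _ ht⟩
  · rw [atwsdHat_cay]
    refine ⟨cay_mem _, fun ⟨t, ht⟩ => ?_⟩
    obtain ⟨s, hs⟩ := h p ⟨t, cay_inj ht⟩
    exact hq.2 ⟨s, by simp only [hs]⟩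

theorem atwsdHat_inv {f g : P3 → P3} (h : ∀ p, g (f p) = p) {q : P4} (hq : q ∈ S3) :
    atwsdHat g (atwsdHat f q) = q := by
  rcases atwsd_cases hq with rfl | ⟨p, rfl⟩
  · rw [atwsdHat_pole, atwsdHat_pole]
  · rw [atwsdHat_cay, atwsdHat_cay, h]

section Main

variable {M : Type} [TopologicalSpace M] [ChartedSpace P3 M] {L : ℝ → P3} {sd : SD L M}
  {ζ ε ρ κ : ℝ} {j : P3 → P3} {j' : P3 → M} {τ : ℤ → P3 → P3} {W : Set P3}
  {T : ℤ → P3 → P3} {T' : ℤ → M → M}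

theorem atwsd_mat (S : Slabs sd ζ ε ρ κ j j') (c : Bool) (x : ℝ) :
    j (x, 0, es c * ζ) ∉ range L ∧ j' (x, 0, es c * ζ) = sd.psi (j (x, 0, es c * ζ)) := by
  have h := S.mat c _ (loc_aux_core S.ρ_pos x)
  rwa [atwsd_core_eq] at h

theorem atwsd_ct (hT : TwistOK ζ ε j τ W T) (n : ℤ) {p : P3}
    (hp : ∀ c x, p ≠ j (x, 0, es c * ζ)) : ∀ᶠ q in 𝓝 p, ContactAt (T n) q :=
  (hT.ct n (fun q => q) p hp
    (Eventually.of_forall fun q => ctInto_P3.2 (contactAt_id q))).mono fun _ h => ctInto_P3.1 h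

theorem atwsd_near (S : Slabs sd ζ ε ρ κ j j') (hτ : TauOK ζ ε τ W) (hT : TwistOK ζ ε j τ W T)
    (hT' : TwistOK ζ ε j' τ W T') (n : ℤ) (c : Bool) (x : ℝ) :
    (fun p => T' n (sd.psi (T (-n) p))) =ᶠ[𝓝 (j (x, 0, es c * ζ))] sd.psi := by
  obtain ⟨ρ', hρ', h⟩ := hτ.core (-n) ρ S.ρ_pos
  have h1 := map_nhds_of_contact (f := j) (p := (x, 0, es c * ζ))
    (((atwsd_open_slab ζ ε).eventually_mem (atwsd_core_slab S.ζ_pos S.ε_pos c x)).mono S.j_ct)
  rw [← h1]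
  have h2 : ∀ r : ℝ, 0 < r → ∀ᶠ w in 𝓝 ((x, 0, es c * ζ) : P3), w - (0, 0, es c * ζ) ∈ tube r := by
    intro r hr
    have hc : Continuous fun w : P3 => w - (0, 0, es c * ζ) := by fun_prop
    refine hc.continuousAt.preimage_mem_nhds ((isOpen_tube r).mem_nhds ?_)
    have e : ((x, 0, es c * ζ) : P3) - (0, 0, es c * ζ) = (x, 0, 0) := by
      rw [← atwsd_core_eq, add_sub_cancel_right]
    show ((x, 0, es c * ζ) : P3) - (0, 0, es c * ζ) ∈ tube r
    rw [e]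
    exact loc_aux_core hr x
  refine eventually_map.2 ?_
  filter_upwards [h2 ρ S.ρ_pos, h2 ρ' hρ'] with w a1 a2
  have b1 := h c _ a2
  have b2 := atwsd_tube_slab S.ζ_pos S.ρ_pos S.ρ_le c a1
  have b3 := (S.mat c _ a1).2
  rw [sub_add_cancel] at b1 b2 b3
  have b4 := atwsd_tube_slab S.ζ_pos S.ρ_pos S.ρ_le c b1
  have b5 := (S.mat c _ b1).2
  rw [sub_add_cancel] at b4 b5
  show T' n (sd.psi (T (-n) (j w))) = sd.psi (j w)
  rw [hT.on _ _ b2, ← b5, hT'.on _ _ b4, hτ.add, add_neg_cancel, hτ.zero, b3]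

theorem atwsd_psi_ct (hL : IsLeg3 L) (S : Slabs sd ζ ε ρ κ j j') (hτ : TauOK ζ ε τ W)
    (hT : TwistOK ζ ε j τ W T) (hT' : TwistOK ζ ε j' τ W T') (n : ℤ) {p : P3}
    (hp : p ∉ range fun t => T n (L t)) : CtInto (fun q => T' n (sd.psi (T (-n) q))) p := by
  by_cases hc : ∃ c x, p = j (x, 0, es c * ζ)
  · obtain ⟨c, x, rfl⟩ := hc
    exact CtInto.congr (F := sd.psi) (sd.psi_ct _ (atwsd_mat S c x).1)
      (atwsd_near S hτ hT hT' n c x)
  · have hc' : ∀ c x, p ≠ j (x, 0, es c * ζ) := fun c x h => hc ⟨c, x, h⟩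
    have h1 := atwsd_ct hT (-n) hc'
    have h2 : T (-n) p ∉ range L := fun h => hp ((atwsd_range hT n).2 h)
    have h3 : ∀ᶠ q in 𝓝 p, T (-n) q ∉ range L :=
      h1.self_of_nhds.1.continuousAt.preimage_mem_nhds
        (hL.isCompact.isClosed.isOpen_compl.mem_nhds h2)
    refine (hT'.ct n (fun q => sd.psi (T (-n) q)) p (fun c x h => hc' c x ?_) ?_).self_of_nhds
    · have h4 := congrArg sd.th (h.trans (atwsd_mat S c x).2)
      rw [sd.th_psi _ h2, sd.th_psi _ (atwsd_mat S c x).1] at h4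
      rw [← atwsd_inv' hT n p, cay_inj h4, atwsd_fix S.ζ_pos S.ε_pos S.j_map hτ hT]
    · filter_upwards [h1, h3] with q a1 a3
      exact CtInto.comp (F := sd.psi) (sd.psi_ct _ a3) a1

theorem atwsd_minf (S : Slabs sd ζ ε ρ κ j j') (hτ : TauOK ζ ε τ W)
    (hT' : TwistOK ζ ε j' τ W T') (n : ℤ) : T' n sd.minf = sd.minf := by
  refine hT'.off n _ ?_
  rintro ⟨w, hw, h⟩
  exact S.minf_ne w (atwsd_W_slab S.ε_pos hτ hw) h

theorem atwsd_th_near [T2Space M] (S : Slabs sd ζ ε ρ κ j j') (hτ : TauOK ζ ε τ W)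
    (hT : TwistOK ζ ε j τ W T) (hT' : TwistOK ζ ε j' τ W T') (n : ℤ) :
    (fun m => atwsdHat (T n) (sd.th (T' (-n) m))) =ᶠ[𝓝 sd.minf] sd.th := by
  obtain ⟨R, hR⟩ := atwsd_bdd S.ε_pos S.j_map (fun p hp => (S.j_ct p hp).1.continuousAt) hτ
  have h1 : sd.minf ∉ j' '' (W ∪ {p | p.2.1 = 0 ∧ |p.2.2| = ζ}) := by
    rintro ⟨w, hw | hw, h⟩
    · exact S.minf_ne w (atwsd_W_slab S.ε_pos hτ hw) h
    · refine S.minf_ne w ⟨?_, ?_⟩ h
      · rw [hw.1, abs_zero]
        exact S.ε_pos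
      · rw [hw.2]
        linarith [S.ε_pos]
  have h2 := (sd.continuousAt_th sd.minf_not).tendsto
  rw [sd.th_minf] at h2
  filter_upwards [hT'.closed.isOpen_compl.mem_nhds h1,
    sd.isClosed_core.isOpen_compl.mem_nhds sd.minf_not, h2.eventually (cai_far R)] with m a1 a2 a3
  have b1 : T' (-n) m = m := hT'.off _ _ fun h => a1 (image_mono subset_union_left h)
  have b2 := (sd.th_bij.1 a2).1
  rw [b1]
  by_cases hp : sd.th m = pole
  · rw [hp, atwsdHat_pole]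
  · have b3 : T n (cai (sd.th m)) = cai (sd.th m) :=
      hT.off _ _ fun h => absurd (hR _ h) (not_le.2 (a3 b2 hp))
    unfold atwsdHat
    rw [if_neg hp, b3, cay_cai b2 hp]

end Main

theorem exists_family {M : Type} [TopologicalSpace M] [ChartedSpace P3 M] [T2Space M]
    (hA : IsContactAtlas M) {L : ℝ → P3} (hL : IsLeg3 L) (sd : SD L M) {ζ ε ρ κ : ℝ}
    {j : P3 → P3} {j' : P3 → M} (S : Slabs sd ζ ε ρ κ j j') {τ : ℤ → P3 → P3} {W : Set P3}
    (hτ : TauOK ζ ε τ W) {T : ℤ → P3 → P3} (hT : TwistOK ζ ε j τ W T) {T' : ℤ → M → M}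
    (hT' : TwistOK ζ ε j' τ W T') (n : ℤ) :
    IsLeg3 (fun t => T n (L t)) ∧ ∃ sn : SD (fun t => T n (L t)) M,
      (sn.nu = fun p => T n (sd.nu p)) ∧ (sn.ns = fun p => T' n (sd.ns p)) ∧
        (sn.psi = fun p => T' n (sd.psi (T (-n) p))) ∧ sn.minf = sd.minf := by
  have hLn : IsLeg3 fun t => T n (L t) :=
    hL.map (fun t => atwsd_ct hT n fun c x h => (atwsd_mat S c x).1 ⟨t, h⟩)
      (atwsd_inj hT n).injOn
  refine ⟨hLn, ?_⟩
  obtain ⟨δ1, hδ1, m1⟩ := atwsd_shrink sd.r_pos sd.nu_tube.1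
    (fun p hp => (sd.nu_ct p hp).1.continuousAt)
    (atwsd_closed S.ζ_pos S.ε_pos S.j_map fun p hp => (S.j_ct p hp).1.continuousAt)
    (fun x ⟨c, y, h⟩ => (atwsd_mat S c y).1 ⟨x, (sd.nu_core x).symm.trans h⟩)
  obtain ⟨δ2, hδ2, m2⟩ := atwsd_shrink sd.r_pos sd.ns_tube.1 (fun p hp => (sd.ns_ct p hp).1)
    (atwsd_closed S.ζ_pos S.ε_pos S.j'_map fun p hp => (S.j'_ct p hp).1)
    (fun x ⟨c, y, h⟩ => sd.psi_not _ (atwsd_mat S c y).1 ⟨x, h.trans (atwsd_mat S c y).2⟩)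
  obtain ⟨l, hl0, hl1, hl2, hl3⟩ : ∃ l : ℝ, 0 < l ∧ l ≤ 1 ∧ l * sd.r ≤ δ1 ∧ l * sd.r ≤ δ2 := by
    have hr := sd.r_pos
    refine ⟨min 1 (min δ1 δ2 / sd.r), lt_min one_pos (div_pos (lt_min hδ1 hδ2) hr),
      min_le_left _ _, ?_, ?_⟩
    · exact ((le_div_iff₀ hr).1 (min_le_right _ _)).trans (min_le_left _ _)
    · exact ((le_div_iff₀ hr).1 (min_le_right _ _)).trans (min_le_right _ _)
  have hr0 : 0 < l * sd.r := mul_pos hl0 sd.r_pos
  have hsub : tube (l * sd.r) ⊆ tube sd.r :=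
    tube_mono hr0.le (mul_le_of_le_one_left sd.r_pos.le hl1)
  have hthpsi : ∀ p ∉ range fun t => T n (L t),
      atwsdHat (T n) (sd.th (T' (-n) (T' n (sd.psi (T (-n) p))))) = cay p := fun p hp => by
    rw [atwsd_inv hT', sd.th_psi _ fun h => hp ((atwsd_range hT n).2 h), atwsdHat_cay,
      atwsd_inv' hT]
  have hb1 : BijOn (T' (-n)) (range fun x : ℝ => T' n (sd.ns (x, 0, 0)))ᶜ
      (range fun x : ℝ => sd.ns (x, 0, 0))ᶜ := by
    refine ⟨fun m hm h => hm ((atwsd_range hT' n).2 h), (atwsd_inj hT' _).injOn, fun m hm => ?_⟩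
    refine ⟨T' n m, fun h => hm ?_, atwsd_inv hT' n m⟩
    have := (atwsd_range hT' n).1 h
    rwa [atwsd_inv hT'] at this
  have hb2 : BijOn (atwsdHat (T n)) (S3 \ range fun t => cay (L t))
      (S3 \ range fun t => cay (T n (L t))) := by
    refine InvOn.bijOn (f' := atwsdHat (T (-n)))
      ⟨fun q hq => atwsdHat_inv (atwsd_inv hT n) hq.1,
        fun q hq => atwsdHat_inv (atwsd_inv' hT n) hq.1⟩
      (atwsdHat_maps (K' := fun t => T n (L t)) fun p h => ?_)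
      (atwsdHat_maps (K := fun t => T n (L t)) fun p h => (atwsd_range hT n).2 h)
    have := (atwsd_range hT n).1 h
    rwa [atwsd_inv hT] at this
  refine ⟨{
    r := l * sd.r
    nu := fun p => T n (sd.nu p)
    ns := fun p => T' n (sd.ns p)
    th := fun m => atwsdHat (T n) (sd.th (T' (-n) m))
    psi := fun p => T' n (sd.psi (T (-n) p))
    minf := sd.minf
    A := sd.A
    B := sd.B
    r' := l * sd.r'
    r_pos := hr0
    r'_pos := mul_pos hl0 sd.r'_pos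
    r'_le := mul_le_mul_of_nonneg_left sd.r'_le hl0.le
    nu_tube := ⟨fun p => by simp only [sd.nu_tube.1 p], fun p hp q hq h =>
      sd.nu_tube.2 p (hsub hp) q (hsub hq) (atwsd_inj hT n h)⟩
    nu_ct := fun p hp => ?_
    nu_core := fun x => by simp only [sd.nu_core]
    ns_tube := ⟨fun p => by simp only [sd.ns_tube.1 p], fun p hp q hq h =>
      sd.ns_tube.2 p (hsub hp) q (hsub hq) (atwsd_inj hT' n h)⟩
    ns_ct := fun p hp => ?_
    th_bij := hb2.comp (sd.th_bij.comp hb1)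
    th_ct := fun m hm => ?_
    psi_not := fun p hp h => ?_
    th_psi := hthpsi
    psi_ct := fun p hp => atwsd_psi_ct hL S hτ hT hT' n hp
    minf_not := fun h => ?_
    th_minf := by rw [atwsd_minf S hτ hT', sd.th_minf, atwsdHat_pole]
    A_sm := sd.A_sm
    B_sm := sd.B_sm
    A_per := sd.A_per
    B_per := sd.B_per
    B_le := fun a => by
      rw [mul_assoc]
      exact mul_le_mul_of_nonneg_left (sd.B_le a) hl0.le
    glue := fun x a s h0 h1 => by
      rw [atwsd_inv hT', sd.glue x a s h0 (h1.trans_le (mul_le_of_le_one_left sd.r'_pos.le hl1)),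
        atwsdHat_cay] }, rfl, rfl, rfl, rfl⟩
  · refine ctInto_P3.1 (hT.ct n sd.nu p (fun c x h => m1 p (tube_mono hr0.le hl2 hp) ⟨c, x, h⟩)
      ?_).self_of_nhds
    exact ((isOpen_tube sd.r).eventually_mem (hsub hp)).mono fun q hq =>
      ctInto_P3.2 (sd.nu_ct q hq)
  · exact (hT'.ct n sd.ns p (fun c x h => m2 p (tube_mono hr0.le hl3 hp) ⟨c, x, h⟩)
      (((isOpen_tube sd.r).eventually_mem (hsub hp)).mono fun q hq => sd.ns_ct q hq)).self_of_nhds
  · by_cases hmi : m = sd.minf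
    · rw [hmi]
      exact (sd.th_ct _ sd.minf_not).congr (atwsd_chart (atwsd_th_near S hτ hT hT' n))
    · have h1 : T' (-n) m ≠ sd.minf := fun h => hmi (by
        rw [← atwsd_inv' hT' n m, h, atwsd_minf S hτ hT'])
      obtain ⟨h2, h3⟩ := sd.psi_cai (hb1.1 hm) h1
      generalize cai (sd.th (T' (-n) m)) = p0 at h2 h3
      have h4 : T n p0 ∉ range fun t => T n (L t) := fun h => by
        have := (atwsd_range hT n).1 h
        rw [atwsd_inv hT] at this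
        exact h2 this
      have h5 : m = T' n (sd.psi (T (-n) (T n p0))) := by
        rw [atwsd_inv hT, h3, atwsd_inv' hT']
      have h6 : ∀ᶠ q in 𝓝 (T n p0), q ∉ range fun t => T n (L t) :=
        hLn.isCompact.isClosed.isOpen_compl.mem_nhds h4
      rw [h5]
      exact ct4_of_param hA (G := fun m => atwsdHat (T n) (sd.th (T' (-n) m)))
        (F := fun p => T' n (sd.psi (T (-n) p)))
        (h6.mono fun q hq => atwsd_psi_ct hL S hτ hT hT' n hq)
        ((contactAt4_cay _).congr (h6.mono hthpsi))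
  · have h1 := (atwsd_range hT' n).1 h
    rw [atwsd_inv hT'] at h1
    exact sd.psi_not _ (fun h2 => hp ((atwsd_range hT n).2 h2)) h1
  · have h1 := (atwsd_range hT' n).1 h
    rw [atwsd_minf S hτ hT'] at h1
    exact sd.minf_not h1

end Pool.Agent.Lib.MP_4d7d0a_gt
end
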