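import Pool.Agent.Lib.MP_4d7d0a_gt.TB1

-- part Pool.Agent.Lib.MP_4d7d0a_gt.CertData
section

/-! The steps of the isotopy: each step lists the changed vertices (component, index, new
position); the start is `Wa` moved down and `Wb` moved up by 131072. -/

set_option autoImplicit false

namespace Pool.Agent.Lib.MP_4d7d0a_gt

def ch (c : Bool) (i : ℕ) (x y z : ℤ) : Bool × ℕ × Z3 := (c, i, x, y, z)

def cs0 : List (Bool × ℕ × Z3) :=
  [ch false 42 (-1) 8192 (-131072), ch false 43 1 (-8192) (-131072),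
   ch true 42 (-1) (-8192) 131072, ch true 43 1 8192 131072]

def cs1 : List (Bool × ℕ × Z3) :=
  [ch false 0 0 (-16384) (-114688), ch false 41 0 16384 (-114688), ch false 42 0 8192 (-114688),
   ch false 43 0 (-8192) (-114688), ch true 0 0 16384 114688, ch true 41 0 (-16384) 114688,
   ch true 42 0 (-8192) 114688, ch true 43 0 8192 114688]

def cs2 : List (Bool × ℕ × Z3) :=
  [ch true 17 (-456) 16384 (-3653632), ch true 18 (-456) (-16384) (-3653632),
   ch true 19 120 (-16384) (-13090816), ch true 20 120 16384 (-13090816)]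

def cs3 : List (Bool × ℕ × Z3) :=
  [ch true 33 (-536) 16384 1327104, ch true 34 (-536) (-16384) 1327104,
   ch true 35 (-456) (-16384) 16384, ch true 36 (-456) 16384 16384]

def cs4 : List (Bool × ℕ × Z3) :=
  [ch true 13 120 16384 (-6799360), ch true 14 120 (-16384) (-6799360),
   ch true 15 (-264) (-16384) (-507904), ch true 16 (-264) 16384 (-507904)]

def cs5 : List (Bool × ℕ × Z3) :=
  [ch true 29 (-264) 16384 1589248, ch true 30 (-264) (-16384) 1589248,
   ch true 31 (-392) (-16384) 3686400, ch true 32 (-392) 16384 3686400]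

def cs6 : List (Bool × ℕ × Z3) :=
  [ch false 0 (-32) (-16384) (-638976), ch false 1 192 (-16384) (-4308992),
   ch false 2 192 (-8192) (-4308992), ch false 3 192 8192 (-4308992),
   ch false 4 192 16384 (-4308992), ch false 41 (-32) 16384 (-638976),
   ch false 42 (-32) 8192 (-638976), ch false 43 (-32) (-8192) (-638976)]

def cs7 : List (Bool × ℕ × Z3) :=
  [ch true 0 25 16384 524288, ch true 37 (-200) 16384 4210688, ch true 38 (-200) 8192 4210688,
   ch true 39 (-200) (-8192) 4210688, ch true 40 (-200) (-16384) 4210688,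
   ch true 41 25 (-16384) 524288, ch true 42 25 (-8192) 524288, ch true 43 25 8192 524288]

def cs8 : List (Bool × ℕ × Z3) :=
  [ch true 9 248 16384 (-507904), ch true 10 248 (-16384) (-507904),
   ch true 11 376 (-16384) (-2605056), ch true 12 376 16384 (-2605056)]

def cs9 : List (Bool × ℕ × Z3) :=
  [ch true 21 632 16384 (-4702208), ch true 22 632 (-16384) (-4702208),
   ch true 23 248 (-16384) 1589248, ch true 24 248 16384 1589248]

def cs10 : List (Bool × ℕ × Z3) :=
  [ch true 1 281 16384 4718592, ch true 2 281 (-16384) 4718592,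
   ch true 3 632 (-16384) (-1032192), ch true 4 632 16384 (-1032192)]

def cs11 : List (Bool × ℕ × Z3) :=
  [ch true 25 440 16384 4734976, ch true 26 440 (-16384) 4734976,
   ch true 27 184 (-16384) 8929280, ch true 28 184 16384 8929280]

def cs12 : List (Bool × ℕ × Z3) :=
  [ch true 5 776 16384 1327104, ch true 6 776 (-16384) 1327104, ch true 7 568 (-16384) 4734976,
   ch true 8 568 16384 4734976]

def cs13 : List (Bool × ℕ × Z3) :=
  [ch true 19 128 (-16384) (-13221888), ch true 20 128 16384 (-13221888),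
   ch true 21 640 16384 (-4833280), ch true 22 640 (-16384) (-4833280)]

def cs14 : List (Bool × ℕ × Z3) :=
  [ch true 3 640 (-16384) (-1163264), ch true 4 640 16384 (-1163264),
   ch true 5 784 16384 1196032, ch true 6 784 (-16384) 1196032]

def cs15 : List (Bool × ℕ × Z3) :=
  [ch true 11 384 (-16384) (-2736128), ch true 12 384 16384 (-2736128),
   ch true 13 128 16384 (-6930432), ch true 14 128 (-16384) (-6930432)]

def cs16 : List (Bool × ℕ × Z3) :=
  [ch true 7 576 (-16384) 4603904, ch true 8 576 16384 4603904, ch true 9 256 16384 (-638976),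
   ch true 10 256 (-16384) (-638976)]

def cs17 : List (Bool × ℕ × Z3) :=
  [ch true 23 256 (-16384) 1458176, ch true 24 256 16384 1458176, ch true 25 448 16384 4603904,
   ch true 26 448 (-16384) 4603904]

def cs18 : List (Bool × ℕ × Z3) :=
  [ch false 0 0 (-16384) (-1163264), ch false 39 (-256) (-16384) (-5357568),
   ch false 40 (-256) 16384 (-5357568), ch false 41 0 16384 (-1163264),
   ch false 42 0 8192 (-1163264), ch false 43 0 (-8192) (-1163264)]

def cs19 : List (Bool × ℕ × Z3) :=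
  [ch true 0 0 16384 933888, ch true 1 256 16384 5128192, ch true 2 256 (-16384) 5128192,
   ch true 41 0 (-16384) 933888, ch true 42 0 (-8192) 933888, ch true 43 0 8192 933888]

def cs20 : List (Bool × ℕ × Z3) :=
  [ch true 15 (-256) (-16384) (-638976), ch true 16 (-256) 16384 (-638976),
   ch true 17 (-448) 16384 (-3784704), ch true 18 (-448) (-16384) (-3784704)]

def cs21 : List (Bool × ℕ × Z3) :=
  [ch true 27 192 (-16384) 8798208, ch true 28 192 16384 8798208,
   ch true 29 (-256) 16384 1458176, ch true 30 (-256) (-16384) 1458176]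

def cs22 : List (Bool × ℕ × Z3) :=
  [ch true 35 (-448) (-16384) (-114688), ch true 36 (-448) 16384 (-114688),
   ch true 37 (-192) 16384 4079616, ch true 38 (-192) 8192 4079616,
   ch true 39 (-192) (-8192) 4079616, ch true 40 (-192) (-16384) 4079616]

def cs23 : List (Bool × ℕ × Z3) :=
  [ch true 31 (-384) (-16384) 3555328, ch true 32 (-384) 16384 3555328,
   ch true 33 (-528) 16384 1196032, ch true 34 (-528) (-16384) 1196032]

def cs24 : List (Bool × ℕ × Z3) :=
  [ch true 0 96 16384 (-638976), ch true 1 352 16384 3555328, ch true 2 352 (-16384) 3555328,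
   ch true 41 96 (-16384) (-638976), ch true 42 96 (-8192) (-638976),
   ch true 43 96 8192 (-638976)]

def cs25 : List (Bool × ℕ × Z3) :=
  [ch false 0 (-64) (-16384) (-114688), ch false 39 (-320) (-16384) (-4308992),
   ch false 40 (-320) 16384 (-4308992), ch false 41 (-64) 16384 (-114688),
   ch false 42 (-64) 8192 (-114688), ch false 43 (-64) (-8192) (-114688)]

def cs26 : List (Bool × ℕ × Z3) :=
  [ch true 0 64 16384 (-114688), ch true 1 320 16384 4079616, ch true 2 320 (-16384) 4079616,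
   ch true 41 64 (-16384) (-114688), ch true 42 64 (-8192) (-114688),
   ch true 43 64 8192 (-114688)]

def cs27 : List (Bool × ℕ × Z3) :=
  [ch false 31 288 (-16384) 6701056, ch false 32 288 16384 6701056,
   ch false 33 (-160) 16384 (-638976), ch false 34 (-160) (-16384) (-638976),
   ch true 27 288 (-16384) 7225344, ch true 28 288 16384 7225344,
   ch true 29 (-160) 16384 (-114688), ch true 30 (-160) (-16384) (-114688)]

def cs28 : List (Bool × ℕ × Z3) :=
  [ch false 19 (-320) (-16384) (-114688), ch false 20 (-320) 16384 (-114688),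
   ch false 21 (-512) 16384 (-3260416), ch false 22 (-512) (-16384) (-3260416),
   ch true 15 (-320) (-16384) 409600, ch true 16 (-320) 16384 409600,
   ch true 17 (-512) 16384 (-2736128), ch true 18 (-512) (-16384) (-2736128)]

def cs29 : List (Bool × ℕ × Z3) :=
  [ch false 31 256 (-16384) 7225344, ch false 32 256 16384 7225344,
   ch false 33 (-192) 16384 (-114688), ch false 34 (-192) (-16384) (-114688),
   ch true 27 256 (-16384) 7749632, ch true 28 256 16384 7749632, ch true 29 (-192) 16384 409600,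
   ch true 30 (-192) (-16384) 409600]

def cs30 : List (Bool × ℕ × Z3) :=
  [ch false 0 (-160) (-16384) (-1687552), ch false 1 96 (-16384) (-5881856),
   ch false 2 96 (-8192) (-5881856), ch false 3 96 8192 (-5881856),
   ch false 4 96 16384 (-5881856), ch false 41 (-160) 16384 (-1687552),
   ch false 42 (-160) 8192 (-1687552), ch false 43 (-160) (-8192) (-1687552)]

def cs31 : List (Bool × ℕ × Z3) :=
  [ch false 33 (-128) 16384 933888, ch false 34 (-128) (-16384) 933888,
   ch false 35 (-320) (-16384) 4079616, ch false 36 (-320) 16384 4079616,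
   ch true 29 (-128) 16384 1458176, ch true 30 (-128) (-16384) 1458176,
   ch true 31 (-320) (-16384) 4603904, ch true 32 (-320) 16384 4603904]

def cs32 : List (Bool × ℕ × Z3) :=
  [ch false 0 (-128) (-16384) (-1163264), ch false 1 128 (-16384) (-5357568),
   ch false 2 128 (-8192) (-5357568), ch false 3 128 8192 (-5357568),
   ch false 4 128 16384 (-5357568), ch false 41 (-128) 16384 (-1163264),
   ch false 42 (-128) 8192 (-1163264), ch false 43 (-128) (-8192) (-1163264)]

def cs33 : List (Bool × ℕ × Z3) :=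
  [ch false 31 352 (-16384) 5652480, ch false 32 352 16384 5652480,
   ch false 33 (-32) 16384 (-638976), ch false 34 (-32) (-16384) (-638976),
   ch true 27 352 (-16384) 6176768, ch true 28 352 16384 6176768,
   ch true 29 (-32) 16384 (-114688), ch true 30 (-32) (-16384) (-114688)]

def cs34 : List (Bool × ℕ × Z3) :=
  [ch false 0 (-192) (-16384) (-114688), ch false 39 (-384) (-16384) (-3260416),
   ch false 40 (-384) 16384 (-3260416), ch false 41 (-192) 16384 (-114688),
   ch false 42 (-192) 8192 (-114688), ch false 43 (-192) (-8192) (-114688)]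

def cs35 : List (Bool × ℕ × Z3) :=
  [ch false 31 320 (-16384) 6176768, ch false 32 320 16384 6176768,
   ch false 33 (-64) 16384 (-114688), ch false 34 (-64) (-16384) (-114688),
   ch true 27 320 (-16384) 6701056, ch true 28 320 16384 6701056, ch true 29 (-64) 16384 409600,
   ch true 30 (-64) (-16384) 409600]

def cs36 : List (Bool × ℕ × Z3) :=
  [ch true 0 64 16383 (-114432), ch true 1 320 16383 4079616, ch true 40 (-192) (-16383) 4079616,
   ch true 41 64 (-16383) (-114432), ch true 42 64 (-8192) (-114432),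
   ch true 43 64 8192 (-114432)]

def cs37 : List (Bool × ℕ × Z3) :=
  [ch false 31 416 (-16384) 4603904, ch false 32 416 16384 4603904,
   ch false 33 32 16384 (-1687552), ch false 34 32 (-16384) (-1687552),
   ch true 27 416 (-16384) 5128192, ch true 28 416 16384 5128192, ch true 29 32 16384 (-1163264),
   ch true 30 32 (-16384) (-1163264)]

def cs38 : List (Bool × ℕ × Z3) :=
  [ch true 0 64 16384 (-114688), ch true 1 320 16384 4079616, ch true 40 (-192) (-16384) 4079616,
   ch true 41 64 (-16384) (-114688), ch true 42 64 (-8192) (-114688),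
   ch true 43 64 8192 (-114688)]

def cs39 : List (Bool × ℕ × Z3) :=
  [ch true 0 0 16384 933888, ch true 1 256 16384 5128192, ch true 2 256 (-16384) 5128192,
   ch true 41 0 (-16384) 933888, ch true 42 0 (-8192) 933888, ch true 43 0 8192 933888]

def cs40 : List (Bool × ℕ × Z3) :=
  [ch false 31 384 (-16384) 5128192, ch false 32 384 16384 5128192,
   ch false 33 0 16384 (-1163264), ch false 34 0 (-16384) (-1163264),
   ch true 27 384 (-16384) 5652480, ch true 28 384 16384 5652480, ch true 29 0 16384 (-638976),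
   ch true 30 0 (-16384) (-638976)]

def cs41 : List (Bool × ℕ × Z3) :=
  [ch true 36 (-448) 16381 (-114688), ch true 37 (-192) 16381 4078848,
   ch true 38 (-192) 8192 4078848, ch true 39 (-192) (-8192) 4078848,
   ch true 40 (-192) (-16380) 4078848, ch true 41 0 (-16380) 933888]

def cs42 : List (Bool × ℕ × Z3) :=
  [ch false 33 96 16384 409600, ch false 34 96 (-16384) 409600,
   ch false 35 (-224) (-16384) 5652480, ch false 36 (-224) 16384 5652480,
   ch true 29 96 16384 933888, ch true 30 96 (-16384) 933888, ch true 31 (-224) (-16384) 6176768,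
   ch true 32 (-224) 16384 6176768]

def cs43 : List (Bool × ℕ × Z3) :=
  [ch true 36 (-448) 16384 (-114688), ch true 37 (-192) 16384 4079616,
   ch true 38 (-192) 8192 4079616, ch true 39 (-192) (-8192) 4079616,
   ch true 40 (-192) (-16384) 4079616, ch true 41 0 (-16384) 933888]

def cs44 : List (Bool × ℕ × Z3) :=
  [ch true 0 (-64) 16384 (-114688), ch true 37 (-256) 16384 3031040,
   ch true 38 (-256) 8192 3031040, ch true 39 (-256) (-8192) 3031040,
   ch true 40 (-256) (-16384) 3031040, ch true 41 (-64) (-16384) (-114688),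
   ch true 42 (-64) (-8192) (-114688), ch true 43 (-64) 8192 (-114688)]

def cs45 : List (Bool × ℕ × Z3) :=
  [ch false 33 64 16384 (-114688), ch false 34 64 (-16384) (-114688),
   ch false 35 (-256) (-16384) 5128192, ch false 36 (-256) 16384 5128192,
   ch true 29 64 16384 409600, ch true 30 64 (-16384) 409600, ch true 31 (-256) (-16384) 5652480,
   ch true 32 (-256) 16384 5652480]

def cs46 : List (Bool × ℕ × Z3) :=
  [ch false 28 256 16385 933888, ch false 29 448 16385 4079808, ch false 30 448 (-16381) 4079808,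
   ch false 31 384 (-16381) 5128192, ch true 24 256 16385 1458176, ch true 25 448 16385 4604096,
   ch true 26 448 (-16381) 4604096, ch true 27 384 (-16381) 5652480]

def cs47 : List (Bool × ℕ × Z3) :=
  [ch true 1 352 16384 6701056, ch true 2 352 (-16384) 6701056, ch true 3 736 (-16384) 409600,
   ch true 4 736 16384 409600]

def cs48 : List (Bool × ℕ × Z3) :=
  [ch false 28 256 16384 933888, ch false 29 448 16384 4079616, ch false 30 448 (-16384) 4079616,
   ch false 31 384 (-16384) 5128192, ch true 24 256 16384 1458176, ch true 25 448 16384 4603904,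
   ch true 26 448 (-16384) 4603904, ch true 27 384 (-16384) 5652480]

def cs49 : List (Bool × ℕ × Z3) :=
  [ch false 29 384 16384 3031040, ch false 30 384 (-16384) 3031040,
   ch false 31 320 (-16384) 4079616, ch false 32 320 16384 4079616, ch true 25 384 16384 3555328,
   ch true 26 384 (-16384) 3555328, ch true 27 320 (-16384) 4603904, ch true 28 320 16384 4603904]

def cs50 : List (Bool × ℕ × Z3) :=
  [ch true 1 320 16384 6176768, ch true 2 320 (-16384) 6176768, ch true 3 704 (-16384) (-114688),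
   ch true 4 704 16384 (-114688)]

def cs51 : List (Bool × ℕ × Z3) :=
  [ch false 30 384 (-16380) 3031040, ch false 31 320 (-16380) 4079360,
   ch false 32 320 16383 4079360, ch false 33 64 16383 (-114688),
   ch true 26 384 (-16380) 3555328, ch true 27 320 (-16380) 4603648,
   ch true 28 320 16383 4603648, ch true 29 64 16383 409600]

def cs52 : List (Bool × ℕ × Z3) :=
  [ch true 0 32 16384 (-1687552), ch true 1 416 16384 4603904, ch true 2 416 (-16384) 4603904,
   ch true 41 32 (-16384) (-1687552), ch true 42 32 (-8192) (-1687552),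
   ch true 43 32 8192 (-1687552)]

def cs53 : List (Bool × ℕ × Z3) :=
  [ch false 30 384 (-16384) 3031040, ch false 31 320 (-16384) 4079616,
   ch false 32 320 16384 4079616, ch false 33 64 16384 (-114688),
   ch true 26 384 (-16384) 3555328, ch true 27 320 (-16384) 4603904,
   ch true 28 320 16384 4603904, ch true 29 64 16384 409600]

def cs54 : List (Bool × ℕ × Z3) :=
  [ch false 31 256 (-16384) 5128192, ch false 32 256 16384 5128192, ch false 33 0 16384 933888,
   ch false 34 0 (-16384) 933888, ch true 27 256 (-16384) 5652480, ch true 28 256 16384 5652480,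
   ch true 29 0 16384 1458176, ch true 30 0 (-16384) 1458176]

def cs55 : List (Bool × ℕ × Z3) :=
  [ch true 0 0 16384 (-1163264), ch true 1 384 16384 5128192, ch true 2 384 (-16384) 5128192,
   ch true 41 0 (-16384) (-1163264), ch true 42 0 (-8192) (-1163264),
   ch true 43 0 8192 (-1163264)]

def cs56 : List (Bool × ℕ × Z3) :=
  [ch false 26 640 (-16385) (-5357568), ch false 27 256 (-16385) 934272,
   ch false 28 256 16381 934272, ch false 29 384 16381 3031040,
   ch true 22 640 (-16385) (-4833280), ch true 23 256 (-16385) 1458560,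
   ch true 24 256 16381 1458560, ch true 25 384 16381 3555328]

def cs57 : List (Bool × ℕ × Z3) :=
  [ch true 0 96 16384 (-2736128), ch true 1 480 16384 3555328, ch true 2 480 (-16384) 3555328,
   ch true 41 96 (-16384) (-2736128), ch true 42 96 (-8192) (-2736128),
   ch true 43 96 8192 (-2736128)]

def cs58 : List (Bool × ℕ × Z3) :=
  [ch false 26 640 (-16384) (-5357568), ch false 27 256 (-16384) 933888,
   ch false 28 256 16384 933888, ch false 29 384 16384 3031040,
   ch true 22 640 (-16384) (-4833280), ch true 23 256 (-16384) 1458176,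
   ch true 24 256 16384 1458176, ch true 25 384 16384 3555328]

def cs59 : List (Bool × ℕ × Z3) :=
  [ch false 27 192 (-16384) 1982464, ch false 28 192 16384 1982464,
   ch false 29 320 16384 4079616, ch false 30 320 (-16384) 4079616,
   ch true 23 192 (-16384) 2506752, ch true 24 192 16384 2506752, ch true 25 320 16384 4603904,
   ch true 26 320 (-16384) 4603904]

def cs60 : List (Bool × ℕ × Z3) :=
  [ch true 0 64 16384 (-2211840), ch true 1 448 16384 4079616, ch true 2 448 (-16384) 4079616,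
   ch true 41 64 (-16384) (-2211840), ch true 42 64 (-8192) (-2211840),
   ch true 43 64 8192 (-2211840)]

def cs61 : List (Bool × ℕ × Z3) :=
  [ch true 1 352 16384 2506752, ch true 2 352 (-16384) 2506752,
   ch true 3 608 (-16384) (-1687552), ch true 4 608 16384 (-1687552)]

def cs62 : List (Bool × ℕ × Z3) :=
  [ch false 29 384 16384 5128192, ch false 30 384 (-16384) 5128192,
   ch false 31 320 (-16384) 6176768, ch false 32 320 16384 6176768, ch true 25 384 16384 5652480,
   ch true 26 384 (-16384) 5652480, ch true 27 320 (-16384) 6701056, ch true 28 320 16384 6701056]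

def cs63 : List (Bool × ℕ × Z3) :=
  [ch true 1 384 16384 3031040, ch true 2 384 (-16384) 3031040,
   ch true 3 640 (-16384) (-1163264), ch true 4 640 16384 (-1163264)]

def cs64 : List (Bool × ℕ × Z3) :=
  [ch false 13 160 16384 (-2736128), ch false 14 160 (-16384) (-2736128),
   ch false 15 288 (-16384) (-4833280), ch false 16 288 16384 (-4833280),
   ch true 9 160 16384 (-2211840), ch true 10 160 (-16384) (-2211840),
   ch true 11 288 (-16384) (-4308992), ch true 12 288 16384 (-4308992)]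

def cs65 : List (Bool × ℕ × Z3) :=
  [ch false 33 64 16384 1982464, ch false 34 64 (-16384) 1982464,
   ch false 35 (-192) (-16384) 6176768, ch false 36 (-192) 16384 6176768,
   ch true 29 64 16384 2506752, ch true 30 64 (-16384) 2506752,
   ch true 31 (-192) (-16384) 6701056, ch true 32 (-192) 16384 6701056]

def cs66 : List (Bool × ℕ × Z3) :=
  [ch false 13 192 16384 (-2211840), ch false 14 192 (-16384) (-2211840),
   ch false 15 320 (-16384) (-4308992), ch false 16 320 16384 (-4308992),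
   ch true 9 192 16384 (-1687552), ch true 10 192 (-16384) (-1687552),
   ch true 11 320 (-16384) (-3784704), ch true 12 320 16384 (-3784704)]

def cs67 : List (Bool × ℕ × Z3) :=
  [ch false 13 96 16384 (-3784704), ch false 14 96 (-16384) (-3784704),
   ch false 15 224 (-16384) (-5881856), ch false 16 224 16384 (-5881856),
   ch true 9 96 16384 (-3260416), ch true 10 96 (-16384) (-3260416),
   ch true 11 224 (-16384) (-5357568), ch true 12 224 16384 (-5357568)]

def cs68 : List (Bool × ℕ × Z3) :=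
  [ch true 0 128 16384 (-1163264), ch true 37 (-192) 16384 4079616,
   ch true 38 (-192) 8192 4079616, ch true 39 (-192) (-8192) 4079616,
   ch true 40 (-192) (-16384) 4079616, ch true 41 128 (-16384) (-1163264),
   ch true 42 128 (-8192) (-1163264), ch true 43 128 8192 (-1163264)]

def cs69 : List (Bool × ℕ × Z3) :=
  [ch false 13 128 16384 (-3260416), ch false 14 128 (-16384) (-3260416),
   ch false 15 256 (-16384) (-5357568), ch false 16 256 16384 (-5357568),
   ch true 9 128 16384 (-2736128), ch true 10 128 (-16384) (-2736128),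
   ch true 11 256 (-16384) (-4833280), ch true 12 256 16384 (-4833280)]

def cs70 : List (Bool × ℕ × Z3) :=
  [ch true 0 128 16379 (-1161984), ch true 1 384 16379 3031040,
   ch true 40 (-192) (-16380) 4079616, ch true 41 128 (-16380) (-1161984),
   ch true 42 128 (-8192) (-1161984), ch true 43 128 8192 (-1161984)]

def cs71 : List (Bool × ℕ × Z3) :=
  [ch false 11 480 (-16384) 5652480, ch false 12 480 16384 5652480,
   ch false 13 32 16384 (-1687552), ch false 14 32 (-16384) (-1687552),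
   ch true 7 480 (-16384) 6176768, ch true 8 480 16384 6176768, ch true 9 32 16384 (-1163264),
   ch true 10 32 (-16384) (-1163264)]

def cs72 : List (Bool × ℕ × Z3) :=
  [ch true 0 128 16384 (-1163264), ch true 1 384 16384 3031040,
   ch true 40 (-192) (-16384) 4079616, ch true 41 128 (-16384) (-1163264),
   ch true 42 128 (-8192) (-1163264), ch true 43 128 8192 (-1163264)]

def cs73 : List (Bool × ℕ × Z3) :=
  [ch true 0 192 16384 (-2211840), ch true 1 448 16384 1982464, ch true 2 448 (-16384) 1982464,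
   ch true 41 192 (-16384) (-2211840), ch true 42 192 (-8192) (-2211840),
   ch true 43 192 8192 (-2211840)]

def cs74 : List (Bool × ℕ × Z3) :=
  [ch false 11 512 (-16384) 5128192, ch false 12 512 16384 5128192,
   ch false 13 64 16384 (-2211840), ch false 14 64 (-16384) (-2211840),
   ch true 7 512 (-16384) 5652480, ch true 8 512 16384 5652480, ch true 9 64 16384 (-1687552),
   ch true 10 64 (-16384) (-1687552)]

def cs75 : List (Bool × ℕ × Z3) :=
  [ch false 0 (-192) (-16381) (-115648), ch false 1 128 (-16381) (-5357568),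
   ch false 40 (-384) 16379 (-3260416), ch false 41 (-192) 16379 (-115648),
   ch false 42 (-192) 8192 (-115648), ch false 43 (-192) (-8192) (-115648)]

def cs76 : List (Bool × ℕ × Z3) :=
  [ch false 17 224 16384 (-5881856), ch false 18 224 (-16384) (-5881856),
   ch false 19 (-224) (-16384) 1458176, ch false 20 (-224) 16384 1458176,
   ch true 13 224 16384 (-5357568), ch true 14 224 (-16384) (-5357568),
   ch true 15 (-224) (-16384) 1982464, ch true 16 (-224) 16384 1982464]

def cs77 : List (Bool × ℕ × Z3) :=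
  [ch false 0 (-192) (-16384) (-114688), ch false 1 128 (-16384) (-5357568),
   ch false 40 (-384) 16384 (-3260416), ch false 41 (-192) 16384 (-114688),
   ch false 42 (-192) 8192 (-114688), ch false 43 (-192) (-8192) (-114688)]

def cs78 : List (Bool × ℕ × Z3) :=
  [ch false 0 (-256) (-16384) (-1163264), ch false 1 64 (-16384) (-6406144),
   ch false 2 64 (-8192) (-6406144), ch false 3 64 8192 (-6406144),
   ch false 4 64 16384 (-6406144), ch false 41 (-256) 16384 (-1163264),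
   ch false 42 (-256) 8192 (-1163264), ch false 43 (-256) (-8192) (-1163264)]

def cs79 : List (Bool × ℕ × Z3) :=
  [ch false 17 192 16384 (-6406144), ch false 18 192 (-16384) (-6406144),
   ch false 19 (-256) (-16384) 933888, ch false 20 (-256) 16384 933888,
   ch true 13 192 16384 (-5881856), ch true 14 192 (-16384) (-5881856),
   ch true 15 (-256) (-16384) 1458176, ch true 16 (-256) 16384 1458176]

def cs80 : List (Bool × ℕ × Z3) :=
  [ch false 38 (-576) (-16382) (-114688), ch false 39 (-384) (-16382) (-3260032),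
   ch false 40 (-384) 16381 (-3260032), ch false 41 (-256) 16381 (-1163264)]

def cs81 : List (Bool × ℕ × Z3) :=
  [ch false 19 (-160) (-16384) (-638976), ch false 20 (-160) 16384 (-638976),
   ch false 21 (-416) 16384 (-4833280), ch false 22 (-416) (-16384) (-4833280),
   ch true 15 (-160) (-16384) (-114688), ch true 16 (-160) 16384 (-114688),
   ch true 17 (-416) 16384 (-4308992), ch true 18 (-416) (-16384) (-4308992)]

def cs82 : List (Bool × ℕ × Z3) :=
  [ch false 38 (-576) (-16384) (-114688), ch false 39 (-384) (-16384) (-3260416),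
   ch false 40 (-384) 16384 (-3260416), ch false 41 (-256) 16384 (-1163264)]

def cs83 : List (Bool × ℕ × Z3) :=
  [ch false 0 (-320) (-16384) (-114688), ch false 39 (-448) (-16384) (-2211840),
   ch false 40 (-448) 16384 (-2211840), ch false 41 (-320) 16384 (-114688),
   ch false 42 (-320) 8192 (-114688), ch false 43 (-320) (-8192) (-114688)]

def cs84 : List (Bool × ℕ × Z3) :=
  [ch false 19 (-192) (-16384) (-114688), ch false 20 (-192) 16384 (-114688),
   ch false 21 (-448) 16384 (-4308992), ch false 22 (-448) (-16384) (-4308992),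
   ch true 15 (-192) (-16384) 409600, ch true 16 (-192) 16384 409600,
   ch true 17 (-448) 16384 (-3784704), ch true 18 (-448) (-16384) (-3784704)]

def cs85 : List (Bool × ℕ × Z3) :=
  [ch false 14 64 (-16385) (-2211840), ch false 15 256 (-16385) (-5357760),
   ch false 16 256 16381 (-5357760), ch false 17 192 16381 (-6406144),
   ch true 10 64 (-16385) (-1687552), ch true 11 256 (-16385) (-4833472),
   ch true 12 256 16381 (-4833472), ch true 13 192 16381 (-5881856)]

def cs86 : List (Bool × ℕ × Z3) :=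
  [ch false 1 160 (-16384) (-7979008), ch false 2 160 (-8192) (-7979008),
   ch false 3 160 8192 (-7979008), ch false 4 160 16384 (-7979008),
   ch false 5 544 16384 (-1687552), ch false 6 544 (-16384) (-1687552)]

def cs87 : List (Bool × ℕ × Z3) :=
  [ch false 14 64 (-16384) (-2211840), ch false 15 256 (-16384) (-5357568),
   ch false 16 256 16384 (-5357568), ch false 17 192 16384 (-6406144),
   ch true 10 64 (-16384) (-1687552), ch true 11 256 (-16384) (-4833280),
   ch true 12 256 16384 (-4833280), ch true 13 192 16384 (-5881856)]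

def cs88 : List (Bool × ℕ × Z3) :=
  [ch false 15 192 (-16384) (-4308992), ch false 16 192 16384 (-4308992),
   ch false 17 128 16384 (-5357568), ch false 18 128 (-16384) (-5357568),
   ch true 11 192 (-16384) (-3784704), ch true 12 192 16384 (-3784704),
   ch true 13 128 16384 (-4833280), ch true 14 128 (-16384) (-4833280)]

def cs89 : List (Bool × ℕ × Z3) :=
  [ch false 1 128 (-16384) (-7454720), ch false 2 128 (-8192) (-7454720),
   ch false 3 128 8192 (-7454720), ch false 4 128 16384 (-7454720),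
   ch false 5 512 16384 (-1163264), ch false 6 512 (-16384) (-1163264)]

def cs90 : List (Bool × ℕ × Z3) :=
  [ch true 0 288 16384 (-3784704), ch true 1 544 16384 409600, ch true 2 544 (-16384) 409600,
   ch true 41 288 (-16384) (-3784704), ch true 42 288 (-8192) (-3784704),
   ch true 43 288 8192 (-3784704)]

def cs91 : List (Bool × ℕ × Z3) :=
  [ch false 15 128 (-16384) (-3260416), ch false 16 128 16384 (-3260416),
   ch false 17 64 16384 (-4308992), ch false 18 64 (-16384) (-4308992),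
   ch true 11 128 (-16384) (-2736128), ch true 12 128 16384 (-2736128),
   ch true 13 64 16384 (-3784704), ch true 14 64 (-16384) (-3784704)]

def cs92 : List (Bool × ℕ × Z3) :=
  [ch true 0 256 16384 (-3260416), ch true 1 512 16384 933888, ch true 2 512 (-16384) 933888,
   ch true 41 256 (-16384) (-3260416), ch true 42 256 (-8192) (-3260416),
   ch true 43 256 8192 (-3260416)]

def cs93 : List (Bool × ℕ × Z3) :=
  [ch false 12 512 16385 5128192, ch false 13 64 16385 (-2212288),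
   ch false 14 64 (-16377) (-2212288), ch false 15 128 (-16377) (-3260416),
   ch true 8 512 16385 5652480, ch true 9 64 16385 (-1688000), ch true 10 64 (-16377) (-1688000),
   ch true 11 128 (-16377) (-2736128)]

def cs94 : List (Bool × ℕ × Z3) :=
  [ch true 0 160 16384 (-4833280), ch true 37 (-288) 16384 2506752,
   ch true 38 (-288) 8192 2506752, ch true 39 (-288) (-8192) 2506752,
   ch true 40 (-288) (-16384) 2506752, ch true 41 160 (-16384) (-4833280),
   ch true 42 160 (-8192) (-4833280), ch true 43 160 8192 (-4833280)]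

def cs95 : List (Bool × ℕ × Z3) :=
  [ch false 12 512 16384 5128192, ch false 13 64 16384 (-2211840),
   ch false 14 64 (-16384) (-2211840), ch false 15 128 (-16384) (-3260416),
   ch true 8 512 16384 5652480, ch true 9 64 16384 (-1687552), ch true 10 64 (-16384) (-1687552),
   ch true 11 128 (-16384) (-2736128)]

def cs96 : List (Bool × ℕ × Z3) :=
  [ch false 13 128 16384 (-1163264), ch false 14 128 (-16384) (-1163264),
   ch false 15 192 (-16384) (-2211840), ch false 16 192 16384 (-2211840),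
   ch true 9 128 16384 (-638976), ch true 10 128 (-16384) (-638976),
   ch true 11 192 (-16384) (-1687552), ch true 12 192 16384 (-1687552)]

def cs97 : List (Bool × ℕ × Z3) :=
  [ch true 0 192 16384 (-4308992), ch true 37 (-256) 16384 3031040,
   ch true 38 (-256) 8192 3031040, ch true 39 (-256) (-8192) 3031040,
   ch true 40 (-256) (-16384) 3031040, ch true 41 192 (-16384) (-4308992),
   ch true 42 192 (-8192) (-4308992), ch true 43 192 8192 (-4308992)]

def cs98 : List (Bool × ℕ × Z3) :=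
  [ch false 16 192 16382 (-2211840), ch false 17 64 16382 (-4308736),
   ch false 18 64 (-16383) (-4308736), ch false 19 (-192) (-16383) (-114688),
   ch true 12 192 16382 (-1687552), ch true 13 64 16382 (-3784448),
   ch true 14 64 (-16383) (-3784448), ch true 15 (-192) (-16383) 409600]

def cs99 : List (Bool × ℕ × Z3) :=
  [ch true 0 96 16384 (-5881856), ch true 37 (-352) 16384 1458176,
   ch true 38 (-352) 8192 1458176, ch true 39 (-352) (-8192) 1458176,
   ch true 40 (-352) (-16384) 1458176, ch true 41 96 (-16384) (-5881856),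
   ch true 42 96 (-8192) (-5881856), ch true 43 96 8192 (-5881856)]

def cs100 : List (Bool × ℕ × Z3) :=
  [ch false 16 192 16384 (-2211840), ch false 17 64 16384 (-4308992),
   ch false 18 64 (-16384) (-4308992), ch false 19 (-192) (-16384) (-114688),
   ch true 12 192 16384 (-1687552), ch true 13 64 16384 (-3784704),
   ch true 14 64 (-16384) (-3784704), ch true 15 (-192) (-16384) 409600]

def cs101 : List (Bool × ℕ × Z3) :=
  [ch false 17 128 16384 (-3260416), ch false 18 128 (-16384) (-3260416),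
   ch false 19 (-128) (-16384) 933888, ch false 20 (-128) 16384 933888,
   ch true 13 128 16384 (-2736128), ch true 14 128 (-16384) (-2736128),
   ch true 15 (-128) (-16384) 1458176, ch true 16 (-128) 16384 1458176]

def cs102 : List (Bool × ℕ × Z3) :=
  [ch true 0 128 16384 (-5357568), ch true 37 (-320) 16384 1982464,
   ch true 38 (-320) 8192 1982464, ch true 39 (-320) (-8192) 1982464,
   ch true 40 (-320) (-16384) 1982464, ch true 41 128 (-16384) (-5357568),
   ch true 42 128 (-8192) (-5357568), ch true 43 128 8192 (-5357568)]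

def cs103 : List (Bool × ℕ × Z3) :=
  [ch true 33 (-576) 16384 409600, ch true 34 (-576) (-16384) 409600,
   ch true 35 (-496) (-16384) (-901120), ch true 36 (-496) 16384 (-901120)]

def cs104 : List (Bool × ℕ × Z3) :=
  [ch true 35 (-448) (-16384) (-1687552), ch true 36 (-448) 16384 (-1687552),
   ch true 37 (-272) 16384 1196032, ch true 38 (-272) 8192 1196032,
   ch true 39 (-272) (-8192) 1196032, ch true 40 (-272) (-16384) 1196032]

def cs105 : List (Bool × ℕ × Z3) :=
  [ch true 0 80 16384 (-6144000), ch true 37 (-320) 16384 409600, ch true 38 (-320) 8192 409600,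
   ch true 39 (-320) (-8192) 409600, ch true 40 (-320) (-16384) 409600,
   ch true 41 80 (-16384) (-6144000), ch true 42 80 (-8192) (-6144000),
   ch true 43 80 8192 (-6144000)]

def cs106 : List (Bool × ℕ × Z3) :=
  [ch true 0 128 16384 (-6930432), ch true 1 560 16384 147456, ch true 2 560 (-16384) 147456,
   ch true 41 128 (-16384) (-6930432), ch true 42 128 (-8192) (-6930432),
   ch true 43 128 8192 (-6930432)]

def cs107 : List (Bool × ℕ × Z3) :=
  [ch true 1 512 16384 (-638976), ch true 2 512 (-16384) (-638976),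
   ch true 3 592 (-16384) (-1949696), ch true 4 592 16384 (-1949696)]

def cs108 : List (Bool × ℕ × Z3) :=
  [ch true 3 640 (-16384) (-2736128), ch true 4 640 16384 (-2736128), ch true 5 832 16384 409600,
   ch true 6 832 (-16384) 409600]

def certSteps : List (List (Bool × ℕ × Z3)) :=
  [cs0, cs1, cs2, cs3, cs4, cs5, cs6, cs7, cs8, cs9, cs10, cs11, cs12, cs13,
   cs14, cs15, cs16, cs17, cs18, cs19, cs20, cs21, cs22, cs23, cs24, cs25, cs26, cs27,
   cs28, cs29, cs30, cs31, cs32, cs33, cs34, cs35, cs36, cs37, cs38, cs39, cs40, cs41,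
   cs42, cs43, cs44, cs45, cs46, cs47, cs48, cs49, cs50, cs51, cs52, cs53, cs54, cs55,
   cs56, cs57, cs58, cs59, cs60, cs61, cs62, cs63, cs64, cs65, cs66, cs67, cs68, cs69,
   cs70, cs71, cs72, cs73, cs74, cs75, cs76, cs77, cs78, cs79, cs80, cs81, cs82, cs83,
   cs84, cs85, cs86, cs87, cs88, cs89, cs90, cs91, cs92, cs93, cs94, cs95, cs96, cs97,
   cs98, cs99, cs100, cs101, cs102, cs103, cs104, cs105, cs106, cs107, cs108]

end Pool.Agent.Lib.MP_4d7d0a_gt
end

-- part Pool.Agent.Lib.MP_4d7d0a_gt.DAlgG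
section

/-! The group theory of the Dehn presentation. -/

set_option autoImplicit false

namespace Pool.Agent.Lib.MP_4d7d0a_gt

namespace DAlgG

variable {G : Type} [Group G]

/-- the rewriting rules of free reduction -/
theorem nf : (∀ a b c : G, a * b * c = a * (b * c)) ∧ (∀ a b : G, (a * b)⁻¹ = b⁻¹ * a⁻¹) ∧
    (∀ a : G, a⁻¹⁻¹ = a) ∧ (∀ a b : G, a * (a⁻¹ * b) = b) ∧ (∀ a b : G, a⁻¹ * (a * b) = b) ∧
    (∀ a : G, 1 * a = a) ∧ (∀ a : G, a * 1 = a) ∧ (1 : G)⁻¹ = 1 ∧ (∀ a : G, a * a⁻¹ = 1) ∧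
    ∀ a : G, a⁻¹ * a = 1 :=
  ⟨mul_assoc, mul_inv_rev, inv_inv, mul_inv_cancel_left, inv_mul_cancel_left, one_mul, mul_one,
    inv_one, mul_inv_cancel, inv_mul_cancel⟩

theorem key {R w : G} (c : G) (h : R = 1) (e : w = c * R * c⁻¹) : w = 1 := by
  rw [e, h, mul_one, mul_inv_cancel]

theorem keyi {R w : G} (c : G) (h : R = 1) (e : w = c * R⁻¹ * c⁻¹) : w = 1 := by
  rw [e, h, inv_one, mul_one, mul_inv_cancel]

theorem sol {R v w : G} (c : G) (h : R = 1) (e : v = c * R * c⁻¹ * w) : v = w := by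
  rw [e, h, mul_one, mul_inv_cancel, one_mul]

theorem soli {R v w : G} (c : G) (h : R = 1) (e : v = c * R⁻¹ * c⁻¹ * w) : v = w := by
  rw [e, h, inv_one, mul_one, mul_inv_cancel, one_mul]

theorem step {R u w : G} (c d : G) (h : R = 1) (h' : u = 1)
    (e : w = c * R * c⁻¹ * (d * u * d⁻¹)) : w = 1 := by
  rw [e, h, h']
  simp

theorem stepi {R u w : G} (c d : G) (h : R = 1) (h' : u = 1)
    (e : w = c * R⁻¹ * c⁻¹ * (d * u * d⁻¹)) : w = 1 := by
  rw [e, h, h']
  simp

/-- the first relator -/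
def r1 (x y z : G) : G := z⁻¹ * x * y * x⁻¹ * y⁻¹ * z * x * y⁻¹ * x⁻¹

/-- the second relator -/
def r2 (x y z : G) : G := y⁻¹ * x * y * x⁻¹ * y⁻¹ * z * x * y * y * x * y * x⁻¹ * z⁻¹ * y⁻¹ *
      y⁻¹ * x⁻¹ * z⁻¹ * y * x * y⁻¹

/-- the word `X` in the three generators -/
def xX (x y z : G) : G := x * y * y * x * y * x⁻¹ * z⁻¹ * x * y * x⁻¹ * y⁻¹ * z * x * y⁻¹ *
      x⁻¹ * y⁻¹ * z * x * y⁻¹ * x⁻¹ * y⁻¹ * y⁻¹ * x⁻¹ * z⁻¹ * y * x * y⁻¹ * x⁻¹ * y * x * y *
      x⁻¹ * y⁻¹ * z

/-- the word `Y` in the three generators -/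
def xY (x y z : G) : G := x * y * y * x * y * x⁻¹ * z⁻¹ * x * y * x⁻¹ * y * x⁻¹ * y⁻¹ * z

/-- the word `mu` in the three generators -/
def xM (x y z : G) : G := x * y * y * x * y * x⁻¹ * z⁻¹ * y⁻¹ * y⁻¹ * x⁻¹

theorem elim (w1 w2 w3 w4 w5 w6 w7 w8 w9 w10 w11 w12 w13 w14 w15
    w16 w17 w18 w19 w20 w21 w22 w23 w24 w25 w26 w27 w28 w29 : G)
    (h0 : w1 * w2⁻¹ * w3 = 1)
    (h1 : w2 * w5⁻¹ * w7 * w3⁻¹ = 1)
    (h2 : w3 * w7⁻¹ * w4 = 1)
    (h3 : w4 * w8⁻¹ * w10 = 1)
    (h4 : w2 * w6⁻¹ * w7 * w5⁻¹ = 1)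
    (h5 : w6 * w26⁻¹ * w4 * w7⁻¹ = 1)
    (h6 : w4 * w9⁻¹ * w10 * w8⁻¹ = 1)
    (h7 : w9 * w11⁻¹ * w10⁻¹ = 1)
    (h8 : w4 * w26⁻¹ * w27 * w9⁻¹ = 1)
    (h9 : w9 * w27⁻¹ * w11⁻¹ = 1)
    (h10 : w6 * w2⁻¹ * w12 * w26⁻¹ = 1)
    (h11 : w26 * w12⁻¹ * w13 * w24⁻¹ = 1)
    (h12 : w12 * w2⁻¹ * w14 * w13⁻¹ = 1)
    (h13 : w13 * w14⁻¹ * w15 * w24⁻¹ = 1)
    (h14 : w1 * w16 * w2⁻¹ = 1)
    (h15 : w2 * w16⁻¹ * w17 * w14⁻¹ = 1)
    (h16 : w14 * w17⁻¹ * w18 * w15⁻¹ = 1)
    (h17 : w15 * w18⁻¹ * w19 * w24⁻¹ = 1)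
    (h18 : w16 * w20 * w17⁻¹ = 1)
    (h19 : w17 * w20⁻¹ * w21 * w18⁻¹ = 1)
    (h20 : w18 * w21⁻¹ * w22 * w19⁻¹ = 1)
    (h21 : w19 * w22⁻¹ * w23 * w24⁻¹ = 1)
    (h22 : w20 * w28⁻¹ * w29 * w21⁻¹ = 1)
    (h23 : w21 * w29⁻¹ * w22⁻¹ = 1)
    (h24 : w22 * w25 * w23⁻¹ = 1)
    (h25 : w23 * w25⁻¹ * w26 * w24⁻¹ = 1)
    (h26 : w25 * w27 * w26⁻¹ = 1)
    (h27 : w20 * w29 * w28⁻¹ = 1) :
    r1 w24 w26 w5 = 1 ∧ r2 w24 w26 w5 = 1 ∧
      w24 * w26 * w4⁻¹ * w8 * w2 * w26⁻¹ * w11 * w4⁻¹ * w10⁻¹ * w9 * w27⁻¹ * w24⁻¹ * w1⁻¹ *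
      w7⁻¹ * w6 * w2⁻¹ * w24 * w29⁻¹ * w20⁻¹ * w24 * w28 * w24⁻¹ * w5 = xX w24 w26 w5 ∧
      w24 * w26 * w4⁻¹ * w8 * w2 * w28 * w24⁻¹ * w5 = xY w24 w26 w5 ∧ w5⁻¹ * w7 = xM w24 w26 w5 ∧
      ∀ H : Subgroup G, w24 ∈ H → w26 ∈ H → w5 ∈ H → w1 ∈ H ∧ w2 ∈ H ∧ w3 ∈ H ∧ w4 ∈ H ∧
      w6 ∈ H ∧ w7 ∈ H ∧ w8 ∈ H ∧ w9 ∈ H ∧ w10 ∈ H ∧ w11 ∈ H ∧ w12 ∈ H ∧ w13 ∈ H ∧ w14 ∈ H ∧
      w15 ∈ H ∧ w16 ∈ H ∧ w17 ∈ H ∧ w18 ∈ H ∧ w19 ∈ H ∧ w20 ∈ H ∧ w21 ∈ H ∧ w22 ∈ H ∧ w23 ∈ H ∧
      w25 ∈ H ∧ w27 ∈ H ∧ w28 ∈ H ∧ w29 ∈ H := by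
  have e23 : w23 = w22 * w25 := soli (1) h24 (by simp only [nf])
  subst e23
  clear h24
  replace h21 : w19 * w25 * w24⁻¹ = 1 := key (1) h21 (by simp only [nf])
  replace h25 : w22 * w26 * w24⁻¹ = 1 := key (1) h25 (by simp only [nf])
  have e3 : w3 = w2 * w5⁻¹ * w7 := soli (1) h1 (by simp only [nf])
  subst e3
  clear h1
  replace h0 : w1 * w5⁻¹ * w7 = 1 := key (1) h0 (by simp only [nf])
  replace h2 : w2 * w5⁻¹ * w4 = 1 := key (1) h2 (by simp only [nf])
  have e6 : w6 = w7 * w5⁻¹ * w2 := soli (w7 * w5⁻¹) h4 (by simp only [nf])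
  subst e6
  clear h4
  replace h5 : w5⁻¹ * w2 * w26⁻¹ * w4 = 1 := key (w7⁻¹) h5 (by simp only [nf])
  replace h10 : w7 * w5⁻¹ * w12 * w26⁻¹ = 1 := key (1) h10 (by simp only [nf])
  have e12 : w12 = w13 * w24⁻¹ * w26 := soli (w13 * w24⁻¹) h11 (by simp only [nf])
  subst e12
  clear h11
  replace h10 : w7 * w5⁻¹ * w13 * w24⁻¹ = 1 := key (1) h10 (by simp only [nf])
  replace h12 : w24⁻¹ * w26 * w2⁻¹ * w14 = 1 := key (w13⁻¹) h12 (by simp only [nf])
  have e16 : w16 = w17 * w14⁻¹ * w2 := soli (w17 * w14⁻¹) h15 (by simp only [nf])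
  subst e16
  clear h15
  replace h14 : w1 * w17 * w14⁻¹ = 1 := key (1) h14 (by simp only [nf])
  replace h18 : w14⁻¹ * w2 * w20 = 1 := key (w17⁻¹) h18 (by simp only [nf])
  have e17 : w17 = w18 * w15⁻¹ * w14 := soli (w18 * w15⁻¹) h16 (by simp only [nf])
  subst e17
  clear h16
  replace h14 : w1 * w18 * w15⁻¹ = 1 := key (1) h14 (by simp only [nf])
  replace h19 : w15⁻¹ * w14 * w20⁻¹ * w21 = 1 := key (w18⁻¹) h19 (by simp only [nf])
  have e18 : w18 = w19 * w24⁻¹ * w15 := soli (w19 * w24⁻¹) h17 (by simp only [nf])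
  subst e18
  clear h17
  replace h14 : w1 * w19 * w24⁻¹ = 1 := key (1) h14 (by simp only [nf])
  replace h20 : w24⁻¹ * w15 * w21⁻¹ * w22 = 1 := key (w19⁻¹) h20 (by simp only [nf])
  have e14 : w14 = w2 * w20 := soli (w2 * w20) h18 (by simp only [nf])
  subst e14
  clear h18
  replace h12 : w24⁻¹ * w26 * w20 = 1 := key (1) h12 (by simp only [nf])
  replace h13 : w13 * w20⁻¹ * w2⁻¹ * w15 * w24⁻¹ = 1 := key (1) h13 (by simp only [nf])
  replace h19 : w15⁻¹ * w2 * w21 = 1 := key (1) h19 (by simp only [nf])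
  have e15 : w15 = w2 * w21 := soli (w2 * w21) h19 (by simp only [nf])
  subst e15
  clear h19
  replace h13 : w13 * w20⁻¹ * w21 * w24⁻¹ = 1 := key (1) h13 (by simp only [nf])
  replace h20 : w24⁻¹ * w2 * w22 = 1 := key (1) h20 (by simp only [nf])
  have e21 : w21 = w20 * w28⁻¹ * w29 := soli (1) h22 (by simp only [nf])
  subst e21
  clear h22
  replace h13 : w13 * w28⁻¹ * w29 * w24⁻¹ = 1 := key (1) h13 (by simp only [nf])
  replace h23 : w20 * w28⁻¹ * w22⁻¹ = 1 := key (1) h23 (by simp only [nf])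
  have e10 : w10 = w9 * w11⁻¹ := soli (1) h7 (by simp only [nf])
  subst e10
  clear h7
  replace h3 : w4 * w8⁻¹ * w9 * w11⁻¹ = 1 := key (1) h3 (by simp only [nf])
  replace h6 : w4 * w11⁻¹ * w8⁻¹ = 1 := key (1) h6 (by simp only [nf])
  have e9 : w9 = w11 * w27 := sol (1) h9 (by simp only [nf])
  subst e9
  clear h9
  replace h3 : w4 * w8⁻¹ * w11 * w27 * w11⁻¹ = 1 := key (1) h3 (by simp only [nf])
  replace h8 : w4 * w26⁻¹ * w11⁻¹ = 1 := key (1) h8 (by simp only [nf])
  have e1 : w1 = w7⁻¹ * w5 := sol (1) h0 (by simp only [nf])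
  subst e1
  clear h0
  replace h14 : w7⁻¹ * w5 * w19 * w24⁻¹ = 1 := key (1) h14 (by simp only [nf])
  have e8 : w8 = w11 * w27 * w11⁻¹ * w4 := soli (w11 * w27 * w11⁻¹) h3 (by simp only [nf])
  subst e8
  clear h3
  replace h6 : w4 * w11⁻¹ * w4⁻¹ * w11 * w27⁻¹ * w11⁻¹ = 1 := key (1) h6 (by simp only [nf])
  have e11 : w11 = w4 * w26⁻¹ := soli (1) h8 (by simp only [nf])
  subst e11
  clear h8
  replace h6 : w26 * w4⁻¹ * w26⁻¹ * w27⁻¹ * w26 = 1 := key (w4⁻¹) h6 (by simp only [nf])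
  have e27 : w27 = w26 * w26 * w4⁻¹ * w26⁻¹ := soli (w26) h6 (by simp only [nf])
  subst e27
  clear h6
  replace h26 : w25 * w26 * w26 * w4⁻¹ * w26⁻¹ * w26⁻¹ = 1 := key (1) h26 (by simp only [nf])
  have e13 : w13 = w5 * w7⁻¹ * w24 := sol (w5 * w7⁻¹) h10 (by simp only [nf])
  subst e13
  clear h10
  replace h13 : w5 * w7⁻¹ * w24 * w28⁻¹ * w29 * w24⁻¹ = 1 := key (1) h13 (by simp only [nf])
  have e7 : w7 = w24 * w28⁻¹ * w29 * w24⁻¹ * w5 := soli (w24 * w28⁻¹ * w29 *
      w24⁻¹) h13 (by simp only [nf])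
  subst e7
  clear h13
  replace h14 : w5⁻¹ * w24 * w29⁻¹ * w28 * w24⁻¹ * w5 * w19 * w24⁻¹ = 1 :=
      key (1) h14 (by simp only [nf])
  have e19 : w19 = w5⁻¹ * w24 * w28⁻¹ * w29 * w24⁻¹ * w5 * w24 := sol (w5⁻¹ * w24 * w28⁻¹ *
      w29 * w24⁻¹ * w5) h14 (by simp only [nf])
  subst e19
  clear h14
  replace h21 : w5⁻¹ * w24 * w28⁻¹ * w29 * w24⁻¹ * w5 * w24 * w25 * w24⁻¹ = 1 :=
      key (1) h21 (by simp only [nf])
  have e25 : w25 = w24⁻¹ * w5⁻¹ * w24 * w29⁻¹ * w28 * w24⁻¹ * w5 * w24 := sol (w24⁻¹ * w5⁻¹ *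
      w24 * w29⁻¹ * w28 * w24⁻¹ * w5) h21 (by simp only [nf])
  subst e25
  clear h21
  replace h26 : w24⁻¹ * w5⁻¹ * w24 * w29⁻¹ * w28 * w24⁻¹ * w5 * w24 * w26 * w26 * w4⁻¹ *
      w26⁻¹ * w26⁻¹ = 1 := key (1) h26 (by simp only [nf])
  have e29 : w29 = w28 * w24⁻¹ * w5 * w24 * w26 * w26 * w4⁻¹ * w26⁻¹ * w26⁻¹ * w24⁻¹ * w5⁻¹ *
      w24 := soli (w28 * w24⁻¹ * w5 * w24 * w26 * w26 * w4⁻¹ * w26⁻¹ *
      w26⁻¹) h26 (by simp only [nf])
  subst e29
  clear h26
  replace h27 : w20 * w28 * w24⁻¹ * w5 * w24 * w26 * w26 * w4⁻¹ * w26⁻¹ * w26⁻¹ * w24⁻¹ *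
      w5⁻¹ * w24 * w28⁻¹ = 1 := key (1) h27 (by simp only [nf])
  have e2 : w2 = w4⁻¹ * w5 := sol (1) h2 (by simp only [nf])
  subst e2
  clear h2
  replace h5 : w5⁻¹ * w4⁻¹ * w5 * w26⁻¹ * w4 = 1 := key (1) h5 (by simp only [nf])
  replace h20 : w24⁻¹ * w4⁻¹ * w5 * w22 = 1 := key (1) h20 (by simp only [nf])
  have e20 : w20 = w26⁻¹ * w24 := sol (w26⁻¹ * w24) h12 (by simp only [nf])
  subst e20
  clear h12
  replace h23 : w26⁻¹ * w24 * w28⁻¹ * w22⁻¹ = 1 := key (1) h23 (by simp only [nf])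
  replace h27 : w26⁻¹ * w24 * w28 * w24⁻¹ * w5 * w24 * w26 * w26 * w4⁻¹ * w26⁻¹ * w26⁻¹ *
      w24⁻¹ * w5⁻¹ * w24 * w28⁻¹ = 1 := key (1) h27 (by simp only [nf])
  have e28 : w28 = w22⁻¹ * w26⁻¹ * w24 := soli (w22⁻¹) h23 (by simp only [nf])
  subst e28
  clear h23
  replace h27 : w26⁻¹ * w24 * w22⁻¹ * w26⁻¹ * w5 * w24 * w26 * w26 * w4⁻¹ * w26⁻¹ * w26⁻¹ *
      w24⁻¹ * w5⁻¹ * w26 * w22 = 1 := key (1) h27 (by simp only [nf])
  have e4 : w4 = w5 * w22 * w24⁻¹ := soli (w5 * w22) h20 (by simp only [nf])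
  subst e4
  clear h20
  replace h5 : w5⁻¹ * w24 * w22⁻¹ * w26⁻¹ * w5 * w22 * w24⁻¹ = 1 := key (1) h5 (by simp only [nf])
  replace h27 : w26⁻¹ * w24 * w22⁻¹ * w26⁻¹ * w5 * w24 * w26 * w26 * w24 * w22⁻¹ * w5⁻¹ *
      w26⁻¹ * w26⁻¹ * w24⁻¹ * w5⁻¹ * w26 * w22 = 1 := key (1) h27 (by simp only [nf])
  have e22 : w22 = w24 * w26⁻¹ := sol (1) h25 (by simp only [nf])
  subst e22
  clear h25
  replace h5 : w5⁻¹ * w24 * w26 * w24⁻¹ * w26⁻¹ * w5 * w24 * w26⁻¹ * w24⁻¹ = 1 :=
      key (1) h5 (by simp only [nf])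
  replace h27 : w26⁻¹ * w24 * w26 * w24⁻¹ * w26⁻¹ * w5 * w24 * w26 * w26 * w24 * w26 * w24⁻¹ *
      w5⁻¹ * w26⁻¹ * w26⁻¹ * w24⁻¹ * w5⁻¹ * w26 * w24 * w26⁻¹ = 1 :=
      key (1) h27 (by simp only [nf])
  refine ⟨h5, h27, by unfold xX; simp only [nf], by unfold xY; simp only [nf], by unfold xM; simp only [nf]
      ,
    fun H hx hy hz => ?_⟩
  simp only [H.mul_mem_cancel_left, H.mul_mem_cancel_right, inv_mem_iff, hx, hy, hz,
    and_self]

theorem struct {x m z : G} (h1 : r1 x m z = 1) (h2 : r2 x m z = 1)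
    (h3 : xX x m z * xM x m z = 1) : ∃ a b : G, m * a * m = a ∧ b ^ 3 = (m⁻¹ * b) ^ 3 ∧
      a ^ 2 * m ^ 5 = b ^ 3 := by
  obtain ⟨b, hb⟩ : ∃ b, b = z * x * m * m * m := ⟨_, rfl⟩
  obtain ⟨a, ha⟩ : ∃ a, a = b * x := ⟨_, rfl⟩
  have hx : x = b⁻¹ * a := by rw [ha]; simp only [nf]
  have hz : z = b * m⁻¹ * m⁻¹ * m⁻¹ * a⁻¹ * b := by rw [ha, hb]; simp only [nf]
  clear ha hb
  subst hx
  subst hz
  unfold r1 at h1
  unfold r2 at h2
  unfold xX xM at h3
  have r1 : b⁻¹ * b⁻¹ * a * m * a⁻¹ * b * m⁻¹ * b * m⁻¹ = 1 := key (m⁻¹ * m⁻¹ * m⁻¹ * a⁻¹ *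
      b) h1 (by simp only [nf])
  have r2 : m⁻¹ * b⁻¹ * a * m * a⁻¹ * b * m⁻¹ * b * m⁻¹ * b⁻¹ * a * m * m * m * m * b⁻¹ * m *
      b⁻¹ * m * b⁻¹ * a * m⁻¹ = 1 := key (1) h2 (by simp only [nf])
  have l0 : b⁻¹ * a * m * m * m * m * b⁻¹ * b⁻¹ * a * m * a⁻¹ * b * m⁻¹ * b * m⁻¹ * m⁻¹ * m⁻¹ *
      m⁻¹ * a⁻¹ * b * m⁻¹ * b * m⁻¹ * m⁻¹ * m⁻¹ * m⁻¹ * a⁻¹ * b * m * b⁻¹ * m * b⁻¹ * a * m⁻¹ *
      a⁻¹ * b * m * b⁻¹ * a * m * a⁻¹ * b * m⁻¹ * b * m⁻¹ * b⁻¹ * a * m * m * m * m * b⁻¹ = 1 :=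
      key (m⁻¹ * m⁻¹ * a⁻¹ * b) h3 (by simp only [nf])
  have l1 : a⁻¹ * b * m⁻¹ * b * m⁻¹ * m⁻¹ * m⁻¹ * m⁻¹ * a⁻¹ * b * m * b⁻¹ * m * b⁻¹ * a * m⁻¹ *
      a⁻¹ * b * m * b⁻¹ * a * m * a⁻¹ * b * m⁻¹ * b * m⁻¹ * b⁻¹ * a * m * m * m * m * b⁻¹ *
      b⁻¹ * a * m = 1 := stepi (m * m * m) (m⁻¹ * a⁻¹ * b) r1 l0 (by simp only [nf])
  have l2 : a⁻¹ * b * m * b⁻¹ * m * b⁻¹ * a * m⁻¹ * a⁻¹ * b * m * b⁻¹ * a * m * a⁻¹ * b * m⁻¹ *
      b * m⁻¹ * b⁻¹ * a * m = 1 := stepi (m * m * m) (m⁻¹ * a⁻¹ * b * m * b⁻¹ * m * b⁻¹ * a *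
      m⁻¹ * a⁻¹ * b * m⁻¹ * b⁻¹ * a * m * a⁻¹ * b * m⁻¹ * b * m⁻¹ * b⁻¹ * a * m * m * m * m *
      b⁻¹ * m * b⁻¹ * a) r1 l1 (by simp only [nf])
  have l3 : a * m * a⁻¹ * b * m * b⁻¹ * m * b⁻¹ * a * m⁻¹ * a⁻¹ * b * m = 1 := stepi (b⁻¹ * a *
      m * a⁻¹ * b * m⁻¹ * b * m⁻¹) (m⁻¹ * b⁻¹ * a * m * a⁻¹ * b * m⁻¹ * b * m⁻¹ * b⁻¹ *
      a) r1 l2 (by simp only [nf])
  have l4 : m * a * m * a⁻¹ = 1 := step (b) (a * m⁻¹ * a⁻¹) r1 l3 (by simp only [nf])
  have s1 : a * m * m * m * m * b⁻¹ * m * b⁻¹ * m * b⁻¹ * a * m⁻¹ * m⁻¹ = 1 := stepi (b⁻¹ * a *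
      m * a⁻¹ * b * m⁻¹ * b * m⁻¹) (m) r1 r2 (by simp only [nf])
  have s2 : b⁻¹ * b⁻¹ * a * m⁻¹ * a * m * m * m * m * b⁻¹ = 1 := step (1) (b * m⁻¹ * m⁻¹ *
      m⁻¹ * m⁻¹ * a⁻¹) r1 s1 (by simp only [nf])
  have e1 : m * a * m = a := sol 1 l4 (by simp only [nf])
  have e2 : b⁻¹ * b⁻¹ * m⁻¹ * b * m⁻¹ * b * m⁻¹ = 1 :=
    stepi (b⁻¹ * b⁻¹ * a * m * a⁻¹) 1 l4 r1 (by simp only [nf])
  have e3 : b⁻¹ * b⁻¹ * b⁻¹ * a * a * m * m * m * m * m = 1 :=
    step (b⁻¹ * b⁻¹ * b⁻¹ * a * m⁻¹) b⁻¹ l4 s2 (by simp only [nf])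
  refine ⟨a, b, e1, ?_, ?_⟩
  · exact soli (m⁻¹ * b * m⁻¹ * b * m⁻¹) e2 (by simp only [pow_succ, pow_zero, nf])
  · exact sol (b * b * b) e3 (by simp only [pow_succ, pow_zero, nf])

theorem braid {x z : G} (h2 : r2 x 1 z = 1) : x * z * x = z * x * z :=
  sol (z * x * z * x⁻¹ * z⁻¹) h2 (by unfold r2; simp only [nf])

theorem xX_one (x z : G) : xX x 1 z = x * z * x⁻¹ := by
  unfold xX
  simp only [nf]

theorem xY_one (x z : G) : xY x 1 z = x * z⁻¹ * x⁻¹ * z := by
  unfold xY
  simp only [nf]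

end DAlgG

end Pool.Agent.Lib.MP_4d7d0a_gt
end
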