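import Pool.Agent.Lib.MP_4d7d0a_gt.Real
import Pool.Agent.Lib.MP_4d7d0a_gt.DAlgG

-- part Pool.Agent.Lib.MP_4d7d0a_gt.Emb
section

/-! Embeddedness of families of rounded polygons. -/

set_option autoImplicit false

open Set Filter Topology
open scoped ContDiff

namespace Pool.Agent.Lib.MP_4d7d0a_gt

/-- the control points of the edge starting at `i` -/
noncomputable def ctrl (W : ℤ → P3) (i : ℤ) (a : Fin 3) : P3 :=
  if a = 0 then W i else if a = 2 then W (i + 1) else
    (((W i).1 + (W (i + 1)).1) / 2, ((W i).2.1 + (W (i + 1)).2.1) / 2,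
      (W i).2.2 + (W i).2.1 * ((W (i + 1)).1 - (W i).1) / 2)

/-- a functional separates the edges at both ends of the step -/
def SepE (W W' : ℤ → P3) (i : ℤ) (V V' : ℤ → P3) (j : ℤ) : Prop :=
  ∃ f : P3 →ₗ[ℝ] ℝ, ∀ a b, f (ctrl W i a) < f (ctrl V j b) ∧ f (ctrl W' i a) < f (ctrl V' j b)

/-- a planar covector is positive on both edges at the vertex `i` at both ends of the step -/
def CornerOK (W W' : ℤ → P3) (i : ℤ) : Prop :=
  ∃ a b : ℝ, ∀ V, V = W ∨ V = W' →
    0 < a * ((V i).1 - (V (i - 1)).1) + b * ((V i).2.1 - (V (i - 1)).2.1) ∧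
      0 < a * ((V (i + 1)).1 - (V i).1) + b * ((V (i + 1)).2.1 - (V i).2.1)

/-- the control points move linearly -/
def LinOK (W W' : ℤ → P3) (i : ℤ) : Prop :=
  (W' (i + 1)).1 - (W' i).1 = (W (i + 1)).1 - (W i).1 ∨
    ((W' i).2.1 = (W i).2.1 ∧ (W' (i + 1)).2.1 = (W (i + 1)).2.1)

/-- one linear step between two-component links -/
def StepOK (L L' : Bool → List Z3) : Prop :=
  (∀ c, 4 ≤ (L c).length ∧ (L' c).length = (L c).length ∧ Rel (cyc (L c)) ∧ Rel (cyc (L' c)) ∧
    (∀ i, CornerOK (cyc (L c)) (cyc (L' c)) i ∧ LinOK (cyc (L c)) (cyc (L' c)) i) ∧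
    ∀ i j : ℤ, i + 2 ≤ j → j + 2 ≤ i + (L c).length →
      SepE (cyc (L c)) (cyc (L' c)) i (cyc (L c)) (cyc (L' c)) j) ∧
  ∀ i j : ℤ, SepE (cyc (L false)) (cyc (L' false)) i (cyc (L true)) (cyc (L' true)) j

namespace EmbAux

/-- linear interpolation of vertex sequences -/
noncomputable def mix (W W' : ℤ → P3) (s : ℝ) (i : ℤ) : P3 := (1 - s) • W i + s • W' i

/-- an admissible linear motion between sequences with finitely many values -/
structure Mv (W W' : ℤ → P3) : Prop where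
  r : Rel W
  r' : Rel W'
  lin : ∀ i, LinOK W W' i
  fin : (range W).Finite
  fin' : (range W').Finite

theorem mix_zero (W W' : ℤ → P3) : mix W W' 0 = W := by
  funext i; simp [mix]

theorem mix_one (W W' : ℤ → P3) : mix W W' 1 = W' := by
  funext i; simp [mix]

theorem mix_self (W : ℤ → P3) (s : ℝ) : mix W W s = W := by
  funext i; rw [mix, ← add_smul, sub_add_cancel, one_smul]

theorem mix_shift (W : ℤ → P3) (h s : ℝ) :
    mix W (fun k => W k + (0, 0, h)) s = fun k => W k + (0, 0, s * h) := by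
  funext i
  refine Prod.ext ?_ (Prod.ext ?_ ?_) <;> simp [mix] <;> ring

theorem Mv.rel {W W' : ℤ → P3} (h : Mv W W') (s : ℝ) : Rel (mix W W' s) := by
  intro i
  have h1 := h.r i
  have h2 := h.r' i
  simp only [mix, Prod.fst_add, Prod.snd_add, Prod.smul_fst, Prod.smul_snd, smul_eq_mul]
  rcases h.lin i with k | ⟨k, k'⟩
  · linear_combination (1 - s) * h1 + s * h2 +
      s * (1 - s) * ((W' i).2.1 + (W' (i + 1)).2.1 - (W i).2.1 - (W (i + 1)).2.1) * k
  · rw [k, k'] at h2 ⊢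
    linear_combination (1 - s) * h1 + s * h2

theorem Mv.ctrl {W W' : ℤ → P3} (h : Mv W W') (s : ℝ) (i : ℤ) (a : Fin 3) :
    ctrl (mix W W' s) i a = (1 - s) • ctrl W i a + s • ctrl W' i a := by
  unfold MP_4d7d0a_gt.ctrl
  split_ifs
  · rfl
  · rfl
  · refine Prod.ext ?_ (Prod.ext ?_ ?_) <;>
      simp only [mix, Prod.fst_add, Prod.snd_add, Prod.smul_fst, Prod.smul_snd, smul_eq_mul]
    · ring
    · ring
    · rcases h.lin i with k | ⟨k, -⟩
      · linear_combination s * (1 - s) * ((W i).2.1 - (W' i).2.1) / 2 * k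
      · rw [k]; ring

theorem Mv.bdd {W W' : ℤ → P3} (h : Mv W W') :
    ∃ C : ℝ, ∀ s ∈ Icc (0 : ℝ) 1, ∀ i, ‖mix W W' s i‖ ≤ C := by
  obtain ⟨C, hC⟩ := (h.fin.union h.fin').isBounded.exists_norm_le
  refine ⟨C, fun s hs i => (norm_add_le _ _).trans ?_⟩
  have h1 := hC _ (Or.inl ⟨i, rfl⟩)
  have h2 := hC _ (Or.inr ⟨i, rfl⟩)
  rw [norm_smul, norm_smul, Real.norm_of_nonneg hs.1, Real.norm_of_nonneg (sub_nonneg.2 hs.2)]
  nlinarith [hs.1, hs.2]

theorem edge_ctrl {X : ℤ → P3} (h : Rel X) (i : ℤ) (u : ℝ) : edge (X i) (X (i + 1)) u =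
    (1 - u) ^ 2 • ctrl X i 0 + (2 * u * (1 - u)) • ctrl X i 1 + u ^ 2 • ctrl X i 2 := by
  have h1 := h i
  refine Prod.ext ?_ (Prod.ext ?_ ?_) <;> simp [edge, ctrl]
  · ring
  · ring
  · linear_combination (-u ^ 2 / 2) * h1

theorem bez {p : Fin 3 → ℝ} {m u : ℝ} (hu : u ∈ Icc (0 : ℝ) 1) (h : ∀ a, m ≤ p a) :
    m ≤ (1 - u) ^ 2 * p 0 + 2 * u * (1 - u) * p 1 + u ^ 2 * p 2 := by
  have h0 := mul_le_mul_of_nonneg_left (h 0) (sq_nonneg (1 - u))
  have h1 := mul_le_mul_of_nonneg_left (h 1)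
    (mul_nonneg (mul_nonneg zero_le_two hu.1) (sub_nonneg.2 hu.2))
  have h2 := mul_le_mul_of_nonneg_left (h 2) (sq_nonneg u)
  linarith

theorem gap {W W' V V' : ℤ → P3} (hW : Mv W W') (hV : Mv V V') {i j : ℤ}
    (h : SepE W W' i V V' j) : ∃ δ : ℝ, 0 < δ ∧ ∀ s ∈ Icc (0 : ℝ) 1, ∀ u ∈ Icc (0 : ℝ) 1,
      ∀ v ∈ Icc (0 : ℝ) 1, δ ≤ ‖edge (mix V V' s j) (mix V V' s (j + 1)) v -
        edge (mix W W' s i) (mix W W' s (i + 1)) u‖ := by
  obtain ⟨f, hf⟩ := h
  obtain ⟨a₀, h0⟩ := Finite.exists_min fun a : Fin 3 × Fin 3 =>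
    min (f (ctrl V j a.2) - f (ctrl W i a.1)) (f (ctrl V' j a.2) - f (ctrl W' i a.1))
  have hγ := lt_min (sub_pos.2 (hf a₀.1 a₀.2).1) (sub_pos.2 (hf a₀.1 a₀.2).2)
  generalize min (f (ctrl V j a₀.2) - f (ctrl W i a₀.1))
    (f (ctrl V' j a₀.2) - f (ctrl W' i a₀.1)) = γ at h0 hγ
  obtain ⟨C, hC, hb⟩ := (LinearMap.toContinuousLinearMap f).bound
  refine ⟨γ / C, div_pos hγ hC, fun s hs u hu v hv => ?_⟩
  rw [div_le_iff₀' hC]
  refine le_trans ?_ ((le_abs_self _).trans (hb _))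
  have k : ∀ a b, γ ≤ f (ctrl (mix V V' s) j b) - f (ctrl (mix W W' s) i a) := fun a b => by
    have h1 := mul_le_mul_of_nonneg_left ((h0 (a, b)).trans (min_le_left _ _)) (sub_nonneg.2 hs.2)
    have h2 := mul_le_mul_of_nonneg_left ((h0 (a, b)).trans (min_le_right _ _)) hs.1
    simp only [hW.ctrl, hV.ctrl, map_add, map_smul, smul_eq_mul] at h1 h2 ⊢
    linarith
  rw [LinearMap.coe_toContinuousLinearMap', map_sub, edge_ctrl (hV.rel s), edge_ctrl (hW.rel s)]
  simp only [map_add, map_smul, smul_eq_mul]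
  refine le_trans (bez hu fun a => bez hv (k a)) (le_of_eq ?_)
  ring

theorem edge_zero (V W : P3) : edge V W 0 = V := by simp [edge]

theorem edge_rev {X : ℤ → P3} (h : Rel X) (i : ℤ) (u : ℝ) :
    edge (X i) (X (i + 1)) u = edge (X (i + 1)) (X i) (1 - u) := by
  have h1 := h i
  refine Prod.ext ?_ (Prod.ext ?_ ?_) <;> simp only [edge]
  · ring
  · ring
  · linear_combination (-1 / 2) * h1

theorem edge_near {V W : P3} {C u : ℝ} (hV : ‖V‖ ≤ C) (hW : ‖W‖ ≤ C) (h0 : 0 ≤ u) (h1 : u ≤ 1) :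
    ‖edge V W u - V‖ ≤ 4 * (1 + C) ^ 2 * u := by
  have hC := (norm_nonneg V).trans hV
  have a1 : |W.1 - V.1| ≤ 2 * C := by
    have := norm_fst_le (W - V)
    have := norm_sub_le W V
    rw [Prod.fst_sub, Real.norm_eq_abs] at *
    linarith
  have a2 : |W.2.1 - V.2.1| ≤ 2 * C := by
    have := (norm_fst_le (W - V).2).trans (norm_snd_le (W - V))
    have := norm_sub_le W V
    rw [Prod.snd_sub, Prod.fst_sub, Real.norm_eq_abs] at *
    linarith
  have a3 : |V.2.1| ≤ C := ((norm_fst_le V.2).trans (norm_snd_le V)).trans hV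
  have e : edge V W u - V = u • ((W.1 - V.1, W.2.1 - V.2.1,
      V.2.1 * (W.1 - V.1) + (W.1 - V.1) * (W.2.1 - V.2.1) * (u / 2)) : P3) := by
    refine Prod.ext ?_ (Prod.ext ?_ ?_) <;> simp [edge]
    ring
  rw [e, norm_smul, Real.norm_of_nonneg h0, mul_comm]
  refine mul_le_mul_of_nonneg_right ?_ h0
  simp only [Prod.norm_mk, Real.norm_eq_abs, max_le_iff]
  refine ⟨by nlinarith, by nlinarith, (abs_add_le _ _).trans ?_⟩
  rw [abs_mul, abs_mul, abs_mul, abs_of_nonneg (by linarith : 0 ≤ u / 2)]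
  have b1 := mul_le_mul a3 a1 (abs_nonneg _) hC
  have b2 := mul_le_mul (mul_le_mul a1 a2 (abs_nonneg _) (by linarith)) (by linarith : u / 2 ≤ 1 / 2)
    (by linarith) (by positivity)
  nlinarith

/-- the time `t` is within `η` of the edge `i` -/
def Near (η : ℝ) (i : ℤ) (t : ℝ) : Prop := (i : ℝ) - η ≤ t ∧ t ≤ i + 1 + η

theorem near_edge (π : Prof) {X : ℤ → P3} (h : Rel X) {C : ℝ} (hC : ∀ i, ‖X i‖ ≤ C) {i : ℤ} {t : ℝ}
    (ht : Near π.η i t) :
    ∃ u ∈ Icc (0 : ℝ) 1, ‖π.real X t - edge (X i) (X (i + 1)) u‖ ≤ 24 * (1 + C) ^ 2 * π.η := by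
  have h0 := π.real_close h hC t
  have h1 := π.pos
  have h2 := π.small
  have h3 : 0 ≤ 4 * (1 + C) ^ 2 := by positivity
  obtain ⟨t1, t2⟩ := ht
  suffices k : ∃ u ∈ Icc (0 : ℝ) 1,
      ‖plc X t - edge (X i) (X (i + 1)) u‖ ≤ 4 * (1 + C) ^ 2 * π.η by
    obtain ⟨u, hu, k⟩ := k
    exact ⟨u, hu, (norm_sub_le_norm_sub_add_norm_sub _ _ _).trans (by linarith)⟩
  rw [plc, Int.fract]
  rcases lt_or_ge t i with k | k
  · have e : ⌊t⌋ = i - 1 := Int.floor_eq_iff.2 (by push_cast; constructor <;> linarith)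
    refine ⟨0, left_mem_Icc.2 zero_le_one, ?_⟩
    rw [e, edge_rev h, sub_add_cancel, edge_zero]
    push_cast
    exact (edge_near (hC _) (hC _) (by linarith) (by linarith)).trans
      (mul_le_mul_of_nonneg_left (by linarith) h3)
  rcases lt_or_ge t (i + 1) with k' | k'
  · have e : ⌊t⌋ = i := Int.floor_eq_iff.2 ⟨k, k'⟩
    refine ⟨t - i, ⟨by linarith, by linarith⟩, ?_⟩
    rw [e, sub_self, norm_zero]
    positivity
  · have e : ⌊t⌋ = i + 1 := Int.floor_eq_iff.2 (by push_cast; constructor <;> linarith)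
    refine ⟨1, right_mem_Icc.2 zero_le_one, ?_⟩
    rw [e, edge_rev h i, sub_self, edge_zero]
    push_cast
    exact (edge_near (hC _) (hC _) (by linarith) (by linarith)).trans
      (mul_le_mul_of_nonneg_left (by linarith) h3)

theorem unif {α β : Type} (g : α → β) (hg : (range g).Finite) {Q : α → Prop} {P : α → ℝ → Prop}
    (dep : ∀ a a' η, g a = g a' → P a η → P a' η) (h : ∀ a, Q a → ∀ᶠ η in 𝓝[>] (0 : ℝ), P a η) :
    ∀ᶠ η in 𝓝[>] (0 : ℝ), ∀ a, Q a → P a η := by
  have k : ∀ b ∈ range g, ∀ᶠ η in 𝓝[>] (0 : ℝ), ∀ a, g a = b → Q a → P a η := fun b _ => by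
    by_cases e : ∃ a, g a = b ∧ Q a
    · obtain ⟨a, h1, h2⟩ := e
      exact (h a h2).mono fun η hη a' h3 _ => dep a a' η (h1.trans h3.symm) hη
    · exact Eventually.of_forall fun η a h1 h2 => absurd ⟨a, h1, h2⟩ e
  exact ((eventually_all_finite hg).2 k).mono fun η hη a => hη _ ⟨a, rfl⟩ a rfl

theorem small_of {P : Prof → Prop} (h : ∀ᶠ η in 𝓝[>] (0 : ℝ), ∀ π : Prof, π.η = η → P π) :
    Small P := by
  obtain ⟨u, hu, k⟩ := mem_nhdsGT_iff_exists_Ioo_subset.1 h
  exact ⟨u, hu, fun π hπ => k ⟨π.pos, hπ⟩ π rfl⟩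

theorem ev_lt (K : ℝ) {δ : ℝ} (h : 0 < δ) : ∀ᶠ η in 𝓝[>] (0 : ℝ), K * η < δ :=
  ((by fun_prop : ContinuousAt (fun η : ℝ => K * η) 0).eventually_lt continuousAt_const
    (by rwa [mul_zero])).filter_mono nhdsWithin_le_nhds

theorem Mv.fin2 {W W' : ℤ → P3} (h : Mv W W') {α : Type} (k : α → ℤ) :
    (range fun a => (W (k a), W' (k a))).Finite :=
  (h.fin.prod h.fin').subset (range_subset_iff.2 fun _ => ⟨⟨_, rfl⟩, ⟨_, rfl⟩⟩)

theorem fin_pair {α β γ : Type} {f : α → β} {g : α → γ} (hf : (range f).Finite)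
    (hg : (range g).Finite) : (range fun a => (f a, g a)).Finite :=
  (hf.prod hg).subset (range_subset_iff.2 fun _ => ⟨⟨_, rfl⟩, ⟨_, rfl⟩⟩)

theorem apart {W W' V V' : ℤ → P3} (hW : Mv W W') (hV : Mv V V') {Q : ℤ × ℤ → Prop}
    (h : ∀ a, Q a → SepE W W' a.1 V V' a.2) : Small fun π => ∀ s ∈ Icc (0 : ℝ) 1, ∀ i j : ℤ,
      Q (i, j) → ∀ t t', Near π.η i t → Near π.η j t' →
        π.real (mix W W' s) t ≠ π.real (mix V V' s) t' := by
  obtain ⟨C, hC⟩ := hW.bdd
  obtain ⟨D, hD⟩ := hV.bdd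
  refine small_of ((unif _ (fin_pair (fin_pair (hW.fin2 Prod.fst) (hW.fin2 fun a : ℤ × ℤ => a.1 + 1))
    (fin_pair (hV.fin2 Prod.snd) (hV.fin2 fun a : ℤ × ℤ => a.2 + 1))) (Q := Q)
    (P := fun a η => ∀ s ∈ Icc (0 : ℝ) 1, ∀ u ∈ Icc (0 : ℝ) 1, ∀ v ∈ Icc (0 : ℝ) 1,
      (24 * (1 + C) ^ 2 + 24 * (1 + D) ^ 2) * η < ‖edge (mix V V' s a.2) (mix V V' s (a.2 + 1)) v -
        edge (mix W W' s a.1) (mix W W' s (a.1 + 1)) u‖) (fun a a' η e k => ?_)
    fun a ha => ?_).mono ?_)
  · simp only [Prod.mk.injEq] at e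
    simp only [mix, ← e.1.1.1, ← e.1.1.2, ← e.1.2.1, ← e.1.2.2, ← e.2.1.1, ← e.2.1.2, ← e.2.2.1,
      ← e.2.2.2]
    exact k
  · obtain ⟨δ, h1, h2⟩ := gap hW hV (h a ha)
    exact (ev_lt _ h1).mono fun η hη s hs u hu v hv => hη.trans_le (h2 s hs u hu v hv)
  · rintro _ k π rfl s hs i j hq t t' ht ht' e
    obtain ⟨u, hu, h1⟩ := near_edge π (hW.rel s) (hC s hs) ht
    obtain ⟨v, hv, h2⟩ := near_edge π (hV.rel s) (hD s hs) ht'
    have h3 := k (i, j) hq s hs u hu v hv
    rw [← e, norm_sub_rev] at h2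
    have h4 := (norm_sub_le_norm_sub_add_norm_sub _ _ _).trans (add_le_add h2 h1)
    linarith

theorem ev_conv {p q : ℝ} (hp : 0 < p) (hq : 0 < q) :
    ∀ᶠ η in 𝓝[>] (0 : ℝ), ∀ d : ℝ, |d| ≤ 1 + η → 0 < (1 - d) / 2 * p + (1 + d) / 2 * q := by
  filter_upwards [ev_lt p hq, ev_lt q hp] with η h1 h2 d hd
  obtain ⟨h3, h4⟩ := abs_le.1 hd
  rcases le_total 0 d with k | k <;> nlinarith

/-- a planar covector is positive on the velocity near each vertex -/
def Cor (π : Prof) (X : ℤ → P3) : Prop :=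
  ∀ k : ℤ, ∃ a b : ℝ, ∀ t ∈ Ioo ((k : ℝ) - 1 + π.η) (k + 1 - π.η),
    0 < a * (deriv (π.real X) t).1 + b * (deriv (π.real X) t).2.1

theorem corner {W W' : ℤ → P3} (hW : Mv W W') (h : ∀ i, CornerOK W W' i) :
    Small fun π => ∀ s ∈ Icc (0 : ℝ) 1, Cor π (mix W W' s) := by
  refine small_of ((unif _ (fin_pair (hW.fin2 fun i => i - 1) (fin_pair (hW.fin2 fun i => i)
    (hW.fin2 fun i => i + 1))) (Q := fun _ => True)
    (P := fun i η => ∃ a b : ℝ, ∀ V, V = W ∨ V = W' → ∀ d : ℝ, |d| ≤ 1 + η →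
      0 < (1 - d) / 2 * (a * ((V i).1 - (V (i - 1)).1) + b * ((V i).2.1 - (V (i - 1)).2.1)) +
        (1 + d) / 2 * (a * ((V (i + 1)).1 - (V i).1) + b * ((V (i + 1)).2.1 - (V i).2.1)))
    (fun i i' η e k => ?_) fun i _ => ?_).mono ?_)
  · simp only [Prod.mk.injEq] at e
    obtain ⟨a, b, k⟩ := k
    refine ⟨a, b, fun V hV => ?_⟩
    have k' := k V hV
    rcases hV with rfl | rfl
    · rwa [← e.1.1, ← e.2.1.1, ← e.2.2.1]
    · rwa [← e.1.2, ← e.2.1.2, ← e.2.2.2]
  · obtain ⟨a, b, k⟩ := h i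
    filter_upwards [ev_conv (k W (Or.inl rfl)).1 (k W (Or.inl rfl)).2,
      ev_conv (k W' (Or.inr rfl)).1 (k W' (Or.inr rfl)).2] with η h1 h2
    refine ⟨a, b, ?_⟩
    rintro V (rfl | rfl)
    exacts [h1, h2]
  · rintro _ k π rfl s hs i
    obtain ⟨a, b, k⟩ := k i trivial
    refine ⟨a, b, fun t ht => ?_⟩
    obtain ⟨u, rfl⟩ : ∃ u, t = i + u := ⟨t - i, by ring⟩
    obtain ⟨h1, h2⟩ := π.real_deriv (hW.rel s) i (u := u) (by linarith [ht.1]) (by linarith [ht.2])
    have h3 := k W (Or.inl rfl) _ (π.ab_der u)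
    have h4 := k W' (Or.inr rfl) _ (π.ab_der u)
    have h5 := (convex_Ioi (𝕜 := ℝ) (0 : ℝ)) h3 h4 (sub_nonneg.2 hs.2) hs.1 (sub_add_cancel 1 s)
    rw [h1, h2]
    simp only [mix, Prod.fst_add, Prod.snd_add, Prod.smul_fst, Prod.smul_snd, smul_eq_mul]
    refine lt_of_lt_of_eq h5 ?_
    simp only [smul_eq_mul]
    ring

theorem Cor.inj {π : Prof} {X : ℤ → P3} (h : Cor π X) (hX : Rel X) {k : ℤ} {t t' τ : ℝ}
    (ht : t ∈ Ioo ((k : ℝ) - 1 + π.η) (k + 1 - π.η))
    (ht' : t' ∈ Ioo ((k : ℝ) - 1 + π.η) (k + 1 - π.η))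
    (e : π.real X t = π.real X t' + (0, 0, τ)) : t = t' := by
  obtain ⟨a, b, h⟩ := h k
  have hd : ∀ t, HasDerivAt (fun t => a * (π.real X t).1 + b * (π.real X t).2.1)
      (a * (deriv (π.real X) t).1 + b * (deriv (π.real X) t).2.1) t := fun t => by
    have := ((π.real_smooth hX).differentiable (by simp) t).hasDerivAt
    exact ((hasFDerivAt_fst.comp_hasDerivAt t this).const_mul a).add
      ((hasFDerivAt_fst.comp_hasDerivAt t (hasFDerivAt_snd.comp_hasDerivAt t this)).const_mul b)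
  refine (strictMonoOn_of_deriv_pos (convex_Ioo _ _)
    (fun t _ => (hd t).continuousAt.continuousWithinAt) fun t ht => ?_).injOn ht ht' ?_
  · rw [(hd t).deriv]
    exact h t (interior_subset ht)
  · simp [e]

theorem Cor.ne {π : Prof} {X : ℤ → P3} (h : Cor π X) (t : ℝ) : deriv (π.real X) t ≠ 0 := by
  obtain ⟨a, b, h⟩ := h (round t)
  obtain ⟨h1, h2⟩ := abs_le.1 (abs_sub_round t)
  intro e
  have := h t ⟨by linarith [π.small], by linarith [π.small]⟩
  simp [e] at this

theorem cases_near {η t t' : ℝ} {n : ℕ} (h0 : 0 < η) (h1 : η ≤ 1 / 16) (hn : 4 ≤ n) (ht : t ≤ t')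
    (ht' : t' ≤ t + n / 2) :
    (∃ i j : ℤ, i + 2 ≤ j ∧ j + 2 ≤ i + n ∧ Near η i t ∧ Near η j t') ∨
      ∃ k : ℤ, t ∈ Ioo ((k : ℝ) - 1 + η) (k + 1 - η) ∧ t' ∈ Ioo ((k : ℝ) - 1 + η) (k + 1 - η) := by
  have a1 := Int.floor_le t
  have a2 := Int.lt_floor_add_one t
  have a3 := Int.floor_le t'
  have a4 := Int.lt_floor_add_one t'
  have hn' : (4 : ℝ) ≤ n := by exact_mod_cast hn
  generalize ⌊t⌋ = k at a1 a2
  generalize ⌊t'⌋ = j at a3 a4
  unfold Near
  rcases le_or_gt (k + 2) j with c | c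
  · have : j + 1 < k + n := by
      have : (j : ℝ) + 1 < k + n := by linarith
      exact_mod_cast this
    exact Or.inl ⟨k, j, c, by omega, ⟨by linarith, by linarith⟩, by linarith, by linarith⟩
  have c' : (j : ℝ) ≤ k + 1 := by exact_mod_cast (by omega : j ≤ k + 1)
  rcases le_or_gt t (k + η) with d | d
  · rcases le_or_gt (k + 1 - η) t' with e | e
    · refine Or.inl ⟨k - 1, k + 1, by omega, by omega, ?_⟩
      push_cast
      exact ⟨⟨by linarith, by linarith⟩, by linarith, by linarith⟩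
    · exact Or.inr ⟨k, ⟨by linarith, by linarith⟩, by linarith, e⟩
  · rcases le_or_gt (k + 2 - η) t' with e | e
    · refine Or.inl ⟨k, k + 2, by omega, by omega, ?_⟩
      push_cast
      exact ⟨⟨by linarith, by linarith⟩, by linarith, by linarith⟩
    · refine Or.inr ⟨k + 1, ?_⟩
      push_cast
      exact ⟨⟨by linarith, by linarith⟩, by linarith, by linarith⟩

theorem real_per (π : Prof) {X : ℤ → P3} {n : ℕ} (hp : ∀ i, X (i + n) = X i) (m : ℤ) (t : ℝ) :
    π.real X (t + m * n) = π.real X t := by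
  have h := π.real_shift X (m * n) t
  have e : (fun i => X (i + m * n)) = X := funext (Function.Periodic.int_mul hp m)
  rw [e] at h
  rw [h]
  push_cast
  rfl

theorem core {π : Prof} {X : ℤ → P3} (hX : Rel X) {n : ℕ} (hn : 4 ≤ n) (hp : ∀ i, X (i + n) = X i)
    (hc : Cor π X) {H : ℝ}
    (hs : ∀ i j : ℤ, i + 2 ≤ j → j + 2 ≤ i + n → ∀ t t', Near π.η i t → Near π.η j t' →
      ∀ τ, |τ| ≤ H → π.real X t ≠ π.real X t' + (0, 0, τ))
    {t t' τ : ℝ} (hτ : |τ| ≤ H) (e : π.real X t = π.real X t' + (0, 0, τ)) :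
    ∃ m : ℤ, t = t' + m * n := by
  have key : ∀ t t' τ : ℝ, |τ| ≤ H → π.real X t = π.real X t' + (0, 0, τ) → t ≤ t' →
      t' ≤ t + n / 2 → t = t' := fun t t' τ hτ e h1 h2 => by
    rcases cases_near π.pos π.small hn h1 h2 with ⟨i, j, k1, k2, k3, k4⟩ | ⟨k, k1, k2⟩
    · exact absurd e (hs i j k1 k2 t t' k3 k4 τ hτ)
    · exact hc.inj hX k1 k2 e
  have n0 : (0 : ℝ) < n := by exact_mod_cast (by omega : 0 < n)
  obtain ⟨h1, h2⟩ := abs_le.1 (abs_sub_round ((t - t') / n))
  refine ⟨round ((t - t') / n), ?_⟩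
  rw [← real_per π hp (round ((t - t') / n)) t'] at e
  generalize round ((t - t') / n) = m at h1 h2 e
  rw [le_sub_iff_add_le, le_div_iff₀ n0] at h1
  rw [sub_le_iff_le_add, div_le_iff₀ n0] at h2
  rcases le_total t (t' + m * n) with k | k
  · exact key _ _ τ hτ e k (by linarith)
  · refine (key _ _ (-τ) (by rwa [abs_neg]) ?_ k (by linarith)).symm
    rw [e]
    refine Prod.ext ?_ (Prod.ext ?_ ?_) <;> simp

theorem isLeg {π : Prof} {X : ℤ → P3} (hX : Rel X) {n : ℕ} (hn : 4 ≤ n) (hp : ∀ i, X (i + n) = X i)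
    (hc : Cor π X)
    (hs : ∀ i j : ℤ, i + 2 ≤ j → j + 2 ≤ i + n → ∀ t t', Near π.η i t → Near π.η j t' →
      π.real X t ≠ π.real X t') : IsLeg3 fun t => π.real X (n * t) := by
  have n0 : (0 : ℝ) < n := by exact_mod_cast (by omega : 0 < n)
  refine ⟨(π.real_smooth hX).comp (contDiff_const.mul contDiff_id), fun t => ?_,
    fun t ht t' ht' e => ?_, fun t => ?_, fun t => ?_⟩
  · have := real_per π hp 1 (n * t)
    rwa [Int.cast_one, one_mul, ← mul_add_one] at this
  · obtain ⟨m, hm⟩ := core hX hn hp hc (H := 0) (τ := 0) (fun i j h1 h2 t t' h3 h4 τ h5 => by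
      rw [abs_nonpos_iff.1 h5, Prod.mk_zero_zero, Prod.mk_zero_zero, add_zero]
      exact hs i j h1 h2 t t' h3 h4) abs_zero.le
      (e.trans (add_zero _).symm)
    have h1 : t = t' + m := mul_left_cancel₀ n0.ne' (by rw [hm]; ring)
    have h2 : (m : ℝ) < 1 := by linarith [ht.2, ht'.1]
    have h3 : (-1 : ℝ) < m := by linarith [ht.1, ht'.2]
    have h4 : m < 1 := by exact_mod_cast h2
    have h5 : -1 < m := by exact_mod_cast h3
    rw [h1, (by omega : m = 0), Int.cast_zero, add_zero]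
  · rw [deriv_comp_mul_left]
    exact smul_ne_zero n0.ne' (hc.ne _)
  · have := π.real_leg hX (n * t)
    rw [deriv_comp_mul_left]
    simp only [al, Prod.smul_fst, Prod.smul_snd, smul_eq_mul] at this ⊢
    linear_combination n * this

theorem cyc_fin (l : List Z3) : (range (cyc l)).Finite := by
  refine ((l.finite_toSet.insert (0, 0, 0)).image toP3).subset (range_subset_iff.2 fun i => ?_)
  refine ⟨_, ?_, rfl⟩
  rw [List.getD_eq_getElem?_getD]
  cases h : l[(i % (l.length : ℤ)).toNat]? with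
  | none => exact Or.inl rfl
  | some a => exact Or.inr (List.mem_of_getElem? h)

theorem near_floor {η : ℝ} (h : 0 < η) (t : ℝ) : Near η ⌊t⌋ t :=
  ⟨by linarith [Int.floor_le t], by linarith [Int.lt_floor_add_one t]⟩

theorem mv_shift {l : List Z3} (h : Rel (cyc l)) (c : ℝ) : Mv (cyc l) fun k => cyc l k + (0, 0, c) :=
  ⟨h, fun i => by simpa using h i, fun i => Or.inl (by simp), cyc_fin l,
    ((cyc_fin l).image (· + ((0, 0, c) : P3))).subset (range_subset_iff.2 fun i => ⟨_, ⟨i, rfl⟩, rfl⟩)⟩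

end EmbAux

open EmbAux in
theorem step_sound {L L' : Bool → List Z3} (h : StepOK L L') : Small fun π =>
    ∃ G, IsLegFam G ∧ (∀ c, G c 0 = π.knot (L c)) ∧ ∀ c, G c 1 = π.knot (L' c) := by
  have hM : ∀ c, Mv (cyc (L c)) (cyc (L' c)) := fun c =>
    ⟨(h.1 c).2.2.1, (h.1 c).2.2.2.1, fun i => ((h.1 c).2.2.2.2.1 i).2, cyc_fin _, cyc_fin _⟩
  refine ((small_finite fun c => (corner (hM c) fun i => ((h.1 c).2.2.2.2.1 i).1).and
    (apart (hM c) (hM c) (Q := fun a => a.1 + 2 ≤ a.2 ∧ a.2 + 2 ≤ a.1 + (L c).length)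
      fun a ha => (h.1 c).2.2.2.2.2 a.1 a.2 ha.1 ha.2)).and
    (apart (hM false) (hM true) (Q := fun _ => True) fun a _ => h.2 a.1 a.2)).mono fun π k => ?_
  refine ⟨fun c s t => π.real (mix (cyc (L c)) (cyc (L' c)) s) ((L c).length * t),
    ⟨fun c => ?_, fun c s hs => ?_, fun c c' hc s hs t t' => ?_⟩, fun c => ?_, fun c => ?_⟩
  · exact (π.real_smooth_fam (W := mix (cyc (L c)) (cyc (L' c)))
      (fun i => by unfold mix; fun_prop) (hM c).rel).comp
      (contDiff_fst.prodMk (contDiff_const.mul contDiff_snd))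
  · refine isLeg ((hM c).rel s) (h.1 c).1 (fun i => ?_) ((k.1 c).1 s hs)
      fun i j h1 h2 => (k.1 c).2 s hs i j ⟨h1, h2⟩
    rw [mix, mix, cyc_add_length, ← (h.1 c).2.1, cyc_add_length]
  · have k' := fun t t' => k.2 s hs _ _ trivial t t' (near_floor π.pos t) (near_floor π.pos t')
    cases c <;> cases c'
    exacts [absurd rfl hc, k' _ _, (k' _ _).symm, absurd rfl hc]
  · funext t
    beta_reduce
    rw [mix_zero, Prof.knot]
  · funext t
    beta_reduce
    rw [mix_one, Prof.knot, (h.1 c).2.1]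

/-- the vertical translates up to height `h` are disjoint -/
def ShiftOK (l : List Z3) (h : ℝ) : Prop :=
  4 ≤ l.length ∧ Rel (cyc l) ∧ (∀ i, CornerOK (cyc l) (cyc l) i) ∧
    ∀ i j : ℤ, i + 2 ≤ j → j + 2 ≤ i + l.length →
      SepE (cyc l) (cyc l) i (cyc l) (fun k => cyc l k + (0, 0, h)) j ∧
        SepE (cyc l) (cyc l) i (cyc l) (fun k => cyc l k + (0, 0, -h)) j

open EmbAux in
theorem shift_sound {l : List Z3} {h : ℝ} (H : ShiftOK l h) : Small fun π =>
    IsLeg3 (π.knot l) ∧ ∀ t t' τ : ℝ, |τ| ≤ h → π.knot l t = π.knot l t' + (0, 0, τ) → τ = 0 := by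
  obtain ⟨h1, h2, h3, h4⟩ := H
  have hM : Mv (cyc l) (cyc l) := ⟨h2, h2, fun _ => Or.inl rfl, cyc_fin l, cyc_fin l⟩
  refine ((corner hM h3).and
    ((apart hM (mv_shift h2 h) (Q := fun a => a.1 + 2 ≤ a.2 ∧ a.2 + 2 ≤ a.1 + l.length)
      fun a ha => (h4 a.1 a.2 ha.1 ha.2).1).and
    (apart hM (mv_shift h2 (-h)) (Q := fun a => a.1 + 2 ≤ a.2 ∧ a.2 + 2 ≤ a.1 + l.length)
      fun a ha => (h4 a.1 a.2 ha.1 ha.2).2))).mono fun π k => ?_
  obtain ⟨k1, k2, k3⟩ := k
  simp only [mix_self, mix_shift, Prof.real_add_z] at k1 k2 k3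
  have hc := k1 0 (left_mem_Icc.2 zero_le_one)
  refine ⟨isLeg h2 h1 (cyc_add_length l) hc fun i j a1 a2 t t' a3 a4 => ?_, fun t t' τ hτ e => ?_⟩
  · have := k2 0 (left_mem_Icc.2 zero_le_one) i j ⟨a1, a2⟩ t t' a3 a4
    rwa [zero_mul, Prod.mk_zero_zero, Prod.mk_zero_zero, add_zero] at this
  by_contra h0
  have hh : 0 < h := (abs_pos.2 h0).trans_le hτ
  obtain ⟨m, hm⟩ := core h2 h1 (cyc_add_length l) hc (H := h) (fun i j a1 a2 t t' a3 a4 τ a5 => by
    have hs : |τ| / h ∈ Icc (0 : ℝ) 1 := ⟨by positivity, (div_le_one hh).2 a5⟩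
    rcases le_total 0 τ with a6 | a6
    · have := k2 _ hs i j ⟨a1, a2⟩ t t' a3 a4
      rwa [div_mul_cancel₀ _ hh.ne', abs_of_nonneg a6] at this
    · have := k3 _ hs i j ⟨a1, a2⟩ t t' a3 a4
      rwa [mul_neg, div_mul_cancel₀ _ hh.ne', abs_of_nonpos a6, neg_neg] at this) hτ e
  rw [Prof.knot, Prof.knot, hm, real_per π (cyc_add_length l)] at e
  simpa [h0] using congrArg (fun p : P3 => p.2.2) e

end Pool.Agent.Lib.MP_4d7d0a_gt
end

-- part Pool.Agent.Lib.MP_4d7d0a_gt.CertAux1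
section

/-! Integer checker for the steps of the certified isotopy and its soundness. -/

set_option autoImplicit false

namespace Pool.Agent.Lib.MP_4d7d0a_gt.CertAux

/-! ### forcing evaluation -/

noncomputable def frcN {β : Type} (n : ℕ) (k : ℕ → β) : β :=
  Nat.rec (k 0) (fun m _ => k (Nat.succ m)) n

theorem frcN_eq {β : Type} (n : ℕ) (k : ℕ → β) : frcN n k = k n := by
  cases n <;> rfl

noncomputable def frcI {β : Type} (z : ℤ) (k : ℤ → β) : β :=
  Int.rec (fun n => frcN n fun n => k (Int.ofNat n)) (fun n => frcN n fun n => k (Int.negSucc n)) z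

theorem frcI_eq {β : Type} (z : ℤ) (k : ℤ → β) : frcI z k = k z := by
  cases z <;> simp only [frcI, frcN_eq]

noncomputable def frcV {β : Type} (v : Z3) (k : Z3 → β) : β :=
  frcI v.1 fun x => frcI v.2.1 fun y => frcI v.2.2 fun z => k (x, y, z)

theorem frcV_eq {β : Type} (v : Z3) (k : Z3 → β) : frcV v k = k v := by
  simp only [frcV, frcI_eq]

noncomputable def frcL {β : Type} (l : List Z3) : (List Z3 → β) → β :=
  List.rec (fun k => k []) (fun v _ ih k => frcV v fun v => ih fun r => k (v :: r)) l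

theorem frcL_eq {β : Type} (l : List Z3) (k : List Z3 → β) : frcL l k = k l := by
  induction l generalizing k with
  | nil => rfl
  | cons v r ih =>
    show frcV v (fun v => frcL r fun r => k (v :: r)) = _
    rw [frcV_eq, ih]

/-! ### Boolean loops -/

noncomputable def bor (a b : Bool) : Bool := Bool.rec b true a

noncomputable def band (a b : Bool) : Bool := Bool.rec false b a

theorem bor_iff (a b : Bool) : bor a b = true ↔ a = true ∨ b = true := by
  cases a <;> simp [bor]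

theorem band_iff (a b : Bool) : band a b = true ↔ a = true ∧ b = true := by
  cases a <;> simp [band]

noncomputable def allP {α : Type} (p : α → Bool) (l : List α) : Bool :=
  List.rec true (fun f _ ih => Bool.rec false ih (p f)) l

theorem allP_iff {α : Type} (p : α → Bool) (l : List α) :
    allP p l = true ↔ ∀ f ∈ l, p f = true := by
  induction l with
  | nil => simp [allP]
  | cons f r ih =>
    show band (p f) (allP p r) = true ↔ _
    rw [band_iff, ih]; simp

noncomputable def tri {α : Type} (p : α → α → Bool) (l : List α) : Bool :=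
  List.rec true (fun e r ih => Bool.rec false ih (allP (p e) r)) l

theorem tri_iff {α : Type} (p : α → α → Bool) (l : List α) :
    tri p l = true ↔ l.Pairwise fun e f => p e f = true := by
  induction l with
  | nil => simp [tri]
  | cons f r ih =>
    show band (allP (p f) r) (tri p r) = true ↔ _
    rw [band_iff, ih, allP_iff, List.pairwise_cons]

/-! ### edge records -/

def ev (l p : Z3) : ℤ :=
  Int.add (Int.add (Int.mul l.1 p.1) (Int.mul l.2.1 p.2.1)) (Int.mul l.2.2 p.2.2)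

def nv (l p : Z3) : ℕ := Int.toNat (Int.add (ev l p) 1099511627776)

theorem lt_of_nv {l p q : Z3} (h : nv l p < nv l q) : ev l p < ev l q := by
  unfold nv at h
  simp only [Int.add_def] at h
  omega

def dbl (a : Z3) : Z3 := (Int.mul 2 a.1, Int.mul 2 a.2.1, Int.mul 2 a.2.2)

def mid (a b : Z3) : Z3 :=
  (Int.add a.1 b.1, Int.add a.2.1 b.2.1, Int.add (Int.mul 2 a.2.2) (Int.mul a.2.1 (Int.sub b.1 a.1)))

noncomputable def nmin (a b : ℕ) : ℕ := Bool.rec b a (Nat.ble a b)

noncomputable def nmax (a b : ℕ) : ℕ := Bool.rec a b (Nat.ble a b)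

theorem nmin_eq (a b : ℕ) : nmin a b = min a b := by
  unfold nmin
  cases h : Nat.ble a b
  · have : ¬ a ≤ b := by rw [← Nat.ble_eq, h]; simp
    show b = _
    omega
  · have : a ≤ b := by rw [← Nat.ble_eq, h]
    show a = _
    omega

theorem nmax_eq (a b : ℕ) : nmax a b = max a b := by
  unfold nmax
  cases h : Nat.ble a b
  · have : ¬ a ≤ b := by rw [← Nat.ble_eq, h]; simp
    show a = _
    omega
  · have : a ≤ b := by rw [← Nat.ble_eq, h]
    show b = _
    omega

structure Q where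
  lo : ℕ
  hi : ℕ
  lo' : ℕ
  hi' : ℕ

/-- the range of a functional on three points -/
noncomputable def rngK {β : Type} (l p q r : Z3) (k : ℕ → ℕ → β) : β :=
  frcN (nv l p) fun a => frcN (nv l q) fun b => frcN (nv l r) fun c =>
    frcN (nmin a (nmin b c)) fun lo => frcN (Nat.succ (nmax a (nmax b c))) fun hi => k lo hi

def loOf (l p q r : Z3) : ℕ := min (nv l p) (min (nv l q) (nv l r))

def hiOf (l p q r : Z3) : ℕ := max (nv l p) (max (nv l q) (nv l r)) + 1

theorem rngK_eq {β : Type} (l p q r : Z3) (k : ℕ → ℕ → β) :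
    rngK l p q r k = k (loOf l p q r) (hiOf l p q r) := by
  simp only [rngK, frcN_eq, nmin_eq, nmax_eq, loOf, hiOf]

noncomputable def qK {β : Type} (l p q r p' q' r' : Z3) (k : Q → β) : β :=
  rngK l p q r fun lo hi => rngK l p' q' r' fun lo' hi' => k ⟨lo, hi, lo', hi'⟩

def qOf (l a b a' b' : Z3) : Q :=
  ⟨loOf l (dbl a) (mid a b) (dbl b), hiOf l (dbl a) (mid a b) (dbl b),
    loOf l (dbl a') (mid a' b') (dbl b'), hiOf l (dbl a') (mid a' b') (dbl b')⟩

structure R where
  q0 : Q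
  q1 : Q
  q2 : Q
  q3 : Q
  q4 : Q
  id : ℕ
  nx : ℕ

def f0 : Z3 := (16384, 0, 1)
def f1 : Z3 := (-16384, 0, 1)
def f2 : Z3 := (1, 0, 0)
def f3 : Z3 := (0, 0, 1)
def f4 : Z3 := (0, 1, 0)

noncomputable def rK {β : Type} (a b a' b' : Z3) (i j : ℕ) (k : R → β) : β :=
  frcV (dbl a) fun p => frcV (mid a b) fun q => frcV (dbl b) fun r =>
  frcV (dbl a') fun p' => frcV (mid a' b') fun q' => frcV (dbl b') fun r' =>
    qK f0 p q r p' q' r' fun q0 => qK f1 p q r p' q' r' fun q1 => qK f2 p q r p' q' r' fun q2 =>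
    qK f3 p q r p' q' r' fun q3 => qK f4 p q r p' q' r' fun q4 => k ⟨q0, q1, q2, q3, q4, i, j⟩

def rOf (a b a' b' : Z3) (i j : ℕ) : R :=
  ⟨qOf f0 a b a' b', qOf f1 a b a' b', qOf f2 a b a' b', qOf f3 a b a' b', qOf f4 a b a' b', i, j⟩

theorem rK_eq {β : Type} (a b a' b' : Z3) (i j : ℕ) (k : R → β) :
    rK a b a' b' i j k = k (rOf a b a' b' i j) := by
  simp only [rK, frcV_eq, qK, rngK_eq, rOf, qOf]

/-- the vertex with cyclic index `k` -/
def gv (l : List Z3) (k : ℕ) : Z3 := l.getD (k % l.length) (0, 0, 0)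

def recAt (l l' : List Z3) (i : ℕ) : R :=
  rOf (gv l i) (gv l (i + 1)) (gv l' i) (gv l' (i + 1)) i ((i + 1) % l.length)

noncomputable def recsK {β : Type} (l l' : List Z3) (is : List ℕ) : (List R → β) → β :=
  List.rec (fun k => k [])
    (fun i _ ih k => frcN i fun i => frcV (gv l i) fun a => frcV (gv l (i + 1)) fun b =>
      frcV (gv l' i) fun a' => frcV (gv l' (i + 1)) fun b' => frcN ((i + 1) % l.length) fun j =>
        rK a b a' b' i j fun e => ih fun r => k (e :: r)) is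

theorem recsK_eq {β : Type} (l l' : List Z3) (is : List ℕ) (k : List R → β) :
    recsK l l' is k = k (is.map (recAt l l')) := by
  induction is generalizing k with
  | nil => rfl
  | cons i r ih =>
    show (frcN i fun i => frcV (gv l i) fun a => frcV (gv l (i + 1)) fun b =>
      frcV (gv l' i) fun a' => frcV (gv l' (i + 1)) fun b' => frcN ((i + 1) % l.length) fun j =>
        rK a b a' b' i j fun e => recsK l l' r fun r => k (e :: r)) = _
    simp only [frcN_eq, frcV_eq, rK_eq, ih]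
    rfl

noncomputable def sepQ (q r : Q) (els : Bool) : Bool :=
  Bool.rec (Bool.rec els (Bool.rec els true (Nat.ble r.hi' q.lo')) (Nat.ble r.hi q.lo))
    (Bool.rec els true (Nat.ble q.hi' r.lo')) (Nat.ble q.hi r.lo)

theorem sepQ_cases {q r : Q} {els : Bool} (h : sepQ q r els = true) :
    (q.hi ≤ r.lo ∧ q.hi' ≤ r.lo') ∨ (r.hi ≤ q.lo ∧ r.hi' ≤ q.lo') ∨ els = true := by
  unfold sepQ at h
  simp only [← Nat.ble_eq]
  revert h
  cases Nat.ble q.hi r.lo <;> cases Nat.ble q.hi' r.lo' <;> cases Nat.ble r.hi q.lo <;>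
    cases Nat.ble r.hi' q.lo' <;> simp

noncomputable def sepR (e f : R) (els : Bool) : Bool :=
  sepQ e.q0 f.q0 (sepQ e.q1 f.q1 (sepQ e.q2 f.q2 (sepQ e.q3 f.q3 (sepQ e.q4 f.q4 els))))

noncomputable def adj (e f : R) : Bool :=
  bor (Nat.beq e.nx f.id) (bor (Nat.beq f.nx e.id) (Nat.beq e.id f.id))

/-! ### from integers to reals -/

noncomputable def lin (l : Z3) : P3 →ₗ[ℝ] ℝ where
  toFun p := l.1 * p.1 + l.2.1 * p.2.1 + l.2.2 * p.2.2
  map_add' p q := by simp; ring
  map_smul' c p := by simp; ring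

def pt (a b : Z3) (j : Fin 3) : Z3 := if j = 0 then dbl a else if j = 2 then dbl b else mid a b

theorem lin_ctrl (l : Z3) {W : ℤ → P3} {i : ℤ} {a b : Z3} (ha : W i = toP3 a)
    (hb : W (i + 1) = toP3 b) (j : Fin 3) : 2 * lin l (ctrl W i j) = (ev l (pt a b j) : ℝ) := by
  have hs : ∀ x y : ℤ, Int.sub x y = x - y := fun _ _ => rfl
  unfold ctrl pt
  rw [ha, hb]
  split_ifs <;>
    simp only [lin, toP3, ev, dbl, mid, LinearMap.coe_mk, AddHom.coe_mk, Int.add_def, Int.mul_def,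
      hs] <;> push_cast <;> ring

theorem lt_of_hi_lo {l a b c d : Z3}
    (h : hiOf l (dbl a) (mid a b) (dbl b) ≤ loOf l (dbl c) (mid c d) (dbl d)) (j k : Fin 3) :
    ev l (pt a b j) < ev l (pt c d k) := by
  apply lt_of_nv
  unfold hiOf loOf at h
  unfold pt
  split_ifs <;> omega

theorem SepE.symm' {W W' V V' : ℤ → P3} {i j : ℤ} (h : SepE W W' i V V' j) :
    SepE V V' j W W' i := by
  obtain ⟨f, hf⟩ := h
  refine ⟨-f, fun a b => ?_⟩
  have := hf b a
  simp only [LinearMap.neg_apply]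
  constructor <;> linarith [this.1, this.2]

section
variable {W W' V V' : ℤ → P3} {i j : ℤ} {a b a' b' c d c' d' : Z3}

theorem sepE_of_le (l : Z3) (ha : W i = toP3 a) (hb : W (i + 1) = toP3 b) (ha' : W' i = toP3 a')
    (hb' : W' (i + 1) = toP3 b') (hc : V j = toP3 c) (hd : V (j + 1) = toP3 d)
    (hc' : V' j = toP3 c') (hd' : V' (j + 1) = toP3 d')
    (h : (qOf l a b a' b').hi ≤ (qOf l c d c' d').lo)
    (h' : (qOf l a b a' b').hi' ≤ (qOf l c d c' d').lo') : SepE W W' i V V' j := by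
  refine ⟨lin l, fun x y => ?_⟩
  have e1 := lin_ctrl l ha hb x
  have e2 := lin_ctrl l hc hd y
  have e3 := lin_ctrl l ha' hb' x
  have e4 := lin_ctrl l hc' hd' y
  have h1 : (ev l (pt a b x) : ℝ) < ev l (pt c d y) := by exact_mod_cast lt_of_hi_lo h x y
  have h2 : (ev l (pt a' b' x) : ℝ) < ev l (pt c' d' y) := by exact_mod_cast lt_of_hi_lo h' x y
  constructor <;> linarith

theorem sepE_of_sepQ (l : Z3) (ha : W i = toP3 a) (hb : W (i + 1) = toP3 b)
    (ha' : W' i = toP3 a') (hb' : W' (i + 1) = toP3 b') (hc : V j = toP3 c)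
    (hd : V (j + 1) = toP3 d) (hc' : V' j = toP3 c') (hd' : V' (j + 1) = toP3 d') {els : Bool}
    (h : sepQ (qOf l a b a' b') (qOf l c d c' d') els = true) :
    SepE W W' i V V' j ∨ els = true := by
  rcases sepQ_cases h with h | h | h
  · exact Or.inl (sepE_of_le l ha hb ha' hb' hc hd hc' hd' h.1 h.2)
  · exact Or.inl (SepE.symm' (sepE_of_le l hc hd hc' hd' ha hb ha' hb' h.1 h.2))
  · exact Or.inr h

theorem sepE_of_sepR (ha : W i = toP3 a) (hb : W (i + 1) = toP3 b)
    (ha' : W' i = toP3 a') (hb' : W' (i + 1) = toP3 b') (hc : V j = toP3 c)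
    (hd : V (j + 1) = toP3 d) (hc' : V' j = toP3 c') (hd' : V' (j + 1) = toP3 d') {els : Bool}
    {m n m' n' : ℕ} (h : sepR (rOf a b a' b' m n) (rOf c d c' d' m' n') els = true) :
    SepE W W' i V V' j ∨ els = true := by
  rcases sepE_of_sepQ f0 ha hb ha' hb' hc hd hc' hd' h with h | h
  · exact Or.inl h
  rcases sepE_of_sepQ f1 ha hb ha' hb' hc hd hc' hd' h with h | h
  · exact Or.inl h
  rcases sepE_of_sepQ f2 ha hb ha' hb' hc hd hc' hd' h with h | h
  · exact Or.inl h
  rcases sepE_of_sepQ f3 ha hb ha' hb' hc hd hc' hd' h with h | h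
  · exact Or.inl h
  exact sepE_of_sepQ f4 ha hb ha' hb' hc hd hc' hd' h

end

/-- the residue of the index -/
def res (n : ℕ) (i : ℤ) : ℕ := (i % (n : ℤ)).toNat

theorem res_lt {n : ℕ} (hn : 0 < n) (i : ℤ) : res n i < n := by
  unfold res
  have := Int.emod_lt_of_pos i (show (0 : ℤ) < n by exact_mod_cast hn)
  have := Int.emod_nonneg i (show (n : ℤ) ≠ 0 by omega)
  omega

theorem res_cast {n : ℕ} (hn : 0 < n) (i : ℤ) : (res n i : ℤ) = i % n := by
  unfold res
  have := Int.emod_nonneg i (show (n : ℤ) ≠ 0 by omega)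
  omega

theorem cyc_add_nat {l : List Z3} {n : ℕ} (hl : l.length = n) (hn : 0 < n) (i : ℤ) (k : ℕ) :
    cyc l (i + k) = toP3 (gv l (res n i + k)) := by
  unfold cyc gv
  rw [hl]
  congr 2
  have h : ((res n i + k) % n : ℕ) = ((i + k) % (n : ℤ)).toNat := by
    have h1 : (((res n i + k) % n : ℕ) : ℤ) = (i + k) % (n : ℤ) := by
      push_cast
      rw [res_cast hn, Int.emod_add_emod]
    omega
  exact h.symm

theorem cyc_zero {l : List Z3} {n : ℕ} (hl : l.length = n) (hn : 0 < n) (i : ℤ) :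
    cyc l i = toP3 (gv l (res n i)) := by
  simpa using cyc_add_nat hl hn i 0

theorem cyc_one {l : List Z3} {n : ℕ} (hl : l.length = n) (hn : 0 < n) (i : ℤ) :
    cyc l (i + 1) = toP3 (gv l (res n i + 1)) := by
  simpa using cyc_add_nat hl hn i 1

theorem sepE_of_recAt {l l' m m' : List Z3} {n n' : ℕ} (hl : l.length = n) (hl' : l'.length = n)
    (hm : m.length = n') (hm' : m'.length = n') (hn : 0 < n) (hn' : 0 < n') (i j : ℤ) {els : Bool}
    (h : sepR (recAt l l' (res n i)) (recAt m m' (res n' j)) els = true) :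
    SepE (cyc l) (cyc l') i (cyc m) (cyc m') j ∨ els = true :=
  sepE_of_sepR (cyc_zero hl hn i) (cyc_one hl hn i) (cyc_zero hl' hn i) (cyc_one hl' hn i)
    (cyc_zero hm hn' j) (cyc_one hm hn' j) (cyc_zero hm' hn' j) (cyc_one hm' hn' j) h

theorem not_adj {l l' m m' : List Z3} {n : ℕ} (hl : l.length = n) (hm : m.length = n)
    {i j : ℤ} (h1 : i + 2 ≤ j) (h2 : j + 2 ≤ i + n) :
    adj (recAt l l' (res n i)) (recAt m m' (res n j)) ≠ true := by
  have hn : 0 < n := by omega
  intro h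
  simp only [adj, bor_iff, Nat.beq_eq, recAt, rOf, hl, hm] at h
  have key : ∀ a b : ℤ, a % n = b % n → a - b < n → b - a < n → a = b := by
    intro a b e u v
    have hd : (n : ℤ) ∣ b - a := Int.ModEq.dvd e
    have := Int.eq_zero_of_abs_lt_dvd hd (abs_lt.2 ⟨by omega, v⟩)
    omega
  rcases h with h | h | h
  · have h' := congrArg (Nat.cast : ℕ → ℤ) h
    push_cast at h'
    rw [res_cast hn, res_cast hn, Int.emod_add_emod] at h'
    have := key _ _ h' (by omega) (by omega)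
    omega
  · have h' := congrArg (Nat.cast : ℕ → ℤ) h
    push_cast at h'
    rw [res_cast hn, res_cast hn, Int.emod_add_emod] at h'
    have e : (j + 1) % n = (i + n) % n := by rw [h']; simp
    have := key _ _ e (by omega) (by omega)
    omega
  · have h' := congrArg (Nat.cast : ℕ → ℤ) h
    rw [res_cast hn, res_cast hn] at h'
    have := key _ _ h' (by omega) (by omega)
    omega

theorem adj_symm (e f : R) (h : adj e f = true) : adj f e = true := by
  simp only [adj, bor_iff, Nat.beq_eq] at h ⊢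
  omega

/-! ### the local conditions -/

def relB (a b : Z3) : Bool :=
  decide (2 * (b.2.2 - a.2.2) = (a.2.1 + b.2.1) * (b.1 - a.1))

def linB (a b a' b' : Z3) : Bool :=
  decide (b'.1 - a'.1 = b.1 - a.1) || (decide (a'.2.1 = a.2.1) && decide (b'.2.1 = b.2.1))

def posB (s t : ℤ) (a b : Z3) : Bool := decide (0 < s * (b.1 - a.1) + t * (b.2.1 - a.2.1))

def cor1 (s t : ℤ) (a b c a' b' c' : Z3) : Bool :=
  posB s t a b && (posB s t b c && (posB s t a' b' && posB s t b' c'))

def corB (a b c a' b' c' : Z3) : Bool :=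
  cor1 1 1 a b c a' b' c' || (cor1 1 (-1) a b c a' b' c' ||
    (cor1 (-1) 1 a b c a' b' c' || cor1 (-1) (-1) a b c a' b' c'))

noncomputable def locB (l l' : List Z3) (i : ℕ) : Bool :=
  frcN i fun i => frcV (gv l i) fun a => frcV (gv l (i + 1)) fun b => frcV (gv l (i + 2)) fun c =>
    frcV (gv l' i) fun a' => frcV (gv l' (i + 1)) fun b' => frcV (gv l' (i + 2)) fun c' =>
      relB a b && (relB a' b' && (linB a b a' b' && corB a b c a' b' c'))

theorem cornerOK_of_cor1 {W W' : ℤ → P3} {i : ℤ} {a b c a' b' c' : Z3} (s t : ℤ)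
    (ha : W (i - 1) = toP3 a) (hb : W i = toP3 b) (hc : W (i + 1) = toP3 c)
    (ha' : W' (i - 1) = toP3 a') (hb' : W' i = toP3 b') (hc' : W' (i + 1) = toP3 c')
    (h : cor1 s t a b c a' b' c' = true) : CornerOK W W' i := by
  simp only [cor1, posB, Bool.and_eq_true, decide_eq_true_eq] at h
  obtain ⟨h1, h2, h3, h4⟩ := h
  refine ⟨s, t, fun V hV => ?_⟩
  rcases hV with rfl | rfl
  · rw [ha, hb, hc]
    simp only [toP3]
    exact ⟨by exact_mod_cast h1, by exact_mod_cast h2⟩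
  · rw [ha', hb', hc']
    simp only [toP3]
    exact ⟨by exact_mod_cast h3, by exact_mod_cast h4⟩

theorem loc_sound {l l' : List Z3} {n : ℕ} (hl : l.length = n) (hl' : l'.length = n) (hn : 0 < n)
    (h : allP (locB l l') (List.range n) = true) :
    Rel (cyc l) ∧ Rel (cyc l') ∧
      ∀ i, CornerOK (cyc l) (cyc l') i ∧ LinOK (cyc l) (cyc l') i := by
  rw [allP_iff] at h
  have H : ∀ i : ℤ, _ := fun i => h (res n i) (List.mem_range.2 (res_lt hn i))
  simp only [locB, frcN_eq, frcV_eq, Bool.and_eq_true] at H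
  refine ⟨fun i => ?_, fun i => ?_, fun i => ⟨?_, ?_⟩⟩
  · have h1 := (H i).1
    simp only [relB, decide_eq_true_eq] at h1
    rw [cyc_zero hl hn i, cyc_one hl hn i]
    simp only [toP3]
    exact_mod_cast h1
  · have h1 := (H i).2.1
    simp only [relB, decide_eq_true_eq] at h1
    rw [cyc_zero hl' hn i, cyc_one hl' hn i]
    simp only [toP3]
    exact_mod_cast h1
  · have h1 := (H (i - 1)).2.2.2
    have a0 := cyc_zero hl hn (i - 1)
    have a1 := cyc_add_nat hl hn (i - 1) 1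
    have a2 := cyc_add_nat hl hn (i - 1) 2
    have b0 := cyc_zero hl' hn (i - 1)
    have b1 := cyc_add_nat hl' hn (i - 1) 1
    have b2 := cyc_add_nat hl' hn (i - 1) 2
    rw [show i - 1 + ((1 : ℕ) : ℤ) = i by push_cast; ring] at a1 b1
    rw [show i - 1 + ((2 : ℕ) : ℤ) = i + 1 by push_cast; ring] at a2 b2
    simp only [corB, Bool.or_eq_true] at h1
    rcases h1 with h1 | h1 | h1 | h1 <;> exact cornerOK_of_cor1 _ _ a0 a1 a2 b0 b1 b2 h1
  · have h1 := (H i).2.2.1
    simp only [linB, Bool.or_eq_true, Bool.and_eq_true, decide_eq_true_eq] at h1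
    unfold LinOK
    rw [cyc_zero hl hn i, cyc_one hl hn i, cyc_zero hl' hn i, cyc_one hl' hn i]
    simp only [toP3]
    rcases h1 with h1 | h1
    · exact Or.inl (by exact_mod_cast h1)
    · exact Or.inr ⟨by exact_mod_cast h1.1, by exact_mod_cast h1.2⟩

theorem self_sound {l l' : List Z3} {n : ℕ} (hl : l.length = n) (hl' : l'.length = n)
    (h : tri (fun e f => sepR e f (adj e f)) ((List.range n).map (recAt l l')) = true)
    (i j : ℤ) (h1 : i + 2 ≤ j) (h2 : j + 2 ≤ i + n) :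
    SepE (cyc l) (cyc l') i (cyc l) (cyc l') j := by
  have hn : 0 < n := by omega
  rw [tri_iff, List.pairwise_map] at h
  have H : ∀ a b : ℕ, a < b → b < n →
      sepR (recAt l l' a) (recAt l l' b) (adj (recAt l l' a) (recAt l l' b)) = true := by
    intro a b hab hb
    rw [List.pairwise_iff_getElem] at h
    have := h a b (by simp; omega) (by simpa using hb) hab
    simpa using this
  have na := not_adj (l' := l') (m' := l') hl hl h1 h2
  rcases lt_trichotomy (res n i) (res n j) with c | c | c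
  · exact (sepE_of_recAt hl hl' hl hl' hn hn i j (H _ _ c (res_lt hn j))).resolve_right na
  · exact absurd (by simp [adj, bor_iff, recAt, rOf, c]) na
  · exact SepE.symm' ((sepE_of_recAt hl hl' hl hl' hn hn j i
      (H _ _ c (res_lt hn i))).resolve_right fun h => na (adj_symm _ _ h))

theorem cross_sound {l l' m m' : List Z3} {n n' : ℕ} (hl : l.length = n) (hl' : l'.length = n)
    (hm : m.length = n') (hm' : m'.length = n') (hn : 0 < n) (hn' : 0 < n') {g : R → R → Bool}
    (h : allP (fun e => allP (fun f => sepR e f (g e f)) ((List.range n').map (recAt m m')))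
      ((List.range n).map (recAt l l')) = true) (i j : ℤ) :
    SepE (cyc l) (cyc l') i (cyc m) (cyc m') j ∨
      g (recAt l l' (res n i)) (recAt m m' (res n' j)) = true := by
  rw [allP_iff] at h
  have h1 := h _ (List.mem_map_of_mem (List.mem_range.2 (res_lt hn i)))
  rw [allP_iff] at h1
  exact sepE_of_recAt hl hl' hm hm' hn hn' i j
    (h1 _ (List.mem_map_of_mem (List.mem_range.2 (res_lt hn' j))))

/-! ### steps and chains -/

abbrev LL : Type := List Z3 × List Z3

def toF (L : LL) (c : Bool) : List Z3 := if c then L.2 else L.1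

noncomputable def stepB (L L' : LL) : Bool :=
  band (Nat.beq L.1.length 44) (band (Nat.beq L.2.length 44) (band (Nat.beq L'.1.length 44)
    (band (Nat.beq L'.2.length 44) (band (allP (locB L.1 L'.1) (List.range 44))
      (band (allP (locB L.2 L'.2) (List.range 44))
        (recsK L.1 L'.1 (List.range 44) fun E => recsK L.2 L'.2 (List.range 44) fun F =>
          band (tri (fun e f => sepR e f (adj e f)) E) (band (tri (fun e f => sepR e f (adj e f)) F)
            (allP (fun e => allP (fun f => sepR e f false) F) E))))))))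

theorem stepB_sound {L L' : LL} (h : stepB L L' = true) : StepOK (toF L) (toF L') := by
  simp only [stepB, band_iff, Nat.beq_eq, recsK_eq] at h
  obtain ⟨n1, n2, n1', n2', l1, l2, s1, s2, x⟩ := h
  have k1 := loc_sound n1 n1' (by norm_num) l1
  have k2 := loc_sound n2 n2' (by norm_num) l2
  refine ⟨fun c => ?_, fun i j => ?_⟩
  · cases c
    · refine ⟨by simp [toF, n1], by simp [toF, n1, n1'], k1.1, k1.2.1, k1.2.2, fun i j a b => ?_⟩
      exact self_sound n1 n1' s1 i j a (by simpa [toF, n1] using b)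
    · refine ⟨by simp [toF, n2], by simp [toF, n2, n2'], k2.1, k2.2.1, k2.2.2, fun i j a b => ?_⟩
      exact self_sound n2 n2' s2 i j a (by simpa [toF, n2] using b)
  · exact (cross_sound (g := fun _ _ => false) n1 n1' n2 n2' (by norm_num) (by norm_num) x
      i j).resolve_right (by simp)

def app1 (l : List Z3) (c : Bool) (cs : List (Bool × ℕ × Z3)) : List Z3 :=
  cs.foldl (fun l x => if x.1 = c then l.set x.2.1 x.2.2 else l) l

noncomputable def chainK (steps : List (List (Bool × ℕ × Z3))) (E : LL) : LL → Bool :=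
  List.rec (fun L => decide (L = E))
    (fun cs _ ih L => frcL (app1 L.1 false cs) fun a => frcL (app1 L.2 true cs) fun b =>
      band (stepB L (a, b)) (ih (a, b))) steps

noncomputable def chainB (L : LL) (steps : List (List (Bool × ℕ × Z3))) (E : LL) : Bool :=
  frcL L.1 fun a => frcL L.2 fun b => chainK steps E (a, b)

/-- the knots of a pair of lists -/
noncomputable def kn (π : Prof) (L : LL) (c : Bool) : ℝ → P3 := π.knot (toF L c)

theorem chainK_sound (steps : List (List (Bool × ℕ × Z3))) (E L : LL)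
    (h : chainK steps E L = true) : Small fun π => LegChain (kn π L) (kn π E) := by
  induction steps generalizing L with
  | nil =>
    have : L = E := of_decide_eq_true h
    subst this
    exact ⟨1, one_pos, fun π _ => Relation.ReflTransGen.refl⟩
  | cons cs r ih =>
    have h' : (frcL (app1 L.1 false cs) fun a => frcL (app1 L.2 true cs) fun b =>
      band (stepB L (a, b)) (chainK r E (a, b))) = true := h
    rw [frcL_eq, frcL_eq, band_iff] at h'
    refine ((step_sound (stepB_sound h'.1)).and (ih _ h'.2)).mono fun π hπ => ?_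
    exact Relation.ReflTransGen.head hπ.1 hπ.2

theorem chainB_sound {steps : List (List (Bool × ℕ × Z3))} {E L : LL}
    (h : chainB L steps E = true) : Small fun π => LegChain (kn π L) (kn π E) := by
  unfold chainB at h
  rw [frcL_eq, frcL_eq] at h
  exact chainK_sound _ _ _ h

theorem chain_trans {A B C : LL} (h : Small fun π => LegChain (kn π A) (kn π B))
    (h' : Small fun π => LegChain (kn π B) (kn π C)) : Small fun π => LegChain (kn π A) (kn π C) :=
  (h.and h').mono fun _ hπ => Relation.ReflTransGen.trans hπ.1 hπ.2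

/-! ### vertical shifts -/

def up (h : ℤ) (p : Z3) : Z3 := (p.1, p.2.1, p.2.2 + h)

theorem toP3_up (h : ℤ) (p : Z3) : toP3 (up h p) = toP3 p + (0, 0, (h : ℝ)) := by
  simp [toP3, up]

theorem cyc_map_up {l : List Z3} (hn : 0 < l.length) (h : ℤ) :
    cyc (l.map (up h)) = fun k => cyc l k + (0, 0, (h : ℝ)) := by
  funext k
  have hr := res_lt hn k
  unfold cyc
  rw [← toP3_up, List.length_map]
  congr 1
  change (l.map (up h)).getD (res l.length k) _ = up h (l.getD (res l.length k) _)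
  rw [List.getD_eq_getElem _ _ (by simpa using hr), List.getD_eq_getElem _ _ hr, List.getElem_map]

noncomputable def shiftB (l : List Z3) (n : ℕ) (h : ℤ) : Bool :=
  frcL l fun l => frcL (l.map (up h)) fun lp => frcL (l.map (up (-h))) fun lm =>
    band (Nat.beq l.length n) (band (allP (locB l l) (List.range n))
      (recsK l l (List.range n) fun E => recsK l lp (List.range n) fun P =>
        recsK l lm (List.range n) fun M =>
          band (allP (fun e => allP (fun f => sepR e f (adj e f)) P) E)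
            (allP (fun e => allP (fun f => sepR e f (adj e f)) M) E)))

theorem shiftB_sound {l : List Z3} {n : ℕ} {h : ℤ} (h4 : 4 ≤ n) (H : shiftB l n h = true) :
    ShiftOK l h := by
  simp only [shiftB, frcL_eq, band_iff, Nat.beq_eq, recsK_eq] at H
  obtain ⟨hl, lo, p, m⟩ := H
  have hn : 0 < n := by omega
  have k := loc_sound hl hl hn lo
  refine ⟨by omega, k.1, fun i => (k.2.2 i).1, fun i j a b => ?_⟩
  rw [hl] at b
  constructor
  · have := (cross_sound (g := adj) hl hl hl (by simpa using hl) hn hn p i j).resolve_right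
      (not_adj hl hl a b)
    rwa [cyc_map_up (by omega)] at this
  · have := (cross_sound (g := adj) hl hl hl (by simpa using hl) hn hn m i j).resolve_right
      (not_adj hl hl a b)
    rw [cyc_map_up (by omega)] at this
    simpa using this

/-- the start of the chain -/
def st0 : LL := (Wa.map (up (-131072)), Wb.map (up 131072))

/-- the state after `k` steps -/
def stAt (k : ℕ) : LL :=
  (certSteps.take k).foldl (fun L cs => (app1 L.1 false cs, app1 L.2 true cs)) st0

/-- the end of the chain -/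
def stE : LL := (WU, (List.range 44).map fun j => up 524288 (gv WU (j + 4)))

end Pool.Agent.Lib.MP_4d7d0a_gt.CertAux
end
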