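import Pool.Agent.Lib.MP_4d7d0a_gt.TB1

-- part Pool.Agent.Lib.MP_4d7d0a_gt.TBV
section

/-! Transport of the invariant along families, immersions and subdivisions. -/

set_option autoImplicit false

open Set Filter Topology
open scoped ContDiff

namespace Pool.Agent.Lib.MP_4d7d0a_gt

theorem tbv_fderiv_cont {h : P2 → P3} {W : Set P2} (hh : Imm h W) {w : P2} (hw : w ∈ W) :
    ContinuousAt (fderiv ℝ h) w :=
  ((hh.sm w hw).fderiv_right (m := 0) (by simp)).continuousAt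

theorem EmbE.push {ι : Type} {h : P2 → P3} {W : Set P2} (hh : Imm h W) {σ : Equiv.Perm ι}
    {c d : ι → ℝ → P2} (he : EmbE σ c d) (hW : InW W c) :
    EmbE σ (fun v u => h (c v u)) (fun v u => fderiv ℝ h (c v u) (d v u)) := by
  have hc := he.continuousOn
  obtain ⟨h1, h2, h3, h4, h5⟩ := he
  refine ⟨fun v u hu => ⟨?_, ?_⟩, fun v => ?_, fun v => ?_, fun v r hr e => ?_,
    fun v w u hu u' hu' e => ?_⟩
  · exact ((hh.sm _ (hW v u hu)).differentiableAt one_ne_zero).hasFDerivAt.comp_hasDerivWithinAt u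
      (h1 v u hu).1
  · intro e
    exact (h1 v u hu).2 (hh.imm _ (hW v u hu) (e.trans (map_zero _).symm))
  · refine ContinuousOn.clm_apply (fun u hu => ?_) (h2 v)
    exact ContinuousAt.comp_continuousWithinAt (f := c v) (tbv_fderiv_cont hh (hW v u hu))
      (hc v u hu)
  · exact congrArg h (h3 v)
  · apply h4 v r hr
    apply hh.imm _ (hW v 1 ⟨zero_le_one, le_rfl⟩)
    have e' : fderiv ℝ h (c v 1) (d v 1) = -(r • fderiv ℝ h (c (σ v) 0) (d (σ v) 0)) := e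
    rw [e', map_neg, map_smul, h3 v]
  · exact h5 v w u hu u' hu' (hh.inj (hW v u (Ico_subset_Icc_self hu))
      (hW w u' (Ico_subset_Icc_self hu')) e)

theorem FamE.push {ι : Type} {h : P2 → P3} {W : Set P2} (hh : Imm h W) {σ : Equiv.Perm ι}
    {c₀ c₁ : ι → ℝ → P2} (hf : FamE W σ c₀ c₁) :
    FamE (h '' W) σ (fun v u => h (c₀ v u)) (fun v u => h (c₁ v u)) := by
  obtain ⟨c, d, h1, h2, h3, h4, h5, h6⟩ := hf
  refine ⟨fun s v u => h (c s v u), fun s v u => fderiv ℝ h (c s v u) (d s v u),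
    fun s hs => EmbE.push hh (h1 s hs) (h4 s hs), fun v a ha => ?_, fun v => ?_,
    fun s hs v u hu => mem_image_of_mem h (h4 s hs v u hu), fun v u hu => congrArg h (h5 v u hu),
    fun v u hu => congrArg h (h6 v u hu)⟩
  · exact ContinuousAt.comp_continuousWithinAt (f := fun a : ℝ × ℝ => c a.1 v a.2)
      (hh.sm _ (h4 a.1 ha.1 v a.2 ha.2)).continuousAt (h2 v a ha)
  · refine ContinuousOn.clm_apply (fun a ha => ?_) (h3 v)
    exact ContinuousAt.comp_continuousWithinAt (f := fun a : ℝ × ℝ => c a.1 v a.2)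
      (tbv_fderiv_cont hh (h4 a.1 ha.1 v a.2 ha.2)) (h2 v a ha)

theorem V_congr (T : KTheory) {ι : Type} [Finite ι] {σ : Equiv.Perm ι} {c c' d : ι → ℝ → P3}
    (he : EmbE σ c d) (e : ∀ v, ∀ u ∈ Icc (0 : ℝ) 1, c' v u = c v u) {q : ℤ}
    (h : T.V (⟨σ, c⟩ : CPL ι) q) : T.V (⟨σ, c'⟩ : CPL ι) q :=
  T.relabel (Equiv.refl ι) ⟨σ, c⟩ ⟨σ, c'⟩ q ⟨d, he⟩ (fun _ => rfl) e h

theorem V_fam (T : KTheory) {ι : Type} [Finite ι] {W : Set P3} {σ : Equiv.Perm ι}
    {c₀ c₁ : ι → ℝ → P3} (hf : FamE W σ c₀ c₁) {q : ℤ} (h : T.V (⟨σ, c₀⟩ : CPL ι) q) :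
    T.V (⟨σ, c₁⟩ : CPL ι) q := by
  obtain ⟨-, d₀, hd₀⟩ := hf.left
  obtain ⟨c, d, h1, h2, h3, -, h5, h6⟩ := hf
  have a0 : T.V (⟨σ, c 0⟩ : CPL ι) q := V_congr T hd₀ h5 h
  have a1 : T.V (⟨σ, c 1⟩ : CPL ι) q := T.fam σ c d q h1 h2 h3 a0
  exact V_congr T (h1 1 ⟨zero_le_one, le_rfl⟩) (fun v u hu => (h6 v u hu).symm) a1

theorem V_fam2 (T : KTheory) {ι : Type} [Finite ι] {h : P2 → P3} {W : Set P2} (hh : Imm h W)
    {σ : Equiv.Perm ι} {c₀ c₁ : ι → ℝ → P2} (hf : FamE W σ c₀ c₁) {q : ℤ}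
    (hV : T.V (⟨σ, fun v u => h (c₀ v u)⟩ : CPL ι) q) :
    T.V (⟨σ, fun v u => h (c₁ v u)⟩ : CPL ι) q :=
  V_fam T (FamE.push hh hf) hV

theorem tbv_bpos_lt {k : ℕ} (v : Bd k) : bpos k v < 6 * k := by
  have := v.1.isLt
  have := v.2.isLt
  unfold bpos
  split_ifs <;> omega

theorem tbv_bpos_inj {k : ℕ} : Function.Injective (bpos k) := by
  intro v w h
  have := v.1.isLt
  have := v.2.isLt
  have := w.1.isLt
  have := w.2.isLt
  have h3 : v.1.val = w.1.val ∧ v.2.val = w.2.val := by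
    unfold bpos at h
    split_ifs at h <;> omega
  exact Prod.ext (Fin.ext h3.1) (Fin.ext h3.2)

theorem tbv_bpos_sig {k : ℕ} (v : Bd k) :
    bpos k (sig k 0 v) = if bpos k v + 1 < 6 * k then bpos k v + 1 else 0 := by
  have := v.1.isLt
  have := v.2.isLt
  obtain ⟨a1, a2⟩ := nxt_val k 0 v
  rw [sig_apply]
  unfold bpos
  rw [a1, a2]
  split_ifs <;> omega

/-- one closed curve cut into `6 k` arcs indexed by the arcs of the beads -/
theorem V_out (T : KTheory) {k : ℕ} (hk : 0 < k) {γ : ℝ → P3} {d : Unit → ℝ → P3}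
    (he : EmbE (1 : Equiv.Perm Unit) (fun _ => γ) d) {q : ℤ}
    (h : T.V (⟨1, fun _ => γ⟩ : CPL Unit) q) :
    T.V (⟨sig k 0, fun v u => γ ((bpos k v + u) / (6 * k))⟩ : CPL (Bd k)) q := by
  obtain ⟨n, hn⟩ : ∃ n, 6 * k = n + 1 := ⟨6 * k - 1, by omega⟩
  have hnR : (6 * k : ℝ) = n + 1 := by exact_mod_cast hn
  let σ' : Equiv.Perm (Unit × Fin (n + 1)) := Equiv.prodCongr 1 (finRotate (n + 1))
  have s1 : ∀ (v : Unit) (j : Fin n), σ' (v, j.castSucc) = (v, j.succ) := by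
    intro v j
    simp [σ']
  have s2 : ∀ v : Unit, σ' (v, Fin.last n) = ((1 : Equiv.Perm Unit) v, 0) := by
    intro v
    simp [σ']
  have hE := he.split n σ' s1 s2
  have hV : T.V (⟨σ', fun v u => γ (((v.2 : ℕ) + u) / (n + 1))⟩ : CPL (Unit × Fin (n + 1))) q :=
    (T.split n ⟨1, fun _ => γ⟩ ⟨σ', fun v u => γ (((v.2 : ℕ) + u) / (n + 1))⟩ q ⟨d, he⟩ s1 s2
      (fun _ _ _ _ => rfl)).1 h
  let f : Bd k → Unit × Fin (n + 1) := fun v => ((), ⟨bpos k v, hn ▸ tbv_bpos_lt v⟩)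
  have hf : Function.Bijective f := by
    rw [Fintype.bijective_iff_injective_and_card]
    refine ⟨fun v w e => tbv_bpos_inj (congrArg (fun p : Unit × Fin (n + 1) => p.2.val) e), ?_⟩
    simp only [Fintype.card_prod, Fintype.card_fin, Fintype.card_unit]
    omega
  have hfs : ∀ w, f (sig k 0 w) = σ' (f w) := by
    intro w
    refine Prod.ext rfl (Fin.ext ?_)
    have e1 := tbv_bpos_sig w
    have e2 := tbv_bpos_lt w
    change bpos k (sig k 0 w) = (finRotate (n + 1) ⟨bpos k w, hn ▸ tbv_bpos_lt w⟩).val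
    rw [finRotate_apply, Fin.val_add_one]
    simp only [Fin.ext_iff, Fin.val_last]
    split_ifs at e1 ⊢ <;> omega
  refine T.relabel (Equiv.ofBijective f hf).symm
    ⟨σ', fun v u => γ (((v.2 : ℕ) + u) / (n + 1))⟩ _ q ⟨_, hE⟩ (fun v => ?_) (fun v u _ => ?_) hV
  · obtain ⟨w, rfl⟩ := hf.2 v
    change sig k 0 ((Equiv.ofBijective f hf).symm (f w)) = (Equiv.ofBijective f hf).symm (σ' (f w))
    rw [← hfs, Equiv.ofBijective_symm_apply_apply, Equiv.ofBijective_symm_apply_apply]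
  · obtain ⟨w, rfl⟩ := hf.2 v
    change γ ((bpos k ((Equiv.ofBijective f hf).symm (f w)) + u) / (6 * k)) =
      γ ((bpos k w + u) / (n + 1))
    rw [Equiv.ofBijective_symm_apply_apply, hnR]

/-- `k` closed curves cut into six arcs each -/
theorem V_in (T : KTheory) {k J : ℕ} (hJ : k ≤ J + 1) {γ d : Fin k → ℝ → P3}
    (he : EmbE (1 : Equiv.Perm (Fin k)) γ d) {q : ℤ}
    (h : T.V (⟨sig k J, fun v u => γ v.1 (((v.2 : ℕ) + u) / 6)⟩ : CPL (Bd k)) q) :
    T.V (⟨1, γ⟩ : CPL (Fin k)) q := by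
  have key : ∀ v : Bd k, sig k J v = (v.1, v.2 + 1) := by
    intro v
    have := v.1.isLt
    rw [sig_apply]
    unfold nxt
    rw [dif_neg (by omega), if_neg (by omega)]
  refine (T.split 5 ⟨1, γ⟩ ⟨sig k J, fun v u => γ v.1 (((v.2 : ℕ) + u) / 6)⟩ q ⟨d, he⟩
    (fun v j => ?_) (fun v => ?_) (fun v j u _ => ?_)).2 h
  · change sig k J (v, j.castSucc) = (v, j.succ)
    rw [key]
    simp
  · change sig k J (v, Fin.last 5) = (v, 0)
    rw [key]
    rfl
  · change γ v (((j : ℕ) + u) / 6) = γ v (((j : ℕ) + u) / ((5 : ℕ) + 1))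
    norm_num

end Pool.Agent.Lib.MP_4d7d0a_gt
end

-- part Pool.Agent.Lib.MP_4d7d0a_gt.TBSad
section

/-! Saddles in an affine piece of the surface. -/

set_option autoImplicit false

open Set Filter Topology
open scoped ContDiff

namespace Pool.Agent.Lib.MP_4d7d0a_gt

/-- the projection attached to plane coordinates -/
def tbsad_pr (G : P3 →ₗ[ℝ] P2) : P3 →ₗ[ℝ] P3 :=
  ((LinearMap.fst ℝ ℝ ℝ).comp G).prod ((0 : P3 →ₗ[ℝ] ℝ).prod ((LinearMap.snd ℝ ℝ ℝ).comp G))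

theorem tbsad_det (G : P3 →ₗ[ℝ] P2) (p q : P3) :
    det2 (tbsad_pr G p) (tbsad_pr G q) = detP (G p) (G q) := rfl

/-- the saddle move for plane chains, when `h` is affine near the quadrilateral -/
theorem V_saddle2 (T : KTheory) {ι : Type} [Finite ι] {h : P2 → P3} {W : Set P2} (hh : Imm h W)
    {σ σ' : Equiv.Perm ι} {c c' d d' : ι → ℝ → P2} (he : EmbE σ c d) (he' : EmbE σ' c' d')
    (hW : InW W c) (hW' : InW W c') {a b : ι} (hab : a ≠ b) (A B C D : P2)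
    (s1 : σ' a = σ b) (s2 : σ' b = σ a) (s3 : ∀ g, g ≠ a → g ≠ b → σ' g = σ g)
    (c1 : ∀ g, g ≠ a → g ≠ b → ∀ u ∈ Icc (0 : ℝ) 1, c' g u = c g u)
    (c2 : ∀ u ∈ Icc (0 : ℝ) 1, c a u = AffineMap.lineMap A B u ∧ c b u = AffineMap.lineMap C D u ∧
      c' a u = AffineMap.lineMap A D u ∧ c' b u = AffineMap.lineMap C B u)
    (hdet : 0 < detP (B - A) (C - B) ∧ 0 < detP (C - B) (D - C) ∧ 0 < detP (D - C) (A - D) ∧
      0 < detP (A - D) (B - A))
    (hav : ∀ g, g ≠ a → g ≠ b → ∀ u ∈ Icc (0 : ℝ) 1, c g u ∈ convexHull ℝ {A, B, C, D} →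
      (u = 0 ∧ (g = σ a ∨ g = σ b)) ∨ (u = 1 ∧ (σ g = a ∨ σ g = b)))
    (hin : ∀ g, σ g = a ∨ σ g = b → ∃ l : P2 →ₗ[ℝ] ℝ, l (d g 1) < 0 ∧
      ∀ p ∈ ({A, B, C, D} : Set P2), l p ≤ l (c g 1))
    (hout : ∀ g, g = σ a ∨ g = σ b → ∃ l : P2 →ₗ[ℝ] ℝ, 0 < l (d g 0) ∧
      ∀ p ∈ ({A, B, C, D} : Set P2), l p ≤ l (c g 0))
    {O : Set P2} (hO : IsOpen O) (hQ : convexHull ℝ {A, B, C, D} ⊆ O ∩ W) (L : P2 →L[ℝ] P3)
    (b₀ : P3) (haff : ∀ w ∈ O, h w = b₀ + L w) {q : ℤ}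
    (hV : T.V (⟨σ, fun v u => h (c v u)⟩ : CPL ι) q) :
    T.V (⟨σ', fun v u => h (c' v u)⟩ : CPL ι) (q - 1) := by
  have hA : A ∈ convexHull ℝ ({A, B, C, D} : Set P2) := subset_convexHull _ _ (by simp)
  have hB : B ∈ convexHull ℝ ({A, B, C, D} : Set P2) := subset_convexHull _ _ (by simp)
  have hC : C ∈ convexHull ℝ ({A, B, C, D} : Set P2) := subset_convexHull _ _ (by simp)
  have hD : D ∈ convexHull ℝ ({A, B, C, D} : Set P2) := subset_convexHull _ _ (by simp)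
  have haf : ∀ w ∈ convexHull ℝ ({A, B, C, D} : Set P2), h w = b₀ + L w := fun w hw =>
    haff w (hQ hw).1
  have hfd : ∀ w ∈ convexHull ℝ ({A, B, C, D} : Set P2), fderiv ℝ h w = L := fun w hw =>
    ((L.hasFDerivAt.const_add b₀).congr_of_eventuallyEq
      (Filter.eventually_of_mem (hO.mem_nhds (hQ hw).1) haff)).fderiv
  have hL : Function.Injective L := hfd A hA ▸ hh.imm A (hQ hA).2
  obtain ⟨G, hG⟩ := (L : P2 →ₗ[ℝ] P3).exists_leftInverse_of_injective (LinearMap.ker_eq_bot.2 hL)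
  have hG' : ∀ v, G (L v) = v := fun v => LinearMap.congr_fun hG v
  have hline : ∀ P ∈ convexHull ℝ ({A, B, C, D} : Set P2),
      ∀ R ∈ convexHull ℝ ({A, B, C, D} : Set P2), ∀ u ∈ Icc (0 : ℝ) 1,
        h (AffineMap.lineMap P R u) = AffineMap.lineMap (h P) (h R) u := by
    intro P hP R hR u hu
    rw [haf _ ((convex_convexHull ℝ _).lineMap_mem hP hR hu), haf P hP, haf R hR]
    simp only [AffineMap.lineMap_apply, vsub_eq_sub, vadd_eq_add, map_add, map_smul, map_sub]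
    module
  have hdt : ∀ P ∈ convexHull ℝ ({A, B, C, D} : Set P2),
      ∀ R ∈ convexHull ℝ ({A, B, C, D} : Set P2), ∀ P' ∈ convexHull ℝ ({A, B, C, D} : Set P2),
      ∀ R' ∈ convexHull ℝ ({A, B, C, D} : Set P2),
        det2 (tbsad_pr G (h P - h R)) (tbsad_pr G (h P' - h R')) = detP (P - R) (P' - R') := by
    intro P hP R hR P' hP' R' hR'
    rw [haf P hP, haf R hR, haf P' hP', haf R' hR', add_sub_add_left_eq_sub,
      add_sub_add_left_eq_sub, ← map_sub, ← map_sub, tbsad_det, hG', hG']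
  have hfun : ∀ (l : P2 →ₗ[ℝ] ℝ), ∀ w ∈ convexHull ℝ ({A, B, C, D} : Set P2),
      (∀ p ∈ ({A, B, C, D} : Set P2), l p ≤ l w) →
      ∀ p ∈ ({h A, h B, h C, h D} : Set P3), l.comp G p ≤ l.comp G (h w) := by
    intro l w hw hl
    have k : ∀ p ∈ ({A, B, C, D} : Set P2), l.comp G (h p) ≤ l.comp G (h w) := fun p hp => by
      rw [haf p (subset_convexHull _ _ hp), haf w hw]
      simpa only [LinearMap.comp_apply, map_add, hG', add_le_add_iff_left] using hl p hp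
    rintro p (rfl | rfl | rfl | rfl) <;> exact k _ (by simp)
  have z0 : (0 : ℝ) ∈ Icc (0 : ℝ) 1 := ⟨le_rfl, zero_le_one⟩
  have z1 : (1 : ℝ) ∈ Icc (0 : ℝ) 1 := ⟨zero_le_one, le_rfl⟩
  refine T.saddle ⟨σ, fun v u => h (c v u)⟩ ⟨σ', fun v u => h (c' v u)⟩
    (fun v u => fderiv ℝ h (c v u) (d v u)) a b (h A) (h B) (h C) (h D) (tbsad_pr G) q
    (he.push hh hW) ⟨_, he'.push hh hW'⟩ hab s1 s2 s3
    (fun g h1 h2 u hu => congrArg h (c1 g h1 h2 u hu)) (fun u hu => ?_) ?_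
    (fun g h1 h2 u hu hm => hav g h1 h2 u hu ?_) (fun g hg => ?_) (fun g hg => ?_) hV
  · obtain ⟨e1, e2, e3, e4⟩ := c2 u hu
    simp only [e1, e2, e3, e4]
    exact ⟨hline A hA B hB u hu, hline C hC D hD u hu, hline A hA D hD u hu,
      hline C hC B hB u hu⟩
  · rw [hdt B hB A hA C hC B hB, hdt C hC B hB D hD C hC, hdt D hD C hC A hA D hD,
      hdt A hA D hD B hB A hA]
    exact hdet
  · have hcv : Convex ℝ (h '' convexHull ℝ ({A, B, C, D} : Set P2)) := by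
      rw [image_congr haf, ← image_image (b₀ + ·) L]
      exact ((convex_convexHull ℝ _).linear_image (L : P2 →ₗ[ℝ] P3)).translate b₀
    obtain ⟨w, hw, e⟩ := convexHull_min (s := {h A, h B, h C, h D})
      (by rintro p (rfl | rfl | rfl | rfl) <;> exact mem_image_of_mem h ‹_›) hcv hm
    rwa [← hh.inj (hQ hw).2 (hW g u hu) e]
  · obtain ⟨l, l1, l2⟩ := hin g hg
    have hw : c g 1 ∈ convexHull ℝ ({A, B, C, D} : Set P2) := by
      rw [he.2.2.1 g]
      rcases hg with e | e <;> rw [e]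
      · rw [(c2 0 z0).1, AffineMap.lineMap_apply_zero]; exact hA
      · rw [(c2 0 z0).2.1, AffineMap.lineMap_apply_zero]; exact hC
    refine ⟨l.comp G, ?_, hfun l _ hw l2⟩
    simpa only [LinearMap.comp_apply, hfd _ hw, hG'] using l1
  · obtain ⟨l, l1, l2⟩ := hout g hg
    have hw : c g 0 ∈ convexHull ℝ ({A, B, C, D} : Set P2) := by
      rcases hg with e | e <;> rw [e, ← he.2.2.1]
      · rw [(c2 1 z1).1, AffineMap.lineMap_apply_one]; exact hB
      · rw [(c2 1 z1).2.1, AffineMap.lineMap_apply_one]; exact hD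
    refine ⟨l.comp G, ?_, hfun l _ hw l2⟩
    simpa only [LinearMap.comp_apply, hfd _ hw, hG'] using l1

end Pool.Agent.Lib.MP_4d7d0a_gt
end

-- part Pool.Agent.Lib.MP_4d7d0a_gt.TBCol
section

/-! The convex class of column chains is embedded. -/

set_option autoImplicit false

open Set Filter Topology
open scoped ContDiff

namespace Pool.Agent.Lib.MP_4d7d0a_gt

theorem tbcol_ty {t : ℕ} (h : t < 4) : t = 0 ∨ t = 1 ∨ t = 2 ∨ t = 3 := by omega

theorem tbcol_mono {f f' : ℝ → ℝ} (h : ∀ u ∈ Icc (0 : ℝ) 1, HasDerivWithinAt f (f' u) (Icc 0 1) u)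
    (hp : ∀ u ∈ Icc (0 : ℝ) 1, 0 < f' u) : StrictMonoOn f (Icc 0 1) :=
  strictMonoOn_of_hasDerivWithinAt_pos (convex_Icc 0 1) (fun u hu => (h u hu).continuousWithinAt)
    (fun u hu => (h u (interior_subset hu)).mono interior_subset)
    fun u hu => hp u (interior_subset hu)

theorem tbcol_anti {f f' : ℝ → ℝ} (h : ∀ u ∈ Icc (0 : ℝ) 1, HasDerivWithinAt f (f' u) (Icc 0 1) u)
    (hp : ∀ u ∈ Icc (0 : ℝ) 1, f' u < 0) : StrictAntiOn f (Icc 0 1) :=
  strictAntiOn_of_hasDerivWithinAt_neg (convex_Icc 0 1) (fun u hu => (h u hu).continuousWithinAt)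
    (fun u hu => (h u (interior_subset hu)).mono interior_subset)
    fun u hu => hp u (interior_subset hu)

section

variable {ι : Type} {n : ℕ} {σ : Equiv.Perm ι} {ty p q : ι → ℕ} {X : ℕ → ℝ} {c d : ι → ℝ → P2}

theorem tbcol_x0 (hg : Geo n σ ty p q X c d) {v : ι} (h : ty v = 0) :
    StrictMonoOn (fun u => (c v u).1) (Icc 0 1) :=
  tbcol_mono (fun u hu => hasFDerivAt_fst.comp_hasDerivWithinAt u (hg.der v u hu))
    fun u hu => ((hg.bot v h).2.2 u hu).1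

theorem tbcol_x2 (hg : Geo n σ ty p q X c d) {v : ι} (h : ty v = 2) :
    StrictAntiOn (fun u => (c v u).1) (Icc 0 1) :=
  tbcol_anti (fun u hu => hasFDerivAt_fst.comp_hasDerivWithinAt u (hg.der v u hu))
    fun u hu => ((hg.top v h).2.2 u hu).1

theorem tbcol_y1 (hg : Geo n σ ty p q X c d) {v : ι} (h : ty v = 1) :
    StrictMonoOn (fun u => (c v u).2) (Icc 0 1) :=
  tbcol_mono (fun u hu => hasFDerivAt_snd.comp_hasDerivWithinAt u (hg.der v u hu))
    fun u hu => ((hg.right v h).1 u hu).1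

theorem tbcol_y3 (hg : Geo n σ ty p q X c d) {v : ι} (h : ty v = 3) :
    StrictAntiOn (fun u => (c v u).2) (Icc 0 1) :=
  tbcol_anti (fun u hu => hasFDerivAt_snd.comp_hasDerivWithinAt u (hg.der v u hu))
    fun u hu => ((hg.left v h).1 u hu).1

theorem tbcol_inj (hc : Comb n σ ty p q) (hg : Geo n σ ty p q X c d) (v : ι) :
    InjOn (c v) (Icc 0 1) := fun u hu u' hu' e => by
  rcases tbcol_ty (hc.ty_lt v) with h | h | h | h
  exacts [(tbcol_x0 hg h).injOn hu hu' (congrArg Prod.fst e),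
    (tbcol_y1 hg h).injOn hu hu' (congrArg Prod.snd e),
    (tbcol_x2 hg h).injOn hu hu' (congrArg Prod.fst e),
    (tbcol_y3 hg h).injOn hu hu' (congrArg Prod.snd e)]

theorem tbcol_up (hc : Comb n σ ty p q) (hg : Geo n σ ty p q X c d) (v : ι) {u : ℝ}
    (hu : u ∈ Ico (0 : ℝ) 1) :
    (c v u).1 < X (q v) ∨ (c v u).1 ≤ X (q v) ∧ (ty v = 2 ∧ u = 0 ∨ ty v = 3) := by
  have hu' := Ico_subset_Icc_self hu
  rcases tbcol_ty (hc.ty_lt v) with h | h | h | h
  · exact Or.inl ((tbcol_x0 hg h hu' (right_mem_Icc.2 zero_le_one) hu.2).trans_eq (hg.bot v h).2.1)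
  · exact Or.inl ((hg.right v h).1 u hu').2.2
  · rcases hu.1.eq_or_lt with rfl | k
    · exact Or.inr ⟨(hg.top v h).1.le, Or.inl ⟨h, rfl⟩⟩
    · exact Or.inl ((tbcol_x2 hg h (left_mem_Icc.2 zero_le_one) hu' k).trans_eq (hg.top v h).1)
  · exact Or.inr ⟨((hg.left v h).1 u hu').2.2, Or.inr h⟩

theorem tbcol_low (hc : Comb n σ ty p q) (hg : Geo n σ ty p q X c d) (v : ι) {u : ℝ}
    (hu : u ∈ Ico (0 : ℝ) 1) :
    X (p v) < (c v u).1 ∨ X (p v) ≤ (c v u).1 ∧ (ty v = 0 ∧ u = 0 ∨ ty v = 1) := by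
  have hu' := Ico_subset_Icc_self hu
  rcases tbcol_ty (hc.ty_lt v) with h | h | h | h
  · rcases hu.1.eq_or_lt with rfl | k
    · exact Or.inr ⟨(hg.bot v h).1.ge, Or.inl ⟨h, rfl⟩⟩
    · exact Or.inl ((hg.bot v h).1.symm.trans_lt (tbcol_x0 hg h (left_mem_Icc.2 zero_le_one) hu' k))
  · exact Or.inr ⟨((hg.right v h).1 u hu').2.1, Or.inr h⟩
  · exact Or.inl ((hg.top v h).2.1.symm.trans_lt
      (tbcol_x2 hg h hu' (right_mem_Icc.2 zero_le_one) hu.2))
  · exact Or.inl ((hg.left v h).1 u hu').2.1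

theorem tbcol_sign (hg : Geo n σ ty p q X c d) {v w : ι} (hv : ty v = 0) (hw : ty w = 2) {u u' : ℝ}
    (hu : u ∈ Ico (0 : ℝ) 1) (hu' : u' ∈ Ico (0 : ℝ) 1) : c v u ≠ c w u' := fun e =>
  (((hg.bot v hv).2.2 u (Ico_subset_Icc_self hu)).2.trans
    ((hg.top w hw).2.2 u' (Ico_subset_Icc_self hu')).2).ne (congrArg Prod.snd e)

theorem tbcol_side (hc : Comb n σ ty p q) (hg : Geo n σ ty p q X c d) {v w : ι} (h : q v ≤ p w)
    {u u' : ℝ} (hu : u ∈ Ico (0 : ℝ) 1) (hu' : u' ∈ Ico (0 : ℝ) 1) : c v u ≠ c w u' := by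
  intro e
  have e1 : (c v u).1 = (c w u').1 := congrArg Prod.fst e
  have h1 := tbcol_up hc hg v hu
  have h2 := tbcol_low hc hg w hu'
  rcases h.eq_or_lt with k | k
  · rw [k, e1] at h1
    obtain ⟨t1, t2, t3⟩ := hc.touch v w k
    rcases h1 with h1 | ⟨h1, h3⟩
    · exact h1.not_ge (h2.elim le_of_lt And.left)
    rcases h2 with h2 | ⟨-, h2⟩
    · exact h2.not_ge h1
    rcases h3 with ⟨h3, rfl⟩ | h3 <;> rcases h2 with ⟨h2, rfl⟩ | h2
    · exact tbcol_sign hg h2 h3 hu hu e.symm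
    · rw [← t1 h3 h2, ← hg.close] at e
      exact hu'.2.ne' (tbcol_inj hc hg w (right_mem_Icc.2 zero_le_one) (Ico_subset_Icc_self hu') e)
    · rw [← t2 h3 h2, ← hg.close] at e
      exact hu.2.ne (tbcol_inj hc hg v (Ico_subset_Icc_self hu) (right_mem_Icc.2 zero_le_one) e)
    · exact t3 ⟨h3, h2⟩
  · exact (((h1.elim le_of_lt And.left).trans_lt
      (hg.mono _ _ k ((hc.lt w).le.trans (hc.le w)))).trans_le (h2.elim le_of_lt And.left)).ne e1

end

theorem tbcol_lt {s a b a' b' : ℝ} (hs : s ∈ Icc (0 : ℝ) 1) (h : a < b) (h' : a' < b') :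
    (1 - s) * a + s * a' < (1 - s) * b + s * b' := by
  have := convex_Ioi (𝕜 := ℝ) (0 : ℝ) (sub_pos.2 h) (sub_pos.2 h') (sub_nonneg.2 hs.2) hs.1
    (sub_add_cancel 1 s)
  simp only [mem_Ioi, smul_eq_mul] at this
  linarith

theorem tbcol_le {s a b a' b' : ℝ} (hs : s ∈ Icc (0 : ℝ) 1) (h : a ≤ b) (h' : a' ≤ b') :
    (1 - s) * a + s * a' ≤ (1 - s) * b + s * b' :=
  add_le_add (mul_le_mul_of_nonneg_left h (sub_nonneg.2 hs.2)) (mul_le_mul_of_nonneg_left h' hs.1)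

theorem tbcol_eq {s a b a' b' : ℝ} (h : a = b) (h' : a' = b') :
    (1 - s) * a + s * a' = (1 - s) * b + s * b' := by rw [h, h']

theorem tbcol_zero (s : ℝ) : (1 - s) * 0 + s * 0 = 0 := by ring

theorem tbcol_mix {ι : Type} {n : ℕ} {σ : Equiv.Perm ι} {ty p q : ι → ℕ}
    {X₀ X₁ : ℕ → ℝ} {c₀ d₀ c₁ d₁ : ι → ℝ → P2} (h₀ : Geo n σ ty p q X₀ c₀ d₀)
    (h₁ : Geo n σ ty p q X₁ c₁ d₁) {s : ℝ} (hs : s ∈ Icc (0 : ℝ) 1) :
    Geo n σ ty p q (fun a => (1 - s) * X₀ a + s * X₁ a) (fun v u => (1 - s) • c₀ v u + s • c₁ v u)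
      fun v u => (1 - s) • d₀ v u + s • d₁ v u := by
  have z := tbcol_zero s
  refine ⟨fun a b k k' => tbcol_lt hs (h₀.mono a b k k') (h₁.mono a b k k'),
    fun v u hu => ((h₀.der v u hu).const_smul (1 - s)).add ((h₁.der v u hu).const_smul s),
    fun v => ((h₀.cont v).const_smul (1 - s)).add ((h₁.cont v).const_smul s),
    fun v => by simp only [h₀.close, h₁.close], fun v h => ?_, fun v h => ?_, fun v h => ?_,
    fun v h => ?_⟩
  · obtain ⟨a1, a2, a3⟩ := h₀.bot v h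
    obtain ⟨b1, b2, b3⟩ := h₁.bot v h
    exact ⟨tbcol_eq a1 b1, tbcol_eq a2 b2, fun u hu =>
      ⟨z.symm.trans_lt (tbcol_lt hs (a3 u hu).1 (b3 u hu).1),
        (tbcol_lt hs (a3 u hu).2 (b3 u hu).2).trans_eq z⟩⟩
  · obtain ⟨a1, a2, a3⟩ := h₀.top v h
    obtain ⟨b1, b2, b3⟩ := h₁.top v h
    exact ⟨tbcol_eq a1 b1, tbcol_eq a2 b2, fun u hu =>
      ⟨(tbcol_lt hs (a3 u hu).1 (b3 u hu).1).trans_eq z,
        z.symm.trans_lt (tbcol_lt hs (a3 u hu).2 (b3 u hu).2)⟩⟩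
  · obtain ⟨a1, a2, a3, a4⟩ := h₀.right v h
    obtain ⟨b1, b2, b3, b4⟩ := h₁.right v h
    exact ⟨fun u hu => ⟨z.symm.trans_lt (tbcol_lt hs (a1 u hu).1 (b1 u hu).1),
      tbcol_le hs (a1 u hu).2.1 (b1 u hu).2.1, tbcol_lt hs (a1 u hu).2.2 (b1 u hu).2.2⟩,
      z.symm.trans_le (tbcol_le hs a2 b2), (tbcol_le hs a3 b3).trans_eq z, (tbcol_eq a4 b4).trans z⟩
  · obtain ⟨a1, a2, a3, a4⟩ := h₀.left v h
    obtain ⟨b1, b2, b3, b4⟩ := h₁.left v h
    exact ⟨fun u hu => ⟨(tbcol_lt hs (a1 u hu).1 (b1 u hu).1).trans_eq z,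
      tbcol_lt hs (a1 u hu).2.1 (b1 u hu).2.1, tbcol_le hs (a1 u hu).2.2 (b1 u hu).2.2⟩,
      (tbcol_le hs a2 b2).trans_eq z, z.symm.trans_le (tbcol_le hs a3 b3), (tbcol_eq a4 b4).trans z⟩

theorem embE_of_geo {ι : Type} {n : ℕ} {σ : Equiv.Perm ι} {ty p q : ι → ℕ} (hc : Comb n σ ty p q)
    {X : ℕ → ℝ} {c d : ι → ℝ → P2} (hg : Geo n σ ty p q X c d) : EmbE σ c d := by
  have m0 : (0 : ℝ) ∈ Icc (0 : ℝ) 1 := left_mem_Icc.2 zero_le_one
  have m1 : (1 : ℝ) ∈ Icc (0 : ℝ) 1 := right_mem_Icc.2 zero_le_one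
  refine ⟨fun v u hu => ⟨hg.der v u hu, fun e => ?_⟩, hg.cont, hg.close, fun v r hr e => ?_,
    fun v w u hu u' hu' e => ?_⟩
  · rcases tbcol_ty (hc.ty_lt v) with h | h | h | h
    exacts [((hg.bot v h).2.2 u hu).1.ne' (congrArg Prod.fst e),
      ((hg.right v h).1 u hu).1.ne' (congrArg Prod.snd e),
      ((hg.top v h).2.2 u hu).1.ne (congrArg Prod.fst e),
      ((hg.left v h).1 u hu).1.ne (congrArg Prod.snd e)]
  · have e1 : (d v 1).1 = -(r * (d (σ v) 0).1) := congrArg Prod.fst e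
    obtain ⟨n0, n1, n2, n3⟩ := hc.next v
    rcases tbcol_ty (hc.ty_lt v) with h | h | h | h
    · have k : 0 ≤ (d (σ v) 0).1 :=
        (n0 h).elim (fun k => ((hg.bot _ k).2.2 0 m0).1.le) fun k => (hg.right _ k).2.1
      linarith [((hg.bot v h).2.2 1 m1).1, mul_nonneg hr.le k]
    · linarith [(hg.right v h).2.2.1, mul_neg_of_pos_of_neg hr ((hg.top _ (n1 h)).2.2 0 m0).1]
    · have k : (d (σ v) 0).1 ≤ 0 :=
        (n2 h).elim (fun k => ((hg.top _ k).2.2 0 m0).1.le) fun k => (hg.left _ k).2.1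
      linarith [((hg.top v h).2.2 1 m1).1, mul_nonpos_of_nonneg_of_nonpos hr.le k]
    · linarith [(hg.left v h).2.2.1, mul_pos hr ((hg.bot _ (n3 h)).2.2 0 m0).1]
  · obtain rfl : v = w := by
      by_contra k
      rcases hc.pair v w k with ⟨h, h'⟩ | ⟨h, h'⟩ | h | h
      exacts [tbcol_sign hg h h' hu hu' e, tbcol_sign hg h' h hu' hu e.symm,
        tbcol_side hc hg h hu hu' e, tbcol_side hc hg h hu' hu e.symm]
    exact ⟨rfl, tbcol_inj hc hg v (Ico_subset_Icc_self hu) (Ico_subset_Icc_self hu') e⟩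

/-- a chain of the class meets the axis only in the midpoints of its end arcs -/
theorem Geo.axis {ι : Type} {n : ℕ} {σ : Equiv.Perm ι} {ty p q : ι → ℕ} (hc : Comb n σ ty p q)
    {X : ℕ → ℝ} {c d : ι → ℝ → P2} (hg : Geo n σ ty p q X c d) {v : ι} {u : ℝ}
    (hu : u ∈ Icc (0 : ℝ) 1) (h0 : (c v u).2 = 0) : (ty v = 1 ∨ ty v = 3) ∧ u = 1 / 2 := by
  have m : (1 / 2 : ℝ) ∈ Icc (0 : ℝ) 1 := ⟨by norm_num, by norm_num⟩
  rcases tbcol_ty (hc.ty_lt v) with h | h | h | h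
  · exact absurd h0 ((hg.bot v h).2.2 u hu).2.ne
  · exact ⟨Or.inl h, (tbcol_y1 hg h).injOn hu m (h0.trans (hg.right v h).2.2.2.symm)⟩
  · exact absurd h0 ((hg.top v h).2.2 u hu).2.ne'
  · exact ⟨Or.inr h, (tbcol_y3 hg h).injOn hu m (h0.trans (hg.left v h).2.2.2.symm)⟩

/-- linear interpolation between two chains of the class -/
theorem fam_of_geo {ι : Type} {n : ℕ} {σ : Equiv.Perm ι} {ty p q : ι → ℕ} (hc : Comb n σ ty p q)
    {X₀ X₁ : ℕ → ℝ} {c₀ d₀ c₁ d₁ : ι → ℝ → P2} (h₀ : Geo n σ ty p q X₀ c₀ d₀)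
    (h₁ : Geo n σ ty p q X₁ c₁ d₁) {C : Set P2} (hC : Convex ℝ C) (i₀ : InW C c₀) (i₁ : InW C c₁)
    {P : Set P2} (hP : ∀ z ∈ P, z.2 = 0 ∧ ∀ v, ty v = 1 ∨ ty v = 3 →
      (z.1 < (c₀ v (1 / 2)).1 ∧ z.1 < (c₁ v (1 / 2)).1) ∨
        ((c₀ v (1 / 2)).1 < z.1 ∧ (c₁ v (1 / 2)).1 < z.1)) :
    FamE (C \ P) σ c₀ c₁ := by
  have key : ∀ f g : ℝ → P2, ContinuousOn f (Icc 0 1) → ContinuousOn g (Icc 0 1) →
      ContinuousOn (fun a : ℝ × ℝ => (1 - a.1) • f a.2 + a.1 • g a.2) (Icc 0 1 ×ˢ Icc 0 1) :=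
    fun f g hf hg =>
      ((continuous_const.sub continuous_fst).continuousOn.smul
        (hf.comp continuousOn_snd fun _ ha => ha.2)).add
        (continuousOn_fst.smul (hg.comp continuousOn_snd fun _ ha => ha.2))
  refine ⟨fun s v u => (1 - s) • c₀ v u + s • c₁ v u, fun s v u => (1 - s) • d₀ v u + s • d₁ v u,
    fun s hs => embE_of_geo hc (tbcol_mix h₀ h₁ hs),
    fun v => key _ _ (fun u hu => (h₀.der v u hu).continuousWithinAt)
      fun u hu => (h₁.der v u hu).continuousWithinAt,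
    fun v => key _ _ (h₀.cont v) (h₁.cont v), fun s hs v u hu => ⟨hC (i₀ v u hu) (i₁ v u hu)
      (sub_nonneg.2 hs.2) hs.1 (sub_add_cancel 1 s), fun hz => ?_⟩, fun v u _ => by simp,
    fun v u _ => by simp⟩
  obtain ⟨k1, k2⟩ := hP _ hz
  obtain ⟨k3, rfl⟩ := (tbcol_mix h₀ h₁ hs).axis hc hu k1
  have e : ∀ x : ℝ, (1 - s) * x + s * x = x := fun x => by ring
  rcases k2 v k3 with ⟨a, b⟩ | ⟨a, b⟩
  · exact ((e _).symm.trans_lt (tbcol_lt hs a b)).false
  · exact ((tbcol_lt hs a b).trans_eq (e _)).false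

end Pool.Agent.Lib.MP_4d7d0a_gt
end

-- part Pool.Agent.Lib.MP_4d7d0a_gt.TBPoly
section

/-! The chains of hexagonal beads. -/

set_option autoImplicit false

open Set Filter Topology
open scoped ContDiff

namespace Pool.Agent.Lib.MP_4d7d0a_gt

/-- the eight kinds of arcs -/
theorem tbpoly_spec (k J : ℕ) (v : Bd k) :
    (v.2.val = 0 ∧ bty k J v = 0 ∧ bp k J v = 4 * v.1.val + 1 ∧ bq k J v = 4 * v.1.val + 2 ∧
      (sig k J v).1.val = v.1.val ∧ (sig k J v).2.val = 1) ∨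
    (v.2.val = 1 ∧ bty k J v = 0 ∧ bp k J v = 4 * v.1.val + 2 ∧ bq k J v = 4 * v.1.val + 3 ∧
      (sig k J v).1.val = v.1.val ∧ (sig k J v).2.val = 2) ∨
    (v.2.val = 2 ∧ bty k J v = 0 ∧ bp k J v = 4 * v.1.val + 3 ∧ bq k J v = 4 * v.1.val + 5 ∧
      (sig k J v).1.val = v.1.val + 1 ∧ (sig k J v).2.val = 0 ∧ J ≤ v.1.val ∧ v.1.val + 1 < k) ∨
    (v.2.val = 2 ∧ bty k J v = 1 ∧ bp k J v = 4 * v.1.val + 3 ∧ bq k J v = 4 * v.1.val + 4 ∧
      (sig k J v).1.val = v.1.val ∧ (sig k J v).2.val = 3 ∧ ¬ (J ≤ v.1.val ∧ v.1.val + 1 < k)) ∨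
    (v.2.val = 3 ∧ bty k J v = 2 ∧ bp k J v = 4 * v.1.val + 2 ∧ bq k J v = 4 * v.1.val + 3 ∧
      (sig k J v).1.val = v.1.val ∧ (sig k J v).2.val = 4) ∨
    (v.2.val = 4 ∧ bty k J v = 2 ∧ bp k J v = 4 * v.1.val + 1 ∧ bq k J v = 4 * v.1.val + 2 ∧
      (sig k J v).1.val = v.1.val ∧ (sig k J v).2.val = 5) ∨
    (v.2.val = 5 ∧ bty k J v = 2 ∧ bp k J v + 1 = 4 * v.1.val ∧ bq k J v = 4 * v.1.val + 1 ∧
      (sig k J v).1.val + 1 = v.1.val ∧ (sig k J v).2.val = 3 ∧ J < v.1.val) ∨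
    (v.2.val = 5 ∧ bty k J v = 3 ∧ bp k J v = 4 * v.1.val ∧ bq k J v = 4 * v.1.val + 1 ∧
      (sig k J v).1.val = v.1.val ∧ (sig k J v).2.val = 0 ∧ v.1.val ≤ J) := by
  obtain ⟨h1, h2⟩ := nxt_val k J v
  have := v.2.isLt
  rw [sig_apply, h1, h2]
  unfold bty bp bq
  generalize v.1.val = i
  rcases (by omega : v.2.val = 0 ∨ v.2.val = 1 ∨ v.2.val = 2 ∨ v.2.val = 3 ∨ v.2.val = 4 ∨
    v.2.val = 5) with h | h | h | h | h | h <;> rw [h]
  · simp
  · simp
  · by_cases c : J ≤ i ∧ i + 1 < k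
    · simp [c]
    · simp [c]
  · simp
  · simp
  · by_cases c : J < i
    · simp [c]
      omega
    · simp [c]
      omega

theorem tbpoly_ext {k : ℕ} {v w : Bd k} (h : v.1.val = w.1.val ∧ v.2.val = w.2.val) : v = w :=
  Prod.ext (Fin.ext h.1) (Fin.ext h.2)

theorem comb_sig (k J : ℕ) : Comb (4 * k) (sig k J) (bty k J) (bp k J) (bq k J) where
  ty_lt v := by
    rcases tbpoly_spec k J v with h | h | h | h | h | h | h | h <;> omega
  lt v := by
    rcases tbpoly_spec k J v with h | h | h | h | h | h | h | h <;> omega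
  le v := by
    have := v.1.isLt
    rcases tbpoly_spec k J v with h | h | h | h | h | h | h | h <;> omega
  next v := by
    rcases tbpoly_spec k J v with h | h | h | h | h | h | h | h <;>
      rcases tbpoly_spec k J (sig k J v) with g | g | g | g | g | g | g | g <;> omega
  pair v w hvw := by
    have h0 : ¬ (v.1.val = w.1.val ∧ v.2.val = w.2.val) := fun h => hvw (tbpoly_ext h)
    rcases tbpoly_spec k J v with h | h | h | h | h | h | h | h <;>
      rcases tbpoly_spec k J w with g | g | g | g | g | g | g | g <;> omega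
  touch v w hvw := by
    refine ⟨fun a b => tbpoly_ext ?_, fun a b => tbpoly_ext ?_, ?_⟩ <;>
      rcases tbpoly_spec k J v with h | h | h | h | h | h | h | h <;>
      rcases tbpoly_spec k J w with g | g | g | g | g | g | g | g <;> omega

theorem tbpoly_X0 (x s : ℕ → ℝ) (δ : ℝ) (i : ℕ) : plgX x s δ (4 * i) = s i := by
  have h1 : 4 * i % 4 = 0 := by omega
  have h2 : 4 * i / 4 = i := by omega
  simp only [plgX, h1, h2, if_true]

theorem tbpoly_X1 (x s : ℕ → ℝ) (δ : ℝ) (i : ℕ) : plgX x s δ (4 * i + 1) = s i + δ := by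
  have h1 : (4 * i + 1) % 4 = 1 := by omega
  have h2 : (4 * i + 1) / 4 = i := by omega
  simp [plgX, h1, h2]

theorem tbpoly_X2 (x s : ℕ → ℝ) (δ : ℝ) (i : ℕ) : plgX x s δ (4 * i + 2) = x i := by
  have h1 : (4 * i + 2) % 4 = 2 := by omega
  have h2 : (4 * i + 2) / 4 = i := by omega
  simp [plgX, h1, h2]

theorem tbpoly_X3 (x s : ℕ → ℝ) (δ : ℝ) (i : ℕ) : plgX x s δ (4 * i + 3) = s (i + 1) - δ := by
  have h1 : (4 * i + 3) % 4 = 3 := by omega
  have h2 : (4 * i + 3) / 4 = i := by omega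
  simp [plgX, h1, h2]

theorem tbpoly_step {k : ℕ} {x s : ℕ → ℝ} {δ : ℝ} (h : Cuts k x s δ) {n : ℕ} (hn : n < 4 * k) :
    plgX x s δ n < plgX x s δ (n + 1) := by
  obtain ⟨i, hi⟩ : ∃ i, n = 4 * i ∨ n = 4 * i + 1 ∨ n = 4 * i + 2 ∨ n = 4 * i + 3 :=
    ⟨n / 4, by omega⟩
  have h1 := h.2 i (by omega)
  have h2 := h.1
  rcases hi with rfl | rfl | rfl | rfl
  · rw [tbpoly_X0, tbpoly_X1]
    linarith
  · rw [tbpoly_X1, show 4 * i + 1 + 1 = 4 * i + 2 from rfl, tbpoly_X2]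
    exact h1.1
  · rw [tbpoly_X2, show 4 * i + 2 + 1 = 4 * i + 3 from rfl, tbpoly_X3]
    exact h1.2
  · rw [tbpoly_X3, show 4 * i + 3 + 1 = 4 * (i + 1) from rfl, tbpoly_X0]
    linarith

theorem tbpoly_mono {k : ℕ} {x s : ℕ → ℝ} {δ : ℝ} (h : Cuts k x s δ) (a b : ℕ) (hab : a < b)
    (hb : b ≤ 4 * k) : plgX x s δ a < plgX x s δ b := by
  induction b, hab using Nat.le_induction with
  | base => exact tbpoly_step h hb
  | succ b _ ih => exact (ih (by omega)).trans (tbpoly_step h hb)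

theorem tbpoly_mono' {k : ℕ} {x s : ℕ → ℝ} {δ : ℝ} (h : Cuts k x s δ) (a b : ℕ) (hab : a ≤ b)
    (hb : b ≤ 4 * k) : plgX x s δ a ≤ plgX x s δ b := by
  rcases hab.eq_or_lt with rfl | hab
  · exact le_rfl
  · exact (tbpoly_mono h a b hab hb).le

/-- the end points of the four types of arcs -/
theorem tbpoly_ends (k J : ℕ) (x s : ℕ → ℝ) (δ : ℝ) (v : Bd k) : ∃ A B : P2,
    vtx x s δ v.1.val v.2.val = A ∧ vtx x s δ (sig k J v).1.val (sig k J v).2.val = B ∧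
    (bty k J v = 0 → A.1 = plgX x s δ (bp k J v) ∧ B.1 = plgX x s δ (bq k J v) ∧
      (A.2 = -δ ∨ A.2 = -(2 * δ)) ∧ (B.2 = -δ ∨ B.2 = -(2 * δ))) ∧
    (bty k J v = 2 → A.1 = plgX x s δ (bq k J v) ∧ B.1 = plgX x s δ (bp k J v) ∧
      (A.2 = δ ∨ A.2 = 2 * δ) ∧ (B.2 = δ ∨ B.2 = 2 * δ)) ∧
    (bty k J v = 1 → A.1 = plgX x s δ (bp k J v) ∧ B.1 = A.1 ∧ A.2 = -δ ∧ B.2 = δ ∧
      A.1 = s (v.1.val + 1) - δ) ∧
    (bty k J v = 3 → A.1 = plgX x s δ (bq k J v) ∧ B.1 = A.1 ∧ A.2 = δ ∧ B.2 = -δ ∧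
      A.1 = s v.1.val + δ) := by
  refine ⟨_, _, rfl, rfl, ?_⟩
  rcases tbpoly_spec k J v with ⟨h1, h2, h3, h4, h5, h6⟩ | ⟨h1, h2, h3, h4, h5, h6⟩ |
    ⟨h1, h2, h3, h4, h5, h6, -⟩ | ⟨h1, h2, h3, h4, h5, h6, -⟩ | ⟨h1, h2, h3, h4, h5, h6⟩ |
    ⟨h1, h2, h3, h4, h5, h6⟩ | ⟨h1, h2, h3, h4, h5, h6, -⟩ | ⟨h1, h2, h3, h4, h5, h6, -⟩
  · rw [h1, h2, h3, h4, h5, h6, tbpoly_X1, tbpoly_X2]
    simp [vtx]
  · rw [h1, h2, h3, h4, h5, h6, tbpoly_X2, tbpoly_X3]
    simp [vtx]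
  · rw [h1, h2, h3, h4, h5, h6, tbpoly_X3,
      show 4 * v.1.val + 5 = 4 * (v.1.val + 1) + 1 from rfl, tbpoly_X1]
    simp [vtx]
  · rw [h1, h2, h3, h4, h5, h6, tbpoly_X3]
    simp [vtx]
  · rw [h1, h2, h3, h4, h5, h6, tbpoly_X2, tbpoly_X3]
    simp [vtx]
  · rw [h1, h2, h3, h4, h5, h6, tbpoly_X1, tbpoly_X2]
    simp [vtx]
  · rw [h1, h2, show bp k J v = 4 * (sig k J v).1.val + 3 by omega, h4, h6, tbpoly_X1, tbpoly_X3]
    simp [vtx]
  · rw [h1, h2, h3, h4, h5, h6, tbpoly_X1]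
    simp [vtx]

theorem tbpoly_fst (A B : P2) (u : ℝ) :
    (AffineMap.lineMap A B u : P2).1 = A.1 + u * (B.1 - A.1) := by
  simp [AffineMap.lineMap_apply, add_comm]

theorem tbpoly_snd (A B : P2) (u : ℝ) :
    (AffineMap.lineMap A B u : P2).2 = A.2 + u * (B.2 - A.2) := by
  simp [AffineMap.lineMap_apply, add_comm]

theorem geo_plg {k : ℕ} {x s : ℕ → ℝ} {δ : ℝ} (h : Cuts k x s δ) (J : ℕ) :
    Geo (4 * k) (sig k J) (bty k J) (bp k J) (bq k J) (plgX x s δ) (plg k J x s δ)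
      (plgD k J x s δ) := by
  have hδ := h.1
  have hlt : ∀ v, plgX x s δ (bp k J v) < plgX x s δ (bq k J v) := fun v =>
    tbpoly_mono h _ _ ((comb_sig k J).lt v) ((comb_sig k J).le v)
  refine ⟨tbpoly_mono h, fun v u _ => AffineMap.hasDerivWithinAt_lineMap,
    fun v => continuousOn_const, fun v => ?_, fun v hv => ?_, fun v hv => ?_, fun v hv => ?_,
    fun v hv => ?_⟩
  · simp only [plg, AffineMap.lineMap_apply_one, AffineMap.lineMap_apply_zero]
  all_goals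
    obtain ⟨A, B, hA, hB, h0, h2, h1, h3⟩ := tbpoly_ends k J x s δ v
    have hl := hlt v
    simp only [plg, plgD, hA, hB, tbpoly_fst, tbpoly_snd, Prod.fst_sub, Prod.snd_sub]
  · obtain ⟨a1, b1, a2, b2⟩ := h0 hv
    refine ⟨by linarith, by linarith, fun u hu => ⟨by linarith, ?_⟩⟩
    have := mul_nonneg hu.1 hδ.le
    have := mul_le_mul_of_nonneg_right hu.2 hδ.le
    rcases a2 with a2 | a2 <;> rcases b2 with b2 | b2 <;> rw [a2, b2] <;> linarith
  · obtain ⟨a1, b1, a2, b2⟩ := h2 hv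
    refine ⟨by linarith, by linarith, fun u hu => ⟨by linarith, ?_⟩⟩
    have := mul_nonneg hu.1 hδ.le
    have := mul_le_mul_of_nonneg_right hu.2 hδ.le
    rcases a2 with a2 | a2 <;> rcases b2 with b2 | b2 <;> rw [a2, b2] <;> linarith
  · obtain ⟨a1, b1, a2, b2, -⟩ := h1 hv
    rw [b1, a2, b2, sub_self]
    refine ⟨fun u _ => ⟨by linarith, by linarith, by linarith⟩, le_rfl, le_rfl, by ring⟩
  · obtain ⟨a1, b1, a2, b2, -⟩ := h3 hv
    rw [b1, a2, b2, sub_self]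
    refine ⟨fun u _ => ⟨by linarith, by linarith, by linarith⟩, le_rfl, le_rfl, by ring⟩

theorem tbpoly_end {k : ℕ} (x s : ℕ → ℝ) (δ : ℝ) (J : ℕ) (v : Bd k) (u : ℝ) :
    (bty k J v = 1 → (plg k J x s δ v u).1 = s (v.1.val + 1) - δ) ∧
      (bty k J v = 3 → (plg k J x s δ v u).1 = s v.1.val + δ) := by
  obtain ⟨A, B, hA, hB, -, -, h1, h3⟩ := tbpoly_ends k J x s δ v
  simp only [plg, hA, hB, tbpoly_fst]
  refine ⟨fun hv => ?_, fun hv => ?_⟩
  · obtain ⟨-, b1, -, -, e⟩ := h1 hv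
    rw [b1, sub_self, mul_zero, add_zero, e]
  · obtain ⟨-, b1, -, -, e⟩ := h3 hv
    rw [b1, sub_self, mul_zero, add_zero, e]

/-- the midpoints of the end arcs -/
theorem plg_mid {k : ℕ} (x s : ℕ → ℝ) (δ : ℝ) (J : ℕ) (v : Bd k) :
    (bty k J v = 1 → (plg k J x s δ v (1 / 2)).1 = s (v.1.val + 1) - δ) ∧
      (bty k J v = 3 → (plg k J x s δ v (1 / 2)).1 = s v.1.val + δ) :=
  tbpoly_end x s δ J v _

theorem Cuts.lt {k : ℕ} {x s : ℕ → ℝ} {δ : ℝ} (h : Cuts k x s δ) {i j : ℕ} (hij : i ≤ j)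
    (hj : j < k) : s i + δ < x j ∧ x i < s (j + 1) - δ := by
  have h1 := tbpoly_mono h (4 * i + 1) (4 * j + 2) (by omega) (by omega)
  have h2 := tbpoly_mono h (4 * i + 2) (4 * j + 3) (by omega) (by omega)
  rw [tbpoly_X1, tbpoly_X2] at h1
  rw [tbpoly_X2, tbpoly_X3] at h2
  exact ⟨h1, h2⟩

theorem tbpoly_convex : Convex ℝ disc := by
  intro a ha b hb r t hr ht e
  have ha' : a.1 ^ 2 + a.2 ^ 2 ≤ 1 := ha
  have hb' : b.1 ^ 2 + b.2 ^ 2 ≤ 1 := hb
  obtain rfl : t = 1 - r := by linarith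
  show (r * a.1 + (1 - r) * b.1) ^ 2 + (r * a.2 + (1 - r) * b.2) ^ 2 ≤ 1
  have h1 := mul_nonneg (mul_nonneg hr ht) (sq_nonneg (a.1 - b.1))
  have h2 := mul_nonneg (mul_nonneg hr ht) (sq_nonneg (a.2 - b.2))
  have h3 := mul_le_mul_of_nonneg_left ha' hr
  have h4 := mul_le_mul_of_nonneg_left hb' ht
  nlinarith

theorem tbpoly_vtx {k : ℕ} {x s : ℕ → ℝ} {δ : ℝ} (h : Cuts k x s δ)
    (h0 : s 0 ^ 2 + 4 * δ ^ 2 ≤ 1) (hk : s k ^ 2 + 4 * δ ^ 2 ≤ 1) {i : ℕ} (hi : i < k) (j : ℕ) :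
    vtx x s δ i j ∈ disc := by
  have key : ∀ n ≤ 4 * k, ∀ y : ℝ, y ^ 2 ≤ 4 * δ ^ 2 → ((plgX x s δ n, y) : P2) ∈ disc := by
    intro n hn y hy
    have h1 := tbpoly_mono' h (4 * 0) n (by omega) hn
    have h2 := tbpoly_mono' h n (4 * k) hn le_rfl
    rw [tbpoly_X0] at h1 h2
    show plgX x s δ n ^ 2 + y ^ 2 ≤ 1
    rcases le_total 0 (plgX x s δ n) with h3 | h3
    · nlinarith
    · nlinarith
  have k1 := key (4 * i + 1) (by omega)
  have k2 := key (4 * i + 2) (by omega)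
  have k3 := key (4 * i + 3) (by omega)
  rw [tbpoly_X1] at k1
  rw [tbpoly_X2] at k2
  rw [tbpoly_X3] at k3
  have h1 := sq_nonneg δ
  unfold vtx
  split_ifs
  · exact k1 _ (by nlinarith)
  · exact k2 _ (by nlinarith)
  · exact k3 _ (by nlinarith)
  · exact k3 _ (by nlinarith)
  · exact k2 _ (by nlinarith)
  · exact k1 _ (by nlinarith)

theorem plg_disc {k : ℕ} {x s : ℕ → ℝ} {δ : ℝ} (h : Cuts k x s δ)
    (h0 : s 0 ^ 2 + 4 * δ ^ 2 ≤ 1) (hk : s k ^ 2 + 4 * δ ^ 2 ≤ 1) (J : ℕ) :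
    InW disc (plg k J x s δ) := fun v _ hu =>
  tbpoly_convex.lineMap_mem (tbpoly_vtx h h0 hk v.1.isLt _)
    (tbpoly_vtx h h0 hk (sig k J v).1.isLt _) hu

/-- the polygon misses the centres -/
theorem plg_off {k : ℕ} {x s : ℕ → ℝ} {δ : ℝ} (h : Cuts k x s δ) (J : ℕ) (v : Bd k) {u : ℝ}
    (hu : u ∈ Icc (0 : ℝ) 1) {i : ℕ} (hi : i < k) : plg k J x s δ v u ≠ (x i, 0) := by
  intro e
  have g := geo_plg h J
  have hδ := h.1
  have hv := v.1.isLt
  have ht := (comb_sig k J).ty_lt v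
  obtain ⟨e1, e3⟩ := tbpoly_end x s δ J v u
  rw [e] at e1 e3
  rcases (by omega : bty k J v = 0 ∨ bty k J v = 1 ∨ bty k J v = 2 ∨ bty k J v = 3) with
    t | t | t | t
  · have h1 := ((g.bot v t).2.2 u hu).2
    rw [e] at h1
    exact lt_irrefl _ h1
  · have h1 : x i = s (v.1.val + 1) - δ := e1 t
    rcases le_or_gt i v.1.val with h2 | h2
    · exact (h.lt h2 hv).2.ne h1
    · have := (h.lt (Nat.succ_le_of_lt h2) hi).1
      linarith
  · have h1 := ((g.top v t).2.2 u hu).2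
    rw [e] at h1
    exact lt_irrefl _ h1
  · have h1 : x i = s v.1.val + δ := e3 t
    rcases le_or_gt v.1.val i with h2 | h2
    · exact (h.lt h2 hi).1.ne' h1
    · have h3 := (h.lt (i := i) (j := v.1.val - 1) (by omega) (by omega)).2
      rw [show v.1.val - 1 + 1 = v.1.val by omega] at h3
      linarith

theorem convex_disc : Convex ℝ disc := tbpoly_convex

end Pool.Agent.Lib.MP_4d7d0a_gt
end

-- part Pool.Agent.Lib.MP_4d7d0a_gt.TBStep
section

/-! Closing one cut of the chain of beads. -/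

set_option autoImplicit false

open Set Filter Topology
open scoped ContDiff

namespace Pool.Agent.Lib.MP_4d7d0a_gt

/-- position of the vertices relative to the cut number `J` -/
theorem tbstep_vx {k J : ℕ} (hJ : J + 1 < k) {x s : ℕ → ℝ} {δ : ℝ} (hc : Cuts k x s δ)
    {i j : ℕ} (hi : i < k) (hj : j < 6) :
    ((i < J ∨ (i = J ∧ j ≠ 2 ∧ j ≠ 3)) → (vtx x s δ i j).1 < s (J + 1) - δ) ∧
    ((i = J ∧ (j = 2 ∨ j = 3)) → (vtx x s δ i j).1 = s (J + 1) - δ) ∧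
    ((i = J + 1 ∧ (j = 0 ∨ j = 5)) → (vtx x s δ i j).1 = s (J + 1) + δ) ∧
    ((J + 1 < i ∨ (i = J + 1 ∧ j ≠ 0 ∧ j ≠ 5)) → s (J + 1) + δ < (vtx x s δ i j).1) := by
  have hδ := hc.1
  have hb := hc.2 i hi
  have lo : s i + δ ≤ (vtx x s δ i j).1 := by
    unfold vtx
    split_ifs <;> simp only <;> linarith [hb.1, hb.2]
  have up : (vtx x s δ i j).1 ≤ s (i + 1) - δ := by
    unfold vtx
    split_ifs <;> simp only <;> linarith [hb.1, hb.2]
  refine ⟨?_, ?_, ?_, ?_⟩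
  · rintro (h | ⟨rfl, h2, h3⟩)
    · have h1 := (hc.lt (i := i + 1) (j := J) h (by omega)).1
      have h2 := (hc.2 J (by omega)).2
      linarith
    · unfold vtx
      split_ifs <;> first | omega | (simp only; linarith [hb.1, hb.2])
  · rintro ⟨rfl, rfl | rfl⟩ <;> simp [vtx]
  · rintro ⟨rfl, rfl | rfl⟩ <;> simp [vtx]
  · rintro (h | ⟨rfl, h2, h3⟩)
    · obtain ⟨m, rfl⟩ : ∃ m, i = m + 1 := ⟨i - 1, by omega⟩
      have h1 := (hc.lt (i := J + 1) (j := m) (by omega) (by omega)).1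
      have h2 := (hc.2 m (by omega)).2
      linarith
    · unfold vtx
      split_ifs <;> first | omega | (simp only; linarith [hb.1, hb.2])

theorem tbstep_ext {k : ℕ} {v w : Bd k} : v = w ↔ v.1.val = w.1.val ∧ v.2.val = w.2.val :=
  ⟨fun h => by rw [h]; exact ⟨rfl, rfl⟩, fun h => Prod.ext (Fin.ext h.1) (Fin.ext h.2)⟩

theorem tbstep_fst (p q : P2) (u : ℝ) :
    (AffineMap.lineMap p q u : P2).1 = (1 - u) * p.1 + u * q.1 := by
  rw [AffineMap.lineMap_apply_module]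
  simp

theorem tbstep_lt {X0 X1 u t : ℝ} (u0 : 0 ≤ u) (u1 : u ≤ 1) (h0 : X0 < t) (h1 : X1 < t) :
    (1 - u) * X0 + u * X1 < t := by
  rcases le_total X0 X1 with hh | hh <;> nlinarith

theorem tbstep_gt {X0 X1 u t : ℝ} (u0 : 0 ≤ u) (u1 : u ≤ 1) (h0 : t < X0) (h1 : t < X1) :
    t < (1 - u) * X0 + u * X1 := by
  rcases le_total X0 X1 with hh | hh <;> nlinarith

theorem tbstep_zero {r u : ℝ} (u0 : 0 ≤ u) (hr : 0 < r) (h : u * r ≤ 0) : u = 0 := by
  by_contra hne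
  have := mul_pos (lt_of_le_of_ne u0 (Ne.symm hne)) hr
  linarith

theorem tbstep_key {k J i j m n : ℕ} (hJ : J + 1 < k) (l2 : j < 6) (hga : ¬ (i = J ∧ j = 2))
    (hgb : ¬ (i = J + 1 ∧ j = 5))
    (e1 : m = if j = 2 ∧ J ≤ i ∧ i + 1 < k then i + 1 else if j = 5 ∧ J < i then i - 1 else i)
    (e2 : n = if j = 2 ∧ J ≤ i ∧ i + 1 < k then 0 else if j = 5 ∧ J < i then 3 else (j + 1) % 6) :
    ((i < J ∨ (i = J ∧ j ≠ 2 ∧ j ≠ 3)) ∧ (m < J ∨ (m = J ∧ n ≠ 2 ∧ n ≠ 3))) ∨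
      ((J + 1 < i ∨ (i = J + 1 ∧ j ≠ 0 ∧ j ≠ 5)) ∧ (J + 1 < m ∨ (m = J + 1 ∧ n ≠ 0 ∧ n ≠ 5))) ∨
      (i = J ∧ j = 1 ∧ m = J ∧ n = 2) ∨ (i = J ∧ j = 3 ∧ m = J ∧ n = 4) ∨
      (i = J + 1 ∧ j = 0 ∧ m = J + 1 ∧ n = 1) ∨ (i = J + 1 ∧ j = 4 ∧ m = J + 1 ∧ n = 5) := by
  rcases lt_trichotomy i J with h | h | h
  · left
    split_ifs at e1 e2 <;> omega
  · subst h
    interval_cases j <;> simp at hga e1 e2 ⊢ <;> omega
  · rcases Nat.lt_or_eq_of_le (Nat.succ_le_of_lt h) with h' | h'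
    · right
      left
      split_ifs at e1 e2 <;> omega
    · subst h'
      interval_cases j <;> simp at hgb e1 e2 ⊢ <;> first | omega | (split_ifs at e1 e2 <;> omega)

/-- the convex hull of the four corners lies in the square -/
theorem tbstep_hull (t δ : ℝ) (hδ : 0 < δ) :
    convexHull ℝ ({(t - δ, -δ), (t + δ, -δ), (t + δ, δ), (t - δ, δ)} : Set P2) ⊆
      Metric.closedBall ((t, 0) : P2) δ := by
  refine convexHull_min ?_ (convex_closedBall _ _)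
  intro p hp
  simp only [mem_insert_iff, mem_singleton_iff] at hp
  rcases hp with rfl | rfl | rfl | rfl <;>
    simp [Metric.mem_closedBall, Prod.dist_eq, abs_of_pos hδ]

/-- closing the cut number `J` -/
theorem V_plg_step (T : KTheory) {h : P2 → P3} {W : Set P2} (hh : Imm h W) {k J : ℕ}
    (hJ : J + 1 < k) {x s : ℕ → ℝ} {δ : ℝ} (hc : Cuts k x s δ) (hW : InW W (plg k J x s δ))
    (hW' : InW W (plg k (J + 1) x s δ)) {O : Set P2} (hO : IsOpen O)
    (hQ : Metric.closedBall ((s (J + 1), 0) : P2) δ ⊆ O ∩ W) (L : P2 →L[ℝ] P3) (b₀ : P3)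
    (haff : ∀ w ∈ O, h w = b₀ + L w) {q : ℤ}
    (hV : T.V (⟨sig k J, fun v u => h (plg k J x s δ v u)⟩ : CPL (Bd k)) q) :
    T.V (⟨sig k (J + 1), fun v u => h (plg k (J + 1) x s δ v u)⟩ : CPL (Bd k)) (q - 1) := by
  have hδ := hc.1
  have hJ0 : J < k := by omega
  set a : Bd k := (⟨J, hJ0⟩, 2) with ha
  set b : Bd k := (⟨J + 1, hJ⟩, 5) with hb
  have a1 : a.1.val = J := rfl
  have a2 : a.2.val = 2 := rfl
  have b1 : b.1.val = J + 1 := rfl
  have b2 : b.2.val = 5 := rfl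
  have sa : (sig k J a).1.val = J + 1 ∧ (sig k J a).2.val = 0 := by
    have := nxt_val k J a
    rw [sig_apply]
    rw [a1, a2] at this
    obtain ⟨e1, e2⟩ := this
    split_ifs at e1 e2 <;> omega
  have sb : (sig k J b).1.val = J ∧ (sig k J b).2.val = 3 := by
    have := nxt_val k J b
    rw [sig_apply]
    rw [b1, b2] at this
    obtain ⟨e1, e2⟩ := this
    split_ifs at e1 e2 <;> omega
  have sa' : (sig k (J + 1) a).1.val = J ∧ (sig k (J + 1) a).2.val = 3 := by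
    have := nxt_val k (J + 1) a
    rw [sig_apply]
    rw [a1, a2] at this
    obtain ⟨e1, e2⟩ := this
    split_ifs at e1 e2 <;> omega
  have sb' : (sig k (J + 1) b).1.val = J + 1 ∧ (sig k (J + 1) b).2.val = 0 := by
    have := nxt_val k (J + 1) b
    rw [sig_apply]
    rw [b1, b2] at this
    obtain ⟨e1, e2⟩ := this
    split_ifs at e1 e2 <;> omega
  have s3 : ∀ g, g ≠ a → g ≠ b → sig k (J + 1) g = sig k J g := by
    intro g hga hgb
    rw [Ne, tbstep_ext, a1, a2] at hga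
    rw [Ne, tbstep_ext, b1, b2] at hgb
    rw [tbstep_ext, sig_apply, sig_apply]
    obtain ⟨e1, e2⟩ := nxt_val k J g
    obtain ⟨f1, f2⟩ := nxt_val k (J + 1) g
    split_ifs at e1 e2 f1 f2 <;> omega
  have vx := fun g : Bd k => tbstep_vx hJ hc g.1.isLt g.2.isLt
  refine V_saddle2 T hh (embE_of_geo (comb_sig k J) (geo_plg hc J))
    (embE_of_geo (comb_sig k (J + 1)) (geo_plg hc (J + 1))) hW hW' (a := a) (b := b) ?_
    (s (J + 1) - δ, -δ) (s (J + 1) + δ, -δ) (s (J + 1) + δ, δ) (s (J + 1) - δ, δ) ?_ ?_ s3 ?_ ?_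
    ?_ ?_ ?_ ?_ hO ((tbstep_hull _ _ hδ).trans hQ) L b₀ haff hV
  · rw [Ne, tbstep_ext, a1, a2, b1, b2]
    omega
  · rw [tbstep_ext, sa'.1, sa'.2, sb.1, sb.2]
    exact ⟨rfl, rfl⟩
  · rw [tbstep_ext, sb'.1, sb'.2, sa.1, sa.2]
    exact ⟨rfl, rfl⟩
  · intro g hga hgb u _
    unfold plg
    rw [s3 g hga hgb]
  · intro u _
    unfold plg
    rw [sa.1, sa.2, sb.1, sb.2, sa'.1, sa'.2, sb'.1, sb'.2, a1, a2, b1, b2]
    simp [vtx]
  · have : 0 < δ * δ := mul_pos hδ hδ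
    refine ⟨?_, ?_, ?_, ?_⟩ <;> simp only [detP, Prod.fst_sub, Prod.snd_sub] <;> nlinarith
  · intro g hga hgb u hu hp
    have hp' := tbstep_hull _ _ hδ hp
    rw [Metric.mem_closedBall, Prod.dist_eq, max_le_iff, Real.dist_eq, abs_le] at hp'
    obtain ⟨⟨p1, p2⟩, -⟩ := hp'
    unfold plg at p1 p2
    rw [tbstep_fst] at p1 p2
    simp only at p1 p2
    rw [Ne, tbstep_ext, a1, a2] at hga
    rw [Ne, tbstep_ext, b1, b2] at hgb
    rw [tbstep_ext, tbstep_ext (v := g), tbstep_ext (v := sig k J g), tbstep_ext (v := sig k J g),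
      sa.1, sa.2, sb.1, sb.2, a1, a2, b1, b2]
    obtain ⟨u0, u1⟩ := hu
    obtain ⟨v1, v2, v3, v4⟩ := vx g
    obtain ⟨w1, w2, w3, w4⟩ := vx (sig k J g)
    obtain ⟨e1, e2⟩ := nxt_val k J g
    rw [← sig_apply] at e1 e2
    have key := tbstep_key hJ g.2.isLt hga hgb e1 e2
    clear e1 e2 hga hgb
    rcases key with ⟨k1, k2⟩ | ⟨k1, k2⟩ | k1 | k1 | k1 | k1
    · have := tbstep_lt u0 u1 (v1 k1) (w1 k2)
      exact absurd p1 (by linarith)
    · have := tbstep_gt u0 u1 (v4 k1) (w4 k2)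
      exact absurd p2 (by linarith)
    · have t1 := v1 (by omega)
      have t2 := w2 (by omega)
      refine Or.inr ⟨?_, by omega⟩
      have := tbstep_zero (sub_nonneg.2 u1) (sub_pos.2 t1) (by rw [t2] at p1; linarith)
      linarith
    · have t1 := v2 (by omega)
      have t2 := w1 (by omega)
      exact Or.inl ⟨tbstep_zero u0 (sub_pos.2 t2) (by rw [t1] at p1; linarith), by omega⟩
    · have t1 := v3 (by omega)
      have t2 := w4 (by omega)
      exact Or.inl ⟨tbstep_zero u0 (sub_pos.2 t2) (by rw [t1] at p2; linarith), by omega⟩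
    · have t1 := v4 (by omega)
      have t2 := w3 (by omega)
      refine Or.inr ⟨?_, by omega⟩
      have := tbstep_zero (sub_nonneg.2 u1) (sub_pos.2 t1) (by rw [t2] at p2; linarith)
      linarith
  · intro g hg
    rw [tbstep_ext, tbstep_ext, a1, a2, b1, b2] at hg
    obtain ⟨v1, v2, v3, v4⟩ := vx g
    obtain ⟨w1, w2, w3, w4⟩ := vx (sig k J g)
    obtain ⟨e1, e2⟩ := nxt_val k J g
    rw [← sig_apply] at e1 e2
    have l1 := g.1.isLt
    have l2 := g.2.isLt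
    rcases hg with hg | hg
    · have k1 : g.1.val = J ∧ g.2.val = 1 := by split_ifs at e1 e2 <;> omega
      have t1 := v1 (by omega)
      have t2 := w2 (by omega)
      refine ⟨-LinearMap.fst ℝ ℝ ℝ, ?_, ?_⟩
      · simp only [plgD, LinearMap.neg_apply, LinearMap.fst_apply, Prod.fst_sub]
        linarith
      · intro p hp
        simp only [plg, AffineMap.lineMap_apply_one, LinearMap.neg_apply, LinearMap.fst_apply]
        simp only [mem_insert_iff, mem_singleton_iff] at hp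
        rcases hp with rfl | rfl | rfl | rfl <;> simp only <;> linarith
    · have k1 : g.1.val = J + 1 ∧ g.2.val = 4 := by split_ifs at e1 e2 <;> omega
      have t1 := v4 (by omega)
      have t2 := w3 (by omega)
      refine ⟨LinearMap.fst ℝ ℝ ℝ, ?_, ?_⟩
      · simp only [plgD, LinearMap.fst_apply, Prod.fst_sub]
        linarith
      · intro p hp
        simp only [plg, AffineMap.lineMap_apply_one, LinearMap.fst_apply]
        simp only [mem_insert_iff, mem_singleton_iff] at hp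
        rcases hp with rfl | rfl | rfl | rfl <;> simp only <;> linarith
  · intro g hg
    rw [tbstep_ext, tbstep_ext, sa.1, sa.2, sb.1, sb.2] at hg
    obtain ⟨v1, v2, v3, v4⟩ := vx g
    obtain ⟨w1, w2, w3, w4⟩ := vx (sig k J g)
    obtain ⟨e1, e2⟩ := nxt_val k J g
    rw [← sig_apply] at e1 e2
    rcases hg with hg | hg
    · have k1 : (sig k J g).1.val = J + 1 ∧ (sig k J g).2.val = 1 := by
        split_ifs at e1 e2 <;> omega
      have t1 := v3 (by omega)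
      have t2 := w4 (by omega)
      refine ⟨LinearMap.fst ℝ ℝ ℝ, ?_, ?_⟩
      · simp only [plgD, LinearMap.fst_apply, Prod.fst_sub]
        linarith
      · intro p hp
        simp only [plg, AffineMap.lineMap_apply_zero, LinearMap.fst_apply]
        simp only [mem_insert_iff, mem_singleton_iff] at hp
        rcases hp with rfl | rfl | rfl | rfl <;> simp only <;> linarith
    · have k1 : (sig k J g).1.val = J ∧ (sig k J g).2.val = 4 := by
        split_ifs at e1 e2 <;> omega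
      have t1 := v2 (by omega)
      have t2 := w1 (by omega)
      refine ⟨-LinearMap.fst ℝ ℝ ℝ, ?_, ?_⟩
      · simp only [plgD, LinearMap.neg_apply, LinearMap.fst_apply, Prod.fst_sub]
        linarith
      · intro p hp
        simp only [plg, AffineMap.lineMap_apply_zero, LinearMap.neg_apply, LinearMap.fst_apply]
        simp only [mem_insert_iff, mem_singleton_iff] at hp
        rcases hp with rfl | rfl | rfl | rfl <;> simp only <;> linarith

end Pool.Agent.Lib.MP_4d7d0a_gt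
end

-- part Pool.Agent.Lib.MP_4d7d0a_gt.TBIn
section

/-! The small circles lie in the class of the closed polygon. -/

set_option autoImplicit false

open Set Filter Topology
open scoped ContDiff

namespace Pool.Agent.Lib.MP_4d7d0a_gt

/-- column boundaries of the small circles -/
noncomputable def tbinX (x s : ℕ → ℝ) (ρ : ℝ) (n : ℕ) : ℝ :=
  if n % 4 = 0 then s (n / 4) else if n % 4 = 1 then x (n / 4) - ρ * Real.cos (Real.pi / 6)
  else if n % 4 = 2 then x (n / 4) else x (n / 4) + ρ * Real.cos (Real.pi / 6)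

theorem tbinX_0 (x s : ℕ → ℝ) (ρ : ℝ) (i : ℕ) : tbinX x s ρ (4 * i) = s i := by
  have h1 : 4 * i % 4 = 0 := by omega
  have h2 : 4 * i / 4 = i := by omega
  simp only [tbinX, h1, h2, if_true]

theorem tbinX_1 (x s : ℕ → ℝ) (ρ : ℝ) (i : ℕ) :
    tbinX x s ρ (4 * i + 1) = x i - ρ * Real.cos (Real.pi / 6) := by
  have h1 : (4 * i + 1) % 4 = 1 := by omega
  have h2 : (4 * i + 1) / 4 = i := by omega
  simp [tbinX, h1, h2]

theorem tbinX_2 (x s : ℕ → ℝ) (ρ : ℝ) (i : ℕ) : tbinX x s ρ (4 * i + 2) = x i := by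
  have h1 : (4 * i + 2) % 4 = 2 := by omega
  have h2 : (4 * i + 2) / 4 = i := by omega
  simp [tbinX, h1, h2]

theorem tbinX_3 (x s : ℕ → ℝ) (ρ : ℝ) (i : ℕ) :
    tbinX x s ρ (4 * i + 3) = x i + ρ * Real.cos (Real.pi / 6) := by
  have h1 : (4 * i + 3) % 4 = 3 := by omega
  have h2 : (4 * i + 3) / 4 = i := by omega
  simp [tbinX, h1, h2]

theorem tbin_cos_pos : 0 < Real.cos (Real.pi / 6) := by
  rw [Real.cos_pi_div_six]; positivity

theorem tbinX_mono {k : ℕ} {x s : ℕ → ℝ} {ρ : ℝ} (h : Cuts k x s ρ) :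
    ∀ a b, a < b → b ≤ 4 * k → tbinX x s ρ a < tbinX x s ρ b := by
  have hc := tbin_cos_pos
  have hc1 := Real.cos_le_one (Real.pi / 6)
  have hρ := h.1
  have h1 : 0 < ρ * Real.cos (Real.pi / 6) := mul_pos hρ hc
  have h2 : ρ * Real.cos (Real.pi / 6) ≤ ρ := by nlinarith
  have step : ∀ a, a < 4 * k → tbinX x s ρ a < tbinX x s ρ (a + 1) := by
    intro a ha
    obtain ⟨i, hi⟩ : ∃ i, a = 4 * i ∨ a = 4 * i + 1 ∨ a = 4 * i + 2 ∨ a = 4 * i + 3 :=
      ⟨a / 4, by omega⟩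
    have h3 := h.2 i (by omega)
    rcases hi with rfl | rfl | rfl | rfl
    · rw [tbinX_0, tbinX_1]; linarith [h3.1]
    · rw [tbinX_1, tbinX_2]; linarith
    · rw [tbinX_2, tbinX_3]; linarith
    · rw [tbinX_3, show 4 * i + 3 + 1 = 4 * (i + 1) by ring, tbinX_0]; linarith [h3.2]
  intro a b hab hb
  induction b, hab using Nat.le_induction with
  | base => exact step a (by omega)
  | succ n hn ih => exact (ih (by omega)).trans (step n (by omega))

/-- the angle on the arc `j` -/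
noncomputable def tbinA (j : ℕ) (u : ℝ) : ℝ :=
  2 * Real.pi * ((j + u) / 6) + (-(5 * Real.pi / 6))

theorem tbin_fst (z ρ : ℝ) (j : ℕ) (u : ℝ) :
    (inC z ρ ((j + u) / 6)).1 = z + ρ * Real.cos (tbinA j u) := by
  simp [inC, pol, tbinA]

theorem tbin_snd (z ρ : ℝ) (j : ℕ) (u : ℝ) :
    (inC z ρ ((j + u) / 6)).2 = ρ * Real.sin (tbinA j u) := by
  simp [inC, pol, tbinA]

/-- the velocity -/
noncomputable def tbinD (ρ : ℝ) (j : ℕ) (u : ℝ) : P2 :=
  (-(Real.pi / 3 * (ρ * Real.sin (tbinA j u))), Real.pi / 3 * (ρ * Real.cos (tbinA j u)))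

theorem tbin_der (z ρ : ℝ) (j : ℕ) (u : ℝ) :
    HasDerivAt (fun u : ℝ => inC z ρ ((j + u) / 6)) (tbinD ρ j u) u := by
  have h1 : HasDerivAt (tbinA j) (Real.pi / 3) u := by
    have h2 := ((((hasDerivAt_id u).const_add (j : ℝ)).div_const 6).const_mul
      (2 * Real.pi)).add_const (-(5 * Real.pi / 6))
    exact h2.congr_deriv (by ring)
  have h3 := ((hasDerivAt_pol ρ (tbinA j u)).scomp u h1).const_add ((z, 0) : P2)
  exact h3.congr_deriv (by simp [tbinD])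

theorem tbin_sin_neg {j : ℕ} (hj : j < 2) {u : ℝ} (hu : u ∈ Icc (0 : ℝ) 1) :
    Real.sin (tbinA j u) < 0 := by
  have hp := Real.pi_pos
  have h0 : (0 : ℝ) ≤ j := Nat.cast_nonneg j
  have h1 : (j : ℝ) ≤ 1 := by exact_mod_cast (by omega : j ≤ 1)
  apply Real.sin_neg_of_neg_of_neg_pi_lt <;> unfold tbinA <;> nlinarith [hu.1, hu.2]

theorem tbin_sin_pos {j : ℕ} (hj : 3 ≤ j) (hj' : j < 5) {u : ℝ} (hu : u ∈ Icc (0 : ℝ) 1) :
    0 < Real.sin (tbinA j u) := by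
  have hp := Real.pi_pos
  have h0 : (3 : ℝ) ≤ j := by exact_mod_cast hj
  have h1 : (j : ℝ) ≤ 4 := by exact_mod_cast (by omega : j ≤ 4)
  apply Real.sin_pos_of_pos_of_lt_pi <;> unfold tbinA <;> nlinarith [hu.1, hu.2]

theorem tbin_cos_ge {u : ℝ} (hu : u ∈ Icc (0 : ℝ) 1) :
    Real.cos (Real.pi / 6) ≤ Real.cos (tbinA 2 u) := by
  have hp := Real.pi_pos
  rw [← Real.cos_abs (tbinA 2 u)]
  apply Real.cos_le_cos_of_nonneg_of_le_pi (abs_nonneg _) (by linarith)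
  rw [abs_le]
  unfold tbinA
  constructor <;> push_cast <;> nlinarith [hu.1, hu.2]

theorem tbin_five (u : ℝ) : tbinA 5 u = tbinA 2 u + Real.pi := by
  unfold tbinA; push_cast; ring

theorem tbin_vals : tbinA 0 0 = Real.pi / 6 - Real.pi ∧ tbinA 0 1 = -(Real.pi / 2) ∧
    tbinA 1 0 = -(Real.pi / 2) ∧ tbinA 1 1 = -(Real.pi / 6) ∧ tbinA 2 0 = -(Real.pi / 6) ∧
    tbinA 2 1 = Real.pi / 6 ∧ tbinA 2 (1 / 2) = 0 ∧ tbinA 3 0 = Real.pi / 6 ∧
    tbinA 3 1 = Real.pi / 2 ∧ tbinA 4 0 = Real.pi / 2 ∧ tbinA 4 1 = Real.pi - Real.pi / 6 := by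
  unfold tbinA
  refine ⟨?_, ?_, ?_, ?_, ?_, ?_, ?_, ?_, ?_, ?_, ?_⟩ <;> push_cast <;> ring

theorem geo_in {k J : ℕ} (hJ : k ≤ J + 1) {x s : ℕ → ℝ} {ρ : ℝ} (h : Cuts k x s ρ) :
    ∃ (X : ℕ → ℝ) (d : Bd k → ℝ → P2), Geo (4 * k) (sig k J) (bty k J) (bp k J) (bq k J) X
      (fun v u => inC (x v.1.val) ρ (((v.2 : ℕ) + u) / 6)) d := by
  have hp := Real.pi_pos
  have hρ := h.1
  have hc := tbin_cos_pos
  obtain ⟨v00, v01, v10, v11, v20, v21, v2h, v30, v31, v40, v41⟩ := tbin_vals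
  have n1 : ∀ v : Bd k, ¬ (J ≤ v.1.val ∧ v.1.val + 1 < k) := fun v => by omega
  have n2 : ∀ v : Bd k, ¬ J < v.1.val := fun v => by have := v.1.isLt; omega
  refine ⟨tbinX x s ρ, fun v u => tbinD ρ v.2 u, tbinX_mono h,
    fun v u _ => (tbin_der _ _ _ u).hasDerivWithinAt, fun v => ?_, fun v => ?_, fun v hv => ?_,
    fun v hv => ?_, fun v hv => ?_, fun v hv => ?_⟩
  · apply Continuous.continuousOn
    unfold tbinD tbinA
    fun_prop
  · obtain ⟨a1, a2⟩ := nxt_val k J v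
    simp only [n1 v, n2 v, and_false, if_false] at a1 a2
    rw [sig_apply, a1, a2]
    have := v.2.isLt
    by_cases h5 : v.2.val = 5
    · rw [h5]
      have e : tbinA 5 1 = tbinA 0 0 + 2 * Real.pi := by unfold tbinA; push_cast; ring
      apply Prod.ext
      · rw [tbin_fst, tbin_fst, e, Real.cos_add_two_pi]
      · rw [tbin_snd, tbin_snd, e, Real.sin_add_two_pi]
    · rw [Nat.mod_eq_of_lt (by omega)]
      congr 1
      push_cast
      ring
  · have hj : v.2.val < 2 := by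
      unfold bty at hv
      simp only [n1 v, n2 v, if_false] at hv
      split_ifs at hv <;> omega
    refine ⟨?_, ?_, fun u hu => ?_⟩
    · rw [tbin_fst]
      unfold bp
      rcases (by omega : v.2.val = 0 ∨ v.2.val = 1) with e | e
      · simp only [e, v00, Nat.ofNat_pos, if_true, add_zero, tbinX_1, Real.cos_sub_pi]
        ring
      · simp only [e, v10, Nat.one_lt_ofNat, if_true, add_assoc, Nat.reduceAdd, tbinX_2,
          Real.cos_neg, Real.cos_pi_div_two]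
        ring
    · rw [tbin_fst]
      unfold bq
      rcases (by omega : v.2.val = 0 ∨ v.2.val = 1) with e | e
      · simp only [e, v01, Nat.ofNat_pos, if_true, add_zero, tbinX_2, Real.cos_neg,
          Real.cos_pi_div_two]
        ring
      · simp only [e, v11, Nat.one_lt_ofNat, if_true, add_assoc, Nat.reduceAdd, tbinX_3,
          Real.cos_neg]
    · have h1 := mul_neg_of_pos_of_neg hρ (tbin_sin_neg hj hu)
      rw [tbin_snd]
      refine ⟨?_, h1⟩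
      simp only [tbinD]
      nlinarith
  · have hj : v.2.val = 3 ∨ v.2.val = 4 := by
      unfold bty at hv
      simp only [n1 v, n2 v, if_false] at hv
      split_ifs at hv <;> omega
    refine ⟨?_, ?_, fun u hu => ?_⟩
    · rw [tbin_fst]
      unfold bq
      rcases hj with e | e
      · rw [e, if_neg (by omega), if_neg (by omega), v30,
          show 4 * v.1.val + 6 - 3 = 4 * v.1.val + 3 by omega, tbinX_3]
      · rw [e, if_neg (by omega), if_neg (by omega), v40,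
          show 4 * v.1.val + 6 - 4 = 4 * v.1.val + 2 by omega, tbinX_2, Real.cos_pi_div_two]
        ring
    · rw [tbin_fst]
      unfold bp
      rcases hj with e | e
      · rw [e, if_neg (by omega), if_pos (by omega), v31,
          show 4 * v.1.val + 5 - 3 = 4 * v.1.val + 2 by omega, tbinX_2, Real.cos_pi_div_two]
        ring
      · rw [e, if_neg (by omega), if_pos (by omega), v41,
          show 4 * v.1.val + 5 - 4 = 4 * v.1.val + 1 by omega, tbinX_1, Real.cos_pi_sub]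
        ring
    · have h1 := mul_pos hρ (tbin_sin_pos (j := v.2.val) (by omega) (by omega) hu)
      rw [tbin_snd]
      refine ⟨?_, h1⟩
      simp only [tbinD]
      nlinarith
  · have e : v.2.val = 2 := by
      unfold bty at hv
      simp only [n1 v, n2 v, if_false] at hv
      split_ifs at hv <;> omega
    have e1 : bp k J v = 4 * v.1.val + 3 := by unfold bp; rw [e, if_pos (by omega)]
    have e2 : bq k J v = 4 * (v.1.val + 1) := by
      unfold bq; rw [e, if_neg (by omega), if_pos rfl, if_neg (n1 v)]; ring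
    simp only [e, e1, e2, tbinX_3, tbinX_0, tbinD, tbin_fst, tbin_snd, v20, v21, v2h,
      Real.sin_neg, Real.sin_pi_div_six, Real.sin_zero, mul_zero, and_true]
    refine ⟨fun u hu => ?_, by nlinarith [mul_pos hp hρ], by nlinarith [mul_pos hp hρ]⟩
    have h1 := tbin_cos_ge hu
    have h2 := Real.cos_le_one (tbinA 2 u)
    have h3 := (h.2 _ v.1.isLt).2
    refine ⟨mul_pos (by positivity) (mul_pos hρ (hc.trans_le h1)), by nlinarith, by nlinarith⟩
  · have e : v.2.val = 5 := by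
      have := v.2.isLt
      unfold bty at hv
      simp only [n1 v, n2 v, if_false] at hv
      split_ifs at hv <;> omega
    have e1 : bp k J v = 4 * v.1.val := by
      unfold bp; rw [e, if_neg (by omega), if_neg (by omega), if_neg (n2 v)]
    have e2 : bq k J v = 4 * v.1.val + 1 := by
      unfold bq; rw [e, if_neg (by omega), if_neg (by omega)]; omega
    simp only [e, e1, e2, tbinX_1, tbinX_0, tbinD, tbin_fst, tbin_snd, tbin_five, v20, v21, v2h,
      Real.sin_add_pi, Real.cos_add_pi, Real.sin_neg, Real.sin_pi_div_six, Real.sin_zero,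
      neg_zero, mul_zero, and_true]
    refine ⟨fun u hu => ?_, by nlinarith [mul_pos hp hρ], by nlinarith [mul_pos hp hρ]⟩
    have h1 := tbin_cos_ge hu
    have h2 := Real.cos_le_one (tbinA 2 u)
    have h3 := (h.2 _ v.1.isLt).1
    have h4 := mul_pos (by positivity : 0 < Real.pi / 3) (mul_pos hρ (hc.trans_le h1))
    refine ⟨by nlinarith, by nlinarith, by nlinarith⟩

theorem in_mid {k : ℕ} (J : ℕ) (z ρ : ℝ) (v : Bd k) :
    (bty k J v = 1 → (inC z ρ (((v.2 : ℕ) + 1 / 2) / 6)).1 = z + ρ) ∧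
      (bty k J v = 3 → (inC z ρ (((v.2 : ℕ) + 1 / 2) / 6)).1 = z - ρ) := by
  have v2h : tbinA 2 (1 / 2) = 0 := tbin_vals.2.2.2.2.2.2.1
  constructor
  · intro hv
    have e : v.2.val = 2 := by
      unfold bty at hv
      split_ifs at hv <;> omega
    rw [tbin_fst, e, v2h, Real.cos_zero, mul_one]
  · intro hv
    have e : v.2.val = 5 := by
      have := v.2.isLt
      unfold bty at hv
      split_ifs at hv <;> omega
    rw [tbin_fst, e, tbin_five, v2h, Real.cos_add_pi, Real.cos_zero]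
    ring

/-- from the polygon with all cuts closed to small circles -/
theorem fam_in {k J : ℕ} (hJ : k ≤ J + 1) {x s : ℕ → ℝ} {δ ρ : ℝ} (h : Cuts k x s δ)
    (h0 : s 0 ^ 2 + 4 * δ ^ 2 ≤ 1) (h1 : s k ^ 2 + 4 * δ ^ 2 ≤ 1) (hρ : 0 < ρ) (hρδ : ρ ≤ δ) :
    FamE (disc \ range fun i : Fin k => ((x i, 0) : P2)) (sig k J) (plg k J x s δ)
      (fun v u => inC (x v.1.val) ρ (((v.2 : ℕ) + u) / 6)) := by
  have h' : Cuts k x s ρ := ⟨hρ, fun i hi => ⟨by linarith [(h.2 i hi).1], by linarith [(h.2 i hi).2]⟩⟩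
  obtain ⟨X, d, hg⟩ := geo_in hJ h'
  have hδ := h.1
  have xm : ∀ a b, a ≤ b → b < k → x a ≤ x b := by
    intro a b hab hb
    rcases eq_or_lt_of_le hab with e | e
    · rw [e]
    · have a1 := (h.2 a (by omega)).2
      have a2 := (h.lt (i := a + 1) (j := b) e hb).1
      linarith
  refine fam_of_geo (comb_sig k J) (geo_plg h J) hg convex_disc (plg_disc h h0 h1 J) ?_ ?_
  · intro v u _
    have hi := v.1.isLt
    change (inC (x v.1.val) ρ (((v.2 : ℕ) + u) / 6)).1 ^ 2 +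
      (inC (x v.1.val) ρ (((v.2 : ℕ) + u) / 6)).2 ^ 2 ≤ 1
    rw [tbin_fst, tbin_snd]
    have a1 := (h.lt (i := 0) (j := v.1.val) (Nat.zero_le _) hi).1
    have a2 := (h.lt (i := v.1.val) (j := k - 1) (by omega) (by omega)).2
    rw [show k - 1 + 1 = k by omega] at a2
    have c1 := Real.cos_le_one (tbinA v.2 u)
    have c2 := Real.neg_one_le_cos (tbinA v.2 u)
    have c3 := Real.sin_sq_le_one (tbinA v.2 u)
    have b1 : s 0 < x v.1.val + ρ * Real.cos (tbinA v.2 u) := by nlinarith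
    have b2 : x v.1.val + ρ * Real.cos (tbinA v.2 u) < s k := by nlinarith
    have b3 : (ρ * Real.sin (tbinA v.2 u)) ^ 2 ≤ δ ^ 2 := by
      rw [mul_pow]
      have : ρ ^ 2 ≤ δ ^ 2 := by nlinarith
      nlinarith [sq_nonneg ρ]
    generalize x v.1.val + ρ * Real.cos (tbinA v.2 u) = a at b1 b2
    rcases le_total 0 a with ha | ha
    · nlinarith [sq_nonneg δ]
    · nlinarith [sq_nonneg δ]
  · rintro z ⟨m, rfl⟩
    refine ⟨rfl, fun v hv => ?_⟩
    have hi := v.1.isLt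
    have hm := m.isLt
    have a0 := h.2 _ hi
    rcases hv with hv | hv
    · simp only [(plg_mid x s δ J v).1 hv, (in_mid J (x v.1.val) ρ v).1 hv]
      rcases le_or_gt m.val v.1.val with e | e
      · left
        exact ⟨(h.lt e hi).2, by linarith [xm _ _ e hi]⟩
      · right
        have a1 := (h.lt (i := v.1.val + 1) (j := m.val) e hm).1
        constructor <;> linarith [a0.2]
    · simp only [(plg_mid x s δ J v).2 hv, (in_mid J (x v.1.val) ρ v).2 hv]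
      rcases le_or_gt v.1.val m.val with e | e
      · right
        exact ⟨(h.lt e hm).1, by linarith [xm _ _ e hm]⟩
      · left
        have a1 := (h.lt (i := m.val) (j := v.1.val - 1) (by omega) (by omega)).2
        rw [show v.1.val - 1 + 1 = v.1.val by omega] at a1
        constructor <;> linarith [a0.1]

end Pool.Agent.Lib.MP_4d7d0a_gt
end
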