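import Pool.Agent.Lib.MP_4d7d0a_gt.Defs

-- part Pool.Agent.Lib.MP_4d7d0a_gt.IfK
section

/-! Interfaces of the knot-theoretic parts: ordered diagrams and curved polygonal links. -/

set_option autoImplicit false

open Set Filter Topology

namespace Pool.Agent.Lib.MP_4d7d0a_gt

/-- an ordered diagram: vertices `ι`, the edge `e` runs from `e` to `σ e`; `X e f` says that the
edges cross, `t e f` is the position of that crossing on `e`, `sg e f` says it is positive -/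
structure OD (ι : Type) where
  σ : Equiv.Perm ι
  X : ι → ι → Prop
  t : ι → ι → ℝ
  sg : ι → ι → Prop

namespace OD

variable {ι : Type}

def WF (D : OD ι) : Prop :=
  (∀ e f, D.X e f → D.X f e) ∧ (∀ e, ¬ D.X e e) ∧ (∀ e f, D.X e f → (D.sg e f ↔ D.sg f e)) ∧
    ∀ e f g, D.X e f → D.X e g → D.t e f = D.t e g → f = g

/-- number of crossings on `e` before the crossing with `f` -/
noncomputable def pre (D : OD ι) (e f : ι) : ℕ := {g | D.X e g ∧ D.t e g < D.t e f}.ncard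

/-- an admissible colouring (colour of the start of each edge): the colour flips at every
crossing and the two incoming colours at a crossing differ -/
def Adm (D : OD ι) (κ : ι → ZMod 2) : Prop :=
  (∀ e, κ (D.σ e) = κ e + ({g | D.X e g}.ncard : ZMod 2)) ∧
    ∀ e f, D.X e f → κ e + (D.pre e f : ZMod 2) + κ f + (D.pre f e : ZMod 2) = 1

/-- the diagrams agree on the pairs satisfying `P` -/
def Agree (D D' : OD ι) (P : ι → ι → Prop) : Prop :=
  (∀ e f, P e f → (D.X e f ↔ D'.X e f)) ∧ (∀ e f, P e f → D.X e f → (D.sg e f ↔ D'.sg e f)) ∧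
    ∀ e f g, P e f → P e g → D.X e f → D.X e g → (D.t e f < D.t e g ↔ D'.t e f < D'.t e g)

/-- pairs other than `{e, f}` and `{e', f}` -/
def Off2 (e e' f a b : ι) : Prop := ¬ ((a = e ∨ a = e') ∧ b = f) ∧ ¬ (a = f ∧ (b = e ∨ b = e'))

/-- pairs other than `{e, f}` -/
def Off1 (e f a b : ι) : Prop := ¬ (a = e ∧ b = f) ∧ ¬ (a = f ∧ b = e)

/-- pairs not inside `{e, f, g}` -/
def Off3 (e f g a b : ι) : Prop := ¬ ((a = e ∨ a = f ∨ a = g) ∧ (b = e ∨ b = f ∨ b = g))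

/-- the crossing with `f` is the last one on `e` -/
def Last (D : OD ι) (e f : ι) : Prop := ∀ g, D.X e g → D.t e g ≤ D.t e f

/-- the crossing with `f` is the first one on `e` -/
def First (D : OD ι) (e f : ι) : Prop := ∀ g, D.X e g → D.t e f ≤ D.t e g

/-- at the crossing of `a` and `b`, the resolution joining the two sides of the triangle formed
with `c` is the 0-resolution -/
def Ty (D : OD ι) (a b c : ι) : Prop := ¬ (D.t a b < D.t a c ↔ D.t b a < D.t b c) ↔ D.sg a b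

/-- on the edge `a` the crossings with `b` and `c` are adjacent and get exchanged -/
def Exch (D D' : OD ι) (P : ι → ι → Prop) (a b c : ι) : Prop :=
  (D.t a b < D.t a c ↔ D'.t a c < D'.t a b) ∧
    ∀ h, P a h → D.X a h → (D.t a b < D.t a h ↔ D.t a c < D.t a h) ∧
      (D.t a b < D.t a h ↔ D'.t a b < D'.t a h) ∧ (D.t a c < D.t a h ↔ D'.t a c < D'.t a h)

/-- the part `a` of the subdivided edge `e` contains the crossing with `h` -/
def Side (D : OD ι) (e : ι) (l : ℝ) (a : Option ι) (h : ι) : Prop :=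
  (a = some e → D.t e h < l) ∧ (a = none → l < D.t e h)

end OD

/-- `V D q`: the Bar-Natan class of the oriented diagram `D` has filtration level at least `q` -/
structure ODTheory where
  V : ∀ {ι : Type}, OD ι → ℤ → Prop
  mono : ∀ {ι : Type} [Finite ι] (D : OD ι) (q q' : ℤ), q' ≤ q → V D q → V D q'
  iso : ∀ {ι : Type} [Finite ι] (D D' : OD ι) (q : ℤ), D.WF → D'.WF → D.σ = D'.σ →
    D.Agree D' (fun _ _ => True) → V D q → V D' q
  relabel : ∀ {ι ι' : Type} [Finite ι] (β : ι ≃ ι') (D : OD ι) (D' : OD ι') (q : ℤ), D.WF →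
    (∀ e, D'.σ (β e) = β (D.σ e)) → (∀ e f, D'.X (β e) (β f) ↔ D.X e f) →
    (∀ e f, D'.t (β e) (β f) = D.t e f) → (∀ e f, D'.sg (β e) (β f) ↔ D.sg e f) → V D q → V D' q
  slide : ∀ {ι : Type} [Finite ι] (D D' : OD ι) (e f : ι) (q : ℤ), D.WF → D'.WF → D.σ = D'.σ →
    D.σ e ≠ e → f ≠ e → f ≠ D.σ e → D.Agree D' (OD.Off2 e (D.σ e) f) →
    D.X e f → ¬ D.X (D.σ e) f → ¬ D'.X e f → D'.X (D.σ e) f → D.Last e f → D'.First (D.σ e) f →
    (∀ g, g ≠ e → g ≠ D.σ e → D.X f g → (D.t f e < D.t f g ↔ D'.t f (D.σ e) < D'.t f g)) →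
    (D.sg e f ↔ D'.sg (D.σ e) f) → (V D q ↔ V D' q)
  r2 : ∀ {ι : Type} [Finite ι] (D D' : OD ι) (e f : ι) (q : ℤ), D.WF → D'.WF → D.σ = D'.σ →
    D.σ e ≠ e → f ≠ e → f ≠ D.σ e → D.Agree D' (OD.Off2 e (D.σ e) f) →
    ¬ D.X e f → ¬ D.X (D.σ e) f → D'.X e f → D'.X (D.σ e) f → D'.Last e f →
    D'.First (D.σ e) f →
    (∀ g, g ≠ e → g ≠ D.σ e → D'.X f g → (D'.t f e < D'.t f g ↔ D'.t f (D.σ e) < D'.t f g)) →
    ¬ (D'.sg e f ↔ D'.sg (D.σ e) f) → (∃ κ, D'.Adm κ) → (V D q ↔ V D' q)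
  r1 : ∀ {ι : Type} [Finite ι] (D D' : OD ι) (e : ι) (q : ℤ), D.WF → D'.WF → D.σ = D'.σ →
    D.σ (D.σ e) ≠ e → D.Agree D' (OD.Off1 e (D.σ (D.σ e))) → ¬ D.X e (D.σ (D.σ e)) →
    D'.X e (D.σ (D.σ e)) → D'.Last e (D.σ (D.σ e)) → D'.First (D.σ (D.σ e)) e →
    (∀ g, ¬ D'.X (D.σ e) g) → (V D q ↔ V D' q)
  r3 : ∀ {ι : Type} [Finite ι] (D D' : OD ι) (e f g : ι) (q : ℤ), D.WF → D'.WF → D.σ = D'.σ →
    D.X e f → D.X e g → D.X f g → D'.X e f → D'.X e g → D'.X f g → D.Agree D' (OD.Off3 e f g) →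
    (D.sg e f ↔ D'.sg e f) → (D.sg e g ↔ D'.sg e g) → (D.sg f g ↔ D'.sg f g) →
    D.Exch D' (OD.Off3 e f g) e f g → D.Exch D' (OD.Off3 e f g) f e g →
    D.Exch D' (OD.Off3 e f g) g e f →
    ¬ ((D.Ty e f g ↔ D.Ty e g f) ∧ (D.Ty e g f ↔ D.Ty f g e)) → V D q → V D' q
  sub : ∀ {ι : Type} [Finite ι] (D : OD ι) (D' : OD (Option ι)) (e : ι) (l : ℝ) (q : ℤ), D.WF →
    D'.WF → D'.σ (some e) = none → D'.σ none = some (D.σ e) →
    (∀ g, g ≠ e → D'.σ (some g) = some (D.σ g)) → (∀ h, D.X e h → D.t e h ≠ l) →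
    (∀ a b, D'.X a b ↔ D.X (a.getD e) (b.getD e) ∧ D.Side e l a (b.getD e) ∧
      D.Side e l b (a.getD e)) →
    (∀ a b, D'.X a b → (D'.sg a b ↔ D.sg (a.getD e) (b.getD e))) →
    (∀ a b c, D'.X a b → D'.X a c →
      (D'.t a b < D'.t a c ↔ D.t (a.getD e) (b.getD e) < D.t (a.getD e) (c.getD e))) →
    (V D q ↔ V D' q)
  flip : ∀ {ι : Type} [Finite ι] (D D' : OD ι) (e f : ι) (q : ℤ), D.WF → D'.WF → D.σ = D'.σ →
    D.X = D'.X → D.t = D'.t → D.X e f → D.sg e f → ¬ D'.sg e f →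
    (∀ a b, OD.Off1 e f a b → D.X a b → (D.sg a b ↔ D'.sg a b)) → V D q → V D' (q - 2)
  saddle : ∀ {ι : Type} [Finite ι] (D D' : OD ι) (a c : ι) (q : ℤ), D.WF → a ≠ c →
    D'.σ a = D.σ c → D'.σ c = D.σ a → (∀ g, g ≠ a → g ≠ c → D'.σ g = D.σ g) →
    D.X = D'.X → D.t = D'.t → D.sg = D'.sg → (∀ g, ¬ D.X a g) → (∀ g, ¬ D.X c g) →
    (∃ κ, D.Adm κ ∧ κ a = κ c) → V D q → V D' (q - 1)
  bound : ∀ {ι : Type} [Finite ι] (D : OD ι) (R : ι → Prop) (xs : ι → ℝ) (xp : ι → ι → ℝ)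
    (w : ℤ), D.WF → (∃ κ, D.Adm κ) →
    (∀ e f, D.X e f → (R e ↔ R f) ∧ xp e f = xp f e) →
    (∀ e, R e → xs e < xs (D.σ e) ∧ ∀ f, D.X e f → xs e < xp e f ∧ xp e f < xs (D.σ e) ∧
      ∀ g, D.X e g → D.t e f < D.t e g → xp e f < xp e g) →
    (∀ e, ¬ R e → xs (D.σ e) < xs e ∧ ∀ f, D.X e f → xp e f < xs e ∧ xs (D.σ e) < xp e f ∧
      ∀ g, D.X e g → D.t e f < D.t e g → xp e g < xp e f) →
    2 * w = ({p : ι × ι | D.X p.1 p.2 ∧ D.sg p.1 p.2}.ncard : ℤ) -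
      ({p : ι × ι | D.X p.1 p.2 ∧ ¬ D.sg p.1 p.2}.ncard : ℤ) →
    V D (w - ({e | R e ∧ ¬ R (D.σ e)}.ncard : ℤ))
  unlink : ∀ {ι : Type} [Finite ι] (D : OD ι) (m : ℕ) (comp : ι → Fin m), (∀ e f, ¬ D.X e f) →
    Function.Surjective comp → (∀ e, comp (D.σ e) = comp e) → ¬ V D (1 - m)

/-- a curved polygonal link: the arc `c v` on `[0,1]` runs from the vertex `v` to `σ v` -/
structure CPL (ι : Type) where
  σ : Equiv.Perm ι
  c : ι → ℝ → P3

namespace CPL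

variable {ι : Type}

/-- embedded, with `C¹` regular arcs of velocity `d` and no cusps at the vertices -/
def EmbD (L : CPL ι) (d : ι → ℝ → P3) : Prop :=
  (∀ v, ∀ u ∈ Icc (0 : ℝ) 1, HasDerivWithinAt (L.c v) (d v u) (Icc 0 1) u ∧ d v u ≠ 0) ∧
    (∀ v, ContinuousOn (d v) (Icc 0 1)) ∧ (∀ v, L.c v 1 = L.c (L.σ v) 0) ∧
    (∀ v, ∀ r : ℝ, 0 < r → d v 1 ≠ -(r • d (L.σ v) 0)) ∧
    ∀ v w, ∀ u ∈ Ico (0 : ℝ) 1, ∀ u' ∈ Ico (0 : ℝ) 1, L.c v u = L.c w u' → v = w ∧ u = u'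

def Emb (L : CPL ι) : Prop := ∃ d, L.EmbD d

end CPL

/-- the plane determinant in the `xz`-projection -/
def det2 (p q : P3) : ℝ := p.1 * q.2.2 - p.2.2 * q.1

/-- the parameter on `[a,b]` of the crossing of the projections of the lines `ab` and `cd` -/
noncomputable def crT (a b c d : P3) : ℝ := det2 (c - a) (d - c) / det2 (b - a) (d - c)

/-- the projections of the segments cross transversally in interior points -/
def Cross (a b c d : P3) : Prop :=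
  det2 (b - a) (d - c) ≠ 0 ∧ crT a b c d ∈ Ioo (0 : ℝ) 1 ∧ crT c d a b ∈ Ioo (0 : ℝ) 1

/-- at the crossing, `[a,b]` is in front (smaller `y`) -/
def Over (a b c d : P3) : Prop :=
  (AffineMap.lineMap a b (crT a b c d) : P3).2.1 < (AffineMap.lineMap c d (crT c d a b) : P3).2.1

/-- the projections of the closed segments cross transversally or are disjoint -/
def GenPair (a b c d : P3) : Prop :=
  Cross a b c d ∨ ∀ s ∈ Icc (0 : ℝ) 1, ∀ t ∈ Icc (0 : ℝ) 1,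
    ¬ ((AffineMap.lineMap a b s : P3).1 = (AffineMap.lineMap c d t : P3).1 ∧
      (AffineMap.lineMap a b s : P3).2.2 = (AffineMap.lineMap c d t : P3).2.2)

open Classical in
/-- the sign of the crossing if `[a,b]` crosses in front of `[c,d]`, else zero -/
noncomputable def crS (a b c d : P3) : ℤ :=
  if Cross a b c d ∧ Over a b c d then (if 0 < det2 (b - a) (d - c) then 1 else -1) else 0

/-- a continuous loop on `[0,1]` -/
def IsLoop (A : ℝ → P3) : Prop := ContinuousOn A (Icc 0 1) ∧ A 1 = A 0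

/-- disjoint images on `[0,1]` -/
def Apart (A B : ℝ → P3) : Prop := ∀ s ∈ Icc (0 : ℝ) 1, ∀ t ∈ Icc (0 : ℝ) 1, A s ≠ B t

/-- `A` is the closed polygon through `a 0, ..., a n = a 0` -/
def IsPoly (n : ℕ) (a : ℕ → P3) (A : ℝ → P3) : Prop :=
  0 < n ∧ a n = a 0 ∧
    ∀ j < n, ∀ u ∈ Icc (0 : ℝ) 1, A ((j + u) / n) = AffineMap.lineMap (a j) (a (j + 1)) u

/-- `V L q`: Rasmussen type invariant `s - 1 ≥ q` of the oriented link; `lk`: linking number -/
structure KTheory where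
  V : ∀ {ι : Type}, CPL ι → ℤ → Prop
  lk : (ℝ → P3) → (ℝ → P3) → ℤ
  mono : ∀ {ι : Type} [Finite ι] (L : CPL ι) (q q' : ℤ), q' ≤ q → V L q → V L q'
  relabel : ∀ {ι ι' : Type} [Finite ι] (β : ι ≃ ι') (L : CPL ι) (L' : CPL ι') (q : ℤ), L.Emb →
    (∀ v, L'.σ (β v) = β (L.σ v)) → (∀ v, ∀ u ∈ Icc (0 : ℝ) 1, L'.c (β v) u = L.c v u) →
    V L q → V L' q
  fam : ∀ {ι : Type} [Finite ι] (σ : Equiv.Perm ι) (c d : ℝ → ι → ℝ → P3) (q : ℤ),
    (∀ s ∈ Icc (0 : ℝ) 1, (⟨σ, c s⟩ : CPL ι).EmbD (d s)) →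
    (∀ v, ContinuousOn (fun a : ℝ × ℝ => c a.1 v a.2) (Icc 0 1 ×ˢ Icc 0 1)) →
    (∀ v, ContinuousOn (fun a : ℝ × ℝ => d a.1 v a.2) (Icc 0 1 ×ˢ Icc 0 1)) →
    V (⟨σ, c 0⟩ : CPL ι) q → V (⟨σ, c 1⟩ : CPL ι) q
  split : ∀ {ι : Type} [Finite ι] (n : ℕ) (L : CPL ι) (L' : CPL (ι × Fin (n + 1))) (q : ℤ),
    L.Emb → (∀ v (j : Fin n), L'.σ (v, j.castSucc) = (v, j.succ)) →
    (∀ v, L'.σ (v, Fin.last n) = (L.σ v, 0)) →
    (∀ v j, ∀ u ∈ Icc (0 : ℝ) 1, L'.c (v, j) u = L.c v (((j : ℕ) + u) / (n + 1))) →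
    (V L q ↔ V L' q)
  saddle : ∀ {ι : Type} [Finite ι] (L L' : CPL ι) (d : ι → ℝ → P3) (a c : ι) (A B C D : P3)
    (pr : P3 →ₗ[ℝ] P3) (q : ℤ), L.EmbD d → L'.Emb → a ≠ c →
    L'.σ a = L.σ c → L'.σ c = L.σ a → (∀ g, g ≠ a → g ≠ c → L'.σ g = L.σ g) →
    (∀ g, g ≠ a → g ≠ c → ∀ u ∈ Icc (0 : ℝ) 1, L'.c g u = L.c g u) →
    (∀ u ∈ Icc (0 : ℝ) 1, L.c a u = AffineMap.lineMap A B u ∧ L.c c u = AffineMap.lineMap C D u ∧
      L'.c a u = AffineMap.lineMap A D u ∧ L'.c c u = AffineMap.lineMap C B u) →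
    (0 < det2 (pr (B - A)) (pr (C - B)) ∧ 0 < det2 (pr (C - B)) (pr (D - C)) ∧
      0 < det2 (pr (D - C)) (pr (A - D)) ∧ 0 < det2 (pr (A - D)) (pr (B - A))) →
    (∀ g, g ≠ a → g ≠ c → ∀ u ∈ Icc (0 : ℝ) 1, L.c g u ∈ convexHull ℝ {A, B, C, D} →
      (u = 0 ∧ (g = L.σ a ∨ g = L.σ c)) ∨ (u = 1 ∧ (L.σ g = a ∨ L.σ g = c))) →
    (∀ g, L.σ g = a ∨ L.σ g = c → ∃ l : P3 →ₗ[ℝ] ℝ, l (d g 1) < 0 ∧
      ∀ p ∈ ({A, B, C, D} : Set P3), l p ≤ l (L.c g 1)) →
    (∀ g, g = L.σ a ∨ g = L.σ c → ∃ l : P3 →ₗ[ℝ] ℝ, 0 < l (d g 0) ∧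
      ∀ p ∈ ({A, B, C, D} : Set P3), l p ≤ l (L.c g 0)) →
    V L q → V L' (q - 1)
  unlink : ∀ {ι : Type} [Finite ι] (L : CPL ι) (m : ℕ) (comp : ι → Fin m), L.Emb →
    (∀ v, ∀ u ∈ Icc (0 : ℝ) 1, (L.c v u).2.1 = 0) → Function.Surjective comp →
    (∀ v, comp (L.σ v) = comp v) → ¬ V L (1 - m)
  lk_hom : ∀ A B : ℝ → ℝ → P3, ContinuousOn (fun a : ℝ × ℝ => A a.1 a.2) (Icc 0 1 ×ˢ Icc 0 1) →
    ContinuousOn (fun a : ℝ × ℝ => B a.1 a.2) (Icc 0 1 ×ˢ Icc 0 1) →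
    (∀ s ∈ Icc (0 : ℝ) 1, A s 1 = A s 0 ∧ B s 1 = B s 0 ∧ Apart (A s) (B s)) →
    lk (A 0) (B 0) = lk (A 1) (B 1)
  lk_add_left : ∀ A B : ℝ → P3, IsLoop A → IsLoop B → Apart A B → A (1 / 2) = A 0 →
    lk A B = lk (fun t => A (t / 2)) B + lk (fun t => A ((t + 1) / 2)) B
  lk_add_right : ∀ A B : ℝ → P3, IsLoop A → IsLoop B → Apart A B → B (1 / 2) = B 0 →
    lk A B = lk A (fun t => B (t / 2)) + lk A (fun t => B ((t + 1) / 2))
  lk_poly : ∀ (n m : ℕ) (a b : ℕ → P3) (A B : ℝ → P3), IsPoly n a A → IsPoly m b B → Apart A B →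
    (∀ i < n, ∀ j < m, GenPair (a i) (a (i + 1)) (b j) (b (j + 1))) →
    lk A B = ∑ i ∈ Finset.range n, ∑ j ∈ Finset.range m, crS (a i) (a (i + 1)) (b j) (b (j + 1))
  ben : ∀ c d : ℝ → P3, (∀ t, HasDerivAt c (d t) t) → Continuous d → (∀ t, c (t + 1) = c t) →
    InjOn c (Ico 0 1) → (∀ t, 0 < al (c t) (d t)) →
    ∀ᶠ ε : ℝ in 𝓝[>] 0, V (⟨1, fun _ => c⟩ : CPL Unit) (lk c fun t => c t - (0, ε, 0))

end Pool.Agent.Lib.MP_4d7d0a_gt
end

-- part Pool.Agent.Lib.MP_4d7d0a_gt.IfA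
section

/-! Interfaces of the geometric parts. -/

set_option autoImplicit false

open Set Filter Topology
open scoped ContDiff

namespace Pool.Agent.Lib.MP_4d7d0a_gt

/-- denominator of the Cayley map -/
def cayD (p : P3) : ℝ := (4 * p.2.2 - 2 * p.1 * p.2.1) ^ 2 + (p.1 ^ 2 + p.2.1 ^ 2 + 1) ^ 2

/-- the Cayley map from `ℝ³` onto the sphere minus `pole`; it pulls `lam` back to
`8 / cayD` times `al` -/
noncomputable def cay (p : P3) : P4 :=
  (2 * (p.1 * (4 * p.2.2 - 2 * p.1 * p.2.1) + p.2.1 * (p.1 ^ 2 + p.2.1 ^ 2 + 1)) / cayD p,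
    2 * (p.2.1 * (4 * p.2.2 - 2 * p.1 * p.2.1) - p.1 * (p.1 ^ 2 + p.2.1 ^ 2 + 1)) / cayD p,
    1 - 2 * (p.1 ^ 2 + p.2.1 ^ 2 + 1) / cayD p, -2 * (4 * p.2.2 - 2 * p.1 * p.2.1) / cayD p)

def pole : P4 := (0, 0, 1, 0)

def caiN (q : P4) : ℝ := (1 - q.2.2.1) ^ 2 + q.2.2.2 ^ 2

/-- the inverse Cayley map -/
noncomputable def cai (q : P4) : P3 :=
  (-(q.1 * q.2.2.2 + q.2.1 * (1 - q.2.2.1)) / caiN q,
    (q.1 * (1 - q.2.2.1) - q.2.1 * q.2.2.2) / caiN q,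
    (-2 * q.2.2.2 / caiN q + 2 * (-(q.1 * q.2.2.2 + q.2.1 * (1 - q.2.2.1)) / caiN q) *
      ((q.1 * (1 - q.2.2.1) - q.2.1 * q.2.2.2) / caiN q)) / 4)

/-- the special unitary map taking `pole` to `p` (for `p` on the sphere) -/
def rotU (p q : P4) : P4 :=
  (p.2.2.1 * q.1 + p.2.2.2 * q.2.1 + p.1 * q.2.2.1 - p.2.1 * q.2.2.2,
    p.2.2.1 * q.2.1 - p.2.2.2 * q.1 + p.1 * q.2.2.2 + p.2.1 * q.2.2.1,
    -(p.1 * q.1 + p.2.1 * q.2.1) + p.2.2.1 * q.2.2.1 - p.2.2.2 * q.2.2.2,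
    -(p.1 * q.2.1 - p.2.1 * q.1) + p.2.2.1 * q.2.2.2 + p.2.2.2 * q.2.2.1)

/-- a Legendrian knot in `ℝ³` with period one -/
def IsLeg3 (K : ℝ → P3) : Prop :=
  ContDiff ℝ ∞ K ∧ (∀ t, K (t + 1) = K t) ∧ InjOn K (Ico 0 1) ∧ (∀ t, deriv K t ≠ 0) ∧
    ∀ t, al (K t) (deriv K t) = 0

/-- a smooth family of Legendrian links in `ℝ³` with components indexed by `ι` -/
def IsLegFam {ι : Type} (G : ι → ℝ → ℝ → P3) : Prop :=
  (∀ i, ContDiff ℝ ∞ fun a : ℝ × ℝ => G i a.1 a.2) ∧ (∀ i, ∀ s ∈ Icc (0 : ℝ) 1, IsLeg3 (G i s)) ∧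
    ∀ i j, i ≠ j → ∀ s ∈ Icc (0 : ℝ) 1, ∀ t t', G i s t ≠ G j s t'

/-- parametrised Legendrian links joined by a chain of smooth families -/
def LegChain {ι : Type} (K K' : ι → ℝ → P3) : Prop :=
  Relation.ReflTransGen
    (fun a b : ι → ℝ → P3 => ∃ G, IsLegFam G ∧ (∀ i, G i 0 = a i) ∧ ∀ i, G i 1 = b i) K K'

/-- normal displacement in the canonical chart -/
noncomputable def canPsi (K : ℝ → P3) (s Y : ℝ) : ℝ :=
  2 * Y / (((deriv K s).1 ^ 2 + (deriv K s).2.1 ^ 2) +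
    Real.sqrt (((deriv K s).1 ^ 2 + (deriv K s).2.1 ^ 2) ^ 2 + 2 * ((deriv (deriv K) s).1 *
      (deriv K s).2.1 - (deriv (deriv K) s).2.1 * (deriv K s).1) * Y))

/-- the canonical strict contact chart along a Legendrian curve -/
noncomputable def can (K : ℝ → P3) (p : P3) : P3 :=
  ((K p.1).1 - (deriv K p.1).2.1 * canPsi K p.1 p.2.1,
    (K p.1).2.1 + (deriv K p.1).1 * canPsi K p.1 p.2.1,
    (K p.1).2.2 + p.2.2 - (K p.1).2.1 * (deriv K p.1).2.1 * canPsi K p.1 p.2.1 -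
      (deriv K p.1).1 * (deriv K p.1).2.1 * canPsi K p.1 p.2.1 ^ 2 / 2)

/-- a compactly supported contactomorphism of `ℝ³` with its inverse -/
def IsCto (f g : P3 → P3) : Prop :=
  (∀ p, ContactAt f p) ∧ (∀ p, ContactAt g p) ∧ (∀ p, g (f p) = p) ∧ (∀ p, f (g p) = p) ∧
    ∃ R : ℝ, ∀ p : P3, R ≤ ‖p‖ → f p = p

/-- surgery data on the knot `cay ∘ K` -/
structure SD (K : ℝ → P3) (M : Type) [TopologicalSpace M] [ChartedSpace P3 M] where
  r : ℝ
  nu : P3 → P3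
  ns : P3 → M
  th : M → P4
  psi : P3 → M
  minf : M
  A : ℝ → ℝ
  B : ℝ → ℝ
  r' : ℝ
  r_pos : 0 < r
  r'_pos : 0 < r'
  r'_le : r' ≤ r
  nu_tube : TubeMap nu r
  nu_ct : ∀ p ∈ tube r, ContactAt nu p
  nu_core : ∀ x, nu (x, 0, 0) = K x
  ns_tube : TubeMap ns r
  ns_ct : ∀ p ∈ tube r, ContinuousAt ns p ∧ ContactAt (inChart ns p) p
  th_bij : BijOn th (range fun x : ℝ => ns (x, 0, 0))ᶜ (S3 \ range fun t => cay (K t))
  th_ct : ∀ m ∈ (range fun x : ℝ => ns (x, 0, 0))ᶜ,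
    ContactAt4 (fun p => th ((chartAt P3 m).symm p)) (chartAt P3 m m)
  psi_not : ∀ p ∉ range K, psi p ∉ range fun x : ℝ => ns (x, 0, 0)
  th_psi : ∀ p ∉ range K, th (psi p) = cay p
  psi_ct : ∀ p ∉ range K, ContinuousAt psi p ∧ ContactAt (inChart psi p) p
  minf_not : minf ∉ range fun x : ℝ => ns (x, 0, 0)
  th_minf : th minf = pole
  A_sm : ContDiff ℝ ∞ A
  B_sm : ContDiff ℝ ∞ B
  A_per : ∀ a, A (a + 2 * Real.pi) = A a + 1
  B_per : ∀ a, B (a + 2 * Real.pi) = B a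
  B_le : ∀ a, r' * Real.exp (B a) ≤ r
  glue : ∀ x a ρ : ℝ, 0 < ρ → ρ < r' → th (ns (x, ρ * Real.cos a, ρ * Real.sin a)) =
    cay (nu (x + A a, ρ * Real.exp (B a) * Real.cos a, ρ * Real.exp (B a) * Real.sin a))

/-- the curve of framing one more than the contact framing, started at `x` -/
noncomputable def longi (nu : P3 → P3) (x ρ t : ℝ) : P3 :=
  nu (x + t, ρ * Real.cos (2 * Real.pi * t), ρ * Real.sin (2 * Real.pi * t))

/-- the knot has framing zero along `longi`, and the parallel cables satisfy the slice bound -/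
def CableOK (T : KTheory) (nu : P3 → P3) : Prop :=
  (∀ᶠ ρ : ℝ in 𝓝[>] 0, T.lk (longi nu 0 ρ) (fun t => nu (t, 0, 0)) = 0) ∧
    ∀ (k : ℕ) (x : Fin k → ℝ) (o : Fin k → Bool), 0 < k → Function.Injective x →
      (∀ i, x i ∈ Ico (0 : ℝ) 1) → ∀ᶠ ρ : ℝ in 𝓝[>] 0,
        ¬ T.V (⟨1, fun i t => longi nu (x i) ρ (if o i then t else 1 - t)⟩ : CPL (Fin k)) (1 - k)

/-- a corner profile of size `η` -/
structure Prof where
  η : ℝ
  ab : ℝ → ℝ
  w : ℝ → ℝ
  pos : 0 < η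
  small : η ≤ 1 / 16
  ab_sm : ContDiff ℝ ∞ ab
  w_sm : ContDiff ℝ ∞ w
  ab_even : ∀ u, ab (-u) = ab u
  ab_eq : ∀ u, η ≤ |u| → ab u = |u|
  ab_close : ∀ u, |ab u - (|u|)| ≤ η
  ab_der : ∀ u, |deriv ab u| ≤ 1 + η
  w_der : ∀ u, HasDerivAt w ((u - ab u) * (1 + deriv ab u) / 4) u
  w_eq : ∀ u, η ≤ |u| → w u = 0
  w_le : ∀ u, |w u| ≤ η

/-- the rounded Legendrian corner at `V` with neighbours `U` (before) and `W` (after) -/
noncomputable def Prof.cor (π : Prof) (U V W : P3) (u : ℝ) : P3 :=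
  (V.1 + (u - π.ab u) / 2 * (V.1 - U.1) + (u + π.ab u) / 2 * (W.1 - V.1),
    V.2.1 + (u - π.ab u) / 2 * (V.2.1 - U.2.1) + (u + π.ab u) / 2 * (W.2.1 - V.2.1),
    V.2.2 + V.2.1 * ((u - π.ab u) / 2 * (V.1 - U.1) + (u + π.ab u) / 2 * (W.1 - V.1)) +
      (V.1 - U.1) * (V.2.1 - U.2.1) * ((u - π.ab u) / 2) ^ 2 / 2 +
      (W.1 - V.1) * (W.2.1 - V.2.1) * ((u + π.ab u) / 2) ^ 2 / 2 +
      (W.2.1 - V.2.1) * (V.1 - U.1) * ((u - π.ab u) / 2 * ((u + π.ab u) / 2)) +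
      ((V.2.1 - U.2.1) * (W.1 - V.1) - (W.2.1 - V.2.1) * (V.1 - U.1)) * π.w u)

/-- the smooth Legendrian curve through the rounded vertices `W i` (one unit of time per edge) -/
noncomputable def Prof.real (π : Prof) (W : ℤ → P3) (t : ℝ) : P3 :=
  π.cor (W (round t - 1)) (W (round t)) (W (round t + 1)) (t - round t)

/-- integer points -/
abbrev Z3 : Type := ℤ × ℤ × ℤ

def toP3 (v : Z3) : P3 := ((v.1 : ℝ), (v.2.1 : ℝ), (v.2.2 : ℝ))

/-- the cyclic vertex sequence of a list -/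
def cyc (l : List Z3) (i : ℤ) : P3 := toP3 (l.getD (i % (l.length : ℤ)).toNat (0, 0, 0))

/-- the closed curve of period one through the vertices of a list -/
noncomputable def Prof.knot (π : Prof) (l : List Z3) (t : ℝ) : P3 := π.real (cyc l) (l.length * t)

/-- the closed polygon of period one through the vertices of a list -/
noncomputable def polyOf (l : List Z3) (t : ℝ) : P3 :=
  AffineMap.lineMap (cyc l ⌊l.length * t⌋) (cyc l (⌊l.length * t⌋ + 1)) (Int.fract (l.length * t))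

/-- a statement holds for all sufficiently small profiles -/
def Small (P : Prof → Prop) : Prop := ∃ η₀ : ℝ, 0 < η₀ ∧ ∀ π : Prof, π.η < η₀ → P π

/-- a functor from the path groupoid of `S` to the group `G` -/
structure PathFun {X : Type} [TopologicalSpace X] (S : Set X) (G : Type) [Group G] where
  F : (ℝ → X) → G
  hom : ∀ H : ℝ → ℝ → X, ContinuousOn (fun a : ℝ × ℝ => H a.1 a.2) (Icc 0 1 ×ˢ Icc 0 1) →
    (∀ s ∈ Icc (0 : ℝ) 1, ∀ t ∈ Icc (0 : ℝ) 1, H s t ∈ S) →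
    (∀ s ∈ Icc (0 : ℝ) 1, H s 0 = H 0 0 ∧ H s 1 = H 0 1) → F (H 0) = F (H 1)
  mul : ∀ c : ℝ → X, ContinuousOn c (Icc 0 1) → MapsTo c (Icc 0 1) S →
    F c = F (fun t => c (t / 2)) * F fun t => c ((t + 1) / 2)

/-- two loops in `S'` at one point whose values do not commute -/
def PathFun.NonAb {X : Type} [TopologicalSpace X] {S : Set X} {G : Type} [Group G]
    (F : PathFun S G) (S' : Set X) : Prop :=
  ∃ c c' : ℝ → X, ContinuousOn c (Icc 0 1) ∧ ContinuousOn c' (Icc 0 1) ∧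
    MapsTo c (Icc 0 1) S' ∧ MapsTo c' (Icc 0 1) S' ∧ c 1 = c 0 ∧ c' 0 = c 0 ∧ c' 1 = c 0 ∧
    F.F c * F.F c' ≠ F.F c' * F.F c

abbrev SL2Z : Type := Matrix.SpecialLinearGroup (Fin 2) ℤ

/-- absolute value of the trace -/
def atr (g : SL2Z) : ℤ := |g.1 0 0 + g.1 1 1|

end Pool.Agent.Lib.MP_4d7d0a_gt
end

-- part Pool.Agent.Lib.MP_4d7d0a_gt.Data
section

/-! The vertex lists of the knot `L`, of the two curves `a`, `b` obtained from it by the inverse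
pinch move, and of the unknot `U` whose 2-copy is isotopic to `a ∪ b`. -/

set_option autoImplicit false

namespace Pool.Agent.Lib.MP_4d7d0a_gt

/-- the slope unit -/
def sg : ℝ := 16384

def WL : List Z3 :=
    [(1, -16384, 0), (224, -16384, -3653632), (224, -8192, -3653632), (224, 8192, -3653632),
    (224, 16384, -3653632), (448, 16384, 16384), (448, -16384, 16384), (640, -16384, -3129344),
    (640, 16384, -3129344), (832, 16384, 16384), (832, -16384, 16384), (576, -16384, 4210688),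
    (576, 16384, 4210688), (256, 16384, -1032192), (256, -16384, -1032192),
    (384, -16384, -3129344), (384, 16384, -3129344), (128, 16384, -7323648),
    (128, -16384, -7323648), (-256, -16384, -1032192), (-256, 16384, -1032192),
    (-448, 16384, -4177920), (-448, -16384, -4177920), (128, -16384, -13615104),
    (128, 16384, -13615104), (640, 16384, -5226496), (640, -16384, -5226496),
    (256, -16384, 1064960), (256, 16384, 1064960), (448, 16384, 4210688), (448, -16384, 4210688),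
    (192, -16384, 8404992), (192, 16384, 8404992), (-256, 16384, 1064960),
    (-256, -16384, 1064960), (-384, -16384, 3162112), (-384, 16384, 3162112),
    (-576, 16384, 16384), (-576, -16384, 16384), (-288, -16384, -4702208),
    (-288, 16384, -4702208), (-1, 16384, 0), (-1, 0, 0), (-1, -16384, 0), (-225, -16384, 3670016),
    (-225, -8192, 3670016), (-225, 8192, 3670016), (-225, 16384, 3670016), (-448, 16384, 16384),
    (-448, -16384, 16384), (-528, -16384, 1327104), (-528, 16384, 1327104),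
    (-384, 16384, 3686400), (-384, -16384, 3686400), (-256, -16384, 1589248),
    (-256, 16384, 1589248), (192, 16384, 8929280), (192, -16384, 8929280), (448, -16384, 4734976),
    (448, 16384, 4734976), (256, 16384, 1589248), (256, -16384, 1589248), (640, -16384, -4702208),
    (640, 16384, -4702208), (128, 16384, -13090816), (128, -16384, -13090816),
    (-448, -16384, -3653632), (-448, 16384, -3653632), (-256, 16384, -507904),
    (-256, -16384, -507904), (128, -16384, -6799360), (128, 16384, -6799360),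
    (384, 16384, -2605056), (384, -16384, -2605056), (256, -16384, -507904),
    (256, 16384, -507904), (576, 16384, 4734976), (576, -16384, 4734976), (784, -16384, 1327104),
    (784, 16384, 1327104), (640, 16384, -1032192), (640, -16384, -1032192),
    (289, -16384, 4718592), (289, 16384, 4718592), (1, 16384, 0), (1, 0, 0)]

def Wa : List Z3 :=
    [(1, -16384, 0), (224, -16384, -3653632), (224, -8192, -3653632), (224, 8192, -3653632),
    (224, 16384, -3653632), (448, 16384, 16384), (448, -16384, 16384), (640, -16384, -3129344),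
    (640, 16384, -3129344), (832, 16384, 16384), (832, -16384, 16384), (576, -16384, 4210688),
    (576, 16384, 4210688), (256, 16384, -1032192), (256, -16384, -1032192),
    (384, -16384, -3129344), (384, 16384, -3129344), (128, 16384, -7323648),
    (128, -16384, -7323648), (-256, -16384, -1032192), (-256, 16384, -1032192),
    (-448, 16384, -4177920), (-448, -16384, -4177920), (128, -16384, -13615104),
    (128, 16384, -13615104), (640, 16384, -5226496), (640, -16384, -5226496),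
    (256, -16384, 1064960), (256, 16384, 1064960), (448, 16384, 4210688), (448, -16384, 4210688),
    (192, -16384, 8404992), (192, 16384, 8404992), (-256, 16384, 1064960),
    (-256, -16384, 1064960), (-384, -16384, 3162112), (-384, 16384, 3162112),
    (-576, 16384, 16384), (-576, -16384, 16384), (-288, -16384, -4702208),
    (-288, 16384, -4702208), (-1, 16384, 0), (-1, 0, 0), (1, 0, 0)]

def Wb : List Z3 :=
    [(1, 16384, 0), (289, 16384, 4718592), (289, -16384, 4718592), (640, -16384, -1032192),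
    (640, 16384, -1032192), (784, 16384, 1327104), (784, -16384, 1327104), (576, -16384, 4734976),
    (576, 16384, 4734976), (256, 16384, -507904), (256, -16384, -507904), (384, -16384, -2605056),
    (384, 16384, -2605056), (128, 16384, -6799360), (128, -16384, -6799360),
    (-256, -16384, -507904), (-256, 16384, -507904), (-448, 16384, -3653632),
    (-448, -16384, -3653632), (128, -16384, -13090816), (128, 16384, -13090816),
    (640, 16384, -4702208), (640, -16384, -4702208), (256, -16384, 1589248),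
    (256, 16384, 1589248), (448, 16384, 4734976), (448, -16384, 4734976), (192, -16384, 8929280),
    (192, 16384, 8929280), (-256, 16384, 1589248), (-256, -16384, 1589248),
    (-384, -16384, 3686400), (-384, 16384, 3686400), (-528, 16384, 1327104),
    (-528, -16384, 1327104), (-448, -16384, 16384), (-448, 16384, 16384), (-225, 16384, 3670016),
    (-225, 8192, 3670016), (-225, -8192, 3670016), (-225, -16384, 3670016), (-1, -16384, 0),
    (-1, 0, 0), (1, 0, 0)]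

def WU : List Z3 :=
    [(-320, -16384, -114688), (128, -16384, -7454720), (128, -8192, -7454720),
    (128, 8192, -7454720), (128, 16384, -7454720), (512, 16384, -1163264),
    (512, -16384, -1163264), (640, -16384, -3260416), (640, 16384, -3260416),
    (832, 16384, -114688), (832, -16384, -114688), (512, -16384, 5128192), (512, 16384, 5128192),
    (128, 16384, -1163264), (128, -16384, -1163264), (192, -16384, -2211840),
    (192, 16384, -2211840), (128, 16384, -3260416), (128, -16384, -3260416),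
    (-128, -16384, 933888), (-128, 16384, 933888), (-448, 16384, -4308992),
    (-448, -16384, -4308992), (128, -16384, -13746176), (128, 16384, -13746176),
    (640, 16384, -5357568), (640, -16384, -5357568), (192, -16384, 1982464),
    (192, 16384, 1982464), (384, 16384, 5128192), (384, -16384, 5128192), (320, -16384, 6176768),
    (320, 16384, 6176768), (64, 16384, 1982464), (64, -16384, 1982464), (-192, -16384, 6176768),
    (-192, 16384, 6176768), (-576, 16384, -114688), (-576, -16384, -114688),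
    (-448, -16384, -2211840), (-448, 16384, -2211840), (-320, 16384, -114688),
    (-320, 8192, -114688), (-320, -8192, -114688)]

end Pool.Agent.Lib.MP_4d7d0a_gt
end

-- part Pool.Agent.Lib.MP_4d7d0a_gt.Stm
section

/-! The family produced by the geometric part and the statements of the parts. -/

set_option autoImplicit false

open Set Filter Topology
open scoped ContDiff

namespace Pool.Agent.Lib.MP_4d7d0a_gt

/-- the region containing the dual knots -/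
def Near (π : Prof) (p : P3) : Prop :=
  (∃ t τ : ℝ, |τ| ≤ 12 * sg ∧ ‖p - (π.knot WL t + (0, 0, τ))‖ ≤ 1) ∨
    (|p.1| ≤ 2 ∧ |p.2.1| ≤ 1 ∧ |p.2.2| ≤ 12 * sg)

/-- the downward push-off of `L` based at the time `20.5` -/
noncomputable def loopX (π : Prof) (t : ℝ) : P3 :=
  π.real (cyc WL) (86 * t + 41 / 2) - (0, 0, 8 * sg)

/-- the downward push-off of `a` based at the same point -/
noncomputable def loopY (π : Prof) (t : ℝ) : P3 :=
  π.real (cyc Wa) (44 * t + 41 / 2) - (0, 0, 8 * sg)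

/-- the family of knots with a common surgery -/
structure Fam (π : Prof) (M : Type) [TopologicalSpace M] [ChartedSpace P3 M] where
  K : ℕ → ℝ → P3
  leg : ∀ n, IsLeg3 (K n)
  sd : ∀ n, SD (K n) M
  K0 : K 0 = π.knot WL
  nu0 : (sd 0).nu = can (π.knot WL)
  minf_eq : ∀ n, (sd n).minf = (sd 0).minf
  ε : ℤ
  ε_eq : ε = 1 ∨ ε = -1
  hp : ∀ (G : Type) [Group G] (F : PathFun ({(sd 0).minf}ᶜ : Set M) G) (n : ℕ),
    IsConj (F.F fun t => (sd n).ns (t, 0, 0))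
      (F.F (fun t => (sd 0).psi (loopX π t)) * F.F (fun t => (sd 0).psi (loopY π t)) ^ (ε * n))
  avoid : ∀ (n : ℕ) (x : ℝ), (∃ x' : ℝ, (sd n).ns (x, 0, 0) = (sd 0).ns (x', 0, 0)) ∨
    ∃ p, p ∉ range (K 0) ∧ Near π p ∧ (sd n).ns (x, 0, 0) = (sd 0).psi p

/-- Part OD -/
def ODStmt : Prop := Nonempty ODTheory

/-- Part K -/
def KStmt : Prop := Nonempty ODTheory → Nonempty KTheory

/-- Part T, general half -/
def TGenStmt : Prop :=
  ∀ (T : KTheory) (M : Type) [TopologicalSpace M] [ChartedSpace P3 M] [T2Space M],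
    IsContactAtlas M → ∀ (K : ℝ → P3) (sd : SD K M), IsLeg3 K → CableOK T sd.nu → Tight M

/-- Part T, special half -/
def CableStmt : Prop := ∀ T : KTheory, Small fun π => CableOK T (can (π.knot WL))

/-- Part A -/
def FamStmt : Prop :=
  Small fun π => ∃ (M : Type) (_ : TopologicalSpace M) (_ : ChartedSpace P3 M),
    T2Space M ∧ IsContactAtlas M ∧ Nonempty (Fam π M)

/-- Part D, general half -/
def DGenStmt : Prop :=
  ∀ (M : Type) [TopologicalSpace M] [ChartedSpace P3 M] [T2Space M], IsContactAtlas M →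
    ∀ (K K' : ℝ → P3) (sd : SD K M) (sd' : SD K' M) (m : M), IsLeg3 K → IsLeg3 K' →
      sd.minf = m → sd'.minf = m → LegIsotopic (fun t => cay (K t)) (fun t => cay (K' t)) →
      ∀ (G : Type) [Group G] (F : PathFun ({m}ᶜ : Set M) G), ∃ F' : PathFun ({m}ᶜ : Set M) G,
        (IsConj (F'.F fun t => sd'.ns (t, 0, 0)) (F.F fun t => sd.ns (t, 0, 0)) ∨
          IsConj (F'.F fun t => sd'.ns (t, 0, 0)) (F.F fun t => sd.ns (t, 0, 0))⁻¹) ∧
        (F.NonAb ({m}ᶜ \ range fun x : ℝ => sd.ns (x, 0, 0)) → F'.NonAb {m}ᶜ)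

/-- Part D, special half -/
def DSpecStmt : Prop :=
  Small fun π => ∀ (M : Type) [TopologicalSpace M] [ChartedSpace P3 M] [T2Space M],
    IsContactAtlas M → ∀ fam : Fam π M, ∃ p : ℕ → ℤ, (∀ n m, 1 ≤ n → n < m → p n < p m) ∧
      (∃ F : PathFun ({(fam.sd 0).minf}ᶜ : Set M) SL2Z, ∀ n,
        atr (F.F fun t => (fam.sd n).ns (t, 0, 0)) = p n ∧
        F.NonAb ({(fam.sd 0).minf}ᶜ \ range fun x : ℝ => (fam.sd n).ns (x, 0, 0))) ∧
      ∀ F : PathFun ({(fam.sd 0).minf}ᶜ : Set M) SL2Z, F.NonAb {(fam.sd 0).minf}ᶜ →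
        ∀ m, p m ≤ atr (F.F fun t => (fam.sd m).ns (t, 0, 0))

/-- profiles exist -/
def ProfStmt : Prop := ∀ η₀ : ℝ, 0 < η₀ → ∃ π : Prof, π.η < η₀

/-- surgery data give a surgery -/
def SurgStmt : Prop :=
  ∀ (M : Type) [TopologicalSpace M] [ChartedSpace P3 M] (K : ℝ → P3), IsLeg3 K → SD K M →
    IsLegKnot (fun t => cay (K t)) ∧ IsPlusOneSurgery (fun t => cay (K t)) M

/-- the final statement -/
def Final : Prop :=
  ∃ (M : Type) (_ : TopologicalSpace M) (_ : ChartedSpace P3 M), T2Space M ∧ IsContactAtlas M ∧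
    Tight M ∧ ∃ K : ℕ → ℝ → P4, (∀ n, IsLegKnot (K n)) ∧
      (∀ n m, n ≠ m → ¬ LegIsotopic (K n) (K m)) ∧ ∀ n, IsPlusOneSurgery (K n) M

theorem LegIsotopic.symm {K K' : ℝ → P4} (h : LegIsotopic K K') : LegIsotopic K' K := by
  obtain ⟨H, hs, hl, h0, h1⟩ := h
  refine ⟨fun s => H (1 - s), ?_, fun s hs' => hl _ ⟨by linarith [hs'.2], by linarith [hs'.1]⟩,
    by simpa using h1, by simpa using h0⟩
  have : ContDiff ℝ ∞ fun a : ℝ × ℝ => ((1 - a.1, a.2) : ℝ × ℝ) := by fun_prop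
  exact hs.comp this.contDiffOn fun a ha =>
    ⟨⟨by linarith [ha.1.2], by linarith [ha.1.1]⟩, trivial⟩

theorem atr_conj {g h : SL2Z} (c : IsConj g h) : atr g = atr h := by
  obtain ⟨u, hu⟩ := isConj_iff.1 c
  have h1 : ∀ k : SL2Z, k.1 0 0 + k.1 1 1 = Matrix.trace k.1 := fun k => by
    simp [Matrix.trace_fin_two]
  unfold atr
  rw [h1, h1, ← hu]
  simp only [Matrix.SpecialLinearGroup.coe_mul]
  rw [Matrix.trace_mul_comm, ← Matrix.mul_assoc, ← Matrix.SpecialLinearGroup.coe_mul,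
    inv_mul_cancel]
  simp

theorem atr_inv (g : SL2Z) : atr g⁻¹ = atr g := by
  unfold atr
  rw [Matrix.SpecialLinearGroup.SL2_inv_expl]
  simp [add_comm]

theorem final_of (hOD : ODStmt) (hK : KStmt) (hT : TGenStmt) (hC : CableStmt) (hF : FamStmt)
    (hD : DGenStmt) (hS : DSpecStmt) (hP : ProfStmt) (hU : SurgStmt) : Final := by
  obtain ⟨T⟩ := hK hOD
  obtain ⟨e1, p1, h1⟩ := hC T
  obtain ⟨e2, p2, h2⟩ := hF
  obtain ⟨e3, p3, h3⟩ := hS
  obtain ⟨π, hπ⟩ := hP (min e1 (min e2 e3)) (by positivity)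
  obtain ⟨M, tM, cM, t2, hA, ⟨fam⟩⟩ := h2 π (by grind)
  obtain ⟨p, hp, ⟨F, hF0⟩, hall⟩ := h3 π (by grind) M hA fam
  have key : ∀ n m, 1 ≤ n → n < m →
      ¬ LegIsotopic (fun t => cay (fam.K n t)) (fun t => cay (fam.K m t)) := by
    intro n m hn hnm hi
    obtain ⟨F', hc, hna⟩ := hD M hA _ _ (fam.sd n) (fam.sd m) _ (fam.leg n) (fam.leg m)
      (fam.minf_eq n) (fam.minf_eq m) hi SL2Z F
    have h4 := hall F' (hna (hF0 n).2) m
    have h5 := hp n m hn hnm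
    have h6 := (hF0 n).1
    rcases hc with hc | hc
    · have := atr_conj hc
      omega
    · have := atr_conj hc
      rw [atr_inv] at this
      omega
  refine ⟨M, tM, cM, t2, hA, ?_, fun n t => cay (fam.K (n + 1) t),
    fun n => (hU M _ (fam.leg _) (fam.sd _)).1, ?_, fun n => (hU M _ (fam.leg _) (fam.sd _)).2⟩
  · exact hT T M hA _ (fam.sd 0) (fam.leg 0) (by rw [fam.nu0]; exact h1 π (by grind))
  · intro n m hnm hi
    rcases lt_or_gt_of_ne hnm with h | h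
    · exact key (n + 1) (m + 1) (by omega) (by omega) hi
    · exact key (m + 1) (n + 1) (by omega) (by omega) hi.symm

end Pool.Agent.Lib.MP_4d7d0a_gt
end

-- part Pool.Agent.Lib.MP_4d7d0a_gt.TIf
section

/-! Interface between the two halves of the tightness proof. -/

set_option autoImplicit false

open Set Filter Topology
open scoped ContDiff

namespace Pool.Agent.Lib.MP_4d7d0a_gt

/-- the parameter plane -/
abbrev P2 : Type := ℝ × ℝ

/-- polar coordinates -/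
noncomputable def pol (ρ a : ℝ) : P2 := (ρ * Real.cos a, ρ * Real.sin a)

/-- a punctured disc in `ℝ³` off the knot `K`, with Legendrian boundary framed by the contact
planes, whose ends at the punctures are the twisted meridians -/
structure Surf (K : ℝ → P3) (nu : P3 → P3) (A B : ℝ → ℝ) where
  k : ℕ
  u : Fin k → P2
  h : P2 → P3
  β : Fin k → P2 → P2
  g : Fin k → P2 → ℝ
  u_inj : Function.Injective u
  u_int : ∀ i, (u i).1 ^ 2 + (u i).2 ^ 2 < 1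
  sm : ∀ w ∈ disc \ range u, ContDiffAt ℝ ∞ h w
  imm : ∀ w ∈ disc \ range u, Function.Injective (fderiv ℝ h w)
  inj : InjOn h (disc \ range u)
  proper : ∀ w ∈ disc \ range u, ∀ η : ℝ, 0 < η →
    ∀ᶠ p in 𝓝 (h w), ∀ w' ∈ disc \ range u, h w' = p → dist w' w < η
  off : ∀ w ∈ disc \ range u, h w ∉ range K
  leg : ∀ w ∈ circ, al (h w) (fderiv ℝ h w (-w.2, w.1)) = 0
  bd : (∀ w ∈ circ, ∀ v, al (h w) (fderiv ℝ h w v) = 0) ∨
    ∀ w ∈ circ, ∃ v, al (h w) (fderiv ℝ h w v) ≠ 0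
  β_sm : ∀ i, ContDiffAt ℝ ∞ (β i) 0
  β_zero : ∀ i, β i 0 = u i
  β_imm : ∀ i, Function.Injective (fderiv ℝ (β i) 0)
  g_sm : ∀ i, ContDiffAt ℝ ∞ (g i) 0
  g_mem : ∀ i, g i 0 ∈ Ico (0 : ℝ) 1
  g_inj : Function.Injective fun i => g i 0
  loc : ∀ i, ∀ᶠ ρ : ℝ in 𝓝[>] 0, ∀ a : ℝ, h (β i (pol ρ a)) =
    nu (g i (pol ρ a) + A a, ρ * Real.exp (B a) * Real.cos a, ρ * Real.exp (B a) * Real.sin a)

/-- manifold half: an overtwisted disc gives a punctured disc in `ℝ³` -/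
def TAStmt : Prop :=
  ∀ (M : Type) [TopologicalSpace M] [ChartedSpace P3 M] [T2Space M], IsContactAtlas M →
    ∀ (K : ℝ → P3) (sd : SD K M), IsLeg3 K → ∀ f : ℝ × ℝ → M, IsOTDisc f →
      Nonempty (Surf K sd.nu sd.A sd.B)

/-- the tube data used by the knot-theoretic half -/
structure TubeD (K : ℝ → P3) (nu : P3 → P3) (A B : ℝ → ℝ) (r : ℝ) : Prop where
  leg : IsLeg3 K
  r_pos : 0 < r
  inj : TubeMap nu r
  ct : ∀ p ∈ tube r, ContactAt nu p
  core : ∀ x, nu (x, 0, 0) = K x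
  A_sm : ContDiff ℝ ∞ A
  B_sm : ContDiff ℝ ∞ B
  A_per : ∀ a, A (a + 2 * Real.pi) = A a + 1
  B_per : ∀ a, B (a + 2 * Real.pi) = B a

/-- knot-theoretic half: no such punctured disc -/
def TBStmt : Prop :=
  ∀ (T : KTheory) (K : ℝ → P3) (nu : P3 → P3) (A B : ℝ → ℝ) (r : ℝ), TubeD K nu A B r →
    CableOK T nu → Surf K nu A B → False

theorem tgen_of (hA : TAStmt) (hB : TBStmt) : TGenStmt := by
  intro T M _ _ _ hM K sd hK hC ⟨f, hf⟩
  obtain ⟨S⟩ := hA M hM K sd hK f hf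
  exact hB T K sd.nu sd.A sd.B sd.r ⟨hK, sd.r_pos, sd.nu_tube, sd.nu_ct, sd.nu_core, sd.A_sm,
    sd.B_sm, sd.A_per, sd.B_per⟩ hC S

end Pool.Agent.Lib.MP_4d7d0a_gt
end

-- part Pool.Agent.Lib.MP_4d7d0a_gt.TIf2
section

/-! Interface between the framing half and the saddle half of the knot-theoretic argument. -/

set_option autoImplicit false

open Set Filter Topology
open scoped ContDiff

namespace Pool.Agent.Lib.MP_4d7d0a_gt

/-- the boundary of the punctured disc, run in the direction `e = ±1` -/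
noncomputable def bdL (h : P2 → P3) (e : ℝ) : CPL Unit :=
  ⟨1, fun _ t => h (pol 1 (2 * Real.pi * (e * t)))⟩

/-- framing half: one orientation of the boundary has invariant at least zero -/
def TB1Stmt : Prop :=
  ∀ (T : KTheory) (K : ℝ → P3) (nu : P3 → P3) (A B : ℝ → ℝ) (r : ℝ), TubeD K nu A B r →
    CableOK T nu → ∀ S : Surf K nu A B, T.V (bdL S.h 1) 0 ∨ T.V (bdL S.h (-1)) 0

/-- saddle half: no orientation of the boundary has invariant at least zero -/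
def TB2Stmt : Prop :=
  ∀ (T : KTheory) (K : ℝ → P3) (nu : P3 → P3) (A B : ℝ → ℝ) (r : ℝ), TubeD K nu A B r →
    CableOK T nu → ∀ (S : Surf K nu A B) (e : ℝ), e = 1 ∨ e = -1 → ¬ T.V (bdL S.h e) 0

theorem tb_of (h1 : TB1Stmt) (h2 : TB2Stmt) : TBStmt := fun T K nu A B r hD hC S =>
  (h1 T K nu A B r hD hC S).elim (h2 T K nu A B r hD hC S 1 (Or.inl rfl))
    (h2 T K nu A B r hD hC S (-1) (Or.inr rfl))

end Pool.Agent.Lib.MP_4d7d0a_gt
end

-- part Pool.Agent.Lib.MP_4d7d0a_gt.TB0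
section

/-! Definitions for the saddle half of the tightness proof. -/

set_option autoImplicit false

open Set Filter Topology
open scoped ContDiff

namespace Pool.Agent.Lib.MP_4d7d0a_gt

section Gen

variable {ι E : Type} [NormedAddCommGroup E] [NormedSpace ℝ E]

/-- embedded closed chains of `C¹` arcs in a normed space (for `E = P3` this is `CPL.EmbD`) -/
def EmbE (σ : Equiv.Perm ι) (c d : ι → ℝ → E) : Prop :=
  (∀ v, ∀ u ∈ Icc (0 : ℝ) 1, HasDerivWithinAt (c v) (d v u) (Icc 0 1) u ∧ d v u ≠ 0) ∧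
    (∀ v, ContinuousOn (d v) (Icc 0 1)) ∧ (∀ v, c v 1 = c (σ v) 0) ∧
    (∀ v, ∀ r : ℝ, 0 < r → d v 1 ≠ -(r • d (σ v) 0)) ∧
    ∀ v w, ∀ u ∈ Ico (0 : ℝ) 1, ∀ u' ∈ Ico (0 : ℝ) 1, c v u = c w u' → v = w ∧ u = u'

theorem embE_iff (L : CPL ι) (d : ι → ℝ → P3) : EmbE L.σ L.c d ↔ L.EmbD d := Iff.rfl

/-- all arcs lie in `W` -/
def InW (W : Set E) (c : ι → ℝ → E) : Prop := ∀ v, ∀ u ∈ Icc (0 : ℝ) 1, c v u ∈ W

/-- a continuous family of embedded chains inside `W` joins `c₀` to `c₁` -/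
def FamE (W : Set E) (σ : Equiv.Perm ι) (c₀ c₁ : ι → ℝ → E) : Prop :=
  ∃ c d : ℝ → ι → ℝ → E, (∀ s ∈ Icc (0 : ℝ) 1, EmbE σ (c s) (d s)) ∧
    (∀ v, ContinuousOn (fun a : ℝ × ℝ => c a.1 v a.2) (Icc 0 1 ×ˢ Icc 0 1)) ∧
    (∀ v, ContinuousOn (fun a : ℝ × ℝ => d a.1 v a.2) (Icc 0 1 ×ˢ Icc 0 1)) ∧
    (∀ s ∈ Icc (0 : ℝ) 1, InW W (c s)) ∧
    (∀ v, ∀ u ∈ Icc (0 : ℝ) 1, c 0 v u = c₀ v u) ∧ ∀ v, ∀ u ∈ Icc (0 : ℝ) 1, c 1 v u = c₁ v u

end Gen

/-- an injective `C¹` immersion on `W` -/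
structure Imm (h : P2 → P3) (W : Set P2) : Prop where
  sm : ∀ w ∈ W, ContDiffAt ℝ 1 h w
  imm : ∀ w ∈ W, Function.Injective (fderiv ℝ h w)
  inj : InjOn h W

/-- the inverse of `h` on `W` is continuous -/
def Prp (h : P2 → P3) (W : Set P2) : Prop :=
  ∀ w ∈ W, ∀ η : ℝ, 0 < η → ∀ᶠ p in 𝓝 (h w), ∀ w' ∈ W, h w' = p → dist w' w < η

theorem Surf.toImm {K : ℝ → P3} {nu : P3 → P3} {A B : ℝ → ℝ} (S : Surf K nu A B) :
    Imm S.h (disc \ range S.u) :=
  ⟨fun w hw => (S.sm w hw).of_le (by exact_mod_cast le_top), S.imm, S.inj⟩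

theorem Surf.toPrp {K : ℝ → P3} {nu : P3 → P3} {A B : ℝ → ℝ} (S : Surf K nu A B) :
    Prp S.h (disc \ range S.u) := S.proper

/-- the plane determinant -/
def detP (p q : P2) : ℝ := p.1 * q.2 - p.2 * q.1

/-- the parameter run forwards or backwards -/
def ori (o : Bool) (t : ℝ) : ℝ := if o then t else 1 - t

/-- combinatorial data of a chain of arcs of the types `0` (bottom, rightwards), `1` (right end,
upwards), `2` (top, leftwards), `3` (left end, downwards); the arc `v` occupies the columns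
from `p v` to `q v` -/
structure Comb {ι : Type} (n : ℕ) (σ : Equiv.Perm ι) (ty p q : ι → ℕ) : Prop where
  ty_lt : ∀ v, ty v < 4
  lt : ∀ v, p v < q v
  le : ∀ v, q v ≤ n
  next : ∀ v, (ty v = 0 → ty (σ v) = 0 ∨ ty (σ v) = 1) ∧ (ty v = 1 → ty (σ v) = 2) ∧
    (ty v = 2 → ty (σ v) = 2 ∨ ty (σ v) = 3) ∧ (ty v = 3 → ty (σ v) = 0)
  pair : ∀ v w, v ≠ w → (ty v = 0 ∧ ty w = 2) ∨ (ty v = 2 ∧ ty w = 0) ∨ q v ≤ p w ∨ q w ≤ p v
  touch : ∀ v w, q v = p w → (ty v = 2 → ty w = 1 → σ w = v) ∧ (ty v = 3 → ty w = 0 → σ v = w) ∧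
    ¬ (ty v = 3 ∧ ty w = 1)

/-- a convex class of plane chains with column boundaries `X` -/
structure Geo {ι : Type} (n : ℕ) (σ : Equiv.Perm ι) (ty p q : ι → ℕ) (X : ℕ → ℝ)
    (c d : ι → ℝ → P2) : Prop where
  mono : ∀ a b, a < b → b ≤ n → X a < X b
  der : ∀ v, ∀ u ∈ Icc (0 : ℝ) 1, HasDerivWithinAt (c v) (d v u) (Icc 0 1) u
  cont : ∀ v, ContinuousOn (d v) (Icc 0 1)
  close : ∀ v, c v 1 = c (σ v) 0
  bot : ∀ v, ty v = 0 → (c v 0).1 = X (p v) ∧ (c v 1).1 = X (q v) ∧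
    ∀ u ∈ Icc (0 : ℝ) 1, 0 < (d v u).1 ∧ (c v u).2 < 0
  top : ∀ v, ty v = 2 → (c v 0).1 = X (q v) ∧ (c v 1).1 = X (p v) ∧
    ∀ u ∈ Icc (0 : ℝ) 1, (d v u).1 < 0 ∧ 0 < (c v u).2
  right : ∀ v, ty v = 1 → (∀ u ∈ Icc (0 : ℝ) 1, 0 < (d v u).2 ∧ X (p v) ≤ (c v u).1 ∧
    (c v u).1 < X (q v)) ∧ 0 ≤ (d v 0).1 ∧ (d v 1).1 ≤ 0 ∧ (c v (1 / 2)).2 = 0
  left : ∀ v, ty v = 3 → (∀ u ∈ Icc (0 : ℝ) 1, (d v u).2 < 0 ∧ X (p v) < (c v u).1 ∧
    (c v u).1 ≤ X (q v)) ∧ (d v 0).1 ≤ 0 ∧ 0 ≤ (d v 1).1 ∧ (c v (1 / 2)).2 = 0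

/-- arcs of a chain of `k` hexagonal beads -/
abbrev Bd (k : ℕ) : Type := Fin k × Fin 6

/-- the successor when the first `J` cuts between beads are closed -/
def nxt (k J : ℕ) (v : Bd k) : Bd k :=
  if h : v.2.val = 2 ∧ J ≤ v.1.val ∧ v.1.val + 1 < k then (⟨v.1.val + 1, h.2.2⟩, 0)
  else if v.2.val = 5 ∧ J < v.1.val then (⟨v.1.val - 1, by have := v.1.isLt; omega⟩, 3)
  else (v.1, v.2 + 1)

theorem nxt_val (k J : ℕ) (v : Bd k) :
    ((nxt k J v).1.val = if v.2.val = 2 ∧ J ≤ v.1.val ∧ v.1.val + 1 < k then v.1.val + 1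
      else if v.2.val = 5 ∧ J < v.1.val then v.1.val - 1 else v.1.val) ∧
    (nxt k J v).2.val = if v.2.val = 2 ∧ J ≤ v.1.val ∧ v.1.val + 1 < k then 0
      else if v.2.val = 5 ∧ J < v.1.val then 3 else (v.2.val + 1) % 6 := by
  unfold nxt
  split_ifs <;> simp [Fin.val_add]

theorem nxt_inj (k J : ℕ) : Function.Injective (nxt k J) := by
  intro v w h
  have h1 := nxt_val k J v
  have h2 := nxt_val k J w
  rw [h] at h1
  have := v.1.isLt
  have := w.1.isLt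
  have := v.2.isLt
  have := w.2.isLt
  have h3 : v.1.val = w.1.val ∧ v.2.val = w.2.val := by
    obtain ⟨a1, a2⟩ := h1
    obtain ⟨b1, b2⟩ := h2
    split_ifs at a1 a2 b1 b2 <;> omega
  exact Prod.ext (Fin.ext h3.1) (Fin.ext h3.2)

/-- the successor as a permutation -/
noncomputable def sig (k J : ℕ) : Equiv.Perm (Bd k) :=
  Equiv.ofBijective (nxt k J) (Finite.injective_iff_bijective.1 (nxt_inj k J))

theorem sig_apply (k J : ℕ) (v : Bd k) : sig k J v = nxt k J v := rfl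

/-- type of an arc -/
def bty (k J : ℕ) (v : Bd k) : ℕ :=
  if v.2.val < 2 then 0 else if v.2.val = 2 then (if J ≤ v.1.val ∧ v.1.val + 1 < k then 0 else 1)
  else if v.2.val < 5 then 2 else if J < v.1.val then 2 else 3

/-- first column boundary of an arc -/
def bp (k J : ℕ) (v : Bd k) : ℕ :=
  if v.2.val < 3 then 4 * v.1.val + v.2.val + 1 else if v.2.val < 5 then 4 * v.1.val + 5 - v.2.val
  else if J < v.1.val then 4 * v.1.val - 1 else 4 * v.1.val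

/-- last column boundary of an arc -/
def bq (k J : ℕ) (v : Bd k) : ℕ :=
  if v.2.val < 2 then 4 * v.1.val + v.2.val + 2
  else if v.2.val = 2 then (if J ≤ v.1.val ∧ v.1.val + 1 < k then 4 * v.1.val + 5
    else 4 * v.1.val + 4)
  else 4 * v.1.val + 6 - v.2.val

/-- position of an arc along the single closed curve with no closed cut -/
def bpos (k : ℕ) (v : Bd k) : ℕ :=
  if v.2.val < 3 then 3 * v.1.val + v.2.val else 6 * k - 3 * v.1.val - 6 + v.2.val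

/-- centres `x i`, cuts `s i` and the size `δ` -/
def Cuts (k : ℕ) (x s : ℕ → ℝ) (δ : ℝ) : Prop :=
  0 < δ ∧ ∀ i < k, s i + δ < x i ∧ x i < s (i + 1) - δ

/-- the vertices of the beads -/
def vtx (x s : ℕ → ℝ) (δ : ℝ) (i j : ℕ) : P2 :=
  if j = 0 then (s i + δ, -δ) else if j = 1 then (x i, -(2 * δ))
  else if j = 2 then (s (i + 1) - δ, -δ) else if j = 3 then (s (i + 1) - δ, δ)
  else if j = 4 then (x i, 2 * δ) else (s i + δ, δ)

/-- the polygon with the first `J` cuts closed -/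
noncomputable def plg (k J : ℕ) (x s : ℕ → ℝ) (δ : ℝ) (v : Bd k) (u : ℝ) : P2 :=
  AffineMap.lineMap (vtx x s δ v.1.val v.2.val)
    (vtx x s δ (sig k J v).1.val (sig k J v).2.val) u

/-- its velocity -/
noncomputable def plgD (k J : ℕ) (x s : ℕ → ℝ) (δ : ℝ) (v : Bd k) (_u : ℝ) : P2 :=
  vtx x s δ (sig k J v).1.val (sig k J v).2.val - vtx x s δ v.1.val v.2.val

/-- column boundaries of the polygon -/
def plgX (x s : ℕ → ℝ) (δ : ℝ) (n : ℕ) : ℝ :=
  if n % 4 = 0 then s (n / 4) else if n % 4 = 1 then s (n / 4) + δ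
  else if n % 4 = 2 then x (n / 4) else s (n / 4 + 1) - δ

/-- the unit circle started near the left end -/
noncomputable def outC (k : ℕ) (t : ℝ) : P2 :=
  pol 1 (2 * Real.pi * t + (-Real.pi + Real.pi / (6 * k)))

/-- the small circle about `z` started near the left end -/
noncomputable def inC (z ρ t : ℝ) : P2 :=
  (z, 0) + pol ρ (2 * Real.pi * t + (-(5 * Real.pi / 6)))

end Pool.Agent.Lib.MP_4d7d0a_gt
end

-- part Pool.Agent.Lib.MP_4d7d0a_gt.TB1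
section

/-! Algebra of embedded families. -/

set_option autoImplicit false

open Set Filter Topology
open scoped ContDiff

namespace Pool.Agent.Lib.MP_4d7d0a_gt

theorem pol_sq (ρ a : ℝ) : (pol ρ a).1 ^ 2 + (pol ρ a).2 ^ 2 = ρ ^ 2 := by
  simp only [pol]
  linear_combination ρ ^ 2 * Real.cos_sq_add_sin_sq a

theorem pol_inj {ρ ρ' a a' : ℝ} (h : 0 < ρ) (h' : 0 < ρ') (e : pol ρ a = pol ρ' a') :
    ρ = ρ' ∧ ∃ k : ℤ, a = a' + 2 * Real.pi * k := by
  have h1 : ρ = ρ' := by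
    have a1 := pol_sq ρ a
    rw [e, pol_sq] at a1
    exact ((sq_eq_sq₀ h'.le h.le).1 a1).symm
  subst h1
  have h2 : Real.cos a = Real.cos a' := mul_left_cancel₀ h.ne' (Prod.ext_iff.1 e).1
  have h3 : Real.sin a = Real.sin a' := mul_left_cancel₀ h.ne' (Prod.ext_iff.1 e).2
  obtain ⟨k, hk⟩ := Real.Angle.angle_eq_iff_two_pi_dvd_sub.1 (Real.Angle.cos_sin_inj h2 h3)
  exact ⟨rfl, k, by linarith⟩

theorem pol_ne_zero {ρ : ℝ} (h : ρ ≠ 0) (a : ℝ) : pol ρ a ≠ 0 := by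
  intro e
  have a1 := pol_sq ρ a
  rw [e] at a1
  simp only [Prod.fst_zero, Prod.snd_zero] at a1
  exact h (pow_eq_zero_iff two_ne_zero |>.1 (by linarith))

theorem norm_pol_le (ρ a : ℝ) : ‖pol ρ a‖ ≤ |ρ| := by
  rw [Prod.norm_def]
  simp only [pol, Real.norm_eq_abs, abs_mul]
  exact max_le (mul_le_of_le_one_right (abs_nonneg _) (Real.abs_cos_le_one a))
    (mul_le_of_le_one_right (abs_nonneg _) (Real.abs_sin_le_one a))

theorem contDiff_pol : ContDiff ℝ ∞ fun a : ℝ × ℝ => pol a.1 a.2 := by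
  unfold pol
  fun_prop

theorem hasDerivAt_pol (ρ a : ℝ) :
    HasDerivAt (pol ρ) (-(ρ * Real.sin a), ρ * Real.cos a) a := by
  have h1 := (Real.hasDerivAt_cos a).const_mul ρ
  rw [mul_neg] at h1
  exact h1.prodMk ((Real.hasDerivAt_sin a).const_mul ρ)

theorem tb1_zero : (0 : ℝ) ∈ Icc (0 : ℝ) 1 := ⟨le_rfl, zero_le_one⟩

theorem tb1_one : (1 : ℝ) ∈ Icc (0 : ℝ) 1 := ⟨zero_le_one, le_rfl⟩

theorem tb1_icc {n : ℕ} (j : Fin (n + 1)) {u : ℝ} (hu : u ∈ Icc (0 : ℝ) 1) :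
    (((j : ℕ) : ℝ) + u) / (n + 1) ∈ Icc (0 : ℝ) 1 := by
  have h1 : ((j : ℕ) : ℝ) ≤ n := by exact_mod_cast Nat.lt_succ_iff.1 j.2
  have h2 : (0 : ℝ) ≤ (j : ℕ) := Nat.cast_nonneg _
  have h3 : (0 : ℝ) < n + 1 := by positivity
  exact ⟨div_nonneg (by linarith [hu.1]) h3.le, (div_le_one h3).2 (by linarith [hu.2])⟩

theorem tb1_ico {n : ℕ} (j : Fin (n + 1)) {u : ℝ} (hu : u ∈ Ico (0 : ℝ) 1) :
    (((j : ℕ) : ℝ) + u) / (n + 1) ∈ Ico (0 : ℝ) 1 := by
  have h1 : ((j : ℕ) : ℝ) ≤ n := by exact_mod_cast Nat.lt_succ_iff.1 j.2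
  have h3 : (0 : ℝ) < n + 1 := by positivity
  exact ⟨(tb1_icc j (Ico_subset_Icc_self hu)).1, (div_lt_one h3).2 (by linarith [hu.2])⟩

section Gen

variable {ι E : Type} [NormedAddCommGroup E] [NormedSpace ℝ E]

theorem tb1_cusp {x : E} (hx : x ≠ 0) {r : ℝ} (hr : 0 < r) : x ≠ -(r • x) := by
  intro e
  have h1 : (1 + r) • x = 0 := by
    rw [add_smul, one_smul]
    exact eq_neg_iff_add_eq_zero.1 e
  rcases smul_eq_zero.1 h1 with h | h
  · linarith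
  · exact hx h

theorem EmbE.congr {σ : Equiv.Perm ι} {c c' d : ι → ℝ → E} (h : EmbE σ c d)
    (e : ∀ v, ∀ u ∈ Icc (0 : ℝ) 1, c' v u = c v u) : EmbE σ c' d := by
  obtain ⟨h1, h2, h3, h4, h5⟩ := h
  refine ⟨fun v u hu => ⟨(h1 v u hu).1.congr_of_mem (e v) hu, (h1 v u hu).2⟩, h2, fun v => ?_, h4,
    fun v w u hu u' hu' hh => h5 v w u hu u' hu' ?_⟩
  · rw [e v 1 tb1_one, e _ 0 tb1_zero, h3]
  · rw [← e v u (Ico_subset_Icc_self hu), ← e w u' (Ico_subset_Icc_self hu'), hh]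

theorem EmbE.continuousOn {σ : Equiv.Perm ι} {c d : ι → ℝ → E} (h : EmbE σ c d) (v : ι) :
    ContinuousOn (c v) (Icc 0 1) := fun u hu => (h.1 v u hu).1.continuousWithinAt

/-- uniform subdivision of all arcs -/
theorem EmbE.split {σ : Equiv.Perm ι} {c d : ι → ℝ → E} (h : EmbE σ c d) (n : ℕ)
    (σ' : Equiv.Perm (ι × Fin (n + 1))) (h1 : ∀ v (j : Fin n), σ' (v, j.castSucc) = (v, j.succ))
    (h2 : ∀ v, σ' (v, Fin.last n) = (σ v, 0)) :
    EmbE σ' (fun v u => c v.1 (((v.2 : ℕ) + u) / (n + 1)))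
      (fun v u => (1 / (n + 1) : ℝ) • d v.1 (((v.2 : ℕ) + u) / (n + 1))) := by
  obtain ⟨g1, g2, g3, g4, g5⟩ := h
  have n0 : (0 : ℝ) < n + 1 := by positivity
  have a0 : (1 / (n + 1) : ℝ) ≠ 0 := by positivity
  refine ⟨fun v u hu => ⟨?_, smul_ne_zero a0 (g1 _ _ (tb1_icc v.2 hu)).2⟩, fun v => ?_, ?_, ?_, ?_⟩
  · have hφ : HasDerivWithinAt (fun u : ℝ => (((v.2 : ℕ) : ℝ) + u) / (n + 1)) (1 / (n + 1))
        (Icc 0 1) u := (((hasDerivAt_id u).const_add _).div_const _).hasDerivWithinAt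
    exact (g1 _ _ (tb1_icc v.2 hu)).1.scomp u hφ fun t ht => tb1_icc v.2 ht
  · refine ContinuousOn.const_smul ((g2 v.1).comp (by fun_prop) fun t ht => tb1_icc v.2 ht) _
  · rintro ⟨v, j⟩
    rcases Fin.eq_castSucc_or_eq_last j with ⟨j, rfl⟩ | rfl
    · rw [h1]
      simp
    · rw [h2]
      simp only [Fin.val_last, Fin.val_zero, div_self n0.ne', Nat.cast_zero, add_zero, zero_div]
      exact g3 v
  · rintro ⟨v, j⟩ r hr
    rcases Fin.eq_castSucc_or_eq_last j with ⟨j, rfl⟩ | rfl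
    · rw [h1]
      have := tb1_cusp (smul_ne_zero a0 (g1 v _ (tb1_icc j.castSucc tb1_one)).2) hr
      simpa only [Fin.val_castSucc, Fin.val_succ, Nat.cast_add, Nat.cast_one, add_zero] using this
    · rw [h2]
      simp only [Fin.val_last, Fin.val_zero, div_self n0.ne', Nat.cast_zero, add_zero, zero_div]
      intro e
      apply g4 v r hr
      rw [smul_comm, ← smul_neg] at e
      exact smul_right_injective E a0 e
  · rintro ⟨v, j⟩ ⟨w, j'⟩ u hu u' hu' e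
    obtain ⟨e1, e2⟩ := g5 v w _ (tb1_ico j hu) _ (tb1_ico j' hu') e
    have e3 : ((j : ℕ) : ℝ) + u = (j' : ℕ) + u' := (div_left_inj' n0.ne').1 e2
    have e4 : (j : ℕ) = j' := by
      have b1 : ((j : ℕ) : ℝ) < ((j' : ℕ) + 1 : ℕ) := by push_cast; linarith [hu.1, hu'.2]
      have b2 : ((j' : ℕ) : ℝ) < ((j : ℕ) + 1 : ℕ) := by push_cast; linarith [hu'.1, hu.2]
      have b3 := Nat.cast_lt.1 b1
      have b4 := Nat.cast_lt.1 b2
      omega
    refine ⟨Prod.ext e1 (Fin.ext e4), ?_⟩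
    rw [e4] at e3
    linarith

theorem FamE.refl {W : Set E} {σ : Equiv.Perm ι} {c d : ι → ℝ → E} (h : EmbE σ c d)
    (hW : InW W c) : FamE W σ c c :=
  ⟨fun _ => c, fun _ => d, fun _ _ => h,
    fun v => (h.continuousOn v).comp continuousOn_snd fun _ ha => ha.2,
    fun v => (h.2.1 v).comp continuousOn_snd fun _ ha => ha.2, fun _ _ => hW,
    fun _ _ _ => rfl, fun _ _ _ => rfl⟩

theorem FamE.mono {W W' : Set E} {σ : Equiv.Perm ι} {c₀ c₁ : ι → ℝ → E} (h : FamE W σ c₀ c₁)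
    (hW : W ⊆ W') : FamE W' σ c₀ c₁ := by
  obtain ⟨c, d, h1, h2, h3, h4, h5, h6⟩ := h
  exact ⟨c, d, h1, h2, h3, fun s hs v u hu => hW (h4 s hs v u hu), h5, h6⟩

theorem FamE.congr {W : Set E} {σ : Equiv.Perm ι} {c₀ c₁ c₀' c₁' : ι → ℝ → E}
    (h : FamE W σ c₀ c₁) (e₀ : ∀ v, ∀ u ∈ Icc (0 : ℝ) 1, c₀' v u = c₀ v u)
    (e₁ : ∀ v, ∀ u ∈ Icc (0 : ℝ) 1, c₁' v u = c₁ v u) : FamE W σ c₀' c₁' := by
  obtain ⟨c, d, h1, h2, h3, h4, h5, h6⟩ := h
  exact ⟨c, d, h1, h2, h3, h4, fun v u hu => (h5 v u hu).trans (e₀ v u hu).symm,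
    fun v u hu => (h6 v u hu).trans (e₁ v u hu).symm⟩

omit [NormedSpace ℝ E] in
theorem tb1_rep {c : ℝ → ℝ → E} {φ : ℝ → ℝ} {S : Set ℝ}
    (hc : ContinuousOn (fun a : ℝ × ℝ => c a.1 a.2) (Icc 0 1 ×ˢ Icc 0 1)) (hφ : Continuous φ)
    (hS : ∀ s ∈ S, φ s ∈ Icc (0 : ℝ) 1) :
    ContinuousOn (fun a : ℝ × ℝ => c (φ a.1) a.2) (S ×ˢ Icc 0 1) :=
  hc.comp (f := fun a : ℝ × ℝ => (φ a.1, a.2)) (by fun_prop) fun a ha => ⟨hS _ ha.1, ha.2⟩

theorem FamE.symm {W : Set E} {σ : Equiv.Perm ι} {c₀ c₁ : ι → ℝ → E} (h : FamE W σ c₀ c₁) :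
    FamE W σ c₁ c₀ := by
  obtain ⟨c, d, h1, h2, h3, h4, h5, h6⟩ := h
  have m : ∀ s ∈ Icc (0 : ℝ) 1, 1 - s ∈ Icc (0 : ℝ) 1 := fun s hs =>
    ⟨by linarith [hs.2], by linarith [hs.1]⟩
  refine ⟨fun s => c (1 - s), fun s => d (1 - s), fun s hs => h1 _ (m s hs),
    fun v => tb1_rep (c := fun s => c s v) (h2 v) (by fun_prop) m,
    fun v => tb1_rep (c := fun s => d s v) (h3 v) (by fun_prop) m, fun s hs => h4 _ (m s hs),
    fun v u hu => ?_, fun v u hu => ?_⟩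
  · simp only [sub_zero]; exact h6 v u hu
  · simp only [sub_self]; exact h5 v u hu

theorem tb1_m1 {s : ℝ} (hs : s ∈ Icc (0 : ℝ) (1 / 2)) : 2 * s ∈ Icc (0 : ℝ) 1 :=
  ⟨by linarith [hs.1], by linarith [hs.2]⟩

theorem tb1_m2 {s : ℝ} (hs : s ∈ Icc (1 / 2 : ℝ) 1) : 2 * s - 1 ∈ Icc (0 : ℝ) 1 :=
  ⟨by linarith [hs.1], by linarith [hs.2]⟩

omit [NormedSpace ℝ E] in
theorem tb1_glue {c c' : ℝ → ι → ℝ → E} {v : ι}
    (hc : ContinuousOn (fun a : ℝ × ℝ => c a.1 v a.2) (Icc 0 1 ×ˢ Icc 0 1))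
    (hc' : ContinuousOn (fun a : ℝ × ℝ => c' a.1 v a.2) (Icc 0 1 ×ˢ Icc 0 1))
    (e : ∀ u ∈ Icc (0 : ℝ) 1, c 1 v u = c' 0 v u) :
    ContinuousOn (fun a : ℝ × ℝ => (if a.1 ≤ 1 / 2 then c (2 * a.1) else c' (2 * a.1 - 1)) v a.2)
      (Icc 0 1 ×ˢ Icc 0 1) := by
  rw [← Icc_union_Icc_eq_Icc (show (0 : ℝ) ≤ 1 / 2 by norm_num) (show (1 / 2 : ℝ) ≤ 1 by norm_num),
    union_prod, Icc_union_Icc_eq_Icc (show (0 : ℝ) ≤ 1 / 2 by norm_num)
      (show (1 / 2 : ℝ) ≤ 1 by norm_num)]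
  refine ContinuousOn.union_of_isClosed ?_ ?_ (isClosed_Icc.prod isClosed_Icc)
    (isClosed_Icc.prod isClosed_Icc)
  · refine (tb1_rep (c := fun s => c s v) (φ := fun s => 2 * s) hc (by fun_prop)
      fun s hs => tb1_m1 hs).congr fun a ha => ?_
    simp only [if_pos ha.1.2]
  · refine (tb1_rep (c := fun s => c' s v) (φ := fun s => 2 * s - 1) hc' (by fun_prop)
      fun s hs => tb1_m2 hs).congr fun a ha => ?_
    by_cases h : a.1 ≤ 1 / 2
    · have h1 : a.1 = 1 / 2 := le_antisymm h ha.1.1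
      simp only [if_pos h]
      rw [h1]
      norm_num
      exact e _ ha.2
    · simp only [if_neg h]

theorem FamE.trans {W : Set E} {σ : Equiv.Perm ι} {c₀ c₁ c₂ : ι → ℝ → E} (h : FamE W σ c₀ c₁)
    (h' : FamE W σ c₁ c₂) : FamE W σ c₀ c₂ := by
  obtain ⟨c, d, h1, h2, h3, h4, h5, h6⟩ := h
  obtain ⟨c', d', g1, g2, g3, g4, g5, g6⟩ := h'
  have e1 : ∀ v, ∀ u ∈ Icc (0 : ℝ) 1, c 1 v u = c' 0 v u := fun v u hu =>
    (h6 v u hu).trans (g5 v u hu).symm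
  have e2 : ∀ v, ∀ u ∈ Icc (0 : ℝ) 1, d 1 v u = d' 0 v u := fun v u hu =>
    (uniqueDiffOn_Icc zero_lt_one u hu).eq_deriv _ ((h1 1 tb1_one).1 v u hu).1
      (((g1 0 tb1_zero).1 v u hu).1.congr_of_mem (e1 v) hu)
  refine ⟨fun s => if s ≤ 1 / 2 then c (2 * s) else c' (2 * s - 1),
    fun s => if s ≤ 1 / 2 then d (2 * s) else d' (2 * s - 1), fun s hs => ?_,
    fun v => tb1_glue (h2 v) (g2 v) (e1 v), fun v => tb1_glue (h3 v) (g3 v) (e2 v),
    fun s hs => ?_, fun v u hu => ?_, fun v u hu => ?_⟩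
  · by_cases hh : s ≤ 1 / 2
    · simp only [if_pos hh]; exact h1 _ (tb1_m1 ⟨hs.1, hh⟩)
    · simp only [if_neg hh]; exact g1 _ (tb1_m2 ⟨(not_le.1 hh).le, hs.2⟩)
  · by_cases hh : s ≤ 1 / 2
    · simp only [if_pos hh]; exact h4 _ (tb1_m1 ⟨hs.1, hh⟩)
    · simp only [if_neg hh]; exact g4 _ (tb1_m2 ⟨(not_le.1 hh).le, hs.2⟩)
  · simp only [if_pos (show (0 : ℝ) ≤ 1 / 2 by norm_num), mul_zero]
    exact h5 v u hu
  · simp only [if_neg (show ¬ (1 : ℝ) ≤ 1 / 2 by norm_num)]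
    rw [show (2 * 1 - 1 : ℝ) = 1 by norm_num]
    exact g6 v u hu

theorem FamE.left {W : Set E} {σ : Equiv.Perm ι} {c₀ c₁ : ι → ℝ → E} (h : FamE W σ c₀ c₁) :
    InW W c₀ ∧ ∃ d, EmbE σ c₀ d := by
  obtain ⟨c, d, h1, -, -, h4, h5, -⟩ := h
  exact ⟨fun v u hu => h5 v u hu ▸ h4 0 tb1_zero v u hu, d 0,
    (h1 0 tb1_zero).congr fun v u hu => (h5 v u hu).symm⟩

theorem FamE.right {W : Set E} {σ : Equiv.Perm ι} {c₀ c₁ : ι → ℝ → E} (h : FamE W σ c₀ c₁) :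
    InW W c₁ ∧ ∃ d, EmbE σ c₁ d := h.symm.left

/-- simultaneous isotopies of closed curves in disjoint regions -/
theorem FamE.prod {W : ι → Set E} (hW : ∀ i j, i ≠ j → Disjoint (W i) (W j)) {c₀ c₁ : ι → ℝ → E}
    (h : ∀ i, FamE (W i) (1 : Equiv.Perm Unit) (fun _ => c₀ i) (fun _ => c₁ i)) :
    FamE (⋃ i, W i) (1 : Equiv.Perm ι) c₀ c₁ := by
  choose c d h1 h2 h3 h4 h5 h6 using h
  refine ⟨fun s i => c i s (), fun s i => d i s (), fun s hs => ⟨fun i => (h1 i s hs).1 (),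
    fun i => (h1 i s hs).2.1 (), fun i => (h1 i s hs).2.2.1 (), fun i => (h1 i s hs).2.2.2.1 (),
    fun i j u hu u' hu' e => ?_⟩, fun i => h2 i (), fun i => h3 i (),
    fun s hs i u hu => mem_iUnion.2 ⟨i, h4 i s hs () u hu⟩, fun i => h5 i (), fun i => h6 i ()⟩
  by_cases hij : i = j
  · subst hij
    exact ⟨rfl, ((h1 i s hs).2.2.2.2 () () u hu u' hu' e).2⟩
  · have a1 := h4 i s hs () u (Ico_subset_Icc_self hu)
    have a2 := h4 j s hs () u' (Ico_subset_Icc_self hu')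
    have e' : c i s () u = c j s () u' := e
    rw [← e'] at a2
    exact absurd a2 (disjoint_left.1 (hW i j hij) a1)

/-- a family of embedded regular closed curves -/
theorem fam_of_loops {W : Set E} (c d : ℝ → ℝ → E)
    (hc : ContinuousOn (fun a : ℝ × ℝ => c a.1 a.2) (Icc 0 1 ×ˢ Icc 0 1))
    (hd : ContinuousOn (fun a : ℝ × ℝ => d a.1 a.2) (Icc 0 1 ×ˢ Icc 0 1))
    (h : ∀ s ∈ Icc (0 : ℝ) 1, (∀ t ∈ Icc (0 : ℝ) 1,
      HasDerivWithinAt (c s) (d s t) (Icc 0 1) t ∧ d s t ≠ 0 ∧ c s t ∈ W) ∧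
      c s 1 = c s 0 ∧ d s 1 = d s 0 ∧ InjOn (c s) (Ico 0 1)) :
    FamE W (1 : Equiv.Perm Unit) (fun _ => c 0) (fun _ => c 1) := by
  refine ⟨fun s _ => c s, fun s _ => d s, fun s hs => ?_, fun _ => hc, fun _ => hd,
    fun s hs _ u hu => ((h s hs).1 u hu).2.2, fun _ _ _ => rfl, fun _ _ _ => rfl⟩
  obtain ⟨h1, h2, h3, h4⟩ := h s hs
  refine ⟨fun _ u hu => ⟨(h1 u hu).1, (h1 u hu).2.1⟩, fun _ => ?_, fun _ => h2, fun _ r hr => ?_,
    fun _ _ u hu u' hu' e => ⟨rfl, h4 hu hu' e⟩⟩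
  · exact hd.comp (f := fun t : ℝ => (s, t)) (by fun_prop) fun t ht => ⟨hs, ht⟩
  · show d s 1 ≠ -(r • d s 0)
    rw [h3]
    exact tb1_cusp (h1 0 tb1_zero).2.1 hr

end Gen

/-- round circles about one centre -/
theorem fam_circle {W : Set P2} (z : P2) {r₀ r₁ : ℝ} (h₀ : 0 < r₀) (h₁ : 0 < r₁) (θ₀ θ₁ : ℝ)
    (hW : ∀ r ∈ uIcc r₀ r₁, ∀ a : ℝ, z + pol r a ∈ W) :
    FamE W (1 : Equiv.Perm Unit) (fun _ t => z + pol r₀ (2 * Real.pi * t + θ₀))
      (fun _ t => z + pol r₁ (2 * Real.pi * t + θ₁)) := by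
  have pi0 : 0 < 2 * Real.pi := Real.two_pi_pos
  have key := fam_of_loops (W := W)
    (fun s t => z + pol (r₀ + s * (r₁ - r₀)) (2 * Real.pi * t + (θ₀ + s * (θ₁ - θ₀))))
    (fun s t => (2 * Real.pi) •
      ((-((r₀ + s * (r₁ - r₀)) * Real.sin (2 * Real.pi * t + (θ₀ + s * (θ₁ - θ₀)))),
        (r₀ + s * (r₁ - r₀)) * Real.cos (2 * Real.pi * t + (θ₀ + s * (θ₁ - θ₀)))) : P2))
    (by unfold pol; fun_prop) (by fun_prop) ?_
  · refine key.congr (fun _ u _ => ?_) fun _ u _ => ?_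
    · simp only [zero_mul, add_zero]
    · simp only [one_mul, add_sub_cancel]
  intro s hs
  have m : r₀ + s * (r₁ - r₀) ∈ uIcc r₀ r₁ := by
    rcases le_total r₀ r₁ with h | h
    · rw [uIcc_of_le h]
      constructor <;> nlinarith [hs.1, hs.2]
    · rw [uIcc_of_ge h]
      constructor <;> nlinarith [hs.1, hs.2]
  have r0 : 0 < r₀ + s * (r₁ - r₀) := (lt_min h₀ h₁).trans_le m.1
  generalize r₀ + s * (r₁ - r₀) = r at m r0
  generalize θ₀ + s * (θ₁ - θ₀) = θ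
  have c1 : Real.cos (2 * Real.pi * 1 + θ) = Real.cos (2 * Real.pi * 0 + θ) := by
    rw [mul_one, mul_zero, zero_add, add_comm, Real.cos_add_two_pi]
  have s1 : Real.sin (2 * Real.pi * 1 + θ) = Real.sin (2 * Real.pi * 0 + θ) := by
    rw [mul_one, mul_zero, zero_add, add_comm, Real.sin_add_two_pi]
  refine ⟨fun t _ => ⟨?_, ?_, hW r m _⟩, ?_, ?_, fun t ht t' ht' e => ?_⟩
  · have a1 : HasDerivAt (fun t : ℝ => 2 * Real.pi * t + θ) (2 * Real.pi) t := by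
      simpa using ((hasDerivAt_id t).const_mul (2 * Real.pi)).add_const θ
    exact (((hasDerivAt_pol r _).scomp t a1).const_add z).hasDerivWithinAt
  · refine smul_ne_zero pi0.ne' fun e => ?_
    apply pol_ne_zero r0.ne' (2 * Real.pi * t + θ)
    exact Prod.ext (Prod.ext_iff.1 e).2 (neg_eq_zero.1 (Prod.ext_iff.1 e).1)
  · simp only [pol, c1, s1]
  · simp only [c1, s1]
  · obtain ⟨-, k, hk⟩ := pol_inj r0 r0 (add_left_cancel e)
    have a1 : t = t' + k := mul_left_cancel₀ pi0.ne' (by linarith)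
    have a2 : (k : ℝ) < (1 : ℤ) := by push_cast; linarith [ht.2, ht'.1]
    have a3 : ((-1 : ℤ) : ℝ) < k := by push_cast; linarith [ht.1, ht'.2]
    have a4 := Int.cast_lt.1 a2
    have a5 := Int.cast_lt.1 a3
    have a6 : k = 0 := by omega
    rw [a1, a6]; simp

end Pool.Agent.Lib.MP_4d7d0a_gt
end
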