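import Pool.Agent.Lib.MP_4d7d0a_gt.TBCab
import Pool.Agent.Lib.MP_4d7d0a_gt.TB1
import Pool.Agent.Lib.MP_4d7d0a_gt.TFP

-- part Pool.Agent.Lib.MP_4d7d0a_gt.TAL
section

/-! Local lifts of a disc through a contact parametrisation; modification of a disc. -/

set_option autoImplicit false

open Set Filter Topology
open scoped ContDiff

namespace Pool.Agent.Lib.MP_4d7d0a_gt

variable {M : Type} [TopologicalSpace M] [ChartedSpace P3 M]

/-- `f` is smooth at `u` -/
def SmAt (f : P2 → M) (u : P2) : Prop := ContinuousAt f u ∧ ContDiffAt ℝ ∞ (inChart f u) u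

omit [TopologicalSpace M] [ChartedSpace P3 M] in
/-- `q` is a smooth local lift of `f` through `F` at `u` -/
def Lift (F : P3 → M) (f : P2 → M) (q : P2 → P3) (u : P2) : Prop :=
  ContDiffAt ℝ ∞ q u ∧ ∀ᶠ w in 𝓝 u, f w = F (q w)

omit [TopologicalSpace M] [ChartedSpace P3 M] in
/-- `f` crosses the core of the tube `F` transversally at `u` -/
def Tr (F : P3 → M) (f : P2 → M) (u : P2) : Prop :=
  ∃ q, Lift F f q u ∧ (q u).2 = 0 ∧ Function.Injective fun v => (fderiv ℝ q u v).2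

theorem isCompact_disc : IsCompact disc := by
  have h1 : IsClosed disc := isClosed_le (by fun_prop) continuous_const
  refine (isCompact_closedBall (0 : P2) 1).of_isClosed_subset h1 fun u hu => ?_
  have hu' : u.1 ^ 2 + u.2 ^ 2 ≤ 1 := hu
  rw [mem_closedBall_zero_iff, Prod.norm_def, max_le_iff, Real.norm_eq_abs, Real.norm_eq_abs]
  constructor
  · exact abs_le.2 ⟨by nlinarith [sq_nonneg u.2, sq_nonneg (u.1 + 1)],
      by nlinarith [sq_nonneg u.2, sq_nonneg (u.1 - 1)]⟩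
  · exact abs_le.2 ⟨by nlinarith [sq_nonneg u.1, sq_nonneg (u.2 + 1)],
      by nlinarith [sq_nonneg u.1, sq_nonneg (u.2 - 1)]⟩

theorem circ_subset : circ ⊆ disc := fun _ hu => le_of_eq hu

theorem isCompact_circ : IsCompact circ :=
  isCompact_disc.of_isClosed_subset (isClosed_eq (by fun_prop) continuous_const) circ_subset

theorem IsOTDisc.smAt {f : P2 → M} (hf : IsOTDisc f) {u : P2} (hu : u ∈ disc) : SmAt f u := by
  obtain ⟨⟨O, -, hO, h⟩, -⟩ := hf
  exact h u (hO hu)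

theorem exists_lift (hA : IsContactAtlas M) {F : P3 → M} {f : P2 → M} {p : P3} {u : P2}
    (hF : ∀ᶠ x in 𝓝 p, CtInto F x) (hf : SmAt f u) (h : f u = F p) :
    ∃ q, q u = p ∧ Lift F f q u := by
  obtain ⟨G, h1, h2⟩ := exists_ctInto_inv hA hF
  rw [← h] at h1
  refine ⟨fun w => G (f w), by simp only [h, h2.self_of_nhds], ?_, ?_⟩
  · have h3 : ContDiffAt ℝ ∞ (fun x => G ((chartAt P3 (f u)).symm x)) (inChart f u u) :=
      h1.self_of_nhds.2.1.1
    refine (h3.comp u hf.2).congr_of_eventuallyEq ?_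
    filter_upwards [hf.1.preimage_mem_nhds (chart_source_mem_nhds P3 (f u))] with w hw
    simp only [Function.comp, inChart]
    rw [(chartAt P3 (f u)).left_inv hw]
  · filter_upwards [hf.1.eventually h1] with w hw
    exact hw.2.2.symm

theorem tal_chart {F : P3 → M} {f : P2 → M} {q : P2 → P3} {u : P2} (h : Lift F f q u) :
    inChart f u =ᶠ[𝓝 u] fun w => inChart F (q u) (q w) := by
  filter_upwards [h.2] with w hw
  simp only [inChart, hw, h.2.self_of_nhds]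

theorem tal_fderiv {F : P3 → M} {f : P2 → M} {q : P2 → P3} {u : P2} (h : Lift F f q u)
    (hF : CtInto F (q u)) (v : P2) : fderiv ℝ (inChart f u) u v =
      fderiv ℝ (inChart F (q u)) (q u) (fderiv ℝ q u v) := by
  rw [(tal_chart h).fderiv_eq]
  have h1 : HasFDerivAt (fun w => inChart F (q u) (q w))
      ((fderiv ℝ (inChart F (q u)) (q u)).comp (fderiv ℝ q u)) u :=
    (locA_hasFDerivAt hF.2.1).comp u (locA_hasFDerivAt h.1)
  rw [h1.fderiv]
  rfl

theorem Lift.smAt {F : P3 → M} {f : P2 → M} {q : P2 → P3} {u : P2} (h : Lift F f q u)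
    (hF : CtInto F (q u)) : SmAt f u := by
  refine ⟨(ContinuousAt.comp (g := F) hF.1 h.1.continuousAt).congr (EventuallyEq.symm h.2), ?_⟩
  exact (hF.2.1.comp u h.1).congr_of_eventuallyEq (tal_chart h)

theorem Lift.inj_iff (hA : IsContactAtlas M) {F : P3 → M} {f : P2 → M} {q : P2 → P3} {u : P2}
    (h : Lift F f q u) (hF : ∀ᶠ x in 𝓝 (q u), CtInto F x) :
    Function.Injective (fderiv ℝ (inChart f u) u) ↔ Function.Injective (fderiv ℝ q u) := by
  have h1 := fderiv_inj_of_contact (loc_aux_near hA hF)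
  have h2 : (fderiv ℝ (inChart f u) u : P2 → P3) =
      fderiv ℝ (inChart F (q u)) (q u) ∘ fderiv ℝ q u :=
    funext fun v => tal_fderiv h hF.self_of_nhds v
  rw [h2]
  exact Function.Injective.of_comp_iff h1 _

theorem Lift.al_eq {F : P3 → M} {f : P2 → M} {q : P2 → P3} {u : P2} (h : Lift F f q u)
    (hF : CtInto F (q u)) :
    ∃ c : ℝ, 0 < c ∧ ∀ v, alDisc f u v = c * al (q u) (fderiv ℝ q u v) := by
  obtain ⟨c, hc, h1⟩ := hF.2.2
  refine ⟨c, hc, fun v => ?_⟩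
  rw [← h1, alDisc, tal_fderiv h hF, (tal_chart h).eq_of_nhds]

theorem tal_congr {f g : P2 → M} {u : P2} (h : g =ᶠ[𝓝 u] f) : inChart g u =ᶠ[𝓝 u] inChart f u := by
  filter_upwards [h] with w hw
  simp only [inChart, hw, h.eq_of_nhds]

/-- transport of an overtwisted disc by a map given in a contact parametrisation -/
theorem ot_mod (hA : IsContactAtlas M) {F : P3 → M} {U : Set P3} (hU : IsOpen U)
    (hF : ∀ p ∈ U, CtInto F p) {h : P3 → P3} (hm : MapsTo h U U)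
    (hs : ∀ p ∈ U, ContDiffAt ℝ ∞ h p ∧ Function.Injective (fderiv ℝ h p))
    (he : ∀ p ∈ U, ∀ q ∈ U, F p = F q ↔ F (h p) = F (h q))
    {Z : Set M} (hZ : IsClosed Z) (hZU : Z ⊆ F '' U) (hid : ∀ p ∈ U, F p ∉ Z → h p = p)
    {f : P2 → M} (hf : IsOTDisc f) (hc : (∀ p ∈ U, ContactAt h p) ∨ ∀ u ∈ circ, f u ∉ Z) :
    ∃ Φ : M → M, IsOTDisc (fun u => Φ (f u)) ∧ Function.Injective Φ ∧
      (∀ p ∈ U, Φ (F p) = F (h p)) ∧ ∀ m, m ∉ Z → Φ m = m := by
  classical
  set Φ : M → M := fun m => if hm : m ∈ F '' U then F (h hm.choose) else m with hΦ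
  have e1 : ∀ p ∈ U, Φ (F p) = F (h p) := fun p hp => by
    have h1 : F p ∈ F '' U := ⟨p, hp, rfl⟩
    simp only [hΦ, dif_pos h1]
    exact (he _ h1.choose_spec.1 p hp).1 h1.choose_spec.2
  have e0 : ∀ m, m ∉ F '' U → Φ m = m := fun m hm => by simp only [hΦ, dif_neg hm]
  have e2 : ∀ m, m ∉ Z → Φ m = m := fun m hm => by
    by_cases h1 : m ∈ F '' U
    · obtain ⟨p, hp, rfl⟩ := h1
      rw [e1 p hp, hid p hp hm]
    · exact e0 m h1
  have e3 : Function.Injective Φ := by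
    intro m m' hh
    by_cases h1 : m ∈ F '' U <;> by_cases h2 : m' ∈ F '' U
    · obtain ⟨p, hp, rfl⟩ := h1
      obtain ⟨p', hp', rfl⟩ := h2
      rw [e1 p hp, e1 p' hp'] at hh
      exact (he p hp p' hp').2 hh
    · obtain ⟨p, hp, rfl⟩ := h1
      rw [e1 p hp, e0 m' h2] at hh
      exact absurd ⟨h p, hm hp, hh⟩ h2
    · obtain ⟨p, hp, rfl⟩ := h2
      rw [e1 p hp, e0 m h1] at hh
      exact absurd ⟨h p, hm hp, hh.symm⟩ h1
    · rwa [e0 m h1, e0 m' h2] at hh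
  have ev : ∀ p ∈ U, ∀ᶠ x in 𝓝 p, CtInto F x := fun p hp =>
    (hU.eventually_mem hp).mono fun x hx => hF x hx
  have out : ∀ u, ContinuousAt f u → f u ∉ Z → (fun w => Φ (f w)) =ᶠ[𝓝 u] f := fun u hu hz => by
    filter_upwards [hu.preimage_mem_nhds (hZ.isOpen_compl.mem_nhds hz)] with w hw
    exact e2 _ hw
  have ins : ∀ u, SmAt f u → f u ∈ Z → ∃ q, q u ∈ U ∧ Lift F f q u ∧
      Lift F (fun w => Φ (f w)) (fun w => h (q w)) u := fun u hu hz => by
    obtain ⟨p, hp, hpu⟩ := hZU hz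
    obtain ⟨q, rfl, hq⟩ := exists_lift hA (ev p hp) hu hpu.symm
    refine ⟨q, hp, hq, (hs _ hp).1.comp u hq.1, ?_⟩
    filter_upwards [hq.2, hq.1.continuousAt.preimage_mem_nhds (hU.mem_nhds hp)] with w hw hw'
    rw [hw, e1 _ hw']
  have der : ∀ (q : P2 → P3) (u : P2), q u ∈ U → ContDiffAt ℝ ∞ q u → ∀ v,
      fderiv ℝ (fun w => h (q w)) u v = fderiv ℝ h (q u) (fderiv ℝ q u v) := fun q u hp hq v => by
    have h1 : HasFDerivAt (fun w => h (q w)) ((fderiv ℝ h (q u)).comp (fderiv ℝ q u)) u :=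
      (locA_hasFDerivAt (hs _ hp).1).comp u (locA_hasFDerivAt hq)
    rw [h1.fderiv]
    rfl
  have alc : ∀ u ∈ circ, ∃ c : ℝ, 0 < c ∧
      ∀ v, alDisc (fun w => Φ (f w)) u v = c * alDisc f u v := fun u hu => by
    have hsm := hf.smAt (circ_subset hu)
    by_cases hz : f u ∈ Z
    · obtain ⟨q, hp, l1, l2⟩ := ins u hsm hz
      obtain ⟨c1, p1, a1⟩ := l1.al_eq (hF _ hp)
      obtain ⟨c2, p2, a2⟩ := l2.al_eq (hF _ (hm hp))
      obtain ⟨-, c3, p3, a3⟩ := (hc.resolve_right fun h' => h' u hu hz) _ hp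
      refine ⟨c2 * c3 / c1, by positivity, fun v => ?_⟩
      rw [a2, a1, der q u hp l1.1, a3]
      field_simp
    · refine ⟨1, one_pos, fun v => ?_⟩
      have h1 := tal_congr (out u hsm.1 hz)
      rw [one_mul, alDisc, alDisc, h1.fderiv_eq, h1.eq_of_nhds]
  refine ⟨Φ, ?_, e3, e1, e2⟩
  obtain ⟨⟨O, hO, hdO, hsm⟩, hinj, himm, hleg, hbd⟩ := id hf
  refine ⟨⟨O, hO, hdO, fun u hu => ?_⟩, fun u hu w hw hh => hinj hu hw (e3 hh), fun u hu => ?_,
    fun u hu => ?_, ?_⟩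
  · by_cases hz : f u ∈ Z
    · obtain ⟨q, hp, -, l2⟩ := ins u (hsm u hu) hz
      exact l2.smAt (hF _ (hm hp))
    · have h1 := out u (hsm u hu).1 hz
      exact ⟨(hsm u hu).1.congr h1.symm, (hsm u hu).2.congr_of_eventuallyEq (tal_congr h1)⟩
  · have hsu := hf.smAt hu
    by_cases hz : f u ∈ Z
    · obtain ⟨q, hp, l1, l2⟩ := ins u hsu hz
      rw [l2.inj_iff hA (ev _ (hm hp))]
      have h1 := (l1.inj_iff hA (ev _ hp)).1 (himm u hu)
      intro v v' hv
      rw [der q u hp l1.1, der q u hp l1.1] at hv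
      exact h1 ((hs _ hp).2 hv)
    · rw [(tal_congr (out u hsu.1 hz)).fderiv_eq]
      exact himm u hu
  · obtain ⟨c, -, h1⟩ := alc u hu
    rw [h1, hleg u hu, mul_zero]
  · rcases hbd with hb | hb
    · refine Or.inl fun u hu => ?_
      obtain ⟨c, -, h1⟩ := alc u hu
      rw [h1, hb u hu, mul_zero]
    · refine Or.inr fun u hu => ?_
      obtain ⟨c, hc0, h1⟩ := alc u hu
      rw [h1]
      exact mul_ne_zero hc0.ne' (hb u hu)

omit [TopologicalSpace M] [ChartedSpace P3 M] in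
theorem TubeMap.int {F : P3 → M} {r : ℝ} (hT : TubeMap F r) (p : P3) (k : ℤ) :
    F (p.1 + k, p.2) = F p := by
  have hp : Function.Periodic (fun x : ℝ => F (x, p.2)) 1 := fun x => hT.1 (x, p.2)
  simpa using hp.int_mul k p.1

/-- transport by an equivariant map supported in a thin tube that avoids the closed set `C` -/
theorem ot_tube [T2Space M] (hA : IsContactAtlas M) {F : P3 → M} {r : ℝ} (hr : 0 < r)
    (hT : TubeMap F r) (hF : ∀ p ∈ tube r, CtInto F p) {C : Set M} (hC : IsClosed C)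
    (hCF : ∀ x : ℝ, F (x, 0, 0) ∉ C) : ∃ ρ : ℝ, 0 < ρ ∧ ρ < r ∧ ∀ h : P3 → P3,
      Function.Injective h → (∀ p, ContDiffAt ℝ ∞ h p ∧ Function.Injective (fderiv ℝ h p)) →
      (∀ p, p ∉ tube ρ → h p = p) →
      (∀ (p : P3) (a : ℝ), h (p.1 + a, p.2) = ((h p).1 + a, (h p).2)) →
      ∀ f : P2 → M, IsOTDisc f → ((∀ p, ContactAt h p) ∨ ∀ u ∈ circ, f u ∈ C) →
        ∃ Φ : M → M, IsOTDisc (fun u => Φ (f u)) ∧ Function.Injective Φ ∧
          (∀ p ∈ tube r, Φ (F p) = F (h p)) ∧ ∀ m ∈ C, Φ m = m := by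
  have h1 : ∀ᶠ w : P2 in 𝓝 0, ∀ x ∈ Icc (0 : ℝ) 1, F (x, w) ∉ C := by
    refine isCompact_Icc.eventually_forall_of_forall_eventually fun x _ => ?_
    have h2 : ContinuousAt (fun z : P2 × ℝ => F (z.2, z.1)) ((0 : P2), x) :=
      ContinuousAt.comp (g := F) (f := fun z : P2 × ℝ => ((z.2, z.1) : P3))
        (hF _ (loc_aux_core hr x)).1 (by fun_prop)
    exact h2.preimage_mem_nhds (hC.isOpen_compl.mem_nhds (hCF x))
  obtain ⟨ε, hε, h2⟩ := Metric.eventually_nhds_iff.1 h1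
  set ρ : ℝ := min (r / 2) (ε / 2) with hρ
  have ρ0 : 0 < ρ := by positivity
  have ρr : ρ < r := lt_of_le_of_lt (min_le_left _ _) (by linarith)
  have ρε : ρ < ε := lt_of_le_of_lt (min_le_right _ _) (by linarith)
  refine ⟨ρ, ρ0, ρr, fun h hi hs hid hx f hf hc => ?_⟩
  set W : Set P3 := Icc (0 : ℝ) 1 ×ˢ {w : P2 | w.1 ^ 2 + w.2 ^ 2 ≤ ρ ^ 2} with hW
  have wn : ∀ w : P2, w.1 ^ 2 + w.2 ^ 2 ≤ ρ ^ 2 → ‖w‖ ≤ ρ := fun w hw => by
    rw [Prod.norm_def, max_le_iff, Real.norm_eq_abs, Real.norm_eq_abs]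
    exact ⟨abs_le_of_sq_le_sq' (by nlinarith [sq_nonneg w.2]) ρ0.le |> abs_le.2,
      abs_le_of_sq_le_sq' (by nlinarith [sq_nonneg w.1]) ρ0.le |> abs_le.2⟩
  have Wc : IsCompact W := by
    refine isCompact_Icc.prod ((isCompact_closedBall (0 : P2) ρ).of_isClosed_subset
      (isClosed_le (by fun_prop) continuous_const) fun w hw => ?_)
    exact mem_closedBall_zero_iff.2 (wn w hw)
  have Wt : W ⊆ tube r := fun p hp =>
    lt_of_le_of_lt (show p.2.1 ^ 2 + p.2.2 ^ 2 ≤ ρ ^ 2 from hp.2)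
      (pow_lt_pow_left₀ ρr ρ0.le two_ne_zero)
  have Zc : IsClosed (F '' W) :=
    (Wc.image_of_continuousOn fun p hp => (hF p (Wt hp)).1.continuousWithinAt).isClosed
  have ZC : ∀ m ∈ C, m ∉ F '' W := by
    rintro _ hm ⟨p, hp, rfl⟩
    refine h2 (y := p.2) ?_ p.1 hp.1 hm
    rw [dist_zero_right]
    exact lt_of_le_of_lt (wn _ hp.2) ρε
  have hm : MapsTo h (tube r) (tube r) := fun p hp => by
    by_contra h3
    have h4 : h (h p) = h p := hid _ fun h5 => h3 (tube_mono ρ0.le ρr.le h5)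
    exact h3 (by rwa [hi h4])
  have he : ∀ p ∈ tube r, ∀ q ∈ tube r, F p = F q ↔ F (h p) = F (h q) := fun p hp q hq => by
    constructor
    · intro h3
      obtain ⟨h4, k, h5⟩ := hT.2 p hp q hq h3
      have h6 : p = (q.1 + k, q.2) := Prod.ext h5 h4
      rw [h6, hx, hT.int]
    · intro h3
      obtain ⟨h4, k, h5⟩ := hT.2 _ (hm hp) _ (hm hq) h3
      have h6 : h p = h (q.1 + k, q.2) := by
        rw [hx]
        exact Prod.ext h5 h4
      rw [hi h6, hT.int]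
  have hid' : ∀ p ∈ tube r, F p ∉ F '' W → h p = p := fun p _ h3 => by
    refine hid p fun h4 => h3 ⟨(p.1 + ((-⌊p.1⌋ : ℤ) : ℝ), p.2), ⟨⟨?_, ?_⟩,
      le_of_lt (show p.2.1 ^ 2 + p.2.2 ^ 2 < ρ ^ 2 from h4)⟩, hT.int p _⟩
    · have := Int.floor_le p.1
      push_cast
      linarith
    · have := Int.lt_floor_add_one p.1
      push_cast
      linarith
  obtain ⟨Φ, a1, a2, a3, a4⟩ := ot_mod hA (isOpen_tube r) hF hm (fun p _ => hs p) he Zc
    (image_mono Wt) hid' hf (hc.imp (fun h3 p _ => h3 p) fun h3 u hu => ZC _ (h3 u hu))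
  exact ⟨Φ, a1, a2, a3, fun m hm => a4 m (ZC m hm)⟩

omit [TopologicalSpace M] [ChartedSpace P3 M] in
/-- the normal coordinate of a tube -/
theorem exists_nc {F : P3 → M} {r : ℝ} (hT : TubeMap F r) :
    ∃ nc : M → P2, ∀ p ∈ tube r, nc (F p) = p.2 := by
  classical
  refine ⟨fun m => if hm : m ∈ F '' tube r then hm.choose.2 else 0, fun p hp => ?_⟩
  have h1 : F p ∈ F '' tube r := ⟨p, hp, rfl⟩
  simp only [dif_pos h1]
  exact (hT.2 _ h1.choose_spec.1 p hp h1.choose_spec.2).1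

end Pool.Agent.Lib.MP_4d7d0a_gt
end

-- part Pool.Agent.Lib.MP_4d7d0a_gt.TAF
section

/-! A normalised overtwisted disc read in `ℝ³`. -/

set_option autoImplicit false

open Set Filter Topology
open scoped ContDiff

namespace Pool.Agent.Lib.MP_4d7d0a_gt

variable {M : Type} [TopologicalSpace M] [ChartedSpace P3 M] [T2Space M]

/-- smooth local inverse in the plane -/
theorem taf_inv {N : P2 → P2} {u : P2} (hN : ContDiffAt ℝ ∞ N u)
    (hi : Function.Injective (fderiv ℝ N u)) :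
    ∃ β : P2 → P2, ContDiffAt ℝ ∞ β (N u) ∧ Function.Injective (fderiv ℝ β (N u)) ∧
      (∀ᶠ w in 𝓝 u, β (N w) = w) ∧ ∀ᶠ y in 𝓝 (N u), N (β y) = y := by
  let A : P2 ≃L[ℝ] P2 :=
    (LinearEquiv.ofInjectiveEndo (fderiv ℝ N u : P2 →ₗ[ℝ] P2) hi).toContinuousLinearEquiv
  have hA : HasFDerivAt N (A : P2 →L[ℝ] P2) u := locA_hasFDerivAt hN
  have hn : (∞ : WithTop ℕ∞) ≠ 0 := by simp
  set e := hN.toOpenPartialHomeomorph N hA hn with he
  have hs : u ∈ e.source := hN.mem_toOpenPartialHomeomorph_source hA hn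
  have ht : N u ∈ e.target := hN.image_mem_toOpenPartialHomeomorph_target hA hn
  have h2 : ∀ᶠ w in 𝓝 u, e.symm (N w) = w := e.eventually_left_inverse hs
  have h3 : ∀ᶠ y in 𝓝 (N u), N (e.symm y) = y := e.eventually_right_inverse ht
  have h4 : e.symm (N u) = u := h2.self_of_nhds
  have h5 : HasFDerivAt e (A : P2 →L[ℝ] P2) (e.symm (N u)) := by
    rw [h4]
    exact hA
  refine ⟨e.symm, e.contDiffAt_symm ht h5 (by rw [h4]; exact hN), ?_, h2, h3⟩
  rw [(e.hasFDerivAt_symm ht h5).fderiv]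
  exact A.symm.injective

omit [TopologicalSpace M] [ChartedSpace P3 M] [T2Space M] in
/-- the chart at a transverse crossing of the core -/
theorem taf_chart {F : P3 → M} {r : ℝ} (hr : 0 < r) (hT : TubeMap F r) {f : P2 → M} {u : P2}
    (h : Tr F f u) : ∃ (β : P2 → P2) (g : P2 → ℝ), ContDiffAt ℝ ∞ β 0 ∧ β 0 = u ∧
      Function.Injective (fderiv ℝ β 0) ∧ ContDiffAt ℝ ∞ g 0 ∧ g 0 ∈ Ico (0 : ℝ) 1 ∧
      (∀ᶠ y in 𝓝 0, f (β y) = F (g y, y)) ∧
      ∀ᶠ w in 𝓝[≠] u, f w ∉ range fun x : ℝ => F (x, 0, 0) := by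
  obtain ⟨q, ⟨hq, hl⟩, h0, hi⟩ := h
  have hd : HasFDerivAt (fun w => (q w).2)
      ((ContinuousLinearMap.snd ℝ ℝ P2).comp (fderiv ℝ q u)) u := (locA_hasFDerivAt hq).snd
  obtain ⟨β, b1, b2, b3, b4⟩ := taf_inv (N := fun w => (q w).2) hq.snd (by
    rw [hd.fderiv]
    exact hi)
  have b0 : β 0 = u := by
    have := b3.self_of_nhds
    rwa [h0] at this
  simp only [h0] at b1 b2 b4
  have ht : Tendsto β (𝓝 0) (𝓝 u) := b0 ▸ b1.continuousAt.tendsto
  have hq' : ContDiffAt ℝ ∞ q (β 0) := b0.symm ▸ hq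
  refine ⟨β, fun y => (q (β y)).1 - ⌊(q u).1⌋, b1, b0, b2,
    (hq'.comp 0 b1).fst.sub contDiffAt_const, ?_, ?_, ?_⟩
  · simp only [b0]
    exact ⟨Int.fract_nonneg _, Int.fract_lt_one _⟩
  · filter_upwards [ht.eventually hl, b4] with y h1 h2
    have h3 := hT.int (q (β y)) (-⌊(q u).1⌋)
    rw [h1, ← h3, h2, Int.cast_neg, ← sub_eq_add_neg]
  · have hu : q u ∈ tube r := by
      change (q u).2.1 ^ 2 + (q u).2.2 ^ 2 < r ^ 2
      rw [h0]
      simpa using pow_pos hr 2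
    filter_upwards [self_mem_nhdsWithin, nhdsWithin_le_nhds hl, nhdsWithin_le_nhds b3,
      nhdsWithin_le_nhds (hq.continuousAt.eventually ((isOpen_tube r).mem_nhds hu))]
      with w h1 h2 h3 h4
    rintro ⟨x, hx⟩
    have h5 := (hT.2 _ h4 (x, 0, 0) (by
      change (0 : ℝ) ^ 2 + 0 ^ 2 < r ^ 2
      simpa using pow_pos hr 2) (h2.symm.trans hx.symm)).1
    rw [h5] at h3
    exact h1 (h3.symm.trans b0)

omit [T2Space M] in
/-- off the core the disc lifts through the complement chart -/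
theorem taf_lift (hA : IsContactAtlas M) {K : ℝ → P3} (sd : SD K M) (hK : IsLeg3 K)
    {f : P2 → M} {w : P2} (hf : SmAt f w) (h1 : f w ≠ sd.minf)
    (h2 : f w ∉ range fun x : ℝ => sd.ns (x, 0, 0)) :
    Lift sd.psi f (fun w => cai (sd.th (f w))) w ∧
      ∀ᶠ x in 𝓝 (cai (sd.th (f w))), CtInto sd.psi x := by
  obtain ⟨a1, a2⟩ := sd.psi_cai h2 h1
  have a3 : ∀ᶠ x in 𝓝 (cai (sd.th (f w))), x ∉ range K :=
    hK.isCompact.isClosed.isOpen_compl.mem_nhds a1
  have a4 : ∀ᶠ x in 𝓝 (cai (sd.th (f w))), CtInto sd.psi x := a3.mono fun x hx => sd.psi_ct x hx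
  obtain ⟨q, q0, q1, q2⟩ := exists_lift hA a4 hf a2.symm
  have a5 : ∀ᶠ w' in 𝓝 w, q w' ∉ range K := q1.continuousAt.eventually (q0.symm ▸ a3)
  have a6 : ∀ᶠ w' in 𝓝 w, cai (sd.th (f w')) = q w' := by
    filter_upwards [a5, q2] with w' b1 b2
    rw [b2, sd.th_psi _ b1, cai_cay]
  refine ⟨⟨q1.congr_of_eventuallyEq a6, ?_⟩, a4⟩
  filter_upwards [a6, q2] with w' b1 b2
  rw [b1]
  exact b2

theorem surf_of_normal (hA : IsContactAtlas M) {K : ℝ → P3} (sd : SD K M) (hK : IsLeg3 K)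
    {f : P2 → M} (hf : IsOTDisc f) (h1 : ∀ u ∈ disc, f u ≠ sd.minf)
    (h2 : ∀ u ∈ circ, ∀ x : ℝ, f u ≠ sd.ns (x, 0, 0))
    (h3 : ∀ u ∈ disc, ∀ x : ℝ, f u = sd.ns (x, 0, 0) → Tr sd.ns f u) :
    Nonempty (Surf K sd.nu sd.A sd.B) := by
  have hc : ContinuousOn f disc := fun u hu => (hf.smAt hu).1.continuousWithinAt
  have hch : ∀ u ∈ disc ∩ f ⁻¹' range fun x : ℝ => sd.ns (x, 0, 0), _ := fun u hu =>
    taf_chart sd.r_pos sd.ns_tube (hu.2.elim fun x hx => h3 u hu.1 x hx.symm)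
  have hfin : (disc ∩ f ⁻¹' range fun x : ℝ => sd.ns (x, 0, 0)).Finite := by
    refine (isCompact_disc.of_isClosed_subset (hc.preimage_isClosed_of_isClosed
      isCompact_disc.isClosed sd.isClosed_core) inter_subset_left).finite
      (isDiscrete_iff_nhdsNE.2 fun u hu => inf_principal_eq_bot.2 ?_)
    obtain ⟨-, -, -, -, -, -, -, -, h⟩ := hch u hu
    exact h.mono fun w hw hw' => hw hw'.2
  obtain ⟨k, u, hu, hr⟩ := hfin.fin_param
  have hm : ∀ i, u i ∈ disc ∩ f ⁻¹' range fun x : ℝ => sd.ns (x, 0, 0) := fun i =>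
    hr ▸ mem_range_self i
  choose β g c1 c2 c3 c4 c5 c6 _ using fun i => hch (u i) (hm i)
  have hn : ∀ w ∈ disc \ range u, f w ∉ range fun x : ℝ => sd.ns (x, 0, 0) := fun w hw h =>
    hw.2 (hr.symm ▸ ⟨hw.1, h⟩)
  have hl := fun w (hw : w ∈ disc \ range u) =>
    taf_lift hA sd hK (hf.smAt hw.1) (h1 w hw.1) (hn w hw)
  have hp := fun w (hw : w ∈ disc \ range u) => sd.psi_cai (hn w hw) (h1 w hw.1)
  have hb : ∀ w ∈ circ, w ∈ disc \ range u := fun w hw => ⟨circ_subset hw, fun h => by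
    obtain ⟨x, hx⟩ := (hr ▸ h : w ∈ disc ∩ f ⁻¹' range fun x : ℝ => sd.ns (x, 0, 0)).2
    exact h2 w hw x hx.symm⟩
  have ha := fun w (hw : w ∈ circ) => (hl w (hb w hw)).1.al_eq (hl w (hb w hw)).2.self_of_nhds
  obtain ⟨-, hinj, himm, hleg, hbd⟩ := id hf
  have hleg' : ∀ w ∈ circ, al (cai (sd.th (f w)))
      (fderiv ℝ (fun w => cai (sd.th (f w))) w (-w.2, w.1)) = 0 := fun w hw => by
    obtain ⟨c, c0, hc⟩ := ha w hw
    exact (mul_eq_zero.1 ((hc _).symm.trans (hleg w hw))).resolve_left c0.ne'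
  refine ⟨⟨k, u, fun w => cai (sd.th (f w)), β, g, hu, fun i => ?_, fun w hw => (hl w hw).1.1,
    fun w hw => ((hl w hw).1.inj_iff hA (hl w hw).2).1 (himm w hw.1), fun w hw w' hw' h => ?_,
    fun w hw η hη => ?_, fun w hw => (hp w hw).1, hleg', ?_, c1, c2, c3, c4, c5,
    fun i j hij => ?_, fun i => ?_⟩⟩
  · refine lt_of_le_of_ne (hm i).1 fun h => ?_
    exact (hb (u i) h).2 (mem_range_self i)
  · refine hinj hw.1 hw'.1 ?_
    rw [← (hp w hw).2, ← (hp w' hw').2]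
    exact congrArg sd.psi h
  · have hC : IsClosed (f '' (disc \ Metric.ball w η)) :=
      ((isCompact_disc.diff Metric.isOpen_ball).image_of_continuousOn
        (hc.mono sdiff_subset)).isClosed
    have hw' : sd.psi (cai (sd.th (f w))) ∈ (f '' (disc \ Metric.ball w η))ᶜ := by
      rw [(hp w hw).2]
      rintro ⟨x, hx, e⟩
      exact hx.2 (hinj hx.1 hw.1 e ▸ Metric.mem_ball_self hη)
    filter_upwards [(hl w hw).2.self_of_nhds.1.eventually (hC.isOpen_compl.mem_nhds hw')]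
      with p h w' hw' e
    by_contra h'
    exact h ⟨w', ⟨hw'.1, h'⟩, by rw [← e, (hp w' hw').2]⟩
  · refine hbd.imp (fun h w hw v => ?_) fun h w hw => ⟨w, fun h' => ?_⟩
    · obtain ⟨c, c0, hc⟩ := ha w hw
      have e1 := (mul_eq_zero.1 ((hc _).symm.trans (h w hw))).resolve_left c0.ne'
      have e2 := hleg' w hw
      have e3 : w.1 ^ 2 + w.2 ^ 2 = 1 := hw
      have e4 : v = (v.1 * w.1 + v.2 * w.2) • w + (v.2 * w.1 - v.1 * w.2) • (-w.2, w.1) := by
        refine Prod.ext ?_ ?_ <;> simp only [Prod.fst_add, Prod.snd_add, Prod.smul_fst,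
          Prod.smul_snd, smul_eq_mul]
        · linear_combination (-v.1) * e3
        · linear_combination (-v.2) * e3
      rw [e4, map_add, map_smul, map_smul]
      simp only [al, Prod.fst_add, Prod.snd_add, Prod.smul_fst, Prod.smul_snd,
        smul_eq_mul] at e1 e2 ⊢
      linear_combination (v.1 * w.1 + v.2 * w.2) * e1 + (v.2 * w.1 - v.1 * w.2) * e2
    · obtain ⟨c, c0, hc⟩ := ha w hw
      exact h w hw (by rw [hc, h', mul_zero])
  · refine hu (hinj (hm i).1 (hm j).1 ?_)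
    have e1 := (c6 i).self_of_nhds
    have e2 := (c6 j).self_of_nhds
    rw [c2] at e1 e2
    rw [e1, e2]
    exact congrArg (fun x => sd.ns (x, 0)) hij
  · obtain ⟨δ, hδ, h⟩ := Metric.eventually_nhds_iff.1 (c6 i)
    filter_upwards [Ioo_mem_nhdsGT (lt_min hδ sd.r'_pos)] with ρ hρ a
    have e1 : dist (pol ρ a) 0 < δ := by
      rw [dist_zero_right, pol, Prod.norm_def]
      simp only [norm_mul, Real.norm_of_nonneg hρ.1.le, Real.norm_eq_abs (Real.cos a),
        Real.norm_eq_abs (Real.sin a)]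
      refine (max_le (mul_le_of_le_one_right hρ.1.le (Real.abs_cos_le_one a))
        (mul_le_of_le_one_right hρ.1.le (Real.abs_sin_le_one a))).trans_lt ?_
      exact hρ.2.trans_le (min_le_left _ _)
    have e2 := sd.glue (g i (pol ρ a)) a ρ hρ.1 (hρ.2.trans_le (min_le_right _ _))
    change cai (sd.th (f (β i (pol ρ a)))) = _
    rw [h e1]
    exact (congrArg cai e2).trans (cai_cay _)

end Pool.Agent.Lib.MP_4d7d0a_gt
end

-- part Pool.Agent.Lib.MP_4d7d0a_gt.DExt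
section

/-! Extension of a path functor over the core of the surgery torus. -/

set_option autoImplicit false

open Set Filter Topology
open scoped ContDiff

namespace Pool.Agent.Lib.MP_4d7d0a_gt

namespace DExtAux

section Pot

variable {X : Type} [TopologicalSpace X] {S : Set X} {G : Type} [Group G] (F : PathFun S G)
  {E : Type} [NormedAddCommGroup E] [NormedSpace ℝ E] {C : Set E} {N : E → X} {b : E}

/-- the potential on a convex parameter domain -/
noncomputable def gam (N : E → X) (b a : E) : G := F.F fun t => N (b + t • (a - b))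

theorem seg_path (hC : Convex ℝ C) (hb : b ∈ C) {a : E} (ha : a ∈ C) :
    IsPath C fun t : ℝ => b + t • (a - b) :=
  ⟨by fun_prop, fun t ht => hC.add_smul_sub_mem hb ha ht⟩

theorem gam_key (hC : Convex ℝ C) (hN : ContinuousOn N C) (hS : MapsTo N C S) (hb : b ∈ C)
    {c : ℝ → E} (hc : IsPath C c) :
    gam F N b (c 0) * F.F (fun t => N (c t)) = gam F N b (c 1) := by
  have h0 := seg_path hC hb (hc.2 ⟨le_rfl, zero_le_one⟩)
  have h1 := seg_path hC hb (hc.2 ⟨zero_le_one, le_rfl⟩)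
  have h3 : (fun t : ℝ => b + t • (c 0 - b)) 1 = c 0 := by simp
  unfold gam
  rw [← F.cat_eq (PathFun.pathFA_comp hN hS h0) (PathFun.pathFA_comp hN hS hc) (congrArg N h3),
    ← PathFun.pathFA_cat_comp]
  refine F.conv hC hN hS (PathFun.isPath_cat h0 hc h3) h1 ?_ ?_
  · simp [cat]
  · rw [PathFun.pathFA_cat_right h3 (by norm_num)]
    norm_num

theorem gam_transl (hC : Convex ℝ C) (hN : ContinuousOn N C) (hS : MapsTo N C S) (hb : b ∈ C)
    {v : E} (hv : ∀ a ∈ C, a + v ∈ C) (hNv : ∀ a, N (a + v) = N a) {a : E} (ha : a ∈ C) :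
    gam F N b (a + v) = gam F N b (b + v) * gam F N b a := by
  have h0 := seg_path hC hb ha
  have h1 : IsPath C fun t : ℝ => b + t • (a - b) + v :=
    ⟨by fun_prop, fun t ht => hv _ (h0.2 ht)⟩
  have h := gam_key F hC hN hS hb h1
  simp only [hNv, zero_smul, add_zero, one_smul, add_sub_cancel] at h
  exact h.symm

end Pot

/-- exponential polar coordinates -/
noncomputable def ep (a : ℝ × ℂ) : P3 := (a.1, (Complex.exp a.2).re, (Complex.exp a.2).im)

/-- the complex coordinate -/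
def wc (p : P3) : ℂ := ⟨p.2.1, p.2.2⟩

/-- the parameter domain -/
def hs (r : ℝ) : Set (ℝ × ℂ) := {a | a.2.re < Real.log r}

/-- the punctured tube -/
def ptube (r : ℝ) : Set P3 := {p | p ∈ tube r ∧ p.2 ≠ 0}

theorem convex_hs (r : ℝ) : Convex ℝ (hs r) := by
  have h := (convex_univ (𝕜 := ℝ) (E := ℝ)).prod (convex_halfSpace_re_lt (Real.log r))
  have e : hs r = univ ×ˢ {c : ℂ | c.re < Real.log r} := by
    ext a
    simp [hs]
  rwa [e]

theorem continuous_ep : Continuous ep := by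
  unfold ep
  fun_prop

theorem wc_ne {p : P3} (h : p.2 ≠ 0) : wc p ≠ 0 := fun h1 =>
  h (Prod.ext (congrArg Complex.re h1) (congrArg Complex.im h1))

theorem wc_norm {r : ℝ} (hr : 0 < r) {p : P3} : p ∈ tube r ↔ ‖wc p‖ < r := by
  have e : ‖wc p‖ ^ 2 = p.2.1 ^ 2 + p.2.2 ^ 2 := by
    rw [Complex.sq_norm, Complex.normSq_apply]
    simp only [wc]
    ring
  simp only [tube, mem_ofPred_eq]
  rw [← e]
  exact pow_lt_pow_iff_left₀ (norm_nonneg _) hr.le two_ne_zero

theorem wc_ep (a : ℝ × ℂ) : wc (ep a) = Complex.exp a.2 := rfl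

theorem ep_of {p : P3} {z : ℂ} (h : Complex.exp z = wc p) : ep (p.1, z) = p := by
  simp only [ep, h, wc]

theorem mem_hs {r : ℝ} (hr : 0 < r) {a : ℝ × ℂ} : a ∈ hs r ↔ ‖Complex.exp a.2‖ < r := by
  rw [Complex.norm_exp]
  exact (Real.lt_log_iff_exp_lt hr)

theorem ep_maps {r : ℝ} (hr : 0 < r) : MapsTo ep (hs r) (ptube r) := by
  intro a ha
  refine ⟨(wc_norm hr).2 ((mem_hs hr).1 ha), fun h => Complex.exp_ne_zero a.2 ?_⟩
  exact Complex.ext (congrArg Prod.fst h) (congrArg Prod.snd h)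

theorem exists_lift {r : ℝ} {c : ℝ → P3} (hc : IsPath (ptube r) c) :
    ∃ z : ℝ → ℂ, Continuous z ∧ ∀ t ∈ Icc (0 : ℝ) 1, Complex.exp (z t) = wc (c t) := by
  have h1 : Continuous fun t : unitInterval => wc (c t) := by
    have h2 : Continuous fun t : unitInterval => c t := hc.1.domRestrict
    have h3 : Continuous wc := by
      have e : wc = fun p : P3 => (p.2.1 : ℂ) + (p.2.2 : ℂ) * Complex.I := by
        funext p
        apply Complex.ext <;> simp [wc]
      rw [e]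
      fun_prop
    exact h3.comp h2
  let γ : C(unitInterval, {z : ℂ // z ≠ 0}) :=
    ⟨fun t => ⟨wc (c t), wc_ne (hc.2 t.2).2⟩, h1.subtype_mk _⟩
  obtain ⟨Γ, hΓ, -⟩ := Complex.isCoveringMap_exp.exists_path_lifts γ (Complex.log (wc (c 0)))
    (Subtype.ext (Complex.exp_log (wc_ne (hc.2 ⟨le_rfl, zero_le_one⟩).2)).symm)
  refine ⟨fun t => Γ (projIcc 0 1 zero_le_one t), Γ.continuous.comp continuous_projIcc,
    fun t ht => ?_⟩
  have h2 := congrArg Subtype.val (congrFun hΓ (projIcc 0 1 zero_le_one t))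
  rw [projIcc_of_mem zero_le_one ht] at h2
  simp only [projIcc_of_mem zero_le_one ht]
  exact h2

theorem exists_pot {X : Type} [TopologicalSpace X] {S : Set X} {G : Type} [Group G]
    (F : PathFun S G) {f : P3 → X} {r ρ : ℝ} (h0 : 0 < ρ) (h1 : ρ < r)
    (hp : ∀ p : P3, f (p.1 + 1, p.2) = f p) (hf : ContinuousOn f (ptube r))
    (hS : MapsTo f (ptube r) S)
    (hμ : F.F (fun t => f (0, ρ * Real.cos (2 * Real.pi * t),
      ρ * Real.sin (2 * Real.pi * t))) = 1) :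
    ∃ g : P3 → G, (∀ c, IsPath (ptube r) c → F.F (fun t => f (c t)) = (g (c 0))⁻¹ * g (c 1)) ∧
      ∀ k : ℤ, ∃ l : G, ∀ p ∈ tube r, g (p.1 + k, p.2) = l * g p := by
  have hr := h0.trans h1
  have hN : ContinuousOn (fun a => f (ep a)) (hs r) :=
    hf.comp continuous_ep.continuousOn (ep_maps hr)
  have hNS : MapsTo (fun a => f (ep a)) (hs r) S := fun a ha => hS (ep_maps hr ha)
  have hlog : Real.log ρ < Real.log r := Real.log_lt_log h0 h1
  have hb : ((0 : ℝ), ((Real.log ρ : ℝ) : ℂ)) ∈ hs r := hlog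
  set b : ℝ × ℂ := ((0 : ℝ), ((Real.log ρ : ℝ) : ℂ)) with hbd
  set Γ := gam F (fun a => f (ep a)) b with hΓ
  have hper : ∀ a ∈ hs r, Γ (a + (0, 2 * Real.pi * Complex.I)) = Γ a := by
    intro a ha
    rw [hΓ, gam_transl F (convex_hs r) hN hNS hb ?_ ?_ ha]
    · have e : gam F (fun a => f (ep a)) b (b + (0, 2 * Real.pi * Complex.I)) = 1 := by
        rw [← hμ]
        unfold gam
        congr 1
        funext t
        simp [ep, hbd, Complex.exp_re, Complex.exp_im, Real.exp_log h0, mul_comm]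
      rw [e, one_mul]
    · intro a ha
      simpa [hs] using ha
    · intro a
      simp [ep, Complex.exp_add]
  have hint : ∀ n : ℤ, ∀ a ∈ hs r, Γ (a + (0, n * (2 * Real.pi * Complex.I))) = Γ a := by
    intro n
    induction n using Int.induction_on with
    | zero =>
      intro a _
      congr 1
      ext <;> simp
    | succ n ih =>
      intro a ha
      rw [← ih a ha, ← hper (a + (0, ((n : ℤ) : ℂ) * (2 * Real.pi * Complex.I)))
        (by simpa [hs] using ha)]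
      congr 1
      ext
      · simp
      · simp
        ring
    | pred n ih =>
      intro a ha
      rw [← ih a ha, ← hper (a + _) (by simpa [hs] using ha)]
      congr 1
      ext
      · simp
      · simp
        ring
  have hexp : ∀ x : ℝ, ∀ z z' : ℂ, (x, z') ∈ hs r → Complex.exp z = Complex.exp z' →
      Γ (x, z) = Γ (x, z') := by
    intro x z z' hz h
    obtain ⟨n, hn⟩ := Complex.exp_eq_exp_iff_exists_int.1 h
    rw [← hint n _ hz, hn]
    simp
  have hz : ∀ (k : ℤ) (p : P3), f (p.1 + k, p.2) = f p := fun k p => by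
    have h2 : Function.Periodic (fun x : ℝ => f (x, p.2)) 1 := fun x => hp (x, p.2)
    simpa using h2.int_mul k p.1
  classical
  let L : ℝ × ℝ → ℂ := fun w => if w = 0 then (Real.log ρ : ℝ) else Complex.log (wc (0, w))
  have hL : ∀ p : P3, p.2 ≠ 0 → Complex.exp (L p.2) = wc p := fun p h => by
    simp only [L, if_neg h]
    exact Complex.exp_log (wc_ne h)
  have hLm : ∀ p ∈ tube r, (p.1, L p.2) ∈ hs r := fun p hp => by
    by_cases h : p.2 = 0
    · simp only [L, if_pos h]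
      exact hlog
    · rw [mem_hs hr, hL p h]
      exact (wc_norm hr).1 hp
  refine ⟨fun p => Γ (p.1, L p.2), fun c hc => ?_, fun k => ⟨Γ (b + ((k : ℝ), 0)), fun p hp => ?_⟩⟩
  · obtain ⟨z, hzc, hze⟩ := exists_lift hc
    have hpath : IsPath (hs r) fun t => ((c t).1, z t) :=
      ⟨(continuous_fst.comp_continuousOn hc.1).prodMk hzc.continuousOn, fun t ht => by
        rw [mem_hs hr, hze t ht]
        exact (wc_norm hr).1 (hc.2 ht).1⟩
    have key := gam_key F (convex_hs r) hN hNS hb hpath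
    have e : ∀ t ∈ Icc (0 : ℝ) 1, Γ ((c t).1, z t) = Γ ((c t).1, L (c t).2) := fun t ht =>
      hexp _ _ _ (hLm _ (hc.2 ht).1) ((hze t ht).trans (hL _ (hc.2 ht).2).symm)
    rw [← hΓ, e 0 ⟨le_rfl, zero_le_one⟩, e 1 ⟨zero_le_one, le_rfl⟩] at key
    beta_reduce
    rw [← key, inv_mul_cancel_left]
    refine F.congr (PathFun.pathFA_comp hN hNS hpath) fun t ht => ?_
    rw [ep_of (hze t ht)]
  · rw [hΓ, ← gam_transl F (convex_hs r) hN hNS hb ?_ ?_ (hLm p hp)]
    · simp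
    · intro a ha
      simpa [hs] using ha
    · intro a
      simpa [ep] using hz k (ep a)

/-- a box in the tube -/
def box (r a : ℝ) : Set P3 := {p | p ∈ tube r ∧ p.1 ∈ Ioo a (a + 1 / 2)}

theorem isOpen_box (r a : ℝ) : IsOpen (box r a) :=
  (isOpen_tube r).inter (isOpen_Ioo.preimage continuous_fst)

theorem shift_uniq {a b x y x' y' : ℝ} {k k' : ℤ} (hx : x ∈ Ioo a (a + 1 / 2))
    (hx' : x' ∈ Ioo a (a + 1 / 2)) (hy : y ∈ Ioo b (b + 1 / 2)) (hy' : y' ∈ Ioo b (b + 1 / 2))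
    (h : x = y + k) (h' : x' = y' + k') : k = k' := by
  have h1 : (k : ℝ) < k' + 1 := by linarith [hx.1, hx.2, hx'.1, hx'.2, hy.1, hy.2, hy'.1, hy'.2]
  have h2 : (k' : ℝ) < k + 1 := by linarith [hx.1, hx.2, hx'.1, hx'.2, hy.1, hy.2, hy'.1, hy'.2]
  have h3 : k < k' + 1 := by exact_mod_cast h1
  have h4 : k' < k + 1 := by exact_mod_cast h2
  omega

theorem injOn_box {X : Type} {f : P3 → X} {r r' : ℝ} (hf : TubeMap f r) (h : tube r' ⊆ tube r)
    (a : ℝ) : InjOn f (box r' a) := by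
  intro p hp q hq e
  obtain ⟨e2, k, hk⟩ := hf.2 p (h hp.1) q (h hq.1) e
  have h0 : k = 0 := shift_uniq hp.2 hp.2 hq.2 hp.2 hk (by simp)
  exact Prod.ext (by simpa [h0] using hk) e2

theorem exists_inv {X : Type} [TopologicalSpace X] {f : P3 → X} {B : Set P3} (hB : IsOpen B)
    (hi : InjOn f B) (hm : ∀ p ∈ B, map f (𝓝 p) = 𝓝 (f p)) :
    IsOpen (f '' B) ∧ ∃ κ : X → P3, ContinuousOn κ (f '' B) ∧ ∀ p ∈ B, κ (f p) = p := by
  refine ⟨isOpen_iff_mem_nhds.2 ?_, Function.invFunOn f B, ?_, fun p hp => hi.leftInvOn_invFunOn hp⟩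
  · rintro _ ⟨p, hp, rfl⟩
    rw [← hm p hp]
    exact image_mem_map (hB.mem_nhds hp)
  · rintro _ ⟨p, hp, rfl⟩
    refine ContinuousAt.continuousWithinAt ?_
    rw [ContinuousAt, ← hm p hp, tendsto_map'_iff, hi.leftInvOn_invFunOn hp]
    refine tendsto_id.congr' ?_
    filter_upwards [hB.mem_nhds hp] with q hq
    exact (hi.leftInvOn_invFunOn hq).symm

end DExtAux

open DExtAux in
theorem extend_core {M : Type} [TopologicalSpace M] [ChartedSpace P3 M] [T2Space M]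
    (hA : IsContactAtlas M) {K : ℝ → P3} (sd : SD K M) {G : Type} [Group G]
    (F₀ : PathFun (({sd.minf}ᶜ : Set M) \ range fun x : ℝ => sd.ns (x, 0, 0)) G) {ρ : ℝ}
    (h0 : 0 < ρ) (h1 : ρ < sd.r')
    (hμ : F₀.F (fun t => sd.ns (0, ρ * Real.cos (2 * Real.pi * t),
      ρ * Real.sin (2 * Real.pi * t))) = 1) :
    ∃ F : PathFun ({sd.minf}ᶜ : Set M) G,
      ∀ c, IsPath (({sd.minf}ᶜ : Set M) \ range fun x : ℝ => sd.ns (x, 0, 0)) c → F.F c = F₀.F c := by
  have hr := sd.r'_pos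
  have hsub : tube sd.r' ⊆ tube sd.r := tube_mono hr.le sd.r'_le
  have hS : MapsTo sd.ns (ptube sd.r')
      (({sd.minf}ᶜ : Set M) \ range fun x : ℝ => sd.ns (x, 0, 0)) := by
    intro p hp
    have h2 := Complex.exp_log (wc_ne hp.2)
    have h3 : ‖wc p‖ < sd.r' := (wc_norm hr).1 hp.1
    have h4 : 0 < ‖wc p‖ := norm_pos_iff.2 (wc_ne hp.2)
    have h5 : p = (p.1, ‖wc p‖ * Real.cos (Complex.arg (wc p)),
        ‖wc p‖ * Real.sin (Complex.arg (wc p))) := by
      rw [Complex.norm_mul_cos_arg, Complex.norm_mul_sin_arg]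
      rfl
    obtain ⟨h6, h7⟩ := sd.ns_eq (x := p.1) (a := Complex.arg (wc p)) h4 h3
    rw [h5, h7]
    exact ⟨sd.psi_ne h6, sd.psi_not _ h6⟩
  obtain ⟨g, hg, hk⟩ := exists_pot F₀ h0 h1 sd.ns_tube.1
    (fun p hp => (sd.ns_ct p (hsub hp.1)).1.continuousWithinAt) hS hμ
  have hinv := fun a : ℝ => exists_inv (isOpen_box sd.r' a) (injOn_box sd.ns_tube hsub a)
    fun p hp => map_nhds_of_ctInto hA (by
      filter_upwards [(isOpen_tube sd.r).mem_nhds (hsub hp.1)] with q hq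
      exact sd.ns_ct q hq)
  choose κ hκc hκ using fun a => (hinv a).2
  let U : Option ℝ → Set M := fun i => match i with
    | none => (range fun x : ℝ => sd.ns (x, 0, 0))ᶜ
    | some a => sd.ns '' box sd.r' a
  choose P hP using fun a : ℝ =>
    pathFun_pot (({sd.minf}ᶜ : Set M) ∩ sd.ns '' box sd.r' a) fun m => g (κ a m)
  let F : ∀ i, PathFun (({sd.minf}ᶜ : Set M) ∩ U i) G := fun i => match i with
    | none => F₀
    | some a => P a
  have hns : ∀ (a : ℝ) (c : ℝ → M), ContinuousOn c (Icc 0 1) →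
      MapsTo c (Icc 0 1) (({sd.minf}ᶜ : Set M) \ range fun x : ℝ => sd.ns (x, 0, 0)) →
      MapsTo c (Icc 0 1) (sd.ns '' box sd.r' a) → F₀.F c = (P a).F c := by
    intro a c hc h2 h3
    have h4 : ∀ t ∈ Icc (0 : ℝ) 1, κ a (c t) ∈ box sd.r' a ∧ sd.ns (κ a (c t)) = c t := by
      intro t ht
      obtain ⟨p, hp, e⟩ := h3 ht
      rw [← e, hκ a p hp]
      exact ⟨hp, rfl⟩
    have h5 : IsPath (ptube sd.r') fun t => κ a (c t) := by
      refine ⟨(hκc a).comp hc h3, fun t ht => ⟨(h4 t ht).1.1, fun h => (h2 ht).2 ?_⟩⟩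
      refine ⟨(κ a (c t)).1, ?_⟩
      rw [← (h4 t ht).2]
      exact congrArg sd.ns (Prod.ext (by rw [(h4 t ht).2]) h.symm)
    rw [hP, ← hg _ h5]
    exact (F₀.congr ⟨hc, h2⟩ fun t ht => (h4 t ht).2).symm
  refine (pathFun_glue (S := ({sd.minf}ᶜ : Set M)) U ?_ ?_ F ?_).imp
    fun F' hF' c hc => hF' none c hc
  · rintro (_ | a)
    · exact sd.isClosed_core.isOpen_compl
    · exact (hinv a).1
  · intro m _
    by_cases hm : m ∈ range fun x : ℝ => sd.ns (x, 0, 0)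
    · obtain ⟨x, rfl⟩ := hm
      exact ⟨some (x - 1 / 4), _, ⟨loc_aux_core hr x, by constructor <;> simp only <;> linarith⟩, rfl⟩
    · exact ⟨none, hm⟩
  · rintro (_ | a) (_ | b) c hc
    · rfl
    · exact hns b c hc.1 (fun t ht => (hc.2 ht).1) fun t ht => (hc.2 ht).2
    · exact (hns a c hc.1 (fun t ht => ⟨(hc.2 ht).1.1, (hc.2 ht).2⟩) fun t ht => (hc.2 ht).1.2).symm
    · change (P a).F c = (P b).F c
      rw [hP, hP]
      have h2 : ∀ t ∈ Icc (0 : ℝ) 1, κ a (c t) ∈ box sd.r' a ∧ κ b (c t) ∈ box sd.r' b ∧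
          (κ a (c t)).2 = (κ b (c t)).2 ∧ ∃ k : ℤ, (κ a (c t)).1 = (κ b (c t)).1 + k := by
        intro t ht
        obtain ⟨p, hp, e⟩ := (hc.2 ht).1.2
        obtain ⟨q, hq, e'⟩ := (hc.2 ht).2
        have e1 : κ a (c t) = p := by rw [← e, hκ a p hp]
        have e2 : κ b (c t) = q := by rw [← e', hκ b q hq]
        rw [e1, e2]
        exact ⟨hp, hq, sd.ns_tube.2 p (hsub hp.1) q (hsub hq.1) (e.trans e'.symm)⟩
      obtain ⟨a0, b0, e0, k, hk0⟩ := h2 0 ⟨le_rfl, zero_le_one⟩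
      obtain ⟨a1, b1, e1, k', hk1⟩ := h2 1 ⟨zero_le_one, le_rfl⟩
      have hkk : k = k' := shift_uniq a0.2 a1.2 b0.2 b1.2 hk0 hk1
      subst hkk
      obtain ⟨l, hl⟩ := hk k
      have g0 : g (κ a (c 0)) = l * g (κ b (c 0)) := by
        rw [← hl _ b0.1]
        exact congrArg g (Prod.ext hk0 e0)
      have g1 : g (κ a (c 1)) = l * g (κ b (c 1)) := by
        rw [← hl _ b1.1]
        exact congrArg g (Prod.ext hk1 e1)
      rw [g0, g1]
      group

end Pool.Agent.Lib.MP_4d7d0a_gt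
end
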