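import Pool.Agent.Lib.MP_4d7d0a_gt.TB1

-- part Pool.Agent.Lib.MP_4d7d0a_gt.Cay
section

/-! The Cayley map and unitary rotations. -/

set_option autoImplicit false

open Set Filter Topology
open scoped ContDiff

namespace Pool.Agent.Lib.MP_4d7d0a_gt

theorem cayD_pos (p : P3) : 0 < cayD p := by
  unfold cayD
  positivity

theorem cay_mem (p : P3) : cay p ∈ S3 := by
  have h := (cayD_pos p).ne'
  simp only [S3, cay, mem_ofPred_eq]
  field_simp
  unfold cayD
  ring

theorem cay_aux_caiN (p : P3) : caiN (cay p) = 4 / cayD p := by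
  have h := (cayD_pos p).ne'
  simp only [caiN, cay]
  field_simp
  unfold cayD
  ring

theorem cay_ne_pole (p : P3) : cay p ≠ pole := by
  intro h
  have h1 := cay_aux_caiN p
  have h2 := cayD_pos p
  rw [h, caiN, pole] at h1
  have h3 : 0 < 4 / cayD p := by positivity
  norm_num [← h1] at h3

theorem cai_cay (p : P3) : cai (cay p) = p := by
  have h := (cayD_pos p).ne'
  have h1 : -((cay p).1 * (cay p).2.2.2 + (cay p).2.1 * (1 - (cay p).2.2.1)) / caiN (cay p) =
      p.1 := by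
    rw [cay_aux_caiN]
    simp only [cay]
    field_simp
    unfold cayD
    ring
  have h2 : ((cay p).1 * (1 - (cay p).2.2.1) - (cay p).2.1 * (cay p).2.2.2) / caiN (cay p) =
      p.2.1 := by
    rw [cay_aux_caiN]
    simp only [cay]
    field_simp
    unfold cayD
    ring
  have h3 : -2 * (cay p).2.2.2 / caiN (cay p) = 4 * p.2.2 - 2 * p.1 * p.2.1 := by
    rw [cay_aux_caiN]
    simp only [cay]
    field_simp
    ring
  rw [cai, h1, h2, h3]
  refine Prod.ext rfl (Prod.ext rfl ?_)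
  simp only
  ring

theorem cay_inj : Function.Injective cay := by
  exact Function.LeftInverse.injective cai_cay

theorem caiN_pos {q : P4} (hq : q ∈ S3) (h : q ≠ pole) : 0 < caiN q := by
  obtain ⟨a, b, c, d⟩ := q
  simp only [S3, mem_ofPred_eq] at hq
  refine lt_of_le_of_ne (by unfold caiN; positivity) fun h0 => h ?_
  simp only [caiN] at h0
  have h1 : c = 1 := by nlinarith [sq_nonneg (1 - c), sq_nonneg d]
  have h2 : d = 0 := by nlinarith [sq_nonneg (1 - c), sq_nonneg d]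
  subst h1 h2
  have h3 : a = 0 := by nlinarith [sq_nonneg a, sq_nonneg b]
  have h4 : b = 0 := by nlinarith [sq_nonneg a, sq_nonneg b]
  rw [h3, h4, pole]

theorem cay_cai {q : P4} (hq : q ∈ S3) (h : q ≠ pole) : cay (cai q) = q := by
  have h0 := (caiN_pos hq h).ne'
  obtain ⟨a, b, c, d⟩ := q
  simp only [S3, mem_ofPred_eq] at hq
  have hn : caiN (a, b, c, d) = (1 - c) ^ 2 + d ^ 2 := rfl
  have h1 : (cai (a, b, c, d)).1 = -(a * d + b * (1 - c)) / caiN (a, b, c, d) := rfl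
  have h2 : (cai (a, b, c, d)).2.1 = (a * (1 - c) - b * d) / caiN (a, b, c, d) := rfl
  have hN : 4 * (cai (a, b, c, d)).2.2 - 2 * (cai (a, b, c, d)).1 * (cai (a, b, c, d)).2.1 =
      -2 * d / caiN (a, b, c, d) := by
    simp only [cai]
    ring
  have hQ : (cai (a, b, c, d)).1 ^ 2 + (cai (a, b, c, d)).2.1 ^ 2 + 1 =
      2 * (1 - c) / caiN (a, b, c, d) := by
    rw [h1, h2]
    field_simp
    rw [hn]
    linear_combination ((1 - c) ^ 2 + d ^ 2) * hq
  have hD : cayD (cai (a, b, c, d)) = 4 / caiN (a, b, c, d) := by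
    rw [cayD, hN, hQ]
    field_simp
    rw [hn]
    ring
  rw [cay, hN, hQ, hD, h1, h2]
  generalize caiN (a, b, c, d) = n at *
  refine Prod.ext ?_ (Prod.ext ?_ (Prod.ext ?_ ?_)) <;> simp only <;> field_simp
  · rw [hn]
    ring
  · rw [hn]
    ring
  · ring
  · ring

theorem contDiff_cay : ContDiff ℝ ∞ cay := by
  have h := fun p => (cayD_pos p).ne'
  have h1 : ContDiff ℝ ∞ cayD := by
    unfold cayD
    fun_prop
  unfold cay
  fun_prop (disch := exact h)

theorem contDiffAt_cai {q : P4} (h : caiN q ≠ 0) : ContDiffAt ℝ ∞ cai q := by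
  have h1 : ContDiff ℝ ∞ caiN := by
    unfold caiN
    fun_prop
  have h2 : ContDiffAt ℝ ∞ caiN q := h1.contDiffAt
  unfold cai
  fun_prop (disch := first | exact h | norm_num)

theorem lam_cay (p v : P3) : lam (cay p) (fderiv ℝ cay p v) = 8 / cayD p * al p v := by
  have h0 : HasDerivAt (fun t : ℝ => p + t • v) v 0 := by
    simpa using ((hasDerivAt_id (0 : ℝ)).smul_const v).const_add p
  have h1 : HasFDerivAt cay (fderiv ℝ cay p) (p + (0 : ℝ) • v) := by
    rw [zero_smul, add_zero]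
    exact (contDiff_cay.differentiable (by simp) p).hasFDerivAt
  have h2 := h1.comp_hasDerivAt (0 : ℝ) h0
  have hx : HasDerivAt (fun t : ℝ => (p + t • v).1) v.1 0 := h0.fst
  have hy : HasDerivAt (fun t : ℝ => (p + t • v).2.1) v.2.1 0 := h0.snd.fst
  have hz : HasDerivAt (fun t : ℝ => (p + t • v).2.2) v.2.2 0 := h0.snd.snd
  have hN := (hz.const_mul 4).sub ((hx.const_mul 2).mul hy)
  have hQ := ((hx.pow 2).add (hy.pow 2)).add_const 1
  have hD := (hN.pow 2).add (hQ.pow 2)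
  have hD0 := (cayD_pos (p + (0 : ℝ) • v)).ne'
  have c1 := (((hx.mul hN).add (hy.mul hQ)).const_mul 2).div hD hD0
  have c2 := (((hy.mul hN).sub (hx.mul hQ)).const_mul 2).div hD hD0
  have c3 := ((hQ.const_mul 2).div hD hD0).const_sub 1
  have c4 := (hN.const_mul (-2)).div hD hD0
  have h3 := h2.unique (c1.prodMk (c2.prodMk (c3.prodMk c4)))
  have h4 := (cayD_pos p).ne'
  rw [h3]
  simp only [lam, al, cay, Pi.add_apply, Pi.sub_apply, Pi.mul_apply, Pi.pow_apply, zero_smul,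
    add_zero, cayD] at h4 ⊢
  generalize 4 * p.2.2 - 2 * p.1 * p.2.1 = N at *
  field_simp
  ring

theorem contactAt4_cay (p : P3) : ContactAt4 cay p := by
  exact ⟨contDiff_cay.contDiffAt, 8 / cayD p, div_pos (by norm_num) (cayD_pos p), lam_cay p⟩

theorem contactAt4_neg_cay (p : P3) : ContactAt4 (fun q => -cay q) p := by
  refine ⟨contDiff_cay.contDiffAt.neg, 8 / cayD p, div_pos (by norm_num) (cayD_pos p), fun v => ?_⟩
  rw [← lam_cay, fderiv_fun_neg]
  simp [lam]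

theorem fderiv_cay_inj (p : P3) : Function.Injective (fderiv ℝ cay p) := by
  have h1 := (contDiff_cay.differentiable (by simp) p).hasFDerivAt
  have h2 := ((contDiffAt_cai (caiN_pos (cay_mem p) (cay_ne_pole p)).ne').differentiableAt
    (by simp)).hasFDerivAt
  have h3 := h2.comp p h1
  have h4 : cai ∘ cay = id := funext cai_cay
  rw [h4] at h3
  have h5 := h3.unique (hasFDerivAt_id p)
  exact Function.LeftInverse.injective (g := fderiv ℝ cai (cay p)) fun v =>
    DFunLike.congr_fun h5 v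

theorem neg_cay_zero : -cay 0 = pole := by
  simp [cay, cayD, pole]
  norm_num

theorem neg_mem_S3 {q : P4} (hq : q ∈ S3) : -q ∈ S3 := by
  simpa [S3] using hq

theorem pole_mem : pole ∈ S3 := by
  simp [S3, pole]

theorem cay_aux_norm (p : P3) : ‖p‖ ≤ cayD p := by
  obtain ⟨x, y, z⟩ := p
  simp only [Prod.norm_def, Real.norm_eq_abs, cayD, max_le_iff, abs_le]
  have h1 : x ^ 2 + y ^ 2 + 1 ≤ (x ^ 2 + y ^ 2 + 1) ^ 2 := by
    nlinarith [sq_nonneg x, sq_nonneg y, mul_nonneg (sq_nonneg x) (sq_nonneg y)]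
  generalize (x ^ 2 + y ^ 2 + 1) ^ 2 = S at *
  obtain ⟨N, rfl⟩ : ∃ N, z = (N + 2 * x * y) / 4 := ⟨4 * z - 2 * x * y, by ring⟩
  have h2 : 4 * ((N + 2 * x * y) / 4) - 2 * x * y = N := by ring
  rw [h2]
  refine ⟨⟨?_, ?_⟩, ⟨?_, ?_⟩, ?_, ?_⟩ <;>
    nlinarith [sq_nonneg N, sq_nonneg (x - 1), sq_nonneg (x + 1), sq_nonneg (y - 1),
      sq_nonneg (y + 1), sq_nonneg (N - 1), sq_nonneg (N + 1), sq_nonneg (x - y), sq_nonneg (x + y),
      sq_nonneg x, sq_nonneg y]

theorem cay_aux_dist {q : P4} (hq : q ∈ S3) : ‖q - pole‖ ≤ √(2 - 2 * q.2.2.1) := by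
  obtain ⟨a, b, c, d⟩ := q
  simp only [S3, mem_ofPred_eq] at hq
  simp only [pole, Prod.mk_sub_mk, Prod.norm_def, Real.norm_eq_abs, max_le_iff, sub_zero]
  refine ⟨?_, ?_, ?_, ?_⟩ <;> refine Real.abs_le_sqrt ?_ <;>
    nlinarith [sq_nonneg a, sq_nonneg b, sq_nonneg (c - 1), sq_nonneg d]

theorem tendsto_cay : Tendsto cay (cocompact P3) (𝓝 pole) := by
  have h1 : Tendsto cayD (cocompact P3) atTop :=
    tendsto_atTop_mono cay_aux_norm tendsto_norm_cocompact_atTop
  have h2 : Continuous fun s : ℝ => √(4 * √s) := by fun_prop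
  have h3 := (h2.tendsto 0).comp h1.inv_tendsto_atTop
  rw [Real.sqrt_zero, mul_zero, Real.sqrt_zero] at h3
  rw [tendsto_iff_norm_sub_tendsto_zero]
  refine squeeze_zero (fun _ => norm_nonneg _) (fun p => ?_) h3
  refine (cay_aux_dist (cay_mem p)).trans (Real.sqrt_le_sqrt ?_)
  have h4 := cayD_pos p
  have h5 : (p.1 ^ 2 + p.2.1 ^ 2 + 1) / cayD p ≤ √(cayD p)⁻¹ := by
    refine Real.le_sqrt_of_sq_le ?_
    rw [div_pow, div_le_iff₀ (by positivity), sq (cayD p), ← mul_assoc, inv_mul_cancel₀ h4.ne',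
      one_mul, cayD]
    exact le_add_of_nonneg_left (sq_nonneg _)
  simp only [cay, Pi.inv_apply, mul_div_assoc]
  linarith

/-- points of the sphere near the pole come from far away -/
theorem cai_far (R : ℝ) : ∀ᶠ q in 𝓝 pole, q ∈ S3 → q ≠ pole → R < ‖cai q‖ := by
  have h1 : IsClosed (cay '' Metric.closedBall 0 R) :=
    ((isCompact_closedBall 0 R).image contDiff_cay.continuous).isClosed
  have h2 : pole ∈ (cay '' Metric.closedBall 0 R)ᶜ := fun ⟨p, _, h⟩ => cay_ne_pole p h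
  filter_upwards [h1.isOpen_compl.mem_nhds h2] with q h3 h4 h5
  exact not_le.1 fun h6 => h3 ⟨cai q, mem_closedBall_zero_iff.2 h6, cay_cai h4 h5⟩

/-- parameter of the inverse rotation -/
def rinv (p : P4) : P4 := (-p.1, -p.2.1, p.2.2.1, -p.2.2.2)

theorem rinv_mem {p : P4} (hp : p ∈ S3) : rinv p ∈ S3 := by
  simpa [S3, rinv] using hp

theorem rotU_rinv {p : P4} (hp : p ∈ S3) (q : P4) : rotU (rinv p) (rotU p q) = q := by
  simp only [S3, mem_ofPred_eq] at hp
  refine Prod.ext ?_ (Prod.ext ?_ (Prod.ext ?_ ?_)) <;> simp only [rotU, rinv]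
  · linear_combination q.1 * hp
  · linear_combination q.2.1 * hp
  · linear_combination q.2.2.1 * hp
  · linear_combination q.2.2.2 * hp

theorem rotU_rinv' {p : P4} (hp : p ∈ S3) (q : P4) : rotU p (rotU (rinv p) q) = q := by
  simp only [S3, mem_ofPred_eq] at hp
  refine Prod.ext ?_ (Prod.ext ?_ (Prod.ext ?_ ?_)) <;> simp only [rotU, rinv]
  · linear_combination q.1 * hp
  · linear_combination q.2.1 * hp
  · linear_combination q.2.2.1 * hp
  · linear_combination q.2.2.2 * hp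

theorem rotU_pole (p : P4) : rotU p pole = p := by
  simp [rotU, pole]

theorem rotU_id (q : P4) : rotU pole q = q := by
  simp [rotU, pole]

theorem rinv_pole : rinv pole = pole := by
  simp [rinv, pole]

theorem rotU_mem {p q : P4} (hp : p ∈ S3) (hq : q ∈ S3) : rotU p q ∈ S3 := by
  simp only [S3, mem_ofPred_eq, rotU] at *
  linear_combination (q.1 ^ 2 + q.2.1 ^ 2 + q.2.2.1 ^ 2 + q.2.2.2 ^ 2) * hp + hq

theorem lam_rotU {p : P4} (hp : p ∈ S3) (q w : P4) : lam (rotU p q) (rotU p w) = lam q w := by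
  simp only [S3, mem_ofPred_eq, rotU, lam] at *
  linear_combination (q.1 * w.2.1 - q.2.1 * w.1 + q.2.2.1 * w.2.2.2 - q.2.2.2 * w.2.2.1) * hp

theorem contDiff_rotU : ContDiff ℝ ∞ fun a : P4 × P4 => rotU a.1 a.2 := by
  unfold rotU
  fun_prop

theorem hasFDerivAt_rotU (p q : P4) :
    ∃ A : P4 →L[ℝ] P4, (∀ w, A w = rotU p w) ∧ HasFDerivAt (rotU p) A q := by
  have h : IsLinearMap ℝ (rotU p) := by
    refine ⟨fun u w => ?_, fun c u => ?_⟩ <;>
      refine Prod.ext ?_ (Prod.ext ?_ (Prod.ext ?_ ?_)) <;> simp [rotU] <;> ring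
  exact ⟨LinearMap.toContinuousLinearMap (h.mk' _), fun _ => rfl,
    (LinearMap.toContinuousLinearMap (h.mk' _)).hasFDerivAt⟩

theorem ContactAt4.rotU {f : P3 → P4} {x : P3} {p : P4} (hp : p ∈ S3) (h : ContactAt4 f x) :
    ContactAt4 (fun y => rotU p (f y)) x := by
  obtain ⟨h1, c, h2, h3⟩ := h
  obtain ⟨A, h4, h5⟩ := hasFDerivAt_rotU p (f x)
  have h6 := h5.comp x (h1.differentiableAt (by simp)).hasFDerivAt
  refine ⟨contDiff_rotU.contDiffAt.comp x (contDiffAt_const.prodMk h1), c, h2, fun v => ?_⟩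
  rw [show (fun y => MP_4d7d0a_gt.rotU p (f y)) = MP_4d7d0a_gt.rotU p ∘ f from rfl, h6.fderiv,
    ContinuousLinearMap.comp_apply, h4, ← h3]
  exact lam_rotU hp _ _

end Pool.Agent.Lib.MP_4d7d0a_gt
end

-- part Pool.Agent.Lib.MP_4d7d0a_gt.LocA
section

/-! Local calculus of contact maps, first half. -/

set_option autoImplicit false

open Set Filter Topology
open scoped ContDiff

namespace Pool.Agent.Lib.MP_4d7d0a_gt

theorem locA_hasFDerivAt {E F : Type} [NormedAddCommGroup E] [NormedSpace ℝ E]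
    [NormedAddCommGroup F] [NormedSpace ℝ F] {f : E → F} {p : E} (h : ContDiffAt ℝ ∞ f p) :
    HasFDerivAt f (fderiv ℝ f p) p :=
  (h.differentiableAt (by simp)).hasFDerivAt

theorem locA_fderiv_comp {F : Type} [NormedAddCommGroup F] [NormedSpace ℝ F] {g : P3 → F}
    {f : P3 → P3} {p : P3} (hg : ContDiffAt ℝ ∞ g (f p)) (hf : ContDiffAt ℝ ∞ f p) (v : P3) :
    fderiv ℝ (fun q => g (f q)) p v = fderiv ℝ g (f p) (fderiv ℝ f p v) := by
  have h : HasFDerivAt (fun q => g (f q)) ((fderiv ℝ g (f p)).comp (fderiv ℝ f p)) p :=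
    (locA_hasFDerivAt hg).comp p (locA_hasFDerivAt hf)
  rw [h.fderiv]
  rfl

theorem contactAt_id (p : P3) : ContactAt (fun q => q) p := by
  refine ⟨contDiffAt_id, 1, one_pos, fun v => ?_⟩
  have h : HasFDerivAt (fun q : P3 => q) (ContinuousLinearMap.id ℝ P3) p := hasFDerivAt_id p
  rw [h.fderiv, one_mul]
  rfl

theorem ContactAt.comp {g f : P3 → P3} {p : P3} (hg : ContactAt g (f p)) (hf : ContactAt f p) :
    ContactAt (fun q => g (f q)) p := by
  obtain ⟨hg1, c, hc, hg2⟩ := hg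
  obtain ⟨hf1, d, hd, hf2⟩ := hf
  refine ⟨hg1.comp p hf1, c * d, mul_pos hc hd, fun v => ?_⟩
  rw [locA_fderiv_comp hg1 hf1, hg2, hf2, mul_assoc]

theorem ContactAt4.comp {g : P3 → P4} {f : P3 → P3} {p : P3} (hg : ContactAt4 g (f p))
    (hf : ContactAt f p) : ContactAt4 (fun q => g (f q)) p := by
  obtain ⟨hg1, c, hc, hg2⟩ := hg
  obtain ⟨hf1, d, hd, hf2⟩ := hf
  refine ⟨hg1.comp p hf1, c * d, mul_pos hc hd, fun v => ?_⟩
  rw [locA_fderiv_comp hg1 hf1, hg2, hf2, mul_assoc]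

theorem ContactAt.congr {f g : P3 → P3} {p : P3} (hf : ContactAt f p) (h : g =ᶠ[𝓝 p] f) :
    ContactAt g p := by
  obtain ⟨hf1, c, hc, hf2⟩ := hf
  refine ⟨hf1.congr_of_eventuallyEq h, c, hc, fun v => ?_⟩
  rw [h.fderiv_eq, h.eq_of_nhds, hf2]

theorem ContactAt4.congr {f g : P3 → P4} {p : P3} (hf : ContactAt4 f p) (h : g =ᶠ[𝓝 p] f) :
    ContactAt4 g p := by
  obtain ⟨hf1, c, hc, hf2⟩ := hf
  refine ⟨hf1.congr_of_eventuallyEq h, c, hc, fun v => ?_⟩
  rw [h.fderiv_eq, h.eq_of_nhds, hf2]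

theorem locA_line (p v : P3) : HasDerivAt (fun t : ℝ => p + t • v) v 0 := by
  simpa using ((hasDerivAt_id (0 : ℝ)).smul_const v).const_add p

/-- derivative of the pulled back form along a line -/
theorem locA_pull_deriv {f : P3 → P3} {p : P3} (hf : ContDiffAt ℝ ∞ f p) (v w : P3) :
    HasDerivAt (fun t : ℝ => al (f (p + t • v)) (fderiv ℝ f (p + t • v) w))
      ((fderiv ℝ (fderiv ℝ f) p v w).2.2 - ((fderiv ℝ f p v).2.1 * (fderiv ℝ f p w).1 +
        (f p).2.1 * (fderiv ℝ (fderiv ℝ f) p v w).1)) 0 := by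
  have hp : p = p + (0 : ℝ) • v := by simp
  have h1 : HasDerivAt (fun t : ℝ => f (p + t • v)) (fderiv ℝ f p v) 0 :=
    (locA_hasFDerivAt hf).comp_hasDerivAt_of_eq (0 : ℝ) (locA_line p v) hp
  have hf' : ContDiffAt ℝ ∞ (fderiv ℝ f) p := hf.fderiv_right (m := ∞) (by simp)
  have h2 : HasDerivAt (fun t : ℝ => fderiv ℝ f (p + t • v)) (fderiv ℝ (fderiv ℝ f) p v) 0 :=
    (locA_hasFDerivAt hf').comp_hasDerivAt_of_eq (0 : ℝ) (locA_line p v) hp
  have h3 : HasDerivAt (fun t : ℝ => fderiv ℝ f (p + t • v) w)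
      (fderiv ℝ (fderiv ℝ f) p v w) 0 := by
    simpa using h2.clm_apply (hasDerivAt_const (0 : ℝ) w)
  have a1 : HasDerivAt (fun t : ℝ => (fderiv ℝ f (p + t • v) w).2.2)
      (fderiv ℝ (fderiv ℝ f) p v w).2.2 0 := h3.snd.snd
  have a2 : HasDerivAt (fun t : ℝ => (fderiv ℝ f (p + t • v) w).1)
      (fderiv ℝ (fderiv ℝ f) p v w).1 0 := h3.fst
  have a3 : HasDerivAt (fun t : ℝ => (f (p + t • v)).2.1) (fderiv ℝ f p v).2.1 0 := h1.snd.fst
  have a4 := a1.sub (a3.mul a2)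
  simp only [zero_smul, add_zero] at a4
  exact a4

/-- a map that is contact near `p` has invertible derivative at `p` -/
theorem fderiv_inj_of_contact {f : P3 → P3} {p : P3} (h : ∀ᶠ q in 𝓝 p, ContactAt f q) :
    Function.Injective (fderiv ℝ f p) := by
  obtain ⟨hf, c, hc, hp⟩ := h.self_of_nhds
  have hsym : IsSymmSndFDerivAt ℝ f p := hf.isSymmSndFDerivAt (by
    simp only [minSmoothness_of_isRCLikeNormedField]
    exact WithTop.coe_le_coe.2 (le_top (a := (2 : ℕ∞))))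
  have he : ∀ q : P3, al q (0, 0, 1) = 1 := fun q => by simp [al]
  have hc' : al (f p) (fderiv ℝ f p (0, 0, 1)) = c := by rw [hp, he, mul_one]
  have key : ∀ v w : P3, ∃ d : ℝ,
      (fderiv ℝ (fderiv ℝ f) p v w).2.2 - ((fderiv ℝ f p v).2.1 * (fderiv ℝ f p w).1 +
        (f p).2.1 * (fderiv ℝ (fderiv ℝ f) p v w).1) = d * al p w - c * (v.2.1 * w.1) := by
    intro v w
    have h1 := locA_pull_deriv hf v w
    have h2 := locA_pull_deriv hf v (0, 0, 1)
    have h3 : HasDerivAt (fun t : ℝ => al (p + t • v) w) (-(v.2.1 * w.1)) 0 := by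
      have a3 : HasDerivAt (fun t : ℝ => (p + t • v).2.1) v.2.1 0 := (locA_line p v).snd.fst
      exact (a3.mul_const w.1).const_sub w.2.2
    have h4 := h2.mul h3
    have ht : Tendsto (fun t : ℝ => p + t • v) (𝓝 0) (𝓝 p) := by
      simpa using (locA_line p v).continuousAt.tendsto
    have h5 : (fun t : ℝ => al (f (p + t • v)) (fderiv ℝ f (p + t • v) w)) =ᶠ[𝓝 0]
        ((fun t : ℝ => al (f (p + t • v)) (fderiv ℝ f (p + t • v) (0, 0, 1))) *
          fun t : ℝ => al (p + t • v) w) := by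
      filter_upwards [ht.eventually h] with t ht'
      obtain ⟨-, c', -, hq⟩ := ht'
      simp only [Pi.mul_apply]
      rw [hq, hq, he, mul_one]
    have h6 := h1.unique (h4.congr_of_eventuallyEq h5)
    simp only [zero_smul, add_zero] at h6
    refine ⟨?_, ?_⟩
    · exact (fderiv ℝ (fderiv ℝ f) p v (0, 0, 1)).2.2 -
        ((fderiv ℝ f p v).2.1 * (fderiv ℝ f p (0, 0, 1)).1 +
          (f p).2.1 * (fderiv ℝ (fderiv ℝ f) p v (0, 0, 1)).1)
    · rw [h6, hc']
      ring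
  rw [injective_iff_map_eq_zero]
  intro v hv
  have hv0 : al p v = 0 := by
    have := hp v
    rw [hv] at this
    have h0 : al (f p) 0 = 0 := by simp [al]
    rw [h0] at this
    exact (mul_eq_zero.1 this.symm).resolve_left hc.ne'
  have key2 : ∀ w : P3, al p w = 0 → v.2.1 * w.1 = w.2.1 * v.1 := by
    intro w hw
    obtain ⟨d, h1⟩ := key v w
    obtain ⟨d', h2⟩ := key w v
    rw [hsym w v, hv, hv0] at h2
    rw [hv, hw] at h1
    simp only [Prod.snd_zero, Prod.fst_zero, zero_mul, mul_zero, zero_add] at h1 h2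
    have : c * (v.2.1 * w.1) = c * (w.2.1 * v.1) := by linarith
    exact mul_left_cancel₀ hc.ne' this
  have e1 := key2 (1, 0, p.2.1) (by simp [al])
  have e2 := key2 (0, 1, 0) (by simp [al])
  simp only [mul_one, zero_mul, mul_zero, one_mul] at e1 e2
  have e3 : v.2.2 = 0 := by
    unfold al at hv0
    rw [← e2] at hv0
    linarith
  exact Prod.ext e2.symm (Prod.ext e1 e3)

theorem locA_equiv {A : P3 →L[ℝ] P3} (h : Function.Injective A) :
    ∃ e : P3 ≃L[ℝ] P3, (e : P3 →L[ℝ] P3) = A :=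
  ⟨(LinearEquiv.ofInjectiveEndo (A : P3 →ₗ[ℝ] P3) h).toContinuousLinearEquiv,
    ContinuousLinearMap.ext fun _ => rfl⟩

theorem locA_of_smooth_inv {f g : P3 → P3} {q : P3} (hf : ContactAt f (g q))
    (hg : ContDiffAt ℝ ∞ g q) (h : ∀ᶠ x in 𝓝 q, f (g x) = x) : ContactAt g q := by
  obtain ⟨hf1, c, hc, hf2⟩ := hf
  refine ⟨hg, c⁻¹, inv_pos.2 hc, fun v => ?_⟩
  have h1 : (fun x => f (g x)) =ᶠ[𝓝 q] fun x => x := h
  have h2 : HasFDerivAt (fun x : P3 => x) (ContinuousLinearMap.id ℝ P3) q := hasFDerivAt_id q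
  have h3 := locA_fderiv_comp hf1 hg v
  rw [h1.fderiv_eq, h2.fderiv] at h3
  have h4 := hf2 (fderiv ℝ g q v)
  rw [← h3, h.self_of_nhds] at h4
  simp only [ContinuousLinearMap.id_apply] at h4
  rw [h4, ← mul_assoc, inv_mul_cancel₀ hc.ne', one_mul]

/-- local inverse -/
theorem exists_contact_inv {f : P3 → P3} {p : P3} (h : ∀ᶠ q in 𝓝 p, ContactAt f q) :
    ∃ g : P3 → P3, (∀ᶠ q in 𝓝 (f p), ContactAt g q) ∧ (∀ᶠ q in 𝓝 p, g (f q) = q) ∧
      ∀ᶠ q in 𝓝 (f p), f (g q) = q := by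
  have hf := h.self_of_nhds.1
  obtain ⟨A, hA⟩ := locA_equiv (fderiv_inj_of_contact h)
  have hA' : HasFDerivAt f (A : P3 →L[ℝ] P3) p := hA ▸ locA_hasFDerivAt hf
  have hn : (∞ : WithTop ℕ∞) ≠ 0 := by simp
  set e := hf.toOpenPartialHomeomorph f hA' hn with he
  have hcoe : (e : P3 → P3) = f := rfl
  have hs : p ∈ e.source := hf.mem_toOpenPartialHomeomorph_source hA' hn
  have ht : f p ∈ e.target := hf.image_mem_toOpenPartialHomeomorph_target hA' hn
  have h2 : ∀ᶠ q in 𝓝 p, e.symm (f q) = q := e.eventually_left_inverse hs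
  have h3 : ∀ᶠ q in 𝓝 (f p), f (e.symm q) = q := e.eventually_right_inverse ht
  refine ⟨e.symm, ?_, h2, h3⟩
  have h4 : Tendsto e.symm (𝓝 (f p)) (𝓝 p) := by
    have := (e.continuousAt_symm ht).tendsto
    rwa [h2.self_of_nhds] at this
  filter_upwards [h4.eventually h.eventually_nhds, h3.eventually_nhds,
    e.open_target.mem_nhds ht] with q hq1 hq2 hq3
  obtain ⟨B, hB⟩ := locA_equiv (fderiv_inj_of_contact hq1)
  have hfq := hq1.self_of_nhds
  have hB' : HasFDerivAt e (B : P3 →L[ℝ] P3) (e.symm q) := hB ▸ locA_hasFDerivAt hfq.1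
  exact locA_of_smooth_inv hfq (e.contDiffAt_symm hq3 hB' hfq.1) hq2

theorem map_nhds_of_contact {f : P3 → P3} {p : P3} (h : ∀ᶠ q in 𝓝 p, ContactAt f q) :
    map f (𝓝 p) = 𝓝 (f p) := by
  have hf := h.self_of_nhds.1
  obtain ⟨A, hA⟩ := locA_equiv (fderiv_inj_of_contact h)
  have hA' : HasFDerivAt f (A : P3 →L[ℝ] P3) p := hA ▸ locA_hasFDerivAt hf
  exact (hf.hasStrictFDerivAt' hA' (by simp)).map_nhds_eq_of_equiv

/-- a continuous right inverse of a contact map is contact -/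
theorem contactAt_of_right_inv {f g : P3 → P3} {p : P3} (hf : ∀ᶠ q in 𝓝 (g p), ContactAt f q)
    (hg : ContinuousAt g p) (h : ∀ᶠ q in 𝓝 p, f (g q) = q) : ∀ᶠ q in 𝓝 p, ContactAt g q := by
  obtain ⟨g0, h1, h2, -⟩ := exists_contact_inv hf
  rw [h.self_of_nhds] at h1
  have h3 : g =ᶠ[𝓝 p] g0 := by
    filter_upwards [hg.tendsto.eventually h2, h] with q hq1 hq2
    rw [hq2] at hq1
    exact hq1.symm
  filter_upwards [h1, h3.eventuallyEq_nhds] with q hq1 hq2
  exact hq1.congr hq2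

theorem ContactAt4.cai {f : P3 → P4} {p : P3} (hf : ContactAt4 f p)
    (hS : ∀ᶠ q in 𝓝 p, f q ∈ S3) (hp : f p ≠ pole) : ContactAt (fun q => cai (f q)) p := by
  obtain ⟨hf1, c, hc, hf2⟩ := hf
  have h1 : ContDiffAt ℝ ∞ (fun q => MP_4d7d0a_gt.cai (f q)) p :=
    (contDiffAt_cai (caiN_pos hS.self_of_nhds hp).ne').comp p hf1
  have h2 : (fun q => cay (MP_4d7d0a_gt.cai (f q))) =ᶠ[𝓝 p] f := by
    filter_upwards [hS, hf1.continuousAt.eventually_ne hp] with q hq1 hq2
    exact cay_cai hq1 hq2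
  have hD := cayD_pos (MP_4d7d0a_gt.cai (f p))
  refine ⟨h1, c * cayD (MP_4d7d0a_gt.cai (f p)) / 8, by positivity, fun v => ?_⟩
  have h3 := locA_fderiv_comp (g := cay) (f := fun q => MP_4d7d0a_gt.cai (f q))
    contDiff_cay.contDiffAt h1 v
  rw [h2.fderiv_eq] at h3
  have h4 := lam_cay (MP_4d7d0a_gt.cai (f p)) (fderiv ℝ (fun q => MP_4d7d0a_gt.cai (f q)) p v)
  rw [← h3, h2.eq_of_nhds, hf2] at h4
  field_simp at h4 ⊢
  linarith

theorem IsCto.symm {f g : P3 → P3} (h : IsCto f g) : IsCto g f := by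
  obtain ⟨h1, h2, h3, h4, R, hR⟩ := h
  refine ⟨h2, h1, h4, h3, R, fun p hp => ?_⟩
  have := h3 p
  rwa [hR p hp] at this

theorem IsCto.comp {f g f' g' : P3 → P3} (h : IsCto f g) (h' : IsCto f' g') :
    IsCto (fun p => f' (f p)) (fun p => g (g' p)) := by
  obtain ⟨h1, h2, h3, h4, R, hR⟩ := h
  obtain ⟨h1', h2', h3', h4', R', hR'⟩ := h'
  refine ⟨fun p => (h1' _).comp (h1 p), fun p => (h2 _).comp (h2' p), fun p => ?_, fun p => ?_,
    max R R', fun p hp => ?_⟩
  · simp only [h3', h3]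
  · simp only [h4, h4']
  · simp only
    rw [hR p (le_of_max_le_left hp), hR' p (le_of_max_le_right hp)]

theorem isCto_id : IsCto (fun p => p) (fun p => p) :=
  ⟨contactAt_id, contactAt_id, fun _ => rfl, fun _ => rfl, 0, fun _ _ => rfl⟩

theorem IsLeg3.map {K : ℝ → P3} (hK : IsLeg3 K) {f : P3 → P3}
    (hf : ∀ t, ∀ᶠ q in 𝓝 (K t), ContactAt f q) (hi : InjOn f (range K)) :
    IsLeg3 fun t => f (K t) := by
  obtain ⟨h1, h2, h3, h4, h5⟩ := hK
  have hd : ∀ t, deriv (fun t => f (K t)) t = fderiv ℝ f (K t) (deriv K t) := fun t => by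
    have a : HasDerivAt K (deriv K t) t := (h1.differentiable (by simp) t).hasDerivAt
    exact ((locA_hasFDerivAt (hf t).self_of_nhds.1).comp_hasDerivAt t a).deriv
  refine ⟨contDiff_iff_contDiffAt.2 fun t => (hf t).self_of_nhds.1.comp t h1.contDiffAt,
    fun t => by simp only [h2], fun s hs t ht hst => h3 hs ht ?_, fun t h0 => h4 t ?_,
    fun t => ?_⟩
  · exact hi (mem_range_self s) (mem_range_self t) hst
  · rw [hd] at h0
    exact fderiv_inj_of_contact (hf t) (h0.trans (map_zero _).symm)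
  · obtain ⟨-, c, -, hc⟩ := (hf t).self_of_nhds
    rw [hd, hc, h5, mul_zero]

theorem IsLeg3.eq_iff {K : ℝ → P3} (hK : IsLeg3 K) {s t : ℝ} :
    K s = K t ↔ ∃ k : ℤ, s = t + k := by
  have hp : Function.Periodic K 1 := hK.2.1
  have hz : ∀ (x : ℝ) (k : ℤ), K (x + k) = K x := fun x k => by
    simpa using hp.int_mul k x
  have hfr : ∀ x : ℝ, K (Int.fract x) = K x := fun x => by
    rw [← hz (Int.fract x) ⌊x⌋, Int.fract_add_floor]
  constructor
  · intro h
    have h1 : Int.fract s = Int.fract t :=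
      hK.2.2.1 ⟨Int.fract_nonneg s, Int.fract_lt_one s⟩ ⟨Int.fract_nonneg t, Int.fract_lt_one t⟩
        (by rw [hfr, hfr, h])
    refine ⟨⌊s⌋ - ⌊t⌋, ?_⟩
    have a := Int.fract_add_floor s
    have b := Int.fract_add_floor t
    push_cast
    linarith
  · rintro ⟨k, rfl⟩
    exact hz t k

theorem IsLeg3.isCompact {K : ℝ → P3} (hK : IsLeg3 K) : IsCompact (range K) :=
  Function.Periodic.compact_of_continuous (c := 1) hK.2.1 one_ne_zero hK.1.continuous

theorem isOpen_tube (r : ℝ) : IsOpen (tube r) :=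
  isOpen_lt (by fun_prop) continuous_const

theorem tube_mono {r r' : ℝ} (h0 : 0 ≤ r) (h : r ≤ r') : tube r ⊆ tube r' := fun _ hp =>
  lt_of_lt_of_le hp (pow_le_pow_left₀ h0 h 2)

end Pool.Agent.Lib.MP_4d7d0a_gt
end

-- part Pool.Agent.Lib.MP_4d7d0a_gt.Loc
section

/-! Local calculus of contact maps into and from a contact manifold. -/

set_option autoImplicit false

open Set Filter Topology
open scoped ContDiff

namespace Pool.Agent.Lib.MP_4d7d0a_gt

section Mfd

variable {M : Type} [TopologicalSpace M] [ChartedSpace P3 M]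

/-- a map into `M` that is contact at `p` -/
def CtInto (F : P3 → M) (p : P3) : Prop := ContinuousAt F p ∧ ContactAt (inChart F p) p

/-- a map from `M` that is contact at `m` -/
def CtFrom (G : M → P3) (m : M) : Prop :=
  ContactAt (fun p => G ((chartAt P3 m).symm p)) (chartAt P3 m m)

omit [ChartedSpace P3 M] in
theorem loc_aux_ev {F : P3 → M} {p : P3} (hc : ContinuousAt F p)
    {e : OpenPartialHomeomorph M P3} (hp : F p ∈ e.source) : ∀ᶠ q in 𝓝 p, F q ∈ e.source :=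
  hc.preimage_mem_nhds (e.open_source.mem_nhds hp)

theorem loc_aux_change (hA : IsContactAtlas M) {F : P3 → M} {p : P3} (hc : ContinuousAt F p)
    {e e' : OpenPartialHomeomorph M P3} (he : e ∈ atlas P3 M) (he' : e' ∈ atlas P3 M)
    (hp : F p ∈ e.source) (hp' : F p ∈ e'.source) (h : ContactAt (fun q => e (F q)) p) :
    ContactAt (fun q => e' (F q)) p := by
  have h1 := ContactAt.comp (g := fun q => e' (e.symm q)) (f := fun q => e (F q))
    (hA e he e' he' (F p) ⟨hp, hp'⟩) h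
  refine h1.congr ?_
  filter_upwards [loc_aux_ev hc hp] with q hq
  rw [e.left_inv hq]

theorem CtInto.chart (hA : IsContactAtlas M) {F : P3 → M} {p : P3} (h : CtInto F p)
    {e : OpenPartialHomeomorph M P3} (he : e ∈ atlas P3 M) (hp : F p ∈ e.source) :
    ContactAt (fun q => e (F q)) p :=
  loc_aux_change hA h.1 (chart_mem_atlas P3 (F p)) he (mem_chart_source P3 (F p)) hp h.2

theorem ctInto_of_chart (hA : IsContactAtlas M) {F : P3 → M} {p : P3} (hc : ContinuousAt F p)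
    {e : OpenPartialHomeomorph M P3} (he : e ∈ atlas P3 M) (hp : F p ∈ e.source)
    (h : ContactAt (fun q => e (F q)) p) : CtInto F p :=
  ⟨hc, loc_aux_change hA hc he (chart_mem_atlas P3 (F p)) hp (mem_chart_source P3 (F p)) h⟩

theorem CtInto.comp {F : P3 → M} {f : P3 → P3} {p : P3} (hF : CtInto F (f p))
    (hf : ContactAt f p) : CtInto (fun q => F (f q)) p :=
  ⟨ContinuousAt.comp (g := F) hF.1 hf.1.continuousAt,
    ContactAt.comp (g := inChart F (f p)) hF.2 hf⟩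

theorem CtInto.congr {F F' : P3 → M} {p : P3} (hF : CtInto F p) (h : F' =ᶠ[𝓝 p] F) :
    CtInto F' p := by
  refine ⟨hF.1.congr h.symm, hF.2.congr ?_⟩
  filter_upwards [h] with q hq
  simp only [inChart, hq, h.eq_of_nhds]

theorem CtFrom.comp_into {G : M → P3} {F : P3 → M} {p : P3} (hG : CtFrom G (F p))
    (hF : CtInto F p) : ContactAt (fun q => G (F q)) p := by
  have h1 := ContactAt.comp (g := fun q => G ((chartAt P3 (F p)).symm q)) (f := inChart F p)
    hG hF.2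
  refine h1.congr ?_
  filter_upwards [loc_aux_ev hF.1 (mem_chart_source P3 (F p))] with q hq
  simp only [inChart]
  rw [(chartAt P3 (F p)).left_inv hq]

theorem ct4_comp_into {G : M → P4} {F : P3 → M} {p : P3}
    (hG : ContactAt4 (fun q => G ((chartAt P3 (F p)).symm q)) (chartAt P3 (F p) (F p)))
    (hF : CtInto F p) : ContactAt4 (fun q => G (F q)) p := by
  have h1 := ContactAt4.comp (g := fun q => G ((chartAt P3 (F p)).symm q)) (f := inChart F p)
    hG hF.2
  refine h1.congr ?_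
  filter_upwards [loc_aux_ev hF.1 (mem_chart_source P3 (F p))] with q hq
  simp only [inChart]
  rw [(chartAt P3 (F p)).left_inv hq]

theorem loc_aux_near (hA : IsContactAtlas M) {F : P3 → M} {p : P3}
    (hF : ∀ᶠ q in 𝓝 p, CtInto F q) : ∀ᶠ q in 𝓝 p, ContactAt (inChart F p) q := by
  filter_upwards [hF, loc_aux_ev hF.self_of_nhds.1 (mem_chart_source P3 (F p))] with q hq hs
  exact hq.chart hA (chart_mem_atlas P3 (F p)) hs

theorem loc_aux_inv (hA : IsContactAtlas M) {F : P3 → M} {p : P3}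
    (hF : ∀ᶠ q in 𝓝 p, CtInto F q) : ∃ g : P3 → P3,
      (∀ᶠ q in 𝓝 (chartAt P3 (F p) (F p)), ContactAt g q) ∧
      (∀ᶠ q in 𝓝 p, g (chartAt P3 (F p) (F q)) = q) ∧
      ∀ᶠ q in 𝓝 (chartAt P3 (F p) (F p)), F (g q) = (chartAt P3 (F p)).symm q := by
  obtain ⟨g, h1, h2, h3⟩ := exists_contact_inv (loc_aux_near hA hF)
  refine ⟨g, h1, h2, ?_⟩
  have h4 : g (inChart F p p) = p := h2.self_of_nhds
  have h5 : Tendsto g (𝓝 (inChart F p p)) (𝓝 p) := by
    have := h1.self_of_nhds.1.continuousAt.tendsto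
    rwa [h4] at this
  filter_upwards [h3, h5.eventually (loc_aux_ev hF.self_of_nhds.1 (mem_chart_source P3 (F p)))]
    with q hq hs
  have h6 := (chartAt P3 (F p)).left_inv hs
  rw [← h6]
  exact congrArg _ hq

/-- to check a map from `M` use any local contact parametrisation -/
theorem ct4_of_param (hA : IsContactAtlas M) {G : M → P4} {F : P3 → M} {p : P3}
    (hF : ∀ᶠ q in 𝓝 p, CtInto F q) (h : ContactAt4 (fun q => G (F q)) p) :
    ContactAt4 (fun q => G ((chartAt P3 (F p)).symm q)) (chartAt P3 (F p) (F p)) := by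
  obtain ⟨g, h1, h2, h3⟩ := loc_aux_inv hA hF
  have h4 : ContactAt4 (fun q => G (F q)) (g (chartAt P3 (F p) (F p))) := by
    rwa [h2.self_of_nhds]
  refine (h4.comp h1.self_of_nhds).congr ?_
  filter_upwards [h3] with q hq
  rw [hq]

theorem ctFrom_of_param (hA : IsContactAtlas M) {G : M → P3} {F : P3 → M} {p : P3}
    (hF : ∀ᶠ q in 𝓝 p, CtInto F q) (h : ContactAt (fun q => G (F q)) p) : CtFrom G (F p) := by
  obtain ⟨g, h1, h2, h3⟩ := loc_aux_inv hA hF
  have h4 : ContactAt (fun q => G (F q)) (g (chartAt P3 (F p) (F p))) := by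
    rwa [h2.self_of_nhds]
  refine (h4.comp h1.self_of_nhds).congr ?_
  filter_upwards [h3] with q hq
  rw [hq]

theorem map_nhds_of_ctInto (hA : IsContactAtlas M) {F : P3 → M} {p : P3}
    (hF : ∀ᶠ q in 𝓝 p, CtInto F q) : map F (𝓝 p) = 𝓝 (F p) := by
  have h1 := map_nhds_of_contact (loc_aux_near hA hF)
  have h2 : F =ᶠ[𝓝 p] (chartAt P3 (F p)).symm ∘ inChart F p := by
    filter_upwards [loc_aux_ev hF.self_of_nhds.1 (mem_chart_source P3 (F p))] with q hq
    exact ((chartAt P3 (F p)).left_inv hq).symm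
  rw [map_congr h2, ← map_map, h1]
  exact (chartAt P3 (F p)).symm_map_nhds_eq (mem_chart_source P3 (F p))

/-- local inverse of a contact parametrisation -/
theorem exists_ctInto_inv (hA : IsContactAtlas M) {F : P3 → M} {p : P3}
    (hF : ∀ᶠ q in 𝓝 p, CtInto F q) : ∃ G : M → P3, (∀ᶠ m in 𝓝 (F p), ContinuousAt G m ∧
      CtFrom G m ∧ F (G m) = m) ∧ ∀ᶠ q in 𝓝 p, G (F q) = q := by
  obtain ⟨g, h1, h2, h3⟩ := loc_aux_inv hA hF
  refine ⟨fun m => g (chartAt P3 (F p) m), ?_, h2⟩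
  have hc := (chartAt P3 (F p)).continuousAt (mem_chart_source P3 (F p))
  filter_upwards [hc.eventually h1, hc.eventually h3, chart_source_mem_nhds P3 (F p)]
    with m a1 a3 hm
  refine ⟨ContinuousAt.comp (g := g) a1.1.continuousAt ((chartAt P3 (F p)).continuousAt hm), ?_,
    a3.trans ((chartAt P3 (F p)).left_inv hm)⟩
  have h4 := hA _ (chart_mem_atlas P3 m) _ (chart_mem_atlas P3 (F p)) m
    ⟨mem_chart_source P3 m, hm⟩
  refine ContactAt.comp (g := g) ?_ h4
  rwa [(chartAt P3 m).left_inv (mem_chart_source P3 m)]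

theorem loc_aux_core {r : ℝ} (hr : 0 < r) (x : ℝ) : ((x, 0, 0) : P3) ∈ tube r := by
  simp only [tube, mem_ofPred_eq]
  nlinarith

theorem loc_aux_polar {r ρ : ℝ} (h0 : 0 < ρ) (h1 : ρ < r) (x a : ℝ) :
    ((x, ρ * Real.cos a, ρ * Real.sin a) : P3) ∈ tube r := by
  simp only [tube, mem_ofPred_eq]
  have h2 : (ρ * Real.cos a) ^ 2 + (ρ * Real.sin a) ^ 2 = ρ ^ 2 := by
    linear_combination ρ ^ 2 * Real.cos_sq_add_sin_sq a
  rw [h2]
  exact pow_lt_pow_left₀ h1 h0.le two_ne_zero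

theorem loc_aux_off {X : Type} {f : P3 → X} {r ρ : ℝ} (hf : TubeMap f r) (h0 : 0 < ρ) (h1 : ρ < r)
    (x a x' : ℝ) : f (x', 0, 0) ≠ f (x, ρ * Real.cos a, ρ * Real.sin a) := by
  intro h
  have h2 := (hf.2 _ (loc_aux_core (h0.trans h1) x') _ (loc_aux_polar h0 h1 x a) h).1
  have h3 : 0 = ρ * Real.cos a := congrArg Prod.fst h2
  have h4 : 0 = ρ * Real.sin a := congrArg Prod.snd h2
  have h5 : (ρ * Real.cos a) ^ 2 + (ρ * Real.sin a) ^ 2 = ρ ^ 2 := by
    linear_combination ρ ^ 2 * Real.cos_sq_add_sin_sq a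
  rw [← h3, ← h4] at h5
  nlinarith

theorem SD.isClosed_core [T2Space M] {K : ℝ → P3} (sd : SD K M) :
    IsClosed (range fun x : ℝ => sd.ns (x, 0, 0)) := by
  have hp : Function.Periodic (fun x : ℝ => sd.ns (x, 0, 0)) 1 := fun x =>
    sd.ns_tube.1 (x, 0, 0)
  have hc : Continuous fun x : ℝ => sd.ns (x, 0, 0) := by
    refine continuous_iff_continuousAt.2 fun x => ?_
    exact ContinuousAt.comp (g := sd.ns) (f := fun x : ℝ => ((x, 0, 0) : P3))
      (sd.ns_ct _ (loc_aux_core sd.r_pos x)).1 (by fun_prop)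
  exact (hp.compact_of_continuous one_ne_zero hc).isClosed

theorem SD.continuousAt_th {K : ℝ → P3} (sd : SD K M) {m : M}
    (hm : m ∉ range fun x : ℝ => sd.ns (x, 0, 0)) : ContinuousAt sd.th m := by
  have h1 := ContinuousAt.comp (sd.th_ct m hm).1.continuousAt
    ((chartAt P3 m).continuousAt (mem_chart_source P3 m))
  refine h1.congr ?_
  filter_upwards [chart_source_mem_nhds P3 m] with q hq
  simp only [Function.comp]
  rw [(chartAt P3 m).left_inv hq]

theorem SD.psi_cai {K : ℝ → P3} (sd : SD K M) {m : M}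
    (hm : m ∉ range fun x : ℝ => sd.ns (x, 0, 0)) (h : m ≠ sd.minf) :
    cai (sd.th m) ∉ range K ∧ sd.psi (cai (sd.th m)) = m := by
  have h1 := sd.th_bij.1 hm
  have h2 : sd.th m ≠ pole := fun h3 =>
    h (sd.th_bij.2.1 hm sd.minf_not (h3.trans sd.th_minf.symm))
  have h3 := cay_cai h1.1 h2
  have h4 : cai (sd.th m) ∉ range K := by
    rintro ⟨t, ht⟩
    exact h1.2 ⟨t, by simp only [ht, h3]⟩
  exact ⟨h4, sd.th_bij.2.1 (sd.psi_not _ h4) hm ((sd.th_psi _ h4).trans h3)⟩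

theorem SD.psi_ne {K : ℝ → P3} (sd : SD K M) {p : P3} (hp : p ∉ range K) :
    sd.psi p ≠ sd.minf := fun h =>
  cay_ne_pole p (by rw [← sd.th_psi p hp, h, sd.th_minf])

/-- the gluing relation read in `M` -/
theorem SD.ns_eq {K : ℝ → P3} (sd : SD K M) {x a ρ : ℝ} (h0 : 0 < ρ) (h1 : ρ < sd.r') :
    sd.nu (x + sd.A a, ρ * Real.exp (sd.B a) * Real.cos a, ρ * Real.exp (sd.B a) * Real.sin a) ∉
        range K ∧
      sd.ns (x, ρ * Real.cos a, ρ * Real.sin a) = sd.psi (sd.nu (x + sd.A a,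
        ρ * Real.exp (sd.B a) * Real.cos a, ρ * Real.exp (sd.B a) * Real.sin a)) := by
  have he := Real.exp_pos (sd.B a)
  have h2 : ρ * Real.exp (sd.B a) < sd.r :=
    (mul_lt_mul_of_pos_right h1 he).trans_le (sd.B_le a)
  have h3 : sd.nu (x + sd.A a, ρ * Real.exp (sd.B a) * Real.cos a,
      ρ * Real.exp (sd.B a) * Real.sin a) ∉ range K := by
    rintro ⟨t, ht⟩
    exact loc_aux_off sd.nu_tube (mul_pos h0 he) h2 _ a t ((sd.nu_core t).trans ht)
  have h4 : sd.ns (x, ρ * Real.cos a, ρ * Real.sin a) ∉ range fun x : ℝ => sd.ns (x, 0, 0) := by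
    rintro ⟨t, ht⟩
    exact loc_aux_off sd.ns_tube h0 (h1.trans_le sd.r'_le) x a t ht
  exact ⟨h3, sd.th_bij.2.1 h4 (sd.psi_not _ h3) ((sd.glue x a ρ h0 h1).trans
    (sd.th_psi _ h3).symm)⟩

end Mfd

theorem loc_aux_leg {K : ℝ → P3} (hK : IsLeg3 K) : IsLegKnot fun t => cay (K t) := by
  obtain ⟨h1, h2, h3, h4, h5⟩ := hK
  have hd : ∀ t, deriv (fun t => cay (K t)) t = fderiv ℝ cay (K t) (deriv K t) := fun t =>
    ((contDiff_cay.differentiable (by simp) (K t)).hasFDerivAt.comp_hasDerivAt t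
      (h1.differentiable (by simp) t).hasDerivAt).deriv
  refine ⟨contDiff_cay.comp h1, fun t => by simp only [h2], fun t => cay_mem _,
    fun s hs t ht h => h3 hs ht (cay_inj h), fun t h => h4 t ?_, fun t => ?_⟩
  · refine fderiv_cay_inj (K t) ?_
    rw [← hd, h, map_zero]
  · rw [hd, lam_cay, h5, mul_zero]

theorem surg_holds : SurgStmt := by
  intro M _ _ K hK sd
  refine ⟨loc_aux_leg hK, sd.r, fun p => cay (sd.nu p), sd.ns, sd.th, sd.A, sd.B, sd.r_pos,
    ⟨fun p => by simp only [sd.nu_tube.1 p], fun p hp q hq h => sd.nu_tube.2 p hp q hq (cay_inj h)⟩,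
    fun p hp => ⟨cay_mem _, (contactAt4_cay _).comp (sd.nu_ct p hp)⟩,
    fun x => by simp only [sd.nu_core], sd.ns_tube, sd.ns_ct, sd.th_bij, sd.th_ct,
    sd.A_sm.continuous, sd.B_sm.continuous, sd.A_per, sd.B_per, sd.r', sd.r'_pos, sd.glue⟩

end Pool.Agent.Lib.MP_4d7d0a_gt
end

-- part Pool.Agent.Lib.MP_4d7d0a_gt.TBCab
section

/-! The ends of the punctured disc are parallel cables. -/

set_option autoImplicit false

open Set Filter Topology
open scoped ContDiff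

namespace Pool.Agent.Lib.MP_4d7d0a_gt

theorem tbcab_ori (o : Bool) : ∃ c e : ℝ, (e = 1 ∨ e = -1) ∧ ∀ t, ori o t = c + e * t := by
  cases o
  · exact ⟨1, -1, Or.inr rfl, fun t => by simp only [ori, Bool.false_eq_true, if_false]; ring⟩
  · exact ⟨0, 1, Or.inl rfl, fun t => by simp only [ori, if_true]; ring⟩

theorem tbcab_pol_per (ρ τ : ℝ) : pol ρ (2 * Real.pi * (τ + 1)) = pol ρ (2 * Real.pi * τ) := by
  have h : 2 * Real.pi * (τ + 1) = 2 * Real.pi * τ + 2 * Real.pi := by ring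
  simp only [pol, h, Real.cos_add_two_pi, Real.sin_add_two_pi]

theorem tbcab_ev {P : P2 → Prop} (h : ∀ᶠ w in 𝓝 (0 : P2), P w) :
    ∀ᶠ ρ : ℝ in 𝓝[>] 0, ∀ a, P (pol ρ a) := by
  obtain ⟨ε, hε, hP⟩ := Metric.eventually_nhds_iff_ball.1 h
  filter_upwards [Ioo_mem_nhdsGT hε] with ρ hρ a
  refine hP _ (mem_ball_zero_iff.2 ((norm_pol_le ρ a).trans_lt ?_))
  rw [abs_of_pos hρ.1]
  exact hρ.2

theorem tbcab_nbhd {K : ℝ → P3} {nu : P3 → P3} {A B : ℝ → ℝ} {r : ℝ} (hD : TubeD K nu A B r)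
    {O : Set P3} (hO : IsOpen O) (hK : range K ⊆ O) :
    ∃ r' : ℝ, 0 < r' ∧ r' ≤ r ∧ ∀ x ρ a : ℝ, 0 < ρ → ρ < r' → nu (x, pol ρ a) ∈ O := by
  have hW : IsOpen (tube r ∩ nu ⁻¹' O) :=
    ContinuousOn.isOpen_inter_preimage
      (fun p hp => (hD.ct p hp).1.continuousAt.continuousWithinAt) (isOpen_tube r) hO
  have hsub : (Icc (0 : ℝ) 1) ×ˢ ({0} : Set (ℝ × ℝ)) ⊆ tube r ∩ nu ⁻¹' O := by
    rintro ⟨x, w⟩ ⟨-, hw⟩
    obtain rfl : w = 0 := hw
    exact ⟨loc_aux_core hD.r_pos x, hK ⟨x, (hD.core x).symm⟩⟩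
  obtain ⟨u, v, -, hv, hu, hv0, huv⟩ :=
    generalized_tube_lemma isCompact_Icc isCompact_singleton hW hsub
  obtain ⟨ε, hε, hb⟩ := Metric.isOpen_iff.1 hv 0 (hv0 rfl)
  refine ⟨min ε r, lt_min hε hD.r_pos, min_le_right _ _, fun x ρ a h0 h1 => ?_⟩
  have hp : Function.Periodic (fun x : ℝ => nu (x, pol ρ a)) 1 := fun x => hD.inj.1 (x, pol ρ a)
  obtain ⟨y, hy, e⟩ := hp.exists_mem_Ico₀ one_pos x
  have hm : pol ρ a ∈ v := by
    refine hb (mem_ball_zero_iff.2 ((norm_pol_le ρ a).trans_lt ?_))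
    rw [abs_of_pos h0]
    exact h1.trans_le (min_le_left _ _)
  have h2 : nu (y, pol ρ a) ∈ O := (huv (mk_mem_prod (hu (Ico_subset_Icc_self hy)) hm)).2
  exact e ▸ h2

theorem tbcab_sep {x y g g' s : ℝ}
    (hg : |g - x| < min |x - y| (1 - |x - y|) / 2) (hg' : |g' - y| < min |x - y| (1 - |x - y|) / 2)
    (hs : s ∈ Icc (0 : ℝ) 1) (k : ℤ) : x + (1 - s) * (g - x) ≠ y + (1 - s) * (g' - y) + k := by
  intro h
  have h1 : |(1 - s) * ((g - x) - (g' - y))| < min |x - y| (1 - |x - y|) := by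
    rw [abs_mul, abs_of_nonneg (by linarith [hs.2] : 0 ≤ 1 - s)]
    have h2 : |(g - x) - (g' - y)| ≤ |g - x| + |g' - y| := abs_sub _ _
    have h3 := abs_nonneg ((g - x) - (g' - y))
    nlinarith [hs.1]
  have h4 : (k : ℝ) = (x - y) + (1 - s) * ((g - x) - (g' - y)) := by linarith
  have h5 : |(k : ℝ)| < 1 := by
    rw [h4]
    have := abs_add_le (x - y) ((1 - s) * ((g - x) - (g' - y)))
    linarith [min_le_right |x - y| (1 - |x - y|)]
  have h6 : k = 0 := by
    have : |k| < 1 := by exact_mod_cast h5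
    exact Int.abs_lt_one_iff.1 this
  have h7 : x - y = -((1 - s) * ((g - x) - (g' - y))) := by
    rw [h6, Int.cast_zero] at h4
    linarith
  have h8 : |x - y| = |(1 - s) * ((g - x) - (g' - y))| := by rw [h7, abs_neg]
  linarith [min_le_left |x - y| (1 - |x - y|)]

/-- the velocity of a curve turning about the core does not vanish -/
theorem tbcab_ne {X R : ℝ → ℝ} {c e t : ℝ} {v : P3} (he : e ≠ 0) (hR : DifferentiableAt ℝ R t)
    (h0 : 0 < R t) (h : HasDerivAt (fun t => ((X t, pol (R t) (2 * Real.pi * (c + e * t))) : P3)) v t) :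
    v ≠ 0 := by
  rintro rfl
  have ha : HasDerivAt (fun t : ℝ => 2 * Real.pi * (c + e * t)) (2 * Real.pi * (e * 1)) t :=
    (((hasDerivAt_id' t).const_mul e).const_add c).const_mul _
  have hy := (hR.hasDerivAt.mul ha.cos).unique
    ((ContinuousLinearMap.fst ℝ ℝ ℝ).hasFDerivAt.comp_hasDerivAt t
      ((ContinuousLinearMap.snd ℝ ℝ (ℝ × ℝ)).hasFDerivAt.comp_hasDerivAt t h))
  have hz := (hR.hasDerivAt.mul ha.sin).unique
    ((ContinuousLinearMap.snd ℝ ℝ ℝ).hasFDerivAt.comp_hasDerivAt t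
      ((ContinuousLinearMap.snd ℝ ℝ (ℝ × ℝ)).hasFDerivAt.comp_hasDerivAt t h))
  simp only [map_zero] at hy hz
  have h1 : R t * (2 * Real.pi * (e * 1)) = 0 := by
    have h2 := Real.cos_sq_add_sin_sq (2 * Real.pi * (c + e * t))
    linear_combination Real.cos (2 * Real.pi * (c + e * t)) * hz -
      Real.sin (2 * Real.pi * (c + e * t)) * hy - R t * (2 * Real.pi * (e * 1)) * h2
  have h3 := Real.pi_pos
  rcases mul_eq_zero.1 h1 with h4 | h4
  · exact h0.ne' h4
  · rcases mul_eq_zero.1 h4 with h5 | h5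
    · linarith
    · exact he (by linarith)

theorem tbcab_fam {ι : Type} {K : ℝ → P3} {nu : P3 → P3} {A B : ℝ → ℝ} {r : ℝ}
    (hD : TubeD K nu A B r) (o : ι → Bool) (W : Set P3) (X R : ι → ℝ × ℝ → ℝ)
    (hX : ∀ i, ContDiff ℝ 1 (X i)) (hR : ∀ i, ContDiff ℝ 1 (R i))
    (hR0 : ∀ i, ∀ s ∈ Icc (0 : ℝ) 1, ∀ τ, 0 < R i (s, τ) ∧ R i (s, τ) < r)
    (hXp : ∀ i s τ, X i (s, τ + 1) = X i (s, τ) + 1) (hRp : ∀ i s τ, R i (s, τ + 1) = R i (s, τ))
    (hsep : ∀ i j, i ≠ j → ∀ s ∈ Icc (0 : ℝ) 1, ∀ τ, ∀ k : ℤ, X i (s, τ) ≠ X j (s, τ) + k)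
    (hW : ∀ i, ∀ s ∈ Icc (0 : ℝ) 1, ∀ τ, nu (X i (s, τ), pol (R i (s, τ)) (2 * Real.pi * τ)) ∈ W) :
    FamE W (1 : Equiv.Perm ι)
      (fun i t => nu (X i (0, ori (o i) t), pol (R i (0, ori (o i) t)) (2 * Real.pi * ori (o i) t)))
      (fun i t => nu (X i (1, ori (o i) t), pol (R i (1, ori (o i) t))
        (2 * Real.pi * ori (o i) t))) := by
  choose c e he hce using fun i => tbcab_ori (o i)
  let q : ι → ℝ × ℝ → P3 := fun i a => (X i (a.1, c i + e i * a.2),
    pol (R i (a.1, c i + e i * a.2)) (2 * Real.pi * (c i + e i * a.2)))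
  have hlin : ∀ i, ContDiff ℝ 1 fun a : ℝ × ℝ => ((a.1, c i + e i * a.2) : ℝ × ℝ) := fun i => by
    fun_prop
  have hq : ∀ i, ContDiff ℝ 1 (q i) := fun i =>
    ((hX i).comp (hlin i)).prodMk ((contDiff_pol.of_le (by exact_mod_cast le_top)).comp
      (((hR i).comp (hlin i)).prodMk (by fun_prop)))
  have hqt : ∀ i, ∀ s ∈ Icc (0 : ℝ) 1, ∀ t, q i (s, t) ∈ tube r := fun i s hs t =>
    loc_aux_polar (hR0 i s hs _).1 (hR0 i s hs _).2 _ _
  have hF : ∀ i, ∀ s ∈ Icc (0 : ℝ) 1, ∀ t, ContDiffAt ℝ 1 (fun a => nu (q i a)) (s, t) :=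
    fun i s hs t => ((hD.ct _ (hqt i s hs t)).1.of_le (by exact_mod_cast le_top)).comp (s, t)
      (hq i).contDiffAt
  have hline : ∀ s t : ℝ, HasDerivAt (fun t : ℝ => ((s, t) : ℝ × ℝ)) (0, 1) t := fun s t =>
    (hasDerivAt_const t s).prodMk (hasDerivAt_id' t)
  let d : ℝ → ι → ℝ → P3 := fun s i t => fderiv ℝ (fun a => nu (q i a)) (s, t) (0, 1)
  have hd : ∀ i, ∀ s ∈ Icc (0 : ℝ) 1, ∀ t, HasDerivAt (fun t => nu (q i (s, t))) (d s i t) t :=
    fun i s hs t =>
      ((hF i s hs t).differentiableAt one_ne_zero).hasFDerivAt.comp_hasDerivAt t (hline s t)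
  have hper : ∀ i s τ, nu (X i (s, τ + 1), pol (R i (s, τ + 1)) (2 * Real.pi * (τ + 1))) =
      nu (X i (s, τ), pol (R i (s, τ)) (2 * Real.pi * τ)) := by
    intro i s τ
    rw [hXp, hRp, tbcab_pol_per]
    exact hD.inj.1 (X i (s, τ), pol (R i (s, τ)) (2 * Real.pi * τ))
  have hqp : ∀ i s t, nu (q i (s, t + 1)) = nu (q i (s, t)) := by
    intro i s t
    rcases he i with h | h
    · have h1 : c i + e i * (t + 1) = c i + e i * t + 1 := by rw [h]; ring
      simp only [q, h1]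
      exact hper i s _
    · have h1 : c i + e i * t = c i + e i * (t + 1) + 1 := by rw [h]; ring
      simp only [q, h1]
      exact (hper i s _).symm
  have hne : ∀ i, ∀ s ∈ Icc (0 : ℝ) 1, ∀ t, d s i t ≠ 0 := by
    intro i s hs t h0
    have h1 : HasDerivAt (fun t => q i (s, t)) (fderiv ℝ (q i) (s, t) (0, 1)) t :=
      ((hq i).differentiable one_ne_zero (s, t)).hasFDerivAt.comp_hasDerivAt t (hline s t)
    have h2 := ((hD.ct _ (hqt i s hs t)).1.differentiableAt (by simp)).hasFDerivAt.comp_hasDerivAt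
      t h1
    have h3 := h2.unique (hd i s hs t)
    rw [h0] at h3
    have h4 : Function.Injective (fderiv ℝ nu (q i (s, t))) :=
      fderiv_inj_of_contact (by
        filter_upwards [(isOpen_tube r).mem_nhds (hqt i s hs t)] with p hp using hD.ct p hp)
    have h5 : fderiv ℝ (q i) (s, t) (0, 1) = 0 := h4 (by rw [h3, map_zero])
    have he0 : e i ≠ 0 := by rcases he i with h | h <;> rw [h] <;> norm_num
    have hRd : DifferentiableAt ℝ (fun t => R i (s, c i + e i * t)) t :=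
      ((hR i).differentiable one_ne_zero _).comp t (by fun_prop)
    exact tbcab_ne (X := fun t => X i (s, c i + e i * t)) he0 hRd (hR0 i s hs _).1 h1 h5
  have hdc : ∀ i, ∀ s ∈ Icc (0 : ℝ) 1, ∀ t,
      ContinuousAt (fun a : ℝ × ℝ => d a.1 i a.2) (s, t) := fun i s hs t =>
    ((hF i s hs t).fderiv_right (m := 0) (by norm_num)).continuousAt.clm_apply continuousAt_const
  have hd1 : ∀ i, ∀ s ∈ Icc (0 : ℝ) 1, d s i 1 = d s i 0 := by
    intro i s hs
    have h1 := hd i s hs (0 + 1)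
    have h2 := h1.comp_add_const 0 1
    simp only [hqp] at h2
    rw [zero_add] at h2
    exact h2.unique (hd i s hs 0)
  have hXk : ∀ i s τ, ∀ k : ℤ, X i (s, τ + k) = X i (s, τ) + k := by
    intro i s τ k
    have hp : Function.Periodic (fun τ : ℝ => X i (s, τ) - τ) 1 := fun τ => by
      simp only [hXp]
      ring
    have h1 := hp.int_mul k τ
    simp only [mul_one] at h1
    linarith
  refine ⟨fun s i t => nu (q i (s, t)), d, fun s hs => ⟨fun i u _ =>
    ⟨(hd i s hs u).hasDerivWithinAt, hne i s hs u⟩, fun i u _ => ?_, fun i => ?_,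
    fun i ρ hρ h => ?_, fun i j u hu u' hu' h => ?_⟩, fun i a ha => ?_, fun i a ha => ?_,
    fun s hs i u _ => hW i s hs _, fun i u _ => ?_, fun i u _ => ?_⟩
  · exact (ContinuousAt.comp (f := fun t : ℝ => ((s, t) : ℝ × ℝ)) (hdc i s hs u)
      (by fun_prop)).continuousWithinAt
  · have h1 := hqp i s 0
    rw [zero_add] at h1
    exact h1
  · change d s i 1 = -(ρ • d s i 0) at h
    rw [hd1 i s hs] at h
    have h1 : (1 + ρ) • d s i 0 = 0 := by
      rw [add_smul, one_smul]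
      exact eq_neg_iff_add_eq_zero.1 h
    exact hne i s hs 0 ((smul_eq_zero.1 h1).resolve_left (by linarith))
  · obtain ⟨h1, k, h2⟩ := hD.inj.2 _ (hqt i s hs u) _ (hqt j s hs u') h
    obtain ⟨-, m, h3⟩ := pol_inj (hR0 i s hs _).1 (hR0 j s hs _).1 h1
    have h4 : c i + e i * u = c j + e j * u' + m := by
      have h5 : 2 * Real.pi * (c i + e i * u) = 2 * Real.pi * (c j + e j * u' + m) := by
        rw [h3]; ring
      exact mul_left_cancel₀ (by positivity) h5
    have hij : i = j := by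
      by_contra hij
      refine hsep i j hij s hs (c j + e j * u') (k - m) ?_
      change X i (s, c i + e i * u) = X j (s, c j + e j * u') + k at h2
      rw [h4, hXk] at h2
      push_cast
      linarith
    subst hij
    refine ⟨rfl, ?_⟩
    have h6 : |(m : ℝ)| < 1 := by
      rw [abs_lt]
      rcases he i with h7 | h7 <;> rw [h7] at h4 <;> constructor <;>
        linarith [hu.1, hu.2, hu'.1, hu'.2]
    have h8 : m = 0 := by
      have : |m| < 1 := by exact_mod_cast h6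
      exact Int.abs_lt_one_iff.1 this
    rw [h8, Int.cast_zero] at h4
    rcases he i with h7 | h7 <;> rw [h7] at h4 <;> linarith
  · exact (hF i a.1 ha.1 a.2).continuousAt.continuousWithinAt
  · exact (hdc i a.1 ha.1 a.2).continuousWithinAt
  · simp only [q, hce]
  · simp only [q, hce]

theorem fam_cab {K : ℝ → P3} {nu : P3 → P3} {A B : ℝ → ℝ} {r : ℝ} (hD : TubeD K nu A B r)
    (S : Surf K nu A B) (o : Fin S.k → Bool) {O : Set P3} (hO : IsOpen O) (hK : range K ⊆ O) :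
    ∀ᶠ ρ : ℝ in 𝓝[>] 0, FamE (O \ range K) (1 : Equiv.Perm (Fin S.k))
      (fun i t => S.h (S.β i (pol ρ (2 * Real.pi * ori (o i) t))))
      (fun i t => longi nu (S.g i 0) ρ (ori (o i) t)) := by
  obtain ⟨r', hr0, hr1, hr⟩ := tbcab_nbhd hD hO hK
  have hBp : Function.Periodic B (2 * Real.pi) := hD.B_per
  obtain ⟨M, hM⟩ := (hBp.isBounded_of_continuous (by positivity) hD.B_sm.continuous).exists_norm_le
  have hM' : ∀ a, |B a| ≤ M := fun a => hM _ ⟨a, rfl⟩
  have e1 : ∀ᶠ w in 𝓝 (0 : P2), ∀ i, ContDiffAt ℝ 1 (S.g i) w :=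
    eventually_all.2 fun i =>
      ((S.g_sm i).of_le (by exact_mod_cast le_top : (1 : WithTop ℕ∞) ≤ ∞)).eventually (by simp)
  have e0 : ∀ i, ∀ δ : ℝ, 0 < δ → ∀ᶠ w in 𝓝 (0 : P2), |S.g i w - S.g i 0| < δ := fun i δ hδ =>
    Metric.tendsto_nhds.1 (S.g_sm i).continuousAt δ hδ
  have e2 : ∀ᶠ w in 𝓝 (0 : P2), ∀ i j, i ≠ j → ∀ s ∈ Icc (0 : ℝ) 1, ∀ k : ℤ,
      S.g i 0 + (1 - s) * (S.g i w - S.g i 0) ≠ S.g j 0 + (1 - s) * (S.g j w - S.g j 0) + k := by
    refine eventually_all.2 fun i => eventually_all.2 fun j => ?_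
    by_cases hij : i = j
    · exact Eventually.of_forall fun _ h => absurd hij h
    have h1 : 0 < |S.g i 0 - S.g j 0| := abs_pos.2 (sub_ne_zero.2 fun h => hij (S.g_inj h))
    have h2 : |S.g i 0 - S.g j 0| < 1 := by
      rw [abs_lt]
      constructor <;> linarith [(S.g_mem i).1, (S.g_mem i).2, (S.g_mem j).1, (S.g_mem j).2]
    have h3 : 0 < min |S.g i 0 - S.g j 0| (1 - |S.g i 0 - S.g j 0|) / 2 :=
      half_pos (lt_min h1 (by linarith))
    filter_upwards [e0 i _ h3, e0 j _ h3] with w a1 a2 _ s hs k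
    exact tbcab_sep a1 a2 hs k
  filter_upwards [tbcab_ev e1, tbcab_ev e2, eventually_all.2 S.loc,
    Ioo_mem_nhdsGT (div_pos hr0 (Real.exp_pos M))] with ρ a1 a2 a3 a4
  have hρ : ρ * Real.exp M < r' := (lt_div_iff₀ (Real.exp_pos M)).1 a4.2
  have hRb : ∀ s ∈ Icc (0 : ℝ) 1, ∀ a, 0 < ρ * Real.exp ((1 - s) * B a) ∧
      ρ * Real.exp ((1 - s) * B a) < r' := by
    intro s hs a
    refine ⟨mul_pos a4.1 (Real.exp_pos _), lt_of_le_of_lt ?_ hρ⟩
    refine mul_le_mul_of_nonneg_left (Real.exp_le_exp.2 ?_) a4.1.le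
    have h1 := abs_le.1 (hM' a)
    have h2 := abs_nonneg (B a)
    have h3 := hM' a
    nlinarith [hs.1, hs.2]
  have hang : ContDiff ℝ 1 fun a : ℝ × ℝ => 2 * Real.pi * a.2 := by fun_prop
  have hle : (1 : WithTop ℕ∞) ≤ ∞ := by exact_mod_cast le_top
  have hg : ∀ i, ContDiff ℝ 1 fun a : ℝ × ℝ => S.g i (pol ρ (2 * Real.pi * a.2)) := fun i =>
    contDiff_iff_contDiffAt.2 fun a => ContDiffAt.comp (g := S.g i) a (a1 _ i)
      ((contDiff_pol.of_le hle).comp (contDiff_const.prodMk hang)).contDiffAt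
  have hA : ContDiff ℝ 1 fun a : ℝ × ℝ => A (2 * Real.pi * a.2) := (hD.A_sm.of_le hle).comp hang
  have hB : ContDiff ℝ 1 fun a : ℝ × ℝ => B (2 * Real.pi * a.2) := (hD.B_sm.of_le hle).comp hang
  have hadd : ∀ τ : ℝ, 2 * Real.pi * (τ + 1) = 2 * Real.pi * τ + 2 * Real.pi := fun τ => by ring
  have key := tbcab_fam hD o (O \ range K)
    (fun i a => S.g i 0 + a.1 * a.2 + (1 - a.1) *
      (A (2 * Real.pi * a.2) + S.g i (pol ρ (2 * Real.pi * a.2)) - S.g i 0))
    (fun _ a => ρ * Real.exp ((1 - a.1) * B (2 * Real.pi * a.2)))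
    (fun i => (contDiff_const.add (contDiff_fst.mul contDiff_snd)).add
      ((contDiff_const.sub contDiff_fst).mul ((hA.add (hg i)).sub contDiff_const)))
    (fun _ => contDiff_const.mul ((contDiff_const.sub contDiff_fst).mul hB).exp)
    (fun _ s hs τ => ⟨(hRb s hs _).1, (hRb s hs _).2.trans_le hr1⟩)
    (fun i s τ => by
      simp only [tbcab_pol_per]
      rw [hadd, hD.A_per]
      ring)
    (fun _ s τ => by
      simp only [hadd, hD.B_per])
    (fun i j hij s hs τ k h => a2 (2 * Real.pi * τ) i j hij s hs k (by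
      simp only at h
      linarith))
    (fun i s hs τ => ⟨hr _ _ _ (hRb s hs _).1 (hRb s hs _).2, fun ⟨t, ht⟩ =>
      loc_aux_off hD.inj (hRb s hs _).1 ((hRb s hs _).2.trans_le hr1) _ _ t
        ((hD.core t).trans ht)⟩)
  refine key.congr (fun i u _ => ?_) fun i u _ => ?_
  · rw [a3 i]
    simp only [pol, sub_zero, one_mul, zero_mul, add_zero]
    congr 2
    ring
  · simp only [longi, pol, sub_self, one_mul, zero_mul, add_zero, Real.exp_zero, mul_one]

end Pool.Agent.Lib.MP_4d7d0a_gt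
end
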