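import Pool.Agent.Lib.MP_4d7d0a_gt.TFP
import Pool.Agent.Lib.MP_4d7d0a_gt.TBCab
import Pool.Agent.Lib.MP_4d7d0a_gt.Flow
import Pool.Agent.Lib.MP_4d7d0a_gt.TB1
import Pool.Agent.Lib.MP_4d7d0a_gt.DExt

-- part Pool.Agent.Lib.MP_4d7d0a_gt.TFQ
section

/-! A functor on a punctured round disc that kills one circle has a potential. -/

set_option autoImplicit false

open Set Filter Topology
open scoped ContDiff

namespace Pool.Agent.Lib.MP_4d7d0a_gt

/-- the punctured round disc of radius `ρ` -/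
def pdisc (ρ : ℝ) : Set P2 := {w | w.1 ^ 2 + w.2 ^ 2 < ρ ^ 2} \ {0}

namespace TFQAux

/-- the convex cover -/
def cov (ρ : ℝ) : Set P2 := Ioo 0 ρ ×ˢ univ

theorem cov_convex (ρ : ℝ) : Convex ℝ (cov ρ) := (convex_Ioo 0 ρ).prod convex_univ

/-- the covering map -/
noncomputable def pm (q : P2) : P2 := pol q.1 q.2

theorem pm_cont : Continuous pm := by
  unfold pm pol
  fun_prop

theorem pm_sq (q : P2) : (pm q).1 ^ 2 + (pm q).2 ^ 2 = q.1 ^ 2 := by
  unfold pm pol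
  have := Real.sin_sq_add_cos_sq q.2
  simp only
  linear_combination q.1 ^ 2 * this

theorem pm_maps (ρ : ℝ) : MapsTo pm (cov ρ) (pdisc ρ) := by
  intro q hq
  obtain ⟨⟨h0, h1⟩, -⟩ := hq
  have h2 := pm_sq q
  refine ⟨?_, fun h => ?_⟩
  · show (pm q).1 ^ 2 + (pm q).2 ^ 2 < ρ ^ 2
    nlinarith
  · rw [mem_singleton_iff.1 h] at h2
    simp only [Prod.fst_zero, Prod.snd_zero] at h2
    nlinarith

theorem pm_inj {q q' : P2} (h : 0 < q.1) (h' : 0 < q'.1) (e : pm q = pm q') :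
    ∃ k : ℤ, q = (q'.1, q'.2 + 2 * Real.pi * k) := by
  have h1 := pm_sq q
  have h2 := pm_sq q'
  rw [e] at h1
  have h3 : q.1 = q'.1 := by nlinarith
  have e1 : q.1 * Real.cos q.2 = q'.1 * Real.cos q'.2 := congrArg Prod.fst e
  have e2 : q.1 * Real.sin q.2 = q'.1 * Real.sin q'.2 := congrArg Prod.snd e
  rw [h3] at e1 e2
  have h4 := Real.Angle.cos_sin_inj (mul_left_cancel₀ h'.ne' e1) (mul_left_cancel₀ h'.ne' e2)
  obtain ⟨k, hk⟩ := Real.Angle.angle_eq_iff_two_pi_dvd_sub.1 h4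
  exact ⟨k, Prod.ext h3 (by simp only; linarith)⟩

/-- the segment -/
def seg (p q : P2) (t : ℝ) : P2 := p + t • (q - p)

theorem seg_path {ρ : ℝ} {p q : P2} (hp : p ∈ cov ρ) (hq : q ∈ cov ρ) :
    IsPath (cov ρ) (seg p q) := by
  refine ⟨Continuous.continuousOn (by unfold seg; fun_prop), fun t ht => ?_⟩
  exact (cov_convex ρ).add_smul_sub_mem hp hq ht

theorem seg_zero (p q : P2) : seg p q 0 = p := by simp [seg]

theorem seg_one (p q : P2) : seg p q 1 = q := by simp [seg]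

variable {G : Type} [Group G] {ρ : ℝ}

theorem up_pot (F : PathFun (cov ρ) G) {p : P2} (hp : p ∈ cov ρ) {c : ℝ → P2}
    (hc : IsPath (cov ρ) c) : F.F c = (F.F (seg p (c 0)))⁻¹ * F.F (seg p (c 1)) := by
  have h0 : c 0 ∈ cov ρ := hc.2 ⟨le_rfl, zero_le_one⟩
  have h1 : c 1 ∈ cov ρ := hc.2 ⟨zero_le_one, le_rfl⟩
  have e1 := F.cat_eq (seg_path hp h0) hc (seg_one _ _)
  have e2 := F.conv (cov_convex ρ) (f := fun q => q) continuousOn_id (mapsTo_id _)
    (PathFun.isPath_cat (seg_path hp h0) hc (seg_one _ _)) (seg_path hp h1)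
    (by simp [cat, seg_zero]) (by norm_num [cat, seg_one])
  rw [← e2]
  change F.F c = _ * F.F (cat (seg p (c 0)) c)
  rw [e1, inv_mul_cancel_left]

/-- the complex number of a point -/
def cx (w : P2) : ℂ := ⟨w.1, w.2⟩

theorem cx_cont : Continuous cx := by
  have : cx = fun w : P2 => Complex.equivRealProdCLM.symm w := by
    funext w
    apply Complex.ext <;> simp [cx]
  rw [this]
  exact Complex.equivRealProdCLM.symm.continuous

theorem cx_mem (h : 0 < ρ) {w : P2} (hw : w ∈ pdisc ρ) (a : ℝ) :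
    cx w ≠ 0 ∧ ((‖cx w‖, a) : P2) ∈ cov ρ := by
  have h0 : cx w ≠ 0 := fun e => hw.2 (Prod.ext (congrArg Complex.re e) (congrArg Complex.im e))
  refine ⟨h0, ⟨norm_pos_iff.2 h0, ?_⟩, trivial⟩
  have h1 : ‖cx w‖ ^ 2 = w.1 ^ 2 + w.2 ^ 2 := by
    rw [Complex.sq_norm, Complex.normSq_apply]
    simp only [cx]
    ring
  have h2 : w.1 ^ 2 + w.2 ^ 2 < ρ ^ 2 := hw.1
  exact lt_of_pow_lt_pow_left₀ 2 h.le (by rw [h1]; exact h2)

theorem pm_arg (w : P2) : pm (‖cx w‖, Complex.arg (cx w)) = w :=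
  Prod.ext (Complex.norm_mul_cos_arg _) (Complex.norm_mul_sin_arg _)

theorem pm_arg' (w : P2) : pm (‖cx w‖, Complex.arg (-cx w) + Real.pi) = w := by
  have h1 := Complex.norm_mul_cos_arg (-cx w)
  have h2 := Complex.norm_mul_sin_arg (-cx w)
  rw [norm_neg] at h1 h2
  refine Prod.ext ?_ ?_
  · show ‖cx w‖ * Real.cos (Complex.arg (-cx w) + Real.pi) = w.1
    rw [Real.cos_add_pi, mul_neg, h1]
    simp [cx]
  · show ‖cx w‖ * Real.sin (Complex.arg (-cx w) + Real.pi) = w.2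
    rw [Real.sin_add_pi, mul_neg, h2]
    simp [cx]

/-- local sections of the covering map -/
theorem loc_sec (h : 0 < ρ) {x : P2} (hx : x ∈ pdisc ρ) : ∃ U ∈ 𝓝 x, ∃ s : P2 → P2,
    ContinuousOn s U ∧ ∀ w ∈ pdisc ρ, s w ∈ cov ρ ∧ pm (s w) = w := by
  rcases Complex.mem_slitPlane_or_neg_mem_slitPlane (cx_mem h hx 0).1 with h1 | h1
  · refine ⟨cx ⁻¹' Complex.slitPlane,
      (Complex.isOpen_slitPlane.preimage cx_cont).mem_nhds h1,
      fun w => (‖cx w‖, Complex.arg (cx w)), fun w hw => ?_,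
      fun w hw => ⟨(cx_mem h hw _).2, pm_arg w⟩⟩
    exact (cx_cont.norm.continuousAt.prodMk
      ((Complex.continuousAt_arg hw).comp cx_cont.continuousAt)).continuousWithinAt
  · refine ⟨(fun w => -cx w) ⁻¹' Complex.slitPlane,
      (Complex.isOpen_slitPlane.preimage cx_cont.neg).mem_nhds h1,
      fun w => (‖cx w‖, Complex.arg (-cx w) + Real.pi), fun w hw => ?_,
      fun w hw => ⟨(cx_mem h hw _).2, pm_arg' w⟩⟩
    have h2 : ContinuousAt (fun w => Complex.arg (-cx w)) w :=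
      ContinuousAt.comp (f := fun w => -cx w) (Complex.continuousAt_arg hw)
        cx_cont.neg.continuousAt
    exact (cx_cont.norm.continuousAt.prodMk (h2.add continuousAt_const)).continuousWithinAt

end TFQAux

open TFQAux in
theorem punct_pot {G : Type} [Group G] {ρ ρ₁ : ℝ} (h0 : 0 < ρ₁) (h1 : ρ₁ < ρ)
    (F : PathFun (pdisc ρ) G) (hF : F.F (fun t => pol ρ₁ (2 * Real.pi * t)) = 1) :
    ∃ ψ : P2 → G, ∀ c, IsPath (pdisc ρ) c → F.F c = (ψ (c 0))⁻¹ * ψ (c 1) := by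
  have hρ : 0 < ρ := h0.trans h1
  obtain ⟨F', hF'⟩ := F.exists_comap (S' := cov ρ) pm_cont.continuousOn (pm_maps ρ)
  have hp : ∀ a : ℝ, ((ρ₁, a) : P2) ∈ cov ρ := fun a => ⟨⟨h0, h1⟩, trivial⟩
  set φ : P2 → G := fun q => F'.F (seg (ρ₁, 0) q) with hφ
  have step : ∀ q ∈ cov ρ, φ (q.1, q.2 + 2 * Real.pi) = φ q := by
    intro q hq
    have hq' : ((q.1, q.2 + 2 * Real.pi) : P2) ∈ cov ρ := ⟨hq.1, trivial⟩
    have e1 := up_pot F' (hp 0) (seg_path (hp (2 * Real.pi)) hq')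
    rw [seg_zero, seg_one] at e1
    have e2 : F'.F (seg (ρ₁, 0) (ρ₁, 2 * Real.pi)) = 1 := by
      rw [hF', ← hF]
      congr 1
      funext t
      simp [pm, seg, mul_comm]
    have e3 : F'.F (seg (ρ₁, 2 * Real.pi) (q.1, q.2 + 2 * Real.pi)) = φ q := by
      simp only [hφ, hF']
      congr 1
      funext t
      have : 2 * Real.pi + t * q.2 = t * q.2 + 2 * Real.pi := add_comm _ _
      simp [pm, seg, pol, this]
    rw [e2, e3, inv_one, one_mul] at e1
    exact e1.symm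
  have stepZ : ∀ (k : ℤ), ∀ q ∈ cov ρ, φ (q.1, q.2 + 2 * Real.pi * k) = φ q := by
    intro k q hq
    induction k using Int.induction_on with
    | zero => simp
    | succ n ih =>
      rw [← ih, ← step (q.1, q.2 + 2 * Real.pi * (n : ℤ)) ⟨hq.1, trivial⟩]
      congr 2
      push_cast
      ring
    | pred n ih =>
      rw [← ih, ← step (q.1, q.2 + 2 * Real.pi * ((-(n : ℤ) - 1 : ℤ) : ℝ)) ⟨hq.1, trivial⟩]
      congr 2
      push_cast
      ring
  have wd : ∀ q ∈ cov ρ, ∀ q' ∈ cov ρ, pm q = pm q' → φ q = φ q' := by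
    intro q hq q' hq' e
    obtain ⟨k, rfl⟩ := pm_inj hq.1.1 hq'.1.1 e
    exact stepZ k q' hq'
  refine ⟨fun w => φ (‖cx w‖, Complex.arg (cx w)), fun c hc => ?_⟩
  have key := F.gen ⊥ (fun w => (φ (‖cx w‖, Complex.arg (cx w)))⁻¹) (fun x hx => ?_) hc
  · rw [Subgroup.mem_bot, inv_inv, mul_inv_eq_one] at key
    exact eq_inv_mul_iff_mul_eq.2 key
  · obtain ⟨U, hU, s, hs, hs'⟩ := loc_sec hρ hx
    refine ⟨U, hU, fun c hc => ?_⟩
    have hc' : IsPath (cov ρ) fun t => s (c t) :=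
      ⟨hs.comp hc.1 fun t ht => (hc.2 ht).2, fun t ht => (hs' _ (hc.2 ht).1).1⟩
    have e1 := up_pot F' (hp 0) hc'
    have e2 : F'.F (fun t => s (c t)) = F.F c := by
      rw [hF']
      exact F.congr ⟨hc.1, fun t ht => (hc.2 ht).1⟩ fun t ht => (hs' _ (hc.2 ht).1).2
    have e3 : ∀ t ∈ Icc (0 : ℝ) 1, φ (‖cx (c t)‖, Complex.arg (cx (c t))) = φ (s (c t)) :=
      fun t ht => wd _ (cx_mem hρ (hc.2 ht).1 _).2 _ (hs' _ (hc.2 ht).1).1
        ((pm_arg _).trans (hs' _ (hc.2 ht).1).2.symm)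
    rw [Subgroup.mem_bot, inv_inv, e3 0 ⟨le_rfl, zero_le_one⟩, e3 1 ⟨zero_le_one, le_rfl⟩, ← e2, e1]
    simp [hφ]

end Pool.Agent.Lib.MP_4d7d0a_gt
end

-- part Pool.Agent.Lib.MP_4d7d0a_gt.TFB
section

/-! Loops in a punctured convex set. -/

set_option autoImplicit false

open Set Filter Topology
open scoped ContDiff

namespace Pool.Agent.Lib.MP_4d7d0a_gt

theorem tfb_chart {β : P2 → P2} (hs : ContDiffAt ℝ ∞ β 0)
    (hi : Function.Injective (fderiv ℝ β 0)) :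
    ∃ e : OpenPartialHomeomorph P2 P2, (e : P2 → P2) = β ∧ (0 : P2) ∈ e.source := by
  let f' : P2 ≃L[ℝ] P2 :=
    (LinearEquiv.ofInjectiveEndo (fderiv ℝ β 0).toLinearMap hi).toContinuousLinearEquiv
  have hd : HasFDerivAt β (f' : P2 →L[ℝ] P2) 0 := by
    have h1 : (f' : P2 →L[ℝ] P2) = fderiv ℝ β 0 := by
      ext1 <;> ext <;> rfl
    rw [h1]
    exact (hs.differentiableAt (by simp)).hasFDerivAt
  exact ⟨hs.toOpenPartialHomeomorph β hd (by simp), rfl,
    hs.mem_toOpenPartialHomeomorph_source hd (by simp)⟩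

theorem tfb_circle {ρ ρ₁ : ℝ} (h0 : 0 < ρ₁) (h1 : ρ₁ < ρ) :
    IsPath (pdisc ρ) fun t => pol ρ₁ (2 * Real.pi * t) := by
  have hq : ∀ a : ℝ, (pol ρ₁ a).1 ^ 2 + (pol ρ₁ a).2 ^ 2 = ρ₁ ^ 2 := by
    intro a
    have := Real.cos_sq_add_sin_sq a
    simp only [pol]
    linear_combination ρ₁ ^ 2 * this
  refine ⟨?_, fun t _ => ⟨?_, fun e => ?_⟩⟩
  · unfold pol
    fun_prop
  · change (pol ρ₁ (2 * Real.pi * t)).1 ^ 2 + (pol ρ₁ (2 * Real.pi * t)).2 ^ 2 < ρ ^ 2
    rw [hq]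
    nlinarith
  · have e' : pol ρ₁ (2 * Real.pi * t) = 0 := e
    have := hq (2 * Real.pi * t)
    rw [e'] at this
    simp only [Prod.fst_zero, Prod.snd_zero] at this
    nlinarith

theorem tfb_local {C : Set P2} {k : ℕ} {u : Fin k → P2} (hu : Function.Injective u) (i : Fin k)
    (hCu : C ∈ 𝓝 (u i)) {β : P2 → P2} (hs : ContDiffAt ℝ ∞ β 0) (h0 : β 0 = u i)
    (hi : Function.Injective (fderiv ℝ β 0)) {G : Type} [Group G] (F : PathFun (C \ range u) G)
    (hF : ∀ᶠ ρ : ℝ in 𝓝[>] 0, IsPath (C \ range u) (fun t => β (pol ρ (2 * Real.pi * t))) →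
      F.F (fun t => β (pol ρ (2 * Real.pi * t))) = 1) :
    ∃ V : Set P2, IsOpen V ∧ u i ∈ V ∧ (∀ j, u j ∈ V → j = i) ∧ ∃ ψ : P2 → G,
      ∀ c, IsPath (C ∩ V ∩ (range u)ᶜ) c → F.F c = (ψ (c 0))⁻¹ * ψ (c 1) := by
  obtain ⟨e, he, h0e⟩ := tfb_chart hs hi
  have hfin : (u '' {j | j ≠ i}).Finite := (Set.toFinite _).image _
  have hN1 : (u '' {j | j ≠ i})ᶜ ∈ 𝓝 (u i) := by
    refine hfin.isClosed.isOpen_compl.mem_nhds ?_
    rintro ⟨j, hj, e⟩
    exact hj (hu e)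
  have hN2 : β ⁻¹' (C ∩ (u '' {j | j ≠ i})ᶜ) ∈ 𝓝 (0 : P2) :=
    hs.continuousAt.preimage_mem_nhds (by rw [h0]; exact inter_mem hCu hN1)
  obtain ⟨ρ, hρ, hball⟩ := Metric.mem_nhds_iff.1 (inter_mem (e.open_source.mem_nhds h0e) hN2)
  set D : Set P2 := {w | w.1 ^ 2 + w.2 ^ 2 < ρ ^ 2} with hD
  have hDo : IsOpen D := isOpen_lt (by fun_prop) continuous_const
  have hDb : D ⊆ Metric.ball 0 ρ := by
    intro w hw
    have hw' : w.1 ^ 2 + w.2 ^ 2 < ρ ^ 2 := hw
    rw [mem_ball_zero_iff, Prod.norm_def, max_lt_iff, Real.norm_eq_abs, Real.norm_eq_abs]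
    exact ⟨abs_lt_of_sq_lt_sq (by nlinarith [sq_nonneg w.2]) hρ.le,
      abs_lt_of_sq_lt_sq (by nlinarith [sq_nonneg w.1]) hρ.le⟩
  have hDs : D ⊆ e.source := fun w hw => (hball (hDb hw)).1
  have hD0 : (0 : P2) ∈ D := by
    change (0 : ℝ) ^ 2 + (0 : ℝ) ^ 2 < ρ ^ 2
    nlinarith
  have hoth : ∀ w ∈ D, ∀ j, β w = u j → j = i := by
    intro w hw j hj
    by_contra hne
    exact (hball (hDb hw)).2.2 ⟨j, hne, hj.symm⟩
  have hmap : MapsTo β (pdisc ρ) (C \ range u) := by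
    intro w hw
    refine ⟨(hball (hDb hw.1)).2.1, ?_⟩
    rintro ⟨j, hj⟩
    have h1 := hoth w hw.1 j hj.symm
    subst h1
    apply hw.2
    have h2 : e w = e 0 := by rw [he, h0, hj]
    exact e.injOn (hDs hw.1) h0e h2
  have hcont : ContinuousOn β (pdisc ρ) := by
    rw [← he]
    exact e.continuousOn.mono fun w hw => hDs hw.1
  obtain ⟨F', hF'⟩ := F.exists_comap hcont hmap
  obtain ⟨ρ₁, hρ₁, hρ₂⟩ := (hF.and (Ioo_mem_nhdsGT hρ)).exists
  have hcirc := tfb_circle hρ₂.1 hρ₂.2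
  obtain ⟨ψ, hψ⟩ := punct_pot hρ₂.1 hρ₂.2 F'
    ((hF' _).trans (hρ₁ (PathFun.pathFA_comp hcont hmap hcirc)))
  refine ⟨e '' D, e.isOpen_image_of_subset_source hDo hDs, ⟨0, hD0, by rw [he, h0]⟩, ?_,
    fun w => ψ (e.symm w), fun c hc => ?_⟩
  · rintro j ⟨w, hw, hj⟩
    exact hoth w hw j (by rw [← he]; exact hj)
  · have key : ∀ t ∈ Icc (0 : ℝ) 1, c t ∈ e.target ∧ e.symm (c t) ∈ pdisc ρ ∧
        β (e.symm (c t)) = c t := by
      intro t ht
      obtain ⟨⟨-, w, hw, hwt⟩, hr⟩ := hc.2 ht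
      have h1 : e.symm (c t) = w := by rw [← hwt]; exact e.left_inv (hDs hw)
      refine ⟨hwt ▸ e.map_source (hDs hw), ?_, by rw [h1, ← he]; exact hwt⟩
      rw [h1]
      refine ⟨hw, fun h2 => hr ⟨i, ?_⟩⟩
      have h3 : w = 0 := h2
      rw [← hwt, h3, he, h0]
    have hp : IsPath (pdisc ρ) fun t => e.symm (c t) :=
      ⟨e.continuousOn_symm.comp hc.1 fun t ht => (key t ht).1, fun t ht => (key t ht).2.1⟩
    have hc' : IsPath (C \ range u) c := ⟨hc.1, fun t ht => ⟨(hc.2 ht).1.1, (hc.2 ht).2⟩⟩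
    rw [← F.congr hc' fun t ht => (key t ht).2.2, ← hF' fun t => e.symm (c t)]
    exact hψ _ hp

/-- an invariant that vanishes on small loops around the punctures vanishes -/
theorem punct_disc {C : Set P2} (hC : Convex ℝ C) {k : ℕ} {u : Fin k → P2}
    (hu : Function.Injective u) (hCu : ∀ i, C ∈ 𝓝 (u i)) {β : Fin k → P2 → P2}
    (hs : ∀ i, ContDiffAt ℝ ∞ (β i) 0) (h0 : ∀ i, β i 0 = u i)
    (hi : ∀ i, Function.Injective (fderiv ℝ (β i) 0)) (Λ : LoopFun (C \ range u))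
    (hΛ : ∀ i, ∀ᶠ ρ : ℝ in 𝓝[>] 0, Λ.L (fun t => β i (pol ρ (2 * Real.pi * t))) = 0)
    {c : ℝ → P2} (hc : IsPath (C \ range u) c) (h1 : c 1 = c 0) : Λ.L c = 0 := by
  obtain ⟨F, hF⟩ := Λ.exists_pathFun
  have hloc : ∀ i, ∃ V : Set P2, IsOpen V ∧ u i ∈ V ∧ (∀ j, u j ∈ V → j = i) ∧
      ∃ ψ : P2 → Multiplicative ℤ,
        ∀ c, IsPath (C ∩ V ∩ (range u)ᶜ) c → F.F c = (ψ (c 0))⁻¹ * ψ (c 1) := by
    intro i
    refine tfb_local hu i (hCu i) (hs i) (h0 i) (hi i) F ((hΛ i).mono fun ρ hρ hp => ?_)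
    rw [hF _ hp (by simp [pol]), hρ]
    rfl
  choose V hV1 hV2 hV3 ψ hψ using hloc
  let U : Option (Fin k) → Set P2 := fun o => o.elim (range u)ᶜ V
  have hU : ∀ o, IsOpen (U o) := by
    rintro (_ | i)
    · exact (finite_range u).isClosed.isOpen_compl
    · exact hV1 i
  have hcov : ∀ x ∈ C, ∃ o, x ∈ U o := by
    intro x _
    by_cases hx : x ∈ range u
    · obtain ⟨i, rfl⟩ := hx
      exact ⟨some i, hV2 i⟩
    · exact ⟨none, hx⟩
  have hmem : ∀ o j, u j ∈ U o → o = some j := by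
    rintro (_ | i) j h
    · exact absurd (mem_range_self j) h
    · rw [hV3 i j h]
  have hex : ∀ o, ∃ Fo : PathFun (C ∩ U o) (Multiplicative ℤ),
      ∀ c, IsPath (C ∩ U o ∩ (range u)ᶜ) c → Fo.F c = F.F c := by
    rintro (_ | i)
    · exact ⟨F, fun _ _ => rfl⟩
    · obtain ⟨Fo, hFo⟩ := pathFun_pot (C ∩ V i) (ψ i)
      exact ⟨Fo, fun c hc => (hFo c).trans (hψ i c hc).symm⟩
  choose Fs hFs using hex
  obtain ⟨F', hF'⟩ := pathFun_glue U hU hcov Fs (by
    intro o o' c hc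
    by_cases hoo : o = o'
    · subst hoo; rfl
    · have hav : ∀ t ∈ Icc (0 : ℝ) 1, c t ∈ (range u)ᶜ := by
        rintro t ht ⟨j, hj⟩
        have a1 := (hc.2 ht).1.2
        have a2 := (hc.2 ht).2
        rw [← hj] at a1 a2
        exact hoo ((hmem o j a1).trans (hmem o' j a2).symm)
      rw [hFs o c ⟨hc.1, fun t ht => ⟨(hc.2 ht).1, hav t ht⟩⟩,
        hFs o' c ⟨hc.1, fun t ht => ⟨⟨(hc.2 ht).1.1, (hc.2 ht).2⟩, hav t ht⟩⟩])
  have z : (0 : ℝ) ∈ Icc (0 : ℝ) 1 := ⟨le_rfl, zero_le_one⟩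
  have hcC : IsPath C c := ⟨hc.1, fun t ht => (hc.2 ht).1⟩
  have a1 : F'.F c = F.F c :=
    (hF' none c hc).trans (hFs none c ⟨hc.1, fun t ht => ⟨hc.2 ht, (hc.2 ht).2⟩⟩)
  have a2 : F'.F c = F'.F fun _ => c 0 :=
    F'.conv hC (f := fun x => x) continuousOn_id (mapsTo_id C) hcC
      (c' := fun _ => c 0) ⟨continuousOn_const, fun _ _ => hcC.2 z⟩ rfl h1
  rw [F'.const (hcC.2 z), a1, hF c hc h1] at a2
  exact ofAdd_eq_one.1 a2

end Pool.Agent.Lib.MP_4d7d0a_gt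
end

-- part Pool.Agent.Lib.MP_4d7d0a_gt.Ham
section

/-! Flows of compactly supported contact Hamiltonians. -/

set_option autoImplicit false

open Set Filter Topology
open scoped ContDiff

namespace Pool.Agent.Lib.MP_4d7d0a_gt

/-- the contact vector field of the Hamiltonian `H` -/
noncomputable def XH (H : P3 → ℝ) (p : P3) : P3 :=
  (-fderiv ℝ H p (0, 1, 0), fderiv ℝ H p (1, 0, 0) + p.2.1 * fderiv ℝ H p (0, 0, 1),
    H p - p.2.1 * fderiv ℝ H p (0, 1, 0))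

theorem ham_d1 {c : ℝ → P3} {w : P3} {s : ℝ} (h : HasDerivAt c w s) :
    HasDerivAt (fun t => (c t).1) w.1 s :=
  (ContinuousLinearMap.fst ℝ ℝ (ℝ × ℝ)).hasFDerivAt.comp_hasDerivAt s h

theorem ham_d2 {c : ℝ → P3} {w : P3} {s : ℝ} (h : HasDerivAt c w s) :
    HasDerivAt (fun t => (c t).2.1) w.2.1 s :=
  ((ContinuousLinearMap.fst ℝ ℝ ℝ).comp
    (ContinuousLinearMap.snd ℝ ℝ (ℝ × ℝ))).hasFDerivAt.comp_hasDerivAt s h

theorem ham_d3 {c : ℝ → P3} {w : P3} {s : ℝ} (h : HasDerivAt c w s) :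
    HasDerivAt (fun t => (c t).2.2) w.2.2 s :=
  ((ContinuousLinearMap.snd ℝ ℝ ℝ).comp
    (ContinuousLinearMap.snd ℝ ℝ (ℝ × ℝ))).hasFDerivAt.comp_hasDerivAt s h

/-- mixed derivatives of a family of maps -/
theorem ham_mixed {N : ℝ → P3 → P3} {s : ℝ} {p : P3}
    (hN : ContDiffAt ℝ ∞ (fun a : ℝ × P3 => N a.1 a.2) (s, p)) :
    ∃ A : P3 →L[ℝ] P3, HasFDerivAt (fun q => deriv (fun s' => N s' q) s) A p ∧
      (∀ v, HasDerivAt (fun s' => fderiv ℝ (N s') p v) (A v) s) ∧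
      HasDerivAt (fun s' => N s' p) (deriv (fun s' => N s' p) s) s ∧
      HasFDerivAt (N s) (fderiv ℝ (N s) p) p := by
  set F : ℝ × P3 → P3 := fun a => N a.1 a.2 with hF
  have h2 : ContDiffAt ℝ 2 F (s, p) := hN.of_le (by norm_cast)
  have hsym : IsSymmSndFDerivAt ℝ F (s, p) := h2.isSymmSndFDerivAt (by simp)
  have hev : ∀ᶠ a in 𝓝 (s, p), DifferentiableAt ℝ F a :=
    (h2.eventually (by simp)).mono fun a ha => ha.differentiableAt (by simp)
  have hD : DifferentiableAt ℝ (fderiv ℝ F) (s, p) :=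
    (h2.fderiv_right (m := 1) (by norm_num)).differentiableAt (by simp)
  have e1 : ∀ a : ℝ × P3, DifferentiableAt ℝ F a →
      HasFDerivAt (N a.1) ((fderiv ℝ F a).comp (ContinuousLinearMap.inr ℝ ℝ P3)) a.2 :=
    fun a ha => HasFDerivAt.comp (g := F) (f := fun q : P3 => (a.1, q)) a.2 ha.hasFDerivAt
      (hasFDerivAt_prodMk_right a.1 a.2)
  have e2 : ∀ a : ℝ × P3, DifferentiableAt ℝ F a →
      HasDerivAt (fun s' => N s' a.2) (fderiv ℝ F a (1, 0)) a.1 := fun a ha =>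
    HasFDerivAt.comp_hasDerivAt (l := F) (f := fun s' : ℝ => (s', a.2)) a.1 ha.hasFDerivAt
      ((hasDerivAt_id a.1).prodMk (hasDerivAt_const a.1 a.2))
  have h0 := hev.self_of_nhds
  refine ⟨((fderiv ℝ (fderiv ℝ F) (s, p)).flip (1, 0)).comp (ContinuousLinearMap.inr ℝ ℝ P3),
    ?_, fun v => ?_, (e2 _ h0).differentiableAt.hasDerivAt,
    (e1 _ h0).differentiableAt.hasFDerivAt⟩
  · have h3 : HasFDerivAt (fun q : P3 => fderiv ℝ F (s, q))
        ((fderiv ℝ (fderiv ℝ F) (s, p)).comp (ContinuousLinearMap.inr ℝ ℝ P3)) p :=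
      hD.hasFDerivAt.comp p (hasFDerivAt_prodMk_right s p)
    have h4 := h3.clm_apply (hasFDerivAt_const ((1, 0) : ℝ × P3) p)
    have h5 : ∀ᶠ q in 𝓝 p, DifferentiableAt ℝ F (s, q) :=
      (Continuous.prodMk_right s).continuousAt.eventually hev
    refine (h4.congr_of_eventuallyEq (h5.mono fun q hq => (e2 _ hq).deriv)).congr_fderiv ?_
    ext <;> simp
  · have h3 : HasDerivAt (fun s' : ℝ => fderiv ℝ F (s', p))
        (fderiv ℝ (fderiv ℝ F) (s, p) (1, 0)) s :=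
      hD.hasFDerivAt.comp_hasDerivAt s ((hasDerivAt_id s).prodMk (hasDerivAt_const s p))
    have h4 := h3.clm_apply (hasDerivAt_const s ((0, v) : ℝ × P3))
    have h5 : ∀ᶠ s' in 𝓝 s, DifferentiableAt ℝ F (s', p) :=
      (Continuous.prodMk_left p).continuousAt.eventually hev
    refine (h4.congr_of_eventuallyEq (h5.mono fun q hq => ?_)).congr_deriv ?_
    · simp only [(e1 _ hq).fderiv]
      simp
    · simp only [map_zero, add_zero, ContinuousLinearMap.comp_apply, ContinuousLinearMap.inr_apply,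
        ContinuousLinearMap.flip_apply]
      exact hsym _ _

/-- the derivative of the pulled back form along a family -/
theorem ham_cartan {N : ℝ → P3 → P3} {H : P3 → ℝ} {s : ℝ} {p : P3}
    (hN : ContDiffAt ℝ ∞ (fun a : ℝ × P3 => N a.1 a.2) (s, p))
    (hH : DifferentiableAt ℝ H (N s p))
    (hv : ∀ᶠ q in 𝓝 p, H (N s q) = al (N s q) (deriv (fun s' => N s' q) s)) (v : P3) :
    HasDerivAt (fun s' => al (N s' p) (fderiv ℝ (N s') p v))
      (fderiv ℝ H (N s p) (fderiv ℝ (N s) p v) +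
        (fderiv ℝ (N s) p v).2.1 * (deriv (fun s' => N s' p) s).1 -
        (deriv (fun s' => N s' p) s).2.1 * (fderiv ℝ (N s) p v).1) s := by
  obtain ⟨A, hA, hB, hV, hU⟩ := ham_mixed hN
  have h1 := (ham_d3 (hB v)).sub ((ham_d2 hV).mul (ham_d1 (hB v)))
  have h2 := hH.hasFDerivAt.comp p hU
  have h3 := hA.snd.snd.sub (hU.snd.fst.mul hA.fst)
  have h4 := (h3.congr_of_eventuallyEq hv).unique h2
  have h5 := congrArg (fun B : P3 →L[ℝ] ℝ => B v) h4
  simp only [ContinuousLinearMap.comp_apply, sub_apply,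
    add_apply, smul_apply, ContinuousLinearMap.coe_fst',
    ContinuousLinearMap.coe_snd', smul_eq_mul] at h5
  refine h1.congr_deriv ?_
  rw [← h5]
  ring

theorem ham_lin (B : P3 →L[ℝ] ℝ) (u : P3) :
    B u = u.1 * B (1, 0, 0) + u.2.1 * B (0, 1, 0) + u.2.2 * B (0, 0, 1) := by
  have : u = u.1 • ((1, 0, 0) : P3) + u.2.1 • ((0, 1, 0) : P3) + u.2.2 • ((0, 0, 1) : P3) := by
    ext <;> simp
  conv_lhs => rw [this]
  simp only [map_add, map_smul, smul_eq_mul]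

/-- the velocity of a family of contact maps is the field of its Hamiltonian -/
theorem XH_of_family {N : ℝ → P3 → P3} {H : P3 → ℝ} {s : ℝ} {p : P3}
    (hN : ContDiffAt ℝ ∞ (fun a : ℝ × P3 => N a.1 a.2) (s, p))
    (hc : ∀ᶠ q in 𝓝 p, ∀ᶠ s' in 𝓝[Icc 0 1] s, ContactAt (N s') q) (hs : s ∈ Icc (0 : ℝ) 1)
    (hH : DifferentiableAt ℝ H (N s p))
    (hv : ∀ᶠ q in 𝓝 p, H (N s q) = al (N s q) (deriv (fun s' => N s' q) s)) :
    deriv (fun s' => N s' p) s = XH H (N s p) := by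
  have hc' : ∀ᶠ q in 𝓝 p, ContactAt (N s) q := hc.mono fun q hq => hq.self_of_nhdsWithin hs
  have hinj := fderiv_inj_of_contact hc'
  have hsur : Function.Surjective (fderiv ℝ (N s) p) :=
    (LinearMap.injective_iff_surjective (f := (fderiv ℝ (N s) p).toLinearMap)).1 hinj
  obtain ⟨-, c, hc0, hcv⟩ := hc'.self_of_nhds
  have key : ∀ u : P3, al (N s p) u = 0 → fderiv ℝ H (N s p) u +
      u.2.1 * (deriv (fun s' => N s' p) s).1 - (deriv (fun s' => N s' p) s).2.1 * u.1 = 0 := by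
    intro u hu
    obtain ⟨v, rfl⟩ := hsur u
    have hv0 : al p v = 0 := by
      rw [hcv v] at hu
      exact (mul_eq_zero.1 hu).resolve_left hc0.ne'
    have h1 := (ham_cartan hN hH hv v).hasDerivWithinAt (s := Icc 0 1)
    have h2 : HasDerivWithinAt (fun s' => al (N s' p) (fderiv ℝ (N s') p v)) 0 (Icc 0 1) s := by
      refine (hasDerivWithinAt_const s (Icc 0 1) (0 : ℝ)).congr_of_eventuallyEq ?_ ?_
      · filter_upwards [hc.self_of_nhds] with s' hs'
        obtain ⟨-, c', -, h⟩ := hs'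
        rw [h v, hv0, mul_zero]
      · rw [hcv v, hv0, mul_zero]
    exact (uniqueDiffOn_Icc zero_lt_one s hs).eq_deriv _ h1 h2
  have k1 := key (0, 1, 0) (by simp [al])
  have k2 := key (1, 0, (N s p).2.1) (by simp [al])
  rw [ham_lin] at k2
  have k3 := hv.self_of_nhds
  simp only [al] at k3
  simp only [one_mul, zero_mul, mul_zero, mul_one, sub_zero, add_zero] at k1 k2
  refine Prod.ext ?_ (Prod.ext ?_ ?_)
  · simp only [XH]; linarith
  · simp only [XH]; linarith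
  · simp only [XH]
    rw [k3]
    linear_combination (N s p).2.1 * k1

open Pool.Agent.Lib.MP_4d7d0a_gt.Flow in
/-- flows of bounded Lipschitz smooth fields -/
theorem ham_flow_lip {V P : Type} [NormedAddCommGroup V] [NormedSpace ℝ V] [FiniteDimensional ℝ V]
    [NormedAddCommGroup P] [NormedSpace ℝ P] [FiniteDimensional ℝ P] {X : V → P →L[ℝ] V}
    (hX : ContDiff ℝ ∞ X) {L : NNReal} (hL : LipschitzWith L X) {C : ℝ} (hC : ∀ y, ‖X y‖ ≤ C) :
    ∃ Φ : V → P → V, ContDiff ℝ ∞ (fun z : V × P => Φ z.1 z.2) ∧ (∀ u, Φ u 0 = u) ∧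
      ∀ u p (s : ℝ), HasDerivAt (fun s : ℝ => Φ u (s • p)) (X (Φ u (s • p)) p) s := by
  have := FiniteDimensional.complete ℝ V
  have := FiniteDimensional.complete ℝ P
  have hC0 : 0 ≤ C := (norm_nonneg _).trans (hC 0)
  choose α h0 hα using fun (u : V) (p : P) => exists_global (lip hL p)
    (L := ⟨C * ‖p‖, by positivity⟩) (fun y => (X y).le_of_opNorm_le (hC y) p) u
  have uq : ∀ (p : P) (f g : ℝ → V), (∀ t, HasDerivAt f (X (f t) p) t) →
      (∀ t, HasDerivAt g (X (g t) p) t) → f 0 = g 0 → f = g := fun p f g hf hg h =>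
    ODE_solution_unique_univ (v := fun _ v => X v p) (s := fun _ => univ)
      (fun _ => (lip hL p).lipschitzOnWith) (fun t => ⟨hf t, trivial⟩)
      (fun t => ⟨hg t, trivial⟩) h
  have sc : ∀ u p (s : ℝ), α u (s • p) 1 = α u p s := fun u p s => by
    have := uq (s • p) _ (fun t => α u p (s * t)) (hα u _) (fun t => by
      have := (hα u p (s * t)).scomp t ((hasDerivAt_id t).const_mul s)
      simpa [Function.comp_def] using this) (by simp [h0])
    simpa using congrFun this 1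
  have sg : ∀ u p, α u p 1 = α (α u ((1 / 2 : ℝ) • p) 1) ((1 / 2 : ℝ) • p) 1 := fun u p => by
    rw [sc, sc]
    have := uq p (fun t => α u p (t + 1 / 2)) _ (fun t => (hα u p _).comp_add_const t _)
      (hα (α u p (1 / 2)) p) (by simp [h0])
    rw [← this]
    norm_num
  have key : ∀ (n : ℕ) (z : V × P), ‖z.2‖ < 2 ^ n * (1 / (2 * (L + 1))) →
      ContDiffAt ℝ ∞ (fun z : V × P => α z.1 z.2 1) z := by
    intro n
    induction n with
    | zero => exact fun z hz => small hX hL h0 hα (by simpa using hz)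
    | succ n ih =>
      intro z hz
      have h1 : ‖(1 / 2 : ℝ) • z.2‖ < 2 ^ n * (1 / (2 * (L + 1))) := by
        rw [norm_smul, Real.norm_of_nonneg (by norm_num)]
        rw [pow_succ] at hz
        linarith
      have h2 : ContDiffAt ℝ ∞ (fun z : V × P => (1 / 2 : ℝ) • z.2) z := by fun_prop
      have h3 := (ih (z.1, (1 / 2 : ℝ) • z.2) h1).comp z (contDiffAt_fst.prodMk h2)
      have h4 := (ih (α z.1 ((1 / 2 : ℝ) • z.2) 1, (1 / 2 : ℝ) • z.2) h1).comp z (h3.prodMk h2)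
      exact h4.congr_of_eventuallyEq (.of_forall fun w => sg w.1 w.2)
  refine ⟨fun u p => α u p 1, contDiff_iff_contDiffAt.2 fun z => ?_, fun u => ?_,
    fun u p s => ?_⟩
  · obtain ⟨n, hn⟩ := pow_unbounded_of_one_lt (‖z.2‖ / (1 / (2 * (L + 1)))) (one_lt_two (α := ℝ))
    exact key n z ((div_lt_iff₀ (by positivity)).1 hn)
  · simpa [h0] using sc u 0 0
  · simp only [sc]
    exact hα u p s

/-- flows of time dependent fields -/
theorem ham_flow_time {W : ℝ × P3 → P3} (hW : ContDiff ℝ ∞ W) {L : NNReal}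
    (hL : LipschitzWith L W) {C : ℝ} (hC : ∀ a, ‖W a‖ ≤ C) :
    ∃ Ψ : ℝ → P3 → ℝ → P3, ContDiff ℝ ∞ (fun a : (ℝ × P3) × ℝ => Ψ a.1.1 a.1.2 a.2) ∧
      (∀ t p, Ψ t p 0 = p) ∧ ∀ t p s, HasDerivAt (Ψ t p) (W (t + s, Ψ t p s)) s := by
  let T : (ℝ × P3) →L[ℝ] ℝ →L[ℝ] (ℝ × P3) :=
    ContinuousLinearMap.smulRightL ℝ ℝ (ℝ × P3) (ContinuousLinearMap.id ℝ ℝ)
  have hT : ∀ u (r : ℝ), T u r = r • u := fun u r => by simp [T]
  have hZ : ContDiff ℝ ∞ fun a : ℝ × P3 => (((1 : ℝ), W a) : ℝ × P3) := contDiff_const.prodMk hW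
  have hZL := T.lipschitz.comp ((LipschitzWith.const (α := ℝ × P3) (1 : ℝ)).prodMk hL)
  obtain ⟨Φ, h1, h2, h3⟩ := ham_flow_lip (X := fun a : ℝ × P3 => T (1, W a))
    (T.contDiff.comp hZ) hZL (C := ‖T‖ * max 1 C) fun y => T.le_opNorm_of_le (by
      rw [Prod.norm_def]
      exact max_le_max (by simp) (hC y))
  have h4 : ∀ u s, HasDerivAt (Φ u) (1, W (Φ u s)) s := fun u s => by
    simpa [hT] using h3 u 1 s
  have h5 : ∀ u s, (Φ u s).1 = u.1 + s := fun u s => by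
    have h6 : ∀ r, HasDerivAt (fun r => (Φ u r).1 - r) 0 r := fun r => by
      have h7 : HasDerivAt (fun r => (Φ u r).1) 1 r :=
        (ContinuousLinearMap.fst ℝ ℝ P3).hasFDerivAt.comp_hasDerivAt r (h4 u r)
      exact (h7.sub (hasDerivAt_id r)).congr_deriv (sub_self _)
    have := is_const_of_deriv_eq_zero (fun r => (h6 r).differentiableAt)
      (fun r => (h6 r).deriv) s 0
    simp only [h2] at this
    linarith
  refine ⟨fun t p s => (Φ (t, p) s).2, h1.snd, fun t p => by simp [h2], fun t p s => ?_⟩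
  have h7 : HasDerivAt (fun r => (Φ (t, p) r).2) (W (Φ (t, p) s)) s :=
    (ContinuousLinearMap.snd ℝ ℝ P3).hasFDerivAt.comp_hasDerivAt s (h4 (t, p) s)
  have h8 : Φ (t, p) s = (t + s, (Φ (t, p) s).2) := Prod.ext (h5 _ _) rfl
  rw [h8] at h7
  exact h7

theorem ham_al_XH (H : P3 → ℝ) (p : P3) : al p (XH H p) = H p := by
  simp only [al, XH]
  ring

theorem ham_fderiv_smooth {H : ℝ → P3 → ℝ} (hH : ContDiff ℝ ∞ fun a : ℝ × P3 => H a.1 a.2)
    (w : P3) : ContDiff ℝ ∞ fun a : ℝ × P3 => fderiv ℝ (H a.1) a.2 w := by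
  have h1 : ContDiff ℝ ∞ (Function.uncurry fun (a : ℝ × P3) (q : P3) => H a.1 q) :=
    hH.comp (f := fun b : (ℝ × P3) × P3 => (b.1.1, b.2)) (by fun_prop)
  exact (ContDiff.fderiv h1 contDiff_snd (by simp)).clm_apply contDiff_const

theorem ham_XH_smooth {H : ℝ → P3 → ℝ} (hH : ContDiff ℝ ∞ fun a : ℝ × P3 => H a.1 a.2) :
    ContDiff ℝ ∞ fun a : ℝ × P3 => XH (H a.1) a.2 :=
  (ham_fderiv_smooth hH _).neg.prodMk (((ham_fderiv_smooth hH _).add
    (contDiff_snd.snd.fst.mul (ham_fderiv_smooth hH _))).prodMk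
    (hH.sub (contDiff_snd.snd.fst.mul (ham_fderiv_smooth hH _))))

/-- a smooth family that follows a contact field and starts at the identity is contact -/
theorem ham_contact {H : ℝ → P3 → ℝ} (hH : ContDiff ℝ ∞ fun a : ℝ × P3 => H a.1 a.2)
    {N : ℝ → P3 → P3} (hN : ContDiff ℝ ∞ fun a : ℝ × P3 => N a.1 a.2) (h0 : ∀ p, N 0 p = p)
    (hd : ∀ p s, HasDerivAt (fun s => N s p) (XH (H s) (N s p)) s) (s : ℝ) (p : P3) :
    ContactAt (N s) p := by
  have hs : ContDiff ℝ ∞ (N s) := hN.comp (f := fun q : P3 => (s, q)) (by fun_prop)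
  let a : ℝ → ℝ := fun r => fderiv ℝ (H r) (N r p) (0, 0, 1)
  have ha : Continuous a := (ham_fderiv_smooth hH (0, 0, 1)).continuous.comp
    (f := fun r : ℝ => (r, N r p))
    (continuous_id.prodMk (hN.continuous.comp (f := fun r : ℝ => (r, p)) (by fun_prop)))
  have hA : ∀ r, HasDerivAt (fun r => ∫ x in (0 : ℝ)..r, a x) (a r) r := fun r =>
    (ha.deriv_integral a 0 r) ▸
      (intervalIntegral.differentiable_integral_of_continuous ha r).hasDerivAt
  refine ⟨hs.contDiffAt, Real.exp (∫ x in (0 : ℝ)..s, a x), Real.exp_pos _, fun v => ?_⟩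
  have h1 : ∀ r, HasDerivAt (fun r => al (N r p) (fderiv ℝ (N r) p v))
      (a r * al (N r p) (fderiv ℝ (N r) p v)) r := fun r => by
    have hr : ContDiff ℝ ∞ (H r) := hH.comp (f := fun q : P3 => (r, q)) (by fun_prop)
    refine (ham_cartan (H := H r) hN.contDiffAt (hr.differentiable (by simp) _)
      (.of_forall fun q => by rw [(hd q r).deriv, ham_al_XH]) v).congr_deriv ?_
    rw [(hd p r).deriv, ham_lin]
    simp only [XH, al, a]
    ring
  have h2 : ∀ r, HasDerivAt (fun r => Real.exp (-∫ x in (0 : ℝ)..r, a x) *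
      al (N r p) (fderiv ℝ (N r) p v)) 0 r := fun r =>
    ((hA r).neg.exp.mul (h1 r)).congr_deriv (by simp only [Pi.neg_apply]; ring)
  have h3 := is_const_of_deriv_eq_zero (fun r => (h2 r).differentiableAt)
    (fun r => (h2 r).deriv) s 0
  have h4 : N 0 = id := funext h0
  simp only [intervalIntegral.integral_same, neg_zero, Real.exp_zero, one_mul, h4, fderiv_id,
    ContinuousLinearMap.id_apply, id_eq] at h3
  rw [← h3, ← mul_assoc, ← Real.exp_add, add_neg_cancel, Real.exp_zero, one_mul]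

/-- the flow of a contact field that is bounded and Lipschitz -/
theorem ham_gen {H : ℝ → P3 → ℝ} (hH : ContDiff ℝ ∞ fun a : ℝ × P3 => H a.1 a.2) {L : NNReal}
    (hL : LipschitzWith L fun a : ℝ × P3 => XH (H a.1) a.2) {C : ℝ}
    (hC : ∀ a : ℝ × P3, ‖XH (H a.1) a.2‖ ≤ C) :
    ∃ φ ψ : ℝ → P3 → P3, ContDiff ℝ ∞ (fun a : ℝ × P3 => φ a.1 a.2) ∧ (∀ p, φ 0 p = p) ∧
      (∀ t p, ContactAt (φ t) p) ∧ (∀ t p, ContactAt (ψ t) p) ∧ (∀ t p, ψ t (φ t p) = p) ∧
      (∀ t p, φ t (ψ t p) = p) ∧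
      (∀ p t, HasDerivAt (fun s => φ s p) (XH (H t) (φ t p)) t) ∧
      (∀ c : ℝ → P3, (∀ t, HasDerivAt c (XH (H t) (c t)) t) → ∀ t, c t = φ t (c 0)) ∧
      ∀ c : ℝ → P3, (∀ t ∈ Icc (0 : ℝ) 1, HasDerivWithinAt c (XH (H t) (c t)) (Icc 0 1) t) →
        ∀ t ∈ Icc (0 : ℝ) 1, c t = φ t (c 0) := by
  obtain ⟨Ψ, h1, h2, h3⟩ := ham_flow_time (ham_XH_smooth hH) hL hC
  have hl : ∀ t, LipschitzWith L (XH (H t)) := fun t => by
    simpa [Function.comp_def] using hL.comp (LipschitzWith.prodMk_left t)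
  have uq : ∀ (t₀ : ℝ) (f g : ℝ → P3), (∀ t, HasDerivAt f (XH (H (t₀ + t)) (f t)) t) →
      (∀ t, HasDerivAt g (XH (H (t₀ + t)) (g t)) t) → f 0 = g 0 → f = g := fun t₀ f g hf hg h =>
    ODE_solution_unique_univ (v := fun t => XH (H (t₀ + t))) (s := fun _ => univ)
      (fun _ => (hl _).lipschitzOnWith) (fun t => ⟨hf t, trivial⟩)
      (fun t => ⟨hg t, trivial⟩) h
  have hsm : ∀ t₀, ContDiff ℝ ∞ fun a : ℝ × P3 => Ψ t₀ a.2 a.1 := fun t₀ =>
    h1.comp (f := fun a : ℝ × P3 => ((t₀, a.2), a.1)) (by fun_prop)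
  have hct : ∀ t₀ s p, ContactAt (fun q => Ψ t₀ q s) p := fun t₀ s p =>
    ham_contact (H := fun s => H (t₀ + s)) (N := fun s q => Ψ t₀ q s)
      (hH.comp (f := fun a : ℝ × P3 => (t₀ + a.1, a.2)) (by fun_prop)) (hsm t₀) (h2 t₀)
      (h3 t₀) s p
  have h4 : ∀ p t, HasDerivAt (Ψ 0 p) (XH (H t) (Ψ 0 p t)) t := fun p t => by
    simpa using h3 0 p t
  refine ⟨fun t p => Ψ 0 p t, fun t p => Ψ t p (-t), hsm 0, h2 0, fun t => hct 0 t,
    fun t => hct t (-t), fun t p => ?_, fun t p => ?_, h4, fun c hc t => ?_, fun c hc => ?_⟩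
  · have := uq t (Ψ t (Ψ 0 p t)) (fun s => Ψ 0 p (t + s)) (h3 t _)
      (fun s => (h4 p (t + s)).comp_const_add t s) (by simp [h2])
    simp [this, h2]
  · have := uq 0 (Ψ 0 (Ψ t p (-t))) (fun s => Ψ t p (s - t)) (h3 0 _)
      (fun s => by simpa using (h3 t p (s - t)).comp_sub_const s t) (by simp [h2])
    simp [this, h2]
  · exact congrFun (uq 0 c (Ψ 0 (c 0)) (fun s => by simpa using hc s) (h3 0 _) (h2 0 _).symm) t
  · exact ODE_solution_unique (v := fun t => XH (H t)) hl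
      (fun t ht => (hc t ht).continuousWithinAt)
      (fun t ht => (hc t (Ico_subset_Icc_self ht)).mono_of_mem_nhdsWithin
        (Icc_mem_nhdsGE_of_mem ht))
      (fun t _ => (h4 _ t).continuousAt.continuousWithinAt)
      (fun t _ => (h4 _ t).hasDerivWithinAt) (h2 0 _).symm

theorem ham_XH_zero {H : P3 → ℝ} {p : P3} (h : H =ᶠ[𝓝 p] fun _ => 0) : XH H p = 0 := by
  simp [XH, h.fderiv_eq, h.self_of_nhds]

theorem ham_flow {H : ℝ → P3 → ℝ} (hH : ContDiff ℝ ∞ fun a : ℝ × P3 => H a.1 a.2) {R : ℝ}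
    (hR : ∀ t, ∀ p : P3, R ≤ ‖p‖ → H t p = 0) :
    ∃ φ : ℝ → P3 → P3, ContDiff ℝ ∞ (fun a : ℝ × P3 => φ a.1 a.2) ∧ (∀ p, φ 0 p = p) ∧
      (∀ t ∈ Icc (0 : ℝ) 1, ∃ ψ, IsCto (φ t) ψ) ∧
      (∀ p, ∀ t ∈ Icc (0 : ℝ) 1, HasDerivAt (fun s => φ s p) (XH (H t) (φ t p)) t) ∧
      ∀ c : ℝ → P3, (∀ t ∈ Icc (0 : ℝ) 1, HasDerivWithinAt c (XH (H t) (c t)) (Icc 0 1) t) →
        ∀ t ∈ Icc (0 : ℝ) 1, c t = φ t (c 0) := by
  let χ : ContDiffBump (0 : ℝ) := ⟨1, 2, one_pos, one_lt_two⟩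
  let G : ℝ → P3 → ℝ := fun t p => χ t * H t p
  have hG : ContDiff ℝ ∞ fun a : ℝ × P3 => G a.1 a.2 := (χ.contDiff.comp contDiff_fst).mul hH
  have hGH : ∀ t ∈ Icc (0 : ℝ) 1, G t = H t := fun t ht => funext fun p => by
    have : χ t = 1 := χ.one_of_mem_closedBall (by
      rw [mem_closedBall_zero_iff, Real.norm_of_nonneg ht.1]
      exact ht.2)
    simp only [G, this, one_mul]
  have hz : ∀ t, ∀ p : P3, R < ‖p‖ → XH (G t) p = 0 := fun t p hp => ham_XH_zero (by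
    filter_upwards [(continuous_norm.tendsto p).eventually (lt_mem_nhds hp)] with q hq
    simp only [G, hR t q hq.le, mul_zero])
  have hW := ham_XH_smooth hG
  have hc : HasCompactSupport fun a : ℝ × P3 => XH (G a.1) a.2 := by
    refine HasCompactSupport.intro
      ((isCompact_closedBall (0 : ℝ) 2).prod (isCompact_closedBall (0 : P3) R)) fun a ha => ?_
    by_cases h1 : R < ‖a.2‖
    · exact hz _ _ h1
    · have h2 : χ a.1 = 0 := χ.zero_of_le_dist (by
        by_contra h3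
        exact ha ⟨(not_le.1 h3).le, mem_closedBall_zero_iff.2 (not_lt.1 h1)⟩)
      exact ham_XH_zero (.of_forall fun q => by simp only [G, h2, zero_mul])
  obtain ⟨L, hL⟩ := hW.lipschitzWith_of_hasCompactSupport hc (by simp)
  obtain ⟨C, hC⟩ := hc.exists_bound_of_continuous hW.continuous
  obtain ⟨φ, ψ, h1, h2, h3, h4, h5, h6, h7, h8, h9⟩ := ham_gen hG hL hC
  refine ⟨φ, h1, h2, fun t _ => ⟨ψ t, h3 t, h4 t, h5 t, h6 t, R + 1, fun p hp => ?_⟩,
    fun p t ht => hGH t ht ▸ h7 p t, fun c hc => h9 c fun t ht => (hGH t ht).symm ▸ hc t ht⟩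
  exact (h8 (fun _ => p) (fun s => by
    rw [hz s p (by linarith)]
    exact hasDerivAt_const s p) t).symm

theorem ham_XH_snd {g : ℝ × ℝ → ℝ} (hg : Differentiable ℝ g) (p : P3) :
    XH (fun q => g q.2) p = XH (fun q => g q.2) (0, p.2) := by
  have h : ∀ q : P3, fderiv ℝ (fun q : P3 => g q.2) q =
      (fderiv ℝ g q.2).comp (ContinuousLinearMap.snd ℝ ℝ (ℝ × ℝ)) := fun q =>
    ((hg q.2).hasFDerivAt.comp q hasFDerivAt_snd).fderiv
  simp only [XH, h]

/-- an `x`-equivariant contactomorphism supported in a tube that moves a parallel line to the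
core -/
theorem tube_shift {r : ℝ} (hr : 0 < r) : ∃ δ : ℝ, 0 < δ ∧ ∀ c : ℝ, |c| < δ →
    ∃ f g : P3 → P3, (∀ p, ContactAt f p) ∧ (∀ p, ContactAt g p) ∧ (∀ p, g (f p) = p) ∧
      (∀ p, f (g p) = p) ∧ (∀ p, p ∉ tube r → f p = p) ∧
      (∀ (p : P3) (a : ℝ), f (p.1 + a, p.2) = ((f p).1 + a, (f p).2)) ∧
      ∀ x, f (x, 0, c) = (x, 0, 0) := by
  refine ⟨r / 4, by positivity, fun c hc => ?_⟩
  let χ : ContDiffBump (0 : ℝ × ℝ) := ⟨r / 4, r / 2, by positivity, by linarith⟩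
  let g : ℝ × ℝ → ℝ := fun u => -c * χ u
  have hg : ContDiff ℝ ∞ g := contDiff_const.mul χ.contDiff
  let H : P3 → ℝ := fun q => g q.2
  have hH : ContDiff ℝ ∞ fun a : ℝ × P3 => (fun _ : ℝ => H) a.1 a.2 := hg.comp contDiff_snd.snd
  have hs : ∀ p, XH H p = XH H (0, p.2) := ham_XH_snd (hg.differentiable (by simp))
  have hz : ∀ p : P3, r / 2 < ‖p.2‖ → XH H p = 0 := fun p hp => ham_XH_zero (by
    filter_upwards [(continuous_snd.norm.tendsto p).eventually (lt_mem_nhds hp)] with q hq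
    have : χ q.2 = 0 := χ.zero_of_le_dist (by simpa using hq.le)
    simp only [H, g, this, mul_zero])
  have hW : ContDiff ℝ ∞ fun u : ℝ × ℝ => XH H (0, u) :=
    (ham_XH_smooth (H := fun _ => H) hH).comp (f := fun u : ℝ × ℝ => ((0 : ℝ), ((0 : ℝ), u)))
      (by fun_prop)
  have hcs : HasCompactSupport fun u : ℝ × ℝ => XH H (0, u) :=
    HasCompactSupport.intro (isCompact_closedBall (0 : ℝ × ℝ) (r / 2)) fun u hu =>
      hz _ (by simpa using hu)
  obtain ⟨L, hL⟩ := hW.lipschitzWith_of_hasCompactSupport hcs (by simp)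
  obtain ⟨C, hC⟩ := hcs.exists_bound_of_continuous hW.continuous
  have hL' := hL.comp ((LipschitzWith.prod_snd (α := ℝ) (β := ℝ × ℝ)).comp
    (LipschitzWith.prod_snd (α := ℝ) (β := P3)))
  have he : (fun a : ℝ × P3 => XH H a.2) =
      (fun u : ℝ × ℝ => XH H (0, u)) ∘ Prod.snd ∘ Prod.snd := funext fun a => hs a.2
  obtain ⟨φ, ψ, -, h2, h3, h4, h5, h6, h7, h8, h9⟩ := ham_gen (H := fun _ => H) hH
    (he ▸ hL') (C := C) fun a => by
      simp only [hs a.2]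
      exact hC _
  refine ⟨φ 1, ψ 1, h3 1, h4 1, h5 1, h6 1, fun p hp => ?_, fun p a => ?_, fun x => ?_⟩
  · refine (h8 (fun _ => p) (fun s => ?_) 1).symm
    rw [hz p]
    · exact hasDerivAt_const s p
    · by_contra h
      have h1 := (norm_fst_le p.2).trans (not_lt.1 h)
      have h1' := (norm_snd_le p.2).trans (not_lt.1 h)
      rw [Real.norm_eq_abs, abs_le] at h1 h1'
      exact hp (show p.2.1 ^ 2 + p.2.2 ^ 2 < r ^ 2 by nlinarith)
  · have := h8 (fun s => φ s p + (a, 0)) (fun s => by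
      have h0 : XH H (φ s p + (a, 0)) = XH H (φ s p) := by
        rw [hs, hs (φ s p)]
        simp
      simp only [h0]
      exact (h7 p s).add_const _) 1
    simp only [h2] at this
    have h0 : p + (a, 0) = (p.1 + a, p.2) := by ext <;> simp
    rw [← h0, ← this]
    ext <;> simp
  · have := h9 (fun s => (x, 0, c - c * s)) (fun s hs => by
      have h0 : XH H (x, 0, c - c * s) = (0, 0, -c) := by
        have h1 : ‖((x, 0, c - c * s) : P3).2‖ < r / 4 := by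
          have h1 : |c - c * s| ≤ |c| := by
            rw [show c - c * s = c * (1 - s) by ring, abs_mul, abs_of_nonneg (sub_nonneg.2 hs.2)]
            exact mul_le_of_le_one_right (abs_nonneg c) (by linarith [hs.1])
          simpa [Prod.norm_def] using h1.trans_lt hc
        have h2 : H =ᶠ[𝓝 (x, 0, c - c * s)] fun _ => -c := by
          filter_upwards [(continuous_snd.norm.tendsto _).eventually (gt_mem_nhds h1)] with q hq
          have : χ q.2 = 1 := χ.one_of_mem_closedBall (mem_closedBall_zero_iff.2 hq.le)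
          simp only [H, g, this, mul_one]
        simp [XH, h2.fderiv_eq, h2.self_of_nhds]
      simp only [h0]
      have h1 : HasDerivAt (fun s : ℝ => c - c * s) (-c) s := by
        simpa using ((hasDerivAt_id s).const_mul c).const_sub c
      exact ((hasDerivAt_const s x).prodMk
        ((hasDerivAt_const s (0 : ℝ)).prodMk h1)).hasDerivWithinAt) 1 ⟨zero_le_one, le_rfl⟩
    simpa using this.symm

end Pool.Agent.Lib.MP_4d7d0a_gt
end

-- part Pool.Agent.Lib.MP_4d7d0a_gt.TAP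
section

/-! Small compactly supported pushes and generic values. -/

set_option autoImplicit false

open Set Filter Topology
open scoped ContDiff

namespace Pool.Agent.Lib.MP_4d7d0a_gt

/-- a diffeomorphism of the plane supported in a small disc that moves a nearby point to `0` -/
theorem plane_push {ρ : ℝ} (hρ : 0 < ρ) : ∃ δ : ℝ, 0 < δ ∧ ∀ v : P2, ‖v‖ < δ →
    ∃ k : P2 → P2, ContDiff ℝ ∞ k ∧ Function.Injective k ∧
      (∀ w, Function.Injective (fderiv ℝ k w)) ∧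
      (∀ w : P2, ρ ^ 2 ≤ w.1 ^ 2 + w.2 ^ 2 → k w = w) ∧ k v = 0 := by
  let χ : ContDiffBump (0 : P2) := ⟨ρ / 4, ρ / 2, by positivity, by linarith⟩
  have hχ : ContDiff ℝ ∞ χ := χ.contDiff
  obtain ⟨L, hL⟩ := ContDiff.lipschitzWith_of_hasCompactSupport χ.hasCompactSupport hχ (by simp)
  have hL0 : (0 : ℝ) ≤ L := L.2
  refine ⟨min (ρ / 4) (1 / (2 * (L + 1))), lt_min (by positivity) (by positivity), fun v hv => ?_⟩
  have hv1 : ‖v‖ < ρ / 4 := hv.trans_le (min_le_left _ _)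
  have hv2 : (L : ℝ) * ‖v‖ ≤ 1 / 2 := by
    have h := hv.trans_le (min_le_right _ _)
    rw [lt_div_iff₀ (by positivity)] at h
    nlinarith [norm_nonneg v]
  have key : ∀ (y : P2) (a : ℝ), |a| ≤ L * ‖y‖ → y = a • v → y = 0 := by
    intro y a ha hy
    have h1 : ‖y‖ = |a| * ‖v‖ := by
      conv_lhs => rw [hy]
      rw [norm_smul, Real.norm_eq_abs]
    have h2 := mul_le_mul_of_nonneg_right ha (norm_nonneg v)
    have h3 := mul_le_mul_of_nonneg_right hv2 (norm_nonneg y)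
    exact norm_le_zero_iff.1 (by linarith)
  refine ⟨fun w => w - χ w • v, contDiff_id.sub (hχ.smul contDiff_const), ?_, ?_, ?_, ?_⟩
  · intro w w' h
    have h1 : w - w' = (χ w - χ w') • v := by
      have h' : w - χ w • v = w' - χ w' • v := h
      rw [sub_smul]
      linear_combination (exp := 1) h'
    have h2 := hL.dist_le_mul w w'
    rw [Real.dist_eq, dist_eq_norm] at h2
    exact sub_eq_zero.1 (key _ _ h2 h1)
  · intro w
    have hd : HasFDerivAt χ (fderiv ℝ χ w) w := (hχ.differentiable (by simp) w).hasFDerivAt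
    have h1 : HasFDerivAt (fun w => w - χ w • v)
        (ContinuousLinearMap.id ℝ P2 - (fderiv ℝ χ w).smulRight v) w :=
      (hasFDerivAt_id w).sub (hd.smul_const v)
    rw [h1.fderiv, injective_iff_map_eq_zero]
    intro y hy
    have hy' : y - fderiv ℝ χ w y • v = 0 := hy
    refine key y (fderiv ℝ χ w y) ?_ (sub_eq_zero.1 hy')
    exact (fderiv ℝ χ w).le_of_opNorm_le (norm_fderiv_le_of_lipschitz ℝ hL) y
  · intro w hw
    have h0 : χ w = 0 := by
      apply χ.zero_of_le_dist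
      rw [dist_zero_right]
      change ρ / 2 ≤ ‖w‖
      by_contra hlt
      have hlt' := not_le.1 hlt
      have a1 := abs_lt.1 ((norm_fst_le w).trans_lt hlt')
      have a2 := abs_lt.1 ((norm_snd_le w).trans_lt hlt')
      nlinarith [a1.1, a1.2, a2.1, a2.2]
    change w - χ w • v = w
    rw [h0, zero_smul, sub_zero]
  · have h1 : χ v = 1 := χ.one_of_mem_closedBall (mem_closedBall_zero_iff.2 hv1.le)
    change v - χ v • v = 0
    rw [h1, one_smul, sub_self]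

theorem tap_XH_aff {H : P3 → ℝ} {p : P3} {a b c : ℝ}
    (h : H =ᶠ[𝓝 p] fun q => a + b * q.1 - c * q.2.1) : XH H p = (c, b, a + b * p.1) := by
  have h1 : HasFDerivAt (fun q : P3 => a + b * q.1 - c * q.2.1)
      (b • ContinuousLinearMap.fst ℝ ℝ (ℝ × ℝ) -
        c • (ContinuousLinearMap.fst ℝ ℝ ℝ).comp (ContinuousLinearMap.snd ℝ ℝ (ℝ × ℝ))) p :=
    ((hasFDerivAt_fst.const_mul b).const_add a).sub (hasFDerivAt_snd.fst.const_mul c)
  unfold XH
  rw [h.fderiv_eq, h.self_of_nhds, h1.fderiv]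
  simp
  ring

/-- a contactomorphism supported in a small ball that moves a nearby point to the centre -/
theorem point_move (p₀ : P3) {r : ℝ} (hr : 0 < r) : ∃ δ : ℝ, 0 < δ ∧ ∀ p₁ : P3,
    dist p₁ p₀ < δ → ∃ h g : P3 → P3, IsCto h g ∧ (∀ p, r ≤ dist p p₀ → h p = p) ∧ h p₁ = p₀ := by
  let χ : ContDiffBump p₀ := ⟨r / 4, r / 2, by positivity, by linarith⟩
  have hχ : ContDiff ℝ ∞ χ := χ.contDiff
  refine ⟨min 1 (r / 16), lt_min one_pos (by positivity), fun p₁ hp => ?_⟩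
  obtain ⟨d, hd⟩ : ∃ d, d = dist p₁ p₀ := ⟨_, rfl⟩
  have hd1 : d < 1 := hd ▸ hp.trans_le (min_le_left _ _)
  have hd2 : d < r / 16 := hd ▸ hp.trans_le (min_le_right _ _)
  obtain ⟨c, hc⟩ : ∃ c, c = p₀.1 - p₁.1 := ⟨_, rfl⟩
  obtain ⟨b, hb⟩ : ∃ b, b = p₀.2.1 - p₁.2.1 := ⟨_, rfl⟩
  obtain ⟨e, he⟩ : ∃ e, e = p₀.2.2 - p₁.2.2 := ⟨_, rfl⟩
  obtain ⟨a, ha⟩ : ∃ a, a = e - b * p₁.1 - b * c / 2 := ⟨_, rfl⟩
  rw [dist_comm, dist_eq_norm] at hd
  have hcd : |c| ≤ d := by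
    rw [hc, hd]
    exact norm_fst_le (p₀ - p₁)
  have hbd : |b| ≤ d := by
    rw [hb, hd]
    exact (norm_fst_le (p₀ - p₁).2).trans (norm_snd_le (p₀ - p₁))
  have hed : |e| ≤ d := by
    rw [he, hd]
    exact (norm_snd_le (p₀ - p₁).2).trans (norm_snd_le (p₀ - p₁))
  have hzero : ∀ p : P3, r / 2 ≤ dist p p₀ → χ p = 0 := fun p h => χ.zero_of_le_dist h
  obtain ⟨φ, -, h0, hcto, -, huniq⟩ := ham_flow
    (H := fun _ q => χ q * (a + b * q.1 - c * q.2.1)) (R := ‖p₀‖ + r)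
    ((hχ.comp contDiff_snd).mul (by fun_prop)) (fun _ p h => by
      have h1 := norm_sub_norm_le p p₀
      rw [hzero p (by rw [dist_eq_norm]; linarith), zero_mul])
  obtain ⟨ψ, hψ⟩ := hcto 1 ⟨zero_le_one, le_rfl⟩
  refine ⟨φ 1, ψ, hψ, fun p h => ?_, ?_⟩
  · refine (huniq (fun _ => p) (fun t _ => ?_) 1 ⟨zero_le_one, le_rfl⟩).symm
    rw [ham_XH_zero]
    · exact hasDerivWithinAt_const _ _ _
    · have h1 : ∀ᶠ q in 𝓝 p, r / 2 < dist q p₀ :=
        ((continuous_id.dist continuous_const).tendsto p).eventually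
          (lt_mem_nhds (show r / 2 < dist p p₀ by linarith))
      filter_upwards [h1] with q hq
      rw [hzero q hq.le, zero_mul]
  · have h1 := huniq (fun t => (p₁.1 + c * t, p₁.2.1 + b * t,
      p₁.2.2 + (a + b * p₁.1) * t + b * c / 2 * t ^ 2)) (fun t ht => ?_) 1 ⟨zero_le_one, le_rfl⟩
    · have e0 : ((p₁.1 + c * 0, p₁.2.1 + b * 0,
          p₁.2.2 + (a + b * p₁.1) * 0 + b * c / 2 * 0 ^ 2) : P3) = p₁ := by simp
      have e1 : ((p₁.1 + c * 1, p₁.2.1 + b * 1,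
          p₁.2.2 + (a + b * p₁.1) * 1 + b * c / 2 * 1 ^ 2) : P3) = p₀ := by
        refine Prod.ext ?_ (Prod.ext ?_ ?_)
        · simp only [hc]
          ring
        · simp only [hb]
          ring
        · simp only [ha, he]
          ring
      simp only [e0, e1] at h1
      exact h1.symm
    · have hmem : ((p₁.1 + c * t, p₁.2.1 + b * t,
          p₁.2.2 + (a + b * p₁.1) * t + b * c / 2 * t ^ 2) : P3) ∈ Metric.ball p₀ χ.rIn := by
        have t0 := ht.1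
        have t1 := ht.2
        have d0 : 0 ≤ d := (abs_nonneg c).trans hcd
        have u1 : |1 - t| ≤ 1 := abs_le.2 ⟨by linarith, by linarith⟩
        have u2 : |(t ^ 2 - t) / 2| ≤ 1 := abs_le.2 ⟨by nlinarith, by nlinarith⟩
        have w : ∀ x : ℝ, |x| ≤ d → |-(x * (1 - t))| ≤ d := fun x hx => by
          rw [abs_neg, abs_mul]
          exact (mul_le_mul hx u1 (abs_nonneg _) d0).trans_eq (mul_one d)
        have w3 : |b * c * ((t ^ 2 - t) / 2)| ≤ d := by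
          rw [abs_mul, abs_mul]
          have a1 : |b| * |c| ≤ d * 1 :=
            mul_le_mul hbd (hcd.trans hd1.le) (abs_nonneg _) d0
          exact (mul_le_mul a1 u2 (abs_nonneg _) (by positivity)).trans_eq (by ring)
        rw [Metric.mem_ball, Prod.dist_eq, Prod.dist_eq, Real.dist_eq, Real.dist_eq, Real.dist_eq]
        change max |p₁.1 + c * t - p₀.1| (max |p₁.2.1 + b * t - p₀.2.1|
          |p₁.2.2 + (a + b * p₁.1) * t + b * c / 2 * t ^ 2 - p₀.2.2|) < r / 4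
        have e1 : p₁.1 + c * t - p₀.1 = -(c * (1 - t)) := by linear_combination hc
        have e2 : p₁.2.1 + b * t - p₀.2.1 = -(b * (1 - t)) := by linear_combination hb
        have e3 : p₁.2.2 + (a + b * p₁.1) * t + b * c / 2 * t ^ 2 - p₀.2.2 =
            -(e * (1 - t)) + b * c * ((t ^ 2 - t) / 2) := by linear_combination he + t * ha
        rw [e1, e2, e3]
        have := abs_add_le (-(e * (1 - t))) (b * c * ((t ^ 2 - t) / 2))
        exact max_lt (by linarith [w c hcd]) (max_lt (by linarith [w b hbd])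
          (by linarith [w e hed]))
      rw [tap_XH_aff (a := a) (b := b) (c := c)]
      · have i := hasDerivAt_id t
        have d1 : HasDerivAt (fun t : ℝ => p₁.1 + c * t) c t :=
          ((i.const_mul c).const_add p₁.1).congr_deriv (mul_one c)
        have d2 : HasDerivAt (fun t : ℝ => p₁.2.1 + b * t) b t :=
          ((i.const_mul b).const_add p₁.2.1).congr_deriv (mul_one b)
        have d3 : HasDerivAt (fun t : ℝ => p₁.2.2 + (a + b * p₁.1) * t + b * c / 2 * t ^ 2)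
            (a + b * (p₁.1 + c * t)) t :=
          (((i.const_mul (a + b * p₁.1)).const_add p₁.2.2).add
            ((hasDerivAt_pow 2 t).const_mul (b * c / 2))).congr_deriv (by
              norm_num
              ring)
        exact (d1.prodMk (d2.prodMk d3)).hasDerivWithinAt
      · filter_upwards [χ.eventuallyEq_one_of_mem_ball hmem] with q hq
        rw [hq, Pi.one_apply, one_mul]

/-- a smooth image of a planar set misses a point of every ball -/
theorem free_point {q : P2 → P3} {S : Set P2} (hq : ∀ u ∈ S, ContDiffAt ℝ ∞ q u) (p₀ : P3)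
    {δ : ℝ} (hδ : 0 < δ) : ∃ p₁ : P3, dist p₁ p₀ < δ ∧ ∀ u ∈ S, q u ≠ p₁ := by
  have h1 : dimH (q '' S) ≤ dimH S := dimH_image_le_of_locally_lipschitzOn fun u hu => by
    obtain ⟨K, t, ht, hK⟩ := ((hq u hu).of_le (m := 1) (by simp)).exists_lipschitzOnWith
    exact ⟨K, t, mem_nhdsWithin_of_mem_nhds ht, hK⟩
  have h2 : dimH S ≤ dimH (univ : Set P2) := dimH_mono (subset_univ S)
  rw [Real.dimH_univ_eq_finrank] at h2
  have h3 : dimH (q '' S) < Module.finrank ℝ P3 := by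
    refine (h1.trans h2).trans_lt ?_
    have e2 : Module.finrank ℝ P2 = 2 := by simp
    have e3 : Module.finrank ℝ P3 = 3 := by simp
    rw [e2, e3]
    exact_mod_cast (by norm_num : (2 : ℕ) < 3)
  obtain ⟨p₁, hp₁, hp⟩ := (dense_compl_of_dimH_lt_finrank h3).exists_mem_open Metric.isOpen_ball
    ⟨p₀, Metric.mem_ball_self hδ⟩
  exact ⟨p₁, hp, fun u hu h => hp₁ ⟨u, hu, h⟩⟩

/-- small regular values on the line -/
theorem sard_one {z : ℝ → ℝ} {S : Set ℝ} (hz : ∀ t ∈ S, HasDerivAt z 0 t) {δ : ℝ} (hδ : 0 < δ) :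
    ∃ c : ℝ, |c| < δ ∧ ∀ t ∈ S, z t ≠ c := by
  have h1 : MeasureTheory.volume (z '' S) = 0 :=
    MeasureTheory.addHaar_image_eq_zero_of_det_fderivWithin_eq_zero MeasureTheory.volume
      (f' := fun _ => (0 : ℝ →L[ℝ] ℝ)) (fun t ht => by
        have := (hz t ht).hasFDerivAt
        rw [show ContinuousLinearMap.toSpanSingleton ℝ (0 : ℝ) = (0 : ℝ →L[ℝ] ℝ) by
          ext
          simp] at this
        exact this.hasFDerivWithinAt) (fun _ _ => by simp [ContinuousLinearMap.det])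
  have h2 : ¬ Metric.ball (0 : ℝ) δ ⊆ z '' S := fun h =>
    (Metric.measure_ball_pos MeasureTheory.volume (0 : ℝ) hδ).ne'
      (MeasureTheory.measure_mono_null h h1)
  obtain ⟨c, hc, hc'⟩ := not_subset.1 h2
  exact ⟨c, by simpa using hc, fun t ht h => hc' ⟨t, ht, h⟩⟩

/-- small regular values in the plane -/
theorem sard_two {N : P2 → P2} {S : Set P2} (hN : ∀ u ∈ S, DifferentiableAt ℝ N u) {δ : ℝ}
    (hδ : 0 < δ) :
    ∃ v : P2, ‖v‖ < δ ∧ ∀ u ∈ S, N u = v → Function.Injective (fderiv ℝ N u) := by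
  have h1 : MeasureTheory.volume (N '' {u | u ∈ S ∧ (fderiv ℝ N u).det = 0}) = 0 :=
    MeasureTheory.addHaar_image_eq_zero_of_det_fderivWithin_eq_zero MeasureTheory.volume
      (f' := fun u => fderiv ℝ N u) (fun u hu => (hN u hu.1).hasFDerivAt.hasFDerivWithinAt)
      (fun _ hu => hu.2)
  have h2 : ¬ Metric.ball (0 : P2) δ ⊆ N '' {u | u ∈ S ∧ (fderiv ℝ N u).det = 0} := fun h =>
    (Metric.measure_ball_pos MeasureTheory.volume (0 : P2) hδ).ne'
      (MeasureTheory.measure_mono_null h h1)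
  obtain ⟨v, hv, hv'⟩ := not_subset.1 h2
  refine ⟨v, mem_ball_zero_iff.1 hv, fun u hu h => ?_⟩
  have h3 : LinearMap.det (fderiv ℝ N u : P2 →ₗ[ℝ] P2) ≠ 0 := fun h0 => hv' ⟨u, ⟨hu, h0⟩, h⟩
  rw [Ne, LinearMap.det_eq_zero_iff_ker_ne_bot, not_not, LinearMap.ker_eq_bot] at h3
  exact h3

end Pool.Agent.Lib.MP_4d7d0a_gt
end

-- part Pool.Agent.Lib.MP_4d7d0a_gt.TAN
section

/-! Normalisation of an overtwisted disc. -/

set_option autoImplicit false

open Set Filter Topology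
open scoped ContDiff

namespace Pool.Agent.Lib.MP_4d7d0a_gt

variable {M : Type} [TopologicalSpace M] [ChartedSpace P3 M] [T2Space M]

omit [T2Space M] in
theorem tan_symm (hA : IsContactAtlas M) (m : M) {p : P3} (hp : p ∈ (chartAt P3 m).target) :
    CtInto (chartAt P3 m).symm p := by
  refine ctInto_of_chart hA ((chartAt P3 m).continuousAt_symm hp) (chart_mem_atlas P3 m)
    ((chartAt P3 m).map_target hp) ((contactAt_id p).congr ?_)
  filter_upwards [(chartAt P3 m).open_target.mem_nhds hp] with q hq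
  exact (chartAt P3 m).right_inv hq

/-- the disc can be moved off a point -/
theorem ot_off_point (hA : IsContactAtlas M) (m : M) {f : P2 → M} (hf : IsOTDisc f) :
    ∃ f' : P2 → M, IsOTDisc f' ∧ ∀ u ∈ disc, f' u ≠ m := by
  set e := chartAt P3 m with he
  have h0 : e m ∈ e.target := mem_chart_target P3 m
  obtain ⟨r, hr, hb⟩ := Metric.nhds_basis_closedBall.mem_iff.1 (e.open_target.mem_nhds h0)
  obtain ⟨δ, hδ, hmv⟩ := point_move (e m) hr
  have hF : ∀ p ∈ e.target, CtInto e.symm p := fun p hp => tan_symm hA m hp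
  have hq : ∀ u ∈ {u | u ∈ disc ∧ f u ∈ e.source}, ContDiffAt ℝ ∞ (fun w => e (f w)) u := by
    rintro u ⟨hu, hs⟩
    have h1 : e (f u) ∈ e.target := e.map_source hs
    obtain ⟨q, h2, h3⟩ := exists_lift hA ((e.open_target.eventually_mem h1).mono hF) (hf.smAt hu)
      (e.left_inv hs).symm
    refine h3.1.congr_of_eventuallyEq ?_
    filter_upwards [h3.2, h3.1.continuousAt.preimage_mem_nhds
      (e.open_target.mem_nhds (h2 ▸ h1))] with w h4 h5
    rw [h4, e.right_inv h5]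
  obtain ⟨p₁, d1, hfree⟩ := free_point hq (e m) (lt_min hδ hr)
  obtain ⟨h, g, hc, hid, hp⟩ := hmv p₁ (lt_of_lt_of_le d1 (min_le_left _ _))
  have hi : Function.Injective h := Function.LeftInverse.injective hc.2.2.1
  have t1 : p₁ ∈ e.target := hb (Metric.mem_closedBall.2 (d1.le.trans (min_le_right _ _)))
  have hm : MapsTo h e.target e.target := fun p hp => by
    by_contra h3
    have h4 : h (h p) = h p := hid _ (by
      by_contra h5
      exact h3 (hb (Metric.mem_closedBall.2 (not_le.1 h5).le)))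
    exact h3 (by rwa [hi h4])
  have hinj : InjOn e.symm e.target := e.symm.injOn
  obtain ⟨Φ, a1, a2, a3, -⟩ := ot_mod hA e.open_target hF hm
    (fun p _ => ⟨(hc.1 p).1, fderiv_inj_of_contact (Eventually.of_forall hc.1)⟩)
    (fun p hp q hq => ⟨fun h1 => by rw [hinj hp hq h1],
      fun h1 => by rw [hi (hinj (hm hp) (hm hq) h1)]⟩)
    (Z := e.symm '' Metric.closedBall (e m) r)
    ((isCompact_closedBall _ _).image_of_continuousOn (e.continuousOn_symm.mono hb)).isClosed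
    (image_mono hb) (fun p _ h1 => hid p (by
      by_contra h5
      exact h1 ⟨p, Metric.mem_closedBall.2 (not_le.1 h5).le, rfl⟩)) hf (Or.inl fun p _ => hc.1 p)
  refine ⟨_, a1, fun u hu h1 => ?_⟩
  have h2 : Φ (e.symm p₁) = m := by rw [a3 _ t1, hp, e.left_inv (mem_chart_source P3 m)]
  have h3 : f u = e.symm p₁ := a2 (h1.trans h2.symm)
  exact hfree u ⟨hu, h3 ▸ e.map_target t1⟩ (by simp only [h3, e.right_inv t1])

omit [TopologicalSpace M] [ChartedSpace P3 M] [T2Space M] in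
/-- the normal coordinate of the disc is the normal part of a lift -/
theorem tan_nc {F : P3 → M} {r : ℝ} {nc : M → P2} (hn : ∀ p ∈ tube r, nc (F p) = p.2)
    {f : P2 → M} {q : P2 → P3} {u : P2} (hq : Lift F f q u) (hp : q u ∈ tube r) :
    (fun w => nc (f w)) =ᶠ[𝓝 u] fun w => (q w).2 := by
  filter_upwards [hq.2, hq.1.continuousAt.preimage_mem_nhds ((isOpen_tube r).mem_nhds hp)]
    with w h1 h2
  rw [h1, hn _ h2]

theorem tan_circ {u : P2} (hu : u ∈ circ) : ∃ t : ℝ, u = (Real.cos t, Real.sin t) := by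
  have h1 : u.1 ^ 2 + u.2 ^ 2 = 1 := hu
  have h2 : ‖(⟨u.1, u.2⟩ : ℂ)‖ = 1 := by
    rw [Complex.norm_eq_sqrt_sq_add_sq]
    simp only [h1, Real.sqrt_one]
  have h3 : (⟨u.1, u.2⟩ : ℂ) ≠ 0 := fun h => by simp [h] at h2
  refine ⟨Complex.arg ⟨u.1, u.2⟩, Prod.ext ?_ ?_⟩
  · simp only [Complex.cos_arg h3, h2, div_one]
  · simp only [Complex.sin_arg, h2, div_one]

/-- the boundary can be moved off the core of a contact tube -/
theorem ot_off_core (hA : IsContactAtlas M) {F : P3 → M} {r : ℝ} (hr : 0 < r)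
    (hT : TubeMap F r) (hF : ∀ p ∈ tube r, CtInto F p) {m : M} (hm : ∀ x : ℝ, F (x, 0, 0) ≠ m)
    {f : P2 → M} (hf : IsOTDisc f) (h1 : ∀ u ∈ disc, f u ≠ m) :
    ∃ f' : P2 → M, IsOTDisc f' ∧ (∀ u ∈ disc, f' u ≠ m) ∧
      ∀ u ∈ circ, ∀ x : ℝ, f' u ≠ F (x, 0, 0) := by
  obtain ⟨ρ, ρ0, -, hmod⟩ := ot_tube hA hr hT hF (isClosed_singleton (x := m)) hm
  obtain ⟨δ, hδ, hsh⟩ := tube_shift ρ0
  obtain ⟨nc, hn⟩ := exists_nc hT
  have ev : ∀ p ∈ tube r, ∀ᶠ x in 𝓝 p, CtInto F x := fun p hp =>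
    ((isOpen_tube r).eventually_mem hp).mono hF
  have hc : ∀ t : ℝ, ((Real.cos t, Real.sin t) : P2) ∈ circ := fun t => Real.cos_sq_add_sin_sq t
  have hz : ∀ t ∈ {t : ℝ | ∃ p ∈ tube r, p.2.1 = 0 ∧ f (Real.cos t, Real.sin t) = F p},
      HasDerivAt (fun t : ℝ => (nc (f (Real.cos t, Real.sin t))).2) 0 t := by
    rintro t ⟨p, hp, hy, hfp⟩
    obtain ⟨q, rfl, hq⟩ := exists_lift hA (ev p hp) (hf.smAt (circ_subset (hc t))) hfp
    have d1 : HasDerivAt (fun t : ℝ => ((Real.cos t, Real.sin t) : P2)) (-Real.sin t, Real.cos t) t :=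
      (Real.hasDerivAt_cos t).prodMk (Real.hasDerivAt_sin t)
    have d2 := (locA_hasFDerivAt hq.1).comp_hasDerivAt t d1
    have d3 : HasDerivAt (fun t : ℝ => (q (Real.cos t, Real.sin t)).2.2)
        (fderiv ℝ q (Real.cos t, Real.sin t) (-Real.sin t, Real.cos t)).2.2 t := d2.snd.snd
    obtain ⟨c, c0, a1⟩ := hq.al_eq (hF _ hp)
    have a2 := hf.2.2.2.1 _ (hc t)
    rw [a1] at a2
    have a3 := (mul_eq_zero.1 a2).resolve_left c0.ne'
    simp only [al, hy, zero_mul, sub_zero] at a3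
    rw [a3] at d3
    refine d3.congr_of_eventuallyEq ?_
    filter_upwards [d1.continuousAt.eventually (tan_nc hn hq hp)] with s hs
    rw [hs]
  obtain ⟨c, c1, c2⟩ := sard_one hz (lt_min hδ hr)
  obtain ⟨h, g, s1, -, s3, -, s5, s6, s7⟩ := hsh c (lt_of_lt_of_le c1 (min_le_left _ _))
  obtain ⟨Φ, a1, a2, a3, a4⟩ := hmod h (Function.LeftInverse.injective s3)
    (fun p => ⟨(s1 p).1, fderiv_inj_of_contact (Eventually.of_forall s1)⟩) s5 s6 f hf (Or.inl s1)
  refine ⟨_, a1, fun u hu h2 => h1 u hu (a2 (h2.trans (a4 m rfl).symm)), fun u hu x h2 => ?_⟩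
  have t1 : ((x, 0, c) : P3) ∈ tube r := by
    have h3 : c ^ 2 < r ^ 2 := sq_lt_sq' (by linarith [(abs_lt.1 (c1.trans_le (min_le_right _ _))).1])
      (abs_lt.1 (c1.trans_le (min_le_right _ _))).2
    simpa [tube] using h3
  have h3 : f u = F (x, 0, c) := a2 (by rw [a3 _ t1, s7]; exact h2)
  obtain ⟨t, rfl⟩ := tan_circ hu
  exact c2 t ⟨_, t1, rfl, h3⟩ (by simp only [h3, hn _ t1])

/-- the disc can be made transverse to the core -/
theorem ot_transverse (hA : IsContactAtlas M) {F : P3 → M} {r : ℝ} (hr : 0 < r)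
    (hT : TubeMap F r) (hF : ∀ p ∈ tube r, CtInto F p) {m : M} (hm : ∀ x : ℝ, F (x, 0, 0) ≠ m)
    {f : P2 → M} (hf : IsOTDisc f) (h1 : ∀ u ∈ disc, f u ≠ m)
    (h2 : ∀ u ∈ circ, ∀ x : ℝ, f u ≠ F (x, 0, 0)) :
    ∃ f' : P2 → M, IsOTDisc f' ∧ (∀ u ∈ disc, f' u ≠ m) ∧
      (∀ u ∈ circ, ∀ x : ℝ, f' u ≠ F (x, 0, 0)) ∧
      ∀ u ∈ disc, ∀ x : ℝ, f' u = F (x, 0, 0) → Tr F f' u := by
  have hC : IsClosed (insert m (f '' circ)) :=
    ((isCompact_circ.image_of_continuousOn fun u hu =>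
      (hf.smAt (circ_subset hu)).1.continuousWithinAt).insert m).isClosed
  obtain ⟨ρ, ρ0, -, hmod⟩ := ot_tube hA hr hT hF hC (by
    rintro x (h3 | ⟨u, hu, h3⟩)
    · exact hm x h3
    · exact h2 u hu x h3)
  obtain ⟨δ, hδ, hsh⟩ := plane_push ρ0
  obtain ⟨nc, hn⟩ := exists_nc hT
  have ev : ∀ p ∈ tube r, ∀ᶠ x in 𝓝 p, CtInto F x := fun p hp =>
    ((isOpen_tube r).eventually_mem hp).mono hF
  have hN : ∀ u ∈ {u | u ∈ disc ∧ ∃ p ∈ tube r, f u = F p},
      DifferentiableAt ℝ (fun w => nc (f w)) u := by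
    rintro u ⟨hu, p, hp, hfp⟩
    obtain ⟨q, rfl, hq⟩ := exists_lift hA (ev p hp) (hf.smAt hu) hfp
    exact (locA_hasFDerivAt hq.1).snd.differentiableAt.congr_of_eventuallyEq (tan_nc hn hq hp)
  obtain ⟨v, v1, v2⟩ := sard_two hN (lt_min hδ (half_pos hr))
  obtain ⟨k, k1, k2, k3, k4, k5⟩ := hsh v (lt_of_lt_of_le v1 (min_le_left _ _))
  have kd : ∀ w, HasFDerivAt k (fderiv ℝ k w) w := fun w => locA_hasFDerivAt k1.contDiffAt
  have hs : ContDiff ℝ ∞ fun p : P3 => ((p.1, k p.2) : P3) := by fun_prop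
  obtain ⟨Φ, a1, a2, a3, a4⟩ := hmod (fun p => (p.1, k p.2))
    (fun p p' h3 => Prod.ext (Prod.ext_iff.1 h3).1 (k2 (Prod.ext_iff.1 h3).2))
    (fun p => ⟨hs.contDiffAt, by
      have d : HasFDerivAt (fun p : P3 => ((p.1, k p.2) : P3)) ((ContinuousLinearMap.fst ℝ ℝ P2).prod
          ((fderiv ℝ k p.2).comp (ContinuousLinearMap.snd ℝ ℝ P2))) p :=
        hasFDerivAt_fst.prodMk ((kd p.2).comp p hasFDerivAt_snd)
      rw [d.fderiv]
      exact fun y y' h3 => Prod.ext (Prod.ext_iff.1 h3).1 (k3 _ (Prod.ext_iff.1 h3).2)⟩)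
    (fun p hp => Prod.ext rfl (k4 _ (not_lt.1 hp))) (fun _ _ => rfl) f hf
    (Or.inr fun u hu => Or.inr ⟨u, hu, rfl⟩)
  refine ⟨_, a1, fun u hu h3 => h1 u hu (a2 (h3.trans (a4 m (Or.inl rfl)).symm)),
    fun u hu x h3 => h2 u hu x ((a4 _ (Or.inr ⟨u, hu, rfl⟩)).symm.trans h3), fun u hu x h3 => ?_⟩
  have t1 : ((x, v) : P3) ∈ tube r := by
    have h4 : ‖v‖ < r / 2 := v1.trans_le (min_le_right _ _)
    have h5 : |v.1| < r / 2 := lt_of_le_of_lt (norm_fst_le v) h4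
    have h6 : |v.2| < r / 2 := lt_of_le_of_lt (norm_snd_le v) h4
    have h7 := sq_lt_sq' (abs_lt.1 h5).1 (abs_lt.1 h5).2
    have h8 := sq_lt_sq' (abs_lt.1 h6).1 (abs_lt.1 h6).2
    show v.1 ^ 2 + v.2 ^ 2 < r ^ 2
    nlinarith
  have h4 : f u = F (x, v) := a2 (by
    rw [a3 _ t1]
    simp only [k5]
    exact h3)
  obtain ⟨q, q1, hq⟩ := exists_lift hA (ev _ t1) (hf.smAt hu) h4
  have t2 : q u ∈ tube r := q1 ▸ t1
  have i1 := v2 u ⟨hu, _, t1, h4⟩ (by simp only [h4, hn _ t1])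
  have d1 := (locA_hasFDerivAt hq.1).snd
  rw [(tan_nc hn hq t2).fderiv_eq, d1.fderiv] at i1
  refine ⟨fun w => ((q w).1, k (q w).2), ⟨hs.contDiffAt.comp u hq.1, ?_⟩, by simp only [q1, k5], ?_⟩
  · filter_upwards [hq.2, hq.1.continuousAt.preimage_mem_nhds ((isOpen_tube r).mem_nhds t2)]
      with w h5 h6
    rw [h5, a3 _ h6]
  · have d2 := (locA_hasFDerivAt hq.1).fst.prodMk ((kd (q u).2).comp u d1)
    have d3 : fderiv ℝ (fun w => (((q w).1, k (q w).2) : P3)) u = _ := d2.fderiv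
    rw [d3]
    exact fun y y' h5 => i1 (k3 _ h5)

end Pool.Agent.Lib.MP_4d7d0a_gt
end

-- part Pool.Agent.Lib.MP_4d7d0a_gt.TA
section

/-! The manifold half of the tightness proof. -/

set_option autoImplicit false

open Set Filter Topology
open scoped ContDiff

namespace Pool.Agent.Lib.MP_4d7d0a_gt

theorem ta_holds : TAStmt := by
  intro M _ _ _ hA K sd hK f hf
  have hm : ∀ x : ℝ, sd.ns (x, 0, 0) ≠ sd.minf := fun x h => sd.minf_not ⟨x, h⟩
  obtain ⟨f1, a1, a2⟩ := ot_off_point hA sd.minf hf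
  obtain ⟨f2, b1, b2, b3⟩ := ot_off_core hA sd.r_pos sd.ns_tube sd.ns_ct hm a1 a2
  obtain ⟨f3, c1, c2, c3, c4⟩ := ot_transverse hA sd.r_pos sd.ns_tube sd.ns_ct hm b1 b2 b3
  exact surf_of_normal hA sd hK c1 c2 c3 c4

end Pool.Agent.Lib.MP_4d7d0a_gt
end
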