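import Pool.Agent.Lib.MP_4d7d0a_gt.TBCab
import Pool.Agent.Lib.MP_4d7d0a_gt.TFP
import Pool.Agent.Lib.MP_4d7d0a_gt.TA

-- part Pool.Agent.Lib.MP_4d7d0a_gt.Can
section

/-! The canonical chart along a Legendrian curve. -/

set_option autoImplicit false

open Set Filter Topology
open scoped ContDiff

namespace Pool.Agent.Lib.MP_4d7d0a_gt

theorem can_core (K : ℝ → P3) (x z : ℝ) : can K (x, 0, z) = K x + (0, 0, z) := by
  simp [can, canPsi, Prod.ext_iff]

theorem can_z (K : ℝ → P3) (x y z c : ℝ) : can K (x, y, z + c) = can K (x, y, z) + (0, 0, c) :=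
  by
  simp only [can, Prod.mk_add_mk, add_zero, Prod.mk.injEq, true_and]
  ring

theorem can_add_z (K : ℝ → P3) (c : ℝ) (p : P3) :
    can (fun t => K t + (0, 0, c)) p = can K p + (0, 0, c) := by
  simp only [can, canPsi, deriv_add_const', Prod.mk_add_mk, add_zero, Prod.mk.injEq, true_and,
    Prod.fst_add, Prod.snd_add]
  ring

theorem can_shift (K : ℝ → P3) (c : ℝ) (p : P3) :
    can (fun t => K (t + c)) p = can K (p.1 + c, p.2) := by
  have h1 : (deriv fun t => K (t + c)) = fun t => deriv K (t + c) :=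
    funext fun t => deriv_comp_add_const K c t
  have h2 : (deriv fun t => deriv K (t + c)) = fun t => deriv (deriv K) (t + c) :=
    funext fun t => deriv_comp_add_const (deriv K) c t
  simp only [can, canPsi, h1, h2]

theorem can_periodic {K : ℝ → P3} (h : ∀ t, K (t + 1) = K t) (p : P3) :
    can K (p.1 + 1, p.2) = can K p := by
  rw [← can_shift, funext h]

/-- the chart only depends on the germ of the curve -/
theorem can_congr {K K' : ℝ → P3} {p : P3} (h : K =ᶠ[𝓝 p.1] K') : can K p = can K' p := by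
  simp only [can, canPsi, h.eq_of_nhds, h.deriv.eq_of_nhds, h.deriv.deriv.eq_of_nhds]

/-- along a segment in the `y`-direction traversed with velocity `-v` -/
theorem can_tip {K : ℝ → P3} {p : P3} {x₀ y₀ z₀ v : ℝ} (hv : 0 < v)
    (h : ∀ᶠ t in 𝓝 p.1, K t = (x₀, y₀ - v * t, z₀)) :
    can K p = (x₀ + p.2.1 / v, y₀ - v * p.1, z₀ + p.2.2 + (y₀ - v * p.1) * (p.2.1 / v)) := by
  have h1 : (deriv fun t : ℝ => ((x₀, y₀ - v * t, z₀) : P3)) = fun _ => (0, -v, 0) := by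
    funext t
    have := (hasDerivAt_const t x₀).prodMk
      ((((hasDerivAt_id t).const_mul v).const_sub y₀).prodMk (hasDerivAt_const t z₀))
    simpa using this.deriv
  have h2 : √((v ^ 2) ^ 2) = v ^ 2 := Real.sqrt_sq (sq_nonneg v)
  have h3 : canPsi (fun t : ℝ => ((x₀, y₀ - v * t, z₀) : P3)) p.1 p.2.1 = p.2.1 / v ^ 2 := by
    simp only [canPsi, h1, deriv_const', Prod.fst_zero, Prod.snd_zero, zero_mul, sub_self,
      mul_zero, add_zero, even_two, Even.neg_pow, ne_eq, OfNat.ofNat_ne_zero, not_false_eq_true,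
      zero_pow, zero_add, h2]
    field_simp
    ring
  rw [can_congr (K' := fun t => (x₀, y₀ - v * t, z₀)) h]
  simp only [can, h3, h1, Prod.mk.injEq]
  refine ⟨?_, ?_, ?_⟩ <;> field_simp <;> ring

/-- along a segment of slope `y₀` traversed with `x`-velocity `v` -/
theorem can_flat {K : ℝ → P3} {p : P3} {x₀ y₀ z₀ v : ℝ} (hv : v ≠ 0)
    (h : ∀ᶠ t in 𝓝 p.1, K t = (x₀ + v * t, y₀, z₀ + y₀ * v * t)) :
    can K p = (x₀ + v * p.1, y₀ + p.2.1 / v, z₀ + y₀ * v * p.1 + p.2.2) := by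
  have h1 : (deriv fun t : ℝ => ((x₀ + v * t, y₀, z₀ + y₀ * v * t) : P3)) =
      fun _ => (v, 0, y₀ * v) := by
    funext t
    have := (((hasDerivAt_id t).const_mul v).const_add x₀).prodMk
      ((hasDerivAt_const t y₀).prodMk (((hasDerivAt_id t).const_mul (y₀ * v)).const_add z₀))
    simpa using this.deriv
  have h2 : √((v ^ 2) ^ 2) = v ^ 2 := Real.sqrt_sq (sq_nonneg v)
  have h3 : canPsi (fun t : ℝ => ((x₀ + v * t, y₀, z₀ + y₀ * v * t) : P3)) p.1 p.2.1 =
      p.2.1 / v ^ 2 := by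
    simp only [canPsi, h1, deriv_const', Prod.fst_zero, Prod.snd_zero, zero_mul, sub_self,
      mul_zero, add_zero, ne_eq, OfNat.ofNat_ne_zero, not_false_eq_true, zero_pow, h2]
    field_simp
    ring
  rw [can_congr (K' := fun t => (x₀ + v * t, y₀, z₀ + y₀ * v * t)) h]
  simp only [can, h3, h1, Prod.mk.injEq]
  refine ⟨?_, ?_, ?_⟩ <;> field_simp <;> ring

namespace CanAux

/-- the displacement as a function of the jet -/
noncomputable def ps (u w : P3) (Y : ℝ) : ℝ :=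
  2 * Y / ((u.1 ^ 2 + u.2.1 ^ 2) +
    Real.sqrt ((u.1 ^ 2 + u.2.1 ^ 2) ^ 2 + 2 * (w.1 * u.2.1 - w.2.1 * u.1) * Y))

/-- the region where the displacement is smooth -/
def Good (u w : P3) (Y : ℝ) : Prop :=
  0 < u.1 ^ 2 + u.2.1 ^ 2 ∧ 0 < (u.1 ^ 2 + u.2.1 ^ 2) ^ 2 + 2 * (w.1 * u.2.1 - w.2.1 * u.1) * Y

theorem ps_spec {u w : P3} {Y : ℝ} (h : Good u w Y) :
    (u.1 ^ 2 + u.2.1 ^ 2) * ps u w Y + (w.1 * u.2.1 - w.2.1 * u.1) * ps u w Y ^ 2 / 2 = Y := by
  obtain ⟨h1, h2⟩ := h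
  have h3 := Real.sq_sqrt h2.le
  have h4 := Real.sqrt_nonneg ((u.1 ^ 2 + u.2.1 ^ 2) ^ 2 + 2 * (w.1 * u.2.1 - w.2.1 * u.1) * Y)
  unfold ps
  generalize √((u.1 ^ 2 + u.2.1 ^ 2) ^ 2 + 2 * (w.1 * u.2.1 - w.2.1 * u.1) * Y) = R at h3 h4 ⊢
  generalize u.1 ^ 2 + u.2.1 ^ 2 = N at h1 h3 ⊢
  generalize w.1 * u.2.1 - w.2.1 * u.1 = D at h3 ⊢
  have h5 : N + R ≠ 0 := by positivity
  field_simp
  linear_combination (-Y) * h3

variable {E : Type} [NormedAddCommGroup E] [NormedSpace ℝ E]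

theorem ps_smooth {u w : E → P3} {Y : E → ℝ} {a : E} (hu : ContDiffAt ℝ ∞ u a)
    (hw : ContDiffAt ℝ ∞ w a) (hY : ContDiffAt ℝ ∞ Y a) (h : Good (u a) (w a) (Y a)) :
    ContDiffAt ℝ ∞ (fun a => ps (u a) (w a) (Y a)) a := by
  unfold ps
  refine ContDiffAt.div (by fun_prop) (ContDiffAt.add (by fun_prop)
    (ContDiffAt.sqrt (by fun_prop) h.2.ne')) ?_
  exact (add_pos_of_pos_of_nonneg h.1 (Real.sqrt_nonneg _)).ne'

theorem poly_smooth {A B : E → P3} {ψ Z : E → ℝ} {a : E} (hA : ContDiffAt ℝ ∞ A a)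
    (hB : ContDiffAt ℝ ∞ B a) (hψ : ContDiffAt ℝ ∞ ψ a) (hZ : ContDiffAt ℝ ∞ Z a) :
    ContDiffAt ℝ ∞ (fun a => (((A a).1 - (B a).2.1 * ψ a, (A a).2.1 + (B a).1 * ψ a,
      (A a).2.2 + Z a - (A a).2.1 * (B a).2.1 * ψ a - (B a).1 * (B a).2.1 * ψ a ^ 2 / 2) : P3))
      a := by
  fun_prop

theorem deriv_fam {G : ℝ → ℝ → P3} (hs : ContDiff ℝ ∞ fun a : ℝ × ℝ => G a.1 a.2) :
    ContDiff ℝ ∞ fun a : ℝ × ℝ => deriv (G a.1) a.2 := by
  have h1 : ContDiff ℝ ∞ (Function.uncurry fun (a : ℝ × ℝ) (t : ℝ) => G a.1 t) :=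
    hs.comp (contDiff_fst.fst.prodMk contDiff_snd)
  exact (h1.fderiv (n := ∞) contDiff_snd (by simp)).clm_apply contDiff_const

theorem psi_smooth {G : ℝ → ℝ → P3} (hs : ContDiff ℝ ∞ fun a : ℝ × ℝ => G a.1 a.2) {a : ℝ × P3}
    (h : Good (deriv (G a.1) a.2.1) (deriv (deriv (G a.1)) a.2.1) a.2.2.1) :
    ContDiffAt ℝ ∞ (fun a : ℝ × P3 => canPsi (G a.1) a.2.1 a.2.2.1) a := by
  have h0 : ContDiff ℝ ∞ fun a : ℝ × P3 => (a.1, a.2.1) := by fun_prop
  exact ps_smooth ((deriv_fam hs).comp h0).contDiffAt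
    ((deriv_fam (G := fun s => deriv (G s)) (deriv_fam hs)).comp h0).contDiffAt
    (Y := fun a : ℝ × P3 => a.2.2.1) (by fun_prop) h

theorem can_smooth {G : ℝ → ℝ → P3} (hs : ContDiff ℝ ∞ fun a : ℝ × ℝ => G a.1 a.2) {a : ℝ × P3}
    (h : Good (deriv (G a.1) a.2.1) (deriv (deriv (G a.1)) a.2.1) a.2.2.1) :
    ContDiffAt ℝ ∞ (fun a : ℝ × P3 => can (G a.1) a.2) a := by
  have h0 : ContDiff ℝ ∞ fun a : ℝ × P3 => (a.1, a.2.1) := by fun_prop
  exact poly_smooth (hs.comp h0).contDiffAt ((deriv_fam hs).comp h0).contDiffAt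
    (psi_smooth hs h) (Z := fun a : ℝ × P3 => a.2.2.2) (by fun_prop)

theorem d1 {F : Type} [NormedAddCommGroup F] [NormedSpace ℝ F] {f : ℝ → ℝ × F} {f' : ℝ × F}
    {x : ℝ} (h : HasDerivAt f f' x) : HasDerivAt (fun t => (f t).1) f'.1 x :=
  (ContinuousLinearMap.fst ℝ ℝ F).hasFDerivAt.comp_hasDerivAt x h

theorem d2 {F : Type} [NormedAddCommGroup F] [NormedSpace ℝ F] {f : ℝ → ℝ × F} {f' : ℝ × F}
    {x : ℝ} (h : HasDerivAt f f' x) : HasDerivAt (fun t => (f t).2) f'.2 x :=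
  (ContinuousLinearMap.snd ℝ ℝ F).hasFDerivAt.comp_hasDerivAt x h

theorem can_al {K : ℝ → P3} (hK : IsLeg3 K) {p : P3}
    (h : Good (deriv K p.1) (deriv (deriv K) p.1) p.2.1) (v : P3) :
    al (can K p) (fderiv ℝ (can K) p v) = al p v := by
  have hs : ContDiff ℝ ∞ fun a : ℝ × ℝ => (fun _ : ℝ => K) a.1 a.2 := hK.1.comp contDiff_snd
  have hi : ContDiffAt ℝ ∞ (fun q : P3 => ((0 : ℝ), q)) p := by fun_prop
  have hc : DifferentiableAt ℝ (can K) p :=
    ((can_smooth (G := fun _ => K) hs (a := (0, p)) h).comp p hi).differentiableAt (by simp)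
  have hψ : DifferentiableAt ℝ (fun q : P3 => canPsi K q.1 q.2.1) p :=
    ((psi_smooth (G := fun _ => K) hs (a := (0, p)) h).comp p hi).differentiableAt (by simp)
  have hl : HasDerivAt (fun τ : ℝ => p + τ • v) v 0 := by
    simpa using ((hasDerivAt_id (0 : ℝ)).smul_const v).const_add p
  have hl0 : p = p + (0 : ℝ) • v := by simp
  have h1 := hc.hasFDerivAt.comp_hasDerivAt_of_eq 0 hl hl0
  have h2 := hψ.hasFDerivAt.comp_hasDerivAt_of_eq 0 hl hl0
  have hK1 : ContDiff ℝ ∞ (deriv K) := (contDiff_infty_iff_deriv.1 hK.1).2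
  have h3 := (hK.1.differentiable (by simp) p.1).hasDerivAt.scomp_of_eq (0 : ℝ) (d1 hl)
    (congrArg Prod.fst hl0)
  have h4 := (hK1.differentiable (by simp) p.1).hasDerivAt.scomp_of_eq (0 : ℝ) (d1 hl)
    (congrArg Prod.fst hl0)
  have h5 := ((d1 h3).sub ((d1 (d2 h4)).mul h2)).prodMk (((d1 (d2 h3)).add ((d1 h4).mul h2)).prodMk
    ((((d2 (d2 h3)).add (d2 (d2 hl))).sub (((d1 (d2 h3)).mul (d1 (d2 h4))).mul h2)).sub
      ((((d1 h4).mul (d1 (d2 h4))).mul (h2.pow 2)).div_const 2)))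
  have h6 := h1.unique h5
  have h7 := ps_spec h
  have h8 := hK.2.2.2.2 p.1
  have h9 : ps (deriv K p.1) (deriv (deriv K) p.1) p.2.1 = canPsi K p.1 p.2.1 := rfl
  rw [h9] at h7
  rw [h6]
  simp only [al, can, Function.comp_def, Pi.mul_apply, Pi.pow_apply, zero_smul, add_zero,
    Prod.smul_fst, Prod.smul_snd, smul_eq_mul] at h8 ⊢
  generalize fderiv ℝ (fun q : P3 => canPsi K q.1 q.2.1) p v = ψ'
  norm_num
  linear_combination v.1 * h8 - v.1 * h7

theorem reg {K : ℝ → P3} (hK : IsLeg3 K) (t : ℝ) :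
    0 < (deriv K t).1 ^ 2 + (deriv K t).2.1 ^ 2 := by
  by_contra h
  have h1 : (deriv K t).1 = 0 := by nlinarith [sq_nonneg (deriv K t).1, sq_nonneg (deriv K t).2.1]
  have h2 : (deriv K t).2.1 = 0 := by
    nlinarith [sq_nonneg (deriv K t).1, sq_nonneg (deriv K t).2.1]
  have h3 := hK.2.2.2.2 t
  simp only [al, h1, mul_zero, sub_zero] at h3
  exact hK.2.2.2.1 t (Prod.ext h1 (Prod.ext h2 h3))

theorem per_deriv {K : ℝ → P3} (h : ∀ t, K (t + 1) = K t) (t : ℝ) :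
    deriv K (t + 1) = deriv K t := by
  rw [← deriv_comp_add_const, funext h]

theorem per_fract {X : Type} {K : ℝ → X} (h : ∀ t, K (t + 1) = K t) (t : ℝ) :
    K (Int.fract t) = K t := by
  have h1 : Function.Periodic K 1 := h
  have := h1.sub_int_mul_eq (x := t) ⌊t⌋
  rwa [mul_one] at this

theorem can_int {K : ℝ → P3} (h : ∀ t, K (t + 1) = K t) (t : ℝ) (k : ℤ) (w : ℝ × ℝ) :
    can K (t + k, w) = can K (t, w) := by
  have h1 : Function.Periodic (fun x => can K (x, w)) 1 := fun x => can_periodic h (x, w)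
  have := h1.int_mul k t
  rwa [mul_one] at this

theorem fract_mem (t : ℝ) : Int.fract t ∈ Icc (0 : ℝ) 1 :=
  ⟨Int.fract_nonneg t, (Int.fract_lt_one t).le⟩

theorem good_unif {G : ℝ → ℝ → P3} (hs : ContDiff ℝ ∞ fun a : ℝ × ℝ => G a.1 a.2)
    (hl : ∀ s ∈ Icc (0 : ℝ) 1, IsLeg3 (G s)) : ∀ᶠ Y : ℝ in 𝓝 0, ∀ s ∈ Icc (0 : ℝ) 1, ∀ t,
      Good (deriv (G s) t) (deriv (deriv (G s)) t) Y := by
  have h1 := (deriv_fam hs).continuous
  have h2 := (deriv_fam (G := fun s => deriv (G s)) (deriv_fam hs)).continuous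
  have h3 := (isCompact_Icc.prod isCompact_Icc :
    IsCompact (Icc (0 : ℝ) 1 ×ˢ Icc (0 : ℝ) 1)).eventually_forall_of_forall_eventually (x₀ := (0 : ℝ))
    (P := fun Y a => 0 < ((deriv (G a.1) a.2).1 ^ 2 + (deriv (G a.1) a.2).2.1 ^ 2) ^ 2 +
      2 * ((deriv (deriv (G a.1)) a.2).1 * (deriv (G a.1) a.2).2.1 -
        (deriv (deriv (G a.1)) a.2).2.1 * (deriv (G a.1) a.2).1) * Y) fun a ha => by
      have h4 := h1.comp (continuous_snd (X := ℝ))
      have h5 := h2.comp (continuous_snd (X := ℝ))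
      refine ContinuousAt.eventually_lt continuousAt_const (Continuous.continuousAt ?_) ?_
      · exact (((h4.fst.pow 2).add (h4.snd.fst.pow 2)).pow 2).add ((continuous_const.mul
          ((h5.fst.mul h4.snd.fst).sub (h5.snd.fst.mul h4.fst))).mul continuous_fst)
      · have := reg (hl a.1 ha.1) a.2
        simp only [mul_zero, add_zero]
        positivity
  filter_upwards [h3] with Y hY s hs t
  have h4 := hY (s, Int.fract t) ⟨hs, fract_mem t⟩
  have h5 := per_deriv (hl s hs).2.1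
  simp only [per_fract h5, per_fract (per_deriv h5)] at h4
  exact ⟨reg (hl s hs) t, h4⟩

theorem loc_inj [FiniteDimensional ℝ E] {F : E → E} {a : E} (h : ContDiffAt ℝ ∞ F a)
    (hi : Function.Injective (fderiv ℝ F a)) : ∃ U ∈ 𝓝 a, InjOn F U := by
  have := FiniteDimensional.complete ℝ E
  obtain ⟨e, he⟩ : ∃ e : E ≃L[ℝ] E, (e : E →L[ℝ] E) = fderiv ℝ F a :=
    ⟨(LinearEquiv.ofInjectiveEndo (fderiv ℝ F a).toLinearMap hi).toContinuousLinearEquiv,
      ContinuousLinearMap.ext fun _ => rfl⟩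
  have h1 : HasStrictFDerivAt F (e : E →L[ℝ] E) a := he ▸ h.hasStrictFDerivAt (by simp)
  exact ⟨_, h1.eventually_left_inverse, fun x hx y hy hxy => by
    rw [← show _ = x from hx, hxy]; exact hy⟩

end CanAux

/-- smooth strict contact maps on a uniform strip, for a family -/
theorem can_fam {G : ℝ → ℝ → P3} (hs : ContDiff ℝ ∞ fun a : ℝ × ℝ => G a.1 a.2)
    (hl : ∀ s ∈ Icc (0 : ℝ) 1, IsLeg3 (G s)) : ∃ ε : ℝ, 0 < ε ∧
      (∀ s ∈ Icc (0 : ℝ) 1, ∀ p : P3, |p.2.1| < ε →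
        ContDiffAt ℝ ∞ (fun a : ℝ × P3 => can (G a.1) a.2) (s, p) ∧ ContactAt (can (G s)) p ∧
          ∀ v, al (can (G s) p) (fderiv ℝ (can (G s)) p v) = al p v) ∧
      ∀ δ : ℝ, 0 < δ → ∃ ε' : ℝ, 0 < ε' ∧ ∀ s ∈ Icc (0 : ℝ) 1, ∀ p : P3, |p.2.1| < ε' →
        ‖can (G s) p - (G s p.1 + (0, 0, p.2.2))‖ < δ := by
  obtain ⟨ε, hε, h⟩ := Metric.eventually_nhds_iff.1 (CanAux.good_unif hs hl)
  have hg : ∀ s ∈ Icc (0 : ℝ) 1, ∀ p : P3, |p.2.1| < ε →
      CanAux.Good (deriv (G s) p.1) (deriv (deriv (G s)) p.1) p.2.1 := fun s hs p hp =>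
    h (by simpa using hp) s hs p.1
  refine ⟨ε, hε, fun s hs' p hp => ?_, fun δ hδ => ?_⟩
  · have h1 := CanAux.can_smooth hs (a := (s, p)) (hg s hs' p hp)
    have h2 := CanAux.can_al (hl s hs') (hg s hs' p hp)
    exact ⟨h1, ⟨h1.comp p (f := fun q : P3 => (s, q)) (by fun_prop), 1, one_pos, fun v => by
      rw [h2, one_mul]⟩, h2⟩
  · have h3 := (isCompact_Icc.prod isCompact_Icc :
      IsCompact (Icc (0 : ℝ) 1 ×ˢ Icc (0 : ℝ) 1)).eventually_forall_of_forall_eventually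
      (x₀ := (0 : ℝ)) (P := fun Y a => ‖can (G a.1) (a.2, Y, 0) - G a.1 a.2‖ < δ) fun a ha => by
        have h1 := (CanAux.can_smooth hs (a := (a.1, a.2, 0, 0))
          (hg a.1 ha.1 (a.2, 0, 0) (by simpa using hε))).continuousAt
        have h2 : ContinuousAt (fun z : ℝ × ℝ × ℝ => can (G z.2.1) (z.2.2, z.1, 0)) (0, a) :=
          h1.comp_of_eq (f := fun z : ℝ × ℝ × ℝ => (z.2.1, z.2.2, z.1, 0)) (by fun_prop) rfl
        refine ContinuousAt.eventually_lt
          (h2.sub (hs.continuous.comp continuous_snd).continuousAt).norm continuousAt_const ?_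
        simpa [can_core] using hδ
    obtain ⟨ε', hε', h4⟩ := Metric.eventually_nhds_iff.1 h3
    refine ⟨ε', hε', fun s hs' p hp => ?_⟩
    obtain ⟨x, y, z⟩ := p
    have h5 := h4 (y := y) (by simpa using hp) (s, Int.fract x) ⟨hs', CanAux.fract_mem x⟩
    have h6 := CanAux.per_fract (K := fun x => can (G s) (x, y, 0))
      (fun x => can_periodic (hl s hs').2.1 (x, y, 0)) x
    simp only [h6, CanAux.per_fract (hl s hs').2.1] at h5
    have h7 := can_z (G s) x y 0 z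
    rw [zero_add] at h7
    rwa [h7, add_sub_add_right_eq_sub]

namespace CanAux

theorem fam_inj {G : ℝ → ℝ → P3} (hs : ContDiff ℝ ∞ fun a : ℝ × ℝ => G a.1 a.2)
    (hl : ∀ s ∈ Icc (0 : ℝ) 1, IsLeg3 (G s)) {s : ℝ} (hs' : s ∈ Icc (0 : ℝ) 1) (t : ℝ) :
    ∃ U ∈ 𝓝 ((s, t, 0, 0) : ℝ × P3), InjOn (fun a : ℝ × P3 => (a.1, can (G a.1) a.2)) U := by
  obtain ⟨ε, hε, h, -⟩ := can_fam hs hl
  have h1 := (h s hs' (t, 0, 0) (by simpa using hε)).1
  have h2 : Function.Injective (fderiv ℝ (can (G s)) (t, 0, 0)) := by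
    refine fderiv_inj_of_contact ?_
    have h3 : ∀ᶠ q : P3 in 𝓝 (t, 0, 0), |q.2.1| < ε :=
      ContinuousAt.eventually_lt (by fun_prop) continuousAt_const (by simpa using hε)
    exact h3.mono fun q hq => (h s hs' q hq).2.1
  refine loc_inj (contDiffAt_fst.prodMk h1) ?_
  have h3 := (h1.differentiableAt (by simp)).hasFDerivAt
  have h4 := (h3.comp ((t, 0, 0) : P3) (hasFDerivAt_prodMk_right s ((t, 0, 0) : P3))).fderiv
  rw [(hasFDerivAt_fst.prodMk h3).fderiv, injective_iff_map_eq_zero]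
  rintro ⟨σ, v⟩ hv
  obtain ⟨h5, h6⟩ := Prod.ext_iff.1 hv
  have h7 : σ = 0 := h5
  subst h7
  have h8 : fderiv ℝ (can (G s)) (t, 0, 0) v = 0 := by
    rw [show can (G s) = (fun a : ℝ × P3 => can (G a.1) a.2) ∘ fun q => (s, q) from rfl, h4]
    exact h6
  rw [(injective_iff_map_eq_zero _).1 h2 v h8]
  rfl

theorem pair {G G' : ℝ → ℝ → P3} (hs : ContDiff ℝ ∞ fun a : ℝ × ℝ => G a.1 a.2)
    (hl : ∀ s ∈ Icc (0 : ℝ) 1, IsLeg3 (G s)) (hs' : ContDiff ℝ ∞ fun a : ℝ × ℝ => G' a.1 a.2)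
    (hl' : ∀ s ∈ Icc (0 : ℝ) 1, IsLeg3 (G' s)) {c : ℝ} {Q : Prop}
    (h : ∀ s ∈ Icc (0 : ℝ) 1, ∀ t t' τ : ℝ, |τ| ≤ c → G s t = G' s t' + (0, 0, τ) →
      Q ∧ G' = G ∧ τ = 0) :
    ∀ᶠ w : ℝ × ℝ × ℝ in 𝓝 0, ∀ s ∈ Icc (0 : ℝ) 1, ∀ t t' τ : ℝ, |τ| ≤ c →
      can (G s) (t, w.1, 0) = can (G' s) (t', w.2.1, τ + w.2.2) →
        Q ∧ w.1 = w.2.1 ∧ τ + w.2.2 = 0 ∧ ∃ k : ℤ, t = t' + k := by
  obtain ⟨ε, hε, h1, -⟩ := can_fam hs hl
  obtain ⟨ε', hε', h1', -⟩ := can_fam hs' hl'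
  have h3 := (isCompact_Icc.prod (isCompact_Icc.prod (isCompact_Icc.prod isCompact_Icc)) :
    IsCompact (Icc (0 : ℝ) 1 ×ˢ Icc (0 : ℝ) 1 ×ˢ Icc (0 : ℝ) 1 ×ˢ
      Icc (-c) c)).eventually_forall_of_forall_eventually (x₀ := (0 : ℝ × ℝ × ℝ))
    (P := fun w a => a.1 ∈ Icc (0 : ℝ) 1 →
      can (G a.1) (a.2.1, w.1, 0) = can (G' a.1) (a.2.2.1, w.2.1, a.2.2.2 + w.2.2) →
        Q ∧ w.1 = w.2.1 ∧ a.2.2.2 + w.2.2 = 0 ∧ ∃ k : ℤ, a.2.1 = a.2.2.1 + k) fun a ha => by
      obtain ⟨s, t, t', τ⟩ := a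
      have hs0 : s ∈ Icc (0 : ℝ) 1 := ha.1
      by_cases hc : G s t = G' s t' + (0, 0, τ)
      · obtain ⟨hQ, rfl, rfl⟩ := h s hs0 t t' τ (abs_le.2 ha.2.2.2) hc
        obtain ⟨k, hk⟩ := (hl s hs0).eq_iff.1 (hc.trans (add_zero _))
        obtain ⟨U, hU, hi⟩ := fam_inj hs hl hs0 t
        have e1 : ContinuousAt (fun z : (ℝ × ℝ × ℝ) × ℝ × ℝ × ℝ × ℝ =>
            ((z.2.1, z.2.2.1, z.1.1, 0) : ℝ × P3)) (0, s, t, t', 0) := by fun_prop
        have e2 : ContinuousAt (fun z : (ℝ × ℝ × ℝ) × ℝ × ℝ × ℝ × ℝ =>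
            ((z.2.1, z.2.2.2.1 + k, z.1.2.1, z.2.2.2.2 + z.1.2.2) : ℝ × P3)) (0, s, t, t', 0) := by
          fun_prop
        filter_upwards [e1.preimage_mem_nhds hU,
          e2.preimage_mem_nhds (by simpa [← hk] using hU)] with z m1 m2 hz he
        have h4 := hi m1 m2 (Prod.ext rfl (he.trans (can_int (hl _ hz).2.1 _ k _).symm))
        simp only [Prod.mk.injEq, true_and] at h4
        exact ⟨hQ, h4.2.1, h4.2.2.symm, k, h4.1⟩
      · have e1 : ContinuousAt (fun z : (ℝ × ℝ × ℝ) × ℝ × ℝ × ℝ × ℝ =>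
            can (G z.2.1) (z.2.2.1, z.1.1, 0)) (0, s, t, t', τ) :=
          (h1 s hs0 (t, 0, 0) (by simpa using hε)).1.continuousAt.comp_of_eq
            (f := fun z : (ℝ × ℝ × ℝ) × ℝ × ℝ × ℝ × ℝ => ((z.2.1, z.2.2.1, z.1.1, 0) : ℝ × P3))
            (by fun_prop) rfl
        have e2 : ContinuousAt (fun z : (ℝ × ℝ × ℝ) × ℝ × ℝ × ℝ × ℝ =>
            can (G' z.2.1) (z.2.2.2.1, z.1.2.1, z.2.2.2.2 + z.1.2.2)) (0, s, t, t', τ) :=
          (h1' s hs0 (t', 0, τ) (by simpa using hε')).1.continuousAt.comp_of_eq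
            (f := fun z : (ℝ × ℝ × ℝ) × ℝ × ℝ × ℝ × ℝ =>
              ((z.2.1, z.2.2.2.1, z.1.2.1, z.2.2.2.2 + z.1.2.2) : ℝ × P3))
            (by fun_prop) (by simp)
        have e3 := (e1.sub e2).eventually_ne (y := 0) (by
          change can (G s) (t, 0, 0) - can (G' s) (t', 0, τ + 0) ≠ 0
          rw [can_core, can_core, add_zero τ, sub_ne_zero]
          exact fun he => hc ((add_zero _).symm.trans he))
        filter_upwards [e3] with z hz _ he
        exact absurd (sub_eq_zero.2 he) hz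
  filter_upwards [h3] with w hw s hs0 t t' τ hτ he
  have h4 := per_fract (K := fun x => can (G s) (x, w.1, 0))
    (fun x => can_periodic (hl s hs0).2.1 (x, w.1, 0)) t
  have h5 := per_fract (K := fun x => can (G' s) (x, w.2.1, τ + w.2.2))
    (fun x => can_periodic (hl' s hs0).2.1 (x, w.2.1, τ + w.2.2)) t'
  obtain ⟨hQ, h6, h7, k, hk⟩ := hw (s, Int.fract t, Int.fract t', τ)
    ⟨hs0, fract_mem t, fract_mem t', abs_le.1 hτ⟩ hs0 (h4.trans (he.trans h5.symm))
  refine ⟨hQ, h6, h7, k + ⌊t⌋ - ⌊t'⌋, ?_⟩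
  simp only [Int.fract] at hk
  push_cast
  linarith

theorem red {K K' : ℝ → P3} {p q : P3} (h : can K p = can K' q) :
    can K (p.1, p.2.1, 0) = can K' (q.1, q.2.1, q.2.2 - p.2.2) := by
  have h1 := can_z K p.1 p.2.1 p.2.2 (-p.2.2)
  rw [add_neg_cancel] at h1
  rw [h1, sub_eq_add_neg, can_z]
  exact congrArg (· + ((0, 0, -p.2.2) : P3)) h

theorem tube_abs {r : ℝ} (hr : 0 < r) {p : P3} (hp : p ∈ tube r) : |p.2.1| < r ∧ |p.2.2| < r := by
  have h : p.2.1 ^ 2 + p.2.2 ^ 2 < r ^ 2 := hp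
  exact ⟨abs_lt_of_sq_lt_sq (by nlinarith [sq_nonneg p.2.2]) hr.le,
    abs_lt_of_sq_lt_sq (by nlinarith [sq_nonneg p.2.1]) hr.le⟩

end CanAux

/-- uniform injectivity of the charts of a family of links -/
theorem can_tube_fam {ι : Type} [Finite ι] {G : ι → ℝ → ℝ → P3} (h : IsLegFam G) :
    ∃ r : ℝ, 0 < r ∧ ∀ s ∈ Icc (0 : ℝ) 1, (∀ i, TubeMap (can (G i s)) r) ∧
      ∀ i j, i ≠ j → ∀ p ∈ tube r, ∀ q ∈ tube r, can (G i s) p ≠ can (G j s) q := by
  have h1 := eventually_all.2 fun ij : ι × ι => CanAux.pair (h.1 ij.1) (h.2.1 ij.1) (h.1 ij.2)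
    (h.2.1 ij.2) (c := 0) (Q := ij.1 = ij.2) fun s hs t t' τ hτ he => by
      have h0 : τ = 0 := abs_nonpos_iff.1 hτ
      subst h0
      have h2 : ij.1 = ij.2 := by
        by_contra hne
        exact h.2.2 _ _ hne s hs t t' (he.trans (add_zero _))
      exact ⟨h2, by rw [h2], rfl⟩
  obtain ⟨ε, hε, h2⟩ := Metric.eventually_nhds_iff.1 h1
  have key : ∀ s ∈ Icc (0 : ℝ) 1, ∀ i j, ∀ p ∈ tube (ε / 2), ∀ q ∈ tube (ε / 2),
      can (G i s) p = can (G j s) q → i = j ∧ p.2 = q.2 ∧ ∃ k : ℤ, p.1 = q.1 + k := by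
    intro s hs i j p hp q hq he
    obtain ⟨a1, a2⟩ := CanAux.tube_abs (half_pos hε) hp
    obtain ⟨b1, b2⟩ := CanAux.tube_abs (half_pos hε) hq
    have h3 : |q.2.2 - p.2.2| < ε := (abs_sub _ _).trans_lt (by linarith)
    obtain ⟨h4, h5, h6, h7⟩ := h2 (y := (p.2.1, q.2.1, q.2.2 - p.2.2)) (by
      simp only [dist_zero_right, Prod.norm_def, Real.norm_eq_abs, max_lt_iff]
      exact ⟨by linarith, by linarith, h3⟩) (i, j) s hs p.1 q.1 0 (by simp) (by
        rw [zero_add]; exact CanAux.red he)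
    exact ⟨h4, Prod.ext h5 (by simp only at h6; linarith), h7⟩
  exact ⟨ε / 2, half_pos hε, fun s hs => ⟨fun i => ⟨can_periodic (h.2.1 i s hs).2.1,
    fun p hp q hq he => (key s hs i i p hp q hq he).2⟩,
    fun i j hij p hp q hq he => hij (key s hs i j p hp q hq he).1⟩⟩

theorem can_tube {K : ℝ → P3} (h : IsLeg3 K) :
    ∃ r : ℝ, 0 < r ∧ TubeMap (can K) r ∧ ∀ p ∈ tube r, ContactAt (can K) p := by
  have hs : ContDiff ℝ ∞ fun a : ℝ × ℝ => (fun _ : ℝ => K) a.1 a.2 := h.1.comp contDiff_snd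
  obtain ⟨r, hr, h1⟩ := can_tube_fam (ι := Unit) (G := fun _ _ => K)
    ⟨fun _ => hs, fun _ _ _ => h, fun _ _ hij => absurd rfl hij⟩
  obtain ⟨ε, hε, h2, -⟩ := can_fam hs fun _ _ => h
  have h0 : (0 : ℝ) ∈ Icc (0 : ℝ) 1 := ⟨le_rfl, zero_le_one⟩
  have h3 := (h1 0 h0).1 ()
  have hm : 0 < min r ε := lt_min hr hε
  have h4 := tube_mono hm.le (min_le_left r ε)
  exact ⟨min r ε, hm, ⟨h3.1, fun p hp q hq => h3.2 p (h4 hp) q (h4 hq)⟩, fun p hp =>
    (h2 0 h0 p ((CanAux.tube_abs hm hp).1.trans_le (min_le_right r ε))).2.1⟩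

/-- injectivity on a thin box when the vertical translates are disjoint -/
theorem can_box {K : ℝ → P3} (h : IsLeg3 K) {a b : ℝ}
    (hz : ∀ t t' τ : ℝ, |τ| ≤ b - a → K t = K t' + (0, 0, τ) → τ = 0) :
    ∃ ε : ℝ, 0 < ε ∧ ∀ p q : P3, |p.2.1| < ε → |q.2.1| < ε → p.2.2 ∈ Icc a b → q.2.2 ∈ Icc a b →
      can K p = can K q → p.2 = q.2 ∧ ∃ k : ℤ, p.1 = q.1 + k := by
  have hs : ContDiff ℝ ∞ fun a : ℝ × ℝ => (fun _ : ℝ => K) a.1 a.2 := h.1.comp contDiff_snd
  obtain ⟨ε, hε, h2⟩ := Metric.eventually_nhds_iff.1 (CanAux.pair hs (fun _ _ => h) hs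
    (fun _ _ => h) (c := b - a) (Q := True) fun _ _ t t' τ hτ he =>
      ⟨trivial, rfl, hz t t' τ hτ he⟩)
  refine ⟨ε, hε, fun p q hp hq hp' hq' he => ?_⟩
  obtain ⟨-, h5, h6, h7⟩ := h2 (y := (p.2.1, q.2.1, 0)) (by
    simp only [dist_zero_right, Prod.norm_def, Real.norm_eq_abs, max_lt_iff, abs_zero]
    exact ⟨hp, hq, hε⟩) 0 ⟨le_rfl, zero_le_one⟩ p.1 q.1 (q.2.2 - p.2.2)
    (abs_le.2 ⟨by linarith [hp'.2, hq'.1], by linarith [hp'.1, hq'.2]⟩) (by
      rw [add_zero]; exact CanAux.red he)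
  exact ⟨Prod.ext h5 (by simp only at h6; linarith), h7⟩

end Pool.Agent.Lib.MP_4d7d0a_gt
end

-- part Pool.Agent.Lib.MP_4d7d0a_gt.TFN
section

/-! The normal frame of a Legendrian knot. -/

set_option autoImplicit false

open Set Filter Topology
open scoped ContDiff

namespace Pool.Agent.Lib.MP_4d7d0a_gt

/-- the vertical vector -/
def ez : P3 := (0, 0, 1)

/-- the normal of a Legendrian curve inside the contact plane -/
noncomputable def nrm (U : ℝ → P3) (t : ℝ) : P3 :=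
  (-(deriv U t).2.1, (deriv U t).1, -((U t).2.1 * (deriv U t).2.1))

/-- the normal vector with coordinates `w` -/
noncomputable def nv (U : ℝ → P3) (w : ℂ) (t : ℝ) : P3 := w.re • nrm U t + w.im • ez

/-- the coordinates of the framing that corresponds to `-∂y` on the positive push-off -/
noncomputable def nz (U : ℝ → P3) (t : ℝ) : ℂ :=
  (⟨-(deriv U t).1, (deriv U t).2.1⟩ : ℂ) / (‖(⟨-(deriv U t).1, (deriv U t).2.1⟩ : ℂ)‖ : ℝ)

theorem tfn_deriv {U : ℝ → P3} (hU : IsLeg3 U) : ContDiff ℝ ∞ (deriv U) :=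
  (contDiff_infty_iff_deriv.1 hU.1).2

theorem tfn_z {U : ℝ → P3} (hU : IsLeg3 U) (t : ℝ) :
    (deriv U t).2.2 = (U t).2.1 * (deriv U t).1 :=
  sub_eq_zero.1 (hU.2.2.2.2 t)

theorem tfn_ne {U : ℝ → P3} (hU : IsLeg3 U) (t : ℝ) :
    (⟨-(deriv U t).1, (deriv U t).2.1⟩ : ℂ) ≠ 0 := by
  intro h
  have h0 := CanAux.reg hU t
  have h1 : -(deriv U t).1 = 0 := congrArg Complex.re h
  have h2 : (deriv U t).2.1 = 0 := congrArg Complex.im h
  rw [neg_eq_zero.1 h1, h2] at h0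
  norm_num at h0

theorem tfn_cont {U : ℝ → P3} (hU : IsLeg3 U) :
    Continuous fun t => (⟨-(deriv U t).1, (deriv U t).2.1⟩ : ℂ) := by
  have h1 := (tfn_deriv hU).continuous
  simp only [Complex.mk_eq_add_mul_I]
  fun_prop

theorem contDiff_nrm {U : ℝ → P3} (hU : IsLeg3 U) : ContDiff ℝ ∞ (nrm U) := by
  have h1 := hU.1
  have h2 := tfn_deriv hU
  unfold nrm
  fun_prop

theorem nrm_per {U : ℝ → P3} (hU : IsLeg3 U) (t : ℝ) : nrm U (t + 1) = nrm U t := by
  simp only [nrm, CanAux.per_deriv hU.2.1, hU.2.1]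

theorem continuous_nv {U : ℝ → P3} (hU : IsLeg3 U) :
    Continuous fun a : ℂ × ℝ => nv U a.1 a.2 := by
  have h1 := (contDiff_nrm hU).continuous
  unfold nv
  fun_prop

/-- velocity, normal and vertical vector are linearly independent -/
theorem frame_ind {U : ℝ → P3} (hU : IsLeg3 U) (t a b c : ℝ)
    (h : a • deriv U t + b • nrm U t + c • ez = 0) : a = 0 ∧ b = 0 ∧ c = 0 := by
  have h0 := CanAux.reg hU t
  have hz := tfn_z hU t
  simp only [nrm, ez, Prod.ext_iff, Prod.fst_add, Prod.snd_add, Prod.smul_fst, Prod.smul_snd,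
    smul_eq_mul, Prod.fst_zero, Prod.snd_zero] at h
  obtain ⟨h1, h2, h3⟩ := h
  have ha : a = 0 := by
    have : a * ((deriv U t).1 ^ 2 + (deriv U t).2.1 ^ 2) = 0 := by
      linear_combination (deriv U t).1 * h1 + (deriv U t).2.1 * h2
    exact (mul_eq_zero.1 this).resolve_right h0.ne'
  have hb : b = 0 := by
    have : b * ((deriv U t).1 ^ 2 + (deriv U t).2.1 ^ 2) = 0 := by
      linear_combination (deriv U t).1 * h2 - (deriv U t).2.1 * h1
    exact (mul_eq_zero.1 this).resolve_right h0.ne'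
  refine ⟨ha, hb, ?_⟩
  rw [ha, hb] at h3
  linarith

/-- they span -/
theorem frame_span {U : ℝ → P3} (hU : IsLeg3 U) (t : ℝ) (v : P3) :
    v = ((v.1 * (deriv U t).1 + v.2.1 * (deriv U t).2.1) /
        ((deriv U t).1 ^ 2 + (deriv U t).2.1 ^ 2)) • deriv U t +
      ((v.2.1 * (deriv U t).1 - v.1 * (deriv U t).2.1) /
        ((deriv U t).1 ^ 2 + (deriv U t).2.1 ^ 2)) • nrm U t + al (U t) v • ez := by
  have h0 := (CanAux.reg hU t).ne'
  have hz := tfn_z hU t
  simp only [nrm, ez, al, Prod.ext_iff, Prod.fst_add, Prod.snd_add, Prod.smul_fst, Prod.smul_snd,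
    smul_eq_mul, hz]
  refine ⟨?_, ?_, ?_⟩ <;> field_simp <;> ring

theorem framed_nv {U : ℝ → P3} (hU : IsLeg3 U) {w : ℝ → ℂ} (hw : Continuous w)
    (per : ∀ t, w (t + 1) = w t) (hne : ∀ t, w t ≠ 0) :
    Framed U (deriv U) fun t => nv U (w t) t := by
  refine ⟨fun t => (hU.1.differentiable (by simp) t).hasDerivAt, (tfn_deriv hU).continuous,
    (continuous_nv hU).comp (hw.prodMk continuous_id), hU.2.1, fun t => ?_, hU.2.2.1,
    fun t a b h => ?_⟩
  · simp only [nv, per, nrm_per hU]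
  · have h1 : a • deriv U t + (b * (w t).re) • nrm U t + (b * (w t).im) • ez = 0 := by
      rw [← h, nv, smul_add, smul_smul, smul_smul, add_assoc]
    obtain ⟨ha, h2, h3⟩ := frame_ind hU t _ _ _ h1
    refine ⟨ha, by_contra fun hb => hne t (Complex.ext ?_ ?_)⟩
    · exact (mul_eq_zero.1 h2).resolve_left hb
    · exact (mul_eq_zero.1 h3).resolve_left hb

theorem continuous_nz {U : ℝ → P3} (hU : IsLeg3 U) : Continuous (nz U) := by
  have h1 := tfn_cont hU
  exact h1.div (Complex.continuous_ofReal.comp h1.norm) fun t =>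
    Complex.ofReal_ne_zero.2 (norm_ne_zero_iff.2 (tfn_ne hU t))

theorem nz_per {U : ℝ → P3} (hU : IsLeg3 U) (t : ℝ) : nz U (t + 1) = nz U t := by
  simp only [nz, CanAux.per_deriv hU.2.1]

theorem norm_nz {U : ℝ → P3} (hU : IsLeg3 U) (t : ℝ) : ‖nz U t‖ = 1 := by
  rw [nz, norm_div, Complex.norm_real, norm_norm, div_self (norm_ne_zero_iff.2 (tfn_ne hU t))]

theorem IsLeg3.neg {U : ℝ → P3} (hU : IsLeg3 U) : IsLeg3 fun t => U (-t) := by
  obtain ⟨h1, h2, h3, h4, h5⟩ := hU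
  have key : ∀ s ∈ Ico (0 : ℝ) 1, ∃ s' ∈ Ico (0 : ℝ) 1, U (-s) = U s' ∧
      ((s = 0 ∧ s' = 0) ∨ (0 < s ∧ s' = 1 - s)) := by
    intro s hs
    rcases hs.1.eq_or_lt with h | h
    · exact ⟨0, ⟨le_rfl, one_pos⟩, by rw [← h, neg_zero], Or.inl ⟨h.symm, rfl⟩⟩
    · refine ⟨1 - s, ⟨by linarith [hs.2], by linarith⟩, ?_, Or.inr ⟨h, rfl⟩⟩
      rw [← h2 (-s)]
      congr 1
      ring
  refine ⟨h1.comp contDiff_neg, fun t => ?_, fun s hs t ht h => ?_, fun t => ?_, fun t => ?_⟩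
  · change U (-(t + 1)) = U (-t)
    rw [← h2 (-(t + 1))]
    congr 1
    ring
  · obtain ⟨s', hs', e1, a1⟩ := key s hs
    obtain ⟨t', ht', e2, a2⟩ := key t ht
    have h6 : s' = t' := h3 hs' ht' (e1.symm.trans (Eq.trans h e2))
    rcases a1 with a1 | a1 <;> rcases a2 with a2 | a2 <;>
      linarith [a1.1, a1.2, a2.1, a2.2, hs.2, ht.2]
  · rw [deriv_comp_neg]
    exact neg_ne_zero.2 (h4 _)
  · rw [deriv_comp_neg]
    have h6 := h5 (-t)
    simp only [al, Prod.fst_neg, Prod.snd_neg] at h6 ⊢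
    linarith

theorem nv_nz_neg {U : ℝ → P3} (hU : IsLeg3 U) (t : ℝ) :
    nv (fun t => U (-t)) (nz (fun t => U (-t)) t) t =
      nv U (starRingEnd ℂ (nz U (-t))) (-t) := by
  have h1 : nrm (fun t => U (-t)) t = -nrm U (-t) := by
    simp only [nrm, deriv_comp_neg, Prod.fst_neg, Prod.snd_neg, Prod.neg_mk, mul_neg]
  have h2 : nz (fun t => U (-t)) t = -nz U (-t) := by
    have h3 : (⟨-(-deriv U (-t)).1, (-deriv U (-t)).2.1⟩ : ℂ) =
        -(⟨-(deriv U (-t)).1, (deriv U (-t)).2.1⟩ : ℂ) := Complex.ext rfl rfl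
    have _h := hU.1
    rw [nz, nz, deriv_comp_neg, h3, norm_neg, neg_div]
  rw [nv, nv, h1, h2, Complex.neg_re, Complex.neg_im, Complex.conj_re, Complex.conj_im,
    neg_smul, smul_neg, neg_neg]

end Pool.Agent.Lib.MP_4d7d0a_gt
end

-- part Pool.Agent.Lib.MP_4d7d0a_gt.TFE
section

/-! Framings of a Legendrian knot. -/

set_option autoImplicit false

open Set Filter Topology
open scoped ContDiff

namespace Pool.Agent.Lib.MP_4d7d0a_gt

theorem tfe_cd {U : ℝ → P3} (hU : IsLeg3 U) : Continuous (deriv U) :=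
  hU.1.continuous_deriv (by simp)

theorem tfe_nv_I (U : ℝ → P3) : nv U Complex.I = fun _ => ez := by
  funext t
  simp [nv]

theorem fr_const (T : KTheory) {U : ℝ → P3} (hU : IsLeg3 U) {w : ℂ} (hw : w ≠ 0) :
    fr T U (nv U w) = fr T U fun _ => ez := by
  have hW : Continuous fun s : ℝ =>
      Complex.exp ((1 - (s : ℂ)) * Complex.log w + (s : ℂ) * Complex.log Complex.I) := by
    fun_prop
  have h := fr_hom T (c := fun _ => U) (d := fun _ => deriv U)
    (v := fun s t => nv U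
      (Complex.exp ((1 - (s : ℂ)) * Complex.log w + (s : ℂ) * Complex.log Complex.I)) t)
    (hU.1.continuous.comp continuous_snd) ((tfe_cd hU).comp continuous_snd)
    ((continuous_nv hU).comp ((hW.comp continuous_fst).prodMk continuous_snd))
    fun s _ => framed_nv hU continuous_const (fun _ => rfl) fun _ => Complex.exp_ne_zero _
  simp only [Complex.ofReal_zero, Complex.ofReal_one, sub_zero, sub_self, one_mul, zero_mul,
    add_zero, zero_add, Complex.exp_log hw, Complex.exp_log Complex.I_ne_zero] at h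
  rw [← tfe_nv_I U]
  exact h

/-- conjugate framings average to the contact framing -/
theorem fr_sum (T : KTheory) {U : ℝ → P3} (hU : IsLeg3 U) {w : ℝ → ℂ} (hw : Continuous w)
    (per : ∀ t, w (t + 1) = w t) (hn : ∀ t, ‖w t‖ = 1) :
    fr T U (fun t => nv U (w t) t) + fr T U (fun t => nv U (starRingEnd ℂ (w t)) t) =
      2 * fr T U fun _ => ez := by
  have ne : ∀ z : ℂ, ‖z‖ = 1 → z ≠ 0 := fun z hz e => by
    rw [e, norm_zero] at hz
    exact zero_ne_one hz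
  obtain ⟨η, hη, hap⟩ := fr_unif (Z := ℂ) (c := fun _ => U) (d := fun _ => deriv U)
    (v := fun z t => nv U z t) (isCompact_sphere (0 : ℂ) 1)
    (hU.1.continuous.comp continuous_snd) ((tfe_cd hU).comp continuous_snd) (continuous_nv hU)
    fun z hz => framed_nv hU continuous_const (fun _ => rfl) fun _ =>
      ne z (mem_sphere_zero_iff_norm.1 hz)
  have hap' : ∀ z : ℂ, ‖z‖ = 1 → ∀ t t' ε : ℝ, 0 < ε → ε ≤ η → U t ≠ U t' + ε • nv U z t' :=
    fun z hz t t' ε h0 h1 => by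
      have := hap z (mem_sphere_zero_iff_norm.2 hz) t t' ε 0 h0 h1 (by
        rw [norm_zero]; positivity)
      rwa [add_zero] at this
  have U1 : U 1 = U 0 := by simpa using hU.2.1 0
  obtain ⟨Λ, hΛ⟩ := exists_lkR T (A := U) ⟨hU.1.continuous.continuousOn, U1⟩
  let Ψ : ℝ → ℂ → P3 := fun s z => U s + η • nv U z s
  have cΨ : Continuous fun a : ℝ × ℂ => Ψ a.1 a.2 :=
    (hU.1.continuous.comp continuous_fst).add
      (((continuous_nv hU).comp (continuous_snd.prodMk continuous_fst)).const_smul η)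
  have mΨ : ∀ s z, ‖z‖ = 1 → Ψ s z ∈ (U '' Icc (0 : ℝ) 1)ᶜ := by
    rintro s z hz ⟨t, -, e⟩
    exact hap' z hz t s η hη le_rfl e
  have pΨ : ∀ z, Ψ 1 z = Ψ 0 z := fun z => by
    have e : nrm U 1 = nrm U 0 := by simpa using nrm_per hU 0
    simp only [Ψ, nv, U1, e]
  have key : ∀ u : ℝ → ℂ, Continuous u → (∀ t, u (t + 1) = u t) → (∀ t, ‖u t‖ = 1) →
      fr T U (fun t => nv U (u t) t) = Λ.L fun t => Ψ t (u t) := fun u hu pu nu => by
    rw [hΛ]
    exact fr_eq T (framed_nv hU hu pu fun t => ne _ (nu t)) hη fun t t' ε =>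
      hap' _ (nu t') t t' ε
  have split : ∀ u : ℝ → ℂ, Continuous u → (∀ t, u (t + 1) = u t) → (∀ t, ‖u t‖ = 1) →
      fr T U (fun t => nv U (u t) t) = fr T U (fun _ => ez) + Λ.L fun t => Ψ 0 (u t) :=
    fun u hu pu nu => by
      have u1 : u 1 = u 0 := by simpa using pu 0
      rw [key u hu pu nu, ← fr_const T hU (ne _ (nu 0)),
        key (fun _ => u 0) continuous_const (fun _ => rfl) fun _ => nu 0]
      exact Λ.torus (Φ := fun s t => Ψ s (u t))
        (cΨ.comp (continuous_fst.prodMk (hu.comp continuous_snd))).continuousOn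
        (fun s _ t _ => mΨ s _ (nu t)) (fun t _ => pΨ _) fun s _ => by rw [u1]
  have rot : ∀ u : ℝ → ℂ, Continuous u → u 1 = u 0 → (∀ t, ‖u t‖ = 1) → ∀ c : ℂ, ‖c‖ = 1 →
      (Λ.L fun t => Ψ 0 (u t)) = Λ.L fun t => Ψ 0 (c * u t) := fun u hu u1 nu c hc => by
    obtain ⟨θ, rfl⟩ := (Complex.norm_eq_one_iff c).1 hc
    have h := Λ.hom (fun s t => Ψ 0 (Complex.exp (((s * θ : ℝ) : ℂ) * Complex.I) * u t))
      (cΨ.comp (continuous_const.prodMk (by fun_prop))).continuousOn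
      (fun s _ t _ => mΨ 0 _ (by rw [norm_mul, Complex.norm_exp_ofReal_mul_I, nu, one_mul]))
      fun s _ => by rw [u1]
    simpa only [zero_mul, one_mul, Complex.ofReal_zero, Complex.exp_zero] using h
  have w1 : w 1 = w 0 := by simpa using per 0
  have hc : Continuous fun t => starRingEnd ℂ (w t) := Complex.continuous_conj.comp hw
  have nc : ∀ t, ‖starRingEnd ℂ (w t)‖ = 1 := fun t => by rw [Complex.norm_conj, hn]
  have tor := Λ.torus (Φ := fun s t => Ψ 0 (starRingEnd ℂ (w t) * w s))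
    (cΨ.comp (continuous_const.prodMk
      ((hc.comp continuous_snd).mul (hw.comp continuous_fst)))).continuousOn
    (fun s _ t _ => mΨ 0 _ (by rw [norm_mul, nc, hn, one_mul])) (fun t _ => by rw [w1])
    fun s _ => by rw [w1]
  have e0 : (fun t => Ψ 0 (starRingEnd ℂ (w t) * w t)) = fun _ => Ψ 0 1 := by
    funext t
    rw [Complex.conj_mul', hn]
    norm_num
  have e1 : (fun t => Ψ 0 (starRingEnd ℂ (w t) * w 0)) =
      fun t => Ψ 0 (w 0 * starRingEnd ℂ (w t)) := by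
    funext t
    rw [mul_comm]
  rw [e0, e1, Λ.const (mΨ 0 1 norm_one), ← rot w hw w1 hn _ (nc 0),
    ← rot _ hc (by rw [w1]) nc _ (hn 0)] at tor
  rw [split w hw per hn, split _ hc (fun t => by rw [per]) nc]
  omega

theorem tfe_lin (T : KTheory) {U v : ℝ → P3} (hU : IsLeg3 U) (h : Framed U (deriv U) v) {w : ℂ}
    (hw : w ≠ 0) (H : ∀ t, ∃ a b c : ℝ, v t = a • deriv U t + b • nrm U t + c • ez ∧
      0 < w.re * b + w.im * c) : fr T U v = fr T U fun _ => ez := by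
  have hf := framed_nv hU (w := fun _ => w) continuous_const (fun _ => rfl) fun _ => hw
  have k := fr_hom T (c := fun _ => U) (d := fun _ => deriv U)
    (v := fun s t => (1 - s) • v t + s • nv U w t)
    (hU.1.continuous.comp continuous_snd) ((tfe_cd hU).comp continuous_snd)
    (((continuous_const.sub continuous_fst).smul (h.cv.comp continuous_snd)).add
      (continuous_fst.smul (hf.cv.comp continuous_snd)))
    fun s hs => ⟨h.der, h.cd, (h.cv.const_smul (1 - s)).add (hf.cv.const_smul s), h.per,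
      fun t => by rw [h.perv, hf.perv], h.inj, fun t α β e => by
        obtain ⟨a, b, c, ev, hp⟩ := H t
        obtain ⟨k1, k2, k3⟩ := frame_ind hU t (α + β * (1 - s) * a)
          (β * ((1 - s) * b + s * w.re)) (β * ((1 - s) * c + s * w.im)) (by
            rw [← e, ev, nv]
            module)
        have hn : 0 < w.re * w.re + w.im * w.im := Complex.normSq_pos.2 hw
        have hq : 0 < (1 - s) * (w.re * b + w.im * c) + s * (w.re * w.re + w.im * w.im) := by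
          rcases hs.1.eq_or_lt with h0 | h0
          · rw [← h0]; simpa using hp
          · have := mul_nonneg (sub_nonneg.2 hs.2) hp.le
            have := mul_pos h0 hn
            linarith
        have hβ : β = 0 := by
          refine (mul_eq_zero.1 ?_).resolve_right hq.ne'
          linear_combination w.re * k2 + w.im * k3
        rw [hβ] at k1
        exact ⟨by simpa using k1, hβ⟩⟩
  simp only [sub_zero, sub_self, one_smul, zero_smul, add_zero, zero_add] at k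
  exact k.trans (fr_const T hU hw)

theorem tfe_sign {f : ℝ → ℝ} (hf : Continuous f) (h : ∀ t, f t ≠ 0) (t : ℝ) : 0 < f 0 * f t := by
  by_contra hc
  have h0 : 0 < f 0 * f 0 := mul_self_pos.2 (h 0)
  obtain ⟨s, hs⟩ := intermediate_value_univ t 0 (continuous_const.mul hf)
    (⟨not_lt.1 hc, h0.le⟩ : (0 : ℝ) ∈ Icc (f 0 * f t) (f 0 * f 0))
  exact mul_ne_zero (h 0) (h s) hs

/-- a framing inside the contact planes is the contact framing -/
theorem fr_of_leg (T : KTheory) {U v : ℝ → P3} (hU : IsLeg3 U) (h : Framed U (deriv U) v)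
    (h0 : ∀ t, al (U t) (v t) = 0) : fr T U v = fr T U fun _ => ez := by
  have hb : ∀ t, ((v t).2.1 * (deriv U t).1 - (v t).1 * (deriv U t).2.1) /
      ((deriv U t).1 ^ 2 + (deriv U t).2.1 ^ 2) ≠ 0 := fun t e => by
    have k := frame_span hU t (v t)
    rw [e, h0, zero_smul, zero_smul, add_zero, add_zero] at k
    have := (h.ind t _ (-1) (by rw [← k, neg_one_smul, add_neg_cancel])).2
    norm_num at this
  have hn : ∀ t, (v t).2.1 * (deriv U t).1 - (v t).1 * (deriv U t).2.1 ≠ 0 := fun t e =>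
    hb t (by rw [e, zero_div])
  have hc : Continuous fun t => (v t).2.1 * (deriv U t).1 - (v t).1 * (deriv U t).2.1 := by
    have h1 := h.cv
    have h2 := h.cd
    fun_prop
  refine tfe_lin T hU h (w := (((v 0).2.1 * (deriv U 0).1 - (v 0).1 * (deriv U 0).2.1 : ℝ) : ℂ))
    (Complex.ofReal_ne_zero.2 (hn 0)) fun t => ⟨_, _, _, frame_span hU t (v t), ?_⟩
  have hρ : 0 < (deriv U t).1 ^ 2 + (deriv U t).2.1 ^ 2 :=
    lt_of_le_of_ne (by positivity) fun e => hb t (by rw [← e, div_zero])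
  rw [Complex.ofReal_re, Complex.ofReal_im, zero_mul, add_zero, ← mul_div_assoc]
  exact div_pos (tfe_sign hc hn t) hρ

/-- a framing transverse to the contact planes is the contact framing -/
theorem fr_of_tr (T : KTheory) {U v : ℝ → P3} (hU : IsLeg3 U) (h : Framed U (deriv U) v)
    (h0 : ∀ t, al (U t) (v t) ≠ 0) : fr T U v = fr T U fun _ => ez := by
  have hc : Continuous fun t => al (U t) (v t) := by
    have h1 := h.cv
    have h2 := hU.1.continuous
    unfold al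
    fun_prop
  refine tfe_lin T hU h (w := ⟨0, al (U 0) (v 0)⟩) (fun e => h0 0 (congrArg Complex.im e))
    fun t => ⟨_, _, _, frame_span hU t (v t), ?_⟩
  rw [zero_mul, zero_add]
  exact tfe_sign hc h0 t

end Pool.Agent.Lib.MP_4d7d0a_gt
end

-- part Pool.Agent.Lib.MP_4d7d0a_gt.TFF
section

/-! The boundary of the punctured disc and its framing. -/

set_option autoImplicit false

open Set Filter Topology
open scoped ContDiff

namespace Pool.Agent.Lib.MP_4d7d0a_gt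

/-- the image of the circle of radius `ρ` -/
noncomputable def bdU (h : P2 → P3) (ρ t : ℝ) : P3 := h (pol ρ (2 * Real.pi * t))

variable {K nu : _} {A B : ℝ → ℝ}

theorem tff_sq (ρ a : ℝ) : (pol ρ a).1 ^ 2 + (pol ρ a).2 ^ 2 = ρ ^ 2 := by
  simp only [pol]
  linear_combination ρ ^ 2 * Real.cos_sq_add_sin_sq a

theorem tff_circ (a : ℝ) : pol 1 a ∈ circ := by
  have := tff_sq 1 a
  simpa [circ] using this

theorem tff_mem (S : Surf K nu A B) (a : ℝ) : pol 1 a ∈ disc \ range S.u := by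
  have h := tff_sq 1 a
  refine ⟨?_, ?_⟩
  · simp only [disc, mem_ofPred_eq]
    linarith
  · rintro ⟨i, hi⟩
    have := S.u_int i
    rw [hi] at this
    linarith

theorem tff_smul (ρ a : ℝ) : pol ρ a = ρ • pol 1 a := by
  simp [pol]

theorem tff_per (ρ t : ℝ) : pol ρ (2 * Real.pi * (t + 1)) = pol ρ (2 * Real.pi * t) := by
  have : 2 * Real.pi * (t + 1) = 2 * Real.pi * t + 2 * Real.pi := by ring
  simp [pol, this, Real.cos_add_two_pi, Real.sin_add_two_pi]

theorem tff_cd : ContDiff ℝ ∞ fun z : ℝ × ℝ => pol z.1 (2 * Real.pi * z.2) := by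
  unfold pol
  fun_prop

theorem tff_cd1 (ρ : ℝ) : ContDiff ℝ ∞ fun t : ℝ => pol ρ (2 * Real.pi * t) := by
  unfold pol
  fun_prop

theorem tff_der_pol (t : ℝ) : HasDerivAt (fun t : ℝ => pol 1 (2 * Real.pi * t))
    ((2 * Real.pi) • ((-(pol 1 (2 * Real.pi * t)).2, (pol 1 (2 * Real.pi * t)).1) : P2)) t := by
  have h0 : HasDerivAt (fun t : ℝ => 2 * Real.pi * t) (2 * Real.pi) t := by
    simpa using (hasDerivAt_id t).const_mul (2 * Real.pi)
  have h1 := (h0.cos.const_mul 1).prodMk (h0.sin.const_mul 1)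
  refine h1.congr_deriv ?_
  simp only [pol, Prod.smul_mk, smul_eq_mul, Prod.mk.injEq]
  constructor <;> ring

theorem tff_der (S : Surf K nu A B) (t : ℝ) : HasDerivAt (bdU S.h 1)
    ((2 * Real.pi) • fderiv ℝ S.h (pol 1 (2 * Real.pi * t))
      ((-(pol 1 (2 * Real.pi * t)).2, (pol 1 (2 * Real.pi * t)).1) : P2)) t := by
  have hd : DifferentiableAt ℝ S.h (pol 1 (2 * Real.pi * t)) :=
    (S.sm _ (tff_mem S _)).differentiableAt (by simp)
  have := hd.hasFDerivAt.comp_hasDerivAt t (tff_der_pol t)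
  rw [map_smul] at this
  exact this

theorem tff_al_smul (p v : P3) (c : ℝ) : al p (c • v) = c * al p v := by
  simp only [al, Prod.smul_fst, Prod.smul_snd, smul_eq_mul]
  ring

theorem tff_al_add (p v w : P3) : al p (v + w) = al p v + al p w := by
  simp only [al, Prod.fst_add, Prod.snd_add]
  ring

theorem Surf.leg3 (S : Surf K nu A B) : IsLeg3 (bdU S.h 1) := by
  refine ⟨?_, ?_, ?_, ?_, ?_⟩
  · rw [contDiff_iff_contDiffAt]
    intro t
    exact ContDiffAt.comp (f := fun t : ℝ => pol 1 (2 * Real.pi * t)) t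
      (S.sm _ (tff_mem S _)) (tff_cd1 1).contDiffAt
  · intro t
    simp only [bdU, tff_per]
  · intro t ht t' ht' h
    have h1 := S.inj (tff_mem S _) (tff_mem S _) h
    simp only [pol, one_mul, Prod.mk.injEq] at h1
    have h2 := Real.Angle.cos_sin_inj h1.1 h1.2
    obtain ⟨k, hk⟩ := Real.Angle.angle_eq_iff_two_pi_dvd_sub.1 h2
    have hp : (2 * Real.pi) ≠ 0 := by positivity
    have h3 : t - t' = k := by
      apply mul_left_cancel₀ hp
      linarith
    have h4 : (k : ℝ) < 1 := by linarith [ht.2, ht'.1]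
    have h5 : (-1 : ℝ) < k := by linarith [ht.1, ht'.2]
    have h6 : k < 1 := by exact_mod_cast h4
    have h7 : -1 < k := by exact_mod_cast h5
    have h8 : k = 0 := by omega
    rw [h8] at h3
    simp at h3
    linarith
  · intro t h
    rw [(tff_der S t).deriv, ← map_smul] at h
    have h1 := S.imm _ (tff_mem S (2 * Real.pi * t)) (h.trans (map_zero _).symm)
    have hp : (2 * Real.pi) ≠ 0 := by positivity
    have h2 := (smul_eq_zero.1 h1).resolve_left hp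
    simp only [Prod.mk_eq_zero, neg_eq_zero] at h2
    have h3 := tff_sq 1 (2 * Real.pi * t)
    rw [h2.1, h2.2] at h3
    norm_num at h3
  · intro t
    rw [(tff_der S t).deriv, tff_al_smul]
    have := S.leg _ (tff_circ (2 * Real.pi * t))
    simp only [bdU]
    rw [this, mul_zero]

/-- circles of radius close to one miss the punctures -/
theorem Surf.ev_mem (S : Surf K nu A B) : ∀ᶠ ρ : ℝ in 𝓝[<] 1, ∀ a : ℝ,
    pol ρ a ∈ {w : P2 | w.1 ^ 2 + w.2 ^ 2 < 1} \ range S.u := by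
  have h1 : ∀ᶠ ρ : ℝ in 𝓝 1, ∀ i, (S.u i).1 ^ 2 + (S.u i).2 ^ 2 < ρ ^ 2 := by
    rw [eventually_all]
    intro i
    have hc : ContinuousAt (fun ρ : ℝ => ρ ^ 2) 1 := by fun_prop
    have := S.u_int i
    exact continuousAt_const.eventually_lt hc (by simpa using this)
  have h2 : ∀ᶠ ρ : ℝ in 𝓝 1, 0 < ρ := lt_mem_nhds one_pos
  filter_upwards [mem_nhdsWithin_of_mem_nhds h1, mem_nhdsWithin_of_mem_nhds h2,
    self_mem_nhdsWithin] with ρ ha hb hc a
  have hc' : ρ < 1 := hc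
  have h := tff_sq ρ a
  refine ⟨?_, ?_⟩
  · simp only [mem_ofPred_eq]
    nlinarith
  · rintro ⟨i, hi⟩
    have := ha i
    rw [hi] at this
    linarith

/-- the inward radial framing -/
noncomputable def tffR (h : P2 → P3) (t : ℝ) : P3 :=
  -fderiv ℝ h (pol 1 (2 * Real.pi * t)) (pol 1 (2 * Real.pi * t))

theorem tff_cont_fderiv (S : Surf K nu A B) (a : ℝ) : ContinuousAt (fderiv ℝ S.h) (pol 1 a) :=
  ((S.sm _ (tff_mem S a)).fderiv_right (m := 0) (by simp)).continuousAt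

theorem tff_framed (S : Surf K nu A B) : Framed (bdU S.h 1) (deriv (bdU S.h 1)) (tffR S.h) := by
  have hU := S.leg3
  refine ⟨fun t => ?_, hU.1.continuous_deriv (by simp), ?_, hU.2.1, fun t => ?_, hU.2.2.1, ?_⟩
  · exact (tff_der S t).differentiableAt.hasDerivAt
  · rw [continuous_iff_continuousAt]
    intro t
    have h1 : ContinuousAt (fun t : ℝ => pol 1 (2 * Real.pi * t)) t :=
      (tff_cd1 1).continuous.continuousAt
    have h2 : ContinuousAt (fun t : ℝ => fderiv ℝ S.h (pol 1 (2 * Real.pi * t))) t :=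
      ContinuousAt.comp (f := fun t : ℝ => pol 1 (2 * Real.pi * t)) (tff_cont_fderiv S _) h1
    exact (h2.clm_apply h1).neg
  · simp only [tffR, tff_per]
  · intro t a b h
    rw [(tff_der S t).deriv, tffR, ← map_neg, ← map_smul, ← map_smul, ← map_smul,
      ← map_add] at h
    have h1 := S.imm _ (tff_mem S (2 * Real.pi * t)) (h.trans (map_zero _).symm)
    have h3 := tff_sq 1 (2 * Real.pi * t)
    set w := pol 1 (2 * Real.pi * t) with hw
    have e1 := congrArg Prod.fst h1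
    have e2 := congrArg Prod.snd h1
    simp only [Prod.fst_add, Prod.snd_add, Prod.smul_fst, Prod.smul_snd, smul_eq_mul,
      Prod.fst_neg, Prod.snd_neg, Prod.fst_zero, Prod.snd_zero] at e1 e2
    have hp : (2 * Real.pi) ≠ 0 := by positivity
    refine ⟨?_, ?_⟩
    · have : a * (2 * Real.pi) = 0 := by
        linear_combination (-w.2) * e1 + w.1 * e2 - a * (2 * Real.pi) * h3
      exact (mul_eq_zero.1 this).resolve_right hp
    · linear_combination (-w.1) * e1 - w.2 * e2 - b * h3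

theorem tff_fr (T : KTheory) (S : Surf K nu A B) :
    fr T (bdU S.h 1) (tffR S.h) = fr T (bdU S.h 1) fun _ => ez := by
  rcases S.bd with hb | hb
  · refine fr_of_leg T S.leg3 (tff_framed S) fun t => ?_
    have := hb _ (tff_circ (2 * Real.pi * t)) (-pol 1 (2 * Real.pi * t))
    rw [map_neg] at this
    exact this
  · refine fr_of_tr T S.leg3 (tff_framed S) fun t h0 => ?_
    obtain ⟨v, hv⟩ := hb _ (tff_circ (2 * Real.pi * t))
    have hl := S.leg _ (tff_circ (2 * Real.pi * t))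
    have h3 := tff_sq 1 (2 * Real.pi * t)
    simp only [bdU, tffR] at h0
    set w := pol 1 (2 * Real.pi * t) with hw
    have hv' : v = (-(v.1 * w.1 + v.2 * w.2)) • (-w) +
        (v.2 * w.1 - v.1 * w.2) • ((-w.2, w.1) : P2) := by
      refine Prod.ext ?_ ?_
      · simp only [Prod.fst_add, Prod.smul_fst, smul_eq_mul, Prod.fst_neg]
        linear_combination (-v.1) * h3
      · simp only [Prod.snd_add, Prod.smul_snd, smul_eq_mul, Prod.snd_neg]
        linear_combination (-v.2) * h3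
    apply hv
    rw [hv', map_add, map_smul, map_smul, map_neg, tff_al_add, tff_al_smul, tff_al_smul, h0, hl]
    ring

theorem tff_unif (S : Surf K nu A B) {η : ℝ} (hη : 0 < η) : ∀ᶠ ρ : ℝ in 𝓝 1,
    ∀ t ∈ Icc (0 : ℝ) 1, DifferentiableAt ℝ S.h (pol ρ (2 * Real.pi * t)) ∧
      ‖fderiv ℝ S.h (pol ρ (2 * Real.pi * t)) (pol 1 (2 * Real.pi * t)) + tffR S.h t‖ ≤ η := by
  refine isCompact_Icc.eventually_forall_of_forall_eventually
    (P := fun ρ t => DifferentiableAt ℝ S.h (pol ρ (2 * Real.pi * t)) ∧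
      ‖fderiv ℝ S.h (pol ρ (2 * Real.pi * t)) (pol 1 (2 * Real.pi * t)) + tffR S.h t‖ ≤ η) ?_
  intro t _
  have h1 : ContinuousAt (fun z : ℝ × ℝ => pol z.1 (2 * Real.pi * z.2)) (1, t) :=
    tff_cd.continuous.continuousAt
  have h2 : ∀ᶠ w in 𝓝 (pol 1 (2 * Real.pi * t)), DifferentiableAt ℝ S.h w := by
    have := ((S.sm _ (tff_mem S (2 * Real.pi * t))).of_le (m := 1) (by simp)).eventually (by simp)
    filter_upwards [this] with w hw
    exact hw.differentiableAt (by simp)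
  have h3 : ContinuousAt (fun z : ℝ × ℝ => fderiv ℝ S.h (pol z.1 (2 * Real.pi * z.2))) (1, t) :=
    ContinuousAt.comp (f := fun z : ℝ × ℝ => pol z.1 (2 * Real.pi * z.2))
      (tff_cont_fderiv S _) h1
  have h4 : ContinuousAt (fun z : ℝ × ℝ => pol 1 (2 * Real.pi * z.2)) (1, t) :=
    ((tff_cd1 1).continuous.comp continuous_snd).continuousAt
  have h5 : ContinuousAt (fun z : ℝ × ℝ => tffR S.h z.2) (1, t) :=
    ((tff_framed S).cv.comp continuous_snd).continuousAt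
  have h6 := ((h3.clm_apply h4).add h5).norm
  have h7 := h6.eventually_lt (continuousAt_const (y := η)) (by simpa [tffR] using hη)
  filter_upwards [h1.eventually h2, h7] with z hz hz'
  exact ⟨hz, hz'.le⟩

/-- the contact framing is the surface framing -/
theorem Surf.tb (T : KTheory) (S : Surf K nu A B) : ∀ᶠ ρ : ℝ in 𝓝[<] 1,
    T.lk (bdU S.h 1) (bdU S.h ρ) = fr T (bdU S.h 1) fun _ => ez := by
  obtain ⟨η, hη, hv⟩ := fr_val T (tff_framed S)
  obtain ⟨δ, hδ, hb⟩ := Metric.eventually_nhds_iff_ball.1 (tff_unif S hη)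
  have h2 : ∀ᶠ ρ : ℝ in 𝓝 1, 1 - η < ρ := lt_mem_nhds (by linarith)
  filter_upwards [mem_nhdsWithin_of_mem_nhds (Metric.ball_mem_nhds (1 : ℝ) hδ),
    mem_nhdsWithin_of_mem_nhds h2, self_mem_nhdsWithin] with ρ ha hb' hc
  have hc' : ρ < 1 := hc
  rw [← tff_fr T S]
  refine hv (1 - ρ) (by linarith) (by linarith) _ ⟨fun t ht => ?_, ?_⟩ fun t ht => ?_
  · have h1 : ContinuousAt (fun t : ℝ => pol ρ (2 * Real.pi * t)) t :=
      (tff_cd1 ρ).continuous.continuousAt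
    exact (ContinuousAt.comp (f := fun t : ℝ => pol ρ (2 * Real.pi * t))
      (hb ρ ha t ht).1.continuousAt h1).continuousWithinAt
  · have := tff_per ρ 0
    simp only [bdU]
    rw [← this, zero_add]
  · have hder : ∀ r ∈ Metric.ball (1 : ℝ) δ, HasDerivWithinAt
        (fun r : ℝ => S.h (pol r (2 * Real.pi * t)) + r • tffR S.h t)
        (fderiv ℝ S.h (pol r (2 * Real.pi * t)) (pol 1 (2 * Real.pi * t)) + tffR S.h t)
        (Metric.ball (1 : ℝ) δ) r := by
      intro r hr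
      have e1 : HasDerivAt (fun r : ℝ => pol r (2 * Real.pi * t)) (pol 1 (2 * Real.pi * t)) r := by
        have := (hasDerivAt_id r).smul_const (pol 1 (2 * Real.pi * t))
        rw [one_smul] at this
        refine this.congr_of_eventuallyEq (Eventually.of_forall fun s => ?_)
        exact tff_smul s _
      have e2 := (hb r hr t ht).1.hasFDerivAt.comp_hasDerivAt r e1
      have e3 := (hasDerivAt_id r).smul_const (tffR S.h t)
      rw [one_smul] at e3
      exact (e2.add e3).hasDerivWithinAt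
    have hm := (convex_ball (1 : ℝ) δ).norm_image_sub_le_of_norm_hasDerivWithin_le hder
      (fun r hr => (hb r hr t ht).2) (Metric.mem_ball_self hδ) ha
    have e : ‖ρ - 1‖ = 1 - ρ := by
      rw [Real.norm_eq_abs, abs_of_neg (by linarith)]
      ring
    rw [e] at hm
    refine le_of_eq_of_le ?_ hm
    congr 1
    simp only [bdU, sub_smul, one_smul]
    abel

end Pool.Agent.Lib.MP_4d7d0a_gt
end

-- part Pool.Agent.Lib.MP_4d7d0a_gt.TFG
section

/-! The linking numbers vanish. -/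

set_option autoImplicit false

open Set Filter Topology
open scoped ContDiff

namespace Pool.Agent.Lib.MP_4d7d0a_gt

variable {K nu : _} {A B : ℝ → ℝ} {r : ℝ}

theorem tfg_sq (ρ a : ℝ) : (pol ρ a).1 ^ 2 + (pol ρ a).2 ^ 2 = ρ ^ 2 := by
  simp only [pol]
  linear_combination ρ ^ 2 * Real.cos_sq_add_sin_sq a

theorem tfg_norm {ρ : ℝ} (h : 0 ≤ ρ) (a : ℝ) : ‖pol ρ a‖ ≤ ρ := by
  simp only [pol, Prod.norm_mk, Real.norm_eq_abs, max_le_iff, abs_mul, abs_of_nonneg h]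
  exact ⟨mul_le_of_le_one_right h (Real.abs_cos_le_one a),
    mul_le_of_le_one_right h (Real.abs_sin_le_one a)⟩

theorem tfg_cont (ρ : ℝ) : Continuous fun t : ℝ => pol ρ (2 * Real.pi * t) := by
  unfold pol
  fun_prop

theorem tfg_close (ρ : ℝ) : pol ρ (2 * Real.pi * 1) = pol ρ (2 * Real.pi * 0) := by
  simp [pol]

theorem tfg_tube {R : ℝ} (h : R ∈ Ico 0 r) (x a : ℝ) :
    ((x, R * Real.cos a, R * Real.sin a) : P3) ∈ tube r :=
  (tfg_sq R a).trans_lt (pow_lt_pow_left₀ h.2 h.1 two_ne_zero)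

theorem tfg_conv : ConvexOn ℝ univ fun w : P2 => w.1 ^ 2 + w.2 ^ 2 :=
  ⟨convex_univ, fun x _ y _ a b ha hb hab => by
    obtain rfl : b = 1 - a := eq_sub_of_add_eq' hab
    simp only [Prod.fst_add, Prod.snd_add, Prod.smul_fst, Prod.smul_snd, smul_eq_mul]
    nlinarith [mul_nonneg (mul_nonneg ha hb) (add_nonneg (sq_nonneg (x.1 - y.1))
      (sq_nonneg (x.2 - y.2)))]⟩

theorem tfg_open : IsOpen {w : P2 | w.1 ^ 2 + w.2 ^ 2 < 1} :=
  isOpen_lt (by fun_prop) continuous_const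

theorem tfg_loop (hD : TubeD K nu A B r) : IsLoop K :=
  ⟨hD.leg.1.continuous.continuousOn, by simpa using hD.leg.2.1 0⟩

theorem tfg_hom (hD : TubeD K nu A B r) (S : Surf K nu A B) (i : Fin S.k) {Z : Set P3}
    (Λ : LoopFun Z) {J : Set ℝ} (hJ : Convex ℝ J) {r' : ℝ} (hr' : 0 < r') (h1 : Ioo 0 r' ⊆ J)
    (h2 : J ⊆ Ico 0 r) (hZ : ∀ R ∈ J, ∀ x a, nu (x, R * Real.cos a, R * Real.sin a) ∈ Z) :
    ∀ᶠ ρ : ℝ in 𝓝[>] 0, ∀ ρ' ∈ J, Λ.L (fun t => S.h (S.β i (pol ρ (2 * Real.pi * t)))) =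
      Λ.L (longi nu 0 ρ') := by
  obtain ⟨C, hC⟩ := (Function.Periodic.isBounded_of_continuous (f := B) hD.B_per
    (by positivity) hD.B_sm.continuous).bddAbove
  obtain ⟨ε, hε, hg⟩ := Metric.eventually_nhds_iff_ball.1
    (((S.g_sm i).of_le (m := 1) (by exact_mod_cast le_top)).eventually (by simp))
  have e1 : ∀ᶠ ρ : ℝ in 𝓝[>] 0, ρ * Real.exp C < r' :=
    ((by fun_prop : ContinuousAt (fun ρ : ℝ => ρ * Real.exp C) 0).eventually_lt continuousAt_const
      (by rwa [zero_mul])).filter_mono nhdsWithin_le_nhds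
  filter_upwards [S.loc i, e1, Ioo_mem_nhdsGT hε] with ρ k1 k2 k3 ρ' k4
  have cA := hD.A_sm.continuous
  have cB := hD.B_sm.continuous
  have cg : Continuous fun t : ℝ => S.g i (pol ρ (2 * Real.pi * t)) :=
    continuous_iff_continuousAt.2 fun t => ContinuousAt.comp (f := fun t => pol ρ (2 * Real.pi * t))
      (hg _ (mem_ball_zero_iff.2 ((tfg_norm k3.1.le _).trans_lt k3.2))).continuousAt
      (tfg_cont ρ).continuousAt
  have hR : ∀ s ∈ Icc (0 : ℝ) 1, ∀ a, (1 - s) * (ρ * Real.exp (B a)) + s * ρ' ∈ J := fun s hs a =>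
    hJ (h1 ⟨mul_pos k3.1 (Real.exp_pos _), (mul_le_mul_of_nonneg_left
      (Real.exp_le_exp.2 (hC ⟨a, rfl⟩)) k3.1.le).trans_lt k2⟩) k4 (sub_nonneg.2 hs.2) hs.1
      (sub_add_cancel 1 s)
  have key := Λ.hom (fun s t => nu
    ((1 - s) * (S.g i (pol ρ (2 * Real.pi * t)) + A (2 * Real.pi * t)) + s * t,
      ((1 - s) * (ρ * Real.exp (B (2 * Real.pi * t))) + s * ρ') * Real.cos (2 * Real.pi * t),
      ((1 - s) * (ρ * Real.exp (B (2 * Real.pi * t))) + s * ρ') * Real.sin (2 * Real.pi * t)))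
    (ContinuousOn.comp (g := nu) (t := tube r)
      (fun p hp => (hD.ct p hp).1.continuousAt.continuousWithinAt)
      (Continuous.continuousOn (by
        have := cg.comp (continuous_snd (X := ℝ))
        exact Continuous.prodMk (((continuous_const.sub continuous_fst).mul
          (this.add (by fun_prop))).add (by fun_prop)) (by fun_prop))) fun a ha => tfg_tube (h2 (hR _ ha.1 _)) _ _)
    (fun s hs t _ => hZ _ (hR s hs _) _ _) fun s _ => by
      have a1 := hD.A_per 0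
      have a2 := hD.B_per 0
      rw [zero_add] at a1 a2
      rw [tfg_close, ← hD.inj.1 (_, _, Real.sin (2 * Real.pi * 0) |> (_ * ·))]
      simp only [mul_one, mul_zero, a1, a2, Real.cos_two_pi, Real.sin_two_pi, Real.cos_zero,
        Real.sin_zero]
      congr 2
      ring
  simp only [sub_zero, one_mul, zero_mul, add_zero, sub_self, zero_add, ← k1] at key
  rw [key]
  congr 1
  funext t
  rw [longi, zero_add]

/-- the small loops around a puncture are longitudes -/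
theorem Surf.lk_end_left (T : KTheory) (hD : TubeD K nu A B r) (S : Surf K nu A B) (i : Fin S.k) :
    ∀ᶠ ρ : ℝ in 𝓝[>] 0, T.lk (fun t => S.h (S.β i (pol ρ (2 * Real.pi * t)))) K =
      T.lk (longi nu 0 ρ) K := by
  obtain ⟨Λ, hΛ⟩ := exists_lkL T (tfg_loop hD)
  filter_upwards [tfg_hom hD S i Λ (convex_Ioo 0 r) hD.r_pos subset_rfl Ioo_subset_Ico_self
    fun R hR x a ⟨t, _, e⟩ => loc_aux_off hD.inj hR.1 hR.2 x a t ((hD.core t).trans e),
    Ioo_mem_nhdsGT hD.r_pos] with ρ h1 h2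
  rw [← hΛ, ← hΛ, h1 ρ h2]

/-- off a loop that misses the knot, the small loops around a puncture are parallel to the knot -/
theorem Surf.lk_end_right (T : KTheory) (hD : TubeD K nu A B r) (S : Surf K nu A B) (i : Fin S.k)
    {U : ℝ → P3} (hU : IsLoop U) (hUK : ∀ t ∈ Icc (0 : ℝ) 1, U t ∉ range K) :
    ∀ᶠ ρ : ℝ in 𝓝[>] 0, T.lk U (fun t => S.h (S.β i (pol ρ (2 * Real.pi * t)))) =
      T.lk U K := by
  obtain ⟨Λ, hΛ⟩ := exists_lkR T hU
  have hO : IsOpen (U '' Icc (0 : ℝ) 1)ᶜ :=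
    (isCompact_Icc.image_of_continuousOn hU.1).isClosed.isOpen_compl
  have h0 : ∀ᶠ q : P2 in 𝓝 0, ∀ x ∈ Icc (0 : ℝ) 1, nu (x, q) ∈ (U '' Icc (0 : ℝ) 1)ᶜ :=
    isCompact_Icc.eventually_forall_of_forall_eventually fun x _ =>
      (ContinuousAt.comp (g := nu) (f := fun z : P2 × ℝ => (z.2, z.1))
        (hD.ct (x, 0, 0) (loc_aux_core hD.r_pos x)).1.continuousAt (by fun_prop)).eventually_mem
        (hO.mem_nhds fun ⟨t, ht, e⟩ => hUK t ht ⟨x, ((e.trans (hD.core x)).symm)⟩)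
  obtain ⟨ε, hε, h1⟩ := Metric.eventually_nhds_iff_ball.1 h0
  have h2 := lt_min hε hD.r_pos
  filter_upwards [tfg_hom hD S i Λ (convex_Ico 0 (min ε r)) h2 Ioo_subset_Ico_self
    (Ico_subset_Ico_right (min_le_right _ _)) fun R hR x a => by
      obtain ⟨y, hy, e⟩ := Function.Periodic.exists_mem_Ico₀
        (f := fun x => nu (x, pol R a)) (fun x => hD.inj.1 (x, pol R a)) zero_lt_one x
      exact mem_of_eq_of_mem e (h1 _ (mem_ball_zero_iff.2
        ((tfg_norm hR.1 a).trans_lt (hR.2.trans_le (min_le_left _ _)))) y (Ico_subset_Icc_self hy))]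
    with ρ h3
  rw [← hΛ, ← hΛ, h3 0 ⟨le_rfl, h2⟩]
  congr 1
  funext t
  rw [longi, zero_add, zero_mul, zero_mul, hD.core]

theorem tfg_circ (S : Surf K nu A B) (a : ℝ) : pol 1 a ∈ disc \ range S.u := by
  have h := (tfg_sq 1 a).trans (one_pow 2)
  refine ⟨h.le, fun ⟨i, e⟩ => (S.u_int i).ne ?_⟩
  rw [e, h]

theorem Surf.lk_K (T : KTheory) (hD : TubeD K nu A B r) (hC : CableOK T nu) (S : Surf K nu A B) :
    T.lk (bdU S.h 1) K = 0 := by
  obtain ⟨Λ, hΛ⟩ := exists_lkL T (tfg_loop hD)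
  obtain ⟨Λ', hΛ'⟩ := Λ.exists_comap (S' := disc \ range S.u) (f := S.h)
    (fun w hw => (S.sm w hw).continuousAt.continuousWithinAt)
    fun w hw k => S.off w hw (image_subset_range _ _ k)
  have e : (fun t => nu (t, 0, 0)) = K := funext hD.core
  have key := punct_disc (C := disc) (by simpa [disc] using tfg_conv.convex_le 1) S.u_inj
    (fun i => mem_of_superset (tfg_open.mem_nhds (S.u_int i)) fun w hw => hw.out.le) S.β_sm S.β_zero S.β_imm Λ' (fun i => by
      filter_upwards [S.lk_end_left T hD i, hC.1] with ρ h1 h2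
      rw [hΛ', hΛ, h1, ← e, h2]) (c := fun t => pol 1 (2 * Real.pi * t))
    ⟨(tfg_cont 1).continuousOn, fun t _ => tfg_circ S _⟩ (tfg_close 1)
  rwa [hΛ', hΛ] at key

theorem Surf.lk_in (T : KTheory) (hD : TubeD K nu A B r) (hC : CableOK T nu) (S : Surf K nu A B) :
    ∀ᶠ ρ : ℝ in 𝓝[<] 1, T.lk (bdU S.h 1) (bdU S.h ρ) = 0 := by
  have hs : ∀ w ∈ {w : P2 | w.1 ^ 2 + w.2 ^ 2 < 1} \ range S.u, w ∈ disc \ range S.u :=
    fun w hw => ⟨hw.1.out.le, hw.2⟩
  have hU : IsLoop (bdU S.h 1) :=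
    ⟨S.leg3.1.continuous.continuousOn, congrArg S.h (tfg_close 1)⟩
  obtain ⟨Λ, hΛ⟩ := exists_lkR T hU
  obtain ⟨Λ', hΛ'⟩ := Λ.exists_comap (S' := {w : P2 | w.1 ^ 2 + w.2 ^ 2 < 1} \ range S.u) (f := S.h)
    (fun w hw => (S.sm w (hs w hw)).continuousAt.continuousWithinAt) fun w hw ⟨t, _, e⟩ => by
      have h1 := hw.1
      rw [← S.inj (tfg_circ S _) (hs w hw) e, mem_setOf_eq, tfg_sq, one_pow] at h1
      exact h1.false
  filter_upwards [S.ev_mem] with ρ hρ
  have key := punct_disc (C := {w : P2 | w.1 ^ 2 + w.2 ^ 2 < 1})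
    (by simpa using tfg_conv.convex_lt 1) S.u_inj
    (fun i => tfg_open.mem_nhds (S.u_int i))
    S.β_sm S.β_zero S.β_imm Λ' (fun i => by
      filter_upwards [S.lk_end_right T hD i hU fun t _ => S.off _ (tfg_circ S _)] with ρ h1
      rw [hΛ', hΛ, h1, S.lk_K T hD hC]) (c := fun t => pol ρ (2 * Real.pi * t))
    ⟨(tfg_cont ρ).continuousOn, fun t _ => hρ _⟩ (tfg_close ρ)
  rwa [hΛ', hΛ] at key

end Pool.Agent.Lib.MP_4d7d0a_gt
end
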