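import Pool.Agent.Lib.MP_4d7d0a_gt.DSH2
import Pool.Agent.Lib.MP_4d7d0a_gt.TBIn
import Pool.Agent.Lib.MP_4d7d0a_gt.CertAux1
import Pool.Agent.Lib.MP_4d7d0a_gt.TFG

-- part Pool.Agent.Lib.MP_4d7d0a_gt.DSH3
section

/-! The homeomorphism from the knot to the polygon. -/

set_option autoImplicit false

open Set Filter Topology

namespace Pool.Agent.Lib.MP_4d7d0a_gt

namespace DS

open H2Aux in
theorem h3_key (π : Prof) (hπ : 20 * (1 + 16777216) ^ 2 * π.η ≤ 1 / 12) (t : ℝ) :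
    π.real (cyc WL) t = plc (cyc WL) t ∨
      (π.real (cyc WL) t ∉ Far ∧ plc (cyc WL) t ∉ Far) := by
  have h0 := π.small
  have h1 := π.pos
  have hr := abs_sub_round t
  generalize round t = i at hr
  obtain ⟨u, rfl⟩ : ∃ u, t = i + u := ⟨t - i, by ring⟩
  rw [add_sub_cancel_left] at hr
  obtain ⟨r1, r2⟩ := abs_le.1 hr
  have hc := π.real_close rel_WL CertAux.norm_WL (i + u)
  rcases le_or_gt π.η |u| with h | h
  · left
    rw [plc_gen rel_WL i hr, shp_eq π _ _ _ h, π.real_eq_cor rel_WL _ (by linarith) (by linarith)]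
  · right
    obtain ⟨a3, a4⟩ := abs_lt.1 h
    have a5 := abs_nonneg u
    have e : realGen (cyc WL (i - 1)) (cyc WL i) (cyc WL (i + 1)) 0 0 0 = cyc WL i := by
      simp [realGen]
    have n : ‖plc (cyc WL) (i + u) - cyc WL i‖ ≤ 20 * (1 + 16777216) ^ 2 * (2 * π.η) := by
      rw [plc_gen rel_WL i hr, shp]
      conv_lhs => congr; congr; rfl; rw [← e]
      refine realGen_close (CertAux.norm_WL _) (CertAux.norm_WL _) (CertAux.norm_WL _) ?_ ?_
        ?_ ?_ ?_ ?_ ?_ <;> exact abs_le.2 ⟨by linarith, by linarith⟩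
    have n2 := norm_sub_le_norm_sub_add_norm_sub (π.real (cyc WL) (i + u)) (plc (cyc WL) (i + u))
      (cyc WL i)
    exact ⟨fun k => by linarith [k i], fun k => by linarith [k i]⟩

theorem off_vertex : Small fun π => ∀ p ∈ Far, (p ∈ Q ↔ p ∈ range (π.knot WL)) := by
  refine (small_lt (c := 1 / (12 * (20 * (1 + 16777216) ^ 2))) (by positivity)).mono
    fun π hπ p hp => ?_
  have h1 : 20 * (1 + 16777216) ^ 2 * π.η ≤ 1 / 12 := by
    rw [lt_div_iff₀ (by positivity)] at hπ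
    linarith
  rw [← range_plc]
  constructor
  · rintro ⟨t, rfl⟩
    refine ⟨t / 86, ?_⟩
    rw [Prof.knot, H2Aux.len, show ((86 : ℕ) : ℝ) * (t / 86) = t by push_cast; ring]
    exact (h3_key π h1 t).resolve_right fun k => k.2 hp
  · rintro ⟨s, rfl⟩
    exact ⟨_, ((h3_key π h1 _).resolve_right fun k => k.1 hp).symm⟩

theorem homeo_exists : Small fun π => ∃ Φ : P3 ≃ₜ P3,
    (∀ p, Φ p ∈ Q ↔ p ∈ range (π.knot WL)) ∧ ∀ p ∈ Far, Φ p = p := by
  refine (vertex_homeo.and off_vertex).mono fun π ⟨h1, h2⟩ => ?_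
  choose Φ f1 f2 using h1
  have hd : Pairwise fun i j : Fin 86 => Disjoint (Metric.ball (cyc WL (i : ℕ)) (1 / 2))
      (Metric.ball (cyc WL (j : ℕ)) (1 / 2)) := fun i j hij => by
    refine Metric.ball_disjoint_ball ?_
    by_contra h
    have e : plc (cyc WL) (((i : ℕ) : ℤ) : ℝ) = cyc WL (i : ℕ) := by
      rw [plc, Int.floor_intCast, Int.fract_intCast]
      simp [edge]
    rw [dist_eq_norm, ← e] at h
    obtain ⟨k, hk⟩ := plc_sep (j : ℕ) _ (by linarith)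
    obtain ⟨k1, k2⟩ := abs_lt.1 hk
    have k3 : (-1 : ℤ) < (i : ℕ) - (j : ℕ) - 86 * k := by
      have : (-1 : ℝ) < (((i : ℕ) : ℤ) : ℝ) - ((j : ℕ) : ℤ) - 86 * k := by linarith
      exact_mod_cast this
    have k4 : ((i : ℕ) : ℤ) - (j : ℕ) - 86 * k < 1 := by
      have : (((i : ℕ) : ℤ) : ℝ) - ((j : ℕ) : ℤ) - 86 * k < 1 := by linarith
      exact_mod_cast this
    exact hij (Fin.ext (by omega))
  obtain ⟨Ψ, g1, g2⟩ := homeo_glue _ hd (fun i => Φ (i : ℕ)) fun i => f1 _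
  have hfar : ∀ p, (∀ i : Fin 86, p ∉ Metric.ball (cyc WL (i : ℕ)) (1 / 2)) ↔ p ∈ Far := by
    intro p
    simp only [mem_ball_iff_norm, not_lt]
    refine ⟨fun h i => ?_, fun h i => h _⟩
    have := h ⟨(i % 86).toNat, by omega⟩
    rwa [show (((i % 86).toNat : ℕ) : ℤ) = i + 86 * (-(i / 86)) by omega, H2Aux.cyc_per] at this
  refine ⟨Ψ, fun p => ?_, fun p hp => g2 p ((hfar p).2 hp)⟩
  by_cases h : ∀ i : Fin 86, p ∉ Metric.ball (cyc WL (i : ℕ)) (1 / 2)
  · rw [g2 p h]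
    exact h2 p ((hfar p).1 h)
  · obtain ⟨i, hi⟩ := not_forall.1 h
    rw [g1 i p (not_not.1 hi)]
    exact f2 _ p (not_not.1 hi)

end DS

end Pool.Agent.Lib.MP_4d7d0a_gt
end

-- part Pool.Agent.Lib.MP_4d7d0a_gt.CableDef
section

/-! Definitions for the cable part: framed polygons, their parallel cables and the moves. -/

set_option autoImplicit false

open Set Filter Topology

namespace Pool.Agent.Lib.MP_4d7d0a_gt

namespace Cab

section Gen

variable {κ ι : Type}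

/-- the successor acting strand by strand -/
def sp (s : κ → Equiv.Perm ι) : Equiv.Perm (κ × ι) := Equiv.prodCongrRight s

theorem sp_apply (s : κ → Equiv.Perm ι) (a : κ × ι) : sp s a = (a.1, s a.1 a.2) := rfl

/-- the successor run forwards or backwards -/
def op (σ : Equiv.Perm ι) (o : Bool) : Equiv.Perm ι := if o then σ else σ⁻¹

/-- the arcs after reversing the strands with `o i = false`; arcs are named by their start -/
def reor (σ : Equiv.Perm ι) (o : κ → Bool) (c : κ × ι → ℝ → P3) (a : κ × ι) (u : ℝ) : P3 :=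
  if o a.1 then c a u else c (a.1, σ⁻¹ a.2) (1 - u)

/-- the vertex at level `τ` of the framed polygon -/
def lv (Q V : ι → P3) (τ : ℝ) (v : ι) : P3 := Q v + τ • V v

/-- the parallel polygons at the levels `τ i` with successors `s i` -/
noncomputable def cab (s : κ → Equiv.Perm ι) (Q V : ι → P3) (τ : κ → ℝ) (a : κ × ι) (u : ℝ) : P3 :=
  AffineMap.lineMap (lv Q V (τ a.1) a.2) (lv Q V (τ a.1) (s a.1 a.2)) u

/-- the ribbon of width one is embedded -/
def RibEmb (σ : Equiv.Perm ι) (Q V : ι → P3) : Prop :=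
  ∀ v w, ∀ u ∈ Ico (0 : ℝ) 1, ∀ u' ∈ Ico (0 : ℝ) 1, ∀ τ ∈ Icc (0 : ℝ) 1, ∀ τ' ∈ Icc (0 : ℝ) 1,
    (AffineMap.lineMap (lv Q V τ v) (lv Q V τ (σ v)) u : P3) =
      AffineMap.lineMap (lv Q V τ' w) (lv Q V τ' (σ w)) u' → v = w ∧ u = u' ∧ τ = τ'

/-- distinct levels in the unit interval -/
def Lev (τ : κ → ℝ) : Prop := Function.Injective τ ∧ ∀ i, τ i ∈ Icc (0 : ℝ) 1

/-- linear interpolation of vertex data -/
noncomputable def lerp (Q Q' : ι → P3) (l : ℝ) (v : ι) : P3 := AffineMap.lineMap (Q v) (Q' v) l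

/-- all parallel cables of the two framed polygons are isotopic -/
def RibIso (σ : Equiv.Perm ι) (Q V Q' V' : ι → P3) : Prop :=
  ∀ (κ : Type) (τ : κ → ℝ), Lev τ →
    FamE univ (sp fun _ : κ => σ) (cab (fun _ => σ) Q V τ) (cab (fun _ => σ) Q' V' τ)

/-- the determinant of three vectors -/
def det3 (a b c : P3) : ℝ :=
  (a.2.1 * b.2.2 - a.2.2 * b.2.1) * c.1 + (a.2.2 * b.1 - a.1 * b.2.2) * c.2.1 +
    (a.1 * b.2.1 - a.2.1 * b.1) * c.2.2

/-- `f` separates the balls of radius `M` about `p` and `q` -/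
def Gap (M : ℝ) (f : P3 →ₗ[ℝ] ℝ) (p q : P3) : Prop :=
  ∀ Y Y' : P3, ‖Y‖ ≤ M → ‖Y'‖ ≤ M → f (p + Y) < f (q + Y')

/-- `f` separates the end points of the edges `v` and `w` -/
def GapE (M : ℝ) (f : P3 →ₗ[ℝ] ℝ) (σ : Equiv.Perm ι) (Q : ι → P3) (v w : ι) : Prop :=
  Gap M f (Q v) (Q w) ∧ Gap M f (Q v) (Q (σ w)) ∧ Gap M f (Q (σ v)) (Q w) ∧
    Gap M f (Q (σ v)) (Q (σ w))

/-- seen along `n`, every vector near `d` is on the positive side of `X` -/
def Pos (M : ℝ) (X n d : P3) : Prop := ∀ Y : P3, ‖Y‖ ≤ 2 * M → 0 < det3 X n (d + Y)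

/-- a linear move of a framed polygon -/
structure StepR (M : ℝ) (σ : Equiv.Perm ι) (Q V Q' V' : ι → P3) : Prop where
  bd : ∀ v, ‖V v‖ ≤ M ∧ ‖V' v‖ ≤ M
  edge : ∀ v, ∃ n : P3, ∀ X, X = V v ∨ X = V (σ v) ∨ X = V' v ∨ X = V' (σ v) →
    Pos M X n (Q (σ v) - Q v) ∧ Pos M X n (Q' (σ v) - Q' v)
  corner : ∀ v, ∃ n : P3, ∀ X, X = V (σ v) ∨ X = V' (σ v) →
    (Pos M X n (Q (σ v) - Q v) ∧ Pos M X n (Q' (σ v) - Q' v)) ∧
      Pos M X n (Q (σ (σ v)) - Q (σ v)) ∧ Pos M X n (Q' (σ (σ v)) - Q' (σ v))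
  sep : ∀ v w, v ≠ w → σ v ≠ w → σ w ≠ v → ∃ f, GapE M f σ Q v w ∧ GapE M f σ Q' v w

/-- the four corners of the band -/
def Crn (σ : Equiv.Perm ι) (Q : ι → P3) (a c : ι) (p : P3) : Prop :=
  p = Q a ∨ p = Q (σ a) ∨ p = Q c ∨ p = Q (σ c)

/-- a flat band between the edges `a` and `c`, transverse to the framing -/
structure BandR (σ σ' : Equiv.Perm ι) (Q V : ι → P3) (a c : ι) : Prop where
  ne : a ≠ c
  s1 : σ' a = σ c
  s2 : σ' c = σ a
  s3 : ∀ g, g ≠ a → g ≠ c → σ' g = σ g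
  emb : RibEmb σ Q V
  emb' : RibEmb σ' Q V
  vb : V (σ a) = V a
  vc : V c = V a
  vd : V (σ c) = V a
  nrm : ∃ ν : P3 →ₗ[ℝ] ℝ, ν (V a) ≠ 0 ∧ ∀ p, Crn σ Q a c p → ν p = ν (Q a)
  cvx : ∃ pr : P3 →ₗ[ℝ] P3, 0 < det2 (pr (Q (σ a) - Q a)) (pr (Q c - Q (σ a))) ∧
    0 < det2 (pr (Q c - Q (σ a))) (pr (Q (σ c) - Q c)) ∧
    0 < det2 (pr (Q (σ c) - Q c)) (pr (Q a - Q (σ c))) ∧
    0 < det2 (pr (Q a - Q (σ c))) (pr (Q (σ a) - Q a))
  far : ∀ g, g ≠ a → g ≠ c → σ g ≠ a → σ g ≠ c → g ≠ σ a → g ≠ σ c →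
    ∃ f : P3 →ₗ[ℝ] ℝ, ∀ p, Crn σ Q a c p → ∀ τ ∈ Icc (0 : ℝ) 1, ∀ τ' ∈ Icc (0 : ℝ) 1,
      f (p + τ • V a) < f (lv Q V τ' g) ∧ f (p + τ • V a) < f (lv Q V τ' (σ g))
  inn : ∀ g, σ g = a ∨ σ g = c → ∃ f : P3 →ₗ[ℝ] ℝ, f (V a) = 0 ∧
    (∀ p, Crn σ Q a c p → f p ≤ f (Q (σ g))) ∧ ∀ τ ∈ Icc (0 : ℝ) 1, f (Q (σ g)) < f (lv Q V τ g)
  out : ∀ g, g = σ a ∨ g = σ c → ∃ f : P3 →ₗ[ℝ] ℝ, f (V a) = 0 ∧
    (∀ p, Crn σ Q a c p → f p ≤ f (Q g)) ∧ ∀ τ ∈ Icc (0 : ℝ) 1, f (Q g) < f (lv Q V τ (σ g))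

end Gen

/-- the cyclic successor -/
abbrev rot (n : ℕ) : Equiv.Perm (Fin (n + 1)) := finRotate (n + 1)

/-- the uniform subdivision of closed curves -/
noncomputable def usub {κ : Type} (n : ℕ) (γ : κ → ℝ → P3) (a : κ × Fin (n + 1)) (u : ℝ) : P3 :=
  γ a.1 (((a.2 : ℕ) + u) / (n + 1))

/-- the concatenation of `n + 1` arcs, on the unit interval -/
noncomputable def cat (n : ℕ) (c : Fin (n + 1) → ℝ → P3) (t : ℝ) : P3 :=
  c ⟨min ⌊(n + 1) * t⌋₊ n, Nat.lt_succ_of_le (min_le_right _ _)⟩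
    ((n + 1) * t - (min ⌊(n + 1) * t⌋₊ n : ℕ))

/-- an immersed tube, injective modulo the period -/
structure TubeI (nu : P3 → P3) (r : ℝ) : Prop where
  map : TubeMap nu r
  sm : ∀ p ∈ tube r, ContDiffAt ℝ 1 nu p
  imm : ∀ p ∈ tube r, Function.Injective (fderiv ℝ nu p)

/-- arcs that are linear in the cylindrical coordinates of the tube -/
noncomputable def tarc {κ : Type} (n : ℕ) (nu : P3 → P3) (S Θ : ℕ → ℝ) (μ : κ → ℝ)
    (a : κ × Fin (n + 1)) (u : ℝ) : P3 :=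
  nu (S a.2 + u * (S (a.2 + 1) - S a.2), pol (μ a.1) (Θ a.2 + u * (Θ (a.2 + 1) - Θ a.2)))

/-- starting data of distinct parallel curves in a tube -/
def Dist {κ : Type} (x ρ : κ → ℝ) : Prop :=
  ∀ i j, i ≠ j → ρ i ≠ ρ j ∨ (ρ i ≠ 0 ∧ ∀ k : ℤ, x i ≠ x j + k)

/-- between the rounded and the sharp polygon -/
noncomputable def mixc (π : Prof) (W : ℤ → P3) (s t : ℝ) : P3 :=
  (1 - s) • π.real W t + s • plc W t

/-- the framing vector of angle `θ` along a flat edge run with speed `v` -/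
noncomputable def fr (v θ : ℝ) : P3 := (0, Real.cos θ / v, Real.sin θ)

/-- cutting times `T`, angles `Θ` and edges `E` of the arcs; the framing turns on the edge `e` -/
structure StrD (l : List Z3) (n : ℕ) (T Θ : ℕ → ℝ) (E : ℕ → ℤ) (e : ℤ) : Prop where
  lo : ∀ j ≤ n, (E j : ℝ) ≤ T j
  lt : ∀ j ≤ n, T j < T (j + 1)
  hi : ∀ j ≤ n, T (j + 1) ≤ E j + 1
  per : T (n + 1) = T 0 + l.length
  perΘ : Θ (n + 1) = Θ 0 + 2 * Real.pi
  str : ∀ i, (cyc l (i + 1)).1 = (cyc l i).1 ∨ (cyc l (i + 1)).2.1 = (cyc l i).2.1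
  flat : (cyc l (e + 1)).2.1 = (cyc l e).2.1
  run : (cyc l (e + 1)).1 ≠ (cyc l e).1
  turn : ∀ j ≤ n, (Θ (j + 1) = Θ j ∧ Real.cos (Θ j) = 0 ∧ Real.sin (Θ j) = 1) ∨
    (|Θ (j + 1) - Θ j| < Real.pi ∧ (e : ℝ) + 1 / 4 ≤ T j ∧ T (j + 1) ≤ e + 3 / 4)

/-- the generic position of two segments in the front projection and the sign of the crossing,
for integer end points -/
def crI (a b c d : Z3) : Option ℤ :=
  if max a.1 b.1 < min c.1 d.1 ∨ max c.1 d.1 < min a.1 b.1 ∨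
      max a.2.2 b.2.2 < min c.2.2 d.2.2 ∨ max c.2.2 d.2.2 < min a.2.2 b.2.2 then some 0
  else
    let D := (b.1 - a.1) * (d.2.2 - c.2.2) - (b.2.2 - a.2.2) * (d.1 - c.1)
    let s := (c.1 - a.1) * (d.2.2 - c.2.2) - (c.2.2 - a.2.2) * (d.1 - c.1)
    let t := (c.1 - a.1) * (b.2.2 - a.2.2) - (c.2.2 - a.2.2) * (b.1 - a.1)
    if 0 < s * (s - D) ∨ 0 < t * (t - D) then some 0
    else if s * (s - D) < 0 ∧ t * (t - D) < 0 then
      some (if ((a.2.1 - c.2.1) * D + s * (b.2.1 - a.2.1) - t * (d.2.1 - c.2.1)) * D < 0 then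
        (if 0 < D then 1 else -1) else 0)
    else none

end Cab

end Pool.Agent.Lib.MP_4d7d0a_gt
end

-- part Pool.Agent.Lib.MP_4d7d0a_gt.CableChk
section

/-! The checker for linear moves of framed polygons on packed natural numbers. -/

set_option autoImplicit false

namespace Pool.Agent.Lib.MP_4d7d0a_gt

namespace Cab

/-- evaluate `n`, then continue -/
def frc {β : Type} (n : ℕ) (k : ℕ → β) : β := Nat.rec (k 0) (fun m _ => k m) (Nat.add n 1)

def an (a b : Bool) : Bool := Bool.rec false b a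

def orr (a b : Bool) : Bool := Bool.rec b true a

/-- `a` implies `b` -/
def imp (a b : Bool) : Bool := Bool.rec true b a

def allN (n : ℕ) (f : ℕ → Bool) : Bool := Nat.rec true (fun i b => Bool.rec false b (f i)) n

def fld (w k m : ℕ) : ℕ := Nat.mod (Nat.shiftRight w k) m

def tb (m e : ℕ) : Bool := Nat.beq (fld m e 2) 1

def wd (s v : ℕ) : ℕ :=
  fld s (Nat.mul 186 v) 98079714615416886934934209737619787751599303819750539264

def gw (s v : ℕ) : ℕ := Nat.shiftRight (wd s v) 54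

def qw (s v : ℕ) : ℕ := Nat.shiftRight (gw s v) 36

def xw (s v : ℕ) : ℕ := Nat.mod (gw s v) 68719476736

def nE (s v : ℕ) : ℕ := fld (wd s v) 27 134217728

def nC (s v : ℕ) : ℕ := Nat.mod (wd s v) 134217728

def k1 (b w : ℕ) : ℕ := Nat.mod w b

def k2 (b w : ℕ) : ℕ := Nat.mod (Nat.div w b) b

def k3 (b w : ℕ) : ℕ := Nat.mod (Nat.div (Nat.div w b) b) b

/-- the integer vector in a word -/
def vz (b : ℕ) (o : ℤ) (w : ℕ) : Z3 := ((k1 b w : ℤ) - o, (k2 b w : ℤ) - o, (k3 b w : ℤ) - o)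

def qz (q : ℕ) : Z3 := vz 4294967296 2147483648 q

def xz (x : ℕ) : Z3 := vz 4096 2048 x

def pb (q : ℕ) : ℕ := Nat.mul 1048576 (Nat.sub 12884901888
  (Nat.add (Nat.add (k1 4294967296 q) (k2 4294967296 q)) (k3 4294967296 q)))

def val (a b c q : ℕ) : ℕ :=
  Nat.add (Nat.add (Nat.mul a (k1 4294967296 q)) (Nat.mul b (k2 4294967296 q)))
    (Nat.add (Nat.mul c (k3 4294967296 q)) (pb q))

def ad (a : ℕ) : ℕ := Nat.add (Nat.sub a 1048576) (Nat.sub 1048576 a)

def mg (a b c : ℕ) : ℕ := Nat.add (Nat.mul 4096 (Nat.add (Nat.add (ad a) (ad b)) (ad c))) 1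

def gapB (a b c p q : ℕ) : Bool := Nat.ble (Nat.add (val a b c p) (mg a b c)) (val a b c q)

def cr (x y n m : ℕ) : ℕ :=
  Nat.sub (Nat.add (Nat.add (Nat.mul x m) (Nat.mul 256 y)) (Nat.add (Nat.mul 2048 n) 1048576))
    (Nat.add (Nat.add (Nat.mul y n) (Nat.mul 256 x)) (Nat.mul 2048 m))

/-- continue with the cross product -/
def wK (x n : ℕ) (k : ℕ → ℕ → ℕ → Bool) : Bool :=
  frc (cr (k2 4096 x) (k3 4096 x) (k2 512 n) (k3 512 n)) fun a =>
    frc (cr (k3 4096 x) (k1 4096 x) (k3 512 n) (k1 512 n)) fun b =>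
      frc (cr (k1 4096 x) (k2 4096 x) (k1 512 n) (k2 512 n)) fun c => k a b c

def pos2 (x n p q p' q' : ℕ) : Bool :=
  frc x fun x => wK x n fun a b c => an (gapB a b c p q) (gapB a b c p' q')

def edgeB (s s' v j : ℕ) : Bool :=
  frc (qw s v) fun p => frc (qw s j) fun q => frc (qw s' v) fun p' => frc (qw s' j) fun q' =>
    frc (nE s' v) fun n => an (an (pos2 (xw s v) n p q p' q') (pos2 (xw s j) n p q p' q'))
      (an (pos2 (xw s' v) n p q p' q') (pos2 (xw s' j) n p q p' q'))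

def cornerB (s s' v j k : ℕ) : Bool :=
  frc (qw s v) fun p => frc (qw s j) fun q => frc (qw s' v) fun p' => frc (qw s' j) fun q' =>
    frc (qw s k) fun r => frc (qw s' k) fun r' => frc (nC s' v) fun n =>
      an (an (pos2 (xw s j) n p q p' q') (pos2 (xw s j) n q r q' r'))
        (an (pos2 (xw s' j) n p q p' q') (pos2 (xw s' j) n q r q' r'))

def same (s s' v : ℕ) : Bool := Nat.beq (gw s v) (gw s' v)

def sameQ (s s' v : ℕ) : Bool := Nat.beq (qw s v) (qw s' v)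

/-- the local conditions; `inc` allows to skip unchanged places -/
def locB (N : ℕ) (nx : ℕ → ℕ) (inc : Bool) (s s' : ℕ) : Bool :=
  allN N fun v => frc (nx v) fun j => frc (nx j) fun k =>
    an (orr (an inc (an (same s s' v) (same s s' j))) (edgeB s s' v j))
      (orr (an inc (an (an (same s s' v) (same s s' j)) (same s s' k))) (cornerB s s' v j k))

def bw (B t : ℕ) : ℕ := Nat.shiftRight B (Nat.add 8 (Nat.mul 367 t))

def bA (B t : ℕ) : ℕ := fld (bw B t) 175 79228162514264337593543950336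

def bB (B t : ℕ) : ℕ := fld (bw B t) 271 79228162514264337593543950336

def lowB (a b c c0 c1 s s' v j : ℕ) : Bool :=
  frc (qw s v) fun p => frc (qw s j) fun q => frc (qw s' v) fun p' => frc (qw s' j) fun q' =>
    an (an (Nat.ble (val a b c p) c0) (Nat.ble (val a b c q) c0))
      (an (Nat.ble (val a b c p') c1) (Nat.ble (val a b c q') c1))

def highB (a b c h0 h1 s s' v j : ℕ) : Bool :=
  frc (qw s v) fun p => frc (qw s j) fun q => frc (qw s' v) fun p' => frc (qw s' j) fun q' =>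
    an (an (Nat.ble h0 (val a b c p)) (Nat.ble h0 (val a b c q)))
      (an (Nat.ble h1 (val a b c p')) (Nat.ble h1 (val a b c q')))

/-- one functional separates the edges of the first mask from those of the second -/
def blkB (N : ℕ) (nx : ℕ → ℕ) (s s' B t : ℕ) : Bool :=
  frc (fld (bw B t) 0 2097152) fun a => frc (fld (bw B t) 21 2097152) fun b =>
    frc (fld (bw B t) 42 2097152) fun c => frc (fld (bw B t) 63 72057594037927936) fun c0 =>
      frc (fld (bw B t) 119 72057594037927936) fun c1 => frc (Nat.add c0 (mg a b c)) fun h0 =>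
        frc (Nat.add c1 (mg a b c)) fun h1 => frc (bA B t) fun A => frc (bB B t) fun A' =>
          allN N fun e => an (imp (tb A e) (frc (nx e) fun j => lowB a b c c0 c1 s s' e j))
            (imp (tb A' e) (frc (nx e) fun j => highB a b c h0 h1 s s' e j))

def cw (C t : ℕ) : ℕ := Nat.shiftRight C (Nat.add 8 (Nat.mul 77 t))

def gap2 (a b c s s' v j : ℕ) : Bool :=
  frc (qw s v) fun p => frc (qw s j) fun q => frc (qw s' v) fun p' => frc (qw s' j) fun q' =>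
    an (gapB a b c p q) (gapB a b c p' q')

def chGo (nx : ℕ → ℕ) (a b c s s' len : ℕ) : ℕ → Bool :=
  Nat.rec (fun _ => true)
    (fun _ ih v => frc (nx v) fun j => an (gap2 a b c s s' v j) (ih j)) len

def chMask (nx : ℕ → ℕ) (len : ℕ) : ℕ → ℕ :=
  Nat.rec (fun _ => 0) (fun _ ih v => Nat.lor (Nat.pow 2 v) (frc (nx v) ih)) len

def cM (nx : ℕ → ℕ) (C t : ℕ) : ℕ := chMask nx (fld (cw C t) 70 128) (fld (cw C t) 63 128)

/-- one functional increases along consecutive edges -/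
def chB (N : ℕ) (nx : ℕ → ℕ) (s s' C t : ℕ) : Bool :=
  frc (fld (cw C t) 0 2097152) fun a => frc (fld (cw C t) 21 2097152) fun b =>
    frc (fld (cw C t) 42 2097152) fun c => frc (fld (cw C t) 63 128) fun v =>
      an (Nat.ble (Nat.add v 1) N) (chGo nx a b c s s' (fld (cw C t) 70 128) v)

def sel (b : Bool) (m : ℕ) : ℕ := Bool.rec 0 m b

def covU (nx pv : ℕ → ℕ) (B C i : ℕ) : ℕ :=
  Nat.lor (Nat.lor (Nat.pow 2 i) (Nat.lor (Nat.pow 2 (nx i)) (Nat.pow 2 (pv i))))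
    (Nat.lor
      (Nat.rec 0 (fun t acc => Nat.lor acc
        (Nat.lor (sel (tb (bA B t) i) (bB B t)) (sel (tb (bB B t) i) (bA B t)))) (Nat.mod B 256))
      (Nat.rec 0 (fun t acc => Nat.lor acc (sel (tb (cM nx C t) i) (cM nx C t))) (Nat.mod C 256)))

def covB (N : ℕ) (nx pv : ℕ → ℕ) (inc : Bool) (s s' B C : ℕ) : Bool :=
  allN N fun i => orr (an inc (an (sameQ s s' i) (frc (nx i) fun j => sameQ s s' j)))
    (Nat.beq (Nat.mod (Nat.add (covU nx pv B C i) 1) (Nat.pow 2 N)) 0)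

def chk (N : ℕ) (nx pv : ℕ → ℕ) (inc : Bool) (s s' B C : ℕ) : Bool :=
  an (locB N nx inc s s') (an (allN (Nat.mod B 256) fun t => blkB N nx s s' B t)
    (an (allN (Nat.mod C 256) fun t => chB N nx s s' C t) (covB N nx pv inc s s' B C)))

/-- apply the changes -/
def upd (s U : ℕ) : ℕ :=
  Nat.rec s (fun t acc => Nat.xor acc
    (Nat.shiftLeft (fld U (Nat.add 15 (Nat.mul 193 t))
      98079714615416886934934209737619787751599303819750539264)
      (Nat.mul 186 (fld U (Nat.add 8 (Nat.mul 193 t)) 128)))) (Nat.mod U 256)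

/-- a sequence of moves from `s` to `z` -/
def run (N : ℕ) (nx pv : ℕ → ℕ) (z : ℕ) (l : List (ℕ × ℕ × ℕ)) : ℕ → Bool :=
  List.rec (fun s => Nat.beq s z)
    (fun st _ ih s => frc (upd s st.1) fun s' => an (chk N nx pv true s s' st.2.1 st.2.2) (ih s')) l

/-- successor before (`t = 50`, `t' = 0`) and after (`t = 0`, `t' = 50`) the band move -/
def nxt2 (t t' e : ℕ) : ℕ := Bool.rec (Bool.rec (Nat.add e 1) t' (Nat.beq e 94)) t (Nat.beq e 49)

def prv2 (t t' e : ℕ) : ℕ := Bool.rec (Bool.rec (Nat.sub e 1) 94 (Nat.beq e t')) 49 (Nat.beq e t)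

end Cab

end Pool.Agent.Lib.MP_4d7d0a_gt
end

-- part Pool.Agent.Lib.MP_4d7d0a_gt.CableRib
section

/-! Cables of embedded ribbons. -/

set_option autoImplicit false

open Set Filter Topology

namespace Pool.Agent.Lib.MP_4d7d0a_gt

namespace Cab

variable {κ ι : Type}

/-- an embedded polygon -/
def PolyEmb (s : Equiv.Perm ι) (P : ι → P3) : Prop :=
  ∀ v w, ∀ u ∈ Ico (0 : ℝ) 1, ∀ u' ∈ Ico (0 : ℝ) 1,
    (AffineMap.lineMap (P v) (P (s v)) u : P3) = AffineMap.lineMap (P w) (P (s w)) u' →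
      v = w ∧ u = u'

/-- two disjoint polygons -/
def PolyApart (s s' : Equiv.Perm ι) (P P' : ι → P3) : Prop :=
  ∀ v w, ∀ u ∈ Icc (0 : ℝ) 1, ∀ u' ∈ Icc (0 : ℝ) 1,
    (AffineMap.lineMap (P v) (P (s v)) u : P3) ≠ AffineMap.lineMap (P' w) (P' (s' w)) u'

theorem rib_rev (s : Equiv.Perm ι) (P : ι → P3) (v : ι) (u : ℝ) :
    (AffineMap.lineMap (P v) (P (s⁻¹ v)) u : P3) =
      AffineMap.lineMap (P (s⁻¹ v)) (P (s (s⁻¹ v))) (1 - u) := by
  rw [AffineMap.lineMap_apply_one_sub, show s (s⁻¹ v) = v from s.apply_symm_apply v]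

theorem rib_op (s : Equiv.Perm ι) (P : ι → P3) (o : Bool) (v : ι) {u : ℝ}
    (hu : u ∈ Icc (0 : ℝ) 1) : ∃ w, ∃ u' ∈ Icc (0 : ℝ) 1,
      (AffineMap.lineMap (P v) (P (op s o v)) u : P3) = AffineMap.lineMap (P w) (P (s w)) u' := by
  cases o
  · exact ⟨_, 1 - u, ⟨sub_nonneg.2 hu.2, sub_le_self _ hu.1⟩, rib_rev s P v u⟩
  · exact ⟨v, u, hu, rfl⟩

theorem rib_ico (s : Equiv.Perm ι) (P : ι → P3) (v : ι) {u : ℝ} (hu : u ∈ Icc (0 : ℝ) 1) :
    ∃ w, ∃ u' ∈ Ico (0 : ℝ) 1,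
      (AffineMap.lineMap (P v) (P (s v)) u : P3) = AffineMap.lineMap (P w) (P (s w)) u' := by
  rcases hu.2.eq_or_lt with rfl | h
  · exact ⟨s v, 0, ⟨le_rfl, one_pos⟩, by simp⟩
  · exact ⟨v, u, ⟨hu.1, h⟩, rfl⟩

theorem rib_ne {s : Equiv.Perm ι} {P : ι → P3} (h : PolyEmb s P) (v : ι) : P (s v) - P v ≠ 0 :=
  fun e => by
    have := (h v v 0 ⟨le_rfl, one_pos⟩ (1 / 2) ⟨by norm_num, by norm_num⟩
      (by rw [sub_eq_zero.1 e]; simp)).2
    norm_num at this

theorem rib_cusp {s : Equiv.Perm ι} {P : ι → P3} (h : PolyEmb s P) (v : ι) {r : ℝ} (hr : 0 < r) :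
    P (s v) - P v ≠ -(r • (P (s (s v)) - P (s v))) := fun e => by
  have h0 : 0 < 1 / (1 + r) := by positivity
  have h1 : 1 / (1 + r) < 1 := (div_lt_one (by positivity)).2 (by linarith)
  have h2 : 1 / (1 + r) * r < 1 := by
    rw [one_div, inv_mul_lt_iff₀ (by positivity)]
    linarith
  have := (h v (s v) (1 - 1 / (1 + r)) ⟨by linarith, by linarith⟩ (1 / (1 + r) * r)
    ⟨by positivity, h2⟩ (by
      rw [AffineMap.lineMap_apply_module', AffineMap.lineMap_apply_module', mul_smul,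
        ← neg_eq_iff_eq_neg.2 e]
      module)).1
  exact rib_ne h v (by rw [← this, sub_self])

theorem PolyEmb.op {s : Equiv.Perm ι} {P : ι → P3} (h : PolyEmb s P) (o : Bool) :
    PolyEmb (op s o) P := by
  cases o
  · intro v w u hu u' hu' e
    change (AffineMap.lineMap (P v) (P (s⁻¹ v)) u : P3) =
      AffineMap.lineMap (P w) (P (s⁻¹ w)) u' at e
    have h0 : (0 : ℝ) ∈ Ico (0 : ℝ) 1 := ⟨le_rfl, one_pos⟩
    have k : ∀ {t : ℝ}, t < 1 → 0 < t → 1 - t ∈ Ico (0 : ℝ) 1 := fun a b =>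
      ⟨by linarith, by linarith⟩
    rcases hu.1.eq_or_lt with rfl | a <;> rcases hu'.1.eq_or_lt with rfl | b
    · exact h v w 0 h0 0 h0 (by simpa using e)
    · rw [rib_rev s P w] at e
      rw [AffineMap.lineMap_apply_zero] at e
      linarith [(h v _ 0 h0 _ (k hu'.2 b) ((AffineMap.lineMap_apply_zero _ _).trans e)).2, hu'.2]
    · rw [rib_rev s P v] at e
      rw [AffineMap.lineMap_apply_zero] at e
      linarith [(h _ w _ (k hu.2 a) 0 h0 (e.trans (AffineMap.lineMap_apply_zero _ _).symm)).2,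
        hu.2]
    · rw [rib_rev s P v, rib_rev s P w] at e
      have := h _ _ _ (k hu.2 a) _ (k hu'.2 b) e
      exact ⟨s⁻¹.injective this.1, by linarith [this.2]⟩
  · exact h

theorem PolyApart.op {s s' : Equiv.Perm ι} {P P' : ι → P3} (h : PolyApart s s' P P')
    (o o' : Bool) : PolyApart (op s o) (op s' o') P P' := fun v w u hu u' hu' => by
  obtain ⟨a, t, ht, e⟩ := rib_op s P o v hu
  obtain ⟨b, t', ht', e'⟩ := rib_op s' P' o' w hu'
  rw [e, e']
  exact h a b t ht t' ht'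

theorem RibEmb.poly {σ : Equiv.Perm ι} {Q V : ι → P3} (h : RibEmb σ Q V) {τ : ℝ}
    (hτ : τ ∈ Icc (0 : ℝ) 1) : PolyEmb σ (lv Q V τ) := fun v w u hu u' hu' e =>
  (h v w u hu u' hu' τ hτ τ hτ e).imp_right And.left

theorem RibEmb.apart {σ : Equiv.Perm ι} {Q V : ι → P3} (h : RibEmb σ Q V) {τ τ' : ℝ}
    (hτ : τ ∈ Icc (0 : ℝ) 1) (hτ' : τ' ∈ Icc (0 : ℝ) 1) (hne : τ ≠ τ') :
    PolyApart σ σ (lv Q V τ) (lv Q V τ') := fun v w u hu u' hu' => by
  obtain ⟨a, t, ht, e⟩ := rib_ico σ (lv Q V τ) v hu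
  obtain ⟨b, t', ht', e'⟩ := rib_ico σ (lv Q V τ') w hu'
  rw [e, e']
  exact fun k => hne (h a b t ht t' ht' τ hτ τ' hτ' k).2.2

/-- embedded and pairwise disjoint strands -/
theorem cab_embE {s : κ → Equiv.Perm ι} {Q V : ι → P3} {τ : κ → ℝ}
    (h1 : ∀ i, PolyEmb (s i) (lv Q V (τ i)))
    (h2 : ∀ i j, i ≠ j → PolyApart (s i) (s j) (lv Q V (τ i)) (lv Q V (τ j))) :
    EmbE (sp s) (cab s Q V τ)
      (fun a _ => lv Q V (τ a.1) (s a.1 a.2) - lv Q V (τ a.1) a.2) := by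
  refine ⟨fun a u _ => ⟨AffineMap.hasDerivAt_lineMap.hasDerivWithinAt, rib_ne (h1 a.1) a.2⟩,
    fun _ => continuousOn_const, fun a => ?_, fun a r hr => rib_cusp (h1 a.1) a.2 hr, ?_⟩
  · simp only [cab, sp_apply, AffineMap.lineMap_apply_one, AffineMap.lineMap_apply_zero]
  · rintro ⟨i, v⟩ ⟨j, w⟩ u hu u' hu' e
    by_cases hij : i = j
    · subst hij
      exact (h1 i v w u hu u' hu' e).imp_left fun k => Prod.ext rfl k
    · exact absurd e (h2 i j hij v w u (Ico_subset_Icc_self hu) u' (Ico_subset_Icc_self hu'))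

theorem RibEmb.embE {σ : Equiv.Perm ι} {Q V : ι → P3} (h : RibEmb σ Q V) {τ : κ → ℝ}
    (hτ : Lev τ) (o : κ → Bool) :
    EmbE (sp fun i => op σ (o i)) (cab (fun i => op σ (o i)) Q V τ)
      (fun a _ => lv Q V (τ a.1) (op σ (o a.1) a.2) - lv Q V (τ a.1) a.2) :=
  cab_embE (fun i => (h.poly (hτ.2 i)).op (o i)) fun i j hij =>
    (h.apart (hτ.2 i) (hτ.2 j) fun e => hij (hτ.1 e)).op (o i) (o j)

theorem rib_fam {σ : Equiv.Perm ι} (Q V : ℝ → ι → P3) (τ : ℝ → κ → ℝ)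
    (hQ : ∀ v, Continuous fun l => Q l v) (hV : ∀ v, Continuous fun l => V l v)
    (hτ : ∀ i, Continuous fun l => τ l i)
    (h : ∀ l ∈ Icc (0 : ℝ) 1, RibEmb σ (Q l) (V l) ∧ Lev (τ l)) :
    FamE univ (sp fun _ : κ => σ) (cab (fun _ => σ) (Q 0) (V 0) (τ 0))
      (cab (fun _ => σ) (Q 1) (V 1) (τ 1)) := by
  have hc : ∀ i v, Continuous fun a : ℝ × ℝ => lv (Q a.1) (V a.1) (τ a.1 i) v := fun i v =>
    ((hQ v).add ((hτ i).smul (hV v))).comp continuous_fst
  refine ⟨fun l => cab (fun _ => σ) (Q l) (V l) (τ l), fun l a _ =>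
    lv (Q l) (V l) (τ l a.1) (σ a.2) - lv (Q l) (V l) (τ l a.1) a.2, fun l hl =>
      cab_embE (fun i => (h l hl).1.poly ((h l hl).2.2 i)) fun i j hij =>
        (h l hl).1.apart ((h l hl).2.2 i) ((h l hl).2.2 j) fun e => hij ((h l hl).2.1 e),
    fun a => Continuous.continuousOn ?_, fun a => ((hc _ _).sub (hc _ _)).continuousOn,
    fun _ _ _ _ _ => trivial, fun _ _ _ => rfl, fun _ _ _ => rfl⟩
  simp only [cab, AffineMap.lineMap_apply_module']
  exact (continuous_snd.smul ((hc _ _).sub (hc _ _))).add (hc _ _)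

theorem ribIso_of_emb {σ : Equiv.Perm ι} {Q V Q' V' : ι → P3}
    (h : ∀ l ∈ Icc (0 : ℝ) 1, RibEmb σ (lerp Q Q' l) (lerp V V' l)) : RibIso σ Q V Q' V' := by
  intro κ τ hτ
  have e0 : ∀ Q Q' : ι → P3, lerp Q Q' 0 = Q := fun Q Q' => funext fun v => by simp [lerp]
  have e1 : ∀ Q Q' : ι → P3, lerp Q Q' 1 = Q' := fun Q Q' => funext fun v => by simp [lerp]
  have := rib_fam (lerp Q Q') (lerp V V') (fun _ => τ) (fun v => AffineMap.lineMap_continuous)
    (fun v => AffineMap.lineMap_continuous) (fun _ => continuous_const) fun l hl => ⟨h l hl, hτ⟩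
  rwa [e0, e0, e1, e1] at this

theorem RibEmb.refl {σ : Equiv.Perm ι} {Q V : ι → P3} (h : RibEmb σ Q V) : RibIso σ Q V Q V :=
  fun _ τ hτ => rib_fam (fun _ => Q) (fun _ => V) (fun _ => τ) (fun _ => continuous_const)
    (fun _ => continuous_const) (fun _ => continuous_const) fun _ _ => ⟨h, hτ⟩

theorem RibIso.trans {σ : Equiv.Perm ι} {Q V Q' V' Q'' V'' : ι → P3} (h : RibIso σ Q V Q' V')
    (h' : RibIso σ Q' V' Q'' V'') : RibIso σ Q V Q'' V'' := fun κ τ hτ =>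
  (h κ τ hτ).trans (h' κ τ hτ)

/-- moving the levels -/
theorem cab_level {σ : Equiv.Perm ι} {Q V : ι → P3} (h : RibEmb σ Q V) {τ τ' : κ → ℝ}
    (hτ : ∀ l ∈ Icc (0 : ℝ) 1, Lev fun i => (1 - l) * τ i + l * τ' i) :
    FamE univ (sp fun _ : κ => σ) (cab (fun _ => σ) Q V τ) (cab (fun _ => σ) Q V τ') := by
  have := rib_fam (fun _ => Q) (fun _ => V) (fun l i => (1 - l) * τ i + l * τ' i)
    (fun _ => continuous_const) (fun _ => continuous_const) (fun _ => by fun_prop)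
    fun l hl => ⟨h, hτ l hl⟩
  simpa only [sub_zero, one_mul, zero_mul, add_zero, sub_self, zero_add] using this

/-- a linear map joined to the identity by injective maps -/
theorem ribIso_lin {σ : Equiv.Perm ι} {Q V : ι → P3} (A : P3 →ₗ[ℝ] P3)
    (hA : ∀ l ∈ Icc (0 : ℝ) 1, ∀ p : P3, (1 - l) • p + l • A p = 0 → p = 0)
    (h : RibEmb σ (fun v => A (Q v)) (fun v => A (V v))) :
    RibIso σ Q V (fun v => A (Q v)) (fun v => A (V v)) := by
  have k : ∀ (B : P3 →ₗ[ℝ] P3) (τ u : ℝ) (v : ι),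
      (AffineMap.lineMap (lv (fun v => B (Q v)) (fun v => B (V v)) τ v)
        (lv (fun v => B (Q v)) (fun v => B (V v)) τ (σ v)) u : P3) =
        B (AffineMap.lineMap (lv Q V τ v) (lv Q V τ (σ v)) u) := fun B τ u v => by
    simp only [lv, AffineMap.lineMap_apply_module', map_add, map_smul, map_sub]
  have h0 : RibEmb σ Q V := fun v w u hu u' hu' τ hτ τ' hτ' e =>
    h v w u hu u' hu' τ hτ τ' hτ' (by rw [k, k, e])
  refine ribIso_of_emb fun l hl => ?_
  have e : ∀ X : ι → P3, lerp X (fun v => A (X v)) l =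
      fun v => ((1 - l) • LinearMap.id + l • A : P3 →ₗ[ℝ] P3) (X v) := fun X => funext fun v => by
    simp [lerp, AffineMap.lineMap_apply_module]
  rw [e, e]
  intro v w u hu u' hu' τ hτ τ' hτ' e'
  rw [k, k] at e'
  exact h0 v w u hu u' hu' τ hτ τ' hτ'
    ((injective_iff_map_eq_zero _).2 (fun p hp => hA l hl p hp) e')

theorem cab_smul (s : κ → Equiv.Perm ι) (Q V : ι → P3) (τ : κ → ℝ) {c : ℝ} (hc : c ≠ 0) :
    cab s Q (fun v => c • V v) (fun i => τ i / c) = cab s Q V τ := by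
  have : ∀ i, lv Q (fun v => c • V v) (τ i / c) = lv Q V (τ i) := fun i => funext fun v => by
    simp only [lv, smul_smul, div_mul_cancel₀ _ hc]
  funext a u
  simp only [cab, this]

end Cab

end Pool.Agent.Lib.MP_4d7d0a_gt
end

-- part Pool.Agent.Lib.MP_4d7d0a_gt.CableStep
section

/-! Soundness of a linear move. -/

set_option autoImplicit false

open Set Filter Topology

namespace Pool.Agent.Lib.MP_4d7d0a_gt

namespace Cab

variable {ι : Type}

theorem step_lm (a b : P3) (u : ℝ) : (AffineMap.lineMap a b u : P3) = (1 - u) • a + u • b :=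
  AffineMap.lineMap_apply_module _ _ _

theorem step_cvx {a b l : ℝ} (ha : 0 < a) (hb : 0 < b) (hl : l ∈ Icc (0 : ℝ) 1) :
    0 < (1 - l) * a + l * b := by
  rcases hl.2.eq_or_lt with h | h
  · rw [h]; linarith
  · exact add_pos_of_pos_of_nonneg (mul_pos (sub_pos.2 h) ha) (mul_nonneg hl.1 hb.le)

theorem step_det1 (X X' n e : P3) (a b : ℝ) :
    det3 (a • X + b • X') n e = a * det3 X n e + b * det3 X' n e := by
  simp only [det3, Prod.fst_add, Prod.snd_add, Prod.smul_fst, Prod.smul_snd, smul_eq_mul]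
  ring

theorem step_det3 (X n e e' : P3) (a b : ℝ) :
    det3 X n (a • e + b • e') = a * det3 X n e + b * det3 X n e' := by
  simp only [det3, Prod.fst_add, Prod.snd_add, Prod.smul_fst, Prod.smul_snd, smul_eq_mul]
  ring

theorem step_det3' (X n p e : P3) (a b : ℝ) :
    det3 X n (p + a • X + b • e) = det3 X n p + b * det3 X n e := by
  simp only [det3, Prod.fst_add, Prod.snd_add, Prod.smul_fst, Prod.smul_snd, smul_eq_mul]
  ring

theorem step_posX {M : ℝ} {X X' n d : P3} (h : Pos M X n d) (h' : Pos M X' n d) {l : ℝ}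
    (hl : l ∈ Icc (0 : ℝ) 1) : Pos M (AffineMap.lineMap X X' l) n d := by
  intro Y hY
  rw [step_lm, step_det1]
  exact step_cvx (h Y hY) (h' Y hY) hl

theorem step_posd {M : ℝ} {X n a b a' b' : P3} (h : Pos M X n (a - b)) (h' : Pos M X n (a' - b'))
    {l : ℝ} (hl : l ∈ Icc (0 : ℝ) 1) :
    Pos M X n (AffineMap.lineMap a a' l - AffineMap.lineMap b b' l) := by
  intro Y hY
  have e : (AffineMap.lineMap a a' l : P3) - AffineMap.lineMap b b' l + Y =
      (1 - l) • (a - b + Y) + l • (a' - b' + Y) := by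
    rw [step_lm, step_lm]
    module
  rw [e, step_det3]
  exact step_cvx (h Y hY) (h' Y hY) hl

theorem step_pos {M : ℝ} {X X' n a b a' b' : P3}
    (h : Pos M X n (a - b) ∧ Pos M X n (a' - b')) (h' : Pos M X' n (a - b) ∧ Pos M X' n (a' - b'))
    {l : ℝ} (hl : l ∈ Icc (0 : ℝ) 1) :
    Pos M (AffineMap.lineMap X X' l) n (AffineMap.lineMap a a' l - AffineMap.lineMap b b' l) :=
  step_posX (step_posd h.1 h.2 hl) (step_posd h'.1 h'.2 hl) hl

theorem step_gap {M : ℝ} {f : P3 →ₗ[ℝ] ℝ} {p q p' q' : P3} (h : Gap M f p q) (h' : Gap M f p' q')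
    {l : ℝ} (hl : l ∈ Icc (0 : ℝ) 1) :
    Gap M f (AffineMap.lineMap p p' l) (AffineMap.lineMap q q' l) := by
  intro Y Y' hY hY'
  have a1 := h Y Y' hY hY'
  have a2 := h' Y Y' hY hY'
  have a3 := step_cvx (sub_pos.2 a1) (sub_pos.2 a2) hl
  simp only [step_lm, map_add, map_smul, smul_eq_mul] at a3 ⊢
  linarith

theorem step_norm {M : ℝ} {X X' : P3} (h : ‖X‖ ≤ M) (h' : ‖X'‖ ≤ M) {l : ℝ}
    (hl : l ∈ Icc (0 : ℝ) 1) : ‖(AffineMap.lineMap X X' l : P3)‖ ≤ M := by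
  rw [step_lm]
  refine (norm_add_le _ _).trans ?_
  rw [norm_smul, norm_smul, Real.norm_of_nonneg (sub_nonneg.2 hl.2), Real.norm_of_nonneg hl.1]
  nlinarith [hl.1, hl.2]

theorem step_smul {M τ : ℝ} {X : P3} (h : ‖X‖ ≤ M) (hτ : τ ∈ Icc (0 : ℝ) 1) : ‖τ • X‖ ≤ M := by
  rw [norm_smul, Real.norm_of_nonneg hτ.1]
  nlinarith [hτ.1, hτ.2, norm_nonneg X]

theorem step_lerp {M : ℝ} {σ : Equiv.Perm ι} {Q V Q' V' : ι → P3} (h : StepR M σ Q V Q' V')
    {l : ℝ} (hl : l ∈ Icc (0 : ℝ) 1) :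
    StepR M σ (lerp Q Q' l) (lerp V V' l) (lerp Q Q' l) (lerp V V' l) := by
  refine ⟨fun v => ?_, fun v => ?_, fun v => ?_, fun v w h1 h2 h3 => ?_⟩
  · exact and_self_iff.2 (step_norm (h.bd v).1 (h.bd v).2 hl)
  · obtain ⟨n, hn⟩ := h.edge v
    have a1 := step_pos (hn (V v) (Or.inl rfl)) (hn (V' v) (Or.inr (Or.inr (Or.inl rfl)))) hl
    have a2 := step_pos (hn (V (σ v)) (Or.inr (Or.inl rfl)))
      (hn (V' (σ v)) (Or.inr (Or.inr (Or.inr rfl)))) hl
    refine ⟨n, ?_⟩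
    rintro X (rfl | rfl | rfl | rfl)
    exacts [⟨a1, a1⟩, ⟨a2, a2⟩, ⟨a1, a1⟩, ⟨a2, a2⟩]
  · obtain ⟨n, hn⟩ := h.corner v
    have a1 := step_pos (hn _ (Or.inl rfl)).1 (hn _ (Or.inr rfl)).1 hl
    have a2 := step_pos (hn _ (Or.inl rfl)).2 (hn _ (Or.inr rfl)).2 hl
    refine ⟨n, ?_⟩
    rintro X (rfl | rfl)
    exacts [⟨⟨a1, a1⟩, a2, a2⟩, ⟨⟨a1, a1⟩, a2, a2⟩]
  · obtain ⟨f, a, b⟩ := h.sep v w h1 h2 h3
    exact ⟨f, and_self_iff.2 ⟨step_gap a.1 b.1 hl, step_gap a.2.1 b.2.1 hl,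
      step_gap a.2.2.1 b.2.2.1 hl, step_gap a.2.2.2 b.2.2.2 hl⟩⟩

theorem step_static {M : ℝ} {σ : Equiv.Perm ι} {Q V : ι → P3} (h : StepR M σ Q V Q V) :
    RibEmb σ Q V := by
  have hY : ∀ v, ∀ τ ∈ Icc (0 : ℝ) 1, ‖τ • (V (σ v) - V v)‖ ≤ 2 * M := fun v τ hτ =>
    step_smul ((norm_sub_le _ _).trans (by linarith [(h.bd v).1, (h.bd (σ v)).1])) hτ
  have adj : ∀ v, ∀ u ∈ Ico (0 : ℝ) 1, ∀ u' ∈ Ico (0 : ℝ) 1, ∀ τ ∈ Icc (0 : ℝ) 1,
      ∀ τ' ∈ Icc (0 : ℝ) 1, (AffineMap.lineMap (lv Q V τ v) (lv Q V τ (σ v)) u : P3) ≠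
        AffineMap.lineMap (lv Q V τ' (σ v)) (lv Q V τ' (σ (σ v))) u' := by
    intro v u hu u' hu' τ hτ τ' hτ' e
    obtain ⟨n, hn⟩ := h.corner v
    obtain ⟨⟨a1, -⟩, a2, -⟩ := hn _ (Or.inl rfl)
    have b1 := a1 _ (hY v τ hτ)
    have b2 := a2 _ (hY (σ v) τ' hτ')
    have e1 : (AffineMap.lineMap (lv Q V τ v) (lv Q V τ (σ v)) u : P3) =
        Q (σ v) + τ • V (σ v) + (u - 1) • (Q (σ v) - Q v + τ • (V (σ v) - V v)) := by
      rw [step_lm, lv, lv]
      module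
    have e2 : (AffineMap.lineMap (lv Q V τ' (σ v)) (lv Q V τ' (σ (σ v))) u' : P3) =
        Q (σ v) + τ' • V (σ v) +
          u' • (Q (σ (σ v)) - Q (σ v) + τ' • (V (σ (σ v)) - V (σ v))) := by
      rw [step_lm, lv, lv]
      module
    have e3 := congrArg (det3 (V (σ v)) n) e
    rw [e1, e2, step_det3', step_det3'] at e3
    have c1 := mul_pos (sub_pos.2 hu.2) b1
    have c2 := mul_nonneg hu'.1 b2.le
    linarith
  intro v w u hu u' hu' τ hτ τ' hτ' e
  by_cases h1 : v = w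
  · subst h1
    obtain ⟨n, hn⟩ := h.edge v
    have a1 := step_posX (hn _ (Or.inl rfl)).1 (hn _ (Or.inr (Or.inl rfl))).1
      (Ico_subset_Icc_self hu) _ (hY v τ' hτ')
    set X : P3 := AffineMap.lineMap (V v) (V (σ v)) u with hX
    set d : P3 := Q (σ v) - Q v + τ' • (V (σ v) - V v) with hd
    have e1 : (AffineMap.lineMap (lv Q V τ' v) (lv Q V τ' (σ v)) u' : P3) =
        AffineMap.lineMap (lv Q V τ v) (lv Q V τ (σ v)) u + (τ' - τ) • X + (u' - u) • d := by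
      rw [hX, hd, step_lm, step_lm, step_lm, lv, lv, lv, lv]
      module
    have e2 := congrArg (det3 X n) e
    rw [e1, step_det3', left_eq_add] at e2
    have e3 : u' - u = 0 := (mul_eq_zero.1 e2).resolve_right a1.ne'
    rw [e1, e3, zero_smul, add_zero, left_eq_add] at e
    have e4 : X ≠ 0 := by
      intro h0
      rw [h0] at a1
      simp [det3] at a1
    have e5 : τ' - τ = 0 := (smul_eq_zero.1 e).resolve_right e4
    exact ⟨rfl, by linarith, by linarith⟩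
  · exfalso
    by_cases h2 : σ v = w
    · subst h2
      exact adj v u hu u' hu' τ hτ τ' hτ' e
    · by_cases h3 : σ w = v
      · subst h3
        exact adj w u' hu' u hu τ' hτ' τ hτ e.symm
      · obtain ⟨f, ⟨a1, a2, a3, a4⟩, -⟩ := h.sep v w h1 h2 h3
        have n1 := step_smul (h.bd v).1 hτ
        have n2 := step_smul (h.bd (σ v)).1 hτ
        have n3 := step_smul (h.bd w).1 hτ'
        have n4 := step_smul (h.bd (σ w)).1 hτ'
        have b1 : f (lv Q V τ v) < f (lv Q V τ' w) := a1 _ _ n1 n3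
        have b2 : f (lv Q V τ v) < f (lv Q V τ' (σ w)) := a2 _ _ n1 n4
        have b3 : f (lv Q V τ (σ v)) < f (lv Q V τ' w) := a3 _ _ n2 n3
        have b4 : f (lv Q V τ (σ v)) < f (lv Q V τ' (σ w)) := a4 _ _ n2 n4
        have c1 := step_cvx (step_cvx (sub_pos.2 b1) (sub_pos.2 b2) (Ico_subset_Icc_self hu'))
          (step_cvx (sub_pos.2 b3) (sub_pos.2 b4) (Ico_subset_Icc_self hu'))
          (Ico_subset_Icc_self hu)
        have e1 := congrArg f e
        rw [step_lm, step_lm, map_add, map_add, map_smul, map_smul, map_smul, map_smul] at e1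
        simp only [smul_eq_mul] at e1
        linarith

theorem StepR.emb {M : ℝ} {σ : Equiv.Perm ι} {Q V Q' V' : ι → P3} (h : StepR M σ Q V Q' V') :
    ∀ l ∈ Icc (0 : ℝ) 1, RibEmb σ (lerp Q Q' l) (lerp V V' l) :=
  fun _ hl => step_static (step_lerp h hl)

theorem StepR.emb_left {M : ℝ} {σ : Equiv.Perm ι} {Q V Q' V' : ι → P3}
    (h : StepR M σ Q V Q' V') : RibEmb σ Q V := by
  have e : ∀ A B : ι → P3, lerp A B 0 = A := fun A B => funext fun v => by simp [lerp]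
  have := h.emb 0 ⟨le_rfl, zero_le_one⟩
  rwa [e, e] at this

theorem StepR.right {M : ℝ} {σ : Equiv.Perm ι} {Q V Q' V' : ι → P3} (h : StepR M σ Q V Q' V') :
    StepR M σ Q' V' Q' V' := by
  have e : ∀ A B : ι → P3, lerp A B 1 = B := fun A B => funext fun v => by simp [lerp]
  have := step_lerp h (l := 1) ⟨zero_le_one, le_rfl⟩
  rwa [e, e] at this

end Cab

end Pool.Agent.Lib.MP_4d7d0a_gt
end

-- part Pool.Agent.Lib.MP_4d7d0a_gt.CableSnd
section

/-! Soundness of the checker. -/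

set_option autoImplicit false

open Set

namespace Pool.Agent.Lib.MP_4d7d0a_gt

namespace Cab

theorem frc_eq {β : Type} (n : ℕ) (k : ℕ → β) : frc n k = k n := by
  cases n <;> rfl

theorem an_iff (a b : Bool) : an a b = true ↔ a = true ∧ b = true := by
  cases a <;> simp [an]

theorem orr_iff (a b : Bool) : orr a b = true ↔ a = true ∨ b = true := by
  cases a <;> simp [orr]

theorem imp_iff (a b : Bool) : imp a b = true ↔ (a = true → b = true) := by
  cases a <;> simp [imp]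

theorem allN_sound {n : ℕ} {f : ℕ → Bool} (h : allN n f = true) : ∀ i < n, f i = true := by
  induction n with
  | zero => intro i hi; omega
  | succ n ih =>
    have h' : an (f n) (allN n f) = true := h
    rw [an_iff] at h'
    intro i hi
    rcases Nat.lt_succ_iff_lt_or_eq.1 hi with k | rfl
    exacts [ih h'.2 i k, h'.1]

theorem tb_iff (m e : ℕ) : tb m e = true ↔ m.testBit e = true := by
  rw [Nat.testBit_eq_decide_div_mod_eq, decide_eq_true_iff, ← Nat.shiftRight_eq_div_pow]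
  exact Nat.beq_eq.to_iff

/-- the functional in three offset numbers -/
noncomputable def fn (a b c : ℕ) : P3 →ₗ[ℝ] ℝ where
  toFun p := ((a : ℝ) - 1048576) * p.1 + ((b : ℝ) - 1048576) * p.2.1 + ((c : ℝ) - 1048576) * p.2.2
  map_add' p q := by simp only [Prod.fst_add, Prod.snd_add]; ring
  map_smul' r p := by simp only [Prod.smul_fst, Prod.smul_snd, smul_eq_mul, RingHom.id_apply]; ring

theorem fn_apply (a b c : ℕ) (p : P3) : fn a b c p =
    ((a : ℝ) - 1048576) * p.1 + ((b : ℝ) - 1048576) * p.2.1 + ((c : ℝ) - 1048576) * p.2.2 := rfl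

theorem k_lt {b : ℕ} (hb : 0 < b) (w : ℕ) : k1 b w < b ∧ k2 b w < b ∧ k3 b w < b :=
  ⟨Nat.mod_lt _ hb, Nat.mod_lt _ hb, Nat.mod_lt _ hb⟩

theorem val_cast (a b c q : ℕ) : (val a b c q : ℝ) = fn a b c (toP3 (qz q)) +
    (((a : ℝ) + b + c - 3 * 1048576) * 2147483648 + 1048576 * 12884901888) := by
  obtain ⟨h1, h2, h3⟩ := k_lt (b := 4294967296) (by norm_num) q
  have h : k1 4294967296 q + k2 4294967296 q + k3 4294967296 q ≤ 12884901888 := by omega
  simp only [val, pb, Nat.add_eq, Nat.mul_eq, Nat.sub_eq, fn_apply, toP3, qz, vz]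
  push_cast [Nat.cast_sub h]
  ring

theorem ad_cast (a : ℕ) : (ad a : ℝ) = |(a : ℝ) - 1048576| := by
  simp only [ad, Nat.add_eq, Nat.sub_eq]
  rcases le_total a 1048576 with h | h
  · have h' : (a : ℝ) ≤ 1048576 := by exact_mod_cast h
    rw [Nat.sub_eq_zero_of_le h, zero_add, Nat.cast_sub h, abs_of_nonpos (by linarith)]
    push_cast
    ring
  · have h' : (1048576 : ℝ) ≤ a := by exact_mod_cast h
    rw [Nat.sub_eq_zero_of_le h, add_zero, Nat.cast_sub h, abs_of_nonneg (by linarith)]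
    push_cast
    ring

theorem fn_le (a b c : ℕ) {Y : P3} (h : ‖Y‖ ≤ 2048) :
    |fn a b c Y| ≤ 2048 * ((ad a : ℝ) + ad b + ad c) := by
  have h1 : |Y.1| ≤ 2048 := (norm_fst_le Y).trans h
  have h2 : |Y.2.1| ≤ 2048 := ((norm_fst_le Y.2).trans (norm_snd_le Y)).trans h
  have h3 : |Y.2.2| ≤ 2048 := ((norm_snd_le Y.2).trans (norm_snd_le Y)).trans h
  rw [fn_apply, ad_cast, ad_cast, ad_cast]
  refine (abs_add_three _ _ _).trans ?_
  rw [abs_mul, abs_mul, abs_mul]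
  have := mul_le_mul_of_nonneg_left h1 (abs_nonneg ((a : ℝ) - 1048576))
  have := mul_le_mul_of_nonneg_left h2 (abs_nonneg ((b : ℝ) - 1048576))
  have := mul_le_mul_of_nonneg_left h3 (abs_nonneg ((c : ℝ) - 1048576))
  linarith

theorem gap_of {a b c p q : ℕ} (h : val a b c p + mg a b c ≤ val a b c q) :
    Gap 2048 (fn a b c) (toP3 (qz p)) (toP3 (qz q)) := by
  intro Y Y' hY hY'
  have h0 : ((val a b c p + mg a b c : ℕ) : ℝ) ≤ (val a b c q : ℝ) := by exact_mod_cast h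
  simp only [mg, Nat.add_eq, Nat.mul_eq] at h0
  push_cast at h0
  rw [val_cast, val_cast] at h0
  have h1 := (abs_le.1 (fn_le a b c hY)).2
  have h2 := (abs_le.1 (fn_le a b c hY')).1
  rw [map_add, map_add]
  linarith

theorem gapB_iff (a b c p q : ℕ) :
    gapB a b c p q = true ↔ val a b c p + mg a b c ≤ val a b c q := Nat.ble_eq.to_iff

theorem cr_cast {x y n m : ℕ} (hx : x < 4096) (hy : y < 4096) (hn : n < 512) (hm : m < 512) :
    (cr x y n m : ℝ) - 1048576 =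
      ((x : ℝ) - 2048) * ((m : ℝ) - 256) - ((y : ℝ) - 2048) * ((n : ℝ) - 256) := by
  have h : y * n + 256 * x + 2048 * m ≤ x * m + 256 * y + (2048 * n + 1048576) := by
    zify at hx hy hn hm ⊢
    have a1 : |((x : ℤ) - 2048) * ((m : ℤ) - 256)| ≤ 2048 * 256 := by
      rw [abs_mul]
      exact mul_le_mul (abs_le.2 ⟨by omega, by omega⟩) (abs_le.2 ⟨by omega, by omega⟩)
        (abs_nonneg _) (by norm_num)
    have a2 : |((y : ℤ) - 2048) * ((n : ℤ) - 256)| ≤ 2048 * 256 := by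
      rw [abs_mul]
      exact mul_le_mul (abs_le.2 ⟨by omega, by omega⟩) (abs_le.2 ⟨by omega, by omega⟩)
        (abs_nonneg _) (by norm_num)
    have := (abs_le.1 a1).1
    have := (abs_le.1 a2).2
    linarith
  simp only [cr, Nat.add_eq, Nat.mul_eq, Nat.sub_eq]
  push_cast [Nat.cast_sub h]
  ring

theorem pos_of_gap {f : P3 →ₗ[ℝ] ℝ} {X n p q : P3} (hf : ∀ d, f d = det3 X n d)
    (h : Gap 2048 f p q) : Pos 2048 X n (q - p) := by
  intro Y hY
  have h1 : ‖(1 / 2 : ℝ) • Y‖ ≤ 2048 := by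
    rw [norm_smul, Real.norm_of_nonneg (by norm_num)]
    linarith
  have h2 := h (-((1 / 2 : ℝ) • Y)) ((1 / 2 : ℝ) • Y) (by rwa [norm_neg]) h1
  rw [← hf]
  simp only [map_add, map_sub, map_neg, map_smul, smul_eq_mul] at h2 ⊢
  linarith

theorem pos2_sound {x n p q p' q' : ℕ} (h : pos2 x n p q p' q' = true) :
    Pos 2048 (toP3 (xz x)) (toP3 (vz 512 256 n)) (toP3 (qz q) - toP3 (qz p)) ∧
      Pos 2048 (toP3 (xz x)) (toP3 (vz 512 256 n)) (toP3 (qz q') - toP3 (qz p')) := by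
  simp only [pos2, wK, frc_eq, an_iff, gapB_iff] at h
  obtain ⟨x1, x2, x3⟩ := k_lt (b := 4096) (by norm_num) x
  obtain ⟨n1, n2, n3⟩ := k_lt (b := 512) (by norm_num) n
  have hf : ∀ d, fn (cr (k2 4096 x) (k3 4096 x) (k2 512 n) (k3 512 n))
      (cr (k3 4096 x) (k1 4096 x) (k3 512 n) (k1 512 n))
      (cr (k1 4096 x) (k2 4096 x) (k1 512 n) (k2 512 n)) d =
      det3 (toP3 (xz x)) (toP3 (vz 512 256 n)) d := fun d => by
    rw [fn_apply, cr_cast x2 x3 n2 n3, cr_cast x3 x1 n3 n1, cr_cast x1 x2 n1 n2]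
    simp only [det3, toP3, xz, vz]
    push_cast
    ring
  exact ⟨pos_of_gap hf (gap_of h.1), pos_of_gap hf (gap_of h.2)⟩

theorem xz_norm (x : ℕ) : ‖toP3 (xz x)‖ ≤ 2048 := by
  obtain ⟨x1, x2, x3⟩ := k_lt (b := 4096) (by norm_num) x
  have k : ∀ a : ℕ, a < 4096 → |(((a : ℤ) - 2048 : ℤ) : ℝ)| ≤ 2048 := fun a ha => by
    have : |(a : ℤ) - 2048| ≤ 2048 := abs_le.2 ⟨by omega, by omega⟩
    exact_mod_cast this
  simp only [toP3, xz, vz, Prod.norm_mk, Real.norm_eq_abs, max_le_iff]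
  exact ⟨k _ x1, k _ x2, k _ x3⟩

/-- the vertices of a state -/
def Qr (N s : ℕ) (v : Fin N) : P3 := toP3 (qz (qw s v))

/-- the framing of a state -/
def Vr (N s : ℕ) (v : Fin N) : P3 := toP3 (xz (xw s v))

theorem same_sound {N s s' : ℕ} {v : Fin N} (h : same s s' v = true) :
    Qr N s' v = Qr N s v ∧ Vr N s' v = Vr N s v := by
  have e : gw s v = gw s' v := Nat.eq_of_beq_eq_true h
  simp only [Qr, Vr, qw, xw, e, and_self]

theorem sameQ_sound {N s s' : ℕ} {v : Fin N} (h : sameQ s s' v = true) :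
    Qr N s' v = Qr N s v := by
  have e : qw s v = qw s' v := Nat.eq_of_beq_eq_true h
  simp only [Qr, e]

theorem GapE.symm {ι : Type} {M : ℝ} {f : P3 →ₗ[ℝ] ℝ} {σ : Equiv.Perm ι} {Q : ι → P3} {v w : ι}
    (h : GapE M f σ Q v w) : GapE M (-f) σ Q w v := by
  have k : ∀ {p q : P3}, Gap M f p q → Gap M (-f) q p := fun g Y Y' hY hY' => by
    simp only [LinearMap.neg_apply, neg_lt_neg_iff]
    exact g Y' Y hY' hY
  exact ⟨k h.1, k h.2.2.1, k h.2.1, k h.2.2.2⟩

theorem bit_fold {g : ℕ → ℕ} {n j : ℕ}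
    (h : (Nat.rec 0 (fun t acc => Nat.lor acc (g t)) n : ℕ).testBit j = true) :
    ∃ t < n, (g t).testBit j = true := by
  induction n with
  | zero => simp at h
  | succ n ih =>
    have h' : ((Nat.rec 0 (fun t acc => Nat.lor acc (g t)) n : ℕ) ||| g n).testBit j = true := h
    rw [Nat.testBit_or, Bool.or_eq_true] at h'
    rcases h' with k | k
    · obtain ⟨t, ht, k⟩ := ih k
      exact ⟨t, by omega, k⟩
    · exact ⟨n, by omega, k⟩

theorem bit_sel {b : Bool} {m j : ℕ} (h : (sel b m).testBit j = true) :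
    b = true ∧ m.testBit j = true := by
  cases b
  · simp [sel] at h
  · exact ⟨rfl, h⟩

theorem bit_pow {i j : ℕ} (h : (Nat.pow 2 i).testBit j = true) : i = j := by
  have h' : (2 ^ i).testBit j = true := h
  rwa [Nat.testBit_two_pow, decide_eq_true_iff] at h'

theorem bit_chMask {nx : ℕ → ℕ} {len v j : ℕ} (h : (chMask nx len v).testBit j = true) :
    ∃ p < len, j = nx^[p] v := by
  induction len generalizing v with
  | zero => simp [chMask] at h
  | succ n ih =>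
    have h' : (Nat.pow 2 v ||| chMask nx n (nx v)).testBit j = true := h
    rw [Nat.testBit_or, Bool.or_eq_true] at h'
    rcases h' with k | k
    · exact ⟨0, by omega, (bit_pow k).symm⟩
    · obtain ⟨p, hp, k⟩ := ih k
      exact ⟨p + 1, by omega, k⟩

theorem chGo_step {nx : ℕ → ℕ} {a b c s s' len v : ℕ} (h : chGo nx a b c s s' len v = true) :
    ∀ p < len, gap2 a b c s s' (nx^[p] v) (nx^[p + 1] v) = true := by
  induction len generalizing v with
  | zero => intro p hp; omega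
  | succ n ih =>
    have h' : an (gap2 a b c s s' v (nx v)) (chGo nx a b c s s' n (nx v)) = true := h
    rw [an_iff] at h'
    intro p hp
    cases p with
    | zero => exact h'.1
    | succ p => exact ih h'.2 p (by omega)

theorem mono_of_step {g : ℕ → ℕ} {m len : ℕ} (h : ∀ p < len, g p + m ≤ g (p + 1)) {r r' : ℕ}
    (h1 : r < r') (h2 : r' ≤ len) : g r + m ≤ g r' := by
  induction r' with
  | zero => omega
  | succ n ih =>
    have := h n (by omega)
    rcases Nat.lt_succ_iff_lt_or_eq.1 h1 with k | rfl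
    · have := ih k (by omega)
      omega
    · omega

section Main

variable {N : ℕ} {σ : Equiv.Perm (Fin N)} {nx pv : ℕ → ℕ} {s s' B C : ℕ}

theorem chain_sound (hnx : ∀ v : Fin N, nx v = σ v) {a b c len u : ℕ}
    (h : chGo nx a b c s s' len u = true) {v w : Fin N} {p q : ℕ} (hq : q < len) (hpq : p + 1 < q)
    (hv : (v : ℕ) = nx^[p] u) (hw : (w : ℕ) = nx^[q] u) :
    GapE 2048 (fn a b c) σ (Qr N s) v w ∧ GapE 2048 (fn a b c) σ (Qr N s') v w := by
  have k := chGo_step h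
  simp only [gap2, frc_eq, an_iff, gapB_iff] at k
  have hv' : ((σ v : Fin N) : ℕ) = nx^[p + 1] u := by
    rw [Function.iterate_succ_apply', ← hv, hnx]
  have hw' : ((σ w : Fin N) : ℕ) = nx^[q + 1] u := by
    rw [Function.iterate_succ_apply', ← hw, hnx]
  have m1 := @mono_of_step (fun r => val a b c (qw s (nx^[r] u))) (mg a b c) len
    fun p hp => (k p hp).1
  have m2 := @mono_of_step (fun r => val a b c (qw s' (nx^[r] u))) (mg a b c) len
    fun p hp => (k p hp).2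
  simp only [GapE, Qr, hv, hw, hv', hw']
  exact ⟨⟨gap_of (m1 (by omega) (by omega)), gap_of (m1 (by omega) (by omega)),
    gap_of (m1 (by omega) (by omega)), gap_of (m1 (by omega) (by omega))⟩,
    gap_of (m2 (by omega) (by omega)), gap_of (m2 (by omega) (by omega)),
    gap_of (m2 (by omega) (by omega)), gap_of (m2 (by omega) (by omega))⟩

theorem blk_sound (hnx : ∀ v : Fin N, nx v = σ v) {t : ℕ} (h : blkB N nx s s' B t = true)
    {v w : Fin N} (hv : tb (bA B t) v = true) (hw : tb (bB B t) w = true) :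
    ∃ f, GapE 2048 f σ (Qr N s) v w ∧ GapE 2048 f σ (Qr N s') v w := by
  simp only [blkB, frc_eq] at h
  have h1 := ((an_iff _ _).1 (allN_sound h v v.2)).1
  have h2 := ((an_iff _ _).1 (allN_sound h w w.2)).2
  rw [imp_iff] at h1 h2
  have h3 := h1 hv
  have h4 := h2 hw
  simp only [lowB, highB, frc_eq, an_iff, Nat.ble_eq, Nat.add_eq, hnx] at h3 h4
  obtain ⟨⟨a1, a2⟩, a3, a4⟩ := h3
  obtain ⟨⟨b1, b2⟩, b3, b4⟩ := h4
  exact ⟨fn (fld (bw B t) 0 2097152) (fld (bw B t) 21 2097152) (fld (bw B t) 42 2097152),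
    ⟨gap_of (by omega), gap_of (by omega), gap_of (by omega), gap_of (by omega)⟩,
    gap_of (by omega), gap_of (by omega), gap_of (by omega), gap_of (by omega)⟩

theorem cov_sound (hnx : ∀ v : Fin N, nx v = σ v)
    (hpv : ∀ v w : Fin N, (w : ℕ) = pv v → σ w = v)
    (hB : ∀ t < B % 256, blkB N nx s s' B t = true) (hC : ∀ t < C % 256, chB N nx s s' C t = true)
    {v w : Fin N} (h : (covU nx pv B C v + 1) % 2 ^ N = 0) (h1 : v ≠ w) (h2 : σ v ≠ w)
    (h3 : σ w ≠ v) : ∃ f, GapE 2048 f σ (Qr N s) v w ∧ GapE 2048 f σ (Qr N s') v w := by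
  have hb : (covU nx pv B C v).testBit w = true := by
    have p0 : 0 < 2 ^ N := by positivity
    have e : covU nx pv B C v % 2 ^ N = 2 ^ N - 1 := by
      have a1 := Nat.mod_lt (covU nx pv B C v) p0
      rw [← Nat.mod_add_mod] at h
      by_contra k
      rw [Nat.mod_eq_of_lt (by omega)] at h
      omega
    have := Nat.testBit_mod_two_pow (covU nx pv B C v) N w
    rw [e, Nat.testBit_two_pow_sub_one] at this
    simpa [w.2] using this
  simp only [covU, Nat.lor_eq, Nat.testBit_or, Bool.or_eq_true] at hb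
  rcases hb with (k | k | k) | k | k
  · exact absurd (Fin.ext (bit_pow k)) h1
  · exact absurd (Fin.ext ((hnx v).symm.trans (bit_pow k))) h2
  · exact absurd (hpv v w (bit_pow k).symm) h3
  · obtain ⟨t, ht, k⟩ := bit_fold (g := fun t =>
      Nat.lor (sel (tb (bA B t) v) (bB B t)) (sel (tb (bB B t) v) (bA B t))) k
    simp only [Nat.lor_eq, Nat.testBit_or, Bool.or_eq_true] at k
    rcases k with k | k
    · exact blk_sound hnx (hB t ht) (bit_sel k).1 ((tb_iff _ _).2 (bit_sel k).2)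
    · obtain ⟨f, a1, a2⟩ := blk_sound hnx (hB t ht) ((tb_iff _ _).2 (bit_sel k).2) (bit_sel k).1
      exact ⟨-f, a1.symm, a2.symm⟩
  · obtain ⟨t, ht, k⟩ := bit_fold (g := fun t => sel (tb (cM nx C t) v) (cM nx C t)) k
    obtain ⟨p, hp, e1⟩ := bit_chMask ((tb_iff _ _).1 (bit_sel k).1)
    obtain ⟨q, hq, e2⟩ := bit_chMask (bit_sel k).2
    have g := hC t ht
    simp only [chB, frc_eq, an_iff] at g
    have n1 : p ≠ q := fun e => h1 (Fin.ext (by rw [e1, e2, e]))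
    have n2 : p + 1 ≠ q := fun e => h2 (Fin.ext (by
      rw [← hnx, e1, e2, ← e, Function.iterate_succ_apply']))
    have n3 : q + 1 ≠ p := fun e => h3 (Fin.ext (by
      rw [← hnx, e1, e2, ← e, Function.iterate_succ_apply']))
    rcases lt_or_gt_of_ne n1 with l | l
    · exact ⟨_, chain_sound hnx g.2 hq (by omega) e1 e2⟩
    · obtain ⟨a1, a2⟩ := chain_sound hnx g.2 hp (by omega) e2 e1
      exact ⟨_, a1.symm, a2.symm⟩

theorem chk_sound (hnx : ∀ v : Fin N, nx v = σ v) (hpv : ∀ v w : Fin N, (w : ℕ) = pv v → σ w = v)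
    {inc : Bool} (hI : inc = true → StepR 2048 σ (Qr N s) (Vr N s) (Qr N s) (Vr N s))
    (h : chk N nx pv inc s s' B C = true) :
    StepR 2048 σ (Qr N s) (Vr N s) (Qr N s') (Vr N s') := by
  simp only [chk, an_iff] at h
  obtain ⟨hL, hB, hC, hV⟩ := h
  have l := fun v : Fin N => allN_sound hL v v.2
  simp only [frc_eq, an_iff, orr_iff, hnx] at l
  refine ⟨fun v => ⟨xz_norm _, xz_norm _⟩, fun v => ?_, fun v => ?_, fun v w h1 h2 h3 => ?_⟩
  · rcases (l v).1 with ⟨i, a, b⟩ | k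
    · rw [(same_sound a).1, (same_sound a).2, (same_sound b).1, (same_sound b).2]
      exact (hI i).edge v
    · simp only [edgeB, frc_eq, an_iff] at k
      refine ⟨toP3 (vz 512 256 (nE s' v)), ?_⟩
      rintro X (rfl | rfl | rfl | rfl)
      exacts [pos2_sound k.1.1, pos2_sound k.1.2, pos2_sound k.2.1, pos2_sound k.2.2]
  · rcases (l v).2 with ⟨i, ⟨a, b⟩, c⟩ | k
    · rw [(same_sound a).1, (same_sound b).1, (same_sound b).2, (same_sound c).1]
      exact (hI i).corner v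
    · simp only [cornerB, frc_eq, an_iff] at k
      refine ⟨toP3 (vz 512 256 (nC s' v)), ?_⟩
      rintro X (rfl | rfl)
      exacts [⟨pos2_sound k.1.1, pos2_sound k.1.2⟩, ⟨pos2_sound k.2.1, pos2_sound k.2.2⟩]
  · have c := fun v : Fin N => allN_sound hV v v.2
    simp only [frc_eq, an_iff, orr_iff, hnx, Nat.beq_eq] at c
    rcases c v with ⟨i, a, b⟩ | k
    · rcases c w with ⟨-, a', b'⟩ | k
      · obtain ⟨f, g, -⟩ := (hI i).sep v w h1 h2 h3
        refine ⟨f, g, ?_⟩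
        simp only [GapE, sameQ_sound a, sameQ_sound b, sameQ_sound a', sameQ_sound b']
        exact g
      · obtain ⟨f, a1, a2⟩ := cov_sound hnx hpv (allN_sound hB) (allN_sound hC) k h1.symm h3 h2
        exact ⟨-f, a1.symm, a2.symm⟩
    · exact cov_sound hnx hpv (allN_sound hB) (allN_sound hC) k h1 h2 h3

theorem run_sound (hnx : ∀ v : Fin N, nx v = σ v) (hpv : ∀ v w : Fin N, (w : ℕ) = pv v → σ w = v)
    {z : ℕ} {l : List (ℕ × ℕ × ℕ)} (hI : StepR 2048 σ (Qr N s) (Vr N s) (Qr N s) (Vr N s))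
    (h : run N nx pv z l s = true) : StepR 2048 σ (Qr N z) (Vr N z) (Qr N z) (Vr N z) ∧
      RibIso σ (Qr N s) (Vr N s) (Qr N z) (Vr N z) := by
  induction l generalizing s with
  | nil =>
    obtain rfl : s = z := Nat.eq_of_beq_eq_true h
    exact ⟨hI, hI.emb_left.refl⟩
  | cons st l ih =>
    have h' : an (chk N nx pv true s (upd s st.1) st.2.1 st.2.2) (run N nx pv z l (upd s st.1)) =
      true := h
    rw [an_iff] at h'
    have k := chk_sound hnx hpv (fun _ => hI) h'.1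
    obtain ⟨a, b⟩ := ih k.right h'.2
    exact ⟨a, (ribIso_of_emb k.emb).trans b⟩

end Main

end Cab

end Pool.Agent.Lib.MP_4d7d0a_gt
end
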