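import Pool.Agent.Lib.MP_4d7d0a_gt.DAlgG

/-! Traces of representations in `SL2(ℤ)`. -/

set_option autoImplicit false

namespace Pool.Agent.Lib.MP_4d7d0a_gt

namespace DAlgS

/-- the trace -/
def tr (g : SL2Z) : ℤ := g.1 0 0 + g.1 1 1

theorem atr_eq (g : SL2Z) : atr g = |tr g| := rfl

theorem det_eq (g : SL2Z) : g.1 0 0 * g.1 1 1 - g.1 0 1 * g.1 1 0 = 1 := by
  have := g.2
  rwa [Matrix.det_fin_two] at this

theorem mul_ent (g h : SL2Z) (i j : Fin 2) :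
    (g * h).1 i j = g.1 i 0 * h.1 0 j + g.1 i 1 * h.1 1 j := by
  simp [Matrix.mul_apply, Fin.sum_univ_two]

theorem inv_ent (g : SL2Z) : (g⁻¹).1 0 0 = g.1 1 1 ∧ (g⁻¹).1 0 1 = -g.1 0 1 ∧
    (g⁻¹).1 1 0 = -g.1 1 0 ∧ (g⁻¹).1 1 1 = g.1 0 0 := by
  rw [Matrix.SpecialLinearGroup.SL2_inv_expl]
  simp

theorem ext4 {g h : SL2Z} (h0 : g.1 0 0 = h.1 0 0) (h1 : g.1 0 1 = h.1 0 1)
    (h2 : g.1 1 0 = h.1 1 0) (h3 : g.1 1 1 = h.1 1 1) : g = h := by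
  ext i j
  fin_cases i <;> fin_cases j <;> assumption

theorem ent {g h : SL2Z} (e : g = h) : g.1 0 0 = h.1 0 0 ∧ g.1 0 1 = h.1 0 1 ∧
    g.1 1 0 = h.1 1 0 ∧ g.1 1 1 = h.1 1 1 := by
  rw [e]
  exact ⟨rfl, rfl, rfl, rfl⟩

theorem one_ent : (1 : SL2Z).1 0 0 = 1 ∧ (1 : SL2Z).1 0 1 = 0 ∧ (1 : SL2Z).1 1 0 = 0 ∧
    (1 : SL2Z).1 1 1 = 1 := ⟨rfl, rfl, rfl, rfl⟩

theorem tr_comm (g h : SL2Z) : tr (g * h) = tr (h * g) := by
  simp only [tr, mul_ent]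
  ring

theorem tr_inv (g : SL2Z) : tr g⁻¹ = tr g := by
  simp only [tr, inv_ent]
  ring

theorem tr_add (g h : SL2Z) : tr (g * h) + tr (g * h⁻¹) = tr g * tr h := by
  simp only [tr, mul_ent, inv_ent]
  ring

theorem tr_conj (g h : SL2Z) : tr (g * h * g⁻¹) = tr h := by
  rw [tr_comm, inv_mul_cancel_left]

/-- entries of a power are affine in the entries -/
theorem sq_ent (g : SL2Z) : (g ^ 2).1 0 0 = tr g * g.1 0 0 - 1 ∧ (g ^ 2).1 0 1 = tr g * g.1 0 1 ∧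
    (g ^ 2).1 1 0 = tr g * g.1 1 0 ∧ (g ^ 2).1 1 1 = tr g * g.1 1 1 - 1 := by
  have d := det_eq g
  simp only [pow_two, mul_ent, tr]
  exact ⟨by linear_combination -d, by ring, by ring, by linear_combination -d⟩

theorem cube_ent (g : SL2Z) : (g ^ 3).1 0 0 = (tr g ^ 2 - 1) * g.1 0 0 - tr g ∧
    (g ^ 3).1 0 1 = (tr g ^ 2 - 1) * g.1 0 1 ∧ (g ^ 3).1 1 0 = (tr g ^ 2 - 1) * g.1 1 0 ∧
    (g ^ 3).1 1 1 = (tr g ^ 2 - 1) * g.1 1 1 - tr g := by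
  have d := det_eq g
  rw [pow_succ g 2]
  simp only [mul_ent, sq_ent]
  simp only [tr]
  exact ⟨by linear_combination -(g.1 0 0 + g.1 1 1) * d, by ring, by ring,
    by linear_combination -(g.1 0 0 + g.1 1 1) * d⟩

theorem five_ent (g : SL2Z) :
    (g ^ 5).1 0 0 - (g ^ 5).1 1 1 = (tr g ^ 4 - 3 * tr g ^ 2 + 1) * (g.1 0 0 - g.1 1 1) ∧
    (g ^ 5).1 0 1 = (tr g ^ 4 - 3 * tr g ^ 2 + 1) * g.1 0 1 ∧
    (g ^ 5).1 1 0 = (tr g ^ 4 - 3 * tr g ^ 2 + 1) * g.1 1 0 := by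
  rw [show (5 : ℕ) = 3 + 2 from rfl, pow_add]
  simp only [mul_ent, sq_ent, cube_ent]
  simp only [tr]
  exact ⟨by ring, by ring, by ring⟩

/-- commuting with a matrix only depends on its traceless part up to a factor -/
theorem comm_of {g c m : SL2Z} {u : ℤ} (hu : u ≠ 0) (h : g * c = c * g)
    (h0 : c.1 0 0 - c.1 1 1 = u * (m.1 0 0 - m.1 1 1)) (h1 : c.1 0 1 = u * m.1 0 1)
    (h2 : c.1 1 0 = u * m.1 1 0) : g * m = m * g := by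
  obtain ⟨a0, a1, a2, a3⟩ := ent h
  simp only [mul_ent] at a0 a1 a2 a3
  rw [h1, h2] at *
  refine ext4 ?_ ?_ ?_ ?_ <;> simp only [mul_ent] <;> apply mul_left_cancel₀ hu
  · linear_combination a0
  · linear_combination a1 + g.1 0 1 * h0
  · linear_combination a2 - g.1 1 0 * h0
  · linear_combination a3

theorem scalar_comm {g : SL2Z} (h0 : g.1 0 0 = g.1 1 1) (h1 : g.1 0 1 = 0) (h2 : g.1 1 0 = 0)
    (h : SL2Z) : g * h = h * g := by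
  refine ext4 ?_ ?_ ?_ ?_ <;> simp only [mul_ent, h0, h1, h2] <;> ring

theorem m_eq_one {a b m : SL2Z} (h1 : m * a * m = a) (h2 : b ^ 3 = (m⁻¹ * b) ^ 3)
    (h3 : a ^ 2 * m ^ 5 = b ^ 3) : m = 1 := by
  have dm := det_eq m
  have da := det_eq a
  have fin : b * m = m * b → m ^ 3 = 1 := fun h => by
    have hc : Commute m⁻¹ b := (Commute.symm h).inv_left
    rw [hc.mul_pow, inv_pow, eq_inv_mul_iff_mul_eq] at h2
    exact mul_eq_right.1 h2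
  have scal : m.1 0 0 = m.1 1 1 → m.1 0 1 = 0 → m.1 1 0 = 0 → m = 1 := fun e0 e1 e2 => by
    have h4 := (ent (fin (scalar_comm e0 e1 e2 b).symm)).1
    rw [(cube_ent m).1, tr, ← e0, one_ent.1] at h4
    rw [← e0, e1] at dm
    have h5 : m.1 0 0 = 1 := by linear_combination h4 - 4 * m.1 0 0 * dm
    exact ext4 h5 e1 e2 (e0 ▸ h5)
  obtain ⟨a0, a1, a2, a3⟩ := ent (eq_mul_inv_of_mul_eq h1)
  simp only [mul_ent, inv_ent] at a0 a1 a2 a3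
  by_cases ht : a.1 0 0 + a.1 1 1 = 0
  swap
  · refine scal (sub_eq_zero.1 (mul_right_cancel₀ ht ?_)) (mul_right_cancel₀ ht ?_)
      (mul_right_cancel₀ ht ?_)
    · linear_combination a0 - a3
    · linear_combination a1
    · linear_combination a2
  have e3 : a.1 1 1 = -a.1 0 0 := by linarith
  rw [e3] at da a3
  have n1 : a.1 0 1 ≠ 0 := fun e => by
    rw [e] at da
    nlinarith [sq_nonneg (a.1 0 0)]
  have key : a.1 0 1 ^ 2 * (tr m ^ 2 - 4) =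
      (a.1 0 1 * (m.1 0 0 - m.1 1 1) - 2 * m.1 0 1 * a.1 0 0) ^ 2 + 4 * m.1 0 1 ^ 2 := by
    unfold tr
    linear_combination 4 * a.1 0 1 ^ 2 * dm + 4 * a.1 0 1 * m.1 0 1 * a0 + 4 * m.1 0 1 ^ 2 * da
  rcases le_or_gt (tr m ^ 2) 4 with h4 | h4
  · have p1 : 0 < a.1 0 1 ^ 2 := by positivity
    have p2 : a.1 0 1 ^ 2 * (tr m ^ 2 - 4) ≤ 0 := mul_nonpos_of_nonneg_of_nonpos p1.le (by linarith)
    have p3 : m.1 0 1 = 0 := by
      nlinarith [sq_nonneg (a.1 0 1 * (m.1 0 0 - m.1 1 1) - 2 * m.1 0 1 * a.1 0 0),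
        sq_nonneg (m.1 0 1)]
    have p4 : a.1 0 1 * (m.1 0 0 - m.1 1 1) = 0 := by
      rw [p3] at key
      nlinarith [sq_nonneg (a.1 0 1 * (m.1 0 0 - m.1 1 1))]
    have p5 := (mul_eq_zero.1 p4).resolve_left n1
    refine scal (by linarith) p3 (mul_left_cancel₀ n1 ?_)
    rw [p3] at a0
    linear_combination a0 - a.1 0 0 * p5
  exfalso
  have hu : tr m ^ 4 - 3 * tr m ^ 2 + 1 ≠ 0 := by nlinarith
  have hs : ∀ h, a ^ 2 * h = h * a ^ 2 := by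
    obtain ⟨b0, b1, b2, b3⟩ := sq_ent a
    have : tr a = 0 := ht
    rw [this] at b0 b1 b2 b3
    exact scalar_comm (by linarith) (by linarith) (by linarith)
  have hb : b * m ^ 5 = m ^ 5 * b := by
    apply mul_left_cancel (a := a ^ 2)
    rw [← mul_assoc, hs b, mul_assoc, h3, ← mul_assoc, h3, ← pow_succ, ← pow_succ']
  have h5 := ent (fin (comm_of hu hb (five_ent m).1 (five_ent m).2.1 (five_ent m).2.2))
  rw [(cube_ent m).1, (cube_ent m).2.2.2, one_ent.1, one_ent.2.2.2] at h5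
  have h6 : (tr m - 2) * (tr m + 1) ^ 2 = 0 := by
    have e : m.1 0 0 + m.1 1 1 = tr m := rfl
    linear_combination h5.1 + h5.2.2.2 - (tr m ^ 2 - 1) * e
  rcases mul_eq_zero.1 h6 with h7 | h7
  · rw [sub_eq_zero.1 h7] at h4
    norm_num at h4
  · rw [eq_neg_of_add_eq_zero_left (pow_eq_zero_iff (two_ne_zero) |>.1 h7)] at h4
    norm_num at h4

theorem braid_tr {x z : SL2Z} (h : x * z * x = z * x * z) (hn : x * z ≠ z * x) :
    tr z = tr x ∧ tr (x * z) = 1 ∧ 2 ≤ |tr x| := by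
  obtain ⟨b, hb⟩ : ∃ b, b = x * z := ⟨_, rfl⟩
  obtain ⟨a, ha⟩ : ∃ a, a = b * x := ⟨_, rfl⟩
  have hx : x = b⁻¹ * a := by rw [ha, inv_mul_cancel_left]
  have h1 : a ^ 2 = b ^ 3 := by
    rw [ha, hb, pow_two, pow_three]
    nth_rewrite 2 [h]
    simp only [mul_assoc]
  have hz : z = b * x * b⁻¹ := by
    rw [hb, h]
    simp only [DAlgG.nf]
  have hn' : b * a ≠ a * b := fun e => hn (by
    rw [ha, mul_assoc, mul_right_inj, hb, mul_assoc, mul_right_inj] at e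
    exact e.symm)
  obtain ⟨a0, a1, a2, a3⟩ := sq_ent a
  obtain ⟨b0, b1, b2, b3⟩ := cube_ent b
  have ta : tr a = 0 := by
    by_contra e
    refine hn' (comm_of (c := a ^ 2) e ?_ (by linarith) a1 a2)
    rw [h1, ← pow_succ, ← pow_succ']
  rw [ta, h1] at a0 a1 a2 a3
  have tb : tr b = 1 := by
    have e : tr b ^ 2 - 1 = 0 := by
      by_contra e
      refine hn' (scalar_comm (mul_left_cancel₀ e ?_) (mul_left_cancel₀ e ?_)
        (mul_left_cancel₀ e ?_) a) <;> linarith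
    rw [e] at b0
    linarith
  refine ⟨by rw [hz, tr_conj], hb ▸ tb, ?_⟩
  have da := det_eq a
  have db := det_eq b
  have e1 : a.1 1 1 = -a.1 0 0 := eq_neg_of_add_eq_zero_right ta
  have e2 : b.1 1 1 = 1 - b.1 0 0 := eq_sub_of_add_eq' tb
  have e3 : tr x = -((2 * b.1 0 0 - 1) * a.1 0 0 + b.1 0 1 * a.1 1 0 + b.1 1 0 * a.1 0 1) := by
    rw [hx]
    simp only [tr, mul_ent, inv_ent, e1, e2]
    ring
  rw [e1] at da
  rw [e2] at db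
  have n1 : a.1 0 1 ≠ 0 := fun e => by
    rw [e] at da
    nlinarith [sq_nonneg (a.1 0 0)]
  have key : a.1 0 1 ^ 2 * (tr x ^ 2 - 3) = (2 * b.1 0 1 - tr x * a.1 0 1) ^ 2 +
      (2 * b.1 0 1 * a.1 0 0 - a.1 0 1 * (2 * b.1 0 0 - 1)) ^ 2 := by
    rw [e3]
    linear_combination 4 * b.1 0 1 ^ 2 * da + 4 * a.1 0 1 ^ 2 * db
  have p1 : 0 < a.1 0 1 ^ 2 := by positivity
  have p2 : 0 ≤ tr x ^ 2 - 3 := by
    by_contra e
    nlinarith [sq_nonneg (2 * b.1 0 1 - tr x * a.1 0 1),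
      sq_nonneg (2 * b.1 0 1 * a.1 0 0 - a.1 0 1 * (2 * b.1 0 0 - 1))]
  by_contra e
  have p3 := abs_le.1 (show |tr x| ≤ 1 by omega)
  nlinarith

/-- the recursion of the traces -/
def U (s : ℤ) : ℕ → ℤ
  | 0 => 1
  | 1 => 1
  | n + 2 => s * U s (n + 1) - U s n

theorem U_mono {s : ℤ} (hs : 3 ≤ s) (n : ℕ) : 1 ≤ U 3 n ∧ U 3 n ≤ U s n ∧
    0 ≤ U 3 (n + 1) - U 3 n ∧ U 3 (n + 1) - U 3 n ≤ U s (n + 1) - U s n := by
  induction n with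
  | zero => simp [U]
  | succ n ih =>
    obtain ⟨a, b, c, d⟩ := ih
    simp only [U]
    refine ⟨by linarith, by linarith, by linarith, ?_⟩
    nlinarith

theorem U_lt (n : ℕ) : U 3 (n + 1) < U 3 (n + 2) := by
  obtain ⟨a, -, c, -⟩ := U_mono le_rfl n
  simp only [U]
  linarith

theorem tr_seq {X Y : SL2Z} {τ s : ℤ} {j : ℕ} (hY : tr Y = s) (h0 : tr X = τ * U s j)
    (h1 : tr (X * Y) = τ * U s (j + 1)) (n : ℕ) : tr (X * Y ^ n) = τ * U s (j + n) ∧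
      tr (X * Y ^ (n + 1)) = τ * U s (j + n + 1) := by
  induction n with
  | zero => simpa using ⟨h0, h1⟩
  | succ n ih =>
    refine ⟨ih.2, ?_⟩
    have e := tr_add (X * Y ^ (n + 1)) Y
    have e1 : X * Y ^ (n + 1) * Y⁻¹ = X * Y ^ n := by
      rw [pow_succ, ← mul_assoc, mul_inv_cancel_right]
    rw [e1, mul_assoc, ← pow_succ, ih.1, ih.2, hY] at e
    rw [← add_assoc]
    simp only [U]
    linarith

/-- the minimal traces -/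
def pp (ε : ℤ) (n : ℕ) : ℤ := if ε = 1 then 2 * U 3 n else 2 * U 3 (n + 1)

theorem pp_lt (ε : ℤ) {n m : ℕ} (h : 1 ≤ n) (h' : n < m) : pp ε n < pp ε m := by
  have hm : StrictMono fun n => U 3 (n + 1) := strictMono_nat_of_lt_succ U_lt
  unfold pp
  split_ifs
  · obtain ⟨n, rfl⟩ := Nat.exists_eq_add_of_le' h
    obtain ⟨m, rfl⟩ := Nat.exists_eq_add_of_le' (h.trans h'.le)
    have := hm (show n < m by omega)
    simp only at this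
    linarith
  · have := hm h'
    simp only at this
    linarith

theorem tr_formula {x z : SL2Z} (h : x * z * x = z * x * z) (hn : x * z ≠ z * x) {ε : ℤ}
    (hε : ε = 1 ∨ ε = -1) (n : ℕ) :
    tr (x * z * x⁻¹ * (x * z⁻¹ * x⁻¹ * z) ^ (ε * n)) =
      tr x * U (tr x ^ 2 - 1) (if ε = 1 then n else n + 1) := by
  obtain ⟨h1, h2, -⟩ := braid_tr h hn
  have a0 : tr (x * z * x⁻¹) = tr x := by rw [tr_conj, h1]
  have a1 : x * z * x⁻¹ * (x * z⁻¹ * x⁻¹ * z) = z := by simp only [DAlgG.nf]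
  have a2 : tr (x * z⁻¹ * x⁻¹ * z) = tr x ^ 2 - 1 := by
    have e := tr_add z (x * z * x⁻¹)
    have e1 : z * (x * z * x⁻¹) = x * z := by
      rw [← mul_assoc, ← mul_assoc, ← h, mul_inv_cancel_right]
    have e2 : (x * z * x⁻¹)⁻¹ = x * z⁻¹ * x⁻¹ := by simp only [DAlgG.nf]
    rw [e1, h2, tr_comm z, e2, a0, h1] at e
    linarith
  rcases hε with rfl | rfl
  · rw [one_mul, zpow_natCast, if_pos rfl]
    have := (tr_seq (X := x * z * x⁻¹) (τ := tr x) (j := 0) a2 (by simp [a0, U])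
      (by simp [a1, h1, U]) n).1
    rwa [zero_add] at this
  · rw [neg_one_mul, zpow_neg, zpow_natCast, ← inv_pow, if_neg (by norm_num), add_comm n]
    refine (tr_seq (τ := tr x) (j := 1) ((tr_inv _).trans a2) (by simp [a0, U]) ?_ n).1
    have e := tr_add (x * z * x⁻¹) (x * z⁻¹ * x⁻¹ * z)
    rw [a1, a0, a2, h1] at e
    simp only [U]
    linarith

theorem pp_le {x z : SL2Z} (h : x * z * x = z * x * z) (hn : x * z ≠ z * x) {ε : ℤ}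
    (hε : ε = 1 ∨ ε = -1) (n : ℕ) :
    pp ε n ≤ atr (x * z * x⁻¹ * (x * z⁻¹ * x⁻¹ * z) ^ (ε * n)) ∧
      (|tr x| = 2 → atr (x * z * x⁻¹ * (x * z⁻¹ * x⁻¹ * z) ^ (ε * n)) = pp ε n) := by
  have h1 := (braid_tr h hn).2.2
  have h2 : 3 ≤ tr x ^ 2 - 1 := by
    rw [← sq_abs]
    nlinarith
  have e : pp ε n = 2 * U 3 (if ε = 1 then n else n + 1) := by
    unfold pp
    split_ifs <;> rfl
  obtain ⟨a, b, -, -⟩ := U_mono h2 (if ε = 1 then n else n + 1)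
  rw [atr_eq, tr_formula h hn hε, abs_mul, abs_of_pos (a := U _ _) (by linarith), e]
  refine ⟨by nlinarith, fun h3 => ?_⟩
  rw [← sq_abs, h3]
  norm_num

section Regions

variable {G : Type} [Group G]

/-- the crossings, as quadruples of regions -/
def relL : List (ℕ × ℕ × ℕ × ℕ) :=
  [(1, 2, 3, 0), (2, 5, 7, 3), (3, 7, 4, 0), (4, 8, 10, 0), (2, 6, 7, 5), (6, 26, 4, 7),
    (4, 9, 10, 8), (9, 11, 0, 10), (4, 26, 27, 9), (9, 27, 0, 11), (6, 2, 12, 26),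
    (26, 12, 13, 24), (12, 2, 14, 13), (13, 14, 15, 24), (1, 0, 16, 2), (2, 16, 17, 14),
    (14, 17, 18, 15), (15, 18, 19, 24), (16, 0, 20, 17), (17, 20, 21, 18), (18, 21, 22, 19),
    (19, 22, 23, 24), (20, 28, 29, 21), (21, 29, 0, 22), (22, 0, 25, 23), (23, 25, 26, 24),
    (25, 0, 27, 26), (20, 0, 29, 28)]

/-- the Dehn relations -/
def RegOK (w : ℕ → G) : Prop := ∀ r ∈ relL, w r.1 * (w r.2.1)⁻¹ * w r.2.2.1 * (w r.2.2.2)⁻¹ = 1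

/-- the push-off of `L` -/
def wX (w : ℕ → G) : G :=
  (w 0)⁻¹ * w 0 * (w 0)⁻¹ * w 24 * (w 0)⁻¹ * w 26 * (w 4)⁻¹ * w 8 * (w 0)⁻¹ * w 2 *
    (w 26)⁻¹ * w 11 * (w 4)⁻¹ * w 0 * (w 10)⁻¹ * w 9 * (w 27)⁻¹ * w 0 * (w 24)⁻¹ * w 0 *
    (w 1)⁻¹ * w 0 * (w 7)⁻¹ * w 6 * (w 2)⁻¹ * w 24 * (w 29)⁻¹ * w 0 * (w 20)⁻¹ * w 24 *
    (w 26)⁻¹ * w 26 * (w 0)⁻¹ * w 0 * (w 0)⁻¹ * w 28 * (w 24)⁻¹ * w 2 * (w 2)⁻¹ * w 5

/-- the push-off of `a` -/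
def wY (w : ℕ → G) : G :=
  (w 0)⁻¹ * w 0 * (w 0)⁻¹ * w 24 * (w 0)⁻¹ * w 26 * (w 4)⁻¹ * w 8 * (w 0)⁻¹ * w 2 *
    (w 26)⁻¹ * w 26 * (w 0)⁻¹ * w 0 * (w 0)⁻¹ * w 28 * (w 24)⁻¹ * w 2 * (w 2)⁻¹ * w 5

/-- the meridian -/
def wM (w : ℕ → G) : G := (w 5)⁻¹ * w 7

theorem reg_elim {w : ℕ → G} (h : RegOK w) {x y z : G} (hx : x = w 24 * (w 0)⁻¹)
    (hy : y = w 26 * (w 0)⁻¹) (hz : z = w 5 * (w 0)⁻¹) :
    DAlgG.r1 x y z = 1 ∧ DAlgG.r2 x y z = 1 ∧ wX w = (w 0)⁻¹ * DAlgG.xX x y z * w 0 ∧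
      wY w = (w 0)⁻¹ * DAlgG.xY x y z * w 0 ∧ wM w = (w 0)⁻¹ * DAlgG.xM x y z * w 0 ∧
      ∀ H : Subgroup G, x ∈ H → y ∈ H → z ∈ H → ∀ i < 30, w i * (w 0)⁻¹ ∈ H := by
  simp only [RegOK, relL, List.forall_mem_cons, List.not_mem_nil, IsEmpty.forall_iff,
    implies_true, and_true] at h
  obtain ⟨h0, h1, h2, h3, h4, h5, h6, h7, h8, h9, h10, h11, h12, h13,
    h14, h15, h16, h17, h18, h19, h20, h21, h22, h23, h24, h25, h26, h27⟩ := h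
  obtain ⟨a1, a2, a3, a4, a5, a6⟩ := DAlgG.elim
    (w 1 * (w 0)⁻¹) (w 2 * (w 0)⁻¹) (w 3 * (w 0)⁻¹) (w 4 * (w 0)⁻¹) (w 5 * (w 0)⁻¹)
    (w 6 * (w 0)⁻¹) (w 7 * (w 0)⁻¹) (w 8 * (w 0)⁻¹) (w 9 * (w 0)⁻¹) (w 10 * (w 0)⁻¹)
    (w 11 * (w 0)⁻¹) (w 12 * (w 0)⁻¹) (w 13 * (w 0)⁻¹) (w 14 * (w 0)⁻¹) (w 15 * (w 0)⁻¹)
    (w 16 * (w 0)⁻¹) (w 17 * (w 0)⁻¹) (w 18 * (w 0)⁻¹) (w 19 * (w 0)⁻¹) (w 20 * (w 0)⁻¹)
    (w 21 * (w 0)⁻¹) (w 22 * (w 0)⁻¹) (w 23 * (w 0)⁻¹) (w 24 * (w 0)⁻¹) (w 25 * (w 0)⁻¹)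
    (w 26 * (w 0)⁻¹) (w 27 * (w 0)⁻¹) (w 28 * (w 0)⁻¹) (w 29 * (w 0)⁻¹)
    (DAlgG.key 1 h0 (by simp only [DAlgG.nf])) (DAlgG.key 1 h1 (by simp only [DAlgG.nf]))
    (DAlgG.key 1 h2 (by simp only [DAlgG.nf])) (DAlgG.key 1 h3 (by simp only [DAlgG.nf]))
    (DAlgG.key 1 h4 (by simp only [DAlgG.nf])) (DAlgG.key 1 h5 (by simp only [DAlgG.nf]))
    (DAlgG.key 1 h6 (by simp only [DAlgG.nf])) (DAlgG.key 1 h7 (by simp only [DAlgG.nf]))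
    (DAlgG.key 1 h8 (by simp only [DAlgG.nf])) (DAlgG.key 1 h9 (by simp only [DAlgG.nf]))
    (DAlgG.key 1 h10 (by simp only [DAlgG.nf])) (DAlgG.key 1 h11 (by simp only [DAlgG.nf]))
    (DAlgG.key 1 h12 (by simp only [DAlgG.nf])) (DAlgG.key 1 h13 (by simp only [DAlgG.nf]))
    (DAlgG.key 1 h14 (by simp only [DAlgG.nf])) (DAlgG.key 1 h15 (by simp only [DAlgG.nf]))
    (DAlgG.key 1 h16 (by simp only [DAlgG.nf])) (DAlgG.key 1 h17 (by simp only [DAlgG.nf]))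
    (DAlgG.key 1 h18 (by simp only [DAlgG.nf])) (DAlgG.key 1 h19 (by simp only [DAlgG.nf]))
    (DAlgG.key 1 h20 (by simp only [DAlgG.nf])) (DAlgG.key 1 h21 (by simp only [DAlgG.nf]))
    (DAlgG.key 1 h22 (by simp only [DAlgG.nf])) (DAlgG.key 1 h23 (by simp only [DAlgG.nf]))
    (DAlgG.key 1 h24 (by simp only [DAlgG.nf])) (DAlgG.key 1 h25 (by simp only [DAlgG.nf]))
    (DAlgG.key 1 h26 (by simp only [DAlgG.nf])) (DAlgG.key 1 h27 (by simp only [DAlgG.nf]))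
  subst hx hy hz
  refine ⟨a1, a2, ?_, ?_, ?_, fun H b1 b2 b3 i hi => ?_⟩
  · rw [← a3]
    simp only [wX, DAlgG.nf]
  · rw [← a4]
    simp only [wY, DAlgG.nf]
  · rw [← a5]
    simp only [wM, DAlgG.nf]
  · have a7 := a6 H b1 b2 b3
    have a8 : w 0 * (w 0)⁻¹ ∈ H := by
      rw [mul_inv_cancel]
      exact H.one_mem
    interval_cases i <;> simp only [a7, a8, b1, b2, b3]

end Regions

/-- the lower bound for all non-abelian representations -/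
theorem reg_lower {w : ℕ → SL2Z} (h : RegOK w) (hl : wX w * wM w = 1)
    (hn : ¬ ∀ i < 30, ∀ j < 30, Commute (w i * (w 0)⁻¹) (w j * (w 0)⁻¹)) {ε : ℤ}
    (hε : ε = 1 ∨ ε = -1) (n : ℕ) : pp ε n ≤ atr (wX w * wY w ^ (ε * n)) ∧
      (atr (w 24 * (w 0)⁻¹) = 2 → atr (wX w * wY w ^ (ε * n)) = pp ε n) := by
  obtain ⟨a1, a2, a3, a4, a5, a6⟩ := reg_elim h rfl rfl rfl
  generalize w 24 * (w 0)⁻¹ = x at *
  generalize w 26 * (w 0)⁻¹ = y at *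
  generalize w 5 * (w 0)⁻¹ = z at *
  have b1 : DAlgG.xX x y z * DAlgG.xM x y z = 1 :=
    DAlgG.key (w 0) hl (by rw [a3, a5]; simp only [DAlgG.nf])
  obtain ⟨a, b, c1, c2, c3⟩ := DAlgG.struct a1 a2 b1
  obtain rfl := m_eq_one c1 c2 c3
  have b2 : x * z ≠ z * x := fun e => hn fun i hi j hj => by
    have e1 : ∀ g : SL2Z, g * x = x * g → g * z = z * g → ∀ k < 30,
        g * (w k * (w 0)⁻¹) = w k * (w 0)⁻¹ * g := fun g g1 g2 k hk =>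
      Subgroup.mem_centralizer_singleton_iff.1 (a6 (Subgroup.centralizer {g})
        (Subgroup.mem_centralizer_singleton_iff.2 g1.symm) (Subgroup.one_mem _)
        (Subgroup.mem_centralizer_singleton_iff.2 g2.symm) k hk) |>.symm
    exact e1 _ (e1 x rfl e i hi).symm (e1 z e.symm rfl i hi).symm j hj
  have b3 : atr (wX w * wY w ^ (ε * n)) =
      atr (x * z * x⁻¹ * (x * z⁻¹ * x⁻¹ * z) ^ (ε * n)) := by
    have e := conj_zpow (i := ε * n) (a := (w 0)⁻¹) (b := x * z⁻¹ * x⁻¹ * z)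
    rw [inv_inv] at e
    rw [a3, a4, DAlgG.xX_one, DAlgG.xY_one, e, atr_eq, atr_eq, ← tr_conj (w 0)]
    generalize (x * z⁻¹ * x⁻¹ * z) ^ (ε * n) = t
    simp only [DAlgG.nf]
  rw [b3]
  exact pp_le (DAlgG.braid a2) b2 hε n

/-- an explicit representation -/
def w0 : ℕ → SL2Z
  | 1 => ⟨!![0, -1; 1, -2], by simp [Matrix.det_fin_two]⟩
  | 3 => ⟨!![-2, 1; -1, 0], by simp [Matrix.det_fin_two]⟩
  | 4 => ⟨!![-1, 0; 1, -1], by simp [Matrix.det_fin_two]⟩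
  | 5 => ⟨!![-1, 0; 1, -1], by simp [Matrix.det_fin_two]⟩
  | 6 => ⟨!![-1, 1; 0, -1], by simp [Matrix.det_fin_two]⟩
  | 7 => ⟨!![2, -1; -1, 1], by simp [Matrix.det_fin_two]⟩
  | 10 => ⟨!![-1, 0; -1, -1], by simp [Matrix.det_fin_two]⟩
  | 11 => ⟨!![-1, 0; 1, -1], by simp [Matrix.det_fin_two]⟩
  | 12 => ⟨!![-1, -1; 0, -1], by simp [Matrix.det_fin_two]⟩
  | 13 => ⟨!![1, 2; 0, 1], by simp [Matrix.det_fin_two]⟩
  | 14 => ⟨!![-1, -1; 0, -1], by simp [Matrix.det_fin_two]⟩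
  | 16 => ⟨!![-2, 1; -1, 0], by simp [Matrix.det_fin_two]⟩
  | 17 => ⟨!![2, 1; 1, 1], by simp [Matrix.det_fin_two]⟩
  | 18 => ⟨!![-2, 1; -1, 0], by simp [Matrix.det_fin_two]⟩
  | 19 => ⟨!![2, 1; 1, 1], by simp [Matrix.det_fin_two]⟩
  | 20 => ⟨!![-1, -1; 0, -1], by simp [Matrix.det_fin_two]⟩
  | 22 => ⟨!![-1, -1; 0, -1], by simp [Matrix.det_fin_two]⟩
  | 23 => ⟨!![0, 1; -1, 1], by simp [Matrix.det_fin_two]⟩
  | 24 => ⟨!![-1, -1; 0, -1], by simp [Matrix.det_fin_two]⟩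
  | 25 => ⟨!![-1, 0; 1, -1], by simp [Matrix.det_fin_two]⟩
  | 27 => ⟨!![-1, 0; -1, -1], by simp [Matrix.det_fin_two]⟩
  | 29 => ⟨!![-1, 1; 0, -1], by simp [Matrix.det_fin_two]⟩
  | _ => 1

theorem w0_ok : RegOK w0 := by
  unfold RegOK
  decide +kernel

theorem w0_long : wX w0 * wM w0 = 1 := by decide +kernel

theorem w0_zero : w0 0 = 1 := rfl

theorem w0_nc : w0 24 * w0 5 ≠ w0 5 * w0 24 := by decide +kernel

theorem w0_tr {ε : ℤ} (hε : ε = 1 ∨ ε = -1) (n : ℕ) : atr (wX w0 * wY w0 ^ (ε * n)) = pp ε n := by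
  refine (reg_lower w0_ok w0_long (fun h => w0_nc ?_) hε n).2 (by decide +kernel)
  have := h 24 (by norm_num) 5 (by norm_num)
  rwa [w0_zero, inv_one, mul_one, mul_one] at this

end DAlgS

end Pool.Agent.Lib.MP_4d7d0a_gt
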