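import Pool.Agent.Lib.MP_4d7d0a_gt.DSDef
import Pool.Agent.Lib.MP_4d7d0a_gt.DAlgS

/-! The algebraic half: from cells to regions. -/

set_option autoImplicit false

namespace Pool.Agent.Lib.MP_4d7d0a_gt

namespace DAlgB

open DS

/-- the region of a cell -/
def regT : List (List ℕ) :=
  [[0, 0, 0, 0, 0, 0, 0, 0, 0, 0, 0, 0, 0, 0, 0, 0, 0, 0, 0, 0, 0],
    [0, 1, 1, 1, 1, 1, 1, 1, 1, 1, 1, 1, 1, 1, 0, 0, 0, 0, 0, 0, 0],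
    [0, 1, 2, 2, 2, 2, 2, 2, 2, 2, 2, 2, 2, 2, 3, 0, 0, 0, 0, 0, 0],
    [0, 1, 2, 2, 2, 2, 2, 2, 2, 2, 2, 2, 2, 5, 7, 4, 4, 4, 4, 0, 0],
    [0, 1, 2, 2, 2, 2, 2, 2, 2, 2, 2, 2, 2, 5, 7, 4, 4, 4, 8, 10, 0],
    [0, 1, 2, 2, 2, 6, 6, 6, 6, 6, 6, 6, 6, 7, 7, 4, 4, 4, 8, 10, 0],
    [0, 1, 2, 2, 2, 6, 26, 26, 26, 26, 26, 26, 26, 4, 4, 4, 4, 4, 8, 10, 0],
    [0, 1, 2, 2, 2, 6, 26, 26, 26, 26, 26, 26, 26, 4, 4, 4, 9, 9, 10, 10, 0],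
    [0, 1, 2, 2, 2, 6, 26, 26, 26, 26, 26, 26, 26, 4, 4, 4, 9, 11, 0, 0, 0],
    [0, 1, 2, 2, 2, 6, 26, 26, 26, 26, 26, 26, 26, 26, 26, 26, 27, 0, 0, 0, 0],
    [0, 1, 2, 2, 2, 6, 26, 24, 24, 24, 24, 24, 26, 26, 26, 26, 27, 0, 0, 0, 0],
    [0, 1, 2, 2, 2, 2, 12, 13, 24, 24, 24, 24, 26, 26, 26, 26, 27, 0, 0, 0, 0],
    [0, 1, 2, 2, 2, 2, 2, 14, 15, 24, 24, 24, 26, 26, 26, 26, 27, 0, 0, 0, 0],
    [0, 0, 16, 16, 16, 16, 16, 17, 18, 19, 24, 24, 26, 26, 26, 26, 27, 0, 0, 0, 0],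
    [0, 0, 0, 0, 0, 0, 0, 20, 21, 22, 23, 24, 26, 26, 26, 26, 27, 0, 0, 0, 0],
    [0, 0, 0, 20, 20, 20, 20, 20, 21, 22, 23, 24, 26, 26, 26, 26, 27, 0, 0, 0, 0],
    [0, 0, 0, 20, 28, 28, 28, 28, 29, 0, 25, 26, 26, 26, 26, 26, 27, 0, 0, 0, 0],
    [0, 0, 0, 20, 28, 28, 28, 28, 29, 0, 0, 27, 27, 27, 27, 27, 27, 0, 0, 0, 0],
    [0, 0, 0, 20, 28, 28, 28, 28, 29, 0, 0, 0, 0, 0, 0, 0, 0, 0, 0, 0, 0],
    [0, 0, 0, 0, 29, 29, 29, 29, 29, 0, 0, 0, 0, 0, 0, 0, 0, 0, 0, 0, 0],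
    [0, 0, 0, 0, 0, 0, 0, 0, 0, 0, 0, 0, 0, 0, 0, 0, 0, 0, 0, 0, 0]]

def reg (j i : ℕ) : ℕ := (regT.getD j []).getD i 0

/-- the direction towards the chosen cell of the region -/
def dirT : List (List ℕ) :=
  [[0, 3, 3, 3, 3, 3, 3, 3, 3, 3, 3, 3, 3, 3, 3, 3, 3, 3, 3, 3, 3],
    [1, 0, 3, 3, 3, 3, 3, 3, 3, 3, 3, 3, 3, 3, 1, 3, 3, 3, 3, 3, 3],
    [1, 1, 0, 3, 3, 3, 3, 3, 3, 3, 3, 3, 3, 3, 0, 1, 3, 3, 3, 3, 3],
    [1, 1, 1, 3, 3, 3, 3, 3, 3, 3, 3, 3, 3, 0, 0, 0, 3, 3, 3, 1, 3],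
    [1, 1, 1, 3, 3, 3, 3, 3, 3, 3, 3, 3, 3, 1, 1, 1, 3, 3, 0, 0, 1],
    [1, 1, 1, 3, 3, 0, 3, 3, 3, 3, 3, 3, 3, 4, 1, 1, 3, 3, 1, 1, 1],
    [1, 1, 1, 3, 3, 1, 0, 3, 3, 3, 3, 3, 3, 4, 4, 1, 3, 3, 1, 1, 1],
    [1, 1, 1, 3, 3, 1, 1, 3, 3, 3, 3, 3, 3, 4, 4, 1, 0, 3, 4, 1, 1],
    [1, 1, 1, 3, 3, 1, 1, 3, 3, 3, 3, 3, 3, 4, 4, 1, 1, 0, 4, 4, 1],
    [1, 1, 1, 3, 3, 1, 1, 3, 3, 3, 3, 3, 3, 3, 3, 3, 0, 4, 4, 4, 1],
    [1, 1, 1, 3, 3, 1, 1, 0, 3, 3, 3, 3, 1, 3, 3, 3, 1, 4, 4, 4, 1],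
    [1, 1, 1, 3, 3, 3, 0, 0, 1, 3, 3, 3, 1, 3, 3, 3, 1, 4, 4, 4, 1],
    [1, 1, 1, 3, 3, 3, 3, 0, 0, 1, 3, 3, 1, 3, 3, 3, 1, 4, 4, 4, 1],
    [1, 3, 0, 3, 3, 3, 3, 0, 0, 0, 1, 3, 1, 3, 3, 3, 1, 4, 4, 4, 1],
    [1, 3, 3, 3, 3, 3, 3, 0, 0, 0, 0, 1, 1, 3, 3, 3, 1, 4, 4, 4, 1],
    [1, 3, 3, 4, 4, 4, 4, 1, 1, 1, 1, 1, 1, 3, 3, 3, 1, 4, 4, 4, 1],
    [1, 3, 3, 1, 0, 3, 3, 3, 0, 2, 0, 4, 1, 3, 3, 3, 1, 4, 4, 4, 1],
    [1, 3, 3, 1, 1, 3, 3, 3, 1, 2, 3, 4, 4, 4, 4, 4, 1, 2, 4, 4, 1],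
    [1, 3, 3, 1, 1, 3, 3, 3, 1, 2, 3, 3, 3, 3, 3, 3, 3, 3, 3, 4, 1],
    [1, 3, 3, 3, 4, 4, 4, 4, 1, 2, 3, 3, 3, 3, 3, 3, 3, 3, 3, 3, 1],
    [1, 3, 3, 3, 3, 3, 3, 3, 3, 3, 3, 3, 3, 3, 3, 3, 3, 3, 3, 3, 3]]

def dir (c : ℕ × ℕ) : ℕ := (dirT.getD c.1 []).getD c.2 0

/-- the chosen cell of a region -/
def rep (g : ℕ) : ℕ × ℕ :=
  [(0, 0), (1, 1), (2, 2), (2, 14), (3, 15), (3, 13), (5, 5), (3, 14), (4, 18), (7, 16),
    (4, 19), (8, 17), (11, 6), (11, 7), (12, 7), (12, 8), (13, 2), (13, 7), (13, 8), (13, 9),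
    (14, 7), (14, 8), (14, 9), (14, 10), (10, 7), (16, 10), (6, 6), (9, 16), (16, 4), (16, 8)].getD g (0, 0)

/-- one step inside a region -/
def mv (c : ℕ × ℕ) : ℕ × ℕ :=
  if dir c = 1 ∧ 0 < c.1 ∧ c.1 ≤ 20 ∧ c.2 ≤ 20 ∧ ¬ (cLo (c.1 - 1) < c.2 ∧ c.2 ≤ cHi (c.1 - 1)) then
    (c.1 - 1, c.2)
  else if dir c = 2 ∧ c.1 < 20 ∧ c.2 ≤ 20 ∧ ¬ (cLo c.1 < c.2 ∧ c.2 ≤ cHi c.1) then (c.1 + 1, c.2)
  else if dir c = 3 ∧ 0 < c.2 ∧ c.2 ≤ 20 ∧ c.1 ≤ 20 ∧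
      ¬ (rLo (c.2 - 1) < c.1 ∧ c.1 ≤ rHi (c.2 - 1)) then (c.1, c.2 - 1)
  else if dir c = 4 ∧ c.2 < 20 ∧ c.1 ≤ 20 ∧ ¬ (rLo c.2 < c.1 ∧ c.1 ≤ rHi c.2) then (c.1, c.2 + 1)
  else c

def go : ℕ → ℕ × ℕ → ℕ × ℕ
  | 0, c => c
  | n + 1, c => go n (mv c)

theorem go_rep : ∀ j < 21, ∀ i < 21, go 40 (j, i) = rep (reg j i) := by decide +kernel

theorem reg_rep : ∀ g < 30, reg (rep g).1 (rep g).2 = g ∧ (rep g).1 ≤ 20 ∧ (rep g).2 ≤ 20 := by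
  decide +kernel

theorem reg_lt : ∀ j < 21, ∀ i < 21, reg j i < 30 := by decide +kernel

theorem reg_col : ∀ j < 20, ∀ i < 21, ¬ (cLo j < i ∧ i ≤ cHi j) → reg j i = reg (j + 1) i := by
  decide +kernel

theorem reg_row : ∀ i < 20, ∀ j < 21, ¬ (rLo i < j ∧ j ≤ rHi i) → reg j i = reg j (i + 1) := by
  decide +kernel

theorem reg_crs : ∀ j < 20, ∀ i < 20, Crs j i → DAlgS.relL.contains
    (reg j i, reg (j + 1) i, reg (j + 1) (i + 1), reg j (i + 1)) = true := by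
  decide +kernel

theorem crs_reg : ∀ r ∈ DAlgS.relL, ∃ j < 20, ∃ i < 20, Crs j i ∧
    r = (reg j i, reg (j + 1) i, reg (j + 1) (i + 1), reg j (i + 1)) := by
  decide +kernel

variable {G : Type} [Group G]

theorem mv_eq {W : ℕ → ℕ → G} (h : Rels W) (c : ℕ × ℕ) : W (mv c).1 (mv c).2 = W c.1 c.2 := by
  unfold mv
  split_ifs with h1 h2 h3 h4
  · have := h.col (c.1 - 1) (by omega) c.2 h1.2.2.2.1 h1.2.2.2.2
    rwa [Nat.sub_add_cancel h1.2.1] at this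
  · exact (h.col c.1 h2.2.1 c.2 h2.2.2.1 h2.2.2.2).symm
  · have := h.row (c.2 - 1) (by omega) c.1 h3.2.2.2.1 h3.2.2.2.2
    rwa [Nat.sub_add_cancel h3.2.1] at this
  · exact (h.row c.2 h4.2.1 c.1 h4.2.2.1 h4.2.2.2).symm
  · rfl

theorem go_eq {W : ℕ → ℕ → G} (h : Rels W) (n : ℕ) (c : ℕ × ℕ) :
    W (go n c).1 (go n c).2 = W c.1 c.2 := by
  induction n generalizing c with
  | zero => rfl
  | succ n ih => exact (ih _).trans (mv_eq h c)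

theorem cell_eq {W : ℕ → ℕ → G} (h : Rels W) {j i : ℕ} (hj : j < 21) (hi : i < 21) :
    W j i = W (rep (reg j i)).1 (rep (reg j i)).2 := by
  rw [← go_rep j hj i hi, go_eq h]

/-- the value of a word in the regions -/
def evR (w : ℕ → G) (l : List (ℕ × Bool)) : G :=
  (l.map fun a => if a.2 then w a.1 else (w a.1)⁻¹).prod

theorem ev_eq {W : ℕ → ℕ → G} {w : ℕ → G} (h : ∀ j < 21, ∀ i < 21, W j i = w (reg j i))
    {l : List (ℕ × ℕ × Bool)} (hl : ∀ a ∈ l, a.1 < 21 ∧ a.2.1 < 21) :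
    ev W l = evR w (l.map fun a => (reg a.1 a.2.1, a.2.2)) := by
  unfold ev evR
  rw [List.map_map]
  congr 1
  refine List.map_congr_left fun a ha => ?_
  simp only [Function.comp_apply, h _ (hl a ha).1 _ (hl a ha).2]

theorem map_X : wX.map (fun a => (reg a.1 a.2.1, a.2.2)) =
    [(0, false), (0, true), (0, false), (24, true), (0, false), (26, true), (4, false),
    (8, true), (0, false), (2, true), (26, false), (11, true), (4, false), (0, true),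
    (10, false), (9, true), (27, false), (0, true), (24, false), (0, true), (1, false),
    (0, true), (7, false), (6, true), (2, false), (24, true), (29, false), (0, true),
    (20, false), (24, true), (26, false), (26, true), (0, false), (0, true), (0, false),
    (28, true), (24, false), (2, true), (2, false), (5, true)] := by
  decide +kernel

theorem map_Y : wY.map (fun a => (reg a.1 a.2.1, a.2.2)) =
    [(0, false), (0, true), (0, false), (24, true), (0, false), (26, true), (4, false),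
    (8, true), (0, false), (2, true), (26, false), (26, true), (0, false), (0, true),
    (0, false), (28, true), (24, false), (2, true), (2, false), (5, true)] := by
  decide +kernel

theorem ev_X {W : ℕ → ℕ → G} {w : ℕ → G} (h : ∀ j < 21, ∀ i < 21, W j i = w (reg j i)) :
    ev W wX = DAlgS.wX w := by
  rw [ev_eq h (by decide +kernel), map_X]
  simp only [evR, DAlgS.wX, List.map_cons, List.map_nil, List.prod_cons, List.prod_nil, if_true,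
    Bool.false_eq_true, if_false, mul_assoc, mul_one]

theorem ev_Y {W : ℕ → ℕ → G} {w : ℕ → G} (h : ∀ j < 21, ∀ i < 21, W j i = w (reg j i)) :
    ev W wY = DAlgS.wY w := by
  rw [ev_eq h (by decide +kernel), map_Y]
  simp only [evR, DAlgS.wY, List.map_cons, List.map_nil, List.prod_cons, List.prod_nil, if_true,
    Bool.false_eq_true, if_false, mul_assoc, mul_one]

theorem surg_iff {W : ℕ → ℕ → G} {w : ℕ → G} (h : ∀ j < 21, ∀ i < 21, W j i = w (reg j i)) :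
    Surg W ↔ DAlgS.wX w * DAlgS.wM w = 1 := by
  rw [Surg, ev_X h, h 3 (by norm_num) 13 (by norm_num), h 3 (by norm_num) 14 (by norm_num)]
  exact Iff.rfl

/-- the minimal trace as a function of the exponent -/
def PP (k : ℤ) : ℤ := if 0 ≤ k then DAlgS.pp 1 k.toNat else DAlgS.pp (-1) (-k).toNat

theorem PP_cases (k : ℤ) : ∃ (ε : ℤ) (n : ℕ), (ε = 1 ∨ ε = -1) ∧ k = ε * n ∧ PP k = DAlgS.pp ε n := by
  unfold PP
  split_ifs with h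
  · exact ⟨1, k.toNat, Or.inl rfl, by omega, rfl⟩
  · exact ⟨-1, (-k).toNat, Or.inr rfl, by omega, rfl⟩

end DAlgB

open DAlgB in
theorem DS.alg_holds : DS.AlgStmt := by
  refine ⟨PP, fun n m h1 h2 => ?_, ⟨fun j i => DAlgS.w0 (reg j i), ⟨fun j hj i hi h => ?_,
    fun i hi j hj h => ?_, fun j hj i hi h => ?_⟩, ?_, ?_, fun k => ?_⟩,
    fun W hW hS hn k => ?_⟩
  · unfold PP
    rw [if_pos (by omega), if_pos (by omega), if_neg (by omega), if_neg (by omega)]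
    simp only [neg_neg, Int.toNat_natCast]
    exact ⟨DAlgS.pp_lt 1 h1 h2, DAlgS.pp_lt (-1) h1 h2⟩
  · rw [reg_col j hj i (by omega) h]
  · rw [reg_row i hi j (by omega) h]
  · have hr := List.contains_iff_mem.1 (reg_crs j hj i hi h)
    exact DAlgG.sol 1 (DAlgS.w0_ok _ hr) (by simp only [DAlgG.nf])
  · exact (surg_iff fun _ _ _ _ => rfl).2 DAlgS.w0_long
  · unfold Commute SemiconjBy
    decide +kernel
  · obtain ⟨ε, n, h1, h2, h3⟩ := PP_cases k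
    rw [ev_X fun _ _ _ _ => rfl, ev_Y fun _ _ _ _ => rfl, h3, h2]
    exact DAlgS.w0_tr h1 n
  · obtain ⟨ε, n, h1, h2, h3⟩ := PP_cases k
    have hc : ∀ j < 21, ∀ i < 21, W j i = (fun g => W (rep g).1 (rep g).2) (reg j i) :=
      fun j hj i hi => cell_eq hW hj hi
    rw [ev_X (w := fun g => W (rep g).1 (rep g).2) hc,
      ev_Y (w := fun g => W (rep g).1 (rep g).2) hc, h3, h2]
    refine (DAlgS.reg_lower (fun r hr => ?_) ((surg_iff (w := fun g => W (rep g).1 (rep g).2) hc).1 hS)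
      (fun h => hn ?_) h1 n).1
    · obtain ⟨j, hj, i, hi, hx, rfl⟩ := crs_reg r hr
      have e := hW.crs j hj i hi hx
      rw [hc j (by omega) i (by omega), hc (j + 1) (by omega) i (by omega),
        hc j (by omega) (i + 1) (by omega), hc (j + 1) (by omega) (i + 1) (by omega)] at e
      simp only at e ⊢
      rw [e]
      simp only [DAlgG.nf]
    · rintro g ⟨j, hj, i, hi, rfl⟩ g' ⟨j', hj', i', hi', rfl⟩
      rw [hc j (by omega) i (by omega), hc j' (by omega) i' (by omega)]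
      exact h _ (reg_lt j (by omega) i (by omega)) _ (reg_lt j' (by omega) i' (by omega))

end Pool.Agent.Lib.MP_4d7d0a_gt
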