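import Pool.Agent.Lib.MP_4d7d0a_gt.TB1

/-! Smooth Legendrian curves through rounded vertices. -/

set_option autoImplicit false

open Set Filter Topology
open scoped ContDiff

namespace Pool.Agent.Lib.MP_4d7d0a_gt

/-- the trapezoid relation between consecutive vertices -/
def Rel (W : ℤ → P3) : Prop :=
  ∀ i, 2 * ((W (i + 1)).2.2 - (W i).2.2) = ((W i).2.1 + (W (i + 1)).2.1) * ((W (i + 1)).1 - (W i).1)

/-- the Legendrian lift of the segment from `V` to `W` -/
noncomputable def edge (V W : P3) (u : ℝ) : P3 :=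
  (V.1 + u * (W.1 - V.1), V.2.1 + u * (W.2.1 - V.2.1),
    V.2.2 + V.2.1 * (W.1 - V.1) * u + (W.1 - V.1) * (W.2.1 - V.2.1) * u ^ 2 / 2)

/-- the piecewise Legendrian curve with sharp corners -/
noncomputable def plc (W : ℤ → P3) (t : ℝ) : P3 := edge (W ⌊t⌋) (W (⌊t⌋ + 1)) (Int.fract t)

theorem Small.and {P Q : Prof → Prop} (h : Small P) (h' : Small Q) : Small fun π => P π ∧ Q π := by
  obtain ⟨a, ha, h⟩ := h
  obtain ⟨b, hb, h'⟩ := h'
  exact ⟨min a b, lt_min ha hb, fun π hπ =>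
    ⟨h π (hπ.trans_le (min_le_left a b)), h' π (hπ.trans_le (min_le_right a b))⟩⟩

theorem Small.mono {P Q : Prof → Prop} (h : Small P) (h' : ∀ π, P π → Q π) : Small Q :=
  h.imp fun _ h => ⟨h.1, fun π hπ => h' π (h.2 π hπ)⟩

theorem small_finite {ι : Type} [Finite ι] {P : ι → Prof → Prop} (h : ∀ i, Small (P i)) :
    Small fun π => ∀ i, P i π := by
  choose e h1 h2 using h
  obtain ⟨c, h3, h4⟩ := ((eventually_all.2 fun i => nhdsWithin_le_nhds (Iio_mem_nhds (h1 i))).and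
    (self_mem_nhdsWithin (s := Ioi (0 : ℝ)))).exists
  exact ⟨c, h4, fun π hπ i => h2 i π (hπ.trans (h3 i))⟩

theorem small_lt {c : ℝ} (hc : 0 < c) : Small fun π => π.η < c := ⟨c, hc, fun _ h => h⟩

theorem cyc_add_length (l : List Z3) (i : ℤ) : cyc l (i + l.length) = cyc l i := by
  rw [cyc, cyc, Int.add_emod_right]

/-- the corner formula with free parameters -/
noncomputable def realGen (U V W : P3) (p q w : ℝ) : P3 :=
  (V.1 + p * (V.1 - U.1) + q * (W.1 - V.1), V.2.1 + p * (V.2.1 - U.2.1) + q * (W.2.1 - V.2.1),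
    V.2.2 + V.2.1 * (p * (V.1 - U.1) + q * (W.1 - V.1)) +
      (V.1 - U.1) * (V.2.1 - U.2.1) * p ^ 2 / 2 + (W.1 - V.1) * (W.2.1 - V.2.1) * q ^ 2 / 2 +
      (W.2.1 - V.2.1) * (V.1 - U.1) * (p * q) +
      ((V.2.1 - U.2.1) * (W.1 - V.1) - (W.2.1 - V.2.1) * (V.1 - U.1)) * w)

theorem realGen_pos (U V W : P3) (u : ℝ) : realGen U V W 0 u 0 = edge V W u := by
  refine Prod.ext ?_ (Prod.ext ?_ ?_) <;> simp only [realGen, edge] <;> ring

theorem realGen_neg {U V : P3} (h : 2 * (V.2.2 - U.2.2) = (U.2.1 + V.2.1) * (V.1 - U.1)) (W : P3)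
    (u : ℝ) : realGen U V W u 0 0 = edge U V (u + 1) := by
  refine Prod.ext ?_ (Prod.ext ?_ ?_) <;> simp only [realGen, edge]
  · ring
  · ring
  · linear_combination h / 2

theorem real_aux_mul {x y X Y : ℝ} (hx : |x| ≤ X) (hy : |y| ≤ Y) : |x * y| ≤ X * Y := by
  rw [abs_mul]
  exact mul_le_mul hx hy (abs_nonneg y) ((abs_nonneg x).trans hx)

theorem realGen_close {U V W : P3} {C p q w p' q' η : ℝ} (hU : ‖U‖ ≤ C) (hV : ‖V‖ ≤ C)
    (hW : ‖W‖ ≤ C) (hp : |p - p'| ≤ η / 2) (hq : |q - q'| ≤ η / 2) (hw : |w| ≤ η) (h1 : |p| ≤ 1)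
    (h2 : |p'| ≤ 1) (h3 : |q| ≤ 1) (h4 : |q'| ≤ 1) :
    ‖realGen U V W p q w - realGen U V W p' q' 0‖ ≤ 20 * (1 + C) ^ 2 * η := by
  have c0 : 0 ≤ C := (norm_nonneg U).trans hU
  have e0 : 0 ≤ η := (abs_nonneg w).trans hw
  simp only [norm_prod_le_iff, Real.norm_eq_abs] at hU hV hW
  have d : ∀ {x y : ℝ}, |x| ≤ C → |y| ≤ C → |x - y| ≤ 2 * C := fun {x y} a b => by
    linarith [abs_sub x y]
  have a1 := d hV.1 hU.1
  have a2 := d hW.1 hV.1
  have a3 := d hV.2.1 hU.2.1
  have a4 := d hW.2.1 hV.2.1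
  have b1 := real_aux_mul hp a1
  have b2 := real_aux_mul hq a2
  have b3 := abs_le.1 (real_aux_mul hp a3)
  have b4 := abs_le.1 (real_aux_mul hq a4)
  have b5 := abs_le.1 (real_aux_mul hV.2.1 b1)
  have b6 := abs_le.1 (real_aux_mul hV.2.1 b2)
  have b7 := abs_le.1 (real_aux_mul (real_aux_mul b1 a3) h1)
  have b8 := abs_le.1 (real_aux_mul (real_aux_mul b1 a3) h2)
  have b9 := abs_le.1 (real_aux_mul (real_aux_mul b2 a4) h3)
  have b10 := abs_le.1 (real_aux_mul (real_aux_mul b2 a4) h4)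
  have b11 := abs_le.1 (real_aux_mul (real_aux_mul b1 a4) h3)
  have b12 := abs_le.1 (real_aux_mul (real_aux_mul (real_aux_mul hq a1) a4) h2)
  have b13 := abs_le.1 (real_aux_mul (real_aux_mul a3 a2) hw)
  have b14 := abs_le.1 (real_aux_mul (real_aux_mul a4 a1) hw)
  have f1 := mul_nonneg c0 e0
  have f2 := mul_nonneg c0 f1
  rw [abs_le] at b1 b2
  simp only [norm_prod_le_iff, Real.norm_eq_abs, realGen, Prod.mk_sub_mk, abs_le]
  refine ⟨⟨?_, ?_⟩, ⟨?_, ?_⟩, ?_, ?_⟩
  · linarith [b1.1, b2.1]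
  · linarith [b1.2, b2.2]
  · linarith [b3.1, b4.1]
  · linarith [b3.2, b4.2]
  · linarith [b5.1, b6.1, b7.1, b8.1, b9.1, b10.1, b11.1, b12.1, b13.1, b14.2]
  · linarith [b5.2, b6.2, b7.2, b8.2, b9.2, b10.2, b11.2, b12.2, b13.2, b14.1]

theorem real_aux_round (t : ℝ) : -(1 / 2) ≤ t - round t ∧ t - round t ≤ 1 / 2 :=
  abs_le.1 (abs_sub_round t)

theorem Rel.prev {W : ℤ → P3} (h : Rel W) (i : ℤ) :
    2 * ((W i).2.2 - (W (i - 1)).2.2) =
      ((W (i - 1)).2.1 + (W i).2.1) * ((W i).1 - (W (i - 1)).1) := by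
  simpa using h (i - 1)

namespace Prof

variable (π : Prof)

theorem w_symm (u : ℝ) : π.w u + π.w (-u) = (u ^ 2 - π.ab u ^ 2) / 4 := by
  have h1 : ∀ u, HasDerivAt π.ab (deriv π.ab u) u := fun u =>
    (π.ab_sm.differentiable (by simp) u).hasDerivAt
  have h2 : ∀ u, deriv π.ab (-u) = -deriv π.ab u := fun u => by
    have := deriv_comp_neg π.ab u
    simp only [π.ab_even] at this
    linarith
  have h3 : ∀ u, HasDerivAt (fun u => π.w u + π.w (-u) - (u ^ 2 - π.ab u ^ 2) / 4) 0 u := fun u =>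
    (((π.w_der u).add ((π.w_der (-u)).comp u (hasDerivAt_neg u))).sub
      ((((hasDerivAt_id u).pow 2).sub ((h1 u).pow 2)).div_const 4)).congr_deriv (by
        simp only [π.ab_even, h2, id]
        ring)
  have h4 := is_const_of_deriv_eq_zero (fun u => (h3 u).differentiableAt) (fun u => (h3 u).deriv)
    u π.η
  have h5 : π.η ≤ |π.η| := le_abs_self _
  rw [π.w_eq _ h5, π.w_eq (-π.η) (by rwa [abs_neg]), π.ab_eq _ h5, sq_abs] at h4
  linarith

theorem cor_gen (U V W : P3) (u : ℝ) :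
    π.cor U V W u = realGen U V W ((u - π.ab u) / 2) ((u + π.ab u) / 2) (π.w u) := rfl

theorem cor_pos (U V W : P3) {u : ℝ} (h : π.η ≤ u) : π.cor U V W u = edge V W u := by
  have h1 := h.trans (le_abs_self u)
  rw [cor_gen, π.ab_eq u h1, π.w_eq u h1, abs_of_nonneg (π.pos.le.trans h), sub_self, zero_div,
    add_self_div_two, realGen_pos]

theorem cor_neg {U V : P3} (hr : 2 * (V.2.2 - U.2.2) = (U.2.1 + V.2.1) * (V.1 - U.1)) (W : P3)
    {u : ℝ} (h : u ≤ -π.η) : π.cor U V W u = edge U V (u + 1) := by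
  have h1 : π.η ≤ |u| := (le_neg.1 h).trans (neg_le_abs u)
  rw [cor_gen, π.ab_eq u h1, π.w_eq u h1, abs_of_nonpos (by linarith [π.pos]), sub_neg_eq_add,
    add_neg_cancel, zero_div, add_self_div_two, realGen_neg hr]

theorem cor_rev (U V W : P3) (u : ℝ) : π.cor W V U (-u) = π.cor U V W u := by
  refine Prod.ext ?_ (Prod.ext ?_ ?_) <;> simp only [cor, π.ab_even]
  · ring
  · ring
  · linear_combination ((W.2.1 - V.2.1) * (V.1 - U.1) - (V.2.1 - U.2.1) * (W.1 - V.1)) * π.w_symm u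

theorem cor_smooth {E : Type} [NormedAddCommGroup E] [NormedSpace ℝ E] {U V W : E → P3}
    {u : E → ℝ} (hU : ContDiff ℝ ∞ U) (hV : ContDiff ℝ ∞ V) (hW : ContDiff ℝ ∞ W)
    (hu : ContDiff ℝ ∞ u) : ContDiff ℝ ∞ fun a => π.cor (U a) (V a) (W a) (u a) := by
  have h1 := π.ab_sm
  have h2 := π.w_sm
  unfold cor
  fun_prop

theorem cor_deriv (U V W : P3) (u : ℝ) : HasDerivAt (π.cor U V W)
    ((1 - deriv π.ab u) / 2 * (V.1 - U.1) + (1 + deriv π.ab u) / 2 * (W.1 - V.1),
      (1 - deriv π.ab u) / 2 * (V.2.1 - U.2.1) + (1 + deriv π.ab u) / 2 * (W.2.1 - V.2.1),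
      (π.cor U V W u).2.1 *
        ((1 - deriv π.ab u) / 2 * (V.1 - U.1) + (1 + deriv π.ab u) / 2 * (W.1 - V.1))) u := by
  have h1 : HasDerivAt π.ab (deriv π.ab u) u := (π.ab_sm.differentiable (by simp) u).hasDerivAt
  have p := ((hasDerivAt_id' u).fun_sub h1).div_const 2
  have q := ((hasDerivAt_id' u).fun_add h1).div_const 2
  refine (((p.mul_const _).const_add _).fun_add (q.mul_const _)).prodMk
    ((((p.mul_const _).const_add _).fun_add (q.mul_const _)).prodMk ?_)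
  refine (((((((((p.mul_const _).fun_add (q.mul_const _)).const_mul _).const_add _).fun_add
    (((p.fun_pow 2).const_mul _).div_const 2)).fun_add
    (((q.fun_pow 2).const_mul _).div_const 2)).fun_add ((p.fun_mul q).const_mul _)).fun_add
    ((π.w_der u).const_mul _))).congr_deriv ?_
  simp only [cor]
  ring

theorem real_of (W : ℤ → P3) (i : ℤ) {u : ℝ} (h0 : -(1 / 2) ≤ u) (h1 : u < 1 / 2) :
    π.real W (i + u) = π.cor (W (i - 1)) (W i) (W (i + 1)) u := by
  have : round (i + u : ℝ) = i := by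
    rw [round_eq, Int.floor_eq_iff]
    constructor <;> linarith
  rw [real, this, add_sub_cancel_left]

/-- the corner formula holds on the two open adjacent edges -/
theorem real_eq_cor {W : ℤ → P3} (h : Rel W) (i : ℤ) {u : ℝ} (h0 : -(1 - π.η) ≤ u)
    (h1 : u ≤ 1 - π.η) : π.real W (i + u) = π.cor (W (i - 1)) (W i) (W (i + 1)) u := by
  have h2 := π.pos
  have h3 := π.small
  rcases lt_or_ge u (-(1 / 2)) with h4 | h4
  · rw [show (i : ℝ) + u = (i - 1 : ℤ) + (u + 1) by push_cast; ring,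
      π.real_of W _ (by linarith) (by linarith), π.cor_pos _ _ _ (by linarith),
      π.cor_neg (h.prev i) _ (by linarith), sub_add_cancel]
  rcases lt_or_ge u (1 / 2) with h5 | h5
  · exact π.real_of W i h4 h5
  · rw [show (i : ℝ) + u = (i + 1 : ℤ) + (u - 1) by push_cast; ring,
      π.real_of W _ (by linarith) (by linarith), add_sub_cancel_right,
      π.cor_neg (h i) _ (by linarith), π.cor_pos _ _ _ (by linarith), sub_add_cancel]

theorem real_edge {W : ℤ → P3} (h : Rel W) (i : ℤ) {u : ℝ} (h0 : π.η ≤ u) (h1 : u ≤ 1 - π.η) :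
    π.real W (i + u) = edge (W i) (W (i + 1)) u := by
  rw [π.real_eq_cor h i (by linarith [π.pos]) h1, π.cor_pos _ _ _ h0]

/-- a vertex in the middle of a straight piece is invisible -/
theorem cor_straight {U V W : P3} (h1 : V.1 - U.1 = W.1 - V.1)
    (h2 : V.2.1 - U.2.1 = W.2.1 - V.2.1) (u : ℝ) : π.cor U V W u = edge V W u := by
  refine Prod.ext ?_ (Prod.ext ?_ ?_) <;> simp only [cor, edge, h1, h2] <;> ring

theorem real_near {W : ℤ → P3} (h : Rel W) (i : ℤ) {t : ℝ} (ht : t ∈ Ioo (i - (1 - π.η))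
    (i + (1 - π.η))) : π.real W t = π.cor (W (i - 1)) (W i) (W (i + 1)) (t - i) := by
  rw [← π.real_eq_cor h i (by linarith [ht.1]) (by linarith [ht.2]), add_sub_cancel]

theorem real_smooth_fam {W : ℝ → ℤ → P3} (hs : ∀ i, ContDiff ℝ ∞ fun s => W s i)
    (h : ∀ s, Rel (W s)) : ContDiff ℝ ∞ fun a : ℝ × ℝ => π.real (W a.1) a.2 := by
  refine contDiff_iff_contDiffAt.2 fun a => ?_
  obtain ⟨h1, h2⟩ := real_aux_round a.2
  have h3 := π.small
  refine (π.cor_smooth ((hs (round a.2 - 1)).comp contDiff_fst) ((hs (round a.2)).comp contDiff_fst)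
    ((hs (round a.2 + 1)).comp contDiff_fst)
    (contDiff_snd.sub (contDiff_const (c := (round a.2 : ℝ))))).contDiffAt.congr_of_eventuallyEq ?_
  exact (continuous_snd.continuousAt.eventually (Ioo_mem_nhds (by linarith) (by linarith))).mono
    fun b hb => π.real_near (h b.1) _ hb

theorem real_smooth {W : ℤ → P3} (h : Rel W) : ContDiff ℝ ∞ (π.real W) :=
  (π.real_smooth_fam (W := fun _ => W) (fun _ => contDiff_const) fun _ => h).comp
    ((contDiff_const (c := (0 : ℝ))).prodMk contDiff_id)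

theorem real_deriv_eq {W : ℤ → P3} (h : Rel W) (i : ℤ) {u : ℝ} (h0 : -(1 - π.η) < u)
    (h1 : u < 1 - π.η) :
    deriv (π.real W) (i + u) = deriv (π.cor (W (i - 1)) (W i) (W (i + 1))) u := by
  have : π.real W =ᶠ[𝓝 (i + u)] fun t => π.cor (W (i - 1)) (W i) (W (i + 1)) (t - i) :=
    mem_of_superset (Ioo_mem_nhds (by linarith) (by linarith)) fun t ht => π.real_near h i ht
  rw [this.deriv_eq, deriv_comp_sub_const, add_sub_cancel_left]

theorem real_leg {W : ℤ → P3} (h : Rel W) (t : ℝ) :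
    al (π.real W t) (deriv (π.real W) t) = 0 := by
  obtain ⟨h1, h2⟩ := real_aux_round t
  have h3 := π.small
  have h4 := π.real_deriv_eq h (round t) (u := t - round t) (by linarith) (by linarith)
  rw [add_sub_cancel, (π.cor_deriv _ _ _ _).deriv] at h4
  rw [h4, al, real, sub_self]

/-- the planar velocity is an almost convex combination of the two edge vectors -/
theorem real_deriv {W : ℤ → P3} (h : Rel W) (i : ℤ) {u : ℝ} (h0 : -(1 - π.η) < u)
    (h1 : u < 1 - π.η) :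
    (deriv (π.real W) (i + u)).1 = (1 - deriv π.ab u) / 2 * ((W i).1 - (W (i - 1)).1) +
        (1 + deriv π.ab u) / 2 * ((W (i + 1)).1 - (W i).1) ∧
      (deriv (π.real W) (i + u)).2.1 = (1 - deriv π.ab u) / 2 * ((W i).2.1 - (W (i - 1)).2.1) +
        (1 + deriv π.ab u) / 2 * ((W (i + 1)).2.1 - (W i).2.1) := by
  rw [π.real_deriv_eq h i h0 h1, (π.cor_deriv _ _ _ _).deriv]
  exact ⟨rfl, rfl⟩

theorem real_shift (W : ℤ → P3) (k : ℤ) (t : ℝ) :
    π.real (fun i => W (i + k)) t = π.real W (t + k) := by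
  simp only [real, round_add_intCast, Int.cast_add, add_sub_add_right_eq_sub, sub_add_eq_add_sub,
    add_right_comm _ 1 k]

theorem real_rev {W : ℤ → P3} (h : Rel W) (t : ℝ) :
    π.real (fun i => W (-i)) t = π.real W (-t) := by
  obtain ⟨h1, h2⟩ := real_aux_round t
  have h3 := π.small
  rw [show -t = (-round t : ℤ) + -(t - round t) by push_cast; ring,
    π.real_eq_cor h _ (by linarith) (by linarith), cor_rev, real, neg_sub, neg_add', add_comm,
    sub_eq_add_neg 1]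

theorem real_add_z (W : ℤ → P3) (c t : ℝ) :
    π.real (fun i => W i + (0, 0, c)) t = π.real W t + (0, 0, c) := by
  refine Prod.ext ?_ (Prod.ext ?_ ?_) <;>
    simp only [real, cor, Prod.fst_add, Prod.snd_add, add_zero]
  ring

theorem real_local {W W' : ℤ → P3} (h : Rel W) (h' : Rel W') {a b : ℤ}
    (he : ∀ i, a ≤ i → i ≤ b → W i = W' i) {t : ℝ} (h0 : a + π.η ≤ t) (h1 : t ≤ b - π.η) :
    π.real W t = π.real W' t := by
  obtain ⟨h2, h3⟩ := real_aux_round t
  have h4 := π.pos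
  have l : ∀ {x y : ℤ}, (x : ℝ) < y → x < y := fun h => Int.cast_lt.1 h
  rw [real, real]
  generalize round t = i at h2 h3
  have a1 : a < i + 1 := l (by push_cast; linarith)
  have a2 : i - 1 < b := l (by push_cast; linarith)
  rw [← he i (by omega) (by omega)]
  rcases le_or_gt π.η (t - i) with h5 | h5
  · have a3 : i < b := l (by linarith)
    rw [π.cor_pos _ _ _ h5, π.cor_pos _ _ _ h5, he (i + 1) (by omega) (by omega)]
  have a3 : a < i := l (by linarith)
  rw [← he (i - 1) (by omega) (by omega)]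
  rcases le_or_gt (t - i) (-π.η) with h6 | h6
  · rw [π.cor_neg (h.prev i) _ h6, π.cor_neg (h.prev i) _ h6]
  · have a4 : i < b := l (by linarith)
    rw [he (i + 1) (by omega) (by omega)]

theorem real_close {W : ℤ → P3} (h : Rel W) {C : ℝ} (hC : ∀ i, ‖W i‖ ≤ C) (t : ℝ) :
    ‖π.real W t - plc W t‖ ≤ 20 * (1 + C) ^ 2 * π.η := by
  obtain ⟨h2, h3⟩ := real_aux_round t
  have h4 := π.small
  rw [real]
  generalize round t = i at h2 h3
  obtain ⟨u, rfl⟩ : ∃ u, t = i + u := ⟨t - i, by ring⟩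
  rw [add_sub_cancel_left] at h2 h3 ⊢
  have e : plc W (i + u) = realGen (W (i - 1)) (W i) (W (i + 1)) ((u - |u|) / 2) ((u + |u|) / 2)
      0 := by
    rcases le_or_gt 0 u with h6 | h6
    · have f : ⌊i + u⌋ = i := Int.floor_eq_iff.2 ⟨by linarith, by linarith⟩
      rw [plc, Int.fract, f, abs_of_nonneg h6, sub_self, zero_div, add_self_div_two, realGen_pos,
        add_sub_cancel_left]
    · have f : ⌊i + u⌋ = i - 1 :=
        Int.floor_eq_iff.2 ⟨by push_cast; linarith, by push_cast; linarith⟩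
      rw [plc, Int.fract, f, abs_of_neg h6, sub_neg_eq_add, add_neg_cancel, zero_div,
        add_self_div_two, realGen_neg (h.prev i), sub_add_cancel]
      congr 1
      push_cast
      ring
  obtain ⟨a1, a2⟩ := abs_le.1 (π.ab_close u)
  have a3 : |u| ≤ 1 / 2 := abs_le.2 ⟨h2, h3⟩
  have a4 := abs_nonneg u
  rw [e, cor_gen]
  refine realGen_close (hC _) (hC _) (hC _) ?_ ?_ (π.w_le u) ?_ ?_ ?_ ?_ <;>
    exact abs_le.2 ⟨by linarith, by linarith⟩

theorem knot_periodic (l : List Z3) (t : ℝ) : π.knot l (t + 1) = π.knot l t := by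
  rw [knot, knot, mul_add, mul_one, ← Int.cast_natCast (R := ℝ) l.length, ← real_shift]
  simp only [cyc_add_length]

end Prof

/-- the integer vertex with index `i` -/
def realVtx (l : List Z3) (i : ℤ) : Z3 := l.getD (i % (l.length : ℤ)).toNat (0, 0, 0)

theorem rel_of_check {l : List Z3} (hl : 0 < l.length) (h : ∀ k : ℕ, k < l.length →
    2 * ((realVtx l (k + 1)).2.2 - (realVtx l k).2.2) =
      ((realVtx l k).2.1 + (realVtx l (k + 1)).2.1) * ((realVtx l (k + 1)).1 - (realVtx l k).1)) :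
    Rel (cyc l) := by
  intro i
  have h0 : (0 : ℤ) < l.length := by exact_mod_cast hl
  have h1 := Int.emod_nonneg i h0.ne'
  have h2 := h (i % l.length).toNat (by have := Int.emod_lt_of_pos i h0; omega)
  rw [Int.toNat_of_nonneg h1] at h2
  simp only [realVtx, Int.emod_add_emod, Int.emod_emod_of_dvd _ dvd_rfl] at h2
  simp only [cyc, toP3]
  exact_mod_cast h2

theorem rel_WL : Rel (cyc WL) := rel_of_check (by decide +kernel) (by decide +kernel)

theorem rel_Wa : Rel (cyc Wa) := rel_of_check (by decide +kernel) (by decide +kernel)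

theorem rel_Wb : Rel (cyc Wb) := rel_of_check (by decide +kernel) (by decide +kernel)

theorem rel_WU : Rel (cyc WU) := rel_of_check (by decide +kernel) (by decide +kernel)

theorem cyc_Wa_eq (i : ℤ) (h0 : -1 ≤ i) (h1 : i ≤ 42) : cyc Wa i = cyc WL i := by
  have h : ∀ k : ℕ, k < 44 → realVtx Wa (k - 1) = realVtx WL (k - 1) := by decide +kernel
  obtain ⟨k, rfl⟩ : ∃ k : ℕ, i = k - 1 := ⟨(i + 1).toNat, by omega⟩
  exact congrArg toP3 (h k (by omega))

theorem cyc_Wb_eq (i : ℤ) (h0 : -1 ≤ i) (h1 : i ≤ 42) : cyc Wb i = cyc WL (84 - i) := by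
  have h : ∀ k : ℕ, k < 44 → realVtx Wb (k - 1) = realVtx WL (84 - (k - 1)) := by decide +kernel
  obtain ⟨k, rfl⟩ : ∃ k : ℕ, i = k - 1 := ⟨(i + 1).toNat, by omega⟩
  exact congrArg toP3 (h k (by omega))

end Pool.Agent.Lib.MP_4d7d0a_gt
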