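import Pool.Agent.Lib.MP_4d7d0a_gt.TFP
import Pool.Agent.Lib.MP_4d7d0a_gt.Real

/-! The grid picture of the polygon through `WL`, and the statements of the pieces of DSpec. -/

set_option autoImplicit false

open Set Filter Topology

namespace Pool.Agent.Lib.MP_4d7d0a_gt

namespace DS

/-- the grid coordinates -/
def xi (p : P3) : ℝ := p.2.2 + sg * p.1

def up (p : P3) : ℝ := p.2.2 - sg * p.1

/-- column levels in units of `sg` (the last entry is a sentinel) -/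
def cZ : List ℤ :=
  [-703, -671, -575, -447, -319, -287, -191, -159, -1, 1, 193, 225, 321, 353, 449, 577, 705, 737,
    833, 865, 867]

/-- row levels in units of `sg` (the last entry is a sentinel) -/
def rZ : List ℤ :=
  [-959, -927, -831, -703, -575, -543, -447, -319, -287, -191, -159, -1, 1, 193, 225, 321, 353,
    449, 577, 609, 611]

def cL (j : ℕ) : ℝ := sg * (cZ.getD j 0 : ℤ)

def rL (i : ℕ) : ℝ := sg * (rZ.getD i 0 : ℤ)

/-- column `j` runs from row `cLo j` to row `cHi j` -/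
def cLo (j : ℕ) : ℕ := [0, 1, 12, 17, 4, 5, 15, 16, 12, 6, 4, 5, 0, 1, 2, 3, 9, 10, 2, 3].getD j 0

def cHi (j : ℕ) : ℕ :=
  [13, 14, 18, 19, 13, 14, 18, 19, 17, 11, 7, 8, 9, 10, 6, 11, 15, 16, 7, 8].getD j 0

/-- row `i` runs from column `rLo i` to column `rHi i` -/
def rLo (i : ℕ) : ℕ := [0, 1, 14, 15, 4, 5, 9, 10, 11, 12, 13, 9, 2, 0, 1, 6, 7, 3, 2, 3].getD i 0

def rHi (i : ℕ) : ℕ :=
  [12, 13, 18, 19, 10, 11, 14, 18, 19, 16, 17, 15, 8, 4, 5, 16, 17, 8, 6, 7].getD i 0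

/-- the projection along `y` lies on a column -/
def OnC (p : P3) : Prop := ∃ j < 20, xi p = cL j ∧ rL (cLo j) ≤ up p ∧ up p ≤ rL (cHi j)

/-- the projection along `y` lies on a row -/
def OnR (p : P3) : Prop := ∃ i < 20, up p = rL i ∧ cL (rLo i) ≤ xi p ∧ xi p ≤ cL (rHi i)

/-- the projection along `y` is a corner -/
def Cor (p : P3) : Prop := ∃ j < 20, xi p = cL j ∧ (up p = rL (cLo j) ∨ up p = rL (cHi j))

/-- the polygon -/
def Q : Set P3 :=
  {p | (OnC p ∧ p.2.1 = -sg) ∨ (OnR p ∧ p.2.1 = sg) ∨ (Cor p ∧ |p.2.1| ≤ sg)}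

/-- the points in front of the polygon -/
def Fr : Set P3 := {p | (OnC p → p.2.1 < -sg) ∧ (OnR p → p.2.1 < sg)}

/-- the points behind the polygon -/
def Bk : Set P3 := {p | (OnC p → -sg < p.2.1) ∧ (OnR p → sg < p.2.1)}

/-- column `j` crosses row `i` -/
def Crs (j i : ℕ) : Prop := cLo j < i ∧ i < cHi j ∧ rLo i < j ∧ j < rHi i

instance (j i : ℕ) : Decidable (Crs j i) := by unfold Crs; infer_instance

/-- the box between the two strands at a crossing -/
def Xb (j i : ℕ) : Set P3 := {p | |xi p - cL j| < sg ∧ |up p - rL i| < sg ∧ |p.2.1| < sg}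

/-- the number of levels below `v` -/
noncomputable def idx (L : ℕ → ℝ) (v : ℝ) : ℕ := sInf {j | 20 ≤ j ∨ v ≤ L j}

/-- the cell of a point -/
noncomputable def cx (p : P3) : ℕ := idx cL (xi p)

noncomputable def cy (p : P3) : ℕ := idx rL (up p)

/-- the point with given grid coordinates -/
noncomputable def pt (a b y : ℝ) : P3 := ((a - b) / (2 * sg), y, (a + b) / 2)

/-- the points away from the vertices -/
def Far : Set P3 := {p | ∀ i : ℤ, 1 / 2 ≤ ‖p - cyc WL i‖}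

/-- `F` is given by the potentials `φ` on `A` and `ψ` on `B`, which differ by `W` -/
structure Triv {S : Set P3} {G : Type} [Group G] (F : PathFun S G) (A B : Set P3) (φ ψ : P3 → G)
    (W : ℕ → ℕ → G) : Prop where
  fr : ∀ c, IsPath A c → F.F c = (φ (c 0))⁻¹ * φ (c 1)
  bk : ∀ c, IsPath B c → F.F c = (ψ (c 0))⁻¹ * ψ (c 1)
  w : ∀ p ∈ Fr ∩ Bk, φ p = W (cx p) (cy p) * ψ p

/-- the relations of the Dehn presentation -/
structure Rels {G : Type} [Group G] (W : ℕ → ℕ → G) : Prop where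
  col : ∀ j < 20, ∀ i ≤ 20, ¬ (cLo j < i ∧ i ≤ cHi j) → W j i = W (j + 1) i
  row : ∀ i < 20, ∀ j ≤ 20, ¬ (rLo i < j ∧ j ≤ rHi i) → W j i = W j (i + 1)
  crs : ∀ j < 20, ∀ i < 20, Crs j i →
    W j i * (W (j + 1) i)⁻¹ = W j (i + 1) * (W (j + 1) (i + 1))⁻¹

/-- the value of a word in the cells -/
def ev {G : Type} [Group G] (W : ℕ → ℕ → G) (w : List (ℕ × ℕ × Bool)) : G :=
  (w.map fun a => if a.2.2 then W a.1 a.2.1 else (W a.1 a.2.1)⁻¹).prod

/-- the generators of the group of loops -/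
def gens {G : Type} [Group G] (W : ℕ → ℕ → G) : Set G :=
  {g | ∃ j ≤ 20, ∃ i ≤ 20, g = W j i * (W 0 0)⁻¹}

def wX : List (ℕ × ℕ × Bool) :=
  [(0, 13, false), (0, 0, true), (12, 0, false), (12, 9, true), (16, 9, false), (16, 15, true),
    (6, 15, false), (6, 18, true), (2, 18, false), (2, 11, true), (8, 11, false), (8, 17, true),
    (3, 17, false), (3, 19, true), (7, 19, false), (7, 16, true), (17, 16, false), (17, 10, true),
    (13, 10, false), (13, 1, true), (1, 1, false), (1, 14, true), (5, 14, false), (5, 5, true),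
    (11, 5, false), (11, 8, true), (19, 8, false), (19, 3, true), (15, 3, false), (15, 11, true),
    (8, 11, false), (8, 6, true), (14, 6, false), (14, 2, true), (18, 2, false), (18, 7, true),
    (10, 7, false), (10, 4, true), (4, 4, false), (4, 13, true)]

def wY : List (ℕ × ℕ × Bool) :=
  [(0, 13, false), (0, 0, true), (12, 0, false), (12, 9, true), (16, 9, false), (16, 15, true),
    (6, 15, false), (6, 18, true), (2, 18, false), (2, 11, true), (8, 11, false), (8, 6, true),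
    (14, 6, false), (14, 2, true), (18, 2, false), (18, 7, true), (10, 7, false), (10, 4, true),
    (4, 4, false), (4, 13, true)]

/-- the surgery relation -/
def Surg {G : Type} [Group G] (W : ℕ → ℕ → G) : Prop := ev W wX * ((W 3 13)⁻¹ * W 3 14) = 1

/-- the algebraic half -/
def AlgStmt : Prop :=
  ∃ P : ℤ → ℤ, (∀ n m : ℕ, 1 ≤ n → n < m → P n < P m ∧ P (-n) < P (-m)) ∧
    (∃ W : ℕ → ℕ → SL2Z, Rels W ∧ Surg W ∧
      ¬ Commute (W 10 7 * (W 0 0)⁻¹) (W 3 13 * (W 0 0)⁻¹) ∧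
      ∀ k : ℤ, atr (ev W wX * ev W wY ^ k) = P k) ∧
    ∀ W : ℕ → ℕ → SL2Z, Rels W → Surg W → (¬ ∀ g ∈ gens W, ∀ h ∈ gens W, g * h = h * g) →
      ∀ k : ℤ, P k ≤ atr (ev W wX * ev W wY ^ k)

theorem sg_pos : 0 < sg := by norm_num [sg]

theorem xi_pt (a b y : ℝ) : xi (pt a b y) = a := by
  simp only [xi, pt, sg]; ring

theorem up_pt (a b y : ℝ) : up (pt a b y) = b := by
  simp only [up, pt, sg]; ring

theorem y_pt (a b y : ℝ) : (pt a b y).2.1 = y := rfl

theorem pt_eq (p : P3) : pt (xi p) (up p) p.2.1 = p := by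
  obtain ⟨x, y, z⟩ := p
  simp only [xi, up, pt, sg, Prod.mk.injEq, true_and]
  constructor <;> ring

theorem continuous_xi : Continuous xi := by unfold xi; fun_prop

theorem continuous_up : Continuous up := by unfold up; fun_prop

theorem continuous_pt : Continuous fun a : ℝ × ℝ × ℝ => pt a.1 a.2.1 a.2.2 := by
  unfold pt; fun_prop

theorem gap_aux {l : List ℤ} (h : ∀ j < 21, ∀ k < 21, j < k → l.getD j 0 + 2 ≤ l.getD k 0) {j k : ℕ}
    (hjk : j < k) (hk : k ≤ 20) : sg * (l.getD j 0 : ℤ) + 2 * sg ≤ sg * (l.getD k 0 : ℤ) := by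
  have h1 : ((l.getD j 0 + 2 : ℤ) : ℝ) ≤ (l.getD k 0 : ℤ) := by
    exact_mod_cast h j (by omega) k (by omega) hjk
  push_cast at h1
  nlinarith [sg_pos]

theorem cL_gap {j k : ℕ} (hjk : j < k) (hk : k ≤ 20) : cL j + 2 * sg ≤ cL k :=
  gap_aux (by decide +kernel) hjk hk

theorem rL_gap {j k : ℕ} (hjk : j < k) (hk : k ≤ 20) : rL j + 2 * sg ≤ rL k :=
  gap_aux (by decide +kernel) hjk hk

theorem ends_lt : ∀ j < 20, cLo j < cHi j ∧ cHi j < 20 ∧ rLo j < rHi j ∧ rHi j < 20 := by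
  decide +kernel

/-- the ends of the columns are the ends of the rows -/
theorem ends_iff : ∀ j < 20, ∀ i < 20, (i = cLo j ∨ i = cHi j) ↔ (j = rLo i ∨ j = rHi i) := by
  decide +kernel

theorem idx_le (L : ℕ → ℝ) (v : ℝ) : idx L v ≤ 20 := Nat.sInf_le (Or.inl le_rfl)

theorem lt_idx {L : ℕ → ℝ} (hL : ∀ j k, j < k → k ≤ 20 → L j + 2 * sg ≤ L k) {v : ℝ} {j : ℕ}
    (hj : j < 20) : j < idx L v ↔ L j < v := by
  constructor
  · intro h
    by_contra h1
    exact absurd (Nat.sInf_le (s := {j | 20 ≤ j ∨ v ≤ L j}) (Or.inr (not_lt.1 h1))) (not_le.2 h)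
  · intro h
    by_contra h1
    have h2 : idx L v ∈ {j | 20 ≤ j ∨ v ≤ L j} := Nat.sInf_mem ⟨20, Or.inl le_rfl⟩
    rcases h2 with h2 | h2
    · omega
    · rcases (not_lt.1 h1).eq_or_lt with h3 | h3
      · rw [h3] at h2; linarith
      · linarith [hL _ _ h3 hj.le, sg_pos]

theorem idx_eq {L : ℕ → ℝ} (hL : ∀ j k, j < k → k ≤ 20 → L j + 2 * sg ≤ L k) {v : ℝ} {j : ℕ}
    (hj : j ≤ 20) (h0 : ∀ k, k + 1 = j → L k < v) (h1 : j < 20 → v ≤ L j) : idx L v = j := by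
  have h2 := idx_le L v
  apply le_antisymm
  · by_contra h
    have h3 : j < 20 := by omega
    exact absurd ((lt_idx hL h3).1 (not_le.1 h)) (not_lt.2 (h1 h3))
  · rcases j with _ | k
    · omega
    · exact (lt_idx hL (by omega)).2 (h0 k rfl)

theorem cx_le (p : P3) : cx p ≤ 20 := idx_le _ _

theorem cy_le (p : P3) : cy p ≤ 20 := idx_le _ _

theorem lt_cx {p : P3} {j : ℕ} (hj : j < 20) : j < cx p ↔ cL j < xi p :=
  lt_idx (fun _ _ => cL_gap) hj

theorem lt_cy {p : P3} {i : ℕ} (hi : i < 20) : i < cy p ↔ rL i < up p :=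
  lt_idx (fun _ _ => rL_gap) hi

theorem cx_eq {p : P3} {j : ℕ} (hj : j ≤ 20) (h0 : ∀ k, k + 1 = j → cL k < xi p)
    (h1 : j < 20 → xi p ≤ cL j) : cx p = j := idx_eq (fun _ _ => cL_gap) hj h0 h1

theorem cy_eq {p : P3} {i : ℕ} (hi : i ≤ 20) (h0 : ∀ k, k + 1 = i → rL k < up p)
    (h1 : i < 20 → up p ≤ rL i) : cy p = i := idx_eq (fun _ _ => rL_gap) hi h0 h1

theorem mem_Fr_Bk {p : P3} : p ∈ Fr ∩ Bk ↔ ¬ OnC p ∧ ¬ OnR p :=
  ⟨fun h => ⟨fun k => lt_asymm (h.1.1 k) (h.2.1 k), fun k => lt_asymm (h.1.2 k) (h.2.2 k)⟩,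
    fun h => ⟨⟨fun k => absurd k h.1, fun k => absurd k h.2⟩,
      fun k => absurd k h.1, fun k => absurd k h.2⟩⟩

theorem Triv.mono {S : Set P3} {G : Type} [Group G] {F : PathFun S G} {A B A' B' : Set P3}
    {φ ψ : P3 → G} {W : ℕ → ℕ → G} (h : Triv F A B φ ψ W) (hA : A' ⊆ A) (hB : B' ⊆ B) :
    Triv F A' B' φ ψ W :=
  ⟨fun c hc => h.fr c ⟨hc.1, hc.2.mono_right hA⟩, fun c hc => h.bk c ⟨hc.1, hc.2.mono_right hB⟩,
    h.w⟩

end DS

end Pool.Agent.Lib.MP_4d7d0a_gt
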