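import Pool.Agent.Lib.MP_4d7d0a_gt.DSQ

/-! Two loops away from the dual knots. -/

set_option autoImplicit false

open Set Filter Topology

namespace Pool.Agent.Lib.MP_4d7d0a_gt

namespace DS

/-- grid coordinates far from all levels -/
def NabClr (a b : ℝ) : Prop :=
  (∀ j < 20, 15 * sg ≤ |a - cL j|) ∧ (∀ i < 20, 15 * sg ≤ |b - rL i|) ∧ 15 * sg ≤ |a - sg * (0 : ℤ)|

theorem nab_int {m k : ℤ} (h : 15 ≤ |m - k|) : 15 * sg ≤ |sg * m - sg * k| := by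
  have h1 : (15 : ℝ) ≤ |(m : ℝ) - k| := by exact_mod_cast h
  rw [← mul_sub, abs_mul, abs_of_pos sg_pos, mul_comm]
  exact mul_le_mul_of_nonneg_left h1 sg_pos.le

theorem nab_clr {m n : ℤ} (h : (∀ j < 20, 15 ≤ |m - cZ.getD j 0|) ∧
    (∀ i < 20, 15 ≤ |n - rZ.getD i 0|) ∧ 15 ≤ |m - 0|) : NabClr (sg * m) (sg * n) :=
  ⟨fun j hj => nab_int (h.1 j hj), fun i hi => nab_int (h.2.1 i hi), nab_int h.2.2⟩

theorem nab_Q {q : P3} (h : q ∈ Q) :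
    |q.2.1| ≤ sg ∧ ((∃ j < 20, xi q = cL j) ∨ ∃ i < 20, up q = rL i) := by
  rcases h with ⟨⟨j, h1, h2, -⟩, h⟩ | ⟨⟨j, h1, h2, -⟩, h⟩ | ⟨⟨j, h1, h2, -⟩, h⟩
  · exact ⟨by rw [h, abs_neg, abs_of_pos sg_pos], Or.inl ⟨j, h1, h2⟩⟩
  · exact ⟨by rw [h, abs_of_pos sg_pos], Or.inr ⟨j, h1, h2⟩⟩
  · exact ⟨h, Or.inl ⟨j, h1, h2⟩⟩

theorem nab_norm {p : P3} {r : ℝ} (h : ‖p‖ ≤ r) : |p.1| ≤ r ∧ |p.2.1| ≤ r ∧ |p.2.2| ≤ r :=
  ⟨(norm_fst_le p).trans h, ((norm_fst_le p.2).trans (norm_snd_le p)).trans h,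
    ((norm_snd_le p.2).trans (norm_snd_le p)).trans h⟩

theorem nab_far {π : Prof} (hπ : ∀ t, ‖π.real (cyc WL) t - plc (cyc WL) t‖ ≤ 1 / 2) {p : P3}
    (h : 2 * sg ≤ |p.2.1| ∨ NabClr (xi p) (up p)) : ¬ Near π p := by
  rintro (⟨t, τ, h1, h2⟩ | ⟨h1, h2, h3⟩)
  · have h3 := nab_norm (hπ (WL.length * t))
    have h4 := nab_Q (range_plc ▸ mem_range_self (WL.length * t : ℝ))
    have h5 := nab_norm h2
    rw [Prof.knot] at h5
    generalize π.real (cyc WL) (WL.length * t) = k at h3 h5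
    generalize plc (cyc WL) (WL.length * t) = q at h3 h4
    simp only [Prod.fst_sub, Prod.snd_sub, Prod.fst_add, Prod.snd_add, add_zero, abs_le] at h3 h5
    obtain ⟨⟨a1, a2⟩, ⟨a3, a4⟩, a5, a6⟩ := h3
    obtain ⟨⟨b1, b2⟩, ⟨b3, b4⟩, b5, b6⟩ := h5
    obtain ⟨c1, c2⟩ := abs_le.1 h1
    obtain ⟨d1, d2⟩ := abs_le.1 h4.1
    rcases h with h | h
    · refine absurd h (not_le.2 (abs_lt.2 ⟨?_, ?_⟩)) <;> simp only [sg] at * <;> linarith
    rcases h4.2 with ⟨j, hj, e⟩ | ⟨j, hj, e⟩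
    · refine absurd (h.1 j hj) (not_le.2 (abs_lt.2 ⟨?_, ?_⟩)) <;> rw [← e] <;>
        simp only [xi, sg] at * <;> linarith
    · refine absurd (h.2.1 j hj) (not_le.2 (abs_lt.2 ⟨?_, ?_⟩)) <;> rw [← e] <;>
        simp only [up, sg] at * <;> linarith
  · obtain ⟨a1, a2⟩ := abs_le.1 h1
    obtain ⟨a3, a4⟩ := abs_le.1 h3
    rcases h with h | h
    · simp only [sg] at h
      linarith
    · refine absurd h.2.2 (not_le.2 (abs_lt.2 ⟨?_, ?_⟩)) <;>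
        simp only [xi, sg, Int.cast_zero] at * <;> linarith

theorem nab_mem {a b : ℝ} (h : NabClr a b) (y : ℝ) : pt a b y ∈ Fr ∩ Bk ∧ pt a b y ∈ Far := by
  have h0 := sg_pos
  refine ⟨mem_Fr_Bk.2 ⟨?_, ?_⟩, far_of_xi fun j hj => ?_⟩
  · rintro ⟨j, hj, e, -⟩
    have h1 := h.1 j hj
    rw [← e, xi_pt, sub_self, abs_zero] at h1
    linarith
  · rintro ⟨j, hj, e, -⟩
    have h1 := h.2.1 j hj
    rw [← e, up_pt, sub_self, abs_zero] at h1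
    linarith
  · rw [xi_pt]
    linarith [h.1 j hj]

/-- a horizontal segment followed by a vertical one -/
noncomputable def nabArc (a b a' b' y : ℝ) : ℝ → P3 :=
  cat (fun t => pt (a + t * (a' - a)) (b + t * (b' - b)) y) fun t => pt a' b' (y - 2 * t * y)

theorem nabArc_zero (a b a' b' y : ℝ) : nabArc a b a' b' y 0 = pt a b y := by
  simp [nabArc, cat]

theorem nabArc_one (a b a' b' y : ℝ) : nabArc a b a' b' y 1 = pt a' b' (-y) := by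
  rw [nabArc, cat, if_neg (by norm_num)]
  congr 1
  ring

theorem nab_path {T : Set P3} {a b a' b' y : ℝ} (h1 : ∀ p : P3, p.2.1 = y → p ∈ T)
    (h2 : ∀ z, pt a' b' z ∈ T) : IsPath T (nabArc a b a' b' y) :=
  PathFun.isPath_cat ⟨by unfold pt; fun_prop, fun _ _ => h1 _ rfl⟩
    ⟨by unfold pt; fun_prop, fun _ _ => h2 _⟩ (by simp)

theorem nab_loop {π : Prof} (hπ : ∀ t, ‖π.real (cyc WL) t - plc (cyc WL) t‖ ≤ 1 / 2)
    {a b a' b' : ℝ} (h : NabClr a b) (h' : NabClr a' b') : ∃ c : ℝ → P3,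
    IsPath {p | ¬ Near π p} c ∧ c 0 = pt a b (-(2 * sg)) ∧ c 1 = pt a b (-(2 * sg)) ∧
    ∀ (S : Set P3) (G : Type) [Group G] (F : PathFun S G) (φ ψ : P3 → G) (W : ℕ → ℕ → G),
      Fr ∩ Far ⊆ S → Bk ∩ Far ⊆ S → Triv F (Fr ∩ Far) (Bk ∩ Far) φ ψ W →
        F.F c = (φ (c 0))⁻¹ * (W (idx cL a') (idx rL b') * (W (idx cL a) (idx rL b))⁻¹) *
          φ (c 0) := by
  have h0 : (1 : ℝ) ≤ sg := by norm_num [sg]
  have e1 : ∀ p : P3, p.2.1 = -(2 * sg) → |p.2.1| = 2 * sg := fun p hp => by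
    rw [hp, abs_neg, abs_of_pos (by linarith)]
  have e2 : ∀ p : P3, p.2.1 = 2 * sg → |p.2.1| = 2 * sg := fun p hp => by
    rw [hp, abs_of_pos (by linarith)]
  have e3 : ∀ {a b : ℝ}, NabClr a b → ∀ z, ¬ Near π (pt a b z) := fun h z =>
    nab_far hπ (Or.inr (by rwa [xi_pt, up_pt]))
  have e4 : nabArc a b a' b' (-(2 * sg)) 1 = nabArc a' b' a b (2 * sg) 0 := by
    rw [nabArc_one, nabArc_zero, neg_neg]
  have e5 : cat (nabArc a b a' b' (-(2 * sg))) (nabArc a' b' a b (2 * sg)) 0 =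
      pt a b (-(2 * sg)) := by
    rw [cat, if_pos (by norm_num), mul_zero, nabArc_zero]
  refine ⟨cat (nabArc a b a' b' (-(2 * sg))) (nabArc a' b' a b (2 * sg)), PathFun.isPath_cat
    (nab_path (fun p hp => nab_far hπ (Or.inl (e1 p hp).ge)) (e3 h'))
    (nab_path (fun p hp => nab_far hπ (Or.inl (e2 p hp).ge)) (e3 h)) e4, e5, ?_, ?_⟩
  · rw [cat, if_neg (by norm_num), show (2 : ℝ) * 1 - 1 = 1 by norm_num, nabArc_one]
  intro S G _ F φ ψ W hA hB hT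
  have p1 : IsPath (Fr ∩ Far) (nabArc a b a' b' (-(2 * sg))) :=
    nab_path (fun p hp => ⟨⟨fun _ => by linarith, fun _ => by linarith⟩,
      far_of_y (by linarith [e1 p hp])⟩) fun z => ⟨(nab_mem h' z).1.1, (nab_mem h' z).2⟩
  have p2 : IsPath (Bk ∩ Far) (nabArc a' b' a b (2 * sg)) :=
    nab_path (fun p hp => ⟨⟨fun _ => by linarith, fun _ => by linarith⟩,
      far_of_y (by linarith [e2 p hp])⟩) fun z => ⟨(nab_mem h z).1.2, (nab_mem h z).2⟩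
  have w1 := hT.w _ (nab_mem h (-(2 * sg))).1
  have w2 := hT.w _ (nab_mem h' (2 * sg)).1
  rw [cx, cy, xi_pt, up_pt] at w1 w2
  rw [F.cat_eq ⟨p1.1, p1.2.mono_right hA⟩ ⟨p2.1, p2.2.mono_right hB⟩ e4, hT.fr _ p1, hT.bk _ p2,
    e5, nabArc_zero, nabArc_zero, nabArc_one, nabArc_one, neg_neg, w1, w2]
  group

theorem nab_idx {l : List ℤ} {m : ℤ} {j : ℕ}
    (hl : ∀ j < 21, ∀ k < 21, j < k → l.getD j 0 + 2 ≤ l.getD k 0)
    (h : j < 20 ∧ (∀ k < 20, k + 1 = j → l.getD k 0 < m) ∧ m ≤ l.getD j 0) :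
    idx (fun j => sg * (l.getD j 0 : ℤ)) (sg * m) = j :=
  idx_eq (fun _ _ => gap_aux hl) h.1.le
    (fun k hk => mul_lt_mul_of_pos_left (by exact_mod_cast h.2.1 k (by omega) hk) sg_pos)
    fun _ => mul_le_mul_of_nonneg_left (by exact_mod_cast h.2.2) sg_pos.le

theorem nab_loops : Small fun π => ∃ c c' : ℝ → P3, IsPath {p | ¬ Near π p} c ∧
    IsPath {p | ¬ Near π p} c' ∧ c 1 = c 0 ∧ c' 0 = c 0 ∧ c' 1 = c 0 ∧
    ∀ (S : Set P3) (G : Type) [Group G] (F : PathFun S G) (φ ψ : P3 → G) (W : ℕ → ℕ → G),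
      Fr ∩ Far ⊆ S → Bk ∩ Far ⊆ S → Triv F (Fr ∩ Far) (Bk ∩ Far) φ ψ W →
        F.F c = (φ (c 0))⁻¹ * (W 10 7 * (W 0 0)⁻¹) * φ (c 0) ∧
        F.F c' = (φ (c 0))⁻¹ * (W 3 13 * (W 0 0)⁻¹) * φ (c 0) := by
  refine (small_lt (c := 1 / (40 * (1 + 16777216) ^ 2)) (by norm_num)).mono fun π hη => ?_
  have hπ : ∀ t, ‖π.real (cyc WL) t - plc (cyc WL) t‖ ≤ 1 / 2 := fun t =>
    (π.real_close rel_WL CertAux.norm_WL t).trans (by norm_num at hη ⊢; linarith)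
  have h0 : NabClr (sg * (-1000 : ℤ)) (sg * (-1000 : ℤ)) := nab_clr (by decide +kernel)
  obtain ⟨c, a1, a2, a3, a4⟩ := nab_loop hπ h0 (nab_clr (m := 97) (n := -383) (by decide +kernel))
  obtain ⟨c', b1, b2, b3, b4⟩ := nab_loop hπ h0 (nab_clr (m := -511) (n := 97) (by decide +kernel))
  have c1 : idx cL (sg * (-1000 : ℤ)) = 0 := nab_idx (by decide +kernel) (by decide +kernel)
  have c2 : idx rL (sg * (-1000 : ℤ)) = 0 := nab_idx (by decide +kernel) (by decide +kernel)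
  have c3 : idx cL (sg * (97 : ℤ)) = 10 := nab_idx (by decide +kernel) (by decide +kernel)
  have c4 : idx rL (sg * (-383 : ℤ)) = 7 := nab_idx (by decide +kernel) (by decide +kernel)
  have c5 : idx cL (sg * (-511 : ℤ)) = 3 := nab_idx (by decide +kernel) (by decide +kernel)
  have c6 : idx rL (sg * (97 : ℤ)) = 13 := nab_idx (by decide +kernel) (by decide +kernel)
  rw [c1, c2, c3, c4] at a4
  rw [c1, c2, c5, c6, b2, ← a2] at b4
  exact ⟨c, c', a1, b1, a3.trans a2.symm, b2.trans a2.symm, b3.trans a2.symm,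
    fun S G _ F φ ψ W hA hB hT => ⟨a4 S G F φ ψ W hA hB hT, b4 S G F φ ψ W hA hB hT⟩⟩

end DS

end Pool.Agent.Lib.MP_4d7d0a_gt
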