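import Pool.Agent.Lib.MP_4d7d0a_gt.CertAux1

/-! Kernel checks of the steps 0 to 35. -/

set_option autoImplicit false

namespace Pool.Agent.Lib.MP_4d7d0a_gt.CertAux

theorem chk0 : chainB st0
    [cs0, cs1, cs2, cs3, cs4, cs5, cs6, cs7, cs8] (stAt 9) = true := by
  decide +kernel

theorem chk9 : chainB (stAt 9)
    [cs9, cs10, cs11, cs12, cs13, cs14, cs15, cs16, cs17] (stAt 18) = true := by
  decide +kernel

theorem chk18 : chainB (stAt 18)
    [cs18, cs19, cs20, cs21, cs22, cs23, cs24, cs25, cs26] (stAt 27) = true := by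
  decide +kernel

theorem chk27 : chainB (stAt 27)
    [cs27, cs28, cs29, cs30, cs31, cs32, cs33, cs34, cs35] (stAt 36) = true := by
  decide +kernel

theorem part0 : Small fun π => LegChain (kn π st0) (kn π (stAt 36)) :=
  chain_trans (chainB_sound chk0)
    (chain_trans (chainB_sound chk9)
    (chain_trans (chainB_sound chk18) (chainB_sound chk27)))

end Pool.Agent.Lib.MP_4d7d0a_gt.CertAux
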