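import Pool.Agent.Lib.MP_4d7d0a_gt.CertAux1

/-! Kernel checks of the steps 36 to 71. -/

set_option autoImplicit false

namespace Pool.Agent.Lib.MP_4d7d0a_gt.CertAux

theorem chk36 : chainB (stAt 36)
    [cs36, cs37, cs38, cs39, cs40, cs41, cs42, cs43, cs44] (stAt 45) = true := by
  decide +kernel

theorem chk45 : chainB (stAt 45)
    [cs45, cs46, cs47, cs48, cs49, cs50, cs51, cs52, cs53] (stAt 54) = true := by
  decide +kernel

theorem chk54 : chainB (stAt 54)
    [cs54, cs55, cs56, cs57, cs58, cs59, cs60, cs61, cs62] (stAt 63) = true := by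
  decide +kernel

theorem chk63 : chainB (stAt 63)
    [cs63, cs64, cs65, cs66, cs67, cs68, cs69, cs70, cs71] (stAt 72) = true := by
  decide +kernel

theorem part1 : Small fun π => LegChain (kn π (stAt 36)) (kn π (stAt 72)) :=
  chain_trans (chainB_sound chk36)
    (chain_trans (chainB_sound chk45)
    (chain_trans (chainB_sound chk54) (chainB_sound chk63)))

end Pool.Agent.Lib.MP_4d7d0a_gt.CertAux
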