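import Pool.Agent.Lib.MP_4d7d0a_gt.CertAux1

/-! Kernel checks of the steps 72 to 108. -/

set_option autoImplicit false

namespace Pool.Agent.Lib.MP_4d7d0a_gt.CertAux

theorem chk72 : chainB (stAt 72)
    [cs72, cs73, cs74, cs75, cs76, cs77, cs78, cs79, cs80] (stAt 81) = true := by
  decide +kernel

theorem chk81 : chainB (stAt 81)
    [cs81, cs82, cs83, cs84, cs85, cs86, cs87, cs88, cs89] (stAt 90) = true := by
  decide +kernel

theorem chk90 : chainB (stAt 90)
    [cs90, cs91, cs92, cs93, cs94, cs95, cs96, cs97, cs98] (stAt 99) = true := by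
  decide +kernel

theorem chk99 : chainB (stAt 99)
    [cs99, cs100, cs101, cs102, cs103, cs104, cs105, cs106, cs107, cs108] stE = true := by
  decide +kernel

theorem part2 : Small fun π => LegChain (kn π (stAt 72)) (kn π stE) :=
  chain_trans (chainB_sound chk72)
    (chain_trans (chainB_sound chk81)
    (chain_trans (chainB_sound chk90) (chainB_sound chk99)))

end Pool.Agent.Lib.MP_4d7d0a_gt.CertAux
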