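import Pool.Agent.Lib.MP_4d7d0a_gt.CertAux1

/-! Kernel checks of the vertical shifts and of the gap. -/

set_option autoImplicit false

namespace Pool.Agent.Lib.MP_4d7d0a_gt.CertAux

theorem chkWL : shiftB WL 86 393216 = true := by
  decide +kernel

theorem chkWU : shiftB WU 44 540672 = true := by
  decide +kernel

/-- both ends of the edge are on one side of the gap -/
def farB (a b : Z3) : Bool :=
  (decide (12290 ≤ a.2.1) && decide (12290 ≤ b.2.1)) ||
    ((decide (a.2.1 ≤ -12290) && decide (b.2.1 ≤ -12290)) ||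
      ((decide (66 ≤ a.1) && decide (66 ≤ b.1)) || (decide (a.1 ≤ -66) && decide (b.1 ≤ -66))))

theorem chkFar : ∀ i ∈ List.range 86, i = 41 ∨ i = 42 ∨ i = 84 ∨ i = 85 ∨
    farB (gv WL i) (gv WL (i + 1)) = true := by
  decide +kernel

theorem chkBd : ∀ i ∈ List.range 86, |(gv WL i).1| ≤ 16777216 ∧ |(gv WL i).2.1| ≤ 16777216 ∧
    |(gv WL i).2.2| ≤ 16777216 := by
  decide +kernel

end Pool.Agent.Lib.MP_4d7d0a_gt.CertAux
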