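import Pool.Agent.Lib.MP_4d7d0a_gt.DSDef

/-! Elementary geometry of the grid polygon. -/

set_option autoImplicit false

open Set Filter Topology

namespace Pool.Agent.Lib.MP_4d7d0a_gt

namespace DS

theorem geo_mono {L : ℕ → ℝ} (hL : ∀ j k, j < k → k ≤ 20 → L j + 2 * sg ≤ L k) {j k : ℕ}
    (h : j ≤ k) (hk : k ≤ 20) : L j ≤ L k := by
  rcases h.eq_or_lt with rfl | h
  · exact le_rfl
  · linarith [hL j k h hk, sg_pos]

theorem geo_le {L : ℕ → ℝ} (hL : ∀ j k, j < k → k ≤ 20 → L j + 2 * sg ≤ L k) {j k : ℕ}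
    (hj : j ≤ 20) (h : L j < L k + 2 * sg) : j ≤ k :=
  not_lt.1 fun hk => by linarith [hL k j hk hj]

theorem geo_near {L : ℕ → ℝ} (hL : ∀ j k, j < k → k ≤ 20 → L j + 2 * sg ≤ L k) {j k : ℕ} {v : ℝ}
    (hj : j ≤ 20) (hk : k ≤ 20) (h : |v - L j| < sg) (h' : |v - L k| < sg) : j = k := by
  rw [abs_lt] at h h'
  exact le_antisymm (geo_le hL hj (by linarith [h.1, h'.2])) (geo_le hL hk (by linarith [h.2, h'.1]))

theorem geo_cg : ∀ j k, j < k → k ≤ 20 → cL j + 2 * sg ≤ cL k := fun _ _ => cL_gap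

theorem geo_rg : ∀ j k, j < k → k ≤ 20 → rL j + 2 * sg ≤ rL k := fun _ _ => rL_gap

theorem geo_self (v : ℝ) : |v - v| < sg := by simpa using sg_pos

theorem geo_closed {f g : P3 → ℝ} (hf : Continuous f) (hg : Continuous g) (a b c : ℕ → ℝ) :
    IsClosed {p | ∃ j < 20, f p = a j ∧ b j ≤ g p ∧ g p ≤ c j} := by
  have e : {p | ∃ j < 20, f p = a j ∧ b j ≤ g p ∧ g p ≤ c j} =
      ⋃ j ∈ Iio 20, {p | f p = a j} ∩ ({p | b j ≤ g p} ∩ {p | g p ≤ c j}) := by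
    ext p
    simp only [mem_ofPred_eq, mem_iUnion, mem_Iio, mem_inter_iff, exists_prop]
  rw [e]
  exact (finite_Iio 20).isClosed_biUnion fun j _ => (isClosed_eq hf continuous_const).inter
    ((isClosed_le continuous_const hg).inter (isClosed_le hg continuous_const))

theorem geo_closedC : IsClosed {p | OnC p} :=
  geo_closed continuous_xi continuous_up cL (fun j => rL (cLo j)) fun j => rL (cHi j)

theorem geo_closedR : IsClosed {p | OnR p} :=
  geo_closed continuous_up continuous_xi rL (fun j => cL (rLo j)) fun j => cL (rHi j)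

theorem geo_imp {A B : P3 → Prop} (hA : IsClosed {p | A p}) (hB : IsOpen {p | B p}) :
    IsOpen {p | A p → B p} := by
  have e : {p | A p → B p} = {p | A p}ᶜ ∪ {p | B p} := by
    ext p
    simp only [mem_ofPred_eq, mem_union, mem_compl_iff, imp_iff_not_or]
  rw [e]
  exact hA.isOpen_compl.union hB

theorem geo_corC {p : P3} (h : Cor p) : OnC p := by
  obtain ⟨j, hj, h1, h2⟩ := h
  have e := ends_lt j hj
  have := geo_mono geo_rg e.1.le e.2.1.le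
  rcases h2 with h2 | h2
  · exact ⟨j, hj, h1, h2.ge, h2.le.trans this⟩
  · exact ⟨j, hj, h1, this.trans h2.ge, h2.le⟩

theorem geo_corR {p : P3} (h : Cor p) : OnR p := by
  obtain ⟨j, hj, h1, h2⟩ := h
  have e := ends_lt j hj
  obtain ⟨i, hi, h3, h4⟩ : ∃ i < 20, up p = rL i ∧ (i = cLo j ∨ i = cHi j) := by
    rcases h2 with h2 | h2
    · exact ⟨_, e.1.trans e.2.1, h2, Or.inl rfl⟩
    · exact ⟨_, e.2.1, h2, Or.inr rfl⟩
  have e' := ends_lt i hi
  have := geo_mono geo_cg e'.2.2.1.le e'.2.2.2.le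
  rcases (ends_iff j hj i hi).1 h4 with h5 | h5
  · exact ⟨i, hi, h3, by rw [h1, h5], by rwa [h1, h5]⟩
  · exact ⟨i, hi, h3, by rwa [h1, h5], by rw [h1, h5]⟩

theorem isOpen_Fr : IsOpen Fr := by
  have hy : Continuous fun p : P3 => p.2.1 := by fun_prop
  exact (geo_imp geo_closedC (isOpen_lt hy continuous_const)).inter
    (geo_imp geo_closedR (isOpen_lt hy continuous_const))

theorem isOpen_Bk : IsOpen Bk := by
  have hy : Continuous fun p : P3 => p.2.1 := by fun_prop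
  exact (geo_imp geo_closedC (isOpen_lt continuous_const hy)).inter
    (geo_imp geo_closedR (isOpen_lt continuous_const hy))

theorem isOpen_Xb (j i : ℕ) : IsOpen (Xb j i) := by
  have hy : Continuous fun p : P3 => |p.2.1| := by fun_prop
  exact (isOpen_lt (continuous_xi.sub continuous_const).abs continuous_const).inter
    ((isOpen_lt (continuous_up.sub continuous_const).abs continuous_const).inter
      (isOpen_lt hy continuous_const))

theorem convex_Xb (j i : ℕ) : Convex ℝ (Xb j i) := by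
  have key : ∀ {u v a b : ℝ}, |u| < sg → |v| < sg → 0 ≤ a → 0 ≤ b → a + b = 1 →
      |a * u + b * v| < sg := fun hu hv ha hb hab =>
    abs_lt.2 (convex_Ioo (-sg) sg (abs_lt.1 hu) (abs_lt.1 hv) ha hb hab)
  rintro p ⟨h1, h2, h3⟩ q ⟨k1, k2, k3⟩ a b ha hb hab
  have e1 : xi (a • p + b • q) - cL j = a * (xi p - cL j) + b * (xi q - cL j) := by
    simp only [xi, Prod.fst_add, Prod.snd_add, Prod.smul_fst, Prod.smul_snd, smul_eq_mul]
    linear_combination cL j * hab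
  have e2 : up (a • p + b • q) - rL i = a * (up p - rL i) + b * (up q - rL i) := by
    simp only [up, Prod.fst_add, Prod.snd_add, Prod.smul_fst, Prod.smul_snd, smul_eq_mul]
    linear_combination rL i * hab
  exact ⟨e1 ▸ key h1 k1 ha hb hab, e2 ▸ key h2 k2 ha hb hab, key h3 k3 ha hb hab⟩

theorem Fr_sub : Fr ⊆ Qᶜ := by
  rintro p ⟨h1, h2⟩ (⟨a, b⟩ | ⟨a, b⟩ | ⟨a, b⟩)
  · exact (h1 a).ne b
  · exact (h2 a).ne b
  · linarith [h1 (geo_corC a), (abs_le.1 b).1]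

theorem Bk_sub : Bk ⊆ Qᶜ := by
  rintro p ⟨h1, h2⟩ (⟨a, b⟩ | ⟨a, b⟩ | ⟨a, b⟩)
  · exact (h1 a).ne' b
  · exact (h2 a).ne' b
  · linarith [h2 (geo_corR a), (abs_le.1 b).2]

theorem Xb_sub {j i : ℕ} (hj : j < 20) (hi : i < 20) (h : Crs j i) : Xb j i ⊆ Qᶜ := by
  rintro p ⟨h1, h2, h3⟩ (⟨-, b⟩ | ⟨-, b⟩ | ⟨⟨k, hk, a, a'⟩, -⟩)
  · exact (abs_lt.1 h3).1.ne' b
  · exact (abs_lt.1 h3).2.ne b
  · obtain rfl : j = k := geo_near geo_cg hj.le hk.le h1 (a ▸ geo_self _)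
    have e := ends_lt j hj
    rcases a' with a' | a'
    · exact h.1.ne' (geo_near geo_rg hi.le (by omega) h2 (a' ▸ geo_self _))
    · exact h.2.1.ne (geo_near geo_rg hi.le (by omega) h2 (a' ▸ geo_self _))

theorem cover {p : P3} (hp : p ∉ Q) :
    p ∈ Fr ∨ p ∈ Bk ∨ ∃ j < 20, ∃ i < 20, Crs j i ∧ p ∈ Xb j i := by
  have s := sg_pos
  have c1 : OnC p → p.2.1 ≠ -sg := fun a b => hp (Or.inl ⟨a, b⟩)
  have c2 : OnR p → p.2.1 ≠ sg := fun a b => hp (Or.inr (Or.inl ⟨a, b⟩))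
  by_cases hC : OnC p
  swap
  · rcases lt_or_ge p.2.1 sg with a | a
    · exact Or.inl ⟨fun k => absurd k hC, fun _ => a⟩
    · exact Or.inr (Or.inl ⟨fun k => absurd k hC, fun k => a.lt_of_ne' (c2 k)⟩)
  rcases (c1 hC).lt_or_gt with a | a
  · exact Or.inl ⟨fun _ => a, fun _ => by linarith⟩
  by_cases hR : OnR p
  swap
  · exact Or.inr (Or.inl ⟨fun _ => a, fun k => absurd k hR⟩)
  rcases (c2 hR).lt_or_gt with b | b
  swap
  · exact Or.inr (Or.inl ⟨fun _ => a, fun _ => b⟩)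
  obtain ⟨j, hj, x1, x2, x3⟩ := hC
  obtain ⟨i, hi, u1, u2, u3⟩ := hR
  have e := ends_lt j hj
  have e' := ends_lt i hi
  have y : |p.2.1| < sg := abs_lt.2 ⟨a, b⟩
  have n : ¬ (i = cLo j ∨ i = cHi j) := fun k =>
    hp (Or.inr (Or.inr ⟨⟨j, hj, x1, k.imp (fun l => u1.trans (congrArg rL l))
      fun l => u1.trans (congrArg rL l)⟩, y.le⟩))
  have n' := mt (ends_iff j hj i hi).2 n
  have l1 : cLo j ≤ i := geo_le geo_rg (by omega) (by linarith)
  have l2 : i ≤ cHi j := geo_le geo_rg hi.le (by linarith)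
  have l3 : rLo i ≤ j := geo_le geo_cg (by omega) (by linarith)
  have l4 : j ≤ rHi i := geo_le geo_cg hj.le (by linarith)
  exact Or.inr (Or.inr ⟨j, hj, i, hi, ⟨by omega, by omega, by omega, by omega⟩,
    x1 ▸ geo_self _, u1 ▸ geo_self _, y⟩)

theorem Xb_Fr {j i : ℕ} (hj : j < 20) (hi : i < 20) (h : Crs j i) {p : P3} (hp : p ∈ Xb j i) :
    p ∈ Fr ↔ xi p ≠ cL j := by
  obtain ⟨h1, h2, h3⟩ := hp
  have s := sg_pos
  refine ⟨fun k a => ?_, fun k => ⟨fun ⟨j', hj', a, _⟩ => ?_, fun _ => (abs_lt.1 h3).2⟩⟩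
  · have e := ends_lt j hj
    have := k.1 ⟨j, hj, a, by linarith [rL_gap h.1 hi.le, (abs_lt.1 h2).1],
      by linarith [rL_gap h.2.1 e.2.1.le, (abs_lt.1 h2).2]⟩
    linarith [(abs_lt.1 h3).1]
  · obtain rfl : j = j' := geo_near geo_cg hj.le hj'.le h1 (a ▸ geo_self _)
    exact absurd a k

theorem Xb_Bk {j i : ℕ} (hj : j < 20) (hi : i < 20) (h : Crs j i) {p : P3} (hp : p ∈ Xb j i) :
    p ∈ Bk ↔ up p ≠ rL i := by
  obtain ⟨h1, h2, h3⟩ := hp
  have s := sg_pos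
  refine ⟨fun k a => ?_, fun k => ⟨fun _ => (abs_lt.1 h3).1, fun ⟨i', hi', a, _⟩ => ?_⟩⟩
  · have e := ends_lt i hi
    have := k.2 ⟨i, hi, a, by linarith [cL_gap h.2.2.1 hj.le, (abs_lt.1 h1).1],
      by linarith [cL_gap h.2.2.2 e.2.2.2.le, (abs_lt.1 h1).2]⟩
    linarith [(abs_lt.1 h3).2]
  · obtain rfl : i = i' := geo_near geo_rg hi.le hi'.le h2 (a ▸ geo_self _)
    exact absurd a k

theorem Xb_cx {j i : ℕ} (hj : j < 20) {p : P3} (hp : p ∈ Xb j i) :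
    (xi p ≤ cL j → cx p = j) ∧ (cL j < xi p → cx p = j + 1) := by
  have s := sg_pos
  have h := abs_lt.1 hp.1
  refine ⟨fun a => cx_eq hj.le (fun k hk => ?_) fun _ => a,
    fun a => cx_eq hj (fun k hk => ?_) fun _ => ?_⟩
  · linarith [cL_gap (show k < j by omega) hj.le, h.1]
  · rwa [Nat.succ_injective hk]
  · linarith [cL_gap j.lt_succ_self hj, h.2]

theorem Xb_cy {j i : ℕ} (hi : i < 20) {p : P3} (hp : p ∈ Xb j i) :
    (up p ≤ rL i → cy p = i) ∧ (rL i < up p → cy p = i + 1) := by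
  have s := sg_pos
  have h := abs_lt.1 hp.2.1
  refine ⟨fun a => cy_eq hi.le (fun k hk => ?_) fun _ => a,
    fun a => cy_eq hi (fun k hk => ?_) fun _ => ?_⟩
  · linarith [rL_gap (show k < i by omega) hi.le, h.1]
  · rwa [Nat.succ_injective hk]
  · linarith [rL_gap i.lt_succ_self hi, h.2]

theorem Xb_disj {j i j' i' : ℕ} (hj : j < 20) (hi : i < 20) (hj' : j' < 20) (hi' : i' < 20)
    {p : P3} (hp : p ∈ Xb j i) (hp' : p ∈ Xb j' i') : j = j' ∧ i = i' :=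
  ⟨geo_near geo_cg hj.le hj'.le hp.1 hp'.1, geo_near geo_rg hi.le hi'.le hp.2.1 hp'.2.1⟩

theorem geo_chk : ∀ k < 86,
    (∃ j < 20, (WL.getD k (0, 0, 0)).2.2 + 16384 * (WL.getD k (0, 0, 0)).1 = 16384 * cZ.getD j 0) ∧
    (∃ i < 20, (WL.getD k (0, 0, 0)).2.2 - 16384 * (WL.getD k (0, 0, 0)).1 = 16384 * rZ.getD i 0) ∧
      |(WL.getD k (0, 0, 0)).2.1| ≤ 16384 := by
  decide +kernel

theorem geo_small {p q : P3} (h : ‖p - q‖ < 1 / 2) :
    |p.1 - q.1| < 1 / 2 ∧ |p.2.1 - q.2.1| < 1 / 2 ∧ |p.2.2 - q.2.2| < 1 / 2 := by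
  simpa only [Prod.norm_def, Real.norm_eq_abs, max_lt_iff, Prod.fst_sub, Prod.snd_sub] using h

theorem vtx_grid (k : ℤ) : (∃ j < 20, xi (cyc WL k) = cL j) ∧ (∃ i < 20, up (cyc WL k) = rL i) ∧
    |(cyc WL k).2.1| ≤ sg := by
  have hl : WL.length = 86 := by decide +kernel
  have hk : (k % (WL.length : ℤ)).toNat < 86 := by
    rw [hl]
    omega
  obtain ⟨⟨j, hj, a⟩, ⟨i, hi, b⟩, c⟩ := geo_chk _ hk
  refine ⟨⟨j, hj, ?_⟩, ⟨i, hi, ?_⟩, ?_⟩
  · simp only [xi, cyc, toP3, cL, sg]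
    exact_mod_cast a
  · simp only [up, cyc, toP3, rL, sg]
    exact_mod_cast b
  · simp only [cyc, toP3, sg]
    exact_mod_cast c

theorem far_of_xi {p : P3} (h : ∀ j < 20, sg ≤ |xi p - cL j|) : p ∈ Far := by
  refine fun k => not_lt.1 fun hk => ?_
  obtain ⟨a, -, c⟩ := geo_small hk
  obtain ⟨j, hj, e⟩ := (vtx_grid k).1
  refine (h j hj).not_gt ?_
  rw [← e]
  rw [abs_lt] at a c ⊢
  simp only [xi, sg]
  constructor <;> linarith [a.1, a.2, c.1, c.2]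

theorem far_of_up {p : P3} (h : ∀ i < 20, sg ≤ |up p - rL i|) : p ∈ Far := by
  refine fun k => not_lt.1 fun hk => ?_
  obtain ⟨a, -, c⟩ := geo_small hk
  obtain ⟨j, hj, e⟩ := (vtx_grid k).2.1
  refine (h j hj).not_gt ?_
  rw [← e]
  rw [abs_lt] at a c ⊢
  simp only [up, sg]
  constructor <;> linarith [a.1, a.2, c.1, c.2]

theorem far_of_y {p : P3} (h : sg + 1 ≤ |p.2.1|) : p ∈ Far := by
  refine fun k => not_lt.1 fun hk => ?_
  have a := abs_lt.1 (geo_small hk).2.1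
  have b := abs_le.1 (vtx_grid k).2.2
  refine h.not_gt (abs_lt.2 ⟨?_, ?_⟩) <;> linarith [a.1, a.2, b.1, b.2]

end DS

end Pool.Agent.Lib.MP_4d7d0a_gt
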