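import Pool.Agent.Lib.MP_4d7d0a_gt.CertAux1
import Pool.Agent.Lib.MP_4d7d0a_gt.DAlgG
import Pool.Agent.Lib.MP_4d7d0a_gt.CertAux2
import Pool.Agent.Lib.MP_4d7d0a_gt.CertAux3
import Pool.Agent.Lib.MP_4d7d0a_gt.CertAux4
import Pool.Agent.Lib.MP_4d7d0a_gt.CertAux5
import Pool.Agent.Lib.MP_4d7d0a_gt.DSDef
import Pool.Agent.Lib.MP_4d7d0a_gt.TBCab
import Pool.Agent.Lib.MP_4d7d0a_gt.DSGeo

-- part Pool.Agent.Lib.MP_4d7d0a_gt.Cert
section

/-! The certified isotopy from the pair of push-offs to the 2-copy. -/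

set_option autoImplicit false

open Set Filter Topology
open scoped ContDiff

namespace Pool.Agent.Lib.MP_4d7d0a_gt

theorem shift_WL : ShiftOK WL (24 * sg) := by
  have h := CertAux.shiftB_sound (by norm_num) CertAux.chkWL
  convert h using 1
  norm_num [sg]

theorem shift_WU : ShiftOK WU (33 * sg) := by
  have h := CertAux.shiftB_sound (by norm_num) CertAux.chkWU
  convert h using 1
  norm_num [sg]

namespace CertAux

theorem knot_up (π : Prof) {l : List Z3} (hn : 0 < l.length) (h : ℤ) (t : ℝ) :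
    π.knot (l.map (up h)) t = π.knot l t + (0, 0, (h : ℝ)) := by
  unfold Prof.knot
  rw [cyc_map_up hn, π.real_add_z, List.length_map]

theorem len_WU : WU.length = 44 := by decide

theorem len_WL : WL.length = 86 := by decide

theorem cyc_stE (i : ℤ) : cyc stE.2 i = cyc WU (i + 4) + (0, 0, ((524288 : ℤ) : ℝ)) := by
  have hl : stE.2.length = 44 := by simp [stE]
  have hr := res_lt (show 0 < 44 by norm_num) i
  have h4 := cyc_add_nat len_WU (by norm_num) i 4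
  rw [cyc_zero hl (by norm_num), show i + 4 = i + ((4 : ℕ) : ℤ) by norm_num, h4, ← toP3_up]
  congr 1
  unfold gv
  rw [hl, Nat.mod_eq_of_lt hr, List.getD_eq_getElem _ _ (by rw [hl]; exact hr)]
  simp [stE, gv]

theorem knot_stE (π : Prof) (t : ℝ) :
    π.knot stE.2 t = π.knot WU (t + 4 / 44) + (0, 0, 32 * sg) := by
  have hl : stE.2.length = 44 := by simp [stE]
  unfold Prof.knot
  rw [show cyc stE.2 = fun i => cyc WU (i + 4) + (0, 0, ((524288 : ℤ) : ℝ)) from funext cyc_stE,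
    π.real_add_z (fun i => cyc WU (i + 4)), π.real_shift, hl, len_WU]
  congr 2
  · push_cast; ring
  · norm_num [sg]

theorem norm_WL (i : ℤ) : ‖cyc WL i‖ ≤ 16777216 := by
  have h := chkBd _ (List.mem_range.2 (res_lt (show 0 < 86 by norm_num) i))
  rw [cyc_zero len_WL (by norm_num)]
  simp only [toP3, Prod.norm_def, Real.norm_eq_abs, max_le_iff]
  exact ⟨by exact_mod_cast h.1, by exact_mod_cast h.2.1, by exact_mod_cast h.2.2⟩

theorem far_absurd {a b : Z3} (h : farB a b = true) {u : ℝ} (h0 : 0 ≤ u) (h1 : u ≤ 1)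
    (hx : |(edge (toP3 a) (toP3 b) u).1| ≤ 65) (hy : |(edge (toP3 a) (toP3 b) u).2.1| ≤ 12289) :
    False := by
  simp only [farB, Bool.or_eq_true, Bool.and_eq_true, decide_eq_true_eq] at h
  simp only [edge, toP3, abs_le] at hx hy
  rcases h with ⟨p, q⟩ | ⟨p, q⟩ | ⟨p, q⟩ | ⟨p, q⟩
  · have p' : (12290 : ℝ) ≤ a.2.1 := by exact_mod_cast p
    have q' : (12290 : ℝ) ≤ b.2.1 := by exact_mod_cast q
    nlinarith [hy.2, mul_nonneg h0 (sub_nonneg.2 q'), mul_nonneg (sub_nonneg.2 h1) (sub_nonneg.2 p')]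
  · have p' : (a.2.1 : ℝ) ≤ -12290 := by exact_mod_cast p
    have q' : (b.2.1 : ℝ) ≤ -12290 := by exact_mod_cast q
    nlinarith [hy.1, mul_nonneg h0 (sub_nonneg.2 q'), mul_nonneg (sub_nonneg.2 h1) (sub_nonneg.2 p')]
  · have p' : (66 : ℝ) ≤ a.1 := by exact_mod_cast p
    have q' : (66 : ℝ) ≤ b.1 := by exact_mod_cast q
    nlinarith [hx.2, mul_nonneg h0 (sub_nonneg.2 q'), mul_nonneg (sub_nonneg.2 h1) (sub_nonneg.2 p')]
  · have p' : (a.1 : ℝ) ≤ -66 := by exact_mod_cast p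
    have q' : (b.1 : ℝ) ≤ -66 := by exact_mod_cast q
    nlinarith [hx.1, mul_nonneg h0 (sub_nonneg.2 q'), mul_nonneg (sub_nonneg.2 h1) (sub_nonneg.2 p')]

end CertAux

theorem cert_chain : Small fun π => LegChain
    (fun c : Bool => if c then fun t => π.knot Wb t + (0, 0, 8 * sg)
      else fun t => π.knot Wa t + (0, 0, -(8 * sg)))
    (fun c : Bool => if c then fun t => π.knot WU (t + 4 / 44) + (0, 0, 32 * sg)
      else π.knot WU) := by
  refine (CertAux.chain_trans CertAux.part0 (CertAux.chain_trans CertAux.part1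
    CertAux.part2)).mono fun π h => ?_
  convert h using 1
  · funext c
    cases c
    · funext t
      change π.knot Wa t + _ = π.knot (Wa.map (CertAux.up (-131072))) t
      rw [CertAux.knot_up π (by decide)]
      norm_num [sg]
    · funext t
      change π.knot Wb t + _ = π.knot (Wb.map (CertAux.up 131072)) t
      rw [CertAux.knot_up π (by decide)]
      norm_num [sg]
  · funext c
    cases c
    · rfl
    · funext t
      exact (CertAux.knot_stE π t).symm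

/-- points of `L` over the gap lie on the two tips -/
theorem zone_WL : Small fun π => ∀ t : ℝ, -1 ≤ t → t < 85 →
    |(π.real (cyc WL) t).1| ≤ 64 → |(π.real (cyc WL) t).2.1| ≤ 3 / 4 * sg →
      t ≤ -1 / 8 ∨ (41 + 1 / 8 ≤ t ∧ t ≤ 43 - 1 / 8) ∨ 84 + 1 / 8 ≤ t := by
  refine (small_lt (c := 1 / (20 * (1 + 16777216) ^ 2)) (by positivity)).mono
    fun π hη t h0 h1 hx hy => ?_
  have hc := π.real_close rel_WL CertAux.norm_WL t
  have hc1 : ‖π.real (cyc WL) t - plc (cyc WL) t‖ ≤ 1 := by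
    refine hc.trans ?_
    rw [lt_div_iff₀ (by positivity)] at hη
    linarith
  have cx : |(π.real (cyc WL) t).1 - (plc (cyc WL) t).1| ≤ 1 :=
    (norm_fst_le (π.real (cyc WL) t - plc (cyc WL) t)).trans hc1
  have cy : |(π.real (cyc WL) t).2.1 - (plc (cyc WL) t).2.1| ≤ 1 :=
    ((norm_fst_le (π.real (cyc WL) t - plc (cyc WL) t).2).trans
      (norm_snd_le (π.real (cyc WL) t - plc (cyc WL) t))).trans hc1
  have hx' : |(plc (cyc WL) t).1| ≤ 65 := by
    rw [abs_le] at hx cx ⊢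
    constructor <;> linarith [hx.1, hx.2, cx.1, cx.2]
  have hy' : |(plc (cyc WL) t).2.1| ≤ 12289 := by
    simp only [sg] at hy
    rw [abs_le] at hy cy ⊢
    constructor <;> linarith [hy.1, hy.2, cy.1, cy.2]
  have u0 := Int.fract_nonneg t
  have u1 := (Int.fract_lt_one t).le
  have ht : t = ⌊t⌋ + Int.fract t := (Int.floor_add_fract t).symm
  have f0 : -1 ≤ ⌊t⌋ := Int.le_floor.2 (by exact_mod_cast h0)
  have f1 : ⌊t⌋ < 85 := Int.floor_lt.2 (by exact_mod_cast h1)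
  unfold plc at hx' hy'
  rw [CertAux.cyc_zero CertAux.len_WL (by norm_num) ⌊t⌋,
    CertAux.cyc_one CertAux.len_WL (by norm_num) ⌊t⌋] at hx' hy'
  have hr := CertAux.res_cast (show 0 < 86 by norm_num) ⌊t⌋
  generalize Int.fract t = u at *
  generalize ⌊t⌋ = i at *
  rcases CertAux.chkFar _ (List.mem_range.2 (CertAux.res_lt (show 0 < 86 by norm_num) i)) with
    h | h | h | h | h
  · have hi : i = 41 := by omega
    rw [h, show CertAux.gv WL 41 = (-1, 16384, 0) by decide,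
      show CertAux.gv WL (41 + 1) = (-1, 0, 0) by decide] at hy'
    subst hi
    simp only [edge, toP3, abs_le] at hy'
    push_cast at hy' ht
    exact Or.inr (Or.inl ⟨by linarith [hy'.2], by linarith⟩)
  · have hi : i = 42 := by omega
    rw [h, show CertAux.gv WL 42 = (-1, 0, 0) by decide,
      show CertAux.gv WL (42 + 1) = (-1, -16384, 0) by decide] at hy'
    subst hi
    simp only [edge, toP3, abs_le] at hy'
    push_cast at hy' ht
    exact Or.inr (Or.inl ⟨by linarith, by linarith [hy'.1]⟩)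
  · have hi : i = 84 := by omega
    rw [h, show CertAux.gv WL 84 = (1, 16384, 0) by decide,
      show CertAux.gv WL (84 + 1) = (1, 0, 0) by decide] at hy'
    subst hi
    simp only [edge, toP3, abs_le] at hy'
    push_cast at hy' ht
    exact Or.inr (Or.inr (by linarith [hy'.2]))
  · have hi : i = -1 := by omega
    rw [h, show CertAux.gv WL 85 = (1, 0, 0) by decide,
      show CertAux.gv WL (85 + 1) = (1, -16384, 0) by decide] at hy'
    subst hi
    simp only [edge, toP3, abs_le] at hy'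
    push_cast at hy' ht
    exact Or.inl (by linarith [hy'.1])
  · exact (CertAux.far_absurd h u0 u1 hx' hy').elim

end Pool.Agent.Lib.MP_4d7d0a_gt
end

-- part Pool.Agent.Lib.MP_4d7d0a_gt.DSH1
section

/-! Shear homeomorphisms. -/

set_option autoImplicit false

open Set Filter Topology

namespace Pool.Agent.Lib.MP_4d7d0a_gt

namespace DS

theorem shear_homeo {l χ : P3 → ℝ} {D : ℝ → P3} {k : NNReal} {d : ℝ} (hl : Continuous l)
    (hD : Continuous D) (hinv : ∀ (p : P3) (u s : ℝ), l (p + s • D u) = l p)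
    (hχ : LipschitzWith k χ) (h1 : ∀ p, |χ p| ≤ 1) (hd : ∀ u, ‖D u‖ ≤ d) (hkd : k * d < 1) :
    ∃ Φ : P3 ≃ₜ P3, ∀ p, Φ p = p + χ p • D (l p) := by
  obtain ⟨f, hf⟩ : ∃ f : P3 → P3, ∀ p, f p = p + χ p • D (l p) := ⟨_, fun _ => rfl⟩
  have hd0 : 0 ≤ d := (norm_nonneg _).trans (hd 0)
  have hc : Continuous f := by
    rw [funext hf]
    exact continuous_id.add (hχ.continuous.smul (hD.comp hl))
  have hinj : Function.Injective f := fun p q h => by
    have e : l p = l q := by rw [← hinv p (l p) (χ p), ← hf, h, hf, hinv]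
    rw [hf, hf, e] at h
    have e2 : p - q = (χ q - χ p) • D (l q) := by
      rw [sub_smul, sub_eq_sub_iff_add_eq_add, h, add_comm]
    have e3 : ‖p - q‖ ≤ k * ‖p - q‖ * d := by
      have := hχ.dist_le_mul q p
      rw [dist_comm q p, dist_eq_norm p q, Real.dist_eq] at this
      calc ‖p - q‖ = |χ q - χ p| * ‖D (l q)‖ := by rw [e2, norm_smul, Real.norm_eq_abs]
        _ ≤ _ := mul_le_mul this (hd _) (norm_nonneg _) (by positivity)
    have e4 : ‖p - q‖ ≤ 0 := by nlinarith [norm_nonneg (p - q)]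
    exact sub_eq_zero.1 (norm_le_zero_iff.1 e4)
  have hsurj : Function.Surjective f := fun q => by
    have hg : Continuous fun s : ℝ => χ (q - s • D (l q)) - s :=
      (hχ.continuous.comp (continuous_const.sub (continuous_id.smul continuous_const))).sub
        continuous_id
    obtain ⟨s, -, hs⟩ := intermediate_value_Icc' (a := -1) (b := 1) (by norm_num) hg.continuousOn
      (show (0 : ℝ) ∈ _ from ⟨by linarith [(abs_le.1 (h1 (q - (1 : ℝ) • D (l q)))).2],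
        by linarith [(abs_le.1 (h1 (q - (-1 : ℝ) • D (l q)))).1]⟩)
    refine ⟨q - s • D (l q), ?_⟩
    have e : l (q - s • D (l q)) = l q := by rw [sub_eq_add_neg, ← neg_smul, hinv]
    rw [hf, e, sub_eq_zero.1 hs, sub_add_cancel]
  have hp : IsProperMap f := by
    refine isProperMap_iff_isCompact_preimage.2 ⟨hc, fun K hK => ?_⟩
    obtain ⟨r, hr⟩ := hK.isBounded.exists_norm_le
    refine Metric.isCompact_of_isClosed_isBounded (hK.isClosed.preimage hc)
      (isBounded_iff_forall_norm_le.2 ⟨r + d, fun p hp => ?_⟩)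
    have e : p = f p - χ p • D (l p) := by rw [hf, add_sub_cancel_right]
    have e2 : ‖χ p • D (l p)‖ ≤ 1 * d := by
      rw [norm_smul, Real.norm_eq_abs]
      exact mul_le_mul (h1 p) (hd _) (norm_nonneg _) zero_le_one
    have e3 := norm_sub_le (f p) (χ p • D (l p))
    rw [← e] at e3
    linarith [hr _ hp]
  exact ⟨(Equiv.ofBijective f ⟨hinj, hsurj⟩).toHomeomorphOfContinuousClosed hc hp.isClosedMap, hf⟩

theorem homeo_glue {ι : Type} [Finite ι] (B : ι → Set P3)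
    (hB : Pairwise fun i j => Disjoint (B i) (B j)) (Φ : ι → P3 ≃ₜ P3)
    (h : ∀ i, ∀ p ∉ B i, Φ i p = p) :
    ∃ Ψ : P3 ≃ₜ P3, (∀ i, ∀ p ∈ B i, Ψ p = Φ i p) ∧ ∀ p, (∀ i, p ∉ B i) → Ψ p = p := by
  classical
  have hm : ∀ i, ∀ p ∈ B i, Φ i p ∈ B i := fun i p hp => by
    by_contra k
    exact k (by rwa [(Φ i).injective (h i _ k)])
  have key : ∀ s : Finset ι, ∃ Ψ : P3 ≃ₜ P3, (∀ i ∈ s, ∀ p ∈ B i, Ψ p = Φ i p) ∧
      ∀ p, (∀ i ∈ s, p ∉ B i) → Ψ p = p := fun s => by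
    induction s using Finset.induction_on with
    | empty => exact ⟨Homeomorph.refl _, by simp, fun _ _ => rfl⟩
    | insert a s ha ih =>
      obtain ⟨Ψ, k1, k2⟩ := ih
      refine ⟨Ψ.trans (Φ a), fun i hi p hp => ?_, fun p hp => ?_⟩
      · rw [Homeomorph.trans_apply]
        rcases Finset.mem_insert.1 hi with rfl | hi
        · rw [k2 p fun j hj => disjoint_left.1 (hB (ne_of_mem_of_not_mem hj ha).symm) hp]
        · rw [k1 i hi p hp]
          exact h a _ (disjoint_left.1 (hB (ne_of_mem_of_not_mem hi ha)) (hm i p hp))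
      · rw [Homeomorph.trans_apply, k2 p fun j hj => hp j (Finset.mem_insert_of_mem hj)]
        exact h a p (hp a (Finset.mem_insert_self _ _))
  have := Fintype.ofFinite ι
  obtain ⟨Ψ, k1, k2⟩ := key Finset.univ
  exact ⟨Ψ, fun i => k1 i (Finset.mem_univ i), fun p hp => k2 p fun i _ => hp i⟩

end DS

end Pool.Agent.Lib.MP_4d7d0a_gt
end

-- part Pool.Agent.Lib.MP_4d7d0a_gt.DSMer
section

/-! The meridian of the surgery torus is the push-off times the meridian. -/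

set_option autoImplicit false

open Set Filter Topology

namespace Pool.Agent.Lib.MP_4d7d0a_gt

namespace DS

/-- two lifts with the same deck translation give conjugate loops -/
theorem dsMer_conj {E X G : Type} [NormedAddCommGroup E] [NormedSpace ℝ E] [TopologicalSpace X]
    {S : Set X} [Group G] (F : PathFun S G) {C : Set E} (hC : Convex ℝ C) {f : E → X}
    (hf : ContinuousOn f C) (hS : MapsTo f C S) {T : E} (hT : ∀ e, f (e + T) = f e)
    {c c' : ℝ → E} (hc : IsPath C c) (hc' : IsPath C c') (h : c 1 = c 0 + T)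
    (h' : c' 1 = c' 0 + T) : IsConj (F.F fun t => f (c t)) (F.F fun t => f (c' t)) := by
  have hm : ∀ s ∈ Icc (0 : ℝ) 1, ∀ t ∈ Icc (0 : ℝ) 1, (1 - s) • c t + s • c' t ∈ C :=
    fun s hs t ht => hC (hc.2 ht) (hc'.2 ht) (sub_nonneg.2 hs.2) hs.1 (sub_add_cancel _ _)
  have h1 : ContinuousOn (fun a : ℝ × ℝ => c a.2) (Icc 0 1 ×ˢ Icc 0 1) :=
    hc.1.comp continuous_snd.continuousOn fun a ha => ha.2
  have h2 : ContinuousOn (fun a : ℝ × ℝ => c' a.2) (Icc 0 1 ×ˢ Icc 0 1) :=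
    hc'.1.comp continuous_snd.continuousOn fun a ha => ha.2
  have h3 := F.square (H := fun s t => f ((1 - s) • c t + s • c' t))
    (hf.comp (((continuous_const.sub continuous_fst).continuousOn.smul h1).add
      (continuous_fst.continuousOn.smul h2)) fun a ha => hm _ ha.1 _ ha.2)
    fun s hs t ht => hS (hm s hs t ht)
  have h4 : (fun s : ℝ => f ((1 - s) • c 1 + s • c' 1)) =
      fun s : ℝ => f ((1 - s) • c 0 + s • c' 0) := by
    funext s
    rw [← hT ((1 - s) • c 0 + s • c' 0), h, h']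
    congr 1
    module
  simp only [h4, sub_zero, one_smul, zero_smul, add_zero, sub_self, zero_add] at h3
  refine isConj_iff.2 ⟨(F.F fun s : ℝ => f ((1 - s) • c 0 + s • c' 0))⁻¹, ?_⟩
  rw [inv_inv, mul_assoc, h3, inv_mul_cancel_left]

theorem mer_conj {M : Type} [TopologicalSpace M] [ChartedSpace P3 M] {K : ℝ → P3} (sd : SD K M)
    {G : Type} [Group G] (F : PathFun (range K)ᶜ G) {ρ ρ' : ℝ} (h0 : 0 < ρ) (h1 : ρ < sd.r')
    (h0' : 0 < ρ') (h1' : ρ' < sd.r) (x₀ : ℝ) :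
    IsConj (F.F fun t => cai (sd.th (sd.ns (0, ρ * Real.cos (2 * Real.pi * t),
        ρ * Real.sin (2 * Real.pi * t)))))
      (F.F (fun t => sd.nu (x₀ + t, 0, -ρ')) * F.F fun t =>
        sd.nu (x₀, ρ' * Real.sin (2 * Real.pi * t), -(ρ' * Real.cos (2 * Real.pi * t)))) := by
  obtain ⟨C, hC⟩ : ∃ C : Set P3, C = univ ×ˢ Ioo 0 sd.r ×ˢ univ := ⟨_, rfl⟩
  obtain ⟨f, hf⟩ : ∃ f : P3 → P3,
      f = fun e => sd.nu (e.1, e.2.1 * Real.cos e.2.2, e.2.1 * Real.sin e.2.2) := ⟨_, rfl⟩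
  have hm : ∀ e : P3, e ∈ C ↔ 0 < e.2.1 ∧ e.2.1 < sd.r := fun e => by simp [hC]
  have hCc : Convex ℝ C := by
    rw [hC]
    exact convex_univ.prod ((convex_Ioo _ _).prod convex_univ)
  have hfc : ContinuousOn f C := fun e he => by
    have h2 := (sd.nu_ct _ (loc_aux_polar ((hm e).1 he).1 ((hm e).1 he).2 e.1 e.2.2)).1.continuousAt
    rw [hf]
    exact (ContinuousAt.comp (f := fun e : P3 =>
      ((e.1, e.2.1 * Real.cos e.2.2, e.2.1 * Real.sin e.2.2) : P3)) h2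
      (by fun_prop)).continuousWithinAt
  have hfS : MapsTo f C (range K)ᶜ := by
    rintro e he ⟨t, ht⟩
    rw [hf] at ht
    exact loc_aux_off sd.nu_tube ((hm e).1 he).1 ((hm e).1 he).2 _ _ t ((sd.nu_core t).trans ht)
  have hT : ∀ e, f (e + ((1, 0, 2 * Real.pi) : P3)) = f e := fun e => by
    rw [hf]
    simp only [Prod.fst_add, Prod.snd_add, add_zero, Real.cos_add_two_pi, Real.sin_add_two_pi]
    exact sd.nu_tube.1 (e.1, e.2.1 * Real.cos e.2.2, e.2.1 * Real.sin e.2.2)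
  have hA := sd.A_sm.continuous
  have hB := sd.B_sm.continuous
  have p0 : IsPath C fun t => ((sd.A (2 * Real.pi * t), ρ * Real.exp (sd.B (2 * Real.pi * t)),
      2 * Real.pi * t) : P3) :=
    ⟨Continuous.continuousOn (by fun_prop), fun t _ => (hm _).2 ⟨mul_pos h0 (Real.exp_pos _),
      (mul_lt_mul_of_pos_right h1 (Real.exp_pos _)).trans_le (sd.B_le _)⟩⟩
  have p1 : IsPath C fun t => ((x₀ + t, ρ', -(Real.pi / 2)) : P3) :=
    ⟨Continuous.continuousOn (by fun_prop), fun t _ => (hm _).2 ⟨h0', h1'⟩⟩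
  have p2 : IsPath C fun t => ((x₀ + 1, ρ', 2 * Real.pi * t - Real.pi / 2) : P3) :=
    ⟨Continuous.continuousOn (by fun_prop), fun t _ => (hm _).2 ⟨h0', h1'⟩⟩
  have e12 : ((x₀ + 1, ρ', -(Real.pi / 2)) : P3) =
      (x₀ + 1, ρ', 2 * Real.pi * 0 - Real.pi / 2) := by simp
  have hA1 := sd.A_per 0
  have hB1 := sd.B_per 0
  rw [zero_add] at hA1 hB1
  have h2 := dsMer_conj F hCc hfc hfS hT p0 (PathFun.isPath_cat p1 p2 e12)
    (by simp [hA1, hB1]) (by
      norm_num [cat]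
      ring)
  rw [PathFun.pathFA_cat_comp, F.cat_eq (PathFun.pathFA_comp hfc hfS p1)
    (PathFun.pathFA_comp hfc hfS p2) (congrArg f e12)] at h2
  convert h2 using 3 with t
  · rw [sd.glue _ _ _ h0 h1, cai_cay, hf, zero_add]
  · funext t
    simp [hf]
  · funext t
    rw [hf]
    simp only [Real.cos_sub_pi_div_two, Real.sin_sub_pi_div_two, mul_neg]
    exact (sd.nu_tube.1 (x₀, ρ' * Real.sin (2 * Real.pi * t),
      -(ρ' * Real.cos (2 * Real.pi * t)))).symm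

end DS

end Pool.Agent.Lib.MP_4d7d0a_gt
end

-- part Pool.Agent.Lib.MP_4d7d0a_gt.DSBox
section

/-! Potentials force the relations of the Dehn presentation. -/

set_option autoImplicit false

open Set Filter Topology

namespace Pool.Agent.Lib.MP_4d7d0a_gt

namespace DS

variable {G : Type} [Group G] {F : PathFun Qᶜ G} {φ ψ : P3 → G} {W : ℕ → ℕ → G}

theorem box_seg {C : Set P3} (hC : Convex ℝ C) {p q : P3} (hp : p ∈ C) (hq : q ∈ C) :
    IsPath C fun t : ℝ => p + t • (q - p) :=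
  ⟨by fun_prop, fun t ht => hC.add_smul_sub_mem hp hq ht⟩

theorem box_pot {C : Set P3} (hC : Convex ℝ C) (hS : C ⊆ Qᶜ) {x : P3} (hx : x ∈ C) (g : G) :
    ∃ θ : P3 → G, θ x = g ∧ ∀ c, IsPath C c → F.F c = (θ (c 0))⁻¹ * θ (c 1) := by
  refine ⟨fun p => g * F.F fun t : ℝ => x + t • (p - x), ?_, fun c hc => ?_⟩
  · simp only [sub_self, smul_zero, add_zero]
    rw [F.const (hS hx), mul_one]
  · have h0 : c 0 ∈ C := hc.2 ⟨le_rfl, zero_le_one⟩
    have h1 : c 1 ∈ C := hc.2 ⟨zero_le_one, le_rfl⟩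
    have s0 := box_seg hC hx h0
    have s1 := box_seg hC hx h1
    have he : (fun t : ℝ => x + t • (c 0 - x)) 1 = c 0 := by simp
    have h2 := F.cat_eq (c := fun t : ℝ => x + t • (c 0 - x)) (c' := c)
      ⟨s0.1, s0.2.mono_right hS⟩ ⟨hc.1, hc.2.mono_right hS⟩ he
    have h3 := F.conv hC (f := fun p => p) continuousOn_id (fun p hp => hS hp)
      (PathFun.isPath_cat s0 hc he) s1 (by simp [cat]) (by norm_num [cat])
    have h4 : F.F (cat (fun t : ℝ => x + t • (c 0 - x)) c) =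
      F.F fun t : ℝ => x + t • (c 1 - x) := h3
    beta_reduce
    rw [← h4, h2]
    group

theorem box_half {A B C : Set P3} {θ η : P3 → G}
    (hA : ∀ c, IsPath A c → F.F c = (θ (c 0))⁻¹ * θ (c 1))
    (hB : ∀ c, IsPath B c → F.F c = (η (c 0))⁻¹ * η (c 1))
    (hC : Convex ℝ C) (h1 : C ⊆ A) (h2 : C ⊆ B) {p q : P3} (hp : p ∈ C) (hq : q ∈ C) :
    θ q * (η q)⁻¹ = θ p * (η p)⁻¹ := by
  have s := box_seg hC hp hq
  have e1 := hA _ ⟨s.1, s.2.mono_right h1⟩
  have e2 := hB _ ⟨s.1, s.2.mono_right h2⟩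
  rw [e1] at e2
  simp only [zero_smul, add_zero, one_smul, add_sub_cancel] at e2
  calc θ q * (η q)⁻¹ = θ p * ((θ p)⁻¹ * θ q) * (η q)⁻¹ := by group
    _ = θ p * (η p)⁻¹ := by rw [e2]; group

theorem box_lin_xi : IsLinearMap ℝ xi :=
  ⟨fun p q => by simp only [xi, Prod.snd_add, Prod.fst_add]; ring,
    fun a p => by simp only [xi, Prod.smul_snd, Prod.smul_fst, smul_eq_mul]; ring⟩

theorem box_lin_up : IsLinearMap ℝ up :=
  ⟨fun p q => by simp only [up, Prod.snd_add, Prod.fst_add]; ring,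
    fun a p => by simp only [up, Prod.smul_snd, Prod.smul_fst, smul_eq_mul]; ring⟩

theorem box_pt_mem {j i : ℕ} {a b : ℝ} (ha : |a| < sg) (hb : |b| < sg) :
    pt (cL j + a) (rL i + b) 0 ∈ Xb j i := by
  refine ⟨?_, ?_, ?_⟩
  · rw [xi_pt]; simpa using ha
  · rw [up_pt]; simpa using hb
  · rw [y_pt]; simpa using sg_pos

theorem Triv.box (h : Triv F Fr Bk φ ψ W) {j i : ℕ} (hj : j < 20) (hi : i < 20) (hc : Crs j i) :
    W j i * (W (j + 1) i)⁻¹ = W j (i + 1) * (W (j + 1) (i + 1))⁻¹ ∧ ∃ θ : P3 → G,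
      (∀ c, IsPath (Xb j i) c → F.F c = (θ (c 0))⁻¹ * θ (c 1)) ∧
      (∀ p ∈ Xb j i ∩ Bk, θ p = W j (cy p) * ψ p) ∧
      ∀ p ∈ Xb j i ∩ Fr, θ p = W j (cy p) * (W (cx p) (cy p))⁻¹ * φ p := by
  have hs := sg_pos
  have hm : |-(sg / 2)| < sg := by rw [abs_neg, abs_of_pos (by linarith)]; linarith
  have hp : |sg / 2| < sg := by rw [abs_of_pos (by linarith)]; linarith
  have mLD := box_pt_mem (j := j) (i := i) hm hm
  have mLU := box_pt_mem (j := j) (i := i) hm hp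
  have mRD := box_pt_mem (j := j) (i := i) hp hm
  have mRU := box_pt_mem (j := j) (i := i) hp hp
  set LD := pt (cL j + -(sg / 2)) (rL i + -(sg / 2)) 0 with hLD
  set LU := pt (cL j + -(sg / 2)) (rL i + sg / 2) 0 with hLU
  set RD := pt (cL j + sg / 2) (rL i + -(sg / 2)) 0 with hRD
  set RU := pt (cL j + sg / 2) (rL i + sg / 2) 0 with hRU
  have x1 : xi LD < cL j := by rw [hLD, xi_pt]; linarith
  have x2 : xi LU < cL j := by rw [hLU, xi_pt]; linarith
  have x3 : cL j < xi RD := by rw [hRD, xi_pt]; linarith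
  have x4 : cL j < xi RU := by rw [hRU, xi_pt]; linarith
  have y1 : up LD < rL i := by rw [hLD, up_pt]; linarith
  have y2 : rL i < up LU := by rw [hLU, up_pt]; linarith
  have y3 : up RD < rL i := by rw [hRD, up_pt]; linarith
  have y4 : rL i < up RU := by rw [hRU, up_pt]; linarith
  have w1 := h.w LD ⟨(Xb_Fr hj hi hc mLD).2 x1.ne, (Xb_Bk hj hi hc mLD).2 y1.ne⟩
  have w2 := h.w LU ⟨(Xb_Fr hj hi hc mLU).2 x2.ne, (Xb_Bk hj hi hc mLU).2 y2.ne'⟩
  have w3 := h.w RD ⟨(Xb_Fr hj hi hc mRD).2 x3.ne', (Xb_Bk hj hi hc mRD).2 y3.ne⟩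
  have w4 := h.w RU ⟨(Xb_Fr hj hi hc mRU).2 x4.ne', (Xb_Bk hj hi hc mRU).2 y4.ne'⟩
  rw [(Xb_cx hj mLD).1 x1.le, (Xb_cy hi mLD).1 y1.le] at w1
  rw [(Xb_cx hj mLU).1 x2.le, (Xb_cy hi mLU).2 y2] at w2
  rw [(Xb_cx hj mRD).2 x3, (Xb_cy hi mRD).1 y3.le] at w3
  rw [(Xb_cx hj mRU).2 x4, (Xb_cy hi mRU).2 y4] at w4
  obtain ⟨θ, h0, hθ⟩ := box_pot (F := F) (convex_Xb j i) (Xb_sub hj hi hc) mLD (φ LD)
  have hL : ∀ p ∈ Xb j i, xi p < cL j → θ p * (φ p)⁻¹ = θ LD * (φ LD)⁻¹ := fun p hp1 hp2 =>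
    box_half hθ h.fr ((convex_Xb j i).inter (convex_halfSpace_lt box_lin_xi (cL j)))
      inter_subset_left (fun q hq => (Xb_Fr hj hi hc hq.1).2 (ne_of_lt hq.2)) ⟨mLD, x1⟩ ⟨hp1, hp2⟩
  have hR : ∀ p ∈ Xb j i, cL j < xi p → θ p * (φ p)⁻¹ = θ RD * (φ RD)⁻¹ := fun p hp1 hp2 =>
    box_half hθ h.fr ((convex_Xb j i).inter (convex_halfSpace_gt box_lin_xi (cL j)))
      inter_subset_left (fun q hq => (Xb_Fr hj hi hc hq.1).2 (ne_of_gt hq.2)) ⟨mRD, x3⟩ ⟨hp1, hp2⟩
  have hD : ∀ p ∈ Xb j i, up p < rL i → θ p * (ψ p)⁻¹ = θ LD * (ψ LD)⁻¹ := fun p hp1 hp2 =>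
    box_half hθ h.bk ((convex_Xb j i).inter (convex_halfSpace_lt box_lin_up (rL i)))
      inter_subset_left (fun q hq => (Xb_Bk hj hi hc hq.1).2 (ne_of_lt hq.2)) ⟨mLD, y1⟩ ⟨hp1, hp2⟩
  have hU : ∀ p ∈ Xb j i, rL i < up p → θ p * (ψ p)⁻¹ = θ LU * (ψ LU)⁻¹ := fun p hp1 hp2 =>
    box_half hθ h.bk ((convex_Xb j i).inter (convex_halfSpace_gt box_lin_up (rL i)))
      inter_subset_left (fun q hq => (Xb_Bk hj hi hc hq.1).2 (ne_of_gt hq.2)) ⟨mLU, y2⟩ ⟨hp1, hp2⟩
  have hL' : ∀ p ∈ Xb j i, xi p < cL j → θ p = φ p := fun p hp1 hp2 => by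
    have := hL p hp1 hp2
    rw [h0, mul_inv_cancel] at this
    exact mul_inv_eq_one.1 this
  have hD' : ∀ p ∈ Xb j i, up p < rL i → θ p = W j i * ψ p := fun p hp1 hp2 => by
    have := hD p hp1 hp2
    rw [h0, w1, mul_inv_cancel_right] at this
    exact mul_inv_eq_iff_eq_mul.1 this
  have hU' : ∀ p ∈ Xb j i, rL i < up p → θ p = W j (i + 1) * ψ p := fun p hp1 hp2 => by
    have := hU p hp1 hp2
    rw [hL' LU mLU x2, w2, mul_inv_cancel_right] at this
    exact mul_inv_eq_iff_eq_mul.1 this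
  have hR' : ∀ p ∈ Xb j i, cL j < xi p → θ p * (φ p)⁻¹ = W j i * (W (j + 1) i)⁻¹ :=
    fun p hp1 hp2 => by
      rw [hR p hp1 hp2, hD' RD mRD y3, w3]
      group
  have hrel : W j i * (W (j + 1) i)⁻¹ = W j (i + 1) * (W (j + 1) (i + 1))⁻¹ := by
    rw [← hR' RU mRU x4, hU' RU mRU y4, w4]
    group
  refine ⟨hrel, θ, hθ, fun p hp => ?_, fun p hp => ?_⟩
  · rcases ((Xb_Bk hj hi hc hp.1).1 hp.2).lt_or_gt with h1 | h1
    · rw [(Xb_cy hi hp.1).1 h1.le, hD' p hp.1 h1]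
    · rw [(Xb_cy hi hp.1).2 h1, hU' p hp.1 h1]
  · rcases ((Xb_Fr hj hi hc hp.1).1 hp.2).lt_or_gt with h1 | h1
    · rw [(Xb_cx hj hp.1).1 h1.le, hL' p hp.1 h1]
      group
    · rw [(Xb_cx hj hp.1).2 h1]
      have h2 := mul_inv_eq_iff_eq_mul.1 (hR' p hp.1 h1)
      rcases le_or_gt (up p) (rL i) with h3 | h3
      · rw [(Xb_cy hi hp.1).1 h3, h2]
      · rw [(Xb_cy hi hp.1).2 h3, h2, hrel]

theorem box_mid {L : ℕ → ℝ} (hL : ∀ j k, j < k → k ≤ 20 → L j + 2 * sg ≤ L k) {i k : ℕ}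
    (hi : i ≤ 20) (hk : k ≤ 20) : (L k ≤ L i - sg → k < i) ∧ (L i - sg ≤ L k → i ≤ k) := by
  have hs := sg_pos
  constructor
  · intro h
    by_contra h1
    rcases (not_lt.1 h1).eq_or_lt with h2 | h2
    · rw [h2] at h; linarith
    · linarith [hL _ _ h2 hk]
  · intro h
    by_contra h1
    linarith [hL _ _ (not_le.1 h1) hi]

theorem box_near {L : ℕ → ℝ} (hL : ∀ j k, j < k → k ≤ 20 → L j + 2 * sg ≤ L k) {j k : ℕ}
    (hj : j ≤ 20) (hk : k ≤ 20) (h1 : L j - sg ≤ L k) (h2 : L k ≤ L j + sg) : k = j := by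
  have hs := sg_pos
  rcases lt_trichotomy k j with h | h | h
  · linarith [hL _ _ h hj]
  · exact h
  · linarith [hL _ _ h hk]

theorem box_idx {L : ℕ → ℝ} (hL : ∀ j k, j < k → k ≤ 20 → L j + 2 * sg ≤ L k) {j : ℕ}
    (hj : j ≤ 20) : idx L (L j - sg) = j :=
  idx_eq hL hj (fun k hk => by linarith [hL k j (by omega) hj, sg_pos])
    (fun _ => by linarith [sg_pos])

theorem box_idx' {L : ℕ → ℝ} (hL : ∀ j k, j < k → k ≤ 20 → L j + 2 * sg ≤ L k) {j : ℕ}
    (hj : j < 20) : idx L (L j + sg) = j + 1 :=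
  idx_eq hL hj (fun k hk => by
      obtain rfl : k = j := by omega
      linarith [sg_pos])
    (fun _ => by linarith [hL j (j + 1) (by omega) hj, sg_pos])

theorem Triv.box_eq (h : Triv F Fr Bk φ ψ W) {C : Set P3} (hC : Convex ℝ C) (hS : C ⊆ Fr ∩ Bk)
    {p q : P3} (hp : p ∈ C) (hq : q ∈ C) : W (cx p) (cy p) = W (cx q) (cy q) := by
  have h1 := box_half h.fr h.bk hC (fun x hx => (hS hx).1) (fun x hx => (hS hx).2) hp hq
  rw [h.w p (hS hp), h.w q (hS hq), mul_inv_cancel_right, mul_inv_cancel_right] at h1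
  exact h1.symm

theorem Triv.rels (h : Triv F Fr Bk φ ψ W) : Rels W := by
  have hs := sg_pos
  have gc : ∀ j k, j < k → k ≤ 20 → cL j + 2 * sg ≤ cL k := fun _ _ => cL_gap
  have gr : ∀ j k, j < k → k ≤ 20 → rL j + 2 * sg ≤ rL k := fun _ _ => rL_gap
  refine ⟨fun j hj i hi hn => ?_, fun i hi j hj hn => ?_, fun j hj i hi hc => (h.box hj hi hc).1⟩
  · have hC : Convex ℝ (({p | cL j - sg ≤ xi p} ∩ {p | xi p ≤ cL j + sg}) ∩
        {p | up p = rL i - sg}) :=
      ((convex_halfSpace_ge box_lin_xi _).inter (convex_halfSpace_le box_lin_xi _)).inter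
        (convex_hyperplane box_lin_up _)
    have h1 := h.box_eq hC (p := pt (cL j - sg) (rL i - sg) 0) (q := pt (cL j + sg) (rL i - sg) 0)
      ?_ ⟨⟨by simp [xi_pt], by simp only [mem_ofPred_eq, xi_pt]; linarith⟩, by simp [up_pt]⟩
      ⟨⟨by simp only [mem_ofPred_eq, xi_pt]; linarith, by simp [xi_pt]⟩, by simp [up_pt]⟩
    · simp only [cx, cy, xi_pt, up_pt] at h1
      rwa [box_idx gc hj.le, box_idx gr hi, box_idx' gc hj] at h1
    · rintro p ⟨⟨h1, h2⟩, h3⟩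
      simp only [mem_ofPred_eq] at h1 h2 h3
      refine mem_Fr_Bk.2 ⟨?_, ?_⟩
      · rintro ⟨k, hk, e1, e2, e3⟩
        rw [e1] at h1 h2
        obtain rfl := box_near gc hj.le hk.le h1 h2
        obtain ⟨a1, a2, -⟩ := ends_lt k hk
        rw [h3] at e2 e3
        exact hn ⟨(box_mid gr hi (by omega)).1 e2, (box_mid gr hi a2.le).2 e3⟩
      · rintro ⟨k, hk, e1, -⟩
        rw [h3] at e1
        have a1 := (box_mid gr hi hk.le).1 e1.ge
        have a2 := (box_mid gr hi hk.le).2 e1.le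
        omega
  · have hC : Convex ℝ (({p | rL i - sg ≤ up p} ∩ {p | up p ≤ rL i + sg}) ∩
        {p | xi p = cL j - sg}) :=
      ((convex_halfSpace_ge box_lin_up _).inter (convex_halfSpace_le box_lin_up _)).inter
        (convex_hyperplane box_lin_xi _)
    have h1 := h.box_eq hC (p := pt (cL j - sg) (rL i - sg) 0) (q := pt (cL j - sg) (rL i + sg) 0)
      ?_ ⟨⟨by simp [up_pt], by simp only [mem_ofPred_eq, up_pt]; linarith⟩, by simp [xi_pt]⟩
      ⟨⟨by simp only [mem_ofPred_eq, up_pt]; linarith, by simp [up_pt]⟩, by simp [xi_pt]⟩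
    · simp only [cx, cy, xi_pt, up_pt] at h1
      rwa [box_idx gc hj, box_idx gr hi.le, box_idx' gr hi] at h1
    · rintro p ⟨⟨h1, h2⟩, h3⟩
      simp only [mem_ofPred_eq] at h1 h2 h3
      refine mem_Fr_Bk.2 ⟨?_, ?_⟩
      · rintro ⟨k, hk, e1, -⟩
        rw [h3] at e1
        have a1 := (box_mid gc hj hk.le).1 e1.ge
        have a2 := (box_mid gc hj hk.le).2 e1.le
        omega
      · rintro ⟨k, hk, e1, e2, e3⟩
        rw [e1] at h1 h2
        obtain rfl := box_near gr hi.le hk.le h1 h2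
        obtain ⟨-, -, a1, a2⟩ := ends_lt k hk
        rw [h3] at e2 e3
        exact hn ⟨(box_mid gc hj (by omega)).1 e2, (box_mid gc hj a2.le).2 e3⟩

end DS

end Pool.Agent.Lib.MP_4d7d0a_gt
end

-- part Pool.Agent.Lib.MP_4d7d0a_gt.DST3
section

/-! The Dehn generators generate. -/

set_option autoImplicit false

open Set Filter Topology

namespace Pool.Agent.Lib.MP_4d7d0a_gt

namespace DS

theorem t3_mem {G : Type} [Group G] (W : ℕ → ℕ → G) {j i j' i' : ℕ} (hj : j ≤ 20) (hi : i ≤ 20)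
    (hj' : j' ≤ 20) (hi' : i' ≤ 20) : W j i * (W j' i')⁻¹ ∈ Subgroup.closure (gens W) := by
  have h1 : W j i * (W 0 0)⁻¹ ∈ Subgroup.closure (gens W) :=
    Subgroup.subset_closure ⟨j, hj, i, hi, rfl⟩
  have h2 : W j' i' * (W 0 0)⁻¹ ∈ Subgroup.closure (gens W) :=
    Subgroup.subset_closure ⟨j', hj', i', hi', rfl⟩
  have := Subgroup.mul_mem _ h1 (Subgroup.inv_mem _ h2)
  simpa [mul_assoc] using this

theorem Triv.gen {G : Type} [Group G] {F : PathFun Qᶜ G} {φ ψ : P3 → G} {W : ℕ → ℕ → G}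
    (h : Triv F Fr Bk φ ψ W) : ∃ g : P3 → G, ∀ c, IsPath Qᶜ c →
      (g (c 0))⁻¹ * F.F c * g (c 1) ∈ Subgroup.closure (gens W) := by
  classical
  have z : (0 : ℝ) ∈ Icc (0 : ℝ) 1 := ⟨le_rfl, zero_le_one⟩
  have o : (1 : ℝ) ∈ Icc (0 : ℝ) 1 := ⟨zero_le_one, le_rfl⟩
  choose θ hθ using fun (j i : ℕ) (a : j < 20 ∧ i < 20 ∧ Crs j i) => (h.box a.1 a.2.1 a.2.2).2
  have hg : ∀ p : P3, ∃ g : G, (p ∈ Fr → φ p * g ∈ Subgroup.closure (gens W)) ∧
      (p ∈ Bk → W 0 0 * ψ p * g ∈ Subgroup.closure (gens W)) ∧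
      ∀ j i a, p ∈ Xb j i → θ j i a p * g ∈ Subgroup.closure (gens W) := by
    intro p
    by_cases h1 : p ∈ Fr
    · refine ⟨(φ p)⁻¹, fun _ => by simp, fun h2 => ?_, fun j i a h2 => ?_⟩
      · rw [h.w p ⟨h1, h2⟩]
        simpa [mul_assoc] using t3_mem W (Nat.zero_le _) (Nat.zero_le _) (cx_le p) (cy_le p)
      · rw [(hθ j i a).2.2 p ⟨h2, h1⟩]
        simpa [mul_assoc] using t3_mem W a.1.le (cy_le p) (cx_le p) (cy_le p)
    by_cases h2 : p ∈ Bk
    · refine ⟨(W 0 0 * ψ p)⁻¹, fun k => absurd k h1, fun _ => by simp, fun j i a h3 => ?_⟩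
      rw [(hθ j i a).2.1 p ⟨h3, h2⟩]
      simpa [mul_assoc] using t3_mem W a.1.le (cy_le p) (Nat.zero_le _) (Nat.zero_le _)
    by_cases h3 : ∃ j i, (j < 20 ∧ i < 20 ∧ Crs j i) ∧ p ∈ Xb j i
    · obtain ⟨j, i, a, h3⟩ := h3
      refine ⟨(θ j i a p)⁻¹, fun k => absurd k h1, fun k => absurd k h2, fun j' i' a' h4 => ?_⟩
      obtain ⟨rfl, rfl⟩ := Xb_disj a.1 a.2.1 a'.1 a'.2.1 h3 h4
      simp
    · exact ⟨1, fun k => absurd k h1, fun k => absurd k h2,
        fun j i a h4 => absurd ⟨j, i, a, h4⟩ h3⟩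
  choose g g1 g2 g3 using hg
  have key : ∀ {a b u v x : G}, x = u⁻¹ * v → u * a ∈ Subgroup.closure (gens W) →
      v * b ∈ Subgroup.closure (gens W) → a⁻¹ * x * b ∈ Subgroup.closure (gens W) := by
    intro a b u v x hx h1 h2
    have := Subgroup.mul_mem _ (Subgroup.inv_mem _ h1) h2
    rw [hx]
    simpa [mul_assoc] using this
  refine ⟨g, fun c hc => F.gen _ g (fun x hx => ?_) hc⟩
  rcases cover hx with h1 | h1 | ⟨j, hj, i, hi, hc, h1⟩
  · exact ⟨Fr, isOpen_Fr.mem_nhds h1, fun d hd =>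
      key (h.fr d ⟨hd.1, hd.2.mono_right inter_subset_right⟩) (g1 _ (hd.2 z).2) (g1 _ (hd.2 o).2)⟩
  · refine ⟨Bk, isOpen_Bk.mem_nhds h1, fun d hd =>
      key ?_ (g2 _ (hd.2 z).2) (g2 _ (hd.2 o).2)⟩
    rw [h.bk d ⟨hd.1, hd.2.mono_right inter_subset_right⟩]
    group
  · exact ⟨Xb j i, (isOpen_Xb j i).mem_nhds h1, fun d hd =>
      key ((hθ j i ⟨hj, hi, hc⟩).1 d ⟨hd.1, hd.2.mono_right inter_subset_right⟩)
        (g3 _ j i _ (hd.2 z).2) (g3 _ j i _ (hd.2 o).2)⟩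

end DS

end Pool.Agent.Lib.MP_4d7d0a_gt
end

-- part Pool.Agent.Lib.MP_4d7d0a_gt.DST1
section

/-! Every functor on the complement of the polygon has potentials. -/

set_option autoImplicit false

open Set Filter Topology

namespace Pool.Agent.Lib.MP_4d7d0a_gt

namespace DS

/-- a potential is pulled back along a deformation -/
theorem dst1_push {G : Type} [Group G] {S A B : Set P3} (F : PathFun S G) {H : ℝ → P3 → P3}
    (hH : Continuous fun a : ℝ × P3 => H a.1 a.2) (h0 : ∀ p, H 0 p = p)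
    (hS : ∀ s ∈ Icc (0 : ℝ) 1, ∀ p ∈ A, H s p ∈ S) (h1 : ∀ p ∈ A, H 1 p ∈ B)
    (h : ∃ φ : P3 → G, ∀ c, IsPath B c → F.F c = (φ (c 0))⁻¹ * φ (c 1)) :
    ∃ φ : P3 → G, ∀ c, IsPath A c → F.F c = (φ (c 0))⁻¹ * φ (c 1) := by
  obtain ⟨φ, hφ⟩ := h
  refine ⟨fun p => φ (H 1 p) * (F.F fun s => H s p)⁻¹, fun c hc => ?_⟩
  have h2 := F.square (H := fun s t => H s (c t))
    (hH.comp_continuousOn (f := fun a : ℝ × ℝ => (a.1, c a.2)) (continuousOn_fst.prodMk
      (hc.1.comp continuousOn_snd fun _ ha => ha.2))) fun s hs t ht => hS s hs _ (hc.2 ht)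
  have h3 := hφ (fun t => H 1 (c t)) ⟨hH.comp_continuousOn (f := fun t => ((1 : ℝ), c t))
    (continuousOn_const.prodMk hc.1), fun t ht => h1 _ (hc.2 ht)⟩
  simp only [h0, h3] at h2
  rw [eq_mul_inv_of_mul_eq h2]
  group

theorem dst1_conv {G : Type} [Group G] {S A : Set P3} (F : PathFun S G) (hA : Convex ℝ A)
    (hS : A ⊆ S) {b : P3} (hb : b ∈ A) :
    ∃ φ : P3 → G, ∀ c, IsPath A c → F.F c = (φ (c 0))⁻¹ * φ (c 1) := by
  refine dst1_push F (B := {b}) (H := fun s p => p + s • (b - p)) (by fun_prop) (by simp)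
    (fun s hs p hp => hS (hA.add_smul_sub_mem hp hb hs)) (by simp) ⟨fun _ => 1, fun c hc => ?_⟩
  rw [F.congr (c := fun _ => b) ⟨continuousOn_const, fun _ _ => hS hb⟩ fun t ht => hc.2 ht,
    F.const (hS hb), inv_mul_cancel]

theorem dst1_fr {G : Type} [Group G] (F : PathFun Qᶜ G) :
    ∃ φ : P3 → G, ∀ c, IsPath Fr c → F.F c = (φ (c 0))⁻¹ * φ (c 1) := by
  have := sg_pos
  refine dst1_push F (B := {p | p.2.1 ≤ -2 * sg})
    (H := fun s p => (p.1, p.2.1 + s * (min p.2.1 (-2 * sg) - p.2.1), p.2.2)) (by fun_prop)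
    (by simp) (fun s hs p hp => Fr_sub ?_) (fun p _ => by simp)
    (dst1_conv F (convex_halfSpace_le ⟨fun _ _ => rfl, fun _ _ => rfl⟩ _)
      (fun p hp => Fr_sub ⟨fun _ => by linarith [hp.out], fun _ => by linarith [hp.out]⟩)
      (b := (0, -2 * sg, 0)) (le_refl (-2 * sg)))
  have h := add_le_of_nonpos_right (a := p.2.1)
    (mul_nonpos_of_nonneg_of_nonpos hs.1 (sub_nonpos.2 (min_le_left p.2.1 (-2 * sg))))
  exact ⟨fun k => h.trans_lt (hp.1 k), fun k => h.trans_lt (hp.2 k)⟩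

theorem dst1_bk {G : Type} [Group G] (F : PathFun Qᶜ G) :
    ∃ φ : P3 → G, ∀ c, IsPath Bk c → F.F c = (φ (c 0))⁻¹ * φ (c 1) := by
  have := sg_pos
  refine dst1_push F (B := {p | 2 * sg ≤ p.2.1})
    (H := fun s p => (p.1, p.2.1 + s * (max p.2.1 (2 * sg) - p.2.1), p.2.2)) (by fun_prop)
    (by simp) (fun s hs p hp => Bk_sub ?_) (fun p _ => by simp)
    (dst1_conv F (convex_halfSpace_ge ⟨fun _ _ => rfl, fun _ _ => rfl⟩ _)
      (fun p hp => Bk_sub ⟨fun _ => by linarith [hp.out], fun _ => by linarith [hp.out]⟩)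
      (b := (0, 2 * sg, 0)) (le_refl (2 * sg)))
  have h := le_add_of_nonneg_right (a := p.2.1)
    (mul_nonneg hs.1 (sub_nonneg.2 (le_max_left p.2.1 (2 * sg))))
  exact ⟨fun k => (hp.1 k).trans_le h, fun k => (hp.2 k).trans_le h⟩

theorem dst1_lev {L : ℕ → ℝ} (hL : ∀ j k, j < k → k ≤ 20 → L j + 2 * sg ≤ L k) (v : ℝ) {s : ℝ}
    (h0 : 0 < s) (h1 : s ≤ 1) {k : ℕ} (hk : k < 20) : v + s * (L (idx L v) - sg - v) ≠ L k := by
  have := sg_pos
  have h2 := lt_idx hL (v := v) hk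
  rcases lt_or_ge k (idx L v) with h | h
  · have h3 := hL _ _ h (idx_le L v)
    have h4 := h2.1 h
    apply ne_of_gt
    nlinarith
  · have h3 : v ≤ L k := not_lt.1 fun h3 => absurd (h2.2 h3) (not_lt.2 h)
    have h4 : L (idx L v) ≤ L k := by
      rcases h.eq_or_lt with h4 | h4
      · rw [h4]
      · linarith [hL _ _ h4 hk.le]
    apply ne_of_lt
    nlinarith

theorem triv_of_fun {G : Type} [Group G] (F : PathFun Qᶜ G) :
    ∃ (φ ψ : P3 → G) (W : ℕ → ℕ → G), Triv F Fr Bk φ ψ W := by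
  obtain ⟨φ, hφ⟩ := dst1_fr F
  obtain ⟨ψ, hψ⟩ := dst1_bk F
  refine ⟨φ, ψ, fun j i => φ (pt (cL j - sg) (rL i - sg) 0) * (ψ (pt (cL j - sg) (rL i - sg) 0))⁻¹,
    hφ, hψ, fun p hp => ?_⟩
  let c : ℝ → P3 := fun s => pt (xi p + s * (cL (cx p) - sg - xi p))
    (up p + s * (rL (cy p) - sg - up p)) (p.2.1 + s * (0 - p.2.1))
  have c0 : c 0 = p := by simp only [c, zero_mul, add_zero, pt_eq]
  have c1 : c 1 = pt (cL (cx p) - sg) (rL (cy p) - sg) 0 := by
    simp only [c, one_mul, add_sub_cancel]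
  have hc : ContinuousOn c (Icc 0 1) := by
    simp only [c, pt]
    fun_prop
  have hm : MapsTo c (Icc 0 1) (Fr ∩ Bk) := fun s hs => by
    rcases hs.1.eq_or_lt with h | h
    · rwa [← h, c0]
    · refine mem_Fr_Bk.2 ⟨?_, ?_⟩
      · rintro ⟨k, hk, h1, -⟩
        exact dst1_lev (fun _ _ => cL_gap) _ h hs.2 hk ((xi_pt _ _ _).symm.trans h1)
      · rintro ⟨k, hk, h1, -⟩
        exact dst1_lev (fun _ _ => rL_gap) _ h hs.2 hk ((up_pt _ _ _).symm.trans h1)
  have h := (hφ c ⟨hc, fun s hs => (hm hs).1⟩).symm.trans (hψ c ⟨hc, fun s hs => (hm hs).2⟩)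
  rw [c0, c1, inv_mul_eq_iff_eq_mul] at h
  rw [h]
  group

end DS

end Pool.Agent.Lib.MP_4d7d0a_gt
end

-- part Pool.Agent.Lib.MP_4d7d0a_gt.DST2
section

/-! A solution of the relations defines a functor. -/

set_option autoImplicit false

open Set Filter Topology

namespace Pool.Agent.Lib.MP_4d7d0a_gt

namespace DS

theorem dst2_agree {G : Type} [Group G] {T : Set P3} {u v : P3 → G}
    (hf : ∀ p ∈ T, ∀ᶠ q in 𝓝 p, q ∈ T → v q * (u q)⁻¹ = v p * (u p)⁻¹) {c : ℝ → P3}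
    (hc : IsPath T c) : (u (c 0))⁻¹ * u (c 1) = (v (c 0))⁻¹ * v (c 1) := by
  have h : v (c 0) * (u (c 0))⁻¹ = v (c 1) * (u (c 1))⁻¹ := by
    refine isPreconnected_Icc.induction₂'
      (fun a b => v (c a) * (u (c a))⁻¹ = v (c b) * (u (c b))⁻¹) (fun x hx => ?_)
      (fun _ _ _ _ _ _ => Eq.trans) ⟨le_rfl, zero_le_one⟩ ⟨zero_le_one, le_rfl⟩
    filter_upwards [(hc.1 x hx).eventually (hf _ (hc.2 hx)), self_mem_nhdsWithin] with y h1 h2
    exact ⟨(h1 (hc.2 h2)).symm, h1 (hc.2 h2)⟩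
  rw [eq_inv_mul_iff_mul_eq, ← mul_assoc, h, inv_mul_cancel_right]

theorem dst2_near {g : P3 → ℝ} (hg : Continuous g) (L : ℕ → ℝ) (p : P3) :
    ∀ᶠ q in 𝓝 p, ∀ k < 20, (L k < g p → L k < g q) ∧ (g p < L k → g q < L k) := by
  refine (eventually_all_finite (finite_lt_nat 20)).2 fun k _ => Eventually.and ?_ ?_
  · exact eventually_imp_distrib_left.2 fun h => hg.continuousAt.eventually (lt_mem_nhds h)
  · exact eventually_imp_distrib_left.2 fun h => hg.continuousAt.eventually (gt_mem_nhds h)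

theorem dst2_idx {L : ℕ → ℝ} (hL : ∀ j k, j < k → k ≤ 20 → L j + 2 * sg ≤ L k) {v w : ℝ}
    (h : ∀ k < 20, (L k < v → L k < w) ∧ (v < L k → w < L k)) :
    idx L w = idx L v ∨ (idx L v < 20 ∧ v = L (idx L v) ∧ idx L w = idx L v + 1) := by
  have a1 := idx_le L v
  have a2 := idx_le L w
  rcases lt_trichotomy (idx L w) (idx L v) with h1 | h1 | h1
  · exact absurd ((lt_idx hL (by omega)).2 ((h _ (by omega)).1 ((lt_idx hL (by omega)).1 h1)))
      (lt_irrefl _)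
  · exact Or.inl h1
  · have h2 : idx L v < 20 := by omega
    have h3 : v = L (idx L v) := le_antisymm
      (not_lt.1 fun a => lt_irrefl _ ((lt_idx hL h2).2 a))
      (not_lt.1 fun a => lt_asymm ((h _ h2).2 a) ((lt_idx hL h2).1 h1))
    refine Or.inr ⟨h2, h3, le_antisymm (not_lt.1 fun a => ?_) h1⟩
    have h4 := hL _ (idx L v + 1) (Nat.lt_succ_self _) h2
    exact lt_asymm ((lt_idx hL (by omega)).1 a)
      ((h _ (by omega)).2 (by linarith [sg_pos]))

theorem dst2_FB {G : Type} [Group G] {W : ℕ → ℕ → G} (h : Rels W) {p : P3} (hp : p ∈ Fr ∩ Bk) :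
    ∀ᶠ q in 𝓝 p, W (cx q) (cy q) = W (cx p) (cy p) := by
  obtain ⟨hC, hR⟩ := mem_Fr_Bk.1 hp
  filter_upwards [dst2_near continuous_xi cL p, dst2_near continuous_up rL p] with q h1 h2
  have e1 : W (cx q) (cy q) = W (cx p) (cy q) := by
    rcases dst2_idx (fun _ _ => cL_gap) h1 with a | ⟨a1, a2, a3⟩
    · exact congrArg (W · (cy q)) a
    · change cx q = cx p + 1 at a3
      change cx p < 20 at a1
      have b := ends_lt _ a1
      rw [a3]
      refine (h.col _ a1 _ (cy_le q) fun c => hC ⟨_, a1, a2, not_lt.1 fun d => ?_,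
        not_lt.1 fun d => ?_⟩).symm
      · exact lt_asymm ((h2 _ (by omega)).2 d) ((lt_cy (by omega)).1 c.1)
      · exact absurd ((lt_cy b.2.1).2 ((h2 _ b.2.1).1 d)) (not_lt.2 c.2)
  rw [e1]
  rcases dst2_idx (fun _ _ => rL_gap) h2 with a | ⟨a1, a2, a3⟩
  · exact congrArg (W (cx p)) a
  · change cy q = cy p + 1 at a3
    change cy p < 20 at a1
    have b := ends_lt _ a1
    rw [a3]
    refine (h.row _ a1 _ (cx_le p) fun c => hR ⟨_, a1, a2, not_lt.1 fun d => ?_,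
      not_lt.1 fun d => ?_⟩).symm
    · exact lt_asymm d ((lt_cx (by omega)).1 c.1)
    · exact absurd ((lt_cx b.2.2.2).2 d) (not_lt.2 c.2)

theorem dst2_XF {G : Type} [Group G] {W : ℕ → ℕ → G} (h : Rels W) {j i : ℕ} (hj : j < 20)
    (hi : i < 20) (hc : Crs j i) {p : P3} (hp : p ∈ Xb j i) (hp' : p ∈ Fr) :
    ∀ᶠ q in 𝓝 p, q ∈ Xb j i →
      W j (cy q) * (W (cx q) (cy q))⁻¹ = W j (cy p) * (W (cx p) (cy p))⁻¹ := by
  have e : ∀ q ∈ Xb j i, W j (cy q) * (W (j + 1) (cy q))⁻¹ = W j i * (W (j + 1) i)⁻¹ := by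
    intro q hq
    rcases le_or_gt (up q) (rL i) with a | a
    · rw [(Xb_cy hi hq).1 a]
    · rw [(Xb_cy hi hq).2 a, h.crs j hj i hi hc]
  filter_upwards [dst2_near continuous_xi cL p] with q h1 hq
  rcases ((Xb_Fr hj hi hc hp).1 hp').lt_or_gt with a | a
  · rw [(Xb_cx hj hp).1 a.le, (Xb_cx hj hq).1 ((h1 j hj).2 a).le, mul_inv_cancel, mul_inv_cancel]
  · rw [(Xb_cx hj hp).2 a, (Xb_cx hj hq).2 ((h1 j hj).1 a), e p hp, e q hq]

theorem dst2_XB {j i : ℕ} (hj : j < 20) (hi : i < 20) (hc : Crs j i) {p : P3} (hp : p ∈ Xb j i)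
    (hp' : p ∈ Bk) : ∀ᶠ q in 𝓝 p, q ∈ Xb j i → cy q = cy p := by
  filter_upwards [dst2_near continuous_up rL p] with q h1 hq
  rcases ((Xb_Bk hj hi hc hp).1 hp').lt_or_gt with a | a
  · rw [(Xb_cy hi hp).1 a.le, (Xb_cy hi hq).1 ((h1 i hi).2 a).le]
  · rw [(Xb_cy hi hp).2 a, (Xb_cy hi hq).2 ((h1 i hi).1 a)]

/-- the index set of the cover -/
abbrev Dst2I : Type := Option (Option {a : ℕ × ℕ // a.1 < 20 ∧ a.2 < 20 ∧ Crs a.1 a.2})

/-- the cover -/
def dst2U : Dst2I → Set P3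
  | none => Fr
  | some none => Bk
  | some (some a) => Xb a.1.1 a.1.2

/-- the potentials -/
noncomputable def dst2P {G : Type} [Group G] (W : ℕ → ℕ → G) : Dst2I → P3 → G
  | none => fun p => W (cx p) (cy p)
  | some none => fun _ => 1
  | some (some a) => fun p => W a.1.1 (cy p)

theorem fun_of_rels {G : Type} [Group G] {W : ℕ → ℕ → G} (h : Rels W) :
    ∃ (F : PathFun Qᶜ G) (φ ψ : P3 → G), Triv F Fr Bk φ ψ W := by
  choose F hF using fun a : Dst2I => pathFun_pot (Qᶜ ∩ dst2U a) (dst2P W a)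
  have k1 : ∀ c, IsPath (Fr ∩ Bk) c → (dst2P W (some none) (c 0))⁻¹ * dst2P W (some none) (c 1) =
      (dst2P W none (c 0))⁻¹ * dst2P W none (c 1) := fun c hc =>
    dst2_agree (fun p hp => (dst2_FB h hp).mono fun q a _ => congrArg (· * 1⁻¹) a) hc
  have k2 : ∀ a c, IsPath (Fr ∩ dst2U (some (some a))) c →
      (dst2P W none (c 0))⁻¹ * dst2P W none (c 1) =
        (dst2P W (some (some a)) (c 0))⁻¹ * dst2P W (some (some a)) (c 1) := fun a c hc =>
    dst2_agree (fun p hp => (dst2_XF h a.2.1 a.2.2.1 a.2.2.2 hp.2 hp.1).mono fun q b hq =>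
      b hq.2) hc
  have k3 : ∀ a c, IsPath (Bk ∩ dst2U (some (some a))) c →
      (dst2P W (some none) (c 0))⁻¹ * dst2P W (some none) (c 1) =
        (dst2P W (some (some a)) (c 0))⁻¹ * dst2P W (some (some a)) (c 1) := fun a c hc =>
    dst2_agree (fun p hp => (dst2_XB a.2.1 a.2.2.1 a.2.2.2 hp.2 hp.1).mono fun q b hq =>
      congrArg (W a.1.1 · * 1⁻¹) (b hq.2)) hc
  obtain ⟨F', hF'⟩ := pathFun_glue (S := Qᶜ) dst2U (by
      rintro (_ | _ | a)
      exacts [isOpen_Fr, isOpen_Bk, isOpen_Xb _ _]) (fun x hx => by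
      rcases cover hx with a | a | ⟨j, hj, i, hi, a, b⟩
      exacts [⟨none, a⟩, ⟨some none, a⟩, ⟨some (some ⟨(j, i), hj, hi, a⟩), b⟩]) F (by
      intro a b c hc
      have c1 : IsPath (dst2U a ∩ dst2U b) c := ⟨hc.1, fun t ht => ⟨(hc.2 ht).1.2, (hc.2 ht).2⟩⟩
      have c2 : IsPath (dst2U b ∩ dst2U a) c := inter_comm (dst2U a) _ ▸ c1
      rw [hF, hF]
      rcases a with _ | _ | a <;> rcases b with _ | _ | b
      · rfl
      · exact (k1 c c1).symm
      · exact k2 b c c1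
      · exact k1 c c2
      · rfl
      · exact k3 b c c1
      · exact (k2 a c c2).symm
      · exact (k3 a c c2).symm
      · have c3 := c1.2 ⟨le_rfl, zero_le_one⟩
        have c4 := Xb_disj a.2.1 a.2.2.1 b.2.1 b.2.2.1 c3.1 c3.2
        rw [show a = b from Subtype.ext (Prod.ext c4.1 c4.2)])
  refine ⟨F', dst2P W none, dst2P W (some none), fun c hc => ?_, fun c hc => ?_,
    fun p _ => (mul_one _).symm⟩
  · rw [hF' none c ⟨hc.1, fun t ht => ⟨Fr_sub (hc.2 ht), hc.2 ht⟩⟩, hF]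
  · rw [hF' (some none) c ⟨hc.1, fun t ht => ⟨Bk_sub (hc.2 ht), hc.2 ht⟩⟩, hF]

end DS

end Pool.Agent.Lib.MP_4d7d0a_gt
end
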