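import Pool.Agent.Lib.MP_4d7d0a_gt.DIso
import Pool.Agent.Lib.MP_4d7d0a_gt.DExt
import Pool.Agent.Lib.MP_4d7d0a_gt.DSDef
import Pool.Agent.Lib.MP_4d7d0a_gt.DSAlg
import Pool.Agent.Lib.MP_4d7d0a_gt.DST2
import Pool.Agent.Lib.MP_4d7d0a_gt.CableSnd
import Pool.Agent.Lib.MP_4d7d0a_gt.DSNab

-- part Pool.Agent.Lib.MP_4d7d0a_gt.Germ
section

/-! Uniqueness of standard neighbourhoods. -/

set_option autoImplicit false

open Set Filter Topology
open scoped ContDiff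

namespace Pool.Agent.Lib.MP_4d7d0a_gt

theorem germ_tube_of_norm {r : ℝ} {p : P3} (h : ‖p.2‖ < r / 2) : p ∈ tube r := by
  have h1 : |p.2.1| < r / 2 := (norm_fst_le p.2).trans_lt h
  have h2 : |p.2.2| < r / 2 := (norm_snd_le p.2).trans_lt h
  have h3 := abs_nonneg p.2.1
  have h4 := abs_nonneg p.2.2
  change p.2.1 ^ 2 + p.2.2 ^ 2 < r ^ 2
  rw [← sq_abs p.2.1, ← sq_abs p.2.2]
  nlinarith

theorem germ_norm_of_tube {r : ℝ} (hr : 0 ≤ r) {p : P3} (h : p ∈ tube r) : ‖p.2‖ < r := by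
  have h0 : p.2.1 ^ 2 + p.2.2 ^ 2 < r ^ 2 := h
  rw [Prod.norm_def, max_lt_iff]
  exact ⟨abs_lt_of_sq_lt_sq (by nlinarith [sq_nonneg p.2.2]) hr,
    abs_lt_of_sq_lt_sq (by nlinarith [sq_nonneg p.2.1]) hr⟩

theorem germ_per {e : P3 → P3} (h : ∀ p : P3, e (p.1 + 1, p.2) = ((e p).1 + 1, (e p).2))
    (k : ℤ) (p : P3) : e (p.1 + k, p.2) = ((e p).1 + k, (e p).2) := by
  have h1 : Function.Periodic (fun x : ℝ => e (x, p.2) - (x, 0)) 1 := fun x => by
    have := h (x, p.2)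
    dsimp only at this ⊢
    rw [this]
    ext <;> simp
  have h2 := h1.int_mul k p.1
  simp only [mul_one, Prod.mk.eta] at h2
  rw [sub_eq_iff_eq_add] at h2
  rw [h2]
  ext <;> simp
  ring

/-- integrals of smooth families are smooth -/
theorem germ_int {A W : Type} [NormedAddCommGroup A] [NormedSpace ℝ A] [NormedAddCommGroup W]
    [NormedSpace ℝ W] [CompleteSpace W] {G : A × ℝ → W} (hG : ContDiff ℝ ∞ G) :
    ContDiff ℝ ∞ fun a => ∫ t in (0 : ℝ)..1, G (a, t) := by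
  let γ0 : C(Icc (0 : ℝ) 1, A × ℝ) := ⟨fun t => (0, t), by fun_prop⟩
  let γ : A → C(Icc (0 : ℝ) 1, A × ℝ) := fun a =>
    ContinuousLinearMap.const ℝ (Icc (0 : ℝ) 1) ((a, 0) : A × ℝ) + γ0
  have hγ : ContDiff ℝ ∞ γ :=
    ((ContinuousLinearMap.const ℝ (Icc (0 : ℝ) 1) (M := A × ℝ)).contDiff.comp
      (contDiff_id.prodMk contDiff_const)).add contDiff_const
  have h1 : ContDiff ℝ ∞ fun g : C(Icc (0 : ℝ) 1, A × ℝ) =>
      (⟨G, hG.continuous⟩ : C(A × ℝ, W)).comp g :=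
    contDiff_infty.2 fun n => Flow.nem n W _ (contDiff_infty.1 hG n)
  have h2 := (ContinuousMap.evalCLM ℝ (⟨1, right_mem_Icc.2 zero_le_one⟩ : Icc (0 : ℝ) 1)
    (M := W)).contDiff.comp ((Flow.prim W).contDiff.comp (h1.comp hγ))
  refine (congrArg (ContDiff ℝ ∞) (funext fun a => ?_)).mp h2
  change Flow.prim W _ _ = _
  rw [Flow.prim_apply]
  refine intervalIntegral.integral_congr fun t ht => ?_
  rw [uIcc_of_le zero_le_one] at ht
  simp [γ, γ0, projIcc_of_mem _ ht]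

/-- a globally smooth map with the same germ -/
theorem germ_cut {f : P3 → P3} {r : ℝ} (hr : 0 < r)
    (hp : ∀ p : P3, f (p.1 + 1, p.2) = ((f p).1 + 1, (f p).2))
    (hc : ∀ p ∈ tube r, ContactAt f p) :
    ∃ g : P3 → P3, ContDiff ℝ ∞ g ∧ (∀ p : P3, g (p.1 + 1, p.2) = ((g p).1 + 1, (g p).2)) ∧
      ∀ p : P3, ‖p.2‖ < r / 4 → g p = f p ∧ ContactAt g p := by
  let χ : ContDiffBump (0 : ℝ × ℝ) := ⟨r / 4, r / 2, by positivity, by linarith⟩
  let ρ : P3 → P3 := fun p => (p.1, χ p.2 • p.2)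
  have h1 : ContDiff ℝ ∞ ρ :=
    contDiff_fst.prodMk ((χ.contDiff.comp contDiff_snd).smul contDiff_snd)
  have h2 : ∀ p, ρ p ∈ tube r := by
    intro p
    refine germ_tube_of_norm ?_
    change ‖χ p.2 • p.2‖ < r / 2
    by_cases h : ‖p.2‖ < r / 2
    · rw [norm_smul, Real.norm_of_nonneg χ.nonneg]
      exact (mul_le_of_le_one_left (norm_nonneg _) χ.le_one).trans_lt h
    · rw [χ.zero_of_le_dist (by simpa using not_lt.1 h), zero_smul, norm_zero]
      positivity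
  have h3 : ∀ p : P3, ‖p.2‖ < r / 4 → ρ p = p := by
    intro p h
    change (p.1, χ p.2 • p.2) = p
    rw [χ.one_of_mem_closedBall (by simpa using h.le), one_smul]
  refine ⟨fun p => f (ρ p), contDiff_iff_contDiffAt.2 fun p => (hc _ (h2 p)).1.comp p h1.contDiffAt,
    fun p => hp (ρ p), fun p h => ⟨congrArg f (h3 p h), ?_⟩⟩
  refine (hc p (h3 p h ▸ h2 p)).congr ?_
  filter_upwards [(isOpen_lt (continuous_snd.norm) continuous_const).mem_nhds h] with q hq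
  exact congrArg f (h3 q hq)

/-- the dilation of the normal directions -/
noncomputable def germD (s : ℝ) : P3 →L[ℝ] P3 :=
  (ContinuousLinearMap.fst ℝ ℝ (ℝ × ℝ)).prod (s • ContinuousLinearMap.snd ℝ ℝ (ℝ × ℝ))

theorem germD_apply (s : ℝ) (p : P3) : germD s p = (p.1, s • p.2) := rfl

theorem germD_al (s : ℝ) (p v : P3) : al (germD s p) (germD s v) = s * al p v := by
  simp only [al, germD_apply, Prod.smul_fst, Prod.smul_snd, smul_eq_mul]
  ring

theorem germ_slice {E : ℝ → P3 → P3} (hE : ContDiff ℝ ∞ fun a : ℝ × P3 => E a.1 a.2) (s : ℝ)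
    (p v : P3) : fderiv ℝ (E s) p v = fderiv ℝ (fun a : ℝ × P3 => E a.1 a.2) (s, p) (0, v) := by
  have h1 := (hE.differentiable (by simp) (s, p)).hasFDerivAt.comp p
    (hasFDerivAt_prodMk_right s p)
  exact congrArg (fun L : P3 →L[ℝ] P3 => L v) h1.fderiv

/-- conjugation by the dilations, smooth down to the linearisation -/
theorem germ_dil {g : P3 → P3} {ρ : ℝ} (hg : ContDiff ℝ ∞ g)
    (hp : ∀ p : P3, g (p.1 + 1, p.2) = ((g p).1 + 1, (g p).2))
    (hx : ∀ x : ℝ, g (x, 0) = (x, 0)) (hc : ∀ p : P3, ‖p.2‖ < ρ → ContactAt g p) :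
    ∃ E : ℝ → P3 → P3, ContDiff ℝ ∞ (fun a : ℝ × P3 => E a.1 a.2) ∧
      (∀ s, ∀ p : P3, E s (p.1 + 1, p.2) = ((E s p).1 + 1, (E s p).2)) ∧
      (∀ s, ∀ x : ℝ, E s (x, 0) = (x, 0)) ∧ (∀ p, E 1 p = g p) ∧ (∀ p, (E 0 p).1 = p.1) ∧
      ∀ s ∈ Icc (0 : ℝ) 1, ∀ p : P3, ‖p.2‖ < ρ → ContactAt (E s) p := by
  have hd : Differentiable ℝ g := hg.differentiable (by simp)
  have hD : ContDiff ℝ ∞ (fderiv ℝ g) := hg.fderiv_right (by simp)
  let h : ℝ × P3 → P3 := fun a =>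
    ∫ t in (0 : ℝ)..1, fderiv ℝ g (a.2.1, (t * a.1) • a.2.2) (0, a.2.2)
  have hh : ContDiff ℝ ∞ h :=
    germ_int (G := fun b : (ℝ × P3) × ℝ =>
      fderiv ℝ g (b.1.2.1, (b.2 * b.1.1) • b.1.2.2) (0, b.1.2.2))
      ((hD.comp (by fun_prop)).clm_apply (by fun_prop))
  have ftc : ∀ (s : ℝ) (p : P3), g (germD s p) = (p.1, 0) + s • h (s, p) := by
    intro s p
    have h1 : ∀ t : ℝ, HasDerivAt (fun t : ℝ => g (p.1, (t * s) • p.2))
        (s • fderiv ℝ g (p.1, (t * s) • p.2) (0, p.2)) t := by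
      intro t
      have h2 : HasDerivAt (fun t : ℝ => ((p.1, (t * s) • p.2) : P3)) (s • (0, p.2)) t := by
        have := (hasDerivAt_const t p.1).prodMk (((hasDerivAt_id t).mul_const s).smul_const p.2)
        simpa using this
      have := (hd _).hasFDerivAt.comp_hasDerivAt t h2
      rwa [map_smul] at this
    have h3 := intervalIntegral.integral_eq_sub_of_hasDerivAt (a := 0) (b := 1)
      (fun t _ => h1 t) (Continuous.intervalIntegrable (by
        have := hD.continuous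
        fun_prop) _ _)
    rw [intervalIntegral.integral_smul, one_mul, zero_mul, zero_smul, hx] at h3
    rw [germD_apply, h3]
    abel
  have hper : ∀ q : P3, fderiv ℝ g (q.1 + 1, q.2) = fderiv ℝ g q := by
    intro q
    have e : (fun p : P3 => g (p + (1, 0))) = fun p => g p + (1, 0) := funext fun p => by
      have := hp p
      have e1 : p + (1, 0) = (p.1 + 1, p.2) := by ext <;> simp
      rw [e1, this]
      ext <;> simp
    have e2 : ((q.1 + 1, q.2) : P3) = q + (1, 0) := by ext <;> simp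
    rw [e2, ← fderiv_comp_add_right, e, fderiv_add_const]
  let E : ℝ → P3 → P3 := fun s p => (p.1 + s * (h (s, p)).1, (h (s, p)).2)
  have hE : ContDiff ℝ ∞ (fun a : ℝ × P3 => E a.1 a.2) :=
    ((contDiff_fst.comp contDiff_snd).add (contDiff_fst.mul (contDiff_fst.comp hh))).prodMk
      (contDiff_snd.comp hh)
  have hEs : ∀ s, ContDiff ℝ ∞ (E s) := fun s => hE.comp (contDiff_const.prodMk contDiff_id)
  have conj : ∀ (s : ℝ) (p : P3), germD s (E s p) = g (germD s p) := by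
    intro s p
    rw [ftc, germD_apply]
    ext <;> simp [E]
  let c : P3 → ℝ := fun q => al (g q) (fderiv ℝ g q (0, 0, 1))
  have cc : Continuous c := by
    have := hD.continuous
    have := hg.continuous
    unfold c al
    fun_prop
  have c1 : ∀ q : P3, ‖q.2‖ < ρ → 0 < c q ∧ ∀ v, al (g q) (fderiv ℝ g q v) = c q * al q v := by
    intro q hq
    obtain ⟨-, c', h1, h2⟩ := hc q hq
    have e : c q = c' := by
      have := h2 (0, 0, 1)
      simpa [al, c] using this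
    rw [e]
    exact ⟨h1, h2⟩
  have small : ∀ s ∈ Icc (0 : ℝ) 1, ∀ p : P3, ‖p.2‖ < ρ → ‖(germD s p).2‖ < ρ := by
    intro s hs p h1
    rw [germD_apply, norm_smul, Real.norm_of_nonneg hs.1]
    exact (mul_le_of_le_one_left (norm_nonneg _) hs.2).trans_lt h1
  have pos : ∀ s ∈ Ioc (0 : ℝ) 1, ∀ p : P3, ‖p.2‖ < ρ → ∀ v,
      al (E s p) (fderiv ℝ (E s) p v) = c (germD s p) * al p v := by
    intro s hs p h1 v
    have h2 := ((germD s).hasFDerivAt.comp p ((hEs s).differentiable (by simp) p).hasFDerivAt)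
    have h3 := (hd (germD s p)).hasFDerivAt.comp p (germD s).hasFDerivAt
    have e : (germD s) ∘ E s = g ∘ germD s := funext (conj s)
    rw [e] at h2
    have h4 : germD s (fderiv ℝ (E s) p v) = fderiv ℝ g (germD s p) (germD s v) :=
      congrArg (fun L : P3 →L[ℝ] P3 => L v) (h2.unique h3)
    have h5 := (c1 _ (small s ⟨hs.1.le, hs.2⟩ p h1)).2 (germD s v)
    rw [← h4, ← conj, germD_al, germD_al] at h5
    refine mul_left_cancel₀ hs.1.ne' (h5.trans ?_)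
    ring
  refine ⟨E, hE, fun s p => ?_, fun s x => ?_, fun p => ?_, fun p => by simp [E],
    fun s hs p h1 => ⟨(hEs s).contDiffAt, c (germD s p), (c1 _ (small s hs p h1)).1, fun v => ?_⟩⟩
  · have e : h (s, (p.1 + 1, p.2)) = h (s, p) :=
      intervalIntegral.integral_congr fun t _ =>
        congrArg (fun L : P3 →L[ℝ] P3 => L (0, p.2)) (hper (p.1, (t * s) • p.2))
    simp only [E, e]
    rw [add_right_comm]
  · have e : h (s, (x, 0)) = 0 := by
      simp [h, show ((0 : ℝ), (0 : ℝ × ℝ)) = (0 : P3) from rfl]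
    simp [E, e]
  · have := conj 1 p
    simpa [germD_apply] using this
  · have k1 : Continuous fun s : ℝ => al (E s p) (fderiv ℝ (E s) p v) := by
      simp only [germ_slice hE]
      have i1 := (hE.fderiv_right (m := ∞) (by simp)).continuous
      have i2 : Continuous fun s : ℝ => E s p :=
        hE.continuous.comp (continuous_id.prodMk continuous_const)
      unfold al
      fun_prop
    have k2 : Continuous fun s : ℝ => c (germD s p) * al p v := by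
      simp only [germD_apply]
      fun_prop
    rw [← closure_Ioc zero_ne_one] at hs
    exact closure_minimal (t := {s | al (E s p) (fderiv ℝ (E s) p v) = c (germD s p) * al p v})
      (fun s hs => pos s hs p h1 v) (isClosed_eq k1 k2) hs

/-- the segment from the identity to a contact map over the `x`-axis -/
theorem germ_lin {g : P3 → P3} {p : P3} (h1 : ∀ q, (g q).1 = q.1) (hc : ContactAt g p) {s : ℝ}
    (hs : s ∈ Icc (0 : ℝ) 1) : ContactAt (fun q => (1 - s) • q + s • g q) p := by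
  obtain ⟨h2, c, c0, h3⟩ := hc
  have h4 := (h2.differentiableAt (by simp)).hasFDerivAt
  have h5 := ((hasFDerivAt_id p).const_smul (1 - s)).add (h4.const_smul s)
  have h6 : ∀ v, (fderiv ℝ g p v).1 = v.1 := by
    intro v
    have e : (fun q => (g q).1) = fun q : P3 => q.1 := funext h1
    have h7 := h4.fst
    rw [e] at h7
    exact congrArg (fun L : P3 →L[ℝ] ℝ => L v) (h7.unique hasFDerivAt_fst)
  refine ⟨(contDiffAt_id.const_smul _).add (h2.const_smul _), 1 - s + s * c, ?_, fun v => ?_⟩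
  · rcases hs.1.eq_or_lt with rfl | h
    · norm_num
    · have := mul_pos h c0
      linarith [hs.2]
  · have e : fderiv ℝ (fun q => (1 - s) • q + s • g q) p v = (1 - s) • v + s • fderiv ℝ g p v :=
      congrArg (fun L : P3 →L[ℝ] P3 => L v) h5.fderiv
    have h8 := h3 v
    rw [e]
    simp only [al, Prod.fst_add, Prod.snd_add, Prod.smul_fst, Prod.smul_snd, smul_eq_mul,
      h6] at h8 ⊢
    linear_combination s * h8

theorem germ_loc {E : ℝ → P3 → P3} (hE : ContDiff ℝ ∞ fun a : ℝ × P3 => E a.1 a.2) {s : ℝ}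
    {p : P3} (hc : ∀ᶠ q in 𝓝 p, ContactAt (E s) q) :
    ∃ u ∈ 𝓝 (s, p), InjOn (fun a : ℝ × P3 => (a.1, E a.1 a.2)) u := by
  have h1 : ContDiff ℝ ∞ fun a : ℝ × P3 => (a.1, E a.1 a.2) := contDiff_fst.prodMk hE
  have h2 := (hasFDerivAt_fst (𝕜 := ℝ) (p := (s, p))).prodMk
    (hE.differentiable (by simp) (s, p)).hasFDerivAt
  have h3 : Function.Injective (fderiv ℝ (fun a : ℝ × P3 => (a.1, E a.1 a.2)) (s, p)) := by
    rw [h2.fderiv]
    refine (injective_iff_map_eq_zero _).2 fun a ha => ?_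
    obtain ⟨σ, v⟩ := a
    have e1 : σ = 0 := congrArg Prod.fst ha
    subst e1
    have e2 : fderiv ℝ (fun a : ℝ × P3 => E a.1 a.2) (s, p) (0, v) = 0 := congrArg Prod.snd ha
    rw [← germ_slice hE] at e2
    rw [(injective_iff_map_eq_zero _).1 (fderiv_inj_of_contact hc) v e2]
    rfl
  let L : (ℝ × P3) ≃L[ℝ] (ℝ × P3) :=
    (LinearEquiv.ofInjectiveEndo
      (fderiv ℝ (fun a : ℝ × P3 => (a.1, E a.1 a.2)) (s, p)).toLinearMap h3).toContinuousLinearEquiv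
  have h4 : HasStrictFDerivAt (fun a : ℝ × P3 => (a.1, E a.1 a.2))
      (L : (ℝ × P3) →L[ℝ] (ℝ × P3)) (s, p) :=
    h1.contDiffAt.hasStrictFDerivAt (by simp)
  exact ⟨_, h4.eventually_left_inverse, LeftInvOn.injOn fun a ha => ha⟩

/-- uniform injectivity near the core -/
theorem germ_unif {E : ℝ → P3 → P3} {ρ r : ℝ} (hρ : 0 < ρ) (hr : 0 < r)
    (hE : ContDiff ℝ ∞ fun a : ℝ × P3 => E a.1 a.2)
    (hp : ∀ s, ∀ p : P3, E s (p.1 + 1, p.2) = ((E s p).1 + 1, (E s p).2))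
    (hx : ∀ s, ∀ x : ℝ, E s (x, 0) = (x, 0))
    (hc : ∀ s ∈ Icc (0 : ℝ) 1, ∀ p : P3, ‖p.2‖ < ρ → ContactAt (E s) p) :
    ∃ δ : ℝ, 0 < δ ∧ ∀ s ∈ Icc (0 : ℝ) 1, InjOn (E s) (tube δ) ∧ ∀ p ∈ tube δ, E s p ∈ tube r := by
  set K : Set (ℝ × P3) := Icc 0 1 ×ˢ (Icc (-1) 2 ×ˢ {0}) with hK
  have cK : IsCompact K := isCompact_Icc.prod (isCompact_Icc.prod isCompact_singleton)
  have eK : ∀ a ∈ K, E a.1 a.2 = a.2 := by
    rintro ⟨s, x, w⟩ ⟨-, -, hw⟩
    obtain rfl : w = 0 := hw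
    exact hx s x
  obtain ⟨t, ht, hi⟩ := InjOn.exists_mem_nhdsSet (f := fun a : ℝ × P3 => (a.1, E a.1 a.2))
    (s := K) (fun a ha b hb e => by
      simp only [eK a ha, eK b hb] at e
      exact e) cK (fun a _ => (continuous_fst.prodMk hE.continuous).continuousAt) (by
      rintro ⟨s, p⟩ ⟨hs, -, hw⟩
      refine germ_loc hE ?_
      have h0 : ‖p.2‖ < ρ := by
        rw [show p.2 = 0 from hw, norm_zero]
        exact hρ
      filter_upwards [(isOpen_lt (continuous_snd.norm) continuous_const).mem_nhds h0] with q hq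
      exact hc s hs q hq)
  obtain ⟨U, hU, hKU, hUt⟩ := mem_nhdsSet_iff_exists.1 ht
  have hO : IsOpen {a : ℝ × P3 | |(E a.1 a.2).1 - a.2.1| < 1 / 2 ∧ E a.1 a.2 ∈ tube r} :=
    (isOpen_lt (hE.continuous.fst.sub continuous_snd.fst).abs continuous_const).inter
      ((isOpen_tube r).preimage hE.continuous)
  obtain ⟨δ, hδ, hth⟩ := cK.exists_thickening_subset_open (hU.inter hO) (fun a ha => ⟨hKU ha, by
    rw [mem_ofPred_eq, eK a ha, sub_self, abs_zero]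
    refine ⟨by norm_num, germ_tube_of_norm ?_⟩
    rw [show a.2.2 = 0 from ha.2.2, norm_zero]
    positivity⟩)
  have key : ∀ s ∈ Icc (0 : ℝ) 1, ∀ p ∈ tube δ, ∀ x ∈ Icc (-1 : ℝ) 2, (s, (x, p.2)) ∈ U ∧
      |(E s (x, p.2)).1 - x| < 1 / 2 ∧ E s (x, p.2) ∈ tube r := by
    intro s hs p h1 x h2
    refine hth (a := (s, (x, p.2))) (Metric.mem_thickening_iff.2 ⟨(s, (x, 0)), ⟨hs, h2, rfl⟩, ?_⟩)
    simpa [Prod.dist_eq, hδ] using germ_norm_of_tube hδ.le h1
  have key2 : ∀ s ∈ Icc (0 : ℝ) 1, ∀ p ∈ tube δ, |(E s p).1 - p.1| < 1 / 2 ∧ E s p ∈ tube r := by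
    intro s hs p h1
    have h2 := (key s hs p h1 (p.1 + (-⌊p.1⌋ : ℤ)) (by
      have := Int.floor_le p.1
      have := Int.lt_floor_add_one p.1
      push_cast
      constructor <;> linarith)).2
    rw [germ_per (hp s)] at h2
    refine ⟨?_, h2.2⟩
    have h3 := h2.1
    rwa [add_sub_add_right_eq_sub] at h3
  refine ⟨δ, hδ, fun s hs => ⟨fun p h1 q h2 e => ?_, fun p h1 => (key2 s hs p h1).2⟩⟩
  have a1 := abs_lt.1 (key2 s hs p h1).1
  have a2 := abs_lt.1 (key2 s hs q h2).1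
  rw [← e] at a2
  have a3 := Int.floor_le p.1
  have a4 := Int.lt_floor_add_one p.1
  have b1 := (key s hs p h1 (p.1 + (-⌊p.1⌋ : ℤ)) (by push_cast; constructor <;> linarith)).1
  have b2 := (key s hs q h2 (q.1 + (-⌊p.1⌋ : ℤ)) (by push_cast; constructor <;> linarith)).1
  have b3 := hi (hUt b1) (hUt b2) (by
    simp only [germ_per (hp s), e])
  have b4 : p.1 + ((-⌊p.1⌋ : ℤ) : ℝ) = q.1 + ((-⌊p.1⌋ : ℤ) : ℝ) := congrArg (fun a => a.2.1) b3
  exact Prod.ext (add_right_cancel b4) (congrArg (fun a => a.2.2) b3)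

/-- a contact germ fixing the core is the end of a family starting at the identity -/
theorem germ_fam {f : P3 → P3} {r : ℝ} (hr : 0 < r)
    (hp : ∀ p : P3, f (p.1 + 1, p.2) = ((f p).1 + 1, (f p).2))
    (hx : ∀ x : ℝ, f (x, 0, 0) = (x, 0, 0)) (hc : ∀ p ∈ tube r, ContactAt f p) :
    ∃ (F F' : ℝ → P3 → P3) (r' : ℝ), 0 < r' ∧ (∀ p ∈ tube r', F 0 p = p) ∧
      (∀ p ∈ tube r', F 1 p = F' 0 p) ∧ (∀ p ∈ tube r', F' 1 p = f p) ∧
      ∀ E : ℝ → P3 → P3, E = F ∨ E = F' → ∀ s ∈ Icc (0 : ℝ) 1,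
        (∀ p : P3, E s (p.1 + 1, p.2) = ((E s p).1 + 1, (E s p).2)) ∧
        (∀ x : ℝ, E s (x, 0, 0) = (x, 0, 0)) ∧ InjOn (E s) (tube r') ∧
        ∀ p ∈ tube r', E s p ∈ tube r ∧
          ContDiffAt ℝ ∞ (fun a : ℝ × P3 => E a.1 a.2) (s, p) ∧ ContactAt (E s) p := by
  have hρ : 0 < r / 4 := by positivity
  obtain ⟨g, g1, g2, g3⟩ := germ_cut hr hp hc
  obtain ⟨F', a1, a2, a3, a4, a5, a6⟩ := germ_dil g1 g2
    (fun x => ((g3 (x, 0) (by simpa using hρ)).1).trans (hx x)) fun p h => (g3 p h).2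
  let F : ℝ → P3 → P3 := fun s q => (1 - s) • q + s • F' 0 q
  have b1 : ContDiff ℝ ∞ fun a : ℝ × P3 => F a.1 a.2 :=
    ((contDiff_const.sub contDiff_fst).smul contDiff_snd).add
      (contDiff_fst.smul (a1.comp (contDiff_const.prodMk contDiff_snd)))
  have b2 : ∀ s, ∀ p : P3, F s (p.1 + 1, p.2) = ((F s p).1 + 1, (F s p).2) := by
    intro s p
    simp only [F, a2]
    ext <;> simp
    ring
  have b3 : ∀ s, ∀ x : ℝ, F s (x, 0) = (x, 0) := by
    intro s x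
    simp only [F, a3]
    rw [← add_smul, sub_add_cancel, one_smul]
  have b6 : ∀ s ∈ Icc (0 : ℝ) 1, ∀ p : P3, ‖p.2‖ < r / 4 → ContactAt (F s) p := fun s hs p h =>
    germ_lin a5 (a6 0 (left_mem_Icc.2 zero_le_one) p h) hs
  obtain ⟨δ, hδ, u1⟩ := germ_unif hρ hr b1 b2 b3 b6
  obtain ⟨δ', hδ', u2⟩ := germ_unif hρ hr a1 a2 a3 a6
  have h0 : 0 < min (r / 4) (min δ δ') := lt_min hρ (lt_min hδ hδ')
  have t1 : ∀ p ∈ tube (min (r / 4) (min δ δ')), ‖p.2‖ < r / 4 := fun p h =>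
    (germ_norm_of_tube h0.le h).trans_le (min_le_left _ _)
  have t2 := tube_mono h0.le ((min_le_right _ _).trans (min_le_left δ δ'))
  have t3 := tube_mono h0.le ((min_le_right _ _).trans (min_le_right δ δ'))
  refine ⟨F, F', _, h0, fun p _ => by simp [F], fun p _ => by simp [F],
    fun p h => (a4 p).trans (g3 p (t1 p h)).1, ?_⟩
  rintro E (rfl | rfl) s hs
  · exact ⟨b2 s, b3 s, (u1 s hs).1.mono t2,
      fun p h => ⟨(u1 s hs).2 p (t2 h), b1.contDiffAt, b6 s hs p (t1 p h)⟩⟩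
  · exact ⟨a2 s, a3 s, (u2 s hs).1.mono t3,
      fun p h => ⟨(u2 s hs).2 p (t3 h), a1.contDiffAt, a6 s hs p (t1 p h)⟩⟩

theorem tube_match {n₀ n₁ : P3 → P3} {r : ℝ} (hr : 0 < r) (h₀ : TubeMap n₀ r) (h₁ : TubeMap n₁ r)
    (c₀ : ∀ p ∈ tube r, ContactAt n₀ p) (c₁ : ∀ p ∈ tube r, ContactAt n₁ p)
    (hc : ∀ x : ℝ, n₀ (x, 0, 0) = n₁ (x, 0, 0)) {U : Set P3} (hU : IsOpen U)
    (hK : ∀ x : ℝ, n₀ (x, 0, 0) ∈ U) :
    ∃ f g : P3 → P3, IsCto f g ∧ (∀ p, p ∉ U → f p = p) ∧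
      ∃ r' : ℝ, 0 < r' ∧ ∀ p ∈ tube r', f (n₀ p) = n₁ p := by
  obtain ⟨f, e, r1, hr1, hle, -, hp, -, he, hf⟩ :=
    tube_trans hr h₀ h₁ c₀ c₁ (congrArg range (funext hc))
  obtain ⟨rfl, hx⟩ := he hc
  rw [Int.cast_one] at hp
  obtain ⟨F, F', r2, hr2, e0, e1, e2, hE⟩ := germ_fam hr1 hp hx fun p h => (hf p h).2.1
  have t1 := tube_mono hr1.le hle
  have key : ∀ E : ℝ → P3 → P3, E = F ∨ E = F' → ∃ a b : P3 → P3, IsCto a b ∧
      (∀ p, p ∉ U → a p = p) ∧ ∃ r' : ℝ, 0 < r' ∧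
        ∀ p ∈ tube r', a (n₀ (E 0 p)) = n₀ (E 1 p) := by
    intro E h
    obtain ⟨a, b, k1, k2, r', k3, k4⟩ := amb_fam (ι := Unit) (N := fun _ s p => n₀ (E s p)) hr2 hU
      (fun _ s hs p hp => by
        obtain ⟨i1, i2, i3⟩ := (hE E h s hs).2.2.2 p hp
        exact ⟨ContDiffAt.comp (g := n₀) (s, p) (c₀ _ (t1 i1)).1 i2, (c₀ _ (t1 i1)).comp i3⟩)
      (fun _ s hs => by
        obtain ⟨i1, -, i3, i4⟩ := hE E h s hs
        refine ⟨fun p => ?_, fun p hp q hq e => ?_⟩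
        · dsimp only
          rw [i1, h₀.1]
        · obtain ⟨j1, k, j2⟩ := h₀.2 _ (t1 (i4 p hp).1) _ (t1 (i4 q hq).1) e
          have j3 : p = (q.1 + k, q.2) := i3 hp hq (by
            rw [germ_per i1]
            exact Prod.ext j2 j1)
          exact ⟨(congrArg Prod.snd j3 :), k, (congrArg Prod.fst j3 :)⟩)
      (fun i j hij => (hij rfl).elim)
      (fun _ s hs x => by
        rw [(hE E h s hs).2.1]
        exact hK x)
    exact ⟨a, b, k1, k2, r', k3, k4 ()⟩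
  obtain ⟨a, b, k1, k2, r3, hr3, k4⟩ := key F (Or.inl rfl)
  obtain ⟨a', b', l1, l2, r4, hr4, l4⟩ := key F' (Or.inr rfl)
  have h0 : 0 < min (min r1 r2) (min r3 r4) := lt_min (lt_min hr1 hr2) (lt_min hr3 hr4)
  refine ⟨_, _, k1.comp l1, fun p h => by rw [k2 p h, l2 p h], _, h0, fun p h => ?_⟩
  have p1 := tube_mono h0.le ((min_le_left _ _).trans (min_le_left r1 r2)) h
  have p2 := tube_mono h0.le ((min_le_left _ _).trans (min_le_right r1 r2)) h
  have p3 := tube_mono h0.le ((min_le_right _ _).trans (min_le_left r3 r4)) h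
  have p4 := tube_mono h0.le ((min_le_right _ _).trans (min_le_right r3 r4)) h
  have q1 := k4 p p3
  rw [e0 p p2, e1 p p2] at q1
  rw [q1, l4 p p4, e2 p p2, (hf p p1).2.2]

end Pool.Agent.Lib.MP_4d7d0a_gt
end

-- part Pool.Agent.Lib.MP_4d7d0a_gt.DMatch
section

/-! Matching two standard neighbourhoods of the same unparametrised knot. -/

set_option autoImplicit false

open Set Filter Topology
open scoped ContDiff

namespace Pool.Agent.Lib.MP_4d7d0a_gt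

theorem dmatch_deriv {g : ℝ → ℝ} (hg : ContDiff ℝ ∞ g) : ContDiff ℝ ∞ (deriv g) :=
  (contDiff_infty_iff_deriv.1 hg).2

/-- the contact lift of a reparametrisation of the core -/
theorem contactAt_lift {g : ℝ → ℝ} (hg : ContDiff ℝ ∞ g) (h : ∀ x, deriv g x ≠ 0) (p : P3) :
    ContactAt (fun q : P3 => ((g q.1, (deriv g q.1)⁻¹ * q.2.1, q.2.2) : P3)) p := by
  have s1 : ContDiff ℝ ∞ fun q : P3 => g q.1 := hg.comp contDiff_fst
  have s2 : ContDiff ℝ ∞ fun q : P3 => (deriv g q.1)⁻¹ * q.2.1 :=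
    (((dmatch_deriv hg).comp contDiff_fst).inv fun q => h q.1).mul contDiff_snd.fst
  have s3 : ContDiff ℝ ∞ fun q : P3 => q.2.2 := contDiff_snd.snd
  refine ⟨(s1.prodMk (s2.prodMk s3)).contDiffAt, 1, one_pos, fun v => ?_⟩
  have h1 : HasFDerivAt (fun q : P3 => g q.1)
      (deriv g p.1 • ContinuousLinearMap.fst ℝ ℝ (ℝ × ℝ)) p :=
    ((contDiff_infty_iff_deriv.1 hg).1 p.1).hasDerivAt.comp_hasFDerivAt p hasFDerivAt_fst
  have h2 := locA_hasFDerivAt (s2.contDiffAt (x := p))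
  have h3 : HasFDerivAt (fun q : P3 => q.2.2)
      ((ContinuousLinearMap.snd ℝ ℝ ℝ).comp (ContinuousLinearMap.snd ℝ ℝ (ℝ × ℝ))) p :=
    (hasFDerivAt_snd (p := p)).snd
  rw [(h1.prodMk (h2.prodMk h3)).fderiv]
  have := h p.1
  simp only [al, ContinuousLinearMap.prod_apply, smul_apply,
    ContinuousLinearMap.coe_fst', ContinuousLinearMap.comp_apply, ContinuousLinearMap.coe_snd',
    smul_eq_mul]
  field_simp

theorem dmatch_sq {e : ℤ} (he : e = 1 ∨ e = -1) : e * e = 1 := by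
  rcases he with rfl | rfl <;> norm_num

/-- the reparametrisation of the core between two standard neighbourhoods -/
theorem exists_core_map {n₀ n₁ : P3 → P3} {r : ℝ} (hr : 0 < r) (h₀ : TubeMap n₀ r)
    (h₁ : TubeMap n₁ r) (c₀ : ∀ p ∈ tube r, ContactAt n₀ p) (c₁ : ∀ p ∈ tube r, ContactAt n₁ p)
    (hc : (range fun x : ℝ => n₀ (x, 0, 0)) = range fun x : ℝ => n₁ (x, 0, 0)) :
    ∃ (g : ℝ → ℝ) (e : ℤ), (e = 1 ∨ e = -1) ∧ ContDiff ℝ ∞ g ∧ (∀ x, g (x + 1) = g x + e) ∧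
      (∀ x, 0 < e * deriv g x) ∧ ∀ x, n₀ (g x, 0, 0) = n₁ (x, 0, 0) := by
  obtain ⟨τ, e, r', hr', -, he, hp, h0, -, hτ⟩ := tube_trans hr h₀ h₁ c₀ c₁ hc
  set g : ℝ → ℝ := fun x => (τ (x, 0, 0)).1 with hg
  have e1 : ∀ x, τ (x, 0, 0) = (g x, 0, 0) := fun x => Prod.ext rfl (h0 x)
  have inc : ContDiff ℝ ∞ fun x : ℝ => ((x, 0, 0) : P3) := contDiff_id.prodMk contDiff_const
  have gs : ContDiff ℝ ∞ g := contDiff_iff_contDiffAt.2 fun x =>
    (ContDiffAt.comp x (hτ _ (GermA.core_mem hr' x)).2.1.1 inc.contDiffAt).fst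
  have gd := (contDiff_infty_iff_deriv.1 gs).1
  have gp : ∀ x, g (x + 1) = g x + e := fun x => congrArg Prod.fst (hp (x, 0, 0))
  have g0 : ∀ x, deriv g x ≠ 0 := by
    intro x hx
    have hi : Function.Injective (fderiv ℝ τ (x, 0, 0)) := by
      apply fderiv_inj_of_contact
      filter_upwards [(isOpen_tube r').mem_nhds (GermA.core_mem hr' x)] with q hq
      exact (hτ q hq).2.1
    have a1 : HasDerivAt (fun x : ℝ => ((x, 0, 0) : P3)) (1, 0, 0) x :=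
      (hasDerivAt_id x).prodMk (hasDerivAt_const x _)
    have a2 : HasDerivAt (fun x : ℝ => τ (x, 0, 0)) (fderiv ℝ τ (x, 0, 0) (1, 0, 0)) x :=
      (locA_hasFDerivAt (hτ _ (GermA.core_mem hr' x)).2.1.1).comp_hasDerivAt x a1
    have a3 : HasDerivAt (fun x : ℝ => τ (x, 0, 0)) (deriv g x, 0, 0) x := by
      simp only [e1]
      exact (gd x).hasDerivAt.prodMk (hasDerivAt_const x _)
    have a4 := a2.unique a3
    rw [hx] at a4
    have a5 : fderiv ℝ τ (x, 0, 0) (1, 0, 0) = fderiv ℝ τ (x, 0, 0) 0 := by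
      rw [a4, map_zero]; rfl
    have a6 := congrArg Prod.fst (hi a5)
    simp at a6
  have ee : (e : ℝ) * e = 1 := by exact_mod_cast dmatch_sq he
  refine ⟨g, e, he, gs, gp, fun x => ?_, fun x => ?_⟩
  · obtain ⟨c, -, hc⟩ := exists_deriv_eq_slope g (zero_lt_one' ℝ) gs.continuous.continuousOn
      gd.differentiableOn
    have a1 : deriv g c = e := by
      have := gp 0
      rw [zero_add] at this
      rw [hc, this]; ring
    by_contra hx
    have ct : Continuous fun x => (e : ℝ) * deriv g x :=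
      continuous_const.mul (dmatch_deriv gs).continuous
    obtain ⟨y, hy⟩ := intermediate_value_univ x c ct
      (show (0 : ℝ) ∈ Icc _ _ from ⟨not_lt.1 hx, by rw [a1, ee]; exact zero_le_one⟩)
    rcases mul_eq_zero.1 hy with h | h
    · rw [h] at ee; simp at ee
    · exact g0 y h
  · rw [← e1]; exact (hτ _ (GermA.core_mem hr' x)).2.2

theorem dmatch_int {g : ℝ → ℝ} {c : ℝ} (h : ∀ x, g (x + 1) = g x + c) (x : ℝ) (k : ℤ) :
    g (x + k) = g x + c * k := by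
  have hp : Function.Periodic (fun x => g x - c * x) 1 := fun x => by
    simp only [h]; ring
  have := hp.int_mul k x
  simp only [mul_one] at this
  linarith

theorem match_tubes {n₀ n₁ : P3 → P3} {r : ℝ} (hr : 0 < r) (h₀ : TubeMap n₀ r)
    (h₁ : TubeMap n₁ r) (c₀ : ∀ p ∈ tube r, ContactAt n₀ p) (c₁ : ∀ p ∈ tube r, ContactAt n₁ p)
    (hc : (range fun x : ℝ => n₀ (x, 0, 0)) = range fun x : ℝ => n₁ (x, 0, 0)) :
    ∃ (f f' : P3 → P3) (g d : ℝ → ℝ) (e : ℤ) (r' : ℝ), IsCto f f' ∧ (e = 1 ∨ e = -1) ∧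
      Continuous g ∧ Continuous d ∧ (∀ x, g (x + 1) = g x + e) ∧ (∀ x, d (x + 1) = d x) ∧
      (∀ x, 0 < e * d x) ∧ 0 < r' ∧
      (f '' range fun x : ℝ => n₀ (x, 0, 0)) = (range fun x : ℝ => n₁ (x, 0, 0)) ∧
      ∀ p ∈ tube r', ((g p.1, d p.1 * p.2.1, p.2.2) : P3) ∈ tube r ∧
        f (n₀ (g p.1, d p.1 * p.2.1, p.2.2)) = n₁ p := by
  obtain ⟨g, e, he, gs, gp, gpos, gc⟩ := exists_core_map hr h₀ h₁ c₀ c₁ hc
  have ee : (e : ℝ) * e = 1 := by exact_mod_cast dmatch_sq he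
  have g0 : ∀ x, deriv g x ≠ 0 := fun x hx => by
    have := gpos x
    rw [hx, mul_zero] at this
    exact lt_irrefl _ this
  set d : ℝ → ℝ := fun x => (deriv g x)⁻¹ with hd
  have dc : Continuous d := (dmatch_deriv gs).continuous.inv₀ g0
  have d0 : ∀ x, d x ≠ 0 := fun x => inv_ne_zero (g0 x)
  have dp : ∀ x, d (x + 1) = d x := by
    intro x
    have a1 : deriv g (x + 1) = deriv g x := by
      rw [← deriv_comp_add_const g 1 x]
      simp only [gp]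
      exact deriv_add_const _
    simp only [hd, a1]
  have dper : Function.Periodic d 1 := dp
  have dpos : ∀ x, 0 < e * d x := by
    intro x
    have a1 : (e : ℝ) * d x = (e * deriv g x) * (d x * d x) := by
      have := g0 x
      simp only [hd]; field_simp
    rw [a1]
    exact mul_pos (gpos x) (mul_self_pos.2 (d0 x))
  obtain ⟨D, hD⟩ := (dper.isBounded_of_continuous one_ne_zero dc).exists_norm_le
  have D0 : 0 ≤ D := (norm_nonneg _).trans (hD _ ⟨0, rfl⟩)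
  set r1 : ℝ := r / (D + 1) with hr1
  have r10 : 0 < r1 := div_pos hr (by linarith)
  have r1e : r1 * (D + 1) = r := div_mul_cancel₀ _ (by linarith)
  have r1r : r1 ≤ r := by nlinarith
  have mem : ∀ p ∈ tube r1, ((g p.1, d p.1 * p.2.1, p.2.2) : P3) ∈ tube r := by
    intro p hp
    have a1 : p.2.1 ^ 2 + p.2.2 ^ 2 < r1 ^ 2 := hp
    show (d p.1 * p.2.1) ^ 2 + p.2.2 ^ 2 < r ^ 2
    have a2 : |d p.1| ≤ D := hD _ ⟨p.1, rfl⟩
    have a3 : d p.1 ^ 2 ≤ (D + 1) ^ 2 := sq_le_sq' (by linarith [neg_abs_le (d p.1)])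
      (by linarith [le_abs_self (d p.1)])
    have a4 : (1 : ℝ) ≤ (D + 1) ^ 2 := by nlinarith
    have a5 := mul_le_mul_of_nonneg_right a3 (sq_nonneg p.2.1)
    have a6 := mul_le_mul_of_nonneg_right a4 (sq_nonneg p.2.2)
    have a7 := mul_lt_mul_of_pos_left a1 (show 0 < (D + 1) ^ 2 by positivity)
    rw [← r1e]
    nlinarith
  have ginj : Function.Injective g := by
    have a1 : StrictMono fun x => (e : ℝ) * g x :=
      strictMono_of_deriv_pos fun x => by rw [deriv_const_mul_field]; exact gpos x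
    intro x y hxy
    exact a1.injective (by simp only [hxy])
  have gk : ∀ (x : ℝ) (k : ℤ), g (x + ((e * k : ℤ) : ℝ)) = g x + k := by
    intro x k
    rw [dmatch_int gp]
    push_cast
    rw [← mul_assoc, ee, one_mul]
  have gsur : ∀ y, ∃ x, g x = y := by
    intro y
    have a1 := intermediate_value_univ (0 + ((e * ⌊y - g 0⌋ : ℤ) : ℝ))
      (0 + ((e * ⌈y - g 0⌉ : ℤ) : ℝ)) gs.continuous
    rw [gk, gk] at a1
    exact a1 ⟨by linarith [Int.floor_le (y - g 0)], by linarith [Int.le_ceil (y - g 0)]⟩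
  set m : P3 → P3 := fun p => n₀ (g p.1, d p.1 * p.2.1, p.2.2) with hm
  have tm : TubeMap m r1 := by
    refine ⟨fun p => ?_, fun p hp q hq hpq => ?_⟩
    · simp only [hm, gp, dp]
      exact GermA.per_int h₀.1 _ _ e
    · obtain ⟨a1, k, a2⟩ := h₀.2 _ (mem p hp) _ (mem q hq) hpq
      have a3 : p.1 = q.1 + ((e * k : ℤ) : ℝ) := ginj (by rw [gk]; exact a2)
      have a4 : d p.1 = d q.1 := by
        rw [a3]
        have := dper.int_mul (e * k) q.1
        rwa [mul_one] at this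
      refine ⟨?_, e * k, a3⟩
      have b1 : d p.1 * p.2.1 = d q.1 * q.2.1 := congrArg Prod.fst a1
      have b2 : p.2.2 = q.2.2 := (Prod.ext_iff.1 a1).2
      rw [a4] at b1
      exact Prod.ext (mul_left_cancel₀ (d0 _) b1) b2
  have cm : ∀ p ∈ tube r1, ContactAt m p := fun p hp =>
    ContactAt.comp (g := n₀) (c₀ _ (mem p hp)) (contactAt_lift gs g0 p)
  have mc : ∀ x : ℝ, m (x, 0, 0) = n₀ (g x, 0, 0) := fun x => by simp only [hm, mul_zero]
  obtain ⟨f, f', hf, -, r2, r20, hf2⟩ := tube_match r10 tm (amb_aux_tube h₁ r10.le r1r) cm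
    (fun p hp => c₁ p (tube_mono r10.le r1r hp)) (fun x => by rw [mc, gc]) isOpen_univ
    (fun _ => mem_univ _)
  have r0 : 0 < min r1 r2 := lt_min r10 r20
  refine ⟨f, f', g, d, e, min r1 r2, hf, he, gs.continuous, dc, gp, dp, dpos, r0, ?_,
    fun p hp => ⟨mem p (tube_mono r0.le (min_le_left _ _) hp),
      hf2 p (tube_mono r0.le (min_le_right _ _) hp)⟩⟩
  have fc : ∀ x : ℝ, f (n₀ (g x, 0, 0)) = n₁ (x, 0, 0) := fun x => by
    rw [← mc]; exact hf2 _ (GermA.core_mem r20 x)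
  ext y
  constructor
  · rintro ⟨_, ⟨x, rfl⟩, rfl⟩
    obtain ⟨t, rfl⟩ := gsur x
    exact ⟨t, (fc t).symm⟩
  · rintro ⟨t, rfl⟩
    exact ⟨_, ⟨g t, rfl⟩, fc t⟩

end Pool.Agent.Lib.MP_4d7d0a_gt
end

-- part Pool.Agent.Lib.MP_4d7d0a_gt.DGen
section

/-! Transport of path functors along a Legendrian isotopy of the surgery knots. -/

set_option autoImplicit false

open Set Filter Topology
open scoped ContDiff

namespace Pool.Agent.Lib.MP_4d7d0a_gt

namespace DGenAux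

open DExtAux

theorem convex_tube (r : ℝ) : Convex ℝ (tube r) := by
  intro p hp q hq a b ha hb hab
  simp only [tube, mem_ofPred_eq, Prod.snd_add, Prod.smul_snd, Prod.fst_add, Prod.smul_fst,
    smul_eq_mul] at hp hq ⊢
  have e : b = 1 - a := by linarith
  subst e
  have h1 : (a * p.2.1 + (1 - a) * q.2.1) ^ 2 + (a * p.2.2 + (1 - a) * q.2.2) ^ 2 ≤
      a * (p.2.1 ^ 2 + p.2.2 ^ 2) + (1 - a) * (q.2.1 ^ 2 + q.2.2 ^ 2) := by
    nlinarith [mul_nonneg (mul_nonneg ha hb) (sq_nonneg (p.2.1 - q.2.1)),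
      mul_nonneg (mul_nonneg ha hb) (sq_nonneg (p.2.2 - q.2.2))]
  refine h1.trans_lt ?_
  rcases ha.eq_or_lt with h | h
  · rw [← h]
    linarith
  · nlinarith [mul_lt_mul_of_pos_left hp h, mul_le_mul_of_nonneg_left hq.le hb]

section Lin

variable {X : Type} [TopologicalSpace X] {S : Set X} {G : Type} [Group G] (F : PathFun S G)

theorem conj_lin {U : Set P3} {N : P3 → X} (hN : ContinuousOn N U) (hS : MapsTo N U S) {e : ℝ}
    (hp : ∀ p : P3, N (p.1 + e, p.2) = N p) {c₀ c₁ : ℝ → P3} (h₀ : Continuous c₀)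
    (h₁ : Continuous c₁) (e₀ : c₀ 1 = ((c₀ 0).1 + e, (c₀ 0).2))
    (e₁ : c₁ 1 = ((c₁ 0).1 + e, (c₁ 0).2))
    (hU : ∀ s ∈ Icc (0 : ℝ) 1, ∀ t, (1 - s) • c₀ t + s • c₁ t ∈ U) :
    IsConj (F.F fun t => N (c₀ t)) (F.F fun t => N (c₁ t)) := by
  have hc : ContinuousOn (fun a : ℝ × ℝ => N ((1 - a.1) • c₀ a.2 + a.1 • c₁ a.2))
      (Icc 0 1 ×ˢ Icc 0 1) :=
    hN.comp (f := fun a : ℝ × ℝ => (1 - a.1) • c₀ a.2 + a.1 • c₁ a.2) (by fun_prop)
      fun a ha => hU _ ha.1 _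
  have h := F.square (H := fun s t => N ((1 - s) • c₀ t + s • c₁ t)) hc
    fun s hs t _ => hS (hU s hs t)
  have e2 : (fun s : ℝ => N ((1 - s) • c₀ 1 + s • c₁ 1)) =
      fun s : ℝ => N ((1 - s) • c₀ 0 + s • c₁ 0) := by
    funext s
    rw [← hp ((1 - s) • c₀ 0 + s • c₁ 0), e₀, e₁]
    congr 1
    ext
    · simp
      ring
    · simp
    · simp
  simp only [e2, sub_zero, one_smul, zero_smul, add_zero, sub_self, zero_add] at h
  exact isConj_iff.2 ⟨(F.F fun s : ℝ => N ((1 - s) • c₀ 0 + s • c₁ 0))⁻¹, by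
    rw [inv_inv, mul_assoc, h, inv_mul_cancel_left]⟩

theorem conj_tube {r : ℝ} {N : P3 → X} (hN : ContinuousOn N (tube r)) (hS : MapsTo N (tube r) S)
    {e : ℝ} (hp : ∀ p : P3, N (p.1 + e, p.2) = N p) {c₀ c₁ : ℝ → P3} (h₀ : Continuous c₀)
    (h₁ : Continuous c₁) (e₀ : c₀ 1 = ((c₀ 0).1 + e, (c₀ 0).2))
    (e₁ : c₁ 1 = ((c₁ 0).1 + e, (c₁ 0).2)) (m₀ : ∀ t, c₀ t ∈ tube r) (m₁ : ∀ t, c₁ t ∈ tube r) :
    IsConj (F.F fun t => N (c₀ t)) (F.F fun t => N (c₁ t)) :=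
  conj_lin F hN hS hp h₀ h₁ e₀ e₁ fun _ hs t =>
    convex_tube r (m₀ t) (m₁ t) (sub_nonneg.2 hs.2) hs.1 (sub_add_cancel _ _)

theorem conj_ptube {r : ℝ} {N : P3 → X} (hN : ContinuousOn N (ptube r))
    (hS : MapsTo N (ptube r) S) {e : ℝ} (hp : ∀ p : P3, N (p.1 + e, p.2) = N p) {c₀ c₁ : ℝ → P3}
    (h₀ : Continuous c₀) (h₁ : Continuous c₁) (e₀ : c₀ 1 = ((c₀ 0).1 + e, (c₀ 0).2))
    (e₁ : c₁ 1 = ((c₁ 0).1 + e, (c₁ 0).2)) (m₀ : ∀ t, c₀ t ∈ tube r) (m₁ : ∀ t, c₁ t ∈ tube r)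
    (hw : ∀ t, ∃ u v : ℝ, 0 < u * (c₀ t).2.1 + v * (c₀ t).2.2 ∧
      0 < u * (c₁ t).2.1 + v * (c₁ t).2.2) :
    IsConj (F.F fun t => N (c₀ t)) (F.F fun t => N (c₁ t)) := by
  refine conj_lin F hN hS hp h₀ h₁ e₀ e₁ fun s hs t =>
    ⟨convex_tube r (m₀ t) (m₁ t) (sub_nonneg.2 hs.2) hs.1 (sub_add_cancel _ _), fun h => ?_⟩
  obtain ⟨u, v, a, b⟩ := hw t
  have h2 : (1 - s) * (c₀ t).2.1 + s * (c₁ t).2.1 = 0 := congrArg Prod.fst h
  have h3 : (1 - s) * (c₀ t).2.2 + s * (c₁ t).2.2 = 0 := congrArg Prod.snd h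
  have h4 : (1 - s) * (u * (c₀ t).2.1 + v * (c₀ t).2.2) +
      s * (u * (c₁ t).2.1 + v * (c₁ t).2.2) = 0 := by
    linear_combination u * h2 + v * h3
  rcases hs.1.eq_or_lt with h5 | h5
  · rw [← h5] at h4
    linarith
  · nlinarith [mul_pos h5 b, mul_nonneg (sub_nonneg.2 hs.2) a.le]

end Lin

theorem per_int {X : Type} {f : P3 → X} (hp : ∀ p : P3, f (p.1 + 1, p.2) = f p) (k : ℤ) (p : P3) :
    f (p.1 + k, p.2) = f p := by
  have h2 : Function.Periodic (fun x : ℝ => f (x, p.2)) 1 := fun x => hp (x, p.2)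
  simpa using h2.int_mul k p.1

variable {M : Type} [TopologicalSpace M] [ChartedSpace P3 M] {K K' : ℝ → P3}

/-- the complement of the point at infinity and of the core -/
def cpl (sd : SD K M) (m : M) : Set M := ({m}ᶜ : Set M) \ range fun x : ℝ => sd.ns (x, 0, 0)

/-- a map of the chart read in the surgered manifold -/
noncomputable def tr (sd : SD K M) (sd' : SD K' M) (f : P3 → P3) (x : M) : M :=
  sd'.psi (f (cai (sd.th x)))

theorem psi_mem (sd : SD K M) {p : P3} (hp : p ∉ range K) : sd.psi p ∈ cpl sd sd.minf :=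
  ⟨sd.psi_ne hp, sd.psi_not p hp⟩

theorem tr_psi (sd : SD K M) (sd' : SD K' M) (f : P3 → P3) {p : P3} (hp : p ∉ range K) :
    tr sd sd' f (sd.psi p) = sd'.psi (f p) := by
  rw [tr, sd.th_psi p hp, cai_cay]

theorem tr_maps (sd : SD K M) (sd' : SD K' M) {f : P3 → P3}
    (hf : ∀ p ∉ range K, f p ∉ range K') :
    MapsTo (tr sd sd' f) (cpl sd sd.minf) (cpl sd' sd'.minf) := fun _ hx =>
  psi_mem sd' (hf _ (sd.psi_cai hx.2 hx.1).1)

theorem tr_cont (sd : SD K M) (sd' : SD K' M) {f : P3 → P3} (hc : Continuous f)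
    (hf : ∀ p ∉ range K, f p ∉ range K') : ContinuousOn (tr sd sd' f) (cpl sd sd.minf) := by
  intro x hx
  have h1 := sd.th_bij.1 hx.2
  have h2 : sd.th x ≠ pole := fun h3 =>
    hx.1 (sd.th_bij.2.1 hx.2 sd.minf_not (h3.trans sd.th_minf.symm))
  have h3 : ContinuousAt (fun y => cai (sd.th y)) x :=
    ContinuousAt.comp (g := cai) (contDiffAt_cai (caiN_pos h1.1 h2).ne').continuousAt
      (sd.continuousAt_th hx.2)
  have h4 : ContinuousAt (fun y => f (cai (sd.th y))) x := hc.continuousAt.comp h3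
  exact (ContinuousAt.comp (g := sd'.psi) (f := fun y => f (cai (sd.th y)))
    (sd'.psi_ct _ (hf _ (sd.psi_cai hx.2 hx.1).1)).1 h4).continuousWithinAt

theorem tr_tr (sd : SD K M) (sd' : SD K' M) {f g : P3 → P3} (hf : ∀ p ∉ range K, f p ∉ range K')
    (hg : ∀ p, g (f p) = p) {x : M} (hx : x ∈ cpl sd sd.minf) :
    tr sd' sd g (tr sd sd' f x) = x := by
  obtain ⟨h1, h2⟩ := sd.psi_cai hx.2 hx.1
  rw [tr.eq_1 sd sd', tr_psi sd' sd g (hf _ h1), hg, h2]

theorem ns_maps (sd : SD K M) : MapsTo sd.ns (tube sd.r') ({sd.minf}ᶜ : Set M) := by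
  intro p hp
  by_cases h : p.2 = 0
  · intro h1
    have h2 : ((p.1, 0, 0) : P3) = p := Prod.ext rfl h.symm
    exact sd.minf_not ⟨p.1, (congrArg sd.ns h2).trans (mem_singleton_iff.1 h1)⟩
  · have h3 : ‖wc p‖ < sd.r' := (wc_norm sd.r'_pos).1 hp
    have h4 : 0 < ‖wc p‖ := norm_pos_iff.2 (wc_ne h)
    have h5 : p = (p.1, ‖wc p‖ * Real.cos (Complex.arg (wc p)),
        ‖wc p‖ * Real.sin (Complex.arg (wc p))) := by
      rw [Complex.norm_mul_cos_arg, Complex.norm_mul_sin_arg]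
      rfl
    obtain ⟨h6, h7⟩ := sd.ns_eq (x := p.1) (a := Complex.arg (wc p)) h4 h3
    rw [h5, h7]
    exact sd.psi_ne h6

theorem ns_cont (sd : SD K M) : ContinuousOn sd.ns (tube sd.r') := fun p hp =>
  (sd.ns_ct p (tube_mono sd.r'_pos.le sd.r'_le hp)).1.continuousWithinAt

theorem nu_off (sd : SD K M) {p : P3} (hp : p ∈ ptube sd.r) : sd.nu p ∉ range K := by
  rintro ⟨t, ht⟩
  exact hp.2 (sd.nu_tube.2 p hp.1 _ (loc_aux_core sd.r_pos t)
    (ht.symm.trans (sd.nu_core t).symm)).1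

theorem psinu_cont (sd : SD K M) : ContinuousOn (fun p => sd.psi (sd.nu p)) (ptube sd.r) :=
  fun p hp => (ContinuousAt.comp (g := sd.psi) (sd.psi_ct _ (nu_off sd hp)).1
    (sd.nu_ct p hp.1).1.continuousAt).continuousWithinAt

theorem path_polar (sd : SD K M) {ρ : ℝ} (h0 : 0 < ρ) (h1 : ρ < sd.r') {x θ : ℝ → ℝ}
    (hx : Continuous x) (hθ : Continuous θ) :
    IsPath (cpl sd sd.minf) fun t => sd.ns (x t, ρ * Real.cos (θ t), ρ * Real.sin (θ t)) := by
  refine ⟨(ns_cont sd).comp (f := fun t => ((x t, ρ * Real.cos (θ t), ρ * Real.sin (θ t)) : P3))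
    (by fun_prop) fun t _ => loc_aux_polar h0 h1 _ _, fun t _ => ?_⟩
  obtain ⟨h6, h7⟩ := sd.ns_eq (x := x t) (a := θ t) h0 h1
  beta_reduce
  rw [h7]
  exact psi_mem sd h6

/-- comparison of curves on the two tori -/
theorem conj_curve (sd : SD K M) (sd' : SD K' M) {G : Type} [Group G]
    (F : PathFun ({sd.minf}ᶜ : Set M) G) {Ψ : P3 → P3} {g d : ℝ → ℝ} {e : ℤ} {r₁ ρ ρ₂ : ℝ}
    (he : e = 1 ∨ e = -1) (hg : Continuous g) (hd : Continuous d) (gp : ∀ x, g (x + 1) = g x + e)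
    (dp : ∀ x, d (x + 1) = d x) (ed : ∀ x, 0 < e * d x)
    (hΨ : ∀ p ∈ tube r₁, ((g p.1, d p.1 * p.2.1, p.2.2) : P3) ∈ tube sd.r ∧
      Ψ (sd'.nu p) = sd.nu (g p.1, d p.1 * p.2.1, p.2.2))
    (h0 : 0 < ρ) (h1 : ρ < sd'.r') (h2 : ∀ a, ρ * Real.exp (sd'.B a) < r₁) (h3 : 0 < ρ₂)
    (h4 : ρ₂ < sd.r') {x₁ x₂ θ φ : ℝ → ℝ} (c₁ : Continuous x₁) (c₂ : Continuous x₂)
    (cθ : Continuous θ) (cφ : Continuous φ) (hcos : ∀ t, Real.cos (φ t) = e * Real.cos (θ t))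
    (hsin : ∀ t, Real.sin (φ t) = Real.sin (θ t))
    (a₁ : x₁ 1 + sd'.A (θ 1) = x₁ 0 + sd'.A (θ 0) + 1) (b₁ : sd'.B (θ 1) = sd'.B (θ 0))
    (a₂ : x₂ 1 + sd.A (φ 1) = x₂ 0 + sd.A (φ 0) + e) (b₂ : sd.B (φ 1) = sd.B (φ 0))
    (k₁ : Real.cos (θ 1) = Real.cos (θ 0)) (k₂ : Real.sin (θ 1) = Real.sin (θ 0)) :
    IsConj (F.F fun t => tr sd' sd Ψ (sd'.ns (x₁ t, ρ * Real.cos (θ t), ρ * Real.sin (θ t))))
      (F.F fun t => sd.ns (x₂ t, ρ₂ * Real.cos (φ t), ρ₂ * Real.sin (φ t))) := by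
  have cA := sd.A_sm.continuous
  have cB := sd.B_sm.continuous
  have cA' := sd'.A_sm.continuous
  have cB' := sd'.B_sm.continuous
  have hm := fun t => hΨ _ (loc_aux_polar (mul_pos h0 (Real.exp_pos _)) (h2 (θ t))
    (x₁ t + sd'.A (θ t)) (θ t))
  have key := conj_ptube F (psinu_cont sd) (fun p hp => (psi_mem sd (nu_off sd hp)).1) (e := e)
    (fun p => by rw [per_int sd.nu_tube.1])
    (c₀ := fun t => (g (x₁ t + sd'.A (θ t)),
      d (x₁ t + sd'.A (θ t)) * (ρ * Real.exp (sd'.B (θ t)) * Real.cos (θ t)),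
      ρ * Real.exp (sd'.B (θ t)) * Real.sin (θ t)))
    (c₁ := fun t => (x₂ t + sd.A (φ t), ρ₂ * Real.exp (sd.B (φ t)) * Real.cos (φ t),
      ρ₂ * Real.exp (sd.B (φ t)) * Real.sin (φ t))) (by fun_prop) (by fun_prop)
    (by simp only [a₁, b₁, k₁, k₂, gp, dp]) (by simp only [a₂, b₂, hcos, hsin, k₁, k₂])
    (fun t => (hm t).1)
    (fun t => loc_aux_polar (mul_pos h3 (Real.exp_pos _))
      ((mul_lt_mul_of_pos_right h4 (Real.exp_pos _)).trans_le (sd.B_le _)) _ _) ?_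
  · convert key using 3 with t t
    · obtain ⟨h6, h7⟩ := sd'.ns_eq (x := x₁ t) (a := θ t) h0 h1
      rw [h7, tr_psi sd' sd Ψ h6, (hm t).2]
    · exact (sd.ns_eq h3 h4).2
  · intro t
    refine ⟨e * Real.cos (θ t), Real.sin (θ t), ?_, ?_⟩
    · have p1 := mul_pos h0 (Real.exp_pos (sd'.B (θ t)))
      have p2 := ed (x₁ t + sd'.A (θ t))
      have p3 := Real.cos_sq_add_sin_sq (θ t)
      have p4 : 0 < e * d (x₁ t + sd'.A (θ t)) * Real.cos (θ t) ^ 2 + Real.sin (θ t) ^ 2 := by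
        rcases (sq_nonneg (Real.sin (θ t))).eq_or_lt with h | h
        · rw [← h] at p3 ⊢
          rw [add_zero] at p3
          rw [p3]
          linarith
        · have := mul_nonneg p2.le (sq_nonneg (Real.cos (θ t)))
          linarith
      refine (mul_pos p1 p4).trans_eq ?_
      ring
    · have p1 := mul_pos h3 (Real.exp_pos (sd.B (φ t)))
      have p2 : (e : ℝ) ^ 2 = 1 := by rcases he with h | h <;> simp [h]
      have p3 := Real.cos_sq_add_sin_sq (θ t)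
      simp only [hcos, hsin]
      refine p1.trans_eq ?_
      linear_combination (-ρ₂ * Real.exp (sd.B (φ t))) * (Real.cos (θ t) ^ 2 * p2 + p3)

theorem mer_one (sd : SD K M) {G : Type} [Group G] (F : PathFun ({sd.minf}ᶜ : Set M) G) {ρ : ℝ}
    (h0 : 0 < ρ) (h1 : ρ < sd.r') {φ : ℝ → ℝ} (cφ : Continuous φ)
    (k₁ : Real.cos (φ 1) = Real.cos (φ 0)) (k₂ : Real.sin (φ 1) = Real.sin (φ 0)) :
    F.F (fun t => sd.ns (0, ρ * Real.cos (φ t), ρ * Real.sin (φ t))) = 1 := by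
  rw [← F.const (ns_maps sd (loc_aux_polar h0 h1 0 (φ 0)))]
  exact F.conv (convex_tube _) (ns_cont sd) (ns_maps sd)
    (c := fun t => ((0, ρ * Real.cos (φ t), ρ * Real.sin (φ t)) : P3))
    (c' := fun _ => ((0, ρ * Real.cos (φ 0), ρ * Real.sin (φ 0)) : P3))
    ⟨by fun_prop, fun t _ => loc_aux_polar h0 h1 _ _⟩
    ⟨by fun_prop, fun t _ => loc_aux_polar h0 h1 _ _⟩ rfl (by simp only [k₁, k₂])

theorem push_conj (sd : SD K M) {G : Type} [Group G] (F : PathFun ({sd.minf}ᶜ : Set M) G) {ρ : ℝ}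
    (h0 : 0 < ρ) (h1 : ρ < sd.r') (e : ℤ) (a : ℝ) :
    IsConj (F.F fun t => sd.ns (e * t, ρ * Real.cos a, ρ * Real.sin a))
      (F.F fun t => sd.ns (e * t, 0, 0)) :=
  conj_tube F (ns_cont sd) (ns_maps sd) (e := e) (per_int sd.ns_tube.1 e)
    (c₀ := fun t => (e * t, ρ * Real.cos a, ρ * Real.sin a)) (c₁ := fun t => (e * t, 0, 0))
    (by fun_prop) (by fun_prop) (by simp) (by simp) (fun _ => loc_aux_polar h0 h1 _ _)
    fun _ => loc_aux_core sd.r'_pos _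

theorem exists_match (sd : SD K M) (sd' : SD K' M) (hK : IsLeg3 K) (hK' : IsLeg3 K')
    (h : LegIsotopic (fun t => cay (K t)) fun t => cay (K' t)) :
    ∃ (Φ Ψ : P3 → P3) (g d : ℝ → ℝ) (e : ℤ) (r₁ : ℝ), IsCto Φ Ψ ∧ Φ '' range K = range K' ∧
      (e = 1 ∨ e = -1) ∧ Continuous g ∧ Continuous d ∧ (∀ x, g (x + 1) = g x + e) ∧
      (∀ x, d (x + 1) = d x) ∧ (∀ x, 0 < e * d x) ∧ 0 < r₁ ∧
      ∀ p ∈ tube r₁, ((g p.1, d p.1 * p.2.1, p.2.2) : P3) ∈ tube sd.r ∧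
        Ψ (sd'.nu p) = sd.nu (g p.1, d p.1 * p.2.1, p.2.2) := by
  obtain ⟨f₁, g₁, h₁, e₁⟩ := exists_cto_of_isotopic hK hK' h
  have hr : 0 < min sd.r sd'.r := lt_min sd.r_pos sd'.r_pos
  have s1 : tube (min sd.r sd'.r) ⊆ tube sd.r := tube_mono hr.le (min_le_left _ _)
  have s2 : tube (min sd.r sd'.r) ⊆ tube sd'.r := tube_mono hr.le (min_le_right _ _)
  have hi : Function.Injective f₁ := Function.LeftInverse.injective h₁.2.2.1
  have r1 : (range fun x : ℝ => f₁ (sd.nu (x, 0, 0))) = f₁ '' range K := by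
    simp only [sd.nu_core]
    exact range_comp f₁ K
  have r2 : (range fun x : ℝ => sd'.nu (x, 0, 0)) = range K' := by
    simp only [sd'.nu_core]
  obtain ⟨f₂, g₂, g, d, e, r₁, h₂, he, hg, hd, gp, dp, ed, hr₁, e₂, hm⟩ :=
    match_tubes (n₀ := fun p => f₁ (sd.nu p)) (n₁ := sd'.nu) hr
      ⟨fun p => congrArg f₁ (sd.nu_tube.1 p),
        fun p hp q hq e => sd.nu_tube.2 p (s1 hp) q (s1 hq) (hi e)⟩
      ⟨sd'.nu_tube.1, fun p hp q hq e => sd'.nu_tube.2 p (s2 hp) q (s2 hq) e⟩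
      (fun p hp => (h₁.1 _).comp (sd.nu_ct p (s1 hp))) (fun p hp => sd'.nu_ct p (s2 hp))
      (by rw [r1, r2, e₁])
  refine ⟨fun p => f₂ (f₁ p), fun p => g₁ (g₂ p), g, d, e, r₁, h₁.comp h₂, ?_, he, hg, hd, gp, dp,
    ed, hr₁, fun p hp => ⟨s1 (hm p hp).1, ?_⟩⟩
  · rw [r1, r2] at e₂
    rw [← e₂, image_image]
  · beta_reduce
    rw [← (hm p hp).2, h₂.2.2.1, h₁.2.2.1]

end DGenAux

open DGenAux in
theorem dgen_holds : DGenStmt := by
  intro M _ _ _ hA K K' sd sd' m hK hK' hm hm' hiso G _ F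
  subst hm
  obtain ⟨Φ, Ψ, g, d, e, r₁, hc, him, he, hg, hd, gp, dp, ed, hr₁, hΨ⟩ :=
    exists_match sd sd' hK hK' hiso
  have cΦ : Continuous Φ := continuous_iff_continuousAt.2 fun p => (hc.1 p).1.continuousAt
  have cΨ : Continuous Ψ := continuous_iff_continuousAt.2 fun p => (hc.2.1 p).1.continuousAt
  have oΦ : ∀ p ∉ range K, Φ p ∉ range K' := by
    intro p hp h
    rw [← him] at h
    obtain ⟨q, hq, h⟩ := h
    exact hp (Function.LeftInverse.injective hc.2.2.1 h ▸ hq)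
  have oΨ : ∀ p ∉ range K', Ψ p ∉ range K := by
    intro p hp h
    exact hp (him ▸ ⟨_, h, hc.2.2.2.1 p⟩)
  obtain ⟨F₀, hF₀⟩ := F.exists_comap (tr_cont sd' sd cΨ oΨ) fun x hx => (tr_maps sd' sd oΨ hx).1
  obtain ⟨ρ, h0, h1, h2⟩ : ∃ ρ : ℝ, 0 < ρ ∧ ρ < sd'.r' ∧ ∀ a, ρ * Real.exp (sd'.B a) < r₁ := by
    have p1 := sd'.r'_pos
    have p2 := sd'.r_pos
    refine ⟨min (sd'.r' / 2) (r₁ * sd'.r' / (2 * sd'.r)), by positivity,
      (min_le_left _ _).trans_lt (by linarith), fun a => ?_⟩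
    refine (mul_le_mul_of_nonneg_right (min_le_right _ _) (Real.exp_pos _).le).trans_lt ?_
    rw [div_mul_eq_mul_div, div_lt_iff₀ (by positivity)]
    nlinarith [mul_le_mul_of_nonneg_left (sd'.B_le a) hr₁.le, mul_pos hr₁ p2]
  have h3 : 0 < sd.r' / 2 := half_pos sd.r'_pos
  have h4 : sd.r' / 2 < sd.r' := half_lt_self sd.r'_pos
  have hμ : F₀.F (fun t => sd'.ns (0, ρ * Real.cos (2 * Real.pi * t),
      ρ * Real.sin (2 * Real.pi * t))) = 1 := by
    rw [hF₀]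
    have a1 : sd'.A (2 * Real.pi) = sd'.A 0 + 1 := by simpa using sd'.A_per 0
    have b1 : sd'.B (2 * Real.pi) = sd'.B 0 := by simpa using sd'.B_per 0
    rcases he with h | h
    · have a2 : sd.A (2 * Real.pi) = sd.A 0 + 1 := by simpa using sd.A_per 0
      have b2 : sd.B (2 * Real.pi) = sd.B 0 := by simpa using sd.B_per 0
      have key := conj_curve sd sd' F (Or.inl h) hg hd gp dp ed hΨ h0 h1 h2 h3 h4
        (x₁ := fun _ => 0) (x₂ := fun _ => 0) (θ := fun t => 2 * Real.pi * t)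
        (φ := fun t => 2 * Real.pi * t) (by fun_prop) (by fun_prop) (by fun_prop) (by fun_prop)
        (by simp [h]) (by simp) (by simp [a1]) (by simp [b1]) (by simp [a2, h]) (by simp [b2])
        (by simp) (by simp)
      rw [mer_one sd F h3 h4 (φ := fun t => 2 * Real.pi * t) (by fun_prop) (by simp)
        (by simp)] at key
      exact isConj_one_left.1 key
    · have e1 : Real.pi - 2 * Real.pi + 2 * Real.pi = Real.pi := by ring
      have a2 : sd.A (Real.pi - 2 * Real.pi) = sd.A Real.pi + -1 := by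
        have := sd.A_per (Real.pi - 2 * Real.pi)
        rw [e1] at this
        linarith
      have b2 : sd.B (Real.pi - 2 * Real.pi) = sd.B Real.pi := by
        have := sd.B_per (Real.pi - 2 * Real.pi)
        rw [e1] at this
        exact this.symm
      have key := conj_curve sd sd' F (Or.inr h) hg hd gp dp ed hΨ h0 h1 h2 h3 h4
        (x₁ := fun _ => 0) (x₂ := fun _ => 0) (θ := fun t => 2 * Real.pi * t)
        (φ := fun t => Real.pi - 2 * Real.pi * t) (by fun_prop) (by fun_prop) (by fun_prop)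
        (by fun_prop) (by simp [h]) (by simp) (by simp [a1]) (by simp [b1]) (by simp [a2, h])
        (by simp [b2]) (by simp) (by simp)
      rw [mer_one sd F h3 h4 (φ := fun t => Real.pi - 2 * Real.pi * t) (by fun_prop) (by simp)
        (by simp)] at key
      exact isConj_one_left.1 key
  obtain ⟨F', hF'⟩ := extend_core hA sd' F₀ h0 h1 hμ
  have hcore : IsConj (F'.F fun t => sd'.ns (t, 0, 0)) (F.F fun t => sd.ns (e * t, 0, 0)) := by
    have k1 := push_conj sd' F' h0 h1 1 (Real.pi / 2)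
    simp only [Int.cast_one, one_mul] at k1
    have k2 := conj_curve sd sd' F he hg hd gp dp ed hΨ h0 h1 h2 h3 h4
      (x₁ := fun t => t) (x₂ := fun t => e * t) (θ := fun _ => Real.pi / 2)
      (φ := fun _ => Real.pi / 2) (by fun_prop) (by fun_prop) (by fun_prop) (by fun_prop)
      (by simp) (by simp) (by ring) rfl (by ring) rfl rfl rfl
    rw [hF' _ (path_polar sd' h0 h1 (x := fun t => t) (θ := fun _ => Real.pi / 2) (by fun_prop)
      (by fun_prop)), hF₀] at k1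
    exact (k1.symm.trans k2).trans (push_conj sd F h3 h4 e (Real.pi / 2))
  have hna : F.NonAb ({sd.minf}ᶜ \ range fun x : ℝ => sd.ns (x, 0, 0)) →
      F'.NonAb {sd'.minf}ᶜ := by
    rintro ⟨c, c', a1, a2, a3, a4, a5, a6, a7, a8⟩
    have p1 := PathFun.pathFA_comp (tr_cont sd sd' cΦ oΦ) (tr_maps sd sd' oΦ) ⟨a1, a3⟩
    have p2 := PathFun.pathFA_comp (tr_cont sd sd' cΦ oΦ) (tr_maps sd sd' oΦ) ⟨a2, a4⟩
    refine ⟨_, _, p1.1, p2.1, fun t ht => (p1.2 ht).1, fun t ht => (p2.2 ht).1,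
      congrArg _ a5, congrArg _ a6, congrArg _ a7, ?_⟩
    rw [hF' _ p1, hF' _ p2, hF₀, hF₀,
      F.congr ⟨a1, fun t ht => (a3 ht).1⟩ fun t ht => tr_tr sd sd' oΦ hc.2.2.1 (a3 ht),
      F.congr ⟨a2, fun t ht => (a4 ht).1⟩ fun t ht => tr_tr sd sd' oΦ hc.2.2.1 (a4 ht)]
    exact a8
  have hcc : (IsConj (F'.F fun t => sd'.ns (t, 0, 0)) (F.F fun t => sd.ns (t, 0, 0)) ∨
      IsConj (F'.F fun t => sd'.ns (t, 0, 0)) (F.F fun t => sd.ns (t, 0, 0))⁻¹) := by
    rcases he with h | h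
    · left
      simpa [h] using hcore
    · right
      have hp : IsPath ({sd.minf}ᶜ : Set M) fun t => sd.ns (t, 0, 0) :=
        PathFun.pathFA_comp (ns_cont sd) (ns_maps sd) (c := fun t => ((t, 0, 0) : P3))
          ⟨by fun_prop, fun t _ => loc_aux_core sd.r'_pos t⟩
      rw [← F.rev hp]
      convert hcore using 3 with t
      rw [← sd.ns_tube.1 ((e : ℝ) * t, 0, 0), h]
      congr 2
      push_cast
      ring
  generalize sd.minf = m at *
  subst hm'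
  exact ⟨F', hcc, hna⟩

end Pool.Agent.Lib.MP_4d7d0a_gt
end

-- part Pool.Agent.Lib.MP_4d7d0a_gt.DSCore
section

/-! Passing over the core of the surgery torus. -/

set_option autoImplicit false

open Set Filter Topology

namespace Pool.Agent.Lib.MP_4d7d0a_gt

namespace DS

open DExtAux DGenAux

variable {M : Type} [TopologicalSpace M] [ChartedSpace P3 M] {K : ℝ → P3}

theorem mer_triv (sd : SD K M) {G : Type} [Group G] (F : PathFun ({sd.minf}ᶜ : Set M) G) {ρ : ℝ}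
    (h0 : 0 < ρ) (h1 : ρ < sd.r') :
    F.F (fun t => sd.ns (0, ρ * Real.cos (2 * Real.pi * t), ρ * Real.sin (2 * Real.pi * t))) =
      1 := by
  exact mer_one sd F h0 h1 (φ := fun t => 2 * Real.pi * t) (by fun_prop) (by simp) (by simp)

theorem dscore_off (sd : SD K M) {G : Type} [Group G] (F : PathFun ({sd.minf}ᶜ : Set M) G)
    {H : Subgroup G} {g : P3 → G}
    (h : ∀ c, IsPath (range K)ᶜ c → (g (c 0))⁻¹ * F.F (fun t => sd.psi (c t)) * g (c 1) ∈ H)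
    {c : ℝ → M} (hc : IsPath (cpl sd sd.minf) c) :
    (g (cai (sd.th (c 0))))⁻¹ * F.F c * g (cai (sd.th (c 1))) ∈ H := by
  have h1 : ContinuousOn (fun m => cai (sd.th m)) (cpl sd sd.minf) := fun x hx => by
    have h2 : sd.th x ≠ pole := fun h3 =>
      hx.1 (sd.th_bij.2.1 hx.2 sd.minf_not (h3.trans sd.th_minf.symm))
    exact (ContinuousAt.comp (g := cai)
      (contDiffAt_cai (caiN_pos (sd.th_bij.1 hx.2).1 h2).ne').continuousAt
      (sd.continuousAt_th hx.2)).continuousWithinAt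
  have h2 := h _ (PathFun.pathFA_comp h1 (fun x hx => (sd.psi_cai hx.2 hx.1).1) hc)
  rwa [F.congr ⟨hc.1, fun t ht => (hc.2 ht).1⟩
    fun t ht => (sd.psi_cai (hc.2 ht).2 (hc.2 ht).1).2] at h2

theorem dscore_cpl (sd : SD K M) : MapsTo sd.ns (ptube sd.r') (cpl sd sd.minf) :=
  fun p hp => ⟨ns_maps sd hp.1, fun ⟨x, hx⟩ => hp.2 (sd.ns_tube.2 p
    (tube_mono sd.r'_pos.le sd.r'_le hp.1) _ (loc_aux_core sd.r_pos x) hx.symm).1⟩

theorem dscore_val (sd : SD K M) {G : Type} [Group G] (F : PathFun ({sd.minf}ᶜ : Set M) G)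
    {c : ℝ → P3} (hc : IsPath (tube sd.r') c) :
    F.F (fun t => sd.ns (c t)) = gam F sd.ns (c 0) (c 1) :=
  F.conv (convex_tube _) (ns_cont sd) (ns_maps sd) hc
    (seg_path (convex_tube _) (hc.2 ⟨le_rfl, zero_le_one⟩) (hc.2 ⟨zero_le_one, le_rfl⟩))
    (by simp) (by simp)

theorem dscore_mul (sd : SD K M) {G : Type} [Group G] (F : PathFun ({sd.minf}ᶜ : Set M) G)
    {p q r : P3} (hp : p ∈ tube sd.r') (hq : q ∈ tube sd.r') (hr : r ∈ tube sd.r') :
    gam F sd.ns p q * gam F sd.ns q r = gam F sd.ns p r := by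
  have h := gam_key F (convex_tube _) (ns_cont sd) (ns_maps sd) hp (seg_path (convex_tube _) hq hr)
  simp only [zero_smul, add_zero, one_smul, add_sub_cancel] at h
  exact h

theorem dscore_path {r : ℝ} (hr : 0 < r) {p q : P3} (hp : p ∈ ptube r) (hq : q ∈ ptube r) :
    ∃ c, IsPath (ptube r) c ∧ c 0 = p ∧ c 1 = q := by
  have h : ∀ p ∈ ptube r, (p.1, Complex.log (wc p)) ∈ hs r := fun p hp => by
    rw [mem_hs hr, Complex.exp_log (wc_ne hp.2)]
    exact (wc_norm hr).1 hp.1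
  refine ⟨_, PathFun.pathFA_comp continuous_ep.continuousOn (ep_maps hr)
    (seg_path (convex_hs r) (h p hp) (h q hq)), ?_, ?_⟩
  · simpa using ep_of (Complex.exp_log (wc_ne hp.2))
  · simpa using ep_of (Complex.exp_log (wc_ne hq.2))

theorem core_gen [T2Space M] (hA : IsContactAtlas M) (sd : SD K M) {G : Type} [Group G]
    (F : PathFun ({sd.minf}ᶜ : Set M) G) (H : Subgroup G) (g : P3 → G)
    (h : ∀ c, IsPath (range K)ᶜ c → (g (c 0))⁻¹ * F.F (fun t => sd.psi (c t)) * g (c 1) ∈ H) :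
    ∃ g' : M → G, ∀ c, IsPath ({sd.minf}ᶜ : Set M) c → (g' (c 0))⁻¹ * F.F c * g' (c 1) ∈ H := by
  classical
  have hr := sd.r'_pos
  have z : (0 : ℝ) ∈ Icc (0 : ℝ) 1 := ⟨le_rfl, zero_le_one⟩
  have o : (1 : ℝ) ∈ Icc (0 : ℝ) 1 := ⟨zero_le_one, le_rfl⟩
  let u : ℝ → G := fun x => F.F (fun t => sd.ns (x, t * (sd.r' / 2), 0)) *
    g (cai (sd.th (sd.ns (x, sd.r' / 2, 0))))
  let g' : M → G := fun m =>
    if hm : m ∈ range fun x : ℝ => sd.ns (x, 0, 0) then u hm.choose else g (cai (sd.th m))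
  have hB : ∀ p ∈ tube sd.r', ∃ p' ∈ ptube sd.r',
      g' (sd.ns p) = gam F sd.ns p p' * g (cai (sd.th (sd.ns p'))) := by
    rintro ⟨x, w⟩ hp
    by_cases hw : w = 0
    · subst hw
      have hm : sd.ns (x, 0) ∈ range fun x : ℝ => sd.ns (x, 0, 0) := ⟨x, rfl⟩
      obtain ⟨-, k, hk⟩ := sd.ns_tube.2 _ (loc_aux_core sd.r_pos _) _ (loc_aux_core sd.r_pos x)
        hm.choose_spec
      refine ⟨(x, sd.r' / 2, 0), ⟨?_, fun e => ?_⟩, ?_⟩
      · simp only [tube, mem_ofPred_eq]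
        nlinarith
      · have : sd.r' / 2 = 0 := congrArg Prod.fst e
        linarith
      · have e : ∀ w, sd.ns (hm.choose, w) = sd.ns (x, w) := fun w => by
          rw [show hm.choose = x + k from hk]
          exact per_int sd.ns_tube.1 k (x, w)
        simp only [g', dif_pos hm, u, e, gam]
        simp
    · refine ⟨(x, w), ⟨hp, hw⟩, ?_⟩
      simp only [g', dif_neg (dscore_cpl sd ⟨hp, hw⟩).2, gam, sub_self, smul_zero, add_zero]
      rw [F.const (ns_maps sd hp), one_mul]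
  have hC : ∀ c, IsPath (tube sd.r') c →
      (g' (sd.ns (c 0)))⁻¹ * F.F (fun t => sd.ns (c t)) * g' (sd.ns (c 1)) ∈ H := by
    intro c hc
    obtain ⟨p, hp, e0⟩ := hB _ (hc.2 z)
    obtain ⟨q, hq, e1⟩ := hB _ (hc.2 o)
    obtain ⟨d, hd, rfl, rfl⟩ := dscore_path hr hp hq
    have h1 := dscore_off sd F h (PathFun.pathFA_comp ((ns_cont sd).mono fun _ a => a.1)
      (dscore_cpl sd) hd)
    rw [dscore_val sd F ⟨hd.1, fun t ht => (hd.2 ht).1⟩] at h1
    rw [dscore_val sd F hc, e0, e1, mul_inv_rev, mul_assoc, mul_assoc, ← mul_assoc (gam _ _ _ _),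
      dscore_mul sd F (hc.2 z) (hc.2 o) hq.1, ← dscore_mul sd F (hc.2 z) hp.1 hq.1, mul_assoc,
      inv_mul_cancel_left, ← mul_assoc]
    exact h1
  refine ⟨g', fun c hc => F.gen H g' (fun m _ => ?_) hc⟩
  by_cases hm : m ∈ range fun x : ℝ => sd.ns (x, 0, 0)
  · obtain ⟨x, rfl⟩ := hm
    obtain ⟨κ, h1, h2⟩ := exists_ctInto_inv hA (F := sd.ns) (p := (x, 0, 0)) (by
      filter_upwards [(isOpen_tube sd.r).mem_nhds (loc_aux_core sd.r_pos x)] with q hq
      exact sd.ns_ct q hq)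
    have h3 := h1.self_of_nhds.1.preimage_mem_nhds ((isOpen_tube sd.r').mem_nhds (by
      rw [h2.self_of_nhds]; exact loc_aux_core hr x))
    refine ⟨_, inter_mem h1 h3, fun d hd => ?_⟩
    have e : ∀ t ∈ Icc (0 : ℝ) 1, sd.ns (κ (d t)) = d t := fun t ht => (hd.2 ht).2.1.2.2
    have h4 := hC (fun t => κ (d t)) ⟨fun t ht =>
      (hd.2 ht).2.1.1.comp_continuousWithinAt (hd.1 t ht), fun t ht => (hd.2 ht).2.2⟩
    rwa [F.congr ⟨hd.1, fun t ht => (hd.2 ht).1⟩ e, e 0 z, e 1 o] at h4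
  · refine ⟨_, sd.isClosed_core.isOpen_compl.mem_nhds hm, fun d hd => ?_⟩
    simp only [g', dif_neg (hd.2 z).2, dif_neg (hd.2 o).2]
    exact dscore_off sd F h hd

end DS

end Pool.Agent.Lib.MP_4d7d0a_gt
end

-- part Pool.Agent.Lib.MP_4d7d0a_gt.DSpec
section

/-! Part D, special half. -/

set_option autoImplicit false

open Set Filter Topology

namespace Pool.Agent.Lib.MP_4d7d0a_gt

namespace DS

/-- the Dehn presentation for the smooth knot -/
theorem knot_pres : Small fun π => Fr ∩ Far ⊆ (range (π.knot WL))ᶜ ∧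
    Bk ∩ Far ⊆ (range (π.knot WL))ᶜ ∧
    (∀ (G : Type) [Group G] (F : PathFun (range (π.knot WL))ᶜ G), ∃ (φ ψ : P3 → G)
      (W : ℕ → ℕ → G), Triv F (Fr ∩ Far) (Bk ∩ Far) φ ψ W ∧ Rels W ∧ ∃ g : P3 → G,
        ∀ c, IsPath (range (π.knot WL))ᶜ c →
          (g (c 0))⁻¹ * F.F c * g (c 1) ∈ Subgroup.closure (gens W)) ∧
    ∀ (G : Type) [Group G] (W : ℕ → ℕ → G), Rels W →
      ∃ (F : PathFun (range (π.knot WL))ᶜ G) (φ ψ : P3 → G),
        Triv F (Fr ∩ Far) (Bk ∩ Far) φ ψ W := by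
  refine homeo_exists.mono fun π h => ?_
  obtain ⟨Φ, hQ, hid⟩ := h
  have hA : ∀ {A : Set P3}, A ⊆ Qᶜ → A ∩ Far ⊆ (range (π.knot WL))ᶜ := fun hA p hp h =>
    hA hp.1 (hid p hp.2 ▸ (hQ p).2 h)
  have m1 : MapsTo Φ (range (π.knot WL))ᶜ Qᶜ := fun p hp h => hp ((hQ p).1 h)
  have m2 : MapsTo Φ.symm Qᶜ (range (π.knot WL))ᶜ := fun q hq h =>
    hq (Φ.apply_symm_apply q ▸ (hQ _).2 h)
  refine ⟨hA Fr_sub, hA Bk_sub, fun G _ F => ?_, fun G _ W hW => ?_⟩
  · obtain ⟨F', hF'⟩ := F.exists_comap Φ.symm.continuous.continuousOn m2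
    obtain ⟨φ, ψ, W, hT⟩ := triv_of_fun F'
    obtain ⟨g, hg⟩ := hT.gen
    have key : ∀ {A : Set P3}, A ⊆ Qᶜ → ∀ c, IsPath (A ∩ Far) c → F.F c = F'.F c := by
      intro A hAQ c hc
      rw [hF']
      refine (F.congr ⟨hc.1, hc.2.mono_right (hA hAQ)⟩ fun t ht => ?_).symm
      rw [Φ.symm_apply_eq, hid _ (hc.2 ht).2]
    refine ⟨φ, ψ, W, ⟨fun c hc => ?_, fun c hc => ?_, hT.w⟩, hT.rels, fun p => g (Φ p),
      fun c hc => ?_⟩
    · rw [key Fr_sub c hc, hT.fr c ⟨hc.1, hc.2.mono_right inter_subset_left⟩]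
    · rw [key Bk_sub c hc, hT.bk c ⟨hc.1, hc.2.mono_right inter_subset_left⟩]
    · have := hg _ (PathFun.pathFA_comp Φ.continuous.continuousOn m1 hc)
      rw [hF'] at this
      simpa using this
  · obtain ⟨F', φ, ψ, hT⟩ := fun_of_rels hW
    obtain ⟨F, hF⟩ := F'.exists_comap Φ.continuous.continuousOn m1
    have key : ∀ {A : Set P3}, A ⊆ Qᶜ → ∀ c, IsPath (A ∩ Far) c → F.F c = F'.F c := by
      intro A hAQ c hc
      rw [hF]
      exact F'.congr ⟨hc.1, hc.2.mono_right (inter_subset_left.trans hAQ)⟩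
        fun t ht => hid _ (hc.2 ht).2
    refine ⟨F, φ, ψ, fun c hc => ?_, fun c hc => ?_, hT.w⟩
    · rw [key Fr_sub c hc, hT.fr c ⟨hc.1, hc.2.mono_right inter_subset_left⟩]
    · rw [key Bk_sub c hc, hT.bk c ⟨hc.1, hc.2.mono_right inter_subset_left⟩]

section Mfd

variable {M : Type} [TopologicalSpace M] [ChartedSpace P3 M] {K : ℝ → P3}

theorem psi_on (sd : SD K M) : ContinuousOn sd.psi (range K)ᶜ := fun p hp =>
  (sd.psi_ct p hp).1.continuousWithinAt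

theorem psi_maps (sd : SD K M) : MapsTo sd.psi (range K)ᶜ
    (({sd.minf}ᶜ : Set M) \ range fun x : ℝ => sd.ns (x, 0, 0)) := fun p hp =>
  ⟨sd.psi_ne hp, sd.psi_not p hp⟩

theorem cai_on (sd : SD K M) : ContinuousOn (fun m => cai (sd.th m))
    (({sd.minf}ᶜ : Set M) \ range fun x : ℝ => sd.ns (x, 0, 0)) := by
  intro m hm
  have h1 : sd.th m ≠ pole := fun h =>
    hm.1 (sd.th_bij.injOn hm.2 sd.minf_not (h.trans sd.th_minf.symm))
  exact ((contDiffAt_cai (caiN_pos (sd.th_bij.mapsTo hm.2).1 h1).ne').continuousAt.comp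
    (sd.continuousAt_th hm.2)).continuousWithinAt

theorem psi_mer (sd : SD K M) {ρ : ℝ} (h0 : 0 < ρ) (h1 : ρ < sd.r') (a : ℝ) :
    sd.psi (cai (sd.th (sd.ns (0, ρ * Real.cos a, ρ * Real.sin a)))) =
      sd.ns (0, ρ * Real.cos a, ρ * Real.sin a) := by
  obtain ⟨h2, h3⟩ := sd.ns_eq (x := 0) (a := a) h0 h1
  rw [h3, sd.th_psi _ h2, cai_cay]

end Mfd

theorem comm_closure {G : Type} [Group G] {s : Set G} (h : ∀ g ∈ s, ∀ k ∈ s, g * k = k * g)
    {a b : G} (ha : a ∈ Subgroup.closure s) (hb : b ∈ Subgroup.closure s) : a * b = b * a := by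
  have h1 : ∀ g ∈ s, Subgroup.closure s ≤ Subgroup.centralizer {g} := fun g hg =>
    (Subgroup.closure_le _).2 fun k hk => Subgroup.mem_centralizer_singleton_iff.2 (h k hk g hg)
  have h2 : Subgroup.closure s ≤ Subgroup.centralizer {b} :=
    (Subgroup.closure_le _).2 fun g hg => Subgroup.mem_centralizer_singleton_iff.2
      (Subgroup.mem_centralizer_singleton_iff.1 (h1 g hg hb)).symm
  exact Subgroup.mem_centralizer_singleton_iff.1 (h2 ha)

theorem atr_word {a x y u v : SL2Z} {k : ℤ} (h : IsConj a (u⁻¹ * x * u * (u⁻¹ * y * u) ^ k))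
    (hv : v = x * y ^ k) : atr a = atr v := by
  refine atr_conj (h.trans (isConj_iff.2 ⟨u, ?_⟩))
  have : (u⁻¹ * y * u) ^ k = u⁻¹ * y ^ k * u := by
    simpa using conj_zpow (a := u⁻¹) (b := y) (i := k)
  rw [this, hv]
  group

end DS

open DS in
theorem dspec_holds : DSpecStmt := by
  obtain ⟨P, hP, ⟨W₀, hR₀, hS₀, hN₀, hT₀⟩, hL⟩ := alg_holds
  refine (knot_pres.and (loop_words.and (mer_word.and nab_loops))).mono
    fun π h M _ _ _ hA fam => ?_
  obtain ⟨⟨hFr, hBk, hto, hfrom⟩, hloop, hmer, c, c', hc, hc', e1, e2, e3, hnab⟩ := h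
  have hnu := fam.nu0
  have hK := fam.K0
  rw [← hK] at hFr hBk hto hfrom hmer hnu
  rw [← hnu] at hmer
  have r0 : 0 < (fam.sd 0).r' / 2 := half_pos (fam.sd 0).r'_pos
  have r1 : (fam.sd 0).r' / 2 < (fam.sd 0).r' := half_lt_self (fam.sd 0).r'_pos
  have s0 : 0 < min ((fam.sd 0).r / 2) (1 / 2) :=
    lt_min (half_pos (fam.sd 0).r_pos) one_half_pos
  have s1 : min ((fam.sd 0).r / 2) (1 / 2) < (fam.sd 0).r :=
    (min_le_left _ _).trans_lt (half_lt_self (fam.sd 0).r_pos)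
  have s2 : min ((fam.sd 0).r / 2) (1 / 2) < 1 := (min_le_right _ _).trans_lt one_half_lt_one
  have hsurg : ∀ (F : PathFun (range (fam.K 0))ᶜ SL2Z) (φ ψ : P3 → SL2Z) (W : ℕ → ℕ → SL2Z),
      Triv F (Fr ∩ Far) (Bk ∩ Far) φ ψ W →
      IsConj (F.F fun t => cai ((fam.sd 0).th ((fam.sd 0).ns
        (0, (fam.sd 0).r' / 2 * Real.cos (2 * Real.pi * t),
          (fam.sd 0).r' / 2 * Real.sin (2 * Real.pi * t)))))
        (ev W wX * ((W 3 13)⁻¹ * W 3 14)) := fun F φ ψ W hT =>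
    (mer_conj (fam.sd 0) F r0 r1 s0 s1 (41 / 172)).trans
      (hmer SL2Z F φ ψ W hFr hBk hT (hloop _ SL2Z F φ ψ W hFr hBk hT).2.2.1 _ s0 s2)
  have htr : ∀ (F : PathFun ({(fam.sd 0).minf}ᶜ : Set M) SL2Z)
      (F' : PathFun (range (fam.K 0))ᶜ SL2Z) (φ ψ : P3 → SL2Z) (W : ℕ → ℕ → SL2Z),
      Triv F' (Fr ∩ Far) (Bk ∩ Far) φ ψ W →
      (∀ c, IsPath (range (fam.K 0))ᶜ c → F'.F c = F.F fun t => (fam.sd 0).psi (c t)) →
      ∀ n : ℕ, atr (F.F fun t => (fam.sd n).ns (t, 0, 0)) =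
        atr (ev W wX * ev W wY ^ (fam.ε * n)) := by
    intro F F' φ ψ W hT hF n
    obtain ⟨pX, pY, eX, eY⟩ := hloop _ SL2Z F' φ ψ W hFr hBk hT
    have := fam.hp SL2Z F n
    rw [← hF _ pX, ← hF _ pY, eX, eY] at this
    exact atr_word this rfl
  refine ⟨fun n => P (fam.ε * n), fun n m hn hnm => ?_, ?_, fun F hF m => ?_⟩
  · rcases fam.ε_eq with h | h
    · simpa [h] using (hP n m hn hnm).1
    · simpa [h] using (hP n m hn hnm).2
  · obtain ⟨F', φ, ψ, hT⟩ := hfrom SL2Z W₀ hR₀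
    obtain ⟨F₀, hF₀⟩ := F'.exists_comap (cai_on (fam.sd 0))
      fun m hm => ((fam.sd 0).psi_cai hm.2 hm.1).1
    obtain ⟨F, hF⟩ := extend_core hA (fam.sd 0) F₀ r0 r1 (by
      have := hsurg F' φ ψ W₀ hT
      rw [show ev W₀ wX * ((W₀ 3 13)⁻¹ * W₀ 3 14) = 1 from hS₀, isConj_one_left] at this
      rw [hF₀]
      exact this)
    have hFF : ∀ c, IsPath (range (fam.K 0))ᶜ c → F'.F c = F.F fun t => (fam.sd 0).psi (c t) := by
      intro c hc
      rw [hF _ (PathFun.pathFA_comp (psi_on _) (psi_maps _) hc), hF₀]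
      exact (F'.congr hc fun t ht => by rw [(fam.sd 0).th_psi _ (hc.2 ht), cai_cay]).symm
    have hnear : {p | ¬ Near π p} ⊆ (range (fam.K 0))ᶜ := by
      rintro p hp ⟨t, rfl⟩
      refine hp (Or.inl ⟨t, 0, by simp [sg], ?_⟩)
      rw [hK]
      simp
    refine ⟨F, fun n => ⟨(htr F F' φ ψ W₀ hT hFF n).trans (hT₀ _), ?_⟩⟩
    have hm : MapsTo (fam.sd 0).psi {p | ¬ Near π p}
        ({(fam.sd 0).minf}ᶜ \ range fun x : ℝ => (fam.sd n).ns (x, 0, 0)) := by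
      intro p hp
      refine ⟨(fam.sd 0).psi_ne (hnear hp), ?_⟩
      rintro ⟨x, hx⟩
      rcases fam.avoid n x with ⟨x', h⟩ | ⟨q, hq, hq', h⟩
      · exact (fam.sd 0).psi_not p (hnear hp) ⟨x', h.symm.trans hx⟩
      · have h1 : cay q = cay p := by
          rw [← (fam.sd 0).th_psi q hq, ← (fam.sd 0).th_psi p (hnear hp), ← h]
          exact congrArg _ hx
        exact hp (cay_inj h1 ▸ hq')
    have p1 := PathFun.pathFA_comp ((psi_on (fam.sd 0)).mono hnear) hm hc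
    have p2 := PathFun.pathFA_comp ((psi_on (fam.sd 0)).mono hnear) hm hc'
    obtain ⟨v1, v2⟩ := hnab _ SL2Z F' φ ψ W₀ hFr hBk hT
    refine ⟨_, _, p1.1, p2.1, p1.2, p2.2, by rw [e1], by rw [e2], by rw [e3], ?_⟩
    rw [← hFF c ⟨hc.1, hc.2.mono_right hnear⟩, ← hFF c' ⟨hc'.1, hc'.2.mono_right hnear⟩, v1, v2]
    intro h
    apply hN₀
    have h2 := congrArg (fun g => φ (c 0) * g * (φ (c 0))⁻¹) h
    simpa [Commute, SemiconjBy, mul_assoc] using h2
  · obtain ⟨F', hF'⟩ := F.exists_comap (psi_on (fam.sd 0))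
      ((psi_maps (fam.sd 0)).mono_right sdiff_subset)
    obtain ⟨φ, ψ, W, hT, hR, g, hg⟩ := hto SL2Z F'
    rw [htr F F' φ ψ W hT (fun c _ => hF' c) m]
    refine hL W hR ?_ (fun hcomm => ?_) _
    · have := hsurg F' φ ψ W hT
      rw [hF'] at this
      simp only [psi_mer (fam.sd 0) r0 r1] at this
      rw [mer_triv (fam.sd 0) F r0 r1, isConj_one_right] at this
      exact this
    · obtain ⟨g', hg'⟩ := core_gen hA (fam.sd 0) F _ g fun c hc => hF' c ▸ hg c hc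
      obtain ⟨d, d', a1, a2, a3, a4, b1, b2, b3, hne⟩ := hF
      have u1 := hg' d ⟨a1, a3⟩
      have u2 := hg' d' ⟨a2, a4⟩
      rw [b1] at u1
      rw [b2, b3] at u2
      have h2 := congrArg (fun g => g' (d 0) * g * (g' (d 0))⁻¹) (comm_closure hcomm u1 u2)
      exact hne (by simpa [mul_assoc] using h2)

end Pool.Agent.Lib.MP_4d7d0a_gt
end
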