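import Pool.Agent.Lib.MP_4d7d0a_gt.DSGeo
import Pool.Agent.Lib.MP_4d7d0a_gt.DST2

/-! The words of the two push-offs. -/

set_option autoImplicit false

open Set Filter Topology

namespace Pool.Agent.Lib.MP_4d7d0a_gt

namespace DS

/-- the common base point -/
def base : P3 := (-352, sg, -167 * sg)

namespace LoopAux

/-- the integer vertex -/
def zc (l : List Z3) (i : ℤ) : Z3 := l.getD (i % (l.length : ℤ)).toNat (0, 0, 0)

/-- twice the first grid coordinate of the lowered midpoint -/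
def X2 (V W : Z3) : ℤ := V.2.2 + W.2.2 + 16384 * (V.1 + W.1) - 262144

/-- twice the second grid coordinate of the lowered midpoint -/
def U2 (V W : Z3) : ℤ := V.2.2 + W.2.2 - 16384 * (V.1 + W.1) - 262144

def sepL (L : List ℤ) (a b : ℤ) : Prop :=
  ∀ j < 20, (a ≤ 32768 * L.getD j 0 - 65536 ∧ b ≤ 32768 * L.getD j 0 - 65536) ∨
    (32768 * L.getD j 0 + 65536 ≤ a ∧ 32768 * L.getD j 0 + 65536 ≤ b)

instance (L : List ℤ) (a b : ℤ) : Decidable (sepL L a b) := by unfold sepL; infer_instance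

def ok (V W : Z3) : Prop :=
  (V.2.1 ≤ 0 → sepL cZ (X2 V V) (X2 V W) ∧ V.2.1 + W.2.1 ≤ 16384) ∧
    (¬ V.2.1 ≤ 0 → sepL rZ (U2 V V) (U2 V W) ∧ 0 ≤ V.2.1 + W.2.1)

instance (V W : Z3) : Decidable (ok V W) := by unfold ok; infer_instance

def ci (L : List ℤ) (X : ℤ) : ℕ := ((List.range 20).filter fun j => 32768 * L.getD j 0 < X).length

def chk (L : List ℤ) (X : ℤ) : Prop :=
  ci L X ≤ 20 ∧ (∀ k < 20, k + 1 = ci L X → 32768 * L.getD k 0 < X) ∧
    (ci L X < 20 → X ≤ 32768 * L.getD (ci L X) 0)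

instance (L : List ℤ) (X : ℤ) : Decidable (chk L X) := by unfold chk; infer_instance

def good (V W : Z3) : Prop :=
  (V.1 = W.1 ∨ V.2.1 = W.2.1) ∧ ok V W ∧ ok W V ∧ chk cZ (X2 V W) ∧ chk rZ (U2 V W)

instance (V W : Z3) : Decidable (good V W) := by unfold good; infer_instance

def tr (V W : Z3) : List (ℕ × ℕ × Bool) :=
  if V.2.1 ≤ 0 then (if W.2.1 ≤ 0 then [] else [(ci cZ (X2 V W), ci rZ (U2 V W), true)])
  else (if W.2.1 ≤ 0 then [(ci cZ (X2 V W), ci rZ (U2 V W), false)] else [])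

def word (l : List Z3) : ℕ → List (ℕ × ℕ × Bool)
  | 0 => []
  | m + 1 => word l m ++ tr (zc l (20 + m)) (zc l (20 + m + 1))

/-- the target set of a vertex -/
def St (V : Z3) : Set P3 := if V.2.1 ≤ 0 then Fr ∩ Far else Bk ∩ Far

/-- the lowered point at parameter `u` from `V` to `W` -/
noncomputable def low (V W : Z3) (u : ℝ) : P3 :=
  toP3 V + u • (toP3 W - toP3 V) - (0, 0, 8 * sg)

theorem sep_real {L : List ℤ} {a b : ℤ} (h : sepL L a b) {u v w : ℝ} (h0 : 0 ≤ u) (h1 : u ≤ 1 / 2)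
    (hv : 2 * v = (1 - 2 * u) * a + 2 * u * b) (hw : |w - v| ≤ sg) {j : ℕ} (hj : j < 20) :
    sg ≤ |w - sg * (L.getD j 0 : ℤ)| := by
  have hs : sg = 16384 := rfl
  obtain ⟨w1, w2⟩ := abs_le.1 hw
  rcases h j hj with ⟨ha, hb⟩ | ⟨ha, hb⟩
  · have ha' : (a : ℝ) ≤ 32768 * (L.getD j 0 : ℤ) - 65536 := by exact_mod_cast ha
    have hb' : (b : ℝ) ≤ 32768 * (L.getD j 0 : ℤ) - 65536 := by exact_mod_cast hb
    refine le_abs.2 (Or.inr ?_)
    rw [hs] at *
    nlinarith [mul_nonneg (by linarith : 0 ≤ 1 - 2 * u) (sub_nonneg.2 ha'),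
      mul_nonneg h0 (sub_nonneg.2 hb')]
  · have ha' : 32768 * (L.getD j 0 : ℤ) + 65536 ≤ (a : ℝ) := by exact_mod_cast ha
    have hb' : 32768 * (L.getD j 0 : ℤ) + 65536 ≤ (b : ℝ) := by exact_mod_cast hb
    refine le_abs.2 (Or.inl ?_)
    rw [hs] at *
    nlinarith [mul_nonneg (by linarith : 0 ≤ 1 - 2 * u) (sub_nonneg.2 ha'),
      mul_nonneg h0 (sub_nonneg.2 hb')]

theorem xi_low (V W : Z3) (u : ℝ) :
    2 * xi (low V W u) = (1 - 2 * u) * X2 V V + 2 * u * X2 V W := by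
  simp only [xi, low, toP3, X2, sg, Prod.fst_sub, Prod.snd_sub, Prod.fst_add, Prod.snd_add,
    Prod.smul_fst, Prod.smul_snd, smul_eq_mul]
  push_cast
  ring

theorem up_low (V W : Z3) (u : ℝ) :
    2 * up (low V W u) = (1 - 2 * u) * U2 V V + 2 * u * U2 V W := by
  simp only [up, low, toP3, U2, sg, Prod.fst_sub, Prod.snd_sub, Prod.fst_add, Prod.snd_add,
    Prod.smul_fst, Prod.smul_snd, smul_eq_mul]
  push_cast
  ring

theorem y_low (V W : Z3) (u : ℝ) :
    (low V W u).2.1 = (1 - 2 * u) * V.2.1 + u * (V.2.1 + W.2.1) := by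
  simp only [low, toP3, Prod.fst_sub, Prod.snd_sub, Prod.fst_add, Prod.snd_add,
    Prod.smul_fst, Prod.smul_snd, smul_eq_mul]
  ring

theorem mem_St {V W : Z3} (h : ok V W) {u : ℝ} (h0 : 0 ≤ u) (h1 : u ≤ 1 / 2) {p : P3}
    (hp : ‖p - low V W u‖ ≤ 1 / 2) : p ∈ St V := by
  have hs : sg = 16384 := rfl
  have a1 := (norm_fst_le _).trans hp
  have a2 := ((norm_fst_le _).trans (norm_snd_le _)).trans hp
  have a3 := ((norm_snd_le _).trans (norm_snd_le _)).trans hp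
  simp only [Prod.fst_sub, Prod.snd_sub, Real.norm_eq_abs] at a1 a2 a3
  obtain ⟨b1, b2⟩ := abs_le.1 a1
  obtain ⟨b3, b4⟩ := abs_le.1 a2
  obtain ⟨b5, b6⟩ := abs_le.1 a3
  have hy := y_low V W u
  unfold St
  split_ifs with hV
  · obtain ⟨h2, h3⟩ := h.1 hV
    have hx : ∀ j < 20, sg ≤ |xi p - cL j| := fun j hj =>
      sep_real h2 h0 h1 (xi_low V W u)
        (by unfold xi; rw [hs]; exact abs_le.2 ⟨by linarith, by linarith⟩) hj
    have hV' : ((V.2.1 : ℤ) : ℝ) ≤ 0 := by exact_mod_cast hV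
    have h3' : ((V.2.1 : ℤ) : ℝ) + W.2.1 ≤ 16384 := by exact_mod_cast h3
    refine ⟨⟨fun ⟨j, hj, e, _⟩ => ?_, fun _ => ?_⟩, far_of_xi hx⟩
    · have := hx j hj
      rw [e, sub_self, abs_zero, hs] at this
      norm_num at this
    · rw [hs]
      nlinarith [mul_nonneg (by linarith : 0 ≤ 1 - 2 * u) (neg_nonneg.2 hV'),
        mul_nonneg h0 (sub_nonneg.2 h3')]
  · obtain ⟨h2, h3⟩ := h.2 hV
    have hx : ∀ j < 20, sg ≤ |up p - rL j| := fun j hj =>
      sep_real h2 h0 h1 (up_low V W u)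
        (by unfold up; rw [hs]; exact abs_le.2 ⟨by linarith, by linarith⟩) hj
    have hV' : (0 : ℝ) ≤ ((V.2.1 : ℤ) : ℝ) := by exact_mod_cast (not_le.1 hV).le
    have h3' : (0 : ℝ) ≤ ((V.2.1 : ℤ) : ℝ) + W.2.1 := by exact_mod_cast h3
    refine ⟨⟨fun _ => ?_, fun ⟨j, hj, e, _⟩ => ?_⟩, far_of_up hx⟩
    · rw [hs]
      nlinarith [mul_nonneg (by linarith : 0 ≤ 1 - 2 * u) hV', mul_nonneg h0 h3']
    · have := hx j hj
      rw [e, sub_self, abs_zero, hs] at this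
      norm_num at this

theorem cyc_zc (l : List Z3) (i : ℤ) : cyc l i = toP3 (zc l i) := rfl

theorem edge_low {l : List Z3} (hr : Rel (cyc l)) {i : ℤ}
    (h : (zc l i).1 = (zc l (i + 1)).1 ∨ (zc l i).2.1 = (zc l (i + 1)).2.1) (u : ℝ) :
    edge (cyc l i) (cyc l (i + 1)) u - (0, 0, 8 * sg) = low (zc l i) (zc l (i + 1)) u := by
  have h1 := hr i
  simp only [cyc_zc, toP3] at h1
  unfold low
  congr 1
  simp only [edge, cyc_zc, toP3, Prod.mk_sub_mk, Prod.smul_mk, smul_eq_mul, Prod.mk_add_mk,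
    Prod.mk.injEq, true_and]
  rcases h with h | h
  · rw [h] at h1 ⊢
    linear_combination (-u / 2) * h1
  · rw [h] at h1 ⊢
    linear_combination (-u / 2) * h1

theorem low_rev (V W : Z3) (u : ℝ) : low V W u = low W V (1 - u) := by
  unfold low
  congr 1
  module

theorem plc_eq (W : ℤ → P3) (i : ℤ) {u : ℝ} (h0 : 0 ≤ u) (h1 : u < 1) :
    plc W (i + u) = edge (W i) (W (i + 1)) u := by
  have e : ⌊(i : ℝ) + u⌋ = i := by
    rw [Int.floor_intCast_add, Int.floor_eq_zero_iff.2 ⟨h0, h1⟩, add_zero]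
  unfold plc
  rw [e, Int.fract_intCast_add, Int.fract_eq_self.2 ⟨h0, h1⟩]

section Main

variable {l : List Z3} (hr : Rel (cyc l)) {π : Prof}
  (hc : ∀ t, ‖π.real (cyc l) t - plc (cyc l) t‖ ≤ 1 / 2)

include hr hc

theorem star {i : ℤ} (h1 : good (zc l i) (zc l (i + 1)))
    (h2 : good (zc l (i + 1)) (zc l (i + 1 + 1))) {t : ℝ} (ht : t ∈ Icc ((i : ℝ) + 1 / 2) (i + 3 / 2)) :
    π.real (cyc l) t - (0, 0, 8 * sg) ∈ St (zc l (i + 1)) := by
  rcases lt_or_ge t (i + 1) with h | h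
  · have e := plc_eq (cyc l) i (u := t - i) (by linarith [ht.1]) (by linarith)
    rw [add_sub_cancel] at e
    refine mem_St h1.2.2.1 (u := 1 - (t - i)) (by linarith) (by linarith [ht.1]) ?_
    rw [← low_rev, ← edge_low hr h1.1, ← e, sub_sub_sub_cancel_right]
    exact hc t
  · have e := plc_eq (cyc l) (i + 1) (u := t - (i + 1 : ℤ)) (by push_cast; linarith)
      (by push_cast; linarith [ht.2])
    rw [add_sub_cancel] at e
    refine mem_St h2.2.1 (u := t - (i + 1 : ℤ)) (by push_cast; linarith)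
      (by push_cast; linarith [ht.2]) ?_
    rw [← edge_low hr h2.1, ← e, sub_sub_sub_cancel_right]
    exact hc t

omit hc in
theorem mid_eq {i : ℤ} (h : good (zc l i) (zc l (i + 1))) :
    π.real (cyc l) (i + 1 / 2) - (0, 0, 8 * sg) = low (zc l i) (zc l (i + 1)) (1 / 2) := by
  have := π.small
  rw [π.real_edge hr i (by linarith) (by linarith), edge_low hr h.1]

end Main

theorem idx_ci {L : List ℤ} {X : ℤ} (h : chk L X) {v : ℝ} (hv : 2 * v = X)
    (hL : ∀ j k, j < k → k ≤ 20 → sg * (L.getD j 0 : ℤ) + 2 * sg ≤ sg * (L.getD k 0 : ℤ)) :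
    idx (fun j => sg * (L.getD j 0 : ℤ)) v = ci L X := by
  have hs : sg = 16384 := rfl
  refine idx_eq hL h.1 (fun k hk => ?_) fun hj => ?_
  · have h1 : (32768 * (L.getD k 0 : ℤ) : ℝ) < X := by
      exact_mod_cast h.2.1 k (by have := h.1; omega) hk
    rw [hs]
    linarith
  · have h1 : (X : ℝ) ≤ 32768 * (L.getD (ci L X) 0 : ℤ) := by exact_mod_cast h.2.2 hj
    rw [hs]
    linarith

theorem ev_append {G : Type} [Group G] (W : ℕ → ℕ → G) (a b : List (ℕ × ℕ × Bool)) :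
    ev W (a ++ b) = ev W a * ev W b := by
  simp [ev]

/-- the potential of a vertex -/
def pot {G : Type} (φ ψ : P3 → G) (V : Z3) : P3 → G := if V.2.1 ≤ 0 then φ else ψ

theorem trans_eq {S : Set P3} {G : Type} [Group G] {F : PathFun S G} {φ ψ : P3 → G}
    {W : ℕ → ℕ → G} (hT : Triv F (Fr ∩ Far) (Bk ∩ Far) φ ψ W) {V V' : Z3} (h : good V V') :
    pot φ ψ V (low V V' (1 / 2)) = ev W (tr V V') * pot φ ψ V' (low V V' (1 / 2)) := by
  have m1 : low V V' (1 / 2) ∈ St V :=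
    mem_St h.2.1 (u := 1 / 2) (by norm_num) le_rfl (by simp)
  have m2 : low V V' (1 / 2) ∈ St V' :=
    mem_St h.2.2.1 (u := 1 / 2) (by norm_num) le_rfl (by rw [low_rev V V']; norm_num)
  have c1 : cx (low V V' (1 / 2)) = ci cZ (X2 V V') :=
    idx_ci h.2.2.2.1 (by rw [xi_low]; ring) fun _ _ => cL_gap
  have c2 : cy (low V V' (1 / 2)) = ci rZ (U2 V V') :=
    idx_ci h.2.2.2.2 (by rw [up_low]; ring) fun _ _ => rL_gap
  unfold St at m1 m2
  unfold pot tr
  by_cases a : V.2.1 ≤ 0 <;> by_cases b : V'.2.1 ≤ 0 <;> simp only [a, b, if_true, if_false] at m1 m2 ⊢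
  · simp [ev]
  · rw [hT.w _ ⟨m1.1, m2.1⟩, c1, c2]
    simp [ev]
  · rw [hT.w _ ⟨m2.1, m1.1⟩, c1, c2]
    simp [ev]
  · simp [ev]

theorem piece {S : Set P3} {G : Type} [Group G] {F : PathFun S G} {φ ψ : P3 → G}
    {W : ℕ → ℕ → G} (hT : Triv F (Fr ∩ Far) (Bk ∩ Far) φ ψ W) {V : Z3} {c : ℝ → P3}
    (hc : IsPath (St V) c) : F.F c = (pot φ ψ V (c 0))⁻¹ * pot φ ψ V (c 1) := by
  unfold St at hc
  unfold pot
  split_ifs at hc ⊢
  · exact hT.fr c hc
  · exact hT.bk c hc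

theorem main {l : List Z3} (hr : Rel (cyc l)) {π : Prof}
    (hc : ∀ t, ‖π.real (cyc l) t - plc (cyc l) t‖ ≤ 1 / 2) {n : ℕ}
    (hg : ∀ k ≤ n, good (zc l (20 + (k : ℕ))) (zc l (20 + (k : ℕ) + 1)))
    {S : Set P3} {G : Type} [Group G] {F : PathFun S G} {φ ψ : P3 → G} {W : ℕ → ℕ → G}
    (h1 : Fr ∩ Far ⊆ S) (h2 : Bk ∩ Far ⊆ S) (hT : Triv F (Fr ∩ Far) (Bk ∩ Far) φ ψ W) :
    ∀ m ≤ n, MapsTo (fun t => π.real (cyc l) t - (0, 0, 8 * sg)) (Icc (41 / 2) (41 / 2 + m)) S ∧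
      F.F (fun t => π.real (cyc l) (41 / 2 + t * m) - (0, 0, 8 * sg)) =
        (pot φ ψ (zc l 20) (low (zc l 20) (zc l 21) (1 / 2)))⁻¹ * ev W (word l m) *
          pot φ ψ (zc l (20 + m)) (low (zc l (20 + m)) (zc l (20 + m + 1)) (1 / 2)) := by
  have hS : ∀ V, St V ⊆ S := fun V => by
    unfold St
    split_ifs
    exacts [h1, h2]
  have hcont : Continuous fun t => π.real (cyc l) t - ((0, 0, 8 * sg) : P3) :=
    (π.real_smooth hr).continuous.sub continuous_const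
  intro m
  induction m with
  | zero =>
    intro _
    have g0 := hg 0 (Nat.zero_le _)
    have e := mid_eq hr (π := π) g0
    have m1 := mem_St g0.2.1 (u := 1 / 2) (by norm_num) le_rfl
      (p := low (zc l (20 + ((0 : ℕ) : ℤ))) (zc l (20 + ((0 : ℕ) : ℤ) + 1)) (1 / 2)) (by simp)
    have e' : π.real (cyc l) (41 / 2) - (0, 0, 8 * sg) =
        low (zc l (20 + ((0 : ℕ) : ℤ))) (zc l (20 + ((0 : ℕ) : ℤ) + 1)) (1 / 2) := by
      rw [← e]
      norm_num
    constructor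
    · intro t ht
      have : t = 41 / 2 := le_antisymm (by simpa using ht.2) ht.1
      subst this
      exact hS _ (e' ▸ m1)
    · simp only [Nat.cast_zero, mul_zero, add_zero, word]
      rw [F.const (hS _ (e' ▸ m1))]
      simp [ev]
  | succ m ih =>
    intro hm
    obtain ⟨i1, i2⟩ := ih (by omega)
    have g0 := hg m (by omega)
    have g1 := hg (m + 1) hm
    have e1 : (20 + ((m + 1 : ℕ) : ℤ)) = 20 + (m : ℤ) + 1 := by push_cast; ring
    rw [e1] at g1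
    have hst : ∀ t ∈ Icc (41 / 2 + (m : ℝ)) (41 / 2 + m + 1),
        π.real (cyc l) t - (0, 0, 8 * sg) ∈ St (zc l (20 + m + 1)) := fun t ht =>
      star hr hc g0 g1 ⟨by push_cast; linarith [ht.1], by push_cast; linarith [ht.2]⟩
    have hm0 : (0 : ℝ) ≤ m := Nat.cast_nonneg m
    have hmap : MapsTo (fun t => π.real (cyc l) t - (0, 0, 8 * sg))
        (Icc (41 / 2) (41 / 2 + ((m + 1 : ℕ) : ℝ))) S := by
      intro t ht
      rcases le_total t (41 / 2 + m) with h | h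
      · exact i1 ⟨ht.1, h⟩
      · exact hS _ (hst t ⟨h, by have := ht.2; push_cast at this; linarith⟩)
    refine ⟨hmap, ?_⟩
    have hcut := F.cut (c := fun t => π.real (cyc l) t - (0, 0, 8 * sg)) ordConnected_Icc
      hcont.continuousOn hmap (a := 41 / 2) (b := 41 / 2 + m) (d := 41 / 2 + ((m + 1 : ℕ) : ℝ))
      ⟨le_rfl, by push_cast; linarith⟩ ⟨by linarith, by push_cast; linarith⟩
      ⟨by push_cast; linarith, le_rfl⟩
    simp only [add_sub_cancel_left] at hcut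
    have hp := piece hT (V := zc l (20 + m + 1))
      (c := fun t => π.real (cyc l) (41 / 2 + m + t * (41 / 2 + ((m + 1 : ℕ) : ℝ) - (41 / 2 + m))) -
        (0, 0, 8 * sg))
      ⟨(hcont.comp (by fun_prop)).continuousOn, fun t ht =>
        hst _ ⟨by push_cast; nlinarith [ht.1], by push_cast; nlinarith [ht.2]⟩⟩
    have q0 : π.real (cyc l) (41 / 2 + m + 0 * (41 / 2 + ((m + 1 : ℕ) : ℝ) - (41 / 2 + m))) -
        (0, 0, 8 * sg) = low (zc l (20 + m)) (zc l (20 + m + 1)) (1 / 2) := by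
      rw [← mid_eq hr (π := π) g0]
      congr 2
      push_cast
      ring
    have q1 : π.real (cyc l) (41 / 2 + m + 1 * (41 / 2 + ((m + 1 : ℕ) : ℝ) - (41 / 2 + m))) -
        (0, 0, 8 * sg) = low (zc l (20 + m + 1)) (zc l (20 + m + 1 + 1)) (1 / 2) := by
      rw [← mid_eq hr (π := π) g1]
      congr 2
      push_cast
      ring
    rw [hcut, i2, hp, q0, q1, e1, word, ev_append, trans_eq hT g0]
    group

theorem good_WL : ∀ k ≤ 86, good (zc WL (20 + (k : ℕ))) (zc WL (20 + (k : ℕ) + 1)) := by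
  decide +kernel

theorem good_Wa : ∀ k ≤ 44, good (zc Wa (20 + (k : ℕ))) (zc Wa (20 + (k : ℕ) + 1)) := by
  decide +kernel

theorem word_WL : word WL 86 = wX := by decide +kernel

theorem word_Wa : word Wa 44 = wY := by decide +kernel

theorem ends : zc WL 20 = (-256, 16384, -1032192) ∧ zc WL 21 = (-448, 16384, -4177920) ∧
    zc WL (20 + (86 : ℕ)) = (-256, 16384, -1032192) ∧
    zc WL (20 + (86 : ℕ) + 1) = (-448, 16384, -4177920) ∧
    zc Wa 20 = (-256, 16384, -1032192) ∧ zc Wa 21 = (-448, 16384, -4177920) ∧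
    zc Wa (20 + (44 : ℕ)) = (-256, 16384, -1032192) ∧
    zc Wa (20 + (44 : ℕ) + 1) = (-448, 16384, -4177920) := by decide +kernel

theorem low_base : low (-256, 16384, -1032192) (-448, 16384, -4177920) (1 / 2) = base := by
  simp only [low, toP3, base, sg, Prod.mk_sub_mk, Prod.smul_mk, smul_eq_mul, Prod.mk_add_mk,
    Prod.mk.injEq]
  norm_num

theorem norm_Wa (i : ℤ) : ‖cyc Wa i‖ ≤ 16777216 := by
  have h : ∀ v ∈ Wa, |v.1| ≤ 16777216 ∧ |v.2.1| ≤ 16777216 ∧ |v.2.2| ≤ 16777216 := by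
    decide +kernel
  have h1 : |(zc Wa i).1| ≤ 16777216 ∧ |(zc Wa i).2.1| ≤ 16777216 ∧
      |(zc Wa i).2.2| ≤ 16777216 := by
    unfold zc
    rw [List.getD_eq_getElem?_getD]
    cases e : Wa[(i % (Wa.length : ℤ)).toNat]? with
    | none => simp
    | some v => exact h v (List.mem_of_getElem? e)
  rw [cyc_zc]
  simp only [toP3, Prod.norm_def, Real.norm_eq_abs, max_le_iff]
  exact ⟨by exact_mod_cast h1.1, by exact_mod_cast h1.2.1, by exact_mod_cast h1.2.2⟩

end LoopAux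

open LoopAux in
theorem loop_words : Small fun π => ∀ (S : Set P3) (G : Type) [Group G] (F : PathFun S G)
    (φ ψ : P3 → G) (W : ℕ → ℕ → G), Fr ∩ Far ⊆ S → Bk ∩ Far ⊆ S →
    Triv F (Fr ∩ Far) (Bk ∩ Far) φ ψ W →
      IsPath S (loopX π) ∧ IsPath S (loopY π) ∧
        F.F (loopX π) = (ψ base)⁻¹ * ev W wX * ψ base ∧
        F.F (loopY π) = (ψ base)⁻¹ * ev W wY * ψ base := by
  refine (small_lt (c := 1 / (40 * (1 + 16777216) ^ 2)) (by norm_num)).mono fun π hη => ?_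
  intro S G _ F φ ψ W h1 h2 hT
  have hb : 20 * (1 + (16777216 : ℝ)) ^ 2 * π.η ≤ 1 / 2 := by
    have : π.η ≤ 1 / (40 * (1 + 16777216) ^ 2) := hη.le
    norm_num at this ⊢
    linarith
  obtain ⟨a1, a2⟩ := main rel_WL (π := π)
    (fun t => (π.real_close rel_WL CertAux.norm_WL t).trans hb) good_WL h1 h2 hT 86 le_rfl
  obtain ⟨b1, b2⟩ := main rel_Wa (π := π)
    (fun t => (π.real_close rel_Wa norm_Wa t).trans hb) good_Wa h1 h2 hT 44 le_rfl
  obtain ⟨e1, e2, e3, e4, e5, e6, e7, e8⟩ := ends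
  have hp : pot φ ψ (-256, 16384, -1032192) = ψ := by simp [pot]
  rw [e1, e2, e3, e4, low_base, hp, word_WL] at a2
  rw [e5, e6, e7, e8, low_base, hp, word_Wa] at b2
  have eX : loopX π = fun t => π.real (cyc WL) (41 / 2 + t * (86 : ℕ)) - (0, 0, 8 * sg) := by
    funext t
    unfold loopX
    congr 2
    push_cast
    ring
  have eY : loopY π = fun t => π.real (cyc Wa) (41 / 2 + t * (44 : ℕ)) - (0, 0, 8 * sg) := by
    funext t
    unfold loopY
    congr 2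
    push_cast
    ring
  refine ⟨?_, ?_, eX ▸ a2, eY ▸ b2⟩
  · rw [eX]
    exact ⟨(((π.real_smooth rel_WL).continuous.comp (by fun_prop)).sub
      continuous_const).continuousOn, fun t ht =>
      a1 ⟨by push_cast; nlinarith [ht.1], by push_cast; nlinarith [ht.2]⟩⟩
  · rw [eY]
    exact ⟨(((π.real_smooth rel_Wa).continuous.comp (by fun_prop)).sub
      continuous_const).continuousOn, fun t ht =>
      b1 ⟨by push_cast; nlinarith [ht.1], by push_cast; nlinarith [ht.2]⟩⟩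

end DS

end Pool.Agent.Lib.MP_4d7d0a_gt
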