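import Pool.Agent.Lib.MP_4d7d0a_gt.TB1

-- part Pool.Agent.Lib.MP_4d7d0a_gt.TBEll
section

/-! Small curves around a point: linearisation and rounding. -/

set_option autoImplicit false

open Set Filter Topology
open scoped ContDiff

namespace Pool.Agent.Lib.MP_4d7d0a_gt

/-- the parametrised circle -/
theorem tbell_loop {ρ : ℝ} (hρ : 0 < ρ) (o : Bool) : ∃ γ' : ℝ → P2, Continuous γ' ∧
    (∀ t, HasDerivAt (fun t => pol ρ (2 * Real.pi * ori o t)) (γ' t) t ∧ γ' t ≠ 0) ∧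
    pol ρ (2 * Real.pi * ori o 1) = pol ρ (2 * Real.pi * ori o 0) ∧ γ' 1 = γ' 0 ∧
    InjOn (fun t => pol ρ (2 * Real.pi * ori o t)) (Ico 0 1) := by
  obtain ⟨ε, hε, hd⟩ : ∃ ε : ℝ, ε ≠ 0 ∧ ∀ t, HasDerivAt (fun t => 2 * Real.pi * ori o t) ε t := by
    cases o
    · exact ⟨2 * Real.pi * (-1), by simp, fun t =>
        ((hasDerivAt_id t).const_sub 1).const_mul (2 * Real.pi)⟩
    · exact ⟨2 * Real.pi * 1, by simp, fun t => (hasDerivAt_id t).const_mul (2 * Real.pi)⟩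
  have hc : Continuous fun t => 2 * Real.pi * ori o t :=
    continuous_iff_continuousAt.2 fun t => (hd t).continuousAt
  have h1 : Real.cos (2 * Real.pi * ori o 1) = Real.cos (2 * Real.pi * ori o 0) := by
    cases o <;> simp [ori]
  have h2 : Real.sin (2 * Real.pi * ori o 1) = Real.sin (2 * Real.pi * ori o 0) := by
    cases o <;> simp [ori]
  refine ⟨fun t => ε • (-(ρ * Real.sin (2 * Real.pi * ori o t)),
    ρ * Real.cos (2 * Real.pi * ori o t)), by fun_prop, fun t =>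
      ⟨(hasDerivAt_pol ρ _).scomp t (hd t), smul_ne_zero hε fun h => ?_⟩,
    by simp only [pol, h1, h2], by simp only [h1, h2], fun t ht t' ht' h => ?_⟩
  · refine pol_ne_zero hρ.ne' (2 * Real.pi * ori o t) (Prod.ext (congrArg Prod.snd h) ?_)
    exact neg_eq_zero.1 (congrArg Prod.fst h)
  · obtain ⟨-, k, hk⟩ := pol_inj hρ hρ h
    have h3 : ori o t = ori o t' + k :=
      mul_left_cancel₀ Real.two_pi_pos.ne' (by rw [mul_add]; exact hk)
    have h4 : ∀ m : ℤ, t = t' + m → t = t' := fun m hm => by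
      have a1 : (m : ℝ) < 1 := by linarith [ht.2, ht'.1]
      have a2 : (-1 : ℝ) < m := by linarith [ht.1, ht'.2]
      have a3 : m = 0 := by
        have b1 : m < 1 := by exact_mod_cast a1
        have b2 : -1 < m := by exact_mod_cast a2
        omega
      simpa [a3] using hm
    cases o
    · simp only [ori, Bool.false_eq_true, if_false] at h3
      exact h4 (-k) (by push_cast; linarith)
    · exact h4 k h3

/-- images of a circle under a family of embeddings -/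
theorem tbell_fam {E : Type} [NormedAddCommGroup E] [NormedSpace ℝ E] {W : Set E} {B : Set P2}
    (F : ℝ → P2 → E) (D : ℝ → P2 → P2 →L[ℝ] E)
    (hF : ContinuousOn (fun a : ℝ × P2 => F a.1 a.2) (univ ×ˢ B))
    (hD : ContinuousOn (fun a : ℝ × P2 => D a.1 a.2) (univ ×ˢ B))
    (h : ∀ s ∈ Icc (0 : ℝ) 1, InjOn (F s) B ∧
      ∀ w ∈ B, HasFDerivAt (F s) (D s w) w ∧ Function.Injective (D s w))
    {ρ : ℝ} (hρ : 0 < ρ) (hB : ∀ a, pol ρ a ∈ B)
    (hW : ∀ s ∈ Icc (0 : ℝ) 1, ∀ a, F s (pol ρ a) ∈ W) (o : Bool) :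
    FamE W (1 : Equiv.Perm Unit) (fun _ t => F 0 (pol ρ (2 * Real.pi * ori o t)))
      (fun _ t => F 1 (pol ρ (2 * Real.pi * ori o t))) := by
  obtain ⟨γ', c1, c2, c3, c4, c5⟩ := tbell_loop hρ o
  have hc : Continuous fun t => pol ρ (2 * Real.pi * ori o t) :=
    continuous_iff_continuousAt.2 fun t => (c2 t).1.continuousAt
  have hm : Continuous fun a : ℝ × ℝ => ((a.1, pol ρ (2 * Real.pi * ori o a.2)) : ℝ × P2) :=
    continuous_fst.prodMk (hc.comp continuous_snd)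
  refine fam_of_loops (fun s t => F s (pol ρ (2 * Real.pi * ori o t)))
    (fun s t => D s (pol ρ (2 * Real.pi * ori o t)) (γ' t))
    (hF.comp hm.continuousOn fun a _ => ⟨trivial, hB _⟩)
    ((hD.comp hm.continuousOn fun a _ => ⟨trivial, hB _⟩).clm_apply
      (c1.comp continuous_snd).continuousOn) fun s hs =>
    ⟨fun t _ => ⟨(HasFDerivAt.comp_hasDerivAt (l := F s) t
        ((h s hs).2 _ (hB (2 * Real.pi * ori o t))).1 (c2 t).1).hasDerivWithinAt,
      fun e => (c2 t).2 (((h s hs).2 _ (hB _)).2 (e.trans (map_zero _).symm)), hW s hs _⟩,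
      by simp only [c3], by simp only [c3, c4],
      fun t ht t' ht' e => c5 ht ht' ((h s hs).1 (hB _) (hB _) e)⟩

/-- linearisation of the image of a small circle -/
theorem fam_lin {E : Type} [NormedAddCommGroup E] [NormedSpace ℝ E] {f : P2 → E}
    (hf : ContDiffAt ℝ 1 f 0) (hi : Function.Injective (fderiv ℝ f 0)) {η : ℝ} (hη : 0 < η)
    (o : Bool) : ∀ᶠ ρ : ℝ in 𝓝[>] 0, FamE (Metric.ball (f 0) η \ {f 0}) (1 : Equiv.Perm Unit)
      (fun _ t => f (pol ρ (2 * Real.pi * ori o t)))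
      (fun _ t => f 0 + fderiv ℝ f 0 (pol ρ (2 * Real.pi * ori o t))) := by
  set L := fderiv ℝ f 0 with hL
  obtain ⟨K, K0, hK⟩ := (L : P2 →ₗ[ℝ] E).exists_antilipschitzWith (LinearMap.ker_eq_bot.2 hi)
  have hK' : ∀ v, ‖v‖ ≤ K * ‖L v‖ := fun v => by simpa using hK.le_mul_dist v 0
  have K1 : (0 : ℝ) < K := K0
  have hcd : ∀ {w}, ContDiffAt ℝ 1 f w → ContinuousAt (fderiv ℝ f) w := fun hw =>
    (hw.fderiv_right (m := 0) le_rfl).continuousAt
  have e1 : ∀ᶠ w in 𝓝 (0 : P2), dist (fderiv ℝ f w) L < 1 / (2 * K) :=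
    Metric.tendsto_nhds.1 (hcd hf) _ (by positivity)
  have e2 : ∀ᶠ w in 𝓝 (0 : P2), dist (f w) (f 0) < η := Metric.tendsto_nhds.1 hf.continuousAt _ hη
  have e3 : ∀ᶠ w in 𝓝 (0 : P2), dist (L w) (L 0) < η :=
    Metric.tendsto_nhds.1 L.continuous.continuousAt _ hη
  obtain ⟨δ, hδ, H⟩ := Metric.eventually_nhds_iff_ball.1
    ((hf.eventually (by simp)).and (e1.and (e2.and e3)))
  have hd : ∀ w ∈ Metric.ball (0 : P2) δ, HasFDerivAt f (fderiv ℝ f w) w := fun w hw =>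
    ((H w hw).1.differentiableAt (by simp)).hasFDerivAt
  have key : ∀ s ∈ Icc (0 : ℝ) 1, ∀ (v : P2) (x : E), ‖x‖ ≤ 1 / (2 * K) * ‖v‖ →
      (1 - s) • x + L v = 0 → v = 0 := fun s hs v x hx e => by
    have a1 : ‖L v‖ ≤ 1 / (2 * K) * ‖v‖ := by
      rw [eq_neg_of_add_eq_zero_right e, norm_neg, norm_smul,
        Real.norm_of_nonneg (sub_nonneg.2 hs.2)]
      exact (mul_le_of_le_one_left (norm_nonneg x) (by linarith [hs.1])).trans hx
    have a2 := (hK' v).trans (mul_le_mul_of_nonneg_left a1 K1.le)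
    rw [show (K : ℝ) * (1 / (2 * K) * ‖v‖) = ‖v‖ / 2 by field_simp] at a2
    exact norm_le_zero_iff.1 (by linarith)
  have hinj : ∀ s ∈ Icc (0 : ℝ) 1,
      InjOn (fun w => (1 - s) • f w + s • (f 0 + L w)) (Metric.ball 0 δ) :=
    fun s hs w hw w' hw' e => by
      have a1 := (convex_ball (0 : P2) δ).norm_image_sub_le_of_norm_hasFDerivWithin_le'
        (fun x hx => (hd x hx).hasFDerivWithinAt)
        (fun x hx => (dist_eq_norm (fderiv ℝ f x) L ▸ (H x hx).2.1).le) hw' hw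
      refine sub_eq_zero.1 (key s hs _ _ a1 ?_)
      rw [← sub_eq_zero.2 e, map_sub]
      module
  filter_upwards [Ioo_mem_nhdsGT hδ] with ρ hρ
  have hB : ∀ a, pol ρ a ∈ Metric.ball (0 : P2) δ := fun a =>
    mem_ball_zero_iff.2 ((norm_pol_le ρ a).trans_lt (by rw [abs_of_pos hρ.1]; exact hρ.2))
  have c1 : ContinuousOn f (Metric.ball 0 δ) := fun w hw =>
    (hd w hw).continuousAt.continuousWithinAt
  have c2 : ContinuousOn (fderiv ℝ f) (Metric.ball 0 δ) := fun w hw =>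
    (hcd (H w hw).1).continuousWithinAt
  have c3 : Continuous fun a : ℝ × P2 => 1 - a.1 := by fun_prop
  refine (tbell_fam (W := Metric.ball (f 0) η \ {f 0}) (B := Metric.ball 0 δ)
    (fun s w => (1 - s) • f w + s • (f 0 + L w))
    (fun s w => (1 - s) • fderiv ℝ f w + s • L)
    ((c3.continuousOn.smul (c1.comp continuousOn_snd fun a ha => ha.2)).add (by fun_prop))
    ((c3.continuousOn.smul (c2.comp continuousOn_snd fun a ha => ha.2)).add (by fun_prop))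
    (fun s hs => ⟨hinj s hs, fun w hw => ⟨((hd w hw).const_smul (1 - s)).add
      ((L.hasFDerivAt.const_add (f 0)).const_smul s), ?_⟩⟩) hρ.1 hB (fun s hs a => ⟨?_, ?_⟩)
    o).congr (fun _ _ _ => by simp) fun _ _ _ => by simp
  · refine (injective_iff_map_eq_zero _).2 fun v hv => key s hs v ((fderiv ℝ f w - L) v)
      ((fderiv ℝ f w - L).le_of_opNorm_le (dist_eq_norm (fderiv ℝ f w) L ▸ (H w hw).2.1).le v) ?_
    rw [← hv]
    simp only [sub_apply, add_apply, smul_apply]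
    module
  · refine convex_ball (f 0) η (H _ (hB a)).2.2.1 ?_ (sub_nonneg.2 hs.2) hs.1 (sub_add_cancel 1 s)
    simpa using (H _ (hB a)).2.2.2
  · intro e
    refine pol_ne_zero hρ.1.ne' a (hinj s hs (hB a) (Metric.mem_ball_self hδ) ?_)
    simp only [mem_singleton_iff.1 e, map_zero, add_zero]
    module

theorem tbell_apply (M : P2 →L[ℝ] P2) (w : P2) :
    M w = (w.1 * (M (1, 0)).1 + w.2 * (M (0, 1)).1, w.1 * (M (1, 0)).2 + w.2 * (M (0, 1)).2) := by
  have : w = w.1 • ((1, 0) : P2) + w.2 • ((0, 1) : P2) := by ext <;> simp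
  conv_lhs => rw [this]
  rw [map_add, map_smul, map_smul]
  rfl

theorem tbell_ker {p q r s x y : ℝ} (h : p * s - q * r ≠ 0) (h1 : x * p + y * q = 0)
    (h2 : x * r + y * s = 0) : x = 0 ∧ y = 0 :=
  ⟨mul_right_cancel₀ h (by linear_combination s * h1 - q * h2),
    mul_right_cancel₀ h (by linear_combination p * h2 - r * h1)⟩

/-- an orientation preserving linear image of a circle -/
theorem tbell_pos (M : P2 →L[ℝ] P2)
    (hM : 0 < (M (1, 0)).1 * (M (0, 1)).2 - (M (0, 1)).1 * (M (1, 0)).2) (z : P2) {η : ℝ}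
    (hη : 0 < η) : ∀ᶠ ρ : ℝ in 𝓝[>] 0, ∀ ρ' θ : ℝ, 0 < ρ' → ρ' < η →
      FamE (Metric.ball z η \ {z}) (1 : Equiv.Perm Unit)
        (fun _ t => z + M (pol ρ (2 * Real.pi * t)))
        (fun _ t => z + pol ρ' (2 * Real.pi * t + θ)) := by
  have hMa := tbell_apply M
  generalize (M (1, 0)).1 = p at hM hMa
  generalize (M (0, 1)).1 = q at hM hMa
  generalize (M (1, 0)).2 = r at hM hMa
  generalize (M (0, 1)).2 = s at hM hMa
  obtain ⟨c, hc1, hc2⟩ : ∃ c : ℂ, c.re = (p + s) / 2 ∧ c.im = (r - q) / 2 := ⟨⟨_, _⟩, rfl, rfl⟩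
  have hc : 0 < ‖c‖ := norm_pos_iff.2 fun h => by
    rw [h] at hc1 hc2
    simp only [Complex.zero_re, Complex.zero_im] at hc1 hc2
    have a1 : s = -p := by linarith
    have a2 : r = q := by linarith
    rw [a1, a2] at hM
    nlinarith [sq_nonneg p, sq_nonneg q]
  let A : P2 →L[ℝ] P2 :=
    (c.re • ContinuousLinearMap.fst ℝ ℝ ℝ - c.im • ContinuousLinearMap.snd ℝ ℝ ℝ).prod
      (c.im • ContinuousLinearMap.fst ℝ ℝ ℝ + c.re • ContinuousLinearMap.snd ℝ ℝ ℝ)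
  have hA : ∀ w : P2, A w = (c.re * w.1 - c.im * w.2, c.im * w.1 + c.re * w.2) := fun w => rfl
  have hAp : ∀ ρ a, A (pol ρ a) = pol (ρ * ‖c‖) (a + c.arg) := fun ρ a => by
    rw [hA, ← Complex.norm_mul_cos_arg c, ← Complex.norm_mul_sin_arg c]
    simp only [pol, Real.cos_add, Real.sin_add]
    refine Prod.ext ?_ ?_ <;> ring
  have hinj : ∀ τ ∈ Icc (0 : ℝ) 1, Function.Injective ((1 - τ) • M + τ • A) := fun τ hτ => by
    refine (injective_iff_map_eq_zero _).2 fun v hv => ?_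
    simp only [add_apply, smul_apply, hMa v, hA v, hc1, hc2, Prod.smul_mk, Prod.mk_add_mk,
      smul_eq_mul, Prod.mk_eq_zero] at hv
    have a1 : 0 ≤ (1 - (1 - τ) ^ 2) * (((p - s) / 2) ^ 2 + ((q + r) / 2) ^ 2) :=
      mul_nonneg (by nlinarith [hτ.1, hτ.2]) (by positivity)
    have := tbell_ker (p := (1 - τ) * p + τ * ((p + s) / 2)) (q := (1 - τ) * q - τ * ((r - q) / 2))
      (r := (1 - τ) * r + τ * ((r - q) / 2)) (s := (1 - τ) * s + τ * ((p + s) / 2))
      (x := v.1) (y := v.2) (ne_of_gt (by nlinarith)) (by linarith [hv.1]) (by linarith [hv.2])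
    exact Prod.ext this.1 this.2
  have e1 : ∀ᶠ ρ : ℝ in 𝓝 0, ρ * ‖c‖ < η :=
    (show ContinuousAt (fun ρ : ℝ => ρ * ‖c‖) 0 by fun_prop).eventually
      (gt_mem_nhds (by simpa using hη))
  have e2 : ∀ᶠ ρ : ℝ in 𝓝 0, ‖M‖ * ρ < η :=
    (show ContinuousAt (fun ρ : ℝ => ‖M‖ * ρ) 0 by fun_prop).eventually
      (gt_mem_nhds (by simpa using hη))
  filter_upwards [self_mem_nhdsWithin, nhdsWithin_le_nhds e1, nhdsWithin_le_nhds e2]
    with ρ hρ b1 b2 ρ' θ h0 h1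
  have hρ : 0 < ρ := hρ
  have hW : ∀ r, 0 < r → r < η → ∀ a, z + pol r a ∈ Metric.ball z η \ {z} := fun r r0 r1 a =>
    ⟨by simpa using (norm_pol_le r a).trans_lt (by rwa [abs_of_pos r0]),
      fun e => pol_ne_zero r0.ne' a (add_eq_left.1 e)⟩
  have f1 := tbell_fam (W := Metric.ball z η \ {z}) (B := univ)
    (fun τ w => z + ((1 - τ) • M + τ • A) w) (fun τ _ => (1 - τ) • M + τ • A) (by fun_prop)
    (by fun_prop) (fun τ hτ => ⟨fun w _ w' _ e => hinj τ hτ (add_left_cancel e), fun w _ =>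
      ⟨((1 - τ) • M + τ • A).hasFDerivAt.const_add z, hinj τ hτ⟩⟩) hρ (fun _ => trivial)
    (fun τ hτ a => ⟨by
      have a1 : M (pol ρ a) ∈ Metric.ball (0 : P2) η := mem_ball_zero_iff.2
        ((M.le_opNorm_of_le ((norm_pol_le ρ a).trans_eq (abs_of_pos hρ))).trans_lt b2)
      have a2 : A (pol ρ a) ∈ Metric.ball (0 : P2) η := by
        rw [hAp]
        exact mem_ball_zero_iff.2 ((norm_pol_le _ _).trans_lt
          (by rwa [abs_of_pos (mul_pos hρ hc)]))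
      simpa using convex_ball (0 : P2) η a1 a2 (sub_nonneg.2 hτ.2) hτ.1 (sub_add_cancel 1 τ),
      fun e => pol_ne_zero hρ.ne' a
        (hinj τ hτ ((add_eq_left.1 e).trans (map_zero _).symm))⟩) true
  have f2 := fam_circle (W := Metric.ball z η \ {z}) z (mul_pos hρ hc) h0 c.arg θ fun r hr a =>
    hW r ((lt_min (mul_pos hρ hc) h0).trans_le hr.1) (hr.2.trans_lt (max_lt b1 h1)) a
  exact (f1.congr (fun _ _ _ => by simp [ori]) fun _ _ _ => by simp [ori, hAp]).trans f2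

/-- an ellipse, suitably oriented, is isotopic to every small round circle -/
theorem fam_round (L : P2 →L[ℝ] P2) (hL : Function.Injective L) (z : P2) {η : ℝ} (hη : 0 < η) :
    ∃ o : Bool, ∀ᶠ ρ : ℝ in 𝓝[>] 0, ∀ ρ' θ : ℝ, 0 < ρ' → ρ' < η →
      FamE (Metric.ball z η \ {z}) (1 : Equiv.Perm Unit)
        (fun _ t => z + L (pol ρ (2 * Real.pi * ori o t)))
        (fun _ t => z + pol ρ' (2 * Real.pi * t + θ)) := by
  have hLa := tbell_apply L
  have hdet : (L (1, 0)).1 * (L (0, 1)).2 - (L (0, 1)).1 * (L (1, 0)).2 ≠ 0 := fun h => by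
    have a1 : ((L (0, 1)).2, -(L (1, 0)).2) = (0 : P2) := hL (by
      rw [hLa, map_zero]
      refine Prod.ext ?_ ?_ <;> simp only [Prod.fst_zero, Prod.snd_zero] <;> linarith)
    have a2 : ((L (0, 1)).1, -(L (1, 0)).1) = (0 : P2) := hL (by
      rw [hLa, map_zero]
      refine Prod.ext ?_ ?_ <;> simp only [Prod.fst_zero, Prod.snd_zero] <;> linarith)
    simp only [Prod.mk_eq_zero, neg_eq_zero] at a1 a2
    have a3 : ((1, 0) : P2) = 0 := hL (by rw [map_zero]; exact Prod.ext a2.2 a1.2)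
    simp at a3
  rcases hdet.lt_or_gt with h | h
  · let J : P2 →L[ℝ] P2 := (ContinuousLinearMap.fst ℝ ℝ ℝ).prod (-ContinuousLinearMap.snd ℝ ℝ ℝ)
    have j1 : (L.comp J) (1, 0) = L (1, 0) := congrArg L (by simp [J])
    have j2 : (L.comp J) (0, 1) = -L (0, 1) := by
      rw [← map_neg]
      exact congrArg L (by simp [J])
    refine ⟨false, (tbell_pos (L.comp J) (by
      rw [j1, j2, Prod.fst_neg, Prod.snd_neg]
      linarith) z hη).mono fun ρ hρ ρ' θ h0 h1 =>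
        (hρ ρ' θ h0 h1).congr (fun _ t _ => ?_) fun _ _ _ => rfl⟩
    refine congrArg (fun x => z + L x) ?_
    simp [J, pol, ori, mul_sub, Real.cos_two_pi_sub, Real.sin_two_pi_sub]
  · exact ⟨true, tbell_pos L h z hη⟩

theorem fam_ell {β : P2 → P2} (hβ : ContDiffAt ℝ 1 β 0) (hi : Function.Injective (fderiv ℝ β 0))
    {η : ℝ} (hη : 0 < η) : ∃ o : Bool, ∀ᶠ ρ : ℝ in 𝓝[>] 0, ∀ ρ' θ : ℝ, 0 < ρ' → ρ' < η →
      FamE (Metric.ball (β 0) η \ {β 0}) (1 : Equiv.Perm Unit)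
        (fun _ t => β (pol ρ (2 * Real.pi * ori o t)))
        (fun _ t => β 0 + pol ρ' (2 * Real.pi * t + θ)) := by
  obtain ⟨o, ho⟩ := fam_round (fderiv ℝ β 0) hi (β 0) hη
  refine ⟨o, ?_⟩
  filter_upwards [ho, fam_lin hβ hi hη o] with ρ h1 h2 ρ' θ h3 h4
  exact h2.trans (h1 ρ' θ h3 h4)

end Pool.Agent.Lib.MP_4d7d0a_gt
end

-- part Pool.Agent.Lib.MP_4d7d0a_gt.TBComp
section

/-! Reparametrisations of the punctured disc. -/

set_option autoImplicit false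

open Set Filter Topology
open scoped ContDiff

namespace Pool.Agent.Lib.MP_4d7d0a_gt

variable {K : ℝ → P3} {nu : P3 → P3} {A B : ℝ → ℝ}

theorem tbcomp_der {F : Type} [NormedAddCommGroup F] [NormedSpace ℝ F] {g : P2 → F} {f : P2 → P2}
    {w : P2} (hg : ContDiffAt ℝ ∞ g (f w)) (hf : ContDiffAt ℝ ∞ f w) (v : P2) :
    fderiv ℝ (fun x => g (f x)) w v = fderiv ℝ g (f w) (fderiv ℝ f w v) := by
  have h : HasFDerivAt (fun x => g (f x)) ((fderiv ℝ g (f w)).comp (fderiv ℝ f w)) w :=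
    (hg.differentiableAt (by simp)).hasFDerivAt.comp w (hf.differentiableAt (by simp)).hasFDerivAt
  rw [h.fderiv]
  rfl

theorem tbcomp_id {g f : P2 → P2} {w : P2} (hg : ContDiffAt ℝ ∞ g (f w))
    (hf : ContDiffAt ℝ ∞ f w) (h : ∀ᶠ x in 𝓝 w, g (f x) = x) (v : P2) :
    fderiv ℝ g (f w) (fderiv ℝ f w v) = v := by
  have h1 : (fun x => g (f x)) =ᶠ[𝓝 w] fun x => x := h
  rw [← tbcomp_der hg hf, h1.fderiv_eq]
  simp

theorem tbcomp_tan {κ : P2 → P2} {w : P2} (hw : w ∈ circ) (hs : ContDiffAt ℝ ∞ κ w)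
    (hc : MapsTo κ circ circ) :
    ∃ l : ℝ, fderiv ℝ κ w (-w.2, w.1) = l • ((-(κ w).2, (κ w).1) : P2) := by
  have hw' : w.1 ^ 2 + w.2 ^ 2 = 1 := hw
  set c : ℝ → P2 := fun t =>
    (w.1 * Real.cos t - w.2 * Real.sin t, w.1 * Real.sin t + w.2 * Real.cos t) with hcd
  have c0 : c 0 = w := by simp [hcd]
  have cm : ∀ t, c t ∈ circ := fun t => by
    show (w.1 * Real.cos t - w.2 * Real.sin t) ^ 2 + (w.1 * Real.sin t + w.2 * Real.cos t) ^ 2 = 1
    linear_combination (w.1 ^ 2 + w.2 ^ 2) * Real.cos_sq_add_sin_sq t + hw'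
  have d1 : HasDerivAt c (-w.2, w.1) 0 := by
    have h1 := (((Real.hasDerivAt_cos 0).const_mul w.1).sub
      ((Real.hasDerivAt_sin 0).const_mul w.2)).prodMk
      (((Real.hasDerivAt_sin 0).const_mul w.1).add ((Real.hasDerivAt_cos 0).const_mul w.2))
    simpa using h1
  have hk : HasFDerivAt κ (fderiv ℝ κ w) (c 0) := by
    rw [c0]
    exact (hs.differentiableAt (by simp)).hasFDerivAt
  have d2 : HasDerivAt (fun t => κ (c t)) (fderiv ℝ κ w (-w.2, w.1)) 0 := hk.comp_hasDerivAt 0 d1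
  have d3 : HasDerivAt (fun t => (κ (c t)).1) (fderiv ℝ κ w (-w.2, w.1)).1 0 := d2.fst
  have d4 : HasDerivAt (fun t => (κ (c t)).2) (fderiv ℝ κ w (-w.2, w.1)).2 0 := d2.snd
  have d5 := (d3.mul d3).add (d4.mul d4)
  have e1 : ((fun t => (κ (c t)).1) * fun t => (κ (c t)).1) +
      ((fun t => (κ (c t)).2) * fun t => (κ (c t)).2) = fun _ => (1 : ℝ) := by
    funext t
    have h2 : (κ (c t)).1 ^ 2 + (κ (c t)).2 ^ 2 = 1 := hc (cm t)
    simp only [Pi.add_apply, Pi.mul_apply]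
    linarith
  rw [e1] at d5
  have e2 := d5.unique (hasDerivAt_const (0 : ℝ) (1 : ℝ))
  simp only [c0] at e2
  have hz : (κ w).1 ^ 2 + (κ w).2 ^ 2 = 1 := hc hw
  generalize fderiv ℝ κ w (-w.2, w.1) = v at e2 ⊢
  refine ⟨-(κ w).2 * v.1 + (κ w).1 * v.2, Prod.ext ?_ ?_⟩
  · simp only [Prod.smul_mk, smul_eq_mul]
    linear_combination (κ w).1 / 2 * e2 - v.1 * hz
  · simp only [Prod.smul_mk, smul_eq_mul]
    linear_combination (κ w).2 / 2 * e2 - v.2 * hz

/-- reparametrisation by a diffeomorphism `κ` of the disc with inverse `κ'`; the punctures are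
renumbered by `e` -/
theorem Surf.comp (S : Surf K nu A B) (κ κ' : P2 → P2) (e : Equiv.Perm (Fin S.k))
    (hs : ∀ w ∈ disc, ContDiffAt ℝ ∞ κ w) (hs' : ∀ w ∈ disc, ContDiffAt ℝ ∞ κ' w)
    (hm : MapsTo κ disc disc) (hm' : MapsTo κ' disc disc) (hc : MapsTo κ circ circ)
    (hl : ∀ w ∈ disc, ∀ᶠ w' in 𝓝 w, κ' (κ w') = w')
    (hr : ∀ w ∈ disc, ∀ᶠ w' in 𝓝 w, κ (κ' w') = w') :
    ∃ (S' : Surf K nu A B) (hk : S'.k = S.k), (∀ w, S'.h w = S.h (κ w)) ∧
      ∀ i, S'.u i = κ' (S.u (e (i.cast hk))) := by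
  have l1 : ∀ w ∈ disc, κ' (κ w) = w := fun w hw => (hl w hw).self_of_nhds
  have r1 : ∀ w ∈ disc, κ (κ' w) = w := fun w hw => (hr w hw).self_of_nhds
  have ud : ∀ i, S.u i ∈ disc := fun i => le_of_lt (S.u_int i)
  have cd : circ ⊆ disc := fun _ hw => le_of_eq hw
  have mem : ∀ w ∈ disc \ range fun i => κ' (S.u (e i)), κ w ∈ disc \ range S.u := by
    rintro w ⟨hw, h1⟩
    refine ⟨hm hw, ?_⟩
    rintro ⟨j, hj⟩
    exact h1 ⟨e.symm j, by simp only [Equiv.apply_symm_apply, hj, l1 w hw]⟩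
  have cm : ∀ w ∈ circ, κ w ∈ disc \ range S.u := fun w hw => ⟨cd (hc hw), by
    rintro ⟨j, hj⟩
    have h1 := S.u_int j
    have h2 : (κ w).1 ^ 2 + (κ w).2 ^ 2 = 1 := hc hw
    rw [hj] at h1
    linarith⟩
  have b0 : ∀ i, ContDiffAt ℝ ∞ κ' (S.β i 0) := fun i => by
    rw [S.β_zero]
    exact hs' _ (ud i)
  refine ⟨{ k := S.k
            u := fun i => κ' (S.u (e i))
            h := fun w => S.h (κ w)
            β := fun i y => κ' (S.β (e i) y)
            g := fun i => S.g (e i)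
            u_inj := fun i j hij => ?_
            u_int := fun i => ?_
            sm := fun w hw => (S.sm _ (mem w hw)).comp w (hs w hw.1)
            imm := fun w hw => ?_
            inj := fun w hw w' hw' h1 => ?_
            proper := fun w hw η hη => ?_
            off := fun w hw => S.off _ (mem w hw)
            leg := fun w hw => ?_
            bd := ?_
            β_sm := fun i => (b0 _).comp 0 (S.β_sm _)
            β_zero := fun i => by simp only [S.β_zero]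
            β_imm := fun i => ?_
            g_sm := fun i => S.g_sm _
            g_mem := fun i => S.g_mem _
            g_inj := fun i j hij => e.injective (S.g_inj hij)
            loc := fun i => ?_ }, rfl, fun _ => rfl, fun _ => rfl⟩
  · have h1 := congrArg κ hij
    simp only [r1 _ (ud _)] at h1
    exact e.injective (S.u_inj h1)
  · refine lt_of_le_of_ne (hm' (ud (e i))) fun h1 => ?_
    have h2 : (κ (κ' (S.u (e i)))).1 ^ 2 + (κ (κ' (S.u (e i)))).2 ^ 2 = 1 := hc h1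
    rw [r1 _ (ud _)] at h2
    exact (S.u_int (e i)).ne h2
  · intro v v' h1
    rw [tbcomp_der (S.sm _ (mem w hw)) (hs w hw.1), tbcomp_der (S.sm _ (mem w hw)) (hs w hw.1)] at h1
    have h2 := congrArg (fderiv ℝ κ' (κ w)) (S.imm _ (mem w hw) h1)
    rwa [tbcomp_id (hs' _ (hm hw.1)) (hs w hw.1) (hl w hw.1),
      tbcomp_id (hs' _ (hm hw.1)) (hs w hw.1) (hl w hw.1)] at h2
  · have h2 := congrArg κ' (S.inj (mem w hw) (mem w' hw') h1)
    rwa [l1 w hw.1, l1 w' hw'.1] at h2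
  · obtain ⟨η', h1, h2⟩ := Metric.continuousAt_iff.1 (hs' _ (hm hw.1)).continuousAt η hη
    filter_upwards [S.proper _ (mem w hw) η' h1] with p hp w' hw' h3
    have h4 := h2 (hp _ (mem w' hw') h3)
    rwa [l1 w hw.1, l1 w' hw'.1] at h4
  · obtain ⟨l, h1⟩ := tbcomp_tan hw (hs w (cd hw)) hc
    have h2 := S.leg _ (hc hw)
    rw [tbcomp_der (S.sm _ (cm w hw)) (hs w (cd hw)), h1, map_smul]
    simp only [al, Prod.smul_fst, Prod.smul_snd, smul_eq_mul] at h2 ⊢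
    linear_combination l * h2
  · rcases S.bd with hb | hb
    · refine Or.inl fun w hw v => ?_
      rw [tbcomp_der (S.sm _ (cm w hw)) (hs w (cd hw))]
      exact hb _ (hc hw) _
    · refine Or.inr fun w hw => ?_
      obtain ⟨v, hv⟩ := hb _ (hc hw)
      refine ⟨fderiv ℝ κ' (κ w) v, ?_⟩
      have h1 := tbcomp_id (g := κ) (f := κ') (w := κ w)
        (by rw [l1 w (cd hw)]; exact hs w (cd hw)) (hs' _ (cd (hc hw))) (hr _ (cd (hc hw))) v
      rw [l1 w (cd hw)] at h1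
      rw [tbcomp_der (S.sm _ (cm w hw)) (hs w (cd hw)), h1]
      exact hv
  · intro v v' h1
    rw [tbcomp_der (b0 _) (S.β_sm _), tbcomp_der (b0 _) (S.β_sm _), S.β_zero] at h1
    have h2 := congrArg (fderiv ℝ κ (κ' (S.u (e i)))) h1
    rw [tbcomp_id (hs _ (hm' (ud _))) (hs' _ (ud _)) (hr _ (ud _)),
      tbcomp_id (hs _ (hm' (ud _))) (hs' _ (ud _)) (hr _ (ud _))] at h2
    exact S.β_imm _ h2
  · have h1 : ∀ᶠ y in 𝓝 (0 : P2), κ (κ' (S.β (e i) y)) = S.β (e i) y :=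
      (S.β_sm (e i)).continuousAt.eventually (by rw [S.β_zero]; exact hr _ (ud _))
    obtain ⟨ε, hε, h2⟩ := Metric.eventually_nhds_iff.1 h1
    filter_upwards [S.loc (e i), Ioo_mem_nhdsGT hε] with ρ h3 h4 a
    rw [h2, h3]
    rw [dist_zero_right]
    exact lt_of_le_of_lt (norm_pol_le ρ a) (by rw [abs_of_pos h4.1]; exact h4.2)

/-- the mirror image of the parameter disc -/
theorem Surf.refl (S : Surf K nu A B) :
    ∃ S' : Surf K nu A B, ∀ a : ℝ, S'.h (pol 1 a) = S.h (pol 1 (-a)) := by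
  have hs : ContDiff ℝ ∞ fun w : P2 => ((w.1, -w.2) : P2) := by fun_prop
  have hm : MapsTo (fun w : P2 => ((w.1, -w.2) : P2)) disc disc := fun w hw => by
    show w.1 ^ 2 + (-w.2) ^ 2 ≤ 1
    rw [neg_sq]
    exact hw
  have hc : MapsTo (fun w : P2 => ((w.1, -w.2) : P2)) circ circ := fun w hw => by
    show w.1 ^ 2 + (-w.2) ^ 2 = 1
    rw [neg_sq]
    exact hw
  obtain ⟨S', -, h1, -⟩ := S.comp _ _ (Equiv.refl _) (fun _ _ => hs.contDiffAt)
    (fun _ _ => hs.contDiffAt) hm hm hc (fun _ _ => Eventually.of_forall fun w => by simp)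
    (fun _ _ => Eventually.of_forall fun w => by simp)
  refine ⟨S', fun a => ?_⟩
  rw [h1]
  simp [pol]

end Pool.Agent.Lib.MP_4d7d0a_gt
end

-- part Pool.Agent.Lib.MP_4d7d0a_gt.TBAxis
section

/-! Moving the punctures to the axis. -/

set_option autoImplicit false

open Set Filter Topology
open scoped ContDiff

namespace Pool.Agent.Lib.MP_4d7d0a_gt

variable {K : ℝ → P3} {nu : P3 → P3} {A B : ℝ → ℝ}

/-- rotation with cosine `c` and sine `s` -/
def tbaxRot (c s : ℝ) (w : P2) : P2 := (w.1 * c - w.2 * s, w.1 * s + w.2 * c)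

theorem tbax_rot_sm (c s : ℝ) : ContDiff ℝ ∞ (tbaxRot c s) := by
  unfold tbaxRot
  fun_prop

theorem tbax_rot_sq {c s : ℝ} (h : c ^ 2 + s ^ 2 = 1) (w : P2) :
    (tbaxRot c s w).1 ^ 2 + (tbaxRot c s w).2 ^ 2 = w.1 ^ 2 + w.2 ^ 2 := by
  simp only [tbaxRot]
  linear_combination (w.1 ^ 2 + w.2 ^ 2) * h

theorem tbax_rot_inv {c s s' : ℝ} (h : c ^ 2 + s ^ 2 = 1) (hs : s' = -s) (w : P2) :
    tbaxRot c s' (tbaxRot c s w) = w := by
  subst hs
  refine Prod.ext ?_ ?_ <;> simp only [tbaxRot]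
  · linear_combination w.1 * h
  · linear_combination w.2 * h

theorem tbax_generic {k : ℕ} {u : Fin k → P2} (hu : Function.Injective u) :
    ∃ t : ℝ, Function.Injective fun i => (u i).1 + t * (u i).2 := by
  obtain ⟨t, ht⟩ := (Set.finite_range fun p : Fin k × Fin k =>
    ((u p.2).1 - (u p.1).1) / ((u p.1).2 - (u p.2).2)).exists_notMem
  refine ⟨t, fun i j h => ?_⟩
  have h1 : (u i).1 + t * (u i).2 = (u j).1 + t * (u j).2 := h
  by_cases h2 : (u i).2 = (u j).2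
  · exact hu (Prod.ext (by rw [h2] at h1; linarith) h2)
  · refine absurd ⟨(i, j), ?_⟩ ht
    rw [div_eq_iff (sub_ne_zero.2 h2)]
    linarith

/-- after a rotation the punctures have increasing abscissae -/
theorem Surf.sorted (S : Surf K nu A B) : ∃ (S' : Surf K nu A B) (θ : ℝ),
    (StrictMono fun i => (S'.u i).1) ∧ ∀ a : ℝ, S'.h (pol 1 a) = S.h (pol 1 (a + θ)) := by
  obtain ⟨t, ht⟩ := tbax_generic S.u_inj
  obtain ⟨θ, hθ⟩ : ∃ θ, θ = Real.arctan t := ⟨_, rfl⟩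
  have hc : 0 < Real.cos θ := hθ ▸ Real.cos_arctan_pos t
  have hs : Real.sin θ = t * Real.cos θ := by
    rw [← Real.tan_mul_cos hc.ne', hθ, Real.tan_arctan]
  have h1 := Real.cos_sq_add_sin_sq θ
  have h2 : Real.cos θ ^ 2 + (-Real.sin θ) ^ 2 = 1 := by rw [neg_sq, h1]
  obtain ⟨f, hf⟩ : ∃ f : Fin S.k → ℝ,
      f = fun i => (tbaxRot (Real.cos θ) (-Real.sin θ) (S.u i)).1 := ⟨_, rfl⟩
  have hfi : Function.Injective f := fun i j h => ht (mul_left_cancel₀ hc.ne' (by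
    simp only [hf, tbaxRot, hs] at h
    linarith))
  obtain ⟨S', hk, h3, h4⟩ := S.comp (tbaxRot (Real.cos θ) (Real.sin θ))
    (tbaxRot (Real.cos θ) (-Real.sin θ)) (Tuple.sort f)
    (fun w _ => (tbax_rot_sm _ _).contDiffAt) (fun w _ => (tbax_rot_sm _ _).contDiffAt)
    (fun w hw => (tbax_rot_sq h1 w).le.trans hw) (fun w hw => (tbax_rot_sq h2 w).le.trans hw)
    (fun w hw => (tbax_rot_sq h1 w).trans hw)
    (fun _ _ => Eventually.of_forall (tbax_rot_inv h1 rfl))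
    (fun _ _ => Eventually.of_forall (tbax_rot_inv h2 (neg_neg _).symm))
  refine ⟨S', θ, fun i j hij => ?_, fun a => ?_⟩
  · have h5 := (Tuple.monotone_sort f).strictMono_of_injective (hfi.comp (Tuple.sort f).injective)
    have h6 := h5 (show i.cast hk < j.cast hk from hij)
    simp only [h4]
    simpa only [hf, Function.comp] using h6
  · rw [h3]
    congr 1
    simp only [tbaxRot, pol, Real.cos_add, Real.sin_add, one_mul]
    refine Prod.ext rfl ?_
    ring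

/-- the fibrewise Moebius map -/
noncomputable def tbaxMob (a : ℝ → ℝ) (w : P2) : P2 :=
  (w.1, (w.2 + a w.1 * (1 - w.1 ^ 2)) / (1 + a w.1 * w.2))

theorem tbax_x {w : P2} (hw : w ∈ disc) : w.1 ^ 2 ≤ 1 := by
  have h : w.1 ^ 2 + w.2 ^ 2 ≤ 1 := hw
  nlinarith [sq_nonneg w.2]

theorem tbax_den {b : ℝ} {w : P2} (hw : w ∈ disc) (hb : b ^ 2 * (1 - w.1 ^ 2) < 1) :
    0 < 1 + b * w.2 := by
  have h : w.1 ^ 2 + w.2 ^ 2 ≤ 1 := hw
  have h1 : (b * w.2) ^ 2 < 1 := by nlinarith [sq_nonneg b]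
  nlinarith [sq_nonneg (1 + b * w.2)]

section Mob

variable {a : ℝ → ℝ} (ha : ∀ x : ℝ, x ^ 2 ≤ 1 → ContDiffAt ℝ ∞ a x)
  (hb : ∀ x : ℝ, x ^ 2 ≤ 1 → a x ^ 2 * (1 - x ^ 2) < 1)

include ha hb in
theorem tbax_mob_sm {w : P2} (hw : w ∈ disc) : ContDiffAt ℝ ∞ (tbaxMob a) w := by
  have h1 : ContDiffAt ℝ ∞ (fun w : P2 => a w.1) w := (ha _ (tbax_x hw)).comp w contDiffAt_fst
  exact contDiffAt_fst.prodMk (ContDiffAt.div (contDiffAt_snd.add (h1.mul (by fun_prop)))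
    (contDiffAt_const.add (h1.mul contDiffAt_snd)) (tbax_den hw (hb _ (tbax_x hw))).ne')

include hb in
theorem tbax_mob_disc : MapsTo (tbaxMob a) disc disc := fun w hw => by
  have h : w.1 ^ 2 + w.2 ^ 2 ≤ 1 := hw
  have h1 := hb _ (tbax_x hw)
  have h2 := tbax_den hw h1
  change w.1 ^ 2 + ((w.2 + a w.1 * (1 - w.1 ^ 2)) / (1 + a w.1 * w.2)) ^ 2 ≤ 1
  rw [div_pow, ← le_sub_iff_add_le', div_le_iff₀ (pow_pos h2 2)]
  nlinarith [mul_nonneg (sub_nonneg.2 h) (sub_pos.2 h1).le]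

include hb in
theorem tbax_mob_circ {w : P2} (hw : w ∈ circ) : tbaxMob a w = w := by
  have h : w.1 ^ 2 + w.2 ^ 2 = 1 := hw
  have h0 : w ∈ disc := h.le
  have h2 := tbax_den h0 (hb _ (tbax_x h0))
  refine Prod.ext rfl ?_
  change (w.2 + a w.1 * (1 - w.1 ^ 2)) / (1 + a w.1 * w.2) = w.2
  rw [div_eq_iff h2.ne']
  linear_combination (-a w.1) * h

include ha hb in
theorem tbax_mob_inv {a' : ℝ → ℝ} (hn : ∀ x, a' x = -a x) {w : P2} (hw : w ∈ disc) :
    ∀ᶠ w' in 𝓝 w, tbaxMob a' (tbaxMob a w') = w' := by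
  have h1 : ContinuousAt (fun w : P2 => a w.1) w :=
    ContinuousAt.comp (g := a) (ha _ (tbax_x hw)).continuousAt continuousAt_fst
  have h2 : ContinuousAt (fun w : P2 => 1 + a w.1 * w.2) w :=
    continuousAt_const.add (h1.mul continuousAt_snd)
  have h3 : ContinuousAt (fun w : P2 => 1 - a w.1 ^ 2 * (1 - w.1 ^ 2)) w :=
    continuousAt_const.sub ((h1.pow 2).mul (by fun_prop))
  filter_upwards [h2.eventually_ne (tbax_den hw (hb _ (tbax_x hw))).ne',
    h3.eventually_ne (sub_pos.2 (hb _ (tbax_x hw))).ne'] with v e2 e3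
  refine Prod.ext rfl ?_
  have e4 : 1 + -a v.1 * ((v.2 + a v.1 * (1 - v.1 ^ 2)) / (1 + a v.1 * v.2)) =
      (1 - a v.1 ^ 2 * (1 - v.1 ^ 2)) / (1 + a v.1 * v.2) := by
    field_simp
    ring
  simp only [tbaxMob, hn]
  rw [e4, div_eq_iff (div_ne_zero e3 e2), div_add' _ _ _ e2, ← mul_div_assoc]
  congr 1
  ring

end Mob

theorem tbax_coef {k : ℕ} {u : Fin k → P2} (hu : Function.Injective fun i => (u i).1)
    (hi : ∀ i, (u i).1 ^ 2 + (u i).2 ^ 2 < 1) : ∃ a : ℝ → ℝ,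
      (∀ x : ℝ, x ^ 2 ≤ 1 → ContDiffAt ℝ ∞ a x) ∧
      (∀ x : ℝ, x ^ 2 ≤ 1 → a x ^ 2 * (1 - x ^ 2) < 1) ∧
      ∀ i, a (u i).1 * (1 - (u i).1 ^ 2) = (u i).2 := by
  obtain ⟨b, hb⟩ : ∃ b : Fin k → ℝ, b = fun i => (u i).2 / (1 - (u i).1 ^ 2) := ⟨_, rfl⟩
  obtain ⟨p, hp⟩ : ∃ p : Polynomial ℝ, p = Lagrange.interpolate Finset.univ (fun i => (u i).1)
    fun i => b i / √(1 - b i ^ 2 * (1 - (u i).1 ^ 2)) := ⟨_, rfl⟩
  have hs : ContDiff ℝ ∞ fun x : ℝ => p.eval x := by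
    simpa using Polynomial.contDiff_aeval p (𝕜 := ℝ) ∞
  have hpos : ∀ x : ℝ, x ^ 2 ≤ 1 → 0 < 1 + p.eval x ^ 2 * (1 - x ^ 2) := fun x hx => by
    have := mul_nonneg (sq_nonneg (p.eval x)) (sub_nonneg.2 hx)
    linarith
  refine ⟨fun x => p.eval x / √(1 + p.eval x ^ 2 * (1 - x ^ 2)), fun x hx => ?_, fun x hx => ?_,
    fun i => ?_⟩
  · refine hs.contDiffAt.div (ContDiffAt.sqrt ?_ (hpos x hx).ne') (Real.sqrt_pos.2 (hpos x hx)).ne'
    exact contDiffAt_const.add ((hs.contDiffAt.pow 2).mul (by fun_prop))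
  · rw [div_pow, Real.sq_sqrt (hpos x hx).le, div_mul_eq_mul_div, div_lt_one (hpos x hx)]
    linarith
  · have h0 : 0 < 1 - (u i).1 ^ 2 := by nlinarith [hi i, sq_nonneg (u i).2]
    have h1 : b i * (1 - (u i).1 ^ 2) = (u i).2 := by
      rw [hb]
      exact div_mul_cancel₀ _ h0.ne'
    have h2 : 0 < 1 - b i ^ 2 * (1 - (u i).1 ^ 2) := by
      refine (mul_pos_iff_of_pos_right h0).1 ?_
      have h3 : (1 - b i ^ 2 * (1 - (u i).1 ^ 2)) * (1 - (u i).1 ^ 2) =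
          1 - (u i).1 ^ 2 - (b i * (1 - (u i).1 ^ 2)) ^ 2 := by ring
      rw [h3, h1]
      linarith [hi i]
    have h3 : p.eval (u i).1 = b i / √(1 - b i ^ 2 * (1 - (u i).1 ^ 2)) := by
      rw [hp]
      exact Lagrange.eval_interpolate_at_node _ hu.injOn (Finset.mem_univ i)
    have h4 : 1 + p.eval (u i).1 ^ 2 * (1 - (u i).1 ^ 2) =
        (1 - b i ^ 2 * (1 - (u i).1 ^ 2))⁻¹ := by
      rw [h3, div_pow, Real.sq_sqrt h2.le]
      field_simp
      ring
    have h5 := (Real.sqrt_pos.2 h2).ne'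
    simp only
    rw [h4, h3, Real.sqrt_inv, div_inv_eq_mul, div_mul_cancel₀ _ h5, h1]

/-- the punctures can be moved to the axis by fibrewise Moebius maps -/
theorem Surf.flat (S : Surf K nu A B) (h : StrictMono fun i => (S.u i).1) :
    ∃ S' : Surf K nu A B, (StrictMono fun i => (S'.u i).1) ∧ (∀ i, (S'.u i).2 = 0) ∧
      ∀ w ∈ circ, S'.h w = S.h w := by
  obtain ⟨a, ha, hb, hc⟩ := tbax_coef h.injective S.u_int
  have ha' : ∀ x : ℝ, x ^ 2 ≤ 1 → ContDiffAt ℝ ∞ (fun x => -a x) x := fun x hx => (ha x hx).neg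
  have hb' : ∀ x : ℝ, x ^ 2 ≤ 1 → (-a x) ^ 2 * (1 - x ^ 2) < 1 := fun x hx => by
    rw [neg_sq]
    exact hb x hx
  obtain ⟨S', hk, h3, h4⟩ := S.comp (tbaxMob a) (tbaxMob fun x => -a x) 1
    (fun _ => tbax_mob_sm ha hb) (fun _ => tbax_mob_sm ha' hb') (tbax_mob_disc hb)
    (tbax_mob_disc hb') (fun w hw => by rwa [tbax_mob_circ hb hw])
    (fun _ => tbax_mob_inv ha hb fun _ => rfl)
    (fun _ => tbax_mob_inv ha' hb' fun _ => (neg_neg _).symm)
  refine ⟨S', fun i j hij => ?_, fun i => ?_, fun w hw => by rw [h3, tbax_mob_circ hb hw]⟩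
  · simp only [h4]
    exact h (show i.cast hk < j.cast hk from hij)
  · simp only [h4, tbaxMob, neg_mul, hc, add_neg_cancel, zero_div]

theorem Surf.axis (S : Surf K nu A B) : ∃ (S' : Surf K nu A B) (θ : ℝ),
    (StrictMono fun i => (S'.u i).1) ∧ (∀ i, (S'.u i).2 = 0) ∧
      ∀ a : ℝ, S'.h (pol 1 a) = S.h (pol 1 (a + θ)) := by
  obtain ⟨S1, θ, h1, h2⟩ := S.sorted
  obtain ⟨S2, h3, h4, h5⟩ := S1.flat h1
  refine ⟨S2, θ, h3, h4, fun a => (h5 _ ?_).trans (h2 a)⟩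
  change (1 * Real.cos a) ^ 2 + (1 * Real.sin a) ^ 2 = 1
  rw [one_mul, one_mul, Real.cos_sq_add_sin_sq]

end Pool.Agent.Lib.MP_4d7d0a_gt
end

-- part Pool.Agent.Lib.MP_4d7d0a_gt.TBAff
section

/-! Making an immersion affine near finitely many points. -/

set_option autoImplicit false

open Set Filter Topology
open scoped ContDiff

namespace Pool.Agent.Lib.MP_4d7d0a_gt

theorem tbaff_chi : ∃ C : ℝ, 0 ≤ C ∧ ∀ (z : P2) (η : ℝ), 0 < η → ∃ χ : P2 → ℝ,
    ContDiff ℝ 1 χ ∧ (∀ w, |1 - χ w| ≤ 1) ∧ (∀ᶠ w in 𝓝 z, χ w = 1) ∧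
      (∀ w, w ∉ Metric.closedBall z η → χ w = 0) ∧ ∀ w, ‖fderiv ℝ χ w‖ ≤ C / η := by
  let φ : ContDiffBump (0 : P2) := ⟨1 / 2, 1, by norm_num, by norm_num⟩
  have hφ : ContDiff ℝ 1 φ := φ.contDiff
  obtain ⟨C, hC⟩ := (hφ.continuous_fderiv one_ne_zero).bounded_above_of_compact_support
    (φ.hasCompactSupport.fderiv ℝ)
  refine ⟨C, (norm_nonneg _).trans (hC 0), fun z η hη => ⟨fun w => φ (η⁻¹ • (w - z)), ?_,
    fun w => ?_, ?_, fun w hw => ?_, fun w => ?_⟩⟩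
  · exact hφ.comp ((contDiff_id.sub contDiff_const).const_smul _)
  · have h1 := φ.nonneg' (η⁻¹ • (w - z))
    have h2 := φ.le_one (x := η⁻¹ • (w - z))
    rw [abs_le]
    constructor <;> linarith
  · have h1 : Tendsto (fun w : P2 => η⁻¹ • (w - z)) (𝓝 z) (𝓝 0) := by
      have h2 : Continuous fun w : P2 => η⁻¹ • (w - z) := by fun_prop
      have h3 := h2.tendsto z
      rwa [sub_self, smul_zero] at h3
    exact h1.eventually φ.eventuallyEq_one
  · refine φ.zero_of_le_dist ?_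
    rw [Metric.mem_closedBall, not_le, dist_eq_norm] at hw
    rw [dist_zero_right, norm_smul, norm_inv, Real.norm_of_nonneg hη.le]
    exact (le_inv_mul_iff₀ hη).2 (by rw [mul_one]; exact hw.le)
  · have h1 : HasFDerivAt (fun w : P2 => η⁻¹ • (w - z)) (η⁻¹ • ContinuousLinearMap.id ℝ P2) w :=
      ((hasFDerivAt_id w).sub_const z).const_smul η⁻¹
    have h2 := ((hφ.differentiable one_ne_zero) (η⁻¹ • (w - z))).hasFDerivAt.comp w h1
    have h3 : fderiv ℝ (fun w => φ (η⁻¹ • (w - z))) w = _ := h2.fderiv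
    rw [h3]
    refine (ContinuousLinearMap.opNorm_comp_le _ _).trans ?_
    rw [div_eq_mul_inv]
    refine mul_le_mul (hC _) ?_ (norm_nonneg _) ((norm_nonneg _).trans (hC 0))
    rw [norm_smul, norm_inv, Real.norm_of_nonneg hη.le]
    exact mul_le_of_le_one_right (inv_nonneg.2 hη.le) ContinuousLinearMap.norm_id_le

theorem tbaff_low {L : P2 →L[ℝ] P3} (hL : Function.Injective L) :
    ∃ κ : ℝ, 0 < κ ∧ ∀ v, κ * ‖v‖ ≤ ‖L v‖ := by
  obtain ⟨K, hK, h⟩ := (L : P2 →ₗ[ℝ] P3).exists_antilipschitzWith (LinearMap.ker_eq_bot.2 hL)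
  have hK' : (0 : ℝ) < K := hK
  refine ⟨(K : ℝ)⁻¹, inv_pos.2 hK', fun v => ?_⟩
  rw [inv_mul_le_iff₀ hK']
  exact ZeroHomClass.bound_of_antilipschitz _ h v

theorem aff_one {h : P2 → P3} {W : Set P2} (hh : Imm h W) (hp : Prp h W) {z : P2} (hz : W ∈ 𝓝 z)
    {O : Set P2} (hO : O ∈ 𝓝 z) : ∃ h' : P2 → P3, Imm h' W ∧ Prp h' W ∧ (∀ w, w ∉ O → h' w = h w) ∧
      ∃ (L : P2 →L[ℝ] P3) (b₀ : P3), ∀ᶠ w in 𝓝 z, h' w = b₀ + L w := by
  have hzW : z ∈ W := mem_of_mem_nhds hz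
  obtain ⟨L, hL⟩ : ∃ L, L = fderiv ℝ h z := ⟨_, rfl⟩
  obtain ⟨κ, hκ, hlow⟩ := tbaff_low (L := L) (hL ▸ hh.imm z hzW)
  obtain ⟨C, hC, hχ⟩ := tbaff_chi
  obtain ⟨ε, hε⟩ : ∃ ε, ε = κ / (2 * (1 + C)) := ⟨_, rfl⟩
  have hε0 : 0 < ε := by rw [hε]; positivity
  have hε1 : ε + C * ε = κ / 2 := by rw [hε]; field_simp
  have hcont : ContinuousAt (fderiv ℝ h) z :=
    ((hh.sm z hzW).fderiv_right (m := 0) (by norm_num)).continuousAt
  have hnear : ∀ᶠ w in 𝓝 z, ‖fderiv ℝ h w - L‖ ≤ ε := by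
    have h1 := hcont.eventually (Metric.closedBall_mem_nhds _ hε0)
    refine h1.mono fun w hw => ?_
    rwa [dist_eq_norm, ← hL] at hw
  obtain ⟨η₂, hη₂, hB⟩ := Metric.mem_nhds_iff.1 (inter_mem (inter_mem hz hO) hnear)
  obtain ⟨ρ, hρ, hN⟩ := Metric.mem_nhds_iff.1 (hp z hzW η₂ hη₂)
  obtain ⟨η, hη⟩ : ∃ η, η = min (η₂ / 2) (ρ / (2 * (‖L‖ + κ))) := ⟨_, rfl⟩
  have hη0 : 0 < η := by rw [hη]; positivity
  have hη1 : η < η₂ := by
    rw [hη]
    exact (min_le_left _ _).trans_lt (by linarith)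
  have hη3 : (‖L‖ + κ) * η < ρ := by
    have h1 : η ≤ ρ / (2 * (‖L‖ + κ)) := by rw [hη]; exact min_le_right _ _
    rw [le_div_iff₀ (by positivity)] at h1
    linarith
  have hsub : Metric.closedBall z η ⊆ Metric.ball z η₂ := Metric.closedBall_subset_ball hη1
  obtain ⟨χ, c1, c2, c3, c4, c5⟩ := hχ z η hη0
  obtain ⟨b, hb⟩ : ∃ b, b = h z - L z := ⟨_, rfl⟩
  obtain ⟨R, hR⟩ : ∃ R : P2 → P3, R = fun w => h w - (b + L w) := ⟨_, rfl⟩
  obtain ⟨S, hS⟩ : ∃ S : P2 → P3, S = fun w => (1 - χ w) • R w := ⟨_, rfl⟩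
  obtain ⟨g, hg⟩ : ∃ g : P2 → P3, g = fun w => b + L w + S w := ⟨_, rfl⟩
  have hRz : R z = 0 := by rw [hR, hb]; simp
  have hSz : S z = 0 := by rw [hS]; simp [hRz]
  have hgz : g z = h z := by rw [hg]; simp [hSz, hb]
  have hout : ∀ w, w ∉ Metric.closedBall z η → g w = h w := by
    intro w hw
    rw [hg, hS, hR]
    simp [c4 w hw]
  have hout' : ∀ w, w ∉ Metric.closedBall z η → g =ᶠ[𝓝 w] h := fun w hw =>
    (Metric.isClosed_closedBall.isOpen_compl.eventually_mem hw).mono hout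
  have dR : ∀ w ∈ Metric.ball z η₂, HasFDerivAt R (fderiv ℝ h w - L) w := by
    intro w hw
    rw [hR]
    exact ((hh.sm w (hB hw).1.1).differentiableAt one_ne_zero).hasFDerivAt.sub
      (L.hasFDerivAt.const_add b)
  have bR : ∀ w ∈ Metric.closedBall z η, ‖R w‖ ≤ ε * η := by
    intro w hw
    have h1 := (convex_ball z η₂).norm_image_sub_le_of_norm_hasFDerivWithin_le
      (fun x hx => (dR x hx).hasFDerivWithinAt) (fun x hx => (hB hx).2)
      (Metric.mem_ball_self hη₂) (hsub hw)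
    rw [hRz, sub_zero] at h1
    rw [Metric.mem_closedBall, dist_eq_norm] at hw
    exact h1.trans (mul_le_mul_of_nonneg_left hw hε0.le)
  have dS : ∀ w ∈ Metric.ball z η₂, ∃ D : P2 →L[ℝ] P3, HasFDerivAt S D w ∧ ‖D‖ ≤ κ / 2 := by
    intro w hw
    have h1 : HasFDerivAt (fun w => 1 - χ w) (-fderiv ℝ χ w) w :=
      ((c1.differentiable one_ne_zero) w).hasFDerivAt.const_sub 1
    refine ⟨_, hS ▸ h1.fun_smul (dR w hw), (norm_add_le _ _).trans ?_⟩
    rw [← hε1]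
    refine add_le_add ?_ ?_
    · rw [norm_smul, Real.norm_eq_abs]
      exact (mul_le_of_le_one_left (norm_nonneg _) (c2 w)).trans (hB hw).2
    · rw [ContinuousLinearMap.norm_smulRight_apply, norm_neg]
      by_cases h2 : w ∈ Metric.closedBall z η
      · refine (mul_le_mul (c5 w) (bR w h2) (norm_nonneg _) (by positivity)).trans (le_of_eq ?_)
        field_simp
      · have h3 : χ =ᶠ[𝓝 w] fun _ => 0 :=
          (Metric.isClosed_closedBall.isOpen_compl.eventually_mem h2).mono c4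
        rw [h3.fderiv_eq, fderiv_fun_const, Pi.zero_apply, norm_zero, zero_mul]
        positivity
  choose! D hD1 hD2 using dS
  have lS : ∀ w ∈ Metric.ball z η₂, ∀ w' ∈ Metric.ball z η₂,
      ‖S w' - S w‖ ≤ κ / 2 * ‖w' - w‖ := fun w hw w' hw' =>
    (convex_ball z η₂).norm_image_sub_le_of_norm_hasFDerivWithin_le
      (fun x hx => (hD1 x hx).hasFDerivWithinAt) hD2 hw hw'
  have eg : ∀ w w', g w' - g w = L (w' - w) + (S w' - S w) := by
    intro w w'
    rw [hg, map_sub]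
    simp only
    abel
  have anti : ∀ w ∈ Metric.ball z η₂, ∀ w' ∈ Metric.ball z η₂,
      κ / 2 * ‖w' - w‖ ≤ ‖g w' - g w‖ := by
    intro w hw w' hw'
    have h1 := lS w hw w' hw'
    have h2 := hlow (w' - w)
    have h3 : ‖L (w' - w)‖ ≤ ‖g w' - g w‖ + ‖S w' - S w‖ := by
      rw [eg]
      simpa using norm_sub_le (L (w' - w) + (S w' - S w)) (S w' - S w)
    linarith
  have inN : ∀ w ∈ Metric.closedBall z η, g w ∈ Metric.ball (h z) ρ := by
    intro w hw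
    have h1 := lS z (Metric.mem_ball_self hη₂) w (hsub hw)
    have h2 := L.le_opNorm (w - z)
    rw [Metric.mem_closedBall, dist_eq_norm] at hw
    rw [Metric.mem_ball, dist_eq_norm, ← hgz, eg]
    have h3 := norm_add_le (L (w - z)) (S w - S z)
    have h4 := mul_le_mul_of_nonneg_left hw (norm_nonneg L)
    have h5 := mul_le_mul_of_nonneg_left hw hκ.le
    have h6 := mul_nonneg hκ.le (norm_nonneg (w - z))
    linarith
  have far : ∀ w ∈ W, g w ∈ Metric.ball (h z) ρ → w ∈ Metric.ball z η₂ := by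
    intro w hw h1
    by_contra h2
    rw [hout w fun h3 => h2 (hsub h3)] at h1
    exact h2 (hN h1 w hw rfl)
  have inj1 : ∀ w ∈ Metric.closedBall z η, ∀ w' ∈ W, g w' = g w → w' = w := by
    intro w hw w' hw' e
    have h1 := anti w (hsub hw) w' (far w' hw' (e ▸ inN w hw))
    rw [e, sub_self, norm_zero] at h1
    have h2 : ‖w' - w‖ ≤ 0 := by
      by_contra h3
      have := mul_pos (half_pos hκ) (not_le.1 h3)
      linarith
    exact sub_eq_zero.1 (norm_le_zero_iff.1 h2)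
  have hsm : ∀ w ∈ W, ContDiffAt ℝ 1 g w := by
    intro w hw
    have h1 : ContDiffAt ℝ 1 (fun w => b + L w) w := contDiffAt_const.add L.contDiff.contDiffAt
    rw [hg, hS, hR]
    exact h1.add ((contDiffAt_const.sub c1.contDiffAt).smul ((hh.sm w hw).sub h1))
  have hinj : InjOn g W := by
    intro w hw w' hw' e
    by_cases h1 : w ∈ Metric.closedBall z η
    · exact (inj1 w h1 w' hw' e.symm).symm
    by_cases h2 : w' ∈ Metric.closedBall z η
    · exact inj1 w' h2 w hw e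
    rw [hout w h1, hout w' h2] at e
    exact hh.inj hw hw' e
  refine ⟨g, ⟨hsm, fun w hw => ?_, hinj⟩, fun w hw δ hδ => ?_,
    fun w hw => hout w fun h1 => hw (hB (hsub h1)).1.2, L, b, c3.mono fun w hw => ?_⟩
  · by_cases h1 : w ∈ Metric.closedBall z η
    · have h2 : HasFDerivAt g (L + D w) w :=
        hg ▸ (L.hasFDerivAt.const_add b).add (hD1 w (hsub h1))
      rw [h2.fderiv, injective_iff_map_eq_zero]
      intro v hv
      have h3 : L v = -D w v := eq_neg_of_add_eq_zero_left hv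
      have h4 := hlow v
      have h5 := (D w).le_of_opNorm_le (hD2 w (hsub h1)) v
      rw [h3, norm_neg] at h4
      by_contra h6
      have := mul_pos (half_pos hκ) (norm_pos_iff.2 h6)
      linarith
    · rw [(hout' w h1).fderiv_eq]
      exact hh.imm w hw
  · by_cases h1 : w ∈ Metric.closedBall z η
    · filter_upwards [Metric.isOpen_ball.mem_nhds (inN w h1),
        Metric.ball_mem_nhds (g w) (mul_pos (half_pos hκ) hδ)] with p p1 p2 w' hw' e
      subst e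
      have h2 := anti w (hsub h1) w' (far w' hw' p1)
      rw [Metric.mem_ball, dist_eq_norm] at p2
      rw [dist_eq_norm]
      exact lt_of_mul_lt_mul_left (h2.trans_lt p2) (half_pos hκ).le
    · have hK : IsCompact (g '' Metric.closedBall z η) :=
        (isCompact_closedBall z η).image_of_continuousOn fun x hx =>
          (hsm x (hB (hsub hx)).1.1).continuousAt.continuousWithinAt
      have h2 : g w ∉ g '' Metric.closedBall z η := by
        rintro ⟨x, hx, e⟩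
        exact h1 (inj1 x hx w hw e.symm ▸ hx)
      have h3 := hp w hw δ hδ
      rw [← hout w h1] at h3
      filter_upwards [h3, hK.isClosed.isOpen_compl.mem_nhds h2] with p p1 p2 w' hw' e
      refine p1 w' hw' ?_
      rw [← hout w' fun h4 => p2 ⟨w', h4, e⟩, e]
  · rw [hg, hS]
    simp [hw]

theorem aff_many {h : P2 → P3} {W : Set P2} (hh : Imm h W) (hp : Prp h W) {Z : Set P2}
    (hZ : Z.Finite) (hz : ∀ z ∈ Z, W ∈ 𝓝 z) {O : Set P2} (hO : ∀ z ∈ Z, O ∈ 𝓝 z) :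
    ∃ h' : P2 → P3, Imm h' W ∧ Prp h' W ∧ (∀ w, w ∉ O → h' w = h w) ∧
      ∀ z ∈ Z, ∃ (L : P2 →L[ℝ] P3) (b₀ : P3), ∀ᶠ w in 𝓝 z, h' w = b₀ + L w := by
  induction Z, hZ using Set.Finite.induction_on with
  | empty => exact ⟨h, hh, hp, fun _ _ => rfl, fun _ h => h.elim⟩
  | @insert a Z ha hZ ih =>
    obtain ⟨g, g1, g2, g3, g4⟩ := ih (fun z h => hz z (mem_insert_of_mem _ h))
      fun z h => hO z (mem_insert_of_mem _ h)
    obtain ⟨T, T1, T2, T3⟩ := exists_mem_nhds_isClosed_subset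
      (inter_mem (hO a (mem_insert _ _)) (hZ.isClosed.isOpen_compl.mem_nhds ha))
    obtain ⟨k, k1, k2, k3, k4⟩ := aff_one g1 g2 (hz a (mem_insert _ _)) T1
    refine ⟨k, k1, k2, fun w hw => (k3 w fun h1 => hw (T3 h1).1).trans (g3 w hw), ?_⟩
    rintro z (rfl | h1)
    · exact k4
    · obtain ⟨L, b, h2⟩ := g4 z h1
      refine ⟨L, b, ?_⟩
      filter_upwards [h2, T2.isOpen_compl.mem_nhds fun h3 => (T3 h3).2 h1] with w w1 w2
      exact (k3 w w2).trans w1

end Pool.Agent.Lib.MP_4d7d0a_gt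
end
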