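import Pool.Agent.Lib.MP_4d7d0a_gt.TBIn
import Pool.Agent.Lib.MP_4d7d0a_gt.TBAff
import Pool.Agent.Lib.MP_4d7d0a_gt.TBCab

-- part Pool.Agent.Lib.MP_4d7d0a_gt.TBOut
section

/-! The unit circle lies in the class of the open polygon. -/

set_option autoImplicit false

open Set Filter Topology
open scoped ContDiff

namespace Pool.Agent.Lib.MP_4d7d0a_gt

/-- the angular step -/
noncomputable def tboutH (k : ℕ) : ℝ := Real.pi / (6 * k)

/-- the angular position of a column boundary -/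
def tboutG (n : ℕ) : ℕ := 6 * (n / 4) + (if n % 4 = 0 then 0 else 2 * (n % 4) - 1)

/-- the column boundaries -/
noncomputable def tboutX (k n : ℕ) : ℝ :=
  if n = 0 then -2 else if 4 * k ≤ n then 2 else -Real.cos (tboutG n * tboutH k)

theorem tbout_h_pos {k : ℕ} (hk : 0 < k) : 0 < tboutH k := by
  have : (0 : ℝ) < k := by exact_mod_cast hk
  unfold tboutH
  have := Real.pi_pos
  positivity

theorem tbout_h_mul {k : ℕ} (hk : 0 < k) : 6 * k * tboutH k = Real.pi := by
  have : (0 : ℝ) < k := by exact_mod_cast hk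
  unfold tboutH
  field_simp

theorem tbout_h_lt {k : ℕ} (hk : 0 < k) : tboutH k < Real.pi / 2 := by
  have h1 : (1 : ℝ) ≤ k := by exact_mod_cast hk
  have h2 := tbout_h_mul hk
  have h3 := tbout_h_pos hk
  nlinarith

theorem tbout_c {k : ℕ} (hk : 0 < k) (t : ℝ) : outC k (t / (6 * k)) =
    (-Real.cos ((2 * t + 1) * tboutH k), -Real.sin ((2 * t + 1) * tboutH k)) := by
  have : (0 : ℝ) < k := by exact_mod_cast hk
  have e : 2 * Real.pi * (t / (6 * k)) + (-Real.pi + Real.pi / (6 * k)) =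
      (2 * t + 1) * tboutH k - Real.pi := by
    unfold tboutH
    field_simp
    ring
  unfold outC pol
  rw [e, Real.cos_sub_pi, Real.sin_sub_pi, one_mul, one_mul]

theorem tbout_der {k : ℕ} (hk : 0 < k) (b u : ℝ) :
    HasDerivAt (fun u => outC k ((b + u) / (6 * k)))
      (2 * tboutH k * Real.sin ((2 * (b + u) + 1) * tboutH k),
        -(2 * tboutH k * Real.cos ((2 * (b + u) + 1) * tboutH k))) u := by
  simp only [tbout_c hk]
  have h1 : HasDerivAt (fun u : ℝ => (2 * (b + u) + 1) * tboutH k) (2 * tboutH k) u := by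
    have := ((((hasDerivAt_id u).const_add b).const_mul 2).add_const 1).mul_const (tboutH k)
    simpa using this
  refine HasDerivAt.prodMk ?_ ?_
  · exact h1.cos.fun_neg.congr_deriv (by ring)
  · exact h1.sin.fun_neg.congr_deriv (by ring)

theorem tbout_sin_pos {k : ℕ} (hk : 0 < k) {m : ℝ} (h0 : 0 < m) (h1 : m < 6 * k) :
    0 < Real.sin (m * tboutH k) := by
  have h2 := tbout_h_mul hk
  have h3 := tbout_h_pos hk
  exact Real.sin_pos_of_pos_of_lt_pi (by positivity) (by nlinarith)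

theorem tbout_refl {k : ℕ} (hk : 0 < k) (m : ℝ) :
    Real.cos ((12 * k - m) * tboutH k) = Real.cos (m * tboutH k) ∧
      Real.sin ((12 * k - m) * tboutH k) = -Real.sin (m * tboutH k) := by
  have e : (12 * k - m) * tboutH k = 2 * Real.pi - m * tboutH k := by
    rw [← tbout_h_mul hk]
    ring
  rw [e, Real.cos_two_pi_sub, Real.sin_two_pi_sub]
  exact ⟨rfl, rfl⟩

theorem tbout_half {k : ℕ} (hk : 0 < k) (m : ℝ) :
    Real.cos ((6 * k + m) * tboutH k) = -Real.cos (m * tboutH k) ∧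
      Real.sin ((6 * k + m) * tboutH k) = -Real.sin (m * tboutH k) := by
  have e : (6 * k + m) * tboutH k = m * tboutH k + Real.pi := by
    rw [← tbout_h_mul hk]
    ring
  rw [e, Real.cos_add_pi, Real.sin_add_pi]
  exact ⟨rfl, rfl⟩

theorem tbout_full {k : ℕ} (hk : 0 < k) (m : ℝ) :
    Real.cos ((12 * k + m) * tboutH k) = Real.cos (m * tboutH k) ∧
      Real.sin ((12 * k + m) * tboutH k) = Real.sin (m * tboutH k) := by
  have e : (12 * k + m) * tboutH k = m * tboutH k + 2 * Real.pi := by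
    rw [← tbout_h_mul hk]
    ring
  rw [e, Real.cos_add_two_pi, Real.sin_add_two_pi]
  exact ⟨rfl, rfl⟩

theorem tbout_small {k : ℕ} (hk : 0 < k) {m : ℝ} (h0 : -1 ≤ m) (h1 : m ≤ 1) :
    0 < Real.cos (m * tboutH k) ∧ Real.cos (tboutH k) ≤ Real.cos (m * tboutH k) := by
  have h2 := tbout_h_lt hk
  have h3 := tbout_h_pos hk
  have h4 := Real.pi_pos
  refine ⟨Real.cos_pos_of_mem_Ioo ⟨by nlinarith, by nlinarith⟩, ?_⟩
  rw [← Real.cos_abs (m * tboutH k)]
  refine Real.cos_le_cos_of_nonneg_of_le_pi (abs_nonneg _) (by linarith) ?_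
  exact abs_le.2 ⟨by nlinarith, by nlinarith⟩

theorem tbout_mono {k : ℕ} (hk : 0 < k) (a b : ℕ) (hab : a < b) (hb : b ≤ 4 * k) :
    tboutX k a < tboutX k b := by
  have h2 := tbout_h_mul hk
  have h3 := tbout_h_pos hk
  unfold tboutX
  split_ifs with a0 b0 b1 a1 b0 b1 b0 b1
  · omega
  · norm_num
  · linarith [Real.cos_le_one (tboutG b * tboutH k)]
  · omega
  · omega
  · omega
  · omega
  · linarith [Real.neg_one_le_cos (tboutG a * tboutH k)]
  · have g1 : tboutG a < tboutG b := by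
      unfold tboutG
      split_ifs <;> omega
    have g2 : tboutG b ≤ 6 * k := by
      unfold tboutG
      split_ifs <;> omega
    have g1' : (tboutG a : ℝ) < tboutG b := by exact_mod_cast g1
    have g2' : (tboutG b : ℝ) ≤ 6 * k := by exact_mod_cast g2
    have := Real.cos_lt_cos_of_nonneg_of_le_pi (x := tboutG a * tboutH k)
      (y := tboutG b * tboutH k) (by positivity) (by nlinarith) (by nlinarith)
    linarith

theorem tbout_X {k n g : ℕ} (h0 : 0 < n) (h1 : n < 4 * k) (hg : tboutG n = g) :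
    tboutX k n = -Real.cos (g * tboutH k) := by
  unfold tboutX
  rw [if_neg (by omega), if_neg (by omega), hg]

theorem tbout_bot {k : ℕ} (v : Bd k) (h : bty k 0 v = 0) :
    0 < bp k 0 v ∧ bp k 0 v < 4 * k ∧ 0 < bq k 0 v ∧ bq k 0 v < 4 * k ∧
      tboutG (bp k 0 v) = 2 * bpos k v + 1 ∧ tboutG (bq k 0 v) = 2 * bpos k v + 3 ∧
      2 * bpos k v + 3 < 6 * k := by
  have h1 := v.1.isLt
  have h2 := v.2.isLt
  unfold bty at h
  unfold bp bq bpos tboutG
  split_ifs at h ⊢ <;> omega

theorem tbout_top {k : ℕ} (v : Bd k) (h : bty k 0 v = 2) :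
    0 < bp k 0 v ∧ bp k 0 v < 4 * k ∧ 0 < bq k 0 v ∧ bq k 0 v < 4 * k ∧
      tboutG (bq k 0 v) + (2 * bpos k v + 1) = 12 * k ∧
      tboutG (bp k 0 v) + (2 * bpos k v + 3) = 12 * k ∧ 0 < tboutG (bp k 0 v) ∧
      tboutG (bq k 0 v) < 6 * k := by
  have h1 := v.1.isLt
  have h2 := v.2.isLt
  unfold bty at h
  unfold bp bq bpos tboutG
  split_ifs at h ⊢ <;> omega

theorem tbout_right {k : ℕ} (v : Bd k) (h : bty k 0 v = 1) :
    v.1.val + 1 = k ∧ 0 < bp k 0 v ∧ bp k 0 v < 4 * k ∧ bq k 0 v = 4 * k ∧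
      tboutG (bp k 0 v) + 1 = 6 * k ∧ 2 * bpos k v + 2 = 6 * k := by
  have h1 := v.1.isLt
  have h2 := v.2.isLt
  unfold bty at h
  unfold bp bq bpos tboutG
  split_ifs at h ⊢ <;> omega

theorem tbout_left {k : ℕ} (v : Bd k) (h : bty k 0 v = 3) :
    v.1.val = 0 ∧ bp k 0 v = 0 ∧ bq k 0 v = 1 ∧ 2 * bpos k v + 2 = 12 * k := by
  have h1 := v.1.isLt
  have h2 := v.2.isLt
  unfold bty at h
  unfold bp bq bpos
  split_ifs at h ⊢ <;> omega

theorem tbout_next {k : ℕ} (v : Bd k) : bpos k (sig k 0 v) = bpos k v + 1 ∨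
    (bpos k (sig k 0 v) = 0 ∧ bpos k v + 1 = 6 * k) := by
  have h1 := v.1.isLt
  have h2 := v.2.isLt
  obtain ⟨a1, a2⟩ := nxt_val k 0 v
  rw [sig_apply]
  unfold bpos
  rw [a1, a2]
  split_ifs <;> omega

theorem geo_out {k : ℕ} (hk : 0 < k) : ∃ (X : ℕ → ℝ) (d : Bd k → ℝ → P2),
    Geo (4 * k) (sig k 0) (bty k 0) (bp k 0) (bq k 0) X
      (fun v u => outC k ((bpos k v + u) / (6 * k))) d := by
  have hp := tbout_h_pos hk
  refine ⟨tboutX k, fun v u =>
    (2 * tboutH k * Real.sin ((2 * (bpos k v + u) + 1) * tboutH k),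
      -(2 * tboutH k * Real.cos ((2 * (bpos k v + u) + 1) * tboutH k))),
    tbout_mono hk, fun v u _ => (tbout_der hk _ u).hasDerivWithinAt, fun v => ?_, fun v => ?_,
    fun v h => ?_, fun v h => ?_, fun v h => ?_, fun v h => ?_⟩
  · exact Continuous.continuousOn (by fun_prop)
  · simp only [tbout_c hk]
    rcases tbout_next v with h | ⟨h, h'⟩
    · rw [h]
      push_cast
      rw [add_zero]
    · have h'' : (bpos k v : ℝ) + 1 = 6 * k := by exact_mod_cast h'
      have e : 2 * ((bpos k v : ℝ) + 1) + 1 = 12 * k + 1 := by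
        rw [h'']
        ring
      rw [h, e, (tbout_full hk 1).1, (tbout_full hk 1).2]
      simp
  · obtain ⟨a1, a2, a3, a4, a5, a6, a7⟩ := tbout_bot v h
    have a7' : 2 * (bpos k v : ℝ) + 3 < 6 * k := by exact_mod_cast a7
    have a8 : (0 : ℝ) ≤ bpos k v := Nat.cast_nonneg _
    simp only [tbout_c hk]
    refine ⟨?_, ?_, fun u hu => ?_⟩
    · rw [tbout_X a1 a2 a5]
      push_cast
      rw [add_zero]
    · rw [tbout_X a3 a4 a6]
      push_cast
      congr 3
      ring
    · have := tbout_sin_pos hk (m := 2 * (bpos k v + u) + 1) (by linarith [hu.1])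
        (by linarith [hu.2])
      exact ⟨by positivity, by linarith⟩
  · obtain ⟨a1, a2, a3, a4, a5, a6, a7, a8⟩ := tbout_top v h
    have a5' : (tboutG (bq k 0 v) : ℝ) + (2 * bpos k v + 1) = 12 * k := by exact_mod_cast a5
    have a6' : (tboutG (bp k 0 v) : ℝ) + (2 * bpos k v + 3) = 12 * k := by exact_mod_cast a6
    have a7' : (0 : ℝ) < tboutG (bp k 0 v) := by exact_mod_cast a7
    have a8' : (tboutG (bq k 0 v) : ℝ) < 6 * k := by exact_mod_cast a8
    simp only [tbout_c hk]
    refine ⟨?_, ?_, fun u hu => ?_⟩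
    · rw [tbout_X a3 a4 rfl, ← (tbout_refl hk (tboutG (bq k 0 v))).1]
      congr 3
      linarith
    · rw [tbout_X a1 a2 rfl, ← (tbout_refl hk (tboutG (bp k 0 v))).1]
      congr 3
      linarith
    · have e : 2 * ((bpos k v : ℝ) + u) + 1 = 12 * k - (tboutG (bq k 0 v) - 2 * u) := by linarith
      have := tbout_sin_pos hk (m := tboutG (bq k 0 v) - 2 * u) (by linarith [hu.2])
        (by linarith [hu.1])
      rw [e, (tbout_refl hk _).2]
      refine ⟨?_, by linarith⟩
      have : 0 < 2 * tboutH k * Real.sin ((tboutG (bq k 0 v) - 2 * u) * tboutH k) := by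
        positivity
      linarith
  · obtain ⟨-, a1, a2, a3, a4, a5⟩ := tbout_right v h
    have a4' : (tboutG (bp k 0 v) : ℝ) + 1 = 6 * k := by exact_mod_cast a4
    have a5' : 2 * (bpos k v : ℝ) + 2 = 6 * k := by exact_mod_cast a5
    have e : ∀ u : ℝ, 2 * ((bpos k v : ℝ) + u) + 1 = 6 * k + (2 * u - 1) := fun u => by linarith
    have e1 : (tboutG (bp k 0 v) : ℝ) = 6 * k + -1 := by linarith
    have hs : 0 < Real.sin (tboutH k) := by
      have := tbout_sin_pos hk (m := 1) one_pos (by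
        have : (1 : ℝ) ≤ k := by exact_mod_cast hk
        linarith)
      rwa [one_mul] at this
    simp only [tbout_c hk, e, (tbout_half hk _).1, (tbout_half hk _).2]
    refine ⟨fun u hu => ?_, ?_, ?_, ?_⟩
    · obtain ⟨b1, b2⟩ := tbout_small hk (m := 2 * u - 1) (by linarith [hu.1]) (by linarith [hu.2])
      refine ⟨?_, ?_, ?_⟩
      · have : 0 < 2 * tboutH k * Real.cos ((2 * u - 1) * tboutH k) := by positivity
        linarith
      · rw [tbout_X a1 a2 rfl, e1, (tbout_half hk _).1]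
        simpa using b2
      · rw [a3]
        unfold tboutX
        rw [if_neg (by omega), if_pos le_rfl]
        linarith [Real.cos_le_one ((2 * u - 1) * tboutH k)]
    · have : (2 * 0 - 1) * tboutH k = -tboutH k := by ring
      rw [this, Real.sin_neg, neg_neg]
      positivity
    · have : (2 * 1 - 1) * tboutH k = tboutH k := by ring
      rw [this]
      have : 0 < 2 * tboutH k * Real.sin (tboutH k) := by positivity
      linarith
    · norm_num
  · obtain ⟨-, a1, a2, a3⟩ := tbout_left v h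
    have a3' : 2 * (bpos k v : ℝ) + 2 = 12 * k := by exact_mod_cast a3
    have e : ∀ u : ℝ, 2 * ((bpos k v : ℝ) + u) + 1 = 12 * k + (2 * u - 1) := fun u => by linarith
    have hs : 0 < Real.sin (tboutH k) := by
      have := tbout_sin_pos hk (m := 1) one_pos (by
        have : (1 : ℝ) ≤ k := by exact_mod_cast hk
        linarith)
      rwa [one_mul] at this
    simp only [tbout_c hk, e, (tbout_full hk _).1, (tbout_full hk _).2]
    refine ⟨fun u hu => ?_, ?_, ?_, ?_⟩
    · obtain ⟨b1, b2⟩ := tbout_small hk (m := 2 * u - 1) (by linarith [hu.1]) (by linarith [hu.2])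
      refine ⟨?_, ?_, ?_⟩
      · have : 0 < 2 * tboutH k * Real.cos ((2 * u - 1) * tboutH k) := by positivity
        linarith
      · rw [a1]
        unfold tboutX
        rw [if_pos rfl]
        linarith [Real.cos_le_one ((2 * u - 1) * tboutH k)]
      · rw [a2, tbout_X one_pos (by omega) (g := 1) rfl]
        simpa using b2
    · have : (2 * 0 - 1) * tboutH k = -tboutH k := by ring
      rw [this, Real.sin_neg]
      have : 0 < 2 * tboutH k * Real.sin (tboutH k) := by positivity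
      linarith
    · have : (2 * 1 - 1) * tboutH k = tboutH k := by ring
      rw [this]
      positivity
    · norm_num

theorem out_mid {k : ℕ} (hk : 0 < k) (v : Bd k) :
    (bty k 0 v = 1 → v.1.val + 1 = k ∧ (outC k ((bpos k v + 1 / 2) / (6 * k))).1 = 1) ∧
      (bty k 0 v = 3 → v.1.val = 0 ∧ (outC k ((bpos k v + 1 / 2) / (6 * k))).1 = -1) := by
  refine ⟨fun h => ?_, fun h => ?_⟩
  · obtain ⟨a0, -, -, -, -, a5⟩ := tbout_right v h
    have a5' : 2 * (bpos k v : ℝ) + 2 = 6 * k := by exact_mod_cast a5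
    have e : 2 * ((bpos k v : ℝ) + 1 / 2) + 1 = 6 * k + 0 := by linarith
    refine ⟨a0, ?_⟩
    rw [tbout_c hk, e, (tbout_half hk _).1]
    simp
  · obtain ⟨a0, -, -, a3⟩ := tbout_left v h
    have a3' : 2 * (bpos k v : ℝ) + 2 = 12 * k := by exact_mod_cast a3
    have e : 2 * ((bpos k v : ℝ) + 1 / 2) + 1 = 12 * k + 0 := by linarith
    refine ⟨a0, ?_⟩
    rw [tbout_c hk, e, (tbout_full hk _).1]
    simp

/-- from the unit circle to the polygon with all cuts open -/
theorem fam_out {k : ℕ} (hk : 0 < k) {x s : ℕ → ℝ} {δ : ℝ} (h : Cuts k x s δ)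
    (h0 : s 0 ^ 2 + 4 * δ ^ 2 ≤ 1) (h1 : s k ^ 2 + 4 * δ ^ 2 ≤ 1) :
    FamE (disc \ range fun i : Fin k => ((x i, 0) : P2)) (sig k 0)
      (fun v u => outC k ((bpos k v + u) / (6 * k))) (plg k 0 x s δ) := by
  obtain ⟨X, d, hg⟩ := geo_out hk
  have hδ := h.1
  refine fam_of_geo (comb_sig k 0) hg (geo_plg h 0) convex_disc (fun v u _ => ?_)
    (plg_disc h h0 h1 0) ?_
  · have := pol_sq 1 (2 * Real.pi * ((bpos k v + u) / (6 * k)) + (-Real.pi + Real.pi / (6 * k)))
    exact (this.trans (one_pow 2)).le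
  · rintro z ⟨i, rfl⟩
    refine ⟨rfl, fun v hv => ?_⟩
    have hi := i.isLt
    rcases hv with hv | hv
    · obtain ⟨a1, a2⟩ := (out_mid hk v).1 hv
      have a3 := (plg_mid x s δ 0 v).1 hv
      have a4 := (h.lt (i := i) (j := v.1.val) (by omega) v.1.isLt).2
      left
      rw [a2, a3]
      rw [a1] at a4 ⊢
      refine ⟨?_, a4⟩
      show x i < 1
      nlinarith
    · obtain ⟨a1, a2⟩ := (out_mid hk v).2 hv
      have a3 := (plg_mid x s δ 0 v).2 hv
      have a4 := (h.lt (i := 0) (j := i) (by omega) hi).1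
      right
      rw [a2, a3, a1]
      refine ⟨?_, a4⟩
      show -1 < x i
      nlinarith

end Pool.Agent.Lib.MP_4d7d0a_gt
end

-- part Pool.Agent.Lib.MP_4d7d0a_gt.TBUnk
section

/-! The boundary of an embedded disc. -/

set_option autoImplicit false

open Set Filter Topology
open scoped ContDiff

namespace Pool.Agent.Lib.MP_4d7d0a_gt

theorem tbunk_dir (L : P2 →L[ℝ] P3) : ∃ r : P3, r.2.1 = 1 ∧ ∀ v, L v ≠ r := by
  by_contra hc
  push Not at hc
  obtain ⟨a, ha⟩ := hc (0, 1, 0) rfl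
  obtain ⟨b, hb⟩ := hc (1, 1, 0) rfl
  obtain ⟨c, hc⟩ := hc (0, 1, 1) rfl
  have hs : Function.Surjective (L : P2 →ₗ[ℝ] P3) := by
    intro p
    refine ⟨p.1 • (b - a) + p.2.1 • a + p.2.2 • (c - a), ?_⟩
    simp only [ContinuousLinearMap.coe_coe, map_add, map_smul, map_sub, ha, hb, hc]
    ext <;> simp
  have := LinearMap.finrank_le_finrank_of_surjective hs
  simp at this

theorem tbunk_ker {L : P2 →L[ℝ] P3} (hL : Function.Injective L) {r : P3} (hr : ∀ v, L v ≠ r)
    (s : ℝ) {v : P2} (h : L v - (s * (L v).2.1) • r = 0) : v = 0 := by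
  by_cases h0 : s * (L v).2.1 = 0
  · rw [h0, zero_smul, sub_zero] at h
    exact hL (by rw [h, map_zero])
  · exfalso
    apply hr ((s * (L v).2.1)⁻¹ • v)
    rw [map_smul, sub_eq_zero.1 h]
    nth_rewrite 1 [← sub_eq_zero.1 h]
    rw [smul_smul, inv_mul_cancel₀ h0, one_smul]

/-- flattening of a planar ellipse into the plane `y = 0` -/
theorem tbunk_flat {L : P2 →L[ℝ] P3} (hL : Function.Injective L) (z : P3) {r : P3}
    (hr : ∀ v, L v ≠ r) {ρ : ℝ} (hρ : 0 < ρ) :
    FamE univ (1 : Equiv.Perm Unit) (fun _ t => z + L (pol ρ (2 * Real.pi * t)))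
      (fun _ t => L (pol ρ (2 * Real.pi * t)) - (L (pol ρ (2 * Real.pi * t))).2.1 • r) := by
  set D : ℝ → P2 := fun t => (2 * Real.pi) •
    ((-(ρ * Real.sin (2 * Real.pi * t)), ρ * Real.cos (2 * Real.pi * t)) : P2) with hD
  have hP : ∀ t, HasDerivAt (fun t => pol ρ (2 * Real.pi * t)) (D t) t := fun t => by
    have h1 : HasDerivAt (fun t : ℝ => 2 * Real.pi * t) (2 * Real.pi) t := by
      simpa using (hasDerivAt_id t).const_mul (2 * Real.pi)
    exact (hasDerivAt_pol ρ (2 * Real.pi * t)).scomp t h1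
  have cD : Continuous D := by
    rw [hD]
    fun_prop
  have F := fam_of_loops (W := univ)
    (fun s t => (1 - s) • z + (L (pol ρ (2 * Real.pi * t)) -
      (s * (L (pol ρ (2 * Real.pi * t))).2.1) • r))
    (fun s t => L (D t) - (s * (L (D t)).2.1) • r)
    (Continuous.continuousOn (by unfold pol; fun_prop)) (Continuous.continuousOn (by fun_prop)) (by
      intro s _
      refine ⟨fun t _ => ⟨?_, fun h0 => ?_, trivial⟩, ?_, ?_, fun t ht t' ht' e => ?_⟩
      · have h1 : HasDerivAt (fun t => L (pol ρ (2 * Real.pi * t))) (L (D t)) t :=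
          L.hasFDerivAt.comp_hasDerivAt t (hP t)
        have h2 : HasDerivAt (fun t => s * (L (pol ρ (2 * Real.pi * t))).2.1)
            (s * (L (D t)).2.1) t :=
          (((ContinuousLinearMap.fst ℝ ℝ ℝ).comp
            (ContinuousLinearMap.snd ℝ ℝ (ℝ × ℝ))).hasFDerivAt.comp_hasDerivAt t h1).const_mul s
        exact ((h1.sub (h2.smul_const r)).const_add _).hasDerivWithinAt
      · have h1 := tbunk_ker hL hr s h0
        have h2 := congrArg Prod.fst h1
        have h3 := congrArg Prod.snd h1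
        simp only [hD, Prod.smul_mk, smul_eq_mul, Prod.fst_zero, Prod.snd_zero] at h2 h3
        have hp := Real.pi_pos
        have h4 : Real.sin (2 * Real.pi * t) = 0 := by
          have : 2 * Real.pi * ρ * Real.sin (2 * Real.pi * t) = 0 := by linarith
          exact (mul_eq_zero.1 this).resolve_left (by positivity)
        have h5 : Real.cos (2 * Real.pi * t) = 0 := by
          have : 2 * Real.pi * ρ * Real.cos (2 * Real.pi * t) = 0 := by linarith
          exact (mul_eq_zero.1 this).resolve_left (by positivity)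
        have := Real.sin_sq_add_cos_sq (2 * Real.pi * t)
        rw [h4, h5] at this
        norm_num at this
      · simp [pol]
      · simp [hD]
      · have e1 := add_left_cancel e
        have h1 : pol ρ (2 * Real.pi * t) - pol ρ (2 * Real.pi * t') = 0 := by
          apply tbunk_ker hL hr s
          rw [map_sub, Prod.snd_sub, Prod.fst_sub, mul_sub, sub_smul]
          rw [← sub_eq_zero] at e1
          rw [← e1]
          abel
        obtain ⟨-, k, hk⟩ := pol_inj hρ hρ (sub_eq_zero.1 h1)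
        have hp := Real.pi_pos
        have h2 : t = t' + k := by
          apply mul_left_cancel₀ (show 2 * Real.pi ≠ 0 by positivity)
          linarith
        have h3 : (k : ℝ) < 1 := by linarith [ht.2, ht'.1]
        have h4 : (-1 : ℝ) < k := by linarith [ht.1, ht'.2]
        have h5 : k = 0 := by
          have a : k < 1 := by exact_mod_cast h3
          have b : -1 < k := by exact_mod_cast h4
          omega
        simpa [h5] using h2)
  exact F.congr (fun _ u _ => by simp) fun _ u _ => by simp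

theorem not_V_disc (T : KTheory) {h : P2 → P3} (hh : Imm h disc) : ¬ T.V (bdL h 1) 0 := by
  intro hV
  have h0 : (0 : P2) ∈ disc := by simp [disc]
  obtain ⟨r, hr1, hr⟩ := tbunk_dir (fderiv ℝ h 0)
  obtain ⟨ρ, hF, hρ⟩ := ((fam_lin (hh.sm 0 h0) (hh.imm 0 h0) one_pos true).and
    (Ioo_mem_nhdsGT (show (0 : ℝ) < 1 by norm_num))).exists
  have F1 : FamE disc (1 : Equiv.Perm Unit) (fun _ t => pol 1 (2 * Real.pi * (1 * t)))
      (fun _ t => pol ρ (2 * Real.pi * ori true t)) := by
    refine (fam_circle (W := disc) 0 one_pos hρ.1 0 0 fun q hq a => ?_).congr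
      (fun _ u _ => by simp) fun _ u _ => by simp [ori]
    rw [uIcc_of_ge hρ.2.le] at hq
    show (0 + pol q a).1 ^ 2 + (0 + pol q a).2 ^ 2 ≤ 1
    rw [zero_add, pol_sq]
    nlinarith [hq.1, hq.2, hρ.1]
  have V1 := V_fam T hF (V_fam2 T hh F1 hV)
  have F3 := tbunk_flat (hh.imm 0 h0) (h 0) hr hρ.1
  have V3 := V_fam T F3 V1
  obtain ⟨-, d, hd⟩ := F3.right
  refine T.unlink ⟨1, fun _ t => fderiv ℝ h 0 (pol ρ (2 * Real.pi * t)) -
    (fderiv ℝ h 0 (pol ρ (2 * Real.pi * t))).2.1 • r⟩ 1 (fun _ => 0) ⟨d, hd⟩ (fun _ u _ => ?_)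
    (fun i => ⟨(), Subsingleton.elim _ _⟩) (fun _ => rfl) (by simpa using V3)
  simp [hr1]

end Pool.Agent.Lib.MP_4d7d0a_gt
end

-- part Pool.Agent.Lib.MP_4d7d0a_gt.TB2
section

/-! The saddle half of the tightness proof. -/

set_option autoImplicit false

open Set Filter Topology
open scoped ContDiff

namespace Pool.Agent.Lib.MP_4d7d0a_gt

/-- cut points between increasing centres -/
theorem tb2_cuts {k : ℕ} (hk : 0 < k) (y : Fin k → ℝ) (hy : StrictMono y)
    (h1 : ∀ i, y i ^ 2 < 1) : ∃ x s : ℕ → ℝ, (∀ i : Fin k, x i = y i) ∧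
      (∀ j ≤ k, s j ^ 2 < 1) ∧ ∀ᶠ δ : ℝ in 𝓝[>] 0,
        Cuts k x s δ ∧ s 0 ^ 2 + 4 * δ ^ 2 ≤ 1 ∧ s k ^ 2 + 4 * δ ^ 2 ≤ 1 := by
  let x : ℕ → ℝ := fun n => if h : n < k then y ⟨n, h⟩ else 0
  have hx : ∀ i : Fin k, x i = y i := fun i => by simp [x, i.isLt]
  have hb : ∀ n < k, -1 < x n ∧ x n < 1 := fun n hn => by
    have := h1 ⟨n, hn⟩
    rw [← hx ⟨n, hn⟩] at this
    constructor <;> nlinarith
  have hm : ∀ n, n + 1 < k → x n < x (n + 1) := fun n hn => by
    have := hy (show (⟨n, by omega⟩ : Fin k) < ⟨n + 1, hn⟩ from Nat.lt_succ_self n)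
    rwa [← hx, ← hx] at this
  let s : ℕ → ℝ := fun n => if n = 0 then (x 0 - 1) / 2 else if n < k then (x (n - 1) + x n) / 2
    else (x (k - 1) + 1) / 2
  have hs : ∀ i < k, s i < x i ∧ x i < s (i + 1) := fun i hi => by
    constructor
    · rcases Nat.eq_zero_or_pos i with rfl | h0
      · have := hb 0 hk
        simp only [s, if_true]
        linarith [this.1]
      · have := hm (i - 1) (by omega)
        rw [show i - 1 + 1 = i by omega] at this
        simp only [s, if_neg h0.ne', if_pos hi]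
        linarith
    · by_cases h : i + 1 < k
      · have := hm i h
        simp only [s, if_neg (Nat.succ_ne_zero i), if_pos h, Nat.add_sub_cancel]
        linarith
      · have := hb i hi
        simp only [s, if_neg (Nat.succ_ne_zero i), if_neg h, show k - 1 = i by omega]
        linarith [this.2]
  have hs1 : ∀ j ≤ k, s j ^ 2 < 1 := fun j hj => by
    have h0 := hb 0 hk
    have h2 := hb (k - 1) (by omega)
    have : -1 < s j ∧ s j < 1 := by
      by_cases e0 : j = 0
      · simp only [s, if_pos e0]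
        constructor <;> linarith [h0.1, h0.2]
      · by_cases e1 : j < k
        · have a := hb j e1
          have b := hb (j - 1) (by omega)
          simp only [s, if_neg e0, if_pos e1]
          constructor <;> linarith [a.1, a.2, b.1, b.2]
        · simp only [s, if_neg e0, if_neg e1]
          constructor <;> linarith [h2.1, h2.2]
    nlinarith [this.1, this.2]
  refine ⟨x, s, hx, hs1, ?_⟩
  have ev : ∀ a : ℝ, 0 < a → ∀ᶠ δ : ℝ in 𝓝[>] 0, δ < a := fun a ha =>
    nhdsWithin_le_nhds (gt_mem_nhds ha)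
  have sq : ∀ a : ℝ, a ^ 2 < 1 → ∀ᶠ δ : ℝ in 𝓝[>] 0, a ^ 2 + 4 * δ ^ 2 ≤ 1 := fun a ha => by
    have hc : ContinuousAt (fun δ : ℝ => a ^ 2 + 4 * δ ^ 2) 0 := by fun_prop
    have : ∀ᶠ δ : ℝ in 𝓝 0, a ^ 2 + 4 * δ ^ 2 < 1 := hc.eventually (gt_mem_nhds (by simpa using ha))
    exact nhdsWithin_le_nhds (this.mono fun _ h => h.le)
  have all : ∀ᶠ δ : ℝ in 𝓝[>] 0, ∀ i ∈ Iio k, s i + δ < x i ∧ x i < s (i + 1) - δ := by
    rw [(finite_Iio k).eventually_all]
    intro i hi
    have := hs i hi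
    filter_upwards [ev (x i - s i) (by linarith [this.1]), ev (s (i + 1) - x i) (by linarith [this.2])]
      with δ a b
    constructor <;> linarith
  filter_upwards [all, sq _ (hs1 0 (Nat.zero_le k)), sq _ (hs1 k le_rfl), self_mem_nhdsWithin]
    with δ a b c d
  exact ⟨⟨d, a⟩, b, c⟩

theorem tb2_circle (a : ℝ) : pol 1 a ∈ circ := by
  have := pol_sq 1 a
  simpa [circ] using this

/-- all saddles -/
theorem tb2_steps (T : KTheory) {h : P2 → P3} {W : Set P2} (hh : Imm h W) {k : ℕ} {x s : ℕ → ℝ}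
    {δ : ℝ} (hc : Cuts k x s δ) (hW : ∀ J, InW W (plg k J x s δ))
    (haff : ∀ j < k, ∃ (O : Set P2) (L : P2 →L[ℝ] P3) (b₀ : P3), IsOpen O ∧
      Metric.closedBall ((s j, 0) : P2) δ ⊆ O ∩ W ∧ ∀ w ∈ O, h w = b₀ + L w)
    (hV : T.V (⟨sig k 0, fun v u => h (plg k 0 x s δ v u)⟩ : CPL (Bd k)) 0) (J : ℕ) (hJ : J < k) :
    T.V (⟨sig k J, fun v u => h (plg k J x s δ v u)⟩ : CPL (Bd k)) (-J) := by
  induction J with
  | zero => simpa using hV
  | succ J ih =>
    obtain ⟨O, L, b₀, hO, hQ, ha⟩ := haff (J + 1) hJ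
    have := V_plg_step T hh hJ hc (hW J) (hW (J + 1)) hO hQ L b₀ ha (ih (by omega))
    convert this using 1
    push_cast
    ring

variable {K : ℝ → P3} {nu : P3 → P3} {A B : ℝ → ℝ} {r : ℝ}

theorem tb2_circ_mem (S : Surf K nu A B) (a : ℝ) : pol 1 a ∈ disc \ range S.u := by
  have h1 : (pol 1 a).1 ^ 2 + (pol 1 a).2 ^ 2 = 1 := tb2_circle a
  refine ⟨h1.le, ?_⟩
  rintro ⟨i, hi⟩
  have := S.u_int i
  rw [hi] at this
  linarith

theorem tb2_shift (T : KTheory) {h : P2 → P3} {W : Set P2} (hh : Imm h W)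
    (hW : ∀ a, pol 1 a ∈ W) (θ : ℝ) {q : ℤ} (hV : T.V (bdL h 1) q) :
    T.V (⟨1, fun _ t => h (pol 1 (2 * Real.pi * t + θ))⟩ : CPL Unit) q := by
  have hf := fam_circle (W := W) 0 one_pos one_pos 0 θ (by
    intro ρ hρ a
    rw [uIcc_self, mem_singleton_iff] at hρ
    subst hρ
    simpa using hW a)
  have := V_fam2 T hh hf (q := q) (by simpa [bdL] using hV)
  simpa using this

theorem tb2_axis (T : KTheory) (hD : TubeD K nu A B r) (hC : CableOK T nu) (S : Surf K nu A B)
    (hm : StrictMono fun i => (S.u i).1) (h0 : ∀ i, (S.u i).2 = 0) : ¬ T.V (bdL S.h 1) 0 := by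
  intro hV
  rcases Nat.eq_zero_or_pos S.k with hk | hk
  · have he : range S.u = ∅ := by
      have : IsEmpty (Fin S.k) := by rw [hk]; infer_instance
      exact range_eq_empty _
    have := S.toImm
    rw [he, Set.sdiff_empty] at this
    exact not_V_disc T this hV
  obtain ⟨x, s, hx, hs1, hev⟩ := tb2_cuts hk (fun i => (S.u i).1) hm fun i => by
    have := S.u_int i
    rw [h0 i] at this
    simpa using this
  have hu : S.u = fun i : Fin S.k => ((x i, 0) : P2) :=
    funext fun i => Prod.ext (hx i).symm (h0 i)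
  obtain ⟨η, hcη, hη0, hηk⟩ := hev.exists
  have hη : 0 < η := hcη.1
  set W : Set P2 := disc \ range S.u with hWdef
  let O : Set P2 := {w : P2 | w.1 ^ 2 + w.2 ^ 2 < 1} \ ⋃ i, Metric.closedBall (S.u i) η
  have hOo : IsOpen O := (isOpen_lt (by fun_prop) continuous_const).sdiff
    (isClosed_iUnion_of_finite fun i => Metric.isClosed_closedBall)
  have hOW : O ⊆ W := fun w hw => ⟨(show w.1 ^ 2 + w.2 ^ 2 < 1 from hw.1).le, by
    rintro ⟨i, rfl⟩
    exact hw.2 (mem_iUnion.2 ⟨i, Metric.mem_closedBall_self hη.le⟩)⟩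
  have hsO : ∀ j < S.k, ((s j, 0) : P2) ∈ O := fun j hj => by
    refine ⟨by simpa using hs1 j hj.le, fun hmem => ?_⟩
    obtain ⟨i, hi⟩ := mem_iUnion.1 hmem
    rw [hu, Metric.mem_closedBall, Prod.dist_eq, max_le_iff, Real.dist_eq, abs_le] at hi
    have a := hi.1
    simp only at a
    rcases le_or_gt j i with h | h
    · linarith [(hcη.lt h i.isLt).1, a.1]
    · have := (hcη.lt (show (i : ℕ) ≤ j - 1 by omega) (show j - 1 < S.k by omega)).2
      rw [show j - 1 + 1 = j by omega] at this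
      linarith [a.2]
  obtain ⟨h', hI, -, hoff, haf⟩ := aff_many S.toImm S.toPrp
    (Z := (fun j : ℕ => ((s j, 0) : P2)) '' Iio S.k) ((finite_Iio _).image _) (O := O)
    (by rintro _ ⟨j, hj, rfl⟩; exact mem_of_superset (hOo.mem_nhds (hsO j hj)) hOW)
    (by rintro _ ⟨j, hj, rfl⟩; exact hOo.mem_nhds (hsO j hj))
  have haff : ∀ᶠ δ : ℝ in 𝓝[>] 0, ∀ j ∈ Iio S.k, ∃ (O' : Set P2) (L : P2 →L[ℝ] P3) (b₀ : P3),
      IsOpen O' ∧ Metric.closedBall ((s j, 0) : P2) δ ⊆ O' ∩ W ∧ ∀ w ∈ O', h' w = b₀ + L w := by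
    rw [(finite_Iio _).eventually_all]
    intro j hj
    obtain ⟨L, b₀, hL⟩ := haf _ ⟨j, hj, rfl⟩
    obtain ⟨ε, hε, hb⟩ := Metric.eventually_nhds_iff_ball.1 (hL.and (hOo.mem_nhds (hsO j hj)))
    filter_upwards [nhdsWithin_le_nhds (gt_mem_nhds hε)] with δ hδ
    refine ⟨Metric.ball (s j, 0) ε, L, b₀, Metric.isOpen_ball, fun w hw => ?_,
      fun w hw => (hb w hw).1⟩
    have := Metric.closedBall_subset_ball hδ hw
    exact ⟨this, hOW (hb w this).2⟩
  obtain ⟨δ, ⟨hcδ, hδ0, hδk⟩, hδa, hδη⟩ :=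
    (hev.and (haff.and (nhdsWithin_le_nhds (gt_mem_nhds hη)))).exists
  have hδ : 0 < δ := hcδ.1
  have hδη' : δ < η := hδη
  have hWe : W = disc \ range fun i : Fin S.k => ((x i, 0) : P2) := by rw [hWdef, hu]
  -- the boundary
  have hbd : bdL S.h 1 = bdL h' 1 := by
    unfold bdL
    congr 1
    funext _ t
    refine (hoff _ fun hw => ?_).symm
    have h1 : _ = (1 : ℝ) := tb2_circle (2 * Real.pi * (1 * t))
    have h2 : _ < (1 : ℝ) := hw.1
    linarith
  rw [hbd] at hV
  have hcm : ∀ a, pol 1 a ∈ W := tb2_circ_mem S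
  have V1 : T.V (⟨1, fun _ t => h' (outC S.k t)⟩ : CPL Unit) 0 := tb2_shift T hI hcm _ hV
  obtain ⟨hin1, d1, he1⟩ := (fam_circle (W := W) 0 one_pos one_pos 0
    (-Real.pi + Real.pi / (6 * S.k)) (by
      intro ρ hρ a
      rw [uIcc_self, mem_singleton_iff] at hρ
      subst hρ
      simpa using hcm a)).right
  have he2 := he1.push hI hin1
  simp only [zero_add] at he2
  have V2 := V_out T hk (γ := fun t => h' (outC S.k t)) he2 V1
  have V3 := V_fam2 T hI (hWe ▸ fam_out hk hcδ hδ0 hδk) V2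
  have hpW : ∀ J, InW W (plg S.k J x s δ) := fun J v u hu' => by
    rw [hWe]
    refine ⟨plg_disc hcδ hδ0 hδk J v u hu', ?_⟩
    rintro ⟨i, hi⟩
    exact plg_off hcδ J v hu' i.isLt hi.symm
  have V4 := tb2_steps T hI hcδ hpW hδa V3 (S.k - 1) (by omega)
  have V5 := V_fam2 T hI (hWe ▸ fam_in (J := S.k - 1) (by omega) hcδ hδ0 hδk hδ le_rfl) V4
  -- the ends
  have hell := fun i => fam_ell ((S.β_sm i).of_le (by exact_mod_cast le_top)) (S.β_imm i) hη
  choose o ho using hell
  obtain ⟨ρ, h1, h2, h3⟩ := ((eventually_all.2 ho).and ((fam_cab hD S o isOpen_univ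
    (subset_univ _)).and (hC.2 S.k (fun i => S.g i 0) o hk S.g_inj S.g_mem))).exists
  have hdis : ∀ i j : Fin S.k, i ≠ j → Disjoint (Metric.ball (S.β i 0) η \ {S.β i 0})
      (Metric.ball (S.β j 0) η \ {S.β j 0}) := by
    have key : ∀ i j : Fin S.k, i < j → Disjoint (Metric.ball (S.β i 0) η)
        (Metric.ball (S.β j 0) η) := fun i j hij => by
      rw [Set.disjoint_left]
      intro w a b
      rw [S.β_zero, hu, Metric.mem_ball, Prod.dist_eq, max_lt_iff, Real.dist_eq, abs_lt] at a b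
      have a1 := a.1.2
      have b1 := b.1.1
      simp only at a1 b1
      have c1 := (hcη.2 i i.isLt).2
      have c2 := (hcη.lt (show (i : ℕ) + 1 ≤ j from hij) j.isLt).1
      linarith
    intro i j hij
    rcases lt_or_gt_of_ne hij with h | h
    · exact (key i j h).mono Set.sdiff_subset Set.sdiff_subset
    · exact (key j i h).symm.mono Set.sdiff_subset Set.sdiff_subset
  have hsub : (⋃ i, Metric.ball (S.β i 0) η \ {S.β i 0}) ⊆ W := by
    intro w hw
    obtain ⟨i, hi⟩ := mem_iUnion.1 hw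
    constructor
    · have a := hi.1
      rw [S.β_zero, hu, Metric.mem_ball, Prod.dist_eq, max_lt_iff, Real.dist_eq, abs_lt,
        Real.dist_eq, abs_lt] at a
      obtain ⟨⟨a1, a2⟩, a3, a4⟩ := a
      simp only at a1 a2 a3 a4
      have c1 := (hcη.lt (Nat.zero_le (i : ℕ)) i.isLt).1
      have c2 := (hcη.lt (show (i : ℕ) ≤ S.k - 1 by have := i.isLt; omega)
        (show S.k - 1 < S.k by omega)).2
      rw [show S.k - 1 + 1 = S.k by omega] at c2
      have c3 : w.2 ^ 2 ≤ η ^ 2 := by nlinarith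
      show w.1 ^ 2 + w.2 ^ 2 ≤ 1
      rcases le_total 0 w.1 with h | h
      · nlinarith
      · nlinarith
    · rintro ⟨j, rfl⟩
      by_cases e : i = j
      · subst e
        exact hi.2 (S.β_zero i).symm
      · have hj : S.u j ∈ Metric.ball (S.β j 0) η := by
          rw [S.β_zero]
          exact Metric.mem_ball_self hη
        have key : Disjoint (Metric.ball (S.β i 0) η) (Metric.ball (S.β j 0) η) := by
          rw [Set.disjoint_left]
          intro w a b
          rw [S.β_zero, hu, Metric.mem_ball, Prod.dist_eq, max_lt_iff, Real.dist_eq, abs_lt] at a b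
          have a1 := a.1
          have b1 := b.1
          simp only at a1 b1
          rcases lt_or_gt_of_ne e with h | h
          · have c1 := (hcη.2 i i.isLt).2
            have c2 := (hcη.lt (show (i : ℕ) + 1 ≤ j from h) j.isLt).1
            linarith [a1.2, b1.1]
          · have c1 := (hcη.2 j j.isLt).2
            have c2 := (hcη.lt (show (j : ℕ) + 1 ≤ i from h) i.isLt).1
            linarith [a1.1, b1.2]
        exact Set.disjoint_left.1 key hi.1 hj
  have hF0 := FamE.prod hdis fun i => h1 i δ (-(5 * Real.pi / 6)) hδ hδη'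
  have hF := hF0.mono hsub
  have hround : (fun (i : Fin S.k) (t : ℝ) => S.β i 0 + pol δ (2 * Real.pi * t +
      -(5 * Real.pi / 6))) = fun (i : Fin S.k) (t : ℝ) => inC (x i) δ t := by
    funext i t
    rw [S.β_zero, hu]
    rfl
  rw [hround] at hF
  obtain ⟨hin3, d3, he3⟩ := hF.right
  have V6 := V_in T (J := S.k - 1) (by omega) (γ := fun i t => h' (inC (x i) δ t))
    (he3.push hI hin3) V5
  have V7 := V_fam2 T hI hF.symm V6
  obtain ⟨hin4, d4, he4⟩ := hF.left
  have V8 := V_congr T (he4.push hI hin4)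
    (c' := fun i t => S.h (S.β i (pol ρ (2 * Real.pi * ori (o i) t)))) (fun i t ht => by
      refine (hoff _ fun hw => hw.2 ?_).symm
      obtain ⟨j, hj⟩ := mem_iUnion.1 (hF0.left.1 i t ht)
      refine mem_iUnion.2 ⟨j, Metric.ball_subset_closedBall ?_⟩
      rw [← S.β_zero]
      exact hj.1) V7
  have V9 := V_fam T h2 V8
  have e : (-((S.k - 1 : ℕ) : ℤ)) = 1 - S.k := by omega
  rw [e] at V9
  exact h3 V9

theorem tb2_pos (T : KTheory) (hD : TubeD K nu A B r) (hC : CableOK T nu) (S : Surf K nu A B) :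
    ¬ T.V (bdL S.h 1) 0 := by
  intro hV
  obtain ⟨S', θ, hm, h0, he⟩ := S.axis
  refine tb2_axis T hD hC S' hm h0 ?_
  have := tb2_shift T S.toImm (tb2_circ_mem S) θ hV
  simpa [bdL, he] using this

theorem tb2_holds : TB2Stmt := by
  intro T K nu A B r hD hC S e he
  rcases he with rfl | rfl
  · exact tb2_pos T hD hC S
  · obtain ⟨S', h'⟩ := S.refl
    have := tb2_pos T hD hC S'
    simpa [bdL, h'] using this

end Pool.Agent.Lib.MP_4d7d0a_gt
end
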