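import Pool.Agent.Lib.MP_4d7d0a_gt.TFG
import Pool.Agent.Lib.MP_4d7d0a_gt.TA
import Pool.Agent.Lib.MP_4d7d0a_gt.TB2
import Pool.Agent.Lib.MP_4d7d0a_gt.DSLoop
import Pool.Agent.Lib.MP_4d7d0a_gt.CertAux1

-- part Pool.Agent.Lib.MP_4d7d0a_gt.TFD
section

/-! The transverse push-off and the slice bound for a Legendrian knot. -/

set_option autoImplicit false

open Set Filter Topology
open scoped ContDiff

namespace Pool.Agent.Lib.MP_4d7d0a_gt

theorem tfd_pos {g : ℝ → ℝ → ℝ} (hg : Continuous fun a : ℝ × ℝ => g a.1 a.2)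
    (per : ∀ s t, g s (t + 1) = g s t) (h0 : ∀ t, 0 < g 0 t) :
    ∀ᶠ s in 𝓝 (0 : ℝ), ∀ t, 0 < g s t := by
  have h1 : ∀ᶠ s in 𝓝 (0 : ℝ), ∀ t ∈ Icc (0 : ℝ) 1, 0 < g s t :=
    isCompact_Icc.eventually_forall_of_forall_eventually fun t _ =>
      hg.continuousAt.eventually (lt_mem_nhds (h0 t))
  filter_upwards [h1] with s hs t
  rw [← CanAux.per_fract (per s) t]
  exact hs _ ⟨Int.fract_nonneg t, (Int.fract_lt_one t).le⟩

theorem tfd_nrm_z {U : ℝ → P3} (hU : IsLeg3 U) (t : ℝ) :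
    (deriv (nrm U) t).2.2 =
      (U t).2.1 * (deriv (nrm U) t).1 - (deriv U t).2.1 * (deriv U t).2.1 := by
  have h1 : HasDerivAt U (deriv U t) t := (hU.1.differentiable (by simp) t).hasDerivAt
  have h2 : HasDerivAt (nrm U) (deriv (nrm U) t) t :=
    ((contDiff_nrm hU).differentiable (by simp) t).hasDerivAt
  have h3 : HasDerivAt (fun t => (nrm U t).2.2) (deriv (nrm U) t).2.2 t := h2.snd.snd
  have h6 : HasDerivAt (fun t => (U t).2.1) (deriv U t).2.1 t := h1.snd.fst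
  have h7 : HasDerivAt (fun t => (nrm U t).1) (deriv (nrm U) t).1 t := h2.fst
  have h4 : HasDerivAt (fun t => (U t).2.1 * (nrm U t).1)
      ((deriv U t).2.1 * (nrm U t).1 + (U t).2.1 * (deriv (nrm U) t).1) t := h6.mul h7
  have h5 : (fun t => (nrm U t).2.2) = fun t => (U t).2.1 * (nrm U t).1 := by
    funext t
    simp [nrm]
  rw [h5] at h3
  rw [h3.unique h4]
  simp only [nrm]
  ring

theorem tfd_alg {a b y p q s σ α β : ℝ} (hρ : 0 < a ^ 2 + b ^ 2) (hs0 : 0 ≤ s) (hs1 : s ≤ 1)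
    (hσ : s ≠ 0 → 0 < σ) (hP : 0 < a ^ 2 + b ^ 2 - σ * (a * p + b * q))
    (e1 : α * (a - σ * p) + β * (a * b - s * b * a) = 0)
    (e2 : α * (b - σ * q) + β * (-(a * a) - s * b * b) = 0)
    (e3 : α * (y * a - σ * (y * p - b * b)) + β * (a * (y * b) + (1 - s) * b - s * b * (y * a)) = 0) :
    α = 0 ∧ β = 0 := by
  have f1 : α * σ * b ^ 2 = -(β * (1 - s) * b) := by linear_combination e3 - y * e1
  have f2 : α * (a ^ 2 + b ^ 2 - σ * (a * p + b * q)) = β * s * b * (a ^ 2 + b ^ 2) := by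
    linear_combination a * e1 + b * e2
  have hα : α = 0 := by
    by_contra hα
    have h1 : β * s * b * (a ^ 2 + b ^ 2) ≠ 0 := f2 ▸ mul_ne_zero hα hP.ne'
    have h2 : s ≠ 0 := fun h => h1 (by rw [h]; ring)
    have h3 : b ≠ 0 := fun h => h1 (by rw [h]; ring)
    have h4 : 0 < α ^ 2 * σ * b ^ 2 * (a ^ 2 + b ^ 2 - σ * (a * p + b * q)) := by
      have := hσ h2
      positivity
    have h5 : 0 ≤ β ^ 2 * s * (1 - s) * b ^ 2 * (a ^ 2 + b ^ 2) := by
      have : 0 ≤ 1 - s := by linarith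
      positivity
    have h6 : α ^ 2 * σ * b ^ 2 * (a ^ 2 + b ^ 2 - σ * (a * p + b * q)) =
        -(β ^ 2 * s * (1 - s) * b ^ 2 * (a ^ 2 + b ^ 2)) := by
      linear_combination (α * (a ^ 2 + b ^ 2 - σ * (a * p + b * q))) * f1 -
        (β * (1 - s) * b) * f2
    linarith
  refine ⟨hα, ?_⟩
  have h7 : β * (a ^ 2 + b ^ 2) = 0 := by
    rw [hα] at f1 e2
    linear_combination -e2 + b * f1
  exact (mul_eq_zero.1 h7).resolve_right hρ.ne'

theorem tfd_norm_pos {U : ℝ → P3} (hU : IsLeg3 U) (t : ℝ) :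
    0 < ‖(⟨-(deriv U t).1, (deriv U t).2.1⟩ : ℂ)‖ := by
  refine norm_pos_iff.2 fun h => ?_
  have h1 := congrArg Complex.re h
  have h2 := congrArg Complex.im h
  have h3 := CanAux.reg hU t
  simp only [Complex.zero_re, Complex.zero_im, neg_eq_zero] at h1 h2
  rw [h1, h2] at h3
  norm_num at h3

/-- a family of framed knots from the Legendrian knot to a positively transverse knot framed by
`-∂y` -/
theorem leg_push {U : ℝ → P3} (hU : IsLeg3 U) : ∃ c d v : ℝ → ℝ → P3,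
    (Continuous fun a : ℝ × ℝ => c a.1 a.2) ∧ (Continuous fun a : ℝ × ℝ => d a.1 a.2) ∧
    (Continuous fun a : ℝ × ℝ => v a.1 a.2) ∧ (∀ s ∈ Icc (0 : ℝ) 1, Framed (c s) (d s) (v s)) ∧
    c 0 = U ∧ (v 0 = fun t => nv U (nz U t) t) ∧ (v 1 = fun _ => (0, -1, 0)) ∧
    ∀ t, 0 < al (c 1 t) (d 1 t) := by
  have hU' : ContDiff ℝ ∞ (deriv U) := (contDiff_infty_iff_deriv.1 hU.1).2
  have hN := contDiff_nrm hU
  have cU := hU.1.continuous
  have cU' := hU'.continuous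
  have cN := hN.continuous
  have cN' : Continuous (deriv (nrm U)) := (contDiff_infty_iff_deriv.1 hN).2.continuous
  have dU : ∀ t, HasDerivAt U (deriv U t) t := fun t =>
    (hU.1.differentiable (by simp) t).hasDerivAt
  have dN : ∀ t, HasDerivAt (nrm U) (deriv (nrm U) t) t := fun t =>
    (hN.differentiable (by simp) t).hasDerivAt
  have pU := hU.2.1
  have pU' := CanAux.per_deriv pU
  have pN := nrm_per hU
  have pN' := CanAux.per_deriv pN
  have hz : ∀ t, (deriv U t).2.2 = (U t).2.1 * (deriv U t).1 := fun t => by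
    have := hU.2.2.2.2 t
    unfold al at this
    linarith
  have der : ∀ σ t : ℝ, HasDerivAt (fun t => U t - σ • nrm U t)
      (deriv U t - σ • deriv (nrm U) t) t := fun σ t => (dU t).sub ((dN t).const_smul σ)
  have E1 := tfd_pos (g := fun σ t => (deriv U t).1 ^ 2 + (deriv U t).2.1 ^ 2 -
    σ * ((deriv U t).1 * (deriv (nrm U) t).1 + (deriv U t).2.1 * (deriv (nrm U) t).2.1))
    (by fun_prop) (fun σ t => by rw [pU', pN']) fun t => by simpa using CanAux.reg hU t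
  have E2 := tfd_pos (g := fun σ t => (deriv U t).1 ^ 2 + (deriv U t).2.1 ^ 2 -
    σ * ((deriv U t).1 * (deriv (nrm U) t).1))
    (by fun_prop) (fun σ t => by rw [pU', pN']) fun t => by simpa using CanAux.reg hU t
  have E3 : ∀ᶠ σ : ℝ in 𝓝 0, InjOn (fun t => U t - σ • nrm U t) (Ico 0 1) := by
    have h := fr_loc (Z := ℝ) (c := fun σ t => U t - σ • nrm U t)
      (d := fun σ t => deriv U t - σ • deriv (nrm U) t) (v := fun _ _ => ez) (s₀ := 0)
      (by fun_prop) (by fun_prop) (by fun_prop) der (fun σ t => by rw [pU, pN]) (fun _ _ => rfl)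
      ⟨der 0, by fun_prop, by fun_prop, fun t => by rw [pU, pN], fun _ => rfl,
        by simpa using hU.2.2.1, fun t a b hab => by
          have := frame_ind hU t a 0 b (by simpa using hab)
          exact ⟨this.1, this.2.2⟩⟩
    have ht : Tendsto (fun σ : ℝ => ((σ, 0) : ℝ × ℝ)) (𝓝 0) (𝓝 (0, 0)) :=
      (by fun_prop : Continuous fun σ : ℝ => ((σ, 0) : ℝ × ℝ)).tendsto 0
    exact (ht.eventually h).mono fun σ hσ => hσ.1
  obtain ⟨ε, hε, hE⟩ := Metric.eventually_nhds_iff.1 (E1.and (E2.and E3))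
  have hδ : ∀ s ∈ Icc (0 : ℝ) 1, dist (s * (ε / 2)) 0 < ε := fun s hs => by
    rw [Real.dist_eq, sub_zero, abs_of_nonneg (by have := hs.1; positivity)]
    nlinarith [hs.1, hs.2]
  have cn : Continuous fun t => ‖(⟨-(deriv U t).1, (deriv U t).2.1⟩ : ℂ)‖ := by
    have : (fun t => (⟨-(deriv U t).1, (deriv U t).2.1⟩ : ℂ)) =
        fun t => ((-(deriv U t).1 : ℝ) : ℂ) + ((deriv U t).2.1 : ℂ) * Complex.I := by
      funext t
      apply Complex.ext <;> simp
    exact Continuous.norm (by rw [this]; fun_prop)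
  have cv : Continuous fun a : ℝ × ℝ =>
      ((1 - a.1) / ‖(⟨-(deriv U a.2).1, (deriv U a.2).2.1⟩ : ℂ)‖ +
        a.1 / ((deriv U a.2).1 ^ 2 + (deriv U a.2).2.1 ^ 2)) •
      (-(deriv U a.2).1 • nrm U a.2 + ((1 - a.1) * (deriv U a.2).2.1) • ez -
        (a.1 * (deriv U a.2).2.1) • deriv U a.2) := by
    have c1 : Continuous fun a : ℝ × ℝ =>
        (1 - a.1) / ‖(⟨-(deriv U a.2).1, (deriv U a.2).2.1⟩ : ℂ)‖ :=
      Continuous.div (by fun_prop) (cn.comp continuous_snd) fun a => (tfd_norm_pos hU a.2).ne'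
    have c2 : Continuous fun a : ℝ × ℝ => a.1 / ((deriv U a.2).1 ^ 2 + (deriv U a.2).2.1 ^ 2) :=
      Continuous.div (by fun_prop) (by fun_prop) fun a => (CanAux.reg hU a.2).ne'
    have c3 : Continuous fun a : ℝ × ℝ =>
        -(deriv U a.2).1 • nrm U a.2 + ((1 - a.1) * (deriv U a.2).2.1) • ez -
          (a.1 * (deriv U a.2).2.1) • deriv U a.2 := by fun_prop
    exact (c1.add c2).smul c3
  refine ⟨fun s t => U t - (s * (ε / 2)) • nrm U t,
    fun s t => deriv U t - (s * (ε / 2)) • deriv (nrm U) t,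
    fun s t => ((1 - s) / ‖(⟨-(deriv U t).1, (deriv U t).2.1⟩ : ℂ)‖ +
        s / ((deriv U t).1 ^ 2 + (deriv U t).2.1 ^ 2)) •
      (-(deriv U t).1 • nrm U t + ((1 - s) * (deriv U t).2.1) • ez -
        (s * (deriv U t).2.1) • deriv U t),
    by fun_prop, by fun_prop, cv, fun s hs => ⟨der _, by fun_prop,
      cv.comp (by fun_prop : Continuous fun t : ℝ => ((s, t) : ℝ × ℝ)),
      fun t => by simp only [pU, pN], fun t => by simp only [pU', pN], (hE (hδ s hs)).2.2,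
      fun t α β h => ?_⟩, ?_, ?_, ?_, fun t => ?_⟩
  · have hn := tfd_norm_pos hU t
    have hρ := CanAux.reg hU t
    have hκ : 0 < (1 - s) / ‖(⟨-(deriv U t).1, (deriv U t).2.1⟩ : ℂ)‖ +
        s / ((deriv U t).1 ^ 2 + (deriv U t).2.1 ^ 2) := by
      have h1 : 0 ≤ 1 - s := by linarith [hs.2]
      rcases hs.1.eq_or_lt with h0 | h0
      · rw [← h0]
        simpa using hn
      · positivity
    rw [smul_smul] at h
    generalize (1 - s) / ‖(⟨-(deriv U t).1, (deriv U t).2.1⟩ : ℂ)‖ +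
        s / ((deriv U t).1 ^ 2 + (deriv U t).2.1 ^ 2) = κ at h hκ
    have e1 := congrArg (fun p : P3 => p.1) h
    have e2 := congrArg (fun p : P3 => p.2.1) h
    have e3 := congrArg (fun p : P3 => p.2.2) h
    simp only [Prod.fst_add, Prod.snd_add, Prod.smul_fst, Prod.smul_snd, Prod.fst_sub,
      Prod.snd_sub, smul_eq_mul, Prod.fst_zero, Prod.snd_zero, tfd_nrm_z hU, hz] at e1 e2 e3
    simp only [nrm, ez] at e1 e2 e3
    have key := tfd_alg (y := (U t).2.1) (α := α) (β := β * κ) hρ hs.1 hs.2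
      (σ := s * (ε / 2)) (fun h0 => mul_pos (lt_of_le_of_ne hs.1 h0.symm) (half_pos hε))
      ((hE (hδ s hs)).1 t) (by linear_combination e1) (by linear_combination e2)
      (by linear_combination e3)
    exact ⟨key.1, (mul_eq_zero.1 key.2).resolve_right hκ.ne'⟩
  · funext t
    simp
  · funext t
    simp only [nv, nz, Complex.div_ofReal_re, Complex.div_ofReal_im, sub_zero, zero_div, add_zero,
      one_mul, zero_mul, zero_smul, smul_add, smul_smul]
    congr 2 <;> ring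
  · funext t
    have hρ := (CanAux.reg hU t).ne'
    refine Prod.ext ?_ (Prod.ext ?_ ?_)
    · simp [nrm, ez]
      right
      ring
    · simp [nrm, ez]
      field_simp
      ring
    · simp [nrm, ez, hz]
      right
      ring
  · have h1 := (hE (hδ 1 ⟨zero_le_one, le_rfl⟩)).2.1 t
    have h2 : al (U t - (1 * (ε / 2)) • nrm U t) (deriv U t - (1 * (ε / 2)) • deriv (nrm U) t) =
        (ε / 2) * ((deriv U t).1 ^ 2 + (deriv U t).2.1 ^ 2 -
          1 * (ε / 2) * ((deriv U t).1 * (deriv (nrm U) t).1)) := by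
      simp only [al, Prod.smul_fst, Prod.smul_snd, Prod.fst_sub, Prod.snd_sub, smul_eq_mul,
        tfd_nrm_z hU, hz]
      simp only [nrm]
      ring
    rw [h2]
    positivity

/-- the invariant is constant along a family of framed knots -/
theorem V_framed (T : KTheory) {c d v : ℝ → ℝ → P3} {q : ℤ}
    (hc : Continuous fun a : ℝ × ℝ => c a.1 a.2) (hd : Continuous fun a : ℝ × ℝ => d a.1 a.2)
    (h : ∀ s ∈ Icc (0 : ℝ) 1, Framed (c s) (d s) (v s))
    (hV : T.V (⟨1, fun _ => c 1⟩ : CPL Unit) q) : T.V (⟨1, fun _ => c 0⟩ : CPL Unit) q := by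
  have key := T.fam (1 : Equiv.Perm Unit) (fun s _ => c (1 - s)) (fun s _ => d (1 - s)) q
    (fun s hs => by
      have F := h (1 - s) ⟨by linarith [hs.2], by linarith [hs.1]⟩
      have hne : ∀ (t a : ℝ), a • d (1 - s) t = 0 → a = 0 := fun t a e =>
        (F.ind t a 0 (by simpa using e)).1
      have hper : d (1 - s) 1 = d (1 - s) 0 := by
        have h1 : HasDerivAt (fun t => c (1 - s) (t + 1)) (d (1 - s) (0 + 1)) 0 :=
          HasDerivAt.comp_add_const 0 1 (F.der (0 + 1))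
        rw [funext F.per, zero_add] at h1
        exact h1.unique (F.der 0)
      refine ⟨fun _ u _ => ⟨(F.der u).hasDerivWithinAt, fun e => ?_⟩,
        fun _ => F.cd.continuousOn, fun _ => by simpa using F.per 0, fun _ r hr e => ?_,
        fun _ _ u hu u' hu' e => ⟨rfl, F.inj hu hu' e⟩⟩
      · exact one_ne_zero (hne u 1 (by simpa using e))
      · have h2 : (1 + r) • d (1 - s) 0 = 0 := by
          rw [add_smul, one_smul]
          exact eq_neg_iff_add_eq_zero.1 (hper.symm.trans e)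
        linarith [hne 0 _ h2])
    (fun _ => (hc.comp (by fun_prop : Continuous fun a : ℝ × ℝ => ((1 - a.1, a.2) : ℝ × ℝ))
      ).continuousOn)
    (fun _ => (hd.comp (by fun_prop : Continuous fun a : ℝ × ℝ => ((1 - a.1, a.2) : ℝ × ℝ))
      ).continuousOn) (by simpa using hV)
  simpa using key

theorem leg_V (T : KTheory) {U : ℝ → P3} (hU : IsLeg3 U) :
    T.V (⟨1, fun _ => U⟩ : CPL Unit) (fr T U fun t => nv U (nz U t) t) := by
  obtain ⟨c, d, v, hc, hd, hv, h, h0, hv0, hv1, hpos⟩ := leg_push hU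
  have F := h 1 ⟨zero_le_one, le_rfl⟩
  obtain ⟨η, hη, hval⟩ := fr_val T F
  obtain ⟨ε, hB, hε⟩ := ((T.ben (c 1) (d 1) F.der F.cd F.per F.inj hpos).and
    (Ioc_mem_nhdsGT hη)).exists
  have cc : Continuous (c 1) := continuous_iff_continuousAt.2 fun t => (F.der t).continuousAt
  rw [hval ε hε.1 hε.2 (fun t => c 1 t - (0, ε, 0))
    ⟨(cc.sub continuous_const).continuousOn, by simpa using F.per 0⟩ (fun t _ => by
      have e : c 1 t - (0, ε, 0) - (c 1 t + ε • v 1 t) = 0 := by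
        rw [hv1]
        refine Prod.ext ?_ (Prod.ext ?_ ?_) <;> simp [sub_eq_add_neg]
      rw [e, norm_zero]
      exact (mul_pos hη hε.1).le), ← fr_hom T hc hd hv h] at hB
  have key := V_framed T hc hd h hB
  rwa [h0, hv0] at key

end Pool.Agent.Lib.MP_4d7d0a_gt
end

-- part Pool.Agent.Lib.MP_4d7d0a_gt.TFZ
section

/-! The framing half. -/

set_option autoImplicit false

open Set Filter Topology
open scoped ContDiff

namespace Pool.Agent.Lib.MP_4d7d0a_gt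

theorem leg_or (T : KTheory) {U : ℝ → P3} (hU : IsLeg3 U) (h0 : fr T U (fun _ => ez) = 0) :
    T.V (⟨1, fun _ => U⟩ : CPL Unit) 0 ∨ T.V (⟨1, fun _ t => U (-t)⟩ : CPL Unit) 0 := by
  have h1 := leg_V T hU
  have h2 := leg_V T hU.neg
  have hc : Continuous fun t => starRingEnd ℂ (nz U t) :=
    Complex.continuous_conj.comp (continuous_nz hU)
  have hne : ∀ t, starRingEnd ℂ (nz U t) ≠ 0 := fun t h => by
    have := norm_nz hU t
    rw [← Complex.norm_conj, h, norm_zero] at this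
    exact zero_ne_one this
  have h3 := fr_rev T (framed_nv hU hc (fun t => by rw [nz_per hU]) hne)
  have h4 := fr_sum T hU (continuous_nz hU) (nz_per hU) (norm_nz hU)
  simp only [nv_nz_neg hU] at h2
  rw [h3] at h2
  rw [h0] at h4
  rcases le_total 0 (fr T U fun t => nv U (nz U t) t) with h | h
  · exact Or.inl (T.mono _ _ _ h h1)
  · exact Or.inr (T.mono _ _ _ (by omega) h2)

theorem tb1_holds : TB1Stmt := by
  intro T K nu A B r hD hC S
  obtain ⟨ρ, h1, h2⟩ := ((S.tb T).and (S.lk_in T hD hC)).exists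
  have h3 := leg_or T S.leg3 (by rw [← h1, h2])
  have e1 : bdL S.h 1 = (⟨1, fun _ => bdU S.h 1⟩ : CPL Unit) := by
    simp only [bdL, one_mul]
    rfl
  have e2 : bdL S.h (-1) = (⟨1, fun _ t => bdU S.h 1 (-t)⟩ : CPL Unit) := by
    simp only [bdL, neg_one_mul]
    rfl
  rw [e1, e2]
  exact h3

end Pool.Agent.Lib.MP_4d7d0a_gt
end

-- part Pool.Agent.Lib.MP_4d7d0a_gt.TGen
section

/-! Tightness of the surgery. -/

set_option autoImplicit false

namespace Pool.Agent.Lib.MP_4d7d0a_gt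

theorem tgen_holds : TGenStmt := tgen_of ta_holds (tb_of tb1_holds tb2_holds)

end Pool.Agent.Lib.MP_4d7d0a_gt
end

-- part Pool.Agent.Lib.MP_4d7d0a_gt.DSMer2
section

/-! The word of the surgery curve. -/

set_option autoImplicit false

open Set Filter Topology

namespace Pool.Agent.Lib.MP_4d7d0a_gt

namespace DS

/-- the points over the middle of the edge from the vertex `20` -/
def mer2Q (y τ : ℝ) : P3 := (-352, y, -159 * sg - τ)

theorem mer2_xi (y τ : ℝ) : xi (mer2Q y τ) = -511 * sg - τ := by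
  simp only [xi, mer2Q]
  ring

theorem mer2_up (y τ : ℝ) : up (mer2Q y τ) = 193 * sg - τ := by
  simp only [up, mer2Q]
  ring

theorem mer2_levels : cL 2 = -575 * sg ∧ cL 3 = -447 * sg ∧ rL 12 = sg ∧ rL 13 = 193 * sg ∧
    rL 14 = 225 * sg := by
  norm_num [cL, cZ, rL, rZ, sg]

theorem mer2_col {y τ : ℝ} (h : |τ| ≤ 8 * sg) : ∀ j < 20, sg ≤ |xi (mer2Q y τ) - cL j| := by
  intro j hj
  obtain ⟨h1, h2, -⟩ := mer2_levels
  have h3 := abs_le.1 h
  have h4 := sg_pos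
  rw [mer2_xi, le_abs]
  rcases (by omega : j < 2 ∨ j = 2 ∨ j = 3 ∨ 3 < j) with k | rfl | rfl | k
  · exact Or.inl (by linarith [cL_gap k (by norm_num)])
  · exact Or.inl (by linarith)
  · exact Or.inr (by linarith)
  · exact Or.inr (by linarith [cL_gap k hj.le])

theorem mer2_onC {y τ : ℝ} (h : |τ| ≤ 8 * sg) : ¬ OnC (mer2Q y τ) := by
  rintro ⟨j, hj, h1, -⟩
  have h2 := mer2_col (y := y) h j hj
  rw [h1, sub_self, abs_zero] at h2
  exact absurd sg_pos (not_lt.2 h2)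

theorem mer2_onR {y τ : ℝ} (h : |τ| ≤ 8 * sg) (h' : OnR (mer2Q y τ)) : τ = 0 := by
  obtain ⟨i, hi, h1, -⟩ := h'
  obtain ⟨-, -, h2, h5, -⟩ := mer2_levels
  have h3 := abs_le.1 h
  have h4 := sg_pos
  rw [mer2_up] at h1
  rcases (by omega : i < 12 ∨ i = 12 ∨ i = 13 ∨ i = 14 ∨ 14 < i) with k | rfl | rfl | rfl | k
  · linarith [rL_gap k (by norm_num)]
  · linarith
  · linarith
  · linarith [mer2_levels.2.2.2.2]
  · linarith [rL_gap k hi.le, mer2_levels.2.2.2.2]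

theorem mer2_fr {y τ : ℝ} (h : |τ| ≤ 8 * sg) (h' : τ = 0 → y < sg) : mer2Q y τ ∈ Fr ∩ Far :=
  ⟨⟨fun k => absurd k (mer2_onC h), fun k => h' (mer2_onR h k)⟩, far_of_xi (mer2_col h)⟩

theorem mer2_bk {y τ : ℝ} (h : |τ| ≤ 8 * sg) (h' : τ = 0 → sg < y) : mer2Q y τ ∈ Bk ∩ Far :=
  ⟨⟨fun k => absurd k (mer2_onC h), fun k => h' (mer2_onR h k)⟩, far_of_xi (mer2_col h)⟩

theorem mer2_cx {y τ : ℝ} (h : |τ| ≤ 8 * sg) : cx (mer2Q y τ) = 3 := by
  obtain ⟨h1, h2, -⟩ := mer2_levels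
  have h3 := abs_le.1 h
  have h4 := sg_pos
  refine cx_eq (by norm_num) (fun k hk => ?_) fun _ => ?_
  · obtain rfl : k = 2 := by omega
    rw [mer2_xi]
    linarith
  · rw [mer2_xi]
    linarith

theorem mer2_w {S : Set P3} {G : Type} [Group G] {F : PathFun S G} {A B : Set P3} {φ ψ : P3 → G}
    {W : ℕ → ℕ → G} (T : Triv F A B φ ψ W) {ρ : ℝ} (h0 : 0 < ρ) (h1 : ρ < 1) :
    φ (mer2Q sg ρ) = W 3 13 * ψ (mer2Q sg ρ) ∧ φ (mer2Q sg (-ρ)) = W 3 14 * ψ (mer2Q sg (-ρ)) := by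
  obtain ⟨-, -, h2, h3, h4⟩ := mer2_levels
  have h5 : (1 : ℝ) ≤ sg := by norm_num [sg]
  have h6 : |ρ| ≤ 8 * sg := abs_le.2 ⟨by linarith, by linarith⟩
  have h7 : |-ρ| ≤ 8 * sg := by rwa [abs_neg]
  have e1 : cy (mer2Q sg ρ) = 13 := by
    refine cy_eq (by norm_num) (fun k hk => ?_) fun _ => ?_
    · obtain rfl : k = 12 := by omega
      rw [mer2_up]
      linarith
    · rw [mer2_up]
      linarith
  have e2 : cy (mer2Q sg (-ρ)) = 14 := by
    refine cy_eq (by norm_num) (fun k hk => ?_) fun _ => ?_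
    · obtain rfl : k = 13 := by omega
      rw [mer2_up]
      linarith
    · rw [mer2_up]
      linarith
  constructor
  · rw [T.w _ (mem_Fr_Bk.2 ⟨mer2_onC h6, fun k => h0.ne' (mer2_onR h6 k)⟩), mer2_cx h6, e1]
  · rw [T.w _ (mem_Fr_Bk.2 ⟨mer2_onC h7, fun k => h0.ne' (neg_eq_zero.1 (mer2_onR h7 k))⟩),
      mer2_cx h7, e2]

theorem mer2_knot (π : Prof) (t : ℝ) : π.knot WL t = π.real (cyc WL) (86 * t) := by
  have h : WL.length = 86 := rfl
  rw [Prof.knot, h, Nat.cast_ofNat]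

theorem mer2_can (π : Prof) (Y Z : ℝ) :
    can (π.knot WL) (41 / 172, Y, Z) = mer2Q (sg - Y / 16512) (-Z) := by
  have h1 : cyc WL 20 = (-256, sg, -63 * sg) := by
    rw [show cyc WL 20 = toP3 (-256, 16384, -1032192) from rfl]
    norm_num [toP3, sg]
  have h2 : cyc WL (20 + 1) = (-448, sg, -255 * sg) := by
    rw [show cyc WL (20 + 1) = toP3 (-448, 16384, -4177920) from rfl]
    norm_num [toP3, sg]
  have h3 := π.small
  rw [can_flat (x₀ := 3584) (y₀ := sg) (z₀ := 3777 * sg) (v := -16512) (by norm_num) ?_]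
  · refine Prod.ext ?_ (Prod.ext ?_ ?_) <;> simp only [mer2Q] <;> ring
  · refine mem_of_superset (Ioo_mem_nhds (a := 81 / 344) (b := 83 / 344) (by norm_num)
      (by norm_num)) fun t ht => ?_
    have h4 := π.real_edge rel_WL 20 (u := 86 * t - 20) (by linarith [ht.1]) (by linarith [ht.2])
    rw [Int.cast_ofNat, add_sub_cancel, h1, h2] at h4
    rw [mem_ofPred_eq, mer2_knot, h4]
    refine Prod.ext ?_ (Prod.ext ?_ ?_) <;> simp only [edge] <;> ring

theorem mer2_circ {S : Set P3} {G : Type} [Group G] {F : PathFun S G} {φ ψ : P3 → G}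
    {W : ℕ → ℕ → G} (hA : Fr ∩ Far ⊆ S) (hB : Bk ∩ Far ⊆ S)
    (T : Triv F (Fr ∩ Far) (Bk ∩ Far) φ ψ W) {ρ : ℝ} (h0 : 0 < ρ) (h1 : ρ < 1) :
    F.F (fun t => mer2Q (sg - ρ * Real.sin (2 * Real.pi * t) / 16512)
      (ρ * Real.cos (2 * Real.pi * t))) =
      (ψ (mer2Q sg ρ))⁻¹ * ((W 3 13)⁻¹ * W 3 14) * ψ (mer2Q sg ρ) := by
  have hp := Real.pi_pos
  have h2 : ∀ a, |ρ * Real.cos a| ≤ 8 * sg := fun a => by
    rw [abs_mul, abs_of_pos h0, sg]
    nlinarith [Real.abs_cos_le_one a]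
  have h3 : ∀ a, ρ * Real.cos a = 0 → Real.sin a ≠ 0 := fun a h k => by
    have h4 := Real.sin_sq_add_cos_sq a
    rw [k, (mul_eq_zero.1 h).resolve_left h0.ne'] at h4
    norm_num at h4
  set c : ℝ → P3 := fun t => mer2Q (sg - ρ * Real.sin (2 * Real.pi * t) / 16512)
    (ρ * Real.cos (2 * Real.pi * t)) with hc
  have h4 : Continuous c := by
    unfold c mer2Q
    fun_prop
  have h5 : ∀ t, 0 ≤ t → t ≤ 1 / 2 → c t ∈ Fr ∩ Far := fun t a b => mer2_fr (h2 _) fun k => by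
    have h6 := (Real.sin_nonneg_of_nonneg_of_le_pi (x := 2 * Real.pi * t) (by positivity)
      (by nlinarith)).lt_of_ne' (h3 _ k)
    have := mul_pos h0 h6
    linarith
  have h6 : ∀ t, 1 / 2 ≤ t → t ≤ 1 → c t ∈ Bk ∩ Far := fun t a b => mer2_bk (h2 _) fun k => by
    have h7 := Real.sin_nonpos_of_nonpos_of_neg_pi_le (x := 2 * Real.pi * t - 2 * Real.pi)
      (by nlinarith) (by nlinarith)
    rw [Real.sin_sub_two_pi] at h7
    have := mul_neg_of_pos_of_neg h0 (h7.lt_of_ne (h3 _ k))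
    linarith
  have e0 : c (0 / 2) = mer2Q sg ρ := by simp [hc]
  have e1 : c (1 / 2) = mer2Q sg (-ρ) := by
    simp only [hc, show 2 * Real.pi * (1 / 2) = Real.pi by ring, Real.sin_pi, Real.cos_pi]
    norm_num
  have e2 : c ((1 + 1) / 2) = mer2Q sg ρ := by simp [hc]
  rw [F.mul c h4.continuousOn fun t ht => (le_total t (1 / 2)).elim (fun k => hA (h5 t ht.1 k))
      fun k => hB (h6 t k ht.2),
    T.fr _ ⟨by fun_prop, fun t ht => h5 _ (by linarith [ht.1]) (by linarith [ht.2])⟩,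
    T.bk _ ⟨by fun_prop, fun t ht => h6 _ (by linarith [ht.1]) (by linarith [ht.2])⟩,
    zero_add, e0, e1, e2, (mer2_w T h0 h1).1, (mer2_w T h0 h1).2]
  group

theorem mer_word : Small fun π => ∀ (G : Type) [Group G] (F : PathFun (range (π.knot WL))ᶜ G)
    (φ ψ : P3 → G) (W : ℕ → ℕ → G), Fr ∩ Far ⊆ (range (π.knot WL))ᶜ →
    Bk ∩ Far ⊆ (range (π.knot WL))ᶜ → Triv F (Fr ∩ Far) (Bk ∩ Far) φ ψ W →
    F.F (loopX π) = (ψ base)⁻¹ * ev W wX * ψ base → ∀ ρ : ℝ, 0 < ρ → ρ < 1 →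
      IsConj (F.F (fun t => can (π.knot WL) (41 / 172 + t, 0, -ρ)) * F.F fun t =>
        can (π.knot WL) (41 / 172, ρ * Real.sin (2 * Real.pi * t),
          -(ρ * Real.cos (2 * Real.pi * t))))
        (ev W wX * ((W 3 13)⁻¹ * W 3 14)) := by
  refine (shift_sound shift_WL).mono fun π hπ G _ F φ ψ W hA hB T hX ρ h0 h1 => ?_
  obtain ⟨hK, hs⟩ := hπ
  have h2 : (1 : ℝ) ≤ sg := by norm_num [sg]
  have h3 : ∀ s ∈ Icc (0 : ℝ) 1, 0 < ρ + s * (8 * sg - ρ) ∧ ρ + s * (8 * sg - ρ) ≤ 8 * sg :=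
    fun s hs => ⟨by nlinarith [hs.1], by nlinarith [hs.2]⟩
  have h4 : ∀ τ, π.knot WL (41 / 172) + (0, 0, -τ) = mer2Q sg τ := fun τ => by
    rw [← can_core, mer2_can, zero_div, sub_zero, neg_neg]
  have hc := hK.1.continuous
  have h5 := F.square (H := fun s t =>
    π.knot WL (41 / 172 + t) + (0, 0, -(ρ + s * (8 * sg - ρ)))) (by fun_prop)
    fun s k t _ ⟨t', e⟩ => (h3 s k).1.ne' (neg_eq_zero.1 (hs _ _ _ (by
      rw [abs_neg, abs_of_pos (h3 s k).1]
      linarith [(h3 s k).2]) e))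
  have h6 : (fun t => π.knot WL (41 / 172 + t) + (0, 0, -(ρ + 1 * (8 * sg - ρ)))) = loopX π := by
    funext t
    rw [loopX, mer2_knot, show 86 * (41 / 172 + t) = 86 * t + 41 / 2 by ring,
      sub_eq_add_neg (π.real _ _)]
    simp
  have h7 := T.bk (fun s => mer2Q sg (ρ + s * (8 * sg - ρ))) ⟨by unfold mer2Q; fun_prop,
    fun s k => mer2_bk (by rw [abs_of_pos (h3 s k).1]; exact (h3 s k).2)
      fun e => absurd e (h3 s k).1.ne'⟩
  have h8 : mer2Q sg (ρ + 1 * (8 * sg - ρ)) = base := by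
    simp only [mer2Q, base, Prod.mk.injEq, true_and]
    ring
  simp only [hK.2.1, add_zero, h4, h6, hX, h7, h8, zero_mul] at h5
  simp only [can_core, mer2_can, neg_neg]
  rw [mer2_circ hA hB T h0 h1, eq_mul_inv_of_mul_eq h5]
  exact isConj_iff.2 ⟨ψ (mer2Q sg ρ), by group⟩

end DS

end Pool.Agent.Lib.MP_4d7d0a_gt
end

-- part Pool.Agent.Lib.MP_4d7d0a_gt.Amb
section

/-! Extension of isotopies of standard neighbourhoods. -/

set_option autoImplicit false

open Set Filter Topology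
open scoped ContDiff

namespace Pool.Agent.Lib.MP_4d7d0a_gt

theorem amb_aux_per {X : Type} {f : P3 → X} (h : ∀ p : P3, f (p.1 + 1, p.2) = f p) (k : ℤ)
    (p : P3) : f (p.1 + k, p.2) = f p := by
  have hp : Function.Periodic (fun x : ℝ => f (x, p.2)) 1 := fun x => h (x, p.2)
  simpa using hp.int_mul k p.1

theorem amb_aux_fract {X : Type} {f : P3 → X} (h : ∀ p : P3, f (p.1 + 1, p.2) = f p) (p : P3) :
    f p = f (Int.fract p.1, p.2) := by
  rw [← amb_aux_per h ⌊p.1⌋ (Int.fract p.1, p.2), Int.fract_add_floor]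

/-- smoothness can be tested after a local diffeomorphism -/
theorem amb_aux_desc {E : Type} [NormedAddCommGroup E] [NormedSpace ℝ E] [FiniteDimensional ℝ E]
    {Ψ : E → E} {h H : E → ℝ} {a : E} (hΨ : ContDiffAt ℝ ∞ Ψ a)
    (hi : Function.Injective (fderiv ℝ Ψ a)) (hh : ContDiffAt ℝ ∞ h a)
    (he : ∀ᶠ x in 𝓝 a, H (Ψ x) = h x) : ContDiffAt ℝ ∞ H (Ψ a) := by
  have := FiniteDimensional.complete ℝ E
  let A : E ≃L[ℝ] E :=
    (LinearEquiv.ofInjectiveEndo (fderiv ℝ Ψ a : E →ₗ[ℝ] E) hi).toContinuousLinearEquiv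
  have hA : HasFDerivAt Ψ (A : E →L[ℝ] E) a := (hΨ.differentiableAt (by simp)).hasFDerivAt
  have h1 := hΨ.to_localInverse hA (by simp)
  have h2 := hΨ.localInverse_apply_image hA (by simp)
  have h3 : ∀ᶠ y in 𝓝 (Ψ a), Ψ (hΨ.localInverse hA (by simp) y) = y :=
    (hΨ.hasStrictFDerivAt' hA (by simp)).eventually_right_inverse
  have h4 := h1.continuousAt.tendsto
  rw [h2] at h4
  refine (ContDiffAt.comp (Ψ a) (by rwa [h2]) h1).congr_of_eventuallyEq ?_
  filter_upwards [h3, h4.eventually he] with y h5 h6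
  rw [Function.comp_apply, ← h6, h5]

theorem amb_aux_inj {M : ℝ → P3 → P3} {s : ℝ} {q : P3}
    (hM : ContDiffAt ℝ ∞ (fun a : ℝ × P3 => M a.1 a.2) (s, q))
    (hi : Function.Injective (fderiv ℝ (M s) q)) :
    Function.Injective (fderiv ℝ (fun a : ℝ × P3 => (a.1, M a.1 a.2)) (s, q)) := by
  have h1 := (hM.differentiableAt (by simp)).hasFDerivAt
  have h2 : HasFDerivAt (M s) _ q := h1.comp q (hasFDerivAt_prodMk_right s q)
  rw [(hasFDerivAt_fst.prodMk h1).fderiv, injective_iff_map_eq_zero]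
  rintro ⟨a, v⟩ h
  obtain ⟨h3, h4⟩ := Prod.mk_eq_zero.1 h
  obtain rfl : a = 0 := h3
  rw [h2.fderiv, injective_iff_map_eq_zero] at hi
  rw [hi v h4]
  rfl

theorem amb_aux_hasDeriv {M : ℝ → P3 → P3} {s : ℝ} {q : P3}
    (hM : ContDiffAt ℝ ∞ (fun a : ℝ × P3 => M a.1 a.2) (s, q)) :
    HasDerivAt (fun s' => M s' q) (fderiv ℝ (fun a : ℝ × P3 => M a.1 a.2) (s, q) (1, 0)) s :=
  HasFDerivAt.comp_hasDerivAt (f := fun s' : ℝ => (s', q)) s
    (hM.differentiableAt (by simp)).hasFDerivAt ((hasDerivAt_id s).prodMk (hasDerivAt_const s q))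

theorem amb_aux_deriv {M : ℝ → P3 → P3} {a : ℝ × P3}
    (hM : ∀ᶠ b in 𝓝 a, ContDiffAt ℝ ∞ (fun a : ℝ × P3 => M a.1 a.2) b) :
    ContDiffAt ℝ ∞ (fun b : ℝ × P3 => deriv (fun s' => M s' b.2) b.1) a := by
  have h1 : ContDiffAt ℝ ∞ (fderiv ℝ fun a : ℝ × P3 => M a.1 a.2) a :=
    hM.self_of_nhds.fderiv_right (by simp)
  refine (h1.clm_apply (contDiffAt_const (c := ((1, 0) : ℝ × P3)))).congr_of_eventuallyEq ?_
  filter_upwards [hM] with b hb
  exact (amb_aux_hasDeriv hb).deriv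

theorem amb_aux_XH {H : P3 → ℝ} {p : P3} (h : ∀ᶠ q in 𝓝 p, H q = 0) : XH H p = 0 := by
  have h1 : fderiv ℝ H p = 0 := by
    rw [Filter.EventuallyEq.fderiv_eq (f := fun _ => (0 : ℝ)) h]
    simp
  simp [XH, h1, h.self_of_nhds]

theorem amb_aux_core {r : ℝ} (hr : 0 < r) (x : ℝ) : ((x, 0, 0) : P3) ∈ tube r := by
  change (0 : ℝ) ^ 2 + 0 ^ 2 < r ^ 2
  nlinarith

theorem amb_aux_shrink {ι : Type} [Finite ι] {N : ι → ℝ → P3 → P3} {r : ℝ} (hr : 0 < r)
    {U : Set P3} (hU : IsOpen U)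
    (hs : ∀ i, ∀ s ∈ Icc (0 : ℝ) 1, ∀ p ∈ tube r,
      ContinuousAt (fun a : ℝ × P3 => N i a.1 a.2) (s, p))
    (ht : ∀ i, ∀ s ∈ Icc (0 : ℝ) 1, TubeMap (N i s) r)
    (hc : ∀ i, ∀ s ∈ Icc (0 : ℝ) 1, ∀ x : ℝ, N i s (x, 0, 0) ∈ U) :
    ∃ ρ : ℝ, 0 < ρ ∧ ρ ≤ r ∧ ∀ i, ∀ s ∈ Icc (0 : ℝ) 1, ∀ p ∈ tube ρ, N i s p ∈ U := by
  have h1 : ∀ᶠ w : ℝ × ℝ in 𝓝 0, ∀ i, ∀ y ∈ Icc (0 : ℝ) 1 ×ˢ Icc (0 : ℝ) 1,
      N i y.1 (y.2, w) ∈ U := by
    refine eventually_all.2 fun i =>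
      (isCompact_Icc.prod isCompact_Icc).eventually_forall_of_forall_eventually (P := fun (w : ℝ × ℝ) (y : ℝ × ℝ) => N i y.1 (y.2, w) ∈ U) fun y hy => ?_
    have h2 : ContinuousAt (fun z : (ℝ × ℝ) × ℝ × ℝ => N i z.2.1 (z.2.2, z.1)) (0, y) :=
      ContinuousAt.comp (g := fun a : ℝ × P3 => N i a.1 a.2)
        (f := fun z : (ℝ × ℝ) × ℝ × ℝ => (z.2.1, (z.2.2, z.1)))
        (hs i y.1 hy.1 _ (amb_aux_core hr y.2)) (by fun_prop)
    exact h2.eventually (hU.mem_nhds (hc i y.1 hy.1 y.2))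
  obtain ⟨ε, hε, h2⟩ := Metric.eventually_nhds_iff.1 h1
  refine ⟨min ε r, lt_min hε hr, min_le_right _ _, fun i s hs' p hp => ?_⟩
  have h3 : p.2.1 ^ 2 + p.2.2 ^ 2 < ε ^ 2 :=
    tube_mono (lt_min hε hr).le (min_le_left ε r) hp
  rw [amb_aux_fract (ht i s hs').1 p]
  refine h2 (y := p.2) ?_ i (s, Int.fract p.1)
    ⟨hs', Int.fract_nonneg _, (Int.fract_lt_one _).le⟩
  rw [dist_zero_right, Prod.norm_def, max_lt_iff]
  exact ⟨abs_lt_of_sq_lt_sq (by nlinarith [sq_nonneg p.2.2]) hε.le,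
    abs_lt_of_sq_lt_sq (by nlinarith [sq_nonneg p.2.1]) hε.le⟩

/-- the case of a family defined for all times -/
theorem amb_aux_main {ι : Type} {M : ι → ℝ → P3 → P3} {r : ℝ} (hr : 0 < r) {U : Set P3}
    {C : Set (ℝ × P3)} (hC : IsClosed C) {R : ℝ} (hR : ∀ a ∈ C, ‖a.2‖ < R ∧ a.2 ∈ U)
    (hs : ∀ i s, ∀ p ∈ tube r,
      ContDiffAt ℝ ∞ (fun a : ℝ × P3 => M i a.1 a.2) (s, p) ∧ ContactAt (M i s) p)
    (ht : ∀ i s, TubeMap (M i s) r)
    (hd : ∀ i j, i ≠ j → ∀ s, ∀ p ∈ tube r, ∀ q ∈ tube r, M i s p ≠ M j s q)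
    (hin : ∀ i s (p : P3), p.2.1 ^ 2 + p.2.2 ^ 2 ≤ r ^ 2 / 2 → (s, M i s p) ∈ C)
    (hout : ∀ a ∈ C, ∃ i, ∃ p ∈ tube r, M i a.1 p = a.2) :
    ∃ f g : P3 → P3, IsCto f g ∧ (∀ p, p ∉ U → f p = p) ∧
      ∀ i, ∀ p ∈ tube (r / 2), f (M i 0 p) = M i 1 p := by
  classical
  let χ : ℝ × ℝ → ℝ := fun w => Real.smoothTransition (2 - 4 / r ^ 2 * (w.1 ^ 2 + w.2 ^ 2))
  have hχ : ContDiff ℝ ∞ χ := Real.smoothTransition.contDiff.comp (by fun_prop)
  have r2 : 0 < r ^ 2 := by positivity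
  have χ0 : ∀ w : ℝ × ℝ, r ^ 2 / 2 < w.1 ^ 2 + w.2 ^ 2 → χ w = 0 := fun w hw =>
    Real.smoothTransition.zero_of_nonpos (by
      rw [sub_nonpos, div_mul_eq_mul_div, le_div_iff₀ r2]
      linarith)
  have χ1 : ∀ p ∈ tube (r / 2), χ p.2 = 1 := fun p hp =>
    Real.smoothTransition.one_of_one_le (by
      have : p.2.1 ^ 2 + p.2.2 ^ 2 < (r / 2) ^ 2 := hp
      rw [le_sub_comm, div_mul_eq_mul_div, div_le_iff₀ r2]
      linarith)
  let h : ι → ℝ × P3 → ℝ := fun i a =>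
    χ a.2.2 * al (M i a.1 a.2) (deriv (fun s' => M i s' a.2) a.1)
  have hO : IsOpen {a : ℝ × P3 | a.2 ∈ tube r} := (isOpen_tube r).preimage continuous_snd
  have hh : ∀ i s, ∀ p ∈ tube r, ContDiffAt ℝ ∞ (h i) (s, p) := fun i s p hp => by
    have h1 := (hs i s p hp).1
    have h2 := amb_aux_deriv (M := M i) (a := (s, p))
      (mem_of_superset (hO.mem_nhds hp) fun b hb => (hs i b.1 b.2 hb).1)
    exact (hχ.contDiffAt.comp (s, p) contDiffAt_snd.snd).mul
      (h2.snd.snd.sub (h1.snd.fst.mul h2.fst))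
  have hex : ∀ a : ℝ × P3, ∃ v : ℝ, (∀ i, ∀ p ∈ tube r, M i a.1 p = a.2 → v = h i (a.1, p)) ∧
      (a ∉ C → v = 0) := fun a => by
    by_cases h1 : ∃ i, ∃ p ∈ tube r, M i a.1 p = a.2
    · obtain ⟨i, p, hp, e⟩ := h1
      refine ⟨h i (a.1, p), fun j q hq e' => ?_, fun ha => ?_⟩
      · obtain rfl : i = j := by
          by_contra hij
          exact hd i j hij a.1 p hp q hq (e.trans e'.symm)
        obtain ⟨h2, k, h3⟩ := (ht i a.1).2 p hp q hq (e.trans e'.symm)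
        have h4 : ∀ s, M i s p = M i s q := fun s => by
          rw [← amb_aux_per (ht i s).1 k q, ← h3, ← h2]
        simp only [h, h4, h2]
      · have h2 : r ^ 2 / 2 < p.2.1 ^ 2 + p.2.2 ^ 2 := not_le.1 fun h2 => ha (by
          have := hin i a.1 p h2
          rwa [e] at this)
        simp only [h, χ0 _ h2, zero_mul]
    · exact ⟨0, fun i p hp e => absurd ⟨i, p, hp, e⟩ h1, fun _ => rfl⟩
  choose H H1 H0 using hex
  have hz : ∀ a, a ∉ C → ∀ᶠ b in 𝓝 a, H b = 0 := fun a ha =>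
    mem_of_superset (hC.isOpen_compl.mem_nhds ha) fun b hb => H0 b hb
  have hct : ∀ i s, ∀ p ∈ tube r, ∀ᶠ q in 𝓝 p, ContactAt (M i s) q := fun i s p hp =>
    mem_of_superset ((isOpen_tube r).mem_nhds hp) fun q hq => (hs i s q hq).2
  have hH : ContDiff ℝ ∞ H := contDiff_iff_contDiffAt.2 fun a => by
    by_cases ha : a ∈ C
    · obtain ⟨i, p, hp, e⟩ := hout a ha
      have := amb_aux_desc (Ψ := fun b : ℝ × P3 => (b.1, M i b.1 b.2)) (H := H) (a := (a.1, p))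
        (contDiffAt_fst.prodMk (hs i a.1 p hp).1)
        (amb_aux_inj (hs i a.1 p hp).1 (fderiv_inj_of_contact (hct i a.1 p hp))) (hh i a.1 p hp)
        (mem_of_superset (hO.mem_nhds hp) fun b hb => H1 (b.1, M i b.1 b.2) i b.2 hb rfl)
      simpa only [e] using this
    · exact contDiffAt_const.congr_of_eventuallyEq (hz a ha)
  obtain ⟨φ, -, -, f1, -, f2⟩ := ham_flow (H := fun t p => H (t, p)) hH (R := R)
    fun t p hp => H0 _ fun ha => (hR _ ha).1.not_ge hp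
  have one : (1 : ℝ) ∈ Icc (0 : ℝ) 1 := ⟨zero_le_one, le_rfl⟩
  obtain ⟨g, hg⟩ := f1 1 one
  refine ⟨φ 1, g, hg, fun p hp => (f2 (fun _ => p) (fun t _ => ?_) 1 one).symm,
    fun i p hp => (f2 (fun t => M i t p) (fun t ht' => ?_) 1 one).symm⟩
  · rw [amb_aux_XH ((Continuous.prodMk_right t).continuousAt.eventually
      (hz (t, p) fun ha => hp (hR _ ha).2))]
    exact hasDerivWithinAt_const _ _ _
  · have hsub : tube (r / 2) ⊆ tube r := tube_mono (by positivity) (by linarith)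
    have hp' := hsub hp
    rw [← XH_of_family (N := M i) (H := fun p => H (t, p)) (hs i t p hp').1
      (Eventually.mono ((isOpen_tube r).mem_nhds hp') fun q hq =>
        Eventually.of_forall fun s' => (hs i s' q hq).2) ht'
      ((hH.comp (contDiff_const.prodMk contDiff_id)).differentiable (by simp) _)
      (mem_of_superset ((isOpen_tube _).mem_nhds hp) fun q hq => by
        have := H1 (t, M i t q) i q (hsub hq) rfl
        simp only [h, χ1 q hq, one_mul] at this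
        exact this)]
    exact (amb_aux_hasDeriv (hs i t p hp').1).differentiableAt.hasDerivAt.hasDerivWithinAt

theorem amb_aux_tube {X : Type} {f : P3 → X} {r r' : ℝ} (h : TubeMap f r) (h0 : 0 ≤ r')
    (h1 : r' ≤ r) : TubeMap f r' :=
  ⟨h.1, fun p hp q hq => h.2 p (tube_mono h0 h1 hp) q (tube_mono h0 h1 hq)⟩

theorem amb_fam {ι : Type} [Finite ι] {N : ι → ℝ → P3 → P3} {r : ℝ} (hr : 0 < r) {U : Set P3}
    (hU : IsOpen U)
    (hs : ∀ i, ∀ s ∈ Icc (0 : ℝ) 1, ∀ p ∈ tube r,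
      ContDiffAt ℝ ∞ (fun a : ℝ × P3 => N i a.1 a.2) (s, p) ∧ ContactAt (N i s) p)
    (ht : ∀ i, ∀ s ∈ Icc (0 : ℝ) 1, TubeMap (N i s) r)
    (hd : ∀ i j, i ≠ j → ∀ s ∈ Icc (0 : ℝ) 1, ∀ p ∈ tube r, ∀ q ∈ tube r, N i s p ≠ N j s q)
    (hc : ∀ i, ∀ s ∈ Icc (0 : ℝ) 1, ∀ x : ℝ, N i s (x, 0, 0) ∈ U) :
    ∃ f g : P3 → P3, IsCto f g ∧ (∀ p, p ∉ U → f p = p) ∧
      ∃ r' : ℝ, 0 < r' ∧ ∀ i, ∀ p ∈ tube r', f (N i 0 p) = N i 1 p := by
  obtain ⟨ρ, ρ0, ρr, hρ⟩ := amb_aux_shrink hr hU (fun i s h p hp => (hs i s h p hp).1.continuousAt)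
    ht hc
  have sub : tube ρ ⊆ tube r := tube_mono ρ0.le ρr
  have hσ : ∀ s, Real.smoothTransition s ∈ Icc (0 : ℝ) 1 := fun s =>
    ⟨Real.smoothTransition.nonneg s, Real.smoothTransition.le_one s⟩
  let D : Set (ℝ × P3) := Icc (0 : ℝ) 1 ×ˢ (Icc (0 : ℝ) 1 ×ˢ
    {w : ℝ × ℝ | w.1 ^ 2 + w.2 ^ 2 ≤ ρ ^ 2 / 2})
  have hD : IsCompact D := isCompact_Icc.prod (isCompact_Icc.prod
    ((isCompact_closedBall (0 : ℝ × ℝ) ρ).of_isClosed_subset
      (isClosed_le (by fun_prop) continuous_const) fun w hw => by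
        have hw' : w.1 ^ 2 + w.2 ^ 2 ≤ ρ ^ 2 / 2 := hw
        rw [mem_closedBall_zero_iff, Prod.norm_def, max_le_iff]
        exact ⟨abs_le_of_sq_le_sq (by nlinarith [sq_nonneg w.2, sq_nonneg ρ]) ρ0.le,
          abs_le_of_sq_le_sq (by nlinarith [sq_nonneg w.1, sq_nonneg ρ]) ρ0.le⟩))
  have hDt : ∀ a ∈ D, a.2 ∈ tube ρ := fun a ha => by
    have h1 : a.2.2.1 ^ 2 + a.2.2.2 ^ 2 ≤ ρ ^ 2 / 2 := ha.2.2
    exact h1.trans_lt (half_lt_self (by positivity))
  let K : Set (ℝ × P3) := ⋃ i, (fun a : ℝ × P3 => (a.1, N i a.1 a.2)) '' D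
  have hK : IsCompact K := isCompact_iUnion fun i => hD.image_of_continuousOn fun a ha =>
    (continuousAt_fst.prodMk (hs i a.1 ha.1 a.2 (sub (hDt a ha))).1.continuousAt).continuousWithinAt
  obtain ⟨R, hR⟩ := hK.exists_bound_of_continuousOn continuous_snd.continuousOn
  have hτ : ContDiff ℝ ∞ fun a : ℝ × P3 => (Real.smoothTransition a.1, a.2) :=
    (Real.smoothTransition.contDiff.comp contDiff_fst).prodMk contDiff_snd
  obtain ⟨f, g, h1, h2, h3⟩ := amb_aux_main (M := fun i s => N i (Real.smoothTransition s)) ρ0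
    (U := U) (C := (fun a : ℝ × P3 => (Real.smoothTransition a.1, a.2)) ⁻¹' K)
    (hK.isClosed.preimage hτ.continuous) (R := R + 1)
    (fun a ha => ⟨(hR _ ha).trans_lt (lt_add_one R), by
      obtain ⟨i, b, hb, e⟩ := mem_iUnion.1 ha
      rw [← (Prod.ext_iff.1 e).2]
      exact hρ i b.1 hb.1 b.2 (hDt b hb)⟩)
    (fun i s p hp => ⟨ContDiffAt.comp (g := fun a : ℝ × P3 => N i a.1 a.2) (s, p)
      (hs i _ (hσ s) p (sub hp)).1 hτ.contDiffAt, (hs i _ (hσ s) p (sub hp)).2⟩)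
    (fun i s => amb_aux_tube (ht i _ (hσ s)) ρ0.le ρr)
    (fun i j hij s p hp q hq => hd i j hij _ (hσ s) p (sub hp) q (sub hq))
    (fun i s p hp => mem_iUnion.2 ⟨i, (Real.smoothTransition s, Int.fract p.1, p.2),
      ⟨hσ s, ⟨Int.fract_nonneg _, (Int.fract_lt_one _).le⟩, hp⟩,
      Prod.ext rfl (amb_aux_fract (ht i _ (hσ s)).1 p).symm⟩)
    (fun a ha => by
      obtain ⟨i, b, hb, e⟩ := mem_iUnion.1 ha
      obtain ⟨e1, e2⟩ := Prod.ext_iff.1 e
      dsimp only at e1 e2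
      exact ⟨i, b.2, hDt b hb, by rw [← e2, ← e1]⟩)
  refine ⟨f, g, h1, h2, ρ / 2, by positivity, fun i p hp => ?_⟩
  simpa only [Real.smoothTransition.zero, Real.smoothTransition.one] using h3 i p hp

theorem amb_chain {ι : Type} [Finite ι] {K K' : ι → ℝ → P3} (h : LegChain K K') :
    ∃ f g : P3 → P3, IsCto f g ∧
      ∃ r : ℝ, 0 < r ∧ ∀ i, ∀ p ∈ tube r, f (can (K i) p) = can (K' i) p := by
  induction h with
  | refl => exact ⟨_, _, isCto_id, 1, one_pos, fun _ _ _ => rfl⟩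
  | tail _ hstep ih =>
    obtain ⟨f, g, h1, r, hr, h2⟩ := ih
    obtain ⟨G, hG, e0, e1⟩ := hstep
    choose ε hε hε' using fun i => can_fam (hG.1 i) (hG.2.1 i)
    obtain ⟨r0, hr0, h3⟩ := can_tube_fam hG
    obtain ⟨ρ, ⟨h4, h5⟩, ρ0⟩ : ∃ ρ : ℝ, ((∀ i, ρ < ε i) ∧ ρ < r0) ∧ 0 < ρ :=
      ((((eventually_all.2 fun i => eventually_lt_nhds (hε i)).and
        (eventually_lt_nhds hr0)).filter_mono nhdsWithin_le_nhds).and
          (self_mem_nhdsWithin (s := Ioi (0 : ℝ)))).exists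
    have sub : tube ρ ⊆ tube r0 := tube_mono ρ0.le h5.le
    obtain ⟨f', g', k1, -, r', hr', k2⟩ := amb_fam (N := fun i s => can (G i s)) ρ0 isOpen_univ
      (fun i s hs p hp => by
        have hp' : p.2.1 ^ 2 + p.2.2 ^ 2 < ρ ^ 2 := hp
        have := (hε' i).1 s hs p
          ((abs_lt_of_sq_lt_sq (by nlinarith [sq_nonneg p.2.2]) ρ0.le).trans (h4 i))
        exact ⟨this.1, this.2.1⟩)
      (fun i s hs => amb_aux_tube ((h3 s hs).1 i) ρ0.le h5.le)
      (fun i j hij s hs p hp q hq => (h3 s hs).2 i j hij p (sub hp) q (sub hq))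
      fun _ _ _ _ => mem_univ _
    refine ⟨_, _, h1.comp k1, min r r', lt_min hr hr', fun i p hp => ?_⟩
    have h0 := (lt_min hr hr').le
    rw [h2 i p (tube_mono h0 (min_le_left _ _) hp), ← e0, ← e1]
    exact k2 i p (tube_mono h0 (min_le_right _ _) hp)

end Pool.Agent.Lib.MP_4d7d0a_gt
end

-- part Pool.Agent.Lib.MP_4d7d0a_gt.GermA
section

/-! The transition map between two standard neighbourhoods of one knot. -/

set_option autoImplicit false

open Set Filter Topology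
open scoped ContDiff

namespace Pool.Agent.Lib.MP_4d7d0a_gt

namespace GermA

theorem int_const {X : Type} [TopologicalSpace X] [PreconnectedSpace X] {d : X → ℝ}
    (hd : Continuous d) (hi : ∀ x, ∃ k : ℤ, d x = k) (x y : X) : d x = d y := by
  have key : ∀ x y : X, ¬ d x < d y := by
    intro x y hlt
    obtain ⟨a, ha⟩ := hi x
    obtain ⟨b, hb⟩ := hi y
    have hab : a < b := by
      have : (a : ℝ) < b := by rw [← ha, ← hb]; exact hlt
      exact_mod_cast this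
    have hab' : (a : ℝ) + 1 ≤ b := by exact_mod_cast hab
    have hmem : (a : ℝ) + 1 / 2 ∈ Icc (d x) (d y) := by
      constructor
      · rw [ha]; linarith
      · rw [hb]; linarith
    obtain ⟨z, hz⟩ := intermediate_value_univ x y hd hmem
    obtain ⟨c, hc⟩ := hi z
    have h2 : ((2 * c : ℤ) : ℝ) = ((2 * a + 1 : ℤ) : ℝ) := by
      push_cast
      rw [← hc, hz]; ring
    have h3 : 2 * c = 2 * a + 1 := by exact_mod_cast h2
    omega
  exact le_antisymm (not_lt.1 (key y x)) (not_lt.1 (key x y))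

theorem per_int {X : Type} {n : P3 → X} (h : ∀ p : P3, n (p.1 + 1, p.2) = n p) (x : ℝ)
    (w : ℝ × ℝ) (k : ℤ) : n (x + k, w) = n (x, w) := by
  have hp : Function.Periodic (fun t : ℝ => n (t, w)) 1 := fun t => h (t, w)
  have := hp.int_mul k x
  simpa using this

theorem core_mem {r : ℝ} (hr : 0 < r) (x : ℝ) : ((x, 0, 0) : P3) ∈ tube r := by
  simp only [tube, mem_ofPred_eq]
  have := pow_pos hr 2
  linarith

theorem coe_eq_iff (a b : ℝ) :
    ((a : ℝ) : AddCircle (1 : ℝ)) = ((b : ℝ) : AddCircle (1 : ℝ)) ↔ ∃ k : ℤ, a = b + k := by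
  rw [← sub_eq_zero, ← AddCircle.coe_sub, AddCircle.coe_eq_zero_iff]
  constructor
  · rintro ⟨k, hk⟩
    refine ⟨k, ?_⟩
    simp only [zsmul_eq_mul, mul_one] at hk
    linarith
  · rintro ⟨k, hk⟩
    refine ⟨k, ?_⟩
    simp only [zsmul_eq_mul, mul_one]
    linarith

/-- a circle map that is injective has degree one or minus one -/
theorem deg_pm {h : ℝ → ℝ} (hc : Continuous h) {e : ℤ} (he : ∀ x, h (x + 1) = h x + e)
    (hi : ∀ x y : ℝ, (∃ k : ℤ, h x = h y + k) → ∃ k : ℤ, x = y + k) : e = 1 ∨ e = -1 := by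
  have noint : ∀ x : ℝ, 0 < x → x < 1 → ¬ ∃ k : ℤ, x = 0 + k := by
    rintro x h0 h1 ⟨k, hk⟩
    rw [zero_add] at hk
    rw [hk] at h0 h1
    have a : (0 : ℤ) < k := by exact_mod_cast h0
    have b : k < (1 : ℤ) := by exact_mod_cast h1
    omega
  have h10 : h 1 = h 0 + e := by simpa using he 0
  have hcon : ContinuousOn h (Icc 0 1) := hc.continuousOn
  by_contra hne
  push Not at hne
  rcases lt_trichotomy e 0 with hlt | heq | hgt
  · have h2 : e ≤ -2 := by omega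
    have h2' : (e : ℝ) ≤ -2 := by exact_mod_cast h2
    have hmem : h 0 - 1 ∈ Ioo (h 1) (h 0) := by
      constructor <;> linarith
    obtain ⟨x, hx, hx'⟩ := intermediate_value_Ioo' (zero_le_one' ℝ) hcon hmem
    exact noint x hx.1 hx.2 (hi x 0 ⟨-1, by rw [hx']; push_cast; ring⟩)
  · subst heq
    have hk : Continuous fun x : ℝ => h (x + 1 / 2) - h x := by fun_prop
    have h0 : h (1 / 2 + 1 / 2) - h (1 / 2) = -(h (0 + 1 / 2) - h 0) := by
      have : (1 / 2 : ℝ) + 1 / 2 = 1 := by norm_num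
      simp only [this, zero_add, h10]
      push_cast
      ring
    have hz : ∃ x : ℝ, h (x + 1 / 2) - h x = 0 := by
      rcases le_total 0 (h (0 + 1 / 2) - h 0) with hp | hp
      · have h3 : h (1 / 2 + 1 / 2) - h (1 / 2) ≤ 0 := by linarith
        exact intermediate_value_univ (1 / 2) 0 hk ⟨h3, hp⟩
      · have h3 : 0 ≤ h (1 / 2 + 1 / 2) - h (1 / 2) := by linarith
        exact intermediate_value_univ 0 (1 / 2) hk ⟨hp, h3⟩
    obtain ⟨x, hx⟩ := hz
    obtain ⟨k, hk⟩ := hi (x + 1 / 2) x ⟨0, by push_cast; linarith⟩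
    exact noint (1 / 2) (by norm_num) (by norm_num) ⟨k, by linarith⟩
  · have h2 : 2 ≤ e := by omega
    have h2' : (2 : ℝ) ≤ e := by exact_mod_cast h2
    have hmem : h 0 + 1 ∈ Ioo (h 0) (h 1) := by
      constructor <;> linarith
    obtain ⟨x, hx, hx'⟩ := intermediate_value_Ioo (zero_le_one' ℝ) hcon hmem
    exact noint x hx.1 hx.2 (hi x 0 ⟨1, by rw [hx']; push_cast; ring⟩)

/-- a thin tube is mapped into the image of the other tube -/
theorem thin {n₀ n₁ : P3 → P3} {r : ℝ} (hr : 0 < r) (h₁ : TubeMap n₁ r)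
    (c₀ : ∀ p ∈ tube r, ContactAt n₀ p) (c₁ : ∀ p ∈ tube r, ContactAt n₁ p)
    (hc : (range fun x : ℝ => n₀ (x, 0, 0)) = range fun x : ℝ => n₁ (x, 0, 0)) :
    ∃ ρ : ℝ, 0 < ρ ∧ ρ ≤ r ∧ ∀ p ∈ tube ρ, ∃ q ∈ tube r, n₀ q = n₁ p := by
  have hV : IsOpen (n₀ '' tube r) := by
    rw [isOpen_iff_mem_nhds]
    rintro _ ⟨q, hq, rfl⟩
    have hev : ∀ᶠ q' in 𝓝 q, ContactAt n₀ q' :=
      Filter.mem_of_superset ((isOpen_tube r).mem_nhds hq) c₀
    rw [← map_nhds_of_contact hev]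
    exact image_mem_map ((isOpen_tube r).mem_nhds hq)
  have hW : IsOpen (tube r ∩ n₁ ⁻¹' (n₀ '' tube r)) :=
    ContinuousOn.isOpen_inter_preimage
      (fun p hp => (c₁ p hp).1.continuousAt.continuousWithinAt) (isOpen_tube r) hV
  have hsub : (Icc (0 : ℝ) 1) ×ˢ ({0} : Set (ℝ × ℝ)) ⊆ tube r ∩ n₁ ⁻¹' (n₀ '' tube r) := by
    rintro ⟨x, w⟩ ⟨-, hw⟩
    have hw' : w = 0 := hw
    subst hw'
    refine ⟨core_mem hr x, ?_⟩
    have : n₁ (x, 0, 0) ∈ range fun x : ℝ => n₀ (x, 0, 0) := by rw [hc]; exact ⟨x, rfl⟩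
    obtain ⟨y, hy⟩ := this
    exact ⟨(y, 0, 0), core_mem hr y, hy⟩
  obtain ⟨u, v, -, hv, hu', hv', huv⟩ :=
    generalized_tube_lemma isCompact_Icc isCompact_singleton hW hsub
  obtain ⟨ε, hε, hball⟩ := Metric.isOpen_iff.1 hv 0 (hv' rfl)
  refine ⟨min ε r, lt_min hε hr, min_le_right _ _, ?_⟩
  intro p hp
  have hp' : p.2.1 ^ 2 + p.2.2 ^ 2 < (min ε r) ^ 2 := hp
  have hm : (min ε r) ^ 2 ≤ ε ^ 2 :=
    pow_le_pow_left₀ (lt_min hε hr).le (min_le_left _ _) 2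
  have hw : p.2 ∈ v := by
    apply hball
    rw [mem_ball_zero_iff, Prod.norm_def, max_lt_iff, Real.norm_eq_abs, Real.norm_eq_abs]
    constructor
    · exact abs_lt_of_sq_lt_sq (by nlinarith [sq_nonneg p.2.2]) hε.le
    · exact abs_lt_of_sq_lt_sq (by nlinarith [sq_nonneg p.2.1]) hε.le
  have hx : Int.fract p.1 ∈ u := hu' ⟨Int.fract_nonneg _, (Int.fract_lt_one _).le⟩
  obtain ⟨q, hq, hq'⟩ := (huv (mk_mem_prod hx hw)).2
  refine ⟨q, hq, ?_⟩
  rw [hq', ← per_int h₁.1 (Int.fract p.1) p.2 ⌊p.1⌋, Int.fract_add_floor]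

/-- retraction onto a closed box around the axis -/
noncomputable def ret (δ : ℝ) (p : P3) : P3 :=
  (p.1, max (-δ) (min δ p.2.1), max (-δ) (min δ p.2.2))

theorem continuous_ret (δ : ℝ) : Continuous (ret δ) := by
  unfold ret
  fun_prop

theorem ret_mem {δ : ℝ} (hδ : 0 < δ) (p : P3) : ret δ p ∈ tube (2 * δ) := by
  have key : ∀ t : ℝ, (max (-δ) (min δ t)) ^ 2 ≤ δ ^ 2 := by
    intro t
    apply sq_le_sq'
    · exact le_max_left _ _
    · exact max_le (by linarith) (min_le_left _ _)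
  have h1 := key p.2.1
  have h2 := key p.2.2
  have h3 := pow_pos hδ 2
  simp only [tube, ret, mem_ofPred_eq]
  nlinarith

theorem ret_eq {δ : ℝ} (hδ : 0 < δ) {p : P3} (hp : p ∈ tube δ) : ret δ p = p := by
  have hp' : p.2.1 ^ 2 + p.2.2 ^ 2 < δ ^ 2 := hp
  have h1 : |p.2.1| < δ := abs_lt_of_sq_lt_sq (by nlinarith [sq_nonneg p.2.2]) hδ.le
  have h2 : |p.2.2| < δ := abs_lt_of_sq_lt_sq (by nlinarith [sq_nonneg p.2.1]) hδ.le
  rw [abs_lt] at h1 h2
  unfold ret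
  rw [min_eq_right h1.2.le, min_eq_right h2.2.le, max_eq_right h1.1.le, max_eq_right h2.1.le]

/-- a choice of preimages is locally continuous modulo the period -/
theorem local_lift {n₀ : P3 → P3} {r : ℝ} (h₀ : TubeMap n₀ r)
    (c₀ : ∀ p ∈ tube r, ContactAt n₀ p) {m Q : P3 → P3} (hm : Continuous m)
    (hQ : ∀ p, Q p ∈ tube r) (hQ' : ∀ p, n₀ (Q p) = m p) (p : P3) :
    ∃ G : P3 → P3, ContinuousAt G p ∧
      ∀ᶠ p' in 𝓝 p, (Q p').2 = (G p').2 ∧ ∃ k : ℤ, (Q p').1 = (G p').1 + k := by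
  have hev : ∀ᶠ q' in 𝓝 (Q p), ContactAt n₀ q' :=
    Filter.mem_of_superset ((isOpen_tube r).mem_nhds (hQ p)) c₀
  obtain ⟨g, hg1, hg2, hg3⟩ := exists_contact_inv hev
  rw [hQ' p] at hg1 hg3
  have hgc : ContinuousAt g (m p) := hg1.self_of_nhds.1.continuousAt
  have hG : ContinuousAt (fun p' => g (m p')) p := hgc.comp hm.continuousAt
  have hGp : g (m p) = Q p := by rw [← hQ' p]; exact hg2.self_of_nhds
  refine ⟨fun p' => g (m p'), hG, ?_⟩
  have e1 : ∀ᶠ p' in 𝓝 p, g (m p') ∈ tube r :=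
    hG.eventually_mem ((isOpen_tube r).mem_nhds (by rw [hGp]; exact hQ p))
  have e2 : ∀ᶠ p' in 𝓝 p, n₀ (g (m p')) = m p' := hm.continuousAt.eventually hg3
  filter_upwards [e1, e2] with p' h1 h2
  exact h₀.2 _ (hQ p') _ h1 (by rw [hQ' p', h2])

/-- continuous global lift -/
theorem global_lift {n₀ : P3 → P3} {r : ℝ} (h₀ : TubeMap n₀ r)
    (c₀ : ∀ p ∈ tube r, ContactAt n₀ p) {m : P3 → P3} (hm : Continuous m)
    (hQ : ∀ p, ∃ q ∈ tube r, n₀ q = m p) {q₀ : P3} (hq₀ : q₀ ∈ tube r) (hq₀' : n₀ q₀ = m 0) :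
    ∃ f : P3 → P3, Continuous f ∧ (∀ p, f p ∈ tube r) ∧ (∀ p, n₀ (f p) = m p) ∧ f 0 = q₀ := by
  choose Q hQ1 hQ2 using hQ
  have hc2 : Continuous fun p => (Q p).2 := by
    rw [continuous_iff_continuousAt]
    intro p
    obtain ⟨G, hG, hev⟩ := local_lift h₀ c₀ hm hQ1 hQ2 p
    exact (continuous_snd.continuousAt.comp hG).congr (hev.mono fun p' h => h.1.symm)
  have hc1 : Continuous fun p => (((Q p).1 : ℝ) : AddCircle (1 : ℝ)) := by
    rw [continuous_iff_continuousAt]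
    intro p
    obtain ⟨G, hG, hev⟩ := local_lift h₀ c₀ hm hQ1 hQ2 p
    have h1 : ContinuousAt (fun p' => (((G p').1 : ℝ) : AddCircle (1 : ℝ))) p :=
      (AddCircle.continuous_mk' (1 : ℝ)).continuousAt.comp (continuous_fst.continuousAt.comp hG)
    exact h1.congr (hev.mono fun p' h => ((coe_eq_iff _ _).2 h.2).symm)
  have h00 := h₀.2 _ hq₀ _ (hQ1 0) (by rw [hq₀', hQ2])
  obtain ⟨φ, ⟨hφ0, hφ⟩, -⟩ := (AddCircle.isCoveringMap_coe (1 : ℝ)).existsUnique_continuousMap_lifts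
    (⟨_, hc1⟩ : C(P3, AddCircle (1 : ℝ))) 0 q₀.1 ((coe_eq_iff _ _).2 h00.2)
  refine ⟨fun p => (φ p, (Q p).2), φ.continuous.prodMk hc2, fun p => hQ1 p, fun p => ?_, ?_⟩
  · have h1 : ((φ p : ℝ) : AddCircle (1 : ℝ)) = (((Q p).1 : ℝ) : AddCircle (1 : ℝ)) :=
      congrFun hφ p
    obtain ⟨k, hk⟩ := (coe_eq_iff _ _).1 h1
    show n₀ (φ p, (Q p).2) = m p
    rw [hk, per_int h₀.1]
    exact hQ2 p
  · simp only [hφ0]
    exact Prod.ext rfl h00.1.symm

end GermA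

open GermA in
/-- the transition map between two standard neighbourhoods of the same unparametrised knot -/
theorem tube_trans {n₀ n₁ : P3 → P3} {r : ℝ} (hr : 0 < r) (h₀ : TubeMap n₀ r) (h₁ : TubeMap n₁ r)
    (c₀ : ∀ p ∈ tube r, ContactAt n₀ p) (c₁ : ∀ p ∈ tube r, ContactAt n₁ p)
    (hc : (range fun x : ℝ => n₀ (x, 0, 0)) = range fun x : ℝ => n₁ (x, 0, 0)) :
    ∃ (f : P3 → P3) (e : ℤ) (r' : ℝ), 0 < r' ∧ r' ≤ r ∧ (e = 1 ∨ e = -1) ∧
      (∀ p : P3, f (p.1 + 1, p.2) = ((f p).1 + e, (f p).2)) ∧ (∀ x : ℝ, (f (x, 0, 0)).2 = 0) ∧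
      ((∀ x : ℝ, n₀ (x, 0, 0) = n₁ (x, 0, 0)) → e = 1 ∧ ∀ x : ℝ, f (x, 0, 0) = (x, 0, 0)) ∧
      ∀ p ∈ tube r', f p ∈ tube r ∧ ContactAt f p ∧ n₀ (f p) = n₁ p := by
  obtain ⟨ρ, hρ, hρr, hthin⟩ := thin hr h₁ c₀ c₁ hc
  have hδ : 0 < ρ / 2 := half_pos hρ
  have hret : ∀ p, ret (ρ / 2) p ∈ tube ρ := by
    intro p
    have := ret_mem hδ p
    rwa [show 2 * (ρ / 2) = ρ by ring] at this
  have hretr : ∀ p, ret (ρ / 2) p ∈ tube r := fun p => tube_mono hρ.le hρr (hret p)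
  have hm : Continuous fun p => n₁ (ret (ρ / 2) p) := by
    rw [continuous_iff_continuousAt]
    intro p
    exact (c₁ _ (hretr p)).1.continuousAt.comp (continuous_ret _).continuousAt
  have hcore : ∀ x : ℝ, ret (ρ / 2) (x, 0, 0) = (x, 0, 0) := fun x => ret_eq hδ (core_mem hδ x)
  have hq₀ : ∃ q₀ ∈ tube r, n₀ q₀ = n₁ (ret (ρ / 2) 0) ∧
      ((∀ x : ℝ, n₀ (x, 0, 0) = n₁ (x, 0, 0)) → q₀ = 0) := by
    by_cases hx : ∀ x : ℝ, n₀ (x, 0, 0) = n₁ (x, 0, 0)
    · refine ⟨0, core_mem hr 0, ?_, fun _ => rfl⟩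
      have := hcore 0
      exact (hx 0).trans (congrArg n₁ this.symm)
    · obtain ⟨q, hq, hq'⟩ := hthin _ (hret 0)
      exact ⟨q, hq, hq', fun h => absurd h hx⟩
  obtain ⟨q₀, hq₀1, hq₀2, hq₀3⟩ := hq₀
  obtain ⟨f, hf, hf1, hf2, hf0⟩ := global_lift h₀ c₀ hm (fun p => hthin _ (hret p)) hq₀1 hq₀2
  have hper : ∀ p : P3, (f (p.1 + 1, p.2)).2 = (f p).2 ∧
      ∃ k : ℤ, (f (p.1 + 1, p.2)).1 = (f p).1 + k := by
    intro p
    apply h₀.2 _ (hf1 _) _ (hf1 _)
    rw [hf2, hf2]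
    exact h₁.1 (ret (ρ / 2) p)
  have hd : Continuous fun p : P3 => (f (p.1 + 1, p.2)).1 - (f p).1 := by fun_prop
  have hconst := int_const hd (fun p => by
    obtain ⟨k, hk⟩ := (hper p).2
    exact ⟨k, by linarith⟩)
  obtain ⟨e, he⟩ := (hper 0).2
  have hpe : ∀ p : P3, (f (p.1 + 1, p.2)).1 = (f p).1 + e := by
    intro p
    have := hconst p 0
    linarith
  have hf3 : ∀ x : ℝ, n₀ (f (x, 0, 0)) = n₁ (x, 0, 0) := fun x => by rw [hf2, hcore]
  have hz : ∀ x : ℝ, (f (x, 0, 0)).2 = 0 := by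
    intro x
    have : n₁ (x, 0, 0) ∈ range fun x : ℝ => n₀ (x, 0, 0) := by rw [hc]; exact ⟨x, rfl⟩
    obtain ⟨y, hy⟩ := this
    exact (h₀.2 _ (hf1 (x, 0, 0)) _ (core_mem hr y) ((hf3 x).trans hy.symm)).1
  have hh : Continuous fun x : ℝ => (f (x, 0, 0)).1 := by fun_prop
  have hdeg : e = 1 ∨ e = -1 := by
    refine deg_pm hh (fun x => hpe (x, 0, 0)) ?_
    rintro x y ⟨k, hk⟩
    refine (h₁.2 _ (core_mem hr x) _ (core_mem hr y) ?_).2
    rw [← hf3, ← hf3]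
    have e1 : f (x, 0, 0) = ((f (y, 0, 0)).1 + k, (f (y, 0, 0)).2) :=
      Prod.ext hk ((hz x).trans (hz y).symm)
    rw [e1, per_int h₀.1]
  refine ⟨f, e, ρ / 2, hδ, by linarith, hdeg, fun p => Prod.ext (hpe p) (hper p).1, hz, ?_, ?_⟩
  · intro hx
    have hd' : Continuous fun x : ℝ => (f (x, 0, 0)).1 - x := by fun_prop
    have hc' := int_const hd' (fun x => by
      obtain ⟨k, hk⟩ := (h₀.2 _ (hf1 (x, 0, 0)) _ (core_mem hr x) ((hf3 x).trans (hx x).symm)).2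
      exact ⟨k, by simp only at hk; linarith⟩)
    have h00 : (f (0, 0, 0)).1 = 0 := by
      have : f (0, 0, 0) = 0 := hf0.trans (hq₀3 hx)
      rw [this]; rfl
    have hid : ∀ x : ℝ, (f (x, 0, 0)).1 = x := by
      intro x
      have := hc' x 0
      linarith
    refine ⟨?_, fun x => Prod.ext (hid x) (hz x)⟩
    have h1 := hpe (0, 0, 0)
    simp only at h1
    rw [hid, hid] at h1
    have : (e : ℝ) = 1 := by linarith
    exact_mod_cast this
  · intro p hp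
    have hnp : n₀ (f p) = n₁ p := by rw [hf2, ret_eq hδ hp]
    refine ⟨hf1 p, ?_, hnp⟩
    have hev : ∀ᶠ q' in 𝓝 (f p), ContactAt n₀ q' :=
      Filter.mem_of_superset ((isOpen_tube r).mem_nhds (hf1 p)) c₀
    obtain ⟨g, hg1, hg2, -⟩ := exists_contact_inv hev
    rw [hnp] at hg1
    have hpr : p ∈ tube r := tube_mono hδ.le (by linarith) hp
    refine (hg1.self_of_nhds.comp (c₁ p hpr)).congr ?_
    filter_upwards [hf.continuousAt.eventually hg2, (isOpen_tube _).mem_nhds hp] with p' h1 h2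
    rw [← h1, hf2, ret_eq hδ h2]

end Pool.Agent.Lib.MP_4d7d0a_gt
end

-- part Pool.Agent.Lib.MP_4d7d0a_gt.DIso
section

/-! From a Legendrian isotopy in the sphere to a contactomorphism of the affine chart. -/

set_option autoImplicit false

open Set Filter Topology
open scoped ContDiff

namespace Pool.Agent.Lib.MP_4d7d0a_gt

/-- a Legendrian knot in the sphere that misses the pole, read in the chart -/
theorem IsLegKnot.cai {k : ℝ → P4} (hk : IsLegKnot k) (h : ∀ t, k t ≠ pole) :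
    IsLeg3 fun t => cai (k t) := by
  obtain ⟨h1, h2, h3, h4, h5, h6⟩ := hk
  have hc : ContDiff ℝ ∞ fun t => MP_4d7d0a_gt.cai (k t) := contDiff_iff_contDiffAt.2 fun t =>
    (contDiffAt_cai (caiN_pos (h3 t) (h t)).ne').comp t h1.contDiffAt
  have he : (fun t => cay (MP_4d7d0a_gt.cai (k t))) = k := funext fun t => cay_cai (h3 t) (h t)
  have hd : ∀ t, deriv k t = fderiv ℝ cay (MP_4d7d0a_gt.cai (k t))
      (deriv (fun t => MP_4d7d0a_gt.cai (k t)) t) := fun t => by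
    have h7 := ((contDiff_cay.differentiable (by simp)
      (MP_4d7d0a_gt.cai (k t))).hasFDerivAt.comp_hasDerivAt t
        (hc.differentiable (by simp) t).hasDerivAt).deriv
    rw [← h7]
    exact congrArg (fun f => deriv f t) he.symm
  refine ⟨hc, fun t => by simp only [h2], fun s hs t ht e => h4 hs ht ?_, fun t e => h5 t ?_,
    fun t => ?_⟩
  · rw [← cay_cai (h3 s) (h s), ← cay_cai (h3 t) (h t)]
    exact congrArg cay e
  · rw [hd, e, map_zero]
  · have h7 := lam_cay (MP_4d7d0a_gt.cai (k t)) (deriv (fun t => MP_4d7d0a_gt.cai (k t)) t)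
    rw [← hd, cay_cai (h3 t) (h t), h6] at h7
    have h8 : 0 < 8 / cayD (MP_4d7d0a_gt.cai (k t)) := div_pos (by norm_num) (cayD_pos _)
    exact (mul_eq_zero.1 h7.symm).resolve_left h8.ne'

theorem IsLegKnot.rotU {k : ℝ → P4} (hk : IsLegKnot k) {p : P4} (hp : p ∈ S3) :
    IsLegKnot fun t => rotU p (k t) := by
  obtain ⟨h1, h2, h3, h4, h5, h6⟩ := hk
  have hi : Function.Injective (MP_4d7d0a_gt.rotU p) :=
    Function.LeftInverse.injective (rotU_rinv hp)
  have hd : ∀ t, deriv (fun t => MP_4d7d0a_gt.rotU p (k t)) t =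
      MP_4d7d0a_gt.rotU p (deriv k t) := fun t => by
    obtain ⟨A, hA, h7⟩ := hasFDerivAt_rotU p (k t)
    rw [← hA]
    exact (h7.comp_hasDerivAt t (h1.differentiable (by simp) t).hasDerivAt).deriv
  have h0 : MP_4d7d0a_gt.rotU p 0 = 0 := by
    obtain ⟨A, hA, -⟩ := hasFDerivAt_rotU p 0
    rw [← hA, map_zero]
  refine ⟨contDiff_rotU.comp (contDiff_const.prodMk h1), fun t => by simp only [h2],
    fun t => rotU_mem hp (h3 t), fun s hs t ht e => h4 hs ht (hi e), fun t e => h5 t (hi ?_),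
    fun t => ?_⟩
  · rw [← hd, e, h0]
  · rw [hd, lam_rotU hp, h6]

theorem diso_rinv : ContDiff ℝ ∞ rinv := by
  unfold rinv
  fun_prop

theorem diso_ne {p q : P4} (hp : p ∈ S3) (h : q ≠ p) : rotU (rinv p) q ≠ pole := fun e => h <| by
  rw [← rotU_rinv' hp q, e, rotU_pole]

/-- a family of knots in the sphere seen from a moving point -/
theorem legFam_of_sphere {H : ℝ → ℝ → P4} {P : ℝ → P4}
    (hH : ContDiff ℝ ∞ fun a : ℝ × ℝ => H a.1 a.2) (hP : ContDiff ℝ ∞ P) (hS : ∀ s, P s ∈ S3)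
    (hl : ∀ s, IsLegKnot (H s)) (hn : ∀ s t, H s t ≠ P s) :
    IsLegFam fun (_ : Unit) s t => cai (rotU (rinv (P s)) (H s t)) := by
  refine ⟨fun _ => ?_, fun _ s _ => ?_, fun i j hij => absurd (Subsingleton.elim i j) hij⟩
  · have h1 : ContDiff ℝ ∞ fun a : ℝ × ℝ => rotU (rinv (P a.1)) (H a.1 a.2) :=
      contDiff_rotU.comp ((diso_rinv.comp (hP.comp contDiff_fst)).prodMk hH)
    refine contDiff_iff_contDiffAt.2 fun a => ?_
    exact (contDiffAt_cai (caiN_pos (rotU_mem (rinv_mem (hS a.1)) ((hl a.1).2.2.1 a.2))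
      (diso_ne (hS a.1) (hn a.1 a.2))).ne').comp a h1.contDiffAt
  · exact ((hl s).rotU (rinv_mem (hS s))).cai fun t => diso_ne (hS s) (hn s t)

/-- the upper hemisphere as a graph -/
noncomputable def diso_up (v : P3) : P4 :=
  (v.1, v.2.1, √(1 - v.1 ^ 2 - v.2.1 ^ 2 - v.2.2 ^ 2), v.2.2)

theorem diso_pos {v : P3} (h : ‖v‖ < 1 / 2) : 0 < 1 - v.1 ^ 2 - v.2.1 ^ 2 - v.2.2 ^ 2 := by
  have h1 : |v.1| < 1 / 2 := (norm_fst_le v).trans_lt h
  have h2 : |v.2.1| < 1 / 2 := ((norm_fst_le v.2).trans (norm_snd_le v)).trans_lt h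
  have h3 : |v.2.2| < 1 / 2 := ((norm_snd_le v.2).trans (norm_snd_le v)).trans_lt h
  rw [abs_lt] at h1 h2 h3
  nlinarith [h1.1, h1.2, h2.1, h2.2, h3.1, h3.2]

theorem diso_up_mem {v : P3} (h : ‖v‖ < 1 / 2) : diso_up v ∈ S3 := by
  have h1 := Real.sq_sqrt (diso_pos h).le
  simp only [S3, diso_up, mem_ofPred_eq]
  linarith

theorem diso_up_smooth {v : P3} (h : ‖v‖ < 1 / 2) : ContDiffAt ℝ ∞ diso_up v := by
  have h1 : ContDiffAt ℝ ∞ (fun v : P3 => √(1 - v.1 ^ 2 - v.2.1 ^ 2 - v.2.2 ^ 2)) v :=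
    ContDiffAt.sqrt (by fun_prop) (diso_pos h).ne'
  unfold diso_up
  exact contDiffAt_fst.prodMk (contDiffAt_snd.fst.prodMk (h1.prodMk contDiffAt_snd.snd))

/-- a smooth path on the sphere from the pole to a point off the track of `H` -/
theorem exists_path_off {H : ℝ × ℝ → P4} (hH : ContDiff ℝ ∞ H) {C : Set P4} (hC : IsClosed C)
    (hp : pole ∉ C) : ∃ P : ℝ → P4, ContDiff ℝ ∞ P ∧ (∀ s, P s ∈ S3 ∧ P s ∉ C) ∧ P 0 = pole ∧
      P 1 ∉ range H := by
  have h0 : diso_up 0 = pole := by simp [diso_up, pole]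
  have hc : Continuous diso_up := by
    unfold diso_up
    fun_prop
  have h1 : diso_up ⁻¹' Cᶜ ∈ 𝓝 (0 : P3) :=
    hc.continuousAt.preimage_mem_nhds (by rw [h0]; exact hC.isOpen_compl.mem_nhds hp)
  obtain ⟨ε, hε, h2⟩ := Metric.mem_nhds_iff.1 h1
  have hG : ContDiff ℝ 1 fun a : ℝ × ℝ => (((H a).1, (H a).2.1, (H a).2.2.2) : P3) := by
    have h3 : ContDiff ℝ 1 H := hH.of_le (by simp)
    fun_prop
  have hd := hG.dense_compl_range_of_finrank_lt_finrank (by simp)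
  obtain ⟨v, hv, hv'⟩ := hd.exists_mem_open (Metric.isOpen_ball (x := (0 : P3)) (ε := min ε (1 / 2)))
    ⟨0, Metric.mem_ball_self (lt_min hε (by norm_num))⟩
  rw [mem_ball_zero_iff, lt_min_iff] at hv'
  have hn : ∀ s, ‖Real.smoothTransition s • v‖ ≤ ‖v‖ := fun s => by
    rw [norm_smul, Real.norm_eq_abs, abs_of_nonneg (Real.smoothTransition.nonneg s)]
    exact mul_le_of_le_one_left (norm_nonneg v) (Real.smoothTransition.le_one s)
  refine ⟨fun s => diso_up (Real.smoothTransition s • v), contDiff_iff_contDiffAt.2 fun s => ?_,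
    fun s => ⟨diso_up_mem ((hn s).trans_lt hv'.2),
      h2 (mem_ball_zero_iff.2 ((hn s).trans_lt hv'.1))⟩, ?_, ?_⟩
  · exact (diso_up_smooth ((hn s).trans_lt hv'.2)).comp s
      (Real.smoothTransition.contDiff.smul contDiff_const).contDiffAt
  · simp only [Real.smoothTransition.zero, zero_smul, h0]
  · rintro ⟨a, ha⟩
    refine hv ⟨a, ?_⟩
    simp only [Real.smoothTransition.one, one_smul] at ha
    simp only [ha, diso_up]

theorem exists_cto_of_isotopic {K K' : ℝ → P3} (hK : IsLeg3 K) (hK' : IsLeg3 K')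
    (h : LegIsotopic (fun t => cay (K t)) fun t => cay (K' t)) :
    ∃ f g : P3 → P3, IsCto f g ∧ f '' range K = range K' := by
  obtain ⟨H, hH, hl, e0, e1⟩ := h
  have hm : ∀ s, Real.smoothTransition s ∈ Icc (0 : ℝ) 1 := fun s =>
    ⟨Real.smoothTransition.nonneg s, Real.smoothTransition.le_one s⟩
  have hH' : ContDiff ℝ ∞ fun a : ℝ × ℝ => H (Real.smoothTransition a.1) a.2 :=
    hH.comp_contDiff (f := fun a : ℝ × ℝ => (Real.smoothTransition a.1, a.2))
      ((Real.smoothTransition.contDiff.comp contDiff_fst).prodMk contDiff_snd)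
      fun a => ⟨hm a.1, mem_univ _⟩
  have l0 := hl 0 ⟨le_rfl, zero_le_one⟩
  have l1 := hl 1 ⟨zero_le_one, le_rfl⟩
  have r0 : range (H 0) = cay '' range K := by rw [e0, ← range_comp]; rfl
  have r1 : range (H 1) = cay '' range K' := by rw [e1, ← range_comp]; rfl
  have hC : IsClosed (cay '' range K ∪ cay '' range K') :=
    ((hK.isCompact.image contDiff_cay.continuous).union
      (hK'.isCompact.image contDiff_cay.continuous)).isClosed
  have hp : pole ∉ cay '' range K ∪ cay '' range K' := by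
    rintro (⟨p, -, e⟩ | ⟨p, -, e⟩) <;> exact cay_ne_pole p e
  obtain ⟨P, hP, hS, P0, P1⟩ := exists_path_off hH' hC hp
  have f1 := legFam_of_sphere (H := fun _ => H 0) (P := P) (l0.1.comp contDiff_snd) hP
    (fun s => (hS s).1) (fun _ => l0) fun s t e =>
      (hS s).2 (Or.inl (by rw [← r0, ← e]; exact mem_range_self t))
  have f2 := legFam_of_sphere (H := fun s => H (Real.smoothTransition s)) (P := fun _ => P 1) hH'
    contDiff_const (fun _ => (hS 1).1) (fun s => hl _ (hm s)) fun s t e => P1 ⟨(s, t), e⟩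
  have f3 := legFam_of_sphere (H := fun _ => H 1) (P := fun s => P (1 - s))
    (l1.1.comp contDiff_snd) (hP.comp (contDiff_const.sub contDiff_id))
    (fun s => (hS _).1) (fun _ => l1) fun s t e =>
      (hS (1 - s)).2 (Or.inr (by rw [← r1, ← e]; exact mem_range_self t))
  have ch : LegChain (fun (_ : Unit) t => cai (H 0 t)) fun (_ : Unit) t => cai (H 1 t) := by
    refine ((Relation.ReflTransGen.single (b := fun (_ : Unit) t => cai (rotU (rinv (P 1)) (H 0 t)))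
      ⟨_, f1, fun _ => ?_, fun _ => rfl⟩).tail
        (c := fun (_ : Unit) t => cai (rotU (rinv (P 1)) (H 1 t)))
        ⟨_, f2, fun _ => ?_, fun _ => ?_⟩).tail ⟨_, f3, fun _ => ?_, fun _ => ?_⟩
    · simp only [sub_zero]
    · simp only [sub_self, P0, rinv_pole, rotU_id]
    · simp only [P0, rinv_pole, rotU_id]
    · simp only [Real.smoothTransition.zero]
    · simp only [Real.smoothTransition.one]
  obtain ⟨f, g, hfg, r, hr, hf⟩ := amb_chain ch
  have hx : ∀ x, f (cai (H 0 x)) = cai (H 1 x) := fun x => by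
    have h1 := hf () (x, 0, 0) (loc_aux_core hr x)
    rwa [can_core, can_core, Prod.mk_zero_zero, Prod.mk_zero_zero, add_zero, add_zero] at h1
  have key : ∀ {L : ℝ → P3} {k : ℝ → P4}, range k = cay '' range L →
      range L = range fun t => cai (k t) := fun {L k} e => by
    have h1 : (range fun t => cai (k t)) = cai '' range k := range_comp cai k
    rw [h1, e, image_image]
    simp only [cai_cay, image_id']
  refine ⟨f, g, hfg, ?_⟩
  rw [key r0, key r1, ← range_comp]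
  exact congrArg range (funext hx)

end Pool.Agent.Lib.MP_4d7d0a_gt
end
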