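import Pool.Agent.Lib.MP_4d7d0a_gt.PBaseA

-- part Pool.Agent.Lib.MP_4d7d0a_gt.PBase
section

/-! Admissible colourings of generic polygons by ray parity. -/

set_option autoImplicit false

open Set Filter Topology

namespace Pool.Agent.Lib.MP_4d7d0a_gt

namespace PAdm

open Classical in
/-- indicator with values mod two -/
noncomputable def ind (p : Prop) : ZMod 2 := if p then 1 else 0

theorem ind_pos {p : Prop} (h : p) : ind p = 1 := if_pos h

theorem ind_neg {p : Prop} (h : ¬ p) : ind p = 0 := if_neg h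

theorem ind_congr {p q : Prop} (h : p ↔ q) : ind p = ind q := by rw [propext h]

theorem ind_add (p q : Prop) : ind p + ind q = ind (¬ (p ↔ q)) := by
  by_cases hp : p <;> by_cases hq : q <;> simp [ind, hp, hq]
  rfl

theorem ind_or {p q : Prop} (h : ¬ (p ∧ q)) : ind (p ∨ q) = ind p + ind q := by
  rw [ind_add]
  exact ind_congr (by tauto)

theorem two_eq (a : ZMod 2) : a + a = 0 := CharTwo.add_self_eq_zero a

theorem ncard_eq {ι : Type} [Fintype ι] (p : ι → Prop) :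
    (({g | p g}.ncard : ℕ) : ZMod 2) = ∑ g, ind (p g) := by
  classical
  simp only [ind]
  rw [Finset.sum_boole, ← Set.ncard_coe_finset]
  congr 2
  ext g
  simp

theorem sum_single {ι : Type} [Fintype ι] (g₀ : ι) (q : Prop) :
    ∑ g, ind (g = g₀ ∧ q) = ind q := by
  rw [Finset.sum_eq_single g₀ (fun g _ hg => ind_neg fun h => hg h.1) (by simp)]
  exact ind_congr (by simp)

theorem core (H : ℝ → ℝ) (d : ℝ) (hH : ∀ t, H t = H 0 + d * t) {t₁ t₂ lo hi : ℝ} (h12 : t₁ ≤ t₂)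
    (hl : lo < hi) :
    ind (lo ≤ t₁ ∧ t₁ < hi ∧ 0 < H t₁) + ind (lo ≤ t₂ ∧ t₂ < hi ∧ 0 < H t₂) +
      (ind (t₁ < lo ∧ lo ≤ t₂ ∧ 0 < H lo) + ind (t₁ < hi ∧ hi ≤ t₂ ∧ 0 < H hi)) =
    ind (∃ t, H t = 0 ∧ ((0 < d ∧ (t₁ ≤ t ∧ t < t₂) ∧ lo ≤ t ∧ t < hi) ∨
      (d < 0 ∧ (t₁ < t ∧ t ≤ t₂) ∧ lo < t ∧ t ≤ hi))) := by
  rw [ind_add, ind_add, ind_add]
  refine ind_congr ?_
  rcases lt_trichotomy d 0 with hd | hd | hd
  · have hd' := hd.ne
    have e : ∀ t, H t = d * (t - -H 0 / d) := fun t => by rw [hH]; field_simp; ring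
    generalize -H 0 / d = c at e
    have e1 : ∀ t, 0 < H t ↔ t < c := fun t => by
      rw [e, ← neg_mul_neg, mul_pos_iff_of_pos_left (neg_pos.2 hd)]
      constructor <;> intro h <;> linarith
    have e2 : ∀ t, H t = 0 ↔ t = c := fun t => by
      rw [e, mul_eq_zero, sub_eq_zero]
      simp [hd.ne]
    simp only [e1, e2, exists_eq_left]
    grind
  · have e : ∀ t, H t = H 0 := fun t => by rw [hH, hd]; ring
    rw [e t₁, e t₂, e lo, e hi]
    simp only [hd, lt_self_iff_false, false_and, or_self, and_false, exists_false]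
    grind
  · have e : ∀ t, H t = d * (t - -H 0 / d) := fun t => by rw [hH]; field_simp; ring
    generalize -H 0 / d = c at e
    have e1 : ∀ t, 0 < H t ↔ c < t := fun t => by
      rw [e, mul_pos_iff_of_pos_left hd, sub_pos]
    have e2 : ∀ t, H t = 0 ↔ t = c := fun t => by
      rw [e, mul_eq_zero, sub_eq_zero]
      simp [hd.ne']
    simp only [e1, e2, exists_eq_left]
    grind

/-- half open parameter intervals -/
def Hlf (b : Prop) (u v : ℝ) : Prop := (b ∧ 0 ≤ u ∧ u < v) ∨ (¬ b ∧ 0 < u ∧ u ≤ v)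

theorem hlf_iff {x d v : ℝ} (hd : d ≠ 0) (hv : 0 ≤ v) (u : ℝ) :
    ((min x (x + v * d) ≤ x + u * d ∧ x + u * d < max x (x + v * d)) ↔ Hlf (0 < d) u v) ∧
    ((min x (x + v * d) < x + u * d ∧ x + u * d ≤ max x (x + v * d)) ↔ Hlf (¬ 0 < d) u v) := by
  unfold Hlf
  rcases hd.lt_or_gt with h | h
  · have h1 : x + v * d ≤ x := by nlinarith
    rw [min_eq_right h1, max_eq_left h1]
    simp only [h.not_gt, false_and, not_false_eq_true, true_and, false_or, not_true_eq_false,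
      or_false, add_le_add_iff_left, add_lt_add_iff_left, add_lt_iff_neg_left,
      add_le_iff_nonpos_right, mul_le_mul_right_of_neg h, mul_lt_mul_right_of_neg h]
    refine ⟨⟨fun h => ⟨by nlinarith [h.2], h.1⟩, fun h => ⟨h.2, by nlinarith [h.1]⟩⟩,
      ⟨fun h => ⟨by nlinarith [h.2], h.1⟩, fun h => ⟨h.2, by nlinarith [h.1]⟩⟩⟩
  · have h1 : x ≤ x + v * d := by nlinarith
    rw [min_eq_left h1, max_eq_right h1]
    simp only [h, false_and, true_and, false_or, not_true_eq_false, not_false_eq_true,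
      or_false, add_le_add_iff_left, add_lt_add_iff_left, le_add_iff_nonneg_right,
      lt_add_iff_pos_right, mul_le_mul_iff_left₀ h, mul_lt_mul_iff_left₀ h,
      mul_nonneg_iff_of_pos_right h, mul_pos_iff_of_pos_right h, and_self]

/-- the sheared abscissa -/
def xi (l : ℝ) (p : P3) : ℝ := p.1 + l * p.2.2

/-- the slope in sheared coordinates -/
noncomputable def sl (l : ℝ) (p : P3) : ℝ := p.2.2 / xi l p

/-- same projection -/
def Pr (p q : P3) : Prop := p.1 = q.1 ∧ p.2.2 = q.2.2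

theorem pr_iff (l : ℝ) (p q : P3) : Pr p q ↔ xi l p = xi l q ∧ p.2.2 = q.2.2 := by
  unfold Pr xi
  constructor
  · rintro ⟨h1, h2⟩
    rw [h1, h2]
    exact ⟨rfl, rfl⟩
  · rintro ⟨h1, h2⟩
    rw [h2] at h1
    exact ⟨by linarith, h2⟩

theorem xi_add (l : ℝ) (p q : P3) (u : ℝ) : xi l (p + u • q) = xi l p + u * xi l q := by
  simp [xi]
  ring

theorem xi_sub (l : ℝ) (p q : P3) : xi l (p - q) = xi l p - xi l q := by
  simp [xi]
  ring

theorem det_sl {l : ℝ} {p q : P3} (hp : xi l p ≠ 0) (hq : xi l q ≠ 0) :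
    det2 p q = xi l p * xi l q * (sl l q - sl l p) := by
  unfold sl det2
  field_simp
  unfold xi
  ring

variable {ι : Type}

/-- the direction of an edge -/
def dir (P : PG ι) (e : ι) : P3 := P.pos (P.σ e) - P.pos e

theorem pt_eq (P : PG ι) (e : ι) (u : ℝ) : P.pt e u = P.pos e + u • dir P e := by
  rw [PG.pt, AffineMap.lineMap_apply, vsub_eq_sub, vadd_eq_add, add_comm, dir]

theorem pt_zero (P : PG ι) (e : ι) : P.pt e 0 = P.pos e := by simp [pt_eq]

theorem pt_one (P : PG ι) (e : ι) : P.pt e 1 = P.pos (P.σ e) := by simp [pt_eq, dir]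

/-- the height of the line of an edge -/
noncomputable def hgt (l : ℝ) (P : PG ι) (g : ι) (t : ℝ) : ℝ :=
  (P.pos g).2.2 + (t - xi l (P.pos g)) * sl l (dir P g)

/-- parity of the number of edges above a point -/
noncomputable def nu [Fintype ι] (l : ℝ) (P : PG ι) (t y : ℝ) : ZMod 2 :=
  ∑ g, ind (min (xi l (P.pos g)) (xi l (P.pos g) + 1 * xi l (dir P g)) ≤ t ∧
    t < max (xi l (P.pos g)) (xi l (P.pos g) + 1 * xi l (dir P g)) ∧ y < hgt l P g t)

/-- the edge `g` is counted as crossing the segment from `A` to `A + v • V` -/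
def Tm (l : ℝ) (P : PG ι) (A V : P3) (v : ℝ) (g : ι) : Prop :=
  ∃ u u', Pr (A + u • V) (P.pt g u') ∧ sl l V ≠ sl l (dir P g) ∧
    Hlf (0 < xi l V ↔ sl l V < sl l (dir P g)) u v ∧
    Hlf (0 < xi l (dir P g) ↔ sl l V < sl l (dir P g)) u' 1

theorem stokes [Fintype ι] {l : ℝ} {P : PG ι} (hl : ∀ g, xi l (dir P g) ≠ 0) (A : P3) {V : P3}
    (hV : xi l V ≠ 0) {v : ℝ} (hv : 0 ≤ v) :
    nu l P (xi l A) A.2.2 + nu l P (xi l (A + v • V)) (A + v • V).2.2 =
      ∑ g, ind (Tm l P A V v g) := by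
  let L : ℝ → ℝ := fun t => A.2.2 + (t - xi l A) * sl l V
  have L1 : ∀ u, L (xi l A + u * xi l V) = (A + u • V).2.2 := fun u => by
    simp only [L, sl, Prod.snd_add, Prod.smul_snd, smul_eq_mul]
    field_simp
    ring
  have L2 : ∀ g u, hgt l P g (xi l (P.pos g) + u * xi l (dir P g)) = (P.pt g u).2.2 :=
    fun g u => by
      have := hl g
      simp only [hgt, sl, pt_eq, Prod.snd_add, Prod.smul_snd, smul_eq_mul]
      field_simp
      ring
  have L0 : L (xi l A) = A.2.2 := by simp [L]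
  set t₁ := min (xi l A) (xi l A + v * xi l V) with ht₁
  set t₂ := max (xi l A) (xi l A + v * xi l V) with ht₂
  have e1 : nu l P (xi l A) A.2.2 + nu l P (xi l (A + v • V)) (A + v • V).2.2 =
      nu l P t₁ (L t₁) + nu l P t₂ (L t₂) := by
    rw [xi_add, ← L1, ← L0]
    rcases le_total (xi l A) (xi l A + v * xi l V) with h | h
    · rw [ht₁, ht₂, min_eq_left h, max_eq_right h]
    · rw [ht₁, ht₂, min_eq_right h, max_eq_left h, add_comm]
  let In : ι → ZMod 2 := fun w => ind (t₁ < xi l (P.pos w) ∧ xi l (P.pos w) ≤ t₂ ∧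
    L (xi l (P.pos w)) < (P.pos w).2.2)
  have e2 : ∑ g, (In g + In (P.σ g)) = 0 := by
    rw [Finset.sum_add_distrib, Equiv.sum_comp P.σ In, two_eq]
  rw [e1, nu, nu, ← Finset.sum_add_distrib, ← add_zero (Finset.sum _ _), ← e2,
    ← Finset.sum_add_distrib]
  refine Finset.sum_congr rfl fun g _ => ?_
  have hg := hl g
  have x1 : xi l (P.pos (P.σ g)) = xi l (P.pos g) + 1 * xi l (dir P g) := by
    rw [dir, xi_sub]; ring
  have z0 : (P.pos g).2.2 = hgt l P g (xi l (P.pos g)) := by simp [hgt]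
  have z1 : (P.pos (P.σ g)).2.2 = hgt l P g (xi l (P.pos g) + 1 * xi l (dir P g)) := by
    rw [L2, pt_one]
  have hc := core (fun t => hgt l P g t - L t) (sl l (dir P g) - sl l V)
    (fun t => by simp only [hgt, L]; ring) (t₁ := t₁) (t₂ := t₂) min_le_max
    (lo := min (xi l (P.pos g)) (xi l (P.pos g) + 1 * xi l (dir P g)))
    (hi := max (xi l (P.pos g)) (xi l (P.pos g) + 1 * xi l (dir P g)))
    (min_lt_max.2 (by simpa using hg))
  simp only [sub_pos, sub_neg, sub_eq_zero] at hc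
  refine Eq.trans ?_ (hc.trans (ind_congr ?_))
  · congr 1
    simp only [In]
    rw [x1, z1, z0]
    rcases le_total (xi l (P.pos g)) (xi l (P.pos g) + 1 * xi l (dir P g)) with h | h
    · rw [min_eq_left h, max_eq_right h]
    · rw [min_eq_right h, max_eq_left h, add_comm]
  · constructor
    · rintro ⟨t, h0, h⟩
      obtain ⟨u, hu⟩ : ∃ u, t = xi l A + u * xi l V := ⟨(t - xi l A) / xi l V, by field_simp; ring⟩
      obtain ⟨u', hu'⟩ : ∃ u', t = xi l (P.pos g) + u' * xi l (dir P g) :=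
        ⟨(t - xi l (P.pos g)) / xi l (dir P g), by field_simp; ring⟩
      have a1 := hlf_iff (x := xi l A) hV hv u
      have a2 := hlf_iff (x := xi l (P.pos g)) hg zero_le_one u'
      rw [← hu] at a1
      rw [← hu'] at a2
      refine ⟨u, u', (pr_iff l _ _).2 ⟨by rw [xi_add, pt_eq, xi_add, ← hu, ← hu'], ?_⟩, ?_⟩
      · rw [← L1, ← L2, ← hu, ← hu', h0]
      · rcases h with ⟨h1, h2, h3⟩ | ⟨h1, h2, h3⟩
        · simp only [h1, iff_true]
          exact ⟨h1.ne, a1.1.1 h2, a2.1.1 h3⟩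
        · simp only [h1.not_gt, iff_false]
          exact ⟨h1.ne', a1.2.1 h2, a2.2.1 h3⟩
    · rintro ⟨u, u', h0, h1, h2, h3⟩
      obtain ⟨b1, b2⟩ := (pr_iff l _ _).1 h0
      rw [xi_add, pt_eq, xi_add] at b1
      have a1 := hlf_iff (x := xi l A) hV hv u
      have a2 := hlf_iff (x := xi l (P.pos g)) hg zero_le_one u'
      rw [← b1] at a2
      refine ⟨xi l A + u * xi l V, by rw [L1, b1, L2, b2], ?_⟩
      rcases h1.lt_or_gt with h | h
      · simp only [h, iff_true] at h2 h3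
        exact Or.inl ⟨h, a1.1.2 h2, a2.1.2 h3⟩
      · simp only [h.not_gt, iff_false] at h2 h3
        exact Or.inr ⟨h, a1.2.2 h2, a2.2.2 h3⟩

theorem cr_det {P : PG ι} {e g : ι} (h : P.Cr e g) : det2 (dir P e) (dir P g) ≠ 0 := h.1

theorem tt_eq (P : PG ι) (e g : ι) :
    P.tt e g = det2 (P.pos g - P.pos e) (dir P g) / det2 (dir P e) (dir P g) := rfl

theorem det_swap (p q : P3) : det2 q p = -det2 p q := by unfold det2; ring

theorem cr_param {P : PG ι} {e g : ι} (h : det2 (dir P e) (dir P g) ≠ 0) {u u' : ℝ}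
    (hp : Pr (P.pt e u) (P.pt g u')) : u = P.tt e g := by
  obtain ⟨h1, h2⟩ := hp
  simp only [pt_eq, Prod.fst_add, Prod.snd_add, Prod.smul_fst, Prod.smul_snd, smul_eq_mul] at h1 h2
  rw [tt_eq, eq_div_iff h]
  simp only [det2, Prod.fst_sub, Prod.snd_sub]
  linear_combination (dir P g).2.2 * h1 - (dir P g).1 * h2

theorem cr_pr {P : PG ι} {e g : ι} (h : det2 (dir P e) (dir P g) ≠ 0) :
    Pr (P.pt e (P.tt e g)) (P.pt g (P.tt g e)) := by
  rw [tt_eq, tt_eq, det_swap (dir P e) (dir P g)]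
  simp only [Pr, pt_eq, Prod.fst_add, Prod.snd_add, Prod.smul_fst, Prod.smul_snd, smul_eq_mul]
  constructor <;> field_simp <;> simp only [det2, Prod.fst_sub, Prod.snd_sub] <;> ring

theorem cr_mem {P : PG ι} {e g : ι} (h : P.Cr e g) :
    P.tt e g ∈ Ioo (0 : ℝ) 1 ∧ P.tt g e ∈ Ioo (0 : ℝ) 1 := h.2

theorem cr_symm {P : PG ι} {e g : ι} (h : P.Cr e g) : P.Cr g e :=
  ⟨by rw [det_swap]; exact neg_ne_zero.2 h.1, h.2.2, h.2.1⟩

theorem pr_symm {p q : P3} (h : Pr p q) : Pr q p := ⟨h.1.symm, h.2.symm⟩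

theorem coin0 {P : PG ι} (h : P.Gen) {e g : ι} {u u' : ℝ} (hu : u ∈ Ico (0 : ℝ) 1)
    (hu' : u' ∈ Ico (0 : ℝ) 1) (hp : Pr (P.pt e u) (P.pt g u')) :
    (e = g ∧ u = u') ∨ (P.Cr e g ∧ u = P.tt e g ∧ u' = P.tt g e) :=
  (h.2.1 e g u hu u' hu' hp.1 hp.2).imp_right fun hc =>
    ⟨hc, cr_param (cr_det hc) hp, cr_param (cr_det (cr_symm hc)) (pr_symm hp)⟩

theorem coin {P : PG ι} (h : P.Gen) {e g : ι} {u u' : ℝ} (hu : u ∈ Icc (0 : ℝ) 1)
    (hu' : u' ∈ Icc (0 : ℝ) 1) (hp : Pr (P.pt e u) (P.pt g u')) :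
    (e = g ∧ u = u') ∨ (u = 0 ∧ u' = 1 ∧ P.σ g = e) ∨ (u = 1 ∧ u' = 0 ∧ P.σ e = g) ∨
      (P.Cr e g ∧ u = P.tt e g ∧ u' = P.tt g e) := by
  have h0 : (0 : ℝ) ∈ Ico (0 : ℝ) 1 := ⟨le_rfl, one_pos⟩
  rcases hu.2.eq_or_lt with rfl | a <;> rcases hu'.2.eq_or_lt with rfl | b
  · rw [pt_one, pt_one, ← pt_zero, ← pt_zero] at hp
    rcases coin0 h h0 h0 hp with c | c
    · exact Or.inl ⟨P.σ.injective c.1, rfl⟩
    · exact absurd c.2.1 (cr_mem c.1).1.1.ne
  · rw [pt_one, ← pt_zero] at hp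
    rcases coin0 h h0 ⟨hu'.1, b⟩ hp with c | c
    · exact Or.inr (Or.inr (Or.inl ⟨rfl, c.2.symm, c.1⟩))
    · exact absurd c.2.1 (cr_mem c.1).1.1.ne
  · rw [pt_one, ← pt_zero] at hp
    rcases coin0 h ⟨hu.1, a⟩ h0 hp with c | c
    · exact Or.inr (Or.inl ⟨c.2, rfl, c.1.symm⟩)
    · exact absurd c.2.2 (cr_mem c.1).2.1.ne
  · exact (coin0 h ⟨hu.1, a⟩ ⟨hu'.1, b⟩ hp).imp_right fun c => Or.inr (Or.inr c)

theorem dir_ne {P : PG ι} (h : P.Gen) (e : ι) : ¬ ((dir P e).1 = 0 ∧ (dir P e).2.2 = 0) := by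
  rintro ⟨h1, h2⟩
  rcases coin0 h (e := e) (g := e) (u := 0) (u' := 1 / 2) ⟨le_rfl, one_pos⟩ (by norm_num)
    (by simp [Pr, pt_eq, h1, h2]) with c | c
  · norm_num at c
  · exact absurd c.2.1 (cr_mem c.1).1.1.ne

theorem exists_shear {κ : Type} [Finite κ] (V : κ → P3)
    (hV : ∀ i, ¬ ((V i).1 = 0 ∧ (V i).2.2 = 0)) : ∃ l, ∀ i, xi l (V i) ≠ 0 := by
  obtain ⟨l, hl⟩ := (finite_range fun i => -(V i).1 / (V i).2.2).exists_notMem
  refine ⟨l, fun i h0 => ?_⟩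
  unfold xi at h0
  by_cases h : (V i).2.2 = 0
  · exact hV i ⟨by simpa [h] using h0, h⟩
  · exact hl ⟨i, by field_simp; linarith⟩

variable {l : ℝ} {P : PG ι}

theorem cr_sl (hl : ∀ g, xi l (dir P g) ≠ 0) {e g : ι} (h : P.Cr e g) :
    sl l (dir P e) ≠ sl l (dir P g) := fun h0 =>
  cr_det h (by rw [det_sl (hl e) (hl g), h0, sub_self, mul_zero])

theorem nofold (h : P.Gen) (hl : ∀ g, xi l (dir P g) ≠ 0) (e : ι)
    (h1 : xi l (dir P e) * xi l (dir P (P.σ e)) < 0) :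
    sl l (dir P e) ≠ sl l (dir P (P.σ e)) := by
  intro h0
  have a := hl e
  have b := hl (P.σ e)
  have c : xi l (dir P e) - xi l (dir P (P.σ e)) ≠ 0 := fun c => by
    rw [← sub_eq_zero.1 c] at h1
    nlinarith
  have hu : xi l (dir P e) / (xi l (dir P e) - xi l (dir P (P.σ e))) ∈ Ioo (0 : ℝ) 1 := by
    rcases a.lt_or_gt with a | a
    · have : 0 < xi l (dir P (P.σ e)) := by nlinarith
      exact ⟨div_pos_of_neg_of_neg a (by linarith), (div_lt_one_of_neg (by linarith)).2 (by linarith)⟩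
    · have : xi l (dir P (P.σ e)) < 0 := by nlinarith
      exact ⟨div_pos a (by linarith), (div_lt_one (by linarith)).2 (by linarith)⟩
  have e1 : P.pos (P.σ e) = P.pos e + (1 : ℝ) • dir P e := by rw [← pt_eq, pt_one]
  have e2 : (dir P (P.σ e)).2.2 = xi l (dir P (P.σ e)) * ((dir P e).2.2 / xi l (dir P e)) := by
    unfold sl at h0
    rw [h0]
    field_simp
  rcases coin0 h (e := e) (g := P.σ e) (Ioo_subset_Ico_self hu) (Ioo_subset_Ico_self hu)
    ((pr_iff l _ _).2 (by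
      rw [pt_eq, pt_eq, e1, xi_add, xi_add, xi_add]
      simp only [Prod.snd_add, Prod.smul_snd, smul_eq_mul, e2]
      constructor <;> field_simp <;> ring)) with d | d
  · rw [← d.1] at c
    exact c (sub_self _)
  · exact cr_sl hl d.1 h0

/-- correction at the start of an edge -/
def Al (l : ℝ) (P : PG ι) (e g : ι) : Prop := sl l (dir P e) ≠ sl l (dir P g) ∧
  (0 < xi l (dir P e) ↔ sl l (dir P e) < sl l (dir P g)) ∧
    ¬ (0 < xi l (dir P g) ↔ sl l (dir P e) < sl l (dir P g))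

/-- correction at the end of an edge -/
def Be (l : ℝ) (P : PG ι) (e g : ι) : Prop := sl l (dir P e) ≠ sl l (dir P g) ∧
  ¬ (0 < xi l (dir P e) ↔ sl l (dir P e) < sl l (dir P g)) ∧
    (0 < xi l (dir P g) ↔ sl l (dir P e) < sl l (dir P g))

theorem tm_iff (h : P.Gen) (hl : ∀ g, xi l (dir P g) ≠ 0) (e g : ι) {v : ℝ}
    (hv : v ∈ Ioc (0 : ℝ) 1) : Tm l P (P.pos e) (dir P e) v g ↔
      (g = P.σ.symm e ∧ Al l P e (P.σ.symm e)) ∨ (g = P.σ e ∧ v = 1 ∧ Be l P e (P.σ e)) ∨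
        (P.Cr e g ∧ P.tt e g < v) ∨ (P.Cr e g ∧ P.tt e g = v ∧
          ¬ (0 < xi l (dir P e) ↔ sl l (dir P e) < sl l (dir P g))) := by
  obtain ⟨v0, v1⟩ := hv
  constructor
  · rintro ⟨u, u', h0, h1, h2, h3⟩
    rw [← pt_eq] at h0
    unfold Hlf at h2 h3
    rcases coin h (u := u) (u' := u') (by grind) (by grind) h0 with c | c | c | c
    · exact absurd (c.1 ▸ rfl) h1
    · obtain ⟨rfl, rfl, rfl⟩ := c
      rw [Equiv.symm_apply_apply]
      exact Or.inl ⟨rfl, h1, by grind, by grind⟩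
    · obtain ⟨rfl, rfl, rfl⟩ := c
      exact Or.inr (Or.inl ⟨rfl, by grind, h1, by grind, by grind⟩)
    · obtain ⟨c, rfl, rfl⟩ := c
      refine Or.inr (Or.inr ?_)
      grind
  · rintro (⟨rfl, c1, c2, c3⟩ | ⟨rfl, rfl, c1, c2, c3⟩ | ⟨c1, c2⟩ | ⟨c1, c2, c3⟩)
    · refine ⟨0, 1, ?_, c1, Or.inl ⟨c2, le_rfl, v0⟩, Or.inr ⟨c3, one_pos, le_rfl⟩⟩
      rw [← pt_eq, pt_zero, pt_one, Equiv.apply_symm_apply]
      exact ⟨rfl, rfl⟩
    · refine ⟨1, 0, ?_, c1, Or.inr ⟨c2, one_pos, le_rfl⟩, Or.inl ⟨c3, le_rfl, one_pos⟩⟩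
      rw [← pt_eq, pt_zero, pt_one]
      exact ⟨rfl, rfl⟩
    · obtain ⟨⟨a1, a2⟩, a3, a4⟩ := cr_mem c1
      refine ⟨_, _, pt_eq P e _ ▸ cr_pr (cr_det c1), cr_sl hl c1, ?_, ?_⟩ <;> unfold Hlf <;> grind
    · obtain ⟨⟨a1, a2⟩, a3, a4⟩ := cr_mem c1
      refine ⟨_, _, pt_eq P e _ ▸ cr_pr (cr_det c1), cr_sl hl c1, ?_, ?_⟩ <;> unfold Hlf <;> grind

theorem not_cr (e : ι) : ¬ P.Cr e (P.σ e) := fun h =>
  (cr_mem h).1.2.ne' (cr_param (u' := 0) (cr_det h) (by rw [pt_zero, pt_one]; exact ⟨rfl, rfl⟩))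

theorem not_cr' (e : ι) : ¬ P.Cr e (P.σ.symm e) := fun h =>
  not_cr (P.σ.symm e) (by rw [Equiv.apply_symm_apply]; exact cr_symm h)

theorem edge [Fintype ι] (h : P.Gen) (hl : ∀ g, xi l (dir P g) ≠ 0) (e : ι) {v : ℝ}
    (hv : v ∈ Ioc (0 : ℝ) 1) :
    nu l P (xi l (P.pos e)) (P.pos e).2.2 + nu l P (xi l (P.pt e v)) (P.pt e v).2.2 =
      ind (Al l P e (P.σ.symm e)) + (ind (v = 1 ∧ Be l P e (P.σ e)) +
        (∑ g, ind (P.Cr e g ∧ P.tt e g < v) + ∑ g, ind (P.Cr e g ∧ P.tt e g = v ∧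
          ¬ (0 < xi l (dir P e) ↔ sl l (dir P e) < sl l (dir P g))))) := by
  rw [pt_eq, stokes hl _ (hl e) hv.1.le, ← sum_single (P.σ.symm e) (Al l P e _),
    ← sum_single (P.σ e) (v = 1 ∧ _), ← Finset.sum_add_distrib, ← Finset.sum_add_distrib,
    ← Finset.sum_add_distrib]
  refine Finset.sum_congr rfl fun g _ => ?_
  rw [ind_congr (tm_iff h hl e g hv), ind_or, ind_or, ind_or]
  · rintro ⟨a, b⟩
    exact a.2.ne b.2.1
  · rintro ⟨⟨rfl, -⟩, b | b⟩ <;> exact not_cr e b.1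
  · rintro ⟨⟨rfl, a⟩, b | b | b⟩
    · rw [← b.1] at b
      exact b.2.2.2.1 a.2.1
    · exact not_cr' e b.1
    · exact not_cr' e b.1

/-- the colour to the left of the start of an edge -/
noncomputable def ka [Fintype ι] (l : ℝ) (P : PG ι) (e : ι) : ZMod 2 :=
  nu l P (xi l (P.pos e)) (P.pos e).2.2 + ind (Al l P e (P.σ.symm e)) +
    ind (¬ 0 < xi l (dir P e))

theorem ka_adm [Fintype ι] (h : P.Gen) (hl : ∀ g, xi l (dir P g) ≠ 0) : P.od.Adm (ka l P) := by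
  constructor
  · intro e
    have a1 := edge h hl e (v := 1) ⟨one_pos, le_rfl⟩
    have a2 : ∑ g, ind (P.Cr e g ∧ P.tt e g < 1) = ∑ g, ind (P.Cr e g) :=
      Finset.sum_congr rfl fun g _ => ind_congr ⟨fun c => c.1, fun c => ⟨c, (cr_mem c).1.2⟩⟩
    have a3 : ∑ g, ind (P.Cr e g ∧ P.tt e g = 1 ∧
        ¬ (0 < xi l (dir P e) ↔ sl l (dir P e) < sl l (dir P g))) = 0 :=
      Finset.sum_eq_zero fun g _ => ind_neg fun c => (cr_mem c.1).1.2.ne c.2.1
    have a4 : ind (Al l P (P.σ e) e) + ind (¬ 0 < xi l (dir P (P.σ e))) =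
        ind ((1 : ℝ) = 1 ∧ Be l P e (P.σ e)) + ind (¬ 0 < xi l (dir P e)) := by
      rw [ind_add, ind_add]
      refine ind_congr ?_
      have b1 := nofold h hl e
      have b2 := hl e
      have b3 := hl (P.σ e)
      rw [mul_neg_iff] at b1
      unfold Al Be
      grind
    rw [a2, a3, pt_one] at a1
    change ka l P (P.σ e) = ka l P e + (({g | P.Cr e g}.ncard : ℕ) : ZMod 2)
    rw [ncard_eq, ka, ka, Equiv.symm_apply_apply, add_assoc, a4]
    linear_combination a1 - two_eq (nu l P (xi l (P.pos e)) (P.pos e).2.2) +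
      two_eq (ind ((1 : ℝ) = 1 ∧ Be l P e (P.σ e)))
  · have key : ∀ e f, P.Cr e f → ka l P e + ∑ g, ind (P.Cr e g ∧ P.tt e g < P.tt e f) =
        nu l P (xi l (P.pt e (P.tt e f))) (P.pt e (P.tt e f)).2.2 +
          ind (¬ sl l (dir P e) < sl l (dir P f)) := by
      intro e f hc
      have a1 := edge h hl e (Ioo_subset_Ioc_self (cr_mem hc).1)
      have a2 : ∑ g, ind (P.Cr e g ∧ P.tt e g = P.tt e f ∧
          ¬ (0 < xi l (dir P e) ↔ sl l (dir P e) < sl l (dir P g))) =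
          ind (¬ (0 < xi l (dir P e) ↔ sl l (dir P e) < sl l (dir P f))) := by
        rw [← sum_single f]
        refine Finset.sum_congr rfl fun g _ => ind_congr ⟨fun c => ?_, ?_⟩
        · obtain rfl := h.2.2 e g f c.1 hc c.2.1
          exact ⟨rfl, c.2.2⟩
        · rintro ⟨rfl, c⟩
          exact ⟨hc, rfl, c⟩
      have a3 : ind (¬ sl l (dir P e) < sl l (dir P f)) = ind (¬ 0 < xi l (dir P e)) +
          ind (¬ (0 < xi l (dir P e) ↔ sl l (dir P e) < sl l (dir P f))) := by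
        rw [ind_add]
        exact ind_congr (by tauto)
      rw [a2, ind_neg (p := _ ∧ Be l P e _) fun c => (cr_mem hc).1.2.ne c.1] at a1
      rw [a3, ka]
      linear_combination a1 - two_eq (nu l P (xi l (P.pt e (P.tt e f))) (P.pt e (P.tt e f)).2.2) +
        two_eq (ind (Al l P e (P.σ.symm e))) +
        two_eq (∑ g, ind (P.Cr e g ∧ P.tt e g < P.tt e f))
    intro e f hc
    change P.Cr e f at hc
    change ka l P e + (({g | P.Cr e g ∧ P.tt e g < P.tt e f}.ncard : ℕ) : ZMod 2) + ka l P f +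
      (({g | P.Cr f g ∧ P.tt f g < P.tt f e}.ncard : ℕ) : ZMod 2) = 1
    obtain ⟨b1, b2⟩ := (pr_iff l _ _).1 (cr_pr (cr_det hc))
    have b3 : ind (¬ sl l (dir P e) < sl l (dir P f)) + ind (¬ sl l (dir P f) < sl l (dir P e)) =
        1 := by
      rw [ind_add]
      have := cr_sl hl hc
      exact ind_pos (by grind)
    rw [ncard_eq, ncard_eq, key e f hc, add_assoc, key f e (cr_symm hc), ← b1, ← b2]
    linear_combination b3 + two_eq (nu l P (xi l (P.pt e (P.tt e f))) (P.pt e (P.tt e f)).2.2)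

theorem ka_mid [Fintype ι] (h : P.Gen) (hl : ∀ g, xi l (dir P g) ≠ 0) {e : ι}
    (he : ∀ g, ¬ P.Cr e g) : ka l P e =
      nu l P (xi l (P.pt e (1 / 2))) (P.pt e (1 / 2)).2.2 + ind (¬ 0 < xi l (dir P e)) := by
  have a1 := edge h hl e (v := 1 / 2) (by norm_num)
  rw [Finset.sum_eq_zero fun g _ => ind_neg fun c => he g c.1,
    Finset.sum_eq_zero fun g _ => ind_neg fun c => he g c.1,
    ind_neg (p := _ ∧ Be l P e _) fun c => by norm_num at c] at a1
  rw [ka]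
  linear_combination a1 - two_eq (nu l P (xi l (P.pt e (1 / 2))) (P.pt e (1 / 2)).2.2) +
    two_eq (ind (Al l P e (P.σ.symm e)))

theorem hull4 (A B C D : P3) {a b c d : ℝ} (ha : 0 ≤ a) (hb : 0 ≤ b) (hc : 0 ≤ c) (hd : 0 ≤ d)
    (h : a + b + c + d = 1) : a • A + b • B + c • C + d • D ∈ convexHull ℝ {A, B, C, D} :=
  mem_convexHull_of_exists_fintype ![a, b, c, d] ![A, B, C, D]
    (fun i => by fin_cases i <;> assumption) (by rw [Fin.sum_univ_four]; exact h)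
    (fun i => by fin_cases i <;> simp) (by rw [Fin.sum_univ_four]; rfl)

theorem inner_pt {A B C D : P3} (h : det2 (B - A) (C - B) ≠ 0) {u : ℝ} (hu : u ∈ Ioo (0 : ℝ) 1)
    (W : P3) : ∃ ε ∈ Ioo (0 : ℝ) 1, ∃ p ∈ convexHull ℝ {A, B, C, D},
      Pr (((1 - u) / 2) • A + ((1 - u) / 2) • B + (u / 2) • C + (u / 2) • D + ε • W) p := by
  obtain ⟨u0, u1⟩ := hu
  obtain ⟨α, hα⟩ : ∃ α, α = det2 W (C - B) / det2 (B - A) (C - B) := ⟨_, rfl⟩
  obtain ⟨β, hβ⟩ : ∃ β, β = det2 (B - A) W / det2 (B - A) (C - B) := ⟨_, rfl⟩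
  obtain ⟨ε, e0, e1⟩ := exists_pos_mul_lt (a := min ((1 - u) / 2) (u / 2))
    (lt_min (by linarith) (by linarith)) (1 + |α| + |β|)
  obtain ⟨e2, e3⟩ := lt_min_iff.1 e1
  have a1 := mul_le_mul_of_nonneg_right (le_abs_self α) e0.le
  have a2 := mul_le_mul_of_nonneg_right (neg_le_abs α) e0.le
  have a3 := mul_le_mul_of_nonneg_right (le_abs_self β) e0.le
  have a4 := mul_le_mul_of_nonneg_right (neg_le_abs β) e0.le
  have a5 := mul_nonneg (abs_nonneg α) e0.le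
  have a6 := mul_nonneg (abs_nonneg β) e0.le
  refine ⟨ε, ⟨e0, by linarith⟩, _, hull4 A B C D (a := (1 - u) / 2 - α * ε)
    (b := (1 - u) / 2 + α * ε - β * ε) (c := u / 2 + β * ε) (d := u / 2) (by linarith)
    (by linarith) (by linarith) (by linarith) (by ring), ?_⟩
  have b1 : W.1 = α * (B - A).1 + β * (C - B).1 := by
    rw [hα, hβ]
    field_simp
    unfold det2
    ring
  have b2 : W.2.2 = α * (B - A).2.2 + β * (C - B).2.2 := by
    rw [hα, hβ]
    field_simp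
    unfold det2
    ring
  simp only [Pr, Prod.fst_add, Prod.snd_add, Prod.smul_fst, Prod.smul_snd, smul_eq_mul, b1, b2,
    Prod.fst_sub, Prod.snd_sub]
  constructor <;> ring

theorem ka_eq [Fintype ι] (h : P.Gen) (hl : ∀ g, xi l (dir P g) ≠ 0) {a c : ι} {s : ℝ}
    (hV : xi l (P.pt c (1 / 2) - P.pt a (1 / 2)) ≠ 0)
    (h1 : 0 < s * det2 (P.pos (P.σ a) - P.pos a) (P.pos c - P.pos (P.σ a)))
    (h2 : 0 < s * det2 (P.pos c - P.pos (P.σ a)) (P.pos (P.σ c) - P.pos c))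
    (h3 : 0 < s * det2 (P.pos (P.σ c) - P.pos c) (P.pos a - P.pos (P.σ c)))
    (h4 : 0 < s * det2 (P.pos a - P.pos (P.σ c)) (P.pos (P.σ a) - P.pos a))
    (h5 : ∀ g, g ≠ a → g ≠ c → ∀ u ∈ Ioo (0 : ℝ) 1,
      ∀ p ∈ convexHull ℝ {P.pos a, P.pos (P.σ a), P.pos c, P.pos (P.σ c)}, ¬ Pr (P.pt g u) p) :
    ka l P a = ka l P c := by
  have hh : (1 / 2 : ℝ) ∈ Icc (0 : ℝ) 1 := by norm_num
  have h0 : (0 : ℝ) ∈ Icc (0 : ℝ) 1 := by norm_num
  have hd : det2 (P.pos (P.σ a) - P.pos a) (P.pos c - P.pos (P.σ a)) ≠ 0 := fun e => by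
    rw [e, mul_zero] at h1
    exact h1.false
  obtain ⟨V, hVe⟩ : ∃ V, V = P.pt c (1 / 2) - P.pt a (1 / 2) := ⟨_, rfl⟩
  rw [← hVe] at hV
  have e1 : P.pt a (1 / 2) + (1 : ℝ) • V = P.pt c (1 / 2) := by rw [hVe]; simp
  have eM : ∀ u : ℝ, P.pt a (1 / 2) + u • V = ((1 - u) / 2) • P.pos a +
      ((1 - u) / 2) • P.pos (P.σ a) + (u / 2) • P.pos c + (u / 2) • P.pos (P.σ c) := fun u => by
    rw [hVe, pt_eq, pt_eq, dir, dir]
    module
  have da : 0 < s * det2 (dir P a) V := by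
    rw [hVe, pt_eq, pt_eq]
    simp only [det2, dir, Prod.fst_add, Prod.snd_add, Prod.smul_fst, Prod.smul_snd, smul_eq_mul,
      Prod.fst_sub, Prod.snd_sub] at h1 h4 ⊢
    linarith
  have dc : s * det2 (dir P c) V < 0 := by
    rw [hVe, pt_eq, pt_eq]
    simp only [det2, dir, Prod.fst_add, Prod.snd_add, Prod.smul_fst, Prod.smul_snd, smul_eq_mul,
      Prod.fst_sub, Prod.snd_sub] at h2 h3 ⊢
    linarith
  have la : ∀ u u' : ℝ, Pr (P.pt a (1 / 2) + u • V) (P.pt a u') → u = 0 := by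
    rintro u u' ⟨b1, b2⟩
    simp only [pt_eq, det2, Prod.fst_add, Prod.snd_add, Prod.smul_fst, Prod.smul_snd,
      smul_eq_mul] at b1 b2 da
    refine (mul_eq_zero.1 ?_).resolve_right da.ne'
    linear_combination s * (dir P a).1 * b2 - s * (dir P a).2.2 * b1
  have lc : ∀ u u' : ℝ, Pr (P.pt a (1 / 2) + u • V) (P.pt c u') → u = 1 := by
    intro u u' b
    rw [show P.pt a (1 / 2) + u • V = P.pt c (1 / 2) + (u - 1) • V by rw [← e1]; module] at b
    obtain ⟨b1, b2⟩ := b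
    simp only [pt_eq, det2, Prod.fst_add, Prod.snd_add, Prod.smul_fst, Prod.smul_snd,
      smul_eq_mul] at b1 b2 dc
    refine sub_eq_zero.1 ((mul_eq_zero.1 ?_).resolve_right dc.ne)
    linear_combination s * (dir P c).1 * b2 - s * (dir P c).2.2 * b1
  have nac : ¬ P.Cr a c := fun hc => by
    obtain ⟨b1, b2⟩ := cr_pr (cr_det hc)
    obtain ⟨-, b3, b4⟩ := cr_mem hc
    generalize P.tt a c = u, P.tt c a = u' at b1 b2 b3 b4
    have b5 := add_pos (mul_pos (sub_pos.2 b4) h1) (mul_pos b3 h4)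
    simp only [pt_eq, det2, dir, Prod.fst_add, Prod.snd_add, Prod.smul_fst, Prod.smul_snd,
      smul_eq_mul, Prod.fst_sub, Prod.snd_sub] at b1 b2 b5
    refine b5.ne' ?_
    linear_combination s * ((P.pos (P.σ a)).2.2 - (P.pos a).2.2) * b1 -
      s * ((P.pos (P.σ a)).1 - (P.pos a).1) * b2
  have nself : ∀ e, ¬ P.Cr e e := fun e hc => cr_sl hl hc rfl
  have na : ∀ g, ¬ P.Cr a g := fun g hc => by
    obtain ⟨⟨b1, b2⟩, b3⟩ := cr_mem hc
    refine h5 g (fun e => nself a (e ▸ hc)) (fun e => nac (e ▸ hc)) _ b3 _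
      (hull4 _ _ _ _ (sub_pos.2 b2).le b1.le le_rfl le_rfl (by ring)) ?_
    rw [show (1 - P.tt a g) • P.pos a + P.tt a g • P.pos (P.σ a) + (0 : ℝ) • P.pos c +
      (0 : ℝ) • P.pos (P.σ c) = P.pt a (P.tt a g) by rw [pt_eq, dir]; module]
    exact pr_symm (cr_pr (cr_det hc))
  have nc : ∀ g, ¬ P.Cr c g := fun g hc => by
    obtain ⟨⟨b1, b2⟩, b3⟩ := cr_mem hc
    refine h5 g (fun e => nac (cr_symm (e ▸ hc))) (fun e => nself c (e ▸ hc)) _ b3 _
      (hull4 _ _ _ _ le_rfl le_rfl (sub_pos.2 b2).le b1.le (by ring)) ?_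
    rw [show (0 : ℝ) • P.pos a + (0 : ℝ) • P.pos (P.σ a) + (1 - P.tt c g) • P.pos c +
      P.tt c g • P.pos (P.σ c) = P.pt c (P.tt c g) by rw [pt_eq, dir]; module]
    exact pr_symm (cr_pr (cr_det hc))
  have nv : ∀ v, ∀ u ∈ Icc (0 : ℝ) 1, ¬ Pr (P.pt a (1 / 2) + u • V) (P.pos v) := by
    intro v u hu hp
    rw [← pt_zero] at hp
    rcases hu.1.eq_or_lt with rfl | u0
    · rw [zero_smul, add_zero] at hp
      rcases coin h hh h0 hp with b | b | b | b
      exacts [by norm_num at b, by norm_num at b, by norm_num at b, na _ b.1]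
    rcases hu.2.eq_or_lt with rfl | u1
    · rw [e1] at hp
      rcases coin h hh h0 hp with b | b | b | b
      exacts [by norm_num at b, by norm_num at b, by norm_num at b, nc _ b.1]
    obtain ⟨ε, b1, p, b2, b3⟩ := inner_pt (D := P.pos (P.σ c)) hd ⟨u0, u1⟩ (dir P v)
    refine h5 v (fun e => u0.ne' (la u 0 (e ▸ hp))) (fun e => u1.ne (lc u 0 (e ▸ hp))) ε b1 p b2 ?_
    rw [← eM] at b3
    rw [pt_zero] at hp
    rw [pt_eq]
    exact ⟨by rw [← b3.1, Prod.fst_add, Prod.fst_add (_ + _), hp.1],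
      by rw [← b3.2, Prod.snd_add, Prod.snd_add, Prod.snd_add (_ + _), Prod.snd_add (_ + _ : P3).2,
        hp.2]⟩
  have sa := det_sl (hl a) hV
  have sc := det_sl (hl c) hV
  have ta : sl l V ≠ sl l (dir P a) := fun e => by
    rw [sa, e, sub_self, mul_zero, mul_zero] at da
    exact da.false
  have tc : sl l V ≠ sl l (dir P c) := fun e => by
    rw [sc, e, sub_self, mul_zero, mul_zero] at dc
    exact dc.false
  have key : ∀ g, Tm l P (P.pt a (1 / 2)) V 1 g ↔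
      (g = a ∧ (0 < xi l V ↔ sl l V < sl l (dir P a))) ∨
        (g = c ∧ ¬ (0 < xi l V ↔ sl l V < sl l (dir P c))) := by
    intro g
    constructor
    · rintro ⟨u, u', b0, -, b2, b3⟩
      unfold Hlf at b2 b3
      have b4 : u ∈ Icc (0 : ℝ) 1 := by grind
      have b5 : u' ∈ Icc (0 : ℝ) 1 := by grind
      by_cases ga : g = a
      · subst ga
        obtain rfl := la u u' b0
        exact Or.inl ⟨rfl, by grind⟩
      by_cases gc : g = c
      · subst gc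
        obtain rfl := lc u u' b0
        exact Or.inr ⟨rfl, by grind⟩
      exfalso
      rcases b5.1.eq_or_lt with rfl | u0
      · exact nv g u b4 (pt_zero P g ▸ b0)
      rcases b5.2.eq_or_lt with rfl | u1
      · exact nv _ u b4 (pt_one P g ▸ b0)
      rw [eM] at b0
      exact h5 g ga gc u' ⟨u0, u1⟩ _ (hull4 _ _ _ _ (by linarith [b4.2]) (by linarith [b4.2])
        (by linarith [b4.1]) (by linarith [b4.1]) (by ring)) (pr_symm b0)
    · rintro (⟨rfl, b⟩ | ⟨rfl, b⟩)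
      · refine ⟨0, 1 / 2, by simp [Pr], ta, Or.inl ⟨b, le_rfl, one_pos⟩, ?_⟩
        unfold Hlf
        grind
      · refine ⟨1, 1 / 2, by rw [e1]; exact ⟨rfl, rfl⟩, tc, Or.inr ⟨b, one_pos, le_rfl⟩, ?_⟩
        unfold Hlf
        grind
  have st := stokes hl (P.pt a (1 / 2)) hV zero_le_one
  rw [e1, Finset.sum_congr rfl fun g _ => (ind_congr (key g)).trans (ind_or (by
    rintro ⟨⟨rfl, b⟩, rfl, b'⟩
    exact b' b)), Finset.sum_add_distrib, sum_single, sum_single] at st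
  have sg : xi l (dir P a) * (sl l V - sl l (dir P a)) *
      (xi l (dir P c) * (sl l V - sl l (dir P c))) < 0 := by
    have b := mul_neg_of_pos_of_neg da dc
    rw [sa, sc] at b
    refine neg_of_mul_neg_left (b := (s * xi l V) ^ 2) ?_ (sq_nonneg _)
    linarith
  have fin : ind (0 < xi l V ↔ sl l V < sl l (dir P a)) +
      ind (¬ (0 < xi l V ↔ sl l V < sl l (dir P c))) =
      ind (¬ 0 < xi l (dir P a)) + ind (¬ 0 < xi l (dir P c)) := by
    rw [ind_add, ind_add]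
    refine ind_congr ?_
    rw [mul_neg_iff, mul_pos_iff, mul_pos_iff, mul_neg_iff, mul_neg_iff] at sg
    grind
  rw [ka_mid h hl na, ka_mid h hl nc]
  linear_combination st + fin - two_eq (nu l P (xi l (P.pt c (1 / 2))) (P.pt c (1 / 2)).2.2) +
    two_eq (ind (¬ 0 < xi l (dir P a)))

end PAdm

namespace PG

open PAdm

variable {ι : Type} [Finite ι]

theorem Gen.adm {P : PG ι} (h : P.Gen) : ∃ κ, P.od.Adm κ := by
  have := Fintype.ofFinite ι
  obtain ⟨l, hl⟩ := exists_shear (dir P) (dir_ne h)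
  exact ⟨_, ka_adm h hl⟩

/-- two opposite sides of an empty convex quadrilateral have the same colour -/
theorem Gen.adm_eq {P : PG ι} (h : P.Gen) {a c : ι} {s : ℝ} (hs : s = 1 ∨ s = -1)
    (h1 : 0 < s * det2 (P.pos (P.σ a) - P.pos a) (P.pos c - P.pos (P.σ a)))
    (h2 : 0 < s * det2 (P.pos c - P.pos (P.σ a)) (P.pos (P.σ c) - P.pos c))
    (h3 : 0 < s * det2 (P.pos (P.σ c) - P.pos c) (P.pos a - P.pos (P.σ c)))
    (h4 : 0 < s * det2 (P.pos a - P.pos (P.σ c)) (P.pos (P.σ a) - P.pos a))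
    (h5 : ∀ g, g ≠ a → g ≠ c → ∀ u ∈ Ioo (0 : ℝ) 1,
      ∀ p ∈ convexHull ℝ {P.pos a, P.pos (P.σ a), P.pos c, P.pos (P.σ c)},
        ¬ ((P.pt g u).1 = p.1 ∧ (P.pt g u).2.2 = p.2.2)) :
    ∃ κ, P.od.Adm κ ∧ κ a = κ c := by
  have := Fintype.ofFinite ι
  obtain ⟨l, hl⟩ := exists_shear
    (fun o : Option ι => o.elim (P.pt c (1 / 2) - P.pt a (1 / 2)) (dir P)) (by
      rintro (_ | e)
      · rintro ⟨b1, b2⟩
        have b := add_pos h1 h4
        simp only [Option.elim, pt_eq, det2, dir, Prod.fst_add, Prod.snd_add, Prod.smul_fst,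
          Prod.smul_snd, smul_eq_mul, Prod.fst_sub, Prod.snd_sub] at b1 b2 b
        refine b.ne' ?_
        linear_combination 2 * s * ((P.pos (P.σ a)).1 - (P.pos a).1) * b2 -
          2 * s * ((P.pos (P.σ a)).2.2 - (P.pos a).2.2) * b1
      · exact dir_ne h e)
  exact ⟨_, ka_adm h fun g => hl (some g), ka_eq h (fun g => hl (some g)) (hl none) h1 h2 h3 h4 h5⟩

end PG

end Pool.Agent.Lib.MP_4d7d0a_gt
end

-- part Pool.Agent.Lib.MP_4d7d0a_gt.K2Def
section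

/-! Part K2: definitions. Partitions of curved links, approximating polygons, an integer
2-cocycle on punctured space, linking number, writhe, layered polygons. -/

set_option autoImplicit false

open Set Filter Topology

namespace Pool.Agent.Lib.MP_4d7d0a_gt

namespace K2

/-- the pieces `k` (on the arc `p k`, from `a k` to `b k`, followed by `τ k`) partition the arcs -/
structure Part {ι κ : Type} (σ : Equiv.Perm ι) (τ : Equiv.Perm κ) (p : κ → ι) (a b : κ → ℝ) :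
    Prop where
  a_nonneg : ∀ k, 0 ≤ a k
  lt : ∀ k, a k < b k
  b_le : ∀ k, b k ≤ 1
  mid : ∀ k, b k < 1 → p (τ k) = p k ∧ a (τ k) = b k
  last : ∀ k, b k = 1 → p (τ k) = σ (p k) ∧ a (τ k) = 0
  disj : ∀ k k', p k = p k' → a k < b k' → a k' < b k → k = k'
  cover : ∀ v, ∀ u ∈ Ico (0 : ℝ) 1, ∃ k, p k = v ∧ a k ≤ u ∧ u < b k

/-- `g - c` is small at the start of each arc and `ε`-Lipschitz -/
def Close {ι : Type} (ε : ℝ) (c g : ι → ℝ → P3) : Prop :=
  ∀ v, ‖g v 0 - c v 0‖ ≤ ε ∧ ∀ u ∈ Icc (0 : ℝ) 1, ∀ u' ∈ Icc (0 : ℝ) 1,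
    ‖(g v u' - g v u) - (c v u' - c v u)‖ ≤ ε * |u' - u|

/-- the polygon `Q` is `ε`-close to the arcs `c` along the partition -/
def NearP {ι κ : Type} (ε : ℝ) (c : ι → ℝ → P3) (p : κ → ι) (a b : κ → ℝ) (Q : PG κ) : Prop :=
  (∀ k, a k = 0 → ‖Q.pos k - c (p k) 0‖ ≤ ε) ∧
    ∀ k, ∀ u ∈ Icc (a k) (b k), ∀ u' ∈ Icc (a k) (b k),
      ‖((u' - u) / (b k - a k)) • (Q.pos (Q.σ k) - Q.pos k) - (c (p k) u' - c (p k) u)‖ ≤
        ε * |u' - u|

/-- `Q` approximates `L` -/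
def Apx {ι κ : Type} (L : CPL ι) (ε : ℝ) (Q : PG κ) : Prop :=
  ∃ (p : κ → ι) (a b : κ → ℝ), Part L.σ Q.σ p a b ∧ NearP ε L.c p a b Q

/-- the invariant of curved links -/
def VK {T : ODTheory} (PT : PTheory T) {ι : Type} (L : CPL ι) (q : ℤ) : Prop :=
  ∀ ε : ℝ, 0 < ε → ∃ (κ : Type) (_ : Finite κ) (Q : PG κ), Apx L ε Q ∧ PT.V Q q

/-- closed, with `C¹` arcs -/
def Reg {ι : Type} (L : CPL ι) (d : ι → ℝ → P3) : Prop :=
  (∀ v, ∀ u ∈ Icc (0 : ℝ) 1, HasDerivWithinAt (L.c v) (d v u) (Icc 0 1) u) ∧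
    (∀ v, ContinuousOn (d v) (Icc 0 1)) ∧ ∀ v, L.c v 1 = L.c (L.σ v) 0

theorem Reg.of_embD {ι : Type} {L : CPL ι} {d : ι → ℝ → P3} (h : L.EmbD d) : Reg L d :=
  ⟨fun v u hu => (h.1 v u hu).1, h.2.1, h.2.2.1⟩

/-- `g` is the piecewise linear curve of `Q` along the partition -/
def IsPlc {ι κ : Type} (Q : PG κ) (p : κ → ι) (a b : κ → ℝ) (g : ι → ℝ → P3) : Prop :=
  ∀ k, ∀ u ∈ Icc (a k) (b k), g (p k) u = Q.pt k ((u - a k) / (b k - a k))

/-- the subdivision of a polygon along a partition of its edges -/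
noncomputable def refn {ι κ : Type} (P : PG ι) (τ : Equiv.Perm κ) (p : κ → ι) (a : κ → ℝ) : PG κ :=
  ⟨τ, fun k => P.pt (p k) (a k)⟩

/-- the image of a polygon -/
def mapP {ι : Type} (f : P3 → P3) (P : PG ι) : PG ι := ⟨P.σ, fun v => f (P.pos v)⟩

/-- the translate of a polygon -/
def shiftP {ι : Type} (P : PG ι) (ν : P3) : PG ι := ⟨P.σ, fun v => P.pos v + ν⟩

/-- the edge vector -/
def dir {ι : Type} (P : PG ι) (e : ι) : P3 := P.pos (P.σ e) - P.pos e

/-- the shear `(x + α y, y, z + γ y)` -/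
def shear (α γ : ℝ) : P3 →ₗ[ℝ] P3 where
  toFun p := (p.1 + α * p.2.1, p.2.1, p.2.2 + γ * p.2.1)
  map_add' p q := by ext <;> simp <;> ring
  map_smul' c p := by ext <;> simp <;> ring

theorem shear_apply (α γ : ℝ) (p : P3) :
    shear α γ p = (p.1 + α * p.2.1, p.2.1, p.2.2 + γ * p.2.1) := rfl

/-- equal projections to the `xz`-plane -/
def Pj (p q : P3) : Prop := p.1 = q.1 ∧ p.2.2 = q.2.2

/-- a strictly convex quadrilateral in the projection, with orientation `s` -/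
def Quad (s : ℝ) (A B C D : P3) : Prop :=
  0 < s * det2 (B - A) (C - B) ∧ 0 < s * det2 (C - B) (D - C) ∧
    0 < s * det2 (D - C) (A - D) ∧ 0 < s * det2 (A - D) (B - A)

/-- `O` projects strictly inside the quadrilateral -/
def Ins (s : ℝ) (A B C D O : P3) : Prop :=
  0 < s * det2 (A - O) (B - O) ∧ 0 < s * det2 (B - O) (C - O) ∧
    0 < s * det2 (C - O) (D - O) ∧ 0 < s * det2 (D - O) (A - O)

/-- the hull of the edges `a` and `c` -/
def hullP {ι : Type} (P : PG ι) (a c : ι) : Set P3 :=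
  convexHull ℝ {P.pos a, P.pos (P.σ a), P.pos c, P.pos (P.σ c)}

/-- the other edges meet the hull only in its four vertices -/
def Emp {ι : Type} (P : PG ι) (a c : ι) : Prop :=
  ∀ g, g ≠ a → g ≠ c → ∀ u ∈ Icc (0 : ℝ) 1, P.pt g u ∈ hullP P a c →
    (u = 0 ∧ (g = P.σ a ∨ g = P.σ c)) ∨ (u = 1 ∧ (P.σ g = a ∨ P.σ g = c))

/-- in the projection, the segment from the vertex `X` to `W` leaves the quadrilateral -/
def Out (A B C D X W : P3) : Prop :=
  ∃ l : P3 →ₗ[ℝ] ℝ, l (0, 1, 0) = 0 ∧ l X < l W ∧ ∀ Z ∈ ({A, B, C, D} : Set P3), Z ≠ X → l Z < l X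

/-- the projected quadrilateral is empty, in a way stable under perturbation -/
def EmpG {ι : Type} (P : PG ι) (a c : ι) : Prop :=
  ∀ g, g ≠ a → g ≠ c → (∀ u ∈ Icc (0 : ℝ) 1, ∀ z ∈ hullP P a c, ¬ Pj (P.pt g u) z) ∨
    ((g = P.σ a ∨ g = P.σ c) ∧
      Out (P.pos a) (P.pos (P.σ a)) (P.pos c) (P.pos (P.σ c)) (P.pos g) (P.pos (P.σ g))) ∨
    ((P.σ g = a ∨ P.σ g = c) ∧
      Out (P.pos a) (P.pos (P.σ a)) (P.pos c) (P.pos (P.σ c)) (P.pos (P.σ g)) (P.pos g))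

/-- `P'` is `P` with the edges `a`, `c` reconnected -/
structure Swp {ι : Type} (P P' : PG ι) (a c : ι) : Prop where
  ne : a ≠ c
  pos : P'.pos = P.pos
  sa : P'.σ a = P.σ c
  sc : P'.σ c = P.σ a
  so : ∀ g, g ≠ a → g ≠ c → P'.σ g = P.σ g

/-- `Q` is `P` with the edges `a`, `c` dented towards `O` -/
structure Dent {ι κ : Type} (P : PG ι) (Q : PG κ) (a c : ι) (j : ι → κ) (n0 n1 n2 n3 : κ)
    (O : P3) (lam : ℝ) : Prop where
  inj : Function.Injective j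
  j0 : ∀ v, j v ≠ n0
  j1 : ∀ v, j v ≠ n1
  j2 : ∀ v, j v ≠ n2
  j3 : ∀ v, j v ≠ n3
  n01 : n0 ≠ n1
  n02 : n0 ≠ n2
  n03 : n0 ≠ n3
  n12 : n1 ≠ n2
  n13 : n1 ≠ n3
  n23 : n2 ≠ n3
  cov : ∀ k, (∃ v, k = j v) ∨ k = n0 ∨ k = n1 ∨ k = n2 ∨ k = n3
  sa : Q.σ (j a) = n0
  s0 : Q.σ n0 = n1
  s1 : Q.σ n1 = j (P.σ a)
  sc : Q.σ (j c) = n2
  s2 : Q.σ n2 = n3
  s3 : Q.σ n3 = j (P.σ c)
  so : ∀ g, g ≠ a → g ≠ c → Q.σ (j g) = j (P.σ g)
  pj : ∀ v, Q.pos (j v) = P.pos v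
  p0 : Q.pos n0 = AffineMap.lineMap O (P.pos a) lam
  p1 : Q.pos n1 = AffineMap.lineMap O (P.pos (P.σ a)) lam
  p2 : Q.pos n2 = AffineMap.lineMap O (P.pos c) lam
  p3 : Q.pos n3 = AffineMap.lineMap O (P.pos (P.σ c)) lam

open Classical in
/-- signed crossing of the projected segment `pq` with the ray `z = 0`, `x > 0` -/
noncomputable def om (p q : P3) : ℤ :=
  if p.2.2 < 0 ∧ 0 ≤ q.2.2 ∧ 0 < det2 p q then 1
  else if q.2.2 < 0 ∧ 0 ≤ p.2.2 ∧ det2 p q < 0 then -1 else 0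

/-- winding number of the projected quadrilateral -/
noncomputable def kq (p q r s : P3) : ℤ := om p q + om q r + om r s + om s p

/-- the set meets the negative `y`-axis -/
def Neg (K : Set P3) : Prop := ∃ t : ℝ, 0 < t ∧ ((0, -t, 0) : P3) ∈ K

open Classical in
/-- the cocycle on quadrilaterals -/
noncomputable def cq (p q r s : P3) : ℤ :=
  if Neg (convexHull ℝ {p, q, r, s}) then kq p q r s else 0

/-- the signed over-crossing of `[a,b]` with `[c,d]`, defined without genericity -/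
noncomputable def crZ (a b c d : P3) : ℤ := cq (a - c) (a - d) (b - d) (b - c)

/-- linking sum of two polygons -/
noncomputable def lkZ {ι ι' : Type} [Fintype ι] [Fintype ι'] (P : PG ι) (Q : PG ι') : ℤ :=
  ∑ e, ∑ f, crZ (P.pos e) (P.pos (P.σ e)) (Q.pos f) (Q.pos (Q.σ f))

/-- linking sum of two sequences -/
noncomputable def lkS (n m : ℕ) (a b : ℕ → P3) : ℤ :=
  ∑ i ∈ Finset.range n, ∑ j ∈ Finset.range m, crZ (a i) (a (i + 1)) (b j) (b (j + 1))

/-- linking sum of the inscribed polygons -/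
noncomputable def lkN (n m : ℕ) (A B : ℝ → P3) : ℤ :=
  lkS n m (fun i => A ((i : ℝ) / n)) fun j => B ((j : ℝ) / m)

/-- every cell of the grid is mapped by the difference into a convex set missing the origin -/
def Good (n m : ℕ) (A B : ℝ → P3) : Prop :=
  0 < n ∧ 0 < m ∧ ∀ i < n, ∀ j < m, ∃ K : Set P3, Convex ℝ K ∧ (0 : P3) ∉ K ∧
    ∀ s ∈ Icc ((i : ℝ) / n) (((i : ℝ) + 1) / n), ∀ t ∈ Icc ((j : ℝ) / m) (((j : ℝ) + 1) / m),
      A s - B t ∈ K

open Classical in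
/-- the linking number -/
noncomputable def lk (A B : ℝ → P3) : ℤ :=
  if h : ∃ z : ℕ × ℕ, Good z.1 z.2 A B then lkN h.choose.1 h.choose.2 A B else 0

/-- the closed edges of the two polygons are disjoint -/
def ApartP {ι ι' : Type} (P : PG ι) (Q : PG ι') : Prop :=
  ∀ e f, ∀ u ∈ Icc (0 : ℝ) 1, ∀ u' ∈ Icc (0 : ℝ) 1, P.pt e u ≠ Q.pt f u'

/-- the writhe -/
noncomputable def wr {ι : Type} [Fintype ι] (P : PG ι) : ℤ :=
  ∑ e, ∑ f, crS (P.pos e) (P.pos (P.σ e)) (P.pos f) (P.pos (P.σ f))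

/-- twice the writhe of an ordered diagram -/
noncomputable def cnt {ι : Type} (D : OD ι) : ℤ :=
  ({p : ι × ι | D.X p.1 p.2 ∧ D.sg p.1 p.2}.ncard : ℤ) -
    ({p : ι × ι | D.X p.1 p.2 ∧ ¬ D.sg p.1 p.2}.ncard : ℤ)

/-- all edges are positively transverse -/
def Trv {ι : Type} (P : PG ι) : Prop := ∀ e, ∀ u ∈ Icc (0 : ℝ) 1, 0 < al (P.pt e u) (dir P e)

/-- a polygon that becomes braid-like after the shear `z + y` -/
structure Br {ι : Type} (P : PG ι) (R : ι → Prop) : Prop where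
  gen : P.Gen
  rpos : ∀ e, R e → 0 < (dir P e).1
  lneg : ∀ e, ¬ R e → (dir P e).1 < 0
  right : ∀ e, R e → ¬ R (P.σ e) → 0 < det2 (dir P e) (dir P (P.σ e))
  left : ∀ e, ¬ R e → R (P.σ e) → det2 (dir P e) (dir P (P.σ e)) < 0
  turn : ∀ e, ¬ (R e ↔ R (P.σ e)) →
    0 < det2 (shear 0 1 (dir P e)) (shear 0 1 (dir P (P.σ e)))
  sep : ∀ e f, R e → ¬ R f → f ≠ P.σ e → e ≠ P.σ f → ∀ u ∈ Icc (0 : ℝ) 1, ∀ u' ∈ Icc (0 : ℝ) 1,
    ¬ Pj (shear 0 1 (P.pt e u)) (shear 0 1 (P.pt f u'))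

/-- a transverse polygon with depth levels `h` -/
structure Lay {ι : Type} (P : PG ι) (R : ι → Prop) (h : ι → ℝ) : Prop where
  gen : P.Gen
  rpos : ∀ e, R e → 0 < (dir P e).1
  lneg : ∀ e, ¬ R e → (dir P e).1 < 0
  trv : Trv P
  val : ∀ e, h e = -1 ∨ h e = 0 ∨ h e = 1
  rle : ∀ e, R e → h e ≤ 0 ∧ h (P.σ e) ≤ 0
  lge : ∀ e, ¬ R e → 0 ≤ h e ∧ 0 ≤ h (P.σ e)
  cr : ∀ e f, P.Cr e f → h e ≠ 0 ∧ h (P.σ e) ≠ 0
  ext : ∀ e, ¬ (R e ↔ R (P.σ e)) → h e ≠ 0
  conn : ∀ e f, R e → ¬ R f → f ≠ P.σ e → e ≠ P.σ f → (h e = 0 ∨ h (P.σ e) = 0) →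
    (h f = 0 ∨ h (P.σ f) = 0) → ∀ u ∈ Icc (0 : ℝ) 1, ∀ u' ∈ Icc (0 : ℝ) 1,
      (P.pt e u).1 ≠ (P.pt f u').1

end K2

end Pool.Agent.Lib.MP_4d7d0a_gt
end

-- part Pool.Agent.Lib.MP_4d7d0a_gt.K2Part
section

/-! Part K2: basic facts on partitions and their construction. -/

set_option autoImplicit false

open Set Filter Topology

namespace Pool.Agent.Lib.MP_4d7d0a_gt

namespace K2

variable {ι κ : Type} {σ : Equiv.Perm ι} {τ : Equiv.Perm κ} {p : κ → ι} {a b : κ → ℝ}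

theorem Part.inj (h : Part σ τ p a b) {k k' : κ} (hp : p k = p k') (ha : a k = a k') : k = k' :=
  h.disj k k' hp (ha ▸ h.lt k') (ha ▸ h.lt k)

theorem Part.exists_first (h : Part σ τ p a b) (v : ι) : ∃ k, p k = v ∧ a k = 0 := by
  obtain ⟨k, h1, h2, -⟩ := h.cover v 0 ⟨le_rfl, zero_lt_one⟩
  exact ⟨k, h1, le_antisymm h2 (h.a_nonneg k)⟩

theorem Part.exists_last [Finite κ] (h : Part σ τ p a b) (v : ι) : ∃ k, p k = v ∧ b k = 1 := by
  obtain ⟨k₀, h₀, -⟩ := h.exists_first v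
  obtain ⟨k, hk, hm⟩ := Set.exists_max_image {k | p k = v} b (Set.toFinite _) ⟨k₀, h₀⟩
  refine ⟨k, hk, ?_⟩
  by_contra hne
  obtain ⟨h1, h2⟩ := h.mid k (lt_of_le_of_ne (h.b_le k) hne)
  have h3 := hm (τ k) (h1.trans hk)
  have h4 := h.lt (τ k)
  linarith

theorem Part.cover_closed [Finite κ] (h : Part σ τ p a b) (v : ι) {u : ℝ}
    (hu : u ∈ Icc (0 : ℝ) 1) : ∃ k, p k = v ∧ u ∈ Icc (a k) (b k) := by
  rcases hu.2.eq_or_lt with h1 | h1
  · obtain ⟨k, hk, hb⟩ := h.exists_last v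
    have := h.lt k
    exact ⟨k, hk, by linarith, by linarith⟩
  · obtain ⟨k, hk, h2, h3⟩ := h.cover v u ⟨hu.1, h1⟩
    exact ⟨k, hk, h2, h3.le⟩

/-- two different closed pieces of one arc meet only if one follows the other -/
theorem Part.meet (h : Part σ τ p a b) {k k' : κ} (hp : p k = p k') {u : ℝ}
    (hu : u ∈ Icc (a k) (b k)) (hu' : u ∈ Icc (a k') (b k')) :
    k = k' ∨ (k' = τ k ∧ u = b k ∧ u = a k') ∨ (k = τ k' ∧ u = b k' ∧ u = a k) := by
  by_cases h1 : a k < b k'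
  · by_cases h2 : a k' < b k
    · exact Or.inl (h.disj k k' hp h1 h2)
    · have e1 : u = b k := le_antisymm hu.2 ((not_lt.1 h2).trans hu'.1)
      have e2 : u = a k' := le_antisymm (hu.2.trans (not_lt.1 h2)) hu'.1
      have l1 := h.lt k'
      have l2 := h.b_le k'
      obtain ⟨m1, m2⟩ := h.mid k (by linarith)
      exact Or.inr (Or.inl ⟨h.inj (hp.symm.trans m1.symm) (by linarith), e1, e2⟩)
  · have e1 : u = b k' := le_antisymm hu'.2 ((not_lt.1 h1).trans hu.1)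
    have e2 : u = a k := le_antisymm (hu'.2.trans (not_lt.1 h1)) hu.1
    have l1 := h.lt k
    have l2 := h.b_le k
    obtain ⟨m1, m2⟩ := h.mid k' (by linarith)
    exact Or.inr (Or.inr ⟨h.inj (hp.trans m1.symm) (by linarith), e1, e2⟩)

/-- the start of the next piece is the end of the piece, on closed arcs -/
theorem Part.next_eq {X : Type} (h : Part σ τ p a b) {c : ι → ℝ → X} (hc : ∀ v, c v 1 = c (σ v) 0)
    (k : κ) : c (p (τ k)) (a (τ k)) = c (p k) (b k) := by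
  rcases (h.b_le k).eq_or_lt with h1 | h1
  · obtain ⟨m1, m2⟩ := h.last k h1
    rw [m1, m2, h1, hc]
  · obtain ⟨m1, m2⟩ := h.mid k h1
    rw [m1, m2]

/-- a bound of Lipschitz type on each piece holds on the whole arc -/
theorem Part.chain [Finite κ] (h : Part σ τ p a b) {E : Type} [SeminormedAddCommGroup E]
    (f : ℝ → E) (v : ι) (ε : ℝ)
    (hf : ∀ k, p k = v → ∀ u ∈ Icc (a k) (b k), ∀ u' ∈ Icc (a k) (b k),
      ‖f u' - f u‖ ≤ ε * |u' - u|) :
    ∀ u ∈ Icc (0 : ℝ) 1, ∀ u' ∈ Icc (0 : ℝ) 1, ‖f u' - f u‖ ≤ ε * |u' - u| := by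
  have wf : WellFounded fun k₁ k : κ => a k₁ < a k := by
    have : IsTrans κ fun k₁ k : κ => a k₁ < a k := ⟨fun _ _ _ => lt_trans⟩
    have : Std.Irrefl fun k₁ k : κ => a k₁ < a k := ⟨fun _ => lt_irrefl _⟩
    exact Finite.wellFounded_of_trans_of_irrefl _
  have key : ∀ u, 0 ≤ u → ∀ k, p k = v → ∀ u' ∈ Icc (a k) (b k), u ≤ u' →
      ‖f u' - f u‖ ≤ ε * (u' - u) := by
    intro u hu k
    induction k using wf.induction with
    | _ k ih =>
      intro hk u' hu' hle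
      by_cases h1 : a k ≤ u
      · have := hf k hk u ⟨h1, hle.trans hu'.2⟩ u' hu'
        rwa [abs_of_nonneg (sub_nonneg.2 hle)] at this
      · have h2 : u < a k := not_le.1 h1
        obtain ⟨k₁, rfl⟩ := τ.surjective k
        rcases (h.b_le k₁).eq_or_lt with h3 | h3
        · have := (h.last k₁ h3).2
          linarith
        · obtain ⟨m1, m2⟩ := h.mid k₁ h3
          have l1 := h.lt k₁
          have a1 := ih k₁ (by linarith) (m1.symm.trans hk) (a (τ k₁)) ⟨by linarith, m2.le⟩ h2.le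
          have a2 := hf (τ k₁) hk (a (τ k₁)) ⟨le_rfl, (h.lt _).le⟩ u' hu'
          rw [abs_of_nonneg (sub_nonneg.2 hu'.1)] at a2
          have a3 : ‖f u' - f u‖ ≤ ‖f u' - f (a (τ k₁))‖ + ‖f (a (τ k₁)) - f u‖ :=
            norm_sub_le_norm_sub_add_norm_sub _ _ _
          linarith
  intro u hu u' hu'
  rcases le_total u u' with hle | hle
  · obtain ⟨k, hk, hm⟩ := h.cover_closed v hu'
    rw [abs_of_nonneg (sub_nonneg.2 hle)]
    exact key u hu.1 k hk u' hm hle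
  · obtain ⟨k, hk, hm⟩ := h.cover_closed v hu
    rw [abs_sub_comm, abs_of_nonneg (sub_nonneg.2 hle), norm_sub_rev]
    exact key u' hu'.1 k hk u hm hle

/-- the partition with a given finite set of starting points -/
theorem part_of_set (σ : Equiv.Perm ι) (F : Set (ι × ℝ)) (hF : F.Finite) (h0 : ∀ v, (v, 0) ∈ F)
    (h1 : ∀ z ∈ F, z.2 ∈ Ico (0 : ℝ) 1) :
    ∃ (τ : Equiv.Perm F) (b : F → ℝ), Part σ τ (fun k => k.1.1) (fun k => k.1.2) b := by
  have : Finite F := hF.to_subtype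
  have hex : ∀ k : F, ∃ (k' : F) (β : ℝ), k.1.2 < β ∧ β ≤ 1 ∧
      (β < 1 → k'.1.1 = k.1.1 ∧ k'.1.2 = β) ∧ (β = 1 → k'.1.1 = σ k.1.1 ∧ k'.1.2 = 0) ∧
      ∀ j : F, j.1.1 = k.1.1 → k.1.2 < j.1.2 → β ≤ j.1.2 := by
    intro k
    by_cases hne : {j : F | j.1.1 = k.1.1 ∧ k.1.2 < j.1.2}.Nonempty
    · obtain ⟨k', hk', hm⟩ := Set.exists_min_image _ (fun j : F => j.1.2) (Set.toFinite _) hne
      have l1 := (h1 _ k'.2).2
      exact ⟨k', k'.1.2, hk'.2, l1.le, fun _ => ⟨hk'.1, rfl⟩, fun e => absurd e l1.ne,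
        fun j e1 e2 => hm j ⟨e1, e2⟩⟩
    · exact ⟨⟨(σ k.1.1, 0), h0 _⟩, 1, (h1 _ k.2).2, le_rfl, fun e => absurd e (lt_irrefl _),
        fun _ => ⟨rfl, rfl⟩, fun j e1 e2 => absurd ⟨j, e1, e2⟩ hne⟩
  choose nx b b1 b2 b3 b4 b5 using hex
  have hdisj : ∀ k k' : F, k.1.1 = k'.1.1 → k.1.2 < b k' → k'.1.2 < b k → k = k' := by
    intro k k' e l1 l2
    rcases lt_trichotomy k.1.2 k'.1.2 with l | l | l
    · exact absurd (b5 k k' e.symm l) (not_le.2 l2)
    · exact Subtype.ext (Prod.ext e l)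
    · exact absurd (b5 k' k e l) (not_le.2 l1)
  have hinj : Function.Injective nx := by
    intro k k' e
    have n1 := (h1 _ k.2).1
    have n2 := (h1 _ k'.2).1
    have l1 := b1 k
    have l2 := b1 k'
    rcases (b2 k).eq_or_lt with c1 | c1 <;> rcases (b2 k').eq_or_lt with c2 | c2
    · refine hdisj k k' (σ.injective ?_) (by linarith [(h1 _ k.2).2]) (by linarith [(h1 _ k'.2).2])
      rw [← (b4 k c1).1, ← (b4 k' c2).1, e]
    · have e1 := (b4 k c1).2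
      have e2 := (b3 k' c2).2
      rw [e] at e1
      linarith
    · have e1 := (b3 k c1).2
      have e2 := (b4 k' c2).2
      rw [e] at e1
      linarith
    · have e1 := (b3 k c1).2
      have e2 := (b3 k' c2).2
      rw [e] at e1
      refine hdisj k k' ?_ (by linarith) (by linarith)
      rw [← (b3 k c1).1, ← (b3 k' c2).1, e]
  refine ⟨Equiv.ofBijective nx (Finite.injective_iff_bijective.1 hinj), b,
    fun k => (h1 _ k.2).1, b1, b2, b3, b4, hdisj, fun v u hu => ?_⟩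
  obtain ⟨k, hk, hm⟩ := Set.exists_max_image {j : F | j.1.1 = v ∧ j.1.2 ≤ u} (fun j : F => j.1.2)
    (Set.toFinite _) ⟨⟨(v, 0), h0 v⟩, rfl, hu.1⟩
  refine ⟨k, hk.1, hk.2, ?_⟩
  by_contra hle
  have l1 : b k ≤ u := not_lt.1 hle
  obtain ⟨e1, e2⟩ := b3 k (l1.trans_lt hu.2)
  have l2 : (nx k).1.2 ≤ k.1.2 := hm (nx k) ⟨e1.trans hk.1, e2.trans_le l1⟩
  have l3 := b1 k
  linarith

/-- a fine partition that does not cut the arcs in `S` -/
theorem part_mesh [Finite ι] (σ : Equiv.Perm ι) (S : Set ι) {δ : ℝ} (hδ : 0 < δ) :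
    ∃ (κ : Type) (_ : Finite κ) (τ : Equiv.Perm κ) (p : κ → ι) (a b : κ → ℝ), Part σ τ p a b ∧
      (∀ k, p k ∉ S → b k - a k ≤ δ) ∧ ∀ k, p k ∈ S → a k = 0 ∧ b k = 1 := by
  obtain ⟨n, hn⟩ := exists_nat_one_div_lt hδ
  have hN : (0 : ℝ) < n + 1 := by positivity
  let F : Set (ι × ℝ) := {z | ∃ j : ℕ, j < n + 1 ∧ z.2 = j / (n + 1) ∧ (z.1 ∈ S → j = 0)}
  have hF : F.Finite := by
    refine ((Set.finite_univ (α := ι)).prod
      ((Set.finite_Iio (n + 1)).image fun j : ℕ => (j : ℝ) / (n + 1))).subset ?_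
    rintro z ⟨j, j1, j2, -⟩
    exact ⟨mem_univ _, j, j1, j2.symm⟩
  have h0 : ∀ v, (v, (0 : ℝ)) ∈ F := fun v => ⟨0, Nat.succ_pos n, by simp, fun _ => rfl⟩
  have h1 : ∀ z ∈ F, z.2 ∈ Ico (0 : ℝ) 1 := by
    rintro z ⟨j, j1, j2, -⟩
    rw [j2]
    refine ⟨by positivity, (div_lt_one hN).2 ?_⟩
    exact_mod_cast j1
  obtain ⟨τ, b, h⟩ := part_of_set σ F hF h0 h1
  have hS : ∀ k : F, k.1.1 ∈ S → k.1.2 = 0 := by
    intro k hk
    obtain ⟨j, -, j2, j3⟩ := k.2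
    rw [j2, j3 hk]
    simp
  refine ⟨F, hF.to_subtype, τ, _, _, b, h, fun k hk => ?_, fun k hk => ⟨hS k hk, ?_⟩⟩
  · obtain ⟨j, j1, j2, -⟩ := k.2
    have e : ((j : ℝ) + 1) / (n + 1) = j / (n + 1) + 1 / (n + 1) := add_div _ _ _
    have pos : (0 : ℝ) < 1 / (n + 1) := by positivity
    have key : b k ≤ ((j : ℝ) + 1) / (n + 1) := by
      by_cases hj : j + 1 < n + 1
      · by_contra hlt
        let k' : F := ⟨(k.1.1, ((j : ℝ) + 1) / (n + 1)), j + 1, hj, by push_cast; rfl,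
          fun hs => absurd hs hk⟩
        have l1 : ((j : ℝ) + 1) / (n + 1) < b k' := h.lt k'
        have e1 : k = k' := h.disj k k' rfl (by linarith) (not_le.1 hlt)
        have e2 : k.1.2 = ((j : ℝ) + 1) / (n + 1) := congrArg (fun z : F => z.1.2) e1
        linarith
      · have e1 : j = n := by omega
        rw [e1, div_self hN.ne']
        exact h.b_le k
    change b k - k.1.2 ≤ δ
    linarith
  · by_contra hne
    obtain ⟨m1, m2⟩ := h.mid k (lt_of_le_of_ne (h.b_le k) hne)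
    have e1 : (τ k).1.2 = 0 := hS (τ k) (by rw [show (τ k).1.1 = k.1.1 from m1]; exact hk)
    have e2 : (τ k).1.2 = b k := m2
    have l1 : k.1.2 < b k := h.lt k
    have l2 := hS k hk
    linarith

/-- the uniform partition of one closed arc -/
theorem part_unif (n : ℕ) : Part (1 : Equiv.Perm Unit) (finRotate (n + 1)) (fun _ => ())
    (fun k => ((k : ℕ) : ℝ) / (n + 1)) fun k => (((k : ℕ) : ℝ) + 1) / (n + 1) := by
  have hN : (0 : ℝ) < n + 1 := by positivity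
  refine ⟨fun k => by positivity, fun k => ?_, fun k => ?_, fun k hk => ⟨rfl, ?_⟩,
    fun k hk => ⟨rfl, ?_⟩, fun k k' _ l1 l2 => ?_, fun v u hu => ?_⟩
  · exact div_lt_div_of_pos_right (lt_add_one _) hN
  · rw [div_le_one hN]
    have := k.isLt
    exact_mod_cast this
  · have l1 : (k : ℕ) + 1 < n + 1 := by exact_mod_cast (div_lt_one hN).1 hk
    have e : ((finRotate (n + 1) k : Fin (n + 1)) : ℕ) = k + 1 := by
      rw [finRotate_apply, Fin.val_add_one_of_lt (by rw [Fin.lt_def, Fin.val_last]; omega)]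
    simp only [e]
    push_cast
    rfl
  · have l1 : (k : ℕ) + 1 = n + 1 := by exact_mod_cast (div_eq_one_iff_eq hN.ne').1 hk
    have e : k = Fin.last n := Fin.ext (by rw [Fin.val_last]; omega)
    simp [e]
  · have a1 : (k : ℕ) < k' + 1 := by exact_mod_cast (div_lt_div_iff_of_pos_right hN).1 l1
    have a2 : (k' : ℕ) < k + 1 := by exact_mod_cast (div_lt_div_iff_of_pos_right hN).1 l2
    exact Fin.ext (by omega)
  · have p0 : 0 ≤ u * (n + 1) := mul_nonneg hu.1 hN.le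
    have l1 : ⌊u * (n + 1)⌋₊ < n + 1 := by
      rw [Nat.floor_lt p0]
      push_cast
      nlinarith [hu.2]
    refine ⟨⟨_, l1⟩, rfl, ?_, ?_⟩
    · exact (div_le_iff₀ hN).2 (Nat.floor_le p0)
    · exact (lt_div_iff₀ hN).2 (Nat.lt_floor_add_one _)

open Classical in
/-- reconnecting two uncut arcs -/
theorem Part.swap (h : Part σ τ p a b) {σ' : Equiv.Perm ι} {ka kc : κ} (hne : p ka ≠ p kc)
    (ha : a ka = 0 ∧ b ka = 1) (hc : a kc = 0 ∧ b kc = 1) (h1 : σ' (p ka) = σ (p kc))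
    (h2 : σ' (p kc) = σ (p ka)) (h3 : ∀ g, g ≠ p ka → g ≠ p kc → σ' g = σ g) :
    Part σ' (τ * Equiv.swap ka kc) p a b := by
  refine ⟨h.a_nonneg, h.lt, h.b_le, fun k hk => ?_, fun k hk => ?_, h.disj, h.cover⟩
  · have n1 : k ≠ ka := fun e => by rw [e, ha.2] at hk; exact lt_irrefl _ hk
    have n2 : k ≠ kc := fun e => by rw [e, hc.2] at hk; exact lt_irrefl _ hk
    rw [Equiv.Perm.mul_apply, Equiv.swap_apply_of_ne_of_ne n1 n2]
    exact h.mid k hk
  · rw [Equiv.Perm.mul_apply]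
    by_cases n1 : k = ka
    · rw [n1, Equiv.swap_apply_left, h1]
      exact h.last kc hc.2
    · by_cases n2 : k = kc
      · rw [n2, Equiv.swap_apply_right, h2]
        exact h.last ka ha.2
      · have l1 := h.lt k
        rw [Equiv.swap_apply_of_ne_of_ne n1 n2,
          h3 (p k) (fun e => n1 (h.disj k ka e (by linarith [ha.2]) (by linarith [ha.1])))
            fun e => n2 (h.disj k kc e (by linarith [hc.2]) (by linarith [hc.1]))]
        exact h.last k hk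


end K2

end Pool.Agent.Lib.MP_4d7d0a_gt
end

-- part Pool.Agent.Lib.MP_4d7d0a_gt.K2Flip
section

/-! Part K2: several crossing changes. -/

set_option autoImplicit false

open Set Filter Topology

namespace Pool.Agent.Lib.MP_4d7d0a_gt

namespace K2

namespace FlipAux

/-- the ordered pairs whose sign changes -/
def ch {ι : Type} (D D' : OD ι) : Set (ι × ι) :=
  {p | D.X p.1 p.2 ∧ D.sg p.1 p.2 ∧ ¬ D'.sg p.1 p.2}

theorem cnt_eq {ι : Type} [Finite ι] (D D' : OD ι) (hX : D.X = D'.X)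
    (hs : ∀ a b, D.X a b → D'.sg a b → D.sg a b) :
    cnt D = cnt D' + 2 * ((ch D D').ncard : ℤ) := by
  have h1 : {p : ι × ι | D.X p.1 p.2 ∧ D.sg p.1 p.2} =
      {p : ι × ι | D'.X p.1 p.2 ∧ D'.sg p.1 p.2} ∪ ch D D' := by
    ext p
    have := hs p.1 p.2
    simp only [ch, mem_ofPred_eq, mem_union, ← hX]
    tauto
  have h2 : {p : ι × ι | D'.X p.1 p.2 ∧ ¬ D'.sg p.1 p.2} =
      {p : ι × ι | D.X p.1 p.2 ∧ ¬ D.sg p.1 p.2} ∪ ch D D' := by
    ext p
    have := hs p.1 p.2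
    simp only [ch, mem_ofPred_eq, mem_union, ← hX]
    tauto
  rw [cnt, cnt, h1, h2, ncard_union_eq (disjoint_left.2 fun p h h' => h'.2.2 h.2),
    ncard_union_eq (disjoint_left.2 fun p h h' => h.2 h'.2.1)]
  push_cast
  ring

theorem aux (T : ODTheory) {ι : Type} [Finite ι] (D' : OD ι) (hD' : D'.WF) (n : ℕ) :
    ∀ (D : OD ι) (q : ℤ), D.WF → D.σ = D'.σ → D.X = D'.X → D.t = D'.t →
      (∀ a b, D.X a b → D'.sg a b → D.sg a b) → (ch D D').ncard = n → T.V D q →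
      T.V D' (q - n) := by
  induction n using Nat.strong_induction_on with
  | _ n ih =>
    intro D q hD hσ hX ht hs hn hV
    rcases (ch D D').eq_empty_or_nonempty with h | ⟨⟨e, f⟩, k1, k2, k3⟩
    · rw [h, ncard_empty] at hn
      subst hn
      rw [Nat.cast_zero, sub_zero]
      refine T.iso D D' q hD hD' hσ ⟨fun e f _ => by rw [hX], fun e f _ hx =>
        ⟨fun h1 => by_contra fun h2 => ?_, hs e f hx⟩, fun e f g _ _ _ _ => by rw [ht]⟩ hV
      exact (eq_empty_iff_forall_notMem.1 h (e, f)) ⟨hx, h1, h2⟩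
    · simp only at k1 k2 k3
      have hne : e ≠ f := fun h => hD.2.1 f (h ▸ k1)
      have k4 : D.X f e := hD.1 e f k1
      have k5 : D.sg f e := (hD.2.2.1 e f k1).1 k2
      have k6 : ¬ D'.sg f e := fun h => k3 ((hD'.2.2.1 e f (hX ▸ k1)).2 h)
      let D1 : OD ι := ⟨D.σ, D.X, D.t, fun a b => D.sg a b ∧ OD.Off1 e f a b⟩
      have w1 : D1.WF := ⟨hD.1, hD.2.1, fun a b h => by
        have := hD.2.2.1 a b h
        simp only [D1, OD.Off1]
        tauto, hD.2.2.2⟩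
      have e1 : ch D D' = insert (e, f) (insert (f, e) (ch D1 D')) := by
        ext ⟨a, b⟩
        simp only [ch, D1, OD.Off1, mem_ofPred_eq, mem_insert_iff, Prod.mk.injEq]
        constructor
        · tauto
        · rintro (⟨rfl, rfl⟩ | ⟨rfl, rfl⟩ | h)
          exacts [⟨k1, k2, k3⟩, ⟨k4, k5, k6⟩, ⟨h.1, h.2.1.1, h.2.2⟩]
      have e2 : (ch D1 D').ncard + 2 = n := by
        rw [← hn, e1, ncard_insert_of_notMem, ncard_insert_of_notMem]
        · exact fun h => h.2.1.2.2 ⟨rfl, rfl⟩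
        · rintro (h | h)
          · exact hne (congrArg Prod.fst h)
          · exact h.2.1.2.1 ⟨rfl, rfl⟩
      have h1 := T.flip D D1 e f q hD w1 rfl rfl rfl k1 k2 (fun h => h.2.1 ⟨rfl, rfl⟩)
        (fun a b h _ => ⟨fun h' => ⟨h', h⟩, fun h' => h'.1⟩) hV
      have h2 := ih _ (by omega) D1 (q - 2) w1 hσ hX ht (fun a b h h' => ⟨hs a b h h', by
        constructor
        · rintro ⟨rfl, rfl⟩
          exact k3 h'
        · rintro ⟨rfl, rfl⟩
          exact k6 h'⟩) rfl h1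
      rw [← e2]
      push_cast
      rwa [show q - ((ch D1 D').ncard + 2 : ℤ) = q - 2 - (ch D1 D').ncard by ring]

end FlipAux

theorem flips (T : ODTheory) {ι : Type} [Finite ι] (D D' : OD ι) (hD : D.WF) (hD' : D'.WF)
    (hσ : D.σ = D'.σ) (hX : D.X = D'.X) (ht : D.t = D'.t)
    (hs : ∀ a b, D.X a b → D'.sg a b → D.sg a b) (w w' : ℤ) (hw : 2 * w = cnt D)
    (hw' : 2 * w' = cnt D') (q : ℤ) (hV : T.V D q) : T.V D' (q - (w - w')) := by
  have h1 := FlipAux.cnt_eq D D' hX hs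
  rw [show w - w' = ((FlipAux.ch D D').ncard : ℤ) by omega]
  exact FlipAux.aux T D' hD' _ D q hD hσ hX ht hs rfl hV

end K2

end Pool.Agent.Lib.MP_4d7d0a_gt
end
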