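import Pool.Agent.Lib.MP_4d7d0a_gt.OEMv3L

/-! Third Reidemeister move for cubes, core case A. -/

set_option autoImplicit false
set_option synthInstance.maxSize 2000

open scoped Classical

noncomputable section

namespace Pool.Agent.Lib.MP_4d7d0a_gt.ODA

namespace M3

def uA : A6 := (0, 1, 1, 0, 0, 1)

def qA (w : A6) : Bool := w.1 + w.2.2.2.1 + w.2.2.2.2.1 == 0

def nA : A6 → Bool := sat uA (pb qA (true, false, false))

def kA (w : A6) : T3 → T3 → F2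
  | (x, y, true), (x', y', true) => if x = y' ∧ y = x' then 1 else 0
  | (true, true, false), (true, false, true) => 1
  | (false, true, false), (false, false, true) => 1
  | (x, y, false), (x', y', false) => if x ≠ y ∧ x' ≠ y' ∧ nA w = true then 1 else 0
  | _, _ => 0

theorem certA : Cert uA qA nA kA := by decide +kernel

theorem c0A : ∀ w, qA w = true → ∀ s, Cp (pr w) s → ∀ r,
    ∑ t, kz0 qA kA w t s * md w r t = ∑ s0, md (pr w) s0 s * kz0 qA kA w r s0 := by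
  decide +kernel

theorem c1A : ∀ w, qA w = true → ∀ s, Cp (pr w) s → ∀ r,
    ∑ t, kz1 uA qA kA w t s * md (w + uA) r t = ∑ s0, md (pr w) s0 s * kz1 uA qA kA w r s0 := by
  decide +kernel

theorem vA : ∀ w, qA w = true → ∀ s, Cp (pr w) s → (pr w).1 + (pr w).2.1 = 1 →
    (pr w).2.2.1 + (pr w).2.2.2.1 = 1 → (pr w).2.2.2.2.1 + (pr w).2.2.2.2.2 = 1 →
    pr w = w ∧ (∀ r, kz0 qA kA w r s = if r = s then 1 else 0) ∧
      ((∀ r, kz1 uA qA kA w r s = 0) ∨ (Cp (w + uA) (true, true, false) ∧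
        ∀ r, kz1 uA qA kA w r s = md (w + uA) r (true, true, false))) := by
  decide +kernel

end M3

variable {K C : Type} [AddCommGroup K] [Module F2 K] [FiniteDimensional F2 K]

theorem G3_r3A {a b : Fn K C} {U : Submodule F2 K} {S : Finset C} {x0 u : K} {q : ℤ}
    {A1 B1 A2 B2 A3 B3 : K →ₗ[F2] F2} {z : Bool → Bool → Bool → Ch K C}
    (hu : Nul a b S u) (huU : u ∈ U) (hA1 : A1 u = 0) (hB1 : B1 u = 1) (hA2 : A2 u = 1)
    (hB2 : B2 u = 0) (hQ3 : A3 u = 0) (hP3 : B3 u = 1)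
    (hQ : ∀ x ∈ U, A1 x + B2 x + A3 x = 0)
    (hI : ∀ x ∈ U, ∀ x' ∈ U, om a b S x x' = (A1 x * B1 x' + B1 x * A1 x') +
      (A2 x * B2 x' + B2 x * A2 x') + (A3 x * B3 x' + B3 x * A3 x'))
    (h : G3 a b U S A1 B1 A2 B2 A3 B3 x0 q z) :
    ∃ z', G3 a b U S (A1 + (A2 + B2) + (A3 + B3)) (B1 + (A2 + B2) + (A3 + B3))
      (A2 + (A1 + B1) + (A3 + B3)) (B2 + (A1 + B1) + (A3 + B3))
      (A3 + (A1 + B1) + (A2 + B2)) (B3 + (A1 + B1) + (A2 + B2)) x0 q z' := by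
  have huv : M3.vl A1 B1 A2 B2 A3 B3 u = M3.uA := by
    simp only [M3.vl, M3.uA, hA1, hB1, hA2, hB2, hQ3, hP3]
  have hQ' : ∀ x ∈ U, M3.qA (M3.vl A1 B1 A2 B2 A3 B3 x) = true := fun x hx => by
    simpa [M3.qA, M3.vl] using hQ x hx
  exact ⟨_, M3.G3_of_kernel hu huU M3.uA huv (fun w => M3.qA w = true) hQ' _ _ _
    (fun w t s h => by simp [M3.kz0, M3.pb, h]) (fun w t s h => by simp [M3.kz1, M3.pb, h])
    M3.c0A M3.c1A M3.vA h (M3.lev_of_cert hu huU huv hQ' hI M3.certA h)⟩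

end Pool.Agent.Lib.MP_4d7d0a_gt.ODA
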