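import Pool.Agent.Lib.MP_4d7d0a_gt.OEMv3L
import Pool.Agent.Lib.MP_4d7d0a_gt.OEMv3A
import Pool.Agent.Lib.MP_4d7d0a_gt.OEMv3B
import Pool.Agent.Lib.MP_4d7d0a_gt.TB1

-- part Pool.Agent.Lib.MP_4d7d0a_gt.OEIso
section

/-! Isomorphisms, translations, saddles, the two extreme computations. -/

set_option autoImplicit false

open scoped Classical

noncomputable section

namespace Pool.Agent.Lib.MP_4d7d0a_gt.ODA

variable {K K' C C' : Type} [AddCommGroup K] [Module F2 K] [AddCommGroup K'] [Module F2 K']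
  [FiniteDimensional F2 K] [FiniteDimensional F2 K']

theorem V_mono {a b : Fn K C} {U : Submodule F2 K} {S : Finset C} {x0 : K} {q q' : ℤ}
    (h : V a b U S x0 q) (hq : q' ≤ q) : V a b U S x0 q' := by
  obtain ⟨z, h1, h2, h3⟩ := h
  exact ⟨z, h1, h2, h3.mono (by omega)⟩

theorem V_iso_mp {a b : Fn K C} {a' b' : Fn K' C'} {U : Submodule F2 K} {U' : Submodule F2 K'}
    {S : Finset C} {S' : Finset C'} (φ : K' →ₗ[F2] K) (ψ : K →ₗ[F2] K') (m : C' → C)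
    (m' : C → C') (hφ : ∀ x ∈ U', φ x ∈ U) (hψ : ∀ y ∈ U, ψ y ∈ U')
    (h1 : ∀ x ∈ U', ψ (φ x) = x) (h2 : ∀ y ∈ U, φ (ψ y) = y)
    (hm : ∀ c ∈ S', m c ∈ S ∧ m' (m c) = c) (hm' : ∀ c ∈ S, m' c ∈ S' ∧ m (m' c) = c)
    (hab : ∀ c ∈ S', ∀ x ∈ U', a' c x = a (m c) (φ x) ∧ b' c x = b (m c) (φ x))
    {x0 : K'} (hx : x0 ∈ U') {q : ℤ} (h : V a b U S (φ x0) q) : V a' b' U' S' x0 q := by
  obtain ⟨z, hc, hv, hl⟩ := h
  have inj : ∀ c ∈ S', ∀ d ∈ S', m c = m d → c = d := fun c hc d hd e => by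
    rw [← (hm c hc).2, e, (hm d hd).2]
  have mem : ∀ v ⊆ S', ∀ c ∈ S', m c ∈ v.image m ↔ c ∈ v := fun v hvS c hcS => by
    refine ⟨fun hh => ?_, fun hh => Finset.mem_image_of_mem _ hh⟩
    obtain ⟨d, hd, e⟩ := Finset.mem_image.1 hh
    exact inj d (hvS hd) c hcS e ▸ hd
  have sub : ∀ v ⊆ S', v.image m ⊆ S := fun v hvS c hh => by
    obtain ⟨d, hd, rfl⟩ := Finset.mem_image.1 hh
    exact (hm d (hvS hd)).1
  have w1 : ∀ v ⊆ S', ∀ x ∈ Wv a' b' U' S' v, φ x ∈ Wv a b U S (v.image m) := by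
    intro v hvS x hxW
    refine ⟨hφ x hxW.1, fun c hcS => ?_⟩
    obtain ⟨e1, e2⟩ := hm' c hcS
    have e3 := hab _ e1 x hxW.1
    have e4 := mem v hvS _ e1
    rw [e2] at e3 e4
    exact ⟨fun hh => e3.2 ▸ (hxW.2 _ e1).1 (e4.1 hh),
      fun hh => e3.1 ▸ (hxW.2 _ e1).2 fun h' => hh (e4.2 h')⟩
  have w2 : ∀ v ⊆ S', ∀ y ∈ Wv a b U S (v.image m), ψ y ∈ Wv a' b' U' S' v := by
    intro v hvS y hyW
    refine ⟨hψ y hyW.1, fun c hcS => ?_⟩
    have e3 := hab c hcS _ (hψ y hyW.1)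
    rw [h2 y hyW.1] at e3
    have e4 := mem v hvS c hcS
    exact ⟨fun hh => e3.2.trans ((hyW.2 _ (hm c hcS).1).1 (e4.2 hh)),
      fun hh => e3.1.trans ((hyW.2 _ (hm c hcS).1).2 fun h' => hh (e4.1 h'))⟩
  have hsh : sh a' S' x0 = sh a S (φ x0) := by
    unfold sh
    exact Finset.sum_nbij' m m' (fun c hc => (hm c hc).1) (fun c hc => (hm' c hc).1)
      (fun c hc => (hm c hc).2) (fun c hc => (hm' c hc).2)
      fun c hc => by rw [(hab c hc x0 hx).1]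
  refine ⟨fun v x => z (v.image m) (φ x), fun v hvS x hxW => ?_, fun v hvS x hxW hn => ?_,
    fun v hvS => ?_⟩
  · rw [← hc _ (sub v hvS) _ (w1 v hvS x hxW)]
    unfold dd
    rw [Finset.sum_image fun c hc d hd e => inj c (hvS hc) d (hvS hd) e]
    refine Finset.sum_congr rfl fun c hcv => ?_
    have e : (v.erase c).image m = (v.image m).erase (m c) := by
      ext d
      simp only [Finset.mem_image, Finset.mem_erase]
      constructor
      · rintro ⟨d', ⟨h3, h4⟩, rfl⟩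
        exact ⟨fun e => h3 (inj _ (hvS h4) _ (hvS hcv) e), d', h4, rfl⟩
      · rintro ⟨h3, d', h4, rfl⟩
        exact ⟨d', ⟨fun e => h3 (e ▸ rfl), h4⟩, rfl⟩
    rw [(hab c (hvS hcv) x hxW.1).1, ← e]
  · have hn' : NM a b S (φ x) := fun c hcS => by
      obtain ⟨e1, e2⟩ := hm' c hcS
      have e3 := hab _ e1 x hxW.1
      rw [e2] at e3
      rw [← e3.1, ← e3.2]
      exact hn _ e1
    refine (hv _ (sub v hvS) _ (w1 v hvS x hxW) hn').trans ⟨fun e => ?_, fun e => e ▸ rfl⟩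
    rw [← h1 x hxW.1, e, h1 x0 hx]
  · have h3 := (hl _ (sub v hvS)).comp φ (w1 v hvS) (Submodule.zero_mem _) 0 (by
      have := finrank_le_of_inj ψ (w2 v hvS) fun y hy e => by
        rw [← h2 y hy.1, e, map_zero]
      omega)
    rw [Finset.card_image_of_injOn fun c hc d hd e => inj c (hvS hc) d (hvS hd) e, add_zero,
      ← hsh] at h3
    exact h3.congr fun x _ => by rw [add_zero]

theorem V_iso {a b : Fn K C} {a' b' : Fn K' C'} {U : Submodule F2 K} {U' : Submodule F2 K'}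
    {S : Finset C} {S' : Finset C'} (φ : K' →ₗ[F2] K) (ψ : K →ₗ[F2] K') (m : C' → C)
    (m' : C → C') (hφ : ∀ x ∈ U', φ x ∈ U) (hψ : ∀ y ∈ U, ψ y ∈ U')
    (h1 : ∀ x ∈ U', ψ (φ x) = x) (h2 : ∀ y ∈ U, φ (ψ y) = y)
    (hm : ∀ c ∈ S', m c ∈ S ∧ m' (m c) = c) (hm' : ∀ c ∈ S, m' c ∈ S' ∧ m (m' c) = c)
    (hab : ∀ c ∈ S', ∀ x ∈ U', a' c x = a (m c) (φ x) ∧ b' c x = b (m c) (φ x))
    {x0 : K'} (hx : x0 ∈ U') (q : ℤ) : V a b U S (φ x0) q ↔ V a' b' U' S' x0 q := by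
  refine ⟨V_iso_mp φ ψ m m' hφ hψ h1 h2 hm hm' hab hx, fun h => ?_⟩
  refine V_iso_mp ψ φ m' m hψ hφ h2 h1 hm' hm (fun c hc y hy => ?_) (hφ x0 hx)
    ((h1 x0 hx).symm ▸ h)
  have e := hab _ (hm' c hc).1 _ (hψ y hy)
  rw [(hm' c hc).2, h2 y hy] at e
  exact ⟨e.1.symm, e.2.symm⟩

theorem V_congr {a b a' b' : Fn K C} {U : Submodule F2 K} {S : Finset C} {x0 : K} {q : ℤ}
    (hab : ∀ c ∈ S, ∀ x ∈ U, a' c x = a c x ∧ b' c x = b c x) (hx : x0 ∈ U) :
    V a b U S x0 q ↔ V a' b' U S x0 q := by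
  exact V_iso LinearMap.id LinearMap.id id id (fun _ h => h) (fun _ h => h) (fun _ _ => rfl)
    (fun _ _ => rfl) (fun _ h => ⟨h, rfl⟩) (fun _ h => ⟨h, rfl⟩) hab hx q

theorem V_transl {a b : Fn K C} {U : Submodule F2 K} {S : Finset C} {x0 u : K} {q : ℤ}
    (hu : Nul a b S u) (huU : u ∈ U) (h : V a b U S x0 q) : V a b U S (x0 + u) q := by
  obtain ⟨z, hc, hv, hl⟩ := h
  refine ⟨fun v x => z v (x + u), fun v hvS x hx => ?_, fun v hvS x hx hn => ?_,
    fun v hvS => ?_⟩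
  · rw [dd_shift' hvS hu]
    exact hc v hvS _ (Wv.shift' hx hu (U.add_mem hx.1 huU))
  · refine (hv v hvS _ (Wv.shift' hx hu (U.add_mem hx.1 huU)) (hn.shift' hu)).trans
      ⟨fun e => ?_, fun e => ?_⟩
    · rw [← e, add_assoc, k_add_self, add_zero]
    · rw [e, add_assoc, k_add_self, add_zero]
  · have hW : u ∈ Wv a b U S v := ⟨huU, fun c hc => ⟨fun _ => (hu c hc).2, fun _ => (hu c hc).1⟩⟩
    have h3 := (hl v hvS).comp (W' := Wv a b U S v) LinearMap.id (fun _ h => h) hW 0 (by omega)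
    rw [add_zero] at h3
    rw [sh_shift' hu]
    exact h3

theorem V_saddle {a b : Fn K C} {U U' : Submodule F2 K} {S : Finset C} {x0 : K} {q : ℤ}
    (l : K →ₗ[F2] F2) (e : ∀ x, l x = 0 → (x ∈ U ↔ x ∈ U'))
    (par : ∀ x ∈ U, ∀ x' ∈ U', om a b S x x' = l x * l x') (hx : l x0 = 0)
    (h : V a b U S x0 q) : V a b U' S x0 (q - 1) := by
  obtain ⟨z, hc, hv, hl⟩ := h
  have h11 : (1 : F2) + 1 = 0 := f2_add_self 1
  refine ⟨fun v x => (1 + l x) * z v x, fun v hvS x hxW => ?_, fun v hvS x hxW hn => ?_,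
    (hl.saddle l e par).mono (by omega)⟩
  · rw [dd_mul fun x => 1 + l x]
    rcases f2_cases (l x) with h0 | h0
    · rw [hc v hvS x (Wv.of_mem hxW ((e x h0).2 hxW.1)), mul_zero]
    · rw [h0, h11, zero_mul]
  · rcases f2_cases (l x) with h0 | h0
    · simp only [h0, add_zero, one_mul]
      exact hv v hvS x (Wv.of_mem hxW ((e x h0).2 hxW.1)) hn
    · simp only [h0, h11, zero_mul]
      refine ⟨fun h => absurd h (by decide), fun h => ?_⟩
      rw [h, hx] at h0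
      exact h0

theorem V_top {a b : Fn K C} {U : Submodule F2 K} {S : Finset C} {x0 : K} (hx : x0 ∈ U)
    (hn : NM a b S x0) (n : ℕ)
    (hd : ∀ v ⊆ S, x0 ∈ Wv a b U S v → Module.finrank F2 (Wv a b U S v) ≤ n) :
    V a b U S x0 ((∑ c ∈ S, if a c x0 = 0 then (1 : ℤ) else -1) - n) := by
  refine ⟨fun _ x => if x = x0 then 1 else 0, fun v hvS x hxW => ?_, fun v _ x _ _ => ?_,
    fun v hvS => ?_⟩
  · by_cases e : x = x0
    · exact dd_nm hvS hxW (e ▸ hn)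
    · simp [dd, e]
  · by_cases e : x = x0 <;> simp [e]
  · by_cases hW : x0 ∈ Wv a b U S v
    · refine (lev_top _ _).mono ?_
      have h1 := hd v hvS hW
      have h2 : (∑ c ∈ S, if a c x0 = 0 then (1 : ℤ) else -1) = sh a S x0 + v.card := by
        have h3 : (v.card : ℤ) = ∑ c ∈ S, if c ∈ v then (1 : ℤ) else 0 := by
          rw [Finset.sum_ite_mem, Finset.inter_eq_right.2 hvS]
          simp
        rw [h3, sh, ← Finset.sum_add_distrib]
        refine Finset.sum_congr rfl fun c hc => ?_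
        by_cases hcv : c ∈ v
        · have h4 := hn c hc
          rw [(hW.2 c hc).1 hcv, add_zero] at h4
          simp [wt, h4, hcv]
        · simp [wt, (hW.2 c hc).2 hcv, hcv]
      omega
    · exact (Lev.zero _ _).congr fun x hxW => if_neg fun e : x = x0 => hW (e ▸ hxW)

theorem V_empty {a b : Fn K C} {U : Submodule F2 K} {S : Finset C} {x0 : K} {q : ℤ}
    (hS : ∀ c, c ∉ S) (hx : x0 ∈ U) (h : V a b U S x0 q) : q ≤ -(Module.finrank F2 U : ℤ) := by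
  obtain ⟨z, -, hv, hl⟩ := h
  obtain rfl : S = ∅ := Finset.eq_empty_of_forall_notMem hS
  have hW : Wv a b U ∅ ∅ = U := by
    ext x
    simp [mem_Wv]
  have h1 := hl ∅ (Finset.empty_subset _)
  have h2 := hv ∅ (Finset.empty_subset _)
  rw [hW] at h1 h2
  have hn : ∀ x, NM a b ∅ x := fun x c hc => absurd hc (hS c)
  have h3 := h1.le_of_delta hx ((h2 x0 hx (hn _)).2 rfl) fun x hxU e =>
    (f2_cases _).resolve_right fun h => e ((h2 x hxU (hn _)).1 h)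
  simpa [sh] using h3

end Pool.Agent.Lib.MP_4d7d0a_gt.ODA
end
end

-- part Pool.Agent.Lib.MP_4d7d0a_gt.OEMv3
section

/-! Third Reidemeister move for cubes. -/

set_option autoImplicit false

open scoped Classical

noncomputable section

namespace Pool.Agent.Lib.MP_4d7d0a_gt.ODA

variable {K C : Type} [AddCommGroup K] [Module F2 K] [FiniteDimensional F2 K]

omit [FiniteDimensional F2 K] in
theorem oemv3_wv {a b a' b' : Fn K C} {S : Finset C} (e : ∀ c ∈ S, a' c = a c ∧ b' c = b c)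
    (U : Submodule F2 K) (v : Finset C) : Wv a' b' U S v = Wv a b U S v := by
  ext x
  rw [mem_Wv, mem_Wv]
  refine and_congr_right fun _ => forall_congr' fun c => forall_congr' fun hc => ?_
  rw [(e c hc).1, (e c hc).2]

omit [FiniteDimensional F2 K] in
theorem oemv3_dd {a b a' b' : Fn K C} {S v : Finset C} (e : ∀ c ∈ S, a' c = a c ∧ b' c = b c)
    (hv : v ⊆ S) (z : Ch K C) (x : K) : dd a' z v x = dd a z v x := by
  unfold dd
  exact Finset.sum_congr rfl fun c hc => by rw [(e c (hv hc)).1]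

omit [FiniteDimensional F2 K] in
theorem oemv3_G3 {a b a' b' : Fn K C} {U : Submodule F2 K} {S : Finset C}
    {A1 B1 A2 B2 A3 B3 : K →ₗ[F2] F2} {x0 : K} {q : ℤ} {z : Bool → Bool → Bool → Ch K C}
    (e : ∀ c ∈ S, a' c = a c ∧ b' c = b c) (h : G3 a b U S A1 B1 A2 B2 A3 B3 x0 q z) :
    G3 a' b' U S A1 B1 A2 B2 A3 B3 x0 q z := by
  refine ⟨fun t1 t2 t3 v hv x hx => ?_, fun t1 t2 t3 v hv x hx k1 k2 k3 hn => ?_,
    fun t1 t2 t3 v hv => ?_⟩
  · rw [oemv3_wv e] at hx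
    rw [oemv3_dd e hv]
    exact h.cyc t1 t2 t3 v hv x hx
  · rw [oemv3_wv e] at hx
    refine h.val t1 t2 t3 v hv x hx k1 k2 k3 fun c hc => ?_
    rw [← (e c hc).1, ← (e c hc).2]
    exact hn c hc
  · rw [oemv3_wv e]
    exact h.lev t1 t2 t3 v hv

theorem oemv3_f2a (s t : F2) (h : s + t = 0) : s = t := by
  revert s t; decide

theorem oemv3_f2b (s : F2) : s + 1 + 1 = s := by
  revert s; decide

theorem oemv3_core {a b a' b' : Fn K C} {U : Submodule F2 K} {S : Finset C} {x0 u : K} {q : ℤ}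
    {c1 c2 c3 : C} (h1 : c1 ∈ S) (h2 : c2 ∈ S) (h3 : c3 ∈ S) (h12 : c1 ≠ c2) (h13 : c1 ≠ c3)
    (h23 : c2 ≠ c3) (huU : u ∈ U)
    (hu : ∀ c ∈ S, c ≠ c1 → c ≠ c2 → c ≠ c3 → a c u = 0 ∧ b c u = 0)
    (hab : ∀ c ∈ S, c ≠ c1 → c ≠ c2 → c ≠ c3 → ∀ x ∈ U, a' c x = a c x ∧ b' c x = b c x)
    (j1 j2 j3 Q1 Q2 Q3 : K →ₗ[F2] F2) (T3 : Prop)
    (hj : ∀ x ∈ U, a c1 x + b c1 x = j1 x ∧ a c2 x + b c2 x = j2 x ∧ a c3 x + b c3 x = j3 x)
    (hju : j1 u = 1 ∧ j2 u = 1 ∧ j3 u = 1) (hQu : Q1 u = 0 ∧ Q2 u = 0 ∧ Q3 u = 0)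
    (hQ : ∀ x ∈ U, Q1 x + Q2 x + Q3 x = 0)
    (hT1 : ∀ x ∈ U, a c1 x = Q1 x) (hT2 : ∀ x ∈ U, b c2 x = Q2 x)
    (hT3 : ∀ x ∈ U, (T3 → a c3 x = Q3 x) ∧ (¬ T3 → b c3 x = Q3 x))
    (h1' : ∀ x ∈ U, a' c1 x = a c1 x + j2 x + j3 x ∧ b' c1 x = b c1 x + j2 x + j3 x)
    (h2' : ∀ x ∈ U, a' c2 x = a c2 x + j1 x + j3 x ∧ b' c2 x = b c2 x + j1 x + j3 x)
    (h3' : ∀ x ∈ U, a' c3 x = a c3 x + j1 x + j2 x ∧ b' c3 x = b c3 x + j1 x + j2 x)
    (hI : ∀ x ∈ U, ∀ x' ∈ U, om a b S x x' = 0) (hx : x0 ∈ U)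
    (hx1 : j1 x0 = 1 ∧ j2 x0 = 1 ∧ j3 x0 = 1) (h : V a b U S x0 q) : V a' b' U S x0 q := by
  obtain ⟨S0, hS0⟩ : ∃ S0 : Finset C, ∀ c, c ∈ S0 ↔ c ∈ S ∧ c ≠ c1 ∧ c ≠ c2 ∧ c ≠ c3 :=
    ⟨S.filter fun c => c ≠ c1 ∧ c ≠ c2 ∧ c ≠ c3, fun c => Finset.mem_filter⟩
  have n1 : c1 ∉ S0 := fun k => ((hS0 _).1 k).2.1 rfl
  have n2 : c2 ∉ S0 := fun k => ((hS0 _).1 k).2.2.1 rfl
  have n3 : c3 ∉ S0 := fun k => ((hS0 _).1 k).2.2.2 rfl
  have hS : ∀ c, c ∈ S ↔ c = c1 ∨ c = c2 ∨ c = c3 ∨ c ∈ S0 := by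
    intro c
    constructor
    · intro hc
      by_cases e1 : c = c1
      · exact Or.inl e1
      by_cases e2 : c = c2
      · exact Or.inr (Or.inl e2)
      by_cases e3 : c = c3
      · exact Or.inr (Or.inr (Or.inl e3))
      exact Or.inr (Or.inr (Or.inr ((hS0 c).2 ⟨hc, e1, e2, e3⟩)))
    · rintro (e | e | e | e)
      · rw [e]; exact h1
      · rw [e]; exact h2
      · rw [e]; exact h3
      · exact ((hS0 c).1 e).1
  have hnul : Nul a b S0 u := fun c hc =>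
    hu c ((hS0 c).1 hc).1 ((hS0 c).1 hc).2.1 ((hS0 c).1 hc).2.2.1 ((hS0 c).1 hc).2.2.2
  have hA1 : a c1 u = 0 := (hT1 u huU).trans hQu.1
  have hB1 : b c1 u = 1 := by
    have := (hj u huU).1
    rw [hA1, zero_add, hju.1] at this
    exact this
  have hB2 : b c2 u = 0 := (hT2 u huU).trans hQu.2.1
  have hA2 : a c2 u = 1 := by
    have := (hj u huU).2.1
    rw [hB2, add_zero, hju.2.1] at this
    exact this
  have hI0 : ∀ x ∈ U, ∀ x' ∈ U, om a b S0 x x' = (a c1 x * b c1 x' + b c1 x * a c1 x') +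
      (a c2 x * b c2 x' + b c2 x * a c2 x') + (a c3 x * b c3 x' + b c3 x * a c3 x') := by
    intro x hx x' hx'
    have e0 := hI x hx x' hx'
    have m1 : c1 ∉ insert c2 (insert c3 S0) := by
      simp only [Finset.mem_insert, not_or]
      exact ⟨h12, h13, n1⟩
    have m2 : c2 ∉ insert c3 S0 := by
      simp only [Finset.mem_insert, not_or]
      exact ⟨h23, n2⟩
    rw [om_insert m1 (fun c => by rw [hS c, Finset.mem_insert, Finset.mem_insert]),
      om_insert m2 (fun c => Finset.mem_insert), om_insert n3 (fun c => Finset.mem_insert),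
      ← add_assoc, ← add_assoc] at e0
    exact (oemv3_f2a _ _ e0).symm
  obtain ⟨z, hz⟩ := (V_split3 n1 n2 n3 h12 h13 h23 hS).1 h
  have hz' : ∃ z', G3 a b U S0 (a c1 + (a c2 + b c2) + (a c3 + b c3))
      (b c1 + (a c2 + b c2) + (a c3 + b c3)) (a c2 + (a c1 + b c1) + (a c3 + b c3))
      (b c2 + (a c1 + b c1) + (a c3 + b c3)) (a c3 + (a c1 + b c1) + (a c2 + b c2))
      (b c3 + (a c1 + b c1) + (a c2 + b c2)) x0
      (q - sh a S0 x0 - wt (a c1 x0) - wt (a c2 x0) - wt (a c3 x0)) z' := by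
    by_cases t3 : T3
    · have hA3 : a c3 u = 0 := ((hT3 u huU).1 t3).trans hQu.2.2
      have hB3 : b c3 u = 1 := by
        have := (hj u huU).2.2
        rw [hA3, zero_add, hju.2.2] at this
        exact this
      refine G3_r3A hnul huU hA1 hB1 hA2 hB2 hA3 hB3 (fun x hx => ?_) hI0 hz
      rw [hT1 x hx, hT2 x hx, (hT3 x hx).1 t3]
      exact hQ x hx
    · have hB3 : b c3 u = 0 := ((hT3 u huU).2 t3).trans hQu.2.2
      have hA3 : a c3 u = 1 := by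
        have := (hj u huU).2.2
        rw [hB3, add_zero, hju.2.2] at this
        exact this
      refine G3_r3B hnul huU hA1 hB1 hA2 hB2 hB3 hA3 (fun x hx => ?_) hI0 hz
      rw [hT1 x hx, hT2 x hx, (hT3 x hx).2 t3]
      exact hQ x hx
  obtain ⟨z', hz'⟩ := hz'
  obtain ⟨d, d1, d2, d3, d0⟩ : ∃ d : Fn K C → Fn K C,
      (∀ f, d f c1 = f c1 + (a c2 + b c2) + (a c3 + b c3)) ∧
      (∀ f, d f c2 = f c2 + (a c1 + b c1) + (a c3 + b c3)) ∧
      (∀ f, d f c3 = f c3 + (a c1 + b c1) + (a c2 + b c2)) ∧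
      ∀ f, ∀ c, c ≠ c1 → c ≠ c2 → c ≠ c3 → d f c = f c := by
    refine ⟨fun f c => if c = c1 then f c1 + (a c2 + b c2) + (a c3 + b c3) else
      if c = c2 then f c2 + (a c1 + b c1) + (a c3 + b c3) else
      if c = c3 then f c3 + (a c1 + b c1) + (a c2 + b c2) else f c, fun f => ?_, fun f => ?_,
      fun f => ?_, fun f c e1 e2 e3 => ?_⟩
    · exact if_pos rfl
    · exact (if_neg h12.symm).trans (if_pos rfl)
    · exact (if_neg h13.symm).trans ((if_neg h23.symm).trans (if_pos rfl))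
    · exact (if_neg e1).trans ((if_neg e2).trans (if_neg e3))
  have e0 : ∀ c ∈ S0, d a c = a c ∧ d b c = b c := fun c hc =>
    ⟨d0 a c ((hS0 c).1 hc).2.1 ((hS0 c).1 hc).2.2.1 ((hS0 c).1 hc).2.2.2,
      d0 b c ((hS0 c).1 hc).2.1 ((hS0 c).1 hc).2.2.1 ((hS0 c).1 hc).2.2.2⟩
  have v1 : ∀ f : Fn K C, ∀ x ∈ U, d f c1 x = f c1 x + j2 x + j3 x := fun f x hx => by
    rw [d1, ← (hj x hx).2.1, ← (hj x hx).2.2]
    rfl
  have v2 : ∀ f : Fn K C, ∀ x ∈ U, d f c2 x = f c2 x + j1 x + j3 x := fun f x hx => by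
    rw [d2, ← (hj x hx).1, ← (hj x hx).2.2]
    rfl
  have v3 : ∀ f : Fn K C, ∀ x ∈ U, d f c3 x = f c3 x + j1 x + j2 x := fun f x hx => by
    rw [d3, ← (hj x hx).1, ← (hj x hx).2.1]
    rfl
  have hsh : sh (d a) S0 x0 = sh a S0 x0 := by
    unfold sh
    exact Finset.sum_congr rfl fun c hc => by rw [(e0 c hc).1]
  have w1 : d a c1 x0 = a c1 x0 := by rw [v1 a x0 hx, hx1.2.1, hx1.2.2, oemv3_f2b]
  have w2 : d a c2 x0 = a c2 x0 := by rw [v2 a x0 hx, hx1.1, hx1.2.2, oemv3_f2b]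
  have w3 : d a c3 x0 = a c3 x0 := by rw [v3 a x0 hx, hx1.1, hx1.2.1, oemv3_f2b]
  have hV : V (d a) (d b) U S x0 q := by
    refine (V_split3 n1 n2 n3 h12 h13 h23 hS).2 ⟨z', ?_⟩
    rw [hsh, w1, w2, w3, d1, d1, d2, d2, d3, d3]
    exact oemv3_G3 e0 hz'
  refine (V_congr (fun c hc x hxU => ?_) hx).1 hV
  by_cases e1 : c = c1
  · rw [e1, v1 a x hxU, v1 b x hxU]
    exact h1' x hxU
  by_cases e2 : c = c2
  · rw [e2, v2 a x hxU, v2 b x hxU]
    exact h2' x hxU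
  by_cases e3 : c = c3
  · rw [e3, v3 a x hxU, v3 b x hxU]
    exact h3' x hxU
  rw [d0 a c e1 e2 e3, d0 b c e1 e2 e3]
  exact hab c hc e1 e2 e3 x hxU

theorem V_r3 {a b a' b' : Fn K C} {U : Submodule F2 K} {S : Finset C} {x0 u : K} {q : ℤ}
    {c1 c2 c3 : C} (h1 : c1 ∈ S) (h2 : c2 ∈ S) (h3 : c3 ∈ S) (h12 : c1 ≠ c2) (h13 : c1 ≠ c3)
    (h23 : c2 ≠ c3) (huU : u ∈ U)
    (hu : ∀ c ∈ S, c ≠ c1 → c ≠ c2 → c ≠ c3 → a c u = 0 ∧ b c u = 0)
    (hab : ∀ c ∈ S, c ≠ c1 → c ≠ c2 → c ≠ c3 → ∀ x ∈ U, a' c x = a c x ∧ b' c x = b c x)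
    (j1 j2 j3 Q1 Q2 Q3 : K →ₗ[F2] F2) (T1 T2 T3 : Prop)
    (hj : ∀ x ∈ U, a c1 x + b c1 x = j1 x ∧ a c2 x + b c2 x = j2 x ∧ a c3 x + b c3 x = j3 x)
    (hju : j1 u = 1 ∧ j2 u = 1 ∧ j3 u = 1) (hQu : Q1 u = 0 ∧ Q2 u = 0 ∧ Q3 u = 0)
    (hQ : ∀ x ∈ U, Q1 x + Q2 x + Q3 x = 0)
    (hT1 : ∀ x ∈ U, (T1 → a c1 x = Q1 x) ∧ (¬ T1 → b c1 x = Q1 x))
    (hT2 : ∀ x ∈ U, (T2 → a c2 x = Q2 x) ∧ (¬ T2 → b c2 x = Q2 x))
    (hT3 : ∀ x ∈ U, (T3 → a c3 x = Q3 x) ∧ (¬ T3 → b c3 x = Q3 x))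
    (hT : ¬ ((T1 ↔ T2) ∧ (T2 ↔ T3)))
    (h1' : ∀ x ∈ U, a' c1 x = a c1 x + j2 x + j3 x ∧ b' c1 x = b c1 x + j2 x + j3 x)
    (h2' : ∀ x ∈ U, a' c2 x = a c2 x + j1 x + j3 x ∧ b' c2 x = b c2 x + j1 x + j3 x)
    (h3' : ∀ x ∈ U, a' c3 x = a c3 x + j1 x + j2 x ∧ b' c3 x = b c3 x + j1 x + j2 x)
    (hI : ∀ x ∈ U, ∀ x' ∈ U, om a b S x x' = 0) (hx : x0 ∈ U)
    (hx1 : j1 x0 = 1 ∧ j2 x0 = 1 ∧ j3 x0 = 1) (h : V a b U S x0 q) : V a' b' U S x0 q := by
  have sw : ∀ {c : C} {j j' : K →ₗ[F2] F2},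
      (∀ x ∈ U, a' c x = a c x + j x + j' x ∧ b' c x = b c x + j x + j' x) →
      ∀ x ∈ U, a' c x = a c x + j' x + j x ∧ b' c x = b c x + j' x + j x := by
    intro c j j' k x hxU
    rw [add_right_comm (a c x), add_right_comm (b c x)]
    exact k x hxU
  by_cases t1 : T1
  · by_cases t2 : T2
    · have t3 : ¬ T3 := fun t3 => hT ⟨iff_of_true t1 t2, iff_of_true t2 t3⟩
      exact oemv3_core h1 h3 h2 h13 h12 h23.symm huU (fun c hc e1 e3 e2 => hu c hc e1 e2 e3)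
        (fun c hc e1 e3 e2 => hab c hc e1 e2 e3) j1 j3 j2 Q1 Q3 Q2 T2
        (fun x k => ⟨(hj x k).1, (hj x k).2.2, (hj x k).2.1⟩) ⟨hju.1, hju.2.2, hju.2.1⟩
        ⟨hQu.1, hQu.2.2, hQu.2.1⟩ (fun x k => by rw [add_right_comm]; exact hQ x k)
        (fun x k => (hT1 x k).1 t1) (fun x k => (hT3 x k).2 t3) hT2 (sw h1') h3' h2' hI hx
        ⟨hx1.1, hx1.2.2, hx1.2.1⟩ h
    · exact oemv3_core h1 h2 h3 h12 h13 h23 huU hu hab j1 j2 j3 Q1 Q2 Q3 T3 hj hju hQu hQ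
        (fun x k => (hT1 x k).1 t1) (fun x k => (hT2 x k).2 t2) hT3 h1' h2' h3' hI hx hx1 h
  · by_cases t2 : T2
    · exact oemv3_core h2 h1 h3 h12.symm h23 h13 huU (fun c hc e2 e1 e3 => hu c hc e1 e2 e3)
        (fun c hc e2 e1 e3 => hab c hc e1 e2 e3) j2 j1 j3 Q2 Q1 Q3 T3
        (fun x k => ⟨(hj x k).2.1, (hj x k).1, (hj x k).2.2⟩) ⟨hju.2.1, hju.1, hju.2.2⟩
        ⟨hQu.2.1, hQu.1, hQu.2.2⟩ (fun x k => by rw [add_comm (Q2 x)]; exact hQ x k)
        (fun x k => (hT2 x k).1 t2) (fun x k => (hT1 x k).2 t1) hT3 h2' h1' (sw h3') hI hx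
        ⟨hx1.2.1, hx1.1, hx1.2.2⟩ h
    · have t3 : T3 := by
        by_contra t3
        exact hT ⟨iff_of_false t1 t2, iff_of_false t2 t3⟩
      exact oemv3_core h3 h1 h2 h13.symm h23.symm h12 huU (fun c hc e3 e1 e2 => hu c hc e1 e2 e3)
        (fun c hc e3 e1 e2 => hab c hc e1 e2 e3) j3 j1 j2 Q3 Q1 Q2 T2
        (fun x k => ⟨(hj x k).2.2, (hj x k).1, (hj x k).2.1⟩) ⟨hju.2.2, hju.1, hju.2.1⟩
        ⟨hQu.2.2, hQu.1, hQu.2.1⟩
        (fun x k => by rw [add_assoc, add_comm (Q3 x)]; exact hQ x k)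
        (fun x k => (hT3 x k).1 t3) (fun x k => (hT1 x k).2 t1) hT2 h3' (sw h1') (sw h2') hI hx
        ⟨hx1.2.2, hx1.1, hx1.2.1⟩ h

end Pool.Agent.Lib.MP_4d7d0a_gt.ODA
end
end

-- part Pool.Agent.Lib.MP_4d7d0a_gt.OEDef
section

/-! The cube of an ordered diagram. A colouring is given by the colours of the starts of the
edges and the jumps of the colour at the crossings. -/

set_option autoImplicit false

open scoped Classical

noncomputable section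

namespace Pool.Agent.Lib.MP_4d7d0a_gt.ODA

/-- the finite set defined by a predicate -/
def fs {α : Type} [Finite α] (P : α → Prop) : Finset α := (Set.toFinite {f | P f}).toFinset

@[simp] theorem mem_fs {α : Type} [Finite α] {P : α → Prop} {f : α} : f ∈ fs P ↔ P f := by
  simp [fs]

theorem card_fs {α : Type} [Finite α] (P : α → Prop) : (fs P).card = {f | P f}.ncard := by
  rw [fs, Set.ncard_eq_toFinset_card _ (Set.toFinite _)]

/-- start colours and jumps -/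
abbrev KK (ι : Type) : Type := (ι → F2) × (Sym2 ι → F2)

variable {ι : Type} [Finite ι]

/-- the start colour of `e` -/
def st (e : ι) : KK ι →ₗ[F2] F2 := (LinearMap.proj e).comp (LinearMap.fst F2 _ _)

/-- the jump at `c` -/
def jj (c : Sym2 ι) : KK ι →ₗ[F2] F2 := (LinearMap.proj c).comp (LinearMap.snd F2 _ _)

omit [Finite ι] in
@[simp] theorem st_apply (e : ι) (x : KK ι) : st e x = x.1 e := rfl

omit [Finite ι] in
@[simp] theorem jj_apply (c : Sym2 ι) (x : KK ι) : jj c x = x.2 c := rfl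

/-- the colour on `e` after the crossings with the edges satisfying `P` -/
def col (e : ι) (P : ι → Prop) : KK ι →ₗ[F2] F2 := st e + ∑ f ∈ fs P, jj s(e, f)

theorem col_apply (e : ι) (P : ι → Prop) (x : KK ι) :
    col e P x = x.1 e + ∑ f ∈ fs P, x.2 s(e, f) := by
  simp [col]

/-- the colour on `e` just before the crossing with `g` -/
def inc (D : OD ι) (e g : ι) : KK ι →ₗ[F2] F2 := col e fun f => D.X e f ∧ D.t e f < D.t e g

/-- the colour at the end of `e` -/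
def en (D : OD ι) (e : ι) : KK ι →ₗ[F2] F2 := col e (D.X e)

/-- the sum of the two incoming colours -/
def del (D : OD ι) : Sym2 ι → KK ι →ₗ[F2] F2 :=
  Sym2.lift ⟨fun e f => inc D e f + inc D f e, fun _ _ => add_comm _ _⟩

theorem del_apply (D : OD ι) (e f : ι) (x : KK ι) :
    del D s(e, f) x = inc D e f x + inc D f e x := rfl

/-- positive crossings -/
def pos (D : OD ι) (c : Sym2 ι) : Prop := ∃ e f, c = s(e, f) ∧ D.X e f ∧ D.sg e f

/-- the 0-resolution -/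
def aa (D : OD ι) : Fn (KK ι) (Sym2 ι) := fun c => if pos D c then del D c + jj c else del D c

/-- the 1-resolution -/
def bb (D : OD ι) : Fn (KK ι) (Sym2 ι) := fun c => if pos D c then del D c else del D c + jj c

/-- the crossings -/
def SS (D : OD ι) : Finset (Sym2 ι) := fs fun c => ∃ e f, c = s(e, f) ∧ D.X e f

/-- the colourings -/
def BB (D : OD ι) : Submodule F2 (KK ι) where
  carrier := {x | (∀ c, c ∉ SS D → x.2 c = 0) ∧ ∀ e, x.1 (D.σ e) = en D e x}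
  add_mem' := fun {x y} hx hy => ⟨fun c hc => by simp [hx.1 c hc, hy.1 c hc],
    fun e => by simp [hx.2 e, hy.2 e]⟩
  zero_mem' := ⟨fun _ _ => rfl, fun e => by simp⟩
  smul_mem' := fun t {x} hx => ⟨fun c hc => by simp [hx.1 c hc], fun e => by simp [hx.2 e]⟩

theorem mem_BB {D : OD ι} {x : KK ι} :
    x ∈ BB D ↔ (∀ c, c ∉ SS D → x.2 c = 0) ∧ ∀ e, x.1 (D.σ e) = en D e x := Iff.rfl

/-- the colouring is adapted to the orientation -/
def Ori (D : OD ι) (x : KK ι) : Prop :=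
  x ∈ BB D ∧ ∀ e f, D.X e f → x.2 s(e, f) = 1 ∧ inc D e f x + inc D f e x = 1

/-- the invariant -/
def VV (D : OD ι) (q : ℤ) : Prop := ∃ x, Ori D x ∧ V (aa D) (bb D) (BB D) (SS D) x q

variable {D D' : OD ι} {e f g : ι} {x y : KK ι}

theorem mem_SS {c : Sym2 ι} : c ∈ SS D ↔ ∃ e f, c = s(e, f) ∧ D.X e f := mem_fs

theorem mk_mem_SS (h : D.WF) : s(e, f) ∈ SS D ↔ D.X e f := by
  rw [mem_SS]
  refine ⟨?_, fun hX => ⟨e, f, rfl, hX⟩⟩
  rintro ⟨e', f', he, hX⟩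
  rcases Sym2.eq_iff.1 he with ⟨rfl, rfl⟩ | ⟨rfl, rfl⟩
  · exact hX
  · exact h.1 _ _ hX

theorem pos_iff (h : D.WF) (hX : D.X e f) : pos D s(e, f) ↔ D.sg e f := by
  refine ⟨?_, fun hs => ⟨e, f, rfl, hX, hs⟩⟩
  rintro ⟨e', f', he, hX', hs⟩
  rcases Sym2.eq_iff.1 he with ⟨rfl, rfl⟩ | ⟨rfl, rfl⟩
  · exact hs
  · exact (h.2.2.1 _ _ hX').1 hs

theorem aa_pos (h : D.WF) (hX : D.X e f) (hs : D.sg e f) (x : KK ι) :
    aa D s(e, f) x = inc D e f x + inc D f e x + x.2 s(e, f) ∧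
      bb D s(e, f) x = inc D e f x + inc D f e x := by
  have hp := (pos_iff h hX).2 hs
  simp only [aa, bb, if_pos hp, LinearMap.add_apply, del_apply, jj_apply, and_self]

theorem aa_neg (h : D.WF) (hX : D.X e f) (hs : ¬ D.sg e f) (x : KK ι) :
    aa D s(e, f) x = inc D e f x + inc D f e x ∧
      bb D s(e, f) x = inc D e f x + inc D f e x + x.2 s(e, f) := by
  have hp : ¬ pos D s(e, f) := fun hp => hs ((pos_iff h hX).1 hp)
  simp only [aa, bb, if_neg hp, LinearMap.add_apply, del_apply, jj_apply, and_self]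

theorem aa_add_bb (D : OD ι) (c : Sym2 ι) (x : KK ι) : aa D c x + bb D c x = x.2 c := by
  by_cases hp : pos D c
  · simp only [aa, bb, if_pos hp, LinearMap.add_apply, jj_apply]
    rw [add_right_comm, f2_add_self, zero_add]
  · simp only [aa, bb, if_neg hp, LinearMap.add_apply, jj_apply]
    rw [← add_assoc, f2_add_self, zero_add]

/-- comparison of the resolutions of two diagrams at one crossing -/
theorem ab_eq {ι' : Type} [Finite ι'] {D' : OD ι'} {e' f' : ι'} {x' : KK ι'} (h : D.WF)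
    (h' : D'.WF) (hX : D.X e f) (hX' : D'.X e' f') (hs : D.sg e f ↔ D'.sg e' f') (t : F2)
    (hi : inc D' e' f' x' + inc D' f' e' x' = inc D e f x + inc D f e x + t)
    (hj : x'.2 s(e', f') = x.2 s(e, f)) :
    aa D' s(e', f') x' = aa D s(e, f) x + t ∧ bb D' s(e', f') x' = bb D s(e, f) x + t := by
  by_cases hsg : D.sg e f
  · obtain ⟨a1, a2⟩ := aa_pos h hX hsg x
    obtain ⟨b1, b2⟩ := aa_pos h' hX' (hs.1 hsg) x'
    rw [a1, a2, b1, b2, hi, hj]
    exact ⟨add_right_comm _ _ _, rfl⟩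
  · obtain ⟨a1, a2⟩ := aa_neg h hX hsg x
    obtain ⟨b1, b2⟩ := aa_neg h' hX' (fun h => hsg (hs.2 h)) x'
    rw [a1, a2, b1, b2, hi, hj]
    exact ⟨rfl, add_right_comm _ _ _⟩

theorem ab_null (h : D.WF) (hX : D.X e f) (hi : inc D e f x + inc D f e x = 0)
    (hj : x.2 s(e, f) = 0) : aa D s(e, f) x = 0 ∧ bb D s(e, f) x = 0 := by
  by_cases hsg : D.sg e f
  · obtain ⟨a1, a2⟩ := aa_pos h hX hsg x
    rw [a1, a2, hi, hj, add_zero]
    exact ⟨rfl, rfl⟩
  · obtain ⟨a1, a2⟩ := aa_neg h hX hsg x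
    rw [a1, a2, hi, hj, add_zero]
    exact ⟨rfl, rfl⟩

/-- terms that vanish do not matter -/
theorem col_congr {P P' : ι → Prop} (h : ∀ g, x.2 s(e, g) = 1 → (P g ↔ P' g)) :
    col e P x = col e P' x := by
  have key : ∀ Q : ι → Prop, ∑ g ∈ fs Q, x.2 s(e, g) =
      ∑ g ∈ fs (fun g => Q g ∧ x.2 s(e, g) = 1), x.2 s(e, g) := fun Q => by
    symm
    refine Finset.sum_subset (fun g hg => mem_fs.2 (mem_fs.1 hg).1) fun g hg hg' => ?_
    rcases f2_cases (x.2 s(e, g)) with h0 | h1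
    · exact h0
    · exact absurd (mem_fs.2 ⟨mem_fs.1 hg, h1⟩) hg'
  have e1 : fs (fun g => P g ∧ x.2 s(e, g) = 1) = fs (fun g => P' g ∧ x.2 s(e, g) = 1) := by
    ext g
    simp only [mem_fs]
    exact ⟨fun hg => ⟨(h g hg.2).1 hg.1, hg.2⟩, fun hg => ⟨(h g hg.2).2 hg.1, hg.2⟩⟩
  rw [col_apply, col_apply, key P, key P', e1]

theorem col_insert {P P' : ι → Prop} (hf : ¬ P f) (h : ∀ g, P' g ↔ g = f ∨ P g) :
    col e P' x = col e P x + x.2 s(e, f) := by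
  have e1 : fs P' = insert f (fs P) := by
    ext g
    simp only [mem_fs, Finset.mem_insert, h g]
  rw [col_apply, col_apply, e1, Finset.sum_insert (fun hg => hf (mem_fs.1 hg)), add_comm (x.2 _),
    add_assoc]

theorem inc_last (h : D.WF) (hX : D.X e f) (hl : D.Last e f) (x : KK ι) :
    en D e x = inc D e f x + x.2 s(e, f) := by
  refine col_insert (fun hf => lt_irrefl _ hf.2) fun g => ⟨fun hg => ?_, ?_⟩
  · rcases (hl g hg).lt_or_eq with h1 | h1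
    · exact Or.inr ⟨hg, h1⟩
    · exact Or.inl (h.2.2.2 e g f hg hX h1)
  · rintro (rfl | hg)
    · exact hX
    · exact hg.1

theorem inc_first (hl : D.First e f) (x : KK ι) : inc D e f x = x.1 e := by
  have e1 : fs (fun g => D.X e g ∧ D.t e g < D.t e f) = ∅ :=
    Finset.eq_empty_of_forall_notMem fun g hg => (hl g (mem_fs.1 hg).1).not_gt (mem_fs.1 hg).2
  rw [inc, col_apply, e1, Finset.sum_empty, add_zero]

theorem en_none (hl : ∀ g, ¬ D.X e g) (x : KK ι) : en D e x = x.1 e := by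
  have e1 : fs (D.X e) = ∅ := Finset.eq_empty_of_forall_notMem fun g hg => hl g (mem_fs.1 hg)
  rw [en, col_apply, e1, Finset.sum_empty, add_zero]

theorem Ori.nm (h : Ori D x) : NM (aa D) (bb D) (SS D) x := by
  intro c hc
  obtain ⟨e, f, rfl, hX⟩ := mem_SS.1 hc
  rw [aa_add_bb, (h.2 e f hX).1]

theorem Ori.aa_eq (h : Ori D x) (hD : D.WF) (hX : D.X e f) : aa D s(e, f) x = 0 ↔ D.sg e f := by
  obtain ⟨h1, h2⟩ := h.2 e f hX
  by_cases hsg : D.sg e f
  · rw [(aa_pos hD hX hsg x).1, h1, h2]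
    exact ⟨fun _ => hsg, fun _ => f2_add_self 1⟩
  · rw [(aa_neg hD hX hsg x).1, h2]
    exact ⟨fun h0 => absurd h0 one_ne_zero, fun h0 => absurd h0 hsg⟩

theorem ori_of_adm (h : D.WF) {κ : ι → ZMod 2} (hκ : D.Adm κ) : ∃ x, Ori D x ∧ x.1 = κ := by
  have key : ∀ (e : ι) (P : ι → Prop), (∀ g, P g → D.X e g) →
      col e P (κ, fun c => if c ∈ SS D then 1 else 0) = κ e + ({g | P g}.ncard : ZMod 2) := by
    intro e P hP
    rw [col_apply, ← card_fs, Finset.card_eq_sum_ones, Nat.cast_sum]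
    refine congrArg _ (Finset.sum_congr rfl fun g hg => ?_)
    exact (if_pos ((mk_mem_SS h).2 (hP g (mem_fs.1 hg)))).trans Nat.cast_one.symm
  refine ⟨(κ, fun c => if c ∈ SS D then 1 else 0), ⟨⟨fun c hc => if_neg hc, fun e => ?_⟩,
    fun e f hX => ⟨if_pos ((mk_mem_SS h).2 hX), ?_⟩⟩, rfl⟩
  · rw [en, key e _ fun g hg => hg]
    exact hκ.1 e
  · rw [inc, inc, key e _ fun g hg => hg.1, key f _ fun g hg => hg.1, ← add_assoc]
    exact hκ.2 e f hX

theorem Ori.indep (h : D.WF) (hx : Ori D x) (hy : Ori D y) {q : ℤ}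
    (hV : V (aa D) (bb D) (BB D) (SS D) x q) : V (aa D) (bb D) (BB D) (SS D) y q := by
  have e1 : x + (x + y) = y := by rw [← add_assoc, k_add_self, zero_add]
  rw [← e1]
  refine V_transl (fun c hc => ?_) ((BB D).add_mem hx.1 hy.1) hV
  obtain ⟨e, f, rfl, hX⟩ := mem_SS.1 hc
  obtain ⟨a1, a2⟩ := hx.2 e f hX
  obtain ⟨b1, b2⟩ := hy.2 e f hX
  refine ab_null h hX ?_ ?_
  · rw [map_add, map_add, add_add_add_comm, a2, b2, f2_add_self]
  · rw [Prod.snd_add, Pi.add_apply, a1, b1, f2_add_self]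

theorem oedef_ori : Ori D x ↔ x ∈ BB D ∧ ∀ c ∈ SS D, x.2 c = 1 ∧ del D c x = 1 := by
  refine and_congr_right fun _ => ⟨fun h c hc => ?_, fun h e f hX => h _ (mem_SS.2 ⟨e, f, rfl, hX⟩)⟩
  obtain ⟨e, f, rfl, hX⟩ := mem_SS.1 hc
  exact h e f hX

theorem VV.at (h : D.WF) {q : ℤ} (hV : VV D q) (hy : Ori D y) :
    V (aa D) (bb D) (BB D) (SS D) y q := by
  obtain ⟨x, hx, hV⟩ := hV
  exact hx.indep h hy hV

/-- diagrams with isomorphic cubes -/
theorem vv_of_maps {ι' : Type} [Finite ι'] {D' : OD ι'} (φ : KK ι' →ₗ[F2] KK ι)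
    (ψ : KK ι →ₗ[F2] KK ι') (m : Sym2 ι' → Sym2 ι) (m' : Sym2 ι → Sym2 ι')
    (hφ : ∀ x ∈ BB D', φ x ∈ BB D) (hψ : ∀ y ∈ BB D, ψ y ∈ BB D')
    (h1 : ∀ x ∈ BB D', ψ (φ x) = x) (h2 : ∀ y ∈ BB D, φ (ψ y) = y)
    (hm : ∀ c ∈ SS D', m c ∈ SS D ∧ m' (m c) = c) (hm' : ∀ c ∈ SS D, m' c ∈ SS D' ∧ m (m' c) = c)
    (hd : ∀ c ∈ SS D', ∀ x ∈ BB D', del D' c x = del D (m c) (φ x) ∧ x.2 c = (φ x).2 (m c))
    (hp : ∀ c ∈ SS D', pos D' c ↔ pos D (m c)) (q : ℤ) : VV D q ↔ VV D' q := by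
  have hab : ∀ c ∈ SS D', ∀ x ∈ BB D',
      aa D' c x = aa D (m c) (φ x) ∧ bb D' c x = bb D (m c) (φ x) := by
    intro c hc x hx
    obtain ⟨d1, d2⟩ := hd c hc x hx
    by_cases hq : pos D' c
    · simp only [aa, bb, if_pos hq, if_pos ((hp c hc).1 hq), LinearMap.add_apply, jj_apply, d1, d2,
        and_self]
    · have hq' : ¬ pos D (m c) := fun h => hq ((hp c hc).2 h)
      simp only [aa, bb, if_neg hq, if_neg hq', LinearMap.add_apply, jj_apply, d1, d2, and_self]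
  have hori : ∀ x ∈ BB D', Ori D' x ↔ Ori D (φ x) := by
    intro x hx
    rw [oedef_ori, oedef_ori]
    refine ⟨fun h => ⟨hφ x hx, fun c hc => ?_⟩, fun h => ⟨hx, fun c hc => ?_⟩⟩
    · obtain ⟨m1, m2⟩ := hm' c hc
      obtain ⟨d1, d2⟩ := hd _ m1 x hx
      rw [m2] at d1 d2
      rw [← d1, ← d2]
      exact h.2 _ m1
    · obtain ⟨d1, d2⟩ := hd c hc x hx
      rw [d1, d2]
      exact h.2 _ (hm c hc).1
  constructor
  · rintro ⟨y, hy, hV⟩
    have e1 := h2 y hy.1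
    refine ⟨ψ y, (hori _ (hψ y hy.1)).2 (e1.symm ▸ hy), ?_⟩
    exact (V_iso φ ψ m m' hφ hψ h1 h2 hm hm' hab (hψ y hy.1) q).1 (e1.symm ▸ hV)
  · rintro ⟨x, hx, hV⟩
    exact ⟨φ x, (hori x hx.1).1 hx, (V_iso φ ψ m m' hφ hψ h1 h2 hm hm' hab hx.1 q).2 hV⟩

end Pool.Agent.Lib.MP_4d7d0a_gt.ODA
end
end

-- part Pool.Agent.Lib.MP_4d7d0a_gt.OESym
section

/-! Double counting and the isotropy identity. -/

set_option autoImplicit false

open scoped Classical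

noncomputable section

namespace Pool.Agent.Lib.MP_4d7d0a_gt.ODA

variable {ι : Type} [Finite ι] {D : OD ι}

theorem oesym_prod {M : Type} [AddCommMonoid M] (D : OD ι) (g : ι → ι → M) :
    ∑ p ∈ fs (fun p : ι × ι => D.X p.1 p.2), g p.1 p.2 =
      ∑ e ∈ fs (fun _ : ι => True), ∑ f ∈ fs (D.X e), g e f :=
  Finset.sum_finset_product' _ _ _ fun p => by simp

theorem sum_pairs {M : Type} [AddCommMonoid M] (h : D.WF) (G : Sym2 ι → M) (g : ι → ι → M)
    (hG : ∀ e f, D.X e f → G s(e, f) = g e f + g f e) :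
    ∑ c ∈ SS D, G c = ∑ e ∈ fs (fun _ : ι => True), ∑ f ∈ fs (D.X e), g e f := by
  rw [← oesym_prod, ← Finset.sum_fiberwise_of_maps_to (t := SS D)
    (g := fun p : ι × ι => s(p.1, p.2)) fun p hp => mem_SS.2 ⟨p.1, p.2, rfl,
      (mem_fs (P := fun p : ι × ι => D.X p.1 p.2)).1 hp⟩]
  refine Finset.sum_congr rfl fun c hc => ?_
  obtain ⟨e, f, rfl, hX⟩ := mem_SS.1 hc
  have hne : e ≠ f := fun hef => h.2.1 e (hef ▸ hX)
  have e1 : (fs fun p : ι × ι => D.X p.1 p.2).filter (fun p => s(p.1, p.2) = s(e, f)) =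
      {(e, f), (f, e)} := by
    ext ⟨a, b⟩
    simp only [Finset.mem_filter, mem_fs, Sym2.eq_iff, Finset.mem_insert, Finset.mem_singleton,
      Prod.mk.injEq]
    constructor
    · exact fun hh => hh.2
    · intro hh
      refine ⟨?_, hh⟩
      rcases hh with ⟨rfl, rfl⟩ | ⟨rfl, rfl⟩
      · exact hX
      · exact h.1 _ _ hX
  rw [e1, Finset.sum_pair fun hh => hne (Prod.ext_iff.1 hh).1]
  exact hG e f hX

omit [Finite ι] in
theorem oesym_mul {T : Finset ι} {t : ι → ℝ} (ht : ∀ f ∈ T, ∀ g ∈ T, t f = t g → f = g)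
    (u v : ι → F2) :
    (∑ g ∈ T, u g) * ∑ f ∈ T, v f =
      ∑ f ∈ T, ((∑ g ∈ T with t g < t f, u g) * v f + (∑ g ∈ T with t g < t f, v g) * u f +
        u f * v f) := by
  have e1 : ∀ g ∈ T, ∀ f ∈ T, u g * v f = (if t g < t f then u g * v f else 0) +
      (if t f < t g then v f * u g else 0) + if g = f then u g * v f else 0 := by
    intro g hg f hf
    rcases lt_trichotomy (t g) (t f) with h | h | h
    · rw [if_pos h, if_neg h.not_gt, if_neg fun e => by rw [e] at h; exact lt_irrefl _ h]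
      ring
    · rw [if_neg h.not_lt, if_neg h.not_gt, if_pos (ht g hg f hf h)]
      ring
    · rw [if_neg h.not_gt, if_pos h, if_neg fun e => by rw [e] at h; exact lt_irrefl _ h]
      ring
  rw [Finset.sum_mul_sum, Finset.sum_congr rfl fun g hg => Finset.sum_congr rfl (e1 g hg)]
  simp only [Finset.sum_add_distrib, Finset.sum_mul, Finset.sum_filter, ite_mul, zero_mul]
  congr 1
  · congr 1
    exact Finset.sum_comm
  · refine Finset.sum_congr rfl fun g hg => ?_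
    rw [Finset.sum_ite_eq, if_pos hg]

theorem oesym_inc (D : OD ι) (e f : ι) (x : KK ι) :
    inc D e f x = x.1 e + ∑ g ∈ fs (D.X e) with D.t e g < D.t e f, x.2 s(e, g) := by
  unfold inc
  rw [col_apply]
  congr 2
  ext g
  simp

theorem om_formula (h : D.WF) (x y : KK ι) :
    om (aa D) (bb D) (SS D) x y =
      ∑ e ∈ fs (fun _ : ι => True), (en D e x * en D e y + x.1 e * y.1 e) := by
  have two : (2 : F2) = 0 := rfl
  unfold om
  rw [sum_pairs h _ (fun e f => inc D e f x * y.2 s(e, f) + inc D e f y * x.2 s(e, f) +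
    x.2 s(e, f) * y.2 s(e, f))]
  · refine Finset.sum_congr rfl fun e _ => ?_
    have a1 := oesym_mul (T := fs (D.X e)) (t := D.t e)
      (fun f hf g hg => h.2.2.2 e f g (mem_fs.1 hf) (mem_fs.1 hg))
      (fun f => x.2 s(e, f)) (fun f => y.2 s(e, f))
    unfold en
    rw [col_apply, col_apply]
    simp only [oesym_inc, add_mul, Finset.sum_add_distrib, ← Finset.mul_sum] at a1 ⊢
    linear_combination (-1 : F2) * a1 - (x.1 e * y.1 e) * two
  · intro e f hX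
    rw [Sym2.eq_swap (a := f) (b := e)]
    by_cases hs : D.sg e f
    · rw [(aa_pos h hX hs x).1, (aa_pos h hX hs x).2, (aa_pos h hX hs y).1, (aa_pos h hX hs y).2]
      linear_combination ((inc D e f x + inc D f e x) * (inc D e f y + inc D f e y) -
        x.2 s(e, f) * y.2 s(e, f)) * two
    · rw [(aa_neg h hX hs x).1, (aa_neg h hX hs x).2, (aa_neg h hX hs y).1, (aa_neg h hX hs y).2]
      linear_combination ((inc D e f x + inc D f e x) * (inc D e f y + inc D f e y) -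
        x.2 s(e, f) * y.2 s(e, f)) * two

theorem om_BB (h : D.WF) : ∀ x ∈ BB D, ∀ y ∈ BB D, om (aa D) (bb D) (SS D) x y = 0 := by
  intro x hx y hy
  rw [om_formula h, Finset.sum_add_distrib]
  have e1 : ∑ e ∈ fs (fun _ : ι => True), en D e x * en D e y =
      ∑ e ∈ fs (fun _ : ι => True), x.1 e * y.1 e :=
    Finset.sum_equiv D.σ (fun e => by simp) fun e _ => by
      rw [(mem_BB.1 hx).2 e, (mem_BB.1 hy).2 e]
  rw [e1, f2_add_self]

theorem sum_signs (h : D.WF) {x : KK ι} (hx : Ori D x) (w : ℤ)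
    (hw : 2 * w = ({p : ι × ι | D.X p.1 p.2 ∧ D.sg p.1 p.2}.ncard : ℤ) -
      ({p : ι × ι | D.X p.1 p.2 ∧ ¬ D.sg p.1 p.2}.ncard : ℤ)) :
    (∑ c ∈ SS D, if aa D c x = 0 then (1 : ℤ) else -1) = w := by
  have a1 := sum_pairs h (fun c => 2 * if aa D c x = 0 then (1 : ℤ) else -1)
    (fun e f => if D.sg e f then (1 : ℤ) else -1) fun e f hX => by
      have b1 := hx.aa_eq h hX
      have b2 := h.2.2.1 e f hX
      by_cases hs : D.sg e f
      · rw [if_pos (b1.2 hs), if_pos hs, if_pos (b2.1 hs)]; norm_num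
      · rw [if_neg (mt b1.1 hs), if_neg hs, if_neg (mt b2.2 hs)]; norm_num
  rw [← oesym_prod, Finset.sum_ite, Finset.sum_const, Finset.sum_const, ← Finset.mul_sum] at a1
  have e1 : (fs fun p : ι × ι => D.X p.1 p.2).filter (fun p => D.sg p.1 p.2) =
      fs fun p : ι × ι => D.X p.1 p.2 ∧ D.sg p.1 p.2 := by
    ext p; simp
  have e2 : (fs fun p : ι × ι => D.X p.1 p.2).filter (fun p => ¬ D.sg p.1 p.2) =
      fs fun p : ι × ι => D.X p.1 p.2 ∧ ¬ D.sg p.1 p.2 := by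
    ext p; simp
  rw [e1, e2, card_fs, card_fs] at a1
  simp only [nsmul_eq_mul, mul_one, mul_neg] at a1
  linarith

end Pool.Agent.Lib.MP_4d7d0a_gt.ODA
end
end

-- part Pool.Agent.Lib.MP_4d7d0a_gt.OEG5
section

/-! Third Reidemeister move. -/

set_option autoImplicit false

open Set
open scoped Classical

noncomputable section

namespace Pool.Agent.Lib.MP_4d7d0a_gt.ODA

section aux

variable {ι : Type} [Finite ι]

theorem g5_col_ite {e f : ι} {P P' : ι → Prop} (T : Prop) (x : KK ι) (hf : ¬ P f)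
    (h : ∀ g, P' g ↔ (g = f ∧ T) ∨ P g) :
    col e P' x = col e P x + if T then x.2 s(e, f) else 0 := by
  by_cases hT : T
  · rw [if_pos hT]
    exact col_insert hf fun g => by rw [h]; simp [hT]
  · rw [if_neg hT, add_zero]
    exact col_congr fun g _ => by rw [h]; simp [hT]

theorem g5_sum_ind (P : ι → Prop) (g0 : ι) :
    (∑ g ∈ fs P, if g = g0 then (1 : F2) else 0) = if P g0 then 1 else 0 := by
  rw [Finset.sum_ite_eq']
  simp

theorem g5_cu {a b c : ι} {u : KK ι} (hbc : b ≠ c) (h0 : u.1 a = 0) (hb : u.2 s(a, b) = 1)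
    (hc : u.2 s(a, c) = 1) (ho : ∀ h, h ≠ b → h ≠ c → u.2 s(a, h) = 0) (P : ι → Prop) :
    col a P u = (if P b then 1 else 0) + if P c then 1 else 0 := by
  rw [col_apply, h0, zero_add, ← g5_sum_ind, ← g5_sum_ind, ← Finset.sum_add_distrib]
  refine Finset.sum_congr rfl fun g _ => ?_
  by_cases h1 : g = b
  · subst h1
    rw [hb, if_pos rfl, if_neg hbc, add_zero]
  · by_cases h2 : g = c
    · subst h2
      rw [hc, if_neg h1, if_pos rfl, zero_add]
    · rw [ho g h1 h2, if_neg h1, if_neg h2, add_zero]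

theorem g5_edge {D D' : OD ι} {P : ι → ι → Prop} {a b c : ι} (hD : D.WF) (hD' : D'.WF)
    (x1 : D.X a b) (x2 : D.X a c) (y1 : D'.X a b) (y2 : D'.X a c) (hbc : b ≠ c)
    (hP : ∀ h, P a h ↔ h ≠ a ∧ h ≠ b ∧ h ≠ c) (hA : D.Agree D' P) (hE : D.Exch D' P a b c) :
    (∀ x, inc D' a b x = inc D a b x + x.2 s(a, c)) ∧
    (∀ x, inc D' a c x = inc D a c x + x.2 s(a, b)) ∧
    (∀ h, P a h → D.X a h → ∀ x, inc D' a h x = inc D a h x) ∧
    (∀ x, inc D a b x + inc D a c x = if D.t a b < D.t a c then x.2 s(a, b) else x.2 s(a, c)) ∧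
    ∀ u : KK ι, u.1 a = 0 → u.2 s(a, b) = 1 → u.2 s(a, c) = 1 →
      (∀ h, h ≠ b → h ≠ c → u.2 s(a, h) = 0) →
      (inc D a b u = if D.t a b < D.t a c then 0 else 1) ∧
      (inc D a c u = if D.t a b < D.t a c then 1 else 0) ∧
      ∀ h, P a h → D.X a h → inc D a h u = 0 := by
  have flipl : ∀ {E : OD ι}, E.WF → ∀ {h k : ι}, E.X a h → E.X a k → h ≠ k →
      (E.t a h < E.t a k ↔ ¬ E.t a k < E.t a h) := by
    intro E hE h k h1 h2 h3
    exact ⟨fun h4 => lt_asymm h4, fun h4 =>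
      lt_of_le_of_ne (not_lt.1 h4) fun h5 => h3 (hE.2.2.2 _ _ _ h1 h2 h5)⟩
  have hPa : ∀ h, D.X a h → h ≠ b → h ≠ c → P a h := fun h h1 h2 h3 =>
    (hP h).2 ⟨fun h4 => hD.2.1 a (h4 ▸ h1), h2, h3⟩
  have hPa' : ∀ h, D'.X a h → h ≠ b → h ≠ c → P a h := fun h h1 h2 h3 =>
    (hP h).2 ⟨fun h4 => hD'.2.1 a (h4 ▸ h1), h2, h3⟩
  have ord : ∀ h, D.X a h → h ≠ b → h ≠ c → D'.X a h ∧
      (D.t a h < D.t a c ↔ D.t a h < D.t a b) ∧ (D'.t a h < D'.t a b ↔ D.t a h < D.t a b) ∧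
      (D'.t a h < D'.t a c ↔ D.t a h < D.t a b) := by
    intro h h1 h2 h3
    have hp := hPa h h1 h2 h3
    have h1' := (hA.1 a h hp).1 h1
    obtain ⟨e1, e2, e3⟩ := hE.2 h hp h1
    rw [flipl hD h1 x2 h3, flipl hD h1 x1 h2, flipl hD' h1' y1 h2, flipl hD' h1' y2 h3]
    exact ⟨h1', by rw [e1], by rw [e2], by rw [← e3, e1]⟩
  let P0 : ι → Prop := fun h => D.X a h ∧ h ≠ b ∧ h ≠ c ∧ D.t a h < D.t a b
  have n1 : ¬ P0 b := fun h => h.2.1 rfl
  have n2 : ¬ P0 c := fun h => h.2.2.1 rfl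
  have k1 : ∀ x, inc D a b x = col a P0 x + if D.t a c < D.t a b then x.2 s(a, c) else 0 := by
    intro x
    refine g5_col_ite _ x n2 fun g => ⟨fun h => ?_, fun h => ?_⟩
    · by_cases h1 : g = c
      · exact Or.inl ⟨h1, h1 ▸ h.2⟩
      · exact Or.inr ⟨h.1, fun h2 => lt_irrefl _ (h2 ▸ h.2), h1, h.2⟩
    · rcases h with ⟨rfl, h⟩ | h
      · exact ⟨x2, h⟩
      · exact ⟨h.1, h.2.2.2⟩
  have k2 : ∀ x, inc D a c x = col a P0 x + if D.t a b < D.t a c then x.2 s(a, b) else 0 := by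
    intro x
    refine g5_col_ite _ x n1 fun g => ⟨fun h => ?_, fun h => ?_⟩
    · by_cases h1 : g = b
      · exact Or.inl ⟨h1, h1 ▸ h.2⟩
      · have h2 : g ≠ c := fun h2 => lt_irrefl _ (h2 ▸ h.2)
        exact Or.inr ⟨h.1, h1, h2, (ord g h.1 h1 h2).2.1.1 h.2⟩
    · rcases h with ⟨rfl, h⟩ | h
      · exact ⟨x1, h⟩
      · exact ⟨h.1, (ord g h.1 h.2.1 h.2.2.1).2.1.2 h.2.2.2⟩
  have k3 : ∀ x, inc D' a b x = col a P0 x + if D'.t a c < D'.t a b then x.2 s(a, c) else 0 := by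
    intro x
    refine g5_col_ite _ x n2 fun g => ⟨fun h => ?_, fun h => ?_⟩
    · by_cases h1 : g = c
      · exact Or.inl ⟨h1, h1 ▸ h.2⟩
      · have h2 : g ≠ b := fun h2 => lt_irrefl _ (h2 ▸ h.2)
        have h3 := (hA.1 a g (hPa' g h.1 h2 h1)).2 h.1
        exact Or.inr ⟨h3, h2, h1, (ord g h3 h2 h1).2.2.1.1 h.2⟩
    · rcases h with ⟨rfl, h⟩ | h
      · exact ⟨y2, h⟩
      · have h3 := ord g h.1 h.2.1 h.2.2.1
        exact ⟨h3.1, h3.2.2.1.2 h.2.2.2⟩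
  have k4 : ∀ x, inc D' a c x = col a P0 x + if D'.t a b < D'.t a c then x.2 s(a, b) else 0 := by
    intro x
    refine g5_col_ite _ x n1 fun g => ⟨fun h => ?_, fun h => ?_⟩
    · by_cases h1 : g = b
      · exact Or.inl ⟨h1, h1 ▸ h.2⟩
      · have h2 : g ≠ c := fun h2 => lt_irrefl _ (h2 ▸ h.2)
        have h3 := (hA.1 a g (hPa' g h.1 h1 h2)).2 h.1
        exact Or.inr ⟨h3, h1, h2, (ord g h3 h1 h2).2.2.2.1 h.2⟩
    · rcases h with ⟨rfl, h⟩ | h
      · exact ⟨y1, h⟩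
      · have h3 := ord g h.1 h.2.1 h.2.2.1
        exact ⟨h3.1, h3.2.2.2.2 h.2.2.2⟩
  have o1 := flipl hD x2 x1 hbc.symm
  have o2 := flipl hD' y1 y2 hbc
  have o3 := hE.1
  refine ⟨fun x => ?_, fun x => ?_, fun h hp hx x => ?_, fun x => ?_, fun u u0 ub uc uo => ?_⟩
  · rw [k1, k3]
    by_cases ht : D.t a b < D.t a c
    · rw [if_pos (o3.1 ht), if_neg (lt_asymm ht), add_zero]
    · rw [if_neg fun h => ht (o3.2 h), if_pos (o1.2 ht), add_zero, add_assoc, f2_add_self,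
        add_zero]
  · rw [k2, k4]
    by_cases ht : D.t a b < D.t a c
    · rw [if_neg (lt_asymm (o3.1 ht)), if_pos ht, add_zero, add_assoc, f2_add_self, add_zero]
    · rw [if_pos (o2.2 fun h => ht (o3.2 h)), if_neg ht, add_zero]
  · refine col_congr fun g _ => ?_
    obtain ⟨e1, e2, e3⟩ := hE.2 h hp hx
    by_cases h1 : g = b
    · subst h1
      exact ⟨fun h => ⟨x1, e2.2 h.2⟩, fun h => ⟨y1, e2.1 h.2⟩⟩
    · by_cases h2 : g = c
      · subst h2
        exact ⟨fun h => ⟨x2, e3.2 h.2⟩, fun h => ⟨y2, e3.1 h.2⟩⟩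
      · constructor
        · rintro ⟨h3, h4⟩
          have h5 := hPa' g h3 h1 h2
          have h6 := (hA.1 a g h5).2 h3
          exact ⟨h6, (hA.2.2 a g h h5 hp h6 hx).2 h4⟩
        · rintro ⟨h3, h4⟩
          have h5 := hPa g h3 h1 h2
          exact ⟨(hA.1 a g h5).1 h3, (hA.2.2 a g h h5 hp h3 hx).1 h4⟩
  · rw [k1, k2]
    by_cases ht : D.t a b < D.t a c
    · rw [if_neg (lt_asymm ht), if_pos ht, if_pos ht]
      linear_combination f2_add_self (col a P0 x)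
    · rw [if_pos (o1.2 ht), if_neg ht, if_neg ht]
      linear_combination f2_add_self (col a P0 x)
  · have cu := g5_cu hbc u0 ub uc uo
    refine ⟨?_, ?_, fun h hp hx => ?_⟩
    · rw [inc, cu, if_neg fun h => lt_irrefl _ h.2, zero_add]
      by_cases ht : D.t a b < D.t a c
      · rw [if_neg fun h => lt_asymm ht h.2, if_pos ht]
      · rw [if_pos ⟨x2, o1.2 ht⟩, if_neg ht]
    · rw [inc, cu, if_neg (c := D.X a c ∧ D.t a c < D.t a c) fun h => lt_irrefl _ h.2, add_zero]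
      by_cases ht : D.t a b < D.t a c
      · rw [if_pos ⟨x1, ht⟩, if_pos ht]
      · rw [if_neg fun h => ht h.2, if_neg ht]
    · obtain ⟨e1, -, -⟩ := hE.2 h hp hx
      rw [inc, cu]
      by_cases ht : D.t a b < D.t a h
      · rw [if_pos ⟨x1, ht⟩, if_pos ⟨x2, e1.1 ht⟩, f2_add_self]
      · rw [if_neg fun h => ht h.2, if_neg fun h => ht (e1.2 h.2), add_zero]

/-- the resolution joining the two sides of the triangle -/
def g5Q (D : OD ι) (a b c : ι) : KK ι →ₗ[F2] F2 :=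
  del D s(a, b) + if (D.t a b < D.t a c ↔ D.t b a < D.t b c) then 0 else jj s(a, b)

theorem g5Q_apply (D : OD ι) (a b c : ι) (x : KK ι) : g5Q D a b c x = inc D a b x + inc D b a x +
    if (D.t a b < D.t a c ↔ D.t b a < D.t b c) then 0 else x.2 s(a, b) := by
  unfold g5Q
  rw [LinearMap.add_apply, del_apply]
  split_ifs <;> rfl

theorem g5_ty {D : OD ι} (hD : D.WF) {a b : ι} (hX : D.X a b) (c : ι) (x : KK ι) :
    (D.Ty a b c → aa D s(a, b) x = g5Q D a b c x) ∧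
      (¬ D.Ty a b c → bb D s(a, b) x = g5Q D a b c x) := by
  rw [g5Q_apply]
  unfold OD.Ty
  by_cases hs : D.sg a b
  · rw [(aa_pos hD hX hs x).1, (aa_pos hD hX hs x).2]
    constructor
    · intro h
      rw [if_neg (h.2 hs)]
    · intro h
      rw [if_pos, add_zero]
      by_contra h1
      exact h ⟨fun _ => hs, fun _ => h1⟩
  · rw [(aa_neg hD hX hs x).1, (aa_neg hD hX hs x).2]
    constructor
    · intro h
      rw [if_pos, add_zero]
      by_contra h1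
      exact hs (h.1 h1)
    · intro h
      rw [if_neg]
      intro h1
      exact h ⟨fun h2 => absurd h1 h2, fun h2 => absurd h2 hs⟩

end aux

theorem vv_r3 : ∀ {ι : Type} [Finite ι] (D D' : OD ι) (e f g : ι) (q : ℤ), D.WF → D'.WF → D.σ = D'.σ →
    D.X e f → D.X e g → D.X f g → D'.X e f → D'.X e g → D'.X f g → D.Agree D' (OD.Off3 e f g) →
    (D.sg e f ↔ D'.sg e f) → (D.sg e g ↔ D'.sg e g) → (D.sg f g ↔ D'.sg f g) →
    D.Exch D' (OD.Off3 e f g) e f g → D.Exch D' (OD.Off3 e f g) f e g →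
    D.Exch D' (OD.Off3 e f g) g e f →
    ¬ ((D.Ty e f g ↔ D.Ty e g f) ∧ (D.Ty e g f ↔ D.Ty f g e)) → VV D q → VV D' q := by
  intro ι _ D D' e f g q hD hD' hσ xef xeg xfg yef yeg yfg hA sef seg sfg hE1 hE2 hE3 hT hV
  obtain ⟨x0, hx0, hV⟩ := hV
  have nef : e ≠ f := fun h => hD.2.1 e (h ▸ xef)
  have neg : e ≠ g := fun h => hD.2.1 e (h ▸ xeg)
  have nfg : f ≠ g := fun h => hD.2.1 f (h ▸ xfg)
  have xfe := hD.1 _ _ xef
  have xge := hD.1 _ _ xeg
  have xgf := hD.1 _ _ xfg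
  have yfe := hD'.1 _ _ yef
  have yge := hD'.1 _ _ yeg
  have ygf := hD'.1 _ _ yfg
  obtain ⟨a1, a2, a3, a4, a5⟩ := g5_edge hD hD' xef xeg yef yeg nfg
    (fun h => by simp only [OD.Off3]; clear * -; tauto) hA hE1
  obtain ⟨b1, b2, b3, b4, b5⟩ := g5_edge hD hD' xfe xfg yfe yfg neg
    (fun h => by simp only [OD.Off3]; clear * -; tauto) hA hE2
  obtain ⟨c1, c2, c3, c4, c5⟩ := g5_edge hD hD' xge xgf yge ygf nef
    (fun h => by simp only [OD.Off3]; clear * -; tauto) hA hE3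
  have hXX : ∀ a b, D.X a b ↔ D'.X a b := by
    intro a b
    by_cases ho : OD.Off3 e f g a b
    · exact hA.1 a b ho
    · have h1 := hD.2.1
      have h2 := hD'.2.1
      rw [OD.Off3, not_not] at ho
      obtain ⟨rfl | rfl | rfl, rfl | rfl | rfl⟩ := ho <;> simp [*]
  have hS : SS D' = SS D := by
    ext c
    simp only [mem_SS, hXX]
  have hen : ∀ a x, en D' a x = en D a x := fun a x => col_congr fun h _ => (hXX a h).symm
  have hB : BB D' = BB D := by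
    ext x
    simp only [mem_BB, hS, hen, hσ]
  have swfe : s(f, e) = s(e, f) := Sym2.eq_swap
  have swge : s(g, e) = s(e, g) := Sym2.eq_swap
  have swgf : s(g, f) = s(f, g) := Sym2.eq_swap
  have n12 : s(e, f) ≠ s(e, g) := by
    simp only [ne_eq, Sym2.eq_iff]
    clear * - nef neg nfg
    tauto
  have n13 : s(e, f) ≠ s(f, g) := by
    simp only [ne_eq, Sym2.eq_iff]
    clear * - nef neg nfg
    tauto
  have n23 : s(e, g) ≠ s(f, g) := by
    simp only [ne_eq, Sym2.eq_iff]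
    clear * - nef neg nfg
    tauto
  have off : ∀ a b, D.X a b → s(a, b) ≠ s(e, f) → s(a, b) ≠ s(e, g) → s(a, b) ≠ s(f, g) →
      OD.Off3 e f g a b := by
    intro a b hab h1 h2 h3
    have h0 : a ≠ b := fun h => hD.2.1 a (h ▸ hab)
    rintro ⟨rfl | rfl | rfl, rfl | rfl | rfl⟩ <;>
      first
        | exact h0 rfl
        | exact h1 rfl
        | exact h2 rfl
        | exact h3 rfl
        | exact h1 Sym2.eq_swap
        | exact h2 Sym2.eq_swap
        | exact h3 Sym2.eq_swap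
  have offs : ∀ a b, OD.Off3 e f g a b → OD.Off3 e f g b a := fun a b h h' => h ⟨h'.2, h'.1⟩
  obtain ⟨u, u1, u2⟩ : ∃ u : KK ι, (∀ v, u.1 v = 0) ∧
      ∀ c, u.2 c = if c = s(e, f) ∨ c = s(e, g) ∨ c = s(f, g) then 1 else 0 :=
    ⟨(0, fun c => if c = s(e, f) ∨ c = s(e, g) ∨ c = s(f, g) then 1 else 0),
      fun _ => rfl, fun _ => rfl⟩
  have uc1 : u.2 s(e, f) = 1 := by rw [u2, if_pos (Or.inl rfl)]
  have uc2 : u.2 s(e, g) = 1 := by rw [u2, if_pos (Or.inr (Or.inl rfl))]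
  have uc3 : u.2 s(f, g) = 1 := by rw [u2, if_pos (Or.inr (Or.inr rfl))]
  have uo1 : ∀ h, h ≠ f → h ≠ g → u.2 s(e, h) = 0 := by
    intro h h1 h2
    rw [u2, if_neg]
    simp only [Sym2.eq_iff]
    clear * - nef neg nfg h1 h2
    tauto
  have uo2 : ∀ h, h ≠ e → h ≠ g → u.2 s(f, h) = 0 := by
    intro h h1 h2
    rw [u2, if_neg]
    simp only [Sym2.eq_iff]
    have h3 := nef.symm
    clear * - nef neg nfg h1 h2 h3
    tauto
  have uo3 : ∀ h, h ≠ e → h ≠ f → u.2 s(g, h) = 0 := by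
    intro h h1 h2
    rw [u2, if_neg]
    simp only [Sym2.eq_iff]
    have h3 := neg.symm
    have h4 := nfg.symm
    clear * - nef neg nfg h1 h2 h3 h4
    tauto
  have uo4 : ∀ a h, a ≠ e → a ≠ f → a ≠ g → u.2 s(a, h) = 0 := by
    intro a h h1 h2 h3
    rw [u2, if_neg]
    simp only [Sym2.eq_iff]
    clear * - h1 h2 h3
    tauto
  have cu4 : ∀ a P, a ≠ e → a ≠ f → a ≠ g → col a P u = 0 := by
    intro a P h1 h2 h3
    rw [col_apply, u1, zero_add]
    exact Finset.sum_eq_zero fun h _ => uo4 a h h1 h2 h3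
  obtain ⟨a51, a52, a53⟩ := a5 u (u1 _) uc1 uc2 uo1
  obtain ⟨b51, b52, b53⟩ := b5 u (u1 _) (swfe ▸ uc1) uc3 uo2
  obtain ⟨c51, c52, c53⟩ := c5 u (u1 _) (swge ▸ uc2) (swgf ▸ uc3) uo3
  have huU : u ∈ BB D := by
    refine ⟨fun c hc => ?_, fun a => ?_⟩
    · rw [u2, if_neg]
      rintro (rfl | rfl | rfl)
      · exact hc ((mk_mem_SS hD).2 xef)
      · exact hc ((mk_mem_SS hD).2 xeg)
      · exact hc ((mk_mem_SS hD).2 xfg)
    · rw [u1, en]
      by_cases h1 : a = e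
      · subst h1
        rw [g5_cu nfg (u1 _) uc1 uc2 uo1, if_pos xef, if_pos xeg, f2_add_self]
      · by_cases h2 : a = f
        · subst h2
          rw [g5_cu neg (u1 _) (swfe ▸ uc1) uc3 uo2, if_pos xfe, if_pos xfg, f2_add_self]
        · by_cases h3 : a = g
          · subst h3
            rw [g5_cu nef (u1 _) (swge ▸ uc2) (swgf ▸ uc3) uo3, if_pos xge, if_pos xgf,
              f2_add_self]
          · rw [cu4 a _ h1 h2 h3]
  have incO : ∀ a h, OD.Off3 e f g a h → D.X a h →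
      (∀ x, inc D' a h x = inc D a h x) ∧ inc D a h u = 0 := by
    intro a h ho hx
    by_cases h1 : a = e
    · subst h1
      exact ⟨a3 h ho hx, a53 h ho hx⟩
    · by_cases h2 : a = f
      · subst h2
        exact ⟨b3 h ho hx, b53 h ho hx⟩
      · by_cases h3 : a = g
        · subst h3
          exact ⟨c3 h ho hx, c53 h ho hx⟩
        · refine ⟨fun x => col_congr fun k _ => ?_, cu4 a _ h1 h2 h3⟩
          have hk : OD.Off3 e f g a k := fun h4 => h4.1.elim h1 fun h5 => h5.elim h2 h3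
          constructor
          · rintro ⟨h4, h5⟩
            have h6 := (hXX a k).2 h4
            exact ⟨h6, (hA.2.2 a k h hk ho h6 hx).2 h5⟩
          · rintro ⟨h4, h5⟩
            exact ⟨(hXX a k).1 h4, (hA.2.2 a k h hk ho h4 hx).1 h5⟩
  have d1 : ∀ x : KK ι, inc D' e f x + inc D' f e x =
      inc D e f x + inc D f e x + (x.2 s(e, g) + x.2 s(f, g)) := by
    intro x
    rw [a1, b1]
    ring
  have d2 : ∀ x : KK ι, inc D' e g x + inc D' g e x =
      inc D e g x + inc D g e x + (x.2 s(e, f) + x.2 s(f, g)) := by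
    intro x
    rw [a2, c1, swgf]
    ring
  have d3 : ∀ x : KK ι, inc D' f g x + inc D' g f x =
      inc D f g x + inc D g f x + (x.2 s(e, f) + x.2 s(e, g)) := by
    intro x
    rw [b2, c2, swfe, swge]
    ring
  have z1 := (hx0.2 _ _ xef).1
  have z2 := (hx0.2 _ _ xeg).1
  have z3 := (hx0.2 _ _ xfg).1
  have hx0' : Ori D' x0 := by
    refine ⟨hB ▸ hx0.1, fun a b hab => ?_⟩
    have hab' := (hXX a b).2 hab
    refine ⟨(hx0.2 a b hab').1, ?_⟩
    have key : ∀ c ∈ SS D, del D' c x0 = 1 := by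
      intro c hc
      by_cases h1 : c = s(e, f)
      · rw [h1, del_apply, d1, (hx0.2 _ _ xef).2, z2, z3]
        decide
      · by_cases h2 : c = s(e, g)
        · rw [h2, del_apply, d2, (hx0.2 _ _ xeg).2, z1, z3]
          decide
        · by_cases h3 : c = s(f, g)
          · rw [h3, del_apply, d3, (hx0.2 _ _ xfg).2, z1, z2]
            decide
          · obtain ⟨a', b', rfl, h4⟩ := mem_SS.1 hc
            have ho := off a' b' h4 h1 h2 h3
            rw [del_apply, (incO _ _ ho h4).1, (incO _ _ (offs _ _ ho) (hD.1 _ _ h4)).1]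
            exact (hx0.2 _ _ h4).2
    exact key s(a, b) ((mk_mem_SS hD).2 hab')
  refine ⟨x0, hx0', ?_⟩
  rw [hB, hS]
  have tef : D.t e g < D.t e f ↔ ¬ D.t e f < D.t e g :=
    ⟨fun h => lt_asymm h, fun h =>
      lt_of_le_of_ne (not_lt.1 h) fun h5 => nfg (hD.2.2.2 _ _ _ xeg xef h5).symm⟩
  have tfe : D.t f g < D.t f e ↔ ¬ D.t f e < D.t f g :=
    ⟨fun h => lt_asymm h, fun h =>
      lt_of_le_of_ne (not_lt.1 h) fun h5 => neg (hD.2.2.2 _ _ _ xfg xfe h5).symm⟩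
  have tge : D.t g f < D.t g e ↔ ¬ D.t g e < D.t g f :=
    ⟨fun h => lt_asymm h, fun h =>
      lt_of_le_of_ne (not_lt.1 h) fun h5 => nef (hD.2.2.2 _ _ _ xgf xge h5).symm⟩
  refine V_r3 ((mk_mem_SS hD).2 xef) ((mk_mem_SS hD).2 xeg) ((mk_mem_SS hD).2 xfg) n12 n13 n23
    huU ?_ ?_ (jj s(e, f)) (jj s(e, g)) (jj s(f, g)) (g5Q D e f g) (g5Q D e g f) (g5Q D f g e)
    (D.Ty e f g) (D.Ty e g f) (D.Ty f g e)
    (fun x _ => ⟨aa_add_bb _ _ _, aa_add_bb _ _ _, aa_add_bb _ _ _⟩) ⟨uc1, uc2, uc3⟩ ?_ ?_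
    (fun x _ => g5_ty hD xef g x) (fun x _ => g5_ty hD xeg f x) (fun x _ => g5_ty hD xfg e x) hT
    ?_ ?_ ?_ (om_BB hD) hx0.1 ⟨z1, z2, z3⟩ hV
  · intro c hc h1 h2 h3
    obtain ⟨a, b, rfl, h4⟩ := mem_SS.1 hc
    have ho := off a b h4 h1 h2 h3
    refine ab_null hD h4 ?_ ?_
    · rw [(incO _ _ ho h4).2, (incO _ _ (offs _ _ ho) (hD.1 _ _ h4)).2, add_zero]
    · rw [u2, if_neg]
      exact fun h5 => h5.elim h1 fun h6 => h6.elim h2 h3
  · intro c hc h1 h2 h3 x _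
    obtain ⟨a, b, rfl, h4⟩ := mem_SS.1 hc
    have ho := off a b h4 h1 h2 h3
    have h5 := ab_eq (x := x) (x' := x) hD hD' h4 ((hXX a b).1 h4) (hA.2.1 a b ho h4) 0
      (by rw [(incO _ _ ho h4).1, (incO _ _ (offs _ _ ho) (hD.1 _ _ h4)).1, add_zero]) rfl
    simpa using h5
  · rw [g5Q_apply, g5Q_apply, g5Q_apply, a51, a52, b51, b52, c51, c52, uc1, uc2, uc3]
    simp only [tef, tfe, tge]
    by_cases p1 : D.t e f < D.t e g <;> by_cases p2 : D.t f e < D.t f g <;>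
      by_cases p3 : D.t g e < D.t g f <;> simp [p1, p2, p3] <;> decide
  · intro x _
    have h1 := a4 x
    have h2 := b4 x
    have h3 := c4 x
    rw [swfe] at h2
    rw [swge, swgf] at h3
    rw [g5Q_apply, g5Q_apply, g5Q_apply]
    simp only [tef, tfe, tge]
    have t1 := f2_add_self (x.2 s(e, f))
    have t2 := f2_add_self (x.2 s(e, g))
    have t3 := f2_add_self (x.2 s(f, g))
    by_cases p1 : D.t e f < D.t e g <;> by_cases p2 : D.t f e < D.t f g <;>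
      by_cases p3 : D.t g e < D.t g f <;>
      simp only [p1, p2, p3, if_true, if_false, not_true, not_false_iff, iff_true,
        iff_false] at h1 h2 h3 ⊢ <;>
      first
        | linear_combination h1 + h2 + h3 + t1 + t2
        | linear_combination h1 + h2 + h3 + t1 + t3
        | linear_combination h1 + h2 + h3 + t2 + t3
        | linear_combination h1 + h2 + h3 + t1 + t2 + t3
  · intro x _
    have h5 := ab_eq (x := x) (x' := x) hD hD' xef yef sef _ (d1 x) rfl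
    simpa [add_assoc] using h5
  · intro x _
    have h5 := ab_eq (x := x) (x' := x) hD hD' xeg yeg seg _ (d2 x) rfl
    simpa [add_assoc] using h5
  · intro x _
    have h5 := ab_eq (x := x) (x' := x) hD hD' xfg yfg sfg _ (d3 x) rfl
    simpa [add_assoc] using h5


end Pool.Agent.Lib.MP_4d7d0a_gt.ODA
end
end
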