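import Pool.Agent.Lib.MP_4d7d0a_gt.OEMv3L
import Pool.Agent.Lib.MP_4d7d0a_gt.OEG5

-- part Pool.Agent.Lib.MP_4d7d0a_gt.OEMv1
section

/-! Crossing change and first Reidemeister move for cubes. -/

set_option autoImplicit false

open scoped Classical

noncomputable section

namespace Pool.Agent.Lib.MP_4d7d0a_gt.ODA

variable {K C : Type} [AddCommGroup K] [Module F2 K] [FiniteDimensional F2 K]

omit [FiniteDimensional F2 K] in
theorem mv1_Wv {a b a' b' : Fn K C} {U U' : Submodule F2 K} {S : Finset C}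
    (hab : ∀ c ∈ S, ∀ x ∈ U, a' c x = a c x ∧ b' c x = b c x) (hU : U' ≤ U) (v : Finset C) :
    Wv a' b' U' S v = Wv a b U' S v := by
  ext x
  rw [mem_Wv, mem_Wv]
  refine and_congr_right fun hx => forall₂_congr fun c hc => ?_
  rw [(hab c hc x (hU hx)).1, (hab c hc x (hU hx)).2]

omit [FiniteDimensional F2 K] in
theorem mv1_add_eq {x x0 u : K} : x + u = x0 ↔ x = x0 + u := by
  constructor
  · rintro rfl
    rw [add_assoc, k_add_self, add_zero]
  · rintro rfl
    rw [add_assoc, k_add_self, add_zero]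

theorem mv1_one_ne : (1 : F2) ≠ 0 := by decide

theorem mv1_wt0 : wt 0 = 1 := if_pos rfl

theorem mv1_wt1 : wt 1 = -2 := if_neg mv1_one_ne

theorem V_flip {a b a' b' : Fn K C} {U : Submodule F2 K} {S : Finset C} {x0 : K} {q : ℤ} {c1 : C}
    (h1 : c1 ∈ S) (hx : x0 ∈ U) (hc : ∀ x ∈ U, a' c1 x = b c1 x ∧ b' c1 x = a c1 x)
    (hab : ∀ c ∈ S, c ≠ c1 → ∀ x ∈ U, a' c x = a c x ∧ b' c x = b c x)
    (ha : a c1 x0 = 0) (hb : b c1 x0 = 1) (h : V a b U S x0 q) : V a' b' U S x0 (q - 2) := by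
  have n1 : c1 ∉ S.erase c1 := Finset.notMem_erase c1 S
  have hS : ∀ c, c ∈ S ↔ c = c1 ∨ c ∈ S.erase c1 := fun c => by
    rw [Finset.mem_erase]
    constructor
    · intro h
      by_cases e : c = c1
      · exact Or.inl e
      · exact Or.inr ⟨e, h⟩
    · rintro (rfl | h)
      · exact h1
      · exact h.2
  have hab' : ∀ c ∈ S.erase c1, ∀ x ∈ U, a' c x = a c x ∧ b' c x = b c x := fun c hc =>
    hab c (Finset.mem_erase.1 hc).2 (Finset.mem_erase.1 hc).1
  obtain ⟨z, hz⟩ := (V_split1 n1 hS).1 h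
  have esh : sh a' (S.erase c1) x0 = sh a (S.erase c1) x0 :=
    Finset.sum_congr rfl fun c hc => by rw [(hab' c hc x0 hx).1]
  refine (V_split1 n1 hS).2 ⟨fun t => cond t (z false) fun _ _ => 0, ?_, ?_, ?_⟩
  · rintro (_ | _) v hv x hxv h0
    · exact dd_zero
    · rw [mv1_Wv hab' le_rfl] at hxv
      have e : dd a' (z false) v x = dd a (z false) v x :=
        Finset.sum_congr rfl fun c hc => by rw [(hab' c (hv hc) x hxv.1).1]
      change dd a' (z false) v x = (1 + a' c1 x) * 0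
      rw [e, mul_zero]
      exact hz.cyc false v hv x hxv ((hc x hxv.1).2.symm.trans h0)
  · rintro (_ | _) v hv x hxv h0 hn hs
    · refine iff_of_false (fun e => mv1_one_ne e.symm) ?_
      rintro rfl
      exact mv1_one_ne (hb.symm.trans ((hc _ hx).1.symm.trans h0))
    · rw [mv1_Wv hab' le_rfl] at hxv
      refine hz.val false v hv x hxv ((hc x hxv.1).2.symm.trans h0) (fun c hc' => ?_) ?_
      · rw [← (hab' c hc' x hxv.1).1, ← (hab' c hc' x hxv.1).2]
        exact hn c hc'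
      · rw [← (hc x hxv.1).1, ← (hc x hxv.1).2, add_comm]
        exact hs
  · rintro (_ | _)
    · exact L.zero _
    · have k : L a b (U ⊓ LinearMap.ker (b' c1)) (S.erase c1) (z false) _ :=
        (hz.lev false).of_iff fun x => and_congr_right fun hxU => by
          change b' c1 x = 0 ↔ a c1 x = 0
          rw [(hc x hxU).2]
      intro v hv
      change Lev (Wv a' b' (U ⊓ LinearMap.ker (b' c1)) _ v) (z false v) _
      rw [mv1_Wv hab' inf_le_left]
      refine (k v hv).mono (le_of_eq ?_)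
      rw [esh, (hc x0 hx).1, ha, hb, mv1_wt0, mv1_wt1]
      simp only [cond_true, cond_false]
      ring

theorem V_r1 {a b : Fn K C} {U U' : Submodule F2 K} {S S' : Finset C} {x0 u : K} {q : ℤ} {c1 : C}
    (h1 : c1 ∉ S) (hS : ∀ c, c ∈ S' ↔ c = c1 ∨ c ∈ S) (j : K →ₗ[F2] F2) (hu : Nul a b S u)
    (huU : u ∈ U') (hj : j u = 1) (hU : ∀ x, x ∈ U ↔ x ∈ U' ∧ j x = 0)
    (hs : (∀ x ∈ U', a c1 x = 0 ∧ b c1 x = j x) ∨ ∀ x ∈ U', a c1 x = j x ∧ b c1 x = 0)
    (hx : x0 ∈ U) : V a b U S x0 q ↔ V a b U' S' (x0 + u) q := by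
  have hxu : x0 + u ∈ U' := U'.add_mem ((hU x0).1 hx).1 huU
  have ju : ∀ x ∈ U, j (x + u) = 1 := fun x hx => by rw [map_add, ((hU x).1 hx).2, hj, zero_add]
  have down : ∀ v, ∀ x ∈ Wv a b U' S v, x + j x • u ∈ Wv a b U S v := fun v x hxv =>
    Wv.shift hxv hu _ ((hU _).2 ⟨U'.add_mem hxv.1 (U'.smul_mem _ huU), by
      rw [map_add, map_smul, hj, smul_eq_mul, mul_one, f2_add_self]⟩)
  have up0 : ∀ v, ∀ x ∈ Wv a b U S v, x ∈ Wv a b U' S v := fun v x hxv =>
    Wv.of_mem hxv ((hU x).1 hxv.1).1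
  have up1 : ∀ v, ∀ x ∈ Wv a b U S v, x + u ∈ Wv a b U' S v := fun v x hxv =>
    Wv.shift' hxv hu (U'.add_mem ((hU x).1 hxv.1).1 huU)
  rw [V_split1 h1 hS, sh_shift' hu]
  rcases hs with hs | hs
  · rw [(hs _ hxu).1, mv1_wt0]
    have iff0 : ∀ x, x ∈ U' ⊓ LinearMap.ker (a c1) ↔ x ∈ U' := fun x =>
      ⟨fun h => h.1, fun h => ⟨h, (hs x h).1⟩⟩
    constructor
    · rintro ⟨z, hcyc, hval, hlev⟩
      refine ⟨fun t => cond t (fun _ _ => 0) fun v x => (0 + j x) * z v (x + j x • u), ?_, ?_, ?_⟩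
      · rintro (_ | _) v hv x hxv h0
        · change dd a (fun v x => (0 + j x) * z v (x + j x • u)) v x = 0
          rw [dd_mul (y := fun v x => z v (x + j x • u)) (fun x => 0 + j x), dd_shift hv hu,
            hcyc v hv _ (down v x hxv), mul_zero]
        · change dd a (fun _ _ => 0) v x = (1 + a c1 x) * ((0 + j x) * z v (x + j x • u))
          have e : j x = 0 := (hs x hxv.1).2.symm.trans h0
          rw [dd_zero, e, add_zero, zero_mul, mul_zero]
      · rintro (_ | _) v hv x hxv h0 hn he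
        · have e : j x = 1 := by rw [← he, (hs x hxv.1).1, (hs x hxv.1).2, zero_add]
          change (0 + j x) * z v (x + j x • u) = 1 ↔ _
          have k := hval v hv _ (down v x hxv) (hn.shift hu _)
          rw [e, one_smul] at k ⊢
          rw [zero_add, one_mul, k, mv1_add_eq]
        · have h0' : b c1 x = 0 := h0
          rw [(hs x hxv.1).1, h0', add_zero] at he
          exact absurd he.symm mv1_one_ne
      · rintro (_ | _)
        · refine (((hlev.birth hu huU j hj hU).mul j 0).of_iff iff0).mono (le_of_eq ?_)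
          simp only [cond_false]
          ring
        · exact L.zero _
    · rintro ⟨z, hz⟩
      refine ⟨fun v x => z false v x + z false v (x + u), fun v hv x hxv => ?_,
        fun v hv x hxv hn => ?_, ?_⟩
      · rw [dd_add (y := z false) (y' := fun v x => z false v (x + u)), dd_shift' hv hu,
          hz.cyc false v hv x (up0 v x hxv) (hs x (up0 v x hxv).1).1,
          hz.cyc false v hv _ (up1 v x hxv) (hs _ (up1 v x hxv).1).1]
        exact add_zero _
      · have k := hz.cyc true v hv x (up0 v x hxv)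
          ((hs x (up0 v x hxv).1).2.trans ((hU x).1 hxv.1).2)
        rw [dd_nm hv hxv hn] at k
        change 0 = (1 + a c1 x) * z false v x at k
        rw [(hs x (up0 v x hxv).1).1, add_zero, one_mul] at k
        change z false v x + z false v (x + u) = 1 ↔ _
        rw [← k, zero_add, hz.val false v hv _ (up1 v x hxv) (hs _ (up1 v x hxv).1).1
          (hn.shift' hu) (by
            rw [(hs _ (up1 v x hxv).1).1, (hs _ (up1 v x hxv).1).2, ju x hxv.1, zero_add]),
          add_left_inj]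
      · refine (((hz.lev false).of_iff fun x => (iff0 x).symm).death hu huU j hU).mono
          (le_of_eq ?_)
        simp only [cond_false]
        ring
  · rw [(hs _ hxu).1, ju x0 hx, mv1_wt1]
    have iff1 : ∀ x, x ∈ U' ⊓ LinearMap.ker (b c1) ↔ x ∈ U' := fun x =>
      ⟨fun h => h.1, fun h => ⟨h, (hs x h).2⟩⟩
    constructor
    · rintro ⟨z, hcyc, hval, hlev⟩
      refine ⟨fun t => cond t (fun v x => z v (x + j x • u)) fun _ _ => 0, ?_, ?_, ?_⟩
      · rintro (_ | _) v hv x hxv h0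
        · exact dd_zero
        · change dd a (fun v x => z v (x + j x • u)) v x = (1 + a c1 x) * 0
          rw [dd_shift hv hu, hcyc v hv _ (down v x hxv), mul_zero]
      · rintro (_ | _) v hv x hxv h0 hn he
        · have h0' : a c1 x = 0 := h0
          rw [(hs x hxv.1).2, h0', add_zero] at he
          exact absurd he.symm mv1_one_ne
        · have e : j x = 1 := by rw [← he, (hs x hxv.1).1, (hs x hxv.1).2, add_zero]
          change z v (x + j x • u) = 1 ↔ _
          rw [hval v hv _ (down v x hxv) (hn.shift hu _), e, one_smul, mv1_add_eq]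
      · rintro (_ | _)
        · exact L.zero _
        · refine ((hlev.birth hu huU j hj hU).of_iff iff1).mono (le_of_eq ?_)
          simp only [cond_true]
          ring
    · rintro ⟨z, hz⟩
      refine ⟨fun v x => z true v (x + u), fun v hv x hxv => ?_, fun v hv x hxv hn => ?_, ?_⟩
      · rw [dd_shift' hv hu, hz.cyc true v hv _ (up1 v x hxv) (hs _ (up1 v x hxv).1).2]
        change (1 + a c1 (x + u)) * z false v (x + u) = 0
        rw [(hs _ (up1 v x hxv).1).1, ju x hxv.1, f2_add_self, zero_mul]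
      · change z true v (x + u) = 1 ↔ _
        rw [hz.val true v hv _ (up1 v x hxv) (hs _ (up1 v x hxv).1).2 (hn.shift' hu) (by
            rw [(hs _ (up1 v x hxv).1).1, (hs _ (up1 v x hxv).1).2, ju x hxv.1, add_zero]),
          add_left_inj]
      · refine (((hz.lev true).of_iff fun x => (iff1 x).symm).restr hu huU j hU).mono
          (le_of_eq ?_)
        simp only [cond_true]
        ring

end Pool.Agent.Lib.MP_4d7d0a_gt.ODA
end
end

-- part Pool.Agent.Lib.MP_4d7d0a_gt.OEG3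
section

/-! First Reidemeister move, crossing change, saddle. -/

set_option autoImplicit false

open Set
open scoped Classical

noncomputable section

namespace Pool.Agent.Lib.MP_4d7d0a_gt.ODA

theorem oeg3_off {ι : Type} {e f a b : ι} : OD.Off1 e f a b ↔ s(a, b) ≠ s(e, f) := by
  simp only [OD.Off1, ne_eq, Sym2.eq_iff, not_or]

theorem oeg3_col {ι : Type} [Finite ι] {e f g : ι} (hef : e ≠ f) (P : ι → Prop) (y : ι → F2) :
    col g P ((y, fun c => if c = s(e, f) then 1 else 0) : KK ι) =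
      y g + if (g = e ∧ P f) ∨ (g = f ∧ P e) then 1 else 0 := by
  rw [col_apply]
  congr 1
  split_ifs with h
  · rcases h with ⟨rfl, h⟩ | ⟨rfl, h⟩
    · rw [Finset.sum_eq_single_of_mem f (mem_fs.2 h)]
      · simp
      · intro k _ hk
        simp [hk, hef]
    · rw [Finset.sum_eq_single_of_mem e (mem_fs.2 h)]
      · simp [Sym2.eq_swap]
      · intro k _ hk
        simp [hk, hef.symm]
  · refine Finset.sum_eq_zero fun k hk => ?_
    have hk' := mem_fs.1 hk
    refine if_neg fun h1 => h ?_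
    rcases Sym2.eq_iff.1 h1 with ⟨h2, h3⟩ | ⟨h2, h3⟩
    · exact Or.inl ⟨h2, h3 ▸ hk'⟩
    · exact Or.inr ⟨h2, h3 ▸ hk'⟩

theorem vv_r1 : ∀ {ι : Type} [Finite ι] (D D' : OD ι) (e : ι) (q : ℤ), D.WF → D'.WF → D.σ = D'.σ →
    D.σ (D.σ e) ≠ e → D.Agree D' (OD.Off1 e (D.σ (D.σ e))) → ¬ D.X e (D.σ (D.σ e)) →
    D'.X e (D.σ (D.σ e)) → D'.Last e (D.σ (D.σ e)) → D'.First (D.σ (D.σ e)) e →
    (∀ g, ¬ D'.X (D.σ e) g) → (VV D q ↔ VV D' q) := by
  intro ι _ D D' e q hD hD' hσ hne hA hX hX' hL hF hN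
  obtain ⟨e1, h1⟩ : ∃ e1, D.σ e = e1 := ⟨_, rfl⟩
  rw [h1] at hne hA hX hX' hL hF hN
  obtain ⟨e2, h2⟩ : ∃ e2, D.σ e1 = e2 := ⟨_, rfl⟩
  rw [h2] at hne hA hX hX' hL hF
  have n1 : e1 ≠ e := fun h => hne (by rw [← h2, h, h1, h])
  have n2 : e1 ≠ e2 := fun h => n1 (D.σ.injective (by rw [h1, h2, h]))
  have s1 : ∀ g, D.σ g = e1 ↔ g = e := fun g => by rw [← h1, D.σ.injective.eq_iff]
  have s2 : ∀ g, D.σ g = e2 ↔ g = e1 := fun g => by rw [← h2, D.σ.injective.eq_iff]
  have c1 : s(e, e2) ∉ SS D := fun h => hX ((mk_mem_SS hD).1 h)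
  have xo : ∀ g h, D.X g h → s(g, h) ≠ s(e, e2) := fun g h hx h3 =>
    c1 (h3 ▸ (mk_mem_SS hD).2 hx)
  have xx : ∀ g h, s(g, h) ≠ s(e, e2) → (D.X g h ↔ D'.X g h) := fun g h h3 =>
    hA.1 g h (oeg3_off.2 h3)
  have hS : ∀ c, c ∈ SS D' ↔ c = s(e, e2) ∨ c ∈ SS D := fun c => by
    induction c using Sym2.ind with
    | _ g h =>
      by_cases h3 : s(g, h) = s(e, e2)
      · rw [h3]
        exact ⟨fun _ => Or.inl rfl, fun _ => (mk_mem_SS hD').2 hX'⟩
      · rw [mk_mem_SS hD', mk_mem_SS hD, xx g h h3]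
        exact ⟨Or.inr, fun h4 => h4.resolve_left h3⟩
  have j0 : ∀ x : KK ι, x.2 s(e, e2) = 0 → ∀ g k, x.2 s(g, k) = 1 → s(g, k) ≠ s(e, e2) :=
    fun x hx g k h3 h4 => by
      rw [h4, hx] at h3
      exact zero_ne_one h3
  have een : ∀ x : KK ι, x.2 s(e, e2) = 0 → ∀ g, en D g x = en D' g x := fun x hx g =>
    col_congr fun k hk => xx g k (j0 x hx g k hk)
  have einc : ∀ x : KK ι, x.2 s(e, e2) = 0 → ∀ g h, D.X g h → inc D g h x = inc D' g h x :=
    fun x hx g h hgh => col_congr fun k hk => by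
      have h3 := j0 x hx g k hk
      constructor
      · rintro ⟨h4, h5⟩
        exact ⟨(xx g k h3).1 h4,
          (hA.2.2 g k h (oeg3_off.2 h3) (oeg3_off.2 (xo g h hgh)) h4 hgh).1 h5⟩
      · rintro ⟨h4, h5⟩
        have h6 := (xx g k h3).2 h4
        exact ⟨h6, (hA.2.2 g k h (oeg3_off.2 h3) (oeg3_off.2 (xo g h hgh)) h6 hgh).2 h5⟩
  have hU : ∀ x, x ∈ BB D ↔ x ∈ BB D' ∧ jj s(e, e2) x = 0 := fun x => by
    constructor
    · intro hx
      have h3 : x.2 s(e, e2) = 0 := hx.1 _ c1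
      exact ⟨⟨fun c hc => hx.1 c fun h4 => hc ((hS c).2 (Or.inr h4)),
        fun g => by rw [← hσ, ← een x h3, hx.2 g]⟩, h3⟩
    · rintro ⟨hx, h3⟩
      refine ⟨fun c hc => ?_, fun g => by rw [hσ, een x h3, hx.2 g]⟩
      by_cases h4 : c = s(e, e2)
      · rw [h4]
        exact h3
      · exact hx.1 c fun h5 => ((hS c).1 h5).elim h4 hc
  set u : KK ι := (fun g => if g = e1 ∨ g = e2 then 1 else 0,
    fun c => if c = s(e, e2) then 1 else 0) with hu
  have u2 : ∀ c, c ≠ s(e, e2) → u.2 c = 0 := fun c hc => if_neg hc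
  have u1 : u.2 s(e, e2) = 1 := if_pos rfl
  have one : (1 : F2) + 1 = 0 := f2_add_self 1
  have uinc : ∀ g h, D.X g h → inc D' g h u = 0 := fun g h hgh => by
    have h3 := xo g h hgh
    have h4 := (xx g h h3).1 hgh
    rw [inc, hu, oeg3_col hne.symm]
    by_cases g1 : g = e
    · subst g1
      have h5 := hL h h4
      simp [n1.symm, hne.symm, not_lt.2 h5]
    · by_cases g2 : g = e2
      · subst g2
        have h5 : D'.t g e < D'.t g h := lt_of_le_of_ne (hF h h4) fun h6 =>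
          h3 (by rw [← hD'.2.2.2 g e h (hD'.1 _ _ hX') h4 h6, Sym2.eq_swap])
        simp [h5, hD'.1 _ _ hX', one]
      · have g3 : g ≠ e1 := fun h5 => hN h (h5 ▸ h4)
        simp [g1, g2, g3]
  have uB : u ∈ BB D' := by
    refine ⟨fun c hc => u2 c fun h3 => hc ((hS c).2 (Or.inl h3)), fun g => ?_⟩
    rw [← hσ, en, hu, oeg3_col hne.symm]
    simp only [s1, s2]
    by_cases g1 : g = e
    · subst g1
      simp [n1.symm, hne.symm, hX']
    · by_cases g2 : g = e2
      · subst g2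
        simp [g1, n2.symm, hD'.1 _ _ hX', one]
      · simp [g1, g2]
  have hdel : ∀ x ∈ BB D', inc D' e e2 x + inc D' e2 e x = x.2 s(e, e2) := fun x hx => by
    have h3 := inc_last hD' hX' hL x
    have h4 := inc_first hF x
    have h5 := hx.2 e
    have h6 := hx.2 e1
    rw [← hσ, h1] at h5
    rw [← hσ, h2, en_none hN] at h6
    rw [h4, h6, h5, h3, ← add_assoc, f2_add_self, zero_add]
  have hnul : Nul (aa D') (bb D') (SS D) u := fun c hc => by
    obtain ⟨g, h, rfl, hgh⟩ := mem_SS.1 hc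
    exact ab_null hD' ((xx g h (xo g h hgh)).1 hgh)
      (by rw [uinc g h hgh, uinc h g (hD.1 _ _ hgh), add_zero]) (u2 _ (xo g h hgh))
  have key : ∀ x ∈ BB D, (V (aa D) (bb D) (BB D) (SS D) x q ↔
      V (aa D') (bb D') (BB D') (SS D') (x + u) q) := fun x hx => by
    rw [← V_r1 c1 hS (jj s(e, e2)) hnul uB u1 hU ?_ hx]
    · refine V_congr (fun c hc y hy => ?_) hx
      obtain ⟨g, h, rfl, hgh⟩ := mem_SS.1 hc
      have h3 : y.2 s(e, e2) = 0 := hy.1 _ c1
      have h4 := ab_eq (x := y) (x' := y) hD hD' hgh ((xx g h (xo g h hgh)).1 hgh)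
        (hA.2.1 g h (oeg3_off.2 (xo g h hgh)) hgh) 0
        (by rw [einc y h3 g h hgh, einc y h3 h g (hD.1 _ _ hgh), add_zero]) rfl
      simpa using h4
    · by_cases h3 : D'.sg e e2
      · refine Or.inl fun y hy => ?_
        have h4 := aa_pos hD' hX' h3 y
        rw [hdel y hy, f2_add_self] at h4
        exact h4
      · refine Or.inr fun y hy => ?_
        have h4 := aa_neg hD' hX' h3 y
        rw [hdel y hy, f2_add_self] at h4
        exact h4
  constructor
  · rintro ⟨x, hx, hV⟩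
    have h3 : x.2 s(e, e2) = 0 := hx.1.1 _ c1
    have h4 : x + u ∈ BB D' := (BB D').add_mem ((hU x).1 hx.1).1 uB
    have h5 : (x + u).2 s(e, e2) = 1 := by
      rw [Prod.snd_add, Pi.add_apply, h3, u1, zero_add]
    refine ⟨x + u, ⟨h4, fun g h hgh => ?_⟩, (key x hx.1).1 hV⟩
    by_cases h6 : s(g, h) = s(e, e2)
    · refine ⟨by rw [h6, h5], ?_⟩
      rcases Sym2.eq_iff.1 h6 with ⟨rfl, rfl⟩ | ⟨rfl, rfl⟩
      · rw [hdel _ h4, h5]
      · rw [add_comm, hdel _ h4, h5]
    · have h7 := (xx g h h6).2 hgh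
      have h8 := hx.2 g h h7
      refine ⟨by rw [Prod.snd_add, Pi.add_apply, h8.1, u2 _ h6, add_zero], ?_⟩
      rw [map_add, map_add, uinc g h h7, uinc h g (hD.1 _ _ h7), add_zero, add_zero,
        ← einc x h3 g h h7, ← einc x h3 h g (hD.1 _ _ h7), h8.2]
  · rintro ⟨y, hy, hV⟩
    have h3 : (y + u).2 s(e, e2) = 0 := by
      rw [Prod.snd_add, Pi.add_apply, (hy.2 e e2 hX').1, u1, one]
    have h4 : y + u ∈ BB D := (hU _).2 ⟨(BB D').add_mem hy.1 uB, h3⟩
    refine ⟨y + u, ⟨h4, fun g h hgh => ?_⟩, (key _ h4).2 ?_⟩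
    · have h8 := hy.2 g h ((xx g h (xo g h hgh)).1 hgh)
      refine ⟨by rw [Prod.snd_add, Pi.add_apply, h8.1, u2 _ (xo g h hgh), add_zero], ?_⟩
      rw [einc _ h3 g h hgh, einc _ h3 h g (hD.1 _ _ hgh), map_add, map_add, uinc g h hgh,
        uinc h g (hD.1 _ _ hgh), add_zero, add_zero, h8.2]
    · rwa [add_assoc, k_add_self, add_zero]

theorem vv_flip : ∀ {ι : Type} [Finite ι] (D D' : OD ι) (e f : ι) (q : ℤ), D.WF → D'.WF → D.σ = D'.σ →
    D.X = D'.X → D.t = D'.t → D.X e f → D.sg e f → ¬ D'.sg e f →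
    (∀ a b, OD.Off1 e f a b → D.X a b → (D.sg a b ↔ D'.sg a b)) → VV D q → VV D' (q - 2) := by
  rintro ι _ ⟨σ, X, t, sg⟩ ⟨σ', X', t', sg'⟩ e f q hD hD' h1 h2 h3 hX hs hs' ho ⟨x, hx, hV⟩
  dsimp only at h1 h2 h3
  subst h1 h2 h3
  refine ⟨x, hx, ?_⟩
  refine V_flip ((mk_mem_SS hD).2 hX) hx.1 (fun y _ => ?_) (fun c hc hne y _ => ?_)
    ((hx.aa_eq hD hX).2 hs) ?_ hV
  · exact ⟨(aa_neg hD' hX hs' y).1.trans (aa_pos hD hX hs y).2.symm,
      (aa_neg hD' hX hs' y).2.trans (aa_pos hD hX hs y).1.symm⟩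
  · obtain ⟨g, h, rfl, hgh⟩ := mem_SS.1 hc
    have h4 := ab_eq (x := y) (x' := y) hD hD' hgh hgh (ho g h (oeg3_off.2 hne) hgh) 0
      (by rw [add_zero]; rfl) rfl
    simpa using h4
  · rw [(aa_pos hD hX hs x).2]
    exact (hx.2 e f hX).2

theorem vv_saddle : ∀ {ι : Type} [Finite ι] (D D' : OD ι) (a c : ι) (q : ℤ), D.WF → a ≠ c →
    D'.σ a = D.σ c → D'.σ c = D.σ a → (∀ g, g ≠ a → g ≠ c → D'.σ g = D.σ g) →
    D.X = D'.X → D.t = D'.t → D.sg = D'.sg → (∀ g, ¬ D.X a g) → (∀ g, ¬ D.X c g) →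
    (∃ κ, D.Adm κ ∧ κ a = κ c) → VV D q → VV D' (q - 1) := by
  rintro ι _ ⟨σ, X, t, sg⟩ ⟨σ', X', t', sg'⟩ a c q hD hac s1 s2 s3 h1 h2 h3 ha hc ⟨κ, hκ, hk⟩ hV
  dsimp only at h1 h2 h3 s1 s2 s3
  subst h1 h2 h3
  obtain ⟨x, hx, rfl⟩ := ori_of_adm hD hκ
  have hl : ∀ y : KK ι, (st (σ a) + st (σ c)) y = y.1 (σ a) + y.1 (σ c) := fun _ => rfl
  have he : ∀ y : KK ι, (st (σ a) + st (σ c)) y = 0 →
      (y ∈ BB (⟨σ, X, t, sg⟩ : OD ι) ↔ y ∈ BB (⟨σ', X, t, sg⟩ : OD ι)) := fun y hy => by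
    rw [hl] at hy
    have h4 : y.1 (σ a) = y.1 (σ c) := by
      rw [← add_zero (y.1 (σ a)), ← hy, ← add_assoc, f2_add_self, zero_add]
    have h5 : ∀ g, y.1 (σ' g) = y.1 (σ g) := fun g => by
      by_cases g1 : g = a
      · rw [g1, s1, h4]
      · by_cases g2 : g = c
        · rw [g2, s2, h4]
        · rw [s3 g g1 g2]
    exact ⟨fun h => ⟨h.1, fun g => (h5 g).trans (h.2 g)⟩,
      fun h => ⟨h.1, fun g => (h5 g).symm.trans (h.2 g)⟩⟩
  have h0 : (st (σ a) + st (σ c)) x = 0 := by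
    have h4 : x.1 (σ a) = x.1 a := (hx.1.2 a).trans (en_none ha x)
    have h5 : x.1 (σ c) = x.1 c := (hx.1.2 c).trans (en_none hc x)
    rw [hl, h4, h5, hk, f2_add_self]
  refine ⟨x, ⟨(he x h0).1 hx.1, hx.2⟩, ?_⟩
  refine V_saddle (st (σ a) + st (σ c)) he (fun y hy y' hy' => ?_) h0 (hV.at hD hx)
  refine (om_formula hD y y').trans ?_
  rw [Finset.sum_add_distrib]
  have h4 : ∑ e ∈ fs (fun _ : ι => True), y.1 e * y'.1 e =
      ∑ e ∈ fs (fun _ : ι => True), y.1 (σ e) * y'.1 (σ e) :=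
    (Finset.sum_equiv σ (fun _ => by simp) fun _ _ => rfl).symm
  have h5 : ∑ e ∈ fs (fun _ : ι => True),
      en (⟨σ, X, t, sg⟩ : OD ι) e y * en (⟨σ, X, t, sg⟩ : OD ι) e y' =
      ∑ e ∈ fs (fun _ : ι => True), y.1 (σ e) * y'.1 (σ' e) :=
    Finset.sum_congr rfl fun e _ => congrArg₂ (· * ·) (hy.2 e).symm (hy'.2 e).symm
  rw [h4, h5, ← Finset.sum_add_distrib,
    Finset.sum_eq_add_of_mem a c (by simp) (by simp) hac fun g _ hg => by
      rw [s3 g hg.1 hg.2, f2_add_self], s1, s2, hl, hl]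
  ring

end Pool.Agent.Lib.MP_4d7d0a_gt.ODA
end
end

-- part Pool.Agent.Lib.MP_4d7d0a_gt.OEMv2
section

/-! Second Reidemeister move for cubes. -/

set_option autoImplicit false

open scoped Classical

noncomputable section

namespace Pool.Agent.Lib.MP_4d7d0a_gt.ODA

variable {K C : Type} [AddCommGroup K] [Module F2 K] [FiniteDimensional F2 K]

theorem mv2_mem {U' : Submodule F2 K} {P R : K →ₗ[F2] F2} {x : K} :
    x ∈ U' ⊓ LinearMap.ker P ⊓ LinearMap.ker R ↔ x ∈ U' ∧ P x = 0 ∧ R x = 0 := by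
  simp only [Submodule.mem_inf, LinearMap.mem_ker, and_assoc]

theorem mv2_eq_iff {x y u : K} : x + u = y ↔ x = y + u := by
  constructor
  · rintro rfl
    rw [add_assoc, k_add_self, add_zero]
  · rintro rfl
    rw [add_assoc, k_add_self, add_zero]

theorem mv2_mem_iff {U' : Submodule F2 K} {u : K} (huU : u ∈ U') (x : K) (t : F2) :
    x + t • u ∈ U' ↔ x ∈ U' :=
  U'.add_mem_iff_left (U'.smul_mem t huU)

section

variable {a b : Fn K C} {U U' : Submodule F2 K} {S : Finset C} {x0 u : K} {q : ℤ}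
  {A1 B1 A2 B2 : K →ₗ[F2] F2}

theorem mv2_shear (huU : u ∈ U') (hb1 : B1 u = 1) (ha2 : A2 u = 1)
    (hQ : ∀ x ∈ U', A1 x = B2 x)
    (hU : ∀ x, x ∈ U ↔ x ∈ U' ∧ A1 x + B1 x = 0 ∧ A2 x + B2 x = 0) (x : K) :
    x ∈ U ↔ x + A1 x • u ∈ U' ⊓ LinearMap.ker B1 ⊓ LinearMap.ker A2 := by
  rw [mv2_mem, hU, mv2_mem_iff huU]
  refine and_congr_right fun hx => ?_
  simp only [map_add, map_smul, smul_eq_mul, hb1, ha2, mul_one, ← hQ x hx, add_comm (A1 x)]

theorem mv2_shear' (huU : u ∈ U') (ha1 : A1 u = 0) (hb1 : B1 u = 1) (ha2 : A2 u = 1)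
    (hQ : ∀ x ∈ U', A1 x = B2 x)
    (hU : ∀ x, x ∈ U ↔ x ∈ U' ∧ A1 x + B1 x = 0 ∧ A2 x + B2 x = 0) (x : K) :
    x ∈ U' ⊓ LinearMap.ker B1 ⊓ LinearMap.ker A2 ↔ x + A1 x • u ∈ U := by
  rw [mv2_shear huU hb1 ha2 hQ hU]
  have e : x + A1 x • u + A1 (x + A1 x • u) • u = x := by
    rw [map_add, map_smul, ha1, smul_zero, add_zero, add_assoc, k_add_self, add_zero]
  rw [e]

theorem mv2_fwd (hu : Nul a b S u) (huU : u ∈ U') (ha1 : A1 u = 0) (hb1 : B1 u = 1)
    (ha2 : A2 u = 1) (hQ : ∀ x ∈ U', A1 x = B2 x)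
    (hU : ∀ x, x ∈ U ↔ x ∈ U' ∧ A1 x + B1 x = 0 ∧ A2 x + B2 x = 0)
    (hI : ∀ x ∈ U', ∀ x' ∈ U', om a b S x x' =
      (A1 x * B1 x' + B1 x * A1 x') + (A2 x * B2 x' + B2 x * A2 x'))
    {z : Ch K C} (hc : ∀ v ⊆ S, ∀ x ∈ Wv a b U S v, dd a z v x = 0)
    (hv : ∀ v ⊆ S, ∀ x ∈ Wv a b U S v, NM a b S x → (z v x = 1 ↔ x = x0))
    (hl : L a b U S z q) : ∃ z', G2 a b U' S A1 B1 A2 B2 (x0 + u) (q + 1) z' := by
  have hb2 : B2 u = 0 := (hQ u huU).symm.trans ha1
  have hsh := mv2_shear' huU ha1 hb1 ha2 hQ hU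
  have l10 := hl.shear hu A1 ha1 hsh
  have l11 := l10.saddle (U' := U' ⊓ LinearMap.ker B1 ⊓ LinearMap.ker B2) (A2 + B2)
    (fun x hx => by
      rw [mv2_mem, mv2_mem]
      rw [LinearMap.add_apply] at hx
      have e : A2 x = B2 x := by linear_combination hx - f2_add_self (B2 x)
      rw [e])
    (fun x hx x' hx' => by
      obtain ⟨h1, h2, h3⟩ := mv2_mem.1 hx
      obtain ⟨h4, h5, h6⟩ := mv2_mem.1 hx'
      rw [hI x h1 x' h4, LinearMap.add_apply, LinearMap.add_apply, h2, h3, h5, h6]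
      ring)
  have l01 := l11.birth (U' := U' ⊓ LinearMap.ker A1 ⊓ LinearMap.ker B2) hu
    (mv2_mem.2 ⟨huU, ha1, hb2⟩) B1 hb1 (fun x => by
      rw [mv2_mem, mv2_mem]
      exact ⟨fun h => ⟨⟨h.1, (hQ x h.1).trans h.2.2, h.2.2⟩, h.2.1⟩,
        fun h => ⟨h.1.1, h.2, h.1.2.2⟩⟩)
  have c10 : ∀ v ⊆ S, ∀ x ∈ Wv a b U' S v, B1 x = 0 → A2 x = 0 →
      dd a (fun v x => z v (x + A1 x • u)) v x = 0 := fun v hvS x hx h1 h2 => by
    rw [dd_shift hvS hu]
    exact hc v hvS _ (Wv.shift hx hu _ ((hsh x).1 (mv2_mem.2 ⟨hx.1, h1, h2⟩)))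
  refine ⟨fun t1 t2 => cond t1 (cond t2 (fun _ _ => 0) fun v x => z v (x + A1 x • u))
    (cond t2 (fun v x => (1 + (A2 + B2) (x + B1 x • u)) *
      z v (x + B1 x • u + A1 (x + B1 x • u) • u)) fun _ _ => 0), ?_, ?_, ?_⟩
  · intro t1 t2 v hvS x hx h1 h2
    cases t1 <;> cases t2 <;> simp only [cond_true, cond_false] at h1 h2 ⊢
    · rw [dd_zero, add_zero]
    · rw [mul_zero, add_zero]
      refine (dd_shift (y := fun v x => (1 + (A2 + B2) x) * z v (x + A1 x • u)) hvS hu B1).trans ?_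
      rw [dd_mul (y := fun v x => z v (x + A1 x • u)) fun x => 1 + (A2 + B2) x]
      have hx' := Wv.shift hx hu (B1 x) ((mv2_mem_iff huU x _).2 hx.1)
      have e1 : B1 (x + B1 x • u) = 0 := by
        rw [map_add, map_smul, hb1, smul_eq_mul, mul_one, f2_add_self]
      have e2 : B2 (x + B1 x • u) = 0 := by
        rw [map_add, map_smul, hb2, smul_zero, add_zero, h2]
      rcases f2_cases (A2 (x + B1 x • u)) with e3 | e3
      · rw [c10 v hvS _ hx' e1 e3, mul_zero]
      · rw [LinearMap.add_apply, e2, e3, add_zero, f2_add_self, zero_mul]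
    · rw [mul_zero, add_zero]
      exact c10 v hvS x hx h1 h2
    · have e1 : A1 x = 0 := (hQ x hx.1).trans h2
      simp only [dd_zero, h1, zero_smul, add_zero, e1, one_mul, LinearMap.add_apply, h2]
      exact (f2_add_self _).symm
  · intro t1 t2 v hvS x hx h1 h2 hn h3 h4
    have hq := hQ x hx.1
    have hxu : x + u ∈ U' := U'.add_mem hx.1 huU
    cases t1 <;> cases t2 <;> simp only [cond_true, cond_false] at h1 h2 ⊢
    · rw [h2, ← hq, h1] at h4
      exact absurd h4 (by decide)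
    · rw [h1, zero_add] at h3
      rw [h2, add_zero] at h4
      have e1 : A1 (x + u) = 0 := by rw [map_add, h1, ha1, add_zero]
      have e2 : B1 (x + u) = 0 := by rw [map_add, h3, hb1, f2_add_self]
      have e3 : A2 (x + u) = 0 := by rw [map_add, h4, ha2, f2_add_self]
      have e4 : B2 (x + u) = 0 := by rw [map_add, h2, hb2, add_zero]
      rw [h3, one_smul, LinearMap.add_apply, e1, e3, e4, zero_smul, add_zero, add_zero, add_zero,
        one_mul, ← mv2_eq_iff]
      exact hv v hvS _ (Wv.shift' hx hu ((hU _).2 ⟨hxu, by rw [e1, e2, add_zero],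
        by rw [e3, e4, add_zero]⟩)) (hn.shift' hu)
    · rw [h1, add_zero] at h3
      have h5 := (hsh x).1 (mv2_mem.2 ⟨hx.1, h1, h2⟩)
      rw [h3, one_smul] at h5 ⊢
      rw [← mv2_eq_iff]
      exact hv v hvS _ (Wv.shift' hx hu h5) (hn.shift' hu)
    · rw [h1, hq, h2] at h3
      exact absurd h3 (by decide)
  · intro t1 t2
    cases t1 <;> cases t2 <;> simp only [cond_true, cond_false]
    · exact L.zero _
    · exact l01.mono (by omega)
    · exact l10.mono (by omega)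
    · exact L.zero _

theorem mv2_bwd (hu : Nul a b S u) (huU : u ∈ U') (ha1 : A1 u = 0) (hb1 : B1 u = 1)
    (ha2 : A2 u = 1) (hQ : ∀ x ∈ U', A1 x = B2 x)
    (hU : ∀ x, x ∈ U ↔ x ∈ U' ∧ A1 x + B1 x = 0 ∧ A2 x + B2 x = 0)
    (hI : ∀ x ∈ U', ∀ x' ∈ U', om a b S x x' =
      (A1 x * B1 x' + B1 x * A1 x') + (A2 x * B2 x' + B2 x * A2 x'))
    {z' : Bool → Bool → Ch K C} (h : G2 a b U' S A1 B1 A2 B2 (x0 + u) (q + 1) z') :
    ∃ z : Ch K C, (∀ v ⊆ S, ∀ x ∈ Wv a b U S v, dd a z v x = 0) ∧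
      (∀ v ⊆ S, ∀ x ∈ Wv a b U S v, NM a b S x → (z v x = 1 ↔ x = x0)) ∧ L a b U S z q := by
  have hb2 : B2 u = 0 := (hQ u huU).symm.trans ha1
  have hsh := mv2_shear huU hb1 ha2 hQ hU
  have l01 := h.lev false true
  have l10 := h.lev true false
  simp only [cond_true, cond_false] at l01 l10
  have l00 := l01.death (U' := U' ⊓ LinearMap.ker A1 ⊓ LinearMap.ker A2) hu
    (mv2_mem.2 ⟨huU, ha1, hb2⟩) A2 (fun x => by
      rw [mv2_mem, mv2_mem]
      exact ⟨fun h => ⟨⟨h.1, h.2.1, (hQ x h.1).symm.trans h.2.1⟩, h.2.2⟩,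
        fun h => ⟨h.1.1, h.1.2.1, h.2⟩⟩)
  have ls := l00.saddle (U' := U' ⊓ LinearMap.ker B1 ⊓ LinearMap.ker A2) (A1 + B1)
    (fun x hx => by
      rw [mv2_mem, mv2_mem]
      rw [LinearMap.add_apply] at hx
      have e : A1 x = B1 x := by linear_combination hx - f2_add_self (B1 x)
      rw [e])
    (fun x hx x' hx' => by
      obtain ⟨h1, h2, h3⟩ := mv2_mem.1 hx
      obtain ⟨h4, h5, h6⟩ := mv2_mem.1 hx'
      rw [hI x h1 x' h4, LinearMap.add_apply, LinearMap.add_apply, h2, h3, h5, h6]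
      ring)
  have lw := ((l10.mono (q' := q) (by omega)).add (ls.mono (q' := q) (by omega))).shear hu A1 ha1
    hsh
  refine ⟨_, fun v hvS x hx => ?_, fun v hvS x hx hn => ?_, lw⟩
  · refine (dd_shift (y := fun v x => z' true false v x + (1 + (A1 + B1) x) *
      (z' false true v x + z' false true v (x + u))) hvS hu A1).trans ?_
    obtain ⟨h1, h2, h3⟩ := mv2_mem.1 ((hsh x).1 hx.1)
    have hx' := Wv.shift hx hu (A1 x) h1
    generalize x + A1 x • u = x' at h1 h2 h3 hx'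
    rw [dd_add (y := z' true false)
        (y' := fun v x => (1 + (A1 + B1) x) * (z' false true v x + z' false true v (x + u))),
      dd_mul (y := fun v x => z' false true v x + z' false true v (x + u))
        fun x => 1 + (A1 + B1) x,
      dd_add (y := z' false true) (y' := fun v x => z' false true v (x + u)), dd_shift' hvS hu]
    have k1 := h.cyc true false v hvS x' hx' h2 h3
    simp only [cond_true, cond_false] at k1
    rw [k1, LinearMap.add_apply, h2]
    rcases f2_cases (A1 x') with e | e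
    · have e' : B2 x' = 0 := (hQ x' h1).symm.trans e
      have k2 := h.cyc false true v hvS x' hx' e e'
      have k3 := h.cyc false true v hvS (x' + u) (Wv.shift' hx' hu (U'.add_mem h1 huU))
        (show A1 (x' + u) = 0 by rw [map_add, e, ha1, add_zero])
        (show B2 (x' + u) = 0 by rw [map_add, e', hb2, add_zero])
      simp only [cond_true, cond_false] at k2 k3
      rw [k2, k3, map_add, h3, ha2, e]
      simp only [add_zero, zero_add, one_mul, f2_add_self, zero_mul]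
    · rw [e]
      simp only [add_zero, f2_add_self, zero_mul]
  · obtain ⟨h1, h2, h3⟩ := (hU x).1 hx.1
    have hq := hQ x h1
    have hx' : x ∈ Wv a b U' S v := Wv.of_mem hx h1
    have hxu := Wv.shift' hx' hu (U'.add_mem h1 huU)
    rcases f2_cases (A1 x) with e | e
    · have e1 : B1 x = 0 := by rwa [e, zero_add] at h2
      have e2 : B2 x = 0 := hq.symm.trans e
      have e3 : A2 x = 0 := by rwa [e2, add_zero] at h3
      have k1 := h.cyc true true v hvS x hx' e1 e2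
      have k2 := h.val false true v hvS (x + u) hxu
        (show A1 (x + u) = 0 by rw [map_add, e, ha1, add_zero])
        (show B2 (x + u) = 0 by rw [map_add, e2, hb2, add_zero]) (hn.shift' hu)
        (by rw [map_add, map_add, e, ha1, e1, hb1]; rfl)
        (by rw [map_add, map_add, e3, ha2, e2, hb2]; rfl)
      simp only [cond_true] at k1
      rw [dd_nm hvS hx' hn, e, e3, add_zero, one_mul, one_mul] at k1
      simp only [e, zero_smul, add_zero, LinearMap.add_apply, e1, one_mul]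
      rw [← add_assoc, add_comm (z' true false v x), ← k1, zero_add, k2, add_left_inj]
    · have e1 : B1 x = 1 := by
        rw [e] at h2
        linear_combination h2 - f2_add_self 1
      have e2 : B2 x = 1 := hq.symm.trans e
      have e3 : A2 x = 1 := by
        rw [e2] at h3
        linear_combination h3 - f2_add_self 1
      have f1 : A1 (x + u) = 1 := by rw [map_add, e, ha1, add_zero]
      have f2 : B1 (x + u) = 0 := by rw [map_add, e1, hb1, f2_add_self]
      have f3 : A2 (x + u) = 0 := by rw [map_add, e3, ha2, f2_add_self]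
      have f4 : B2 (x + u) = 1 := by rw [map_add, e2, hb2, add_zero]
      have k2 := h.val true false v hvS (x + u) hxu f2 f3 (hn.shift' hu)
        (by rw [f1, f2, add_zero]) (by rw [f3, f4, zero_add])
      simp only [e, one_smul, LinearMap.add_apply, f1, f2, add_zero, f2_add_self, zero_mul]
      rw [k2, add_left_inj]

end

theorem V_r2 {a b : Fn K C} {U U' : Submodule F2 K} {S S' : Finset C} {x0 u : K} {q : ℤ}
    {c1 c2 : C} (h1 : c1 ∉ S) (h2 : c2 ∉ S) (h12 : c1 ≠ c2)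
    (hS : ∀ c, c ∈ S' ↔ c = c1 ∨ c = c2 ∨ c ∈ S) (hu : Nul a b S u) (huU : u ∈ U')
    (ha1 : a c1 u = 0) (hb1 : b c1 u = 1) (ha2 : a c2 u = 1)
    (hQ : ∀ x ∈ U', a c1 x = b c2 x)
    (hU : ∀ x, x ∈ U ↔ x ∈ U' ∧ a c1 x + b c1 x = 0 ∧ a c2 x + b c2 x = 0)
    (hI : ∀ x ∈ U', ∀ x' ∈ U', om a b S' x x' = 0) (hx : x0 ∈ U) :
    V a b U S x0 q ↔ V a b U' S' (x0 + u) q := by
  have hI' : ∀ x ∈ U', ∀ x' ∈ U', om a b S x x' =
      (a c1 x * b c1 x' + b c1 x * a c1 x') + (a c2 x * b c2 x' + b c2 x * a c2 x') := by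
    intro x hx x' hx'
    have h3 := hI x hx x' hx'
    rw [om_insert (S := insert c2 S) (c1 := c1)
        (by rw [Finset.mem_insert, not_or]; exact ⟨h12, h1⟩)
        (fun c => by rw [hS, Finset.mem_insert]),
      om_insert (S := S) (S' := insert c2 S) h2 fun c => Finset.mem_insert] at h3
    linear_combination h3 - f2_add_self (a c1 x * b c1 x' + b c1 x * a c1 x') -
      f2_add_self (a c2 x * b c2 x' + b c2 x * a c2 x')
  have hw : q - sh a S (x0 + u) - wt (a c1 (x0 + u)) - wt (a c2 (x0 + u)) =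
      q - sh a S x0 + 1 := by
    obtain ⟨h3, -, h5⟩ := (hU x0).1 hx
    have e : a c2 x0 = a c1 x0 := by
      rw [← hQ x0 h3] at h5
      linear_combination h5 - f2_add_self (a c1 x0)
    rw [sh_shift' hu, map_add, map_add, ha1, ha2, e, add_zero]
    rcases f2_cases (a c1 x0) with e1 | e1
    · rw [e1, zero_add]
      unfold wt
      rw [if_pos rfl, if_neg (by decide)]
      ring
    · rw [e1, f2_add_self]
      unfold wt
      rw [if_pos rfl, if_neg (by decide)]
      ring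
  rw [V_split2 h1 h2 h12 hS, hw]
  constructor
  · rintro ⟨z, hc, hv, hl⟩
    exact mv2_fwd hu huU ha1 hb1 ha2 hQ hU hI' hc hv hl
  · rintro ⟨z', h⟩
    exact mv2_bwd hu huU ha1 hb1 ha2 hQ hU hI' h

end Pool.Agent.Lib.MP_4d7d0a_gt.ODA
end
end

-- part Pool.Agent.Lib.MP_4d7d0a_gt.OEG4
section

/-! Second Reidemeister move. -/

set_option autoImplicit false

open Set
open scoped Classical

noncomputable section

namespace Pool.Agent.Lib.MP_4d7d0a_gt.ODA

theorem g4_sum_ind {ι : Type} [Finite ι] (P : ι → Prop) (g0 : ι) :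
    (∑ g ∈ fs P, if g = g0 then (1 : F2) else 0) = if P g0 then 1 else 0 := by
  rw [Finset.sum_ite_eq']
  simp

theorem vv_r2 : ∀ {ι : Type} [Finite ι] (D D' : OD ι) (e f : ι) (q : ℤ), D.WF → D'.WF → D.σ = D'.σ →
    D.σ e ≠ e → f ≠ e → f ≠ D.σ e → D.Agree D' (OD.Off2 e (D.σ e) f) →
    ¬ D.X e f → ¬ D.X (D.σ e) f → D'.X e f → D'.X (D.σ e) f → D'.Last e f →
    D'.First (D.σ e) f →
    (∀ g, g ≠ e → g ≠ D.σ e → D'.X f g → (D'.t f e < D'.t f g ↔ D'.t f (D.σ e) < D'.t f g)) →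
    ¬ (D'.sg e f ↔ D'.sg (D.σ e) f) → (∃ κ, D'.Adm κ) → (VV D q ↔ VV D' q) := by
  intro ι _ D D' e f q hD hD' hσ hee hfe hfe' hA n1 n2 x1 x2 hL hF hadj hsg hκ
  obtain ⟨κ, hκ⟩ := hκ
  obtain ⟨y', hy', -⟩ := ori_of_adm hD' hκ
  generalize he' : D.σ e = e' at *
  have hcc : s(e, f) ≠ s(e', f) := by
    intro h
    rcases Sym2.eq_iff.1 h with h | h
    · exact hee h.1.symm
    · exact hfe h.1.symm
  have off : ∀ a b, OD.Off2 e e' f a b ↔ ¬ (s(a, b) = s(e, f) ∨ s(a, b) = s(e', f)) := by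
    intro a b
    simp only [OD.Off2, Sym2.eq_iff]
    tauto
  have hXX : ∀ a b, D.X a b ↔ D'.X a b ∧ OD.Off2 e e' f a b := by
    intro a b
    constructor
    · intro h
      have ho : OD.Off2 e e' f a b := by
        constructor
        · rintro ⟨rfl | rfl, rfl⟩
          · exact n1 h
          · exact n2 h
        · rintro ⟨rfl, rfl | rfl⟩
          · exact n1 (hD.1 _ _ h)
          · exact n2 (hD.1 _ _ h)
      exact ⟨(hA.1 a b ho).1 h, ho⟩
    · intro h
      exact (hA.1 a b h.2).2 h.1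
  have hc1 : s(e, f) ∉ SS D := fun h => n1 ((mk_mem_SS hD).1 h)
  have hc2 : s(e', f) ∉ SS D := fun h => n2 ((mk_mem_SS hD).1 h)
  have hS : ∀ c, c ∈ SS D' ↔ c = s(e, f) ∨ c = s(e', f) ∨ c ∈ SS D := by
    intro c
    induction c using Sym2.ind with
    | _ a b =>
      constructor
      · intro h
        by_cases ho : OD.Off2 e e' f a b
        · exact Or.inr (Or.inr ((mk_mem_SS hD).2 ((hXX a b).2 ⟨(mk_mem_SS hD').1 h, ho⟩)))
        · rw [off, not_not] at ho
          tauto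
      · rintro (h | h | h)
        · rw [h]
          exact (mk_mem_SS hD').2 x1
        · rw [h]
          exact (mk_mem_SS hD').2 x2
        · exact (mk_mem_SS hD').2 ((hXX a b).1 ((mk_mem_SS hD).1 h)).1
  have offx : ∀ (x : KK ι), x.2 s(e, f) = 0 → x.2 s(e', f) = 0 → ∀ a g, x.2 s(a, g) = 1 →
      OD.Off2 e e' f a g := by
    intro x h1 h2 a g h
    rw [off]
    rintro (h3 | h3) <;> rw [h3] at h
    · rw [h1] at h
      exact zero_ne_one h
    · rw [h2] at h
      exact zero_ne_one h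
  have en_eq : ∀ (x : KK ι), x.2 s(e, f) = 0 → x.2 s(e', f) = 0 → ∀ a, en D a x = en D' a x :=
    fun x h1 h2 a => col_congr fun g hg => hA.1 a g (offx x h1 h2 a g hg)
  have inc_eq : ∀ (x : KK ι), x.2 s(e, f) = 0 → x.2 s(e', f) = 0 → ∀ a b, D.X a b →
      inc D a b x = inc D' a b x := by
    intro x h1 h2 a b hab
    refine col_congr fun g hg => ?_
    have ho := offx x h1 h2 a g hg
    constructor
    · rintro ⟨h3, h4⟩
      exact ⟨(hA.1 a g ho).1 h3, (hA.2.2 a g b ho ((hXX a b).1 hab).2 h3 hab).1 h4⟩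
    · rintro ⟨h3, h4⟩
      have h5 := (hA.1 a g ho).2 h3
      exact ⟨h5, (hA.2.2 a g b ho ((hXX a b).1 hab).2 h5 hab).2 h4⟩
  have hU : ∀ x, x ∈ BB D ↔ x ∈ BB D' ∧ x.2 s(e, f) = 0 ∧ x.2 s(e', f) = 0 := by
    intro x
    constructor
    · intro hx
      have h1 := hx.1 _ hc1
      have h2 := hx.1 _ hc2
      exact ⟨⟨fun c hc => hx.1 c fun h => hc ((hS c).2 (Or.inr (Or.inr h))),
        fun a => by rw [← hσ, hx.2, en_eq x h1 h2]⟩, h1, h2⟩
    · rintro ⟨hx, h1, h2⟩
      refine ⟨fun c hc => ?_, fun a => by rw [hσ, hx.2, en_eq x h1 h2]⟩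
      by_cases h : c ∈ SS D'
      · rcases (hS c).1 h with rfl | rfl | h
        · exact h1
        · exact h2
        · exact absurd h hc
      · exact hx.1 c h
  obtain ⟨u, u1, u2⟩ : ∃ u : KK ι, (∀ v, u.1 v = if v = e' then 1 else 0) ∧
      ∀ c, u.2 c = if c = s(e, f) ∨ c = s(e', f) then 1 else 0 :=
    ⟨(fun v => if v = e' then 1 else 0, fun c => if c = s(e, f) ∨ c = s(e', f) then 1 else 0),
      fun _ => rfl, fun _ => rfl⟩
  have uc1 : u.2 s(e, f) = 1 := by rw [u2, if_pos (Or.inl rfl)]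
  have uc2 : u.2 s(e', f) = 1 := by rw [u2, if_pos (Or.inr rfl)]
  have cu1 : ∀ P, col e P u = if P f then 1 else 0 := by
    intro P
    rw [col_apply, u1, if_neg hee.symm, zero_add, ← g4_sum_ind]
    refine Finset.sum_congr rfl fun g _ => ?_
    rw [u2]
    refine if_congr ?_ rfl rfl
    simp only [Sym2.eq_iff]
    have := hee.symm
    have := hfe.symm
    tauto
  have cu2 : ∀ P, col e' P u = 1 + if P f then 1 else 0 := by
    intro P
    rw [col_apply, u1, if_pos rfl, ← g4_sum_ind]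
    congr 1
    refine Finset.sum_congr rfl fun g _ => ?_
    rw [u2]
    refine if_congr ?_ rfl rfl
    simp only [Sym2.eq_iff]
    have := hfe'.symm
    tauto
  have cu3 : ∀ P, col f P u = (if P e then 1 else 0) + if P e' then 1 else 0 := by
    intro P
    rw [col_apply, u1, if_neg hfe', zero_add, ← g4_sum_ind, ← g4_sum_ind, ← Finset.sum_add_distrib]
    refine Finset.sum_congr rfl fun g _ => ?_
    rw [u2]
    by_cases h1 : g = e
    · subst h1
      rw [if_pos (Or.inl Sym2.eq_swap), if_pos rfl, if_neg hee.symm, add_zero]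
    · by_cases h2 : g = e'
      · subst h2
        rw [if_pos (Or.inr Sym2.eq_swap), if_neg h1, if_pos rfl, zero_add]
      · rw [if_neg h1, if_neg h2, add_zero, if_neg]
        simp only [Sym2.eq_iff]
        tauto
  have cu4 : ∀ a P, a ≠ e → a ≠ e' → a ≠ f → col a P u = 0 := by
    intro a P h1 h2 h3
    rw [col_apply, u1, if_neg h2, zero_add]
    refine Finset.sum_eq_zero fun g _ => ?_
    rw [u2, if_neg]
    simp only [Sym2.eq_iff]
    tauto
  have hσ' : D'.σ e = e' := by rw [← hσ, he']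
  have huU : u ∈ BB D' := by
    refine ⟨fun c hc => ?_, fun a => ?_⟩
    · rw [u2, if_neg]
      intro h
      exact hc ((hS c).2 (by tauto))
    · have h0 : a ≠ e → u.1 (D'.σ a) = 0 := by
        intro ha
        rw [u1, if_neg]
        intro h
        exact ha (D'.σ.injective (h.trans hσ'.symm))
      by_cases h1 : a = e
      · subst h1
        rw [hσ', u1, if_pos rfl, en, cu1, if_pos x1]
      · rw [h0 h1]
        by_cases h2 : a = e'
        · subst h2
          rw [en, cu2, if_pos x2, f2_add_self]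
        · by_cases h3 : a = f
          · subst h3
            rw [en, cu3, if_pos (hD'.1 _ _ x1), if_pos (hD'.1 _ _ x2), f2_add_self]
          · rw [en, cu4 a _ h1 h2 h3]
  have incu : ∀ a b, D.X a b → inc D' a b u = 0 := by
    intro a b hab
    obtain ⟨hab', ho⟩ := (hXX a b).1 hab
    by_cases h1 : a = e
    · subst h1
      rw [inc, cu1, if_neg]
      exact fun h => absurd (hL b hab') (not_le.2 h.2)
    · by_cases h2 : a = e'
      · subst h2
        have hb : b ≠ f := fun h => ho.1 ⟨Or.inr rfl, h⟩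
        rw [inc, cu2, if_pos, f2_add_self]
        exact ⟨x2, lt_of_le_of_ne (hF b hab') fun h => hb (hD'.2.2.2 _ _ _ x2 hab' h).symm⟩
      · by_cases h3 : a = f
        · subst h3
          have hb1 : b ≠ e := fun h => ho.2 ⟨rfl, Or.inl h⟩
          have hb2 : b ≠ e' := fun h => ho.2 ⟨rfl, Or.inr h⟩
          have h4 := hadj b hb1 hb2 hab'
          rw [inc, cu3]
          by_cases h5 : D'.t a e < D'.t a b
          · rw [if_pos ⟨hD'.1 _ _ x1, h5⟩, if_pos ⟨hD'.1 _ _ x2, h4.1 h5⟩, f2_add_self]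
          · rw [if_neg fun h => h5 h.2, if_neg fun h => h5 (h4.2 h.2), add_zero]
        · rw [inc, cu4 a _ h1 h2 h3]
  have uc0 : ∀ a b, D.X a b → u.2 s(a, b) = 0 := by
    intro a b hab
    rw [u2, if_neg ((off a b).1 ((hXX a b).1 hab).2)]
  have hu : Nul (aa D') (bb D') (SS D) u := by
    intro c hc
    obtain ⟨a, b, rfl, hab⟩ := mem_SS.1 hc
    exact ab_null hD' ((hXX a b).1 hab).1
      (by rw [incu a b hab, incu b a (hD.1 _ _ hab), add_zero]) (uc0 a b hab)
  have i1 : ∀ x ∈ BB D', inc D' e f x = x.1 e' + x.2 s(e, f) := by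
    intro x hx
    have h1 := hx.2 e
    rw [hσ', inc_last hD' x1 hL] at h1
    rw [h1, add_assoc, f2_add_self, add_zero]
  have i2 : ∀ x : KK ι, inc D' e' f x = x.1 e' := inc_first hF
  have y1 := hD'.1 _ _ x1
  have y2 := hD'.1 _ _ x2
  have adj : ∀ g, g ≠ e → g ≠ e' → D'.X f g → (D'.t f g < D'.t f e ↔ D'.t f g < D'.t f e') := by
    intro g h1 h2 hg
    have h3 := hadj g h1 h2 hg
    have h4 : D'.t f g ≠ D'.t f e := fun h => h1 (hD'.2.2.2 _ _ _ hg y1 h)
    have h5 : D'.t f g ≠ D'.t f e' := fun h => h2 (hD'.2.2.2 _ _ _ hg y2 h)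
    constructor
    · intro h
      exact lt_of_le_of_ne (not_lt.1 fun h6 => lt_asymm h (h3.2 h6)) h5
    · intro h
      exact lt_of_le_of_ne (not_lt.1 fun h6 => lt_asymm h (h3.1 h6)) h4
  have hU1 : ∀ x, x ∈ BB D ↔ x ∈ BB D' ∧ aa D' s(e, f) x + bb D' s(e, f) x = 0 ∧
      aa D' s(e', f) x + bb D' s(e', f) x = 0 := by
    intro x
    rw [aa_add_bb, aa_add_bb, hU]
  have hU2 : ∀ x, x ∈ BB D ↔ x ∈ BB D' ∧ aa D' s(e', f) x + bb D' s(e', f) x = 0 ∧
      aa D' s(e, f) x + bb D' s(e, f) x = 0 := by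
    intro x
    rw [hU1]
    tauto
  have hS2 : ∀ c, c ∈ SS D' ↔ c = s(e', f) ∨ c = s(e, f) ∨ c ∈ SS D := by
    intro c
    rw [hS]
    tauto
  have ue : u.1 e' = 1 := by rw [u1, if_pos rfl]
  have key : ∀ x0 ∈ BB D, V (aa D') (bb D') (BB D) (SS D) x0 q ↔
      V (aa D') (bb D') (BB D') (SS D') (x0 + u) q := by
    intro x0 hx0
    have hne : D'.t f e ≠ D'.t f e' := fun h => hee (hD'.2.2.2 _ _ _ y1 y2 h).symm
    rcases lt_or_gt_of_ne hne with hlt | hlt
    · have i3 : ∀ x : KK ι, inc D' f e' x = inc D' f e x + x.2 s(e, f) := by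
        intro x
        rw [Sym2.eq_swap]
        refine col_insert (fun h => lt_irrefl _ h.2) fun g => ?_
        by_cases h1 : g = e
        · subst h1
          exact ⟨fun _ => Or.inl rfl, fun _ => ⟨y1, hlt⟩⟩
        · by_cases h2 : g = e'
          · subst h2
            exact ⟨fun h => absurd h.2 (lt_irrefl _), fun h => h.elim (fun h => absurd h h1)
              fun h => absurd h.2 (lt_asymm hlt)⟩
          · exact ⟨fun h => Or.inr ⟨h.1, (adj g h1 h2 h.1).2 h.2⟩, fun h => h.elim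
              (fun h => absurd h h1) fun h => ⟨h.1, (adj g h1 h2 h.1).1 h.2⟩⟩
      have i4 : inc D' f e u = 0 := by
        rw [inc, cu3, if_neg fun h => lt_irrefl _ h.2, if_neg fun h => lt_asymm hlt h.2, add_zero]
      by_cases hs : D'.sg e f
      · have hs' : ¬ D'.sg e' f := fun h => hsg ⟨fun _ => h, fun _ => hs⟩
        refine V_r2 hc2 hc1 hcc.symm hS2 hu huU ?_ ?_ ?_ ?_ hU2 (om_BB hD') hx0
        · rw [(aa_neg hD' x2 hs' u).1, i2, i3, i4, ue, uc1]
          decide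
        · rw [(aa_neg hD' x2 hs' u).2, i2, i3, i4, ue, uc1, uc2]
          decide
        · rw [(aa_pos hD' x1 hs u).1, i1 u huU, i4, ue, uc1]
          decide
        · intro x hx
          rw [(aa_neg hD' x2 hs' x).1, (aa_pos hD' x1 hs x).2, i2, i3, i1 x hx]
          ring
      · have hs' : D'.sg e' f := by
          by_contra h
          exact hsg ⟨fun h1 => absurd h1 hs, fun h1 => absurd h1 h⟩
        refine V_r2 hc1 hc2 hcc hS hu huU ?_ ?_ ?_ ?_ hU1 (om_BB hD') hx0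
        · rw [(aa_neg hD' x1 hs u).1, i1 u huU, i4, ue, uc1]
          decide
        · rw [(aa_neg hD' x1 hs u).2, i1 u huU, i4, ue, uc1]
          decide
        · rw [(aa_pos hD' x2 hs' u).1, i2, i3, i4, ue, uc1, uc2]
          decide
        · intro x hx
          rw [(aa_neg hD' x1 hs x).1, (aa_pos hD' x2 hs' x).2, i2, i3, i1 x hx]
          ring
    · have i3 : ∀ x : KK ι, inc D' f e x = inc D' f e' x + x.2 s(e', f) := by
        intro x
        rw [Sym2.eq_swap]
        refine col_insert (fun h => lt_irrefl _ h.2) fun g => ?_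
        by_cases h1 : g = e'
        · subst h1
          exact ⟨fun _ => Or.inl rfl, fun _ => ⟨y2, hlt⟩⟩
        · by_cases h2 : g = e
          · subst h2
            exact ⟨fun h => absurd h.2 (lt_irrefl _), fun h => h.elim (fun h => absurd h h1)
              fun h => absurd h.2 (lt_asymm hlt)⟩
          · exact ⟨fun h => Or.inr ⟨h.1, (adj g h2 h1 h.1).1 h.2⟩, fun h => h.elim
              (fun h => absurd h h1) fun h => ⟨h.1, (adj g h2 h1 h.1).2 h.2⟩⟩
      have i4 : inc D' f e' u = 0 := by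
        rw [inc, cu3, if_neg fun h => lt_asymm hlt h.2, if_neg fun h => lt_irrefl _ h.2, add_zero]
      by_cases hs : D'.sg e f
      · have hs' : ¬ D'.sg e' f := fun h => hsg ⟨fun _ => h, fun _ => hs⟩
        refine V_r2 hc1 hc2 hcc hS hu huU ?_ ?_ ?_ ?_ hU1 (om_BB hD') hx0
        · rw [(aa_pos hD' x1 hs u).1, i1 u huU, i3, i4, ue, uc1, uc2]
          decide
        · rw [(aa_pos hD' x1 hs u).2, i1 u huU, i3, i4, ue, uc1, uc2]
          decide
        · rw [(aa_neg hD' x2 hs' u).1, i2, i4, ue]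
          decide
        · intro x hx
          rw [(aa_pos hD' x1 hs x).1, (aa_neg hD' x2 hs' x).2, i2, i3, i1 x hx]
          linear_combination f2_add_self (x.2 s(e, f))
      · have hs' : D'.sg e' f := by
          by_contra h
          exact hsg ⟨fun h1 => absurd h1 hs, fun h1 => absurd h1 h⟩
        refine V_r2 hc2 hc1 hcc.symm hS2 hu huU ?_ ?_ ?_ ?_ hU2 (om_BB hD') hx0
        · rw [(aa_pos hD' x2 hs' u).1, i2, i4, ue, uc2]
          decide
        · rw [(aa_pos hD' x2 hs' u).2, i2, i4, ue]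
          decide
        · rw [(aa_neg hD' x1 hs u).1, i1 u huU, i3, i4, ue, uc1, uc2]
          decide
        · intro x hx
          rw [(aa_pos hD' x2 hs' x).1, (aa_neg hD' x1 hs x).2, i2, i3, i1 x hx]
          linear_combination -f2_add_self (x.2 s(e, f))
  have j1 : (y' + u).2 s(e, f) = 0 := by
    rw [Prod.snd_add, Pi.add_apply, (hy'.2 _ _ x1).1, uc1, f2_add_self]
  have j2 : (y' + u).2 s(e', f) = 0 := by
    rw [Prod.snd_add, Pi.add_apply, (hy'.2 _ _ x2).1, uc2, f2_add_self]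
  have hyB : y' + u ∈ BB D := (hU _).2 ⟨(BB D').add_mem hy'.1 huU, j1, j2⟩
  have hy : Ori D (y' + u) := by
    refine ⟨hyB, fun a b hab => ?_⟩
    have h1 := hy'.2 a b ((hXX a b).1 hab).1
    have hba := hD.1 _ _ hab
    rw [inc_eq _ j1 j2 a b hab, inc_eq _ j1 j2 b a hba, map_add, map_add, incu a b hab,
      incu b a hba, add_zero, add_zero, Prod.snd_add, Pi.add_apply, uc0 a b hab, add_zero]
    exact h1
  have cong : V (aa D) (bb D) (BB D) (SS D) (y' + u) q ↔
      V (aa D') (bb D') (BB D) (SS D) (y' + u) q := by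
    refine V_congr (fun c hc x hx => ?_) hyB
    obtain ⟨a, b, rfl, hab⟩ := mem_SS.1 hc
    obtain ⟨hab', ho⟩ := (hXX a b).1 hab
    obtain ⟨-, h1, h2⟩ := (hU x).1 hx
    have h3 := ab_eq (x := x) (x' := x) hD hD' hab hab' (hA.2.1 a b ho hab) 0
      (by rw [inc_eq x h1 h2 a b hab, inc_eq x h1 h2 b a (hD.1 _ _ hab), add_zero]) rfl
    simpa using h3
  have key2 := key _ hyB
  rw [add_assoc, k_add_self, add_zero] at key2
  constructor
  · intro h
    exact ⟨y', hy', key2.1 (cong.1 (h.at hD hy))⟩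
  · intro h
    exact ⟨y' + u, hy, cong.2 (key2.2 (h.at hD' hy'))⟩


end Pool.Agent.Lib.MP_4d7d0a_gt.ODA
end
end
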