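import Pool.Agent.Lib.MP_4d7d0a_gt.OEG5

-- part Pool.Agent.Lib.MP_4d7d0a_gt.OEG1
section

/-! Isomorphic diagrams and unlinks. -/

set_option autoImplicit false

open Set
open scoped Classical

noncomputable section

namespace Pool.Agent.Lib.MP_4d7d0a_gt.ODA

section aux

variable {ι ι' : Type}

/-- pull back a colouring along a map of the edges -/
def g1Map (β : ι → ι') : KK ι' →ₗ[F2] KK ι :=
  LinearMap.prodMap (LinearMap.funLeft F2 F2 β) (LinearMap.funLeft F2 F2 (Sym2.map β))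

theorem g1_fst (β : ι → ι') (x : KK ι') (e : ι) : (g1Map β x).1 e = x.1 (β e) := rfl

theorem g1_snd (β : ι → ι') (x : KK ι') (c : Sym2 ι) : (g1Map β x).2 c = x.2 (Sym2.map β c) := rfl

theorem g1_sym (β : ι ≃ ι') (c : Sym2 ι) : Sym2.map β.symm (Sym2.map β c) = c := by
  rw [Sym2.map_map, Equiv.symm_comp_self, Sym2.map_id, id]

theorem g1_inv (β : ι ≃ ι') (x : KK ι') : g1Map β.symm (g1Map β x) = x := by
  refine Prod.ext (funext fun e => ?_) (funext fun c => ?_)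
  · rw [g1_fst, g1_fst, Equiv.apply_symm_apply]
  · rw [g1_snd, g1_snd]
    exact congrArg x.2 (g1_sym β.symm c)

variable [Finite ι] [Finite ι']

theorem g1_col (β : ι ≃ ι') (e : ι) {P : ι → Prop} {P' : ι' → Prop} (h : ∀ f, P' (β f) ↔ P f)
    (x : KK ι') : col (β e) P' x = col e P (g1Map β x) := by
  rw [col_apply, col_apply, g1_fst]
  congr 1
  symm
  exact Finset.sum_equiv β (fun f => by rw [mem_fs, mem_fs, h]) fun f _ => rfl

omit [Finite ι] [Finite ι'] in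
theorem g1_ex (β : ι ≃ ι') {R : ι → ι → Prop} {R' : ι' → ι' → Prop}
    (h : ∀ e f, R' (β e) (β f) ↔ R e f) (c : Sym2 ι) :
    (∃ e f, Sym2.map β c = s(e, f) ∧ R' e f) ↔ ∃ e f, c = s(e, f) ∧ R e f := by
  constructor
  · rintro ⟨e, f, h1, h2⟩
    refine ⟨β.symm e, β.symm f, ?_, ?_⟩
    · rw [← g1_sym β c, h1, Sym2.map_mk]
    · rw [← h, Equiv.apply_symm_apply, Equiv.apply_symm_apply]
      exact h2
  · rintro ⟨e, f, rfl, h2⟩
    exact ⟨β e, β f, rfl, (h e f).2 h2⟩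

theorem g1_gen (β : ι ≃ ι') (D : OD ι) (D' : OD ι') (q : ℤ) (hD : D.WF)
    (hσ : ∀ e, D'.σ (β e) = β (D.σ e)) (hX : ∀ e f, D'.X (β e) (β f) ↔ D.X e f)
    (ht : ∀ e f g, D.X e f → D.X e g →
      (D'.t (β e) (β f) < D'.t (β e) (β g) ↔ D.t e f < D.t e g))
    (hs : ∀ e f, D.X e f → (D'.sg (β e) (β f) ↔ D.sg e f)) : VV D q ↔ VV D' q := by
  have hS : ∀ c, Sym2.map β c ∈ SS D' ↔ c ∈ SS D := fun c => by
    rw [mem_SS, mem_SS]
    exact g1_ex β hX c
  have hP : ∀ c, pos D' (Sym2.map β c) ↔ pos D c := fun c =>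
    g1_ex β (R := fun e f => D.X e f ∧ D.sg e f) (R' := fun e f => D'.X e f ∧ D'.sg e f)
      (fun e f => by rw [hX]; exact and_congr_right (hs e f)) c
  have hE : ∀ e x, en D' (β e) x = en D e (g1Map β x) := fun e x => g1_col β e (hX e) x
  have hI : ∀ e f x, D.X e f → inc D' (β e) (β f) x = inc D e f (g1Map β x) := fun e f x h =>
    g1_col β e (fun g => by rw [hX]; exact and_congr_right fun h' => ht e g f h' h) x
  have hB : ∀ x, g1Map β x ∈ BB D ↔ x ∈ BB D' := fun x => by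
    rw [mem_BB, mem_BB]
    refine and_congr ⟨fun h c hc => ?_, fun h c hc => h _ fun h' => hc ((hS c).1 h')⟩
      ⟨fun h e => ?_, fun h e => ?_⟩
    · have h1 : Sym2.map β (Sym2.map β.symm c) = c := g1_sym β.symm c
      have h2 := h (Sym2.map β.symm c) fun h' => hc (h1 ▸ (hS _).2 h')
      rwa [g1_snd, h1] at h2
    · obtain ⟨e, rfl⟩ := β.surjective e
      rw [hσ, hE]
      exact h e
    · rw [g1_fst, ← hσ, ← hE]
      exact h _
  have hi : ∀ y, g1Map β (g1Map β.symm y) = y := fun y => g1_inv β.symm y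
  refine vv_of_maps (g1Map β) (g1Map β.symm) (Sym2.map β.symm) (Sym2.map β)
    (fun x hx => (hB x).2 hx) (fun y hy => (hB _).1 (by rwa [hi])) (fun x _ => g1_inv β x)
    (fun y _ => hi y) (fun c hc => ?_) (fun c hc => ⟨(hS c).2 hc, g1_sym β c⟩)
    (fun c hc x _ => ?_) (fun c _ => ?_) q
  · have h1 : Sym2.map β (Sym2.map β.symm c) = c := g1_sym β.symm c
    exact ⟨(hS _).1 (by rwa [h1]), h1⟩
  · obtain ⟨e, f, rfl, h⟩ := mem_SS.1 hc
    obtain ⟨e, rfl⟩ := β.surjective e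
    obtain ⟨f, rfl⟩ := β.surjective f
    have h1 := (hX e f).1 h
    rw [Sym2.map_mk, Equiv.symm_apply_apply, Equiv.symm_apply_apply, del_apply, del_apply,
      hI e f x h1, hI f e x (hD.1 e f h1)]
    exact ⟨rfl, rfl⟩
  · have h1 : Sym2.map β (Sym2.map β.symm c) = c := g1_sym β.symm c
    rw [← hP, h1]

end aux

theorem vv_mono : ∀ {ι : Type} [Finite ι] (D : OD ι) (q q' : ℤ), q' ≤ q → VV D q → VV D q' := by
  rintro ι _ D q q' hq ⟨x, hx, hV⟩
  exact ⟨x, hx, V_mono hV hq⟩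

theorem vv_iso : ∀ {ι : Type} [Finite ι] (D D' : OD ι) (q : ℤ), D.WF → D'.WF → D.σ = D'.σ →
    D.Agree D' (fun _ _ => True) → VV D q → VV D' q := by
  intro ι _ D D' q hD _ hσ hA
  exact (g1_gen (Equiv.refl ι) D D' q hD (fun e => by rw [hσ]; rfl)
    (fun e f => (hA.1 e f trivial).symm)
    (fun e f g h1 h2 => (hA.2.2 e f g trivial trivial h1 h2).symm)
    fun e f h => (hA.2.1 e f trivial h).symm).1

theorem vv_relabel : ∀ {ι ι' : Type} [Finite ι] [Finite ι'] (β : ι ≃ ι') (D : OD ι) (D' : OD ι') (q : ℤ), D.WF →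
    (∀ e, D'.σ (β e) = β (D.σ e)) → (∀ e f, D'.X (β e) (β f) ↔ D.X e f) →
    (∀ e f, D'.t (β e) (β f) = D.t e f) → (∀ e f, D'.sg (β e) (β f) ↔ D.sg e f) → VV D q → VV D' q := by
  intro ι ι' _ _ β D D' q hD hσ hX ht hs
  exact (g1_gen β D D' q hD hσ hX (fun e f g _ _ => by rw [ht, ht]) fun e f _ => hs e f).1

theorem vv_unlink : ∀ {ι : Type} [Finite ι] (D : OD ι) (m : ℕ) (comp : ι → Fin m), (∀ e f, ¬ D.X e f) →
    Function.Surjective comp → (∀ e, comp (D.σ e) = comp e) → ¬ VV D (1 - m) := by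
  rintro ι _ D m comp hX hc hσ ⟨x, hx, hV⟩
  have h1 := V_empty (fun c hc => by
    obtain ⟨e, f, -, h⟩ := mem_SS.1 hc
    exact hX e f h) hx.1 hV
  have h2 := finrank_le_of_inj (W := (⊤ : Submodule F2 (Fin m → F2))) (W' := BB D)
    ((LinearMap.inl F2 (ι → F2) (Sym2 ι → F2)).comp (LinearMap.funLeft F2 F2 comp))
    (fun y _ => mem_BB.2 ⟨fun _ _ => rfl, fun e => by
      rw [en_none (hX e)]
      exact congrArg y (hσ e)⟩)
    (fun y _ hy => funext fun i => by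
      obtain ⟨e, rfl⟩ := hc i
      exact congrFun (congrArg Prod.fst hy) e)
  rw [finrank_top, Module.finrank_fin_fun] at h2
  omega

end Pool.Agent.Lib.MP_4d7d0a_gt.ODA
end
end

-- part Pool.Agent.Lib.MP_4d7d0a_gt.OEG7
section

/-! The bound by Seifert circles. -/

set_option autoImplicit false

open Set
open scoped Classical

noncomputable section

namespace Pool.Agent.Lib.MP_4d7d0a_gt.ODA

theorem g7_down {α : Type} [Finite α] (c : α → ℝ) (P : α → Prop)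
    (h : ∀ a, (∀ b, c a < c b → P b) → P a) (a : α) : P a := by
  by_contra ha
  obtain ⟨m, hm, h1⟩ := Set.exists_max_image {a | ¬ P a} c (Set.toFinite _) ⟨a, ha⟩
  exact hm (h m fun b hb => by_contra fun h2 => absurd (h1 b h2) (not_le.2 hb))

theorem g7_col {ι : Type} [Finite ι] {e : ι} {P : ι → Prop} {x : KK ι}
    (h : ∀ g, P g → x.2 s(e, g) = 0) : col e P x = x.1 e := by
  rw [col_apply, Finset.sum_eq_zero fun g hg => h g (mem_fs.1 hg), add_zero]

theorem g7_en {ι : Type} [Finite ι] {D : OD ι} (hD : D.WF) {e f : ι} {x : KK ι} (hX : D.X e f)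
    (h : ∀ g, D.X e g → D.t e f < D.t e g → x.2 s(e, g) = 0) :
    en D e x = inc D e f x + x.2 s(e, f) := by
  refine Eq.trans (col_congr fun g hg => ?_)
    (col_insert (P' := fun g => g = f ∨ (D.X e g ∧ D.t e g < D.t e f))
      (fun h1 => lt_irrefl _ h1.2) fun _ => Iff.rfl)
  refine ⟨fun h1 => ?_, fun h1 => h1.elim (fun h2 => h2 ▸ hX) (·.1)⟩
  rcases lt_trichotomy (D.t e g) (D.t e f) with h2 | h2 | h2
  · exact Or.inr ⟨h1, h2⟩
  · exact Or.inl (hD.2.2.2 e g f h1 hX h2)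
  · rw [h g h1 h2] at hg
    exact absurd hg zero_ne_one

theorem g7_res {ι : Type} [Finite ι] {D : OD ι} (hD : D.WF) {x0 x : KK ι} {v : Finset (Sym2 ι)}
    (ho : Ori D x0) (h0 : x0 ∈ Wv (aa D) (bb D) (BB D) (SS D) v)
    (hx : x ∈ Wv (aa D) (bb D) (BB D) (SS D) v) {e f : ι} (hX : D.X e f) :
    inc D e f x + inc D f e x + x.2 s(e, f) = 0 := by
  have hc := (mk_mem_SS hD).2 hX
  have h1 := (ho.2 e f hX).2
  by_cases hs : D.sg e f
  · rw [← (aa_pos hD hX hs x).1]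
    refine (hx.2 _ hc).2 fun hv => ?_
    have h2 := (h0.2 _ hc).1 hv
    rw [(aa_pos hD hX hs x0).2, h1] at h2
    exact one_ne_zero h2
  · rw [← (aa_neg hD hX hs x).2]
    refine (hx.2 _ hc).1 (by_contra fun hv => ?_)
    have h2 := (h0.2 _ hc).2 hv
    rw [(aa_neg hD hX hs x0).1, h1] at h2
    exact one_ne_zero h2

theorem g7_inj {ι : Type} [Finite ι] {D : OD ι} {R : ι → Prop} {xs : ι → ℝ} {xp : ι → ι → ℝ}
    (hD : D.WF) (h1 : ∀ e f, D.X e f → (R e ↔ R f) ∧ xp e f = xp f e)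
    (h2 : ∀ e, R e → xs e < xs (D.σ e) ∧ ∀ f, D.X e f → xs e < xp e f ∧ xp e f < xs (D.σ e) ∧
      ∀ g, D.X e g → D.t e f < D.t e g → xp e f < xp e g)
    (h3 : ∀ e, ¬ R e → xs (D.σ e) < xs e ∧ ∀ f, D.X e f → xp e f < xs e ∧ xs (D.σ e) < xp e f ∧
      ∀ g, D.X e g → D.t e f < D.t e g → xp e g < xp e f)
    {x : KK ι} (hx : x ∈ BB D)
    (hr : ∀ e f, D.X e f → inc D e f x + inc D f e x + x.2 s(e, f) = 0)
    (hT : ∀ e, R e → ¬ R (D.σ e) → x.1 (D.σ e) = 0) : x = 0 := by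
  have key := g7_down (α := ι ⊕ ι × ι) (Sum.elim (fun e => xs (D.σ e)) fun p => xp p.1 p.2)
    (Sum.elim (fun e => R e ∨ ¬ R (D.σ e) → x.1 (D.σ e) = 0)
      fun p => D.X p.1 p.2 → x.2 s(p.1, p.2) = 0) (by
    rintro (e | ⟨e, f⟩) ih
    · have iv : ∀ g, xs (D.σ e) < xs (D.σ g) → R g ∨ ¬ R (D.σ g) → x.1 (D.σ g) = 0 :=
        fun g => ih (Sum.inl g)
      have ic : ∀ g h, xs (D.σ e) < xp g h → D.X g h → x.2 s(g, h) = 0 :=
        fun g h => ih (Sum.inr (g, h))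
      change R e ∨ ¬ R (D.σ e) → x.1 (D.σ e) = 0
      intro hR
      by_cases he : R e
      · by_cases hv : R (D.σ e)
        · have a1 := iv (D.σ e) (h2 _ hv).1 (Or.inl hv)
          rwa [hx.2, en, g7_col fun g hg => ic _ g ((h2 _ hv).2 g hg).1 hg] at a1
        · exact hT e he hv
      · obtain ⟨d, rfl⟩ := D.σ.surjective e
        rw [hx.2, en, g7_col fun g hg => ic _ g ((h3 _ he).2 g hg).2.1 hg]
        exact iv d (h3 _ he).1 (Or.inr he)
    · have iv : ∀ g, xp e f < xs (D.σ g) → R g ∨ ¬ R (D.σ g) → x.1 (D.σ g) = 0 :=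
        fun g => ih (Sum.inl g)
      have ic : ∀ g h, xp e f < xp g h → D.X g h → x.2 s(g, h) = 0 :=
        fun g h => ih (Sum.inr (g, h))
      change D.X e f → x.2 s(e, f) = 0
      intro hX
      have hX' := hD.1 e f hX
      have a0 := hr e f hX
      have pos : ∀ g h, D.X g h → xp g h = xp e f → R g → inc D g h x + x.2 s(g, h) = 0 := by
        intro g h hg hp hR
        have b1 := (h2 g hR).2 h hg
        rw [← g7_en hD hg fun k hk hl => ic g k (hp ▸ b1.2.2 k hk hl) hk, ← hx.2]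
        exact iv g (hp ▸ b1.2.1) (Or.inl hR)
      have neg : ∀ g h, D.X g h → xp g h = xp e f → ¬ R g → inc D g h x = 0 := by
        intro g h hg hp hR
        obtain ⟨d, rfl⟩ := D.σ.surjective g
        rw [inc, g7_col fun k hk => ic _ k (hp ▸ ((h3 _ hR).2 k hk.1).2.2 h hg hk.2) hk.1]
        exact iv d (hp ▸ ((h3 _ hR).2 h hg).1) (Or.inr hR)
      by_cases he : R e
      · have a1 := pos e f hX rfl he
        have a2 := pos f e hX' (h1 e f hX).2.symm ((h1 e f hX).1.1 he)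
        rw [Sym2.eq_swap] at a2
        linear_combination a1 + a2 - a0
      · have a1 := neg e f hX rfl he
        have a2 := neg f e hX' (h1 e f hX).2.symm fun h => he ((h1 e f hX).1.2 h)
        rwa [a1, a2, add_zero, zero_add] at a0)
  have kv : ∀ e, R e ∨ ¬ R (D.σ e) → x.1 (D.σ e) = 0 := fun e => key (Sum.inl e)
  have kc : ∀ e f, D.X e f → x.2 s(e, f) = 0 := fun e f => key (Sum.inr (e, f))
  refine Prod.ext (funext fun v => ?_) (funext fun c => ?_)
  · obtain ⟨e, rfl⟩ := D.σ.surjective v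
    by_cases he : R e
    · exact kv e (Or.inl he)
    · obtain ⟨d, rfl⟩ := D.σ.surjective e
      rw [hx.2, en, g7_col (kc _)]
      exact kv d (Or.inr he)
  · by_cases hc : c ∈ SS D
    · obtain ⟨e, f, rfl, h⟩ := mem_SS.1 hc
      exact kc e f h
    · exact hx.1 c hc

theorem vv_bound : ∀ {ι : Type} [Finite ι] (D : OD ι) (R : ι → Prop) (xs : ι → ℝ) (xp : ι → ι → ℝ)
    (w : ℤ), D.WF → (∃ κ, D.Adm κ) →
    (∀ e f, D.X e f → (R e ↔ R f) ∧ xp e f = xp f e) →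
    (∀ e, R e → xs e < xs (D.σ e) ∧ ∀ f, D.X e f → xs e < xp e f ∧ xp e f < xs (D.σ e) ∧
      ∀ g, D.X e g → D.t e f < D.t e g → xp e f < xp e g) →
    (∀ e, ¬ R e → xs (D.σ e) < xs e ∧ ∀ f, D.X e f → xp e f < xs e ∧ xs (D.σ e) < xp e f ∧
      ∀ g, D.X e g → D.t e f < D.t e g → xp e g < xp e f) →
    2 * w = ({p : ι × ι | D.X p.1 p.2 ∧ D.sg p.1 p.2}.ncard : ℤ) -
      ({p : ι × ι | D.X p.1 p.2 ∧ ¬ D.sg p.1 p.2}.ncard : ℤ) →
    VV D (w - ({e | R e ∧ ¬ R (D.σ e)}.ncard : ℤ)) := by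
  intro ι _ D R xs xp w hD ⟨κ, hκ⟩ h1 h2 h3 hw
  obtain ⟨x0, ho, -⟩ := ori_of_adm hD hκ
  refine ⟨x0, ho, ?_⟩
  rw [← sum_signs hD ho w hw]
  refine V_top ho.1 ho.nm _ fun v _ h0 => ?_
  have h4 := finrank_le_of_inj (W := Wv (aa D) (bb D) (BB D) (SS D) v) (W' := ⊤)
    (LinearMap.pi fun e : fs fun e => R e ∧ ¬ R (D.σ e) => st (D.σ e.1))
    (fun _ _ => Submodule.mem_top) fun x hx h => g7_inj hD h1 h2 h3 hx.1
      (fun _ _ => g7_res hD ho h0 hx) fun e he hv => congrFun h ⟨e, mem_fs.2 ⟨he, hv⟩⟩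
  rwa [finrank_top, Module.finrank_fintype_fun_eq_card, Fintype.card_coe, card_fs] at h4

end Pool.Agent.Lib.MP_4d7d0a_gt.ODA
end
end

-- part Pool.Agent.Lib.MP_4d7d0a_gt.OEG2
section

/-! Sliding a crossing over a vertex. -/

set_option autoImplicit false

open Set
open scoped Classical

noncomputable section

namespace Pool.Agent.Lib.MP_4d7d0a_gt.ODA

section Aux

variable {ι : Type}

/-- the change of colourings -/
def oeg2_sl (e' : ι) (k : Sym2 ι) (m : Sym2 ι → Sym2 ι) : KK ι →ₗ[F2] KK ι where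
  toFun x := (fun a => x.1 a + if a = e' then x.2 k else 0, fun c => x.2 (m c))
  map_add' x y := by
    ext a
    · by_cases h : a = e'
      · simp only [if_pos h, Prod.fst_add, Prod.snd_add, Pi.add_apply]
        ring
      · simp only [if_neg h, Prod.fst_add, Pi.add_apply]
        ring
    · rfl
  map_smul' t x := by
    ext a
    · by_cases h : a = e'
      · simp only [if_pos h, Prod.smul_fst, Prod.smul_snd, Pi.smul_apply, smul_eq_mul,
          RingHom.id_apply]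
        ring
      · simp only [if_neg h, Prod.smul_fst, Pi.smul_apply, smul_eq_mul, RingHom.id_apply]
        ring
    · rfl

theorem oeg2_sl1 (e' : ι) (k : Sym2 ι) (m : Sym2 ι → Sym2 ι) (x : KK ι) (a : ι) :
    (oeg2_sl e' k m x).1 a = x.1 a + if a = e' then x.2 k else 0 := rfl

theorem oeg2_sl2 (e' : ι) (k : Sym2 ι) (m : Sym2 ι → Sym2 ι) (x : KK ι) (c : Sym2 ι) :
    (oeg2_sl e' k m x).2 c = x.2 (m c) := rfl

theorem oeg2_off {e e' f a b : ι} :
    OD.Off2 e e' f a b ↔ s(a, b) ≠ s(e, f) ∧ s(a, b) ≠ s(e', f) := by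
  simp only [OD.Off2, Ne, Sym2.eq_iff]
  tauto

theorem oeg2_off_symm {e e' f a b : ι} (h : OD.Off2 e e' f a b) : OD.Off2 e e' f b a := by
  simp only [OD.Off2] at h ⊢
  tauto

/-- corresponding colourings -/
structure Oeg2Rel (e e' f : ι) (x' x : KK ι) : Prop where
  h1 : ∀ a, a ≠ e' → x.1 a = x'.1 a
  h2 : x.1 e' = x'.1 e' + x.2 s(e, f)
  h3 : x.2 s(e, f) = x'.2 s(e', f)
  h4 : ∀ a b, OD.Off2 e e' f a b → x.2 s(a, b) = x'.2 s(a, b)

theorem oeg2_rel1 (e e' f : ι) (x : KK ι) :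
    Oeg2Rel e e' f x (oeg2_sl e' s(e', f) (Equiv.swap s(e, f) s(e', f)) x) where
  h1 a ha := by rw [oeg2_sl1, if_neg ha, add_zero]
  h2 := by rw [oeg2_sl1, if_pos rfl, oeg2_sl2, Equiv.swap_apply_left]
  h3 := by rw [oeg2_sl2, Equiv.swap_apply_left]
  h4 a b h := by rw [oeg2_sl2, Equiv.swap_apply_of_ne_of_ne (oeg2_off.1 h).1 (oeg2_off.1 h).2]

theorem oeg2_rel2 (e e' f : ι) (y : KK ι) :
    Oeg2Rel e e' f (oeg2_sl e' s(e, f) (Equiv.swap s(e, f) s(e', f)) y) y where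
  h1 a ha := by rw [oeg2_sl1, if_neg ha, add_zero]
  h2 := by rw [oeg2_sl1, if_pos rfl, add_assoc, f2_add_self, add_zero]
  h3 := by rw [oeg2_sl2, Equiv.swap_apply_right]
  h4 a b h := by rw [oeg2_sl2, Equiv.swap_apply_of_ne_of_ne (oeg2_off.1 h).1 (oeg2_off.1 h).2]

variable [Finite ι] {e e' f : ι} {x' x : KK ι}

theorem oeg2_col (R : Oeg2Rel e e' f x' x) {a : ι} {P P' : ι → Prop} (h : ∀ g, P g ↔ P' g)
    (ho : ∀ g, P g → OD.Off2 e e' f a g) : col a P x + x.1 a = col a P' x' + x'.1 a := by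
  have e1 : fs P = fs P' := by
    ext g
    simp [h]
  have e2 : ∑ g ∈ fs P, x.2 s(a, g) = ∑ g ∈ fs P', x'.2 s(a, g) := by
    rw [← e1]
    exact Finset.sum_congr rfl fun g hg => R.h4 _ _ (ho g (mem_fs.1 hg))
  rw [col_apply, col_apply, e2, add_right_comm, f2_add_self, add_right_comm, f2_add_self]

theorem oeg2_col_ne (R : Oeg2Rel e e' f x' x) {a : ι} (ha : a ≠ e') {P P' : ι → Prop}
    (h : ∀ g, P g ↔ P' g) (ho : ∀ g, P g → OD.Off2 e e' f a g) : col a P x = col a P' x' := by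
  have h1 := oeg2_col R h ho
  rw [R.h1 a ha] at h1
  exact add_right_cancel h1

theorem oeg2_col_e' (R : Oeg2Rel e e' f x' x) {P P' : ι → Prop} (hf : ¬ P f)
    (h : ∀ g, P' g ↔ g = f ∨ P g) (ho : ∀ g, P g → OD.Off2 e e' f e' g) :
    col e' P x = col e' P' x' := by
  have h1 := oeg2_col R (fun g => Iff.rfl) ho
  rw [R.h2, R.h3] at h1
  rw [col_insert hf h]
  linear_combination (exp := 1) h1 - f2_add_self (x'.2 s(e', f))

theorem oeg2_col_f (R : Oeg2Rel e e' f x' x) (hfe : f ≠ e) (hfe' : f ≠ e') {P P' : ι → Prop}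
    (h1 : P e ↔ P' e') (h2 : ¬ P e') (h3 : ¬ P' e) (h : ∀ g, g ≠ e → g ≠ e' → (P g ↔ P' g)) :
    col f P x = col f P' x' := by
  rw [col_apply, col_apply, R.h1 f hfe']
  congr 1
  refine Finset.sum_equiv (Equiv.swap e e') (fun g => ?_) fun g hg => ?_
  · rw [mem_fs, mem_fs]
    by_cases a1 : g = e
    · rw [a1, Equiv.swap_apply_left, h1]
    · by_cases a2 : g = e'
      · rw [a2, Equiv.swap_apply_right]
        exact iff_of_false h2 h3
      · rw [Equiv.swap_apply_of_ne_of_ne a1 a2, h g a1 a2]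
  · by_cases a1 : g = e
    · rw [a1, Equiv.swap_apply_left, Sym2.eq_swap, R.h3, Sym2.eq_swap]
    · have a2 : g ≠ e' := fun a2 => h2 (a2 ▸ mem_fs.1 hg)
      rw [Equiv.swap_apply_of_ne_of_ne a1 a2]
      refine R.h4 _ _ ?_
      simp only [OD.Off2]
      tauto

/-- the hypotheses of the move -/
structure Oeg2Hyp (D D' : OD ι) (e e' f : ι) : Prop where
  w : D.WF
  w' : D'.WF
  ee : e' ≠ e
  fe : f ≠ e
  fe' : f ≠ e'
  ag : D.Agree D' (OD.Off2 e e' f)
  x1 : D.X e f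
  x2 : ¬ D.X e' f
  x3 : ¬ D'.X e f
  x4 : D'.X e' f
  la : D.Last e f
  fi : D'.First e' f
  ord : ∀ g, g ≠ e → g ≠ e' → D.X f g → (D.t f e < D.t f g ↔ D'.t f e' < D'.t f g)

variable {D D' : OD ι}

omit [Finite ι] in
theorem Oeg2Hyp.off_e (H : Oeg2Hyp D D' e e' f) {g : ι} (hg : g ≠ f) : OD.Off2 e e' f e g := by
  have := H.fe
  simp only [OD.Off2]
  tauto

omit [Finite ι] in
theorem Oeg2Hyp.off_e' (H : Oeg2Hyp D D' e e' f) {g : ι} (hg : g ≠ f) : OD.Off2 e e' f e' g := by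
  have := H.fe'
  simp only [OD.Off2]
  tauto

omit [Finite ι] in
theorem Oeg2Hyp.off_f (H : Oeg2Hyp D D' e e' f) {g : ι} (h1 : g ≠ e) (h2 : g ≠ e') :
    OD.Off2 e e' f f g := by
  have := H.fe
  have := H.fe'
  simp only [OD.Off2]
  tauto

omit [Finite ι] in
theorem oeg2_off_o {a g : ι} (h1 : a ≠ e) (h2 : a ≠ e') (h3 : a ≠ f) : OD.Off2 e e' f a g := by
  simp only [OD.Off2]
  tauto

omit [Finite ι] in
theorem Oeg2Hyp.lt_iff (H : Oeg2Hyp D D' e e' f) {a b g : ι} (hb : OD.Off2 e e' f a b)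
    (hX : D.X a b) (hg : OD.Off2 e e' f a g) :
    D.X a g ∧ D.t a g < D.t a b ↔ D'.X a g ∧ D'.t a g < D'.t a b := by
  rw [← H.ag.1 a g hg]
  exact and_congr_right fun h => H.ag.2.2 a g b hg hb h hX

theorem Oeg2Hyp.inc_off (H : Oeg2Hyp D D' e e' f) (R : Oeg2Rel e e' f x' x) {a b : ι}
    (hb : OD.Off2 e e' f a b) (hX : D.X a b) : inc D a b x = inc D' a b x' := by
  have hX' := (H.ag.1 a b hb).1 hX
  unfold inc
  by_cases a1 : a = e
  · subst a1
    have n1 : ¬ (D.X a f ∧ D.t a f < D.t a b) := fun h => (H.la b hX).not_gt h.2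
    refine oeg2_col_ne R H.ee.symm (fun g => ?_) fun g hg => H.off_e fun h => n1 (h ▸ hg)
    by_cases h : g = f
    · rw [h]
      exact iff_of_false n1 fun h1 => H.x3 h1.1
    · exact H.lt_iff hb hX (H.off_e h)
  by_cases a2 : a = e'
  · subst a2
    have hbf : b ≠ f := fun h => H.x2 (h ▸ hX)
    refine oeg2_col_e' R (fun h => H.x2 h.1) (fun g => ?_)
      fun g hg => H.off_e' fun h => H.x2 (h ▸ hg.1)
    by_cases h : g = f
    · rw [h]
      refine iff_of_true ⟨H.x4, lt_of_le_of_ne (H.fi b hX') fun h1 => hbf ?_⟩ (Or.inl rfl)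
      exact (H.w'.2.2.2 a f b H.x4 hX' h1).symm
    · rw [← H.lt_iff hb hX (H.off_e' h)]
      simp [h]
  by_cases a3 : a = f
  · subst a3
    have b1 : b ≠ e := fun h => hb.2 ⟨rfl, Or.inl h⟩
    have b2 : b ≠ e' := fun h => hb.2 ⟨rfl, Or.inr h⟩
    refine oeg2_col_f R a1 a2 ?_ (fun h => H.x2 (H.w.1 _ _ h.1)) (fun h => H.x3 (H.w'.1 _ _ h.1))
      fun g g1 g2 => H.lt_iff hb hX (H.off_f g1 g2)
    rw [and_iff_right (H.w.1 _ _ H.x1), and_iff_right (H.w'.1 _ _ H.x4)]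
    exact H.ord b b1 b2 hX
  · exact oeg2_col_ne R a2 (fun g => H.lt_iff hb hX (oeg2_off_o a1 a2 a3))
      fun g _ => oeg2_off_o a1 a2 a3

theorem Oeg2Hyp.inc_f (H : Oeg2Hyp D D' e e' f) (R : Oeg2Rel e e' f x' x) :
    inc D f e x = inc D' f e' x' := by
  unfold inc
  refine oeg2_col_f R H.fe H.fe' (iff_of_false (fun h => lt_irrefl _ h.2) fun h => lt_irrefl _ h.2)
    (fun h => H.x2 (H.w.1 _ _ h.1)) (fun h => H.x3 (H.w'.1 _ _ h.1)) fun g g1 g2 => ?_
  have h1 := H.ag.1 f g (H.off_f g1 g2)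
  rw [← h1]
  refine and_congr_right fun h => ?_
  have h2 : D.t f g ≠ D.t f e := fun h3 => g1 (H.w.2.2.2 f g e h (H.w.1 _ _ H.x1) h3)
  have h3 : D'.t f g ≠ D'.t f e' := fun h3 =>
    g2 (H.w'.2.2.2 f g e' (h1.1 h) (H.w'.1 _ _ H.x4) h3)
  rw [← not_iff_not, not_lt, not_lt, h2.symm.le_iff_lt, h3.symm.le_iff_lt]
  exact H.ord g g1 g2 h

theorem Oeg2Hyp.en_e (H : Oeg2Hyp D D' e e' f) (R : Oeg2Rel e e' f x' x) :
    en D e x = en D' e x' + x.2 s(e, f) := by
  unfold en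
  rw [col_insert (P := D'.X e) (P' := D.X e) H.x3 fun g => ?_,
    oeg2_col_ne R H.ee.symm (P := D'.X e) (fun g => Iff.rfl)
      fun g hg => H.off_e fun h => H.x3 (h ▸ hg)]
  by_cases h : g = f
  · rw [h]
    exact iff_of_true H.x1 (Or.inl rfl)
  · rw [H.ag.1 e g (H.off_e h)]
    simp [h]

theorem Oeg2Hyp.en_ne (H : Oeg2Hyp D D' e e' f) (R : Oeg2Rel e e' f x' x) {a : ι} (a1 : a ≠ e) :
    en D a x = en D' a x' := by
  unfold en
  by_cases a2 : a = e'
  · subst a2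
    refine oeg2_col_e' R H.x2 (fun g => ?_) fun g hg => H.off_e' fun h => H.x2 (h ▸ hg)
    by_cases h : g = f
    · rw [h]
      exact iff_of_true H.x4 (Or.inl rfl)
    · rw [H.ag.1 a g (H.off_e' h)]
      simp [h]
  by_cases a3 : a = f
  · subst a3
    exact oeg2_col_f R a1 a2 (iff_of_true (H.w.1 _ _ H.x1) (H.w'.1 _ _ H.x4))
      (fun h => H.x2 (H.w.1 _ _ h)) (fun h => H.x3 (H.w'.1 _ _ h))
      fun g g1 g2 => H.ag.1 a g (H.off_f g1 g2)
  · exact oeg2_col_ne R a2 (fun g => H.ag.1 a g (oeg2_off_o a1 a2 a3))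
      fun g _ => oeg2_off_o a1 a2 a3

theorem Oeg2Hyp.bd (H : Oeg2Hyp D D' e e' f) (R : Oeg2Rel e e' f x' x) (hσ : D.σ = D'.σ)
    (he : D.σ e = e') (a : ι) : x.1 (D.σ a) = en D a x ↔ x'.1 (D'.σ a) = en D' a x' := by
  rw [← hσ]
  by_cases a1 : a = e
  · rw [a1, he, H.en_e R, R.h2, add_left_inj]
  · rw [H.en_ne R a1, R.h1 _ fun h => a1 (D.σ.injective (h.trans he.symm))]

theorem Oeg2Hyp.ss (H : Oeg2Hyp D D' e e' f) (c : Sym2 ι) :
    c ∈ SS D ↔ Equiv.swap s(e, f) s(e', f) c ∈ SS D' := by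
  by_cases a1 : c = s(e, f)
  · rw [a1, Equiv.swap_apply_left, mk_mem_SS H.w, mk_mem_SS H.w']
    exact iff_of_true H.x1 H.x4
  by_cases a2 : c = s(e', f)
  · rw [a2, Equiv.swap_apply_right, mk_mem_SS H.w, mk_mem_SS H.w']
    exact iff_of_false H.x2 H.x3
  rw [Equiv.swap_apply_of_ne_of_ne a1 a2]
  induction c using Sym2.ind with
  | h a b =>
    rw [mk_mem_SS H.w, mk_mem_SS H.w']
    exact H.ag.1 a b (oeg2_off.2 ⟨a1, a2⟩)

theorem Oeg2Hyp.ss' (H : Oeg2Hyp D D' e e' f) (c : Sym2 ι) :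
    c ∈ SS D' ↔ Equiv.swap s(e, f) s(e', f) c ∈ SS D := by
  rw [H.ss, Equiv.swap_apply_self]

theorem Oeg2Hyp.cases (H : Oeg2Hyp D D' e e' f) {c : Sym2 ι} (hc : c ∈ SS D') :
    c = s(e', f) ∨ ∃ a b, c = s(a, b) ∧ OD.Off2 e e' f a b ∧ D.X a b ∧ D'.X a b ∧
      Equiv.swap s(e, f) s(e', f) c = c := by
  by_cases a2 : c = s(e', f)
  · exact Or.inl a2
  have a1 : c ≠ s(e, f) := fun h => H.x3 ((mk_mem_SS H.w').1 (h ▸ hc))
  obtain ⟨a, b, rfl, hX⟩ := mem_SS.1 hc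
  have ho := oeg2_off.2 ⟨a1, a2⟩
  exact Or.inr ⟨a, b, rfl, ho, (H.ag.1 a b ho).2 hX, hX, Equiv.swap_apply_of_ne_of_ne a1 a2⟩

end Aux

theorem vv_slide : ∀ {ι : Type} [Finite ι] (D D' : OD ι) (e f : ι) (q : ℤ), D.WF → D'.WF → D.σ = D'.σ →
    D.σ e ≠ e → f ≠ e → f ≠ D.σ e → D.Agree D' (OD.Off2 e (D.σ e) f) →
    D.X e f → ¬ D.X (D.σ e) f → ¬ D'.X e f → D'.X (D.σ e) f → D.Last e f → D'.First (D.σ e) f →
    (∀ g, g ≠ e → g ≠ D.σ e → D.X f g → (D.t f e < D.t f g ↔ D'.t f (D.σ e) < D'.t f g)) →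
    (D.sg e f ↔ D'.sg (D.σ e) f) → (VV D q ↔ VV D' q) := by
  intro ι _ D D' e f q w w' hσ ee fe fe' ag x1 x2 x3 x4 la fi ord hsg
  have H : Oeg2Hyp D D' e (D.σ e) f := ⟨w, w', ee, fe, fe', ag, x1, x2, x3, x4, la, fi, ord⟩
  generalize he : D.σ e = e' at H hsg
  have hφ : ∀ x ∈ BB D', oeg2_sl e' s(e', f) (Equiv.swap s(e, f) s(e', f)) x ∈ BB D :=
    fun x hx => ⟨fun c hc => hx.1 _ fun h => hc ((H.ss c).2 h),
      fun a => (H.bd (oeg2_rel1 e e' f x) hσ he a).2 (hx.2 a)⟩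
  refine vv_of_maps (oeg2_sl e' s(e', f) (Equiv.swap s(e, f) s(e', f)))
    (oeg2_sl e' s(e, f) (Equiv.swap s(e, f) s(e', f))) (Equiv.swap s(e, f) s(e', f))
    (Equiv.swap s(e, f) s(e', f)) hφ ?_ ?_ ?_ ?_ ?_ ?_ ?_ q
  · exact fun y hy => ⟨fun c hc => hy.1 _ fun h => hc ((H.ss' c).2 h),
      fun a => (H.bd (oeg2_rel2 e e' f y) hσ he a).1 (hy.2 a)⟩
  · intro x _
    ext a
    · rw [oeg2_sl1, oeg2_sl1, oeg2_sl2, Equiv.swap_apply_left, add_assoc, f2_add_self, add_zero]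
    · rw [oeg2_sl2, oeg2_sl2, Equiv.swap_apply_self]
  · intro x _
    ext a
    · rw [oeg2_sl1, oeg2_sl1, oeg2_sl2, Equiv.swap_apply_right, add_assoc, f2_add_self, add_zero]
    · rw [oeg2_sl2, oeg2_sl2, Equiv.swap_apply_self]
  · exact fun c hc => ⟨(H.ss' c).1 hc, Equiv.swap_apply_self _ _ _⟩
  · exact fun c hc => ⟨(H.ss c).1 hc, Equiv.swap_apply_self _ _ _⟩
  · intro c hc x hx
    have R := oeg2_rel1 e e' f x
    refine ⟨?_, by rw [oeg2_sl2, Equiv.swap_apply_self]⟩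
    rcases H.cases hc with rfl | ⟨a, b, rfl, ho, hX, -, hm⟩
    · have h1 := inc_last H.w H.x1 H.la (oeg2_sl e' s(e', f) (Equiv.swap s(e, f) s(e', f)) x)
      rw [← (hφ x hx).2 e, he, R.h2, add_left_inj] at h1
      rw [Equiv.swap_apply_right, del_apply, del_apply, H.inc_f R, ← h1, inc_first H.fi]
    · rw [hm, del_apply, del_apply, H.inc_off R ho hX,
        H.inc_off R (oeg2_off_symm ho) (H.w.1 _ _ hX)]
  · intro c hc
    rcases H.cases hc with rfl | ⟨a, b, rfl, ho, hX, hX', hm⟩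
    · rw [Equiv.swap_apply_right, pos_iff H.w H.x1, pos_iff H.w' H.x4, hsg]
    · rw [hm, pos_iff H.w hX, pos_iff H.w' hX', H.ag.2.1 a b ho hX]

end Pool.Agent.Lib.MP_4d7d0a_gt.ODA
end
end

-- part Pool.Agent.Lib.MP_4d7d0a_gt.OEG6
section

/-! Subdivision of an edge. -/

set_option autoImplicit false

open Set
open scoped Classical

noncomputable section

namespace Pool.Agent.Lib.MP_4d7d0a_gt.ODA

/-- the part of the edge `g` that contains the crossing with `h` -/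
def g6side {ι : Type} (D : OD ι) (e : ι) (l : ℝ) (g h : ι) : Option ι :=
  if g = e ∧ l < D.t e h then none else some g

theorem g6side_getD {ι : Type} (D : OD ι) (e : ι) (l : ℝ) (g h : ι) :
    (g6side D e l g h).getD e = g := by
  unfold g6side
  split_ifs with h1
  · exact h1.1.symm
  · rfl

/-- the lift of a crossing -/
def g6lift {ι : Type} (D : OD ι) (e : ι) (l : ℝ) : Sym2 ι → Sym2 (Option ι) :=
  Sym2.lift ⟨fun g h => s(g6side D e l g h, g6side D e l h g), fun _ _ => Sym2.eq_swap⟩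

theorem g6lift_mk {ι : Type} (D : OD ι) (e : ι) (l : ℝ) (g h : ι) :
    g6lift D e l s(g, h) = s(g6side D e l g h, g6side D e l h g) := rfl

theorem g6_col_union {ι : Type} [Finite ι] (e : ι) (P P1 P2 : ι → Prop) (y : KK ι)
    (h : ∀ g, P g ↔ P1 g ∨ P2 g) (hd : ∀ g, P1 g → ¬ P2 g) :
    col e P y = col e P1 y + ∑ g ∈ fs P2, y.2 s(e, g) := by
  rw [col_apply, col_apply, add_assoc, ← Finset.sum_union]
  · congr 2
    ext g
    simp [h]
  · rw [Finset.disjoint_left]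
    intro g h1 h2
    exact hd g (mem_fs.1 h1) (mem_fs.1 h2)

theorem vv_sub : ∀ {ι : Type} [Finite ι] (D : OD ι) (D' : OD (Option ι)) (e : ι) (l : ℝ) (q : ℤ), D.WF →
    D'.WF → D'.σ (some e) = none → D'.σ none = some (D.σ e) →
    (∀ g, g ≠ e → D'.σ (some g) = some (D.σ g)) → (∀ h, D.X e h → D.t e h ≠ l) →
    (∀ a b, D'.X a b ↔ D.X (a.getD e) (b.getD e) ∧ D.Side e l a (b.getD e) ∧
      D.Side e l b (a.getD e)) →
    (∀ a b, D'.X a b → (D'.sg a b ↔ D.sg (a.getD e) (b.getD e))) →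
    (∀ a b c, D'.X a b → D'.X a c →
      (D'.t a b < D'.t a c ↔ D.t (a.getD e) (b.getD e) < D.t (a.getD e) (c.getD e))) →
    (VV D q ↔ VV D' q) := by
  intro ι _ D D' e l q hD hD' hσ1 hσ2 hσ3 hl hX hs ht
  have s1 := g6side_getD D e l
  have s2 : ∀ g h, D.X g h → D'.X (g6side D e l g h) (g6side D e l h g) := by
    have aux : ∀ g h, D.X g h → D.Side e l (g6side D e l g h) h := by
      intro g h hgh
      unfold g6side
      split_ifs with h1
      · exact ⟨fun h2 => by simp at h2, fun _ => h1.2⟩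
      · refine ⟨fun h2 => ?_, fun h2 => by simp at h2⟩
        obtain rfl : g = e := by simpa using h2
        have h3 := hl h hgh
        have h4 : ¬ l < D.t g h := fun h4 => h1 ⟨rfl, h4⟩
        exact lt_of_le_of_ne (not_lt.1 h4) h3
    intro g h hgh
    rw [hX, s1, s1]
    exact ⟨hgh, aux g h hgh, aux h g (hD.1 _ _ hgh)⟩
  have s3 : ∀ a b, D'.X a b → g6side D e l (a.getD e) (b.getD e) = a := by
    intro a b hab
    have h1 := ((hX a b).1 hab).2.1
    unfold g6side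
    cases a with
    | none => rw [if_pos ⟨rfl, h1.2 rfl⟩]
    | some g =>
      rw [if_neg]
      · rfl
      · rintro ⟨h2, h3⟩
        obtain rfl : g = e := h2
        exact lt_asymm h3 (h1.1 rfl)
  let φ : KK (Option ι) →ₗ[F2] KK ι :=
    LinearMap.prodMap (LinearMap.funLeft F2 F2 some) (LinearMap.funLeft F2 F2 (g6lift D e l))
  let ψ : KK ι →ₗ[F2] KK (Option ι) :=
    LinearMap.prod
      (LinearMap.pi fun a : Option ι => a.elim (col e fun h => D.X e h ∧ D.t e h < l) st)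
      (LinearMap.pi fun c => if c ∈ SS D' then jj (Sym2.map (fun a => a.getD e) c) else 0)
  have φ1 : ∀ x g, (φ x).1 g = x.1 (some g) := fun _ _ => rfl
  have φ2 : ∀ x c, (φ x).2 c = x.2 (g6lift D e l c) := fun _ _ => rfl
  have ψ1 : ∀ y g, (ψ y).1 (some g) = y.1 g := fun _ _ => rfl
  have ψ0 : ∀ y, (ψ y).1 none = col e (fun h => D.X e h ∧ D.t e h < l) y := fun _ => rfl
  have ψ2 : ∀ y c, (ψ y).2 c =
      if c ∈ SS D' then y.2 (Sym2.map (fun a => a.getD e) c) else 0 := by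
    intro y c
    change (if c ∈ SS D' then jj (Sym2.map (fun a => a.getD e) c) else 0 : KK ι →ₗ[F2] F2) y = _
    split_ifs <;> rfl
  have tr : ∀ (x : KK (Option ι)) (a : Option ι) (P' : Option ι → Prop) (P : ι → Prop),
      (∀ b, P' b → D'.X a b ∧ P (b.getD e)) →
      (∀ h, P h → g6side D e l (a.getD e) h = a ∧ P' (g6side D e l h (a.getD e))) →
      ∑ b ∈ fs P', x.2 s(a, b) = ∑ h ∈ fs P, (φ x).2 s(a.getD e, h) := by
    intro x a P' P h1 h2
    refine Finset.sum_nbij' (fun b => b.getD e) (fun h => g6side D e l h (a.getD e)) ?_ ?_ ?_ ?_ ?_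
    · intro b hb
      exact mem_fs.2 (h1 b (mem_fs.1 hb)).2
    · intro h hh
      exact mem_fs.2 (h2 h (mem_fs.1 hh)).2
    · intro b hb
      exact s3 b a (hD'.1 _ _ (h1 b (mem_fs.1 hb)).1)
    · intro h _
      exact s1 _ _
    · intro b hb
      have h3 := (h1 b (mem_fs.1 hb)).1
      rw [φ2, g6lift_mk, s3 a b h3, s3 b a (hD'.1 _ _ h3)]
  have sd1 : ∀ g h, g ≠ e → g6side D e l g h = some g := fun g h hg => if_neg fun h1 => hg h1.1
  have sd2 : ∀ h, D.t e h < l → g6side D e l e h = some e :=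
    fun h hh => if_neg fun h1 => lt_asymm hh h1.2
  have sd3 : ∀ h, l < D.t e h → g6side D e l e h = none := fun h hh => if_pos ⟨rfl, hh⟩
  have en1 : ∀ x g, g ≠ e → en D' (some g) x = en D g (φ x) := by
    intro x g hg
    rw [en, en, col_apply, col_apply, φ1, tr x (some g) (D'.X (some g)) (D.X g)]
    · rfl
    · intro b hb
      exact ⟨hb, ((hX _ _).1 hb).1⟩
    · intro h hh
      have h1 := s2 g h hh
      rw [sd1 g h hg] at h1
      exact ⟨sd1 g h hg, h1⟩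
  have en2 : ∀ x, en D' (some e) x = col e (fun h => D.X e h ∧ D.t e h < l) (φ x) := by
    intro x
    rw [en, col_apply, col_apply, φ1,
      tr x (some e) (D'.X (some e)) (fun h => D.X e h ∧ D.t e h < l)]
    · rfl
    · intro b hb
      have h1 := (hX _ _).1 hb
      exact ⟨hb, h1.1, h1.2.1.1 rfl⟩
    · intro h hh
      have h1 := s2 e h hh.1
      rw [sd2 h hh.2] at h1
      exact ⟨sd2 h hh.2, h1⟩
  have en3 : ∀ x, en D' none x =
      x.1 none + ∑ h ∈ fs (fun h => D.X e h ∧ l < D.t e h), (φ x).2 s(e, h) := by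
    intro x
    rw [en, col_apply, tr x none (D'.X none) (fun h => D.X e h ∧ l < D.t e h)]
    · rfl
    · intro b hb
      have h1 := (hX _ _).1 hb
      exact ⟨hb, h1.1, h1.2.1.2 rfl⟩
    · intro h hh
      have h1 := s2 e h hh.1
      rw [sd3 h hh.2] at h1
      exact ⟨sd3 h hh.2, h1⟩
  have en4 : ∀ y : KK ι, en D e y = col e (fun h => D.X e h ∧ D.t e h < l) y +
      ∑ h ∈ fs (fun h => D.X e h ∧ l < D.t e h), y.2 s(e, h) := by
    intro y
    refine g6_col_union e _ _ _ y (fun g => ⟨fun hg => ?_, fun hg => hg.elim (·.1) (·.1)⟩)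
      fun g h1 h2 => lt_asymm h1.2 h2.2
    rcases lt_or_gt_of_ne (hl g hg) with h1 | h1
    · exact Or.inl ⟨hg, h1⟩
    · exact Or.inr ⟨hg, h1⟩
  have xn : ∀ x ∈ BB D', x.1 none = col e (fun h => D.X e h ∧ D.t e h < l) (φ x) := by
    intro x hx
    rw [← en2, ← hx.2, hσ1]
  have inc1 : ∀ x ∈ BB D', ∀ a b, D'.X a b →
      inc D' a b x = inc D (a.getD e) (b.getD e) (φ x) := by
    intro x hx a b hab
    have hab' := (hX a b).1 hab
    cases a with
    | some g =>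
      rw [inc, inc, col_apply, col_apply, φ1, tr x (some g) _
        (fun h => D.X g h ∧ D.t g h < D.t g (b.getD e))]
      · rfl
      · intro c hc
        exact ⟨hc.1, ((hX _ _).1 hc.1).1, (ht _ _ _ hc.1 hab).1 hc.2⟩
      · intro h hh
        have h0 : g6side D e l g h = some g := by
          by_cases hg : g = e
          · subst hg
            exact sd2 h (hh.2.trans (hab'.2.1.1 rfl))
          · exact sd1 g h hg
        have h1 := s2 g h hh.1
        rw [h0] at h1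
        refine ⟨h0, h1, (ht _ _ _ h1 hab).2 ?_⟩
        rw [s1]
        exact hh.2
    | none =>
      have hb : l < D.t e (b.getD e) := hab'.2.1.2 rfl
      rw [inc, inc, col_apply, xn x hx, tr x none _
        (fun h => D.X e h ∧ l < D.t e h ∧ D.t e h < D.t e (b.getD e))]
      · refine (g6_col_union e _ _ _ (φ x) (fun g => ⟨fun hg => ?_, fun hg => ?_⟩)
          fun g h1 h2 => lt_asymm h1.2 h2.2.1).symm
        · rcases lt_or_gt_of_ne (hl g hg.1) with h1 | h1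
          · exact Or.inl ⟨hg.1, h1⟩
          · exact Or.inr ⟨hg.1, h1, hg.2⟩
        · rcases hg with hg | hg
          · exact ⟨hg.1, hg.2.trans hb⟩
          · exact ⟨hg.1, hg.2.2⟩
      · intro c hc
        have h1 := (hX _ _).1 hc.1
        exact ⟨hc.1, h1.1, h1.2.1.2 rfl, (ht _ _ _ hc.1 hab).1 hc.2⟩
      · intro h hh
        have h1 := s2 e h hh.1
        rw [sd3 h hh.2.1] at h1
        refine ⟨sd3 h hh.2.1, h1, (ht _ _ _ h1 hab).2 ?_⟩
        rw [s1]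
        exact hh.2.2
  have mm : ∀ c, Sym2.map (fun a : Option ι => a.getD e) (g6lift D e l c) = c := by
    intro c
    induction c using Sym2.ind with
    | _ g h => rw [g6lift_mk, Sym2.map_mk, s1, s1]
  have ms : ∀ c, g6lift D e l c ∈ SS D' ↔ c ∈ SS D := by
    intro c
    induction c using Sym2.ind with
    | _ g h =>
      rw [g6lift_mk, mk_mem_SS hD', mk_mem_SS hD]
      refine ⟨fun h1 => ?_, s2 g h⟩
      have h2 := ((hX _ _).1 h1).1
      rwa [s1, s1] at h2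
  have mm' : ∀ c ∈ SS D', Sym2.map (fun a : Option ι => a.getD e) c ∈ SS D ∧
      g6lift D e l (Sym2.map (fun a : Option ι => a.getD e) c) = c := by
    intro c hc
    obtain ⟨a, b, rfl, hab⟩ := mem_SS.1 hc
    rw [Sym2.map_mk, mk_mem_SS hD, g6lift_mk, s3 a b hab, s3 b a (hD'.1 _ _ hab)]
    exact ⟨((hX _ _).1 hab).1, rfl⟩
  have h2 : ∀ y ∈ BB D, φ (ψ y) = y := by
    intro y hy
    refine Prod.ext rfl (funext fun c => ?_)
    rw [φ2, ψ2, mm]
    split_ifs with h1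
    · rfl
    · exact (hy.1 c fun h3 => h1 ((ms c).2 h3)).symm
  refine vv_of_maps φ ψ (Sym2.map fun a => a.getD e) (g6lift D e l) ?_ ?_ ?_ h2 mm'
    (fun c hc => ⟨(ms c).2 hc, mm c⟩) ?_ ?_ q
  · intro x hx
    refine ⟨fun c hc => ?_, fun g => ?_⟩
    · rw [φ2]
      exact hx.1 _ fun h1 => hc ((ms c).1 h1)
    · by_cases hg : g = e
      · subst hg
        rw [φ1, ← hσ2, hx.2, en3, en4, xn x hx]
      · rw [φ1, ← hσ3 g hg, hx.2, en1 x g hg]
  · intro y hy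
    refine ⟨fun c hc => by rw [ψ2, if_neg hc], fun a => ?_⟩
    cases a with
    | none => rw [hσ2, ψ1, en3, h2 y hy, ψ0, hy.2, en4]
    | some g =>
      by_cases hg : g = e
      · subst hg
        rw [hσ1, en2, h2 y hy, ψ0]
      · rw [hσ3 g hg, ψ1, en1 _ g hg, h2 y hy, hy.2]
  · intro x hx
    refine Prod.ext (funext fun a => ?_) (funext fun c => ?_)
    · cases a with
      | none => rw [ψ0, xn x hx]
      | some g => rfl
    · rw [ψ2]
      split_ifs with h1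
      · rw [φ2, (mm' c h1).2]
      · exact (hx.1 c h1).symm
  · intro c hc x hx
    refine ⟨?_, by rw [φ2, (mm' c hc).2]⟩
    obtain ⟨a, b, rfl, hab⟩ := mem_SS.1 hc
    rw [Sym2.map_mk, del_apply, del_apply, inc1 x hx a b hab, inc1 x hx b a (hD'.1 _ _ hab)]
  · intro c hc
    obtain ⟨a, b, rfl, hab⟩ := mem_SS.1 hc
    rw [Sym2.map_mk, pos_iff hD' hab, pos_iff hD ((hX _ _).1 hab).1]
    exact hs a b hab


end Pool.Agent.Lib.MP_4d7d0a_gt.ODA
end
end
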