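import Pool.Agent.Lib.MP_4d7d0a_gt.TB1
import Pool.Agent.Lib.MP_4d7d0a_gt.OEG6
import Pool.Agent.Lib.MP_4d7d0a_gt.OEG4
import Pool.Agent.Lib.MP_4d7d0a_gt.OEG5
import Pool.Agent.Lib.MP_4d7d0a_gt.K2Flip

-- part Pool.Agent.Lib.MP_4d7d0a_gt.OD
section

/-! The invariant of ordered diagrams exists. -/

set_option autoImplicit false

namespace Pool.Agent.Lib.MP_4d7d0a_gt

open ODA

/-- the invariant for arbitrary index types -/
def odV {ι : Type} (D : OD ι) (q : ℤ) : Prop := ∃ h : Finite ι, @VV ι h D q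

theorem odV_iff {ι : Type} [h : Finite ι] (D : OD ι) (q : ℤ) : odV D q ↔ VV D q :=
  ⟨fun ⟨_, hV⟩ => hV, fun hV => ⟨h, hV⟩⟩

theorem od_holds : ODStmt := by
  refine ⟨⟨fun D q => odV D q, ?_, ?_, ?_, ?_, ?_, ?_, ?_, ?_, ?_, ?_, ?_, ?_⟩⟩
  · intro ι _
    simpa only [odV_iff] using vv_mono (ι := ι)
  · intro ι _
    simpa only [odV_iff] using vv_iso (ι := ι)
  · intro ι ι' _ β
    have : Finite ι' := Finite.of_equiv ι β
    simpa only [odV_iff] using vv_relabel β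
  · intro ι _
    simpa only [odV_iff] using vv_slide (ι := ι)
  · intro ι _
    simpa only [odV_iff] using vv_r2 (ι := ι)
  · intro ι _
    simpa only [odV_iff] using vv_r1 (ι := ι)
  · intro ι _
    simpa only [odV_iff] using vv_r3 (ι := ι)
  · intro ι _
    simpa only [odV_iff] using vv_sub (ι := ι)
  · intro ι _
    simpa only [odV_iff] using vv_flip (ι := ι)
  · intro ι _
    simpa only [odV_iff] using vv_saddle (ι := ι)
  · intro ι _
    simpa only [odV_iff] using vv_bound (ι := ι)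
  · intro ι _
    simpa only [odV_iff] using vv_unlink (ι := ι)

end Pool.Agent.Lib.MP_4d7d0a_gt
end

-- part Pool.Agent.Lib.MP_4d7d0a_gt.K1A
section

/-! Reidemeister theorem for polygons: definitions and basic facts. -/

set_option autoImplicit false

open Set Filter Topology

namespace Pool.Agent.Lib.MP_4d7d0a_gt

namespace K1

open PAdm (Pr dir pt_eq pt_zero pt_one cr_det tt_eq cr_param cr_pr cr_mem cr_symm pr_symm coin0
  coin dir_ne not_cr not_cr')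

variable {ι : Type}

open Classical in
/-- the successor map after inserting a vertex on the edge `e` -/
noncomputable def insS (σ : Equiv.Perm ι) (e : ι) : Equiv.Perm (Option ι) :=
  (Equiv.swap (some e) none).trans σ.optionCongr

/-- replace the edge `e` by the two edges through `x` -/
noncomputable def ins (P : PG ι) (e : ι) (x : P3) : PG (Option ι) :=
  ⟨insS P.σ e, fun o => o.elim x P.pos⟩

open Classical in
/-- move the vertex `m` to `x` -/
noncomputable def upd (P : PG ι) (m : ι) (x : P3) : PG ι := ⟨P.σ, Function.update P.pos m x⟩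

/-- move all vertices -/
abbrev mv (P : PG ι) (p : ι → P3) : PG ι := ⟨P.σ, p⟩

/-- the diagrams have the same invariant -/
def Eqv (T : ODTheory) {ι' : Type} (P : PG ι) (P' : PG ι') : Prop :=
  ∀ q, T.V P.od q ↔ T.V P'.od q

/-- all generic polygons near `P` have the same invariant -/
def Loc (T : ODTheory) (P : PG ι) : Prop :=
  ∃ U ∈ 𝓝 P.pos, ∀ p ∈ U, ∀ p' ∈ U, (mv P p).Gen → (mv P p').Gen → Eqv T (mv P p) (mv P p')

/-- the determinant of two edge directions -/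
def dd (P : PG ι) (a b : ι) : ℝ := det2 (dir P a) (dir P b)

/-- the line of `a` passes in front of the line of `b` -/
def Ov (P : PG ι) (a b : ι) : Prop := (P.pt a (P.tt a b)).2.1 < (P.pt b (P.tt b a)).2.1

/-- transverse lines at different depths -/
def Tr (P : PG ι) (a b : ι) : Prop := dd P a b ≠ 0 ∧ (Ov P a b ∨ Ov P b a)

/-- the projections of the closed edges are disjoint -/
def DisP (P : PG ι) (a b : ι) : Prop :=
  ∀ s ∈ Icc (0 : ℝ) 1, ∀ t ∈ Icc (0 : ℝ) 1, ¬ Pr (P.pt a s) (P.pt b t)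

/-- a stable pair of edges -/
def Good (P : PG ι) (a b : ι) : Prop :=
  P.Cr a b ∨ DisP P a b ∨ a = b ∨ b = P.σ a ∨ a = P.σ b

/-- the vertex `v` projects to the closed edge `f` -/
def VE (P : PG ι) (v f : ι) : Prop :=
  v ≠ f ∧ v ≠ P.σ f ∧ ∃ t ∈ Icc (0 : ℝ) 1, Pr (P.pos v) (P.pt f t)

/-- a triple point -/
def TP (P : PG ι) (e f g : ι) : Prop := P.Cr e f ∧ P.Cr e g ∧ P.tt e f = P.tt e g ∧ f ≠ g

/-- the diagram of `P` with another set of crossings -/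
noncomputable def odR (P : PG ι) (R : ι → ι → Prop) : OD ι := ⟨P.σ, R, P.tt, P.od.sg⟩

/-- the strict relations of `P` survive at the positions `p` -/
structure Near (P : PG ι) (p : ι → P3) : Prop where
  dis : ∀ a b, DisP P a b → ¬ (mv P p).Cr a b
  pos : ∀ a b, 0 < dd P a b → 0 < dd (mv P p) a b
  lt : ∀ a b c, dd P a b ≠ 0 → dd P a c ≠ 0 → P.tt a b < P.tt a c →
    (mv P p).tt a b < (mv P p).tt a c
  lo : ∀ a b, dd P a b ≠ 0 → 0 < P.tt a b → 0 < (mv P p).tt a b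
  hi : ∀ a b, dd P a b ≠ 0 → P.tt a b < 1 → (mv P p).tt a b < 1
  ov : ∀ a b, dd P a b ≠ 0 → Ov P a b → Ov (mv P p) a b

/-- vanishes when the three points project to a line -/
def W (p q x : P3) : ℝ := det2 (q - p) (x - p)

/-- `x` is off all lines through two points of `S` -/
def OffS (S : Set P3) (x : P3) : Prop := ∀ p ∈ S, ∀ q ∈ S, ¬ Pr p q → W p q x ≠ 0

/-- `x` is on at most one line through two points of `S` -/
def Uni (S : Set P3) (x : P3) : Prop :=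
  ∀ p ∈ S, ∀ q ∈ S, ∀ p' ∈ S, ∀ q' ∈ S, ¬ Pr p' q' → W p q x = 0 → W p' q' x = 0 → W p q p' = 0

/-- vertices and crossing points -/
def Spt (P : PG ι) : Set P3 := range P.pos ∪ range fun z : ι × ι => P.pt z.1 (P.tt z.1 z.2)

/-- the edge `f` does not contain the vertex `m` -/
def Fx (P : PG ι) (m f : ι) : Prop := f ≠ m ∧ P.σ f ≠ m

/-- a linear function of the projection -/
def Lf (c : ℝ × ℝ) (p : P3) : ℝ := c.1 * p.1 + c.2 * p.2.2

/-- the closed triangle -/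
def Tri (A B C : P3) : Set P3 :=
  {p | ∃ β γ : ℝ, 0 ≤ β ∧ 0 ≤ γ ∧ β + γ ≤ 1 ∧ p = A + β • (B - A) + γ • (C - A)}

/-- the other half-open edges meet the triangle on `e` with apex `C` only in the end of `e` -/
def TF (P : PG ι) (e : ι) (C : P3) : Prop :=
  ∀ g, g ≠ e → ∀ u ∈ Ico (0 : ℝ) 1, P.pt g u ∈ Tri (P.pos e) (P.pos (P.σ e)) C →
    P.pt g u = P.pos (P.σ e)

/-- inside `K` the edge `e` is alone on its levels of `Lf c` -/
structure Free (P : PG ι) (e : ι) (K : Set P3) (c : ℝ × ℝ) : Prop where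
  m0 : P.pos e ∈ K
  m1 : P.pos (P.σ e) ∈ K
  lt : Lf c (P.pos e) < Lf c (P.pos (P.σ e))
  out : ∀ g, g ≠ e → ∀ u ∈ Ico (0 : ℝ) 1, P.pt g u ∈ K →
    Lf c (P.pt g u) < Lf c (P.pos e) ∨ Lf c (P.pos (P.σ e)) ≤ Lf c (P.pt g u)

/-- the neighbours `a`, `b` of the moving vertex `m` are in general position -/
structure Piv (Q : PG ι) (a m b : ι) (S : Set P3) : Prop where
  vs : ∀ v, v ≠ a → v ≠ m → v ≠ b → Q.pos v ∈ S
  xs : ∀ f g, Fx Q m f → Fx Q m g → Q.Cr f g → Q.pt f (Q.tt f g) ∈ S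
  offA : OffS S (Q.pos a)
  offB : OffS (insert (Q.pos a) S) (Q.pos b)

/-- the invariant of an embedded polygon -/
def VV (T : ODTheory) (P : PG ι) (q : ℤ) : Prop :=
  ∀ᶠ p in 𝓝 P.pos, (mv P p).Gen → T.V (mv P p).od q

section Api

variable (P : PG ι)

theorem ins_e (e : ι) (x : P3) : (ins P e x).σ (some e) = none := by
  simp [ins, insS]

theorem ins_none (e : ι) (x : P3) : (ins P e x).σ none = some (P.σ e) := by
  simp [ins, insS]

theorem ins_ne {e g : ι} (x : P3) (h : g ≠ e) : (ins P e x).σ (some g) = some (P.σ g) := by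
  classical
  have : Equiv.swap (some e) none (some g) = some g :=
    Equiv.swap_apply_of_ne_of_ne (by simpa using h) (by simp)
  simp only [ins, insS, Equiv.trans_apply]
  rw [Subsingleton.elim (Classical.propDecidable : ∀ p, Decidable p) Classical.propDecidable]
  simp [Equiv.swap_apply_def, h]

theorem ins_pos_none (e : ι) (x : P3) : (ins P e x).pos none = x := rfl

theorem ins_pos_some (e g : ι) (x : P3) : (ins P e x).pos (some g) = P.pos g := rfl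

theorem ins_cont (e : ι) : Continuous fun x => (ins P e x).pos :=
  continuous_pi fun o => by
    cases o
    · exact continuous_id
    · exact continuous_const

theorem ins_pt {e g : ι} (x : P3) (h : g ≠ e) (u : ℝ) : (ins P e x).pt (some g) u = P.pt g u := by
  rw [PG.pt, ins_ne P x h]
  rfl

theorem ins_pt_e (e : ι) (x : P3) (u : ℝ) :
    (ins P e x).pt (some e) u = AffineMap.lineMap (P.pos e) x u := by
  rw [PG.pt, ins_e]
  rfl

theorem ins_pt_none (e : ι) (x : P3) (u : ℝ) :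
    (ins P e x).pt none u = AffineMap.lineMap x (P.pos (P.σ e)) u := by
  rw [PG.pt, ins_none]
  rfl

theorem ins_cr {e f g : ι} (x : P3) (hf : f ≠ e) (hg : g ≠ e) :
    (ins P e x).Cr (some f) (some g) ↔ P.Cr f g := by
  rw [PG.Cr, ins_ne P x hf, ins_ne P x hg]
  rfl

theorem ins_tt {e f g : ι} (x : P3) (hf : f ≠ e) (hg : g ≠ e) :
    (ins P e x).tt (some f) (some g) = P.tt f g := by
  rw [PG.tt, ins_ne P x hf, ins_ne P x hg]
  rfl

theorem upd_s (m : ι) (x : P3) : (upd P m x).σ = P.σ := rfl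

theorem upd_same (m : ι) (x : P3) : (upd P m x).pos m = x := by simp [upd]

theorem upd_ne {m v : ι} (x : P3) (h : v ≠ m) : (upd P m x).pos v = P.pos v := by simp [upd, h]

theorem upd_self (m : ι) : upd P m (P.pos m) = P := by simp [upd]

theorem upd_cont (m : ι) : Continuous fun x => (upd P m x).pos := by
  classical
  refine continuous_pi fun v => ?_
  by_cases h : v = m
  · subst h
    simp only [upd_same]
    exact continuous_id
  · simp only [upd_ne P _ h]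
    exact continuous_const

theorem upd_pt {m f : ι} (x : P3) (h : Fx P m f) (u : ℝ) : (upd P m x).pt f u = P.pt f u := by
  rw [PG.pt, upd_s, upd_ne P x h.1, upd_ne P x h.2, PG.pt]

theorem upd_cr {m f g : ι} (x : P3) (hf : Fx P m f) (hg : Fx P m g) :
    (upd P m x).Cr f g ↔ P.Cr f g := by
  rw [PG.Cr, upd_s, upd_ne P x hf.1, upd_ne P x hf.2, upd_ne P x hg.1, upd_ne P x hg.2, PG.Cr]

theorem upd_tt {m f g : ι} (x : P3) (hf : Fx P m f) (hg : Fx P m g) :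
    (upd P m x).tt f g = P.tt f g := by
  rw [PG.tt, upd_s, upd_ne P x hf.1, upd_ne P x hf.2, upd_ne P x hg.1, upd_ne P x hg.2, PG.tt]

theorem upd_ins_none (e : ι) (x y : P3) : upd (ins P e x) none y = ins P e y := by
  have : (upd (ins P e x) none y).pos = (ins P e y).pos := funext fun o => by
    cases o
    · exact upd_same _ _ _
    · exact upd_ne _ _ (by simp)
  exact congrArg (PG.mk (insS P.σ e)) this

theorem upd_ins_some (e v : ι) (x y : P3) :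
    upd (ins P e x) (some v) y = ins (upd P v y) e x := by
  have : (upd (ins P e x) (some v) y).pos = (ins (upd P v y) e x).pos := funext fun o => by
    rcases o with _ | g
    · exact upd_ne _ _ (by simp)
    · by_cases h : g = v
      · subst h
        exact (upd_same _ _ _).trans (upd_same P g y).symm
      · exact (upd_ne _ _ (by simpa using h)).trans (upd_ne P y h).symm
  exact congrArg (PG.mk (insS P.σ e)) this

theorem spt_finite [Finite ι] : (Spt P).Finite := (finite_range _).union (finite_range _)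

theorem pos_spt (v : ι) : P.pos v ∈ Spt P := Or.inl ⟨v, rfl⟩

theorem xp_spt (f g : ι) : P.pt f (P.tt f g) ∈ Spt P := Or.inr ⟨(f, g), rfl⟩

theorem OffS.mono {S S' : Set P3} {x : P3} (h : OffS S x) (h' : S' ⊆ S) : OffS S' x :=
  fun p hp q hq => h p (h' hp) q (h' hq)

theorem pr_refl (p : P3) : Pr p p := ⟨rfl, rfl⟩

theorem pr_trans {p q r : P3} (h : Pr p q) (h' : Pr q r) : Pr p r :=
  ⟨h.1.trans h'.1, h.2.trans h'.2⟩

theorem lf_pr (c : ℝ × ℝ) {p q : P3} (h : Pr p q) : Lf c p = Lf c q := by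
  rw [Lf, Lf, h.1, h.2]

theorem lf_lm (c : ℝ × ℝ) (a b : P3) (u : ℝ) :
    Lf c (AffineMap.lineMap a b u) = Lf c a + u * (Lf c b - Lf c a) := by
  simp only [Lf, PBA.lm1, PBA.lm3]
  ring

theorem lf_cont (c : ℝ × ℝ) : Continuous (Lf c) := by
  unfold Lf
  fun_prop

/-- a point of the line `ab` makes all three determinants vanish -/
theorem w_lm {a b s : P3} {t : ℝ} (h : Pr s (AffineMap.lineMap a b t)) :
    W a b s = 0 ∧ W a s b = 0 ∧ W b s a = 0 := by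
  obtain ⟨h1, h2⟩ := h
  rw [PBA.lm1] at h1
  rw [PBA.lm3] at h2
  simp only [W, det2, Prod.fst_sub, Prod.snd_sub, h1, h2]
  refine ⟨by ring, by ring, by ring⟩

theorem w_rot (p q x : P3) : W q x p = W p q x := by
  simp only [W, det2, Prod.fst_sub, Prod.snd_sub]
  ring

theorem w_swap (p q x : P3) : W q p x = -W p q x := by
  simp only [W, det2, Prod.fst_sub, Prod.snd_sub]
  ring

theorem tri_convex (A B C : P3) : Convex ℝ (Tri A B C) := by
  rintro _ ⟨β, γ, h1, h2, h3, rfl⟩ _ ⟨β', γ', k1, k2, k3, rfl⟩ s t hs ht hst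
  refine ⟨s * β + t * β', s * γ + t * γ', by positivity, by positivity, by nlinarith, ?_⟩
  obtain rfl : t = 1 - s := by linarith
  module

theorem tri_swap (A B C : P3) : Tri B A C = Tri A B C := by
  have : ∀ A B : P3, Tri B A C ⊆ Tri A B C := by
    rintro A B _ ⟨β, γ, h1, h2, h3, rfl⟩
    exact ⟨1 - β - γ, γ, by linarith, h2, by linarith, by module⟩
  exact (this A B).antisymm (this B A)

theorem sg_iff (a b : ι) : P.od.sg a b ↔ (Ov P a b ↔ 0 < dd P a b) := Iff.rfl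

theorem cr_iff (a b : ι) :
    P.Cr a b ↔ dd P a b ≠ 0 ∧ P.tt a b ∈ Ioo (0 : ℝ) 1 ∧ P.tt b a ∈ Ioo (0 : ℝ) 1 := Iff.rfl

theorem dd_swap (a b : ι) : dd P b a = -dd P a b := PBA.det2_swap _ _

theorem dd_self (a : ι) : dd P a a = 0 := by
  unfold dd det2
  ring

theorem odR_cr : odR P P.Cr = P.od := rfl

end Api

variable {P : PG ι}

theorem dd_ne {a b : ι} (h : dd P a b ≠ 0) : dd P b a ≠ 0 := by
  rw [dd_swap]
  exact neg_ne_zero.2 h

theorem Tr.symm {a b : ι} (h : Tr P a b) : Tr P b a := ⟨dd_ne h.1, h.2.symm⟩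

theorem ov_asymm {a b : ι} (h : Ov P a b) : ¬ Ov P b a := lt_asymm h

theorem cr_of {a b : ι} (h : dd P a b ≠ 0) {s t : ℝ} (hs : s ∈ Ioo (0 : ℝ) 1)
    (ht : t ∈ Ioo (0 : ℝ) 1) (hp : Pr (P.pt a s) (P.pt b t)) : P.Cr a b :=
  (cr_iff P a b).2 ⟨h, cr_param h hp ▸ hs, cr_param (dd_ne h) (pr_symm hp) ▸ ht⟩

theorem Eqv.refl (T : ODTheory) (P : PG ι) : Eqv T P P := fun _ => Iff.rfl

theorem Eqv.symm {T : ODTheory} {ι' : Type} {P' : PG ι'} (h : Eqv T P P') : Eqv T P' P :=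
  fun q => (h q).symm

theorem Eqv.trans {T : ODTheory} {ι' ι'' : Type} {P' : PG ι'} {P'' : PG ι''} (h : Eqv T P P')
    (h' : Eqv T P' P'') : Eqv T P P'' := fun q => (h q).trans (h' q)

theorem agree_symm {D D' : OD ι} {Q : ι → ι → Prop} (h : D.Agree D' Q) : D'.Agree D Q :=
  ⟨fun e f k => (h.1 e f k).symm, fun e f k x => (h.2.1 e f k ((h.1 e f k).2 x)).symm,
    fun e f g k k' x x' => (h.2.2 e f g k k' ((h.1 e f k).2 x) ((h.1 e g k').2 x')).symm⟩

theorem agree_trans {D D' D'' : OD ι} {Q : ι → ι → Prop} (h : D.Agree D' Q)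
    (h' : D'.Agree D'' Q) : D.Agree D'' Q :=
  ⟨fun e f k => (h.1 e f k).trans (h'.1 e f k),
    fun e f k x => (h.2.1 e f k x).trans (h'.2.1 e f k ((h.1 e f k).1 x)),
    fun e f g k k' x x' => (h.2.2 e f g k k' x x').trans
      (h'.2.2 e f g k k' ((h.1 e f k).1 x) ((h.1 e g k').1 x'))⟩

theorem iso_iff (T : ODTheory) [Finite ι] {D D' : OD ι} (h : D.WF) (h' : D'.WF) (hs : D.σ = D'.σ)
    (ha : D.Agree D' fun _ _ => True) (q : ℤ) : T.V D q ↔ T.V D' q :=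
  ⟨T.iso D D' q h h' hs ha, T.iso D' D q h' h hs.symm (agree_symm ha)⟩

theorem loc_of (T : ODTheory) (D : OD ι)
    (h : ∀ᶠ p in 𝓝 P.pos, (mv P p).Gen → ∀ q, T.V D q ↔ T.V (mv P p).od q) : Loc T P :=
  ⟨_, h, fun _ hp _ hp' g g' q => (hp g q).symm.trans (hp' g' q)⟩

theorem gen_near (T : ODTheory) [Finite ι] (h : P.Gen) :
    ∀ᶠ p in 𝓝 P.pos, (mv P p).Gen ∧ Eqv T P (mv P p) :=
  h.eventually.mono fun _ hp => ⟨hp.1, iso_iff T h.wf hp.1.wf rfl hp.2⟩

theorem gen_loc (T : ODTheory) [Finite ι] (h : P.Gen) : Loc T P :=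
  loc_of T P.od ((gen_near T h).mono fun _ hp _ => hp.2)

theorem pr_ev (P : PG ι) (a b : ι) {K : Set (ℝ × ℝ)} (hK : IsCompact K)
    (h : ∀ z ∈ K, ¬ Pr (P.pt a z.1) (P.pt b z.2)) :
    ∀ᶠ p in 𝓝 P.pos, ∀ z ∈ K, ¬ Pr ((mv P p).pt a z.1) ((mv P p).pt b z.2) := by
  refine hK.eventually_forall_of_forall_eventually
    (P := fun p z => ¬ Pr ((mv P p).pt a z.1) ((mv P p).pt b z.2)) fun z hz => ?_
  have c : ∀ (a : ι) (f : (ι → P3) × ℝ × ℝ → ℝ), Continuous f →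
      Continuous fun w : (ι → P3) × ℝ × ℝ => PBA.pj ((mv P w.1).pt a (f w)) := by
    intro a f hf
    refine PBA.pj_cont.comp ?_
    simp only [PG.pt, PBA.lm]
    fun_prop
  have e : ∀ p q : P3, Pr p q ↔ PBA.pj p = PBA.pj q := fun p q => by
    simp [Pr, PBA.pj, Prod.ext_iff]
  simp only [e]
  exact (isOpen_ne_fun (c a _ (by fun_prop)) (c b _ (by fun_prop))).mem_nhds
    (fun k => h z hz ((e _ _).2 k))

theorem tt_cont {a b : ι} (h : dd P a b ≠ 0) :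
    ContinuousAt (fun p => (mv P p).tt a b) P.pos :=
  PBA.crT_cont (continuous_apply a) (continuous_apply (P.σ a)) (continuous_apply b)
    (continuous_apply (P.σ b)) h

theorem near_ev [Finite ι] (P : PG ι) : ∀ᶠ p in 𝓝 P.pos, Near P p := by
  have ca : ∀ v, Continuous fun p : ι → P3 => p v := fun v => continuous_apply v
  have h1 : ∀ᶠ p in 𝓝 P.pos, ∀ a b, DisP P a b → ¬ (mv P p).Cr a b := by
    refine eventually_all.2 fun a => eventually_all.2 fun b => eventually_all.2 fun k => ?_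
    filter_upwards [pr_ev P a b (isCompact_Icc.prod isCompact_Icc)
      fun z hz => k z.1 hz.1 z.2 hz.2] with p hp hc
    exact hp (_, _) ⟨Ioo_subset_Icc_self (cr_mem hc).1, Ioo_subset_Icc_self (cr_mem hc).2⟩
      (cr_pr (cr_det hc))
  have h2 : ∀ᶠ p in 𝓝 P.pos, ∀ a b, 0 < dd P a b → 0 < dd (mv P p) a b :=
    eventually_all.2 fun a => eventually_all.2 fun b => eventually_all.2 fun k =>
      continuousAt_const.eventually_lt
        (PBA.det2_cont ((ca (P.σ a)).sub (ca a)) ((ca (P.σ b)).sub (ca b))).continuousAt k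
  have h3 : ∀ᶠ p in 𝓝 P.pos, ∀ a b c, dd P a b ≠ 0 → dd P a c ≠ 0 → P.tt a b < P.tt a c →
      (mv P p).tt a b < (mv P p).tt a c :=
    eventually_all.2 fun a => eventually_all.2 fun b => eventually_all.2 fun c =>
      eventually_all.2 fun k => eventually_all.2 fun k' => eventually_all.2 fun l =>
        (tt_cont k).eventually_lt (tt_cont k') l
  have h4 : ∀ᶠ p in 𝓝 P.pos, ∀ a b, dd P a b ≠ 0 → 0 < P.tt a b → 0 < (mv P p).tt a b :=
    eventually_all.2 fun a => eventually_all.2 fun b => eventually_all.2 fun k =>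
      eventually_all.2 fun l => continuousAt_const.eventually_lt (tt_cont k) l
  have h5 : ∀ᶠ p in 𝓝 P.pos, ∀ a b, dd P a b ≠ 0 → P.tt a b < 1 → (mv P p).tt a b < 1 :=
    eventually_all.2 fun a => eventually_all.2 fun b => eventually_all.2 fun k =>
      eventually_all.2 fun l => (tt_cont k).eventually_lt continuousAt_const l
  have h6 : ∀ᶠ p in 𝓝 P.pos, ∀ a b, dd P a b ≠ 0 → Ov P a b → Ov (mv P p) a b :=
    eventually_all.2 fun a => eventually_all.2 fun b => eventually_all.2 fun k =>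
      eventually_all.2 fun l =>
        (PBA.ycr_cont (ca a) (ca (P.σ a)) (ca b) (ca (P.σ b)) k).eventually_lt
          (PBA.ycr_cont (ca b) (ca (P.σ b)) (ca a) (ca (P.σ a)) (dd_ne k)) l
  filter_upwards [h1, h2, h3, h4, h5, h6] with p k1 k2 k3 k4 k5 k6
  exact ⟨k1, k2, k3, k4, k5, k6⟩

theorem Near.pos_iff {p : ι → P3} (h : Near P p) {a b : ι} (hd : dd P a b ≠ 0) :
    (0 < dd P a b ↔ 0 < dd (mv P p) a b) ∧ dd (mv P p) a b ≠ 0 := by
  rcases hd.lt_or_gt with k | k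
  · have k' := h.pos b a (by rw [dd_swap]; linarith)
    rw [dd_swap] at k'
    exact ⟨iff_of_false k.not_gt (by linarith), by linarith⟩
  · exact ⟨iff_of_true k (h.pos a b k), (h.pos a b k).ne'⟩

theorem Near.cr {p : ι → P3} (h : Near P p) {a b : ι} (hc : P.Cr a b) : (mv P p).Cr a b :=
  (K1.cr_iff _ a b).2 ⟨(h.pos_iff hc.1).2,
    ⟨h.lo a b hc.1 (cr_mem hc).1.1, h.hi a b hc.1 (cr_mem hc).1.2⟩,
    h.lo b a (dd_ne hc.1) (cr_mem hc).2.1, h.hi b a (dd_ne hc.1) (cr_mem hc).2.2⟩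

theorem Near.cr_iff {p : ι → P3} (h : Near P p) {a b : ι} (hg : Good P a b) :
    P.Cr a b ↔ (mv P p).Cr a b := by
  refine ⟨h.cr, fun hc => ?_⟩
  have n := PBA.cr_ne _ hc
  rcases hg with k | k | k | k | k
  · exact k
  · exact absurd hc (h.dis a b k)
  · exact absurd k n.1
  · exact absurd k n.2.1
  · exact absurd k n.2.2

theorem Near.ov_iff {p : ι → P3} (h : Near P p) {a b : ι} (ht : Tr P a b) :
    Ov P a b ↔ Ov (mv P p) a b :=
  ⟨h.ov a b ht.1, fun k => ht.2.resolve_right fun k' => ov_asymm k (h.ov b a (dd_ne ht.1) k')⟩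

theorem Near.sg_iff {p : ι → P3} (h : Near P p) {a b : ι} (ht : Tr P a b) :
    P.od.sg a b ↔ (mv P p).od.sg a b :=
  iff_congr (h.ov_iff ht) (h.pos_iff ht.1).1

theorem Near.lt_iff {p : ι → P3} (h : Near P p) {a b c : ι} (hb : dd P a b ≠ 0)
    (hc : dd P a c ≠ 0) (hn : P.tt a b = P.tt a c → b = c) :
    P.tt a b < P.tt a c ↔ (mv P p).tt a b < (mv P p).tt a c := by
  refine ⟨h.lt a b c hb hc, fun k => ?_⟩
  rcases lt_trichotomy (P.tt a b) (P.tt a c) with l | l | l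
  · exact l
  · rw [hn l] at k
    exact absurd k (lt_irrefl _)
  · exact absurd k (h.lt a c b hc hb l).not_gt

theorem Near.agree {p : ι → P3} (h : Near P p) {R Q : ι → ι → Prop}
    (hR : ∀ a b, Q a b → R a b → Tr P a b) (hX : ∀ a b, Q a b → (R a b ↔ (mv P p).Cr a b))
    (hi : ∀ a b c, Q a b → Q a c → R a b → R a c → P.tt a b = P.tt a c → b = c) :
    (odR P R).Agree (mv P p).od Q :=
  ⟨hX, fun a b k x => h.sg_iff (hR a b k x),
    fun a b c k k' x x' => h.lt_iff (hR a b k x).1 (hR a c k' x').1 (hi a b c k k' x x')⟩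

theorem tr_of_wf (h : P.od.WF) {a b : ι} (hc : P.Cr a b) : Tr P a b := by
  refine ⟨hc.1, ?_⟩
  have k := h.2.2.1 a b hc
  rw [sg_iff, sg_iff, dd_swap P a b, neg_pos] at k
  by_contra hn
  rw [not_or] at hn
  rcases Ne.lt_or_gt (show dd P a b ≠ 0 from hc.1) with l | l <;>
    simp [hn.1, hn.2, l, l.not_gt] at k

theorem tr_of_emb (h : P.Emb) {a b : ι} (hc : P.Cr a b) : Tr P a b :=
  ⟨hc.1, lt_or_gt_of_ne (PBA.y_ne h hc)⟩

theorem wfR {R : ι → ι → Prop} (hs : ∀ a b, R a b → R b a) (hR : ∀ a b, R a b → Tr P a b)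
    (hi : ∀ a b c, R a b → R a c → P.tt a b = P.tt a c → b = c) : (odR P R).WF := by
  refine ⟨hs, fun a k => (hR a a k).1 (dd_self P a), fun a b k => ?_, hi⟩
  change P.od.sg a b ↔ P.od.sg b a
  rw [sg_iff, sg_iff, dd_swap P a b, neg_pos]
  obtain ⟨k1, k2⟩ := hR a b k
  rcases k1.lt_or_gt with l | l <;> rcases k2 with o | o <;>
    simp [o, ov_asymm o, l, l.not_gt]

theorem wf_of (h : P.Emb) (hT : ∀ a b c, ¬ TP P a b c) : P.od.WF :=
  wfR (R := P.Cr) (fun _ _ => cr_symm) (fun _ _ => tr_of_emb h)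
    fun a b c k k' l => by_contra fun n => hT a b c ⟨k, k', l, n⟩

theorem Near.agree_wf {p : ι → P3} (h : Near P p) (hW : P.od.WF) {Q : ι → ι → Prop}
    (hX : ∀ a b, Q a b → (P.Cr a b ↔ (mv P p).Cr a b)) : P.od.Agree (mv P p).od Q :=
  h.agree (R := P.Cr) (fun _ _ _ => tr_of_wf hW) hX fun a b c _ _ => hW.2.2.2 a b c

/-- parallel segments that meet -/
theorem par {a b c d : P3} (h : det2 (b - a) (d - c) = 0) {s t : ℝ} (hs : s ∈ Icc (0 : ℝ) 1)
    (ht : t ∈ Icc (0 : ℝ) 1) (hp : Pr (AffineMap.lineMap a b s) (AffineMap.lineMap c d t)) :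
    (∃ u ∈ Icc (0 : ℝ) 1, Pr a (AffineMap.lineMap c d u)) ∨
      (∃ u ∈ Icc (0 : ℝ) 1, Pr c (AffineMap.lineMap a b u)) ∨
      ∃ u ∈ Icc (0 : ℝ) 1, Pr d (AffineMap.lineMap a b u) := by
  obtain ⟨h1, h2⟩ := hp
  simp only [Pr, PBA.lm1, PBA.lm3, det2, Prod.fst_sub, Prod.snd_sub] at h h1 h2 ⊢
  by_cases hz : b.1 - a.1 = 0 ∧ b.2.2 - a.2.2 = 0
  · refine Or.inl ⟨t, ht, ?_, ?_⟩
    · rw [← h1, hz.1]; ring
    · rw [← h2, hz.2]; ring
  obtain ⟨k, k1, k2⟩ : ∃ k : ℝ, d.1 - c.1 = k * (b.1 - a.1) ∧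
      d.2.2 - c.2.2 = k * (b.2.2 - a.2.2) := by
    by_cases h0 : b.1 - a.1 = 0
    · have h3 : b.2.2 - a.2.2 ≠ 0 := fun k => hz ⟨h0, k⟩
      refine ⟨(d.2.2 - c.2.2) / (b.2.2 - a.2.2), ?_, by field_simp⟩
      rw [h0, zero_mul, zero_sub, neg_eq_zero, mul_eq_zero] at h
      rw [h0, mul_zero]
      exact h.resolve_left h3
    · refine ⟨(d.1 - c.1) / (b.1 - a.1), by field_simp, ?_⟩
      field_simp
      linarith
  have c1 : c.1 = a.1 + (s - t * k) * (b.1 - a.1) := by linear_combination -h1 - t * k1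
  have c2 : c.2.2 = a.2.2 + (s - t * k) * (b.2.2 - a.2.2) := by linear_combination -h2 - t * k2
  have d1 : d.1 = a.1 + (s + (1 - t) * k) * (b.1 - a.1) := by linear_combination c1 + k1
  have d2 : d.2.2 = a.2.2 + (s + (1 - t) * k) * (b.2.2 - a.2.2) := by linear_combination c2 + k2
  have mid : ∀ w : ℝ, w * k = t * k - s → a.1 = c.1 + w * (d.1 - c.1) ∧
      a.2.2 = c.2.2 + w * (d.2.2 - c.2.2) := fun w hw =>
    ⟨by linear_combination -c1 - w * k1 - (b.1 - a.1) * hw,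
      by linear_combination -c2 - w * k2 - (b.2.2 - a.2.2) * hw⟩
  obtain ⟨s0, s1⟩ := hs
  obtain ⟨t0, t1⟩ := ht
  rcases le_total 0 k with hk | hk
  · by_cases h5 : 0 ≤ s - t * k
    · exact Or.inr (Or.inl ⟨_, ⟨h5, by nlinarith⟩, c1, c2⟩)
    · have hk' : 0 < k := hk.lt_of_ne (by rintro rfl; exact h5 (by simpa using s0))
      refine Or.inl ⟨(t * k - s) / k, ⟨div_nonneg (by linarith) hk, ?_⟩, mid _ (by field_simp)⟩
      rw [div_le_one hk']
      nlinarith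
  · by_cases h5 : 0 ≤ s + (1 - t) * k
    · exact Or.inr (Or.inr ⟨_, ⟨h5, by nlinarith⟩, d1, d2⟩)
    · have hk' : k < 0 := hk.lt_of_ne (by rintro rfl; exact h5 (by simpa using s0))
      have hk'' := hk'.ne
      refine Or.inl ⟨(t * k - s) / k, ⟨div_nonneg_of_nonpos (by nlinarith) hk, ?_⟩,
        mid _ (by field_simp)⟩
      rw [div_le_one_of_neg hk']
      nlinarith

/-- the same with the other end of the first segment -/
theorem par' {a b c d : P3} (h : det2 (b - a) (d - c) = 0) {s t : ℝ} (hs : s ∈ Icc (0 : ℝ) 1)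
    (ht : t ∈ Icc (0 : ℝ) 1) (hp : Pr (AffineMap.lineMap a b s) (AffineMap.lineMap c d t)) :
    (∃ u ∈ Icc (0 : ℝ) 1, Pr b (AffineMap.lineMap c d u)) ∨
      (∃ u ∈ Icc (0 : ℝ) 1, Pr c (AffineMap.lineMap a b u)) ∨
      ∃ u ∈ Icc (0 : ℝ) 1, Pr d (AffineMap.lineMap a b u) := by
  have r : ∀ u : ℝ, (AffineMap.lineMap b a (1 - u) : P3) = AffineMap.lineMap a b u :=
    fun u => AffineMap.lineMap_apply_one_sub _ _ _
  have m : ∀ u ∈ Icc (0 : ℝ) 1, 1 - u ∈ Icc (0 : ℝ) 1 := fun u hu =>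
    ⟨by linarith [hu.2], by linarith [hu.1]⟩
  have h' : det2 (a - b) (d - c) = 0 := by
    simp only [det2, Prod.fst_sub, Prod.snd_sub] at h ⊢
    linarith
  have q : ∀ x : P3, (∃ u ∈ Icc (0 : ℝ) 1, Pr x (AffineMap.lineMap b a u)) →
      ∃ u ∈ Icc (0 : ℝ) 1, Pr x (AffineMap.lineMap a b u) := by
    rintro x ⟨u, hu, k⟩
    refine ⟨1 - u, m u hu, ?_⟩
    rw [← r, sub_sub_cancel]
    exact k
  exact (par h' (m s hs) ht (by rw [r]; exact hp)).imp_right (Or.imp (q c) (q d))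

/-- consecutive segments that meet again -/
theorem fold {a b d : P3} {s t : ℝ} (hs : s ∈ Ico (0 : ℝ) 1) (ht : t ∈ Icc (0 : ℝ) 1)
    (hp : Pr (AffineMap.lineMap a b s) (AffineMap.lineMap b d t)) :
    (∃ u ∈ Icc (0 : ℝ) 1, Pr a (AffineMap.lineMap b d u)) ∨
      ∃ u ∈ Icc (0 : ℝ) 1, Pr d (AffineMap.lineMap a b u) := by
  obtain ⟨h1, h2⟩ := hp
  simp only [Pr, PBA.lm1, PBA.lm3] at h1 h2 ⊢
  have s1 : 0 < 1 - s := by linarith [hs.2]
  rcases le_total t (1 - s) with k | k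
  · refine Or.inl ⟨t / (1 - s), ⟨div_nonneg ht.1 s1.le, (div_le_one s1).2 k⟩, ?_, ?_⟩
    · field_simp
      linarith
    · field_simp
      linarith
  · have t0 : 0 < t := s1.trans_le k
    have := (div_le_one t0).2 k
    have := div_pos s1 t0
    refine Or.inr ⟨1 - (1 - s) / t, ⟨by linarith, by linarith⟩, ?_, ?_⟩
    · field_simp
      linarith
    · field_simp
      linarith

theorem coinV (h : P.Emb) {f g : ι} (hfg : f ≠ g) (h1 : ¬ VE P f g) (h2 : ¬ VE P (P.σ f) g)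
    (h3 : ¬ VE P g f) (h4 : ¬ VE P (P.σ g) f) {s t : ℝ} (hs : s ∈ Ico (0 : ℝ) 1)
    (ht : t ∈ Ico (0 : ℝ) 1) (hp : Pr (P.pt f s) (P.pt g t)) : P.Cr f g := by
  have n1 := PBA.emb_ne1 h
  have n2 := PBA.emb_ne2 h
  have adj : ∀ f {s t : ℝ}, ¬ VE P f (P.σ f) → ¬ VE P (P.σ (P.σ f)) f → s ∈ Ico (0 : ℝ) 1 →
      t ∈ Ico (0 : ℝ) 1 → ¬ Pr (P.pt f s) (P.pt (P.σ f) t) := by
    intro f s t a b hs ht hp
    rcases fold hs (Ico_subset_Icc_self ht) hp with k | k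
    · exact a ⟨(n1 f).symm, (n2 f).symm, k⟩
    · exact b ⟨n2 f, n1 _, k⟩
  by_cases a1 : g = P.σ f
  · subst a1
    exact absurd hp (adj f h1 h4 hs ht)
  by_cases a2 : f = P.σ g
  · subst a2
    exact absurd (pr_symm hp) (adj g h3 h2 ht hs)
  have s0 : 0 < s := hs.1.lt_of_ne (by
    rintro rfl
    exact h1 ⟨hfg, a2, t, Ico_subset_Icc_self ht, pt_zero P f ▸ hp⟩)
  have t0 : 0 < t := ht.1.lt_of_ne (by
    rintro rfl
    exact h3 ⟨hfg.symm, a1, s, Ico_subset_Icc_self hs, pt_zero P g ▸ pr_symm hp⟩)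
  refine cr_of (fun hd => ?_) ⟨s0, hs.2⟩ ⟨t0, ht.2⟩ hp
  rcases par hd (Ico_subset_Icc_self hs) (Ico_subset_Icc_self ht) hp with k | k | k
  · exact h1 ⟨hfg, a2, k⟩
  · exact h3 ⟨hfg.symm, a1, k⟩
  · exact h4 ⟨Ne.symm a2, fun l => hfg (P.σ.injective l).symm, k⟩

theorem good_of (h : P.Emb) {f g : ι} (h1 : ¬ VE P f g) (h2 : ¬ VE P (P.σ f) g)
    (h3 : ¬ VE P g f) (h4 : ¬ VE P (P.σ g) f) : Good P f g := by
  by_contra hn
  simp only [Good, not_or] at hn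
  obtain ⟨k1, k2, k3, k4, k5⟩ := hn
  refine k2 fun s hs t ht hp => ?_
  rcases hs.2.eq_or_lt with rfl | s1
  · exact h2 ⟨Ne.symm k4, fun l => k3 (P.σ.injective l), t, ht, pt_one P f ▸ hp⟩
  rcases ht.2.eq_or_lt with rfl | t1
  · exact h4 ⟨Ne.symm k5, fun l => k3 (P.σ.injective l).symm, s, hs, pt_one P g ▸ pr_symm hp⟩
  exact k1 (coinV h k3 h1 h2 h3 h4 ⟨hs.1, s1⟩ ⟨ht.1, t1⟩ hp)

theorem gen_noVE (h : P.Gen) (v f : ι) : ¬ VE P v f := by
  rintro ⟨k1, k2, t, ht, hp⟩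
  rw [← pt_zero] at hp
  rcases coin h ⟨le_rfl, zero_le_one⟩ ht hp with c | c | c | c
  · exact k1 c.1
  · exact k2 c.2.2.symm
  · exact zero_ne_one c.1
  · exact (cr_mem c.1).1.1.ne c.2.1

theorem gen_pos (h : P.Gen) {v w : ι} (hp : Pr (P.pos v) (P.pos w)) : v = w := by
  rw [← pt_zero, ← pt_zero] at hp
  rcases coin0 h ⟨le_rfl, one_pos⟩ ⟨le_rfl, one_pos⟩ hp with c | c
  · exact c.1
  · exact absurd c.2.1 (cr_mem c.1).1.1.ne

theorem gen_of_noVE (h : P.Emb) (hV : ∀ v f, ¬ VE P v f) (hT : ∀ a b c, ¬ TP P a b c) :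
    P.Gen := by
  refine ⟨h, fun e f u hu u' hu' k1 k2 => ?_,
    fun a b c k k' l => by_contra fun n => hT a b c ⟨k, k', l, n⟩⟩
  by_cases hef : e = f
  · subst hef
    refine Or.inl ⟨rfl, by_contra fun n => hV e (P.σ e)
      ⟨(PBA.emb_ne1 h e).symm, (PBA.emb_ne2 h e).symm, 0, ⟨le_rfl, zero_le_one⟩, ?_⟩⟩
    rw [pt_zero]
    rw [PG.pt, PG.pt, PBA.lm1, PBA.lm1] at k1
    rw [PG.pt, PG.pt, PBA.lm3, PBA.lm3] at k2
    have n' : u - u' ≠ 0 := sub_ne_zero.2 n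
    exact ⟨mul_left_cancel₀ n' (by linear_combination -k1),
      mul_left_cancel₀ n' (by linear_combination -k2)⟩
  · exact Or.inr (coinV h hef (hV _ _) (hV _ _) (hV _ _) (hV _ _) hu hu' ⟨k1, k2⟩)

end K1

end Pool.Agent.Lib.MP_4d7d0a_gt
end

-- part Pool.Agent.Lib.MP_4d7d0a_gt.K1B
section

/-! Subdivision of an edge, insertion of a vertex, relabelling. -/

set_option autoImplicit false

open Set Filter Topology

namespace Pool.Agent.Lib.MP_4d7d0a_gt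

namespace K1

open PAdm (Pr dir pt_eq pt_zero pt_one cr_det tt_eq cr_param cr_pr cr_mem cr_symm pr_symm coin0
  coin dir_ne not_cr not_cr')

variable {ι : Type}

/-- the start parameter of a part of the subdivided polygon on the old edge -/
def sa (l : ℝ) (a : Option ι) : ℝ := a.elim l fun _ => 0

open Classical in
/-- the end parameter of a part of the subdivided polygon on the old edge -/
noncomputable def sb (e : ι) (l : ℝ) (a : Option ι) : ℝ := if a = some e then l else 1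

variable {P : PG ι}

theorem b_cases (e : ι) (a : Option ι) : a = none ∨ a = some e ∨ ∃ g, g ≠ e ∧ a = some g := by
  rcases a with _ | g
  · exact Or.inl rfl
  · by_cases h : g = e
    · exact Or.inr (Or.inl (congrArg some h))
    · exact Or.inr (Or.inr ⟨g, h, rfl⟩)

theorem b_sa0 (l : ℝ) : sa l (none : Option ι) = l := rfl

theorem b_sa1 (l : ℝ) (g : ι) : sa l (some g) = 0 := rfl

theorem b_sb0 (e : ι) (l : ℝ) : sb e l none = 1 := by simp [sb]

theorem b_sb1 (e : ι) (l : ℝ) : sb e l (some e) = l := by simp [sb]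

theorem b_sb2 {e g : ι} (h : g ≠ e) (l : ℝ) : sb e l (some g) = 1 := by simp [sb, h]

theorem b_range (e : ι) {l : ℝ} (hl : l ∈ Icc (0 : ℝ) 1) (a : Option ι) :
    0 ≤ sa l a ∧ sa l a ≤ sb e l a ∧ sb e l a ≤ 1 := by
  rcases b_cases e a with rfl | rfl | ⟨g, hg, rfl⟩
  · rw [b_sa0, b_sb0]
    exact ⟨hl.1, hl.2, le_rfl⟩
  · rw [b_sa1, b_sb1]
    exact ⟨le_rfl, hl.1, hl.2⟩
  · rw [b_sa1, b_sb2 hg]
    exact ⟨le_rfl, zero_le_one, le_rfl⟩

theorem b_lt (e : ι) {l : ℝ} (hl : l ∈ Ioo (0 : ℝ) 1) (a : Option ι) : sa l a < sb e l a := by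
  rcases b_cases e a with rfl | rfl | ⟨g, hg, rfl⟩
  · rw [b_sa0, b_sb0]
    exact hl.2
  · rw [b_sa1, b_sb1]
    exact hl.1
  · rw [b_sa1, b_sb2 hg]
    exact one_pos

theorem b_getD {e : ι} {a b : Option ι} (h : a.getD e = b.getD e) :
    a = b ∨ (a = some e ∧ b = none) ∨ (a = none ∧ b = some e) := by
  rcases a with _ | g <;> rcases b with _ | g'
  · exact Or.inl rfl
  · exact Or.inr (Or.inr ⟨rfl, congrArg some h.symm⟩)
  · exact Or.inr (Or.inl ⟨congrArg some h, rfl⟩)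
  · exact Or.inl (congrArg some h)

theorem sub_pt (P : PG ι) (e : ι) (l : ℝ) (a : Option ι) (u : ℝ) :
    (ins P e (P.pt e l)).pt a u = P.pt (a.getD e) (sa l a + u * (sb e l a - sa l a)) := by
  rcases b_cases e a with rfl | rfl | ⟨g, hg, rfl⟩
  · rw [ins_pt_none, b_sa0, b_sb0, Option.getD_none, ← pt_one, PBA.lm, pt_eq, pt_eq, pt_eq]
    module
  · rw [ins_pt_e, b_sa1, b_sb1, Option.getD_some, PBA.lm, pt_eq, pt_eq]
    module
  · rw [ins_pt P _ hg, b_sa1, b_sb2 hg, Option.getD_some]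
    congr 1
    ring

theorem b_dir (P : PG ι) (e : ι) (l : ℝ) (a : Option ι) :
    dir (ins P e (P.pt e l)) a = (sb e l a - sa l a) • dir P (a.getD e) := by
  rw [dir, ← pt_one, ← pt_zero, sub_pt, sub_pt, pt_eq, pt_eq]
  module

theorem b_dd (P : PG ι) (e : ι) (l : ℝ) (a b : Option ι) : dd (ins P e (P.pt e l)) a b =
    (sb e l a - sa l a) * (sb e l b - sa l b) * dd P (a.getD e) (b.getD e) := by
  simp only [dd, b_dir, det2, Prod.smul_fst, Prod.smul_snd, smul_eq_mul]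
  ring

theorem b_ddP (P : PG ι) (e : ι) (l : ℝ) {a b : Option ι} (h : dd (ins P e (P.pt e l)) a b ≠ 0) :
    dd P (a.getD e) (b.getD e) ≠ 0 := fun h0 => h (by rw [b_dd, h0, mul_zero])

theorem b_lam (P : PG ι) (e : ι) {l : ℝ} (hl : l ∈ Icc (0 : ℝ) 1) {a b : Option ι}
    (h : dd (ins P e (P.pt e l)) a b ≠ 0) : 0 < sb e l a - sa l a :=
  lt_of_le_of_ne (sub_nonneg.2 (b_range e hl a).2.1) fun h0 =>
    h (by rw [b_dd, ← h0, zero_mul, zero_mul])

theorem b_tt (P : PG ι) (e : ι) (l : ℝ) {a b : Option ι} (h : dd (ins P e (P.pt e l)) a b ≠ 0) :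
    P.tt (a.getD e) (b.getD e) =
      sa l a + (ins P e (P.pt e l)).tt a b * (sb e l a - sa l a) := by
  have h1 := cr_pr (P := ins P e (P.pt e l)) h
  rw [sub_pt, sub_pt] at h1
  exact (cr_param (b_ddP P e l h) h1).symm

theorem sub_cr (P : PG ι) (e : ι) {l : ℝ} (hl : l ∈ Icc (0 : ℝ) 1) (a b : Option ι) :
    (ins P e (P.pt e l)).Cr a b ↔ dd P (a.getD e) (b.getD e) ≠ 0 ∧
      P.tt (a.getD e) (b.getD e) ∈ Ioo (sa l a) (sb e l a) ∧
      P.tt (b.getD e) (a.getD e) ∈ Ioo (sa l b) (sb e l b) := by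
  constructor
  · intro hc
    have h1 := b_lam P e hl hc.1
    have h2 := b_lam P e hl (dd_ne hc.1)
    have h3 := cr_mem hc
    rw [b_tt P e l hc.1, b_tt P e l (dd_ne hc.1)]
    refine ⟨b_ddP P e l hc.1, ⟨?_, ?_⟩, ?_, ?_⟩ <;> nlinarith [h3.1.1, h3.1.2, h3.2.1, h3.2.2]
  · rintro ⟨h0, h1, h2⟩
    have h3 : 0 < sb e l a - sa l a := sub_pos.2 (h1.1.trans h1.2)
    have h4 : 0 < sb e l b - sa l b := sub_pos.2 (h2.1.trans h2.2)
    have h5 : dd (ins P e (P.pt e l)) a b ≠ 0 := by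
      rw [b_dd]
      exact mul_ne_zero (mul_pos h3 h4).ne' h0
    rw [b_tt P e l h5] at h1
    rw [b_tt P e l (dd_ne h5)] at h2
    refine (cr_iff _ a b).2 ⟨h5, ⟨?_, ?_⟩, ?_, ?_⟩
    · exact (mul_pos_iff_of_pos_right h3).1 (by linarith [h1.1])
    · exact lt_of_mul_lt_mul_right (by linarith [h1.2]) h3.le
    · exact (mul_pos_iff_of_pos_right h4).1 (by linarith [h2.1])
    · exact lt_of_mul_lt_mul_right (by linarith [h2.2]) h4.le

theorem b_crP {e : ι} {l : ℝ} (hl : l ∈ Icc (0 : ℝ) 1) {a b : Option ι}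
    (hc : (ins P e (P.pt e l)).Cr a b) : P.Cr (a.getD e) (b.getD e) := by
  obtain ⟨h0, h1, h2⟩ := (sub_cr P e hl a b).1 hc
  exact (cr_iff P _ _).2 ⟨h0, ⟨(b_range e hl a).1.trans_lt h1.1, h1.2.trans_le (b_range e hl a).2.2⟩,
    (b_range e hl b).1.trans_lt h2.1, h2.2.trans_le (b_range e hl b).2.2⟩

theorem b_sg {e : ι} {l : ℝ} (hl : l ∈ Icc (0 : ℝ) 1) {a b : Option ι}
    (hc : (ins P e (P.pt e l)).Cr a b) :
    (ins P e (P.pt e l)).od.sg a b ↔ P.od.sg (a.getD e) (b.getD e) := by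
  rw [sg_iff, sg_iff, Ov, Ov, sub_pt, sub_pt, ← b_tt P e l hc.1, ← b_tt P e l (dd_ne hc.1), b_dd,
    mul_pos_iff_of_pos_left (mul_pos (b_lam P e hl hc.1) (b_lam P e hl (dd_ne hc.1)))]

theorem b_ioo (P : PG ι) (e : ι) {l : ℝ} (hl : l ∈ Icc (0 : ℝ) 1) (a : Option ι) (g : ι) :
    P.tt (a.getD e) g ∈ Ioo (sa l a) (sb e l a) ↔
      P.tt (a.getD e) g ∈ Ioo (0 : ℝ) 1 ∧ P.od.Side e l a g := by
  rcases b_cases e a with rfl | rfl | ⟨f, hf, rfl⟩
  · rw [b_sa0, b_sb0]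
    exact ⟨fun h => ⟨⟨hl.1.trans_lt h.1, h.2⟩, fun k => by simp at k, fun _ => h.1⟩,
      fun h => ⟨h.2.2 rfl, h.1.2⟩⟩
  · rw [b_sa1, b_sb1]
    exact ⟨fun h => ⟨⟨h.1, h.2.trans_le hl.2⟩, fun _ => h.2, fun k => by simp at k⟩,
      fun h => ⟨h.1.1, h.2.1 rfl⟩⟩
  · rw [b_sa1, b_sb2 hf]
    exact ⟨fun h => ⟨h, fun k => absurd (Option.some.inj k) hf, fun k => by simp at k⟩,
      fun h => h.1⟩

theorem b_inj (h : ∀ e f g, P.Cr e f → P.Cr e g → P.tt e f = P.tt e g → f = g) {e : ι} {l : ℝ}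
    (hl : l ∈ Icc (0 : ℝ) 1) (a b c : Option ι)
    (hb : (ins P e (P.pt e l)).Cr a b) (hc : (ins P e (P.pt e l)).Cr a c)
    (ht : (ins P e (P.pt e l)).tt a b = (ins P e (P.pt e l)).tt a c) : b = c := by
  have h1 : P.tt (a.getD e) (b.getD e) = P.tt (a.getD e) (c.getD e) := by
    rw [b_tt P e l hb.1, b_tt P e l hc.1, ht]
  have h2 := ((sub_cr P e hl a b).1 hb).2.2
  have h3 := ((sub_cr P e hl a c).1 hc).2.2
  rcases b_getD (h _ _ _ (b_crP hl hb) (b_crP hl hc) h1) with h4 | ⟨rfl, rfl⟩ | ⟨rfl, rfl⟩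
  · exact h4
  · rw [b_sb1] at h2
    exact absurd h2.2 (lt_asymm h3.1)
  · rw [b_sb1] at h3
    exact absurd h3.2 (lt_asymm h2.1)

theorem subd (T : ODTheory) [Finite ι] (h : P.od.WF) (e : ι) {l : ℝ} (hl : l ∈ Icc (0 : ℝ) 1)
    (hn : ∀ g, P.Cr e g → P.tt e g ≠ l) :
    (ins P e (P.pt e l)).od.WF ∧ Eqv T P (ins P e (P.pt e l)) := by
  have hW : (ins P e (P.pt e l)).od.WF := by
    refine ⟨fun a b hc => cr_symm hc, fun a hc => hc.1 (dd_self _ a), fun a b hc => ?_,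
      fun a b c hb hc ht => ?_⟩
    · rw [b_sg hl hc, b_sg hl (cr_symm hc)]
      exact h.2.2.1 _ _ (b_crP hl hc)
    · exact b_inj h.2.2.2 hl a b c hb hc ht
  refine ⟨hW, fun q => T.sub P.od (ins P e (P.pt e l)).od e l q h hW (ins_e P e (P.pt e l))
    (ins_none P e (P.pt e l)) (fun g hg => ins_ne P (P.pt e l) hg) hn (fun a b => ?_)
    (fun a b hc => b_sg hl hc) fun a b c hb hc => ?_⟩
  · refine (sub_cr P e hl a b).trans ?_
    rw [b_ioo P e hl, b_ioo P e hl]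
    exact ⟨fun h1 => ⟨⟨h1.1, h1.2.1.1, h1.2.2.1⟩, h1.2.1.2, h1.2.2.2⟩,
      fun h1 => ⟨h1.1.1, ⟨h1.1.2.1, h1.2.1⟩, h1.1.2.2, h1.2.2⟩⟩
  · change _ ↔ P.tt _ _ < P.tt _ _
    rw [b_tt P e l hb.1, b_tt P e l hc.1, add_lt_add_iff_left,
      mul_lt_mul_iff_left₀ (b_lam P e hl hb.1)]
    rfl

theorem b_par (e : ι) {l : ℝ} (hl : l ∈ Ioo (0 : ℝ) 1) (a : Option ι) {u : ℝ}
    (hu : u ∈ Ico (0 : ℝ) 1) : sa l a + u * (sb e l a - sa l a) ∈ Ico (sa l a) (sb e l a) := by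
  have h1 := b_lt e hl a
  constructor <;> nlinarith [hu.1, hu.2]

theorem b_par' (e : ι) {l : ℝ} (hl : l ∈ Ioo (0 : ℝ) 1) (a : Option ι) {u : ℝ}
    (hu : u ∈ Ico (0 : ℝ) 1) : sa l a + u * (sb e l a - sa l a) ∈ Ico (0 : ℝ) 1 :=
  ⟨(b_range e (Ioo_subset_Icc_self hl) a).1.trans (b_par e hl a hu).1,
    (b_par e hl a hu).2.trans_le (b_range e (Ioo_subset_Icc_self hl) a).2.2⟩

theorem b_eq {e : ι} {l : ℝ} (hl : l ∈ Ioo (0 : ℝ) 1) {a b : Option ι} {u u' : ℝ}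
    (hu : u ∈ Ico (0 : ℝ) 1) (hu' : u' ∈ Ico (0 : ℝ) 1) (h1 : a.getD e = b.getD e)
    (h2 : sa l a + u * (sb e l a - sa l a) = sa l b + u' * (sb e l b - sa l b)) :
    a = b ∧ u = u' := by
  have h3 := b_par e hl a hu
  have h4 := b_par e hl b hu'
  rcases b_getD h1 with rfl | ⟨rfl, rfl⟩ | ⟨rfl, rfl⟩
  · exact ⟨rfl, mul_right_cancel₀ (sub_pos.2 (b_lt e hl a)).ne' (add_left_cancel h2)⟩
  · rw [h2] at h3
    exact absurd (h3.2.trans_eq (b_sb1 e l)) (not_lt.2 h4.1)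
  · rw [← h2] at h4
    exact absurd (h4.2.trans_eq (b_sb1 e l)) (not_lt.2 h3.1)

theorem emb_sub (h : P.Emb) (e : ι) {l : ℝ} (hl : l ∈ Ioo (0 : ℝ) 1) :
    (ins P e (P.pt e l)).Emb := by
  intro a b u hu u' hu' hp
  rw [sub_pt, sub_pt] at hp
  obtain ⟨h1, h2⟩ := h _ _ _ (b_par' e hl a hu) _ (b_par' e hl b hu') hp
  exact b_eq hl hu hu' h1 h2

theorem gen_sub (h : P.Gen) (e : ι) {l : ℝ} (hl : l ∈ Ioo (0 : ℝ) 1)
    (hn : ∀ g, P.Cr e g → P.tt e g ≠ l) : (ins P e (P.pt e l)).Gen := by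
  have hl' := Ioo_subset_Icc_self hl
  have key : ∀ (a : Option ι) (g : ι), P.Cr (a.getD e) g →
      P.tt (a.getD e) g ∈ Ico (sa l a) (sb e l a) →
      P.tt (a.getD e) g ∈ Ioo (sa l a) (sb e l a) := fun a g hc ht => by
    refine ⟨lt_of_le_of_ne ht.1 fun h0 => ?_, ht.2⟩
    rcases a with _ | f
    · exact hn g hc h0.symm
    · exact (cr_mem hc).1.1.ne h0
  refine ⟨emb_sub h.1 e hl, fun a b u hu u' hu' h1 h2 => ?_, b_inj h.2.2 hl'⟩
  have hp : Pr ((ins P e (P.pt e l)).pt a u) ((ins P e (P.pt e l)).pt b u') := ⟨h1, h2⟩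
  rw [sub_pt, sub_pt] at hp
  rcases coin0 h (b_par' e hl a hu) (b_par' e hl b hu') hp with ⟨h3, h4⟩ | ⟨h3, h4, h5⟩
  · exact Or.inl (b_eq hl hu hu' h3 h4)
  · exact Or.inr ((sub_cr P e hl' a b).2 ⟨h3.1, key a _ h3 (h4 ▸ b_par e hl a hu),
      key b _ (cr_symm h3) (h5 ▸ b_par e hl b hu')⟩)

theorem exists_l [Finite ι] (P : PG ι) (e : ι) {l₀ : ℝ} {I : Set ℝ} (hI : I ∈ 𝓝 l₀) :
    ∃ l ∈ I, ∀ g, P.tt e g ≠ l := by
  obtain ⟨l, h1, h2⟩ := (infinite_of_mem_nhds l₀ hI).exists_notMem_finite (finite_range (P.tt e))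
  exact ⟨l, h1, fun g hg => h2 ⟨g, hg⟩⟩

theorem b_good (h : P.Gen) (e : ι) {l : ℝ} (hl : l ∈ Icc (0 : ℝ) 1) (a b : Option ι)
    (h1 : sa l a ≤ 0 → 1 ≤ sb e l b → P.σ (b.getD e) = a.getD e →
      a = b ∨ a = (ins P e (P.pt e l)).σ b)
    (h2 : sa l b ≤ 0 → 1 ≤ sb e l a → P.σ (a.getD e) = b.getD e →
      b = a ∨ b = (ins P e (P.pt e l)).σ a)
    (h3 : ∀ c : Option ι, ∀ t ∈ Icc (sa l c) (sb e l c), t ∈ Ioo (0 : ℝ) 1 →
      t ∈ Ioo (sa l c) (sb e l c)) : Good (ins P e (P.pt e l)) a b := by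
  by_cases hD : DisP (ins P e (P.pt e l)) a b
  · exact Or.inr (Or.inl hD)
  simp only [DisP, not_forall, not_not] at hD
  obtain ⟨s, hs, t, ht, hp⟩ := hD
  have m : ∀ (c : Option ι), ∀ u ∈ Icc (0 : ℝ) 1,
      sa l c + u * (sb e l c - sa l c) ∈ Icc (sa l c) (sb e l c) := fun c u hu => by
    have := (b_range e hl c).2.1
    constructor <;> nlinarith [hu.1, hu.2]
  have m' : ∀ (c : Option ι), ∀ u ∈ Icc (0 : ℝ) 1,
      sa l c + u * (sb e l c - sa l c) ∈ Icc (0 : ℝ) 1 := fun c u hu =>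
    ⟨(b_range e hl c).1.trans (m c u hu).1, (m c u hu).2.trans (b_range e hl c).2.2⟩
  rw [sub_pt, sub_pt] at hp
  rcases coin h (m' a s hs) (m' b t ht) hp with k | ⟨k1, k2, k3⟩ | ⟨k1, k2, k3⟩ | ⟨k1, k2, k3⟩
  · rcases b_getD k.1 with k | ⟨rfl, rfl⟩ | ⟨rfl, rfl⟩
    · exact Or.inr (Or.inr (Or.inl k))
    · exact Or.inr (Or.inr (Or.inr (Or.inl (ins_e P e _).symm)))
    · exact Or.inr (Or.inr (Or.inr (Or.inr (ins_e P e _).symm)))
  · rcases h1 ((m a s hs).1.trans_eq k1) (k2.symm.trans_le (m b t ht).2) k3 with k | k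
    · exact Or.inr (Or.inr (Or.inl k))
    · exact Or.inr (Or.inr (Or.inr (Or.inr k)))
  · rcases h2 ((m b t ht).1.trans_eq k2) (k1.symm.trans_le (m a s hs).2) k3 with k | k
    · exact Or.inr (Or.inr (Or.inl k.symm))
    · exact Or.inr (Or.inr (Or.inr (Or.inl k)))
  · exact Or.inl ((sub_cr P e hl a b).2 ⟨k1.1, h3 a _ (k2 ▸ m a s hs) (cr_mem k1).1,
      h3 b _ (k3 ▸ m b t ht) (cr_mem k1).2⟩)

theorem good_sub0 (h : P.Gen) (e : ι) (a b : Option ι)
    (hab : OD.Off1 (some (P.σ.symm e)) none a b) : Good (ins P e (P.pt e 0)) a b := by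
  have key : ∀ a b : Option ι, ¬ (a = none ∧ b = some (P.σ.symm e)) → 1 ≤ sb e 0 b →
      P.σ (b.getD e) = a.getD e → a = b ∨ a = (ins P e (P.pt e 0)).σ b := fun a b h0 h1 h2 => by
    rcases b_cases e b with rfl | rfl | ⟨g, hg, rfl⟩
    · rcases a with _ | f
      · exact Or.inl rfl
      · exact Or.inr ((congrArg some h2).symm.trans (ins_none P e _).symm)
    · rw [b_sb1] at h1
      exact absurd h1 (by norm_num)
    · rcases a with _ | f
      · exact absurd ⟨rfl, congrArg some (P.σ.eq_symm_apply.2 h2)⟩ h0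
      · exact Or.inr ((congrArg some h2).symm.trans (ins_ne P _ hg).symm)
  refine b_good h e ⟨le_rfl, zero_le_one⟩ a b (fun _ => key a b hab.2)
    (fun _ => key b a fun k => hab.1 k.symm) fun c t h1 h2 => ?_
  rcases b_cases e c with rfl | rfl | ⟨g, hg, rfl⟩
  · rwa [b_sa0, b_sb0]
  · exact absurd (h1.2.trans_eq (b_sb1 e 0)) (not_le.2 h2.1)
  · rwa [b_sa1, b_sb2 hg]

theorem good_sub1 (h : P.Gen) (e : ι) (a b : Option ι)
    (hab : OD.Off1 (some e) (some (P.σ e)) a b) : Good (ins P e (P.pt e 1)) a b := by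
  have key : ∀ a b : Option ι, ¬ (a = some (P.σ e) ∧ b = some e) → sa 1 a ≤ 0 →
      P.σ (b.getD e) = a.getD e → a = b ∨ a = (ins P e (P.pt e 1)).σ b := fun a b h0 h1 h2 => by
    rcases a with _ | f
    · rw [b_sa0] at h1
      exact absurd h1 (by norm_num)
    · rcases b_cases e b with rfl | rfl | ⟨g, hg, rfl⟩
      · exact Or.inr ((congrArg some h2).symm.trans (ins_none P e _).symm)
      · exact absurd ⟨(congrArg some h2).symm, rfl⟩ h0
      · exact Or.inr ((congrArg some h2).symm.trans (ins_ne P _ hg).symm)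
  refine b_good h e ⟨zero_le_one, le_rfl⟩ a b (fun k _ => key a b hab.2 k)
    (fun k _ => key b a (fun k => hab.1 k.symm) k) fun c t h1 h2 => ?_
  rcases b_cases e c with rfl | rfl | ⟨g, hg, rfl⟩
  · exact absurd h1.1 (not_le.2 h2.2)
  · rwa [b_sa1, b_sb1]
  · rwa [b_sa1, b_sb2 hg]

end K1

end Pool.Agent.Lib.MP_4d7d0a_gt
end

-- part Pool.Agent.Lib.MP_4d7d0a_gt.K1F
section

/-! Contacts of a polygon with one moving vertex. -/

set_option autoImplicit false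

open Set Filter Topology

namespace Pool.Agent.Lib.MP_4d7d0a_gt

namespace K1

open PAdm (Pr dir pt_eq pt_zero pt_one cr_det tt_eq cr_param cr_pr cr_mem cr_symm pr_symm coin0
  coin dir_ne not_cr not_cr')

variable {ι : Type}

variable {Q : PG ι}

theorem f_pt_a (h : Q.Gen) {a m : ι} (ha : Q.σ a = m) (x : P3) (u : ℝ) :
    (upd Q m x).pt a u = AffineMap.lineMap (Q.pos a) x u := by
  have h1 : a ≠ m := fun k => PBA.emb_ne1 h.1 a (ha.trans k.symm)
  rw [PG.pt, upd_s, ha, upd_same, upd_ne Q x h1]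

theorem f_pt_m (h : Q.Gen) (m : ι) (x : P3) (u : ℝ) :
    (upd Q m x).pt m u = AffineMap.lineMap x (Q.pos (Q.σ m)) u := by
  rw [PG.pt, upd_s, upd_same, upd_ne Q x (PBA.emb_ne1 h.1 m)]

theorem f_nfx {a m : ι} (ha : Q.σ a = m) {f : ι} (hf : ¬ Fx Q m f) : f = a ∨ f = m := by
  by_cases h1 : f = m
  · exact Or.inr h1
  · refine Or.inl (Q.σ.injective ?_)
    by_contra h2
    exact hf ⟨h1, fun k => h2 (k.trans ha.symm)⟩

theorem f_ico {s : ℝ} (hs : s ∈ Ioo (0 : ℝ) 1) : s ∈ Ico (0 : ℝ) 1 := ⟨hs.1.le, hs.2⟩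

theorem f_core (h : Q.Gen) {a m : ι} (ha : Q.σ a = m) {x : P3} {n f g : ι} (hn : ¬ Fx Q m n)
    (hf : Fx Q m f) (hg : Fx Q m g) (hfg : f ≠ g) {r s t : ℝ} (hs : s ∈ Ioo (0 : ℝ) 1)
    (ht : t ∈ Ioo (0 : ℝ) 1) (h1 : Pr ((upd Q m x).pt f s) ((upd Q m x).pt g t))
    (h2 : Pr ((upd Q m x).pt f s) ((upd Q m x).pt n r)) :
    Q.Cr f g ∧
      ((n = a ∧ ∃ t : ℝ, Pr (Q.pt f (Q.tt f g)) (AffineMap.lineMap (Q.pos a) x t)) ∨
        (n = m ∧ ∃ t : ℝ, Pr (Q.pt f (Q.tt f g)) (AffineMap.lineMap x (Q.pos (Q.σ m)) t))) := by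
  rw [upd_pt Q x hf, upd_pt Q x hg] at h1
  rw [upd_pt Q x hf] at h2
  rcases coin0 h (f_ico hs) (f_ico ht) h1 with k | ⟨k1, k2, -⟩
  · exact absurd k.1 hfg
  · refine ⟨k1, ?_⟩
    rw [k2] at h2
    rcases f_nfx ha hn with k | k
    · rw [k, f_pt_a h ha] at h2
      exact Or.inl ⟨k, r, h2⟩
    · rw [k, f_pt_m h] at h2
      exact Or.inr ⟨k, r, h2⟩

theorem f_two (h : Q.Gen) {a m : ι} (ha : Q.σ a = m) {x : P3}
    (hN : ∀ s ∈ Ioo (0 : ℝ) 1, ∀ t ∈ Ioo (0 : ℝ) 1,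
      ¬ Pr (AffineMap.lineMap (Q.pos a) x s) (AffineMap.lineMap x (Q.pos (Q.σ m)) t))
    {n n' : ι} (hn : ¬ Fx Q m n) (hn' : ¬ Fx Q m n') (hne : n ≠ n') {r r' : ℝ}
    (hr : r ∈ Ioo (0 : ℝ) 1) (hr' : r' ∈ Ioo (0 : ℝ) 1)
    (hp : Pr ((upd Q m x).pt n r) ((upd Q m x).pt n' r')) : False := by
  rcases f_nfx ha hn with k | k <;> rcases f_nfx ha hn' with k' | k'
  · exact hne (k.trans k'.symm)
  · rw [k, k', f_pt_a h ha, f_pt_m h] at hp
    exact hN r hr r' hr' hp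
  · rw [k, k', f_pt_a h ha, f_pt_m h] at hp
    exact hN r' hr' r hr (pr_symm hp)
  · exact hne (k.trans k'.symm)

theorem ve_cases (h : Q.Gen) {a m : ι} (ha : Q.σ a = m) {x : P3} {v f : ι}
    (hv : VE (upd Q m x) v f) :
    (v = m ∧ Fx Q m f ∧ ∃ t ∈ Icc (0 : ℝ) 1, Pr x (Q.pt f t)) ∨
      (v ≠ m ∧ v ≠ a ∧ f = a ∧
        ∃ t ∈ Icc (0 : ℝ) 1, Pr (Q.pos v) (AffineMap.lineMap (Q.pos a) x t)) ∨
      (v ≠ m ∧ v ≠ Q.σ m ∧ f = m ∧
        ∃ t ∈ Icc (0 : ℝ) 1, Pr (Q.pos v) (AffineMap.lineMap x (Q.pos (Q.σ m)) t)) := by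
  obtain ⟨h1, h2, t, ht, hp⟩ := hv
  rw [upd_s] at h2
  by_cases hf : Fx Q m f
  · rw [upd_pt Q x hf] at hp
    by_cases hm : v = m
    · rw [hm, upd_same] at hp
      exact Or.inl ⟨hm, hf, t, ht, hp⟩
    · rw [upd_ne Q x hm] at hp
      exact absurd ⟨h1, h2, t, ht, hp⟩ (gen_noVE h v f)
  · rcases f_nfx ha hf with k | k
    · rw [k, ha] at h2
      rw [k, f_pt_a h ha, upd_ne Q x h2] at hp
      exact Or.inr (Or.inl ⟨h2, k ▸ h1, k, t, ht, hp⟩)
    · rw [k] at h1 h2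
      rw [k, f_pt_m h, upd_ne Q x h1] at hp
      exact Or.inr (Or.inr ⟨h1, h2, k, t, ht, hp⟩)

theorem tp_cases (h : Q.Gen) {a m : ι} (ha : Q.σ a = m) {x : P3}
    (hN : ∀ s ∈ Ioo (0 : ℝ) 1, ∀ t ∈ Ioo (0 : ℝ) 1,
      ¬ Pr (AffineMap.lineMap (Q.pos a) x s) (AffineMap.lineMap x (Q.pos (Q.σ m)) t))
    {e f g : ι} (ht : TP (upd Q m x) e f g) :
    ∃ n f₀ g₀, Fx Q m f₀ ∧ Fx Q m g₀ ∧ Q.Cr f₀ g₀ ∧ ({e, f, g} : Set ι) = {n, f₀, g₀} ∧
      ((n = a ∧ ∃ t : ℝ, Pr (Q.pt f₀ (Q.tt f₀ g₀)) (AffineMap.lineMap (Q.pos a) x t)) ∨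
        (n = m ∧ ∃ t : ℝ, Pr (Q.pt f₀ (Q.tt f₀ g₀)) (AffineMap.lineMap x (Q.pos (Q.σ m)) t))) := by
  obtain ⟨c1, c2, c3, c4⟩ := ht
  have p1 := cr_pr (cr_det c1)
  have p2 := cr_pr (cr_det c2)
  have p3 : Pr ((upd Q m x).pt f ((upd Q m x).tt f e)) ((upd Q m x).pt g ((upd Q m x).tt g e)) :=
    pr_trans (pr_symm p1) (c3 ▸ p2)
  have m1 := cr_mem c1
  have m2 := cr_mem c2
  have n1 := (PBA.cr_ne _ c1).1
  have n2 := (PBA.cr_ne _ c2).1
  by_cases he : Fx Q m e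
  · by_cases hf : Fx Q m f
    · by_cases hg : Fx Q m g
      · rw [upd_cr Q x he hf] at c1
        rw [upd_cr Q x he hg] at c2
        rw [upd_tt Q x he hf, upd_tt Q x he hg] at c3
        exact absurd (h.2.2 e f g c1 c2 c3) c4
      · obtain ⟨k1, k2⟩ := f_core h ha hg he hf n1 m1.1 m1.2 p1 (c3 ▸ p2)
        refine ⟨g, e, f, he, hf, k1, ?_, k2⟩
        ext z
        simp only [mem_insert_iff, mem_singleton_iff]
        tauto
    · by_cases hg : Fx Q m g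
      · obtain ⟨k1, k2⟩ := f_core h ha hf he hg n2 m2.1 m2.2 p2 (c3 ▸ p1)
        refine ⟨f, e, g, he, hg, k1, ?_, k2⟩
        ext z
        simp only [mem_insert_iff, mem_singleton_iff]
        tauto
      · exact (f_two h ha hN hf hg c4 m1.2 m2.2 p3).elim
  · by_cases hf : Fx Q m f
    · by_cases hg : Fx Q m g
      · obtain ⟨k1, k2⟩ := f_core h ha he hf hg c4 m1.2 m2.2 p3 (pr_symm p1)
        exact ⟨e, f, g, hf, hg, k1, rfl, k2⟩
      · exact (f_two h ha hN he hg n2 m2.1 m2.2 p2).elim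
    · exact (f_two h ha hN he hf n1 m1.1 m1.2 p1).elim

theorem pos_xp (h : Q.Gen) (v : ι) {f g : ι} (hc : Q.Cr f g) :
    ¬ Pr (Q.pos v) (Q.pt f (Q.tt f g)) := by
  intro hp
  rw [← pt_zero Q v] at hp
  rcases coin0 h ⟨le_rfl, zero_lt_one⟩ (f_ico (cr_mem hc).1) hp with k | k
  · exact (cr_mem hc).1.1.ne k.2
  · exact (cr_mem k.1).1.1.ne k.2.1

theorem xp_xp (h : Q.Gen) {f g f' g' : ι} (hc : Q.Cr f g) (hc' : Q.Cr f' g')
    (hp : Pr (Q.pt f (Q.tt f g)) (Q.pt f' (Q.tt f' g'))) :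
    (f = f' ∧ g = g') ∨ (f = g' ∧ g = f') := by
  rcases coin0 h (f_ico (cr_mem hc).1) (f_ico (cr_mem hc').1) hp with ⟨k1, k2⟩ | ⟨k1, k2, k3⟩
  · subst k1
    exact Or.inl ⟨rfl, h.2.2 f g g' hc hc' k2⟩
  · exact Or.inr ⟨(h.2.2 f' g' f hc' (cr_symm k1) k3).symm, h.2.2 f g f' hc k1 k2⟩

theorem gen_upd (h : Q.Gen) (m : ι) {x : P3} (hE : (upd Q m x).Emb) (hx : OffS (Spt Q) x) :
    (upd Q m x).Gen := by
  have ha : Q.σ (Q.σ.symm m) = m := Q.σ.apply_symm_apply m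
  have hV : ∀ v f, ¬ VE (upd Q m x) v f := by
    intro v f hv
    rcases ve_cases h ha hv with ⟨-, -, t, -, hp⟩ | ⟨-, k, -, t, -, hp⟩ | ⟨-, k, -, t, -, hp⟩
    · exact hx _ (pos_spt Q f) _ (pos_spt Q (Q.σ f))
        (fun k => PBA.emb_ne1 h.1 f (gen_pos h k).symm) (w_lm hp).1
    · exact hx _ (pos_spt Q _) _ (pos_spt Q v) (fun k' => k (gen_pos h k').symm) (w_lm hp).2.1
    · exact hx _ (pos_spt Q _) _ (pos_spt Q v) (fun k' => k (gen_pos h k').symm) (w_lm hp).2.2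
  have hN : ∀ s ∈ Ioo (0 : ℝ) 1, ∀ t ∈ Ioo (0 : ℝ) 1,
      ¬ Pr (AffineMap.lineMap (Q.pos (Q.σ.symm m)) x s)
        (AffineMap.lineMap x (Q.pos (Q.σ m)) t) := by
    intro s hs t ht hp
    rw [← f_pt_a h ha, ← f_pt_m h] at hp
    have h1 : Q.σ.symm m ≠ m := fun k => PBA.emb_ne1 h.1 _ (ha.trans k.symm)
    have hc := coinV hE h1 (hV _ _) (hV _ _) (hV _ _) (hV _ _) (f_ico hs) (f_ico ht) hp
    exact (PBA.cr_ne _ hc).2.1 ha.symm
  refine gen_of_noVE hE hV fun e f g ht => ?_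
  obtain ⟨n, f₀, g₀, -, -, hc, -, ⟨-, t, hp⟩ | ⟨-, t, hp⟩⟩ := tp_cases h ha hN ht
  · exact hx _ (pos_spt Q _) _ (xp_spt Q f₀ g₀) (pos_xp h _ hc) (w_lm hp).2.1
  · exact hx _ (pos_spt Q _) _ (xp_spt Q f₀ g₀) (pos_xp h _ hc) (w_lm hp).2.2

theorem gen_ins [Finite ι] (h : Q.Gen) (e : ι) :
    ∃ S : Set P3, S.Finite ∧ ∀ x, OffS S x → (ins Q e x).Emb → (ins Q e x).Gen := by
  obtain ⟨l, hl, hn⟩ := exists_l Q e
    (Ioo_mem_nhds (by norm_num) (by norm_num) : Ioo (0 : ℝ) 1 ∈ 𝓝 (1 / 2 : ℝ))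
  refine ⟨Spt (ins Q e (Q.pt e l)), spt_finite _, fun x hx hE => ?_⟩
  rw [← upd_ins_none Q e (Q.pt e l) x] at hE ⊢
  exact gen_upd (gen_sub h e hl fun g _ => hn g) none hE hx

end K1

end Pool.Agent.Lib.MP_4d7d0a_gt
end

-- part Pool.Agent.Lib.MP_4d7d0a_gt.K1G
section

/-! General position. -/

set_option autoImplicit false

open Set Filter Topology

namespace Pool.Agent.Lib.MP_4d7d0a_gt

namespace K1

open PAdm (Pr dir pt_eq pt_zero pt_one cr_det tt_eq cr_param cr_pr cr_mem cr_symm pr_symm coin0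
  coin dir_ne not_cr not_cr')

theorem g_an {E : Type} [NormedAddCommGroup E] [NormedSpace ℝ E] (p q : P3) {f : E → P3} {x : E}
    (hf : AnalyticAt ℝ f x) : AnalyticAt ℝ (fun y => W p q (f y)) x := by
  have h1 : AnalyticAt ℝ (fun y => f y - p) x := hf.sub analyticAt_const
  have h2 : AnalyticAt ℝ (fun y => (f y - p).1) x := analyticAt_fst.comp h1
  have h3 : AnalyticAt ℝ (fun y => (f y - p).2.2) x :=
    analyticAt_snd.comp (f := fun y => (f y - p).2) (analyticAt_snd.comp h1)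
  exact (analyticAt_const.mul h3).sub (analyticAt_const.mul h2)

theorem g_ne {p q : P3} (h : ¬ Pr p q) : ∃ y, W p q y ≠ 0 := by
  refine ⟨p + (-(q - p).2.2, 0, (q - p).1), fun h0 => h ?_⟩
  simp only [W, det2, add_sub_cancel_left, Prod.fst_sub, Prod.snd_sub] at h0
  constructor <;> nlinarith [sq_nonneg (q.1 - p.1), sq_nonneg (q.2.2 - p.2.2)]

theorem g_self (p q : P3) : W p q p = 0 := by simp [W, det2]

theorem g_lm (p q a b : P3) (s : ℝ) :
    W p q (AffineMap.lineMap a b s) = W p q a + s * (W p q b - W p q a) := by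
  simp only [W, det2, Prod.fst_sub, Prod.snd_sub, PBA.lm1, PBA.lm3]
  ring

theorem dense_off {S : Set P3} (hS : S.Finite) : Dense {x | OffS S x} := by
  have := hS.to_subtype
  refine (PBA.dense_gen (fun (k : S × S) (x : P3) => W k.1 k.2 x)
    fun k x => g_an _ _ analyticAt_id).mono fun x hx p hp q hq h => ?_
  exact hx (⟨p, hp⟩, ⟨q, hq⟩) (g_ne h)

theorem dense_phi (m u w : P3) : ∃ φ : P3 →ₗ[ℝ] ℝ, φ u = 0 ∧ φ w = 0 ∧
    IsOpen {x | φ (x - m) ≠ 0} ∧ Dense {x | φ (x - m) ≠ 0} := by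
  classical
  have h1 : Submodule.span ℝ (({u, w} : Finset P3) : Set P3) < ⊤ := by
    refine lt_top_iff_ne_top.2 fun h => ?_
    have h2 := finrank_span_finset_le_card (R := ℝ) ({u, w} : Finset P3)
    have h3 := Finset.card_le_two (a := u) (b := w)
    rw [Set.finrank, h, finrank_top] at h2
    simp only [Module.finrank_prod, Module.finrank_self] at h2
    omega
  obtain ⟨φ, h0, hk⟩ := Submodule.exists_le_ker_of_lt_top _ h1
  have ha : ∀ x, AnalyticAt ℝ (fun x : P3 => φ (x - m)) x := fun x =>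
    ((LinearMap.toContinuousLinearMap φ).analyticAt _).comp (analyticAt_id.sub analyticAt_const)
  refine ⟨φ, hk (Submodule.subset_span (by simp)), hk (Submodule.subset_span (by simp)),
    isOpen_ne_fun (continuous_iff_continuousAt.2 fun x => (ha x).continuousAt) continuous_const,
    (PBA.dense_gen (fun (_ : Unit) (x : P3) => φ (x - m)) fun _ => ha).mono fun x hx => ?_⟩
  obtain ⟨y, hy⟩ := DFunLike.ne_iff.1 h0
  exact hx () ⟨y + m, by simpa using hy⟩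

theorem pick {A B C : P3} (hD : det2 (B - A) (C - A) ≠ 0) {S : Set P3} (hS : S.Finite) {l : ℝ}
    (hl : l ∈ Icc (0 : ℝ) 1) {N : Set P3} (hN : N ∈ 𝓝 (A + l • (B - A))) :
    ∃ β γ : ℝ, 0 < β ∧ 0 < γ ∧ β + γ < 1 ∧ A + β • (B - A) + γ • (C - A) ∈ N ∧
      OffS S (A + β • (B - A) + γ • (C - A)) := by
  have := hS.to_subtype
  obtain ⟨G, hG⟩ : ∃ G : ℝ × ℝ → P3, G = fun z => A + z.1 • (B - A) + z.2 • (C - A) := ⟨_, rfl⟩
  have ha : ∀ z, AnalyticAt ℝ G z := fun z => hG ▸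
    (analyticAt_const.add (analyticAt_fst.smul analyticAt_const)).add
      (analyticAt_snd.smul analyticAt_const)
  have hc : Continuous G := continuous_iff_continuousAt.2 fun z => (ha z).continuousAt
  have hd : Dense {z | OffS S (G z)} := by
    refine (PBA.dense_gen (fun (k : S × S) (z : ℝ × ℝ) => W k.1 k.2 (G z))
      fun k z => g_an _ _ (ha z)).mono fun z hz p hp q hq h => ?_
    refine hz (⟨p, hp⟩, ⟨q, hq⟩) ?_
    by_contra h1
    push Not at h1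
    have a0 := h1 (0, 0)
    have a1 := h1 (1, 0)
    have a2 := h1 (0, 1)
    simp only [hG, W, det2, zero_smul, one_smul, add_zero, add_sub_cancel, Prod.fst_sub,
      Prod.snd_sub] at a0 a1 a2
    simp only [det2, Prod.fst_sub, Prod.snd_sub] at hD
    refine h ⟨?_, ?_⟩ <;> refine (sub_eq_zero.1 (mul_right_cancel₀ hD ?_)).symm
    · linear_combination (B.1 - A.1) * (a2 - a0) - (C.1 - A.1) * (a1 - a0)
    · linear_combination (B.2.2 - A.2.2) * (a2 - a0) - (C.2.2 - A.2.2) * (a1 - a0)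
  have ho : IsOpen ({z : ℝ × ℝ | 0 < z.1 ∧ 0 < z.2 ∧ z.1 + z.2 < 1} ∩ G ⁻¹' interior N) :=
    ((isOpen_lt continuous_const continuous_fst).and ((isOpen_lt continuous_const
      continuous_snd).and (isOpen_lt (continuous_fst.add continuous_snd) continuous_const))).inter
      (isOpen_interior.preimage hc)
  have ht : Tendsto (fun ε : ℝ => G (l + ε * (1 / 3 - l), ε / 3)) (𝓝[>] 0)
      (𝓝 (A + l • (B - A))) := by
    have h1 : Continuous fun ε : ℝ => G (l + ε * (1 / 3 - l), ε / 3) := hc.comp (by fun_prop)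
    have h2 := (h1.tendsto 0).mono_left (nhdsWithin_le_nhds (s := Ioi 0))
    simpa [hG] using h2
  obtain ⟨ε, h1, h2⟩ := ((ht.eventually (interior_mem_nhds.2 hN)).and
    (Ioo_mem_nhdsGT (zero_lt_one' ℝ))).exists
  obtain ⟨z, hz, hz', hz2⟩ := hd.exists_mem_open ho ⟨(l + ε * (1 / 3 - l), ε / 3),
    ⟨by nlinarith [mul_nonneg hl.1 (sub_pos.2 h2.2).le, h2.1], by linarith [h2.1],
      by nlinarith [mul_nonneg (sub_nonneg.2 hl.2) (sub_pos.2 h2.2).le, h2.1]⟩, h1⟩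
  subst hG
  exact ⟨z.1, z.2, hz'.1, hz'.2.1, hz'.2.2, interior_subset hz2, hz⟩

theorem path_gen {S : Set P3} (hS : S.Finite) :
    Dense {z : P3 × P3 | ∀ s : ℝ, Uni S (AffineMap.lineMap z.1 z.2 s)} := by
  have := hS.to_subtype
  refine (PBA.dense_gen (fun (k : (S × S) × S × S) (z : P3 × P3) =>
    W k.1.1 k.1.2 z.1 * W k.2.1 k.2.2 z.2 - W k.1.1 k.1.2 z.2 * W k.2.1 k.2.2 z.1)
    fun k z => ((g_an _ _ analyticAt_fst).mul (g_an _ _ analyticAt_snd)).sub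
      ((g_an _ _ analyticAt_snd).mul (g_an _ _ analyticAt_fst))).mono
    fun z hz s p hp q hq p' hp' q' hq' h h1 h2 => by_contra fun h3 => ?_
  obtain ⟨y, hy⟩ := g_ne h
  refine hz ((⟨p, hp⟩, ⟨q, hq⟩), ⟨p', hp'⟩, ⟨q', hq'⟩) ⟨(p', y), ?_⟩ ?_
  · simpa [g_self, h3] using hy
  · rw [g_lm] at h1 h2
    linear_combination (W p' q' z.2 - W p' q' z.1) * h1 - (W p q z.2 - W p q z.1) * h2

end K1

end Pool.Agent.Lib.MP_4d7d0a_gt
end
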