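import Pool.Agent.Lib.MP_4d7d0a_gt.K1G

-- part Pool.Agent.Lib.MP_4d7d0a_gt.K1E
section

/-! Opening a degenerate edge. -/

set_option autoImplicit false

open Set Filter Topology

namespace Pool.Agent.Lib.MP_4d7d0a_gt

namespace K1

open PAdm (Pr dir pt_eq pt_zero pt_one cr_det tt_eq cr_param cr_pr cr_mem cr_symm pr_symm coin0
  coin dir_ne not_cr not_cr')

variable {ι : Type}

variable {P : PG ι}

theorem r1_loc (T : ODTheory) [Finite ι] (hW : P.od.WF) {j : ι}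
    (h0 : P.pos (P.σ j) = P.pos (P.σ (P.σ j))) (h1 : P.σ (P.σ j) ≠ j)
    (hG : ∀ a b, OD.Off1 j (P.σ (P.σ j)) a b → Good P a b)
    (hN : ∀ s ∈ Icc (0 : ℝ) 1, ∀ t ∈ Icc (0 : ℝ) 1,
      Pr (P.pt j s) (P.pt (P.σ (P.σ j)) t) → s = 1 ∧ t = 0) :
    ∀ᶠ p in 𝓝 P.pos, (∀ g, ¬ (mv P p).Cr (P.σ j) g) ∧ ((mv P p).Gen → Eqv T P (mv P p)) := by
  have j1 : P.σ j ≠ j := fun e => h1 (by rw [e, e])
  have j2 : P.σ j ≠ P.σ (P.σ j) := fun e => j1 (P.σ.injective e).symm
  generalize hn : P.σ (P.σ j) = n at h0 h1 hG hN j2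
  have hd : dir P (P.σ j) = 0 := by rw [dir, hn, h0, sub_self]
  have nf : ∀ g, ¬ P.Cr (P.σ j) g := fun g hc => cr_det hc (by rw [hd]; simp [det2])
  have njn : ¬ P.Cr j n := fun hc =>
    (cr_mem hc).1.2.ne (hN _ (Ioo_subset_Icc_self (cr_mem hc).1) _
      (Ioo_subset_Icc_self (cr_mem hc).2) (cr_pr (cr_det hc))).1
  have eL : ∀ᶠ p in 𝓝 P.pos, ∀ g, P.Cr j g → (mv P p).Cr j n →
      (mv P p).tt j g < (mv P p).tt j n := by
    refine eventually_all.2 fun g => ?_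
    by_cases hc : P.Cr j g
    swap
    · exact Eventually.of_forall fun _ h => absurd h hc
    have hlt := (cr_mem hc).1.2
    have e1 : ∀ᶠ p in 𝓝 P.pos, (mv P p).tt j g < (P.tt j g + 1) / 2 :=
      (tt_cont (cr_det hc)).eventually (gt_mem_nhds (by
        change P.tt j g < (P.tt j g + 1) / 2
        linarith))
    have e2 := pr_ev P j n (K := Icc 0 ((P.tt j g + 1) / 2) ×ˢ Icc 0 1)
      (isCompact_Icc.prod isCompact_Icc) fun z hz hp => by
        have := (hN z.1 ⟨hz.1.1, by linarith [hz.1.2]⟩ z.2 hz.2 hp).1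
        linarith [hz.1.2]
    filter_upwards [e1, e2] with p a1 a2 _ hc'
    by_contra hle
    exact a2 ((mv P p).tt j n, (mv P p).tt n j)
      ⟨⟨(cr_mem hc').1.1.le, (not_lt.1 hle).trans a1.le⟩, Ioo_subset_Icc_self (cr_mem hc').2⟩
      (cr_pr (cr_det hc'))
  have eF : ∀ᶠ p in 𝓝 P.pos, ∀ g, P.Cr n g → (mv P p).Cr j n →
      (mv P p).tt n j < (mv P p).tt n g := by
    refine eventually_all.2 fun g => ?_
    by_cases hc : P.Cr n g
    swap
    · exact Eventually.of_forall fun _ h => absurd h hc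
    have hlt := (cr_mem hc).1.1
    have e1 : ∀ᶠ p in 𝓝 P.pos, P.tt n g / 2 < (mv P p).tt n g :=
      (tt_cont (cr_det hc)).eventually (lt_mem_nhds (by
        change P.tt n g / 2 < P.tt n g
        linarith))
    have e2 := pr_ev P j n (K := Icc 0 1 ×ˢ Icc (P.tt n g / 2) 1)
      (isCompact_Icc.prod isCompact_Icc) fun z hz hp => by
        have := (hN z.1 hz.1 z.2 ⟨by linarith [hz.2.1], hz.2.2⟩ hp).2
        linarith [hz.2.1]
    filter_upwards [e1, e2] with p a1 a2 _ hc'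
    by_contra hle
    exact a2 ((mv P p).tt j n, (mv P p).tt n j)
      ⟨Ioo_subset_Icc_self (cr_mem hc').1, a1.le.trans (not_lt.1 hle), (cr_mem hc').2.2.le⟩
      (cr_pr (cr_det hc'))
  filter_upwards [near_ev P, eL, eF] with p hp aL aF
  have hX : ∀ a b, OD.Off1 j n a b → (P.Cr a b ↔ (mv P p).Cr a b) := fun a b hab =>
    hp.cr_iff (hG a b hab)
  have free : ∀ g, ¬ (mv P p).Cr (P.σ j) g := fun g hc =>
    nf g ((hX _ g ⟨fun e => j1 e.1, fun e => j2 e.1⟩).2 hc)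
  refine ⟨free, fun hg q => ?_⟩
  by_cases hc : (mv P p).Cr j n
  · subst hn
    refine T.r1 P.od (mv P p).od j q hW hg.wf rfl h1 (hp.agree_wf hW hX) njn hc
      (fun g hg' => ?_) (fun g hg' => ?_) free
    · by_cases e : g = P.σ (P.σ j)
      · rw [e]
        exact le_rfl
      · exact (aL g ((hX j g ⟨fun k => e k.2, fun k => h1 k.1.symm⟩).2 hg') hc).le
    · by_cases e : g = j
      · rw [e]
      · exact (aF g ((hX _ g ⟨fun k => h1 k.1, fun k => e k.2⟩).2 hg') hc).le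
  · refine iso_iff T hW hg.wf rfl (hp.agree_wf hW fun a b _ => ?_) q
    by_cases k1 : a = j ∧ b = n
    · rw [k1.1, k1.2]
      exact iff_of_false njn hc
    · by_cases k2 : a = n ∧ b = j
      · rw [k2.1, k2.2]
        exact iff_of_false (fun k => njn (cr_symm k)) fun k => hc (cr_symm k)
      · exact hX a b ⟨k1, k2⟩

theorem ins0 (T : ODTheory) [Finite ι] (h : P.Gen) (e : ι) : ∀ᶠ x in 𝓝 (P.pos e),
    (∀ g, ¬ (ins P e x).Cr (some e) g) ∧ ((ins P e x).Gen → Eqv T P (ins P e x)) := by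
  have n1 : P.σ.symm e ≠ e := fun k => PBA.emb_ne1 h.1 e (by
    conv_lhs => rw [← k]
    exact P.σ.apply_symm_apply e)
  obtain ⟨hW, hE⟩ := subd T h.wf e (l := 0) ⟨le_rfl, zero_le_one⟩ fun g hc => (cr_mem hc).1.1.ne'
  have s1 : (ins P e (P.pt e 0)).σ (some (P.σ.symm e)) = some e := by
    rw [ins_ne P _ n1, Equiv.apply_symm_apply]
  have key := r1_loc T hW (j := some (P.σ.symm e))
    (by rw [s1, ins_e, ins_pos_none, ins_pos_some, pt_zero]) (by rw [s1, ins_e]; simp)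
    (by rw [s1, ins_e]; exact good_sub0 h e) (by
      rw [s1, ins_e]
      intro s hs t ht hp
      rw [ins_pt P _ n1, ins_pt_none, pt_zero] at hp
      rcases coin h hs ht hp with k | k | k | k
      · exact absurd k.1 n1
      · exact absurd (by rw [k.2.2, Equiv.apply_symm_apply]) (PBA.emb_ne2 h.1 e)
      · exact ⟨k.1, k.2.1⟩
      · exact absurd (P.σ.apply_symm_apply e).symm (PBA.cr_ne P k.1).2.1)
  rw [s1] at key
  have ht := (ins_cont P e).tendsto (P.pt e 0)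
  rw [← pt_zero]
  filter_upwards [ht.eventually key] with x hx
  exact ⟨hx.1, fun hg => hE.trans (hx.2 hg)⟩

theorem ins1 (T : ODTheory) [Finite ι] (h : P.Gen) (e : ι) : ∀ᶠ x in 𝓝 (P.pos (P.σ e)),
    (∀ g, ¬ (ins P e x).Cr none g) ∧ ((ins P e x).Gen → Eqv T P (ins P e x)) := by
  have n1 : P.σ e ≠ e := PBA.emb_ne1 h.1 e
  obtain ⟨hW, hE⟩ := subd T h.wf e (l := 1) ⟨zero_le_one, le_rfl⟩ fun g hc => (cr_mem hc).1.2.ne
  have key := r1_loc T hW (j := some e)
    (by rw [ins_e, ins_none, ins_pos_none, ins_pos_some, pt_one])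
    (by rw [ins_e, ins_none]; simpa using n1)
    (by rw [ins_e, ins_none]; exact good_sub1 h e) (by
      rw [ins_e, ins_none]
      intro s hs t ht hp
      rw [ins_pt P _ n1, ins_pt_e, pt_one] at hp
      rcases coin h hs ht hp with k | k | k | k
      · exact absurd k.1.symm n1
      · exact absurd k.2.2 (PBA.emb_ne2 h.1 e)
      · exact ⟨k.1, k.2.1⟩
      · exact absurd rfl (PBA.cr_ne P k.1).2.1)
  rw [ins_e] at key
  have ht := (ins_cont P e).tendsto (P.pt e 1)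
  rw [← pt_one]
  filter_upwards [ht.eventually key] with x hx
  exact ⟨hx.1, fun hg => hE.trans (hx.2 hg)⟩

end K1

end Pool.Agent.Lib.MP_4d7d0a_gt
end

-- part Pool.Agent.Lib.MP_4d7d0a_gt.K1J
section

/-! Insertion of a vertex inside a free region, relabelling. -/

set_option autoImplicit false

open Set Filter Topology

namespace Pool.Agent.Lib.MP_4d7d0a_gt

namespace K1

open PAdm (Pr dir pt_eq pt_zero pt_one cr_det tt_eq cr_param cr_pr cr_mem cr_symm pr_symm coin0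
  coin dir_ne not_cr not_cr')

variable {ι : Type}

variable {P : PG ι}

theorem ins_free (h : P.Emb) {e : ι} {K : Set P3} {c : ℝ × ℝ} (hK : Convex ℝ K)
    (hF : Free P e K c) {x : P3} (hx : x ∈ K) (h0 : Lf c (P.pos e) < Lf c x)
    (h1 : Lf c x < Lf c (P.pos (P.σ e))) :
    (ins P e x).Emb ∧ Free (ins P e x) (some e) K c ∧ Free (ins P e x) none K c ∧
      ∀ k, k ≠ e → Free P k K c → Lf c (P.pos (P.σ e)) ≤ Lf c (P.pos k) →
        Free (ins P e x) (some k) K c := by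
  have a1 : ∀ u ∈ Ico (0 : ℝ) 1, (ins P e x).pt (some e) u ∈ K ∧
      Lf c ((ins P e x).pt (some e) u) = Lf c (P.pos e) + u * (Lf c x - Lf c (P.pos e)) :=
    fun u hu => by
      rw [ins_pt_e]
      exact ⟨hK.lineMap_mem hF.m0 hx (Ico_subset_Icc_self hu), lf_lm ..⟩
  have a2 : ∀ u ∈ Ico (0 : ℝ) 1, (ins P e x).pt none u ∈ K ∧
      Lf c ((ins P e x).pt none u) = Lf c x + u * (Lf c (P.pos (P.σ e)) - Lf c x) :=
    fun u hu => by
      rw [ins_pt_none]
      exact ⟨hK.lineMap_mem hx hF.m1 (Ico_subset_Icc_self hu), lf_lm ..⟩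
  have b1 : ∀ u ∈ Ico (0 : ℝ) 1, Lf c (P.pos e) ≤ Lf c ((ins P e x).pt (some e) u) ∧
      Lf c ((ins P e x).pt (some e) u) < Lf c x := fun u hu => by
    rw [(a1 u hu).2]
    constructor <;> nlinarith [hu.1, hu.2]
  have b2 : ∀ u ∈ Ico (0 : ℝ) 1, Lf c x ≤ Lf c ((ins P e x).pt none u) ∧
      Lf c ((ins P e x).pt none u) < Lf c (P.pos (P.σ e)) := fun u hu => by
    rw [(a2 u hu).2]
    constructor <;> nlinarith [hu.1, hu.2]
  have b3 : ∀ g, g ≠ e → ∀ u ∈ Ico (0 : ℝ) 1, (ins P e x).pt (some g) u ∈ K →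
      Lf c ((ins P e x).pt (some g) u) < Lf c (P.pos e) ∨
        Lf c (P.pos (P.σ e)) ≤ Lf c ((ins P e x).pt (some g) u) := fun g hg u hu => by
    rw [ins_pt P x hg]
    exact hF.out g hg u hu
  have cs : ∀ o : Option ι, o = none ∨ o = some e ∨ ∃ g, g ≠ e ∧ o = some g := by
    rintro (_ | g)
    · exact Or.inl rfl
    · by_cases hg : g = e
      · exact Or.inr (Or.inl (by rw [hg]))
      · exact Or.inr (Or.inr ⟨g, hg, rfl⟩)
  refine ⟨fun a b u hu u' hu' k => ?_, ⟨hF.m0, ?_, ?_, fun g hg u hu k => ?_⟩,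
    ⟨hx, ?_, ?_, fun g hg u hu k => ?_⟩, fun k hk hFk hl => ⟨hFk.m0, ?_, ?_, fun g hg u hu l => ?_⟩⟩
  · have k' := congrArg (Lf c) k
    rcases cs a with rfl | rfl | ⟨f, hf, rfl⟩ <;> rcases cs b with rfl | rfl | ⟨g, hg, rfl⟩
    · rw [(a2 u hu).2, (a2 u' hu').2] at k'
      exact ⟨rfl, mul_right_cancel₀ (sub_pos.2 h1).ne' (by linarith)⟩
    · linarith [(b2 u hu).1, (b1 u' hu').2]
    · rcases b3 g hg u' hu' (k ▸ (a2 u hu).1) with l | l <;> linarith [(b2 u hu).1, (b2 u hu).2]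
    · linarith [(b2 u' hu').1, (b1 u hu).2]
    · rw [(a1 u hu).2, (a1 u' hu').2] at k'
      exact ⟨rfl, mul_right_cancel₀ (sub_pos.2 h0).ne' (by linarith)⟩
    · rcases b3 g hg u' hu' (k ▸ (a1 u hu).1) with l | l <;> linarith [(b1 u hu).1, (b1 u hu).2]
    · rcases b3 f hf u hu (k ▸ (a2 u' hu').1) with l | l <;>
        linarith [(b2 u' hu').1, (b2 u' hu').2]
    · rcases b3 f hf u hu (k ▸ (a1 u' hu').1) with l | l <;>
        linarith [(b1 u' hu').1, (b1 u' hu').2]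
    · rw [ins_pt P x hf, ins_pt P x hg] at k
      exact (h f g u hu u' hu' k).imp_left (congrArg some)
  · rw [ins_e]
    exact hx
  · rw [ins_e]
    exact h0
  · rw [ins_e, ins_pos_none, ins_pos_some]
    rcases cs g with rfl | rfl | ⟨f, hf, rfl⟩
    · exact Or.inr (b2 u hu).1
    · exact absurd rfl hg
    · exact (b3 f hf u hu k).imp_right fun l => h1.le.trans l
  · rw [ins_none]
    exact hF.m1
  · rw [ins_none]
    exact h1
  · rw [ins_none, ins_pos_none, ins_pos_some]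
    rcases cs g with rfl | rfl | ⟨f, hf, rfl⟩
    · exact absurd rfl hg
    · exact Or.inl (b1 u hu).2
    · exact (b3 f hf u hu k).imp_left fun l => l.trans h0
  · rw [ins_ne P x hk]
    exact hFk.m1
  · rw [ins_ne P x hk]
    exact hFk.lt
  · rw [ins_ne P x hk, ins_pos_some, ins_pos_some]
    rcases cs g with rfl | rfl | ⟨f, hf, rfl⟩
    · exact Or.inl ((b2 u hu).2.trans_le hl)
    · exact Or.inl (((b1 u hu).2.trans h1).trans_le hl)
    · rw [ins_pt P x hf] at l ⊢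
      exact hFk.out f (fun n => hg (by rw [n])) u hu l

theorem relab_api {ι' : Type} (β : ι ≃ ι') {P' : PG ι'} (hs : ∀ v, P'.σ (β v) = β (P.σ v))
    (hp : ∀ v, P'.pos (β v) = P.pos v) :
    (∀ e u, P'.pt (β e) u = P.pt e u) ∧ (∀ e f, P'.Cr (β e) (β f) ↔ P.Cr e f) ∧
      (∀ e f, P'.tt (β e) (β f) = P.tt e f) ∧ ∀ e f, P'.od.sg (β e) (β f) ↔ P.od.sg e f := by
  refine ⟨fun e u => ?_, fun e f => ?_, fun e f => ?_, fun e f => ?_⟩
  · simp only [PG.pt, hs, hp]
  · simp only [PG.Cr, hs, hp]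
  · simp only [PG.tt, hs, hp]
  · simp only [PG.od, hs, hp]

theorem relab_gen {ι' : Type} (β : ι ≃ ι') {P' : PG ι'} (hs : ∀ v, P'.σ (β v) = β (P.σ v))
    (hp : ∀ v, P'.pos (β v) = P.pos v) (h : P.Gen) : P'.Gen := by
  obtain ⟨a1, a2, a3, -⟩ := relab_api β hs hp
  refine ⟨fun e f u hu u' hu' k => ?_, fun e f u hu u' hu' k k' => ?_, fun e f g k k' l => ?_⟩
  · obtain ⟨e, rfl⟩ := β.surjective e
    obtain ⟨f, rfl⟩ := β.surjective f
    rw [a1, a1] at k
    exact (h.1 e f u hu u' hu' k).imp_left (congrArg β)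
  · obtain ⟨e, rfl⟩ := β.surjective e
    obtain ⟨f, rfl⟩ := β.surjective f
    rw [a1, a1] at k k'
    rw [a2]
    exact (h.2.1 e f u hu u' hu' k k').imp_left (And.imp_left (congrArg β))
  · obtain ⟨e, rfl⟩ := β.surjective e
    obtain ⟨f, rfl⟩ := β.surjective f
    obtain ⟨g, rfl⟩ := β.surjective g
    rw [a2] at k k'
    rw [a3, a3] at l
    rw [h.2.2 e f g k k' l]

theorem relab_eqv (T : ODTheory) [Finite ι] {ι' : Type} (β : ι ≃ ι') {P' : PG ι'}
    (hs : ∀ v, P'.σ (β v) = β (P.σ v)) (hp : ∀ v, P'.pos (β v) = P.pos v) (h : P.Gen) :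
    Eqv T P P' := by
  have hs' : ∀ v, P.σ (β.symm v) = β.symm (P'.σ v) := fun v => by
    rw [Equiv.eq_symm_apply, ← hs, Equiv.apply_symm_apply]
  have hp' : ∀ v, P.pos (β.symm v) = P'.pos v := fun v => by
    rw [← hp, Equiv.apply_symm_apply]
  have := Finite.of_equiv ι β
  obtain ⟨-, a2, a3, a4⟩ := relab_api β hs hp
  obtain ⟨-, b2, b3, b4⟩ := relab_api β.symm hs' hp'
  exact fun q => ⟨T.relabel β _ _ q h.wf hs a2 a3 a4,
    T.relabel β.symm _ _ q (relab_gen β hs hp h).wf hs' b2 b3 b4⟩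

end K1

end Pool.Agent.Lib.MP_4d7d0a_gt
end
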