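import Pool.Agent.Lib.MP_4d7d0a_gt.K2Gr
import Pool.Agent.Lib.MP_4d7d0a_gt.K1G
import Pool.Agent.Lib.MP_4d7d0a_gt.K1J

-- part Pool.Agent.Lib.MP_4d7d0a_gt.K2Fld
section

/-! Part K2: relabelling, families, splitting, planar links. -/

set_option autoImplicit false

open Set Filter Topology

namespace Pool.Agent.Lib.MP_4d7d0a_gt

namespace K2

namespace FldAux

theorem sub {ι κ : Type} {σ : Equiv.Perm ι} {τ : Equiv.Perm κ} {p : κ → ι} {a b : κ → ℝ}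
    (h : Part σ τ p a b) (k : κ) {u : ℝ} (hu : u ∈ Icc (a k) (b k)) : u ∈ Icc (0 : ℝ) 1 :=
  ⟨(h.a_nonneg k).trans hu.1, hu.2.trans (h.b_le k)⟩

/-- uniform closeness in the parameter -/
theorem unif {f : ℝ → ℝ → P3} (hf : ContinuousOn (fun a : ℝ × ℝ => f a.1 a.2) (Icc 0 1 ×ˢ Icc 0 1))
    {s₀ : ℝ} (hs : s₀ ∈ Icc (0 : ℝ) 1) {ε : ℝ} (hε : 0 < ε) :
    ∀ᶠ s in 𝓝[Icc 0 1] s₀, ∀ u ∈ Icc (0 : ℝ) 1, ‖f s u - f s₀ u‖ ≤ ε := by
  obtain ⟨δ, hδ, h⟩ := Metric.uniformContinuousOn_iff.1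
    ((isCompact_Icc.prod isCompact_Icc).uniformContinuousOn_of_continuous hf) ε hε
  filter_upwards [self_mem_nhdsWithin, mem_nhdsWithin_of_mem_nhds (Metric.ball_mem_nhds s₀ hδ)]
    with s h1 h2 u hu
  have h3 := h (s, u) ⟨h1, hu⟩ (s₀, u) ⟨hs, hu⟩ (by simpa using h2)
  rw [dist_eq_norm] at h3
  exact h3.le

theorem fin_le {n : ℕ} (j : Fin (n + 1)) : ((j : ℕ) : ℝ) ≤ n := Nat.cast_le.2 (Fin.is_le j)

theorem part_split {ι κ : Type} {n : ℕ} {σ : Equiv.Perm ι} {σ' : Equiv.Perm (ι × Fin (n + 1))}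
    (h1 : ∀ v (j : Fin n), σ' (v, j.castSucc) = (v, j.succ))
    (h2 : ∀ v, σ' (v, Fin.last n) = (σ v, 0)) {τ : Equiv.Perm κ} {p : κ → ι × Fin (n + 1)}
    {a b : κ → ℝ} (h : Part σ' τ p a b) :
    Part σ τ (fun k => (p k).1) (fun k => ((((p k).2 : ℕ) : ℝ) + a k) / (n + 1))
      fun k => ((((p k).2 : ℕ) : ℝ) + b k) / (n + 1) := by
  have hn : (0 : ℝ) < n + 1 := by positivity
  refine ⟨fun k => div_nonneg (add_nonneg (Nat.cast_nonneg _) (h.a_nonneg k)) hn.le,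
    fun k => div_lt_div_of_pos_right (by linarith [h.lt k]) hn,
    fun k => (div_le_one hn).2 (by linarith [h.b_le k, fin_le (p k).2]), fun k hk => ?_,
    fun k hk => ?_, fun k k' e h3 h4 => ?_, fun v u hu => ?_⟩
  · rcases (h.b_le k).lt_or_eq with h3 | h3
    · obtain ⟨e1, e2⟩ := h.mid k h3
      simp only [e1, e2, and_self]
    · obtain ⟨e1, e2⟩ := h.last k h3
      rw [div_lt_one hn, h3] at hk
      rcases hp : p k with ⟨v, j⟩
      rw [hp] at hk e1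
      induction j using Fin.lastCases with
      | last => simp at hk
      | cast j =>
        rw [h1] at e1
        simp [e1, e2, h3]
  · rw [div_eq_one_iff_eq hn.ne'] at hk
    have h3 : b k = 1 := le_antisymm (h.b_le k) (by linarith [fin_le (p k).2])
    have h4 : (p k).2 = Fin.last n := Fin.ext (by
      have : (((p k).2 : ℕ) : ℝ) = n := by linarith
      exact_mod_cast this)
    obtain ⟨e1, e2⟩ := h.last k h3
    have h5 : p k = ((p k).1, Fin.last n) := Prod.ext rfl h4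
    rw [h5, h2] at e1
    simp [e1, e2]
  · rw [div_lt_div_iff_of_pos_right hn] at h3 h4
    have h5 : (((p k).2 : ℕ) : ℝ) < ((p k').2 : ℕ) + 1 := by linarith [h.a_nonneg k, h.b_le k']
    have h6 : (((p k').2 : ℕ) : ℝ) < ((p k).2 : ℕ) + 1 := by linarith [h.a_nonneg k', h.b_le k]
    have h7 : ((p k).2 : ℕ) < (p k').2 + 1 := by exact_mod_cast h5
    have h8 : ((p k').2 : ℕ) < (p k).2 + 1 := by exact_mod_cast h6
    have h9 : (p k).2 = (p k').2 := Fin.ext (by omega)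
    rw [h9] at h3 h4
    exact h.disj k k' (Prod.ext e h9) (by linarith) (by linarith)
  · have h3 : 0 ≤ u * (n + 1) := mul_nonneg hu.1 hn.le
    have h4 : ⌊u * (n + 1)⌋₊ < n + 1 := by
      rw [Nat.floor_lt h3]
      push_cast
      nlinarith [hu.2]
    obtain ⟨k, e, h5, h6⟩ := h.cover (v, ⟨⌊u * (n + 1)⌋₊, h4⟩) (u * (n + 1) - ⌊u * (n + 1)⌋₊)
      ⟨sub_nonneg.2 (Nat.floor_le h3), by linarith [Nat.lt_floor_add_one (u * (n + 1))]⟩
    refine ⟨k, by rw [e], ?_, ?_⟩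
    · rw [div_le_iff₀ hn, e]
      linarith
    · rw [lt_div_iff₀ hn, e]
      linarith

theorem apx_split {ι κ : Type} {n : ℕ} {L : CPL ι} {L' : CPL (ι × Fin (n + 1))}
    (h1 : ∀ v (j : Fin n), L'.σ (v, j.castSucc) = (v, j.succ))
    (h2 : ∀ v, L'.σ (v, Fin.last n) = (L.σ v, 0))
    (h3 : ∀ v j, ∀ u ∈ Icc (0 : ℝ) 1, L'.c (v, j) u = L.c v (((j : ℕ) + u) / (n + 1)))
    {ε : ℝ} (hε : 0 ≤ ε) {Q : PG κ} (h : Apx L' ε Q) : Apx L ((n + 1) * ε) Q := by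
  obtain ⟨p, a, b, hp, n1, n2⟩ := h
  have hn : (0 : ℝ) < n + 1 := by positivity
  have h4 : ∀ k, ∀ u ∈ Icc (0 : ℝ) 1,
      L'.c (p k) u = L.c (p k).1 (((((p k).2 : ℕ) : ℝ) + u) / (n + 1)) := fun k => h3 _ _
  refine ⟨_, _, _, part_split h1 h2 hp, fun k hk => ?_, fun k u hu u' hu' => ?_⟩
  · have h5 : (((p k).2 : ℕ) : ℝ) + a k = 0 := (div_eq_zero_iff.1 hk).resolve_right hn.ne'
    have h6 : a k = 0 :=
      le_antisymm (by linarith [Nat.cast_nonneg (α := ℝ) ((p k).2 : ℕ)]) (hp.a_nonneg k)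
    have h7 := n1 k h6
    rw [h4 k 0 ⟨le_rfl, zero_le_one⟩, show (((p k).2 : ℕ) : ℝ) + 0 = 0 by linarith, zero_div] at h7
    exact h7.trans (by nlinarith [Nat.cast_nonneg (α := ℝ) n])
  · have m : ∀ w ∈ Icc (((((p k).2 : ℕ) : ℝ) + a k) / (n + 1))
        (((((p k).2 : ℕ) : ℝ) + b k) / (n + 1)),
        w * (n + 1) - ((p k).2 : ℕ) ∈ Icc (a k) (b k) := fun w hw =>
      ⟨by linarith [(div_le_iff₀ hn).1 hw.1], by linarith [(le_div_iff₀ hn).1 hw.2]⟩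
    have e : ∀ w : ℝ, ((((p k).2 : ℕ) : ℝ) + (w * (n + 1) - ((p k).2 : ℕ))) / (n + 1) = w :=
      fun w => by field_simp; ring
    have h5 := n2 k _ (m u hu) _ (m u' hu')
    have h6 : u' * (n + 1) - ((p k).2 : ℕ) - (u * (n + 1) - ((p k).2 : ℕ)) =
        (n + 1) * (u' - u) := by ring
    have h7 : (u' - u) / (((((p k).2 : ℕ) : ℝ) + b k) / (n + 1) -
        ((((p k).2 : ℕ) : ℝ) + a k) / (n + 1)) = (n + 1) * (u' - u) / (b k - a k) := by
      rw [← sub_div, add_sub_add_left_eq_sub, div_div_eq_mul_div, mul_comm]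
    rw [h4 k _ (sub hp k (m u hu)), h4 k _ (sub hp k (m u' hu')), e, e, h6, abs_mul,
      abs_of_pos hn] at h5
    rw [h7]
    exact h5.trans_eq (by ring)

theorem reg_split {ι : Type} {n : ℕ} {L : CPL ι} {L' : CPL (ι × Fin (n + 1))} {d : ι → ℝ → P3}
    (h : Reg L d) (h1 : ∀ v (j : Fin n), L'.σ (v, j.castSucc) = (v, j.succ))
    (h2 : ∀ v, L'.σ (v, Fin.last n) = (L.σ v, 0))
    (h3 : ∀ v j, ∀ u ∈ Icc (0 : ℝ) 1, L'.c (v, j) u = L.c v (((j : ℕ) + u) / (n + 1))) :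
    Reg L' fun z u => (1 / ((n : ℝ) + 1)) • d z.1 ((((z.2 : ℕ) : ℝ) + u) / (n + 1)) := by
  have hn : (0 : ℝ) < n + 1 := by positivity
  have m : ∀ j : Fin (n + 1), MapsTo (fun u : ℝ => (((j : ℕ) : ℝ) + u) / (n + 1)) (Icc 0 1)
      (Icc 0 1) := fun j u hu =>
    ⟨div_nonneg (add_nonneg (Nat.cast_nonneg _) hu.1) hn.le,
      (div_le_one hn).2 (by linarith [hu.2, fin_le j])⟩
  refine ⟨fun z u hu => ?_, fun z => ?_, fun z => ?_⟩
  · have h4 : HasDerivWithinAt (fun u : ℝ => (((z.2 : ℕ) : ℝ) + u) / (n + 1)) (1 / ((n : ℝ) + 1))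
        (Icc 0 1) u := (((hasDerivAt_id u).const_add _).div_const _).hasDerivWithinAt
    exact ((h.1 z.1 _ (m z.2 hu)).scomp u h4 (m z.2)).congr (fun y hy => h3 z.1 z.2 y hy)
      (h3 z.1 z.2 u hu)
  · exact ((h.2.1 z.1).comp (by fun_prop) (m z.2)).const_smul (1 / ((n : ℝ) + 1))
  · obtain ⟨v, j⟩ := z
    have i0 : (0 : ℝ) ∈ Icc (0 : ℝ) 1 := ⟨le_rfl, zero_le_one⟩
    have i1 : (1 : ℝ) ∈ Icc (0 : ℝ) 1 := ⟨zero_le_one, le_rfl⟩
    induction j using Fin.lastCases with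
    | last =>
      rw [h2, h3 _ _ _ i1, h3 _ _ _ i0, Fin.val_last, div_self hn.ne', h.2.2]
      simp
    | cast j =>
      rw [h1, h3 _ _ _ i1, h3 _ _ _ i0]
      simp

theorem apx_mono {ι κ : Type} {L : CPL ι} {ε ε' : ℝ} {Q : PG κ} (h : Apx L ε Q) (hε : ε ≤ ε') :
    Apx L ε' Q := by
  obtain ⟨p, a, b, h1, h2⟩ := h
  exact ⟨p, a, b, h1, h2.mono hε⟩

end FldAux

variable {T : ODTheory} (PT : PTheory T)

theorem vk_mono {ι : Type} (L : CPL ι) (q q' : ℤ) (h : q' ≤ q) (hV : VK PT L q) : VK PT L q' :=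
  fun ε hε => by
    obtain ⟨κ, hκ, Q, h1, h2⟩ := hV ε hε
    exact ⟨κ, hκ, Q, h1, PT.mono Q q q' h h2⟩

theorem vk_relabel {ι ι' : Type} (β : ι ≃ ι') (L : CPL ι) (L' : CPL ι') (q : ℤ)
    (h1 : ∀ v, L'.σ (β v) = β (L.σ v)) (h2 : ∀ v, ∀ u ∈ Icc (0 : ℝ) 1, L'.c (β v) u = L.c v u)
    (hV : VK PT L q) : VK PT L' q := by
  intro ε hε
  obtain ⟨κ, hκ, Q, ⟨p, a, b, hp, n1, n2⟩, h3⟩ := hV ε hε
  refine ⟨κ, hκ, Q, ⟨fun k => β (p k), a, b, ⟨hp.a_nonneg, hp.lt, hp.b_le,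
    fun k hk => ⟨congrArg β (hp.mid k hk).1, (hp.mid k hk).2⟩,
    fun k hk => ⟨?_, (hp.last k hk).2⟩, fun k k' e => hp.disj k k' (β.injective e),
    fun v u hu => ?_⟩, fun k hk => ?_, fun k u hu u' hu' => ?_⟩, h3⟩
  · rw [h1, (hp.last k hk).1]
  · obtain ⟨k, e, h4⟩ := hp.cover (β.symm v) u hu
    exact ⟨k, by rw [e, β.apply_symm_apply], h4⟩
  · rw [h2 _ _ ⟨le_rfl, zero_le_one⟩]
    exact n1 k hk
  · rw [h2 _ _ (FldAux.sub hp k hu), h2 _ _ (FldAux.sub hp k hu')]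
    exact n2 k u hu u' hu'

theorem vk_fam {ι : Type} [Finite ι] (σ : Equiv.Perm ι) (c d : ℝ → ι → ℝ → P3) (q : ℤ)
    (h1 : ∀ s ∈ Icc (0 : ℝ) 1, (⟨σ, c s⟩ : CPL ι).EmbD (d s))
    (h2 : ∀ v, ContinuousOn (fun a : ℝ × ℝ => c a.1 v a.2) (Icc 0 1 ×ˢ Icc 0 1))
    (h3 : ∀ v, ContinuousOn (fun a : ℝ × ℝ => d a.1 v a.2) (Icc 0 1 ×ˢ Icc 0 1))
    (hV : VK PT (⟨σ, c 0⟩ : CPL ι) q) : VK PT (⟨σ, c 1⟩ : CPL ι) q := by
  have key : ∀ s₀ ∈ Icc (0 : ℝ) 1, ∀ᶠ s in 𝓝[Icc 0 1] s₀,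
      (VK PT (⟨σ, c s₀⟩ : CPL ι) q ↔ VK PT (⟨σ, c s⟩ : CPL ι) q) := by
    intro s₀ hs₀
    obtain ⟨ε, hε, h4⟩ := vk_iff PT ⟨_, h1 s₀ hs₀⟩
    filter_upwards [self_mem_nhdsWithin,
      eventually_all.2 fun v => FldAux.unif (f := fun s => c s v) (h2 v) hs₀ (half_pos hε),
      eventually_all.2 fun v => FldAux.unif (f := fun s => d s v) (h3 v) hs₀ (half_pos hε)]
      with s hs h5 h6
    obtain ⟨ε', hε', h7⟩ := vk_iff PT ⟨_, h1 s hs⟩
    have h8 : Close (ε / 2) (c s₀) (c s) :=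
      close_of_deriv (Reg.of_embD (h1 s₀ hs₀)).1 (Reg.of_embD (h1 s hs)).1
        (fun v => h5 v 0 ⟨le_rfl, zero_le_one⟩) h6
    obtain ⟨κ, hκ, τ, p, a, b, hp, hN⟩ :=
      apx_exists (Reg.of_embD (h1 s hs)) (lt_min hε' (half_pos hε))
    have h9 := NearP.trans (Q := ⟨τ, fun k => c s (p k) (a k)⟩) hp (hN.mono (min_le_right _ _)) h8
    rw [add_halves] at h9
    exact ((h4 κ _ ⟨p, a, b, hp, h9⟩).2 q).trans
      ((h7 κ _ ⟨p, a, b, hp, hN.mono (min_le_left _ _)⟩).2 q).symm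
  exact (isPreconnected_Icc.induction₂'
    (fun s s' => VK PT (⟨σ, c s⟩ : CPL ι) q ↔ VK PT (⟨σ, c s'⟩ : CPL ι) q)
    (fun s hs => (key s hs).mono fun s' h => ⟨h, h.symm⟩)
    (fun _ _ _ _ _ _ h h' => h.trans h')
    ⟨le_rfl, zero_le_one⟩ ⟨zero_le_one, le_rfl⟩).1 hV

theorem vk_split {ι : Type} [Finite ι] (n : ℕ) (L : CPL ι) (L' : CPL (ι × Fin (n + 1))) (q : ℤ)
    (h : L.Emb) (h1 : ∀ v (j : Fin n), L'.σ (v, j.castSucc) = (v, j.succ))
    (h2 : ∀ v, L'.σ (v, Fin.last n) = (L.σ v, 0))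
    (h3 : ∀ v j, ∀ u ∈ Icc (0 : ℝ) 1, L'.c (v, j) u = L.c v (((j : ℕ) + u) / (n + 1))) :
    VK PT L q ↔ VK PT L' q := by
  have hn : (0 : ℝ) < n + 1 := by positivity
  constructor
  · intro hV ε hε
    obtain ⟨ε', hε', h4⟩ := vk_iff PT h
    obtain ⟨d, hd⟩ := h
    have h5 : 0 < min ε (ε' / (n + 1)) := lt_min hε (div_pos hε' hn)
    obtain ⟨κ, hκ, τ, p, a, b, hp, hN⟩ :=
      apx_exists (FldAux.reg_split (Reg.of_embD hd) h1 h2 h3) h5
    have h6 : Apx L' _ (⟨τ, fun k => L'.c (p k) (a k)⟩ : PG κ) := ⟨p, a, b, hp, hN⟩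
    have h7 : (n + 1) * min ε (ε' / (n + 1)) ≤ ε' := by
      rw [← le_div_iff₀' hn]
      exact min_le_right _ _
    exact ⟨κ, hκ, _, FldAux.apx_mono h6 (min_le_left _ _),
      ((h4 κ _ (FldAux.apx_mono (FldAux.apx_split h1 h2 h3 h5.le h6) h7)).2 q).1 hV⟩
  · intro hV ε hε
    obtain ⟨κ, hκ, Q, h4, h5⟩ := hV (ε / (n + 1)) (div_pos hε hn)
    refine ⟨κ, hκ, Q, FldAux.apx_mono (FldAux.apx_split h1 h2 h3 (div_pos hε hn).le h4) ?_, h5⟩
    rw [mul_div_cancel₀ _ hn.ne']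

theorem vk_unlink {ι : Type} [Finite ι] (L : CPL ι) (m : ℕ) (comp : ι → Fin m) (h : L.Emb)
    (h1 : ∀ v, ∀ u ∈ Icc (0 : ℝ) 1, (L.c v u).2.1 = 0) (h2 : Function.Surjective comp)
    (h3 : ∀ v, comp (L.σ v) = comp v) : ¬ VK PT L (1 - m) := by
  intro hV
  obtain ⟨ε, hε, h4⟩ := vk_iff PT h
  obtain ⟨d, hd⟩ := h
  obtain ⟨κ, hκ, τ, p, a, b, hp, hN⟩ := apx_exists (Reg.of_embD hd) hε
  obtain ⟨Q, hQ⟩ : ∃ Q : PG κ, Q = ⟨τ, fun k => L.c (p k) (a k)⟩ := ⟨_, rfl⟩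
  have hσ : Q.σ = τ := by rw [hQ]
  obtain ⟨h5, h6⟩ := h4 κ Q (by rw [hQ]; exact ⟨p, a, b, hp, hN⟩)
  have y0 : ∀ k, (Q.pos k).2.1 = 0 := fun k => by
    rw [hQ]
    exact h1 _ _ (FldAux.sub hp k ⟨le_rfl, (hp.lt k).le⟩)
  have y1 : ∀ k u, (Q.pt k u).2.1 = 0 := fun k u => by
    rw [PG.pt, PBA.lm2, y0, y0]
    simp
  have nc : ∀ e f, ¬ Q.Cr e f := fun e f hc => PBA.y_ne h5 hc (by rw [y1, y1])
  have hG : Q.Gen := ⟨h5, fun e f u hu u' hu' e1 e2 => Or.inl (h5 e f u hu u' hu'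
    (Prod.ext e1 (Prod.ext (by rw [y1, y1]) e2))), fun e f _ hc => absurd hc (nc e f)⟩
  refine T.unlink Q.od m (fun k => comp (p k)) nc (fun i => ?_) (fun k => ?_)
    ((PT.gen Q _ hG).1 ((h6 _).1 hV))
  · obtain ⟨v, rfl⟩ := h2 i
    obtain ⟨k, e, -⟩ := hp.exists_first v
    exact ⟨k, congrArg comp e⟩
  · change comp (p (Q.σ k)) = comp (p k)
    rw [hσ]
    rcases (hp.b_le k).lt_or_eq with h7 | h7
    · rw [(hp.mid k h7).1]
    · rw [(hp.last k h7).1, h3]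


end K2

end Pool.Agent.Lib.MP_4d7d0a_gt
end

-- part Pool.Agent.Lib.MP_4d7d0a_gt.K1C
section

/-! A vertex passes over an edge. -/

set_option autoImplicit false

open Set Filter Topology

namespace Pool.Agent.Lib.MP_4d7d0a_gt

namespace K1

open PAdm (Pr dir pt_eq pt_zero pt_one cr_det tt_eq cr_param cr_pr cr_mem cr_symm pr_symm coin0
  coin dir_ne not_cr not_cr')

variable {ι : Type}

variable {P : PG ι}

theorem c_sign {d A B : ℝ} (hd : d ≠ 0) (hA : A ≠ 0) (hB : B ≠ 0) :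
    (d / A < 0 ↔ 0 < d / B) ↔ ¬ (0 < A ↔ 0 < B) := by
  rw [div_neg_iff, div_pos_iff]
  rcases hd.lt_or_gt with h | h <;> rcases hA.lt_or_gt with a | a <;>
    rcases hB.lt_or_gt with b | b <;> simp [h, a, b, h.le, a.le, b.le, not_lt.2]

theorem c_tt1 (Q : PG ι) (e f : ι) (h : dd Q e f ≠ 0) :
    Q.tt e f = 1 + det2 (Q.pos f - Q.pos (Q.σ e)) (dir Q f) / dd Q e f := by
  rw [tt_eq]
  change _ / dd Q e f = _
  field_simp
  simp only [dd, dir, det2, Prod.fst_sub, Prod.snd_sub]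
  ring

/-- the facts at a polygon whose only defect is the vertex `σ e` over the edge `f` -/
structure CData (P : PG ι) (e f : ι) : Prop where
  ne1 : P.σ e ≠ e
  fe : f ≠ e
  fs : f ≠ P.σ e
  fs' : P.σ e ≠ P.σ f
  tr1 : Tr P e f
  tr2 : Tr P (P.σ e) f
  t1 : P.tt e f = 1
  t2 : P.tt (P.σ e) f = 0
  t3 : P.tt f e = P.tt f (P.σ e)
  t4 : P.tt f e ∈ Ioo (0 : ℝ) 1
  ov : Ov P e f ↔ Ov P (P.σ e) f
  sep : ∀ g, P.Cr f g → P.tt f e ≠ P.tt f g
  good : ∀ a b, OD.Off2 e (P.σ e) f a b → Good P a b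

theorem c_data (hE : P.Emb) {e f : ι} (hv : VE P (P.σ e) f)
    (hu : ∀ v g, VE P v g → v = P.σ e ∧ g = f) (h1 : f ≠ P.σ (P.σ e)) (h2 : P.σ f ≠ e) :
    CData P e f := by
  obtain ⟨v1, v2, t₀, ht₀, hp⟩ := hv
  have z : (0 : ℝ) ∈ Icc (0 : ℝ) 1 := ⟨le_rfl, zero_le_one⟩
  have o : (1 : ℝ) ∈ Icc (0 : ℝ) 1 := ⟨zero_le_one, le_rfl⟩
  have fe : f ≠ e := fun h => v2 (by rw [h])
  have ne1 := PBA.emb_ne1 hE
  have n0 : t₀ ≠ 0 := by
    rintro rfl
    have k := (hu (P.σ e) (P.σ.symm f) ⟨fun h => h1 (by rw [h, Equiv.apply_symm_apply]),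
      by rwa [Equiv.apply_symm_apply], 1, o,
      by rw [pt_one, Equiv.apply_symm_apply]; rwa [pt_zero] at hp⟩).2
    exact ne1 f ((congrArg P.σ k).symm.trans (Equiv.apply_symm_apply _ _))
  have n1 : t₀ ≠ 1 := by
    rintro rfl
    exact ne1 f (hu (P.σ e) (P.σ f) ⟨v2, fun h => h2 (P.σ.injective h).symm, 0, z,
      by rw [pt_zero]; rwa [pt_one] at hp⟩).2
  have hI : t₀ ∈ Ioo (0 : ℝ) 1 := ⟨lt_of_le_of_ne ht₀.1 n0.symm, lt_of_le_of_ne ht₀.2 n1⟩
  have p1 : Pr (P.pt e 1) (P.pt f t₀) := by rwa [pt_one]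
  have p2 : Pr (P.pt (P.σ e) 0) (P.pt f t₀) := by rwa [pt_zero]
  have d1 : dd P e f ≠ 0 := by
    intro h
    rcases par h o ht₀ p1 with k | k | k
    · exact ne1 e (hu e f ⟨fe.symm, h2.symm, k⟩).1.symm
    · exact v1 (hu f e ⟨fe, v1.symm, k⟩).1.symm
    · exact v2 (hu (P.σ f) e ⟨h2, v2.symm, k⟩).1.symm
  have d2 : dd P (P.σ e) f ≠ 0 := by
    intro h
    rcases par' h z ht₀ p2 with k | k | k
    · exact ne1 _ (hu (P.σ (P.σ e)) f ⟨h1.symm, fun h => v1 (P.σ.injective h), k⟩).1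
    · exact v1 (hu f (P.σ e) ⟨v1.symm, h1, k⟩).1.symm
    · exact v2 (hu (P.σ f) (P.σ e) ⟨v2.symm, fun h => v1 (P.σ.injective h).symm, k⟩).1.symm
  have t1 : P.tt e f = 1 := (cr_param d1 p1).symm
  have t2 : P.tt (P.σ e) f = 0 := (cr_param d2 p2).symm
  have t3 : P.tt f e = t₀ := (cr_param (dd_ne d1) (pr_symm p1)).symm
  have t4 : P.tt f (P.σ e) = t₀ := (cr_param (dd_ne d2) (pr_symm p2)).symm
  have hy : (P.pos (P.σ e)).2.1 ≠ (P.pt f t₀).2.1 := by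
    intro h
    have k : P.pt (P.σ e) 0 = P.pt f t₀ := by
      rw [pt_zero]
      exact Prod.ext hp.1 (Prod.ext h hp.2)
    exact v1 (hE _ _ 0 ⟨le_rfl, one_pos⟩ t₀ ⟨ht₀.1, hI.2⟩ k).1
  refine ⟨ne1 e, fe, v1.symm, v2, ⟨d1, ?_⟩, ⟨d2, ?_⟩, t1, t2, t3.trans t4.symm, t3 ▸ hI, ?_,
    fun g hg h => ?_, fun a b h => good_of hE (fun k => ?_) (fun k => ?_) (fun k => ?_) fun k => ?_⟩
  · simp only [Ov, t1, t3, pt_one]
    exact hy.lt_or_gt
  · simp only [Ov, t2, t4, pt_zero]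
    exact hy.lt_or_gt
  · simp only [Ov, t1, t2, t3, t4, pt_one, pt_zero]
  · have k := cr_pr (cr_det hg)
    rw [← h, t3] at k
    have c1 : P.σ e ≠ g := by
      rintro rfl
      exact (cr_mem hg).2.1.ne' t2
    have c2 : P.σ e ≠ P.σ g := by
      intro k'
      obtain rfl := P.σ.injective k'
      exact (cr_mem hg).2.2.ne t1
    have c3 := (hu (P.σ e) g ⟨c1, c2, _, Ioo_subset_Icc_self (cr_mem hg).2, pr_trans hp k⟩).2
    exact (PBA.cr_ne P hg).1 c3.symm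
  · exact h.1 ⟨Or.inr (hu _ _ k).1, (hu _ _ k).2⟩
  · exact h.1 ⟨Or.inl (P.σ.injective (hu _ _ k).1), (hu _ _ k).2⟩
  · exact h.2 ⟨(hu _ _ k).2, Or.inr (hu _ _ k).1⟩
  · exact h.2 ⟨(hu _ _ k).2, Or.inl (P.σ.injective (hu _ _ k).1)⟩

namespace CData

variable {e f : ι} (c : CData P e f)

include c

theorem nc1 : ¬ P.Cr e f := fun h => (cr_mem h).1.2.ne c.t1

theorem nc2 : ¬ P.Cr (P.σ e) f := fun h => (cr_mem h).1.1.ne' c.t2

theorem off_e {g : ι} (h : g ≠ f) : OD.Off2 e (P.σ e) f e g :=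
  ⟨fun k => h k.2, fun k => c.fe k.1.symm⟩

theorem off_s {g : ι} (h : g ≠ f) : OD.Off2 e (P.σ e) f (P.σ e) g :=
  ⟨fun k => h k.2, fun k => c.fs k.1.symm⟩

theorem off_f {g : ι} (h : g ≠ e) (h' : g ≠ P.σ e) : OD.Off2 e (P.σ e) f f g :=
  ⟨fun k => k.1.elim c.fe c.fs, fun k => k.2.elim h h'⟩

variable {p : ι → P3} (hN : Near P p)

include hN

theorem last : (mv P p).od.Last e f := by
  intro g hg
  by_cases h : g = f
  · rw [h]
  · have k : P.Cr e g := (hN.cr_iff (c.good _ _ (c.off_e h))).2 hg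
    exact (hN.lt e g f k.1 c.tr1.1 (c.t1 ▸ (cr_mem k).1.2)).le

theorem first : (mv P p).od.First (P.σ e) f := by
  intro g hg
  by_cases h : g = f
  · rw [h]
  · have k : P.Cr (P.σ e) g := (hN.cr_iff (c.good _ _ (c.off_s h))).2 hg
    exact (hN.lt (P.σ e) f g c.tr2.1 k.1 (c.t2 ▸ (cr_mem k).1.1)).le

theorem ord1 {g : ι} (k : P.Cr f g) :
    P.tt f e < P.tt f g ↔ (mv P p).tt f e < (mv P p).tt f g :=
  hN.lt_iff (dd_ne c.tr1.1) k.1 fun h => absurd h (c.sep g k)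

theorem ord2 {g : ι} (k : P.Cr f g) :
    P.tt f e < P.tt f g ↔ (mv P p).tt f (P.σ e) < (mv P p).tt f g := by
  rw [c.t3]
  exact hN.lt_iff (dd_ne c.tr2.1) k.1 fun h => absurd (c.t3.trans h) (c.sep g k)

theorem cross (hG : (mv P p).Gen) :
    ((mv P p).Cr e f ↔ (mv P p).Cr (P.σ e) f) ↔ ¬ (0 < dd P e f ↔ 0 < dd P (P.σ e) f) := by
  obtain ⟨s1, d1⟩ := hN.pos_iff c.tr1.1
  obtain ⟨s2, d2⟩ := hN.pos_iff c.tr2.1
  have a1 := c_tt1 (mv P p) e f d1
  have a2 : (mv P p).tt (P.σ e) f = det2 (p f - p (P.σ e)) (dir (mv P p) f) /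
      dd (mv P p) (P.σ e) f := rfl
  have b1 : (mv P p).tt f e ∈ Ioo (0 : ℝ) 1 :=
    ⟨hN.lo f e (dd_ne c.tr1.1) c.t4.1, hN.hi f e (dd_ne c.tr1.1) c.t4.2⟩
  have b2 : (mv P p).tt f (P.σ e) ∈ Ioo (0 : ℝ) 1 :=
    ⟨hN.lo f _ (dd_ne c.tr2.1) (c.t3 ▸ c.t4.1), hN.hi f _ (dd_ne c.tr2.1) (c.t3 ▸ c.t4.2)⟩
  have b3 : 0 < (mv P p).tt e f := hN.lo e f c.tr1.1 (c.t1 ▸ one_pos)
  have b4 : (mv P p).tt (P.σ e) f < 1 := hN.hi _ f c.tr2.1 (c.t2 ▸ one_pos)
  have hd : det2 (p f - p (P.σ e)) (dir (mv P p) f) ≠ 0 := by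
    intro h
    rw [h, zero_div] at a2
    have k := cr_pr (P := mv P p) d2
    rw [a2, pt_zero] at k
    exact gen_noVE hG (P.σ e) f ⟨c.fs.symm, c.fs', _, Ioo_subset_Icc_self b2, k⟩
  have e1 : (mv P p).Cr e f ↔ det2 (p f - p (P.σ e)) (dir (mv P p) f) / dd (mv P p) e f < 0 := by
    rw [cr_iff]
    refine ⟨fun h => ?_, fun h => ⟨d1, ⟨b3, ?_⟩, b1⟩⟩
    · have := h.2.1.2
      rw [a1] at this
      exact add_lt_iff_neg_left.1 this
    · rw [a1]
      exact add_lt_iff_neg_left.2 h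
  have e2 : (mv P p).Cr (P.σ e) f ↔
      0 < det2 (p f - p (P.σ e)) (dir (mv P p) f) / dd (mv P p) (P.σ e) f := by
    rw [cr_iff, ← a2]
    exact ⟨fun h => h.2.1.1, fun h => ⟨d2, ⟨h, b4⟩, b2⟩⟩
  rw [e1, e2, s1, s2]
  exact c_sign hd d1 d2

end CData

theorem c_not_off {e e' f a b : ι} (h : ¬ OD.Off2 e e' f a b) :
    (a = e ∧ b = f) ∨ (a = e' ∧ b = f) ∨ (a = f ∧ b = e) ∨ (a = f ∧ b = e') := by
  unfold OD.Off2 at h
  tauto

theorem loc_ve (T : ODTheory) [Finite ι] (hE : P.Emb) {e f : ι} (hv : VE P (P.σ e) f)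
    (hu : ∀ v g, VE P v g → v = P.σ e ∧ g = f) (h1 : f ≠ P.σ (P.σ e)) (h2 : P.σ f ≠ e)
    (hT : ∀ a b c, ¬ TP P a b c) : Loc T P := by
  have c := c_data hE hv hu h1 h2
  have hW := wf_of hE hT
  have hsg : (P.od.sg e f ↔ P.od.sg (P.σ e) f) ↔ (0 < dd P e f ↔ 0 < dd P (P.σ e) f) := by
    rw [sg_iff, sg_iff, ← c.ov]
    tauto
  by_cases hs : 0 < dd P e f ↔ 0 < dd P (P.σ e) f
  · let R : ι → ι → Prop := fun a b => P.Cr a b ∨ (a = e ∧ b = f) ∨ (a = f ∧ b = e)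
    have rs : ∀ a b, R a b → R b a := by
      rintro a b (h | h | h)
      · exact Or.inl (cr_symm h)
      · exact Or.inr (Or.inr h.symm)
      · exact Or.inr (Or.inl h.symm)
    have rt : ∀ a b, R a b → Tr P a b := by
      rintro a b (h | ⟨rfl, rfl⟩ | ⟨rfl, rfl⟩)
      · exact tr_of_emb hE h
      · exact c.tr1
      · exact c.tr1.symm
    have ri : ∀ a b g, R a b → R a g → P.tt a b = P.tt a g → b = g := by
      rintro a b g (h | ⟨h, h'⟩ | ⟨h, h'⟩) (k | ⟨k, k'⟩ | ⟨k, k'⟩) ht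
      · by_contra hne
        exact hT a b g ⟨h, k, ht, hne⟩
      · rw [k'] at ht
        rw [k] at ht h
        exact absurd (ht.trans c.t1) (cr_mem h).1.2.ne
      · rw [k'] at ht
        rw [k] at ht h
        exact absurd ht.symm (c.sep b h)
      · rw [h'] at ht
        rw [h] at ht k
        exact absurd (ht.symm.trans c.t1) (cr_mem k).1.2.ne
      · rw [h', k']
      · exact absurd (k.symm.trans h) c.fe
      · rw [h'] at ht
        rw [h] at ht k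
        exact absurd ht (c.sep g k)
      · exact absurd (h.symm.trans k) c.fe
      · rw [h', k']
    have ro : ∀ a b, OD.Off2 e (P.σ e) f a b → (R a b ↔ P.Cr a b) := fun a b h =>
      ⟨fun k => k.elim id fun k' => k'.elim (fun j => (h.1 ⟨Or.inl j.1, j.2⟩).elim)
        fun j => (h.2 ⟨j.1, Or.inl j.2⟩).elim, Or.inl⟩
    have r1 : R e f := Or.inr (Or.inl ⟨rfl, rfl⟩)
    have r2 : ¬ R (P.σ e) f := by
      rintro (h | h | h)
      · exact c.nc2 h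
      · exact c.ne1 h.1
      · exact c.fe h.2
    have hWR := wfR rs rt ri
    refine loc_of T (odR P R) ((near_ev P).mono fun p hN hG q => ?_)
    have hx : ¬ ((mv P p).Cr e f ↔ (mv P p).Cr (P.σ e) f) := fun h => (c.cross hN hG).1 h hs
    have ho : ∀ a b, OD.Off2 e (P.σ e) f a b → (R a b ↔ (mv P p).Cr a b) := fun a b h =>
      (ro a b h).trans (hN.cr_iff (c.good a b h))
    by_cases hc : (mv P p).Cr e f
    · have hc' : ¬ (mv P p).Cr (P.σ e) f := fun h => hx (iff_of_true hc h)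
      refine iso_iff T hWR hG.wf rfl (hN.agree (fun a b _ => rt a b) (fun a b _ => ?_)
        fun a b g _ _ => ri a b g) q
      by_cases h : OD.Off2 e (P.σ e) f a b
      · exact ho a b h
      · rcases c_not_off h with ⟨rfl, rfl⟩ | ⟨rfl, rfl⟩ | ⟨rfl, rfl⟩ | ⟨rfl, rfl⟩
        · exact iff_of_true r1 hc
        · exact iff_of_false r2 hc'
        · exact iff_of_true (rs _ _ r1) (cr_symm hc)
        · exact iff_of_false (fun k => r2 (rs _ _ k)) fun k => hc' (cr_symm k)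
    · have hc' : (mv P p).Cr (P.σ e) f := by
        by_contra h
        exact hx (iff_of_false hc h)
      refine T.slide (odR P R) (mv P p).od e f q hWR hG.wf rfl c.ne1 c.fe c.fs
        (hN.agree (fun a b _ => rt a b) ho fun a b g _ _ => ri a b g) r1 r2 hc hc'
        (fun g hg => ?_) (c.first hN) (fun g g1 g2 hg => ?_) ?_
      · change P.tt e g ≤ P.tt e f
        by_cases h : g = f
        · rw [h]
        · rw [c.t1]
          exact (cr_mem ((ro e g (c.off_e h)).1 hg)).1.2.le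
      · exact c.ord2 hN ((ro f g (c.off_f g1 g2)).1 hg)
      · exact (hsg.2 hs).trans (hN.sg_iff c.tr2)
  · refine loc_of T P.od ((near_ev P).mono fun p hN hG q => ?_)
    have hx : (mv P p).Cr e f ↔ (mv P p).Cr (P.σ e) f := (c.cross hN hG).2 hs
    have ho : ∀ a b, OD.Off2 e (P.σ e) f a b → (P.Cr a b ↔ (mv P p).Cr a b) := fun a b h =>
      hN.cr_iff (c.good a b h)
    by_cases hc : (mv P p).Cr e f
    · refine T.r2 P.od (mv P p).od e f q hW hG.wf rfl c.ne1 c.fe c.fs (hN.agree_wf hW ho)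
        c.nc1 c.nc2 hc (hx.1 hc) (c.last hN) (c.first hN) (fun g g1 g2 hg => ?_) (fun h => ?_)
        hG.adm
      · have k : P.Cr f g := (ho f g (c.off_f g1 g2)).2 hg
        exact (c.ord1 hN k).symm.trans (c.ord2 hN k)
      · exact hs (hsg.1 ((hN.sg_iff c.tr1).trans (h.trans (hN.sg_iff c.tr2).symm)))
    · have hc' : ¬ (mv P p).Cr (P.σ e) f := fun h => hc (hx.2 h)
      refine iso_iff T hW hG.wf rfl (hN.agree_wf hW fun a b _ => ?_) q
      by_cases h : OD.Off2 e (P.σ e) f a b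
      · exact ho a b h
      · rcases c_not_off h with ⟨rfl, rfl⟩ | ⟨rfl, rfl⟩ | ⟨rfl, rfl⟩ | ⟨rfl, rfl⟩
        · exact iff_of_false c.nc1 hc
        · exact iff_of_false c.nc2 hc'
        · exact iff_of_false (fun k => c.nc1 (cr_symm k)) fun k => hc (cr_symm k)
        · exact iff_of_false (fun k => c.nc2 (cr_symm k)) fun k => hc' (cr_symm k)

end K1

end Pool.Agent.Lib.MP_4d7d0a_gt
end

-- part Pool.Agent.Lib.MP_4d7d0a_gt.K1D
section

/-! An edge passes over a crossing. -/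

set_option autoImplicit false

open Set Filter Topology

namespace Pool.Agent.Lib.MP_4d7d0a_gt

namespace K1

open PAdm (Pr dir pt_eq pt_zero pt_one cr_det tt_eq cr_param cr_pr cr_mem cr_symm pr_symm coin0
  coin dir_ne not_cr not_cr')

variable {ι : Type}

variable {P : PG ι}

/-- vanishes when the three projected lines are concurrent -/
def d_del (P : PG ι) (a b c : ι) : ℝ :=
  det2 (P.pos a) (dir P a) * dd P b c + det2 (P.pos b) (dir P b) * dd P c a +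
    det2 (P.pos c) (dir P c) * dd P a b

theorem d_eq {a b c : ι} (hb : dd P a b ≠ 0) (hc : dd P a c ≠ 0) :
    (P.tt a c - P.tt a b) * (dd P a b * dd P a c) = d_del P a b c := by
  have h1 : P.tt a b * dd P a b = det2 (P.pos b - P.pos a) (dir P b) := div_mul_cancel₀ _ hb
  have h2 : P.tt a c * dd P a c = det2 (P.pos c - P.pos a) (dir P c) := div_mul_cancel₀ _ hc
  have h3 : (P.tt a c - P.tt a b) * (dd P a b * dd P a c) =
      P.tt a c * dd P a c * dd P a b - P.tt a b * dd P a b * dd P a c := by ring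
  rw [h3, h1, h2]
  simp only [d_del, dd, det2, Prod.fst_sub, Prod.snd_sub]
  ring

theorem d_sign {x y : ℝ} (hx : x ≠ 0) (hy : y ≠ 0) : 0 < x * y ↔ (0 < x ↔ 0 < y) := by
  rcases lt_or_gt_of_ne hx with h | h <;> rcases lt_or_gt_of_ne hy with k | k
  · exact iff_of_true (mul_pos_of_neg_of_neg h k) (iff_of_false h.not_gt k.not_gt)
  · exact iff_of_false (mul_neg_of_neg_of_pos h k).not_gt fun m => h.not_gt (m.2 k)
  · exact iff_of_false (mul_neg_of_pos_of_neg h k).not_gt fun m => k.not_gt (m.1 h)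
  · exact iff_of_true (mul_pos h k) (iff_of_true h k)

theorem d_neg {x : ℝ} (hx : x ≠ 0) : 0 < -x ↔ ¬ 0 < x := by
  rw [neg_pos, not_lt]
  exact ⟨le_of_lt, fun h => lt_of_le_of_ne h hx⟩

theorem d_lt {a b c : ι} (hb : dd P a b ≠ 0) (hc : dd P a c ≠ 0) (hd : d_del P a b c ≠ 0) :
    P.tt a b < P.tt a c ↔ (0 < d_del P a b c ↔ (0 < dd P a b ↔ 0 < dd P a c)) := by
  have h := d_eq hb hc
  have h0 : P.tt a c - P.tt a b ≠ 0 := fun h0 => hd (by rw [← h, h0, zero_mul])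
  rw [← h, d_sign h0 (mul_ne_zero hb hc), d_sign hb hc, sub_pos]
  tauto

theorem d_sw1 (P : PG ι) (a b c : ι) : d_del P b a c = -d_del P a b c := by
  simp only [d_del, dd, det2]
  ring

theorem d_sw2 (P : PG ι) (a b c : ι) : d_del P a c b = -d_del P a b c := by
  simp only [d_del, dd, det2]
  ring

theorem d_perm {e f g a b c : ι} (ha : a = e ∨ a = f ∨ a = g) (hb : b = e ∨ b = f ∨ b = g)
    (hc : c = e ∨ c = f ∨ c = g) (hab : a ≠ b) (hac : a ≠ c) (hbc : b ≠ c) :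
    (∀ Q : PG ι, d_del Q a b c = d_del Q e f g) ∨ ∀ Q : PG ι, d_del Q a b c = -d_del Q e f g := by
  rcases ha with ha | ha | ha <;> rcases hb with hb | hb | hb <;> rcases hc with hc | hc | hc <;>
    first
      | exact absurd (ha.trans hb.symm) hab
      | exact absurd (ha.trans hc.symm) hac
      | exact absurd (hb.trans hc.symm) hbc
      | (left; intro Q; rw [ha, hb, hc]; simp only [d_del, dd, det2]; ring1)
      | (right; intro Q; rw [ha, hb, hc]; simp only [d_del, dd, det2]; ring1)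
      | (left; intro Q; rw [ha, hb, hc])

theorem d_ne {a b : ι} (h : dd P a b ≠ 0) : a ≠ b := fun k => h (k ▸ dd_self P a)

theorem d_gen (h : P.Gen) {a b c : ι} (hb : P.Cr a b) (hc : P.Cr a c) (hbc : b ≠ c) :
    d_del P a b c ≠ 0 := by
  intro h0
  have h1 := d_eq (P := P) hb.1 hc.1
  rw [h0] at h1
  rcases mul_eq_zero.1 h1 with h2 | h2
  · exact hbc (h.2.2 a b c hb hc (by linarith))
  · exact mul_ne_zero (show dd P a b ≠ 0 from hb.1) (show dd P a c ≠ 0 from hc.1) h2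

theorem d_prop (D a b c x y z : Prop) (o1 : ¬ (x ∧ ¬ y ∧ z)) (o2 : ¬ (¬ x ∧ y ∧ ¬ z)) :
    ¬ (((¬ ((D ↔ (a ↔ b)) ↔ (¬ D ↔ (¬ a ↔ c))) ↔ (x ↔ a)) ↔
        (¬ ((¬ D ↔ (b ↔ a)) ↔ (D ↔ (¬ b ↔ ¬ c))) ↔ (y ↔ b))) ∧
      ((¬ ((¬ D ↔ (b ↔ a)) ↔ (D ↔ (¬ b ↔ ¬ c))) ↔ (y ↔ b)) ↔
        (¬ ((D ↔ (c ↔ ¬ a)) ↔ (¬ D ↔ (¬ c ↔ ¬ b))) ↔ (z ↔ c)))) := by
  by_cases h0 : D <;> by_cases h1 : a <;> by_cases h2 : b <;> by_cases h3 : c <;>
    by_cases h4 : x <;> by_cases h5 : y <;> by_cases h6 : z <;>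
    simp_all

/-- the types of the three crossings are not all equal unless the depths are cyclic -/
theorem d_ty {e f g : ι} (h1 : dd P e f ≠ 0) (h2 : dd P e g ≠ 0) (h3 : dd P f g ≠ 0)
    (hd : d_del P e f g ≠ 0) (o1 : ¬ (Ov P e f ∧ ¬ Ov P e g ∧ Ov P f g))
    (o2 : ¬ (¬ Ov P e f ∧ Ov P e g ∧ ¬ Ov P f g)) :
    ¬ ((P.od.Ty e f g ↔ P.od.Ty e g f) ∧ (P.od.Ty e g f ↔ P.od.Ty f g e)) := by
  have e1 : d_del P f e g = -d_del P e f g := d_sw1 P e f g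
  have e2 : d_del P e g f = -d_del P e f g := d_sw2 P e f g
  have e3 : d_del P g e f = d_del P e f g := by rw [d_sw1 P e g f, e2, neg_neg]
  have e4 : d_del P f g e = d_del P e f g := by rw [d_sw2 P f e g, e1, neg_neg]
  have e5 : d_del P g f e = -d_del P e f g := by rw [d_sw1 P f g e, e4]
  have n := neg_ne_zero.2 hd
  have t1 := d_lt h1 h2 hd
  have t2 := d_lt (dd_ne h1) h3 (by rw [e1]; exact n)
  have t3 := d_lt h2 h1 (by rw [e2]; exact n)
  have t4 := d_lt (dd_ne h2) (dd_ne h3) (by rw [e3]; exact hd)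
  have t5 := d_lt h3 (dd_ne h1) (by rw [e4]; exact hd)
  have t6 := d_lt (dd_ne h3) (dd_ne h2) (by rw [e5]; exact n)
  rw [e1, d_neg hd, dd_swap P e f, d_neg h1] at t2
  rw [e2, d_neg hd] at t3
  rw [e3, dd_swap P e g, dd_swap P f g, d_neg h2, d_neg h3] at t4
  rw [e4, dd_swap P e f, d_neg h1] at t5
  rw [e5, d_neg hd, dd_swap P e g, dd_swap P f g, d_neg h2, d_neg h3] at t6
  have y : ∀ a b c, P.od.Ty a b c ↔ (¬ (P.tt a b < P.tt a c ↔ P.tt b a < P.tt b c) ↔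
      (Ov P a b ↔ 0 < dd P a b)) := fun a b c => Iff.rfl
  rw [y, y, y, t1, t2, t3, t4, t5, t6]
  exact d_prop _ _ _ _ _ _ _ o1 o2

theorem loc_tp (T : ODTheory) [Finite ι] (hE : P.Emb) (hV : ∀ v g, ¬ VE P v g) {e f g : ι}
    (ht : TP P e f g) (hu : ∀ a b c, TP P a b c → (a = e ∨ a = f ∨ a = g) ∧
      (b = e ∨ b = f ∨ b = g) ∧ (c = e ∨ c = f ∨ c = g)) : Loc T P := by
  have hG : ∀ a b, Good P a b := fun a b => good_of hE (hV _ _) (hV _ _) (hV _ _) (hV _ _)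
  obtain ⟨cef, ceg, tef, hfg⟩ := ht
  have hp : Pr (P.pt f (P.tt f e)) (P.pt g (P.tt g e)) :=
    pr_trans (pr_symm (cr_pr cef.1)) (tef ▸ cr_pr ceg.1)
  have cfg : P.Cr f g := coinV hE hfg (hV _ _) (hV _ _) (hV _ _) (hV _ _)
    (Ioo_subset_Ico_self (cr_mem cef).2) (Ioo_subset_Ico_self (cr_mem ceg).2) hp
  have tf : P.tt f e = P.tt f g := cr_param cfg.1 hp
  have tg : P.tt g e = P.tt g f := cr_param (cr_symm cfg).1 (pr_symm hp)
  have hef : e ≠ f := d_ne cef.1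
  have heg : e ≠ g := d_ne ceg.1
  have ag : ∀ p, Near P p → P.od.Agree (mv P p).od (OD.Off3 e f g) := fun p hp =>
    hp.agree (R := P.Cr) (fun _ _ _ h => tr_of_emb hE h) (fun a b _ => hp.cr_iff (hG a b))
      fun a b c k _ x y z => by
        by_contra hbc
        obtain ⟨m1, m2, -⟩ := hu a b c ⟨x, y, z, hbc⟩
        exact k ⟨m1, m2⟩
  have ps : ∀ p p', Near P p → Near P p' → ∀ a b, P.Cr a b →
      (0 < dd (mv P p) a b ↔ 0 < dd (mv P p') a b) := fun p p' hp hp' a b h =>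
    (hp.pos_iff h.1).1.symm.trans (hp'.pos_iff h.1).1
  have sgs : ∀ p p', Near P p → Near P p' → ∀ a b, P.Cr a b →
      ((mv P p).od.sg a b ↔ (mv P p').od.sg a b) := fun p p' hp hp' a b h =>
    (hp.sg_iff (tr_of_emb hE h)).symm.trans (hp'.sg_iff (tr_of_emb hE h))
  have ex : ∀ p p', Near P p → Near P p' → (mv P p).Gen → (mv P p').Gen → ∀ a b c, TP P a b c →
      ¬ (0 < d_del (mv P p) a b c ↔ 0 < d_del (mv P p') a b c) →
      (mv P p).od.Exch (mv P p').od (OD.Off3 e f g) a b c := by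
    intro p p' hp hp' gp gp' a b c ⟨cb, cc, tb, hbc⟩ hs
    refine ⟨?_, fun h k x => ?_⟩
    · have n' := d_gen gp' (hp'.cr cb) (hp'.cr cc) hbc
      have t1 := d_lt (hp.cr cb).1 (hp.cr cc).1 (d_gen gp (hp.cr cb) (hp.cr cc) hbc)
      have t2 := d_lt (hp'.cr cc).1 (hp'.cr cb).1 (d_gen gp' (hp'.cr cc) (hp'.cr cb) hbc.symm)
      rw [d_sw2, d_neg n', ← ps p p' hp hp' a b cb, ← ps p p' hp hp' a c cc] at t2
      change (mv P p).tt a b < (mv P p).tt a c ↔ (mv P p').tt a c < (mv P p').tt a b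
      rw [t1, t2]
      tauto
    · have ch : P.Cr a h := (hp.cr_iff (hG a h)).2 x
      have nb : P.tt a b = P.tt a h → b = h := fun z => by
        by_contra hn
        obtain ⟨m1, -, m3⟩ := hu a b h ⟨cb, ch, z, hn⟩
        exact k ⟨m1, m3⟩
      have nc : P.tt a c = P.tt a h → c = h := fun z => by
        by_contra hn
        obtain ⟨m1, -, m3⟩ := hu a c h ⟨cc, ch, z, hn⟩
        exact k ⟨m1, m3⟩
      have l1 := hp.lt_iff cb.1 ch.1 nb
      have l2 := hp.lt_iff cc.1 ch.1 nc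
      have l3 := hp'.lt_iff cb.1 ch.1 nb
      have l4 := hp'.lt_iff cc.1 ch.1 nc
      exact ⟨l1.symm.trans (tb ▸ l2), l1.symm.trans l3, l2.symm.trans l4⟩
  have r3 : ∀ p p', Near P p → Near P p' → (mv P p).Gen → (mv P p').Gen →
      ¬ (0 < d_del (mv P p) e f g ↔ 0 < d_del (mv P p') e f g) →
      ∀ q, T.V (mv P p).od q → T.V (mv P p').od q := by
    intro p p' hp hp' gp gp' hs q
    have n := d_gen gp (hp.cr cef) (hp.cr ceg) hfg
    have n' := d_gen gp' (hp'.cr cef) (hp'.cr ceg) hfg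
    refine T.r3 _ _ e f g q gp.wf gp'.wf rfl (hp.cr cef) (hp.cr ceg) (hp.cr cfg) (hp'.cr cef)
      (hp'.cr ceg) (hp'.cr cfg) (agree_trans (agree_symm (ag p hp)) (ag p' hp'))
      (sgs p p' hp hp' _ _ cef) (sgs p p' hp hp' _ _ ceg) (sgs p p' hp hp' _ _ cfg)
      (ex p p' hp hp' gp gp' e f g ⟨cef, ceg, tef, hfg⟩ hs)
      (ex p p' hp hp' gp gp' f e g ⟨cr_symm cef, cfg, tf, heg⟩ ?_)
      (ex p p' hp hp' gp gp' g e f ⟨cr_symm ceg, cr_symm cfg, tg, hef⟩ ?_)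
      (d_ty (hp.cr cef).1 (hp.cr ceg).1 (hp.cr cfg).1 n ?_ ?_)
    · rw [d_sw1 (mv P p) e f g, d_sw1 (mv P p') e f g, d_neg n, d_neg n']
      tauto
    · rw [d_sw1 (mv P p) e g f, d_sw1 (mv P p') e g f, d_sw2 (mv P p) e f g,
        d_sw2 (mv P p') e f g, neg_neg, neg_neg]
      exact hs
    · rw [← hp.ov_iff (tr_of_emb hE cef), ← hp.ov_iff (tr_of_emb hE ceg),
        ← hp.ov_iff (tr_of_emb hE cfg)]
      rintro ⟨a1, a2, a3⟩
      unfold Ov at a1 a2 a3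
      rw [← tef] at a2
      rw [← tf, ← tg] at a3
      exact a2 (a1.trans a3)
    · rw [← hp.ov_iff (tr_of_emb hE cef), ← hp.ov_iff (tr_of_emb hE ceg),
        ← hp.ov_iff (tr_of_emb hE cfg)]
      rintro ⟨a1, a2, a3⟩
      unfold Ov at a1 a2 a3
      rw [← tef] at a2
      rw [← tf, ← tg] at a3
      linarith [not_lt.1 a1, not_lt.1 a3]
  refine ⟨_, near_ev P, fun p hp p' hp' gp gp' q => ?_⟩
  by_cases hs : 0 < d_del (mv P p) e f g ↔ 0 < d_del (mv P p') e f g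
  · refine iso_iff T gp.wf gp'.wf rfl ⟨fun a b _ => (hp.cr_iff (hG a b)).symm.trans
      (hp'.cr_iff (hG a b)), fun a b _ x => sgs p p' hp hp' a b ((hp.cr_iff (hG a b)).2 x),
      fun a b c _ _ x y => ?_⟩ q
    have cb : P.Cr a b := (hp.cr_iff (hG a b)).2 x
    have cc : P.Cr a c := (hp.cr_iff (hG a c)).2 y
    by_cases hn : P.tt a b = P.tt a c → b = c
    · exact (hp.lt_iff cb.1 cc.1 hn).symm.trans (hp'.lt_iff cb.1 cc.1 hn)
    · obtain ⟨z, hbc⟩ := Classical.not_imp.1 hn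
      obtain ⟨m1, m2, m3⟩ := hu a b c ⟨cb, cc, z, hbc⟩
      have n := d_gen gp (hp.cr cef) (hp.cr ceg) hfg
      have n' := d_gen gp' (hp'.cr cef) (hp'.cr ceg) hfg
      have t1 := d_lt (hp.cr cb).1 (hp.cr cc).1 (d_gen gp (hp.cr cb) (hp.cr cc) hbc)
      have t2 := d_lt (hp'.cr cb).1 (hp'.cr cc).1 (d_gen gp' (hp'.cr cb) (hp'.cr cc) hbc)
      rw [← ps p p' hp hp' a b cb, ← ps p p' hp hp' a c cc] at t2
      change (mv P p).tt a b < (mv P p).tt a c ↔ (mv P p').tt a b < (mv P p').tt a c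
      rw [t1, t2]
      rcases d_perm m1 m2 m3 (d_ne cb.1) (d_ne cc.1) hbc with k | k
      · rw [k, k, hs]
      · rw [k, k, d_neg n, d_neg n', hs]
  · exact ⟨r3 p p' hp hp' gp gp' hs q, r3 p' p hp' hp gp' gp (fun k => hs k.symm) q⟩

end K1

end Pool.Agent.Lib.MP_4d7d0a_gt
end

-- part Pool.Agent.Lib.MP_4d7d0a_gt.K1L
section

/-! A moving vertex with pivots in general position has one contact at a time. -/

set_option autoImplicit false

open Set Filter Topology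

namespace Pool.Agent.Lib.MP_4d7d0a_gt

namespace K1

open PAdm (Pr dir pt_eq pt_zero pt_one cr_det tt_eq cr_param cr_pr cr_mem cr_symm pr_symm coin0
  coin dir_ne not_cr not_cr')

variable {ι : Type}

variable {Q : PG ι}

/-- `x` is on the line through the pivot `a` and the point `s` of `S` -/
def lLA (S : Set P3) (a x s : P3) : Prop := s ∈ S ∧ ¬ Pr a s ∧ W a s x = 0

/-- `x` is on the line through two points of `S` -/
def lLL (S : Set P3) (x p q : P3) : Prop := p ∈ S ∧ q ∈ S ∧ ¬ Pr p q ∧ W p q x = 0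

theorem l_key {S : Set P3} {a b x : P3} (hA : OffS S a) (hB : OffS (insert a S) b)
    (hU : Uni (insert a (insert b S)) x) (ha : ¬ Pr a x) (hb : ¬ Pr b x) :
    (∀ s ∈ S, ¬ Pr x s) ∧ (∀ {p q s}, lLL S x p q → lLA S a x s → False) ∧
      (∀ {p q s}, lLL S x p q → lLA S b x s → False) ∧
      (∀ {s s'}, lLA S a x s → lLA S b x s' → False) ∧
      (∀ {s s'}, lLA S a x s → lLA S a x s' → Pr s s') ∧
      ∀ {s s'}, lLA S b x s → lLA S b x s' → Pr s s' := by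
  have ma : a ∈ insert a (insert b S) := mem_insert _ _
  have mb : b ∈ insert a (insert b S) := mem_insert_of_mem _ (mem_insert _ _)
  have ms : ∀ {s}, s ∈ S → s ∈ insert a (insert b S) := fun hs =>
    mem_insert_of_mem _ (mem_insert_of_mem _ hs)
  have k3 : ∀ {s s'}, lLA S a x s → lLA S b x s' → False := fun h h' =>
    hB _ (mem_insert _ _) _ (mem_insert_of_mem _ h.1) h.2.1
      (hU _ ma _ (ms h.1) _ mb _ (ms h'.1) h'.2.1 h.2.2 h'.2.2)
  refine ⟨fun s hs hp => ?_, fun h h' => hA _ h.1 _ h.2.1 h.2.2.1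
      (hU _ (ms h.1) _ (ms h.2.1) _ ma _ (ms h'.1) h'.2.1 h.2.2.2 h'.2.2),
    fun h h' => hB _ (mem_insert_of_mem _ h.1) _ (mem_insert_of_mem _ h.2.1) h.2.2.1
      (hU _ (ms h.1) _ (ms h.2.1) _ mb _ (ms h'.1) h'.2.1 h.2.2.2 h'.2.2), k3,
    fun h h' => by_contra fun hn => hA _ h.1 _ h'.1 hn ?_,
    fun h h' => by_contra fun hn =>
      hB _ (mem_insert_of_mem _ h.1) _ (mem_insert_of_mem _ h'.1) hn ?_⟩
  · have hw : ∀ p : P3, W p s x = 0 := fun p => by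
      simp only [W, det2, Prod.fst_sub, Prod.snd_sub, hp.1, hp.2]
      ring
    exact k3 ⟨hs, fun k => ha (pr_trans k (pr_symm hp)), hw a⟩
      ⟨hs, fun k => hb (pr_trans k (pr_symm hp)), hw b⟩
  · rw [w_rot]
    exact hU _ ma _ (ms h.1) _ (ms h'.1) _ ma (fun k => h'.2.1 (pr_symm k)) h.2.2
      (by rw [w_swap, h'.2.2, neg_zero])
  · rw [w_rot]
    exact hU _ mb _ (ms h.1) _ (ms h'.1) _ mb (fun k => h'.2.1 (pr_symm k)) h.2.2
      (by rw [w_swap, h'.2.2, neg_zero])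

theorem l_btw (c : ℝ × ℝ) {p q s : P3} {t : ℝ} (ht : t ∈ Icc (0 : ℝ) 1) (h : Lf c p < Lf c q)
    (hp : Pr s (AffineMap.lineMap p q t)) : Lf c p ≤ Lf c s ∧ Lf c s ≤ Lf c q := by
  rw [lf_pr c hp, lf_lm]
  constructor <;> nlinarith [ht.1, ht.2]

theorem loc_fix (T : ODTheory) [Finite ι] (h : Q.Gen) {j a m b : ι} (ha : Q.σ j = a)
    (hm : Q.σ a = m) (hb : Q.σ m = b) {S : Set P3} (hP : Piv Q a m b S) {c : ℝ × ℝ} {x : P3}
    (l1 : Lf c (Q.pos j) < Lf c (Q.pos a)) (l2 : Lf c (Q.pos a) < Lf c x)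
    (l3 : Lf c x < Lf c (Q.pos b)) (l4 : Lf c (Q.pos b) < Lf c (Q.pos (Q.σ b)))
    (hE : (upd Q m x).Emb) (hU : Uni (insert (Q.pos a) (insert (Q.pos b) S)) x) :
    Loc T (upd Q m x) := by
  obtain ⟨k0, k1, k2, k3, k4, k5⟩ := l_key hP.offA hP.offB hU (fun k => l2.ne (lf_pr c k))
    fun k => l3.ne' (lf_pr c k)
  have inj := Q.σ.injective
  have hVE : ∀ {v f}, VE (upd Q m x) v f →
      (v = m ∧ Fx Q m f ∧ f ≠ j ∧ f ≠ b ∧ (∃ t ∈ Icc (0 : ℝ) 1, Pr x (Q.pt f t)) ∧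
        lLL S x (Q.pos f) (Q.pos (Q.σ f))) ∨
      (f = a ∧ v ≠ j ∧ v ≠ b ∧ lLA S (Q.pos a) x (Q.pos v)) ∨
      (f = m ∧ v ≠ a ∧ v ≠ Q.σ b ∧ lLA S (Q.pos b) x (Q.pos v)) := by
    intro v f hv
    rcases ve_cases h hm hv with ⟨e1, e2, t, ht, e3⟩ | ⟨e1, e2, e3, t, ht, e4⟩ |
      ⟨e1, e2, e3, t, ht, e4⟩
    · have n1 : f ≠ j := by
        rintro rfl
        rw [PG.pt, ha] at e3
        linarith [(l_btw c ht l1 e3).2]
      have n2 : f ≠ b := by
        rintro rfl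
        linarith [(l_btw c ht l4 e3).1]
      exact Or.inl ⟨e1, e2, n1, n2, ⟨t, ht, e3⟩,
        hP.vs f (fun k => e2.2 (k ▸ hm)) e2.1 n2,
        hP.vs _ (fun k => n1 (inj (k.trans ha.symm))) e2.2 fun k => e2.1 (inj (k.trans hb.symm)),
        fun k => PBA.emb_ne1 h.1 f (gen_pos h k).symm, (w_lm e3).1⟩
    · have k := l_btw c ht l2 e4
      have n1 : v ≠ j := by
        rintro rfl
        linarith [k.1]
      have n2 : v ≠ b := by
        rintro rfl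
        linarith [k.2]
      exact Or.inr (Or.inl ⟨e3, n1, n2, hP.vs v e2 e1 n2, fun k => e2 (gen_pos h k).symm,
        (w_lm e4).2.1⟩)
    · rw [hb] at e2 e4
      have k := l_btw c ht l3 e4
      have n1 : v ≠ a := by
        rintro rfl
        linarith [k.1]
      have n2 : v ≠ Q.σ b := by
        rintro rfl
        linarith [k.2]
      exact Or.inr (Or.inr ⟨e3, n1, n2, hP.vs v n1 e1 e2, fun k => e2 (gen_pos h k).symm,
        (w_lm e4).2.2⟩)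
  have hTP : ∀ {e f g}, TP (upd Q m x) e f g → ∃ n f₀ g₀, Q.Cr f₀ g₀ ∧
      ({e, f, g} : Set ι) = {n, f₀, g₀} ∧
      ((n = a ∧ lLA S (Q.pos a) x (Q.pt f₀ (Q.tt f₀ g₀))) ∨
        (n = m ∧ lLA S (Q.pos b) x (Q.pt f₀ (Q.tt f₀ g₀)))) := by
    intro e f g ht
    obtain ⟨n, f₀, g₀, e1, e2, e3, e4, e5⟩ := tp_cases h hm (fun s hs t ht k => by
      have k := lf_pr c k
      rw [lf_lm, lf_lm, hb] at k
      nlinarith [mul_pos (sub_pos.2 hs.2) (sub_pos.2 l2), mul_pos ht.1 (sub_pos.2 l3)]) ht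
    refine ⟨n, f₀, g₀, e3, e4, e5.imp ?_ ?_⟩
    · rintro ⟨e6, t, e7⟩
      exact ⟨e6, hP.xs _ _ e1 e2 e3, pos_xp h a e3, (w_lm e7).2.1⟩
    · rintro ⟨e6, t, e7⟩
      rw [hb] at e7
      exact ⟨e6, hP.xs _ _ e1 e2 e3, pos_xp h b e3, (w_lm e7).2.2⟩
  by_cases hV : ∃ v f, VE (upd Q m x) v f
  · obtain ⟨v, f, hv⟩ := hV
    obtain ⟨e, rfl⟩ := Q.σ.surjective v
    refine loc_ve T hE (e := e) hv (fun w g hw => ?_) ?_ ?_ fun e' f' g' ht => ?_
    · change w = Q.σ e ∧ g = f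
      rcases hVE hv with ⟨e1, e2, -, -, ⟨t, ht, e3⟩, e4⟩ | ⟨e1, -, -, e4⟩ | ⟨e1, -, -, e4⟩ <;>
        rcases hVE hw with ⟨d1, d2, -, -, ⟨t', ht', d3⟩, d4⟩ | ⟨d1, -, -, d4⟩ | ⟨d1, -, -, d4⟩
      · refine ⟨d1.trans e1.symm, ?_⟩
        rcases coin h ht ht' (pr_trans (pr_symm e3) d3) with k | k | k | k
        · exact k.1.symm
        · rw [k.1, pt_zero] at e3
          exact absurd e3 (k0 _ e4.1)
        · rw [k.1, pt_one] at e3
          exact absurd e3 (k0 _ e4.2.1)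
        · rw [k.2.1] at e3
          exact absurd e3 (k0 _ (hP.xs _ _ e2 d2 k.1))
      · exact (k1 e4 d4).elim
      · exact (k2 e4 d4).elim
      · exact (k1 d4 e4).elim
      · exact ⟨gen_pos h (k4 d4 e4), d1.trans e1.symm⟩
      · exact (k3 e4 d4).elim
      · exact (k2 d4 e4).elim
      · exact (k3 d4 e4).elim
      · exact ⟨gen_pos h (k5 d4 e4), d1.trans e1.symm⟩
    · change f ≠ Q.σ (Q.σ e)
      rcases hVE hv with ⟨e1, -, -, e2, -⟩ | ⟨e1, e2, -⟩ | ⟨e1, e2, -⟩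
      · rwa [e1, hb]
      · exact fun k => e2 (inj (k.symm.trans (e1.trans ha.symm)))
      · exact fun k => e2 (inj (k.symm.trans (e1.trans hm.symm)))
    · change Q.σ f ≠ e
      rcases hVE hv with ⟨e1, -, e2, -⟩ | ⟨e1, -, e2, -⟩ | ⟨e1, -, e2, -⟩
      · exact fun k => e2 (inj (k.trans ((inj (e1.trans hm.symm)).trans ha.symm)))
      · exact fun k => e2 (by rw [← k, e1, hm, hb])
      · exact fun k => e2 (by rw [← k, e1, hb])
    · obtain ⟨n, f₀, g₀, d1, -, d2⟩ := hTP ht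
      rcases hVE hv with ⟨-, -, -, -, -, e4⟩ | ⟨-, -, -, e4⟩ | ⟨-, -, -, e4⟩ <;>
        rcases d2 with ⟨-, d2⟩ | ⟨-, d2⟩
      · exact k1 e4 d2
      · exact k2 e4 d2
      · exact pos_xp h _ d1 (k4 e4 d2)
      · exact k3 e4 d2
      · exact k3 d2 e4
      · exact pos_xp h _ d1 (k5 e4 d2)
  have hV : ∀ v f, ¬ VE (upd Q m x) v f := fun v f k => hV ⟨v, f, k⟩
  by_cases hT : ∃ e f g, TP (upd Q m x) e f g
  · obtain ⟨e, f, g, ht⟩ := hT
    refine loc_tp T hE hV ht fun e' f' g' ht' => ?_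
    obtain ⟨n, f₀, g₀, e1, e2, e3⟩ := hTP ht
    obtain ⟨n', f₁, g₁, d1, d2, d3⟩ := hTP ht'
    have k : n' = n ∧ Pr (Q.pt f₁ (Q.tt f₁ g₁)) (Q.pt f₀ (Q.tt f₀ g₀)) := by
      rcases e3 with ⟨e3, e4⟩ | ⟨e3, e4⟩ <;> rcases d3 with ⟨d3, d4⟩ | ⟨d3, d4⟩
      · exact ⟨d3.trans e3.symm, k4 d4 e4⟩
      · exact (k3 e4 d4).elim
      · exact (k3 d4 e4).elim
      · exact ⟨d3.trans e3.symm, k5 d4 e4⟩
    have k' : ({e', f', g'} : Set ι) = {e, f, g} := by
      rw [d2, e2, k.1]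
      rcases xp_xp h d1 e1 k.2 with ⟨rfl, rfl⟩ | ⟨rfl, rfl⟩
      · rfl
      · rw [pair_comm]
    exact ⟨k'.subset (Or.inl rfl), k'.subset (Or.inr (Or.inl rfl)),
      k'.subset (Or.inr (Or.inr rfl))⟩
  · exact gen_loc T (gen_of_noVE hE hV fun e f g k => hT ⟨e, f, g, k⟩)

end K1

end Pool.Agent.Lib.MP_4d7d0a_gt
end

-- part Pool.Agent.Lib.MP_4d7d0a_gt.K1M
section

/-! The invariant along paths. -/

set_option autoImplicit false

open Set Filter Topology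

namespace Pool.Agent.Lib.MP_4d7d0a_gt

namespace K1

open PAdm (Pr dir pt_eq pt_zero pt_one cr_det tt_eq cr_param cr_pr cr_mem cr_symm pr_symm coin0
  coin dir_ne not_cr not_cr')

variable {ι : Type}

variable {P : PG ι}

theorem vv_gen (T : ODTheory) [Finite ι] (h : P.Gen) (q : ℤ) : VV T P q ↔ T.V P.od q := by
  constructor
  · intro hV
    obtain ⟨p, hp1, hp2⟩ := (Filter.Eventually.and hV (gen_near T h)).exists
    exact (hp2.2 q).2 (hp1 hp2.1)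
  · intro hV
    exact (gen_near T h).mono fun p hp _ => (hp.2 q).1 hV

theorem vv_loc (T : ODTheory) [Finite ι] (h : P.Emb) (hL : Loc T P) (q : ℤ) :
    ∀ᶠ p in 𝓝 P.pos, VV T (mv P p) q ↔ VV T P q := by
  obtain ⟨U, hU, hE⟩ := hL
  have key : ∀ p, U ∈ 𝓝 p → (mv P p).Emb →
      (VV T (mv P p) q ↔ ∃ p' ∈ U, (mv P p').Gen ∧ T.V (mv P p').od q) := by
    intro p hp hemb
    constructor
    · intro hV
      have h1 : ∀ᶠ p' in 𝓝 p, p' ∈ U ∧ ((mv P p').Gen → T.V (mv P p').od q) :=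
        Filter.Eventually.and hp hV
      obtain ⟨p', h2, h3⟩ := (hemb.frequently.and_eventually h1).exists
      exact ⟨p', h3.1, h2.1, h3.2 h2.1⟩
    · rintro ⟨p', h1, h2, h3⟩
      exact Filter.Eventually.mono hp fun p'' h4 h5 => (hE p' h1 p'' h4 h2 h5 q).1 h3
  have h0 := key P.pos hU h
  filter_upwards [eventually_mem_nhds_iff.2 hU, h.eventually] with p h1 h2
  exact (key p h1 h2).trans h0.symm

theorem vv_path (T : ODTheory) [Finite ι] (σ : Equiv.Perm ι) (pos : ℝ → ι → P3) (q : ℤ)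
    (hc : ∀ v, ContinuousOn (fun s => pos s v) (Icc 0 1))
    (hE : ∀ s ∈ Icc (0 : ℝ) 1, (⟨σ, pos s⟩ : PG ι).Emb)
    (hL : ∀ s ∈ Icc (0 : ℝ) 1, Loc T (⟨σ, pos s⟩ : PG ι)) :
    VV T (⟨σ, pos 0⟩ : PG ι) q ↔ VV T (⟨σ, pos 1⟩ : PG ι) q := by
  have hc' : ContinuousOn pos (Icc 0 1) := continuousOn_pi.2 hc
  refine IsPreconnected.induction₂' isPreconnected_Icc
    (fun s t => VV T (⟨σ, pos s⟩ : PG ι) q ↔ VV T (⟨σ, pos t⟩ : PG ι) q) ?_ ?_
    (left_mem_Icc.2 zero_le_one) (right_mem_Icc.2 zero_le_one)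
  · intro s hs
    have h1 := (hc' s hs).eventually (vv_loc T (hE s hs) (hL s hs) q)
    exact h1.mono fun t ht => ⟨ht.symm, ht⟩
  · intro s t u _ _ _ h1 h2
    exact h1.trans h2

theorem m_between {A B u v s : ℝ} (hs : s ∈ Icc (0 : ℝ) 1) (h1 : A < u) (h2 : A < v)
    (h3 : u < B) (h4 : v < B) : A < u + s * (v - u) ∧ u + s * (v - u) < B := by
  rcases le_total u v with h | h
  · have k1 := mul_nonneg hs.1 (sub_nonneg.2 h)
    have k2 := mul_nonneg (sub_nonneg.2 hs.2) (sub_nonneg.2 h)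
    constructor <;> nlinarith
  · have k1 := mul_nonneg hs.1 (sub_nonneg.2 h)
    have k2 := mul_nonneg (sub_nonneg.2 hs.2) (sub_nonneg.2 h)
    constructor <;> nlinarith

theorem move_path (T : ODTheory) [Finite ι] {Q : PG ι} (h : Q.Gen) {j a m b : ι} (ha : Q.σ j = a)
    (hm : Q.σ a = m) (hb : Q.σ m = b) {S : Set P3} (hS : S.Finite) (hP : Piv Q a m b S)
    {c : ℝ × ℝ} {x : P3} (l1 : Lf c (Q.pos j) < Lf c (Q.pos a))
    (l2 : Lf c (Q.pos a) < Lf c (Q.pos m)) (l2' : Lf c (Q.pos a) < Lf c x)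
    (l3 : Lf c (Q.pos m) < Lf c (Q.pos b)) (l3' : Lf c x < Lf c (Q.pos b))
    (l4 : Lf c (Q.pos b) < Lf c (Q.pos (Q.σ b)))
    (hE : ∀ s ∈ Icc (0 : ℝ) 1, (upd Q m (AffineMap.lineMap (Q.pos m) x s)).Emb)
    (hx : (upd Q m x).Gen) : Eqv T Q (upd Q m x) := by
  have c1 : Continuous fun w : (P3 × P3) × ℝ => (AffineMap.lineMap w.1.1 w.1.2 w.2 : P3) := by
    simp only [PBA.lm]
    fun_prop
  have e1 : ∀ᶠ z : P3 × P3 in 𝓝 (Q.pos m, x), ∀ s ∈ Icc (0 : ℝ) 1,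
      (upd Q m (AffineMap.lineMap z.1 z.2 s)).Emb := by
    refine isCompact_Icc.eventually_forall_of_forall_eventually fun s hs => ?_
    exact (((upd_cont Q m).comp c1).tendsto ((Q.pos m, x), s)).eventually (hE s hs).eventually
  have f1 : Continuous fun z : P3 × P3 => Lf c z.1 := (lf_cont c).comp continuous_fst
  have f2 : Continuous fun z : P3 × P3 => Lf c z.2 := (lf_cont c).comp continuous_snd
  have e2 : ∀ᶠ z : P3 × P3 in 𝓝 (Q.pos m, x), Lf c (Q.pos a) < Lf c z.1 :=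
    continuous_const.continuousAt.eventually_lt f1.continuousAt l2
  have e3 : ∀ᶠ z : P3 × P3 in 𝓝 (Q.pos m, x), Lf c (Q.pos a) < Lf c z.2 :=
    continuous_const.continuousAt.eventually_lt f2.continuousAt l2'
  have e4 : ∀ᶠ z : P3 × P3 in 𝓝 (Q.pos m, x), Lf c z.1 < Lf c (Q.pos b) :=
    f1.continuousAt.eventually_lt continuous_const.continuousAt l3
  have e5 : ∀ᶠ z : P3 × P3 in 𝓝 (Q.pos m, x), Lf c z.2 < Lf c (Q.pos b) :=
    f2.continuousAt.eventually_lt continuous_const.continuousAt l3'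
  have e6 : ∀ᶠ z : P3 × P3 in 𝓝 (Q.pos m, x), (upd Q m z.1).Gen ∧ Eqv T Q (upd Q m z.1) := by
    have h1 := ((upd_cont Q m).comp (continuous_fst (Y := P3))).tendsto (Q.pos m, x)
    have h2 : (upd Q m (Q.pos m)).pos = Q.pos := by rw [upd_self]
    simp only [Function.comp_def, h2] at h1
    exact h1.eventually (gen_near T h)
  have e7 : ∀ᶠ z : P3 × P3 in 𝓝 (Q.pos m, x),
      (upd Q m z.2).Gen ∧ Eqv T (upd Q m x) (upd Q m z.2) :=
    (((upd_cont Q m).comp (continuous_snd (X := P3))).tendsto (Q.pos m, x)).eventually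
      (gen_near T hx)
  have hd := path_gen ((hS.insert (Q.pos b)).insert (Q.pos a))
  obtain ⟨z, hz, z1, z2, z3, z4, z5, z6, z7⟩ :=
    ((mem_closure_iff_frequently.1 (hd (Q.pos m, x))).and_eventually
      (e1.and (e2.and (e3.and (e4.and (e5.and (e6.and e7))))))).exists
  have key : ∀ q, VV T (upd Q m z.1) q ↔ VV T (upd Q m z.2) q := by
    intro q
    have c2 : Continuous fun s : ℝ => (AffineMap.lineMap z.1 z.2 s : P3) :=
      AffineMap.lineMap_continuous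
    have h1 := vv_path T Q.σ (fun s => (upd Q m (AffineMap.lineMap z.1 z.2 s)).pos) q
      (fun v => ((continuous_apply v).comp ((upd_cont Q m).comp c2)).continuousOn) z1
      (fun s hs => loc_fix T h ha hm hb hP l1 (by rw [lf_lm]; exact (m_between hs z2 z3 z4 z5).1)
        (by rw [lf_lm]; exact (m_between hs z2 z3 z4 z5).2) l4 (z1 s hs) (hz s))
    simp only [AffineMap.lineMap_apply_zero, AffineMap.lineMap_apply_one] at h1
    exact h1
  intro q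
  rw [z6.2 q, z7.2 q, ← vv_gen T z6.1, ← vv_gen T z7.1]
  exact key q

end K1

end Pool.Agent.Lib.MP_4d7d0a_gt
end

-- part Pool.Agent.Lib.MP_4d7d0a_gt.K1H
section

/-! The triangle move. -/

set_option autoImplicit false

open Set Filter Topology

namespace Pool.Agent.Lib.MP_4d7d0a_gt

namespace K1

open PAdm (Pr dir pt_eq pt_zero pt_one cr_det tt_eq cr_param cr_pr cr_mem cr_symm pr_symm coin0
  coin dir_ne not_cr not_cr')

variable {ι : Type}

variable {P : PG ι}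

/-- a linear function increasing from `A` over `C` to `B` -/
theorem exists_lf {A B C : P3} (hD : det2 (B - A) (C - A) ≠ 0) :
    ∃ c : ℝ × ℝ, ∀ β γ : ℝ, Lf c (A + β • (B - A) + γ • (C - A)) = Lf c A + β + γ / 2 := by
  refine ⟨(((C - A).2.2 - (B - A).2.2 / 2) / det2 (B - A) (C - A),
    ((B - A).1 / 2 - (C - A).1) / det2 (B - A) (C - A)), fun β γ => ?_⟩
  generalize B - A = u at hD ⊢
  generalize C - A = w at hD ⊢
  simp only [Lf, Prod.fst_add, Prod.snd_add, Prod.smul_fst, Prod.smul_snd, smul_eq_mul]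
  have h1 : det2 u w = u.1 * w.2.2 - u.2.2 * w.1 := rfl
  generalize det2 u w = D at hD h1 ⊢
  field_simp
  rw [h1]
  ring

theorem h_memA (A B C : P3) : A ∈ Tri A B C := ⟨0, 0, le_rfl, le_rfl, by norm_num, by simp⟩

theorem h_memB (A B C : P3) : B ∈ Tri A B C := ⟨1, 0, zero_le_one, le_rfl, by norm_num, by simp⟩

theorem h_memC (A B C : P3) : C ∈ Tri A B C := ⟨0, 1, le_rfl, zero_le_one, by norm_num, by simp⟩

theorem h_lfB {A B C : P3} {c : ℝ × ℝ}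
    (hc : ∀ β γ : ℝ, Lf c (A + β • (B - A) + γ • (C - A)) = Lf c A + β + γ / 2) :
    Lf c B = Lf c A + 1 := by
  simpa using hc 1 0

theorem h_lfC {A B C : P3} {c : ℝ × ℝ}
    (hc : ∀ β γ : ℝ, Lf c (A + β • (B - A) + γ • (C - A)) = Lf c A + β + γ / 2) :
    Lf c C = Lf c A + 1 / 2 := by
  simpa using hc 0 1

theorem h_mid {x y z s : ℝ} (hs : s ∈ Icc (0 : ℝ) 1) :
    (z < x → z < y → z < x + s * (y - x)) ∧ (x < z → y < z → x + s * (y - x) < z) := by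
  rcases le_total x y with h | h
  · have h1 := mul_nonneg hs.1 (sub_nonneg.2 h)
    have h2 := mul_nonneg (sub_nonneg.2 hs.2) (sub_nonneg.2 h)
    exact ⟨fun _ _ => by linarith, fun _ _ => by linarith⟩
  · have h1 := mul_nonneg hs.1 (sub_nonneg.2 h)
    have h2 := mul_nonneg (sub_nonneg.2 hs.2) (sub_nonneg.2 h)
    exact ⟨fun _ _ => by linarith, fun _ _ => by linarith⟩

theorem h_free {e : ι} {C : P3} (hT : TF P e C) {c : ℝ × ℝ}
    (hB : Lf c (P.pos (P.σ e)) = Lf c (P.pos e) + 1) :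
    Free P e (Tri (P.pos e) (P.pos (P.σ e)) C) c :=
  ⟨h_memA _ _ _, h_memB _ _ _, by linarith, fun g hg u hu hK => Or.inr (by rw [hT g hg u hu hK])⟩

theorem h_next (e : ι) (y a : P3) :
    (ins (ins P e y) (some e) a).σ (some none) = some (some (P.σ e)) := by
  rw [ins_ne _ _ (by simp), ins_none]

theorem h_emb1 (hE : P.Emb) {e : ι} {K : Set P3} {c : ℝ × ℝ} (hK : Convex ℝ K)
    (hF : Free P e K c) {y a : P3} (hy : y ∈ K) (ha : a ∈ K) (h0 : Lf c (P.pos e) < Lf c a)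
    (h1 : Lf c a < Lf c y) (h2 : Lf c y < Lf c (P.pos (P.σ e))) :
    (ins (ins P e y) (some e) a).Emb ∧ Free (ins (ins P e y) (some e) a) (some none) K c := by
  obtain ⟨e1, f1, f2, -⟩ := ins_free hE hK hF hy (h0.trans h1) h2
  obtain ⟨e2, -, -, f3⟩ := ins_free e1 hK f1 ha h0 (by rw [ins_e]; exact h1)
  exact ⟨e2, f3 none (by simp) f2 (by rw [ins_e])⟩

theorem h_emb2 (hE : P.Emb) {e : ι} {K : Set P3} {c : ℝ × ℝ} (hK : Convex ℝ K)
    (hF : Free P e K c) {y a b : P3} (hy : y ∈ K) (ha : a ∈ K) (hb : b ∈ K)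
    (h0 : Lf c (P.pos e) < Lf c a) (h1 : Lf c a < Lf c y) (h2 : Lf c y < Lf c b)
    (h3 : Lf c b < Lf c (P.pos (P.σ e))) :
    (ins (ins (ins P e y) (some e) a) (some none) b).Emb := by
  obtain ⟨e2, f3⟩ := h_emb1 hE hK hF hy ha h0 h1 (h2.trans h3)
  exact (ins_free e2 hK f3 hb h2 (by rw [h_next]; exact h3)).1

theorem h_upd (e : ι) (y y' a b : P3) :
    upd (ins (ins (ins P e y) (some e) a) (some none) b) (some (some none)) y' =
      ins (ins (ins P e y') (some e) a) (some none) b := by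
  rw [upd_ins_some, upd_ins_some, upd_ins_none]

theorem h_piv (R : PG (Option ι)) {e : ι} (he : R.σ (some e) = none) {a b : P3}
    (ha : ∀ g, ¬ (ins R (some e) a).Cr (some (some e)) g)
    (hb : ∀ g, ¬ (ins (ins R (some e) a) (some none) b).Cr none g) (oa : OffS (Spt R) a)
    (ob : OffS (insert a (Spt R)) b) :
    Piv (ins (ins R (some e) a) (some none) b) (some none) (some (some none)) none (Spt R) := by
  have hm : (ins (ins R (some e) a) (some none) b).σ (some none) = some (some none) := by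
    rw [ins_ne _ _ (by simp), ins_none, he]
  refine ⟨fun v h1 h2 h3 => ?_, fun f g hf hg hc => ?_, oa, ob⟩
  · rcases v with _ | _ | v
    · exact absurd rfl h3
    · exact absurd rfl h1
    · exact pos_spt R v
  · rcases f with _ | _ | f
    · exact absurd hc (hb _)
    · exact absurd hm hf.2
    rcases g with _ | _ | g
    · exact absurd (cr_symm hc) (hb _)
    · exact absurd hm hg.2
    have f1 : some f ≠ some none := fun h => hf.1 (congrArg some h)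
    have g1 : some g ≠ some none := fun h => hg.1 (congrArg some h)
    rw [ins_cr _ _ f1 g1] at hc
    have f2 : f ≠ some e := fun h => ha _ (h ▸ hc)
    have g2 : g ≠ some e := fun h => ha _ (h ▸ cr_symm hc)
    rw [ins_tt _ _ f1 g1, ins_pt _ _ f1, ins_tt _ _ f2 g2, ins_pt _ _ f2]
    exact xp_spt R f g

theorem emb_tri (hE : P.Emb) {e : ι} {C : P3}
    (hD : det2 (P.pos (P.σ e) - P.pos e) (C - P.pos e) ≠ 0) (hT : TF P e C) :
    (ins P e C).Emb := by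
  obtain ⟨c, hc⟩ := exists_lf hD
  have hB := h_lfB hc
  have hC := h_lfC hc
  exact (ins_free hE (tri_convex _ _ _) (h_free hT hB) (h_memC _ _ _) (by linarith)
    (by linarith)).1

theorem delta (T : ODTheory) [Finite ι] (h : P.Gen) {e : ι} {C : P3}
    (hD : det2 (P.pos (P.σ e) - P.pos e) (C - P.pos e) ≠ 0) (hT : TF P e C)
    (hC : (ins P e C).Gen) : Eqv T P (ins P e C) := by
  obtain ⟨c, hc⟩ := exists_lf hD
  have lB := h_lfB hc
  have lC := h_lfC hc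
  have hF := h_free hT lB
  have hK := tri_convex (P.pos e) (P.pos (P.σ e)) C
  have kC := h_memC (P.pos e) (P.pos (P.σ e)) C
  obtain ⟨l, hl, hn⟩ := exists_l P e (Ioo_mem_nhds (show (0 : ℝ) < 1 / 2 by norm_num)
    (show (1 / 2 : ℝ) < 1 by norm_num))
  have E0 := (subd T h.wf e (Ioo_subset_Icc_self hl) fun g _ => hn g).2
  have hM := gen_sub h e hl fun g _ => hn g
  have lM : Lf c (P.pt e l) = Lf c (P.pos e) + l := by
    rw [PG.pt, lf_lm, lB]
    ring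
  have kM : P.pt e l ∈ Tri (P.pos e) (P.pos (P.σ e)) C :=
    hK.lineMap_mem (h_memA _ _ _) (h_memB _ _ _) (Ioo_subset_Icc_self hl)
  generalize P.pt e l = M at E0 hM lM kM
  obtain ⟨SM, fM, gM⟩ := gen_ins hM (some e)
  obtain ⟨SC, fC, gC⟩ := gen_ins hC (some e)
  have N0 := ((ins0 T hM (some e)).and (ins0 T hC (some e))).and
    (((lf_cont c).continuousAt.eventually_lt continuousAt_const
      (show Lf c (P.pos e) < Lf c M by linarith [hl.1])).and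
    ((lf_cont c).continuousAt.eventually_lt continuousAt_const
      (show Lf c (P.pos e) < Lf c C by linarith)))
  obtain ⟨β, γ, b0, g0, bg, ⟨⟨⟨a1, a2⟩, -, a3⟩, a4, a5⟩, oa⟩ :=
    pick hD (((spt_finite (ins P e M)).union fM).union fC) (l := 0) ⟨le_rfl, zero_le_one⟩
      (by rw [zero_smul, add_zero]; exact N0)
  have la := hc β γ
  have ka : P.pos e + β • (P.pos (P.σ e) - P.pos e) + γ • (C - P.pos e) ∈
      Tri (P.pos e) (P.pos (P.σ e)) C := ⟨β, γ, b0.le, g0.le, bg.le, rfl⟩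
  generalize P.pos e + β • (P.pos (P.σ e) - P.pos e) + γ • (C - P.pos e) = a at *
  have l1 : Lf c (P.pos e) < Lf c a := by linarith
  have hM1 := gM a (oa.mono fun _ hx => Or.inl (Or.inr hx))
    (h_emb1 h.1 hK hF kM ka l1 a4 (by linarith [hl.2])).1
  have hC1 := gC a (oa.mono fun _ hx => Or.inr hx)
    (h_emb1 h.1 hK hF kC ka l1 a5 (by linarith)).1
  obtain ⟨SM', fM', gM'⟩ := gen_ins hM1 (some none)
  obtain ⟨SC', fC', gC'⟩ := gen_ins hC1 (some none)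
  have n1 := ins1 T hM1 (some none)
  have n2 := ins1 T hC1 (some none)
  rw [h_next] at n1 n2
  have N1 := (n1.and n2).and
    ((continuousAt_const.eventually_lt (lf_cont c).continuousAt
      (show Lf c M < Lf c (P.pos (P.σ e)) by linarith [hl.2])).and
    (continuousAt_const.eventually_lt (lf_cont c).continuousAt
      (show Lf c C < Lf c (P.pos (P.σ e)) by linarith)))
  obtain ⟨β', γ', b0', g0', bg', ⟨⟨⟨b1, b2⟩, -, b3⟩, b4, b5⟩, ob⟩ :=
    pick hD ((((spt_finite (ins P e M)).insert a).union fM').union fC') (l := 1)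
      ⟨zero_le_one, le_rfl⟩ (by rw [one_smul, add_sub_cancel]; exact N1)
  have lb := hc β' γ'
  have kb : P.pos e + β' • (P.pos (P.σ e) - P.pos e) + γ' • (C - P.pos e) ∈
      Tri (P.pos e) (P.pos (P.σ e)) C := ⟨β', γ', b0'.le, g0'.le, bg'.le, rfl⟩
  generalize P.pos e + β' • (P.pos (P.σ e) - P.pos e) + γ' • (C - P.pos e) = b at *
  have l4 : Lf c b < Lf c (P.pos (P.σ e)) := by linarith
  have hM2 := gM' b (ob.mono fun _ hx => Or.inl (Or.inr hx))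
    (h_emb2 h.1 hK hF kM ka kb l1 a4 b4 l4)
  have hC2 := gC' b (ob.mono fun _ hx => Or.inr hx) (h_emb2 h.1 hK hF kC ka kb l1 a5 b5 l4)
  have mv := move_path T hM2 (j := some (some (some e))) (a := some none)
    (m := some (some none)) (b := none) (by rw [ins_ne _ _ (by simp), ins_e])
    (by rw [ins_ne _ _ (by simp), ins_none, ins_e]) (ins_e _ _ _) (spt_finite (ins P e M))
    (h_piv _ (ins_e _ _ _) a1 b1 (oa.mono fun _ hx => Or.inl (Or.inl hx))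
      (ob.mono fun _ hx => Or.inl (Or.inl hx))) (c := c) (x := C) l1 a4 a5 b4 b5
    (by rw [ins_none, h_next]; exact l4) (fun s hs => by
      rw [h_upd]
      change (ins (ins (ins P e (AffineMap.lineMap M C s)) (some e) a) (some none) b).Emb
      refine h_emb2 h.1 hK hF (hK.lineMap_mem kM kC hs) ka kb l1 ?_ ?_ l4
      · rw [lf_lm]
        exact (h_mid hs).1 a4 a5
      · rw [lf_lm]
        exact (h_mid hs).2 b4 b5) (by rw [h_upd]; exact hC2)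
  rw [h_upd] at mv
  exact E0.trans ((a2 hM1).trans ((b2 hM2).trans (mv.trans ((b3 hC2).symm.trans (a3 hC1).symm))))

end K1

end Pool.Agent.Lib.MP_4d7d0a_gt
end
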