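import Pool.Agent.Lib.MP_4d7d0a_gt.K2Flip

-- part Pool.Agent.Lib.MP_4d7d0a_gt.K2Stab
section

/-! Part K2: embeddings are stable under Lipschitz-small perturbations. -/

set_option autoImplicit false

open Set Filter Topology

namespace Pool.Agent.Lib.MP_4d7d0a_gt

namespace K2

namespace StabAux

theorem exists_fun {p q : P3} (h : (0 : P3) ∉ segment ℝ p q) :
    ∃ l : P3 →L[ℝ] ℝ, 0 < l p ∧ 0 < l q := by
  have hc : IsClosed (segment ℝ p q) := by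
    rw [segment_eq_image]
    exact (isCompact_Icc.image (by fun_prop)).isClosed
  obtain ⟨l, u, h1, h2⟩ := geometric_hahn_banach_point_closed (convex_segment p q) hc h
  rw [map_zero] at h1
  exact ⟨l, h1.trans (h2 _ (left_mem_segment ℝ p q)), h1.trans (h2 _ (right_mem_segment ℝ p q))⟩

theorem not_mem_seg {p q : P3} (hp : p ≠ 0) (hq : q ≠ 0) (h : ∀ r : ℝ, 0 < r → p ≠ -(r • q)) :
    (0 : P3) ∉ segment ℝ p q := by
  rintro ⟨a, b, ha, hb, hab, e⟩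
  rcases ha.eq_or_lt with h1 | h1
  · rw [← h1, zero_add] at hab
    rw [← h1, hab, zero_smul, zero_add, one_smul] at e
    exact hq e
  rcases hb.eq_or_lt with h2 | h2
  · rw [← h2, add_zero] at hab
    rw [← h2, hab, zero_smul, add_zero, one_smul] at e
    exact hp e
  refine h (a⁻¹ * b) (by positivity) ?_
  rw [mul_smul, ← smul_neg, ← eq_neg_of_add_eq_zero_left e, smul_smul, inv_mul_cancel₀ h1.ne',
    one_smul]

theorem mono_loc {c d : ℝ → P3} (hc : ∀ u ∈ Icc (0 : ℝ) 1, HasDerivWithinAt c (d u) (Icc 0 1) u)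
    (hd : ContinuousOn d (Icc 0 1)) (l : P3 →L[ℝ] ℝ) {u₀ : ℝ} (h0 : u₀ ∈ Icc (0 : ℝ) 1)
    (hl : 0 < l (d u₀)) : ∃ δ : ℝ, 0 < δ ∧ ∀ ε : ℝ, ε < δ → ∀ g : ℝ → P3,
      (∀ u ∈ Icc (0 : ℝ) 1, ∀ u' ∈ Icc (0 : ℝ) 1, ‖(g u' - g u) - (c u' - c u)‖ ≤ ε * |u' - u|) →
      ∀ u ∈ Icc (0 : ℝ) 1, ∀ u' ∈ Icc (0 : ℝ) 1, |u - u₀| < δ → |u' - u₀| < δ → u < u' →
        l (g u) < l (g u') := by
  have h1 : ContinuousWithinAt (fun u => l (d u)) (Icc 0 1) u₀ :=
    l.continuous.continuousAt.comp_continuousWithinAt (hd u₀ h0)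
  have h2 : ∀ᶠ u in 𝓝[Icc 0 1] u₀, l (d u₀) / 2 < l (d u) :=
    h1.eventually (lt_mem_nhds (half_lt_self hl))
  obtain ⟨δ, hδ, h3⟩ := Metric.mem_nhdsWithin_iff.1 h2
  have hn : 0 < ‖l‖ + 1 := by positivity
  refine ⟨min δ (l (d u₀) / 2 / (‖l‖ + 1)), by positivity, fun ε hε g hg u hu u' hu' a b huu => ?_⟩
  have a' := abs_lt.1 (a.trans_le (min_le_left _ _))
  have b' := abs_lt.1 (b.trans_le (min_le_left _ _))
  have hsub : Icc u u' ⊆ Icc (0 : ℝ) 1 := Icc_subset_Icc hu.1 hu'.2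
  obtain ⟨ξ, hξ, e⟩ := exists_hasDerivAt_eq_slope (fun t => l (c t)) (fun t => l (d t)) huu
    (l.continuous.comp_continuousOn fun t ht => (hc t (hsub ht)).continuousWithinAt.mono hsub)
    fun t ht => l.hasFDerivAt.comp_hasDerivAt t ((hc t (hsub (Ioo_subset_Icc_self ht))).hasDerivAt
      (Icc_mem_nhds (hu.1.trans_lt ht.1) (ht.2.trans_le hu'.2)))
  have h4 : l (d u₀) / 2 < l (d ξ) := h3 ⟨by
    rw [Metric.mem_ball, Real.dist_eq, abs_lt]
    constructor <;> linarith [hξ.1, hξ.2, a'.1, b'.2], hsub (Ioo_subset_Icc_self hξ)⟩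
  have hp : 0 < u' - u := sub_pos.2 huu
  rw [e, lt_div_iff₀ hp] at h4
  have h5 := l.le_opNorm ((g u' - g u) - (c u' - c u))
  have h6 := hg u hu u' hu'
  rw [abs_of_pos hp] at h6
  rw [Real.norm_eq_abs, map_sub, map_sub, map_sub] at h5
  have h7 := (abs_le.1 (h5.trans (mul_le_mul_of_nonneg_left h6 (norm_nonneg l)))).1
  have h8 : ε * (‖l‖ + 1) < l (d u₀) / 2 := (lt_div_iff₀ hn).1 (hε.trans_le (min_le_right _ _))
  have h9 : 0 ≤ ε := nonneg_of_mul_nonneg_left ((norm_nonneg _).trans h6) hp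
  nlinarith [mul_lt_mul_of_pos_right h8 hp, mul_nonneg h9 hp.le]

theorem close_dist {ι : Type} {ε : ℝ} {c g : ι → ℝ → P3} (h : Close ε c g) (v : ι) {u : ℝ}
    (hu : u ∈ Icc (0 : ℝ) 1) : ‖g v u - c v u‖ ≤ 2 * ε := by
  have h1 := (h v).1
  have h2 := (h v).2 0 ⟨le_rfl, zero_le_one⟩ u hu
  rw [sub_zero, abs_of_nonneg hu.1] at h2
  have h3 : g v u - c v u = (g v u - g v 0 - (c v u - c v 0)) + (g v 0 - c v 0) := by abel
  have h4 : 0 ≤ ε := (norm_nonneg _).trans h1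
  rw [h3]
  refine (norm_add_le _ _).trans ?_
  nlinarith [mul_le_mul_of_nonneg_left hu.2 h4]

theorem ev_small {δ : ℝ} (hδ : 0 < δ) (a b : ℝ) :
    ∀ᶠ z : ℝ × ℝ × ℝ in 𝓝 (0, a, b), z.1 < δ ∧ |z.2.1 - a| < δ ∧ |z.2.2 - b| < δ := by
  filter_upwards [Metric.ball_mem_nhds ((0, a, b) : ℝ × ℝ × ℝ) hδ] with z hz
  rw [Metric.mem_ball, Prod.dist_eq, Prod.dist_eq, max_lt_iff, max_lt_iff, Real.dist_eq,
    Real.dist_eq, Real.dist_eq, sub_zero] at hz
  exact ⟨(abs_lt.1 hz.1).2, hz.2⟩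

variable {ι : Type} {L : CPL ι} {d : ι → ℝ → P3}

theorem vertex (h : L.EmbD d) (π : P3 →ₗ[ℝ] P3) (h1 : ∀ v, ∀ u ∈ Icc (0 : ℝ) 1, π (d v u) ≠ 0)
    (h2 : ∀ v, ∀ r : ℝ, 0 < r → π (d v 1) ≠ -(r • π (d (L.σ v) 0))) (v : ι) :
    ∃ δ : ℝ, 0 < δ ∧ ∀ ε : ℝ, ε < δ → ∀ g : ι → ℝ → P3, Close ε L.c g → g v 1 = g (L.σ v) 0 →
      ∀ u ∈ Ico (0 : ℝ) 1, ∀ u' ∈ Ico (0 : ℝ) 1, |u - 1| < δ → |u' - 0| < δ →
        π (g v u) ≠ π (g (L.σ v) u') := by
  have z : (0 : ℝ) ∈ Icc (0 : ℝ) 1 := ⟨le_rfl, zero_le_one⟩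
  have o : (1 : ℝ) ∈ Icc (0 : ℝ) 1 := ⟨zero_le_one, le_rfl⟩
  obtain ⟨l, l1, l2⟩ := exists_fun (not_mem_seg (h1 v 1 o) (h1 _ 0 z) (h2 v))
  obtain ⟨δ, hδ, a⟩ := mono_loc (fun u hu => (h.1 v u hu).1) (h.2.1 v)
    (l.comp (LinearMap.toContinuousLinearMap π)) o l1
  obtain ⟨δ', hδ', b⟩ := mono_loc (fun u hu => (h.1 (L.σ v) u hu).1) (h.2.1 _)
    (l.comp (LinearMap.toContinuousLinearMap π)) z l2
  refine ⟨min δ δ', lt_min hδ hδ', fun ε hε g hg hc u hu u' hu' a1 b1 e => ?_⟩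
  have a2 : l (π (g v u)) < l (π (g v 1)) :=
    a ε (hε.trans_le (min_le_left _ _)) _ (hg v).2 u (Ico_subset_Icc_self hu) 1 o
      (a1.trans_le (min_le_left _ _)) (by simpa using hδ) hu.2
  rw [e, hc] at a2
  rcases hu'.1.eq_or_lt with h3 | h3
  · rw [h3] at a2
    exact lt_irrefl _ a2
  · have b2 : l (π (g (L.σ v) 0)) < l (π (g (L.σ v) u')) :=
      b ε (hε.trans_le (min_le_right _ _)) _ (hg _).2 0 z u' (Ico_subset_Icc_self hu')
        (by simpa using hδ') (b1.trans_le (min_le_right _ _)) h3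
    exact lt_asymm a2 b2

theorem same (h : L.EmbD d) (π : P3 →ₗ[ℝ] P3) (h1 : ∀ v, ∀ u ∈ Icc (0 : ℝ) 1, π (d v u) ≠ 0)
    (v : ι) {u₀ : ℝ} (h0 : u₀ ∈ Icc (0 : ℝ) 1) :
    ∃ δ : ℝ, 0 < δ ∧ ∀ ε : ℝ, ε < δ → ∀ g : ι → ℝ → P3, Close ε L.c g →
      ∀ u ∈ Ico (0 : ℝ) 1, ∀ u' ∈ Ico (0 : ℝ) 1, |u - u₀| < δ → |u' - u₀| < δ →
        π (g v u) = π (g v u') → u = u' := by
  obtain ⟨l, l1, -⟩ := exists_fun (p := π (d v u₀)) (q := π (d v u₀)) (by
    rw [segment_same]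
    exact fun h3 => h1 v u₀ h0 (mem_singleton_iff.1 h3).symm)
  obtain ⟨δ, hδ, a⟩ := mono_loc (fun u hu => (h.1 v u hu).1) (h.2.1 v)
    (l.comp (LinearMap.toContinuousLinearMap π)) h0 l1
  refine ⟨δ, hδ, fun ε hε g hg u hu u' hu' a1 b1 e => ?_⟩
  rcases lt_trichotomy u u' with h3 | h3 | h3
  · have a2 : l (π (g v u)) < l (π (g v u')) :=
      a ε hε _ (hg v).2 u (Ico_subset_Icc_self hu) u' (Ico_subset_Icc_self hu') a1 b1 h3
    rw [e] at a2
    exact (lt_irrefl _ a2).elim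
  · exact h3
  · have a2 : l (π (g v u')) < l (π (g v u)) :=
      a ε hε _ (hg v).2 u' (Ico_subset_Icc_self hu') u (Ico_subset_Icc_self hu) b1 a1 h3
    rw [e] at a2
    exact (lt_irrefl _ a2).elim

theorem far (h : L.EmbD d) {v w : ι} {a b : ℝ} (ha : a ∈ Icc (0 : ℝ) 1) (hb : b ∈ Icc (0 : ℝ) 1)
    (hne : L.c v a ≠ L.c w b) :
    ∃ δ : ℝ, 0 < δ ∧ ∀ ε : ℝ, ε < δ → ∀ g : ι → ℝ → P3, Close ε L.c g →
      ∀ u ∈ Icc (0 : ℝ) 1, ∀ u' ∈ Icc (0 : ℝ) 1, |u - a| < δ → |u' - b| < δ →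
        ε < ‖g v u - g w u'‖ := by
  have hρ : 0 < ‖L.c v a - L.c w b‖ / 7 := div_pos (norm_pos_iff.2 (sub_ne_zero.2 hne)) (by norm_num)
  obtain ⟨δ, hδ, a1⟩ := Metric.continuousWithinAt_iff.1 (h.1 v a ha).1.continuousWithinAt _ hρ
  obtain ⟨δ', hδ', b1⟩ := Metric.continuousWithinAt_iff.1 (h.1 w b hb).1.continuousWithinAt _ hρ
  refine ⟨min (min δ δ') (‖L.c v a - L.c w b‖ / 7), by positivity,
    fun ε hε g hg u hu u' hu' a2 b2 => ?_⟩
  have a3 := a1 hu (a2.trans_le ((min_le_left _ _).trans (min_le_left _ _)))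
  have b3 := b1 hu' (b2.trans_le ((min_le_left _ _).trans (min_le_right _ _)))
  have a4 := close_dist hg v hu
  have b4 := close_dist hg w hu'
  have h5 := hε.trans_le (min_le_right _ _)
  rw [← dist_eq_norm] at a4 b4 h5 ⊢
  rw [← dist_eq_norm] at a3 b3
  have t1 := dist_triangle4 (L.c v a) (L.c v u) (g v u) (g w u')
  have t2 := dist_triangle4 (L.c v a) (g w u') (L.c w u') (L.c w b)
  rw [dist_comm] at a3 a4
  linarith

end StabAux

open StabAux in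
theorem stab {ι : Type} [Finite ι] {L : CPL ι} {d : ι → ℝ → P3} (h : L.EmbD d)
    (π : P3 →ₗ[ℝ] P3) (h1 : ∀ v, ∀ u ∈ Icc (0 : ℝ) 1, π (d v u) ≠ 0)
    (h2 : ∀ v, ∀ r : ℝ, 0 < r → π (d v 1) ≠ -(r • π (d (L.σ v) 0))) :
    ∃ ε : ℝ, 0 < ε ∧ ∀ g : ι → ℝ → P3, Close ε L.c g → (∀ v, g v 1 = g (L.σ v) 0) →
      ∀ v w, ∀ u ∈ Ico (0 : ℝ) 1, ∀ u' ∈ Ico (0 : ℝ) 1, π (g v u) = π (g w u') →
        ‖g v u - g w u'‖ ≤ ε → v = w ∧ u = u' := by
  have z : (0 : ℝ) ∈ Ico (0 : ℝ) 1 := ⟨le_rfl, zero_lt_one⟩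
  have key : ∀ v w, ∀ᶠ ε : ℝ in 𝓝 0, ∀ y ∈ Icc (0 : ℝ) 1 ×ˢ Icc (0 : ℝ) 1, ∀ g : ι → ℝ → P3,
      Close ε L.c g → (∀ v, g v 1 = g (L.σ v) 0) → y.1 ∈ Ico (0 : ℝ) 1 → y.2 ∈ Ico (0 : ℝ) 1 →
      π (g v y.1) = π (g w y.2) → ‖g v y.1 - g w y.2‖ ≤ ε → v = w ∧ y.1 = y.2 := by
    intro v w
    refine (isCompact_Icc.prod isCompact_Icc).eventually_forall_of_forall_eventually ?_
    rintro ⟨a, b⟩ ⟨ha, hb⟩
    have hs : v = w → a = b → ∀ᶠ z : ℝ × ℝ × ℝ in 𝓝 (0, a, b), ∀ g : ι → ℝ → P3,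
        Close z.1 L.c g → (∀ v, g v 1 = g (L.σ v) 0) → z.2.1 ∈ Ico (0 : ℝ) 1 →
        z.2.2 ∈ Ico (0 : ℝ) 1 → π (g v z.2.1) = π (g w z.2.2) → ‖g v z.2.1 - g w z.2.2‖ ≤ z.1 →
        v = w ∧ z.2.1 = z.2.2 := by
      rintro rfl rfl
      obtain ⟨δ, hδ, H⟩ := same h π h1 v ha
      filter_upwards [ev_small hδ a a] with z hz g hg _ hu hu' e _
      exact ⟨rfl, H _ hz.1 g hg _ hu _ hu' hz.2.1 hz.2.2 e⟩
    by_cases hne : L.c v a = L.c w b
    · rcases ha.2.eq_or_lt with a1 | a1 <;> rcases hb.2.eq_or_lt with b1 | b1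
      · change a = 1 at a1
        change b = 1 at b1
        rw [a1, b1, h.2.2.1, h.2.2.1] at hne
        exact hs (L.σ.injective (h.2.2.2.2 _ _ 0 z 0 z hne).1) (a1.trans b1.symm)
      · change a = 1 at a1
        rw [a1, h.2.2.1] at hne
        obtain ⟨rfl, rfl⟩ := h.2.2.2.2 _ _ 0 z b ⟨hb.1, b1⟩ hne
        obtain ⟨δ, hδ, H⟩ := vertex h π h1 h2 v
        rw [a1]
        filter_upwards [ev_small hδ 1 0] with z hz g hg hc hu hu' e _
        exact (H _ hz.1 g hg (hc v) _ hu _ hu' hz.2.1 hz.2.2 e).elim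
      · change b = 1 at b1
        rw [b1, h.2.2.1] at hne
        obtain ⟨rfl, rfl⟩ := h.2.2.2.2 _ _ a ⟨ha.1, a1⟩ 0 z hne
        obtain ⟨δ, hδ, H⟩ := vertex h π h1 h2 w
        rw [b1]
        filter_upwards [ev_small hδ 0 1] with z hz g hg hc hu hu' e _
        exact (H _ hz.1 g hg (hc w) _ hu' _ hu hz.2.2 hz.2.1 e.symm).elim
      · obtain ⟨e1, e2⟩ := h.2.2.2.2 _ _ a ⟨ha.1, a1⟩ b ⟨hb.1, b1⟩ hne
        exact hs e1 e2
    · obtain ⟨δ, hδ, H⟩ := far h ha hb hne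
      filter_upwards [ev_small hδ a b] with z hz g hg _ hu hu' _ e
      exact (e.not_gt (H _ hz.1 g hg _ (Ico_subset_Icc_self hu) _ (Ico_subset_Icc_self hu')
        hz.2.1 hz.2.2)).elim
  have key2 := eventually_all.2 fun v => eventually_all.2 fun w => key v w
  obtain ⟨ε, H, hε⟩ := ((key2.filter_mono nhdsWithin_le_nhds).and
    (self_mem_nhdsWithin (s := Ioi (0 : ℝ)) (a := 0))).exists
  exact ⟨ε, hε, fun g hg hc v w u hu u' hu' e1 e2 =>
    H v w (u, u') ⟨Ico_subset_Icc_self hu, Ico_subset_Icc_self hu'⟩ g hg hc hu hu' e1 e2⟩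

end K2

end Pool.Agent.Lib.MP_4d7d0a_gt
end

-- part Pool.Agent.Lib.MP_4d7d0a_gt.K2Om
section

/-! Part K2: the integer cocycle and its value at a crossing. -/

set_option autoImplicit false

open Set Filter Topology

namespace Pool.Agent.Lib.MP_4d7d0a_gt

namespace K2

namespace OmAux

open Classical in
/-- the crossing count in terms of the two heights and the determinant -/
noncomputable def w (x y c : ℝ) : ℤ :=
  if x < 0 ∧ 0 ≤ y ∧ 0 < c then 1 else if y < 0 ∧ 0 ≤ x ∧ c < 0 then -1 else 0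

theorem om_eq (p q : P3) : om p q = w p.2.2 q.2.2 (det2 p q) := rfl

theorem w_nn {x y : ℝ} (c : ℝ) (hx : x < 0) (hy : y < 0) : w x y c = 0 := by
  simp [w, hx.not_ge, hy.not_ge]

theorem w_pp {x y : ℝ} (c : ℝ) (hx : 0 ≤ x) (hy : 0 ≤ y) : w x y c = 0 := by
  simp [w, hx.not_gt, hy.not_gt]

open Classical in
theorem w_np {x y : ℝ} (c : ℝ) (hx : x < 0) (hy : 0 ≤ y) : w x y c = if 0 < c then 1 else 0 := by
  simp [w, hx, hy, hy.not_gt]

open Classical in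
theorem w_pn {x y : ℝ} (c : ℝ) (hx : 0 ≤ x) (hy : y < 0) : w x y c = if c < 0 then -1 else 0 := by
  simp [w, hx, hy, hx.not_gt]

theorem key1 {A B C x y z : ℝ} (e : A * x + B * y + C * z = 0)
    (h1 : 0 ≤ A → 0 ≤ B → 0 ≤ C → A + B + C ≤ 0) (h2 : A ≤ 0 → B ≤ 0 → C ≤ 0 → 0 ≤ A + B + C)
    (hx : x < 0) (hy : 0 ≤ y) (hz : 0 ≤ z) : w x y C + w y z A + w z x B = 0 := by
  rw [w_np _ hx hy, w_pp _ hy hz, w_pn _ hz hx]
  split_ifs with a b b
  · rfl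
  · have b := not_lt.1 b
    have : 0 ≤ A := by
      by_contra c
      nlinarith [mul_pos_of_neg_of_neg (not_le.1 c) hx, mul_nonneg b hy, mul_nonneg a.le hz]
    linarith [h1 this b a.le]
  · have a := not_lt.1 a
    have : A ≤ 0 := by
      by_contra c
      nlinarith [mul_neg_of_pos_of_neg (not_le.1 c) hx, mul_nonpos_of_nonpos_of_nonneg b.le hy,
        mul_nonpos_of_nonpos_of_nonneg a hz]
    linarith [h2 this b.le a]
  · rfl

theorem key2 {A B C x y z : ℝ} (e : A * x + B * y + C * z = 0)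
    (h1 : 0 ≤ A → 0 ≤ B → 0 ≤ C → A + B + C ≤ 0) (h2 : A ≤ 0 → B ≤ 0 → C ≤ 0 → 0 ≤ A + B + C)
    (hx : 0 ≤ x) (hy : y < 0) (hz : z < 0) : w x y C + w y z A + w z x B = 0 := by
  rw [w_pn _ hx hy, w_nn _ hy hz, w_np _ hz hx]
  split_ifs with a b b
  · rfl
  · have b := not_lt.1 b
    have : A ≤ 0 := by
      by_contra c
      nlinarith [mul_nonneg (not_le.1 c).le hx, mul_nonneg_of_nonpos_of_nonpos b hy.le,
        mul_pos_of_neg_of_neg a hz]
    linarith [h2 this b a.le]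
  · have a := not_lt.1 a
    have : 0 ≤ A := by
      by_contra c
      nlinarith [mul_nonpos_of_nonpos_of_nonneg (not_le.1 c).le hx, mul_neg_of_pos_of_neg b hy,
        mul_nonpos_of_nonneg_of_nonpos a hz.le]
    linarith [h1 this b.le a]
  · rfl

theorem tri {A B C x y z : ℝ} (e : A * x + B * y + C * z = 0)
    (h1 : 0 ≤ A → 0 ≤ B → 0 ≤ C → A + B + C ≤ 0) (h2 : A ≤ 0 → B ≤ 0 → C ≤ 0 → 0 ≤ A + B + C) :
    w x y C + w y z A + w z x B = 0 := by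
  have e' : B * y + C * z + A * x = 0 := by linarith
  have e'' : C * z + A * x + B * y = 0 := by linarith
  have h1' : 0 ≤ B → 0 ≤ C → 0 ≤ A → B + C + A ≤ 0 := fun b c a => by linarith [h1 a b c]
  have h2' : B ≤ 0 → C ≤ 0 → A ≤ 0 → 0 ≤ B + C + A := fun b c a => by linarith [h2 a b c]
  have h1'' : 0 ≤ C → 0 ≤ A → 0 ≤ B → C + A + B ≤ 0 := fun c a b => by linarith [h1 a b c]
  have h2'' : C ≤ 0 → A ≤ 0 → B ≤ 0 → 0 ≤ C + A + B := fun c a b => by linarith [h2 a b c]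
  rcases lt_or_ge x 0 with hx | hx <;> rcases lt_or_ge y 0 with hy | hy <;>
    rcases lt_or_ge z 0 with hz | hz
  · rw [w_nn _ hx hy, w_nn _ hy hz, w_nn _ hz hx]; rfl
  · linarith [key2 e'' h1'' h2'' hz hx hy]
  · linarith [key2 e' h1' h2' hy hz hx]
  · exact key1 e h1 h2 hx hy hz
  · exact key2 e h1 h2 hx hy hz
  · linarith [key1 e' h1' h2' hy hz hx]
  · linarith [key1 e'' h1'' h2'' hz hx hy]
  · rw [w_pp _ hx hy, w_pp _ hy hz, w_pp _ hz hx]; rfl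

theorem hull3 {p q r : P3} {A B C : ℝ} (hA : 0 ≤ A) (hB : 0 ≤ B) (hC : 0 ≤ C) (hs : 0 < A + B + C)
    (e1 : A * p.1 + B * q.1 + C * r.1 = 0) (e2 : A * p.2.2 + B * q.2.2 + C * r.2.2 = 0) :
    ∃ z ∈ convexHull ℝ ({p, q, r} : Set P3), Pj z 0 := by
  refine ⟨(A / (A + B + C)) • p + (B / (A + B + C)) • q + (C / (A + B + C)) • r,
    mem_convexHull_of_exists_fintype ![A / (A + B + C), B / (A + B + C), C / (A + B + C)]
      ![p, q, r] (fun i => by fin_cases i <;> exact div_nonneg (by assumption) hs.le)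
      (by rw [Fin.sum_univ_three]; simp only [Matrix.cons_val]; field_simp)
      (fun i => by fin_cases i <;> simp) (by rw [Fin.sum_univ_three]; rfl), ?_, ?_⟩
  · simp only [Prod.fst_add, Prod.smul_fst, smul_eq_mul, Prod.fst_zero]
    field_simp
    linarith
  · simp only [Prod.snd_add, Prod.smul_snd, smul_eq_mul, Prod.snd_zero]
    field_simp
    linarith

theorem quad {x y z t c1 c2 c3 c4 : ℝ} (e : x + z = y + t)
    (h1 : 0 ≤ x → 0 ≤ y → 0 ≤ z → 0 ≤ t → False) (h2 : x < 0 → y < 0 → z < 0 → t < 0 → False) :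
    (0 < c1 → 0 < c2 → 0 < c3 → 0 < c4 → w x y c1 + w y z c2 + w z t c3 + w t x c4 = 1) ∧
      (c1 < 0 → c2 < 0 → c3 < 0 → c4 < 0 → w x y c1 + w y z c2 + w z t c3 + w t x c4 = -1) := by
  rcases lt_or_ge x 0 with hx | hx <;> rcases lt_or_ge y 0 with hy | hy <;>
    rcases lt_or_ge z 0 with hz | hz <;> rcases lt_or_ge t 0 with ht | ht <;>
    first
    | exact (h1 hx hy hz ht).elim
    | exact (h2 hx hy hz ht).elim
    | (exfalso; linarith)
    | (refine ⟨fun a b c d => ?_, fun a b c d => ?_⟩ <;>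
        simp [w_nn, w_np, w_pn, w_pp, hx, hy, hz, ht, a, b, c, d, a.not_gt, b.not_gt, c.not_gt,
          d.not_gt])

end OmAux

open OmAux

theorem om_anti (p q : P3) : om q p = -om p q := by
  have h : det2 q p = -det2 p q := by unfold det2; ring
  rw [om_eq, om_eq, h]
  rcases lt_or_ge p.2.2 0 with hp | hp <;> rcases lt_or_ge q.2.2 0 with hq | hq
  · rw [w_nn _ hp hq, w_nn _ hq hp]; rfl
  · rw [w_np _ hp hq, w_pn _ hq hp]
    simp only [neg_lt_zero]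
    split_ifs <;> rfl
  · rw [w_np _ hq hp, w_pn _ hp hq]
    simp only [neg_pos]
    split_ifs <;> rfl
  · rw [w_pp _ hp hq, w_pp _ hq hp]; rfl

theorem om_self (p : P3) : om p p = 0 := by
  have := om_anti p p
  omega

/-- a triangle whose projection misses the origin has winding number zero -/
theorem om_tri {p q r : P3} (h : ∀ z ∈ convexHull ℝ ({p, q, r} : Set P3), ¬ Pj z 0) :
    om p q + om q r + om r p = 0 := by
  rw [om_eq, om_eq, om_eq]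
  have e1 : det2 q r * p.1 + det2 r p * q.1 + det2 p q * r.1 = 0 := by unfold det2; ring
  have e2 : det2 q r * p.2.2 + det2 r p * q.2.2 + det2 p q * r.2.2 = 0 := by unfold det2; ring
  refine tri e2 (fun a b c => not_lt.1 fun d => ?_) fun a b c => not_lt.1 fun d => ?_
  · obtain ⟨z, hz, hz'⟩ := hull3 a b c d e1 e2
    exact h z hz hz'
  · obtain ⟨z, hz, hz'⟩ := hull3 (p := p) (q := q) (r := r) (neg_nonneg.2 a) (neg_nonneg.2 b)
      (neg_nonneg.2 c) (by linarith) (by linarith) (by linarith)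
    exact h z hz hz'

open Classical in
theorem cq_eq {K : Set P3} (hK : Convex ℝ K) (h0 : (0 : P3) ∉ K) {p q r s : P3} (hp : p ∈ K)
    (hq : q ∈ K) (hr : r ∈ K) (hs : s ∈ K) : cq p q r s = if Neg K then kq p q r s else 0 := by
  have hsub : convexHull ℝ ({p, q, r, s} : Set P3) ⊆ K :=
    convexHull_min (by simp only [insert_subset_iff, singleton_subset_iff]; exact ⟨hp, hq, hr, hs⟩)
      hK
  unfold cq
  by_cases h1 : Neg (convexHull ℝ ({p, q, r, s} : Set P3))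
  · obtain ⟨t, t0, ht⟩ := id h1
    rw [if_pos h1, if_pos ⟨t, t0, hsub ht⟩]
  rw [if_neg h1]
  split_ifs with h2
  · obtain ⟨t, t0, ht⟩ := h2
    have h3 : ∀ z ∈ convexHull ℝ ({p, q, r, s} : Set P3), ¬ Pj z 0 := by
      rintro ⟨x, y, z⟩ hz ⟨e1, e2⟩
      obtain rfl : x = 0 := e1
      obtain rfl : z = 0 := e2
      by_cases hy : y < 0
      · exact h1 ⟨-y, neg_pos.2 hy, by rwa [neg_neg]⟩
      · have hy := not_lt.1 hy
        have h4 : 0 < t + y := by linarith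
        have h5 := hK (hsub hz) ht (div_nonneg t0.le h4.le) (div_nonneg hy h4.le)
          (by field_simp)
        refine h0 (Eq.subst (motive := fun x => x ∈ K) ?_ h5)
        refine Prod.ext (by simp) (Prod.ext ?_ (by simp))
        simp only [Prod.snd_add, Prod.smul_snd, Prod.fst_add, Prod.smul_fst, smul_eq_mul,
          Prod.snd_zero, Prod.fst_zero]
        field_simp
        ring
    have a1 := om_tri (p := p) (q := q) (r := r) fun z hz =>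
      h3 z (convexHull_mono (fun x hx => by
        simp only [mem_insert_iff, mem_singleton_iff] at hx ⊢
        tauto) hz)
    have a2 := om_tri (p := p) (q := r) (r := s) fun z hz =>
      h3 z (convexHull_mono (fun x hx => by
        simp only [mem_insert_iff, mem_singleton_iff] at hx ⊢
        tauto) hz)
    have a3 := om_anti p r
    unfold kq
    omega
  · rfl

/-- the hull of the four differences is the difference of the segments -/
theorem hull_par (a b c d z : P3) : z ∈ convexHull ℝ ({a - c, a - d, b - d, b - c} : Set P3) ↔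
    ∃ u ∈ Icc (0 : ℝ) 1, ∃ v ∈ Icc (0 : ℝ) 1,
      z = AffineMap.lineMap a b u - AffineMap.lineMap c d v := by
  constructor
  · intro hz
    refine convexHull_min (t := {z | ∃ u ∈ Icc (0 : ℝ) 1, ∃ v ∈ Icc (0 : ℝ) 1,
      z = AffineMap.lineMap a b u - AffineMap.lineMap c d v}) ?_ ?_ hz
    · simp only [insert_subset_iff, singleton_subset_iff]
      have h0 : (0 : ℝ) ∈ Icc (0 : ℝ) 1 := ⟨le_rfl, zero_le_one⟩
      have h1 : (1 : ℝ) ∈ Icc (0 : ℝ) 1 := ⟨zero_le_one, le_rfl⟩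
      exact ⟨⟨0, h0, 0, h0, by simp⟩, ⟨0, h0, 1, h1, by simp⟩, ⟨1, h1, 1, h1, by simp⟩,
        ⟨1, h1, 0, h0, by simp⟩⟩
    · rintro _ ⟨u, hu, v, hv, rfl⟩ _ ⟨u', hu', v', hv', rfl⟩ α β hα hβ e
      refine ⟨_, convex_Icc (0 : ℝ) 1 hu hu' hα hβ e, _, convex_Icc (0 : ℝ) 1 hv hv' hα hβ e, ?_⟩
      obtain rfl : β = 1 - α := by linarith
      simp only [PBA.lm, smul_eq_mul]
      module
  · rintro ⟨u, hu, v, hv, rfl⟩
    have h := PAdm.hull4 (a - c) (a - d) (b - d) (b - c)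
      (mul_nonneg (sub_nonneg.2 hu.2) (sub_nonneg.2 hv.2)) (mul_nonneg (sub_nonneg.2 hu.2) hv.1)
      (mul_nonneg hu.1 hv.1) (mul_nonneg hu.1 (sub_nonneg.2 hv.2)) (by ring)
    refine Eq.subst (motive := fun x => x ∈ convexHull ℝ _) ?_ h
    simp only [PBA.lm]
    module

theorem crZ_zero {a b c d : P3} (h : ∀ u ∈ Icc (0 : ℝ) 1, ∀ v ∈ Icc (0 : ℝ) 1,
    Pj (AffineMap.lineMap a b u) (AffineMap.lineMap c d v) →
      (AffineMap.lineMap c d v : P3).2.1 ≤ (AffineMap.lineMap a b u : P3).2.1) :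
    crZ a b c d = 0 := by
  refine if_neg ?_
  rintro ⟨t, t0, ht⟩
  obtain ⟨u, hu, v, hv, e⟩ := (hull_par a b c d _).1 ht
  have e1 := congrArg (fun p : P3 => p.1) e
  have e2 := congrArg (fun p : P3 => p.2.1) e
  have e3 := congrArg (fun p : P3 => p.2.2) e
  simp only [Prod.fst_sub, Prod.snd_sub] at e1 e2 e3
  linarith [h u hu v hv ⟨by linarith, by linarith⟩]

/-- winding number of the parallelogram at a crossing -/
theorem kq_cross {a b c d : P3} (h : Cross a b c d) :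
    kq (a - c) (a - d) (b - d) (b - c) = if 0 < det2 (b - a) (d - c) then 1 else -1 := by
  obtain ⟨hD, ht, hu⟩ := h
  obtain ⟨e1, e2⟩ := PBA.crT_pt hD
  rw [PBA.lm1, PBA.lm1] at e1
  rw [PBA.lm3, PBA.lm3] at e2
  generalize crT a b c d = t at ht e1 e2
  generalize crT c d a b = u at hu e1 e2
  have d1 : det2 (a - c) (a - d) = t * det2 (b - a) (d - c) := by
    simp only [det2, Prod.fst_sub, Prod.snd_sub]
    linear_combination (c.2.2 - d.2.2) * e1 - (c.1 - d.1) * e2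
  have d2 : det2 (a - d) (b - d) = (1 - u) * det2 (b - a) (d - c) := by
    simp only [det2, Prod.fst_sub, Prod.snd_sub]
    linear_combination (b.2.2 - a.2.2) * e1 - (b.1 - a.1) * e2
  have d3 : det2 (b - d) (b - c) = (1 - t) * det2 (b - a) (d - c) := by
    simp only [det2, Prod.fst_sub, Prod.snd_sub]
    linear_combination (d.2.2 - c.2.2) * e1 - (d.1 - c.1) * e2
  have d4 : det2 (b - c) (a - c) = u * det2 (b - a) (d - c) := by
    simp only [det2, Prod.fst_sub, Prod.snd_sub]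
    linear_combination (a.2.2 - b.2.2) * e1 - (a.1 - b.1) * e2
  have t1 := sub_pos.2 ht.2
  have u1 := sub_pos.2 hu.2
  have w1 := mul_pos t1 u1
  have w2 := mul_pos t1 hu.1
  have w3 := mul_pos ht.1 hu.1
  have w4 := mul_pos ht.1 u1
  have e3 : (1 - t) * (1 - u) * (a - c).2.2 + (1 - t) * u * (a - d).2.2 + t * u * (b - d).2.2 +
      t * (1 - u) * (b - c).2.2 = 0 := by
    simp only [Prod.snd_sub]
    linear_combination e2
  have hq := quad (x := (a - c).2.2) (y := (a - d).2.2) (z := (b - d).2.2) (t := (b - c).2.2)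
    (c1 := det2 (a - c) (a - d)) (c2 := det2 (a - d) (b - d)) (c3 := det2 (b - d) (b - c))
    (c4 := det2 (b - c) (a - c)) (by simp only [Prod.snd_sub]; ring) (by
      intro a1 a2 a3 a4
      have b1 := mul_nonneg w1.le a1
      have b2 := mul_nonneg w2.le a2
      have b3 := mul_nonneg w3.le a3
      have b4 := mul_nonneg w4.le a4
      have c1 := (mul_eq_zero.1 (show _ * (a - c).2.2 = 0 by linarith)).resolve_left w1.ne'
      have c2 := (mul_eq_zero.1 (show _ * (a - d).2.2 = 0 by linarith)).resolve_left w2.ne'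
      have c4 := (mul_eq_zero.1 (show _ * (b - c).2.2 = 0 by linarith)).resolve_left w4.ne'
      simp only [Prod.snd_sub] at c1 c2 c4
      refine hD ?_
      simp only [det2, Prod.fst_sub, Prod.snd_sub]
      linear_combination (b.1 - a.1) * (c1 - c2) - (d.1 - c.1) * (c4 - c1)) (by
      intro a1 a2 a3 a4
      linarith [mul_neg_of_pos_of_neg w1 a1, mul_neg_of_pos_of_neg w2 a2,
        mul_neg_of_pos_of_neg w3 a3, mul_neg_of_pos_of_neg w4 a4])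
  unfold kq
  simp only [om_eq]
  split_ifs with h
  · exact hq.1 (d1 ▸ mul_pos ht.1 h) (d2 ▸ mul_pos u1 h) (d3 ▸ mul_pos t1 h) (d4 ▸ mul_pos hu.1 h)
  · have h := lt_of_le_of_ne (not_lt.1 h) hD
    exact hq.2 (d1 ▸ mul_neg_of_pos_of_neg ht.1 h) (d2 ▸ mul_neg_of_pos_of_neg u1 h)
      (d3 ▸ mul_neg_of_pos_of_neg t1 h) (d4 ▸ mul_neg_of_pos_of_neg hu.1 h)

theorem crZ_crS {a b c d : P3} (h : GenPair a b c d) : crZ a b c d = crS a b c d := by
  rcases h with h | h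
  · have h1 : Neg (convexHull ℝ ({a - c, a - d, b - d, b - c} : Set P3)) ↔ Over a b c d := by
      constructor
      · rintro ⟨t, t0, ht⟩
        obtain ⟨u, -, v, -, e⟩ := (hull_par a b c d _).1 ht
        have e1 := congrArg (fun p : P3 => p.1) e
        have e2 := congrArg (fun p : P3 => p.2.1) e
        have e3 := congrArg (fun p : P3 => p.2.2) e
        simp only [Prod.fst_sub, Prod.snd_sub] at e1 e2 e3
        unfold Over
        rw [PBA.crT_eq (u := u) (u' := v) h.1 (by linarith) (by linarith),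
          PBA.crT_eq (u := v) (u' := u) (PBA.cross_symm h).1 (by linarith) (by linarith)]
        linarith
      · intro ho
        obtain ⟨e1, e2⟩ := PBA.crT_pt h.1
        refine ⟨_, sub_pos.2 ho, (hull_par a b c d _).2 ⟨_, Ioo_subset_Icc_self h.2.1, _,
          Ioo_subset_Icc_self h.2.2, Prod.ext ?_ (Prod.ext ?_ ?_)⟩⟩ <;>
          simp only [Prod.fst_sub, Prod.snd_sub] <;> linarith
    unfold crZ cq crS
    rw [kq_cross h]
    by_cases ho : Over a b c d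
    · rw [if_pos (h1.2 ho), if_pos (⟨h, ho⟩ : Cross a b c d ∧ Over a b c d)]
    · rw [if_neg fun x => ho (h1.1 x), if_neg fun x : Cross a b c d ∧ Over a b c d => ho x.2]
  · rw [crZ_zero fun u hu v hv e => absurd e (h u hu v hv)]
    refine (if_neg fun x => ?_).symm
    exact h _ (Ioo_subset_Icc_self x.1.2.1) _ (Ioo_subset_Icc_self x.1.2.2) (PBA.crT_pt x.1.1)


end K2

end Pool.Agent.Lib.MP_4d7d0a_gt
end

-- part Pool.Agent.Lib.MP_4d7d0a_gt.K2Wr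
section

/-! Part K2: the writhe. -/

set_option autoImplicit false

open Set Filter Topology

namespace Pool.Agent.Lib.MP_4d7d0a_gt

namespace K2

variable {ι : Type}

namespace WrAux

theorem small (c : ℝ) : ∀ᶠ ε : ℝ in 𝓝[>] 0, 0 < ε ∧ (0 < c → ε < c) := by
  by_cases hc : 0 < c
  · filter_upwards [Ioo_mem_nhdsGT hc] with ε hε
    exact ⟨hε.1, fun _ => hε.2⟩
  · filter_upwards [self_mem_nhdsWithin] with ε hε
    exact ⟨hε, fun h => absurd h hc⟩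

theorem lm_shift (c d ν : P3) (v : ℝ) :
    (AffineMap.lineMap (c + ν) (d + ν) v : P3) = AffineMap.lineMap c d v + ν := by
  rw [PBA.lm, PBA.lm, add_sub_add_right_eq_sub]
  abel

theorem pt_shift (P : PG ι) (ν : P3) (f : ι) (u : ℝ) : (shiftP P ν).pt f u = P.pt f u + ν :=
  lm_shift _ _ _ _

/-- a projected coincidence is an equality in space or a crossing -/
theorem coin' {P : PG ι} (h : P.Gen) {e g : ι} {u u' : ℝ} (hu : u ∈ Icc (0 : ℝ) 1)
    (hu' : u' ∈ Icc (0 : ℝ) 1) (hp : PAdm.Pr (P.pt e u) (P.pt g u')) :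
    P.pt e u = P.pt g u' ∨ (P.Cr e g ∧ u = P.tt e g ∧ u' = P.tt g e) := by
  rcases PAdm.coin h hu hu' hp with ⟨rfl, rfl⟩ | ⟨rfl, rfl, h1⟩ | ⟨rfl, rfl, h1⟩ | h1
  · exact Or.inl rfl
  · left
    rw [PAdm.pt_zero, PAdm.pt_one, h1]
  · left
    rw [PAdm.pt_zero, PAdm.pt_one, h1]
  · exact Or.inr h1

theorem crT_shift1 (a b c d : P3) (ε : ℝ) :
    crT a b (c + (0, -ε, 0)) (d + (0, -ε, 0)) = crT a b c d := by
  unfold crT
  rw [add_sub_add_right_eq_sub]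
  congr 1
  simp [det2]

theorem crT_shift2 (a b c d : P3) (ε : ℝ) :
    crT (c + (0, -ε, 0)) (d + (0, -ε, 0)) a b = crT c d a b := by
  unfold crT
  rw [add_sub_add_right_eq_sub]
  congr 1
  simp [det2]

theorem cross_shift (a b c d : P3) (ε : ℝ) :
    Cross a b (c + (0, -ε, 0)) (d + (0, -ε, 0)) ↔ Cross a b c d := by
  unfold Cross
  rw [crT_shift1, crT_shift2, add_sub_add_right_eq_sub]

theorem over_shift (a b c d : P3) (ε : ℝ) :
    Over a b (c + (0, -ε, 0)) (d + (0, -ε, 0)) ↔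
      ε < (AffineMap.lineMap c d (crT c d a b) : P3).2.1 -
        (AffineMap.lineMap a b (crT a b c d) : P3).2.1 := by
  unfold Over
  rw [crT_shift1, crT_shift2, lm_shift]
  simp only [Prod.snd_add, Prod.fst_add]
  constructor <;> intro h <;> linarith

theorem term_shift {P : PG ι} (h : P.Gen) (e f : ι) : ∀ᶠ ε : ℝ in 𝓝[>] 0,
    crZ (P.pos e) (P.pos (P.σ e)) (P.pos f + (0, -ε, 0)) (P.pos (P.σ f) + (0, -ε, 0)) =
      crS (P.pos e) (P.pos (P.σ e)) (P.pos f) (P.pos (P.σ f)) := by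
  classical
  filter_upwards [small ((P.pt f (P.tt f e)).2.1 - (P.pt e (P.tt e f)).2.1)] with ε hε
  by_cases hc : P.Cr e f
  · rw [crZ_crS (Or.inl ((cross_shift _ _ _ _ ε).2 hc))]
    have e1 : Over (P.pos e) (P.pos (P.σ e)) (P.pos f + (0, -ε, 0))
        (P.pos (P.σ f) + (0, -ε, 0)) ↔
        Over (P.pos e) (P.pos (P.σ e)) (P.pos f) (P.pos (P.σ f)) := by
      rw [over_shift]
      exact ⟨fun h1 => sub_pos.1 (hε.1.trans h1), fun h1 => hε.2 (sub_pos.2 h1)⟩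
    unfold crS
    simp only [cross_shift, e1, add_sub_add_right_eq_sub]
  · have e1 : crS (P.pos e) (P.pos (P.σ e)) (P.pos f) (P.pos (P.σ f)) = 0 :=
      if_neg fun h1 => hc h1.1
    rw [e1]
    refine crZ_zero fun u hu v hv hp => ?_
    rw [lm_shift] at hp ⊢
    have hp' : PAdm.Pr (P.pt e u) (P.pt f v) := by
      refine ⟨?_, ?_⟩
      · simpa [PG.pt] using hp.1
      · simpa [PG.pt] using hp.2
    rcases coin' h hu hv hp' with h1 | h1
    · have h2 : (AffineMap.lineMap (P.pos e) (P.pos (P.σ e)) u : P3) =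
          AffineMap.lineMap (P.pos f) (P.pos (P.σ f)) v := h1
      rw [h2]
      simp only [Prod.snd_add, Prod.fst_add]
      linarith [hε.1]
    · exact absurd h1.1 hc

theorem ncard_sum {α : Type} [Fintype α] (p : α → Prop) [DecidablePred p] :
    (({a | p a}.ncard : ℕ) : ℤ) = ∑ a, if p a then 1 else 0 := by
  rw [Finset.sum_boole, ← Set.ncard_coe_finset]
  congr 2
  ext a
  simp

theorem pair_sum {P : PG ι} (h : P.Gen) (e f : ι) [Decidable (P.od.X e f ∧ P.od.sg e f)]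
    [Decidable (P.od.X e f ∧ ¬ P.od.sg e f)] :
    crS (P.pos e) (P.pos (P.σ e)) (P.pos f) (P.pos (P.σ f)) +
      crS (P.pos f) (P.pos (P.σ f)) (P.pos e) (P.pos (P.σ e)) =
      (if P.od.X e f ∧ P.od.sg e f then 1 else 0) -
        if P.od.X e f ∧ ¬ P.od.sg e f then 1 else 0 := by
  by_cases hc : P.Cr e f
  · have hc1 : Cross (P.pos e) (P.pos (P.σ e)) (P.pos f) (P.pos (P.σ f)) := hc
    have hc2 := PBA.cross_symm hc1
    have hX : P.od.X e f := hc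
    have hy := PBA.y_ne h.1 hc
    have hO : Over (P.pos f) (P.pos (P.σ f)) (P.pos e) (P.pos (P.σ e)) ↔
        ¬ Over (P.pos e) (P.pos (P.σ e)) (P.pos f) (P.pos (P.σ f)) := by
      unfold Over
      exact ⟨fun h1 => h1.not_gt, fun h1 => lt_of_le_of_ne (not_lt.1 h1) hy.symm⟩
    have hD : 0 < det2 (P.pos (P.σ f) - P.pos f) (P.pos (P.σ e) - P.pos e) ↔
        ¬ 0 < det2 (P.pos (P.σ e) - P.pos e) (P.pos (P.σ f) - P.pos f) := by
      rw [PBA.det2_swap (P.pos (P.σ f) - P.pos f), neg_pos]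
      exact ⟨fun h1 => h1.not_gt, fun h1 => lt_of_le_of_ne (not_lt.1 h1) hc1.1⟩
    have hs : P.od.sg e f ↔ (Over (P.pos e) (P.pos (P.σ e)) (P.pos f) (P.pos (P.σ f)) ↔
        0 < det2 (P.pos (P.σ e) - P.pos e) (P.pos (P.σ f) - P.pos f)) := Iff.rfl
    unfold crS
    by_cases h1 : Over (P.pos e) (P.pos (P.σ e)) (P.pos f) (P.pos (P.σ f)) <;>
      by_cases h2 : 0 < det2 (P.pos (P.σ e) - P.pos e) (P.pos (P.σ f) - P.pos f) <;>
      simp [hc1, hc2, hX, hO, hD, hs, h1, h2]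
  · have hc1 : ¬ Cross (P.pos e) (P.pos (P.σ e)) (P.pos f) (P.pos (P.σ f)) := hc
    have hc2 : ¬ Cross (P.pos f) (P.pos (P.σ f)) (P.pos e) (P.pos (P.σ e)) :=
      fun h1 => hc1 (PBA.cross_symm h1)
    have hX : ¬ P.od.X e f := hc
    unfold crS
    simp [hc1, hc2, hX]

end WrAux

open WrAux

theorem apart_shift [Finite ι] {P : PG ι} (h : P.Gen) :
    ∀ᶠ ε : ℝ in 𝓝[>] 0, ApartP P (shiftP P (0, -ε, 0)) := by
  have key : ∀ᶠ ε : ℝ in 𝓝[>] 0, ∀ e f, 0 < ε ∧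
      (0 < (P.pt f (P.tt f e)).2.1 - (P.pt e (P.tt e f)).2.1 →
        ε < (P.pt f (P.tt f e)).2.1 - (P.pt e (P.tt e f)).2.1) :=
    eventually_all.2 fun e => eventually_all.2 fun f => small _
  filter_upwards [key] with ε hε e f u hu u' hu' he
  rw [pt_shift] at he
  have hp : PAdm.Pr (P.pt e u) (P.pt f u') := by
    rw [he]
    exact ⟨by simp, by simp⟩
  have hy : (P.pt e u).2.1 = (P.pt f u').2.1 - ε := by
    rw [he]
    simp only [Prod.snd_add, Prod.fst_add]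
    ring
  obtain ⟨h0, h1⟩ := hε e f
  rcases coin' h hu hu' hp with h2 | ⟨-, rfl, rfl⟩
  · rw [h2] at hy
    linarith
  · have := h1 (by linarith)
    linarith

/-- the writhe is the linking sum with the push-off towards the viewer -/
theorem lkZ_shift [Fintype ι] {P : PG ι} (h : P.Gen) :
    ∀ᶠ ε : ℝ in 𝓝[>] 0, lkZ P (shiftP P (0, -ε, 0)) = wr P := by
  filter_upwards [eventually_all.2 fun e => eventually_all.2 fun f => term_shift h e f] with ε hε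
  exact Finset.sum_congr rfl fun e _ => Finset.sum_congr rfl fun f _ => hε e f

theorem wr_cnt [Fintype ι] {P : PG ι} (h : P.Gen) : 2 * wr P = cnt P.od := by
  classical
  have e1 : 2 * wr P = ∑ e, ∑ f, (crS (P.pos e) (P.pos (P.σ e)) (P.pos f) (P.pos (P.σ f)) +
      crS (P.pos f) (P.pos (P.σ f)) (P.pos e) (P.pos (P.σ e))) := by
    simp only [Finset.sum_add_distrib]
    rw [two_mul]
    congr 1
    exact Finset.sum_comm
  rw [e1, cnt, ncard_sum, ncard_sum, ← Finset.sum_sub_distrib, Fintype.sum_prod_type]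
  exact Finset.sum_congr rfl fun e _ => Finset.sum_congr rfl fun f _ => pair_sum h e f

theorem cnt_agree {D D' : OD ι} (h : D.Agree D' fun _ _ => True) : cnt D = cnt D' := by
  have e1 : {p : ι × ι | D.X p.1 p.2 ∧ D.sg p.1 p.2} = {p | D'.X p.1 p.2 ∧ D'.sg p.1 p.2} := by
    ext p
    exact ⟨fun h1 => ⟨(h.1 _ _ trivial).1 h1.1, (h.2.1 _ _ trivial h1.1).1 h1.2⟩, fun h1 =>
      ⟨(h.1 _ _ trivial).2 h1.1, (h.2.1 _ _ trivial ((h.1 _ _ trivial).2 h1.1)).2 h1.2⟩⟩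
  have e2 : {p : ι × ι | D.X p.1 p.2 ∧ ¬ D.sg p.1 p.2} =
      {p | D'.X p.1 p.2 ∧ ¬ D'.sg p.1 p.2} := by
    ext p
    exact ⟨fun h1 => ⟨(h.1 _ _ trivial).1 h1.1, fun h2 => h1.2 ((h.2.1 _ _ trivial h1.1).2 h2)⟩,
      fun h1 => ⟨(h.1 _ _ trivial).2 h1.1,
        fun h2 => h1.2 ((h.2.1 _ _ trivial ((h.1 _ _ trivial).2 h1.1)).1 h2)⟩⟩
  rw [cnt, cnt, e1, e2]

theorem count_ext [Finite ι] (σ : Equiv.Perm ι) (R : ι → Prop) :
    {e | R e ∧ ¬ R (σ e)}.ncard = {e | ¬ R e ∧ R (σ e)}.ncard := by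
  classical
  cases nonempty_fintype ι
  have e1 : ∑ e, ((if R e then 1 else 0 : ℤ) - if R (σ e) then 1 else 0) = 0 := by
    rw [Finset.sum_sub_distrib, Equiv.sum_comp σ fun e => (if R e then 1 else 0 : ℤ), sub_self]
  have e2 : (({e | R e ∧ ¬ R (σ e)}.ncard : ℕ) : ℤ) - ({e | ¬ R e ∧ R (σ e)}.ncard : ℕ) = 0 := by
    rw [ncard_sum, ncard_sum, ← Finset.sum_sub_distrib]
    refine Eq.trans (Finset.sum_congr rfl fun e _ => ?_) e1
    by_cases h1 : R e <;> by_cases h2 : R (σ e) <;> simp [h1, h2]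
  exact_mod_cast sub_eq_zero.1 e2


end K2

end Pool.Agent.Lib.MP_4d7d0a_gt
end

-- part Pool.Agent.Lib.MP_4d7d0a_gt.K2Cube
section

/-! Part K2: invariance of the linking sums. -/

set_option autoImplicit false

open Set Filter Topology

namespace Pool.Agent.Lib.MP_4d7d0a_gt

namespace K2

/-- the eight differences of a cell before and after a move lie in a convex set missing `0` -/
def Cell (a b c d a' b' c' d' : P3) : Prop :=
  ∃ K : Set P3, Convex ℝ K ∧ (0 : P3) ∉ K ∧ a - c ∈ K ∧ a - d ∈ K ∧ b - c ∈ K ∧ b - d ∈ K ∧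
    a' - c' ∈ K ∧ a' - d' ∈ K ∧ b' - c' ∈ K ∧ b' - d' ∈ K

/-- the coboundary of the cocycle vanishes on a cube -/
theorem crZ_cube {a b c d a' b' c' d' : P3} (h : Cell a b c d a' b' c' d') :
    crZ a' b' c' d' - crZ a b c d =
      (cq (a - c) (a' - c') (a' - d') (a - d) - cq (b - c) (b' - c') (b' - d') (b - d)) +
        (cq (a - d) (a' - d') (b' - d') (b - d) - cq (a - c) (a' - c') (b' - c') (b - c)) := by
  obtain ⟨K, hK, h0, h1, h2, h3, h4, h5, h6, h7, h8⟩ := h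
  unfold crZ
  rw [cq_eq hK h0 h5 h6 h8 h7, cq_eq hK h0 h1 h2 h4 h3, cq_eq hK h0 h1 h5 h6 h2,
    cq_eq hK h0 h3 h7 h8 h4, cq_eq hK h0 h2 h6 h8 h4, cq_eq hK h0 h1 h5 h7 h3]
  split_ifs
  · unfold kq
    linarith [om_anti (a' - c') (b' - c'), om_anti (a' - d') (a - d), om_anti (b' - c') (b' - d'),
      om_anti (a - c) (a - d), om_anti (a - d) (b - d), om_anti (b - d) (b - c),
      om_anti (b - c) (b' - c')]
  · rfl

theorem crZ_self_left (a c d : P3) : crZ a a c d = 0 := by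
  unfold crZ cq
  split_ifs
  · unfold kq
    linarith [om_anti (a - c) (a - d), om_self (a - c), om_self (a - d)]
  · rfl

theorem crZ_self_right (a b c : P3) : crZ a b c c = 0 := by
  unfold crZ cq
  split_ifs
  · unfold kq
    linarith [om_anti (a - c) (b - c), om_self (a - c), om_self (b - c)]
  · rfl

theorem lkZ_move {ι ι' : Type} [Fintype ι] [Fintype ι'] (σ : Equiv.Perm ι) (σ' : Equiv.Perm ι')
    (x x' : ι → P3) (y y' : ι' → P3)
    (h : ∀ e f, Cell (x e) (x (σ e)) (y f) (y (σ' f)) (x' e) (x' (σ e)) (y' f) (y' (σ' f))) :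
    lkZ (⟨σ, x⟩ : PG ι) (⟨σ', y⟩ : PG ι') = lkZ (⟨σ, x'⟩ : PG ι) (⟨σ', y'⟩ : PG ι') := by
  let F : ι → ι' → ℤ := fun e f => cq (x e - y f) (x' e - y' f) (x' e - y' (σ' f)) (x e - y (σ' f))
  let G : ι → ι' → ℤ := fun e f => cq (x e - y f) (x' e - y' f) (x' (σ e) - y' f) (x (σ e) - y f)
  have h1 : lkZ (⟨σ, x'⟩ : PG ι) (⟨σ', y'⟩ : PG ι') - lkZ (⟨σ, x⟩ : PG ι) (⟨σ', y⟩ : PG ι') =
      ∑ e, ∑ f, ((F e f - F (σ e) f) + (G e (σ' f) - G e f)) := by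
    unfold lkZ
    rw [← Finset.sum_sub_distrib]
    refine Finset.sum_congr rfl fun e _ => ?_
    rw [← Finset.sum_sub_distrib]
    exact Finset.sum_congr rfl fun f _ => crZ_cube (h e f)
  have h2 : ∑ e, ∑ f, F (σ e) f = ∑ e, ∑ f, F e f := Equiv.sum_comp σ fun e => ∑ f, F e f
  have h3 : ∑ e, ∑ f, G e (σ' f) = ∑ e, ∑ f, G e f :=
    Finset.sum_congr rfl fun e _ => Equiv.sum_comp σ' (G e)
  simp only [Finset.sum_add_distrib, Finset.sum_sub_distrib] at h1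
  linarith

theorem lkS_move (n m : ℕ) (x x' y y' : ℕ → P3) (hx : x n = x 0) (hx' : x' n = x' 0)
    (hy : y m = y 0) (hy' : y' m = y' 0)
    (h : ∀ i < n, ∀ j < m,
      Cell (x i) (x (i + 1)) (y j) (y (j + 1)) (x' i) (x' (i + 1)) (y' j) (y' (j + 1))) :
    lkS n m x y = lkS n m x' y' := by
  let F : ℕ → ℕ → ℤ := fun e f =>
    cq (x e - y f) (x' e - y' f) (x' e - y' (f + 1)) (x e - y (f + 1))
  let G : ℕ → ℕ → ℤ := fun e f =>
    cq (x e - y f) (x' e - y' f) (x' (e + 1) - y' f) (x (e + 1) - y f)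
  have h1 : lkS n m x' y' - lkS n m x y = ∑ e ∈ Finset.range n, ∑ f ∈ Finset.range m,
      ((F e f - F (e + 1) f) + (G e (f + 1) - G e f)) := by
    unfold lkS
    rw [← Finset.sum_sub_distrib]
    refine Finset.sum_congr rfl fun e he => ?_
    rw [← Finset.sum_sub_distrib]
    exact Finset.sum_congr rfl fun f hf =>
      crZ_cube (h e (Finset.mem_range.1 he) f (Finset.mem_range.1 hf))
  have h2 : ∑ e ∈ Finset.range n, ∑ f ∈ Finset.range m, (F e f - F (e + 1) f) = 0 := by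
    rw [Finset.sum_comm]
    refine Finset.sum_eq_zero fun f _ => ?_
    rw [Finset.sum_range_sub' (fun e => F e f) n]
    simp only [F, hx, hx', sub_self]
  have h3 : ∑ e ∈ Finset.range n, ∑ f ∈ Finset.range m, (G e (f + 1) - G e f) = 0 := by
    refine Finset.sum_eq_zero fun e _ => ?_
    rw [Finset.sum_range_sub (G e) m]
    simp only [G, hy, hy', sub_self]
  simp only [Finset.sum_add_distrib] at h1
  linarith

theorem lkZ_fam {ι ι' : Type} [Fintype ι] [Fintype ι'] (σ : Equiv.Perm ι) (σ' : Equiv.Perm ι')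
    (x : ℝ → ι → P3) (y : ℝ → ι' → P3) (hx : ∀ v, ContinuousOn (fun s => x s v) (Icc 0 1))
    (hy : ∀ v, ContinuousOn (fun s => y s v) (Icc 0 1))
    (h : ∀ s ∈ Icc (0 : ℝ) 1, ApartP (⟨σ, x s⟩ : PG ι) (⟨σ', y s⟩ : PG ι')) :
    lkZ (⟨σ, x 0⟩ : PG ι) (⟨σ', y 0⟩ : PG ι') = lkZ (⟨σ, x 1⟩ : PG ι) (⟨σ', y 1⟩ : PG ι') := by
  have key : ContinuousOn (fun s => lkZ (⟨σ, x s⟩ : PG ι) (⟨σ', y s⟩ : PG ι')) (Icc 0 1) := by
    intro s hs
    have hev : ∀ᶠ t in 𝓝[Icc (0 : ℝ) 1] s, ∀ e f, Cell (x s e) (x s (σ e)) (y s f) (y s (σ' f))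
        (x t e) (x t (σ e)) (y t f) (y t (σ' f)) := by
      refine eventually_all.2 fun e => eventually_all.2 fun f => ?_
      have h0 : (0 : P3) ∉ convexHull ℝ ({x s e - y s f, x s e - y s (σ' f),
          x s (σ e) - y s (σ' f), x s (σ e) - y s f} : Set P3) := by
        intro h0
        obtain ⟨u, hu, v, hv, h1⟩ := (hull_par _ _ _ _ _).1 h0
        exact h s hs e f u hu v hv (sub_eq_zero.1 h1.symm)
      obtain ⟨l, c, hc, hl⟩ := geometric_hahn_banach_point_closed (convex_convexHull ℝ _)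
        ((Set.toFinite _).isCompact_convexHull ℝ).isClosed h0
      rw [map_zero] at hc
      have hp : ∀ z ∈ ({x s e - y s f, x s e - y s (σ' f), x s (σ e) - y s (σ' f),
          x s (σ e) - y s f} : Set P3), 0 < l z := fun z hz =>
        hc.trans (hl z (subset_convexHull ℝ _ hz))
      have ht : ∀ a b, 0 < l (x s a - y s b) → ∀ᶠ t in 𝓝[Icc (0 : ℝ) 1] s,
          0 < l (x t a - y t b) := fun a b hab =>
        (l.continuous.continuousAt.comp_continuousWithinAt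
          (f := fun t => x t a - y t b) ((hx a s hs).sub (hy b s hs))).eventually
          (lt_mem_nhds hab)
      have p1 := hp (x s e - y s f) (by simp)
      have p2 := hp (x s e - y s (σ' f)) (by simp)
      have p3 := hp (x s (σ e) - y s f) (by simp)
      have p4 := hp (x s (σ e) - y s (σ' f)) (by simp)
      filter_upwards [ht _ _ p1, ht _ _ p2, ht _ _ p3, ht _ _ p4] with t a1 a2 a3 a4
      exact ⟨{z | 0 < l z}, convex_halfSpace_gt l.toLinearMap.isLinear 0, by simp,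
        p1, p2, p3, p4, a1, a2, a3, a4⟩
    refine (continuousWithinAt_const (b := lkZ (⟨σ, x s⟩ : PG ι) (⟨σ', y s⟩ : PG ι'))).congr_of_eventuallyEq
      ?_ rfl
    filter_upwards [hev] with t ht
    exact (lkZ_move σ σ' _ _ _ _ ht).symm
  exact isPreconnected_Icc.constant key (left_mem_Icc.2 zero_le_one) (right_mem_Icc.2 zero_le_one)

/-- cyclic polygons on `Fin (n + 1)` and sequences -/
theorem lkZ_fin (n m : ℕ) (x : Fin (n + 1) → P3) (y : Fin (m + 1) → P3) :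
    lkZ (⟨finRotate (n + 1), x⟩ : PG (Fin (n + 1))) (⟨finRotate (m + 1), y⟩ : PG (Fin (m + 1))) =
      lkS (n + 1) (m + 1) (fun i => x (Fin.ofNat (n + 1) i)) fun j => y (Fin.ofNat (m + 1) j) := by
  have h0 : ∀ (k : ℕ) (i : Fin (k + 1)), Fin.ofNat (k + 1) i.val = i := fun k i =>
    Fin.ext (Nat.mod_eq_of_lt i.isLt)
  have h1 : ∀ (k : ℕ) (i : Fin (k + 1)), Fin.ofNat (k + 1) (i.val + 1) = finRotate (k + 1) i := by
    intro k i
    rw [finRotate_apply]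
    refine Fin.ext ?_
    simp [Fin.val_add]
  unfold lkZ lkS
  rw [Finset.sum_range]
  refine Finset.sum_congr rfl fun e _ => ?_
  rw [Finset.sum_range]
  refine Finset.sum_congr rfl fun f _ => ?_
  simp only [h0, h1]


end K2

end Pool.Agent.Lib.MP_4d7d0a_gt
end

-- part Pool.Agent.Lib.MP_4d7d0a_gt.K2Lk
section

/-! Part K2: the linking number is computed on any good grid. -/

set_option autoImplicit false

open Set Filter Topology

namespace Pool.Agent.Lib.MP_4d7d0a_gt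

namespace K2

namespace LkAux

theorem div_lt {n k i : ℕ} (hi : i < n * k) : i / k < n :=
  Nat.div_lt_of_lt_mul (by rwa [mul_comm])

theorem lo {n k : ℕ} (hn : 0 < n) (hk : 0 < k) (i : ℕ) :
    ((i / k : ℕ) : ℝ) / n ≤ (i : ℝ) / ((n * k : ℕ) : ℝ) := by
  have h1 : ((i / k * k : ℕ) : ℝ) ≤ i := by exact_mod_cast Nat.div_mul_le_self i k
  have hn' : (0 : ℝ) < n := by exact_mod_cast hn
  have hk' : (0 : ℝ) < k := by exact_mod_cast hk
  push_cast at h1 ⊢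
  rw [div_le_div_iff₀ hn' (by positivity)]
  nlinarith

theorem hi {n k : ℕ} (hn : 0 < n) (hk : 0 < k) (i : ℕ) :
    ((i : ℝ) + 1) / ((n * k : ℕ) : ℝ) ≤ (((i / k : ℕ) : ℝ) + 1) / n := by
  have h0 : i + 1 ≤ (i / k + 1) * k := by
    have := Nat.lt_div_mul_add (a := i) hk
    rw [add_mul, one_mul]
    omega
  have h1 : ((i + 1 : ℕ) : ℝ) ≤ ((i / k + 1) * k : ℕ) := by exact_mod_cast h0
  have hn' : (0 : ℝ) < n := by exact_mod_cast hn
  have hk' : (0 : ℝ) < k := by exact_mod_cast hk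
  push_cast at h1 ⊢
  rw [div_le_div_iff₀ (by positivity) hn']
  nlinarith

theorem sub {n k : ℕ} (hn : 0 < n) (hk : 0 < k) (i : ℕ) :
    Icc ((i : ℝ) / ((n * k : ℕ) : ℝ)) (((i : ℝ) + 1) / ((n * k : ℕ) : ℝ)) ⊆
      Icc (((i / k : ℕ) : ℝ) / n) ((((i / k : ℕ) : ℝ) + 1) / n) :=
  Icc_subset_Icc (lo hn hk i) (hi hn hk i)

theorem mem0 {n : ℕ} (hn : 0 < n) (i : ℕ) :
    (i : ℝ) / n ∈ Icc ((i : ℝ) / n) (((i : ℝ) + 1) / n) := by
  have hn' : (0 : ℝ) < n := by exact_mod_cast hn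
  exact ⟨le_rfl, by gcongr; linarith⟩

theorem mem1 {n : ℕ} (hn : 0 < n) (i : ℕ) :
    ((i + 1 : ℕ) : ℝ) / n ∈ Icc ((i : ℝ) / n) (((i : ℝ) + 1) / n) := by
  have hn' : (0 : ℝ) < n := by exact_mod_cast hn
  push_cast
  exact ⟨by gcongr; linarith, le_rfl⟩

theorem mem2 {n k : ℕ} (hn : 0 < n) (hk : 0 < k) (i : ℕ) :
    (((i + 1) / k : ℕ) : ℝ) / n ∈ Icc (((i / k : ℕ) : ℝ) / n) ((((i / k : ℕ) : ℝ) + 1) / n) := by
  have hn' : (0 : ℝ) < n := by exact_mod_cast hn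
  have h1 : i / k ≤ (i + 1) / k := Nat.div_le_div_right (Nat.le_succ i)
  have h2 : (i + 1) / k ≤ i / k + 1 := by
    rw [← Nat.add_div_right i hk]
    exact Nat.div_le_div_right (by omega)
  have h3 : ((i / k : ℕ) : ℝ) ≤ ((i + 1) / k : ℕ) := by exact_mod_cast h1
  have h4 : (((i + 1) / k : ℕ) : ℝ) ≤ ((i / k : ℕ) : ℝ) + 1 := by exact_mod_cast h2
  exact ⟨by gcongr, by gcongr⟩

theorem collapse {k : ℕ} (hk : 0 < k) (F : ℕ → ℕ → ℤ) (hF : ∀ i, F i i = 0) (n : ℕ) :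
    ∑ i ∈ Finset.range (n * k), F (i / k) ((i + 1) / k) = ∑ i ∈ Finset.range n, F i (i + 1) := by
  induction n with
  | zero => simp
  | succ n ih =>
    obtain ⟨k', rfl⟩ : ∃ k', k = k' + 1 := ⟨k - 1, by omega⟩
    rw [add_mul, one_mul, Finset.sum_range_add, ih, Finset.sum_range_succ, Finset.sum_range_succ]
    have h1 : ∀ j < k' + 1, (n * (k' + 1) + j) / (k' + 1) = n := fun j hj => by
      rw [add_comm, Nat.add_mul_div_right _ _ hk, Nat.div_eq_of_lt hj, zero_add]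
    have h2 : (n * (k' + 1) + k' + 1) / (k' + 1) = n + 1 := by
      rw [add_assoc, Nat.add_div_right _ hk, Nat.mul_div_cancel _ hk]
    have h3 : ∑ j ∈ Finset.range k',
        F ((n * (k' + 1) + j) / (k' + 1)) ((n * (k' + 1) + j + 1) / (k' + 1)) = 0 :=
      Finset.sum_eq_zero fun j hj => by
        have hj' := Finset.mem_range.1 hj
        rw [h1 j (by omega), add_assoc, h1 (j + 1) (by omega), hF]
    rw [h3, h1 k' (by omega), h2, zero_add]

theorem poly_pt {n : ℕ} {a : ℕ → P3} {A : ℝ → P3} (hA : IsPoly n a A) {i : ℕ} (hi : i ≤ n) :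
    A ((i : ℝ) / n) = a i := by
  rcases hi.lt_or_eq with h | rfl
  · have := hA.2.2 i h 0 ⟨le_rfl, zero_le_one⟩
    simpa using this
  · obtain ⟨j, rfl⟩ : ∃ j, i = j + 1 := ⟨i - 1, by have := hA.1; omega⟩
    have := hA.2.2 j (Nat.lt_succ_self j) 1 ⟨zero_le_one, le_rfl⟩
    simpa using this

theorem poly_closed {n : ℕ} {a : ℕ → P3} {A : ℝ → P3} (hA : IsPoly n a A) : A 1 = A 0 := by
  have hn' : (n : ℝ) ≠ 0 := by exact_mod_cast hA.1.ne'
  have h1 := poly_pt hA le_rfl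
  have h2 := poly_pt hA (Nat.zero_le n)
  rw [div_self hn'] at h1
  rw [Nat.cast_zero, zero_div] at h2
  rw [h1, h2, hA.2.1]

theorem poly_seg {n : ℕ} {a : ℕ → P3} {A : ℝ → P3} (hA : IsPoly n a A) {i : ℕ} (hi : i < n)
    {s : ℝ} (hs : s ∈ Icc ((i : ℝ) / n) (((i : ℝ) + 1) / n)) :
    ∃ u ∈ Icc (0 : ℝ) 1, A s = AffineMap.lineMap (a i) (a (i + 1)) u := by
  have hn' : (0 : ℝ) < n := by exact_mod_cast hA.1
  have h1 := (div_le_iff₀ hn').1 hs.1
  have h2 := (le_div_iff₀ hn').1 hs.2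
  refine ⟨s * n - i, ⟨by linarith, by linarith⟩, ?_⟩
  rw [← hA.2.2 i hi _ ⟨by linarith, by linarith⟩]
  congr 1
  field_simp
  ring

theorem poly_mem {n : ℕ} {a : ℕ → P3} {A : ℝ → P3} (hA : IsPoly n a A) {i : ℕ} (hi : i < n)
    {u : ℝ} (hu : u ∈ Icc (0 : ℝ) 1) :
    ∃ s ∈ Icc (0 : ℝ) 1, A s = AffineMap.lineMap (a i) (a (i + 1)) u := by
  have hn' : (0 : ℝ) < n := by exact_mod_cast hA.1
  have hi' : (i : ℝ) + 1 ≤ n := by exact_mod_cast hi
  have h0 : (0 : ℝ) ≤ i := Nat.cast_nonneg i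
  exact ⟨(i + u) / n, ⟨div_nonneg (by linarith [hu.1]) hn'.le,
    (div_le_one hn').2 (by linarith [hu.2])⟩, hA.2.2 i hi u hu⟩

end LkAux

open LkAux

theorem Good.mul {n m : ℕ} {A B : ℝ → P3} (h : Good n m A B) {k l : ℕ} (hk : 0 < k) (hl : 0 < l) :
    Good (n * k) (m * l) A B := by
  refine ⟨Nat.mul_pos h.1 hk, Nat.mul_pos h.2.1 hl, fun i hi j hj => ?_⟩
  obtain ⟨K, h1, h2, h3⟩ := h.2.2 _ (div_lt hi) _ (div_lt hj)
  exact ⟨K, h1, h2, fun s hs t ht => h3 s (sub h.1 hk i hs) t (sub h.2.1 hl j ht)⟩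

theorem lkN_mul {n m : ℕ} {A B : ℝ → P3} (h : Good n m A B) (hA : A 1 = A 0) (hB : B 1 = B 0)
    {k l : ℕ} (hk : 0 < k) (hl : 0 < l) : lkN (n * k) (m * l) A B = lkN n m A B := by
  have hn' : (n : ℝ) ≠ 0 := by exact_mod_cast h.1.ne'
  have hm' : (m : ℝ) ≠ 0 := by exact_mod_cast h.2.1.ne'
  have hnk : ((n * k : ℕ) : ℝ) ≠ 0 := by exact_mod_cast (Nat.mul_pos h.1 hk).ne'
  have hml : ((m * l : ℕ) : ℝ) ≠ 0 := by exact_mod_cast (Nat.mul_pos h.2.1 hl).ne'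
  have h1 := lkS_move (n * k) (m * l) (fun i => A ((i : ℝ) / ((n * k : ℕ) : ℝ)))
    (fun i => A (((i / k : ℕ) : ℝ) / n)) (fun j => B ((j : ℝ) / ((m * l : ℕ) : ℝ)))
    (fun j => B (((j / l : ℕ) : ℝ) / m))
    (by simp only [div_self hnk, Nat.cast_zero, zero_div, hA])
    (by simp only [Nat.mul_div_cancel _ hk, div_self hn', Nat.zero_div, Nat.cast_zero, zero_div, hA])
    (by simp only [div_self hml, Nat.cast_zero, zero_div, hB])
    (by simp only [Nat.mul_div_cancel _ hl, div_self hm', Nat.zero_div, Nat.cast_zero, zero_div, hB])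
    fun i hi j hj => by
      obtain ⟨K, k1, k2, k3⟩ := h.2.2 _ (div_lt hi) _ (div_lt hj)
      have a0 := sub h.1 hk i (mem0 (Nat.mul_pos h.1 hk) i)
      have a1 := sub h.1 hk i (mem1 (Nat.mul_pos h.1 hk) i)
      have a2 := mem0 h.1 (i / k)
      have a3 := mem2 h.1 hk i
      have b0 := sub h.2.1 hl j (mem0 (Nat.mul_pos h.2.1 hl) j)
      have b1 := sub h.2.1 hl j (mem1 (Nat.mul_pos h.2.1 hl) j)
      have b2 := mem0 h.2.1 (j / l)
      have b3 := mem2 h.2.1 hl j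
      exact ⟨K, k1, k2, k3 _ a0 _ b0, k3 _ a0 _ b1, k3 _ a1 _ b0, k3 _ a1 _ b1,
        k3 _ a2 _ b2, k3 _ a2 _ b3, k3 _ a3 _ b2, k3 _ a3 _ b3⟩
  unfold lkN
  rw [h1]
  unfold lkS
  rw [collapse hk (fun i i' => ∑ j ∈ Finset.range (m * l), crZ (A ((i : ℝ) / n))
    (A ((i' : ℝ) / n)) (B (((j / l : ℕ) : ℝ) / m)) (B ((((j + 1) / l : ℕ) : ℝ) / m)))
    (fun i => Finset.sum_eq_zero fun j _ => crZ_self_left _ _ _) n]
  exact Finset.sum_congr rfl fun i _ => collapse hl (fun j j' => crZ (A ((i : ℝ) / n))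
    (A (((i + 1 : ℕ) : ℝ) / n)) (B ((j : ℝ) / m)) (B ((j' : ℝ) / m)))
    (fun j => crZ_self_right _ _ _) m

theorem lk_eq {n m : ℕ} {A B : ℝ → P3} (h : Good n m A B) (hA : A 1 = A 0) (hB : B 1 = B 0) :
    lk A B = lkN n m A B := by
  have hex : ∃ z : ℕ × ℕ, Good z.1 z.2 A B := ⟨(n, m), h⟩
  have h0 := hex.choose_spec
  unfold lk
  rw [dif_pos hex, ← lkN_mul h0 hA hB h.1 h.2.1, ← lkN_mul h hA hB h0.1 h0.2.1, mul_comm n,
    mul_comm m]

theorem lk_poly' (n m : ℕ) (a b : ℕ → P3) (A B : ℝ → P3) (hA : IsPoly n a A) (hB : IsPoly m b B)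
    (h : Apart A B) : lk A B = lkS n m a b := by
  have hG : Good n m A B := by
    refine ⟨hA.1, hB.1, fun i hi j hj => ⟨convexHull ℝ {a i - b j, a i - b (j + 1),
      a (i + 1) - b (j + 1), a (i + 1) - b j}, convex_convexHull _ _, fun h0 => ?_,
      fun s hs t ht => ?_⟩⟩
    · obtain ⟨u, hu, v, hv, e⟩ := (hull_par _ _ _ _ _).1 h0
      obtain ⟨s, hs, es⟩ := poly_mem hA hi hu
      obtain ⟨t, ht, et⟩ := poly_mem hB hj hv
      exact h s hs t ht (by rw [es, et]; exact sub_eq_zero.1 e.symm)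
    · obtain ⟨u, hu, es⟩ := poly_seg hA hi hs
      obtain ⟨v, hv, et⟩ := poly_seg hB hj ht
      exact (hull_par _ _ _ _ _).2 ⟨u, hu, v, hv, by rw [es, et]⟩
  rw [lk_eq hG (poly_closed hA) (poly_closed hB)]
  unfold lkN lkS
  refine Finset.sum_congr rfl fun i hi => Finset.sum_congr rfl fun j hj => ?_
  have hi' := Finset.mem_range.1 hi
  have hj' := Finset.mem_range.1 hj
  beta_reduce
  rw [poly_pt hA hi'.le, poly_pt hA hi', poly_pt hB hj'.le, poly_pt hB hj']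

theorem lk_poly (n m : ℕ) (a b : ℕ → P3) (A B : ℝ → P3) (hA : IsPoly n a A) (hB : IsPoly m b B)
    (h : Apart A B) (hg : ∀ i < n, ∀ j < m, GenPair (a i) (a (i + 1)) (b j) (b (j + 1))) :
    lk A B = ∑ i ∈ Finset.range n, ∑ j ∈ Finset.range m,
      crS (a i) (a (i + 1)) (b j) (b (j + 1)) := by
  rw [lk_poly' n m a b A B hA hB h]
  exact Finset.sum_congr rfl fun i hi => Finset.sum_congr rfl fun j hj =>
    crZ_crS (hg i (Finset.mem_range.1 hi) j (Finset.mem_range.1 hj))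


end K2

end Pool.Agent.Lib.MP_4d7d0a_gt
end

-- part Pool.Agent.Lib.MP_4d7d0a_gt.K2LkH
section

/-! Part K2: homotopy invariance and additivity of the linking number. -/

set_option autoImplicit false

open Set Filter Topology

namespace Pool.Agent.Lib.MP_4d7d0a_gt

namespace K2

namespace LkHAux

/-- the differences near a point of the parameter cube lie in a convex set missing the origin -/
def Un (δ : ℝ) (A B : ℝ → ℝ → P3) : Prop :=
  ∀ r0 ∈ Icc (0 : ℝ) 1, ∀ s0 ∈ Icc (0 : ℝ) 1, ∀ t0 ∈ Icc (0 : ℝ) 1,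
    ∃ K : Set P3, Convex ℝ K ∧ (0 : P3) ∉ K ∧
      ∀ r ∈ Icc (0 : ℝ) 1, ∀ s ∈ Icc (0 : ℝ) 1, ∀ t ∈ Icc (0 : ℝ) 1,
        |r - r0| ≤ δ → |s - s0| ≤ δ → |t - t0| ≤ δ → A r s - B r t ∈ K

theorem unif (A B : ℝ → ℝ → P3)
    (hA : ContinuousOn (fun a : ℝ × ℝ => A a.1 a.2) (Icc 0 1 ×ˢ Icc 0 1))
    (hB : ContinuousOn (fun a : ℝ × ℝ => B a.1 a.2) (Icc 0 1 ×ˢ Icc 0 1))
    (h : ∀ s ∈ Icc (0 : ℝ) 1, Apart (A s) (B s)) : ∃ δ : ℝ, 0 < δ ∧ Un δ A B := by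
  set Q : Set (ℝ × ℝ × ℝ) := Icc 0 1 ×ˢ Icc 0 1 ×ˢ Icc 0 1 with hQ
  set F : ℝ × ℝ × ℝ → P3 := fun x => A x.1 x.2.1 - B x.1 x.2.2 with hF
  have hQc : IsCompact Q := isCompact_Icc.prod (isCompact_Icc.prod isCompact_Icc)
  have hFc : ContinuousOn F Q := by
    refine ContinuousOn.sub ?_ ?_
    · exact hA.comp (f := fun x : ℝ × ℝ × ℝ => (x.1, x.2.1)) (by fun_prop)
        (fun x hx => ⟨hx.1, hx.2.1⟩)
    · exact hB.comp (f := fun x : ℝ × ℝ × ℝ => (x.1, x.2.2)) (by fun_prop)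
        (fun x hx => ⟨hx.1, hx.2.2⟩)
  have hne : Q.Nonempty := ⟨(0, 0, 0), by simp [hQ]⟩
  obtain ⟨x0, hx0, hmin⟩ := hQc.exists_isMinOn hne hFc.norm
  have hρ : 0 < ‖F x0‖ := norm_pos_iff.2 (sub_ne_zero.2 (h _ hx0.1 _ hx0.2.1 _ hx0.2.2))
  obtain ⟨δ, hδ, hu⟩ := Metric.uniformContinuousOn_iff.1
    (hQc.uniformContinuousOn_of_continuous hFc) _ hρ
  refine ⟨δ / 2, half_pos hδ, ?_⟩
  intro r0 hr0 s0 hs0 t0 ht0
  have hy : ((r0, s0, t0) : ℝ × ℝ × ℝ) ∈ Q := ⟨hr0, hs0, ht0⟩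
  refine ⟨Metric.ball (F (r0, s0, t0)) ‖F x0‖, convex_ball _ _, ?_, ?_⟩
  · intro h0
    rw [Metric.mem_ball, dist_zero_left] at h0
    exact absurd (hmin hy) (not_le.2 h0)
  · intro r hr s hs t ht h1 h2 h3
    have hx : ((r, s, t) : ℝ × ℝ × ℝ) ∈ Q := ⟨hr, hs, ht⟩
    have hd : dist ((r, s, t) : ℝ × ℝ × ℝ) (r0, s0, t0) < δ := by
      simp only [Prod.dist_eq, Real.dist_eq, max_lt_iff]
      refine ⟨?_, ?_, ?_⟩ <;> linarith
    exact hu _ hx _ hy hd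

theorem grid_mem {n i : ℕ} (hi : i ≤ n) (hn : 0 < n) : (i : ℝ) / n ∈ Icc (0 : ℝ) 1 := by
  have h1 : (0 : ℝ) < n := Nat.cast_pos.2 hn
  refine ⟨by positivity, ?_⟩
  rw [div_le_one h1]
  exact_mod_cast hi

theorem cell_mem {δ : ℝ} {n i : ℕ} (hi : i < n) (hδ : 1 / (n : ℝ) ≤ δ) {s : ℝ}
    (hs : s ∈ Icc ((i : ℝ) / n) (((i : ℝ) + 1) / n)) :
    s ∈ Icc (0 : ℝ) 1 ∧ |s - (i : ℝ) / n| ≤ δ := by
  have hn : 0 < n := lt_of_le_of_lt (Nat.zero_le _) hi
  have h0 := grid_mem hi.le hn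
  have h1 := grid_mem (Nat.succ_le_of_lt hi) hn
  push_cast at h1
  refine ⟨⟨h0.1.trans hs.1, hs.2.trans h1.2⟩, ?_⟩
  rw [abs_of_nonneg (sub_nonneg.2 hs.1)]
  have := hs.2
  rw [add_div] at this
  linarith

theorem Un.good {δ : ℝ} {A B : ℝ → ℝ → P3} (h : Un δ A B) (hδ : 0 < δ) {n m : ℕ} (hn : 0 < n)
    (hm : 0 < m) (hnδ : 1 / (n : ℝ) ≤ δ) (hmδ : 1 / (m : ℝ) ≤ δ) {r : ℝ} (hr : r ∈ Icc (0 : ℝ) 1) :
    Good n m (A r) (B r) := by
  refine ⟨hn, hm, fun i hi j hj => ?_⟩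
  obtain ⟨K, hK, h0, hm'⟩ := h r hr _ (grid_mem hi.le hn) _ (grid_mem hj.le hm)
  refine ⟨K, hK, h0, fun s hs t ht => ?_⟩
  obtain ⟨a1, a2⟩ := cell_mem hi hnδ hs
  obtain ⟨b1, b2⟩ := cell_mem hj hmδ ht
  exact hm' r hr s a1 t b1 (by simpa using hδ.le) a2 b2

theorem exists_N {δ : ℝ} (hδ : 0 < δ) : ∃ N : ℕ, ∀ n : ℕ, N < n → 1 / (n : ℝ) ≤ δ := by
  obtain ⟨N, hN⟩ := exists_nat_one_div_lt hδ
  refine ⟨N, fun n hn => le_trans ?_ hN.le⟩
  have : (N : ℝ) + 1 ≤ n := by exact_mod_cast hn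
  exact one_div_le_one_div_of_le (by positivity) this

theorem ends {n i : ℕ} (hi : i < n) :
    (i : ℝ) / n ∈ Icc ((i : ℝ) / n) (((i : ℝ) + 1) / n) ∧
      ((i + 1 : ℕ) : ℝ) / n ∈ Icc ((i : ℝ) / n) (((i : ℝ) + 1) / n) := by
  have hn : (0 : ℝ) < n := Nat.cast_pos.2 (lt_of_le_of_lt (Nat.zero_le _) hi)
  have h : (i : ℝ) / n ≤ ((i : ℝ) + 1) / n := by gcongr; linarith
  push_cast
  exact ⟨⟨le_rfl, h⟩, ⟨h, le_rfl⟩⟩

theorem Un.step {δ : ℝ} {A B : ℝ → ℝ → P3} (h : Un δ A B) (hδ : 0 < δ)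
    (hc : ∀ s ∈ Icc (0 : ℝ) 1, A s 1 = A s 0 ∧ B s 1 = B s 0) {r r' : ℝ}
    (hr : r ∈ Icc (0 : ℝ) 1) (hr' : r' ∈ Icc (0 : ℝ) 1) (hd : |r' - r| ≤ δ) :
    lk (A r) (B r) = lk (A r') (B r') := by
  obtain ⟨N, hN⟩ := exists_N hδ
  have hn : 0 < N + 1 := Nat.succ_pos N
  have hnδ := hN (N + 1) (Nat.lt_succ_self N)
  generalize N + 1 = n at hn hnδ
  have hn' : (n : ℝ) ≠ 0 := (Nat.cast_pos.2 hn).ne'
  rw [lk_eq (h.good hδ hn hn hnδ hnδ hr) (hc r hr).1 (hc r hr).2,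
    lk_eq (h.good hδ hn hn hnδ hnδ hr') (hc r' hr').1 (hc r' hr').2]
  unfold lkN
  refine lkS_move n n _ _ _ _ ?_ ?_ ?_ ?_ ?_
  · simp [div_self hn', (hc r hr).1]
  · simp [div_self hn', (hc r' hr').1]
  · simp [div_self hn', (hc r hr).2]
  · simp [div_self hn', (hc r' hr').2]
  · intro i hi j hj
    obtain ⟨K, hK, h0, hm'⟩ := h r hr _ (grid_mem hi.le hn) _ (grid_mem hj.le hn)
    obtain ⟨a1, a2⟩ := cell_mem hi hnδ (ends hi).1
    obtain ⟨a3, a4⟩ := cell_mem hi hnδ (ends hi).2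
    obtain ⟨b1, b2⟩ := cell_mem hj hnδ (ends hj).1
    obtain ⟨b3, b4⟩ := cell_mem hj hnδ (ends hj).2
    have hrr : |r - r| ≤ δ := by simpa using hδ.le
    exact ⟨K, hK, h0, hm' r hr _ a1 _ b1 hrr a2 b2, hm' r hr _ a1 _ b3 hrr a2 b4,
      hm' r hr _ a3 _ b1 hrr a4 b2, hm' r hr _ a3 _ b3 hrr a4 b4,
      hm' r' hr' _ a1 _ b1 hd a2 b2, hm' r' hr' _ a1 _ b3 hd a2 b4,
      hm' r' hr' _ a3 _ b1 hd a4 b2, hm' r' hr' _ a3 _ b3 hd a4 b4⟩

theorem half1 {t : ℝ} (ht : t ∈ Icc (0 : ℝ) 1) : t / 2 ∈ Icc (0 : ℝ) 1 :=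
  ⟨by linarith [ht.1], by linarith [ht.2]⟩

theorem half2 {t : ℝ} (ht : t ∈ Icc (0 : ℝ) 1) : (t + 1) / 2 ∈ Icc (0 : ℝ) 1 :=
  ⟨by linarith [ht.1], by linarith [ht.2]⟩

theorem loop1 {A : ℝ → P3} (hA : IsLoop A) (h2 : A (1 / 2) = A 0) :
    IsLoop fun t => A (t / 2) :=
  ⟨hA.1.comp (f := fun t : ℝ => t / 2) (by fun_prop) fun _ ht => half1 ht, by
    show A (1 / 2) = A (0 / 2)
    rw [zero_div, h2]⟩

theorem loop2 {A : ℝ → P3} (hA : IsLoop A) (h2 : A (1 / 2) = A 0) :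
    IsLoop fun t => A ((t + 1) / 2) :=
  ⟨hA.1.comp (f := fun t : ℝ => (t + 1) / 2) (by fun_prop) fun _ ht => half2 ht, by
    show A ((1 + 1) / 2) = A ((0 + 1) / 2)
    rw [zero_add, h2, ← hA.2]
    norm_num⟩

theorem idx1 {n : ℕ} (hn : 0 < n) (i : ℕ) : (i : ℝ) / ((n + n : ℕ) : ℝ) = (i : ℝ) / n / 2 := by
  have : (n : ℝ) ≠ 0 := (Nat.cast_pos.2 hn).ne'
  push_cast
  field_simp
  ring

theorem idx2 {n : ℕ} (hn : 0 < n) (i : ℕ) :
    ((n + i : ℕ) : ℝ) / ((n + n : ℕ) : ℝ) = ((i : ℝ) / n + 1) / 2 := by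
  have : (n : ℝ) ≠ 0 := (Nat.cast_pos.2 hn).ne'
  push_cast
  field_simp
  ring

end LkHAux

open LkHAux

theorem good_exists {A B : ℝ → P3} (hA : ContinuousOn A (Icc 0 1)) (hB : ContinuousOn B (Icc 0 1))
    (h : Apart A B) : ∃ N : ℕ, ∀ n m, N < n → N < m → Good n m A B := by
  obtain ⟨δ, hδ, hu⟩ := unif (fun _ => A) (fun _ => B)
    (hA.comp (f := fun a : ℝ × ℝ => a.2) (by fun_prop) fun _ hx => hx.2)
    (hB.comp (f := fun a : ℝ × ℝ => a.2) (by fun_prop) fun _ hx => hx.2) fun _ _ => h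
  obtain ⟨N, hN⟩ := exists_N hδ
  exact ⟨N, fun n m hn hm => hu.good hδ (lt_of_le_of_lt (Nat.zero_le _) hn)
    (lt_of_le_of_lt (Nat.zero_le _) hm) (hN n hn) (hN m hm) (r := 0) ⟨le_rfl, zero_le_one⟩⟩

theorem lk_hom (A B : ℝ → ℝ → P3)
    (hA : ContinuousOn (fun a : ℝ × ℝ => A a.1 a.2) (Icc 0 1 ×ˢ Icc 0 1))
    (hB : ContinuousOn (fun a : ℝ × ℝ => B a.1 a.2) (Icc 0 1 ×ˢ Icc 0 1))
    (h : ∀ s ∈ Icc (0 : ℝ) 1, A s 1 = A s 0 ∧ B s 1 = B s 0 ∧ Apart (A s) (B s)) :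
    lk (A 0) (B 0) = lk (A 1) (B 1) := by
  obtain ⟨δ, hδ, hu⟩ := unif A B hA hB fun s hs => (h s hs).2.2
  obtain ⟨N, hN⟩ := exists_N hδ
  have hn : 0 < N + 1 := Nat.succ_pos N
  have hnδ := hN (N + 1) (Nat.lt_succ_self N)
  generalize N + 1 = n at hn hnδ
  have hn' : (n : ℝ) ≠ 0 := (Nat.cast_pos.2 hn).ne'
  have key : ∀ k ≤ n, lk (A 0) (B 0) = lk (A ((k : ℝ) / n)) (B ((k : ℝ) / n)) := by
    intro k
    induction k with
    | zero => intro _; simp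
    | succ k ih =>
      intro hk
      have hk' : k < n := hk
      rw [ih hk'.le]
      obtain ⟨a3, a4⟩ := cell_mem hk' hnδ (ends hk').2
      exact hu.step hδ (fun s hs => ⟨(h s hs).1, (h s hs).2.1⟩) (grid_mem hk'.le hn) a3 a4
  simpa [div_self hn'] using key n le_rfl

theorem lk_add_left (A B : ℝ → P3) (hA : IsLoop A) (hB : IsLoop B) (h : Apart A B)
    (h2 : A (1 / 2) = A 0) :
    lk A B = lk (fun t => A (t / 2)) B + lk (fun t => A ((t + 1) / 2)) B := by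
  have l1 := loop1 hA h2
  have l2 := loop2 hA h2
  obtain ⟨N0, g0⟩ := good_exists hA.1 hB.1 h
  obtain ⟨N1, g1⟩ := good_exists l1.1 hB.1 fun s hs t ht => h _ (half1 hs) t ht
  obtain ⟨N2, g2⟩ := good_exists l2.1 hB.1 fun s hs t ht => h _ (half2 hs) t ht
  obtain ⟨n, hn⟩ : ∃ n, n = N0 + N1 + N2 + 1 := ⟨_, rfl⟩
  have hp : 0 < n := by omega
  rw [lk_eq (g0 (n + n) n (by omega) (by omega)) hA.2 hB.2,
    lk_eq (g1 n n (by omega) (by omega)) l1.2 hB.2,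
    lk_eq (g2 n n (by omega) (by omega)) l2.2 hB.2]
  unfold lkN lkS
  rw [Finset.sum_range_add]
  simp only [Nat.add_assoc, idx2 hp]
  simp only [idx1 hp]

theorem lk_add_right (A B : ℝ → P3) (hA : IsLoop A) (hB : IsLoop B) (h : Apart A B)
    (h2 : B (1 / 2) = B 0) :
    lk A B = lk A (fun t => B (t / 2)) + lk A (fun t => B ((t + 1) / 2)) := by
  have l1 := loop1 hB h2
  have l2 := loop2 hB h2
  obtain ⟨N0, g0⟩ := good_exists hA.1 hB.1 h
  obtain ⟨N1, g1⟩ := good_exists hA.1 l1.1 fun s hs t ht => h s hs _ (half1 ht)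
  obtain ⟨N2, g2⟩ := good_exists hA.1 l2.1 fun s hs t ht => h s hs _ (half2 ht)
  obtain ⟨n, hn⟩ : ∃ n, n = N0 + N1 + N2 + 1 := ⟨_, rfl⟩
  have hp : 0 < n := by omega
  rw [lk_eq (g0 n (n + n) (by omega) (by omega)) hA.2 hB.2,
    lk_eq (g1 n n (by omega) (by omega)) hA.2 l1.2,
    lk_eq (g2 n n (by omega) (by omega)) hA.2 l2.2]
  unfold lkN lkS
  rw [← Finset.sum_add_distrib]
  refine Finset.sum_congr rfl fun i _ => ?_
  rw [Finset.sum_range_add]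
  simp only [Nat.add_assoc, idx2 hp]
  simp only [idx1 hp]


end K2

end Pool.Agent.Lib.MP_4d7d0a_gt
end
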