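import Pool.Agent.Lib.MP_4d7d0a_gt.AHp
import Pool.Agent.Lib.MP_4d7d0a_gt.K2Flip
import Pool.Agent.Lib.MP_4d7d0a_gt.K2LkH

-- part Pool.Agent.Lib.MP_4d7d0a_gt.ATw
section

/-! The profile of the surgery twist. -/

set_option autoImplicit false

open Set Filter Topology
open scoped ContDiff

namespace Pool.Agent.Lib.MP_4d7d0a_gt

namespace ATwAux

/-- a step from `0` to `1` on `[99/100, 1]` -/
noncomputable def St (p : ℝ) : ℝ := Real.smoothTransition (100 * p - 99)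

theorem St_sm : ContDiff ℝ ∞ St :=
  Real.smoothTransition.contDiff.comp ((contDiff_const.mul contDiff_id).sub contDiff_const)

theorem St_zero {p : ℝ} (hp : p ≤ 99 / 100) : St p = 0 :=
  Real.smoothTransition.zero_of_nonpos (by linarith)

theorem St_one {p : ℝ} (hp : 1 ≤ p) : St p = 1 :=
  Real.smoothTransition.one_of_one_le (by linarith)

theorem St_le (p : ℝ) : St p ≤ 1 := Real.smoothTransition.le_one _

theorem St_mono : Monotone St := fun a b h =>
  Real.smoothTransition.monotone (by linarith)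

theorem St_der (p : ℝ) : HasDerivAt St (deriv St p) p :=
  ((St_sm.differentiable (by simp)) p).hasDerivAt

theorem St_key (p : ℝ) : 0 ≤ deriv St p * (1 - p) := by
  rcases le_or_gt p 1 with h | h
  · exact mul_nonneg St_mono.deriv_nonneg (by linarith)
  · have h1 : St =ᶠ[𝓝 p] fun _ => (1 : ℝ) := by
      filter_upwards [Ioi_mem_nhds h] with s hs using St_one (le_of_lt hs)
    rw [h1.deriv_eq]; simp

/-- the odd profile -/
noncomputable def RR (p : ℝ) : ℝ := p + St p * (1 - p) - St (-p) * (1 + p)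

theorem RR_sm : ContDiff ℝ ∞ RR :=
  (contDiff_id.add (St_sm.mul (contDiff_const.sub contDiff_id))).sub
    ((St_sm.comp contDiff_neg).mul (contDiff_const.add contDiff_id))

theorem RR_odd (p : ℝ) : RR (-p) = -RR p := by
  simp only [RR, neg_neg]; ring

theorem RR_hasDer (p : ℝ) : HasDerivAt RR
    (1 - St p - St (-p) + deriv St p * (1 - p) + deriv St (-p) * (1 - -p)) p := by
  have h1 : HasDerivAt (fun x => St (-x)) (deriv St (-p) * -1) p :=
    (St_der (-p)).comp p (hasDerivAt_neg p)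
  have h := ((hasDerivAt_id p).add ((St_der p).mul ((hasDerivAt_id p).const_sub 1))).sub
    (h1.mul ((hasDerivAt_id p).const_add 1))
  refine HasDerivAt.congr_deriv h ?_
  simp only [id]
  ring

theorem RR_der (p : ℝ) : 0 ≤ deriv RR p := by
  rw [(RR_hasDer p).deriv]
  have h1 := St_key p
  have h2 := St_key (-p)
  have h3 : St p + St (-p) ≤ 1 := by
    rcases le_total p 0 with h | h
    · rw [St_zero (p := p) (by linarith)]; linarith [St_le (-p)]
    · rw [St_zero (p := -p) (by linarith)]; linarith [St_le p]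
  linarith

theorem RR_der_even (p : ℝ) : deriv RR (-p) = deriv RR p := by
  rw [(RR_hasDer p).deriv, (RR_hasDer (-p)).deriv, neg_neg]; ring

theorem RR_mid {p : ℝ} (hp : |p| ≤ 99 / 100) : RR p = p := by
  obtain ⟨h1, h2⟩ := abs_le.mp hp
  simp only [RR, St_zero h2, St_zero (p := -p) (by linarith)]; ring

theorem RR_one {p : ℝ} (hp : 1 ≤ p) : RR p = 1 := by
  simp only [RR, St_one hp, St_zero (p := -p) (by linarith)]; ring

theorem RR_der_zero {p : ℝ} (hp : 1 < p) : deriv RR p = 0 := by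
  have h1 : RR =ᶠ[𝓝 p] fun _ => (1 : ℝ) := by
    filter_upwards [Ioi_mem_nhds hp] with s hs using RR_one (le_of_lt hs)
  rw [h1.deriv_eq]; simp

theorem RR1_sm : ContDiff ℝ ∞ (deriv RR) := (contDiff_infty_iff_deriv.mp RR_sm).2

theorem gg_sm : ContDiff ℝ ∞ fun s : ℝ => -(s * deriv RR s) / 4 :=
  ((contDiff_id.mul RR1_sm).neg).div_const 4

/-- the logarithmic scaling -/
noncomputable def be (p : ℝ) : ℝ := ∫ s in (2 : ℝ)..p, -(s * deriv RR s) / 4

theorem be_der (p : ℝ) : HasDerivAt be (-(p * deriv RR p) / 4) p :=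
  (gg_sm.continuous.integral_hasStrictDerivAt 2 p).hasDerivAt

theorem be_diff : Differentiable ℝ be := fun p => (be_der p).differentiableAt

theorem be_sm : ContDiff ℝ ∞ be := by
  rw [contDiff_infty_iff_deriv]
  refine ⟨be_diff, ?_⟩
  have h : deriv be = fun s : ℝ => -(s * deriv RR s) / 4 := funext fun p => (be_der p).deriv
  rw [h]; exact gg_sm

theorem be_even (p : ℝ) : be (-p) = be p := by
  have hd : ∀ x, HasDerivAt (fun x => be (-x) - be x) 0 x := by
    intro x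
    have h1 : HasDerivAt (fun x => be (-x)) (-(-x * deriv RR (-x)) / 4 * -1) x :=
      (be_der (-x)).comp x (hasDerivAt_neg x)
    refine HasDerivAt.congr_deriv (h1.sub (be_der x)) ?_
    rw [RR_der_even]; ring
  have h := is_const_of_deriv_eq_zero (fun x => (hd x).differentiableAt) (fun x => (hd x).deriv) p 0
  simp only [neg_zero, sub_self] at h
  linarith

theorem be_zero_pos {p : ℝ} (hp : 2 ≤ p) : be p = 0 := by
  unfold be
  rw [intervalIntegral.integral_congr (g := fun _ => (0 : ℝ))]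
  · simp
  · intro s hs
    rw [uIcc_of_le hp] at hs
    simp only [RR_der_zero (p := s) (by linarith [hs.1]), mul_zero, neg_zero, zero_div]

theorem be_abs (p : ℝ) : be |p| = be p := by
  rcases abs_choice p with h | h
  · rw [h]
  · rw [h, be_even]

theorem be_mem_pos {p : ℝ} (hp : 0 ≤ p) : 0 ≤ be p ∧ be p ≤ 1 := by
  rcases le_total 2 p with h2 | h2
  · rw [be_zero_pos h2]; exact ⟨le_rfl, zero_le_one⟩
  have hR : ∀ x, HasDerivAt RR (deriv RR x) x := fun x =>
    ((RR_sm.differentiable (by simp)) x).hasDerivAt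
  have e2 : be 2 = 0 := be_zero_pos le_rfl
  constructor
  · have h : AntitoneOn be (Icc 0 2) := by
      refine antitoneOn_of_deriv_nonpos (convex_Icc 0 2) be_diff.continuous.continuousOn
        be_diff.differentiableOn fun x hx => ?_
      rw [interior_Icc] at hx
      rw [(be_der x).deriv]
      have := mul_nonneg hx.1.le (RR_der x)
      linarith
    have := h ⟨hp, h2⟩ ⟨zero_le_two, le_rfl⟩ h2
    linarith
  · have hd : ∀ x, HasDerivAt (fun x => be x + RR x / 2)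
        (-(x * deriv RR x) / 4 + deriv RR x / 2) x := fun x => (be_der x).add ((hR x).div_const 2)
    have h : MonotoneOn (fun x => be x + RR x / 2) (Icc 0 2) := by
      refine monotoneOn_of_deriv_nonneg (convex_Icc 0 2)
        (fun x _ => (hd x).continuousAt.continuousWithinAt)
        (fun x _ => (hd x).differentiableAt.differentiableWithinAt) fun x hx => ?_
      rw [interior_Icc] at hx
      rw [(hd x).deriv]
      have := mul_nonneg (sub_nonneg.mpr hx.2.le) (RR_der x)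
      nlinarith
    have h3 := h ⟨hp, h2⟩ ⟨zero_le_two, le_rfl⟩ h2
    have h4 : Monotone RR := monotone_of_deriv_nonneg (RR_sm.differentiable (by simp)) RR_der
    have h5 := h4 hp
    rw [RR_mid (p := 0) (by norm_num)] at h5
    simp only [e2, RR_one (p := 2) (by norm_num)] at h3
    linarith

/-- the cut-off -/
noncomputable def ch (T : ℝ) : ℝ :=
  Real.smoothTransition ((T + 3 / 4) * 5) * Real.smoothTransition ((41 + 3 / 4 - T) * 5)

theorem ch_sm : ContDiff ℝ ∞ ch :=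
  (Real.smoothTransition.contDiff.comp ((contDiff_id.add contDiff_const).mul contDiff_const)).mul
    (Real.smoothTransition.contDiff.comp ((contDiff_const.sub contDiff_id).mul contDiff_const))

/-- a function of the slope read as a function of the angle -/
noncomputable def GG (F : ℝ → ℝ) (c d a : ℝ) : ℝ :=
  (⌊a / Real.pi⌋ : ℝ) * d + if Real.sin a = 0 then c else F (Real.cos a / Real.sin a)

theorem GG_int (F : ℝ → ℝ) (c d a : ℝ) (k : ℤ) :
    GG F c d (a + k * Real.pi) = GG F c d a + k * d := by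
  have hp := Real.pi_ne_zero
  have h1 : (a + k * Real.pi) / Real.pi = a / Real.pi + k := by field_simp
  have hs : ((-1 : ℝ) ^ k) ≠ 0 := zpow_ne_zero _ (by norm_num)
  unfold GG
  rw [h1, Int.floor_add_intCast, Real.sin_add_int_mul_pi, Real.cos_add_int_mul_pi,
    mul_div_mul_left _ _ hs]
  simp only [mul_eq_zero, hs, false_or]
  push_cast
  ring

theorem GG_up (F : ℝ → ℝ) (c d : ℝ) {a : ℝ} (h0 : 0 < a) (h1 : a < Real.pi) :
    GG F c d a = F (Real.cos a / Real.sin a) := by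
  have hp := Real.pi_pos
  have h2 : ⌊a / Real.pi⌋ = 0 := by
    rw [Int.floor_eq_zero_iff]
    exact ⟨by positivity, (div_lt_one hp).mpr h1⟩
  have h3 := Real.sin_pos_of_pos_of_lt_pi h0 h1
  unfold GG
  rw [h2, if_neg h3.ne']
  simp

theorem GG_down (F : ℝ → ℝ) (c d : ℝ) {a : ℝ} (h0 : -Real.pi < a) (h1 : a < 0) :
    GG F c d a = F (Real.cos a / Real.sin a) - d := by
  have h := GG_int F c d a 1
  rw [GG_up F c d (by push_cast; linarith) (by push_cast; linarith), Real.sin_add_int_mul_pi,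
    Real.cos_add_int_mul_pi, mul_div_mul_left _ _ (by norm_num)] at h
  push_cast at h
  linarith

theorem GG_zero (F : ℝ → ℝ) (c d : ℝ) : GG F c d 0 = c := by
  simp [GG]

theorem GG_near {F : ℝ → ℝ} {c d : ℝ} (hc : ∀ p, 2 ≤ p → F p = c)
    (hd : ∀ p, p ≤ -2 → F p = c + d) : GG F c d =ᶠ[𝓝 0] fun _ => c := by
  have hp := Real.pi_pos
  have h1 : ∀ᶠ a in 𝓝 (0 : ℝ), 2 * |Real.sin a| < Real.cos a :=
    ContinuousAt.eventually_lt (by fun_prop) (by fun_prop) (by simp)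
  filter_upwards [h1, Ioo_mem_nhds (neg_lt_zero.mpr hp) hp] with a ha hb
  rcases lt_trichotomy a 0 with h | h | h
  · have h3 : Real.sin a < 0 := Real.sin_neg_of_neg_of_neg_pi_lt h hb.1
    rw [GG_down F c d hb.1 h, hd]
    · ring
    · rw [div_le_iff_of_neg h3]
      rw [abs_of_neg h3] at ha
      linarith
  · rw [h, GG_zero]
  · have h3 := Real.sin_pos_of_pos_of_lt_pi h hb.2
    rw [GG_up F c d h hb.2, hc]
    rw [le_div_iff₀ h3]
    rw [abs_of_pos h3] at ha
    linarith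

theorem reduce (a : ℝ) : ∃ (k : ℤ) (b : ℝ), a = b + k * Real.pi ∧ 0 ≤ b ∧ b < Real.pi := by
  have hp := Real.pi_pos
  refine ⟨⌊a / Real.pi⌋, a - ⌊a / Real.pi⌋ * Real.pi, by ring, ?_, ?_⟩
  · have := (le_div_iff₀ hp).mp (Int.floor_le (a / Real.pi))
    linarith
  · have := (div_lt_iff₀ hp).mp (Int.lt_floor_add_one (a / Real.pi))
    linarith

theorem GG_shift (F : ℝ → ℝ) (c d : ℝ) (k : ℤ) :
    GG F c d = fun a => GG F c d (a - k * Real.pi) + k * d := by
  funext a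
  rw [← GG_int, sub_add_cancel]

theorem GG_loc (F : ℝ → ℝ) (c d : ℝ) {b : ℝ} (h0 : 0 < b) (h1 : b < Real.pi) :
    GG F c d =ᶠ[𝓝 b] fun a => F (Real.cos a / Real.sin a) := by
  filter_upwards [Ioo_mem_nhds h0 h1] with a ha using GG_up F c d ha.1 ha.2

theorem GG_sm {F : ℝ → ℝ} {c d : ℝ} (hF : ContDiff ℝ ∞ F) (hc : ∀ p, 2 ≤ p → F p = c)
    (hd : ∀ p, p ≤ -2 → F p = c + d) : ContDiff ℝ ∞ (GG F c d) := by
  rw [contDiff_iff_contDiffAt]
  intro a
  obtain ⟨k, b, rfl, h0, h1⟩ := reduce a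
  have key : ContDiffAt ℝ ∞ (GG F c d) b := by
    rcases h0.eq_or_lt with h | h
    · subst h
      exact contDiffAt_const.congr_of_eventuallyEq (GG_near hc hd)
    · refine ContDiffAt.congr_of_eventuallyEq ?_ (GG_loc F c d h h1)
      exact hF.contDiffAt.comp b (Real.contDiff_cos.contDiffAt.div Real.contDiff_sin.contDiffAt
        (Real.sin_pos_of_pos_of_lt_pi h h1).ne')
  rw [GG_shift F c d k]
  refine ContDiffAt.add (ContDiffAt.comp (g := GG F c d) _ ?_
    (contDiffAt_id.sub contDiffAt_const)) contDiffAt_const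
  simpa using key

theorem GG_deriv_int (F : ℝ → ℝ) (c d b : ℝ) (k : ℤ) :
    deriv (GG F c d) (b + k * Real.pi) = deriv (GG F c d) b := by
  have h : (fun a => GG F c d (a + k * Real.pi)) = fun a => GG F c d a + k * d :=
    funext fun a => GG_int F c d a k
  rw [← deriv_comp_add_const, h, deriv_add_const]

theorem GG_deriv_up {F : ℝ → ℝ} (c d : ℝ) {b F' : ℝ} (h0 : 0 < b) (h1 : b < Real.pi)
    (hF : HasDerivAt F F' (Real.cos b / Real.sin b)) :
    deriv (GG F c d) b = -F' / Real.sin b ^ 2 := by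
  have hs := (Real.sin_pos_of_pos_of_lt_pi h0 h1).ne'
  have h2 := (Real.hasDerivAt_cos b).div (Real.hasDerivAt_sin b) hs
  have h3 : HasDerivAt (fun a => F (Real.cos a / Real.sin a)) _ b := hF.comp b h2
  rw [(GG_loc F c d h0 h1).deriv_eq, h3.deriv]
  have h4 := Real.sin_sq_add_cos_sq b
  field_simp
  linear_combination (-F') * h4

theorem polar (y z : ℝ) (hz : z ≠ 0) : ∃ ρ a : ℝ, 0 < ρ ∧ ρ ^ 2 = y ^ 2 + z ^ 2 ∧
    ρ * Real.cos a = y ∧ ρ * Real.sin a = z ∧ Real.cos a / Real.sin a = y / z ∧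
    (0 < z → 0 < a ∧ a < Real.pi) ∧ (z < 0 → -Real.pi < a ∧ a < 0) := by
  have hw : (⟨y, z⟩ : ℂ) ≠ 0 := fun h => hz (congrArg Complex.im h)
  have h0 : 0 < ‖(⟨y, z⟩ : ℂ)‖ := norm_pos_iff.mpr hw
  have h1 : ‖(⟨y, z⟩ : ℂ)‖ * Real.cos (Complex.arg ⟨y, z⟩) = y := Complex.norm_mul_cos_arg _
  have h2 : ‖(⟨y, z⟩ : ℂ)‖ * Real.sin (Complex.arg ⟨y, z⟩) = z := Complex.norm_mul_sin_arg _
  refine ⟨‖(⟨y, z⟩ : ℂ)‖, Complex.arg ⟨y, z⟩, h0, ?_, h1, h2, ?_, fun h => ⟨?_, ?_⟩,
    fun h => ⟨Complex.neg_pi_lt_arg _, Complex.arg_neg_iff.mpr h⟩⟩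
  · rw [Complex.sq_norm, Complex.normSq_mk]; ring
  · rw [← mul_div_mul_left _ _ h0.ne', h1, h2]
  · refine lt_of_le_of_ne (Complex.arg_nonneg_iff.mpr h.le) fun h3 => hz ?_
    rw [← h3, Real.sin_zero, mul_zero] at h2
    exact h2.symm
  · exact Complex.arg_lt_pi_iff.mpr (Or.inr hz)

end ATwAux

open ATwAux in
theorem exists_tw : Nonempty Tw := by
  refine ⟨⟨RR, be, ch, RR_sm, be_sm, ch_sm, RR_odd, RR_der, fun _ h => RR_mid h,
    fun _ h => RR_one (by linarith), be_der, fun p h => ?_, be_even, fun p => ?_,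
    fun T h1 h2 => ?_, fun T h => ?_, fun T => ⟨?_, ?_⟩⟩⟩
  · rw [← be_abs]; exact be_zero_pos h
  · rw [← be_abs]; exact be_mem_pos (abs_nonneg p)
  · unfold ch
    rw [Real.smoothTransition.one_of_one_le (by linarith),
      Real.smoothTransition.one_of_one_le (by linarith), mul_one]
  · unfold ch
    rcases h with h | h
    · rw [Real.smoothTransition.zero_of_nonpos (x := (T + 3 / 4) * 5) (by linarith), zero_mul]
    · rw [Real.smoothTransition.zero_of_nonpos (x := (41 + 3 / 4 - T) * 5) (by linarith), mul_zero]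
  · exact mul_nonneg (Real.smoothTransition.nonneg _) (Real.smoothTransition.nonneg _)
  · exact mul_le_one₀ (Real.smoothTransition.le_one _) (Real.smoothTransition.nonneg _)
      (Real.smoothTransition.le_one _)

open ATwAux in
theorem exists_AB (tw : Tw) : ∃ A B : ℝ → ℝ, ContDiff ℝ ∞ A ∧ ContDiff ℝ ∞ B ∧
    (∀ a, A (a + 2 * Real.pi) = A a + 1) ∧ (∀ a, B (a + 2 * Real.pi) = B a) ∧
    (∀ a, Real.sin a * deriv B a = Real.cos a * deriv A a) ∧
    ∀ (K : ℝ → P3) (M : Type) [TopologicalSpace M] [ChartedSpace P3 M] (sd : SD K M),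
      sd.A = A → sd.B = B → Cart tw sd := by
  have hp := Real.pi_pos
  have Rneg : ∀ p, p ≤ -2 → tw.R p = -1 := by
    intro p h
    have h1 := tw.R_odd (-p)
    rw [neg_neg, tw.R_one (-p) (by linarith)] at h1
    exact h1
  have bpos : ∀ p, 2 ≤ p → tw.β p = 0 := fun p h => tw.β_zero p (h.trans (le_abs_self p))
  have bneg : ∀ p, p ≤ -2 → tw.β p = 0 := fun p h =>
    tw.β_zero p (le_trans (by linarith) (neg_le_abs p))
  have hc : ∀ p, 2 ≤ p → (fun p => 127 / 172 - tw.R p / 4) p = 42 / 86 := by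
    intro p h; simp only [tw.R_one p h]; norm_num
  have hd : ∀ p, p ≤ -2 → (fun p => 127 / 172 - tw.R p / 4) p = 42 / 86 + 1 / 2 := by
    intro p h; simp only [Rneg p h]; norm_num
  have hd' : ∀ p, p ≤ -2 → tw.β p = 0 + 0 := by
    intro p h; rw [bneg p h, add_zero]
  refine ⟨GG (fun p => 127 / 172 - tw.R p / 4) (42 / 86) (1 / 2), GG tw.β 0 0,
    GG_sm (contDiff_const.sub (tw.R_sm.div_const 4)) hc hd, GG_sm tw.β_sm bpos hd',
    fun a => ?_, fun a => ?_, fun a => ?_, ?_⟩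
  · have h := GG_int (fun p => 127 / 172 - tw.R p / 4) (42 / 86) (1 / 2) a 2
    push_cast at h
    rw [h]; norm_num
  · have h := GG_int tw.β 0 0 a 2
    push_cast at h
    rw [h]; norm_num
  · obtain ⟨k, b, rfl, h0, h1⟩ := reduce a
    rw [GG_deriv_int, GG_deriv_int, Real.sin_add_int_mul_pi, Real.cos_add_int_mul_pi, mul_assoc,
      mul_assoc]
    congr 1
    rcases h0.eq_or_lt with h | h
    · subst h
      rw [(GG_near hc hd).deriv_eq]
      simp
    · have hR : HasDerivAt tw.R (deriv tw.R (Real.cos b / Real.sin b)) (Real.cos b / Real.sin b) :=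
        ((tw.R_sm.differentiable (by simp)) _).hasDerivAt
      rw [GG_deriv_up 0 0 h h1 (tw.β_der _),
        GG_deriv_up (42 / 86) (1 / 2) h h1 ((hR.div_const 4).const_sub (127 / 172))]
      have hs := (Real.sin_pos_of_pos_of_lt_pi h h1).ne'
      generalize deriv tw.R (Real.cos b / Real.sin b) = D
      field_simp
  · intro K M _ _ sd hA hB
    have hr := sd.r'_pos
    have up : ∀ x y z : ℝ, y ^ 2 + z ^ 2 < sd.r' ^ 2 → 0 < z →
        sd.nu (x + 127 / 172 - tw.R (y / z) / 4, Real.exp (tw.β (y / z)) * y,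
            Real.exp (tw.β (y / z)) * z) ∉ range K ∧
          sd.ns (x, y, z) = sd.psi (sd.nu (x + 127 / 172 - tw.R (y / z) / 4,
            Real.exp (tw.β (y / z)) * y, Real.exp (tw.β (y / z)) * z)) := by
      intro x y z h hz
      obtain ⟨ρ, a, h0, h1, h2, h3, h4, h5, _⟩ := polar y z hz.ne'
      obtain ⟨h6, h7⟩ := h5 hz
      have h8 := sd.ns_eq (x := x) (a := a) h0 (lt_of_pow_lt_pow_left₀ 2 hr.le (by linarith))
      rw [hA, hB, GG_up _ _ _ h6 h7, GG_up _ _ _ h6 h7, h4, mul_comm ρ, mul_assoc, mul_assoc, h2,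
        h3, ← add_sub_assoc] at h8
      exact h8
    have down : ∀ x y z : ℝ, y ^ 2 + z ^ 2 < sd.r' ^ 2 → z < 0 →
        sd.nu (x + 41 / 172 - tw.R (y / z) / 4, Real.exp (tw.β (y / z)) * y,
            Real.exp (tw.β (y / z)) * z) ∉ range K ∧
          sd.ns (x, y, z) = sd.psi (sd.nu (x + 41 / 172 - tw.R (y / z) / 4,
            Real.exp (tw.β (y / z)) * y, Real.exp (tw.β (y / z)) * z)) := by
      intro x y z h hz
      obtain ⟨ρ, a, h0, h1, h2, h3, h4, _, h5⟩ := polar y z hz.ne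
      obtain ⟨h6, h7⟩ := h5 hz
      have h8 := sd.ns_eq (x := x) (a := a) h0 (lt_of_pow_lt_pow_left₀ 2 hr.le (by linarith))
      have e : x + (127 / 172 - tw.R (y / z) / 4 - 1 / 2) = x + 41 / 172 - tw.R (y / z) / 4 := by
        ring
      rw [hA, hB, GG_down _ _ _ h6 h7, GG_down _ _ _ h6 h7, h4, sub_zero, mul_comm ρ, mul_assoc,
        mul_assoc, h2, h3, e] at h8
      exact h8
    refine ⟨fun p => ?_, up, down, fun x y z h hy hz => ?_, fun x y z h hy hz => ?_⟩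
    · obtain ⟨ρ, a, _, _, _, _, h4, h5, _⟩ := polar p 1 one_ne_zero
      obtain ⟨h6, h7⟩ := h5 one_pos
      have h8 := sd.B_le a
      rw [hB, GG_up _ _ _ h6 h7, h4, div_one] at h8
      exact h8
    · rcases lt_trichotomy z 0 with h0 | h0 | h0
      · have h1 : y / z ≤ -2 := by
          rw [div_le_iff_of_neg h0]; rw [abs_of_neg h0] at hz; linarith
        have h2 := down x y z h h0
        have e : x + 41 / 172 - -1 / 4 = x + 42 / 86 := by ring
        rw [Rneg _ h1, bneg _ h1, Real.exp_zero, one_mul, one_mul, e] at h2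
        exact h2
      · subst h0
        have h2 := sd.ns_eq (x := x) (a := 0) hy (lt_of_pow_lt_pow_left₀ 2 hr.le (by linarith))
        rw [hA, hB, GG_zero, GG_zero, Real.exp_zero, Real.cos_zero, Real.sin_zero] at h2
        simpa only [mul_one, mul_zero] using h2
      · have h1 : 2 ≤ y / z := by
          rw [le_div_iff₀ h0]; rw [abs_of_pos h0] at hz; linarith
        have h2 := up x y z h h0
        have e : x + 127 / 172 - 1 / 4 = x + 42 / 86 := by ring
        rw [tw.R_one _ h1, bpos _ h1, Real.exp_zero, one_mul, one_mul, e] at h2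
        exact h2
    · rcases lt_trichotomy z 0 with h0 | h0 | h0
      · have h1 : 2 ≤ y / z := by
          rw [le_div_iff_of_neg h0]; rw [abs_of_neg h0] at hz; linarith
        have h2 := down x y z h h0
        have e : x + 41 / 172 - 1 / 4 = x - 1 / 86 := by ring
        rw [tw.R_one _ h1, bpos _ h1, Real.exp_zero, one_mul, one_mul, e] at h2
        exact h2
      · subst h0
        have h2 := sd.ns_eq (x := x) (a := 0 + ((-1 : ℤ) : ℝ) * Real.pi) (neg_pos.mpr hy)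
          (lt_of_pow_lt_pow_left₀ 2 hr.le (by linarith))
        have e : x + (42 / 86 + ((-1 : ℤ) : ℝ) * (1 / 2)) = x - 1 / 86 := by push_cast; ring
        have e1 : -y * Real.exp (0 + ((-1 : ℤ) : ℝ) * 0) * ((-1) ^ (-1 : ℤ) * 1) = y := by simp
        have e2 : -y * ((-1) ^ (-1 : ℤ) * 1) = y := by simp
        rw [hA, hB, GG_int, GG_int, GG_zero, GG_zero, Real.sin_add_int_mul_pi,
          Real.cos_add_int_mul_pi, Real.cos_zero, Real.sin_zero, e, e1, e2] at h2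
        simpa only [mul_zero] using h2
      · have h1 : y / z ≤ -2 := by
          rw [div_le_iff₀ h0]; rw [abs_of_pos h0] at hz; linarith
        have h2 := up x y z h h0
        have e : x + 127 / 172 - -1 / 4 = x - 1 / 86 + 1 := by ring
        rw [Rneg _ h1, bneg _ h1, Real.exp_zero, one_mul, one_mul, e,
          sd.nu_tube.1 (x - 1 / 86, y, z)] at h2
        exact h2

end Pool.Agent.Lib.MP_4d7d0a_gt
end

-- part Pool.Agent.Lib.MP_4d7d0a_gt.K2Rfn
section

/-! Part K2: refinements of partitions and of polygons. -/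

set_option autoImplicit false

open Set Filter Topology

namespace Pool.Agent.Lib.MP_4d7d0a_gt

namespace K2

variable {ι κ κ' : Type}

namespace RfnAux

theorem pt_eq (P : PG ι) (e : ι) (u : ℝ) : P.pt e u = P.pos e + u • dir P e := by
  rw [PG.pt, AffineMap.lineMap_apply, vsub_eq_sub, vadd_eq_add, add_comm, dir]

theorem pt_next (P : PG ι) (e : ι) : P.pt e 1 = P.pt (P.σ e) 0 := by
  simp [PG.pt]

theorem conv {X Y : P3} {e s : ℝ} (hs : s ∈ Icc (0 : ℝ) 1) (hX : ‖X‖ ≤ e) (hY : ‖Y‖ ≤ e) :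
    ‖(1 - s) • X + s • Y‖ ≤ e := by
  have h1 : 0 ≤ 1 - s := sub_nonneg.2 hs.2
  refine (norm_add_le _ _).trans ?_
  rw [norm_smul, norm_smul, Real.norm_of_nonneg h1, Real.norm_of_nonneg hs.1]
  have h2 := mul_le_mul_of_nonneg_left hX h1
  have h3 := mul_le_mul_of_nonneg_left hY hs.1
  linarith

end RfnAux

/-- a partition containing the starting points of another one refines it -/
theorem Part.refine [Finite κ] [Finite κ'] {σ : Equiv.Perm ι} {τ : Equiv.Perm κ} {p : κ → ι}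
    {a b : κ → ℝ} {τ' : Equiv.Perm κ'} {p' : κ' → ι} {a' b' : κ' → ℝ} (h : Part σ τ p a b)
    (h' : Part σ τ' p' a' b') (hs : ∀ k, ∃ k', p' k' = p k ∧ a' k' = a k) :
    ∃ r : κ' → κ, (∀ k', p (r k') = p' k' ∧ a (r k') ≤ a' k' ∧ b' k' ≤ b (r k')) ∧
      Part τ τ' r (fun k' => (a' k' - a (r k')) / (b (r k') - a (r k')))
        fun k' => (b' k' - a (r k')) / (b (r k') - a (r k')) := by
  have h0 : ∀ k', ∃ k, p k = p' k' ∧ a k ≤ a' k' ∧ a' k' < b k := fun k' =>
    h.cover (p' k') (a' k') ⟨h'.a_nonneg k', (h'.lt k').trans_le (h'.b_le k')⟩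
  choose r r1 r2 r3 using h0
  have r4 : ∀ k', b' k' ≤ b (r k') := by
    intro k'
    by_contra hc
    have h1 := not_le.1 hc
    obtain ⟨m1, m2⟩ := h.mid (r k') (h1.trans_le (h'.b_le k'))
    obtain ⟨k'', e1, e2⟩ := hs (τ (r k'))
    have h2 : k' = k'' := h'.disj k' k'' (by rw [e1, m1, r1])
      ((r3 k').trans (by rw [← m2, ← e2]; exact h'.lt k'')) (by rw [e2, m2]; exact h1)
    subst h2
    exact (r3 k').ne (e2.trans m2)
  have hu : ∀ k' k, p k = p' k' → a k ≤ a' k' → a' k' < b k → r k' = k := fun k' k e1 e2 e3 =>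
    h.disj _ _ (by rw [r1, e1]) ((r2 k').trans_lt e3) (e2.trans_lt (r3 k'))
  have hD : ∀ k', 0 < b (r k') - a (r k') := fun k' => sub_pos.2 (h.lt _)
  refine ⟨r, fun k' => ⟨r1 k', r2 k', r4 k'⟩, fun k' => div_nonneg (sub_nonneg.2 (r2 k')) (hD k').le,
    fun k' => div_lt_div_of_pos_right (sub_lt_sub_right (h'.lt k') _) (hD k'),
    fun k' => (div_le_one (hD k')).2 (sub_le_sub_right (r4 k') _), fun k' h1 => ?_,
    fun k' h1 => ?_, fun k1 k2 e h1 h2 => ?_, fun v u hu' => ?_⟩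
  · have h2 : b' k' < b (r k') := by
      have := (div_lt_one (hD k')).1 h1
      linarith
    obtain ⟨m1, m2⟩ := h'.mid k' (h2.trans_le (h.b_le _))
    have h3 : r (τ' k') = r k' :=
      hu _ _ (by rw [r1, m1]) (by rw [m2]; exact (r2 k').trans (h'.lt k').le) (by rw [m2]; exact h2)
    exact ⟨h3, by rw [h3, m2]⟩
  · have h2 : b' k' = b (r k') := by
      have := (div_eq_one_iff_eq (hD k').ne').1 h1
      linarith
    have h3 : p (τ (r k')) = p' (τ' k') ∧ a (τ (r k')) = a' (τ' k') := by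
      rcases (h.b_le (r k')).eq_or_lt with h4 | h4
      · obtain ⟨m1, m2⟩ := h.last _ h4
        obtain ⟨n1, n2⟩ := h'.last k' (h2.trans h4)
        exact ⟨by rw [m1, n1, r1], by rw [m2, n2]⟩
      · obtain ⟨m1, m2⟩ := h.mid _ h4
        obtain ⟨n1, n2⟩ := h'.mid k' (h2.trans_lt h4)
        exact ⟨by rw [m1, n1, r1], by rw [m2, n2, h2]⟩
    have h4 : r (τ' k') = τ (r k') := hu _ _ h3.1 h3.2.le (h3.2 ▸ h.lt _)
    exact ⟨h4, by rw [h4, h3.2, sub_self, zero_div]⟩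
  · rw [e] at h1 h2
    have h3 := (div_lt_div_iff_of_pos_right (hD k2)).1 h1
    have h4 := (div_lt_div_iff_of_pos_right (hD k2)).1 h2
    exact h'.disj k1 k2 (by rw [← r1, ← r1, e]) (by linarith) (by linarith)
  · have hv : 0 < b v - a v := sub_pos.2 (h.lt v)
    have t1 : a v ≤ a v + u * (b v - a v) := le_add_of_nonneg_right (mul_nonneg hu'.1 hv.le)
    have t2 : a v + u * (b v - a v) < b v := by
      have := mul_lt_mul_of_pos_right hu'.2 hv
      linarith
    obtain ⟨k', e1, e2, e3⟩ := h'.cover (p v) (a v + u * (b v - a v))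
      ⟨(h.a_nonneg v).trans t1, t2.trans_le (h.b_le v)⟩
    have h3 : r k' = v := h.disj _ _ (by rw [r1, e1]) (((r2 k').trans e2).trans_lt t2)
      ((t1.trans_lt e3).trans_le (r4 k'))
    refine ⟨k', h3, ?_, ?_⟩
    · rw [h3, div_le_iff₀ hv]
      linarith
    · rw [h3, lt_div_iff₀ hv]
      linarith

/-- common refinement -/
theorem Part.common [Finite κ] [Finite κ'] {σ : Equiv.Perm ι} {τ : Equiv.Perm κ} {p : κ → ι}
    {a b : κ → ℝ} {τ' : Equiv.Perm κ'} {p' : κ' → ι} {a' b' : κ' → ℝ} (h : Part σ τ p a b)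
    (h' : Part σ τ' p' a' b') :
    ∃ (μ : Type) (_ : Finite μ) (ρ : Equiv.Perm μ) (s : μ → ι) (x y : μ → ℝ), Part σ ρ s x y ∧
      (∀ k, ∃ m, s m = p k ∧ x m = a k) ∧ ∀ k', ∃ m, s m = p' k' ∧ x m = a' k' := by
  have hF : (range (fun k => (p k, a k)) ∪ range fun k' => (p' k', a' k')).Finite :=
    (finite_range _).union (finite_range _)
  obtain ⟨ρ, y, hρ⟩ := part_of_set σ _ hF
    (fun v => by
      obtain ⟨k, e1, e2⟩ := h.exists_first v
      exact Or.inl ⟨k, Prod.ext e1 e2⟩)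
    (by
      rintro _ (⟨k, rfl⟩ | ⟨k, rfl⟩)
      · exact ⟨h.a_nonneg k, (h.lt k).trans_le (h.b_le k)⟩
      · exact ⟨h'.a_nonneg k, (h'.lt k).trans_le (h'.b_le k)⟩)
  exact ⟨_, hF.to_subtype, ρ, _, _, y, hρ, fun k => ⟨⟨_, Or.inl ⟨k, rfl⟩⟩, rfl, rfl⟩,
    fun k => ⟨⟨_, Or.inr ⟨k, rfl⟩⟩, rfl, rfl⟩⟩

/-- points of the subdivided polygon -/
theorem refn_pt {P : PG ι} {τ : Equiv.Perm κ} {p : κ → ι} {a b : κ → ℝ} (h : Part P.σ τ p a b)
    (k : κ) (u : ℝ) : (refn P τ p a).pt k u = P.pt (p k) (a k + u * (b k - a k)) := by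
  show AffineMap.lineMap (P.pt (p k) (a k)) (P.pt (p (τ k)) (a (τ k))) u = _
  rw [h.next_eq (c := P.pt) (RfnAux.pt_next P), AffineMap.lineMap_apply, vsub_eq_sub, vadd_eq_add,
    RfnAux.pt_eq, RfnAux.pt_eq, RfnAux.pt_eq]
  module

theorem refn_dir {P : PG ι} {τ : Equiv.Perm κ} {p : κ → ι} {a b : κ → ℝ} (h : Part P.σ τ p a b)
    (k : κ) : dir (refn P τ p a) k = (b k - a k) • dir P (p k) := by
  show P.pt (p (τ k)) (a (τ k)) - P.pt (p k) (a k) = _
  rw [h.next_eq (c := P.pt) (RfnAux.pt_next P), RfnAux.pt_eq, RfnAux.pt_eq]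
  module

theorem refn_emb {P : PG ι} (hP : P.Emb) {τ : Equiv.Perm κ} {p : κ → ι} {a b : κ → ℝ}
    (h : Part P.σ τ p a b) : (refn P τ p a).Emb := by
  have t : ∀ k, ∀ u ∈ Ico (0 : ℝ) 1,
      a k ≤ a k + u * (b k - a k) ∧ a k + u * (b k - a k) < b k := by
    intro k u hu
    have hv : 0 < b k - a k := sub_pos.2 (h.lt k)
    have h1 := mul_lt_mul_of_pos_right hu.2 hv
    exact ⟨le_add_of_nonneg_right (mul_nonneg hu.1 hv.le), by linarith⟩
  intro e f u hu u' hu' hE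
  rw [refn_pt h, refn_pt h] at hE
  obtain ⟨t1, t2⟩ := t e u hu
  obtain ⟨t3, t4⟩ := t f u' hu'
  obtain ⟨e1, e2⟩ := hP _ _ _ ⟨(h.a_nonneg e).trans t1, t2.trans_le (h.b_le e)⟩ _
    ⟨(h.a_nonneg f).trans t3, t4.trans_le (h.b_le f)⟩ hE
  have e3 : e = f := h.disj e f e1 (by linarith) (by linarith)
  subst e3
  exact ⟨rfl, mul_right_cancel₀ (sub_pos.2 (h.lt e)).ne' (add_left_cancel e2)⟩

/-- a close polygon subdivided along a finer partition is close -/
theorem NearP.refine [Finite κ] [Finite κ'] {σ : Equiv.Perm ι} {Q : PG κ} {p : κ → ι}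
    {a b : κ → ℝ} {τ' : Equiv.Perm κ'} {p' : κ' → ι} {a' b' : κ' → ℝ} (h : Part σ Q.σ p a b)
    (h' : Part σ τ' p' a' b') {r : κ' → κ}
    (hr : ∀ k', p (r k') = p' k' ∧ a (r k') ≤ a' k' ∧ b' k' ≤ b (r k'))
    (hr' : Part Q.σ τ' r (fun k' => (a' k' - a (r k')) / (b (r k') - a (r k')))
      fun k' => (b' k' - a (r k')) / (b (r k') - a (r k')))
    {ε : ℝ} {c : ι → ℝ → P3} (hN : NearP ε c p a b Q) :
    NearP ε c p' a' b' (refn Q τ' r fun k' => (a' k' - a (r k')) / (b (r k') - a (r k'))) := by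
  refine ⟨fun k hk => ?_, fun k u hu u' hu' => ?_⟩
  · have h1 : a (r k) = 0 := le_antisymm (hk ▸ (hr k).2.1) (h.a_nonneg _)
    have h2 := hN.1 (r k) h1
    show ‖Q.pt (r k) ((a' k - a (r k)) / (b (r k) - a (r k))) - c (p' k) 0‖ ≤ ε
    rw [hk, h1, sub_zero, zero_div, RfnAux.pt_eq, zero_smul, add_zero, ← (hr k).1]
    exact h2
  · have h1 := refn_dir hr' k
    have h2 := hN.2 (r k) u ⟨(hr k).2.1.trans hu.1, hu.2.trans (hr k).2.2⟩ u'
      ⟨(hr k).2.1.trans hu'.1, hu'.2.trans (hr k).2.2⟩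
    have h3 : b' k - a' k ≠ 0 := (sub_pos.2 (h'.lt k)).ne'
    have h4 : b (r k) - a (r k) ≠ 0 := (sub_pos.2 (h.lt _)).ne'
    have h5 : (u' - u) / (b' k - a' k) * ((b' k - a (r k)) / (b (r k) - a (r k)) -
        (a' k - a (r k)) / (b (r k) - a (r k))) = (u' - u) / (b (r k) - a (r k)) := by
      field_simp
      ring
    unfold dir at h1
    rw [h1, smul_smul, h5, ← (hr k).1]
    exact h2

/-- closeness is a convex condition on the positions -/
theorem NearP.lineMap {τ : Equiv.Perm κ} {p : κ → ι} {a b : κ → ℝ} {ε : ℝ} {c : ι → ℝ → P3}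
    {x y : κ → P3} (hx : NearP ε c p a b ⟨τ, x⟩) (hy : NearP ε c p a b ⟨τ, y⟩) {s : ℝ}
    (hs : s ∈ Icc (0 : ℝ) 1) :
    NearP ε c p a b ⟨τ, fun k => AffineMap.lineMap (x k) (y k) s⟩ := by
  refine ⟨fun k hk => ?_, fun k u hu u' hu' => ?_⟩
  · refine le_trans (le_of_eq ?_) (RfnAux.conv hs (hx.1 k hk) (hy.1 k hk))
    congr 1
    simp only [AffineMap.lineMap_apply, vsub_eq_sub, vadd_eq_add]
    module
  · refine le_trans (le_of_eq ?_) (RfnAux.conv hs (hx.2 k u hu u' hu') (hy.2 k u hu u' hu'))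
    congr 1
    simp only [AffineMap.lineMap_apply, vsub_eq_sub, vadd_eq_add]
    module

theorem NearP.mono {Q : PG κ} {p : κ → ι} {a b : κ → ℝ} {ε ε' : ℝ} {c : ι → ℝ → P3}
    (h : NearP ε c p a b Q) (hε : ε ≤ ε') : NearP ε' c p a b Q :=
  ⟨fun k hk => (h.1 k hk).trans hε, fun k u hu u' hu' =>
    (h.2 k u hu u' hu').trans (mul_le_mul_of_nonneg_right hε (abs_nonneg _))⟩

/-- changing the curve -/
theorem NearP.trans {σ : Equiv.Perm ι} {Q : PG κ} {p : κ → ι} {a b : κ → ℝ} {ε ε' : ℝ}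
    {c g : ι → ℝ → P3} (hp : Part σ Q.σ p a b) (h : NearP ε g p a b Q) (hc : Close ε' c g) :
    NearP (ε + ε') c p a b Q := by
  refine ⟨fun k hk => ?_, fun k u hu u' hu' => ?_⟩
  · exact (norm_sub_le_norm_sub_add_norm_sub _ _ _).trans (add_le_add (h.1 k hk) (hc (p k)).1)
  · rw [add_mul]
    exact (norm_sub_le_norm_sub_add_norm_sub _ _ _).trans (add_le_add (h.2 k u hu u' hu')
      ((hc (p k)).2 u ⟨(hp.a_nonneg k).trans hu.1, hu.2.trans (hp.b_le k)⟩ u'
        ⟨(hp.a_nonneg k).trans hu'.1, hu'.2.trans (hp.b_le k)⟩))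

/-- closeness survives small moves of the vertices -/
theorem NearP.eventually [Finite κ] {σ : Equiv.Perm ι} {Q : PG κ} {p : κ → ι} {a b : κ → ℝ}
    {ε ε' : ℝ} {c : ι → ℝ → P3} (hp : Part σ Q.σ p a b) (h : NearP ε c p a b Q) (hε : ε < ε') :
    ∀ᶠ x in 𝓝 Q.pos, NearP ε' c p a b ⟨Q.σ, x⟩ := by
  have h1 : ∀ k, ∀ᶠ x : κ → P3 in 𝓝 Q.pos, ‖x k - Q.pos k‖ < ε' - ε := fun k =>
    (show Continuous fun x : κ → P3 => ‖x k - Q.pos k‖ by fun_prop).continuousAt.eventually_lt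
      continuousAt_const (by simpa using hε)
  have h2 : ∀ k, ∀ᶠ x : κ → P3 in 𝓝 Q.pos,
      ‖(x (Q.σ k) - x k) - (Q.pos (Q.σ k) - Q.pos k)‖ < (ε' - ε) * (b k - a k) := fun k =>
    (show Continuous fun x : κ → P3 => ‖(x (Q.σ k) - x k) - (Q.pos (Q.σ k) - Q.pos k)‖ by
      fun_prop).continuousAt.eventually_lt continuousAt_const (by
        rw [sub_self, norm_zero]
        exact mul_pos (sub_pos.2 hε) (sub_pos.2 (hp.lt k)))
  filter_upwards [eventually_all.2 h1, eventually_all.2 h2] with x x1 x2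
  refine ⟨fun k hk => ?_, fun k u hu u' hu' => ?_⟩
  · have h3 := norm_sub_le_norm_sub_add_norm_sub (x k) (Q.pos k) (c (p k) 0)
    have h4 := h.1 k hk
    have h5 := x1 k
    show ‖x k - c (p k) 0‖ ≤ ε'
    linarith
  · have hv : 0 < b k - a k := sub_pos.2 (hp.lt k)
    have h3 := norm_sub_le_norm_sub_add_norm_sub
      (((u' - u) / (b k - a k)) • (x (Q.σ k) - x k))
      (((u' - u) / (b k - a k)) • (Q.pos (Q.σ k) - Q.pos k)) (c (p k) u' - c (p k) u)
    have h4 := h.2 k u hu u' hu'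
    rw [← smul_sub, norm_smul, Real.norm_eq_abs, abs_div, abs_of_pos hv] at h3
    have h5 := mul_le_mul_of_nonneg_left (x2 k).le (div_nonneg (abs_nonneg (u' - u)) hv.le)
    have h6 : |u' - u| / (b k - a k) * ((ε' - ε) * (b k - a k)) = (ε' - ε) * |u' - u| := by
      field_simp
    show ‖((u' - u) / (b k - a k)) • (x (Q.σ k) - x k) - (c (p k) u' - c (p k) u)‖ ≤ _
    linarith


end K2

end Pool.Agent.Lib.MP_4d7d0a_gt
end

-- part Pool.Agent.Lib.MP_4d7d0a_gt.K2Plc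
section

/-! Part K2: the piecewise linear curve of a polygon, inscribed polygons. -/

set_option autoImplicit false

open Set Filter Topology

namespace Pool.Agent.Lib.MP_4d7d0a_gt

namespace K2

variable {ι κ : Type}

namespace PlcAux

theorem pt_eq (Q : PG κ) (k : κ) (u : ℝ) :
    Q.pt k u = Q.pos k + u • (Q.pos (Q.σ k) - Q.pos k) := by
  rw [PG.pt, AffineMap.lineMap_apply, vsub_eq_sub, vadd_eq_add, add_comm]

theorem pt_a (Q : PG κ) (k : κ) (x y : ℝ) : Q.pt k ((x - x) / y) = Q.pos k := by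
  rw [pt_eq, sub_self, zero_div, zero_smul, add_zero]

theorem pt_b (Q : PG κ) (k : κ) {x y : ℝ} (h : x < y) :
    Q.pt k ((y - x) / (y - x)) = Q.pos (Q.σ k) := by
  rw [pt_eq, div_self (sub_pos.2 h).ne', one_smul, add_sub_cancel]

theorem consist {σ : Equiv.Perm ι} {Q : PG κ} {p : κ → ι} {a b : κ → ℝ}
    (h : Part σ Q.σ p a b) {k k' : κ} (hp : p k = p k') {u : ℝ} (hu : u ∈ Icc (a k) (b k))
    (hu' : u ∈ Icc (a k') (b k')) :
    Q.pt k ((u - a k) / (b k - a k)) = Q.pt k' ((u - a k') / (b k' - a k')) := by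
  rcases h.meet hp hu hu' with rfl | ⟨e, e1, e2⟩ | ⟨e, e1, e2⟩
  · rfl
  · rw [← e2, pt_a, e1, pt_b Q k (h.lt k), e]
  · rw [← e2, pt_a, e1, pt_b Q k' (h.lt k'), e]

theorem at_a {σ : Equiv.Perm ι} {Q : PG κ} {p : κ → ι} {a b : κ → ℝ}
    (h : Part σ Q.σ p a b) {g : ι → ℝ → P3} (hg : IsPlc Q p a b g) (k : κ) :
    g (p k) (a k) = Q.pos k := by
  rw [hg k _ (left_mem_Icc.2 (h.lt k).le), pt_a]

theorem at_b {σ : Equiv.Perm ι} {Q : PG κ} {p : κ → ι} {a b : κ → ℝ}
    (h : Part σ Q.σ p a b) {g : ι → ℝ → P3} (hg : IsPlc Q p a b g) (k : κ) :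
    g (p k) (b k) = Q.pos (Q.σ k) := by
  rw [hg k _ (right_mem_Icc.2 (h.lt k).le), pt_b Q k (h.lt k)]

theorem chord {c d : ℝ → P3} {x y ε : ℝ} (hxy : x < y)
    (hc : ∀ u ∈ Icc x y, HasDerivWithinAt c (d u) (Icc x y) u)
    (hd : ∀ u ∈ Icc x y, ‖d u - d x‖ ≤ ε / 2) {u u' : ℝ} (hu : u ∈ Icc x y) (hu' : u' ∈ Icc x y) :
    ‖((u' - u) / (y - x)) • (c y - c x) - (c u' - c u)‖ ≤ ε * |u' - u| := by
  have hφ : ∀ t ∈ Icc x y, HasDerivWithinAt (fun t => c t - t • d x) (d t - d x) (Icc x y) t := by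
    intro t ht
    have h1 := (hc t ht).sub ((hasDerivWithinAt_id t (Icc x y)).smul_const (d x))
    rw [one_smul] at h1
    exact h1
  have m1 := (convex_Icc x y).norm_image_sub_le_of_norm_hasDerivWithin_le hφ hd hu hu'
  have m2 := (convex_Icc x y).norm_image_sub_le_of_norm_hasDerivWithin_le hφ hd
    (left_mem_Icc.2 hxy.le) (right_mem_Icc.2 hxy.le)
  have hpos : 0 < y - x := sub_pos.2 hxy
  have e : ((u' - u) / (y - x)) • (c y - c x) - (c u' - c u) =
      ((u' - u) / (y - x)) • (c y - y • d x - (c x - x • d x)) -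
        (c u' - u' • d x - (c u - u • d x)) := by
    have e1 : c y - y • d x - (c x - x • d x) = c y - c x - (y - x) • d x := by
      rw [sub_smul]; abel
    have e2 : c u' - u' • d x - (c u - u • d x) = c u' - c u - (u' - u) • d x := by
      rw [sub_smul]; abel
    rw [e1, e2, smul_sub _ (c y - c x), smul_smul, div_mul_cancel₀ _ hpos.ne']
    abel
  rw [e]
  refine (norm_sub_le _ _).trans ?_
  rw [norm_smul, Real.norm_eq_abs, abs_div, abs_of_pos hpos]
  rw [Real.norm_eq_abs] at m1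
  rw [Real.norm_eq_abs, abs_of_pos hpos] at m2
  have m3 : |u' - u| / (y - x) * ‖c y - y • d x - (c x - x • d x)‖ ≤
      |u' - u| / (y - x) * (ε / 2 * (y - x)) :=
    mul_le_mul_of_nonneg_left m2 (div_nonneg (abs_nonneg _) hpos.le)
  have e3 : |u' - u| / (y - x) * (ε / 2 * (y - x)) = ε / 2 * |u' - u| := by
    field_simp
  linarith

end PlcAux

theorem plc_exists [Finite κ] {σ : Equiv.Perm ι} {Q : PG κ} {p : κ → ι} {a b : κ → ℝ}
    (h : Part σ Q.σ p a b) : ∃ g, IsPlc Q p a b g := by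
  classical
  refine ⟨fun v u => if H : ∃ k, p k = v ∧ u ∈ Icc (a k) (b k) then
    Q.pt H.choose ((u - a H.choose) / (b H.choose - a H.choose)) else 0, fun k u hu => ?_⟩
  have H : ∃ k', p k' = p k ∧ u ∈ Icc (a k') (b k') := ⟨k, rfl, hu⟩
  beta_reduce
  rw [dif_pos H]
  exact PlcAux.consist h H.choose_spec.1 H.choose_spec.2 hu

theorem IsPlc.closed [Finite κ] {σ : Equiv.Perm ι} {Q : PG κ} {p : κ → ι} {a b : κ → ℝ}
    (h : Part σ Q.σ p a b) {g : ι → ℝ → P3} (hg : IsPlc Q p a b g) (v : ι) :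
    g v 1 = g (σ v) 0 := by
  obtain ⟨k, rfl, hk⟩ := h.exists_last v
  obtain ⟨e1, e2⟩ := h.last k hk
  rw [← hk, PlcAux.at_b h hg, ← e1, ← e2, PlcAux.at_a h hg]

theorem IsPlc.close [Finite κ] {σ : Equiv.Perm ι} {Q : PG κ} {p : κ → ι} {a b : κ → ℝ}
    (h : Part σ Q.σ p a b) {g : ι → ℝ → P3} (hg : IsPlc Q p a b g) {ε : ℝ} {c : ι → ℝ → P3}
    (hN : NearP ε c p a b Q) : Close ε c g := by
  intro v
  refine ⟨?_, fun u hu u' hu' => ?_⟩
  · obtain ⟨k, rfl, hk⟩ := h.exists_first v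
    have e := PlcAux.at_a h hg k
    rw [hk] at e
    rw [e]
    exact hN.1 k hk
  · have := h.chain (fun t => g v t - c v t) v ε (fun k hk t ht t' ht' => by
      subst hk
      have h1 := hN.2 k t ht t' ht'
      have e : g (p k) t' - c (p k) t' - (g (p k) t - c (p k) t) =
          ((t' - t) / (b k - a k)) • (Q.pos (Q.σ k) - Q.pos k) - (c (p k) t' - c (p k) t) := by
        rw [hg k t ht, hg k t' ht', PlcAux.pt_eq, PlcAux.pt_eq,
          show (t' - t) / (b k - a k) = (t' - a k) / (b k - a k) - (t - a k) / (b k - a k) by ring,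
          sub_smul]
        abel
      rw [e]
      exact h1) u hu u' hu'
    rwa [show g v u' - c v u' - (g v u - c v u) = g v u' - g v u - (c v u' - c v u) by abel]
      at this

theorem IsPlc.emb {σ : Equiv.Perm ι} {Q : PG κ} {p : κ → ι} {a b : κ → ℝ}
    (h : Part σ Q.σ p a b) {g : ι → ℝ → P3} (hg : IsPlc Q p a b g)
    (hi : ∀ v w, ∀ u ∈ Ico (0 : ℝ) 1, ∀ u' ∈ Ico (0 : ℝ) 1, g v u = g w u' → v = w ∧ u = u') :
    Q.Emb := by
  have key : ∀ e, ∀ u ∈ Ico (0 : ℝ) 1, a e ≤ a e + u * (b e - a e) ∧ a e + u * (b e - a e) < b e ∧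
      g (p e) (a e + u * (b e - a e)) = Q.pt e u := by
    intro e u hu
    have hp : 0 < b e - a e := sub_pos.2 (h.lt e)
    have h1 : a e ≤ a e + u * (b e - a e) := by nlinarith [hu.1]
    have h2 : a e + u * (b e - a e) < b e := by nlinarith [hu.2]
    refine ⟨h1, h2, ?_⟩
    rw [hg e _ ⟨h1, h2.le⟩, add_sub_cancel_left, mul_div_cancel_right₀ _ hp.ne']
  intro e f u hu u' hu' huu
  obtain ⟨a1, a2, a3⟩ := key e u hu
  obtain ⟨b1, b2, b3⟩ := key f u' hu'
  obtain ⟨e1, e2⟩ := hi (p e) (p f) _ ⟨(h.a_nonneg e).trans a1, a2.trans_le (h.b_le e)⟩ _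
    ⟨(h.a_nonneg f).trans b1, b2.trans_le (h.b_le f)⟩ (by rw [a3, b3, huu])
  have e3 : e = f := h.disj e f e1 (by linarith) (by linarith)
  subst e3
  exact ⟨rfl, mul_right_cancel₀ (sub_pos.2 (h.lt e)).ne' (add_left_cancel e2)⟩

theorem Close.dist {ε : ℝ} {c g : ι → ℝ → P3} (h : Close ε c g) (v : ι) {u : ℝ}
    (hu : u ∈ Icc (0 : ℝ) 1) : ‖g v u - c v u‖ ≤ 2 * ε := by
  obtain ⟨h0, h1⟩ := h v
  have h2 := h1 0 (left_mem_Icc.2 zero_le_one) u hu
  have hε : 0 ≤ ε := (norm_nonneg _).trans h0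
  rw [sub_zero, abs_of_nonneg hu.1] at h2
  have e : g v u - c v u = (g v 0 - c v 0) + (g v u - g v 0 - (c v u - c v 0)) := by abel
  rw [e]
  have h3 := norm_add_le (g v 0 - c v 0) (g v u - g v 0 - (c v u - c v 0))
  have h4 : ε * u ≤ ε := mul_le_of_le_one_right hε hu.2
  linarith

theorem near_emb [Finite ι] {L : CPL ι} (h : L.Emb) :
    ∃ ε : ℝ, 0 < ε ∧ ∀ (κ : Type) [Finite κ] (Q : PG κ), Apx L ε Q → Q.Emb := by
  obtain ⟨d, hd⟩ := h
  obtain ⟨ε, hε, H⟩ := stab hd LinearMap.id (fun v u hu => (hd.1 v u hu).2) hd.2.2.2.1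
  refine ⟨ε, hε, fun κ _ Q hQ => ?_⟩
  obtain ⟨p, a, b, hP, hN⟩ := hQ
  obtain ⟨g, hg⟩ := plc_exists hP
  refine hg.emb hP fun v w u hu u' hu' e => ?_
  refine H g (hg.close hP hN) (hg.closed hP) v w u hu u' hu' e ?_
  rw [e, sub_self, norm_zero]
  exact hε.le

/-- inscribed polygons of fine partitions are close; straight arcs need not be cut -/
theorem inscribed [Finite ι] {L : CPL ι} {d : ι → ℝ → P3} (h : Reg L d) {ε : ℝ} (hε : 0 < ε) :
    ∃ δ : ℝ, 0 < δ ∧ ∀ (κ : Type) (τ : Equiv.Perm κ) (p : κ → ι) (a b : κ → ℝ),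
      Part L.σ τ p a b → (∀ k, b k - a k ≤ δ ∨
        ∃ A B : P3, ∀ u ∈ Icc (0 : ℝ) 1, L.c (p k) u = AffineMap.lineMap A B u) →
      NearP ε L.c p a b ⟨τ, fun k => L.c (p k) (a k)⟩ := by
  have hev : ∀ᶠ δ : ℝ in 𝓝[>] 0, ∀ v, ∀ x ∈ Icc (0 : ℝ) 1, ∀ y ∈ Icc (0 : ℝ) 1,
      dist x y ≤ δ → dist (d v x) (d v y) ≤ ε / 2 := by
    refine eventually_all.2 fun v => ?_
    obtain ⟨δ, hδ, H⟩ := Metric.uniformContinuousOn_iff_le.1
      (isCompact_Icc.uniformContinuousOn_of_continuous (h.2.1 v)) (ε / 2) (half_pos hε)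
    filter_upwards [Ioc_mem_nhdsGT hδ] with δ' hδ' x hx y hy hxy
    exact H x hx y hy (hxy.trans hδ'.2)
  obtain ⟨δ, H, hδ⟩ := (hev.and self_mem_nhdsWithin).exists
  refine ⟨δ, hδ, fun κ τ p a b hP hk => ⟨fun k h0 => ?_, fun k u hu u' hu' => ?_⟩⟩
  · change ‖L.c (p k) (a k) - L.c (p k) 0‖ ≤ ε
    rw [h0, sub_self, norm_zero]
    exact hε.le
  · change ‖((u' - u) / (b k - a k)) • (L.c (p (τ k)) (a (τ k)) - L.c (p k) (a k)) -
      (L.c (p k) u' - L.c (p k) u)‖ ≤ ε * |u' - u|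
    rw [hP.next_eq h.2.2 k]
    have hsub : Icc (a k) (b k) ⊆ Icc (0 : ℝ) 1 := Icc_subset_Icc (hP.a_nonneg k) (hP.b_le k)
    have ha : a k ∈ Icc (a k) (b k) := left_mem_Icc.2 (hP.lt k).le
    have hb : b k ∈ Icc (a k) (b k) := right_mem_Icc.2 (hP.lt k).le
    rcases hk k with hs | ⟨A, B, hAB⟩
    · refine PlcAux.chord (d := d (p k)) (hP.lt k)
        (fun t ht => (h.1 (p k) t (hsub ht)).mono hsub) (fun t ht => ?_) hu hu'
      rw [← dist_eq_norm]
      refine H (p k) t (hsub ht) _ (hsub ha) ?_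
      rw [Real.dist_eq, abs_of_nonneg (sub_nonneg.2 ht.1)]
      linarith [ht.2]
    · refine PlcAux.chord (d := fun _ => B - A) (hP.lt k) (fun t ht => ?_) (fun t _ => ?_) hu hu'
      · refine HasDerivWithinAt.congr (f := fun t : ℝ => (AffineMap.lineMap A B t : P3))
          (AffineMap.hasDerivAt_lineMap (a := A) (b := B) (x := t)).hasDerivWithinAt
          (fun x hx => hAB x (hsub hx)) (hAB t (hsub ht))
      · rw [sub_self, norm_zero]
        exact (half_pos hε).le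

theorem apx_exists [Finite ι] {L : CPL ι} {d : ι → ℝ → P3} (h : Reg L d) {ε : ℝ} (hε : 0 < ε) :
    ∃ (κ : Type) (_ : Finite κ) (τ : Equiv.Perm κ) (p : κ → ι) (a b : κ → ℝ), Part L.σ τ p a b ∧
      NearP ε L.c p a b ⟨τ, fun k => L.c (p k) (a k)⟩ := by
  obtain ⟨δ, hδ, H⟩ := inscribed h hε
  obtain ⟨κ, hκ, τ, p, a, b, hP, h1, -⟩ := part_mesh L.σ ∅ hδ
  exact ⟨κ, hκ, τ, p, a, b, hP, H κ τ p a b hP fun k => Or.inl (h1 k (notMem_empty _))⟩

/-- arcs with close velocities and starting points are close -/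
theorem close_of_deriv {c g d e : ι → ℝ → P3} {ε : ℝ}
    (hc : ∀ v, ∀ u ∈ Icc (0 : ℝ) 1, HasDerivWithinAt (c v) (d v u) (Icc 0 1) u)
    (hg : ∀ v, ∀ u ∈ Icc (0 : ℝ) 1, HasDerivWithinAt (g v) (e v u) (Icc 0 1) u)
    (h0 : ∀ v, ‖g v 0 - c v 0‖ ≤ ε) (h1 : ∀ v, ∀ u ∈ Icc (0 : ℝ) 1, ‖e v u - d v u‖ ≤ ε) :
    Close ε c g := by
  intro v
  refine ⟨h0 v, fun u hu u' hu' => ?_⟩
  have := (convex_Icc (0 : ℝ) 1).norm_image_sub_le_of_norm_hasDerivWithin_le
    (f := fun t => g v t - c v t) (fun t ht => (hg v t ht).sub (hc v t ht)) (h1 v) hu hu'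
  rwa [Real.norm_eq_abs,
    show g v u' - c v u' - (g v u - c v u) = g v u' - g v u - (c v u' - c v u) by abel] at this


end K2

end Pool.Agent.Lib.MP_4d7d0a_gt
end

-- part Pool.Agent.Lib.MP_4d7d0a_gt.K2Ref
section

/-! Part K2: the polygon invariant does not change under subdivision. -/

set_option autoImplicit false

open Set Filter Topology

namespace Pool.Agent.Lib.MP_4d7d0a_gt

namespace K2

namespace RefAux

theorem relabel_iff {T : ODTheory} (PT : PTheory T) {ι ι' : Type} [Finite ι] [Finite ι']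
    (β : ι ≃ ι') {P : PG ι} {P' : PG ι'} (hP : P.Emb) (hP' : P'.Emb)
    (h1 : ∀ v, P'.σ (β v) = β (P.σ v)) (h2 : ∀ v, P'.pos (β v) = P.pos v) (q : ℤ) :
    PT.V P q ↔ PT.V P' q := by
  refine ⟨PT.relabel β P P' q hP h1 h2, PT.relabel β.symm P' P q hP' (fun v => ?_) fun v => ?_⟩
  · rw [Equiv.eq_symm_apply, ← h1, Equiv.apply_symm_apply]
  · rw [← h2, Equiv.apply_symm_apply]

theorem transport {ι κ κ' : Type} {σ : Equiv.Perm ι} {τ : Equiv.Perm κ} {p : κ → ι} {a b : κ → ℝ}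
    (h : Part σ τ p a b) (β : κ' ≃ κ) {τ' : Equiv.Perm κ'} (hτ : ∀ k, τ (β k) = β (τ' k)) :
    Part σ τ' (fun k => p (β k)) (fun k => a (β k)) fun k => b (β k) where
  a_nonneg k := h.a_nonneg _
  lt k := h.lt _
  b_le k := h.b_le _
  mid k hk := by
    rw [← hτ]
    exact h.mid _ hk
  last k hk := by
    rw [← hτ]
    exact h.last _ hk
  disj k k' h1 h2 h3 := β.injective (h.disj _ _ h1 h2 h3)
  cover v u hu := by
    obtain ⟨k, hk⟩ := h.cover v u hu
    obtain ⟨k', rfl⟩ := β.surjective k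
    exact ⟨k', hk⟩

theorem remove {ι κ : Type} {σ : Equiv.Perm ι} {τ : Equiv.Perm (Option κ)} {p : Option κ → ι}
    {a b : Option κ → ℝ} (h : Part σ τ p a b) (h0 : 0 < a none) :
    ∃ (e : κ) (τ' : Equiv.Perm κ) (b' : κ → ℝ),
      Part σ τ' (fun k => p (some k)) (fun k => a (some k)) b' ∧ τ (some e) = none ∧
      τ none = some (τ' e) ∧ (∀ g, g ≠ e → τ (some g) = some (τ' g)) ∧ p none = p (some e) ∧
      a (some e) < a none ∧ a none < b' e := by
  classical
  obtain ⟨k1, hk1⟩ := τ.surjective none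
  have h1 : b k1 < 1 := lt_of_le_of_ne (h.b_le k1) fun h2 => by
    have h3 := (h.last k1 h2).2
    rw [hk1] at h3
    exact h0.ne' h3
  obtain ⟨hp, ha⟩ := h.mid k1 h1
  rw [hk1] at hp ha
  have h2 := h.lt k1
  have h3 := h.lt none
  obtain _ | e := k1
  · exact absurd ha h3.ne
  have t1 : τ none = some (τ.removeNone e) := (Equiv.removeNone_none τ hk1).symm
  have t2 : ∀ g, g ≠ e → τ (some g) = some (τ.removeNone g) := fun g hg =>
    (Equiv.removeNone_some τ (Option.ne_none_iff_exists'.1 fun h4 =>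
      hg (Option.some.inj (τ.injective (h4.trans hk1.symm))))).symm
  obtain ⟨b', e1, e2⟩ : ∃ b' : κ → ℝ, b' e = b none ∧ ∀ g, g ≠ e → b' g = b (some g) :=
    ⟨fun g => if g = e then b none else b (some g), if_pos rfl, fun g hg => if_neg hg⟩
  have dj : ∀ g, p (some e) = p (some g) → a (some e) < b (some g) → a (some g) < b none →
      e = g := fun g a1 a2 a3 => by
    rcases lt_or_ge (a (some g)) (b (some e)) with a4 | a4
    · exact Option.some.inj (h.disj _ _ a1 a2 a4)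
    · exact absurd (h.disj none (some g) (hp.trans a1) (by linarith [h.lt (some g)]) a3) (by simp)
  refine ⟨e, τ.removeNone, b', ⟨fun k => h.a_nonneg _, fun k => ?_, fun k => ?_, fun k hk => ?_,
    fun k hk => ?_, fun k k' a1 a2 a3 => ?_, fun v u hu => ?_⟩, hk1, t1, t2, hp, by linarith,
    by linarith⟩
  · rcases eq_or_ne k e with rfl | hk
    · linarith
    · exact (e2 k hk).symm ▸ h.lt _
  · rcases eq_or_ne k e with rfl | hk
    · exact e1.symm ▸ h.b_le _
    · exact (e2 k hk).symm ▸ h.b_le _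
  · rcases eq_or_ne k e with rfl | hg
    · rw [e1] at hk ⊢
      rw [← t1, ← hp]
      exact h.mid _ hk
    · rw [e2 k hg] at hk ⊢
      rw [← t2 k hg]
      exact h.mid _ hk
  · rcases eq_or_ne k e with rfl | hg
    · rw [e1] at hk
      rw [← t1, ← hp]
      exact h.last _ hk
    · rw [e2 k hg] at hk
      rw [← t2 k hg]
      exact h.last _ hk
  · rcases eq_or_ne k e with rfl | hg <;> rcases eq_or_ne k' k with rfl | hg'
    · rfl
    · exact dj k' a1 (e2 k' hg' ▸ a2) (e1 ▸ a3)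
    · rfl
    · rcases eq_or_ne k' e with rfl | hg2
      · exact (dj k a1.symm (e2 k hg ▸ a3) (e1 ▸ a2)).symm
      · exact Option.some.inj (h.disj _ _ a1 (e2 k' hg2 ▸ a2) (e2 k hg ▸ a3))
  · obtain ⟨k, a1, a2, a3⟩ := h.cover v u hu
    obtain _ | g := k
    · exact ⟨e, hp.symm.trans a1, by linarith, by linarith⟩
    · refine ⟨g, a1, a2, ?_⟩
      rcases eq_or_ne g e with rfl | hg
      · linarith
      · rwa [e2 g hg]

theorem base {T : ODTheory} (PT : PTheory T) {ι κ : Type} [Finite ι] [Finite κ] {P : PG ι}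
    (hP : P.Emb) {τ : Equiv.Perm κ} {p : κ → ι} {a b : κ → ℝ} (h : Part P.σ τ p a b)
    (h0 : ∀ k, a k = 0) (q : ℤ) : PT.V P q ↔ PT.V (refn P τ p a) q := by
  have hb : Function.Bijective p := ⟨fun k k' hk => h.inj hk ((h0 k).trans (h0 k').symm),
    fun v => (h.exists_first v).imp fun _ hk => hk.1⟩
  have h1 : ∀ k, b k = 1 := fun k => (h.b_le k).eq_or_lt.resolve_right fun h2 => by
    have h3 := (h.mid k h2).2
    have h4 := h.lt k
    rw [h0] at h3 h4
    exact h4.ne h3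
  refine (relabel_iff PT (Equiv.ofBijective p hb) (refn_emb hP h) hP
    (fun k => (h.last k (h1 k)).1.symm) (fun k => ?_) q).symm
  change P.pos (p k) = P.pt (p k) (a k)
  rw [h0, PAdm.pt_zero]

theorem main {T : ODTheory} (PT : PTheory T) {ι : Type} [Finite ι] {P : PG ι} (hP : P.Emb)
    (q : ℤ) (n : ℕ) : ∀ (κ : Type) [Finite κ] (τ : Equiv.Perm κ) (p : κ → ι) (a b : κ → ℝ),
      Nat.card κ ≤ n → Part P.σ τ p a b → (PT.V P q ↔ PT.V (refn P τ p a) q) := by
  classical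
  induction n with
  | zero =>
    intro κ _ τ p a b hn h
    refine base PT hP h (fun k => ?_) q
    have : Nonempty κ := ⟨k⟩
    exact absurd (Nat.card_pos (α := κ)) (by omega)
  | succ n ih =>
    intro κ _ τ p a b hn h
    by_cases h0 : ∀ k, a k = 0
    · exact base PT hP h h0 q
    obtain ⟨k0, hk0⟩ := not_forall.1 h0
    obtain ⟨β, hβ⟩ : ∃ β : Option {k // k ≠ k0} ≃ κ, β none = k0 :=
      ⟨Equiv.optionSubtypeNe k0, rfl⟩
    have hτ : ∀ k, τ (β k) = β (β.symm.permCongr τ k) := fun k => by simp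
    have h1 := transport h β hτ
    obtain ⟨e, τ', b', h2, t0, t1, t2, hp, a1, a2⟩ := remove h1
      (by rw [hβ]; exact lt_of_le_of_ne (h.a_nonneg k0) (Ne.symm hk0))
    have hc := Nat.card_congr β
    rw [Finite.card_option] at hc
    have a3 : 0 < b' e - a (β (some e)) := by linarith
    refine (ih _ τ' _ _ b' (by omega) h2).trans ((PT.sub _ _ e
      ((a (β none) - a (β (some e))) / (b' e - a (β (some e)))) q (refn_emb hP h2)
      ⟨div_pos (by linarith) a3, (div_lt_one a3).2 (by linarith)⟩ t0 t1 t2 (fun _ => rfl) ?_).trans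
      (relabel_iff PT β (refn_emb hP h1) (refn_emb hP h) hτ (fun _ => rfl) q))
    rw [refn_pt h2, div_mul_cancel₀ _ a3.ne', add_sub_cancel, ← hp]
    rfl

end RefAux

theorem refn_V {T : ODTheory} (PT : PTheory T) {ι κ : Type} [Finite ι] [Finite κ] {P : PG ι}
    (hP : P.Emb) {τ : Equiv.Perm κ} {p : κ → ι} {a b : κ → ℝ} (h : Part P.σ τ p a b) (q : ℤ) :
    PT.V P q ↔ PT.V (refn P τ p a) q := RefAux.main PT hP q _ κ τ p a b le_rfl h

end K2

end Pool.Agent.Lib.MP_4d7d0a_gt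
end

-- part Pool.Agent.Lib.MP_4d7d0a_gt.K2Ind
section

/-! Part K2: the invariant is computed by any close polygon. -/

set_option autoImplicit false

open Set Filter Topology

namespace Pool.Agent.Lib.MP_4d7d0a_gt

namespace K2

variable {T : ODTheory} (PT : PTheory T) {ι : Type}

theorem pt_fam [Finite ι] (σ : Equiv.Perm ι) (x : ℝ → ι → P3)
    (hx : ∀ v, ContinuousOn (fun s => x s v) (Icc 0 1))
    (h : ∀ s ∈ Icc (0 : ℝ) 1, (⟨σ, x s⟩ : PG ι).Emb) (q : ℤ) :
    PT.V (⟨σ, x 0⟩ : PG ι) q ↔ PT.V (⟨σ, x 1⟩ : PG ι) q := by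
  refine ⟨PT.fam σ x q hx h, fun h1 => ?_⟩
  have hm : ∀ s ∈ Icc (0 : ℝ) 1, 1 - s ∈ Icc (0 : ℝ) 1 := fun s hs =>
    ⟨by linarith [hs.2], by linarith [hs.1]⟩
  have h2 := PT.fam σ (fun s => x (1 - s)) q
    (fun v => (hx v).comp (f := fun s : ℝ => 1 - s) (by fun_prop) hm) (fun s hs => h _ (hm s hs))
    (by simpa using h1)
  simpa using h2

theorem pt_seg [Finite ι] (σ : Equiv.Perm ι) (x y : ι → P3)
    (h : ∀ s ∈ Icc (0 : ℝ) 1, (⟨σ, fun v => AffineMap.lineMap (x v) (y v) s⟩ : PG ι).Emb)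
    (q : ℤ) : PT.V (⟨σ, x⟩ : PG ι) q ↔ PT.V (⟨σ, y⟩ : PG ι) q := by
  have h1 := pt_fam PT σ (fun s v => AffineMap.lineMap (x v) (y v) s)
    (fun v => (AffineMap.lineMap_continuous).continuousOn) h q
  simpa using h1

theorem pt_loc [Finite ι] {P : PG ι} (hP : P.Emb) :
    ∀ᶠ x in 𝓝 P.pos, ∀ q, PT.V (⟨P.σ, x⟩ : PG ι) q ↔ PT.V P q := by
  have := Fintype.ofFinite ι
  obtain ⟨r, hr, hb⟩ := Metric.eventually_nhds_iff_ball.1 (PG.Emb.eventually hP)
  filter_upwards [Metric.ball_mem_nhds P.pos hr] with x hx q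
  refine pt_seg PT P.σ x P.pos (fun s hs => hb _ ?_) q
  have h1 := (convex_ball P.pos r).lineMap_mem hx (Metric.mem_ball_self hr) hs
  convert h1 using 1
  funext v
  simp [AffineMap.lineMap_apply]

theorem mapP_pt (f : P3 →ₗ[ℝ] P3) (P : PG ι) (e : ι) (u : ℝ) :
    (mapP f P).pt e u = f (P.pt e u) := by
  simp [mapP, PG.pt, AffineMap.lineMap_apply]

theorem shear_inj (α γ : ℝ) : Function.Injective (shear α γ) := by
  intro p q h
  simp only [shear_apply, Prod.mk.injEq] at h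
  obtain ⟨h1, h2, h3⟩ := h
  rw [h2] at h1 h3
  exact Prod.ext (by linarith) (Prod.ext h2 (by linarith))

theorem shear_emb {P : PG ι} (hP : P.Emb) (α γ : ℝ) : (mapP (shear α γ) P).Emb := by
  intro e f u hu u' hu' h
  rw [mapP_pt, mapP_pt] at h
  exact hP e f u hu u' hu' (shear_inj α γ h)

theorem shear_V [Finite ι] {P : PG ι} (hP : P.Emb) (α γ : ℝ) (q : ℤ) :
    PT.V P q ↔ PT.V (mapP (shear α γ) P) q := by
  have h1 := pt_fam PT P.σ (fun s v => shear (s * α) (s * γ) (P.pos v))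
    (fun v => Continuous.continuousOn (by simp only [shear_apply]; fun_prop))
    (fun s _ => shear_emb hP (s * α) (s * γ)) q
  simpa [shear_apply, mapP] using h1

/-- two close polygons have the same invariant -/
theorem IndAux.apx_iff [Finite ι] {L : CPL ι} {ε : ℝ}
    (hε : ∀ (κ : Type) [Finite κ] (Q : PG κ), Apx L ε Q → Q.Emb) {κ κ' : Type} [Finite κ]
    [Finite κ'] {Q : PG κ} {Q' : PG κ'} (h : Apx L ε Q) (h' : Apx L ε Q') (q : ℤ) :
    PT.V Q q ↔ PT.V Q' q := by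
  have e := hε κ Q h
  have e' := hε κ' Q' h'
  obtain ⟨p, a, b, hp, hN⟩ := h
  obtain ⟨p', a', b', hp', hN'⟩ := h'
  obtain ⟨μ, _, ρ, s, x, y, hc, h1, h2⟩ := hp.common hp'
  obtain ⟨r, hr, hr'⟩ := hp.refine hc h1
  obtain ⟨r', ht, ht'⟩ := hp'.refine hc h2
  rw [refn_V PT e hr' q, refn_V PT e' ht' q]
  have n1 := NearP.refine hp hc hr hr' hN
  have n2 := NearP.refine hp' hc ht ht' hN'
  exact pt_seg PT ρ _ _ (fun t ht => hε μ _ ⟨s, x, y, hc, NearP.lineMap n1 n2 ht⟩) q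

theorem vk_iff [Finite ι] {L : CPL ι} (h : L.Emb) :
    ∃ ε : ℝ, 0 < ε ∧ ∀ (κ : Type) [Finite κ] (Q : PG κ), Apx L ε Q →
      Q.Emb ∧ ∀ q, (VK PT L q ↔ PT.V Q q) := by
  obtain ⟨ε, hε, he⟩ := near_emb h
  obtain ⟨d, hd⟩ := h
  refine ⟨ε, hε, fun κ _ Q hQ => ⟨he κ Q hQ, fun q => ⟨fun hV => ?_, fun hV ε' hε' => ?_⟩⟩⟩
  · obtain ⟨κ', _, Q', hQ', hV'⟩ := hV ε hε
    exact (IndAux.apx_iff PT he hQ' hQ q).1 hV'
  · obtain ⟨κ', _, τ, p, a, b, hp, hN⟩ := apx_exists (Reg.of_embD hd) (lt_min hε hε')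
    exact ⟨κ', inferInstance, ⟨τ, fun k => L.c (p k) (a k)⟩,
      ⟨p, a, b, hp, hN.mono (min_le_right _ _)⟩,
      (IndAux.apx_iff PT he hQ ⟨p, a, b, hp, hN.mono (min_le_left _ _)⟩ q).1 hV⟩


end K2

end Pool.Agent.Lib.MP_4d7d0a_gt
end

-- part Pool.Agent.Lib.MP_4d7d0a_gt.K2Gr
section

/-! Part K2: subdividing a generic polygon away from its crossings. -/

set_option autoImplicit false

open Set Filter Topology

namespace Pool.Agent.Lib.MP_4d7d0a_gt

namespace K2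

variable {ι κ : Type} {P : PG ι} {τ : Equiv.Perm κ} {p : κ → ι} {a b : κ → ℝ}

namespace GrAux

theorem det_eq (h : Part P.σ τ p a b) (k k' : κ) :
    det2 (dir (refn P τ p a) k) (dir (refn P τ p a) k') =
      ((b k - a k) * (b k' - a k')) * det2 (dir P (p k)) (dir P (p k')) := by
  rw [refn_dir h, refn_dir h]
  simp only [det2, Prod.smul_fst, Prod.smul_snd, smul_eq_mul]
  ring

theorem len_pos (h : Part P.σ τ p a b) (k k' : κ) : 0 < (b k - a k) * (b k' - a k') :=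
  mul_pos (sub_pos.2 (h.lt k)) (sub_pos.2 (h.lt k'))

theorem tt_eq (h : Part P.σ τ p a b) {k k' : κ} (hd : det2 (dir P (p k)) (dir P (p k')) ≠ 0) :
    a k + (refn P τ p a).tt k k' * (b k - a k) = P.tt (p k) (p k') := by
  have hd' : det2 (dir (refn P τ p a) k) (dir (refn P τ p a) k') ≠ 0 := by
    rw [det_eq h]
    exact mul_ne_zero (len_pos h k k').ne' hd
  have h1 := PAdm.cr_pr (P := refn P τ p a) (e := k) (g := k') hd'
  rw [refn_pt h, refn_pt h] at h1
  exact PAdm.cr_param (P := P) hd h1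

theorem mem_iff {x y u : ℝ} (h : x < y) : u ∈ Ioo (0 : ℝ) 1 ↔ x + u * (y - x) ∈ Ioo x y := by
  have h1 := sub_pos.2 h
  constructor
  · rintro ⟨h2, h3⟩
    constructor <;> nlinarith
  · rintro ⟨h2, h3⟩
    constructor
    · by_contra h4
      nlinarith [not_lt.1 h4]
    · by_contra h4
      nlinarith [not_lt.1 h4]

theorem det_symm {u v : P3} (h : det2 u v ≠ 0) : det2 v u ≠ 0 := by
  rw [PBA.det2_swap]
  exact neg_ne_zero.2 h

end GrAux

theorem refn_cr (h : Part P.σ τ p a b) (k k' : κ) : (refn P τ p a).Cr k k' ↔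
    P.Cr (p k) (p k') ∧ P.tt (p k) (p k') ∈ Ioo (a k) (b k) ∧
      P.tt (p k') (p k) ∈ Ioo (a k') (b k') := by
  constructor
  · rintro ⟨h1, h2, h3⟩
    have hd : det2 (dir P (p k)) (dir P (p k')) ≠ 0 := fun h0 => h1 (by
      have := GrAux.det_eq h k k'
      rw [h0, mul_zero] at this
      exact this)
    have h4 := (GrAux.mem_iff (h.lt k)).1 h2
    have h5 := (GrAux.mem_iff (h.lt k')).1 h3
    have e1 := GrAux.tt_eq h hd
    have e2 := GrAux.tt_eq h (GrAux.det_symm hd)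
    have h6 : P.tt (p k) (p k') ∈ Ioo (a k) (b k) := e1 ▸ h4
    have h7 : P.tt (p k') (p k) ∈ Ioo (a k') (b k') := e2 ▸ h5
    exact ⟨⟨hd, ⟨(h.a_nonneg k).trans_lt h6.1, h6.2.trans_le (h.b_le k)⟩,
      ⟨(h.a_nonneg k').trans_lt h7.1, h7.2.trans_le (h.b_le k')⟩⟩, h6, h7⟩
  · rintro ⟨h1, h2, h3⟩
    have hd : det2 (dir P (p k)) (dir P (p k')) ≠ 0 := h1.1
    rw [← GrAux.tt_eq h hd] at h2
    rw [← GrAux.tt_eq h (GrAux.det_symm hd)] at h3
    refine ⟨?_, (GrAux.mem_iff (h.lt k)).2 h2, (GrAux.mem_iff (h.lt k')).2 h3⟩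
    change det2 (dir (refn P τ p a) k) (dir (refn P τ p a) k') ≠ 0
    rw [GrAux.det_eq h]
    exact mul_ne_zero (GrAux.len_pos h k k').ne' hd

theorem refn_gen (hP : P.Gen) (h : Part P.σ τ p a b)
    (hc : ∀ k f, P.Cr (p k) f → P.tt (p k) f ≠ a k) : (refn P τ p a).Gen := by
  have hm : ∀ k, ∀ u ∈ Ico (0 : ℝ) 1, a k + u * (b k - a k) ∈ Ico (a k) (b k) := by
    intro k u hu
    have h1 := sub_pos.2 (h.lt k)
    constructor <;> nlinarith [hu.1, hu.2]
  have hm' : ∀ k, ∀ u ∈ Ico (0 : ℝ) 1, a k + u * (b k - a k) ∈ Ico (0 : ℝ) 1 := fun k u hu =>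
    ⟨(h.a_nonneg k).trans (hm k u hu).1, (hm k u hu).2.trans_le (h.b_le k)⟩
  refine ⟨refn_emb hP.1 h, fun k k' u hu u' hu' h1 h2 => ?_, fun k k' k'' h1 h2 h3 => ?_⟩
  · rw [refn_pt h, refn_pt h] at h1 h2
    rcases PAdm.coin0 hP (hm' k u hu) (hm' k' u' hu') ⟨h1, h2⟩ with ⟨c1, c2⟩ | ⟨c1, c2, c3⟩
    · obtain rfl : k = k' := h.disj k k' c1 ((hm k u hu).1.trans_lt (c2 ▸ (hm k' u' hu').2))
        ((hm k' u' hu').1.trans_lt (c2 ▸ (hm k u hu).2))
      exact Or.inl ⟨rfl, mul_right_cancel₀ (sub_pos.2 (h.lt k)).ne' (add_left_cancel c2)⟩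
    · refine Or.inr ((refn_cr h k k').2 ⟨c1, ⟨lt_of_le_of_ne (c2 ▸ (hm k u hu).1)
        (hc k _ c1).symm, c2 ▸ (hm k u hu).2⟩, ⟨lt_of_le_of_ne (c3 ▸ (hm k' u' hu').1)
        (hc k' _ (PAdm.cr_symm c1)).symm, c3 ▸ (hm k' u' hu').2⟩⟩)
  · obtain ⟨a1, -, a3⟩ := (refn_cr h k k').1 h1
    obtain ⟨b1, -, b3⟩ := (refn_cr h k k'').1 h2
    have e1 := GrAux.tt_eq h (k := k) (k' := k') a1.1
    have e2 := GrAux.tt_eq h (k := k) (k' := k'') b1.1
    have e3 : p k' = p k'' := hP.2.2 _ _ _ a1 b1 (by rw [← e1, ← e2, h3])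
    rw [← e3] at b3
    exact h.disj k' k'' e3 (a3.1.trans b3.2) (b3.1.trans a3.2)

namespace GrAux

/-- the sign of the crossing of two edges -/
noncomputable def sS (P : PG ι) (e f : ι) : ℤ :=
  crS (P.pos e) (P.pos (P.σ e)) (P.pos f) (P.pos (P.σ f))

theorem sS_zero {e f : ι} (h : ¬ P.Cr e f) : sS P e f = 0 := if_neg fun h' => h h'.1

open Classical in
theorem sS_eq (h : Part P.σ τ p a b) (k k' : κ) : sS (refn P τ p a) k k' =
    if P.tt (p k) (p k') ∈ Ioo (a k) (b k) then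
      (if P.tt (p k') (p k) ∈ Ioo (a k') (b k') then sS P (p k) (p k') else 0) else 0 := by
  by_cases hQ : (refn P τ p a).Cr k k'
  · obtain ⟨a1, a2, a3⟩ := (refn_cr h k k').1 hQ
    rw [if_pos a2, if_pos a3]
    have e1 := tt_eq h (k := k) (k' := k') a1.1
    have e2 := tt_eq h (k := k') (k' := k) (det_symm a1.1)
    have ho : ((refn P τ p a).pt k ((refn P τ p a).tt k k')).2.1 <
        ((refn P τ p a).pt k' ((refn P τ p a).tt k' k)).2.1 ↔
        (P.pt (p k) (P.tt (p k) (p k'))).2.1 < (P.pt (p k') (P.tt (p k') (p k))).2.1 := by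
      rw [refn_pt h, refn_pt h, e1, e2]
    have hs : 0 < det2 (dir (refn P τ p a) k) (dir (refn P τ p a) k') ↔
        0 < det2 (dir P (p k)) (dir P (p k')) := by
      rw [det_eq h]
      exact mul_pos_iff_of_pos_left (len_pos h k k')
    exact if_congr ⟨fun c => ⟨a1, ho.1 c.2⟩, fun c => ⟨hQ, ho.2 c.2⟩⟩ (if_congr hs rfl rfl) rfl
  · rw [sS_zero hQ]
    split_ifs with a2 a3
    · exact (sS_zero fun a1 => hQ ((refn_cr h k k').2 ⟨a1, a2, a3⟩)).symm
    · rfl
    · rfl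

open Classical in
theorem sum_one [Fintype κ] (h : Part P.σ τ p a b)
    (hc : ∀ k f, P.Cr (p k) f → P.tt (p k) f ≠ a k) {e f : ι} (hX : P.Cr e f) (c : ℤ) :
    ∑ k, (if e = p k ∧ P.tt e f ∈ Ioo (a k) (b k) then c else 0) = c := by
  obtain ⟨k, rfl, h1, h2⟩ := h.cover e (P.tt e f) ⟨hX.2.1.1.le, hX.2.1.2⟩
  have h3 : P.tt (p k) f ∈ Ioo (a k) (b k) := ⟨lt_of_le_of_ne h1 (hc k f hX).symm, h2⟩
  rw [Finset.sum_eq_single k, if_pos ⟨rfl, h3⟩]
  · intro k' _ hk
    exact if_neg fun c => hk (h.disj k k' c.1 (h3.1.trans c.2.2) (c.2.1.trans h3.2)).symm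
  · exact fun c => absurd (Finset.mem_univ k) c

end GrAux

theorem refn_wr [Fintype ι] [Fintype κ] (h : Part P.σ τ p a b)
    (hc : ∀ k f, P.Cr (p k) f → P.tt (p k) f ≠ a k) : wr (refn P τ p a) = wr P := by
  classical
  let G : ι → ι → κ → κ → ℤ := fun e f k k' =>
    if e = p k ∧ P.tt e f ∈ Ioo (a k) (b k) then
      (if f = p k' ∧ P.tt f e ∈ Ioo (a k') (b k') then GrAux.sS P e f else 0) else 0
  have h1 : ∀ e f, GrAux.sS P e f = ∑ k, ∑ k', G e f k k' := by
    intro e f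
    by_cases hX : P.Cr e f
    · rw [← GrAux.sum_one h hc hX (GrAux.sS P e f)]
      refine Finset.sum_congr rfl fun k _ => ?_
      simp only [G]
      split_ifs with c
      · exact (GrAux.sum_one h hc (PAdm.cr_symm hX) _).symm
      · exact Finset.sum_const_zero.symm
    · simp only [G, GrAux.sS_zero hX, ite_self, Finset.sum_const_zero]
  have h2 : ∀ k k', GrAux.sS (refn P τ p a) k k' = ∑ e, ∑ f, G e f k k' := by
    intro k k'
    rw [GrAux.sS_eq h, Finset.sum_eq_single (p k), Finset.sum_eq_single (p k')]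
    · simp only [G, true_and]
    · intro f _ hf
      simp only [G, hf, false_and, if_false, ite_self]
    · exact fun c => absurd (Finset.mem_univ _) c
    · intro e _ he
      simp only [G, he, false_and, if_false, Finset.sum_const_zero]
    · exact fun c => absurd (Finset.mem_univ _) c
  change ∑ k, ∑ k', GrAux.sS (refn P τ p a) k k' = ∑ e, ∑ f, GrAux.sS P e f
  simp only [h1, h2]
  calc ∑ k, ∑ k', ∑ e, ∑ f, G e f k k' = ∑ k, ∑ e, ∑ k', ∑ f, G e f k k' :=
        Finset.sum_congr rfl fun k _ => Finset.sum_comm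
    _ = ∑ e, ∑ k, ∑ k', ∑ f, G e f k k' := Finset.sum_comm
    _ = ∑ e, ∑ k, ∑ f, ∑ k', G e f k k' :=
        Finset.sum_congr rfl fun e _ => Finset.sum_congr rfl fun k _ => Finset.sum_comm
    _ = ∑ e, ∑ f, ∑ k, ∑ k', G e f k k' := Finset.sum_congr rfl fun e _ => Finset.sum_comm

end K2

end Pool.Agent.Lib.MP_4d7d0a_gt
end
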