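import Pool.Agent.Lib.MP_4d7d0a_gt.AGeo
import Pool.Agent.Lib.MP_4d7d0a_gt.K2LkH
import Pool.Agent.Lib.MP_4d7d0a_gt.K2Gr
import Pool.Agent.Lib.MP_4d7d0a_gt.K2Flip

-- part Pool.Agent.Lib.MP_4d7d0a_gt.ASlabM
section

/-! The slab in the surgered manifold. -/

set_option autoImplicit false

open Set Filter Topology
open scoped ContDiff

namespace Pool.Agent.Lib.MP_4d7d0a_gt

namespace SlabM

theorem vv_eq : vv = 1409024 := by
  norm_num [vv, sg]

/-- the slab read in the neighbourhood of the dual knot -/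
noncomputable def nN (k : ℝ) (p : P3) : P3 :=
  (-(1 / (2 * vv) * p.2.1), 2 * vv * (p.1 - k), p.2.2 - (p.1 - k) * p.2.1)

/-- the slab read in the gap between the two tips -/
noncomputable def gG (k : ℝ) (p : P3) : P3 := (-1 + 2 * (p.1 - k), 1 / 2 * p.2.1, p.2.2)

theorem ct_nN (k : ℝ) (p : P3) : ContactAt (nN k) p := by
  refine ⟨by unfold nN; fun_prop, 1, one_pos, fun w => ?_⟩
  have h1 : HasFDerivAt (fun q : P3 => q.1) _ p := hasFDerivAt_fst (𝕜 := ℝ)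
  have h2 : HasFDerivAt (fun q : P3 => q.2.1) _ p := (hasFDerivAt_snd (𝕜 := ℝ)).fst
  have h3 : HasFDerivAt (fun q : P3 => q.2.2) _ p := (hasFDerivAt_snd (𝕜 := ℝ)).snd
  have h : HasFDerivAt (nN k) _ p := (h2.const_mul (1 / (2 * vv))).fun_neg.prodMk
    (((h1.sub_const k).const_mul (2 * vv)).prodMk (h3.fun_sub ((h1.sub_const k).fun_mul h2)))
  rw [h.fderiv]
  simp [al, nN, vv_eq]
  ring

theorem ct_gG (k : ℝ) (p : P3) : ContactAt (gG k) p := by
  refine ⟨by unfold gG; fun_prop, 1, one_pos, fun w => ?_⟩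
  have h1 : HasFDerivAt (fun q : P3 => q.1) _ p := hasFDerivAt_fst (𝕜 := ℝ)
  have h2 : HasFDerivAt (fun q : P3 => q.2.1) _ p := (hasFDerivAt_snd (𝕜 := ℝ)).fst
  have h3 : HasFDerivAt (fun q : P3 => q.2.2) _ p := (hasFDerivAt_snd (𝕜 := ℝ)).snd
  have h : HasFDerivAt (gG k) _ p := (((h1.sub_const k).const_mul 2).const_add (-1)).prodMk
    ((h2.const_mul (1 / 2)).prodMk h3)
  rw [h.fderiv]
  simp [al, gG]
  ring

theorem isOpen_slab (ζ ε : ℝ) : IsOpen (slab ζ ε) :=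
  IsOpen.and (isOpen_lt (by fun_prop) continuous_const) (isOpen_lt (by fun_prop) continuous_const)

theorem wbd {ζ k : ℝ} {p : P3} (hp : p ∈ slab ζ ζ) (hk : |p.1 - k| ≤ 1) :
    |p.2.2 - (p.1 - k) * p.2.1| < 3 * ζ := by
  have h1 := abs_sub p.2.2 ((p.1 - k) * p.2.1)
  have h2 : |(p.1 - k) * p.2.1| ≤ |p.2.1| := by
    rw [abs_mul]
    exact mul_le_of_le_one_left (abs_nonneg _) hk
  have h3 := hp.1
  have h4 := hp.2
  linarith

variable {π : Prof} {ε₀ ζ : ℝ} {tw : Tw} {M : Type} [TopologicalSpace M] [ChartedSpace P3 M]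

/-- the slab map -/
noncomputable def jM {K : ℝ → P3} (sd : SD K M) (p : P3) : M :=
  if |2 * vv * (p.1 - round p.1)| ≤ sd.r' / 2 then sd.ns (nN (round p.1) p)
  else sd.psi (gG ⌊p.1⌋ p)

theorem jM_cases {K : ℝ → P3} (sd : SD K M) (p : P3) :
    (|2 * vv * (p.1 - round p.1)| ≤ sd.r' / 2 ∧ jM sd p = sd.ns (nN (round p.1) p)) ∨
      (sd.r' / 2 < |2 * vv * (p.1 - round p.1)| ∧ sd.r' / 2 < 2 * vv * (p.1 - ⌊p.1⌋) ∧
        2 * vv * (p.1 - ⌊p.1⌋) < 2 * vv - sd.r' / 2 ∧ jM sd p = sd.psi (gG ⌊p.1⌋ p)) := by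
  by_cases h : |2 * vv * (p.1 - round p.1)| ≤ sd.r' / 2
  · exact Or.inl ⟨h, if_pos h⟩
  · refine Or.inr ⟨not_le.1 h, ?_, ?_, if_neg h⟩
    all_goals
      have h1 := round_le p.1 ⌊p.1⌋
      have h2 := round_le p.1 (⌊p.1⌋ + 1)
      have h3 := Int.floor_le p.1
      have h4 := Int.lt_floor_add_one p.1
      rw [abs_of_nonneg (a := p.1 - ⌊p.1⌋) (by linarith)] at h1
      rw [Int.cast_add, Int.cast_one, abs_of_neg (a := p.1 - (⌊p.1⌋ + 1)) (by linarith)] at h2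
      rw [abs_mul, vv_eq, abs_of_pos (a := (2 : ℝ) * 1409024) (by norm_num)] at h
      rw [vv_eq]
      linarith

theorem psi_inj {K : ℝ → P3} (sd : SD K M) {p q : P3} (hp : p ∉ range K) (hq : q ∉ range K)
    (e : sd.psi p = sd.psi q) : p = q :=
  cay_inj (by rw [← sd.th_psi p hp, e, sd.th_psi q hq])

theorem ns_off {K : ℝ → P3} {sd : SD K M} (hc : Cart tw sd) (x : ℝ) {X W : ℝ}
    (h1 : X ^ 2 + W ^ 2 < sd.r' ^ 2) (h2 : ¬ (X = 0 ∧ W = 0)) :
    ∃ s : P3, (|s.2.1| ≤ |X| ∨ |s.2.1| ≤ 6 * |W|) ∧ |s.2.2| ≤ 3 * |W| ∧ sd.nu s ∉ range K ∧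
      sd.ns (x, X, W) = sd.psi (sd.nu s) := by
  have hW := abs_nonneg W
  have he : ∀ t a : ℝ, |Real.exp (tw.β t) * a| ≤ 3 * |a| := fun t a => by
    rw [abs_mul, abs_of_pos (Real.exp_pos _)]
    exact mul_le_mul_of_nonneg_right
      ((Real.exp_le_exp.2 (tw.β_mem t).2).trans Real.exp_one_lt_three.le) (abs_nonneg a)
  by_cases h3 : 2 * |W| ≤ |X|
  · rcases lt_trichotomy X 0 with h4 | h4 | h4
    · exact ⟨_, Or.inl le_rfl, by show |W| ≤ _; linarith,
        hc.right x X W h1 h4 (by rwa [abs_of_neg h4] at h3)⟩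
    · refine absurd ⟨h4, abs_eq_zero.1 ?_⟩ h2
      rw [h4, abs_zero] at h3
      linarith
    · exact ⟨_, Or.inl le_rfl, by show |W| ≤ _; linarith,
        hc.left x X W h1 h4 (by rwa [abs_of_pos h4] at h3)⟩
  · have h5 : |Real.exp (tw.β (X / W)) * X| ≤ 6 * |W| := (he _ _).trans (by linarith)
    rcases lt_trichotomy W 0 with h4 | h4 | h4
    · exact ⟨_, Or.inr h5, he _ _, hc.down x X W h1 h4⟩
    · rw [h4, abs_zero, mul_zero] at h3
      exact absurd (abs_nonneg X) h3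
    · exact ⟨_, Or.inr h5, he _ _, hc.up x X W h1 h4⟩

theorem gap (h : LOK π ε₀) {s p : P3} {k : ℝ} (hs : |s.2.1| < ε₀) (h1 : 0 ≤ p.1 - k)
    (h2 : p.1 - k ≤ 1) (h3 : |p.2.1| ≤ 1) (e : can (π.knot WL) s = gG k p) :
    2 * vv * (p.1 - k) = s.2.1 ∨ 2 * vv * (p.1 - k - 1) = s.2.1 := by
  have h4 := abs_le.1 h3
  obtain ⟨j, hj⟩ := h.tip hs (by rw [e, gG, abs_le]; constructor <;> linarith)
    (by rw [e, gG, abs_le, sg]; constructor <;> linarith)
  have h5 := h.can_int (s.1 - j, s.2) j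
  simp only [sub_add_cancel] at h5
  rw [e] at h5
  rcases hj with hj | hj
  · rw [h.tipL (s.1 - j, s.2) (hj.trans_lt (by norm_num))] at h5
    have h6 : -1 + 2 * (p.1 - k) = -1 + s.2.1 / vv := congrArg Prod.fst h5
    rw [vv_eq] at h6 ⊢
    exact Or.inl (by linarith)
  · rw [h.tipR (s.1 - j, s.2) (hj.trans_lt (by norm_num))] at h5
    have h6 : -1 + 2 * (p.1 - k) = 1 + s.2.1 / vv := congrArg Prod.fst h5
    rw [vv_eq] at h6 ⊢
    exact Or.inr (by linarith)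

theorem gG_not (h : LOK π ε₀) {p : P3} {k : ℝ} (h1 : 0 < p.1 - k) (h2 : p.1 - k < 1)
    (h3 : |p.2.1| ≤ 1) : gG k p ∉ range (π.knot WL) := by
  rintro ⟨t, ht⟩
  have h4 := gap h (s := (t, 0, 0)) (by simpa using h.pos) h1.le h2.le h3
    (by rw [can_core, ← ht]; exact add_zero _)
  rw [vv_eq] at h4
  rcases h4 with h4 | h4 <;> simp only at h4 <;> linarith

/-- the standing hypotheses -/
structure Ctx (ε₀ ζ : ℝ) (tw : Tw) (sd : SD (π.knot WL) M) : Prop where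
  lok : LOK π ε₀
  nu : sd.nu = can (π.knot WL)
  le : sd.r ≤ ε₀
  cart : Cart tw sd
  pos : 0 < ζ
  lt : 40 * ζ < sd.r'

variable {sd : SD (π.knot WL) M}

theorem Ctx.le_one (c : Ctx ε₀ ζ tw sd) : sd.r' ≤ 1 :=
  sd.r'_le.trans (c.le.trans c.lok.le_one)

theorem Ctx.y_le (c : Ctx ε₀ ζ tw sd) {p : P3} (hp : p ∈ slab ζ ζ) : |p.2.1| ≤ 1 := by
  have h1 := hp.1
  have h2 := c.lt
  have h3 := c.le_one
  have h4 := c.pos
  linarith

theorem Ctx.wbd (c : Ctx ε₀ ζ tw sd) {p : P3} (hp : p ∈ slab ζ ζ) {k : ℝ}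
    (hk : |2 * vv * (p.1 - k)| < 3 * sd.r' / 4) : |p.2.2 - (p.1 - k) * p.2.1| < 3 * ζ := by
  have h1 := c.le_one
  rw [vv_eq, abs_lt] at hk
  exact SlabM.wbd hp (abs_le.2 ⟨by linarith, by linarith⟩)

theorem Ctx.sq (c : Ctx ε₀ ζ tw sd) {p : P3} (hp : p ∈ slab ζ ζ) {k : ℝ}
    (hk : |2 * vv * (p.1 - k)| < 3 * sd.r' / 4) :
    (2 * vv * (p.1 - k)) ^ 2 + (p.2.2 - (p.1 - k) * p.2.1) ^ 2 < sd.r' ^ 2 := by
  have h0 := c.lt
  have h1 := sq_lt_sq' (abs_lt.1 hk).1 (abs_lt.1 hk).2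
  have h2 := abs_lt.1 ((c.wbd hp hk).trans (show 3 * ζ < sd.r' / 2 by linarith [c.pos]))
  have h3 := sq_lt_sq' h2.1 h2.2
  nlinarith [sq_nonneg sd.r']

theorem Ctx.tube (c : Ctx ε₀ ζ tw sd) {p : P3} (hp : p ∈ slab ζ ζ) {k : ℝ}
    (hk : |2 * vv * (p.1 - k)| < 3 * sd.r' / 4) : nN k p ∈ tube sd.r :=
  tube_mono sd.r'_pos.le sd.r'_le (c.sq hp hk)

theorem Ctx.ovL (c : Ctx ε₀ ζ tw sd) {p : P3} (hp : p ∈ slab ζ ζ) {k : ℝ}
    (h1 : sd.r' / 4 < 2 * vv * (p.1 - k)) (h2 : 2 * vv * (p.1 - k) < 3 * sd.r' / 4) :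
    sd.ns (nN k p) = sd.psi (gG k p) := by
  have h0 := sd.r'_pos
  have h3 : |2 * vv * (p.1 - k)| < 3 * sd.r' / 4 := abs_lt.2 ⟨by linarith, h2⟩
  have h4 := c.wbd hp h3
  have h5 := abs_le.1 (c.y_le hp)
  rw [nN, (c.cart.left _ _ _ (c.sq hp h3) (by linarith) (by linarith [c.lt, c.pos])).2, c.nu,
    c.lok.tipL _ (by rw [vv_eq, abs_lt]; constructor <;> simp only <;> linarith)]
  refine congrArg _ (Prod.ext ?_ (Prod.ext ?_ ?_)) <;> simp only [gG, vv_eq] <;> ring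

theorem Ctx.ovR (c : Ctx ε₀ ζ tw sd) {p : P3} (hp : p ∈ slab ζ ζ) {k : ℝ}
    (h1 : sd.r' / 4 < -(2 * vv * (p.1 - k))) (h2 : -(2 * vv * (p.1 - k)) < 3 * sd.r' / 4) :
    sd.ns (nN k p) = sd.psi (gG (k - 1) p) := by
  have h0 := sd.r'_pos
  have h3 : |2 * vv * (p.1 - k)| < 3 * sd.r' / 4 := abs_lt.2 ⟨by linarith, by linarith⟩
  have h4 := c.wbd hp h3
  have h5 := abs_le.1 (c.y_le hp)
  rw [nN, (c.cart.right _ _ _ (c.sq hp h3) (by linarith) (by linarith [c.lt, c.pos])).2, c.nu,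
    c.lok.tipR _ (by rw [vv_eq, abs_lt]; constructor <;> simp only <;> linarith)]
  refine congrArg _ (Prod.ext ?_ (Prod.ext ?_ ?_)) <;> simp only [gG, vv_eq] <;> ring

theorem Ctx.jM_N (c : Ctx ε₀ ζ tw sd) {p : P3} (hp : p ∈ slab ζ ζ) {k : ℤ}
    (hk : |2 * vv * (p.1 - k)| < 3 * sd.r' / 4) : jM sd p = sd.ns (nN k p) := by
  have h0 := c.le_one
  have h1 := sd.r'_pos
  have h2 := abs_lt.1 hk
  have h3 := h2
  rw [vv_eq] at h3
  have hr : round p.1 = k := round_eq_iff.2 ⟨by linarith, by linarith⟩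
  rcases jM_cases sd p with ⟨-, e⟩ | ⟨h4, -, -, e⟩
  · rw [e, hr]
  · rw [hr] at h4
    rcases lt_abs.1 h4 with h4 | h4
    · have h5 := h4
      rw [vv_eq] at h5
      have hf : ⌊p.1⌋ = k := Int.floor_eq_iff.2 ⟨by linarith, by linarith⟩
      rw [e, hf, c.ovL hp (by linarith) h2.2]
    · have h5 := h4
      rw [vv_eq] at h5
      have hf : ⌊p.1⌋ = k - 1 := Int.floor_eq_iff.2 (by push_cast; constructor <;> linarith)
      rw [e, hf, c.ovR hp (by linarith) (by linarith), Int.cast_sub, Int.cast_one]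

theorem Ctx.jM_G (c : Ctx ε₀ ζ tw sd) {p : P3} (hp : p ∈ slab ζ ζ) {k : ℤ}
    (hk : sd.r' / 4 < 2 * vv * (p.1 - k)) (hk' : 2 * vv * (p.1 - k) < 2 * vv - sd.r' / 4) :
    jM sd p = sd.psi (gG k p) := by
  have h1 := sd.r'_pos
  have h2 := hk
  have h3 := hk'
  rw [vv_eq] at h2 h3
  have hf : ⌊p.1⌋ = k := Int.floor_eq_iff.2 ⟨by linarith, by linarith⟩
  rcases jM_cases sd p with ⟨h4, e⟩ | ⟨-, -, -, e⟩
  · have h5 := abs_le.1 h4
    rcases lt_or_ge (p.1 - k) (1 / 2) with h6 | h6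
    · have hr : round p.1 = k := round_eq_iff.2 ⟨by linarith, by linarith⟩
      rw [hr] at e h5
      rw [e, c.ovL hp hk (by linarith)]
    · have hr : round p.1 = k + 1 := round_eq_iff.2 (by push_cast; constructor <;> linarith)
      rw [hr, Int.cast_add, Int.cast_one] at e h5
      rw [e, c.ovR hp (by linarith) (by linarith), add_sub_cancel_right]
  · rw [e, hf]

theorem Ctx.g_not (c : Ctx ε₀ ζ tw sd) {p : P3} (hp : p ∈ slab ζ ζ) {k : ℝ}
    (hk : sd.r' / 4 < 2 * vv * (p.1 - k)) (hk' : 2 * vv * (p.1 - k) < 2 * vv - sd.r' / 4) :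
    gG k p ∉ range (π.knot WL) := by
  have h1 := sd.r'_pos
  rw [vv_eq] at hk hk'
  exact gG_not c.lok (by linarith) (by linarith) (c.y_le hp)

theorem Ctx.ct (c : Ctx ε₀ ζ tw sd) {p : P3} (hp : p ∈ slab ζ ζ) : CtInto (jM sd) p := by
  have h1 := sd.r'_pos
  have h2 : ∀ᶠ q in 𝓝 p, q ∈ slab ζ ζ := (isOpen_slab ζ ζ).mem_nhds hp
  rcases jM_cases sd p with ⟨h3, -⟩ | ⟨-, h3, h4, -⟩
  · have h4 : |2 * vv * (p.1 - round p.1)| < 3 * sd.r' / 4 := by linarith
    have h5 : ∀ᶠ q : P3 in 𝓝 p, |2 * vv * (q.1 - round p.1)| < 3 * sd.r' / 4 :=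
      ContinuousAt.eventually_lt (by fun_prop) continuousAt_const h4
    refine (CtInto.comp (sd.ns_ct _ (c.tube hp h4)) (ct_nN _ p)).congr ?_
    filter_upwards [h2, h5] with q a b using c.jM_N a b
  · have h5 : sd.r' / 4 < 2 * vv * (p.1 - ⌊p.1⌋) := by linarith
    have h6 : 2 * vv * (p.1 - ⌊p.1⌋) < 2 * vv - sd.r' / 4 := by linarith
    have h7 : ∀ᶠ q : P3 in 𝓝 p, sd.r' / 4 < 2 * vv * (q.1 - ⌊p.1⌋) :=
      ContinuousAt.eventually_lt continuousAt_const (by fun_prop) h5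
    have h8 : ∀ᶠ q : P3 in 𝓝 p, 2 * vv * (q.1 - ⌊p.1⌋) < 2 * vv - sd.r' / 4 :=
      ContinuousAt.eventually_lt (by fun_prop) continuousAt_const h6
    refine (CtInto.comp (sd.psi_ct _ (c.g_not hp h5 h6)) (ct_gG _ p)).congr ?_
    filter_upwards [h2, h7, h8] with q a b d using c.jM_G a b d

/-- a point of the first kind is on the core or close to `L` -/
theorem Ctx.n_cases (c : Ctx ε₀ ζ tw sd) {p : P3} (hp : p ∈ slab ζ ζ) {k : ℝ}
    (hk : |2 * vv * (p.1 - k)| ≤ sd.r' / 2) : (∃ x : ℝ, sd.ns (nN k p) = sd.ns (x, 0, 0)) ∨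
      ∃ s : P3, |s.2.1| ≤ sd.r' / 2 ∧ |s.2.2| ≤ 1 ∧ can (π.knot WL) s ∉ range (π.knot WL) ∧
        sd.ns (nN k p) = sd.psi (can (π.knot WL) s) := by
  have h1 := sd.r'_pos
  have h2 : |2 * vv * (p.1 - k)| < 3 * sd.r' / 4 := by linarith
  by_cases h3 : 2 * vv * (p.1 - k) = 0 ∧ p.2.2 - (p.1 - k) * p.2.1 = 0
  · exact Or.inl ⟨_, by rw [nN, h3.1, h3.2]⟩
  · obtain ⟨s, h4, h5, h6, h7⟩ := ns_off c.cart (-(1 / (2 * vv) * p.2.1)) (c.sq hp h2) h3
    have h8 := c.wbd hp h2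
    have h9 := c.lt
    have h10 := c.le_one
    have h11 := c.pos
    rw [c.nu] at h6 h7
    refine Or.inr ⟨s, ?_, by linarith, h6, h7⟩
    rcases h4 with h4 | h4 <;> linarith

theorem Ctx.half (c : Ctx ε₀ ζ tw sd) : sd.r' / 2 < ε₀ := by
  have h1 := sd.r'_pos
  have h2 := sd.r'_le
  have h3 := c.le
  linarith

theorem Ctx.ng (c : Ctx ε₀ ζ tw sd) {p q : P3} (hp : p ∈ slab ζ ζ) (hq : q ∈ slab ζ ζ) {k l : ℝ}
    (hk : |2 * vv * (p.1 - k)| ≤ sd.r' / 2) (hl : sd.r' / 2 < 2 * vv * (q.1 - l))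
    (hl' : 2 * vv * (q.1 - l) < 2 * vv - sd.r' / 2) : sd.ns (nN k p) ≠ sd.psi (gG l q) := by
  intro e
  have h1 := sd.r'_pos
  have h2 := c.g_not hq (k := l) (by linarith) (by linarith)
  rcases c.n_cases hp hk with ⟨x, h3⟩ | ⟨s, h3, -, h4, h5⟩
  · exact sd.psi_not _ h2 ⟨x, h3.symm.trans e⟩
  · have h6 := abs_le.1 h3
    have h7 := hl
    have h8 := hl'
    rw [vv_eq] at h7 h8
    rcases gap c.lok (h3.trans_lt c.half) (by linarith) (by linarith) (c.y_le hq)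
      (psi_inj sd h4 h2 (h5.symm.trans e)) with h9 | h9 <;> linarith

theorem jM_per {K : ℝ → P3} (sd : SD K M) (p : P3) : jM sd (p.1 + 1, p.2) = jM sd p := by
  simp only [jM, nN, gG, round_add_one, Int.floor_add_one, Int.cast_add, Int.cast_one,
    add_sub_add_right_eq_sub]

theorem Ctx.inj (c : Ctx ε₀ ζ tw sd) {p q : P3} (hp : p ∈ slab ζ ζ) (hq : q ∈ slab ζ ζ)
    (e : jM sd p = jM sd q) : p.2 = q.2 ∧ ∃ k : ℤ, p.1 = q.1 + k := by
  have h0 := sd.r'_pos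
  rcases jM_cases sd p with ⟨h1, e1⟩ | ⟨-, h1, h1', e1⟩ <;>
    rcases jM_cases sd q with ⟨h2, e2⟩ | ⟨-, h2, h2', e2⟩ <;> rw [e1, e2] at e
  · obtain ⟨h3, k, h4⟩ := sd.ns_tube.2 _ (c.tube hp (by linarith)) _ (c.tube hq (by linarith)) e
    have h5 : 2 * vv * (p.1 - round p.1) = 2 * vv * (q.1 - round q.1) := congrArg Prod.fst h3
    have h6 : p.2.2 - (p.1 - round p.1) * p.2.1 = q.2.2 - (q.1 - round q.1) * q.2.1 :=
      congrArg Prod.snd h3
    have h7 : -(1 / (2 * vv) * p.2.1) = -(1 / (2 * vv) * q.2.1) + k := h4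
    have h8 := abs_le.1 (c.y_le hp)
    have h9 := abs_le.1 (c.y_le hq)
    rw [vv_eq] at h5 h7
    have h10 : k = 0 := by
      have a1 : ((-1 : ℤ) : ℝ) < k := by push_cast; linarith
      have a2 : (k : ℝ) < (1 : ℤ) := by push_cast; linarith
      have a3 := Int.cast_lt.1 a1
      have a4 := Int.cast_lt.1 a2
      omega
    rw [h10, Int.cast_zero] at h7
    have h11 : p.2.1 = q.2.1 := by linarith
    have h12 : p.1 - round p.1 = q.1 - round q.1 := by linarith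
    rw [h11, h12] at h6
    exact ⟨Prod.ext h11 (by linarith), round p.1 - round q.1, by push_cast; linarith⟩
  · exact absurd e (c.ng hp hq h1 h2 h2')
  · exact absurd e.symm (c.ng hq hp h2 h1 h1')
  · have h3 := psi_inj sd (c.g_not hp (by linarith) (by linarith))
      (c.g_not hq (by linarith) (by linarith)) e
    have h4 : -1 + 2 * (p.1 - ⌊p.1⌋) = -1 + 2 * (q.1 - ⌊q.1⌋) := congrArg Prod.fst h3
    have h5 : 1 / 2 * p.2.1 = 1 / 2 * q.2.1 := congrArg (fun a : P3 => a.2.1) h3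
    have h6 : (gG ⌊p.1⌋ p).2.2 = (gG ⌊q.1⌋ q).2.2 := congrArg (fun a : P3 => a.2.2) h3
    exact ⟨Prod.ext (by linarith) h6, ⌊p.1⌋ - ⌊q.1⌋, by push_cast; linarith⟩

theorem Ctx.near (c : Ctx ε₀ ζ tw sd) {p : P3} (hp : p ∈ slab ζ ζ) :
    (∃ x : ℝ, jM sd p = sd.ns (x, 0, 0)) ∨
      ∃ q, q ∉ range (π.knot WL) ∧ Near π q ∧ jM sd p = sd.psi q := by
  have h0 := sd.r'_pos
  rcases jM_cases sd p with ⟨h1, e⟩ | ⟨-, h1, h2, e⟩ <;> rw [e]
  · rcases c.n_cases hp h1 with h2 | ⟨s, h2, h3, h4, h5⟩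
    · exact Or.inl h2
    · exact Or.inr ⟨_, h4, Or.inl ⟨s.1, s.2.2, h3.trans (by norm_num [sg]),
        (c.lok.near s (h2.trans_lt c.half)).le⟩, h5⟩
  · refine Or.inr ⟨_, c.g_not hp (by linarith) (by linarith), Or.inr ?_, rfl⟩
    have h3 := abs_le.1 (c.y_le hp)
    have h4 := hp.2
    have h5 := c.lt
    have h6 := c.le_one
    have h7 := c.pos
    rw [vv_eq] at h1 h2
    simp only [gG, sg]
    exact ⟨abs_le.2 ⟨by linarith, by linarith⟩, abs_le.2 ⟨by linarith, by linarith⟩, by linarith⟩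

theorem Ctx.core (c : Ctx ε₀ ζ tw sd) {p : P3} (hp : p ∈ slab ζ ζ) {x : ℝ}
    (e : jM sd p = sd.ns (x, 0, 0)) : (∃ k : ℤ, p.1 = k) ∧ p.2.2 = 0 := by
  have h0 := sd.r'_pos
  rcases jM_cases sd p with ⟨h1, e1⟩ | ⟨-, h1, h2, e1⟩ <;> rw [e1] at e
  · have h3 := (sd.ns_tube.2 _ (c.tube hp (by linarith)) _ (loc_aux_core sd.r_pos x) e).1
    have h5 : 2 * vv * (p.1 - round p.1) = 0 := congrArg Prod.fst h3
    have h6 : p.2.2 - (p.1 - round p.1) * p.2.1 = 0 := congrArg Prod.snd h3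
    rw [vv_eq] at h5
    have h7 : p.1 - round p.1 = 0 := by linarith
    rw [h7, zero_mul, sub_zero] at h6
    exact ⟨⟨round p.1, by linarith⟩, h6⟩
  · exact absurd ⟨x, e.symm⟩ (sd.psi_not _ (c.g_not hp (by linarith) (by linarith)))

theorem co_zero (tw : Tw) (ζ : ℝ) (b : Bool) (P : ℝ) : tw.co ζ b 0 P =
    ((42 + es b * (43 / 2 - 43 / 2 * tw.R P)) / 86, Real.exp (tw.β P) * (ζ * P),
      Real.exp (tw.β P) * (es b * ζ)) := by
  refine Prod.ext ?_ (Prod.ext ?_ ?_) <;> simp only [Tw.co, Tw.T] <;> ring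

theorem Ctx.leaf (c : Ctx ε₀ ζ tw sd) (b : Bool) (x : ℝ) :
    jM sd (x, 0, es b * ζ) = sd.psi (leaf π tw ζ b 0 x) := by
  have h0 := sd.r'_pos
  have h1 := c.pos
  have h2 := c.lt
  have h3 := abs_le.1 (abs_sub_round x)
  rw [MP_4d7d0a_gt.leaf, co_zero, mul_div_cancel₀ _ h1.ne']
  rcases jM_cases sd (x, 0, es b * ζ) with ⟨h4, e⟩ | ⟨h4, -, -, e⟩ <;> rw [e] <;>
    simp only at h4
  · have h5 := abs_le.1 h4
    have h6 : (2 * vv * (x - round x)) ^ 2 + ζ ^ 2 < sd.r' ^ 2 := by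
      nlinarith [sq_le_sq' h5.1 h5.2]
    simp only [nN, mul_zero, neg_zero, sub_zero]
    cases b
    · have h7 : es false * ζ = -ζ := by simp [es]
      rw [h7, (c.cart.down 0 _ _ (by rwa [neg_sq]) (by linarith)).2, c.nu, div_neg, tw.R_odd,
        tw.β_even]
      refine congrArg (fun a => sd.psi (can _ a)) (Prod.ext ?_ rfl)
      simp only [es, Bool.false_eq_true, if_false]
      ring
    · have h7 : es true * ζ = ζ := by simp [es]
      rw [h7, (c.cart.up 0 _ _ h6 h1).2, c.nu]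
      refine congrArg (fun a => sd.psi (can _ a)) (Prod.ext ?_ rfl)
      simp only [es, if_true]
      ring
  · refine congrArg _ ?_
    rcases lt_abs.1 h4 with h4 | h4
    · have h5 : 2 ≤ 2 * vv * (x - round x) / ζ := (le_div_iff₀ h1).2 (by linarith)
      have h6 := h4
      rw [vv_eq] at h6
      have hf : ⌊x⌋ = round x := Int.floor_eq_iff.2 ⟨by linarith, by linarith⟩
      rw [tw.R_one _ h5, tw.β_zero _ (h5.trans (le_abs_self _)), c.lok.tipL _ (by norm_num), hf]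
      refine Prod.ext ?_ (Prod.ext ?_ ?_) <;> simp only [gG, vv_eq, Real.exp_zero] <;> ring
    · have h5 : 2 ≤ -(2 * vv * (x - round x) / ζ) := by
        rw [← neg_div]
        exact (le_div_iff₀ h1).2 (by linarith)
      have h6 := h4
      rw [vv_eq] at h6
      have hf : ⌊x⌋ = round x - 1 := Int.floor_eq_iff.2 (by push_cast; constructor <;> linarith)
      have h7 := tw.R_one _ h5
      rw [tw.R_odd, neg_eq_iff_eq_neg] at h7
      have h8 : ∀ w : ℝ × ℝ, can (π.knot WL) ((42 + es b * (43 / 2 - 43 / 2 * -1)) / 86, w) =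
          can (π.knot WL) (-1 / 86, w) := fun w => by
        cases b
        · refine congrArg _ (Prod.ext ?_ rfl)
          norm_num [es]
        · rw [← can_periodic c.lok.leg.2.1 (-1 / 86, w)]
          refine congrArg _ (Prod.ext ?_ rfl)
          norm_num [es]
      rw [h7, tw.β_zero _ (h5.trans (neg_le_abs _)), h8, c.lok.tipR _ (by norm_num), hf]
      refine Prod.ext ?_ (Prod.ext ?_ ?_) <;>
        simp only [gG, vv_eq, Real.exp_zero, Int.cast_sub, Int.cast_one] <;> ring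

end SlabM

theorem exists_slabM {π : Prof} {ε₀ : ℝ} (h : LOK π ε₀) (tw : Tw) {M : Type}
    [TopologicalSpace M] [ChartedSpace P3 M] [T2Space M] (hA : IsContactAtlas M)
    (sd : SD (π.knot WL) M) (hnu : sd.nu = can (π.knot WL)) (hr : sd.r ≤ ε₀) (hc : Cart tw sd) :
    ∃ ζ₀ : ℝ, 0 < ζ₀ ∧ ∀ ζ : ℝ, 0 < ζ → ζ < ζ₀ → ∃ (ε : ℝ) (j' : P3 → M), 0 < ε ∧ ε < 1 ∧
      ζ + ε < sd.r' ∧ SlabMap j' (slab ζ ε) ∧ (∀ p ∈ slab ζ ε, CtInto j' p) ∧
      (∀ p ∈ slab ζ ε, j' p ≠ sd.minf) ∧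
      (∀ y z : ℝ, |y| < ε → |z| < ζ + ε → j' (0, y, z) = sd.ns (-(1 / (2 * vv) * y), 0, z)) ∧
      (∀ p ∈ slab ζ ε, ∀ x : ℝ, j' p = sd.ns (x, 0, 0) → (∃ k : ℤ, p.1 = k) ∧ p.2.2 = 0) ∧
      (∀ c x, j' (x, 0, es c * ζ) = sd.psi (leaf π tw ζ c 0 x)) ∧
      ∀ p ∈ slab ζ ε, (∃ x : ℝ, j' p = sd.ns (x, 0, 0)) ∨
        ∃ q, q ∉ range (π.knot WL) ∧ Near π q ∧ j' p = sd.psi q := by
  have h0 := sd.r'_pos
  refine ⟨sd.r' / 40, by linarith, fun ζ h1 h2 => ?_⟩
  have c : SlabM.Ctx ε₀ ζ tw sd := ⟨h, hnu, hr, hc, h1, by linarith⟩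
  have h3 := c.le_one
  refine ⟨ζ, SlabM.jM sd, h1, by linarith, by linarith,
    ⟨SlabM.jM_per sd, fun p hp q hq => c.inj hp hq⟩, fun p hp => c.ct hp, fun p hp e => ?_,
    fun y z hy hz => ?_, fun p hp x => c.core hp, c.leaf, fun p hp => c.near hp⟩
  · rcases c.near hp with ⟨x, h4⟩ | ⟨q, h4, -, h5⟩
    · exact sd.minf_not ⟨x, h4.symm.trans e⟩
    · exact sd.psi_ne h4 (h5.symm.trans e)
  · rw [c.jM_N (p := (0, y, z)) (k := 0) ⟨hy, hz⟩ (by simpa using by linarith)]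
    simp [SlabM.nN]

end Pool.Agent.Lib.MP_4d7d0a_gt
end

-- part Pool.Agent.Lib.MP_4d7d0a_gt.K2W1
section

/-! Part K2: the writhe before and after the shear. -/

set_option autoImplicit false

open Set Filter Topology

namespace Pool.Agent.Lib.MP_4d7d0a_gt

namespace K2

variable {ι : Type}

namespace W1Aux

/-- the direction of the push off -/
def nu (ε : ℝ) : P3 := (0, -ε, ε)

theorem nu_cont : Continuous nu := by
  unfold nu; fun_prop

theorem nu_zero : nu 0 = 0 := by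
  simp [nu]

theorem crS_zero {a b c d : P3} (h : ¬ Cross a b c d) : crS a b c d = 0 := by
  unfold crS
  rw [if_neg fun h' => h h'.1]

theorem self_zero {a b : P3} (h : (b - a).1 ≠ 0) {ε : ℝ} (hε : 0 < ε) :
    crZ a b (a + nu ε) (b + nu ε) = 0 := by
  refine crZ_zero fun u _ v _ hp => ?_
  exfalso
  obtain ⟨h1, h3⟩ := hp
  rw [PBA.lm1, PBA.lm1] at h1
  rw [PBA.lm3, PBA.lm3] at h3
  simp only [nu, Prod.fst_add, Prod.snd_add, Prod.fst_sub] at h h1 h3
  have huv : u = v := mul_right_cancel₀ h (by linarith)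
  subst huv
  linarith

/-- the sign conditions at a vertex -/
def Vx (p r : P3) : Prop :=
  (0 < p.1 ∧ 0 < r.1) ∨ (p.1 < 0 ∧ r.1 < 0) ∨ (0 < p.1 ∧ r.1 < 0 ∧ 0 < det2 p r) ∨
    (p.1 < 0 ∧ 0 < r.1 ∧ det2 p r < 0)

theorem same_zero {x y α β : ℝ} (h : (0 < x ∧ 0 < y) ∨ (x < 0 ∧ y < 0)) (hα : 0 ≤ α)
    (hβ : 0 ≤ β) (h0 : α * x + β * y = 0) : α = 0 ∧ β = 0 := by
  rcases h with ⟨hx, hy⟩ | ⟨hx, hy⟩
  · have h1 := mul_nonneg hα hx.le
    have h2 := mul_nonneg hβ hy.le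
    exact ⟨(mul_eq_zero.1 (by linarith : α * x = 0)).resolve_right hx.ne',
      (mul_eq_zero.1 (by linarith : β * y = 0)).resolve_right hy.ne'⟩
  · have h1 := mul_nonpos_of_nonneg_of_nonpos hα hx.le
    have h2 := mul_nonpos_of_nonneg_of_nonpos hβ hy.le
    exact ⟨(mul_eq_zero.1 (by linarith : α * x = 0)).resolve_right hx.ne,
      (mul_eq_zero.1 (by linarith : β * y = 0)).resolve_right hy.ne⟩

theorem next_zero {a b c : P3} (h : Vx (b - a) (c - b)) {ε : ℝ} (hε : 0 < ε) :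
    crZ a b (b + nu ε) (c + nu ε) = 0 := by
  refine crZ_zero fun u hu v hv hp => ?_
  exfalso
  obtain ⟨h1, h3⟩ := hp
  rw [PBA.lm1, PBA.lm1] at h1
  rw [PBA.lm3, PBA.lm3] at h3
  simp only [nu, Prod.fst_add, Prod.snd_add] at h1 h3
  have hα : 0 ≤ 1 - u := sub_nonneg.2 hu.2
  have e1 : (1 - u) * (b.1 - a.1) + v * (c.1 - b.1) = 0 := by linarith
  have e3 : (1 - u) * (b.2.2 - a.2.2) + v * (c.2.2 - b.2.2) = -ε := by linarith
  have e4 : v * det2 (b - a) (c - b) = -(ε * (b.1 - a.1)) := by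
    simp only [det2, Prod.fst_sub, Prod.snd_sub]
    linear_combination (b.1 - a.1) * e3 - (b.2.2 - a.2.2) * e1
  simp only [Vx, Prod.fst_sub] at h
  rcases h with h | h | ⟨hx, -, hd⟩ | ⟨hx, -, hd⟩
  · obtain ⟨z1, z2⟩ := same_zero (Or.inl h) hα hv.1 e1
    rw [z1, z2] at e3
    linarith
  · obtain ⟨z1, z2⟩ := same_zero (Or.inr h) hα hv.1 e1
    rw [z1, z2] at e3
    linarith
  · have := mul_nonneg hv.1 hd.le
    have := mul_pos hε hx
    linarith
  · have := mul_nonpos_of_nonneg_of_nonpos hv.1 hd.le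
    have := mul_neg_of_pos_of_neg hε hx
    linarith

theorem prev_zero {a b c : P3}
    (h : ((0 < (b - a).1 ∧ 0 < (c - b).1) ∨ ((b - a).1 < 0 ∧ (c - b).1 < 0)) ∨
      (0 < det2 (b - a) (c - b) ∧ 0 < det2 (shear 0 1 (b - a)) (shear 0 1 (c - b))))
    {ε : ℝ} (hε : 0 < ε) : crZ b c (a + nu ε) (b + nu ε) = 0 := by
  refine crZ_zero fun u hu v hv hp => ?_
  obtain ⟨h1, h3⟩ := hp
  rw [PBA.lm1, PBA.lm1] at h1
  rw [PBA.lm3, PBA.lm3] at h3
  rw [PBA.lm2, PBA.lm2]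
  simp only [nu, Prod.fst_add, Prod.snd_add] at h1 h3 ⊢
  have hα : 0 ≤ 1 - v := sub_nonneg.2 hv.2
  have e1 : (1 - v) * (b.1 - a.1) + u * (c.1 - b.1) = 0 := by linarith
  have e3 : (1 - v) * (b.2.2 - a.2.2) + u * (c.2.2 - b.2.2) = ε := by linarith
  rcases h with h | ⟨hd, hs⟩
  · exfalso
    simp only [Prod.fst_sub] at h
    obtain ⟨z1, z2⟩ := same_zero h hα hu.1 e1
    rw [z1, z2] at e3
    linarith
  · have e4 : (ε + (1 - v) * (b.2.1 - a.2.1) + u * (c.2.1 - b.2.1)) * det2 (b - a) (c - b) =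
        ε * det2 (shear 0 1 (b - a)) (shear 0 1 (c - b)) := by
      simp only [det2, shear_apply, Prod.fst_sub, Prod.snd_sub]
      linear_combination
        ((c.2.1 - b.2.1) * (b.1 - a.1) - (b.2.1 - a.2.1) * (c.1 - b.1)) * e3 +
          ((b.2.1 - a.2.1) * (c.2.2 - b.2.2) - (c.2.1 - b.2.1) * (b.2.2 - a.2.2)) * e1
    have e5 : 0 < ε + (1 - v) * (b.2.1 - a.2.1) + u * (c.2.1 - b.2.1) :=
      (mul_pos_iff_of_pos_right hd).1 (e4 ▸ mul_pos hε hs)
    linarith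

theorem small (k : ℝ) : ∀ᶠ ε : ℝ in 𝓝[>] 0, ε * k < 1 := by
  refine nhdsWithin_le_nhds ?_
  have hc : ContinuousAt (fun ε : ℝ => ε * k) 0 := by fun_prop
  exact hc.eventually_lt continuousAt_const (by simp)

theorem prev_one {a b c : P3} (hp : (b - a).1 < 0) (hr : 0 < (c - b).1)
    (hd : det2 (b - a) (c - b) < 0) (hs : 0 < det2 (shear 0 1 (b - a)) (shear 0 1 (c - b))) :
    ∀ᶠ ε : ℝ in 𝓝[>] 0, crZ b c (a + nu ε) (b + nu ε) = 1 := by
  filter_upwards [self_mem_nhdsWithin, small ((b - a).1 / det2 (b - a) (c - b)),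
    small (-(c - b).1 / det2 (b - a) (c - b))] with ε hε h1 h2
  have hε : 0 < ε := hε
  set D := det2 (b - a) (c - b) with hD
  set u := ε * ((b - a).1 / D) with hu
  set w := ε * (-(c - b).1 / D) with hw
  have hu0 : 0 < u := mul_pos hε (div_pos_of_neg_of_neg hp hd)
  have hw0 : 0 < w := mul_pos hε (div_pos_of_neg_of_neg (neg_neg_of_pos hr) hd)
  have huD : u * D = ε * (b - a).1 := by rw [hu]; field_simp [hd.ne]
  have hwD : w * D = -(ε * (c - b).1) := by rw [hw]; field_simp [hd.ne]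
  have e1 : w * (b.1 - a.1) + u * (c.1 - b.1) = 0 := by
    refine mul_right_cancel₀ hd.ne ?_
    simp only [Prod.fst_sub] at huD hwD
    linear_combination (b.1 - a.1) * hwD + (c.1 - b.1) * huD
  have e3 : w * (b.2.2 - a.2.2) + u * (c.2.2 - b.2.2) = ε := by
    refine mul_right_cancel₀ hd.ne ?_
    have hD' := hD
    simp only [det2, Prod.fst_sub, Prod.snd_sub] at huD hwD hD'
    linear_combination (b.2.2 - a.2.2) * hwD + (c.2.2 - b.2.2) * huD - ε * hD'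
  have hsub : b + nu ε - (a + nu ε) = b - a := add_sub_add_right_eq_sub _ _ _
  have hdet : det2 (c - b) (b + nu ε - (a + nu ε)) = -D := by
    rw [hsub, PBA.det2_swap]
  have hdet' : det2 (b + nu ε - (a + nu ε)) (c - b) = D := by rw [hsub]
  have x1 : (AffineMap.lineMap b c u : P3).1 =
      (AffineMap.lineMap (a + nu ε) (b + nu ε) (1 - w) : P3).1 := by
    rw [PBA.lm1, PBA.lm1]
    simp only [nu, Prod.fst_add]
    linear_combination e1
  have x3 : (AffineMap.lineMap b c u : P3).2.2 =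
      (AffineMap.lineMap (a + nu ε) (b + nu ε) (1 - w) : P3).2.2 := by
    rw [PBA.lm3, PBA.lm3]
    simp only [nu, Prod.snd_add]
    linear_combination e3
  have n1 : det2 (c - b) (b + nu ε - (a + nu ε)) ≠ 0 := by
    rw [hdet]; exact neg_ne_zero.2 hd.ne
  have n2 : det2 (b + nu ε - (a + nu ε)) (c - b) ≠ 0 := by
    rw [hdet']; exact hd.ne
  have t1 : crT b c (a + nu ε) (b + nu ε) = u := PBA.crT_eq n1 x1 x3
  have t2 : crT (a + nu ε) (b + nu ε) b c = 1 - w := PBA.crT_eq n2 x1.symm x3.symm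
  have hc : Cross b c (a + nu ε) (b + nu ε) :=
    ⟨n1, t1 ▸ ⟨hu0, h1⟩, t2 ▸ ⟨sub_pos.2 h2, sub_lt_self _ hw0⟩⟩
  have e4 : (ε + w * (b.2.1 - a.2.1) + u * (c.2.1 - b.2.1)) * D =
      ε * det2 (shear 0 1 (b - a)) (shear 0 1 (c - b)) := by
    rw [hD]
    simp only [det2, shear_apply, Prod.fst_sub, Prod.snd_sub]
    linear_combination
      ((c.2.1 - b.2.1) * (b.1 - a.1) - (b.2.1 - a.2.1) * (c.1 - b.1)) * e3 +
        ((b.2.1 - a.2.1) * (c.2.2 - b.2.2) - (c.2.1 - b.2.1) * (b.2.2 - a.2.2)) * e1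
  have e5 : ε + w * (b.2.1 - a.2.1) + u * (c.2.1 - b.2.1) < 0 := by
    have : 0 < (ε + w * (b.2.1 - a.2.1) + u * (c.2.1 - b.2.1)) * D := e4 ▸ mul_pos hε hs
    exact neg_of_mul_pos_left this hd.le
  have ho : Over b c (a + nu ε) (b + nu ε) := by
    unfold Over
    rw [t1, t2, PBA.lm2, PBA.lm2]
    simp only [nu, Prod.fst_add, Prod.snd_add]
    linarith
  rw [crZ_crS (Or.inl hc), crS, if_pos ⟨hc, ho⟩, if_pos (by rw [hdet]; exact neg_pos.2 hd)]

theorem cross_same {a b c d : P3} (h : Cross a b c d)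
    (hy : (AffineMap.lineMap a b (crT a b c d) : P3).2.1 ≠
      (AffineMap.lineMap c d (crT c d a b) : P3).2.1) :
    ∀ᶠ ε : ℝ in 𝓝 0, crZ a b (c + nu ε) (d + nu ε) = crS a b c d := by
  have hc : Continuous fun ε : ℝ => c + nu ε := continuous_const.add nu_cont
  have hd : Continuous fun ε : ℝ => d + nu ε := continuous_const.add nu_cont
  have ha : Continuous fun _ : ℝ => a := continuous_const
  have hb : Continuous fun _ : ℝ => b := continuous_const
  have h0 : Cross a b (c + nu 0) (d + nu 0) := by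
    rw [nu_zero, add_zero, add_zero]; exact h
  have h1 := PBA.cross_eventually ha hb hc hd (x₀ := 0) h0
  have h2 := PBA.lt_eventually (PBA.ycr_cont ha hb hc hd (x₀ := 0) h0.1)
    (PBA.ycr_cont hc hd ha hb (x₀ := 0) (PBA.cross_symm h0).1)
    (by simp only [nu_zero, add_zero]; exact hy)
  filter_upwards [h1, h2] with ε g1 g2
  simp only [nu_zero, add_zero] at g2
  have g3 : Over a b c d ↔ Over a b (c + nu ε) (d + nu ε) := g2.1
  rw [crZ_crS (Or.inl g1), crS, crS, add_sub_add_right_eq_sub]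
  by_cases ho : Over a b c d
  · rw [if_pos (And.intro g1 (g3.1 ho)), if_pos (And.intro h ho)]
  · rw [if_neg fun z => ho (g3.2 z.2), if_neg fun z => ho z.2]

theorem dis_zero {a b c d : P3} (h : PBA.Dis (PBA.pj a) (PBA.pj b) (PBA.pj c) (PBA.pj d)) :
    ∀ᶠ ε : ℝ in 𝓝 0, crZ a b (c + nu ε) (d + nu ε) = 0 := by
  have hc : Continuous fun ε : ℝ => PBA.pj (c + nu ε) :=
    PBA.pj_cont.comp (continuous_const.add nu_cont)
  have hd : Continuous fun ε : ℝ => PBA.pj (d + nu ε) :=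
    PBA.pj_cont.comp (continuous_const.add nu_cont)
  have h1 := PBA.Dis.eventually (continuous_const (y := PBA.pj a))
    (continuous_const (y := PBA.pj b)) hc hd (x₀ := 0)
    (by simp only [nu_zero, add_zero]; exact h)
  filter_upwards [h1] with ε g
  exact crZ_zero fun u hu v hv hp => (g u hu v hv ((PBA.pj_lm _ _ _ _ _ _).2 hp)).elim

theorem vx {P : PG ι} {R : ι → Prop} (h : Br P R) (e : ι) : Vx (dir P e) (dir P (P.σ e)) := by
  by_cases h1 : R e <;> by_cases h2 : R (P.σ e)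
  · exact Or.inl ⟨h.rpos _ h1, h.rpos _ h2⟩
  · exact Or.inr (Or.inr (Or.inl ⟨h.rpos _ h1, h.lneg _ h2, h.right _ h1 h2⟩))
  · exact Or.inr (Or.inr (Or.inr ⟨h.lneg _ h1, h.rpos _ h2, h.left _ h1 h2⟩))
  · exact Or.inr (Or.inl ⟨h.lneg _ h1, h.lneg _ h2⟩)

open Classical in
theorem term {P : PG ι} {R : ι → Prop} (h : Br P R) (e f : ι) :
    ∀ᶠ ε : ℝ in 𝓝[>] 0,
      crZ (P.pos e) (P.pos (P.σ e)) (P.pos f + nu ε) (P.pos (P.σ f) + nu ε) =
        crS (P.pos e) (P.pos (P.σ e)) (P.pos f) (P.pos (P.σ f)) +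
          if e = P.σ f ∧ ¬ R f ∧ R (P.σ f) then 1 else 0 := by
  by_cases h1 : e = f
  · subst h1
    have hx : (dir P e).1 ≠ 0 := by
      by_cases hr : R e
      · exact (h.rpos e hr).ne'
      · exact (h.lneg e hr).ne
    filter_upwards [self_mem_nhdsWithin] with ε hε
    rw [self_zero hx hε, crS_zero (PBA.not_cross_self _ _),
      if_neg fun z => PBA.emb_ne1 h.gen.1 e z.1.symm, add_zero]
  by_cases h2 : f = P.σ e
  · subst h2
    filter_upwards [self_mem_nhdsWithin] with ε hε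
    rw [next_zero (vx h e) hε, crS_zero (PBA.not_cross_adj _ _ _),
      if_neg fun z => PBA.emb_ne2 h.gen.1 e z.1.symm, add_zero]
  by_cases h3 : e = P.σ f
  · subst h3
    rw [crS_zero fun z => PBA.not_cross_adj _ _ _ (PBA.cross_symm z), zero_add]
    by_cases h4 : ¬ R f ∧ R (P.σ f)
    · rw [if_pos ⟨rfl, h4⟩]
      exact prev_one (h.lneg _ h4.1) (h.rpos _ h4.2) (h.left _ h4.1 h4.2)
        (h.turn _ fun z => h4.1 (z.2 h4.2))
    · rw [if_neg fun z => h4 z.2]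
      filter_upwards [self_mem_nhdsWithin] with ε hε
      refine prev_zero ?_ hε
      by_cases g1 : R f <;> by_cases g2 : R (P.σ f)
      · exact Or.inl (Or.inl ⟨h.rpos _ g1, h.rpos _ g2⟩)
      · exact Or.inr ⟨h.right _ g1 g2, h.turn _ fun z => g2 (z.1 g1)⟩
      · exact (h4 ⟨g1, g2⟩).elim
      · exact Or.inl (Or.inr ⟨h.lneg _ g1, h.lneg _ g2⟩)
  rw [if_neg fun z => h3 z.1, add_zero]
  refine nhdsWithin_le_nhds ?_
  by_cases hc : P.Cr e f
  · exact cross_same hc (PBA.y_ne h.gen.1 hc)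
  · rw [crS_zero hc]
    exact dis_zero (PBA.QQ.dis ((PBA.gen2_iff P).1 h.gen.2.1) (PBA.cr_mem P) h1 h2 h3 hc)

end W1Aux

theorem lkZ_shift1 [Fintype ι] {P : PG ι} {R : ι → Prop} (h : Br P R) :
    ∀ᶠ ε : ℝ in 𝓝[>] 0, lkZ P (shiftP P (0, -ε, ε)) =
      wr P + ({e | ¬ R e ∧ R (P.σ e)}.ncard : ℤ) := by
  classical
  have key := eventually_all.2 fun e => eventually_all.2 fun f => W1Aux.term h e f
  filter_upwards [key] with ε hε
  have h1 : lkZ P (shiftP P (0, -ε, ε)) = ∑ e, ∑ f,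
      (crS (P.pos e) (P.pos (P.σ e)) (P.pos f) (P.pos (P.σ f)) +
        if e = P.σ f ∧ ¬ R f ∧ R (P.σ f) then 1 else 0) :=
    Finset.sum_congr rfl fun e _ => Finset.sum_congr rfl fun f _ => hε e f
  have h2 : ∀ f, (∑ e, if e = P.σ f ∧ ¬ R f ∧ R (P.σ f) then (1 : ℤ) else 0) =
      if ¬ R f ∧ R (P.σ f) then 1 else 0 := fun f => by
    by_cases hq : ¬ R f ∧ R (P.σ f)
    · simp [hq]
    · simp [hq]
  rw [h1]
  simp only [Finset.sum_add_distrib]
  congr 1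
  rw [Finset.sum_comm]
  simp only [h2]
  rw [Finset.sum_boole, Set.ncard_eq_toFinset_card', Set.toFinset_ofPred]

theorem br_wr [Fintype ι] {P : PG ι} {R : ι → Prop} (h : Br P R)
    (hg : (mapP (shear 0 1) P).Gen) :
    wr (mapP (shear 0 1) P) = wr P + ({e | ¬ R e ∧ R (P.σ e)}.ncard : ℤ) := by
  obtain ⟨ε, h1, h2, h3⟩ :=
    ((lkZ_shift1 h).and ((lkZ_shift hg).and (apart_shift hg))).exists
  have e1 : shiftP (mapP (shear 0 1) P) (0, -ε, 0) = mapP (shear 0 1) (shiftP P (0, -ε, ε)) := by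
    unfold shiftP mapP
    congr 1
    funext v
    simp only [map_add]
    congr 1
    simp [shear_apply]
  rw [e1] at h2 h3
  have h4 : ApartP P (shiftP P (0, -ε, ε)) := fun e f u hu u' hu' z =>
    h3 e f u hu u' hu' (by rw [mapP_pt, mapP_pt, z])
  have h5 := lkZ_fam P.σ P.σ (fun s v => shear 0 s (P.pos v))
    (fun s v => shear 0 s (P.pos v + (0, -ε, ε)))
    (fun v => by simp only [shear_apply]; fun_prop)
    (fun v => by simp only [shear_apply]; fun_prop)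
    (fun s _ e f u hu u' hu' z => h4 e f u hu u' hu' (shear_inj 0 s (by
      rw [← mapP_pt, ← mapP_pt]; exact z)))
  have e0 : ∀ p : P3, shear 0 0 p = p := fun p => by simp [shear_apply]
  simp only [e0] at h5
  rw [← h1, ← h2]
  exact h5.symm

end K2

end Pool.Agent.Lib.MP_4d7d0a_gt
end

-- part Pool.Agent.Lib.MP_4d7d0a_gt.K2Br
section

/-! Part K2: the bound for polygons that become braid-like after the shear. -/

set_option autoImplicit false

open Set Filter Topology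

namespace Pool.Agent.Lib.MP_4d7d0a_gt

namespace K2

variable {ι : Type}

namespace BrAux

theorem ev_pos {X : Type} [TopologicalSpace X] {p : Prop} {f : X → ℝ} (hf : Continuous f) {x₀ : X}
    (h : p → 0 < f x₀) : ∀ᶠ x in 𝓝 x₀, p → 0 < f x := by
  by_cases hp : p
  · exact ((hf.tendsto x₀).eventually (lt_mem_nhds (h hp))).mono fun _ hx _ => hx
  · exact Eventually.of_forall fun _ h => absurd h hp

theorem ev_neg {X : Type} [TopologicalSpace X] {p : Prop} {f : X → ℝ} (hf : Continuous f) {x₀ : X}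
    (h : p → f x₀ < 0) : ∀ᶠ x in 𝓝 x₀, p → f x < 0 := by
  by_cases hp : p
  · exact ((hf.tendsto x₀).eventually (gt_mem_nhds (h hp))).mono fun _ hx _ => hx
  · exact Eventually.of_forall fun _ h => absurd h hp

theorem shear_cont (α γ : ℝ) : Continuous (shear α γ) := by
  change Continuous fun p : P3 => ((p.1 + α * p.2.1, p.2.1, p.2.2 + γ * p.2.1) : P3)
  fun_prop

theorem dir_cont (σ : Equiv.Perm ι) (e : ι) :
    Continuous fun x : ι → P3 => dir (⟨σ, x⟩ : PG ι) e :=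
  (continuous_apply (σ e)).sub (continuous_apply e)

theorem sep_iff (P : PG ι) (e f : ι) :
    (∀ u ∈ Icc (0 : ℝ) 1, ∀ u' ∈ Icc (0 : ℝ) 1,
      ¬ Pj (shear 0 1 (P.pt e u)) (shear 0 1 (P.pt f u'))) ↔
    PBA.Dis (PBA.pj (shear 0 1 (P.pos e))) (PBA.pj (shear 0 1 (P.pos (P.σ e))))
      (PBA.pj (shear 0 1 (P.pos f))) (PBA.pj (shear 0 1 (P.pos (P.σ f)))) := by
  refine forall₂_congr fun u _ => forall₂_congr fun u' _ => ?_
  rw [← mapP_pt, ← mapP_pt]
  exact not_congr (PBA.pj_lm _ _ _ _ u u').symm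

theorem shear_back (p : P3) : shear 0 1 (shear 0 (-1) p) = p := by
  simp [shear_apply]

theorem shear_back' (p : P3) : shear 0 (-1) (shear 0 1 p) = p := by
  simp [shear_apply]

theorem pt_x (P : PG ι) (e : ι) (u : ℝ) :
    ((mapP (shear 0 1) P).pt e u).1 = (P.pos e).1 + u * (dir P e).1 := by
  rw [mapP_pt, shear_apply, zero_mul, add_zero]
  exact PBA.lm1 _ _ u

theorem pos_x (P : PG ι) (e : ι) : (P.pos (P.σ e)).1 = (P.pos e).1 + (dir P e).1 := by
  simp [dir]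

end BrAux

open BrAux

theorem br_open [Finite ι] {P : PG ι} {R : ι → Prop} (h : Br P R) :
    ∀ᶠ x in 𝓝 P.pos, Br (⟨P.σ, x⟩ : PG ι) R := by
  have h1 := eventually_all.2 fun e => ev_pos (dir_cont P.σ e).fst (h.rpos e)
  have h2 := eventually_all.2 fun e => ev_neg (dir_cont P.σ e).fst (h.lneg e)
  have h3 := eventually_all.2 fun e => ev_pos (p := R e ∧ ¬ R (P.σ e))
    (PBA.det2_cont (dir_cont P.σ e) (dir_cont P.σ (P.σ e))) fun a => h.right e a.1 a.2
  have h4 := eventually_all.2 fun e => ev_neg (p := ¬ R e ∧ R (P.σ e))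
    (PBA.det2_cont (dir_cont P.σ e) (dir_cont P.σ (P.σ e))) fun a => h.left e a.1 a.2
  have h5 := eventually_all.2 fun e => ev_pos
    (PBA.det2_cont ((shear_cont 0 1).comp (dir_cont P.σ e))
      ((shear_cont 0 1).comp (dir_cont P.σ (P.σ e)))) (h.turn e)
  have c : ∀ v : ι, Continuous fun x : ι → P3 => PBA.pj (shear 0 1 (x v)) := fun v =>
    PBA.pj_cont.comp ((shear_cont 0 1).comp (continuous_apply v))
  have h6 : ∀ᶠ x in 𝓝 P.pos, ∀ e f, R e → ¬ R f → f ≠ P.σ e → e ≠ P.σ f →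
      PBA.Dis (PBA.pj (shear 0 1 (x e))) (PBA.pj (shear 0 1 (x (P.σ e))))
        (PBA.pj (shear 0 1 (x f))) (PBA.pj (shear 0 1 (x (P.σ f)))) := by
    refine eventually_all.2 fun e => eventually_all.2 fun f => ?_
    by_cases hp : R e ∧ ¬ R f ∧ f ≠ P.σ e ∧ e ≠ P.σ f
    · exact (PBA.Dis.eventually (c e) (c (P.σ e)) (c f) (c (P.σ f))
        ((sep_iff P e f).1 (h.sep e f hp.1 hp.2.1 hp.2.2.1 hp.2.2.2))).mono fun _ hx _ _ _ _ => hx
    · exact Eventually.of_forall fun _ a b c d => absurd ⟨a, b, c, d⟩ hp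
  filter_upwards [h.gen.eventually, h1, h2, h3, h4, h5, h6] with x a0 a1 a2 a3 a4 a5 a6
  exact ⟨a0.1, a1, a2, fun e a b => a3 e ⟨a, b⟩, fun e a b => a4 e ⟨a, b⟩, a5,
    fun e f a b c d => (sep_iff ⟨P.σ, x⟩ e f).2 (a6 e f a b c d)⟩

theorem br_bound (T : ODTheory) [Fintype ι] {P : PG ι} {R : ι → Prop} (h : Br P R)
    (hg : (mapP (shear 0 1) P).Gen) :
    T.V (mapP (shear 0 1) P).od
      (wr (mapP (shear 0 1) P) - ({e | R e ∧ ¬ R (P.σ e)}.ncard : ℤ)) := by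
  have key : ∀ e f, (mapP (shear 0 1) P).Cr e f → R e → R f := by
    intro e f hc he
    by_contra hf
    obtain ⟨-, n1, n2⟩ := PBA.cr_ne _ hc
    obtain ⟨m1, m2⟩ := PAdm.cr_mem hc
    refine h.sep e f he hf n1 n2 _ (Ioo_subset_Icc_self m1) _ (Ioo_subset_Icc_self m2) ?_
    rw [← mapP_pt, ← mapP_pt]
    exact PAdm.cr_pr (PAdm.cr_det hc)
  refine T.bound (mapP (shear 0 1) P).od R (fun e => (P.pos e).1)
    (fun e f => ((mapP (shear 0 1) P).pt e ((mapP (shear 0 1) P).tt e f)).1) _ hg.wf hg.adm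
    (fun e f hc => ⟨⟨key e f hc, key f e (PAdm.cr_symm hc)⟩, (PAdm.cr_pr (PAdm.cr_det hc)).1⟩)
    (fun e he => ?_) (fun e he => ?_) (wr_cnt hg)
  · have hd := h.rpos e he
    have e1 := pos_x P e
    refine ⟨show (P.pos e).1 < (P.pos (P.σ e)).1 by linarith, fun f hc => ?_⟩
    obtain ⟨⟨m1, m2⟩, -⟩ := PAdm.cr_mem hc
    simp only [pt_x]
    refine ⟨by linarith [mul_pos m1 hd], ?_, fun g _ hlt => ?_⟩
    · change _ < (P.pos (P.σ e)).1
      linarith [mul_lt_mul_of_pos_right m2 hd]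
    · have := mul_lt_mul_of_pos_right (show (mapP (shear 0 1) P).tt e f <
        (mapP (shear 0 1) P).tt e g from hlt) hd
      linarith
  · have hd := h.lneg e he
    have e1 := pos_x P e
    refine ⟨show (P.pos (P.σ e)).1 < (P.pos e).1 by linarith, fun f hc => ?_⟩
    obtain ⟨⟨m1, m2⟩, -⟩ := PAdm.cr_mem hc
    simp only [pt_x]
    refine ⟨by linarith [mul_neg_of_pos_of_neg m1 hd], ?_, fun g _ hlt => ?_⟩
    · change (P.pos (P.σ e)).1 < _
      linarith [mul_lt_mul_of_neg_right m2 hd]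
    · have := mul_lt_mul_of_neg_right (show (mapP (shear 0 1) P).tt e f <
        (mapP (shear 0 1) P).tt e g from hlt) hd
      linarith

theorem br_main {T : ODTheory} (PT : PTheory T) [Fintype ι] {P : PG ι} {R : ι → Prop}
    (h : Br P R) : PT.V P (wr P) := by
  have hc : Continuous fun (y : ι → P3) (v : ι) => shear 0 (-1) (y v) :=
    continuous_pi fun v => (shear_cont 0 (-1)).comp (continuous_apply v)
  have ht : Tendsto (fun (y : ι → P3) (v : ι) => shear 0 (-1) (y v))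
      (𝓝 (mapP (shear 0 1) P).pos) (𝓝 P.pos) :=
    hc.tendsto' _ _ (funext fun v => shear_back' _)
  obtain ⟨y, ⟨hy, -⟩, h1, ⟨-, h2⟩, h3⟩ := ((shear_emb h.gen.1 0 1).frequently.and_eventually
    (ht.eventually ((br_open h).and (h.gen.eventually.and (pt_loc PT h.gen.1))))).exists
  have e : mapP (shear 0 1) (⟨P.σ, fun v => shear 0 (-1) (y v)⟩ : PG ι) = ⟨P.σ, y⟩ :=
    congrArg (PG.mk P.σ) (funext fun v => shear_back _)
  have hg : (mapP (shear 0 1) (⟨P.σ, fun v => shear 0 (-1) (y v)⟩ : PG ι)).Gen := by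
    rw [e]
    exact hy
  have h4 := br_bound T h1 hg
  rw [br_wr h1 hg, count_ext P.σ R, add_sub_cancel_right] at h4
  have h5 := (h3 _).1 ((shear_V PT h1.gen.1 0 1 _).2 ((PT.gen _ _ hg).2 h4))
  have h6 := wr_cnt h.gen
  rw [cnt_agree h2, ← wr_cnt h1.gen] at h6
  rwa [mul_left_cancel₀ two_ne_zero h6]


end K2

end Pool.Agent.Lib.MP_4d7d0a_gt
end

-- part Pool.Agent.Lib.MP_4d7d0a_gt.K2Lay
section

/-! Part K2: the bound for layered transverse polygons. -/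

set_option autoImplicit false

open Set Filter Topology

namespace Pool.Agent.Lib.MP_4d7d0a_gt

namespace K2

variable {ι : Type}

/-- the polygon with the vertices moved to their depth levels -/
def deep (P : PG ι) (h : ι → ℝ) (Y : ℝ) : PG ι := ⟨P.σ, fun v => P.pos v + (0, h v * Y, 0)⟩

namespace LayAux

theorem cr_iff (P : PG ι) (h : ι → ℝ) (Y : ℝ) (e f : ι) : (deep P h Y).Cr e f ↔ P.Cr e f := by
  simp [PG.Cr, Cross, crT, det2, deep]

theorem tt_eq (P : PG ι) (h : ι → ℝ) (Y : ℝ) (e f : ι) : (deep P h Y).tt e f = P.tt e f := by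
  simp [PG.tt, crT, det2, deep]

theorem pt1 (P : PG ι) (h : ι → ℝ) (Y : ℝ) (e : ι) (u : ℝ) :
    ((deep P h Y).pt e u).1 = (P.pt e u).1 := by
  simp [PG.pt, deep]

theorem pt3 (P : PG ι) (h : ι → ℝ) (Y : ℝ) (e : ι) (u : ℝ) :
    ((deep P h Y).pt e u).2.2 = (P.pt e u).2.2 := by
  simp [PG.pt, deep]

theorem pt2 (P : PG ι) (h : ι → ℝ) (Y : ℝ) (e : ι) (u : ℝ) :
    ((deep P h Y).pt e u).2.1 = (P.pt e u).2.1 + (h e + u * (h (P.σ e) - h e)) * Y := by
  simp only [PG.pt, PBA.lm2, deep, Prod.snd_add, Prod.fst_add]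
  ring

theorem dir1 (P : PG ι) (h : ι → ℝ) (Y : ℝ) (e : ι) : (dir (deep P h Y) e).1 = (dir P e).1 := by
  simp [dir, deep]

theorem dir3 (P : PG ι) (h : ι → ℝ) (Y : ℝ) (e : ι) :
    (dir (deep P h Y) e).2.2 = (dir P e).2.2 := by
  simp [dir, deep]

theorem dir2 (P : PG ι) (h : ι → ℝ) (Y : ℝ) (e : ι) :
    (dir (deep P h Y) e).2.1 = (dir P e).2.1 + (h (P.σ e) - h e) * Y := by
  simp only [dir, deep, Prod.snd_add, Prod.fst_add, Prod.snd_sub, Prod.fst_sub]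
  ring

theorem det_eq (P : PG ι) (h : ι → ℝ) (Y : ℝ) (e f : ι) :
    det2 (dir (deep P h Y) e) (dir (deep P h Y) f) = det2 (dir P e) (dir P f) := by
  simp only [det2, dir1, dir3]

/-- a common bound for all coordinates -/
theorem bound [Finite ι] (P : PG ι) : ∃ M : ℝ, ∀ e, ∀ u ∈ Icc (0 : ℝ) 1,
    |(P.pt e u).2.1| ≤ M ∧ |(P.pt e u).2.2| ≤ M := by
  obtain ⟨M, hM⟩ := (finite_range fun v => ‖P.pos v‖).bddAbove
  refine ⟨M, fun e u hu => ?_⟩
  have h1 : P.pt e u ∈ Metric.closedBall (0 : P3) M := by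
    refine (convex_closedBall (0 : P3) M).lineMap_mem ?_ ?_ hu
    · exact mem_closedBall_zero_iff.2 (hM ⟨e, rfl⟩)
    · exact mem_closedBall_zero_iff.2 (hM ⟨P.σ e, rfl⟩)
  rw [mem_closedBall_zero_iff] at h1
  exact ⟨((norm_fst_le (P.pt e u).2).trans (norm_snd_le _)).trans h1,
    ((norm_snd_le (P.pt e u).2).trans (norm_snd_le _)).trans h1⟩

/-- an edge with a crossing has constant level -/
theorem lev {P : PG ι} {R : ι → Prop} {h : ι → ℝ} (hL : Lay P R h) {e f : ι} (hc : P.Cr e f) :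
    (R e → h e = -1 ∧ h (P.σ e) = -1) ∧ (¬ R e → h e = 1 ∧ h (P.σ e) = 1) := by
  obtain ⟨c1, c2⟩ := hL.cr e f hc
  have v1 := hL.val e
  have v2 := hL.val (P.σ e)
  constructor
  · intro hr
    obtain ⟨r1, r2⟩ := hL.rle e hr
    constructor
    · rcases v1 with v | v | v
      · exact v
      · exact absurd v c1
      · linarith
    · rcases v2 with v | v | v
      · exact v
      · exact absurd v c2
      · linarith
  · intro hr
    obtain ⟨r1, r2⟩ := hL.lge e hr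
    constructor
    · rcases v1 with v | v | v
      · linarith
      · exact absurd v c1
      · exact v
    · rcases v2 with v | v | v
      · linarith
      · exact absurd v c2
      · exact v

theorem ycr {P : PG ι} {R : ι → Prop} {h : ι → ℝ} (hL : Lay P R h) {e f : ι} (hc : P.Cr e f)
    (Y u : ℝ) : (R e → ((deep P h Y).pt e u).2.1 = (P.pt e u).2.1 - Y) ∧
      (¬ R e → ((deep P h Y).pt e u).2.1 = (P.pt e u).2.1 + Y) := by
  constructor
  · intro hr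
    rw [pt2, ((lev hL hc).1 hr).1, ((lev hL hc).1 hr).2]
    ring
  · intro hr
    rw [pt2, ((lev hL hc).2 hr).1, ((lev hL hc).2 hr).2]
    ring

theorem gen {P : PG ι} {R : ι → Prop} {h : ι → ℝ} (hL : Lay P R h) {M Y : ℝ}
    (hM : ∀ e, ∀ u ∈ Icc (0 : ℝ) 1, |(P.pt e u).2.1| ≤ M ∧ |(P.pt e u).2.2| ≤ M) (hY : M < Y) :
    (deep P h Y).Gen := by
  refine ⟨?_, ?_, ?_⟩
  · intro e f u hu u' hu' he
    have e1 : (P.pt e u).1 = (P.pt f u').1 := by rw [← pt1 P h Y, he, pt1]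
    have e3 : (P.pt e u).2.2 = (P.pt f u').2.2 := by rw [← pt3 P h Y, he, pt3]
    have e2 : ((deep P h Y).pt e u).2.1 = ((deep P h Y).pt f u').2.1 := by rw [he]
    rcases PAdm.coin0 hL.gen hu hu' ⟨e1, e3⟩ with c | ⟨c, c1, c2⟩
    · exact c
    · exfalso
      have hy := PBA.y_ne hL.gen.1 c
      rw [← c1, ← c2] at hy
      have b1 := abs_le.1 (hM e u ⟨hu.1, hu.2.le⟩).1
      have b2 := abs_le.1 (hM f u' ⟨hu'.1, hu'.2.le⟩).1
      have ye := ycr hL c Y u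
      have yf := ycr hL (PAdm.cr_symm c) Y u'
      by_cases re : R e <;> by_cases rf : R f
      · rw [ye.1 re, yf.1 rf] at e2
        exact hy (by linarith)
      · rw [ye.1 re, yf.2 rf] at e2
        linarith [b1.1, b1.2, b2.1, b2.2]
      · rw [ye.2 re, yf.1 rf] at e2
        linarith [b1.1, b1.2, b2.1, b2.2]
      · rw [ye.2 re, yf.2 rf] at e2
        exact hy (by linarith)
  · intro e f u hu u' hu' e1 e3
    rw [pt1, pt1] at e1
    rw [pt3, pt3] at e3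
    rw [cr_iff]
    exact hL.gen.2.1 e f u hu u' hu' e1 e3
  · intro e f g c1 c2 c3
    rw [cr_iff] at c1 c2
    rw [tt_eq, tt_eq] at c3
    exact hL.gen.2.2 e f g c1 c2 c3

/-- the determinant in terms of the transversality margins -/
theorem det_trv (p r : P3) (y y' : ℝ) : det2 p r =
    p.1 * (r.2.2 - y' * r.1) - r.1 * (p.2.2 - y * p.1) + p.1 * r.1 * (y' - y) := by
  unfold det2
  ring

theorem det_pos {P : PG ι} (hT : Trv P) {e f : ι} {u u' : ℝ} (hu : u ∈ Icc (0 : ℝ) 1)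
    (hu' : u' ∈ Icc (0 : ℝ) 1) (he : 0 < (dir P e).1) (hf : (dir P f).1 < 0)
    (hy : (P.pt f u').2.1 ≤ (P.pt e u).2.1) : 0 < det2 (dir P e) (dir P f) := by
  have t1 := hT e u hu
  have t2 := hT f u' hu'
  unfold al at t1 t2
  rw [det_trv _ _ (P.pt e u).2.1 (P.pt f u').2.1]
  have a1 := mul_pos he t2
  have a2 := mul_pos (neg_pos.2 hf) t1
  have a3 := mul_nonneg (mul_pos he (neg_pos.2 hf)).le (sub_nonneg.2 hy)
  linarith

theorem turn {P : PG ι} {R : ι → Prop} {h : ι → ℝ} (hL : Lay P R h) (e : ι) :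
    ∀ᶠ Y : ℝ in atTop, ¬ (R e ↔ R (P.σ e)) →
      0 < det2 (shear 0 1 (dir (deep P h Y) e)) (shear 0 1 (dir (deep P h Y) (P.σ e))) := by
  by_cases ht : R e ↔ R (P.σ e)
  · exact Eventually.of_forall fun Y hn => absurd ht hn
  have hx := hL.ext e ht
  have hpos : 0 < (dir P e).1 * (h (P.σ (P.σ e)) - h (P.σ e)) -
      (h (P.σ e) - h e) * (dir P (P.σ e)).1 := by
    by_cases re : R e
    · have rs : ¬ R (P.σ e) := fun c => ht ⟨fun _ => c, fun _ => re⟩
      have a1 := hL.rle e re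
      have a2 := hL.lge _ rs
      have a3 : h (P.σ e) = 0 := le_antisymm a1.2 a2.1
      have a4 : h e < 0 := lt_of_le_of_ne a1.1 hx
      have a5 := mul_nonneg (hL.rpos e re).le a2.2
      have a6 := mul_pos_of_neg_of_neg a4 (hL.lneg _ rs)
      rw [a3]
      linarith
    · have rs : R (P.σ e) := by
        by_contra c
        exact ht ⟨fun c' => absurd c' re, fun c' => absurd c' c⟩
      have a1 := hL.lge e re
      have a2 := hL.rle _ rs
      have a3 : h (P.σ e) = 0 := le_antisymm a2.1 a1.2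
      have a4 : 0 < h e := lt_of_le_of_ne a1.1 (Ne.symm hx)
      have a5 := mul_nonneg_of_nonpos_of_nonpos (hL.lneg e re).le a2.2
      have a6 := mul_pos a4 (hL.rpos _ rs)
      rw [a3]
      linarith
  set c := (dir P e).1 * (h (P.σ (P.σ e)) - h (P.σ e)) -
      (h (P.σ e) - h e) * (dir P (P.σ e)).1 with hc
  set k := (dir P e).1 * ((dir P (P.σ e)).2.2 + (dir P (P.σ e)).2.1) -
      ((dir P e).2.2 + (dir P e).2.1) * (dir P (P.σ e)).1 with hk
  filter_upwards [eventually_gt_atTop (-k / c)] with Y hY _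
  rw [div_lt_iff₀ hpos] at hY
  have : det2 (shear 0 1 (dir (deep P h Y) e)) (shear 0 1 (dir (deep P h Y) (P.σ e))) =
      k + Y * c := by
    simp only [det2, shear_apply, dir1, dir2, dir3, hc, hk]
    ring
  rw [this]
  linarith

end LayAux

open LayAux

theorem deep_X (P : PG ι) (h : ι → ℝ) (Y : ℝ) : (deep P h Y).od.X = P.od.X := by
  funext e f
  exact propext (cr_iff P h Y e f)

theorem deep_t (P : PG ι) (h : ι → ℝ) (Y : ℝ) : (deep P h Y).od.t = P.od.t := by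
  funext e f
  exact tt_eq P h Y e f

theorem lay_br [Finite ι] {P : PG ι} {R : ι → Prop} {h : ι → ℝ} (hL : Lay P R h) :
    ∀ᶠ Y : ℝ in atTop, Br (deep P h Y) R := by
  obtain ⟨M, hM⟩ := bound P
  have h0 : (0 : ℝ) ∈ Icc (0 : ℝ) 1 := ⟨le_rfl, zero_le_one⟩
  have h1 : (1 : ℝ) ∈ Icc (0 : ℝ) 1 := ⟨zero_le_one, le_rfl⟩
  filter_upwards [eventually_gt_atTop M, eventually_gt_atTop (4 * M), eventually_gt_atTop 0,
    eventually_all.2 (turn hL)] with Y hY hY4 hY0 hT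
  refine ⟨gen hL hM hY, fun e he => ?_, fun e he => ?_, fun e he hs => ?_, fun e he hs => ?_,
    hT, fun e f re rf n1 n2 u hu u' hu' hp => ?_⟩
  · rw [dir1]
    exact hL.rpos e he
  · rw [dir1]
    exact hL.lneg e he
  · rw [det_eq]
    exact det_pos hL.trv h1 h0 (hL.rpos e he) (hL.lneg _ hs)
      (by rw [PAdm.pt_one, PAdm.pt_zero]; exact le_rfl)
  · rw [det_eq, PBA.det2_swap, neg_lt_zero]
    exact det_pos hL.trv h0 h1 (hL.rpos _ hs) (hL.lneg e he)
      (by rw [PAdm.pt_one, PAdm.pt_zero]; exact le_rfl)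
  · obtain ⟨p1, p3⟩ := hp
    simp only [shear_apply, pt1, pt2, pt3, zero_mul, add_zero, one_mul] at p1 p3
    have b1 := abs_le.1 (hM e u hu).1
    have b2 := abs_le.1 (hM e u hu).2
    have b3 := abs_le.1 (hM f u' hu').1
    have b4 := abs_le.1 (hM f u' hu').2
    obtain ⟨r1, r2⟩ := hL.rle e re
    obtain ⟨l1, l2⟩ := hL.lge f rf
    have le : (h e + u * (h (P.σ e) - h e)) * Y ≤ 0 := by
      have a1 := mul_nonneg (sub_nonneg.2 hu.2) (neg_nonneg.2 r1)
      have a2 := mul_nonneg hu.1 (neg_nonneg.2 r2)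
      exact mul_nonpos_of_nonpos_of_nonneg (by linarith) hY0.le
    have lf : 0 ≤ (h f + u' * (h (P.σ f) - h f)) * Y := by
      have a1 := mul_nonneg (sub_nonneg.2 hu'.2) l1
      have a2 := mul_nonneg hu'.1 l2
      exact mul_nonneg (by linarith) hY0.le
    by_cases ce : h e = 0 ∨ h (P.σ e) = 0
    · by_cases cf : h f = 0 ∨ h (P.σ f) = 0
      · exact hL.conn e f re rf n1 n2 ce cf u hu u' hu' p1
      · rw [not_or] at cf
        have a1 : h f = 1 := by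
          rcases hL.val f with v | v | v
          · linarith
          · exact absurd v cf.1
          · exact v
        have a2 : h (P.σ f) = 1 := by
          rcases hL.val (P.σ f) with v | v | v
          · linarith
          · exact absurd v cf.2
          · exact v
        rw [a1, a2] at p3
        linarith [b1.1, b1.2, b2.1, b2.2, b3.1, b3.2, b4.1, b4.2]
    · rw [not_or] at ce
      have a1 : h e = -1 := by
        rcases hL.val e with v | v | v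
        · exact v
        · exact absurd v ce.1
        · linarith
      have a2 : h (P.σ e) = -1 := by
        rcases hL.val (P.σ e) with v | v | v
        · exact v
        · exact absurd v ce.2
        · linarith
      rw [a1, a2] at p3
      linarith [b1.1, b1.2, b2.1, b2.2, b3.1, b3.2, b4.1, b4.2]

theorem lay_sg [Finite ι] {P : PG ι} {R : ι → Prop} {h : ι → ℝ} (hL : Lay P R h) :
    ∀ᶠ Y : ℝ in atTop, ∀ e f, P.Cr e f → P.od.sg e f → (deep P h Y).od.sg e f := by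
  obtain ⟨M, hM⟩ := bound P
  filter_upwards [eventually_gt_atTop M] with Y hY e f hc hs
  have s1 : P.od.sg e f ↔ ((P.pt e (P.tt e f)).2.1 < (P.pt f (P.tt f e)).2.1 ↔
      0 < det2 (dir P e) (dir P f)) := Iff.rfl
  have s2 : (deep P h Y).od.sg e f ↔ (((deep P h Y).pt e ((deep P h Y).tt e f)).2.1 <
      ((deep P h Y).pt f ((deep P h Y).tt f e)).2.1 ↔
      0 < det2 (dir (deep P h Y) e) (dir (deep P h Y) f)) := Iff.rfl
  rw [s1] at hs
  rw [s2, det_eq, tt_eq, tt_eq]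
  have m1 : P.tt e f ∈ Icc (0 : ℝ) 1 := Ioo_subset_Icc_self (PAdm.cr_mem hc).1
  have m2 : P.tt f e ∈ Icc (0 : ℝ) 1 := Ioo_subset_Icc_self (PAdm.cr_mem hc).2
  have b1 := abs_le.1 (hM e _ m1).1
  have b2 := abs_le.1 (hM f _ m2).1
  have ye := ycr hL hc Y (P.tt e f)
  have yf := ycr hL (PAdm.cr_symm hc) Y (P.tt f e)
  by_cases re : R e <;> by_cases rf : R f
  · rw [ye.1 re, yf.1 rf, sub_lt_sub_iff_right]
    exact hs
  · rw [ye.1 re, yf.2 rf]
    refine iff_of_true (by linarith [b1.1, b1.2, b2.1, b2.2]) ?_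
    rcases lt_or_ge (P.pt e (P.tt e f)).2.1 (P.pt f (P.tt f e)).2.1 with c | c
    · exact hs.1 c
    · exact det_pos hL.trv m1 m2 (hL.rpos e re) (hL.lneg f rf) c
  · rw [ye.2 re, yf.1 rf]
    refine iff_of_false (by linarith [b1.1, b1.2, b2.1, b2.2]) fun hd => ?_
    have a1 := det_pos hL.trv m2 m1 (hL.rpos f rf) (hL.lneg e re) (hs.2 hd).le
    rw [PBA.det2_swap] at a1
    linarith
  · rw [ye.2 re, yf.2 rf, add_lt_add_iff_right]
    exact hs

theorem lay_main {T : ODTheory} (PT : PTheory T) [Fintype ι] {P : PG ι} {R : ι → Prop}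
    {h : ι → ℝ} (hL : Lay P R h) : PT.V P (wr P) := by
  obtain ⟨Y, hB, hS⟩ := ((lay_br hL).and (lay_sg hL)).exists
  have h1 := (PT.gen _ _ hB.gen).1 (br_main PT hB)
  have h2 := flips T (deep P h Y).od P.od hB.gen.wf hL.gen.wf rfl (deep_X P h Y) (deep_t P h Y)
    (fun a b hx hs => hS a b ((cr_iff P h Y a b).1 hx) hs) _ _ (wr_cnt hB.gen) (wr_cnt hL.gen) _ h1
  rw [sub_sub_cancel] at h2
  exact (PT.gen _ _ hL.gen).2 h2


end K2

end Pool.Agent.Lib.MP_4d7d0a_gt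
end
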