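import Pool.Agent.Lib.MP_4d7d0a_gt.K2Gr

-- part Pool.Agent.Lib.MP_4d7d0a_gt.K2SadG
section

/-! Part K2: the saddle move at a quadrilateral with empty projection. -/

set_option autoImplicit false

open Set Filter Topology

namespace Pool.Agent.Lib.MP_4d7d0a_gt

namespace K2

namespace SadGAux

theorem hull_param {A B C D p : P3} (h : p ∈ convexHull ℝ ({A, B, C, D} : Set P3)) :
    ∃ t1 ∈ Icc (0 : ℝ) 1, ∃ t2 ∈ Icc (0 : ℝ) 1, ∃ t3 ∈ Icc (0 : ℝ) 1,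
      p = A + t1 • (B + t2 • (C + t3 • (D - C) - B) - A) := by
  rw [convexHull_insert (by simp), mem_convexJoin] at h
  obtain ⟨_, rfl, y, hy, h1⟩ := h
  rw [convexHull_insert (by simp), mem_convexJoin] at hy
  obtain ⟨_, rfl, z, hz, h2⟩ := hy
  rw [convexHull_pair] at hz
  rw [segment_eq_image'] at h1 h2 hz
  obtain ⟨t1, a1, rfl⟩ := h1
  obtain ⟨t2, a2, rfl⟩ := h2
  obtain ⟨t3, a3, rfl⟩ := hz
  exact ⟨t1, a1, t2, a2, t3, a3, rfl⟩

theorem lm_mem {S : Set P3} {X Y : P3} (hX : X ∈ convexHull ℝ S) (hY : Y ∈ convexHull ℝ S)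
    {t : ℝ} (ht : t ∈ Icc (0 : ℝ) 1) : X + t • (Y - X) ∈ convexHull ℝ S :=
  (convex_convexHull ℝ S).add_smul_sub_mem hX hY ht

theorem param_mem {A B C D : P3} {t1 t2 t3 : ℝ} (h1 : t1 ∈ Icc (0 : ℝ) 1)
    (h2 : t2 ∈ Icc (0 : ℝ) 1) (h3 : t3 ∈ Icc (0 : ℝ) 1) :
    A + t1 • (B + t2 • (C + t3 • (D - C) - B) - A) ∈ convexHull ℝ ({A, B, C, D} : Set P3) :=
  lm_mem (subset_convexHull ℝ _ (by simp)) (lm_mem (subset_convexHull ℝ _ (by simp))
    (lm_mem (subset_convexHull ℝ _ (by simp)) (subset_convexHull ℝ _ (by simp)) h3) h2) h1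

theorem pj_iff (p q : P3) : Pj p q ↔ PBA.pj p = PBA.pj q := by
  simp [Pj, PBA.pj]

variable {ι : Type}

theorem far_ev (x₀ : ι → P3) (i j k l g w : ι)
    (h : ∀ u ∈ Icc (0 : ℝ) 1, ∀ z ∈ convexHull ℝ ({x₀ i, x₀ j, x₀ k, x₀ l} : Set P3),
      ¬ Pj (AffineMap.lineMap (x₀ g) (x₀ w) u) z) :
    ∀ᶠ x : ι → P3 in 𝓝 x₀, ∀ u ∈ Icc (0 : ℝ) 1,
      ∀ z ∈ convexHull ℝ ({x i, x j, x k, x l} : Set P3),
        ¬ Pj (AffineMap.lineMap (x g) (x w) u) z := by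
  have key := IsCompact.eventually_forall_of_forall_eventually (x₀ := x₀)
    (K := Icc (0 : ℝ) 1 ×ˢ Icc (0 : ℝ) 1 ×ˢ Icc (0 : ℝ) 1 ×ˢ Icc (0 : ℝ) 1)
    (isCompact_Icc.prod (isCompact_Icc.prod (isCompact_Icc.prod isCompact_Icc)))
    (P := fun x z => PBA.pj (x g + z.1 • (x w - x g)) ≠ PBA.pj (x i + z.2.1 •
      (x j + z.2.2.1 • (x k + z.2.2.2 • (x l - x k) - x j) - x i))) (by
      intro z hz
      have h1 : Continuous fun y : (ι → P3) × (ℝ × ℝ × ℝ × ℝ) =>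
          PBA.pj (y.1 g + y.2.1 • (y.1 w - y.1 g)) := PBA.pj_cont.comp (by fun_prop)
      have h2 : Continuous fun y : (ι → P3) × (ℝ × ℝ × ℝ × ℝ) => PBA.pj (y.1 i + y.2.2.1 •
          (y.1 j + y.2.2.2.1 • (y.1 k + y.2.2.2.2 • (y.1 l - y.1 k) - y.1 j) - y.1 i)) :=
        PBA.pj_cont.comp (by fun_prop)
      refine (isOpen_ne_fun h1 h2).mem_nhds ?_
      have := h z.1 hz.1 _ (param_mem hz.2.1 hz.2.2.1 hz.2.2.2)
      rwa [pj_iff, PBA.lm] at this)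
  filter_upwards [key] with x hx u hu z hz
  obtain ⟨t1, a1, t2, a2, t3, a3, rfl⟩ := hull_param hz
  rw [pj_iff, PBA.lm]
  exact hx (u, t1, t2, t3) ⟨hu, a1, a2, a3⟩

theorem out_ev {x₀ : ι → P3} (hi : Function.Injective x₀) (i j k l g w : ι)
    (h : Out (x₀ i) (x₀ j) (x₀ k) (x₀ l) (x₀ g) (x₀ w)) :
    ∀ᶠ x : ι → P3 in 𝓝 x₀, ∀ u : ℝ, 0 < u →
      ∀ z ∈ convexHull ℝ ({x i, x j, x k, x l} : Set P3),
        ¬ Pj (AffineMap.lineMap (x g) (x w) u) z := by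
  obtain ⟨f, f0, f1, f2⟩ := h
  have hc : ∀ v, Continuous fun x : ι → P3 => f (x v) := fun v =>
    f.continuous_of_finiteDimensional.comp (continuous_apply v)
  have hle : ∀ v, x₀ v ∈ ({x₀ i, x₀ j, x₀ k, x₀ l} : Set P3) →
      ∀ᶠ x : ι → P3 in 𝓝 x₀, f (x v) ≤ f (x g) := fun v hv => by
    by_cases e : v = g
    · exact Eventually.of_forall fun x => e ▸ le_rfl
    · exact ((hc v).continuousAt.eventually_lt (hc g).continuousAt
        (f2 _ hv fun e' => e (hi e'))).mono fun x hx => hx.le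
  filter_upwards [hle i (by simp), hle j (by simp), hle k (by simp), hle l (by simp),
    (hc g).continuousAt.eventually_lt (hc w).continuousAt f1] with x a1 a2 a3 a4 a5 u hu z hz hp
  have h1 : z ∈ {y | f y ≤ f (x g)} := by
    refine convexHull_min ?_ (convex_halfSpace_le f.isLinear _) hz
    rintro y (rfl | rfl | rfl | rfl) <;> assumption
  have h2 : z = AffineMap.lineMap (x g) (x w) u +
      (z.2.1 - (AffineMap.lineMap (x g) (x w) u : P3).2.1) • ((0, 1, 0) : P3) := by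
    refine Prod.ext ?_ (Prod.ext ?_ ?_)
    · simpa using hp.1.symm
    · simp
    · simpa using hp.2.symm
  have h3 : f z = f (x g) + u * (f (x w) - f (x g)) := by
    rw [h2, map_add, map_smul, f0, smul_zero, add_zero, PBA.lm, map_add, map_smul, map_sub,
      smul_eq_mul]
  have h4 : f z ≤ f (x g) := h1
  have h5 := mul_pos hu (sub_pos.2 a5)
  linarith

theorem nocr_side {A B C D : P3} {s : ℝ} (h1 : 0 < s * det2 (B - A) (C - A))
    (h2 : 0 < s * det2 (B - A) (D - A)) : ¬ Cross A B C D := by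
  intro h
  obtain ⟨e1, e2⟩ := PBA.crT_pt h.1
  rw [PBA.lm1, PBA.lm1] at e1
  rw [PBA.lm3, PBA.lm3] at e2
  obtain ⟨u0, u1⟩ := h.2.2
  generalize crT C D A B = u at e1 e2 u0 u1
  generalize crT A B C D = t at e1 e2
  have a1 := mul_pos (sub_pos.2 u1) h1
  have a2 := mul_pos u0 h2
  have a3 : (1 - u) * (s * det2 (B - A) (C - A)) + u * (s * det2 (B - A) (D - A)) = 0 := by
    simp only [det2, Prod.fst_sub, Prod.snd_sub]
    linear_combination s * (B.2.2 - A.2.2) * e1 - s * (B.1 - A.1) * e2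
  linarith

theorem nocr_hull {S : Set P3} {X Y C D : P3} (hX : X ∈ S) (hY : Y ∈ S)
    (h : ∀ u ∈ Ioo (0 : ℝ) 1, ∀ z ∈ convexHull ℝ S, ¬ Pj (AffineMap.lineMap C D u) z) :
    ¬ Cross X Y C D := by
  intro hc
  obtain ⟨e1, e2⟩ := PBA.crT_pt hc.1
  refine h _ hc.2.2 (AffineMap.lineMap X Y (crT X Y C D)) ?_ ⟨e1.symm, e2.symm⟩
  rw [PBA.lm]
  exact lm_mem (subset_convexHull ℝ _ hX) (subset_convexHull ℝ _ hY) (Ioo_subset_Icc_self hc.2.1)

theorem quad_ev {x₀ : ι → P3} {s : ℝ} {i j k l : ι} (h : Quad s (x₀ i) (x₀ j) (x₀ k) (x₀ l)) :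
    ∀ᶠ x : ι → P3 in 𝓝 x₀, Quad s (x i) (x j) (x k) (x l) := by
  have hc : ∀ a b c d : ι, 0 < s * det2 (x₀ a - x₀ b) (x₀ c - x₀ d) →
      ∀ᶠ x : ι → P3 in 𝓝 x₀, 0 < s * det2 (x a - x b) (x c - x d) := fun a b c d h0 => by
    have : Continuous fun x : ι → P3 => s * det2 (x a - x b) (x c - x d) :=
      continuous_const.mul (PBA.det2_cont (by fun_prop) (by fun_prop))
    exact this.continuousAt.eventually (lt_mem_nhds h0)
  exact (hc _ _ _ _ h.1).and ((hc _ _ _ _ h.2.1).and ((hc _ _ _ _ h.2.2.1).and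
    (hc _ _ _ _ h.2.2.2)))

theorem emp_ev [Finite ι] {P : PG ι} {a c : ι} (hP : P.Emb) (he : EmpG P a c) :
    ∀ᶠ x : ι → P3 in 𝓝 P.pos, ∀ g, g ≠ a → g ≠ c → ∀ u ∈ Ioo (0 : ℝ) 1,
      ∀ z ∈ convexHull ℝ ({x a, x (P.σ a), x c, x (P.σ c)} : Set P3),
        ¬ Pj (AffineMap.lineMap (x g) (x (P.σ g)) u) z := by
  have hi : Function.Injective P.pos := fun v w e =>
    (hP v w 0 ⟨le_rfl, one_pos⟩ 0 ⟨le_rfl, one_pos⟩ (by
      rw [PAdm.pt_zero, PAdm.pt_zero, e])).1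
  refine eventually_all.2 fun g => ?_
  by_cases ha : g = a
  · exact Eventually.of_forall fun x h => absurd ha h
  by_cases hc : g = c
  · exact Eventually.of_forall fun x _ h => absurd hc h
  rcases he g ha hc with h | h | h
  · exact (far_ev P.pos _ _ _ _ g (P.σ g) h).mono fun x hx _ _ u hu =>
      hx u (Ioo_subset_Icc_self hu)
  · exact (out_ev hi _ _ _ _ _ _ h.2).mono fun x hx _ _ u hu => hx u hu.1
  · refine (out_ev hi _ _ _ _ _ _ h.2).mono fun x hx _ _ u hu => ?_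
    have := hx (1 - u) (sub_pos.2 hu.2)
    rwa [AffineMap.lineMap_apply_one_sub] at this

theorem gen_case {T : ODTheory} [Finite ι] {P P' : PG ι} {a c : ι} {s : ℝ} (hP : P.Gen)
    (hP' : P'.Gen) (hw : Swp P P' a c) (hs : s = 1 ∨ s = -1)
    (hq : Quad s (P.pos a) (P.pos (P.σ a)) (P.pos c) (P.pos (P.σ c)))
    (he : ∀ g, g ≠ a → g ≠ c → ∀ u ∈ Ioo (0 : ℝ) 1,
      ∀ z ∈ convexHull ℝ ({P.pos a, P.pos (P.σ a), P.pos c, P.pos (P.σ c)} : Set P3),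
        ¬ Pj (AffineMap.lineMap (P.pos g) (P.pos (P.σ g)) u) z) (q : ℤ)
    (hV : T.V P.od q) : T.V P'.od (q - 1) := by
  obtain ⟨q1, q2, q3, q4⟩ := hq
  have hac : ¬ P.Cr a c := nocr_side (s := s)
    (by simp only [det2, Prod.fst_sub, Prod.snd_sub] at q1 ⊢; linarith)
    (by simp only [det2, Prod.fst_sub, Prod.snd_sub] at q4 ⊢; linarith)
  have hac' : ¬ P'.Cr a c := by
    unfold PG.Cr
    rw [hw.pos, hw.sa, hw.sc]
    exact nocr_side (s := -s)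
      (by simp only [det2, Prod.fst_sub, Prod.snd_sub] at q3 ⊢; linarith)
      (by simp only [det2, Prod.fst_sub, Prod.snd_sub] at q4 ⊢; linarith)
  have na : ∀ g, ¬ P.Cr a g := fun g => by
    by_cases h1 : g = a
    · exact h1 ▸ PBA.not_cross_self _ _
    by_cases h2 : g = c
    · exact h2 ▸ hac
    exact nocr_hull (by simp) (by simp) (he g h1 h2)
  have nc : ∀ g, ¬ P.Cr c g := fun g => by
    by_cases h1 : g = a
    · exact h1 ▸ fun h => hac (PAdm.cr_symm h)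
    by_cases h2 : g = c
    · exact h2 ▸ PBA.not_cross_self _ _
    exact nocr_hull (by simp) (by simp) (he g h1 h2)
  have na' : ∀ g, ¬ P'.Cr a g := fun g => by
    by_cases h1 : g = a
    · exact h1 ▸ PBA.not_cross_self _ _
    by_cases h2 : g = c
    · exact h2 ▸ hac'
    unfold PG.Cr
    rw [hw.pos, hw.sa, hw.so g h1 h2]
    exact nocr_hull (by simp) (by simp) (he g h1 h2)
  have nc' : ∀ g, ¬ P'.Cr c g := fun g => by
    by_cases h1 : g = a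
    · exact h1 ▸ fun h => hac' (PAdm.cr_symm h)
    by_cases h2 : g = c
    · exact h2 ▸ PBA.not_cross_self _ _
    unfold PG.Cr
    rw [hw.pos, hw.sc, hw.so g h1 h2]
    exact nocr_hull (by simp) (by simp) (he g h1 h2)
  have so : ∀ {e f}, P.Cr e f → P'.σ e = P.σ e ∧ P'.σ f = P.σ f := fun {e f} h =>
    ⟨hw.so e (fun x => na f (x ▸ h)) fun x => nc f (x ▸ h),
      hw.so f (fun x => na e (x ▸ PAdm.cr_symm h)) fun x => nc e (x ▸ PAdm.cr_symm h)⟩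
  have so' : ∀ {e f}, P'.Cr e f → P'.σ e = P.σ e ∧ P'.σ f = P.σ f := fun {e f} h =>
    ⟨hw.so e (fun x => na' f (x ▸ h)) fun x => nc' f (x ▸ h),
      hw.so f (fun x => na' e (x ▸ PAdm.cr_symm h)) fun x => nc' e (x ▸ PAdm.cr_symm h)⟩
  have h1 := T.saddle P.od ⟨P'.σ, P.od.X, P.od.t, P.od.sg⟩ a c q hP.wf hw.ne hw.sa hw.sc hw.so
    rfl rfl rfl na nc (hP.adm_eq hs q1 q2 q3 q4 he) hV
  refine T.iso ⟨P'.σ, P.od.X, P.od.t, P.od.sg⟩ P'.od _ (show P.od.WF from hP.wf) hP'.wf rfl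
    ⟨fun e f _ => ⟨fun h => ?_, fun h => ?_⟩, fun e f _ h => ?_, fun e f g _ _ h h' => ?_⟩ h1
  · show Cross _ _ _ _
    rw [hw.pos, (so h).1, (so h).2]
    exact h
  · have h2 : Cross _ _ _ _ := h
    rw [hw.pos, (so' h).1, (so' h).2] at h2
    exact h2
  · simp only [PG.od]
    rw [hw.pos, (so h).1, (so h).2]
  · simp only [PG.od, PG.tt]
    rw [hw.pos, (so h).1, (so h).2, (so h').2]

end SadGAux

theorem psaddleG {T : ODTheory} (PT : PTheory T) {ι : Type} [Finite ι] {P P' : PG ι} {a c : ι}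
    {s : ℝ} (hP : P.Emb) (hP' : P'.Emb) (hw : Swp P P' a c) (hs : s = 1 ∨ s = -1)
    (hq : Quad s (P.pos a) (P.pos (P.σ a)) (P.pos c) (P.pos (P.σ c))) (he : EmpG P a c) (q : ℤ)
    (hV : PT.V P q) : PT.V P' (q - 1) := by
  have E : ∀ᶠ x in 𝓝 P.pos, _ := (pt_loc PT hP).and ((hw.pos ▸ pt_loc PT hP' :
    ∀ᶠ x in 𝓝 P.pos, ∀ q, PT.V (⟨P'.σ, x⟩ : PG ι) q ↔ PT.V P' q).and
    ((SadGAux.quad_ev hq).and (SadGAux.emp_ev hP he)))
  have E' : ∀ᶠ x in 𝓝 P.pos, (⟨P'.σ, x⟩ : PG ι).Emb := hw.pos ▸ hP'.eventually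
  obtain ⟨y, ⟨hy, -⟩, hE, hy'⟩ :=
    (hP.frequently.and_eventually (E.eventually_nhds.and E')).exists
  obtain ⟨x, ⟨hx', -⟩, ⟨hx, -⟩, h1, h2, h3, h4⟩ :=
    (hy'.frequently.and_eventually (hy.eventually.and hE)).exists
  refine (h2 _).1 ((PT.gen _ _ hx').2 ?_)
  exact SadGAux.gen_case (P := ⟨P.σ, x⟩) (P' := ⟨P'.σ, x⟩) hx hx'
    ⟨hw.ne, rfl, hw.sa, hw.sc, hw.so⟩ hs h3 h4 q ((PT.gen _ _ hx).1 ((h1 q).2 hV))


end K2

end Pool.Agent.Lib.MP_4d7d0a_gt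
end

-- part Pool.Agent.Lib.MP_4d7d0a_gt.K2Dent
section

/-! Part K2: denting two edges into their empty hull. -/

set_option autoImplicit false

open Set Filter Topology

namespace Pool.Agent.Lib.MP_4d7d0a_gt

namespace K2

namespace DentAux

/-- a point of the triangle `O A B` other than `O`, with its position `φ` -/
def Ch (O A B x : P3) (φ : ℝ) : Prop :=
  ∃ al be : ℝ, 0 ≤ al ∧ 0 ≤ be ∧ 0 < al + be ∧ al + be ≤ 1 ∧ be - al = φ ∧
    x - O = al • (A - O) + be • (B - O)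

variable {O A B C D x y : P3} {φ ψ s : ℝ}

theorem ch_left : Ch O A B A (-1) :=
  ⟨1, 0, by norm_num, le_rfl, by norm_num, by norm_num, by norm_num, by simp⟩

theorem ch_right : Ch O A B B 1 :=
  ⟨0, 1, le_rfl, by norm_num, by norm_num, by norm_num, by norm_num, by simp⟩

theorem Ch.uniq (hd : 0 < s * det2 (A - O) (B - O)) (h : Ch O A B x φ) (h' : Ch O A B x ψ) :
    φ = ψ := by
  obtain ⟨al, be, -, -, -, -, rfl, e⟩ := h
  obtain ⟨ga, de, -, -, -, -, rfl, e'⟩ := h'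
  generalize A - O = a at *
  generalize B - O = b at *
  rw [e] at e'
  have h1 : al * a.1 + be * b.1 = ga * a.1 + de * b.1 := congrArg Prod.fst e'
  have h2 : al * a.2.2 + be * b.2.2 = ga * a.2.2 + de * b.2.2 := congrArg (fun p : P3 => p.2.2) e'
  apply mul_right_cancel₀ hd.ne'
  unfold det2
  linear_combination s * (a.1 * h2 - a.2.2 * h1) - s * (b.2.2 * h1 - b.1 * h2)

theorem Ch.disj (hi : Ins s A B C D O) (h : Ch O A B x φ) (h' : Ch O C D x ψ) : False := by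
  obtain ⟨al, be, p1, p2, p3, -, -, e⟩ := h
  obtain ⟨ga, de, q1, q2, q3, -, -, e'⟩ := h'
  obtain ⟨i1, i2, i3, i4⟩ := hi
  generalize A - O = a at *
  generalize B - O = b at *
  generalize C - O = c at *
  generalize D - O = d at *
  rw [e] at e'
  have h1 : al * a.1 + be * b.1 = ga * c.1 + de * d.1 := congrArg Prod.fst e'
  have h2 : al * a.2.2 + be * b.2.2 = ga * c.2.2 + de * d.2.2 := congrArg (fun p : P3 => p.2.2) e'
  have e1 : al * (s * det2 a c) + be * (s * det2 b c) + de * (s * det2 c d) = 0 := by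
    unfold det2
    linear_combination s * (c.2.2 * h1 - c.1 * h2)
  have e2 : al * (s * det2 a b) + ga * (s * det2 b c) + de * (s * det2 b d) = 0 := by
    unfold det2
    linear_combination s * (b.2.2 * h1 - b.1 * h2)
  have e3 : be * (s * det2 a b) + ga * (-(s * det2 a c)) + de * (s * det2 d a) = 0 := by
    unfold det2
    linear_combination s * (a.1 * h2 - a.2.2 * h1)
  have z : ∀ {r t : ℝ}, 0 ≤ r → 0 < t → r * t ≤ 0 → r = 0 := fun h1 h2 h3 =>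
    le_antisymm (nonpos_of_mul_nonpos_left h3 h2) h1
  have m1 := mul_nonneg p2 i2.le
  have m2 := mul_nonneg q2 i3.le
  have m3 := mul_nonneg p1 i1.le
  have m4 := mul_nonneg q1 i2.le
  have m5 := mul_nonneg p2 i1.le
  have m6 := mul_nonneg q2 i4.le
  rcases le_or_gt 0 (s * det2 a c) with hp | hp
  · have m7 := mul_nonneg p1 hp
    have z1 : be = 0 := z p2 i2 (by linarith)
    have z2 : de = 0 := z q2 i3 (by linarith)
    rw [z2, zero_mul] at e2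
    have z3 : al = 0 := z p1 i1 (by linarith)
    linarith
  · have m7 := mul_nonneg q1 (neg_pos.2 hp).le
    have z1 : ga = 0 := z q1 (neg_pos.2 hp) (by linarith)
    have z2 : de = 0 := z q2 i4 (by linarith)
    linarith

theorem Ch.mem {K : Set P3} (hK : Convex ℝ K) (hO : O ∈ K) (hA : A ∈ K) (hB : B ∈ K)
    (h : Ch O A B x φ) : x ∈ K := by
  obtain ⟨al, be, p1, p2, p3, p4, -, e⟩ := h
  have h1 := hK hA hB (div_nonneg p1 p3.le) (div_nonneg p2 p3.le)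
    (by rw [← add_div, div_self p3.ne'])
  have h2 := hK hO h1 (sub_nonneg.2 p4) p3.le (by ring)
  convert h2 using 1
  rw [eq_add_of_sub_eq e]
  match_scalars
  · field_simp
  · ring
  · field_simp

theorem Ch.seg (h : Ch O A B x φ) (h' : Ch O A B y ψ) {u : ℝ} (hu : u ∈ Ico (0 : ℝ) 1) :
    Ch O A B (AffineMap.lineMap x y u) (φ + u * (ψ - φ)) := by
  obtain ⟨al, be, p1, p2, p3, p4, rfl, e⟩ := h
  obtain ⟨ga, de, q1, q2, q3, q4, rfl, e'⟩ := h'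
  have u0 := hu.1
  have u1 := sub_pos.2 hu.2
  refine ⟨(1 - u) * al + u * ga, (1 - u) * be + u * de, by positivity, by positivity, ?_, ?_,
    by ring, ?_⟩
  · nlinarith [mul_pos u1 p3, mul_nonneg u0 q3.le]
  · nlinarith [mul_nonneg u1.le (sub_nonneg.2 p4), mul_nonneg u0 (sub_nonneg.2 q4)]
  · rw [PBA.lm, eq_add_of_sub_eq e, eq_add_of_sub_eq e']
    module

variable {ι κ : Type}

/-- a chain of three edges inside the triangle -/
theorem chain {R : PG κ} {k0 k1 k2 : κ} (hd : 0 < s * det2 (A - O) (B - O)) (h0 : R.pos k0 = A)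
    (s0 : R.σ k0 = k1) (s1 : R.σ k1 = k2) (h3 : R.pos (R.σ k2) = B)
    (h1 : Ch O A B (R.pos k1) φ) (h2 : Ch O A B (R.pos k2) ψ) (l1 : -1 < φ) (l2 : φ < ψ)
    (l3 : ψ < 1) :
    (∀ k, k0 = k ∨ k1 = k ∨ k2 = k → ∀ u ∈ Ico (0 : ℝ) 1, ∃ r < 1, Ch O A B (R.pt k u) r) ∧
      ∀ k, k0 = k ∨ k1 = k ∨ k2 = k → ∀ k', k0 = k' ∨ k1 = k' ∨ k2 = k' →
        ∀ u ∈ Ico (0 : ℝ) 1, ∀ u' ∈ Ico (0 : ℝ) 1, R.pt k u = R.pt k' u' → k = k' ∧ u = u' := by
  have e0 : ∀ u ∈ Ico (0 : ℝ) 1, Ch O A B (R.pt k0 u) (-1 + u * (φ - -1)) := fun u hu => by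
    unfold PG.pt
    rw [h0, s0]
    exact ch_left.seg h1 hu
  have e1 : ∀ u ∈ Ico (0 : ℝ) 1, Ch O A B (R.pt k1 u) (φ + u * (ψ - φ)) := fun u hu => by
    unfold PG.pt
    rw [s1]
    exact h1.seg h2 hu
  have e2 : ∀ u ∈ Ico (0 : ℝ) 1, Ch O A B (R.pt k2 u) (ψ + u * (1 - ψ)) := fun u hu => by
    unfold PG.pt
    rw [h3]
    exact h2.seg ch_right hu
  have bd : ∀ {r t : ℝ}, r < t → ∀ u ∈ Ico (0 : ℝ) 1, r ≤ r + u * (t - r) ∧ r + u * (t - r) < t :=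
    fun h u hu => ⟨by nlinarith [hu.1], by nlinarith [hu.2]⟩
  have cn : ∀ {r t u u' : ℝ}, r < t → r + u * (t - r) = r + u' * (t - r) → u = u' := fun h e =>
    mul_right_cancel₀ (sub_pos.2 h).ne' (add_left_cancel e)
  constructor
  · rintro k (rfl | rfl | rfl) u hu
    · exact ⟨_, by linarith [(bd l1 u hu).2], e0 u hu⟩
    · exact ⟨_, by linarith [(bd l2 u hu).2], e1 u hu⟩
    · exact ⟨_, (bd l3 u hu).2, e2 u hu⟩
  · intro k hk k' hk' u hu u' hu' e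
    have b1 := bd l1 u hu
    have b2 := bd l2 u hu
    have b3 := bd l3 u hu
    have c1 := bd l1 u' hu'
    have c2 := bd l2 u' hu'
    have c3 := bd l3 u' hu'
    rcases hk with hk | hk | hk <;> rcases hk' with hk' | hk' | hk' <;> rw [← hk, ← hk'] at e ⊢
    · exact ⟨rfl, cn l1 ((e0 u hu).uniq hd (e ▸ e0 u' hu'))⟩
    · linarith [(e0 u hu).uniq hd (e ▸ e1 u' hu'), b1.2, c2.1]
    · linarith [(e0 u hu).uniq hd (e ▸ e2 u' hu'), b1.2, c3.1]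
    · linarith [(e1 u hu).uniq hd (e ▸ e0 u' hu'), b2.1, c1.2]
    · exact ⟨rfl, cn l2 ((e1 u hu).uniq hd (e ▸ e1 u' hu'))⟩
    · linarith [(e1 u hu).uniq hd (e ▸ e2 u' hu'), b2.2, c3.1]
    · linarith [(e2 u hu).uniq hd (e ▸ e0 u' hu'), b3.1, c1.2]
    · linarith [(e2 u hu).uniq hd (e ▸ e1 u' hu'), b3.1, c2.2]
    · exact ⟨rfl, cn l3 ((e2 u hu).uniq hd (e ▸ e2 u' hu'))⟩

variable {P : PG ι} {Q : PG κ} {a c : ι} {j : ι → κ} {n0 n1 n2 n3 : κ} {lam : ℝ}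

theorem cls (hD : Dent P Q a c j n0 n1 n2 n3 O lam) (k : κ) :
    (∃ g, g ≠ a ∧ g ≠ c ∧ j g = k) ∨ (j a = k ∨ n0 = k ∨ n1 = k) ∨
      (j c = k ∨ n2 = k ∨ n3 = k) := by
  rcases hD.cov k with ⟨v, h⟩ | h | h | h | h
  · by_cases h1 : v = a
    · exact .inr (.inl (.inl (h1 ▸ h.symm)))
    by_cases h2 : v = c
    · exact .inr (.inr (.inl (h2 ▸ h.symm)))
    exact .inl ⟨v, h1, h2, h.symm⟩
  · exact .inr (.inl (.inr (.inl h.symm)))
  · exact .inr (.inl (.inr (.inr h.symm)))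
  · exact .inr (.inr (.inr (.inl h.symm)))
  · exact .inr (.inr (.inr (.inr h.symm)))

/-- the polygons of the isotopy are embedded -/
theorem emb (hP : P.Emb) (he : Emp P a c) (hO : O ∈ hullP P a c)
    (hi : Ins s (P.pos a) (P.pos (P.σ a)) (P.pos c) (P.pos (P.σ c)) O)
    (hD : Dent P Q a c j n0 n1 n2 n3 O lam) {x : κ → P3} (hx : ∀ v, x (j v) = P.pos v)
    (h0 : Ch O (P.pos a) (P.pos (P.σ a)) (x n0) φ) (h1 : Ch O (P.pos a) (P.pos (P.σ a)) (x n1) ψ)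
    (h2 : Ch O (P.pos c) (P.pos (P.σ c)) (x n2) φ) (h3 : Ch O (P.pos c) (P.pos (P.σ c)) (x n3) ψ)
    (l1 : -1 < φ) (l2 : φ < ψ) (l3 : ψ < 1) : (⟨Q.σ, x⟩ : PG κ).Emb := by
  obtain ⟨a1, a2⟩ := chain (R := ⟨Q.σ, x⟩) hi.1 (hx a) hD.sa hD.s0
    ((congrArg x hD.s1).trans (hx _)) h0 h1 l1 l2 l3
  obtain ⟨c1, c2⟩ := chain (R := ⟨Q.σ, x⟩) hi.2.2.1 (hx c) hD.sc hD.s2
    ((congrArg x hD.s3).trans (hx _)) h2 h3 l1 l2 l3
  have old : ∀ g, g ≠ a → g ≠ c → ∀ u, (⟨Q.σ, x⟩ : PG κ).pt (j g) u = P.pt g u := by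
    intro g g1 g2 u
    simp only [PG.pt, hD.so g g1 g2, hx]
  have hK : Convex ℝ (hullP P a c) := convex_convexHull _ _
  have mA : P.pos a ∈ hullP P a c := subset_convexHull _ _ (by simp)
  have mB : P.pos (P.σ a) ∈ hullP P a c := subset_convexHull _ _ (by simp)
  have mC : P.pos c ∈ hullP P a c := subset_convexHull _ _ (by simp)
  have mD : P.pos (P.σ c) ∈ hullP P a c := subset_convexHull _ _ (by simp)
  have vtx : ∀ g, g ≠ a → g ≠ c → ∀ u ∈ Ico (0 : ℝ) 1, P.pt g u ∈ hullP P a c →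
      P.pt g u = P.pos (P.σ a) ∨ P.pt g u = P.pos (P.σ c) := by
    intro g g1 g2 u hu hm
    rcases he g g1 g2 u ⟨hu.1, hu.2.le⟩ hm with ⟨rfl, rfl | rfl⟩ | ⟨h, -⟩
    · exact .inl (AffineMap.lineMap_apply_zero _ _)
    · exact .inr (AffineMap.lineMap_apply_zero _ _)
    · exact absurd h hu.2.ne
  have na : ∀ g, g ≠ a → g ≠ c → ∀ u ∈ Ico (0 : ℝ) 1,
      ¬ ∃ r < 1, Ch O (P.pos a) (P.pos (P.σ a)) (P.pt g u) r := by
    rintro g g1 g2 u hu ⟨r, hr, h⟩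
    rcases vtx g g1 g2 u hu (h.mem hK hO mA mB) with e | e <;> rw [e] at h
    · exact hr.ne (h.uniq hi.1 ch_right)
    · exact h.disj hi ch_right
  have nc : ∀ g, g ≠ a → g ≠ c → ∀ u ∈ Ico (0 : ℝ) 1,
      ¬ ∃ r < 1, Ch O (P.pos c) (P.pos (P.σ c)) (P.pt g u) r := by
    rintro g g1 g2 u hu ⟨r, hr, h⟩
    rcases vtx g g1 g2 u hu (h.mem hK hO mC mD) with e | e <;> rw [e] at h
    · exact ch_right.disj hi h
    · exact hr.ne (h.uniq hi.2.2.1 ch_right)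
  intro k k' u hu u' hu' e
  rcases cls hD k with ⟨g, g1, g2, rfl⟩ | hk | hk <;>
    rcases cls hD k' with ⟨g', g3, g4, rfl⟩ | hk' | hk'
  · rw [old g g1 g2, old g' g3 g4] at e
    exact (hP g g' u hu u' hu' e).imp_left (congrArg j)
  · exact (na g g1 g2 u hu (old g g1 g2 u ▸ e ▸ a1 k' hk' u' hu')).elim
  · exact (nc g g1 g2 u hu (old g g1 g2 u ▸ e ▸ c1 k' hk' u' hu')).elim
  · exact (na g' g3 g4 u' hu' (old g' g3 g4 u' ▸ e ▸ a1 k hk u hu)).elim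
  · exact a2 k hk k' hk' u hu u' hu' e
  · obtain ⟨r, -, h⟩ := a1 k hk u hu
    obtain ⟨r', -, h'⟩ := c1 k' hk' u' hu'
    exact (h.disj hi (e ▸ h')).elim
  · exact (nc g' g3 g4 u' hu' (old g' g3 g4 u' ▸ e ▸ c1 k hk u hu)).elim
  · obtain ⟨r, -, h⟩ := c1 k hk u hu
    obtain ⟨r', -, h'⟩ := a1 k' hk' u' hu'
    exact (h'.disj hi (e ▸ h)).elim
  · exact c2 k hk k' hk' u hu u' hu' e

/-- the partition in thirds -/
theorem part (hac : a ≠ c) (hD : Dent P Q a c j n0 n1 n2 n3 O lam) :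
    ∃ (p : κ → ι) (st en : κ → ℝ), Part P.σ Q.σ p st en ∧ (∀ v, p (j v) = v ∧ st (j v) = 0) ∧
      (p n0 = a ∧ st n0 = 1 / 3) ∧ (p n1 = a ∧ st n1 = 2 / 3) ∧ (p n2 = c ∧ st n2 = 1 / 3) ∧
      (p n3 = c ∧ st n3 = 2 / 3) := by
  classical
  have : Nonempty ι := ⟨a⟩
  have n10 := hD.n01.symm
  have n20 := hD.n02.symm
  have n30 := hD.n03.symm
  have n21 := hD.n12.symm
  have n31 := hD.n13.symm
  have n32 := hD.n23.symm
  obtain ⟨p, pj, p0, p1, p2, p3⟩ : ∃ p : κ → ι, (∀ v, p (j v) = v) ∧ p n0 = a ∧ p n1 = a ∧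
      p n2 = c ∧ p n3 = c :=
    ⟨fun k => if k = n0 ∨ k = n1 then a else if k = n2 ∨ k = n3 then c else Function.invFun j k,
      fun v => by simp [hD.j0, hD.j1, hD.j2, hD.j3, Function.leftInverse_invFun hD.inj v],
      by simp, by simp, by simp [n20, n21], by simp [n30, n31]⟩
  obtain ⟨st, sj, s0, s1, s2, s3⟩ : ∃ st : κ → ℝ, (∀ v, st (j v) = 0) ∧ st n0 = 1 / 3 ∧
      st n1 = 2 / 3 ∧ st n2 = 1 / 3 ∧ st n3 = 2 / 3 :=
    ⟨fun k => if k = n0 ∨ k = n2 then 1 / 3 else if k = n1 ∨ k = n3 then 2 / 3 else 0,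
      fun v => by simp [hD.j0, hD.j1, hD.j2, hD.j3], by simp, by simp [n10, hD.n12], by simp,
      by simp [n30, n32]⟩
  obtain ⟨en, ej, ea, ec, e0, e1, e2, e3⟩ : ∃ en : κ → ℝ,
      (∀ g, g ≠ a → g ≠ c → en (j g) = 1) ∧ en (j a) = 1 / 3 ∧ en (j c) = 1 / 3 ∧
      en n0 = 2 / 3 ∧ en n1 = 1 ∧ en n2 = 2 / 3 ∧ en n3 = 1 :=
    ⟨fun k => if k = n0 ∨ k = n2 then 2 / 3 else if k = j a ∨ k = j c then 1 / 3 else 1,
      fun g g1 g2 => by simp [hD.j0, hD.j2, hD.inj.eq_iff, g1, g2], by simp [hD.j0, hD.j2],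
      by simp [hD.j0, hD.j2], by simp, by simp [n10, hD.n12, (hD.j1 _).symm], by simp,
      by simp [n30, n32, (hD.j3 _).symm]⟩
  have tab : ∀ k, (p k ≠ a ∧ p k ≠ c ∧ k = j (p k) ∧ st k = 0 ∧ en k = 1 ∧
        p (Q.σ k) = P.σ (p k) ∧ st (Q.σ k) = 0) ∨
      (k = j a ∧ p k = a ∧ st k = 0 ∧ en k = 1 / 3 ∧ p (Q.σ k) = a ∧ st (Q.σ k) = 1 / 3) ∨
      (k = n0 ∧ p k = a ∧ st k = 1 / 3 ∧ en k = 2 / 3 ∧ p (Q.σ k) = a ∧ st (Q.σ k) = 2 / 3) ∨
      (k = n1 ∧ p k = a ∧ st k = 2 / 3 ∧ en k = 1 ∧ p (Q.σ k) = P.σ a ∧ st (Q.σ k) = 0) ∨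
      (k = j c ∧ p k = c ∧ st k = 0 ∧ en k = 1 / 3 ∧ p (Q.σ k) = c ∧ st (Q.σ k) = 1 / 3) ∨
      (k = n2 ∧ p k = c ∧ st k = 1 / 3 ∧ en k = 2 / 3 ∧ p (Q.σ k) = c ∧ st (Q.σ k) = 2 / 3) ∨
      (k = n3 ∧ p k = c ∧ st k = 2 / 3 ∧ en k = 1 ∧ p (Q.σ k) = P.σ c ∧ st (Q.σ k) = 0) := by
    intro k
    rcases cls hD k with ⟨g, g1, g2, h⟩ | (h | h | h) | h | h | h <;> rw [← h]
    · simp [pj, sj, g1, g2, ej g g1 g2, hD.so g g1 g2]
    · simp [pj, sj, ea, hD.sa, p0, s0]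
    · simp [p0, s0, e0, hD.s0, p1, s1]
    · simp [p1, s1, e1, hD.s1, pj, sj]
    · simp [pj, sj, ec, hD.sc, p2, s2]
    · simp [p2, s2, e2, hD.s2, p3, s3]
    · simp [p3, s3, e3, hD.s3, pj, sj]
  refine ⟨p, st, en, ⟨fun k => ?_, fun k => ?_, fun k => ?_, fun k h => ?_, fun k h => ?_,
    fun k k' h1 h2 h3 => ?_, fun v u hu => ?_⟩, fun v => ⟨pj v, sj v⟩, ⟨p0, s0⟩, ⟨p1, s1⟩,
    ⟨p2, s2⟩, p3, s3⟩
  · rcases tab k with h | h | h | h | h | h | h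
    exacts [h.2.2.2.1.ge, by linarith [h.2.2.1], by linarith [h.2.2.1], by linarith [h.2.2.1],
      by linarith [h.2.2.1], by linarith [h.2.2.1], by linarith [h.2.2.1]]
  · rcases tab k with ⟨-, -, -, h1, h2, -⟩ | ⟨-, -, h1, h2, -⟩ | ⟨-, -, h1, h2, -⟩ |
      ⟨-, -, h1, h2, -⟩ | ⟨-, -, h1, h2, -⟩ | ⟨-, -, h1, h2, -⟩ | ⟨-, -, h1, h2, -⟩ <;> linarith
  · rcases tab k with ⟨-, -, -, h1, h2, -⟩ | ⟨-, -, h1, h2, -⟩ | ⟨-, -, h1, h2, -⟩ |
      ⟨-, -, h1, h2, -⟩ | ⟨-, -, h1, h2, -⟩ | ⟨-, -, h1, h2, -⟩ | ⟨-, -, h1, h2, -⟩ <;> linarith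
  · rcases tab k with ⟨-, -, -, -, h2, -⟩ | ⟨-, h1, -, h2, h3, h4⟩ | ⟨-, h1, -, h2, h3, h4⟩ |
      ⟨-, h1, -, h2, h3, h4⟩ | ⟨-, h1, -, h2, h3, h4⟩ | ⟨-, h1, -, h2, h3, h4⟩ |
      ⟨-, h1, -, h2, h3, h4⟩ <;>
    first
      | exact absurd h2 h.ne
      | exact ⟨h3.trans h1.symm, h4.trans h2.symm⟩
  · rcases tab k with ⟨-, -, -, -, -, h2⟩ | ⟨-, h1, -, h2, h3, h4⟩ | ⟨-, h1, -, h2, h3, h4⟩ |
      ⟨-, h1, -, h2, h3, h4⟩ | ⟨-, h1, -, h2, h3, h4⟩ | ⟨-, h1, -, h2, h3, h4⟩ |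
      ⟨-, h1, -, h2, h3, h4⟩ <;>
    first
      | exact h2
      | exact ⟨h3.trans (congrArg _ h1.symm), h4⟩
      | (exfalso; linarith)
  · rcases tab k with ⟨x1, x2, x3, -⟩ | ⟨x0, x1, x2, x3, -⟩ | ⟨x0, x1, x2, x3, -⟩ |
      ⟨x0, x1, x2, x3, -⟩ | ⟨x0, x1, x2, x3, -⟩ | ⟨x0, x1, x2, x3, -⟩ | ⟨x0, x1, x2, x3, -⟩ <;>
    rcases tab k' with ⟨y1, y2, y3, -⟩ | ⟨y0, y1, y2, y3, -⟩ | ⟨y0, y1, y2, y3, -⟩ |
      ⟨y0, y1, y2, y3, -⟩ | ⟨y0, y1, y2, y3, -⟩ | ⟨y0, y1, y2, y3, -⟩ | ⟨y0, y1, y2, y3, -⟩ <;>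
    first
      | exact x0.trans y0.symm
      | exact x3.trans ((congrArg j h1).trans y3.symm)
      | exact absurd (h1.trans y1) x1
      | exact absurd (h1.trans y1) x2
      | exact absurd (h1.symm.trans x1) y1
      | exact absurd (h1.symm.trans x1) y2
      | exact absurd (x1.symm.trans (h1.trans y1)) hac
      | exact absurd (y1.symm.trans (h1.symm.trans x1)) hac
      | (exfalso; linarith)
  · by_cases h1 : v = a
    · rcases lt_or_ge u (1 / 3) with h | h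
      · exact ⟨j a, by rw [pj, h1], by rw [sj]; exact hu.1, by rwa [ea]⟩
      rcases lt_or_ge u (2 / 3) with h' | h'
      · exact ⟨n0, by rw [p0, h1], by rwa [s0], by rwa [e0]⟩
      · exact ⟨n1, by rw [p1, h1], by rwa [s1], by rw [e1]; exact hu.2⟩
    by_cases h2 : v = c
    · rcases lt_or_ge u (1 / 3) with h | h
      · exact ⟨j c, by rw [pj, h2], by rw [sj]; exact hu.1, by rwa [ec]⟩
      rcases lt_or_ge u (2 / 3) with h' | h'
      · exact ⟨n2, by rw [p2, h2], by rwa [s2], by rwa [e2]⟩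
      · exact ⟨n3, by rw [p3, h2], by rwa [s3], by rw [e3]; exact hu.2⟩
    exact ⟨j v, pj v, by rw [sj]; exact hu.1, by rw [ej v h1 h2]; exact hu.2⟩

theorem ch_first {t : ℝ} (ht : t ∈ Icc (0 : ℝ) 1) (hl : lam ∈ Ioo (0 : ℝ) 1) :
    Ch O A B (AffineMap.lineMap (AffineMap.lineMap A B (1 / 3 : ℝ) : P3)
      (AffineMap.lineMap O A lam : P3) t) (-((1 - t) / 3 + t * lam)) := by
  have t1 := sub_nonneg.2 ht.2
  have m := mul_nonneg ht.1 hl.1.le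
  refine ⟨(1 - t) * (2 / 3) + t * lam, (1 - t) / 3, by positivity, by positivity, ?_, ?_,
    by ring, ?_⟩
  · nlinarith [hl.1, hl.2, ht.1]
  · nlinarith [hl.1, hl.2, ht.1]
  · simp only [PBA.lm]
    module

theorem ch_second {t : ℝ} (ht : t ∈ Icc (0 : ℝ) 1) (hl : lam ∈ Ioo (0 : ℝ) 1) :
    Ch O A B (AffineMap.lineMap (AffineMap.lineMap A B (2 / 3 : ℝ) : P3)
      (AffineMap.lineMap O B lam : P3) t) ((1 - t) / 3 + t * lam) := by
  have t1 := sub_nonneg.2 ht.2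
  have m := mul_nonneg ht.1 hl.1.le
  refine ⟨(1 - t) / 3, (1 - t) * (2 / 3) + t * lam, by positivity, by positivity, ?_, ?_,
    by ring, ?_⟩
  · nlinarith [hl.1, hl.2, ht.1]
  · nlinarith [hl.1, hl.2, ht.1]
  · simp only [PBA.lm]
    module

end DentAux

set_option linter.unusedVariables false in
theorem dent {T : ODTheory} (PT : PTheory T) {ι κ : Type} [Finite ι] [Finite κ] {P : PG ι}
    {Q : PG κ} {a c : ι} {j : ι → κ} {n0 n1 n2 n3 : κ} {O : P3} {lam s : ℝ} (hP : P.Emb)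
    (hac : a ≠ c) (hq : Quad s (P.pos a) (P.pos (P.σ a)) (P.pos c) (P.pos (P.σ c)))
    (he : Emp P a c) (hO : O ∈ hullP P a c)
    (hi : Ins s (P.pos a) (P.pos (P.σ a)) (P.pos c) (P.pos (P.σ c)) O)
    (hl : lam ∈ Ioo (0 : ℝ) 1) (hD : Dent P Q a c j n0 n1 n2 n3 O lam) :
    Q.Emb ∧ ∀ q, (PT.V P q ↔ PT.V Q q) := by
  obtain ⟨p, st, en, hp, pj, p0, p1, p2, p3⟩ := DentAux.part hac hD
  have h : ∀ t ∈ Icc (0 : ℝ) 1, (⟨Q.σ, fun k =>
      AffineMap.lineMap ((refn P Q.σ p st).pos k) (Q.pos k) t⟩ : PG κ).Emb := by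
    intro t ht
    have b0 : 0 < (1 - t) / 3 + t * lam := by nlinarith [hl.1, hl.2, ht.1, ht.2]
    have b1 : (1 - t) / 3 + t * lam < 1 := by nlinarith [hl.1, hl.2, ht.1, ht.2]
    refine DentAux.emb (φ := -((1 - t) / 3 + t * lam)) (ψ := (1 - t) / 3 + t * lam) hP he hO hi hD
      (fun v => ?_) ?_ ?_ ?_ ?_ (by linarith) (by linarith) b1
    · simp [refn, PG.pt, (pj v).1, (pj v).2, hD.pj]
    · simp only [refn, PG.pt, p0.1, p0.2, hD.p0]
      exact DentAux.ch_first ht hl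
    · simp only [refn, PG.pt, p1.1, p1.2, hD.p1]
      exact DentAux.ch_second ht hl
    · simp only [refn, PG.pt, p2.1, p2.2, hD.p2]
      exact DentAux.ch_first ht hl
    · simp only [refn, PG.pt, p3.1, p3.2, hD.p3]
      exact DentAux.ch_second ht hl
  refine ⟨?_, fun q => (refn_V PT hP hp q).trans (pt_seg PT Q.σ _ Q.pos h q)⟩
  simpa only [AffineMap.lineMap_apply_one] using h 1 ⟨zero_le_one, le_rfl⟩


end K2

end Pool.Agent.Lib.MP_4d7d0a_gt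
end

-- part Pool.Agent.Lib.MP_4d7d0a_gt.K2Sad0
section

/-! Part K2: the saddle move for polygons. -/

set_option autoImplicit false

open Set Filter Topology

namespace Pool.Agent.Lib.MP_4d7d0a_gt

namespace K2

namespace Sad0Aux

theorem det_pr (pr : P3 →ₗ[ℝ] P3) : ∃ n12 n13 n23 : ℝ, ∀ u v : P3, det2 (pr u) (pr v) =
    n12 * (u.1 * v.2.1 - u.2.1 * v.1) + n13 * det2 u v + n23 * (u.2.1 * v.2.2 - u.2.2 * v.2.1) := by
  have h : ∀ u : P3, pr u = u.1 • pr (1, 0, 0) + u.2.1 • pr (0, 1, 0) + u.2.2 • pr (0, 0, 1) :=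
    fun u => by
      rw [← map_smul, ← map_smul, ← map_smul, ← map_add, ← map_add]
      congr 1
      ext <;> simp
  refine ⟨det2 (pr (1, 0, 0)) (pr (0, 1, 0)), det2 (pr (1, 0, 0)) (pr (0, 0, 1)),
    det2 (pr (0, 1, 0)) (pr (0, 0, 1)), fun u v => ?_⟩
  rw [h u, h v]
  simp only [det2, Prod.fst_add, Prod.snd_add, Prod.smul_fst, Prod.smul_snd, smul_eq_mul]
  ring

theorem quad_fin {c0 c1 c2 : ℝ} (h : c1 ≠ 0 ∨ c2 ≠ 0) :
    {t : ℝ | c0 + c1 * t + c2 * t ^ 2 = 0}.Finite := by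
  have hp : (Polynomial.C c0 + Polynomial.C c1 * Polynomial.X + Polynomial.C c2 * Polynomial.X ^ 2 :
      Polynomial ℝ) ≠ 0 := fun e => by
    have h1 := congrArg (Polynomial.coeff · 1) e
    have h2 := congrArg (Polynomial.coeff · 2) e
    simp [Polynomial.coeff_C] at h1 h2
    tauto
  refine (Polynomial.finite_setOfPred_isRoot hp).subset fun t ht => ?_
  simpa [Polynomial.IsRoot] using ht

theorem quad_rot {s : ℝ} {A B C D : P3} (h : Quad s A B C D) : Quad s B C D A :=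
  ⟨h.2.1, h.2.2.1, h.2.2.2, h.1⟩

theorem ins_rot {s : ℝ} {A B C D O : P3} (h : Ins s A B C D O) : Ins s B C D A O :=
  ⟨h.2.1, h.2.2.1, h.2.2.2, h.1⟩

theorem out_rot {A B C D X W : P3} (h : Out B C D A X W) : Out A B C D X W := by
  obtain ⟨l, h1, h2, h3⟩ := h
  refine ⟨l, h1, h2, fun Z hZ => h3 Z ?_⟩
  simp only [mem_insert_iff, mem_singleton_iff] at hZ ⊢
  tauto

theorem lm_eq (O A : P3) (l : ℝ) : (AffineMap.lineMap O A l : P3) = O + l • (A - O) := by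
  rw [AffineMap.lineMap_apply, vsub_eq_sub, vadd_eq_add, add_comm]

theorem out_one {s l : ℝ} {A B C D O : P3} (hq : Quad s A B C D) (hi : Ins s A B C D O)
    (hl : l ∈ Ioo (0 : ℝ) 1) : Out (AffineMap.lineMap O A l) (AffineMap.lineMap O B l)
      (AffineMap.lineMap O C l) (AffineMap.lineMap O D l) (AffineMap.lineMap O A l) A := by
  let f : P3 →ₗ[ℝ] ℝ :=
    { toFun := fun x => s * det2 x (B - D)
      map_add' := fun x y => by simp only [det2, Prod.fst_add, Prod.snd_add]; ring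
      map_smul' := fun c x => by
        simp only [det2, Prod.smul_fst, Prod.smul_snd, smul_eq_mul, RingHom.id_apply]; ring }
  have hf : ∀ x, f x = s * det2 x (B - D) := fun _ => rfl
  have k : ∀ X, f X < f A → f (AffineMap.lineMap O X l) < f (AffineMap.lineMap O A l) :=
    fun X hX => by
      simp only [lm_eq, map_add, map_smul, map_sub, smul_eq_mul]
      nlinarith [mul_pos hl.1 (sub_pos.2 hX)]
  obtain ⟨q1, -, q3, q4⟩ := hq
  obtain ⟨i1, -, -, i4⟩ := hi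
  simp only [det2, Prod.fst_sub, Prod.snd_sub] at q1 q3 q4 i1 i4
  refine ⟨f, by simp [hf, det2], ?_, fun Z hZ hne => ?_⟩
  · have : f O < f A := by
      simp only [hf, det2, Prod.fst_sub, Prod.snd_sub]
      linarith
    simp only [lm_eq, map_add, map_smul, map_sub, smul_eq_mul]
    nlinarith [mul_pos (sub_pos.2 hl.2) (sub_pos.2 this)]
  · rcases hZ with rfl | rfl | rfl | rfl
    · exact absurd rfl hne
    all_goals
      refine k _ ?_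
      simp only [hf, det2, Prod.fst_sub, Prod.snd_sub]
      linarith

theorem quad_scale {s l : ℝ} {A B C D : P3} (O : P3) (hq : Quad s A B C D) (hl : 0 < l) :
    Quad s (AffineMap.lineMap O A l) (AffineMap.lineMap O B l) (AffineMap.lineMap O C l)
      (AffineMap.lineMap O D l) := by
  have k : ∀ X Y Z : P3, 0 < s * det2 (Y - X) (Z - Y) → 0 < s * det2
      (AffineMap.lineMap O Y l - AffineMap.lineMap O X l)
      (AffineMap.lineMap O Z l - AffineMap.lineMap O Y l) := fun X Y Z h => by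
    refine (mul_pos (mul_pos hl hl) h).trans_eq ?_
    simp only [lm_eq, det2, Prod.fst_sub, Prod.snd_sub, Prod.fst_add, Prod.snd_add, Prod.smul_fst,
      Prod.smul_snd, smul_eq_mul]
    ring
  exact ⟨k _ _ _ hq.1, k _ _ _ hq.2.1, k _ _ _ hq.2.2.1, k _ _ _ hq.2.2.2⟩

theorem quad_rev {s : ℝ} {A B C D : P3} (h : Quad s A B C D) : Quad (-s) A D C B := by
  obtain ⟨h1, h2, h3, h4⟩ := h
  simp only [Quad, det2, Prod.fst_sub, Prod.snd_sub] at h1 h2 h3 h4 ⊢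
  exact ⟨by linarith, by linarith, by linarith, by linarith⟩

theorem ins_rev {s : ℝ} {A B C D O : P3} (h : Ins s A B C D O) : Ins (-s) A D C B O := by
  obtain ⟨h1, h2, h3, h4⟩ := h
  simp only [Ins, det2, Prod.fst_sub, Prod.snd_sub] at h1 h2 h3 h4 ⊢
  exact ⟨by linarith, by linarith, by linarith, by linarith⟩

theorem small {ι : Type} [Finite ι] (P : PG ι) {O : P3}
    (h : ∀ g, ∀ u ∈ Icc (0 : ℝ) 1, ¬ Pj (P.pt g u) O) (A B C D : P3) :
    ∃ l ∈ Ioo (0 : ℝ) 1, ∀ g, ∀ u ∈ Icc (0 : ℝ) 1, ∀ z ∈ convexHull ℝ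
      ({AffineMap.lineMap O A l, AffineMap.lineMap O B l, AffineMap.lineMap O C l,
        AffineMap.lineMap O D l} : Set P3), ¬ Pj (P.pt g u) z := by
  let φ : P3 → ℝ × ℝ := fun p => (p.1, p.2.2)
  have hφ : Continuous φ := by fun_prop
  have hK : IsCompact (⋃ g, (fun u => φ (P.pt g u)) '' Icc (0 : ℝ) 1) :=
    isCompact_iUnion fun g => isCompact_Icc.image (hφ.comp AffineMap.lineMap_continuous)
  have hO : O ∈ φ ⁻¹' (⋃ g, (fun u => φ (P.pt g u)) '' Icc (0 : ℝ) 1)ᶜ := fun hm => by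
    obtain ⟨g, u, hu, e⟩ := mem_iUnion.1 hm
    exact h g u hu ⟨(Prod.ext_iff.1 e).1, (Prod.ext_iff.1 e).2⟩
  obtain ⟨ε, hε, hb⟩ := Metric.isOpen_iff.1 (hK.isClosed.isOpen_compl.preimage hφ) O hO
  have ev : ∀ X : P3, ∀ᶠ l : ℝ in 𝓝[>] 0, (AffineMap.lineMap O X l : P3) ∈ Metric.ball O ε :=
    fun X => by
      have : ContinuousAt (fun l : ℝ => (AffineMap.lineMap O X l : P3)) 0 :=
        AffineMap.lineMap_continuous.continuousAt
      refine (this.eventually (Metric.isOpen_ball.mem_nhds ?_)).filter_mono nhdsWithin_le_nhds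
      simpa using hε
  obtain ⟨l, ⟨hA, hB, hC, hD⟩, hl⟩ := (((ev A).and ((ev B).and ((ev C).and (ev D)))).and
    (Ioo_mem_nhdsGT (zero_lt_one' ℝ))).exists
  refine ⟨l, hl, fun g u hu z hz hp => hb (convexHull_min ?_ (convex_ball O ε) hz)
    (mem_iUnion.2 ⟨g, u, hu, Prod.ext hp.1 hp.2⟩)⟩
  rintro _ (rfl | rfl | rfl | rfl) <;> assumption

end Sad0Aux

open Sad0Aux

/-- after a shear the quadrilateral is convex in the standard projection -/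
theorem quad_shear (pr : P3 →ₗ[ℝ] P3) {A B C D : P3}
    (h : 0 < det2 (pr (B - A)) (pr (C - B)) ∧ 0 < det2 (pr (C - B)) (pr (D - C)) ∧
      0 < det2 (pr (D - C)) (pr (A - D)) ∧ 0 < det2 (pr (A - D)) (pr (B - A))) :
    ∃ α γ s : ℝ, (s = 1 ∨ s = -1) ∧
      Quad s (shear α γ A) (shear α γ B) (shear α γ C) (shear α γ D) := by
  obtain ⟨n12, n13, n23, hn⟩ := det_pr pr
  have ev : ∀ u v : P3, 0 < det2 (pr u) (pr v) → ∀ᶠ N in 𝓝[≠] n13,
      0 < det2 (pr u) (pr v) + (N - n13) * det2 u v := fun u v huv => by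
    have : ContinuousAt (fun N => det2 (pr u) (pr v) + (N - n13) * det2 u v) n13 := by fun_prop
    exact (this.eventually (lt_mem_nhds (by simpa using huv))).filter_mono nhdsWithin_le_nhds
  obtain ⟨N, ⟨h1, h2, h3, h4⟩, hN⟩ := (((ev _ _ h.1).and ((ev _ _ h.2.1).and ((ev _ _ h.2.2.1).and
    (ev _ _ h.2.2.2)))).and ((eventually_cofinite_ne 0).filter_mono
      (nhdsNE_le_cofinite n13))).exists
  have key : ∀ u v : P3, det2 (pr u) (pr v) + (N - n13) * det2 u v =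
      N * det2 (shear (n23 / N) (n12 / N) u) (shear (n23 / N) (n12 / N) v) := fun u v => by
    rw [hn]
    simp only [det2, shear_apply]
    field_simp
    ring
  rw [key, map_sub, map_sub] at h1 h2 h3 h4
  refine ⟨n23 / N, n12 / N, if 0 < N then 1 else -1, by split_ifs <;> simp, ?_⟩
  have k : ∀ x : ℝ, 0 < N * x → 0 < (if 0 < N then 1 else -1) * x := fun x hx => by
    split_ifs with h0
    · rw [one_mul]; exact (mul_pos_iff_of_pos_left h0).1 hx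
    · have : N < 0 := (not_lt.1 h0).lt_of_ne hN
      nlinarith [neg_of_mul_pos_right hx this.le]
  exact ⟨k _ h1, k _ h2, k _ h3, k _ h4⟩

/-- an inner point of the hull whose projection misses the other edges -/
theorem exists_centre {ι : Type} [Finite ι] (P : PG ι) (a c : ι) {s : ℝ}
    (hq : Quad s (P.pos a) (P.pos (P.σ a)) (P.pos c) (P.pos (P.σ c))) :
    ∃ O ∈ hullP P a c, Ins s (P.pos a) (P.pos (P.σ a)) (P.pos c) (P.pos (P.σ c)) O ∧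
      ∀ g, ∀ u ∈ Icc (0 : ℝ) 1, ¬ Pj (P.pt g u) O := by
  unfold hullP
  generalize P.pos a = A, P.pos (P.σ a) = B, P.pos c = C, P.pos (P.σ c) = D at hq ⊢
  let O : ℝ → P3 := fun t =>
    (1 / 4 - t) • A + (1 / 4 + t - t ^ 2) • B + (1 / 4 + t ^ 2) • C + (1 / 4 : ℝ) • D
  have h0 : det2 (B - A) (C - B) ≠ 0 := fun e => by simpa [e] using hq.1
  have fin : ∀ g, {t | ∃ u, Pj (P.pt g u) (O t)}.Finite := fun g => by
    obtain ⟨d, h1, h2⟩ : ∃ d : P3, (det2 (B - A) d ≠ 0 ∨ det2 (C - B) d ≠ 0) ∧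
        det2 (P.pos (P.σ g) - P.pos g) d = 0 := by
      by_cases h : det2 (B - A) (P.pos (P.σ g) - P.pos g) ≠ 0 ∨
          det2 (C - B) (P.pos (P.σ g) - P.pos g) ≠ 0
      · exact ⟨_, h, by simp only [det2]; ring⟩
      · push Not at h
        refine ⟨C - B, Or.inl h0, ?_⟩
        have := h.2
        simp only [det2] at this ⊢
        linarith
    refine (quad_fin (c0 := det2 (O 0 - P.pos g) d) h1).subset fun t ⟨u, e1, e2⟩ => ?_
    simp only [PG.pt, lm_eq, O, det2, mem_ofPred_eq, Prod.fst_sub, Prod.snd_sub, Prod.fst_add,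
      Prod.snd_add, Prod.smul_fst, Prod.smul_snd, smul_eq_mul] at e1 e2 h2 ⊢
    linear_combination u * h2 - d.2.2 * e1 + d.1 * e2
  obtain ⟨t, ⟨t0, t1⟩, ht⟩ := ((Ioo_infinite (by norm_num : (0 : ℝ) < 1 / 8)).sdiff
    (finite_iUnion fin)).nonempty
  have w1 : 0 < 1 / 4 - t := by linarith
  have w2 : 0 < 1 / 4 + t - t ^ 2 := by nlinarith
  have w3 : 0 < 1 / 4 + t ^ 2 := by positivity
  refine ⟨O t, PAdm.hull4 A B C D w1.le w2.le w3.le (by norm_num) (by ring), ?_,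
    fun g u _ hp => ht (mem_iUnion.2 ⟨g, u, hp⟩)⟩
  obtain ⟨q1, q2, q3, q4⟩ := hq
  have a1 := add_pos (mul_pos w3 q1) (mul_pos (by norm_num : (0 : ℝ) < 1 / 4) q4)
  have a2 := add_pos (mul_pos w1 q1) (mul_pos (by norm_num : (0 : ℝ) < 1 / 4) q2)
  have a3 := add_pos (mul_pos w1 q3) (mul_pos w2 q2)
  have a4 := add_pos (mul_pos w2 q4) (mul_pos w3 q3)
  refine ⟨a1.trans_eq ?_, a2.trans_eq ?_, a3.trans_eq ?_, a4.trans_eq ?_⟩ <;>
    simp only [O, det2, Prod.fst_sub, Prod.snd_sub, Prod.fst_add, Prod.snd_add, Prod.smul_fst,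
      Prod.smul_snd, smul_eq_mul] <;> ring

/-- the dented polygons -/
theorem exists_dent {ι : Type} [Finite ι] {P P' : PG ι} {a c : ι} (hw : Swp P P' a c) (O : P3)
    (lam : ℝ) : ∃ Q Q' : PG (ι ⊕ Fin 4),
      Dent P Q a c Sum.inl (Sum.inr 0) (Sum.inr 1) (Sum.inr 2) (Sum.inr 3) O lam ∧
      Dent P' Q' a c Sum.inl (Sum.inr 0) (Sum.inr 3) (Sum.inr 2) (Sum.inr 1) O lam ∧
      Swp Q Q' (Sum.inr 0) (Sum.inr 2) := by
  classical
  let σ : Equiv.Perm (ι ⊕ Fin 4) := Equiv.sumCongr P.σ 1 *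
    (Equiv.swap (.inl a) (.inr 1) * Equiv.swap (.inl a) (.inr 0) *
      (Equiv.swap (.inl c) (.inr 3) * Equiv.swap (.inl c) (.inr 2)))
  let x : ι ⊕ Fin 4 → P3 := Sum.elim P.pos ![AffineMap.lineMap O (P.pos a) lam,
    AffineMap.lineMap O (P.pos (P.σ a)) lam, AffineMap.lineMap O (P.pos c) lam,
    AffineMap.lineMap O (P.pos (P.σ c)) lam]
  have hac := hw.ne
  have sa : σ (.inl a) = .inr 0 := by simp [σ, Equiv.swap_apply_def, hac]
  have s0 : σ (.inr 0) = .inr 1 := by simp [σ, Equiv.swap_apply_def]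
  have s1 : σ (.inr 1) = .inl (P.σ a) := by simp [σ, Equiv.swap_apply_def]
  have sc : σ (.inl c) = .inr 2 := by simp [σ, Equiv.swap_apply_def]
  have s2 : σ (.inr 2) = .inr 3 := by simp [σ, Equiv.swap_apply_def]
  have s3 : σ (.inr 3) = .inl (P.σ c) := by simp [σ, Equiv.swap_apply_def, hac.symm]
  have so : ∀ g, g ≠ a → g ≠ c → σ (.inl g) = .inl (P.σ g) := fun g h1 h2 => by
    simp [σ, Equiv.swap_apply_def, h1, h2]
  let τ : Equiv.Perm (ι ⊕ Fin 4) := σ * Equiv.swap (.inr 0) (.inr 2)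
  have sw : ∀ k : ι ⊕ Fin 4, k ≠ .inr 0 → k ≠ .inr 2 → τ k = σ k :=
    fun k h1 h2 => by rw [Equiv.Perm.mul_apply, Equiv.swap_apply_of_ne_of_ne h1 h2]
  have w0 : τ (.inr 0) = σ (.inr 2) := by
    rw [Equiv.Perm.mul_apply, Equiv.swap_apply_left]
  have w2 : τ (.inr 2) = σ (.inr 0) := by
    rw [Equiv.Perm.mul_apply, Equiv.swap_apply_right]
  have cov : ∀ k : ι ⊕ Fin 4, (∃ v, k = .inl v) ∨ k = .inr 0 ∨ k = .inr 1 ∨ k = .inr 2 ∨
      k = .inr 3 := by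
    rintro (v | k)
    · exact Or.inl ⟨v, rfl⟩
    · fin_cases k <;> simp
  refine ⟨⟨σ, x⟩, ⟨τ, x⟩,
    ⟨Sum.inl_injective, by simp, by simp, by simp, by simp, by simp, by simp, by simp, by simp,
      by simp, by simp, cov, sa, s0, s1, sc, s2, s3, so, fun _ => rfl, rfl, rfl, rfl, rfl⟩,
    ⟨Sum.inl_injective, by simp, by simp, by simp, by simp, by simp, by simp, by simp, by simp,
      by simp, by simp, fun k => by have := cov k; tauto, (sw _ (by simp) (by simp)).trans sa,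
      w0.trans s2, (sw _ (by simp) (by simp)).trans (hw.sa ▸ s3),
      (sw _ (by simp) (by simp)).trans sc, w2.trans s0,
      (sw _ (by simp) (by simp)).trans (hw.sc ▸ s1),
      fun g h1 h2 => (sw _ (by simp) (by simp)).trans (hw.so g h1 h2 ▸ so g h1 h2),
      fun _ => by rw [hw.pos]; rfl, by rw [hw.pos]; rfl, by rw [hw.pos, hw.sa]; rfl,
      by rw [hw.pos]; rfl, by rw [hw.pos, hw.sc]; rfl⟩,
    ⟨by simp, rfl, w0, w2, sw⟩⟩

theorem psaddle0 {T : ODTheory} (PT : PTheory T) {ι : Type} [Finite ι] {P P' : PG ι} {a c : ι}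
    {s : ℝ} (hP : P.Emb) (hP' : P'.Emb) (hw : Swp P P' a c) (hs : s = 1 ∨ s = -1)
    (hq : Quad s (P.pos a) (P.pos (P.σ a)) (P.pos c) (P.pos (P.σ c))) (he : Emp P a c) (q : ℤ)
    (hV : PT.V P q) : PT.V P' (q - 1) := by
  obtain ⟨O, hO, hi, hm⟩ := exists_centre P a c hq
  obtain ⟨l, hl, hsm⟩ := small P hm (P.pos a) (P.pos (P.σ a)) (P.pos c) (P.pos (P.σ c))
  obtain ⟨Q, Q', hD, hD', hw'⟩ := exists_dent hw O l
  have hh : hullP P' a c = hullP P a c := by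
    rw [hullP, hullP, hw.pos, hw.sa, hw.sc]
    congr 1
    ext z
    simp only [mem_insert_iff, mem_singleton_iff]
    tauto
  have he' : Emp P' a c := fun g h1 h2 u hu hz => by
    have := he g h1 h2 u hu (by rwa [hh, PG.pt, hw.pos, hw.so g h1 h2] at hz)
    rw [hw.sa, hw.sc, hw.so g h1 h2]
    tauto
  obtain ⟨hQ, hV1⟩ := dent PT hP hw.ne hq he hO hi hl hD
  obtain ⟨hQ', hV2⟩ := dent PT (s := -s) hP' hw.ne (by rw [hw.pos, hw.sa, hw.sc]; exact quad_rev hq)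
    he' (hh ▸ hO) (by rw [hw.pos, hw.sa, hw.sc]; exact ins_rev hi) hl hD'
  refine (hV2 _).2 (psaddleG PT hQ hQ' hw' hs ?_ (fun g h0 h2 => ?_) q ((hV1 q).1 hV))
  · rw [hD.s0, hD.s2, hD.p0, hD.p1, hD.p2, hD.p3]
    exact quad_scale O hq hl.1
  · rw [hullP, hD.s0, hD.s2, hD.p0, hD.p1, hD.p2, hD.p3]
    rcases hD.cov g with ⟨v, rfl⟩ | rfl | rfl | rfl | rfl
    · by_cases ha : v = a
      · refine Or.inr (Or.inr ⟨Or.inl (ha ▸ hD.sa), ?_⟩)
        rw [ha, hD.sa, hD.p0, hD.pj]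
        exact out_one hq hi hl
      by_cases hc : v = c
      · refine Or.inr (Or.inr ⟨Or.inr (hc ▸ hD.sc), ?_⟩)
        rw [hc, hD.sc, hD.p2, hD.pj]
        exact out_rot (out_rot (out_one (quad_rot (quad_rot hq)) (ins_rot (ins_rot hi)) hl))
      · refine Or.inl fun u hu z hz => ?_
        rw [PG.pt, hD.so v ha hc, hD.pj, hD.pj]
        exact hsm v u hu z hz
    · exact absurd rfl h0
    · refine Or.inr (Or.inl ⟨Or.inl rfl, ?_⟩)
      rw [hD.s1, hD.p1, hD.pj]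
      exact out_rot (out_one (quad_rot hq) (ins_rot hi) hl)
    · exact absurd rfl h2
    · refine Or.inr (Or.inl ⟨Or.inr rfl, ?_⟩)
      rw [hD.s3, hD.p3, hD.pj]
      exact out_rot (out_rot (out_rot (out_one (quad_rot (quad_rot (quad_rot hq)))
        (ins_rot (ins_rot (ins_rot hi))) hl)))

theorem psaddle {T : ODTheory} (PT : PTheory T) {ι : Type} [Finite ι] {P P' : PG ι} {a c : ι}
    (pr : P3 →ₗ[ℝ] P3) (hP : P.Emb) (hP' : P'.Emb) (hw : Swp P P' a c)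
    (hq : 0 < det2 (pr (P.pos (P.σ a) - P.pos a)) (pr (P.pos c - P.pos (P.σ a))) ∧
      0 < det2 (pr (P.pos c - P.pos (P.σ a))) (pr (P.pos (P.σ c) - P.pos c)) ∧
      0 < det2 (pr (P.pos (P.σ c) - P.pos c)) (pr (P.pos a - P.pos (P.σ c))) ∧
      0 < det2 (pr (P.pos a - P.pos (P.σ c))) (pr (P.pos (P.σ a) - P.pos a)))
    (he : Emp P a c) (q : ℤ) (hV : PT.V P q) : PT.V P' (q - 1) := by
  obtain ⟨α, γ, s, hs, hq'⟩ := quad_shear pr hq
  refine (shear_V PT hP' α γ _).2 (psaddle0 PT (P := mapP (shear α γ) P) (shear_emb hP α γ)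
    (shear_emb hP' α γ) ⟨hw.ne, ?_, hw.sa, hw.sc, hw.so⟩ hs hq' (fun g h1 h2 u hu hz => ?_) q
    ((shear_V PT hP α γ _).1 hV))
  · simp only [mapP, hw.pos]
  · refine he g h1 h2 u hu ?_
    have e : hullP (mapP (shear α γ) P) a c = shear α γ '' hullP P a c := by
      rw [hullP, hullP, LinearMap.image_convexHull]
      simp only [mapP, image_insert_eq, image_singleton]
    rw [e, mapP_pt] at hz
    exact (shear_inj α γ).mem_set_image.1 hz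


end K2

end Pool.Agent.Lib.MP_4d7d0a_gt
end

-- part Pool.Agent.Lib.MP_4d7d0a_gt.K2Sad
section

/-! Part K2: the saddle move for curved links. -/

set_option autoImplicit false

open Set Filter Topology

namespace Pool.Agent.Lib.MP_4d7d0a_gt

namespace K2

namespace SadAux

theorem pos_right {φ : ℝ → ℝ} {m : ℝ} (h : HasDerivWithinAt φ m (Icc 0 1) 0) (hm : 0 < m) :
    ∃ η : ℝ, 0 < η ∧ ∀ t ∈ Icc (0 : ℝ) 1, t ≠ 0 → dist t 0 < η → φ 0 < φ t := by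
  have h1 := (hasDerivWithinAt_iff_tendsto_slope.1 h).eventually (lt_mem_nhds hm)
  rw [eventually_nhdsWithin_iff, Metric.eventually_nhds_iff] at h1
  obtain ⟨η, hη, h2⟩ := h1
  refine ⟨η, hη, fun t ht h0 hd => ?_⟩
  have h3 := h2 hd ⟨ht, h0⟩
  have h4 : 0 < t := lt_of_le_of_ne ht.1 (Ne.symm h0)
  rw [slope_def_field, sub_zero, div_pos_iff_of_pos_right h4] at h3
  linarith

theorem pos_left {φ : ℝ → ℝ} {m : ℝ} (h : HasDerivWithinAt φ m (Icc 0 1) 1) (hm : m < 0) :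
    ∃ η : ℝ, 0 < η ∧ ∀ t ∈ Icc (0 : ℝ) 1, t ≠ 1 → dist t 1 < η → φ 1 < φ t := by
  have h1 := (hasDerivWithinAt_iff_tendsto_slope.1 h).eventually (gt_mem_nhds hm)
  rw [eventually_nhdsWithin_iff, Metric.eventually_nhds_iff] at h1
  obtain ⟨η, hη, h2⟩ := h1
  refine ⟨η, hη, fun t ht h0 hd => ?_⟩
  have h3 := h2 hd ⟨ht, h0⟩
  have h4 : t - 1 < 0 := sub_neg.2 (lt_of_le_of_ne ht.2 h0)
  rw [slope_def_field] at h3
  have h5 := mul_pos_of_neg_of_neg h3 h4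
  rw [div_mul_cancel₀ _ h4.ne] at h5
  linarith

theorem lin_deriv (l : P3 →ₗ[ℝ] ℝ) {f : ℝ → P3} {e : P3} {x : ℝ}
    (h : HasDerivWithinAt f e (Icc 0 1) x) :
    HasDerivWithinAt (fun t => l (f t)) (l e) (Icc 0 1) x :=
  (LinearMap.toContinuousLinearMap l).hasFDerivAt.comp_hasDerivWithinAt x h

theorem lin_lm (l : P3 →ₗ[ℝ] ℝ) (X Y : P3) (w : ℝ) :
    l (AffineMap.lineMap X Y w) = (1 - w) * l X + w * l Y := by
  rw [AffineMap.lineMap_apply_module, map_add, map_smul, map_smul, smul_eq_mul, smul_eq_mul]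

/-- short chords near one point of an arc -/
theorem chord_loc {f e : ℝ → P3} {K : Set P3} {P0 P1 : Prop} (hK : IsClosed K)
    (hf : ∀ u ∈ Icc (0 : ℝ) 1, HasDerivWithinAt f (e u) (Icc 0 1) u)
    (h7 : ∀ u ∈ Icc (0 : ℝ) 1, f u ∈ K → (u = 0 ∧ P0) ∨ (u = 1 ∧ P1))
    (h0 : P0 → ∃ l : P3 →ₗ[ℝ] ℝ, 0 < l (e 0) ∧ ∀ z ∈ K, l z ≤ l (f 0))
    (h1 : P1 → ∃ l : P3 →ₗ[ℝ] ℝ, l (e 1) < 0 ∧ ∀ z ∈ K, l z ≤ l (f 1))
    {x : ℝ} (hx : x ∈ Icc (0 : ℝ) 1) :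
    ∃ η : ℝ, 0 < η ∧ ∀ s ∈ Icc (0 : ℝ) 1, ∀ t ∈ Icc (0 : ℝ) 1, s < t → dist s x < η →
      dist t x < η → ∀ w ∈ Icc (0 : ℝ) 1, AffineMap.lineMap (f s) (f t) w ∈ K →
        (w = 0 ∧ s = 0 ∧ P0) ∨ (w = 1 ∧ t = 1 ∧ P1) := by
  by_cases hxK : f x ∈ K
  · rcases h7 x hx hxK with ⟨rfl, hP⟩ | ⟨rfl, hP⟩
    · obtain ⟨l, hl, hlK⟩ := h0 hP
      obtain ⟨η, hη, hh⟩ := pos_right (lin_deriv l (hf 0 hx)) hl
      refine ⟨η, hη, fun s hs t ht hst ds dt w hw hm => Or.inl ?_⟩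
      have a1 := hlK _ hm
      rw [lin_lm] at a1
      have a2 : l (f 0) < l (f t) := hh t ht (by linarith [hs.1]) dt
      by_cases hs0 : s = 0
      · refine ⟨?_, hs0, hP⟩
        rw [hs0] at a1
        by_contra hw0
        have a3 := mul_pos (lt_of_le_of_ne hw.1 (Ne.symm hw0)) (sub_pos.2 a2)
        linarith
      · exfalso
        have a3 : l (f 0) < l (f s) := hh s hs hs0 ds
        have a4 := mul_nonneg hw.1 (sub_pos.2 a2).le
        have a5 := mul_nonneg (sub_nonneg.2 hw.2) (sub_pos.2 a3).le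
        rcases eq_or_lt_of_le hw.1 with h | h
        · rw [← h] at a1
          linarith
        · have a6 := mul_pos h (sub_pos.2 a2)
          linarith
    · obtain ⟨l, hl, hlK⟩ := h1 hP
      obtain ⟨η, hη, hh⟩ := pos_left (lin_deriv l (hf 1 hx)) hl
      refine ⟨η, hη, fun s hs t ht hst ds dt w hw hm => Or.inr ?_⟩
      have a1 := hlK _ hm
      rw [lin_lm] at a1
      have a2 : l (f 1) < l (f s) := hh s hs (by linarith [ht.2]) ds
      by_cases ht1 : t = 1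
      · refine ⟨?_, ht1, hP⟩
        rw [ht1] at a1
        by_contra hw1
        have a3 := mul_pos (sub_pos.2 (lt_of_le_of_ne hw.2 hw1)) (sub_pos.2 a2)
        linarith
      · exfalso
        have a3 : l (f 1) < l (f t) := hh t ht ht1 dt
        have a5 := mul_nonneg (sub_nonneg.2 hw.2) (sub_pos.2 a2).le
        rcases eq_or_lt_of_le hw.1 with h | h
        · rw [← h] at a1
          linarith
        · have a6 := mul_pos h (sub_pos.2 a3)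
          linarith
  · obtain ⟨r, hr, hb⟩ := Metric.isOpen_iff.1 hK.isOpen_compl _ hxK
    obtain ⟨η, hη, hh⟩ :=
      Metric.continuousWithinAt_iff.1 (hf x hx).continuousWithinAt r hr
    refine ⟨η, hη, fun s hs t ht _ ds dt w hw hm => ?_⟩
    exact absurd hm (hb ((convex_ball (f x) r).lineMap_mem (hh hs ds) (hh ht dt) hw))

/-- short chords of an arc meet the hull only at the allowed ends -/
theorem chord {f e : ℝ → P3} {K : Set P3} {P0 P1 : Prop} (hK : IsClosed K)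
    (hf : ∀ u ∈ Icc (0 : ℝ) 1, HasDerivWithinAt f (e u) (Icc 0 1) u)
    (h7 : ∀ u ∈ Icc (0 : ℝ) 1, f u ∈ K → (u = 0 ∧ P0) ∨ (u = 1 ∧ P1))
    (h0 : P0 → ∃ l : P3 →ₗ[ℝ] ℝ, 0 < l (e 0) ∧ ∀ z ∈ K, l z ≤ l (f 0))
    (h1 : P1 → ∃ l : P3 →ₗ[ℝ] ℝ, l (e 1) < 0 ∧ ∀ z ∈ K, l z ≤ l (f 1)) :
    ∃ δ : ℝ, 0 < δ ∧ ∀ s ∈ Icc (0 : ℝ) 1, ∀ t ∈ Icc (0 : ℝ) 1, s < t → t - s < δ →
      ∀ w ∈ Icc (0 : ℝ) 1, AffineMap.lineMap (f s) (f t) w ∈ K →
        (w = 0 ∧ s = 0 ∧ P0) ∨ (w = 1 ∧ t = 1 ∧ P1) := by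
  choose η hη hh using fun x : Icc (0 : ℝ) 1 => chord_loc hK hf h7 h0 h1 x.2
  obtain ⟨δ, hδ, hc⟩ := lebesgue_number_lemma_of_metric (s := Icc (0 : ℝ) 1)
    (c := fun x : Icc (0 : ℝ) 1 => Metric.ball (x : ℝ) (η x)) isCompact_Icc
    (fun _ => Metric.isOpen_ball)
    (fun x hx => mem_iUnion.2 ⟨⟨x, hx⟩, Metric.mem_ball_self (hη _)⟩)
  refine ⟨δ, hδ, fun s hs t ht hst hd => ?_⟩
  obtain ⟨x, hx⟩ := hc s hs
  refine hh x s hs t ht hst (hx (Metric.mem_ball_self hδ)) (hx ?_)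
  rw [Metric.mem_ball, Real.dist_eq, abs_of_pos (sub_pos.2 hst)]
  exact hd

theorem hull_le {A B C D : P3} (l : P3 →ₗ[ℝ] ℝ) {m : ℝ}
    (h : ∀ p ∈ ({A, B, C, D} : Set P3), l p ≤ m) :
    ∀ z ∈ convexHull ℝ ({A, B, C, D} : Set P3), l z ≤ m :=
  convexHull_min h (convex_halfSpace_le l.isLinear m)

theorem small {ι : Type} [Finite ι] (δ : ι → ℝ) (h : ∀ g, 0 < δ g) {x y : ℝ} (hx : 0 < x)
    (hy : 0 < y) : ∃ z : ℝ, 0 < z ∧ z ≤ x ∧ z ≤ y ∧ ∀ g, z < δ g := by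
  have h1 : ∀ᶠ z in 𝓝[>] (0 : ℝ), ∀ g, z ∈ Ioo 0 (δ g) :=
    eventually_all.2 fun g => Ioo_mem_nhdsGT (h g)
  obtain ⟨z, ⟨h2, h3⟩, h4⟩ := ((h1.and (Ioo_mem_nhdsGT hx)).and (Ioo_mem_nhdsGT hy)).exists
  exact ⟨z, h3.1, h3.2.le, h4.2.le, fun g => (h2 g).2⟩

end SadAux

theorem vk_saddle {T : ODTheory} (PT : PTheory T) {ι : Type} [Finite ι] (L L' : CPL ι)
    (d : ι → ℝ → P3) (a c : ι) (A B C D : P3) (pr : P3 →ₗ[ℝ] P3) (q : ℤ) (hL : L.EmbD d)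
    (hL' : L'.Emb) (hac : a ≠ c) (h1 : L'.σ a = L.σ c) (h2 : L'.σ c = L.σ a)
    (h3 : ∀ g, g ≠ a → g ≠ c → L'.σ g = L.σ g)
    (h4 : ∀ g, g ≠ a → g ≠ c → ∀ u ∈ Icc (0 : ℝ) 1, L'.c g u = L.c g u)
    (h5 : ∀ u ∈ Icc (0 : ℝ) 1, L.c a u = AffineMap.lineMap A B u ∧
      L.c c u = AffineMap.lineMap C D u ∧ L'.c a u = AffineMap.lineMap A D u ∧
      L'.c c u = AffineMap.lineMap C B u)
    (h6 : 0 < det2 (pr (B - A)) (pr (C - B)) ∧ 0 < det2 (pr (C - B)) (pr (D - C)) ∧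
      0 < det2 (pr (D - C)) (pr (A - D)) ∧ 0 < det2 (pr (A - D)) (pr (B - A)))
    (h7 : ∀ g, g ≠ a → g ≠ c → ∀ u ∈ Icc (0 : ℝ) 1, L.c g u ∈ convexHull ℝ {A, B, C, D} →
      (u = 0 ∧ (g = L.σ a ∨ g = L.σ c)) ∨ (u = 1 ∧ (L.σ g = a ∨ L.σ g = c)))
    (h8 : ∀ g, L.σ g = a ∨ L.σ g = c → ∃ l : P3 →ₗ[ℝ] ℝ, l (d g 1) < 0 ∧
      ∀ p ∈ ({A, B, C, D} : Set P3), l p ≤ l (L.c g 1))
    (h9 : ∀ g, g = L.σ a ∨ g = L.σ c → ∃ l : P3 →ₗ[ℝ] ℝ, 0 < l (d g 0) ∧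
      ∀ p ∈ ({A, B, C, D} : Set P3), l p ≤ l (L.c g 0))
    (hV : VK PT L q) : VK PT L' (q - 1) := by
  classical
  obtain ⟨ε1, e1, v1⟩ := vk_iff PT (L := L) ⟨d, hL⟩
  obtain ⟨ε2, e2, v2⟩ := vk_iff PT hL'
  obtain ⟨d', hd'⟩ := hL'
  obtain ⟨δ1, p1, i1⟩ := inscribed (Reg.of_embD hL) e1
  obtain ⟨δ2, p2, i2⟩ := inscribed (Reg.of_embD hd') e2
  have hK : IsClosed (convexHull ℝ ({A, B, C, D} : Set P3)) :=
    (Set.toFinite _).isClosed_convexHull ℝ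
  have hch : ∀ g, ∃ δ : ℝ, 0 < δ ∧ (g ≠ a → g ≠ c → ∀ s ∈ Icc (0 : ℝ) 1, ∀ t ∈ Icc (0 : ℝ) 1,
      s < t → t - s < δ → ∀ w ∈ Icc (0 : ℝ) 1,
        AffineMap.lineMap (L.c g s) (L.c g t) w ∈ convexHull ℝ ({A, B, C, D} : Set P3) →
        (w = 0 ∧ s = 0 ∧ (g = L.σ a ∨ g = L.σ c)) ∨
          (w = 1 ∧ t = 1 ∧ (L.σ g = a ∨ L.σ g = c))) := by
    intro g
    by_cases hg : g ≠ a ∧ g ≠ c
    · obtain ⟨δ, hδ, hh⟩ := SadAux.chord hK (fun u hu => (hL.1 g u hu).1) (h7 g hg.1 hg.2)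
        (fun hP => (h9 g hP).imp fun l hl => ⟨hl.1, SadAux.hull_le l hl.2⟩)
        (fun hP => (h8 g hP).imp fun l hl => ⟨hl.1, SadAux.hull_le l hl.2⟩)
      exact ⟨δ, hδ, fun _ _ => hh⟩
    · exact ⟨1, one_pos, fun ha hc => absurd ⟨ha, hc⟩ hg⟩
  choose δ3 p3 i3 using hch
  obtain ⟨δ, hδ, l1, l2, l3⟩ := SadAux.small δ3 p3 p1 p2
  obtain ⟨κ, hκ, τ, p, al, be, hP, hm, hS⟩ := part_mesh L.σ {a, c} hδ
  obtain ⟨ka, hka, -⟩ := hP.exists_first a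
  obtain ⟨kc, hkc, -⟩ := hP.exists_first c
  have sa := hS ka (by rw [hka]; simp)
  have sc := hS kc (by rw [hkc]; simp)
  have hne : p ka ≠ p kc := by rw [hka, hkc]; exact hac
  have hP' : Part L'.σ (τ * Equiv.swap ka kc) p al be :=
    hP.swap hne sa sc (by rw [hka, hkc, h1]) (by rw [hka, hkc, h2])
      fun g ha hc => h3 g (hka ▸ ha) (hkc ▸ hc)
  have z0 : (0 : ℝ) ∈ Icc (0 : ℝ) 1 := left_mem_Icc.2 zero_le_one
  have z1 : (1 : ℝ) ∈ Icc (0 : ℝ) 1 := right_mem_Icc.2 zero_le_one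
  have hal : ∀ k, al k ∈ Icc (0 : ℝ) 1 := fun k =>
    ⟨hP.a_nonneg k, (hP.lt k).le.trans (hP.b_le k)⟩
  have hbe : ∀ k, be k ∈ Icc (0 : ℝ) 1 := fun k =>
    ⟨(hP.a_nonneg k).trans (hP.lt k).le, hP.b_le k⟩
  have hcase : ∀ k, (p k ≠ a ∧ p k ≠ c ∧ be k - al k ≤ δ) ∨ (p k = a ∧ al k = 0) ∨
      (p k = c ∧ al k = 0) := by
    intro k
    by_cases ha : p k = a
    · exact Or.inr (Or.inl ⟨ha, (hS k (by rw [ha]; simp)).1⟩)
    · by_cases hc : p k = c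
      · exact Or.inr (Or.inr ⟨hc, (hS k (by rw [hc]; simp)).1⟩)
      · exact Or.inl ⟨ha, hc, hm k (by simp [ha, hc])⟩
  have n1 := i1 κ τ p al be hP fun k => by
    rcases hcase k with ⟨-, -, h⟩ | ⟨h, -⟩ | ⟨h, -⟩
    · exact Or.inl (h.trans l1)
    · exact Or.inr ⟨A, B, fun u hu => h ▸ (h5 u hu).1⟩
    · exact Or.inr ⟨C, D, fun u hu => h ▸ (h5 u hu).2.1⟩
  have n2 := i2 κ _ p al be hP' fun k => by
    rcases hcase k with ⟨-, -, h⟩ | ⟨h, -⟩ | ⟨h, -⟩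
    · exact Or.inl (h.trans l2)
    · exact Or.inr ⟨A, D, fun u hu => h ▸ (h5 u hu).2.2.1⟩
    · exact Or.inr ⟨C, B, fun u hu => h ▸ (h5 u hu).2.2.2⟩
  set P : PG κ := ⟨τ, fun k => L.c (p k) (al k)⟩ with hPd
  set P' : PG κ := ⟨τ * Equiv.swap ka kc, fun k => L'.c (p k) (al k)⟩ with hPd'
  obtain ⟨em1, w1⟩ := v1 κ P ⟨p, al, be, hP, n1⟩
  obtain ⟨em2, w2⟩ := v2 κ P' ⟨p, al, be, hP', n2⟩
  have nx : ∀ k, P.pos (P.σ k) = L.c (p k) (be k) := fun k => hP.next_eq hL.2.2.1 k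
  have qA : P.pos ka = A := by
    change L.c (p ka) (al ka) = A
    rw [hka, sa.1, (h5 0 z0).1, AffineMap.lineMap_apply_zero]
  have qB : P.pos (P.σ ka) = B := by
    rw [nx, hka, sa.2, (h5 1 z1).1, AffineMap.lineMap_apply_one]
  have qC : P.pos kc = C := by
    change L.c (p kc) (al kc) = C
    rw [hkc, sc.1, (h5 0 z0).2.1, AffineMap.lineMap_apply_zero]
  have qD : P.pos (P.σ kc) = D := by
    rw [nx, hkc, sc.2, (h5 1 z1).2.1, AffineMap.lineMap_apply_one]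
  have hw : Swp P P' ka kc := by
    refine ⟨fun h => hne (by rw [h]), funext fun k => ?_, ?_, ?_, fun g ha hc => ?_⟩
    · change L'.c (p k) (al k) = L.c (p k) (al k)
      rcases hcase k with ⟨ha, hc, -⟩ | ⟨h, h'⟩ | ⟨h, h'⟩
      · exact h4 _ ha hc _ (hal k)
      · rw [h, h', (h5 0 z0).1, (h5 0 z0).2.2.1, AffineMap.lineMap_apply_zero,
          AffineMap.lineMap_apply_zero]
      · rw [h, h', (h5 0 z0).2.1, (h5 0 z0).2.2.2, AffineMap.lineMap_apply_zero,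
          AffineMap.lineMap_apply_zero]
    · change τ (Equiv.swap ka kc ka) = τ kc
      rw [Equiv.swap_apply_left]
    · change τ (Equiv.swap ka kc kc) = τ ka
      rw [Equiv.swap_apply_right]
    · change τ (Equiv.swap ka kc g) = τ g
      rw [Equiv.swap_apply_of_ne_of_ne ha hc]
  have he : Emp P ka kc := by
    intro k ha hc w hw' hmem
    rcases hcase k with ⟨ga, gc, hd⟩ | ⟨h, h'⟩ | ⟨h, h'⟩
    · have hm' : AffineMap.lineMap (L.c (p k) (al k)) (L.c (p k) (be k)) w ∈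
          convexHull ℝ ({A, B, C, D} : Set P3) := by
        unfold hullP PG.pt at hmem
        rw [qA, qB, qC, qD, nx] at hmem
        exact hmem
      have la := hP.last ka sa.2
      have lc := hP.last kc sc.2
      rcases i3 (p k) ga gc _ (hal k) _ (hbe k) (hP.lt k) (hd.trans_lt (l3 _)) w hw' hm' with
        ⟨x1, x2, x3⟩ | ⟨x1, x2, x3⟩
      · refine Or.inl ⟨x1, x3.imp (fun h => ?_) fun h => ?_⟩
        · exact hP.inj (by rw [h, ← hka]; exact la.1.symm) (x2.trans la.2.symm)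
        · exact hP.inj (by rw [h, ← hkc]; exact lc.1.symm) (x2.trans lc.2.symm)
      · have lk := hP.last k x2
        refine Or.inr ⟨x1, x3.imp (fun h => ?_) fun h => ?_⟩
        · exact hP.inj (lk.1.trans (h.trans hka.symm)) (lk.2.trans sa.1.symm)
        · exact hP.inj (lk.1.trans (h.trans hkc.symm)) (lk.2.trans sc.1.symm)
    · exact absurd (hP.inj (h.trans hka.symm) (h'.trans sa.1.symm)) ha
    · exact absurd (hP.inj (h.trans hkc.symm) (h'.trans sc.1.symm)) hc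
  refine (w2 _).2 (psaddle PT pr em1 em2 hw ?_ he q ((w1 q).1 hV))
  rw [qA, qB, qC, qD]
  exact h6


end K2

end Pool.Agent.Lib.MP_4d7d0a_gt
end
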