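import Pool.Agent.Lib.MP_4d7d0a_gt.AHp
import Pool.Agent.Lib.MP_4d7d0a_gt.DIso
import Pool.Agent.Lib.MP_4d7d0a_gt.K2Gr
import Pool.Agent.Lib.MP_4d7d0a_gt.K2Lay
import Pool.Agent.Lib.MP_4d7d0a_gt.K2LkH
import Pool.Agent.Lib.MP_4d7d0a_gt.K1H
import Pool.Agent.Lib.MP_4d7d0a_gt.K2Sad

-- part Pool.Agent.Lib.MP_4d7d0a_gt.ASurg
section

/-! Existence of the surgered manifold. -/

set_option autoImplicit false

open Set Filter Topology
open scoped ContDiff

namespace Pool.Agent.Lib.MP_4d7d0a_gt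

namespace ASurg

/-- the normal part as a complex number -/
def cx (p : P3) : ℂ := ⟨p.2.1, p.2.2⟩

/-- the angle about the axis -/
noncomputable def ag (p : P3) : ℝ := Complex.arg (cx p)

/-- the twist, for a choice `θ` of the angle -/
noncomputable def tw (A B : ℝ → ℝ) (θ : ℝ) (p : P3) : P3 :=
  (p.1 + A θ, Real.exp (B θ) * p.2.1, Real.exp (B θ) * p.2.2)

/-- `θ` is an angle of `p` -/
def IsAng (θ : ℝ) (p : P3) : Prop := ∃ ρ : ℝ, 0 < ρ ∧ p.2.1 = ρ * Real.cos θ ∧ p.2.2 = ρ * Real.sin θ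

theorem cx_ne {p : P3} (h : p.2 ≠ 0) : cx p ≠ 0 := fun e =>
  h (Prod.ext (congrArg Complex.re e) (congrArg Complex.im e))

theorem contDiff_cx : ContDiff ℝ ∞ cx := by
  have : cx = fun p : P3 => Complex.equivRealProdCLM.symm p.2 := by
    funext p
    apply Complex.ext <;> simp [cx]
  rw [this]
  exact Complex.equivRealProdCLM.symm.contDiff.comp contDiff_snd

theorem ang_ag {p : P3} (h : p.2 ≠ 0) : IsAng (ag p) p :=
  ⟨‖cx p‖, norm_pos_iff.2 (cx_ne h), (Complex.norm_mul_cos_arg (cx p)).symm,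
    (Complex.norm_mul_sin_arg (cx p)).symm⟩

theorem IsAng.ne {θ : ℝ} {p : P3} (h : IsAng θ p) : p.2 ≠ 0 := by
  obtain ⟨ρ, h0, h1, h2⟩ := h
  intro e
  rw [e] at h1 h2
  have a1 : Real.cos θ = 0 := (mul_eq_zero.1 h1.symm).resolve_left h0.ne'
  have a2 : Real.sin θ = 0 := (mul_eq_zero.1 h2.symm).resolve_left h0.ne'
  have := Real.cos_sq_add_sin_sq θ
  rw [a1, a2] at this
  norm_num at this

theorem IsAng.eq {θ θ' : ℝ} {p : P3} (h : IsAng θ p) (h' : IsAng θ' p) :
    ∃ k : ℤ, θ = θ' + k * (2 * Real.pi) := by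
  obtain ⟨ρ, h0, h1, h2⟩ := h
  obtain ⟨ρ', g0, g1, g2⟩ := h'
  have e : ρ = ρ' := by
    refine (sq_eq_sq₀ h0.le g0.le).1 ?_
    have a1 := Real.cos_sq_add_sin_sq θ
    have a2 := Real.cos_sq_add_sin_sq θ'
    have a3 : (ρ * Real.cos θ) ^ 2 + (ρ * Real.sin θ) ^ 2 =
        (ρ' * Real.cos θ') ^ 2 + (ρ' * Real.sin θ') ^ 2 := by rw [← h1, ← h2, ← g1, ← g2]
    linear_combination a3 - ρ ^ 2 * a1 + ρ' ^ 2 * a2
  subst e
  obtain ⟨k, hk⟩ := Real.Angle.angle_eq_iff_two_pi_dvd_sub.1 (Real.Angle.cos_sin_inj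
    (mul_left_cancel₀ h0.ne' (h1.symm.trans g1)) (mul_left_cancel₀ h0.ne' (h2.symm.trans g2)))
  exact ⟨k, by linarith⟩

theorem arg_smooth {w : ℂ} (h : w ∈ Complex.slitPlane) : ContDiffAt ℝ ∞ Complex.arg w := by
  have e : Complex.arg = fun z => Complex.imCLM (Complex.log z) := by
    funext z; exact (Complex.log_im z).symm
  rw [e]
  exact Complex.imCLM.contDiff.contDiffAt.comp w
    ((Complex.contDiffAt_log h (n := ∞)).restrict_scalars ℝ)

theorem ev_off {p : P3} (h : p.2 ≠ 0) : ∀ᶠ q : P3 in 𝓝 p, q.2 ≠ 0 :=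
  continuous_snd.continuousAt.eventually_ne h

theorem branch {p : P3} (h : p.2 ≠ 0) :
    ∃ θ : P3 → ℝ, ContDiffAt ℝ ∞ θ p ∧ ∀ᶠ q in 𝓝 p, IsAng (θ q) q := by
  rcases Complex.mem_slitPlane_or_neg_mem_slitPlane (cx_ne h) with h1 | h1
  · exact ⟨ag, (arg_smooth h1).comp p contDiff_cx.contDiffAt, (ev_off h).mono fun q => ang_ag⟩
  · refine ⟨fun q => Complex.arg (-cx q) + Real.pi,
      ((arg_smooth h1).comp p contDiff_cx.neg.contDiffAt).add contDiffAt_const,
      (ev_off h).mono fun q hq => ⟨‖-cx q‖, norm_pos_iff.2 (neg_ne_zero.2 (cx_ne hq)), ?_, ?_⟩⟩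
    · rw [Real.cos_add_pi, mul_neg, Complex.norm_mul_cos_arg]; simp [cx]
    · rw [Real.sin_add_pi, mul_neg, Complex.norm_mul_sin_arg]; simp [cx]

theorem tw_contact {A B : ℝ → ℝ} (hA : ContDiff ℝ ∞ A) (hB : ContDiff ℝ ∞ B)
    (hAB : ∀ a, Real.sin a * deriv B a = Real.cos a * deriv A a) {θ : P3 → ℝ} {p : P3}
    (hθ : ContDiffAt ℝ ∞ θ p) (h : IsAng (θ p) p) : ContactAt (fun q => tw A B (θ q) q) p := by
  have s1 : ContDiffAt ℝ ∞ (fun q => A (θ q)) p := hA.contDiffAt.comp p hθ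
  have s2 : ContDiffAt ℝ ∞ (fun q => Real.exp (B (θ q))) p := (hB.contDiffAt.comp p hθ).exp
  have t1 : ContDiffAt ℝ ∞ (fun q : P3 => q.1 + A (θ q)) p := contDiffAt_fst.add s1
  have t2 : ContDiffAt ℝ ∞ (fun q : P3 => Real.exp (B (θ q)) * q.2.1) p :=
    s2.mul contDiffAt_snd.fst
  have t3 : ContDiffAt ℝ ∞ (fun q : P3 => Real.exp (B (θ q)) * q.2.2) p :=
    s2.mul contDiffAt_snd.snd
  refine ⟨t1.prodMk (t2.prodMk t3), Real.exp (B (θ p)), Real.exp_pos _, fun v => ?_⟩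
  have d0 := locA_hasFDerivAt hθ
  have d1 := (hasFDerivAt_fst (p := p)).add
    (((contDiff_infty_iff_deriv.1 hA).1 (θ p)).hasDerivAt.comp_hasFDerivAt p d0)
  have d2 := locA_hasFDerivAt t2
  have d3 := ((((contDiff_infty_iff_deriv.1 hB).1 (θ p)).hasDerivAt.comp_hasFDerivAt p d0).exp).mul
    (hasFDerivAt_snd (p := p)).snd
  have d4 : HasFDerivAt (fun q => tw A B (θ q) q) _ p := d1.prodMk (d2.prodMk d3)
  rw [d4.fderiv]
  obtain ⟨ρ, -, h1, h2⟩ := h
  have e : p.2.2 * deriv B (θ p) = p.2.1 * deriv A (θ p) := by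
    rw [h1, h2, mul_assoc, hAB, mul_assoc]
  simp only [al, tw, ContinuousLinearMap.prod_apply, add_apply, smul_apply,
    ContinuousLinearMap.coe_fst', ContinuousLinearMap.comp_apply, ContinuousLinearMap.coe_snd',
    smul_eq_mul, Function.comp_apply]
  linear_combination Real.exp (B (θ p)) * fderiv ℝ θ p v * e

theorem tw_per {nu : P3 → P3} (ht : ∀ p : P3, nu (p.1 + 1, p.2) = nu p) {A B : ℝ → ℝ}
    (hAp : ∀ a, A (a + 2 * Real.pi) = A a + 1) (hBp : ∀ a, B (a + 2 * Real.pi) = B a)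
    {θ θ' : ℝ} {p : P3} (h : IsAng θ p) (h' : IsAng θ' p) :
    nu (tw A B θ p) = nu (tw A B θ' p) := by
  obtain ⟨k, rfl⟩ := h.eq h'
  have pi0 := Real.pi_pos
  have a1 : Function.Periodic (fun a => A a - a / (2 * Real.pi)) (2 * Real.pi) := fun a => by
    simp only [hAp]; field_simp; ring
  have a2 : A (θ' + k * (2 * Real.pi)) = A θ' + k := by
    have := a1.int_mul k θ'
    have e : (θ' + k * (2 * Real.pi)) / (2 * Real.pi) = θ' / (2 * Real.pi) + k := by
      field_simp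
    simp only [e] at this
    linarith
  have a3 : B (θ' + k * (2 * Real.pi)) = B θ' := Function.Periodic.int_mul hBp k θ'
  rw [← amb_aux_per ht k (tw A B θ' p)]
  simp only [tw, a2, a3, add_assoc]

theorem tw_mem {A B : ℝ → ℝ} {m : ℝ} (hm : ∀ a, B a ≤ m) {ρ : ℝ} (θ : ℝ) {p : P3}
    (hp : p ∈ tube (ρ * Real.exp (-m))) : tw A B θ p ∈ tube ρ := by
  have a1 : p.2.1 ^ 2 + p.2.2 ^ 2 < (ρ * Real.exp (-m)) ^ 2 := hp
  show (Real.exp (B θ) * p.2.1) ^ 2 + (Real.exp (B θ) * p.2.2) ^ 2 < ρ ^ 2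
  have a2 : Real.exp (B θ) * Real.exp (-m) ≤ 1 := by
    rw [← Real.exp_add]; exact Real.exp_le_one_iff.2 (by linarith [hm θ])
  have a3 : (Real.exp (B θ) * Real.exp (-m)) ^ 2 ≤ 1 := pow_le_one₀ (by positivity) a2
  have a4 := mul_lt_mul_of_pos_left a1 (show 0 < Real.exp (B θ) ^ 2 by positivity)
  have a5 := mul_le_mul_of_nonneg_left a3 (sq_nonneg ρ)
  nlinarith

theorem tw_inj {A B : ℝ → ℝ} {p q : P3} (h : (tw A B (ag p) p).2 = (tw A B (ag q) q).2) :
    p.2 = q.2 ∧ ag p = ag q := by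
  have h1 : Real.exp (B (ag p)) * p.2.1 = Real.exp (B (ag q)) * q.2.1 := (Prod.ext_iff.1 h).1
  have h2 : Real.exp (B (ag p)) * p.2.2 = Real.exp (B (ag q)) * q.2.2 := (Prod.ext_iff.1 h).2
  have h3 : (Real.exp (B (ag p)) : ℂ) * cx p = Real.exp (B (ag q)) * cx q := by
    apply Complex.ext
    · simpa only [Complex.re_ofReal_mul, cx] using h1
    · simpa only [Complex.im_ofReal_mul, cx] using h2
  have h4 : ag p = ag q := by
    have := congrArg Complex.arg h3
    rwa [Complex.arg_real_mul _ (Real.exp_pos _), Complex.arg_real_mul _ (Real.exp_pos _)] at this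
  rw [h4] at h1 h2
  exact ⟨Prod.ext (mul_left_cancel₀ (Real.exp_pos _).ne' h1)
    (mul_left_cancel₀ (Real.exp_pos _).ne' h2), h4⟩

theorem tw_axis (A B : ℝ → ℝ) (x : ℝ) : tw A B (ag (x, 0, 0)) (x, 0, 0) = (x + A 0, 0, 0) := by
  have : ag (x, 0, 0) = 0 := Complex.arg_zero
  simp [tw, this]

theorem ct4_neg {f : P3 → P4} {p : P3} (h : ContactAt4 f p) : ContactAt4 (fun q => -f q) p := by
  obtain ⟨h1, c, h2, h3⟩ := h
  refine ⟨h1.neg, c, h2, fun v => ?_⟩
  rw [fderiv_fun_neg, ← h3]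
  simp [lam]

theorem trans_aux {f f' : P3 → P4} {p q : P3} (hS : ∀ w, f w ∈ S3) (hS' : ∀ w, f' w ∈ S3)
    (hf : ContactAt4 f p) (hf' : ∀ᶠ w in 𝓝 q, ContactAt4 f' w) (e : f p = f' q)
    (hp : f p ≠ pole) : ∃ g : P3 → P3, g p = q ∧ ContactAt g p ∧ ∀ᶠ w in 𝓝 p, f' (g w) = f w := by
  have n1 : ∀ᶠ w in 𝓝 p, f w ≠ pole := hf.1.continuousAt.eventually_ne hp
  have n2 : ∀ᶠ w in 𝓝 q, f' w ≠ pole := hf'.self_of_nhds.1.continuousAt.eventually_ne (e ▸ hp)
  have c1 : ContactAt (fun w => cai (f w)) p := hf.cai (.of_forall hS) hp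
  obtain ⟨g, g1, g2, g3⟩ := exists_contact_inv (f := fun w => cai (f' w)) (p := q) (by
    filter_upwards [hf', n2] with w h1 h2
    exact h1.cai (.of_forall hS') h2)
  rw [← e] at g1 g3
  have c2 : ContactAt (fun w => g (cai (f w))) p := ContactAt.comp (g := g) g1.self_of_nhds c1
  have e2 : g (cai (f p)) = q := by rw [e]; exact g2.self_of_nhds
  refine ⟨fun w => g (cai (f w)), e2, c2, ?_⟩
  have t1 : Tendsto (fun w => g (cai (f w))) (𝓝 p) (𝓝 q) := e2 ▸ c2.1.continuousAt.tendsto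
  filter_upwards [n1, t1.eventually n2, c1.1.continuousAt.tendsto.eventually g3] with w h1 h2 h3
  rw [← cay_cai (hS' _) h2, h3, cay_cai (hS w) h1]

theorem trans4 {f f' : P3 → P4} {p q : P3} (hS : ∀ w, f w ∈ S3) (hS' : ∀ w, f' w ∈ S3)
    (hf : ContactAt4 f p) (hf' : ∀ᶠ w in 𝓝 q, ContactAt4 f' w) (e : f p = f' q) :
    ∃ g : P3 → P3, g p = q ∧ ContactAt g p ∧ ∀ᶠ w in 𝓝 p, f' (g w) = f w := by
  by_cases hp : f p = pole
  · obtain ⟨g, g1, g2, g3⟩ := trans_aux (f := fun w => -f w) (f' := fun w => -f' w)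
      (fun w => neg_mem_S3 (hS w)) (fun w => neg_mem_S3 (hS' w)) (ct4_neg hf)
      (hf'.mono fun w => ct4_neg) (congrArg Neg.neg e) (by
        rw [hp]
        intro h
        have := congrArg (fun a : P4 => a.2.2.1) h
        norm_num [pole] at this)
    exact ⟨g, g1, g2, g3.mono fun w h => neg_injective h⟩
  · exact trans_aux hS hS' hf hf' e hp

theorem ct_shift (c : ℝ) (p : P3) : ContactAt (fun q : P3 => ((q.1 - c, q.2) : P3)) p := by
  have d : HasFDerivAt (fun q : P3 => ((q.1 - c, q.2) : P3)) _ p :=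
    ((hasFDerivAt_fst (𝕜 := ℝ) (p := p)).sub_const c).prodMk (hasFDerivAt_snd (𝕜 := ℝ) (p := p))
  refine ⟨by fun_prop, 1, one_pos, fun v => ?_⟩
  rw [d.fderiv]
  simp [al]

/-- points of the sphere, without a topology -/
structure SX where
  val : P4
  mem : val ∈ S3

theorem SX.ext' {a b : SX} (h : a.val = b.val) : a = b := by
  cases a; cases b; simpa using h

/-- the three kinds of parametrisations -/
noncomputable def fm (N : P3 → P3) : Bool ⊕ ℝ → P3 → P4
  | .inl true => cay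
  | .inl false => fun p => -cay p
  | .inr _ => fun p => cay (N p)

theorem fm_mem (N : P3 → P3) : ∀ i p, fm N i p ∈ S3
  | .inl true, p => cay_mem p
  | .inl false, p => neg_mem_S3 (cay_mem p)
  | .inr _, p => cay_mem (N p)

/-- their domains -/
def dm (C : Set P4) (ρ : ℝ) : Bool ⊕ ℝ → Set P3
  | .inl true => {p | cay p ∉ C}
  | .inl false => {p | -cay p ∉ C}
  | .inr c => {p | p.1 ∈ Ioo c (c + 1 / 2)} ∩ tube ρ

theorem glue {K : ℝ → P3} (hK : IsLeg3 K) {N : P3 → P3} {ρ a : ℝ} (hρ : 0 < ρ)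
    (ht : TubeMap N ρ) (hc : ∀ p ∈ tube ρ, p.2 ≠ 0 → ContactAt N p)
    (h0 : ∀ x, N (x, 0, 0) = K (x + a))
    (hU : ∀ U : Set P3, IsOpen U → range K ⊆ U → ∃ δ : ℝ, 0 < δ ∧ ∀ p ∈ tube δ, N p ∈ U) :
    ∃ (_ : TopologicalSpace SX) (_ : ChartedSpace P3 SX), T2Space SX ∧ IsContactAtlas SX ∧
      (∀ p ∈ tube ρ, CtInto (fun q => (⟨cay (N q), cay_mem _⟩ : SX)) p) ∧
      (∀ p ∉ range K, CtInto (fun q => (⟨cay q, cay_mem _⟩ : SX)) p) ∧
      ∀ m : SX, (m.val ∉ range fun t => cay (K t)) →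
        ContactAt4 (fun p => ((chartAt P3 m).symm p).val) (chartAt P3 m m) := by
  set C : Set P4 := range fun t => cay (K t) with hC
  have eC : C = cay '' range K := by rw [hC, ← range_comp]; rfl
  have cC : IsCompact C := eC ▸ hK.isCompact.image contDiff_cay.continuous
  have mC : ∀ p, cay p ∈ C ↔ p ∈ range K := fun p => by rw [eC]; exact cay_inj.mem_set_image
  have hO : ∀ i, IsOpen (dm C ρ i) := by
    rintro ((_ | _) | c)
    · exact cC.isClosed.isOpen_compl.preimage contDiff_cay.continuous.neg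
    · exact cC.isClosed.isOpen_compl.preimage contDiff_cay.continuous
    · exact (isOpen_Ioo.preimage continuous_fst).inter (isOpen_tube ρ)
  have ax : ∀ p ∈ tube ρ, cay (N p) ∈ C → p.2 = 0 := by
    intro p hp h
    obtain ⟨t, ht'⟩ := (mC _).1 h
    have e : N p = N (t - a, 0, 0) := by rw [h0, sub_add_cancel, ht']
    exact (ht.2 p hp _ (loc_aux_core hρ _) e).1
  have core : ∀ i, ∀ p ∈ dm C ρ i, fm N i p ∈ C → (∃ c, i = .inr c) ∧ p.2 = 0 := by
    rintro ((_ | _) | c) p hp h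
    · exact absurd h hp
    · exact absurd h hp
    · exact ⟨⟨c, rfl⟩, ax p hp.2 h⟩
  have good : ∀ i, ∀ p ∈ dm C ρ i, fm N i p ∉ C → ∀ᶠ q in 𝓝 p, ContactAt4 (fm N i) q := by
    rintro ((_ | _) | c) p hp h
    · exact .of_forall contactAt4_neg_cay
    · exact .of_forall contactAt4_cay
    · have h1 : p.2 ≠ 0 := fun e => h ((mC _).2 ⟨p.1 + a, by
        rw [← h0]; exact congrArg N (Prod.ext rfl e.symm)⟩)
      filter_upwards [ev_off h1, (isOpen_tube ρ).mem_nhds hp.2] with q q1 q2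
      exact (contactAt4_cay _).comp (hc q q2 q1)
  have sep : ∀ i j, ∀ p ∈ dm C ρ i, ∀ q ∈ dm C ρ j, fm N i p ∈ C → fm N j q ∉ C →
      ∃ U V : Set P4, Disjoint U V ∧ (∀ᶠ w in 𝓝 p, fm N i w ∈ U) ∧ ∀ᶠ w in 𝓝 q, fm N j w ∈ V := by
    intro i j p hp q hq h1 h2
    obtain ⟨U, V, u1, u2, u3, u4, u5⟩ := cC.separation_of_notMem h2
    obtain ⟨⟨c, rfl⟩, h3⟩ := core i p hp h1
    obtain ⟨δ, d0, d1⟩ := hU (cay ⁻¹' U) (u1.preimage contDiff_cay.continuous)
      fun x hx => u3 ((mC x).2 hx)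
    refine ⟨U, V, u5, ?_, (good j q hq h2).self_of_nhds.1.continuousAt.preimage_mem_nhds
      (u2.mem_nhds u4)⟩
    have h4 : p ∈ tube δ := by
      have : p = (p.1, 0, 0) := Prod.ext rfl h3
      rw [this]; exact loc_aux_core d0 _
    filter_upwards [(isOpen_tube δ).mem_nhds h4] with w hw
    exact d1 w hw
  have cov : ∀ x : SX, ∃ i, ∃ p ∈ dm C ρ i, (⟨fm N i p, fm_mem N i p⟩ : SX) = x := by
    intro x
    by_cases h1 : x.val ∈ C
    · obtain ⟨t, h2⟩ := h1
      refine ⟨.inr (t - a - 1 / 4), (t - a, 0, 0), ⟨⟨by linarith, by linarith⟩,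
        loc_aux_core hρ _⟩, SX.ext' ?_⟩
      show cay (N (t - a, 0, 0)) = x.val
      rw [h0, sub_add_cancel]; exact h2
    by_cases h2 : x.val = pole
    · refine ⟨.inl false, 0, ?_, SX.ext' (neg_cay_zero.trans h2.symm)⟩
      show -cay 0 ∉ C
      rwa [neg_cay_zero, ← h2]
    · refine ⟨.inl true, cai x.val, ?_, SX.ext' (cay_cai x.mem h2)⟩
      show cay (cai x.val) ∉ C
      rwa [cay_cai x.mem h2]
  refine (exists_glue (dm C ρ) (fun i p => (⟨fm N i p, fm_mem N i p⟩ : SX))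
    hO ?_ cov ?_ ?_).imp fun τ hτ => hτ.imp fun ch hch => ?_
  rotate_left 3
  · obtain ⟨t2, hA, hφ⟩ := hch
    refine ⟨t2, hA, fun p hp => hφ (.inr (p.1 - 1 / 4)) p ⟨⟨by linarith, by linarith⟩, hp⟩,
      fun p hp => hφ (.inl true) p (mt (mC p).1 hp), fun m hm => ?_⟩
    obtain ⟨i, p, hp, rfl⟩ := cov m
    exact ct4_of_param hA (G := SX.val) (F := fun p => (⟨fm N i p, fm_mem N i p⟩ : SX))
      (mem_of_superset ((hO i).mem_nhds hp) fun q hq => hφ i q hq) (good i p hp hm).self_of_nhds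
  · rintro ((_ | _) | c) p hp q hq e
    · exact cay_inj (neg_injective (congrArg SX.val e))
    · exact cay_inj (congrArg SX.val e)
    · obtain ⟨a1, k, a2⟩ := ht.2 p hp.2 q hq.2 (cay_inj (congrArg SX.val e))
      have b1 : (k : ℝ) < (1 : ℤ) := by push_cast; linarith [hp.1.2, hq.1.1]
      have b2 : ((-1 : ℤ) : ℝ) < k := by push_cast; linarith [hp.1.1, hq.1.2]
      have b3 := Int.cast_lt.1 b1
      have b4 := Int.cast_lt.1 b2
      have b5 : k = 0 := by omega
      exact Prod.ext (by rw [a2, b5]; simp) a1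
  · intro i j p hp q hq e
    have e' : fm N i p = fm N j q := congrArg SX.val e
    by_cases h : fm N i p ∈ C
    · obtain ⟨⟨c, rfl⟩, -⟩ := core i p hp h
      obtain ⟨⟨c', rfl⟩, -⟩ := core j q hq (e' ▸ h)
      obtain ⟨a1, k, a2⟩ := ht.2 p hp.2 q hq.2 (cay_inj e')
      refine ⟨fun w => (w.1 - k, w.2), Prod.ext (by simp [a2]) a1, ct_shift _ _,
        .of_forall fun w => SX.ext' (congrArg cay ?_)⟩
      have := amb_aux_per ht.1 k (w.1 - k, w.2)
      rw [← this]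
      simp
    · obtain ⟨g, g1, g2, g3⟩ := trans4 (fm_mem N i) (fm_mem N j) (good i p hp h).self_of_nhds
        (good j q hq (e' ▸ h)) e'
      exact ⟨g, g1, g2, g3.mono fun w hw => SX.ext' hw⟩
  · intro i j p hp q hq e
    have e' : fm N i p ≠ fm N j q := fun h => e (SX.ext' h)
    suffices h : ∀ᶠ a : P3 × P3 in 𝓝 (p, q), fm N i a.1 ≠ fm N j a.2 from
      h.mono fun a ha h => ha (congrArg SX.val h)
    by_cases h1 : fm N i p ∈ C <;> by_cases h2 : fm N j q ∈ C
    · obtain ⟨⟨c, rfl⟩, a1⟩ := core i p hp h1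
      obtain ⟨⟨c', rfl⟩, a2⟩ := core j q hq h2
      have a3 : p.1 - q.1 ∉ range ((↑) : ℤ → ℝ) := by
        rintro ⟨k, hk⟩
        apply e'
        refine congrArg cay ?_
        rw [← amb_aux_per ht.1 k q]
        exact congrArg N (Prod.ext (by simp [hk]) (a1.trans a2.symm))
      have a4 : ∀ᶠ a : P3 × P3 in 𝓝 (p, q), a.1.1 - a.2.1 ∉ range ((↑) : ℤ → ℝ) :=
        (show ContinuousAt (fun a : P3 × P3 => a.1.1 - a.2.1) (p, q) by fun_prop).preimage_mem_nhds
          (Int.isClosedEmbedding_coe_real.isClosed_range.isOpen_compl.mem_nhds a3)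
      filter_upwards [a4, prod_mem_nhds ((isOpen_tube ρ).mem_nhds hp.2)
        ((isOpen_tube ρ).mem_nhds hq.2)] with w w1 w2 h
      obtain ⟨-, k, hk⟩ := ht.2 _ w2.1 _ w2.2 (cay_inj h)
      exact w1 ⟨k, by linarith⟩
    · obtain ⟨U, V, u1, u2, u3⟩ := sep i j p hp q hq h1 h2
      filter_upwards [prod_mem_nhds u2 u3] with w hw h
      exact disjoint_left.1 u1 hw.1 (h ▸ hw.2)
    · obtain ⟨U, V, u1, u2, u3⟩ := sep j i q hq p hp h2 h1
      filter_upwards [prod_mem_nhds u3 u2] with w hw h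
      exact disjoint_left.1 u1 hw.2 (h ▸ hw.1)
    · have c1 := (good i p hp h1).self_of_nhds.1.continuousAt
      have c2 := (good j q hq h2).self_of_nhds.1.continuousAt
      have c3 : ContinuousAt (fun a : P3 × P3 => fm N i a.1 - fm N j a.2) (p, q) :=
        (c1.comp continuousAt_fst).sub (ContinuousAt.comp (f := Prod.snd) c2 continuousAt_snd)
      exact (c3.eventually_ne (sub_ne_zero.2 e')).mono fun a ha => sub_ne_zero.1 ha

end ASurg

open ASurg in
theorem exists_surgery {K : ℝ → P3} (hK : IsLeg3 K) {nu : P3 → P3} {r : ℝ} (hr : 0 < r)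
    (ht : TubeMap nu r) (hc : ∀ p ∈ tube r, ContactAt nu p) (h0 : ∀ x, nu (x, 0, 0) = K x)
    {A B : ℝ → ℝ} (hA : ContDiff ℝ ∞ A) (hB : ContDiff ℝ ∞ B)
    (hAp : ∀ a, A (a + 2 * Real.pi) = A a + 1) (hBp : ∀ a, B (a + 2 * Real.pi) = B a)
    (hAB : ∀ a, Real.sin a * deriv B a = Real.cos a * deriv A a) :
    ∃ (M : Type) (_ : TopologicalSpace M) (_ : ChartedSpace P3 M), T2Space M ∧ IsContactAtlas M ∧
      ∃ sd : SD K M, sd.nu = nu ∧ sd.r ≤ r ∧ sd.A = A ∧ sd.B = B := by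
  obtain ⟨m, hm⟩ := (Function.Periodic.isBounded_of_continuous hBp Real.two_pi_pos.ne'
    hB.continuous).exists_norm_le
  have m0 : 0 ≤ m := (norm_nonneg _).trans (hm _ ⟨0, rfl⟩)
  have hm' : ∀ a, B a ≤ m := fun a => (le_abs_self _).trans (hm _ ⟨a, rfl⟩)
  have e1 : Real.exp (-m) ≤ 1 := Real.exp_le_one_iff.2 (by linarith)
  have e0 : 0 < Real.exp (-m) := Real.exp_pos _
  set ρ : ℝ := r * Real.exp (-m) with hρ
  have ρ0 : 0 < ρ := mul_pos hr e0
  have ρr : ρ ≤ r := mul_le_of_le_one_right hr.le e1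
  set N : P3 → P3 := fun p => nu (tw A B (ag p) p) with hN
  have tN : TubeMap N ρ := by
    refine ⟨fun p => ?_, fun p hp q hq e => ?_⟩
    · rw [hN]
      dsimp only
      rw [← ht.1 (tw A B (ag p) p)]
      exact congrArg nu (Prod.ext (add_right_comm _ _ _) rfl)
    · obtain ⟨a1, k, a2⟩ := ht.2 _ (tw_mem hm' _ hp) _ (tw_mem hm' _ hq) e
      obtain ⟨a3, a4⟩ := tw_inj a1
      refine ⟨a3, k, ?_⟩
      simp only [tw, a4] at a2
      linarith
  have cN : ∀ p ∈ tube ρ, p.2 ≠ 0 → ContactAt N p := by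
    intro p hp h
    obtain ⟨θ, t1, t2⟩ := branch h
    refine (ContactAt.comp (g := nu) (f := fun q => tw A B (θ q) q) (hc _ (tw_mem hm' _ hp))
      (tw_contact hA hB hAB t1 t2.self_of_nhds)).congr ?_
    filter_upwards [t2] with q hq
    exact tw_per ht.1 hAp hBp (ang_ag hq.ne) hq
  have N0 : ∀ x, N (x, 0, 0) = K (x + A 0) := fun x => by
    rw [hN]; dsimp only; rw [tw_axis, h0]
  obtain ⟨τ, ch, t2, hAt, g1, g2, g3⟩ := glue hK ρ0 tN cN N0 (by
    intro U hU hKU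
    obtain ⟨δ, d0, -, d1⟩ := amb_aux_shrink (ι := Unit) (N := fun _ _ => nu) hr hU
      (fun _ s _ p hp => ContinuousAt.comp (f := Prod.snd) (hc p hp).1.continuousAt
        continuousAt_snd) (fun _ _ _ => ht) fun _ _ _ x => hKU ⟨x, (h0 x).symm⟩
    exact ⟨δ * Real.exp (-m), mul_pos d0 e0, fun p hp =>
      d1 () 0 ⟨le_rfl, zero_le_one⟩ _ (tw_mem hm' _ hp)⟩)
  have co : ∀ x : SX, (x ∈ range fun x : ℝ => (⟨cay (N (x, 0, 0)), cay_mem _⟩ : SX)) ↔
      x.val ∈ range fun t => cay (K t) := by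
    intro x
    constructor
    · rintro ⟨t, rfl⟩
      exact ⟨t + A 0, by simp only [N0]⟩
    · rintro ⟨t, h⟩
      exact ⟨t - A 0, SX.ext' (by simp only [N0, sub_add_cancel]; exact h)⟩
  refine ⟨SX, τ, ch, t2, hAt,
    { r := ρ
      nu := nu
      ns := fun q => ⟨cay (N q), cay_mem _⟩
      th := SX.val
      psi := fun q => ⟨cay q, cay_mem _⟩
      minf := ⟨pole, pole_mem⟩
      A := A
      B := B
      r' := ρ * Real.exp (-m)
      r_pos := ρ0
      r'_pos := mul_pos ρ0 e0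
      r'_le := mul_le_of_le_one_right ρ0.le e1
      nu_tube := amb_aux_tube ht ρ0.le ρr
      nu_ct := fun p hp => hc p (tube_mono ρ0.le ρr hp)
      nu_core := h0
      ns_tube := ⟨fun p => SX.ext' (congrArg cay (tN.1 p)),
        fun p hp q hq e => tN.2 p hp q hq (cay_inj (congrArg SX.val e))⟩
      ns_ct := g1
      th_bij := ⟨fun x hx => ⟨x.mem, mt (co x).2 hx⟩, fun x _ y _ e => SX.ext' e,
        fun q hq => ⟨⟨q, hq.1⟩, mt (co _).1 hq.2, rfl⟩⟩
      th_ct := fun x hx => g3 x (mt (co x).2 hx)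
      psi_not := fun p hp h => ?_
      th_psi := fun _ _ => rfl
      psi_ct := g2
      minf_not := fun h => ?_
      th_minf := rfl
      A_sm := hA
      B_sm := hB
      A_per := hAp
      B_per := hBp
      B_le := fun a => ?_
      glue := fun x a s s0 _ => ?_ }, rfl, ρr, rfl, rfl⟩
  · obtain ⟨t, h'⟩ := (co _).1 h
    exact hp ⟨t, cay_inj h'⟩
  · obtain ⟨t, h'⟩ := (co _).1 h
    exact cay_ne_pole _ h'
  · rw [mul_assoc, ← Real.exp_add]
    exact mul_le_of_le_one_right ρ0.le (Real.exp_le_one_iff.2 (by linarith [hm' a]))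
  · have a1 : IsAng a (x, s * Real.cos a, s * Real.sin a) := ⟨s, s0, rfl, rfl⟩
    refine congrArg cay ((tw_per ht.1 hAp hBp (ang_ag a1.ne) a1).trans (congrArg nu ?_))
    simp only [tw, Prod.mk.injEq, true_and]
    constructor <;> ring

end Pool.Agent.Lib.MP_4d7d0a_gt
end

-- part Pool.Agent.Lib.MP_4d7d0a_gt.K2Tri
section

/-! Part K2: the slice-Bennequin bound for transverse polygons. -/

set_option autoImplicit false

open Set Filter Topology

namespace Pool.Agent.Lib.MP_4d7d0a_gt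

namespace K2

variable {ι : Type}

namespace TriAux

/-- the successor on the tripled index set -/
def tau (σ : Equiv.Perm ι) : Equiv.Perm (ι × Fin 3) where
  toFun k := ![(k.1, 1), (k.1, 2), (σ k.1, 0)] k.2
  invFun k := ![(σ.symm k.1, 2), (k.1, 0), (k.1, 1)] k.2
  left_inv := by
    rintro ⟨v, i⟩
    fin_cases i <;> simp
  right_inv := by
    rintro ⟨v, i⟩
    fin_cases i <;> simp

theorem tau0 (σ : Equiv.Perm ι) (v : ι) : tau σ (v, 0) = (v, 1) := rfl

theorem tau1 (σ : Equiv.Perm ι) (v : ι) : tau σ (v, 1) = (v, 2) := rfl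

theorem tau2 (σ : Equiv.Perm ι) (v : ι) : tau σ (v, 2) = (σ v, 0) := rfl

theorem cases3 (i : Fin 3) : i = 0 ∨ i = 1 ∨ i = 2 := by fin_cases i <;> simp

theorem small {c : ℝ} (hc : 0 < c) (m : ℝ) : ∀ᶠ η : ℝ in 𝓝[>] 0, η * m < c := by
  have h : Tendsto (fun η : ℝ => η * m) (𝓝 0) (𝓝 (0 * m)) :=
    (continuous_id.mul continuous_const).tendsto 0
  rw [zero_mul] at h
  exact (h.eventually (gt_mem_nhds hc)).filter_mono nhdsWithin_le_nhds

theorem exists_eta [Fintype ι] (P : PG ι)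
    (hx : ∀ v w, (P.pos v).1 = (P.pos w).1 → v = w) :
    ∃ η : ℝ, 0 < η ∧ η < 1 / 2 ∧ (∀ e f, P.Cr e f → η < P.tt e f ∧ P.tt e f < 1 - η) ∧
      ∀ v w e f, v ≠ w →
        η * (|(dir P e).1| + |(dir P f).1|) < |(P.pos v).1 - (P.pos w).1| := by
  have h1 : ∀ᶠ η : ℝ in 𝓝[>] 0, 0 < η := self_mem_nhdsWithin
  have h2 : ∀ᶠ η : ℝ in 𝓝[>] 0, η < 1 / 2 := by
    filter_upwards [small (c := 1 / 2) (by norm_num) 1] with η h
    linarith
  have h3 : ∀ᶠ η : ℝ in 𝓝[>] 0, ∀ e f, P.Cr e f → η < P.tt e f ∧ P.tt e f < 1 - η := by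
    refine eventually_all.2 fun e => eventually_all.2 fun f => ?_
    by_cases hc : P.Cr e f
    · have hm := (PAdm.cr_mem hc).1
      filter_upwards [small hm.1 1, small (sub_pos.2 hm.2) 1] with η g1 g2 _
      constructor <;> linarith
    · exact Eventually.of_forall fun _ h => absurd h hc
  have h4 : ∀ᶠ η : ℝ in 𝓝[>] 0, ∀ v w e f, v ≠ w →
      η * (|(dir P e).1| + |(dir P f).1|) < |(P.pos v).1 - (P.pos w).1| := by
    refine eventually_all.2 fun v => eventually_all.2 fun w => eventually_all.2 fun e =>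
      eventually_all.2 fun f => ?_
    by_cases hc : v = w
    · exact Eventually.of_forall fun _ h => absurd hc h
    · have : 0 < |(P.pos v).1 - (P.pos w).1| :=
        abs_pos.2 (sub_ne_zero.2 fun h => hc (hx v w h))
      filter_upwards [small this (|(dir P e).1| + |(dir P f).1|)] with η g _
      exact g
  obtain ⟨η, a1, a2, a3, a4⟩ := (h1.and (h2.and (h3.and h4))).exists
  exact ⟨η, a1, a2, a3, a4⟩

theorem pt_fst (P : PG ι) (e : ι) (u : ℝ) :
    (P.pt e u).1 = (P.pos e).1 + u * (dir P e).1 := by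
  rw [PAdm.pt_eq]; rfl

theorem pos_next (P : PG ι) (e : ι) : (P.pos (P.σ e)).1 = (P.pos e).1 + (dir P e).1 := by
  simp [dir]

theorem al_smul (p v : P3) (c : ℝ) : al p (c • v) = c * al p v := by
  simp only [al, Prod.smul_fst, Prod.smul_snd, smul_eq_mul]; ring

/-- the base vertex of an end piece -/
def base (σ : Equiv.Perm ι) (k : ι × Fin 3) : ι := ![k.1, k.1, σ k.1] k.2

theorem near_base (P : PG ι) {η : ℝ} (k : ι × Fin 3) (hk : k.2 ≠ 1) {u : ℝ}
    (hu : u ∈ Icc (0 : ℝ) 1) (h0 : 0 < η) :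
    |(P.pt k.1 (![0, η, 1 - η] k.2 + u * (![η, 1 - η, 1] k.2 - ![0, η, 1 - η] k.2))).1 -
      (P.pos (base P.σ k)).1| ≤ η * |(dir P k.1).1| := by
  obtain ⟨v, i⟩ := k
  obtain ⟨u0, u1⟩ := hu
  rcases cases3 i with rfl | rfl | rfl
  · have : (P.pt v (0 + u * (η - 0))).1 - (P.pos v).1 = (u * η) * (dir P v).1 := by
      rw [pt_fst]; ring
    change |(P.pt v (0 + u * (η - 0))).1 - (P.pos v).1| ≤ η * |(dir P v).1|
    rw [this, abs_mul, abs_of_nonneg (mul_nonneg u0 h0.le)]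
    exact mul_le_mul_of_nonneg_right (by nlinarith) (abs_nonneg _)
  · exact absurd rfl hk
  · have : (P.pt v (1 - η + u * (1 - (1 - η)))).1 - (P.pos (P.σ v)).1 =
        -(((1 - u) * η) * (dir P v).1) := by
      rw [pt_fst, pos_next]; ring
    change |(P.pt v (1 - η + u * (1 - (1 - η)))).1 - (P.pos (P.σ v)).1| ≤ η * |(dir P v).1|
    rw [this, abs_neg, abs_mul, abs_of_nonneg (mul_nonneg (sub_nonneg.2 u1) h0.le)]
    exact mul_le_mul_of_nonneg_right (by nlinarith) (abs_nonneg _)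

theorem base_eq (σ : Equiv.Perm ι) {e f : ι × Fin 3} (he : e.2 ≠ 1) (hf : f.2 ≠ 1)
    (h : base σ e = base σ f) : e = f ∨ f = tau σ e ∨ e = tau σ f := by
  obtain ⟨v, i⟩ := e
  obtain ⟨w, j⟩ := f
  rcases cases3 i with rfl | rfl | rfl
  · rcases cases3 j with rfl | rfl | rfl
    · obtain rfl : v = w := h
      exact Or.inl rfl
    · exact absurd rfl hf
    · obtain rfl : v = σ w := h
      exact Or.inr (Or.inr rfl)
  · exact absurd rfl he
  · rcases cases3 j with rfl | rfl | rfl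
    · obtain rfl : σ v = w := h
      exact Or.inr (Or.inl rfl)
    · exact absurd rfl hf
    · obtain rfl : v = w := σ.injective h
      exact Or.inl rfl

theorem part (σ : Equiv.Perm ι) {η : ℝ} (h0 : 0 < η) (h1 : η < 1 / 2) :
    Part σ (tau σ) Prod.fst (fun k => ![0, η, 1 - η] k.2) fun k => ![η, 1 - η, 1] k.2 where
  a_nonneg := by
    rintro ⟨v, i⟩
    rcases cases3 i with rfl | rfl | rfl
    · exact le_rfl
    · exact h0.le
    · change 0 ≤ 1 - η
      linarith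
  lt := by
    rintro ⟨v, i⟩
    rcases cases3 i with rfl | rfl | rfl
    · exact h0
    · change η < 1 - η
      linarith
    · change 1 - η < 1
      linarith
  b_le := by
    rintro ⟨v, i⟩
    rcases cases3 i with rfl | rfl | rfl
    · change η ≤ 1
      linarith
    · change 1 - η ≤ 1
      linarith
    · exact le_rfl
  mid := by
    rintro ⟨v, i⟩ h
    rcases cases3 i with rfl | rfl | rfl
    · exact ⟨rfl, rfl⟩
    · exact ⟨rfl, rfl⟩
    · exact absurd h (lt_irrefl (1 : ℝ))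
  last := by
    rintro ⟨v, i⟩ h
    rcases cases3 i with rfl | rfl | rfl
    · change η = 1 at h
      linarith
    · change 1 - η = 1 at h
      linarith
    · exact ⟨rfl, rfl⟩
  disj := by
    rintro ⟨v, i⟩ ⟨w, j⟩ hp g1 g2
    obtain rfl : v = w := hp
    rcases cases3 i with rfl | rfl | rfl <;> rcases cases3 j with rfl | rfl | rfl <;>
      first
      | rfl
      | (exfalso
         simp only [Matrix.cons_val_zero, Matrix.cons_val_one, Matrix.cons_val_two,
           Matrix.head_cons, Matrix.tail_cons] at g1 g2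
         linarith)
  cover := by
    intro v u hu
    by_cases g1 : u < η
    · exact ⟨(v, 0), rfl, hu.1, g1⟩
    · by_cases g2 : u < 1 - η
      · exact ⟨(v, 1), rfl, not_lt.1 g1, g2⟩
      · exact ⟨(v, 2), rfl, not_lt.1 g2, hu.2⟩

open Classical in
/-- the level of an edge -/
noncomputable def rho (P : PG ι) (v : ι) : ℝ := if 0 < (dir P v).1 then -1 else 1

theorem rho_pos {P : PG ι} {v : ι} (h : 0 < (dir P v).1) : rho P v = -1 := if_pos h

theorem rho_neg {P : PG ι} {v : ι} (h : ¬ 0 < (dir P v).1) : rho P v = 1 := if_neg h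

theorem rho_val (P : PG ι) (v : ι) : rho P v = -1 ∨ rho P v = 1 := by
  by_cases h : 0 < (dir P v).1
  · exact Or.inl (rho_pos h)
  · exact Or.inr (rho_neg h)

theorem rho_ne (P : PG ι) (v : ι) : rho P v ≠ 0 := by
  rcases rho_val P v with h | h <;> rw [h] <;> norm_num

/-- the levels of the vertices of the subdivision -/
noncomputable def lev (P : PG ι) (k : ι × Fin 3) : ℝ :=
  ![(rho P (P.σ.symm k.1) + rho P k.1) / 2, rho P k.1, rho P k.1] k.2

theorem lev0 (P : PG ι) (v : ι) : lev P (v, 0) = (rho P (P.σ.symm v) + rho P v) / 2 := rfl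

theorem lev1 (P : PG ι) (v : ι) : lev P (v, 1) = rho P v := rfl

theorem lev2 (P : PG ι) (v : ι) : lev P (v, 2) = rho P v := rfl

theorem lev_end (P : PG ι) {k : ι × Fin 3} (h : lev P k = 0 ∨ lev P (tau P.σ k) = 0) :
    k.2 ≠ 1 := by
  obtain ⟨v, i⟩ := k
  rintro (rfl : i = 1)
  rw [tau1, lev1, lev2] at h
  rcases h with h | h <;> exact rho_ne P v h

end TriAux

open TriAux

/-- each edge is cut in two short ends and a long middle part -/
theorem part_tri (σ : Equiv.Perm ι) {η : ℝ} (h0 : 0 < η) (h1 : η < 1 / 2) :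
    ∃ τ : Equiv.Perm (ι × Fin 3), (∀ v, τ (v, 0) = (v, 1) ∧ τ (v, 1) = (v, 2) ∧ τ (v, 2) = (σ v, 0)) ∧
      Part σ τ Prod.fst (fun k => ![0, η, 1 - η] k.2) fun k => ![η, 1 - η, 1] k.2 :=
  ⟨tau σ, fun _ => ⟨rfl, rfl, rfl⟩, part σ h0 h1⟩

theorem exists_lay [Fintype ι] {P : PG ι} (hP : P.Gen) (ht : Trv P)
    (hx : ∀ v w, (P.pos v).1 = (P.pos w).1 → v = w) :
    ∃ (τ : Equiv.Perm (ι × Fin 3)) (a b : ι × Fin 3 → ℝ) (R : ι × Fin 3 → Prop)
      (h : ι × Fin 3 → ℝ), Part P.σ τ Prod.fst a b ∧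
        (∀ k f, P.Cr k.1 f → P.tt k.1 f ≠ a k) ∧ Lay (refn P τ Prod.fst a) R h := by
  obtain ⟨η, h0, h1, h2, h3⟩ := exists_eta P hx
  have hp := part P.σ h0 h1
  have hc : ∀ (k : ι × Fin 3) f, P.Cr k.1 f → P.tt k.1 f ≠ ![0, η, 1 - η] k.2 := by
    rintro ⟨v, i⟩ f hf
    obtain ⟨g1, g2⟩ := h2 v f hf
    rcases cases3 i with rfl | rfl | rfl
    · exact (h0.trans g1).ne'
    · exact g1.ne'
    · exact g2.ne
  have hd : ∀ v, (dir P v).1 ≠ 0 := fun v h =>
    PBA.emb_ne1 hP.1 v (hx _ _ (by rw [pos_next, h, add_zero]))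
  refine ⟨tau P.σ, _, _, fun k => 0 < (dir P k.1).1, lev P, hp, hc, ?_⟩
  refine ⟨refn_gen hP hp hc, fun k hk => ?_, fun k hk => ?_, fun k u hu => ?_, ?_, ?_, ?_, ?_,
    ?_, ?_⟩
  · rw [refn_dir hp]
    exact mul_pos (sub_pos.2 (hp.lt k)) hk
  · rw [refn_dir hp]
    exact mul_neg_of_pos_of_neg (sub_pos.2 (hp.lt k)) (lt_of_le_of_ne (not_lt.1 hk) (hd _))
  · rw [refn_dir hp, refn_pt hp, al_smul]
    have g1 := hp.a_nonneg k
    have g2 := hp.lt k
    have g3 := hp.b_le k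
    refine mul_pos (sub_pos.2 g2) (ht _ _ ⟨?_, ?_⟩)
    · exact add_nonneg g1 (mul_nonneg hu.1 (sub_pos.2 g2).le)
    · have := mul_le_mul_of_nonneg_right hu.2 (sub_pos.2 g2).le
      linarith
  · rintro ⟨v, i⟩
    rcases cases3 i with rfl | rfl | rfl
    · rw [lev0]
      rcases rho_val P v with g | g <;> rcases rho_val P (P.σ.symm v) with g' | g' <;>
        rw [g, g'] <;> norm_num
    · rw [lev1]
      rcases rho_val P v with g | g <;> rw [g] <;> norm_num
    · rw [lev2]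
      rcases rho_val P v with g | g <;> rw [g] <;> norm_num
  · rintro ⟨v, i⟩ hk
    have g := rho_pos (P := P) (v := v) hk
    change lev P (v, i) ≤ 0 ∧ lev P (tau P.σ (v, i)) ≤ 0
    rcases cases3 i with rfl | rfl | rfl
    · rw [tau0, lev0, lev1, g]
      rcases rho_val P (P.σ.symm v) with g' | g' <;> rw [g'] <;> norm_num
    · rw [tau1, lev1, lev2, g]
      norm_num
    · rw [tau2, lev0, lev2, Equiv.symm_apply_apply, g]
      rcases rho_val P (P.σ v) with g' | g' <;> rw [g'] <;> norm_num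
  · rintro ⟨v, i⟩ hk
    have g := rho_neg (P := P) (v := v) hk
    change 0 ≤ lev P (v, i) ∧ 0 ≤ lev P (tau P.σ (v, i))
    rcases cases3 i with rfl | rfl | rfl
    · rw [tau0, lev0, lev1, g]
      rcases rho_val P (P.σ.symm v) with g' | g' <;> rw [g'] <;> norm_num
    · rw [tau1, lev1, lev2, g]
      norm_num
    · rw [tau2, lev0, lev2, Equiv.symm_apply_apply, g]
      rcases rho_val P (P.σ v) with g' | g' <;> rw [g'] <;> norm_num
  · rintro ⟨v, i⟩ f hf
    obtain ⟨c1, c2, -⟩ := (refn_cr hp _ _).1 hf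
    obtain ⟨g1, g2⟩ := h2 _ _ c1
    change lev P (v, i) ≠ 0 ∧ lev P (tau P.σ (v, i)) ≠ 0
    rcases cases3 i with rfl | rfl | rfl
    · exact absurd c2.2 (not_lt.2 g1.le)
    · exact ⟨rho_ne P v, rho_ne P v⟩
    · exact absurd c2.1 (not_lt.2 g2.le)
  · rintro ⟨v, i⟩ hk
    rcases cases3 i with rfl | rfl | rfl
    · exact absurd Iff.rfl hk
    · exact rho_ne P v
    · exact rho_ne P v
  · intro e f he hf n1 n2 ze zf u hu u' hu' heq
    have ee := lev_end P ze
    have ef := lev_end P zf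
    have hb : base P.σ e ≠ base P.σ f := fun hb => by
      rcases base_eq P.σ ee ef hb with g | g | g
      · exact hf (g ▸ he)
      · exact n1 g
      · exact n2 g
    have g := h3 _ _ e.1 f.1 hb
    have g1 := near_base P e ee hu h0
    have g2 := near_base P f ef hu' h0
    rw [refn_pt hp, refn_pt hp] at heq
    rw [heq] at g1
    rw [abs_le] at g1 g2
    have g3 : |(P.pos (base P.σ e)).1 - (P.pos (base P.σ f)).1| ≤
        η * (|(dir P e.1).1| + |(dir P f.1).1|) := by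
      rw [abs_le]
      constructor <;> linarith [g1.1, g1.2, g2.1, g2.2]
    exact absurd g (not_lt.2 g3)

theorem pben {T : ODTheory} (PT : PTheory T) [Fintype ι] {P : PG ι} (hP : P.Gen) (ht : Trv P)
    (hx : ∀ v w, (P.pos v).1 = (P.pos w).1 → v = w) : PT.V P (wr P) := by
  obtain ⟨τ, a, b, R, h, hp, hc, hL⟩ := exists_lay hP ht hx
  refine (refn_V PT hP.1 hp _).2 ?_
  rw [← refn_wr hp hc]
  exact lay_main PT hL


end K2

end Pool.Agent.Lib.MP_4d7d0a_gt
end

-- part Pool.Agent.Lib.MP_4d7d0a_gt.K2Ben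
section

/-! Part K2: the slice-Bennequin bound for transverse knots. -/

set_option autoImplicit false

open Set Filter Topology

namespace Pool.Agent.Lib.MP_4d7d0a_gt

namespace K2

variable {c d : ℝ → P3}

namespace BenAux

/-- the projection to the plane `y = 0` -/
def pxz : P3 →ₗ[ℝ] P3 where
  toFun p := (p.1, 0, p.2.2)
  map_add' p q := by ext <;> simp
  map_smul' r p := by ext <;> simp

theorem pxz_apply (p : P3) : pxz p = (p.1, 0, p.2.2) := rfl

theorem slope_le {a b u ε : ℝ} {w e : P3} (hab : a < b) (hu : u ∈ Icc a b) (h1 : HasDerivAt c e u)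
    (h : ∀ u' ∈ Icc a b, ‖((u' - u) / (b - a)) • w - (c u' - c u)‖ ≤ ε * |u' - u|) :
    ‖(1 / (b - a)) • w - e‖ ≤ ε := by
  have key : ∀ S : Set ℝ, S ⊆ Icc a b → u ∉ S → (𝓝[S] u).NeBot →
      ‖(1 / (b - a)) • w - e‖ ≤ ε := by
    intro S hS huS hne
    have t1 : Tendsto (slope c u) (𝓝[S] u) (𝓝 e) :=
      (hasDerivAt_iff_tendsto_slope.1 h1).mono_left
        (nhdsWithin_mono _ fun x hx hxu => huS (by rw [mem_singleton_iff.1 hxu] at hx; exact hx))
    have t2 : Tendsto (fun u' => ‖(1 / (b - a)) • w - slope c u u'‖) (𝓝[S] u)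
        (𝓝 ‖(1 / (b - a)) • w - e‖) := (tendsto_const_nhds.sub t1).norm
    refine le_of_tendsto t2 (eventually_nhdsWithin_of_forall fun u' hu' => ?_)
    have hne' : u' - u ≠ 0 := sub_ne_zero.2 fun hh => huS (hh ▸ hu')
    have h2 := h u' (hS hu')
    have h3 : ((u' - u) / (b - a)) • w - (c u' - c u) =
        (u' - u) • ((1 / (b - a)) • w - slope c u u') := by
      rw [smul_sub, smul_smul, slope_def_module, smul_smul, mul_inv_cancel₀ hne', one_smul,
        mul_one_div]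
    rw [h3, norm_smul, Real.norm_eq_abs, mul_comm] at h2
    exact le_of_mul_le_mul_right h2 (abs_pos.2 hne')
  rcases hu.2.eq_or_lt with h2 | h2
  · refine key (Ioo a u) (fun x hx => ⟨hx.1.le, hx.2.le.trans hu.2⟩) (fun hx => lt_irrefl _ hx.2) ?_
    exact right_nhdsWithin_Ioo_neBot (h2 ▸ hab)
  · refine key (Ioo u b) (fun x hx => ⟨hu.1.trans hx.1.le, hx.2.le⟩) (fun hx => lt_irrefl _ hx.1) ?_
    exact left_nhdsWithin_Ioo_neBot h2

theorem margin (hc : Continuous c) (h2 : Continuous d) (h5 : ∀ t, 0 < al (c t) (d t)) :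
    ∃ ρ : ℝ, 0 < ρ ∧ ∀ x m : P3, ‖x‖ < ρ → ‖m‖ < ρ → ∀ t ∈ Icc (0 : ℝ) 1,
      0 < al (c t + x) (d t + m) := by
  have key := IsCompact.eventually_forall_of_forall_eventually (x₀ := ((0, 0) : P3 × P3))
    (K := Icc (0 : ℝ) 1) isCompact_Icc
    (P := fun z t => 0 < al (c t + z.1) (d t + z.2)) (by
      intro t _
      have h1 : Continuous fun w : (P3 × P3) × ℝ => al (c w.2 + w.1.1) (d w.2 + w.1.2) := by
        unfold al; fun_prop
      refine (isOpen_lt continuous_const h1).mem_nhds ?_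
      simpa using h5 t)
  obtain ⟨ρ, hρ, h⟩ := Metric.eventually_nhds_iff.1 key
  refine ⟨ρ, hρ, fun x m hx hm => h (y := (x, m)) ?_⟩
  rw [Prod.dist_eq]
  simpa using ⟨hx, hm⟩

theorem close_cont {ε : ℝ} {g : Unit → ℝ → P3} (hc : Continuous c)
    (h : Close ε (fun _ : Unit => c) g) : ContinuousOn (g ()) (Icc 0 1) := by
  have hε : 0 ≤ ε := (norm_nonneg _).trans (h ()).1
  have h1 : LipschitzOnWith ⟨ε, hε⟩ (fun u => g () u - c u) (Icc 0 1) := by
    refine LipschitzOnWith.of_dist_le_mul fun u hu u' hu' => ?_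
    have := (h ()).2 u' hu' u hu
    have e : g () u - c u - (g () u' - c u') = g () u - g () u' - (c u - c u') := by abel
    rw [dist_eq_norm, Real.dist_eq, e]
    exact this
  exact (h1.continuousOn.add hc.continuousOn).congr fun u _ => (sub_add_cancel _ _).symm

theorem poly_of {n : ℕ} {x : Fin (n + 1) → P3} {g : Unit → ℝ → P3}
    (hg : IsPlc (⟨finRotate (n + 1), x⟩ : PG (Fin (n + 1))) (fun _ => ())
      (fun k : Fin (n + 1) => ((k : ℕ) : ℝ) / (n + 1)) (fun k => (((k : ℕ) : ℝ) + 1) / (n + 1)) g)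
    (ν : P3) : IsPoly (n + 1) (fun i => x (Fin.ofNat (n + 1) i) + ν) fun t => g () t + ν := by
  refine ⟨Nat.succ_pos n, ?_, fun j hj u hu => ?_⟩
  · have : Fin.ofNat (n + 1) (n + 1) = Fin.ofNat (n + 1) 0 := by
      ext; simp [Fin.ofNat]
    simp only [this]
  · have hn : (0 : ℝ) < n + 1 := by positivity
    have h1 := hg ⟨j, hj⟩ ((j + u) / (n + 1))
      ⟨by simp only; gcongr; linarith [hu.1], by simp only; gcongr; exact hu.2⟩
    have h2 : (((j : ℝ) + u) / (n + 1) - (j : ℝ) / (n + 1)) /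
        (((j : ℝ) + 1) / (n + 1) - (j : ℝ) / (n + 1)) = u := by
      field_simp; ring
    have h3 : Fin.ofNat (n + 1) j = ⟨j, hj⟩ := by
      ext; simp [Fin.ofNat, Nat.mod_eq_of_lt hj]
    have h4 : Fin.ofNat (n + 1) (j + 1) = finRotate (n + 1) ⟨j, hj⟩ := by
      rw [finRotate_apply]
      ext; simp [Fin.ofNat, Fin.val_add]
    simp only [h2] at h1
    simp only [h3, h4]
    push_cast
    rw [h1, PG.pt, PBA.lm, PBA.lm]
    simp only [add_sub_add_right_eq_sub]
    abel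

end BenAux

open BenAux

theorem embD_of (h1 : ∀ t, HasDerivAt c (d t) t) (h2 : Continuous d) (h3 : ∀ t, c (t + 1) = c t)
    (h4 : InjOn c (Ico 0 1)) (h5 : ∀ t, 0 < al (c t) (d t)) :
    (⟨1, fun _ => c⟩ : CPL Unit).EmbD (fun _ => d) ∧ d 1 = d 0 := by
  have hd : d 1 = d 0 := by
    have e1 : HasDerivAt (fun t => c (t + 1)) (d (0 + 1)) 0 := (h1 (0 + 1)).comp_add_const 0 1
    have e2 : (fun t => c (t + 1)) = c := funext h3
    rw [e2, zero_add] at e1
    exact e1.unique (h1 0)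
  have hne : ∀ t, d t ≠ 0 := fun t h => by
    have := h5 t
    rw [h] at this
    simp [al] at this
  refine ⟨⟨fun _ u _ => ⟨(h1 u).hasDerivWithinAt, hne u⟩, fun _ => h2.continuousOn,
    fun _ => by simpa using h3 0, ?_, ?_⟩, hd⟩
  · intro v r hr h
    change d 1 = -(r • d 0) at h
    rw [hd] at h
    have : (1 + r) • d 0 = 0 := by
      rw [add_smul, one_smul]
      exact eq_neg_iff_add_eq_zero.1 h
    rcases smul_eq_zero.1 this with h | h
    · linarith
    · exact hne 0 h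
  · intro v w u hu u' hu' h
    exact ⟨rfl, h4 hu hu' h⟩

/-- polygons close to a transverse curve are transverse -/
theorem near_trv (h1 : ∀ t, HasDerivAt c (d t) t) (h2 : Continuous d)
    (h5 : ∀ t, 0 < al (c t) (d t)) : ∃ ε : ℝ, 0 < ε ∧ ∀ (κ : Type) [Finite κ] (Q : PG κ)
      (p : κ → Unit) (a b : κ → ℝ), Part 1 Q.σ p a b → NearP ε (fun _ => c) p a b Q → Trv Q := by
  have hc : Continuous c := continuous_iff_continuousAt.2 fun t => (h1 t).continuousAt
  obtain ⟨ρ, hρ, hm⟩ := margin hc h2 h5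
  refine ⟨ρ / 4, by positivity, fun κ _ Q p a b hp hN k s hs => ?_⟩
  obtain ⟨g, hg⟩ := plc_exists hp
  have hcl := hg.close hp hN
  have hab := hp.lt k
  have hba : 0 < b k - a k := sub_pos.2 hab
  have hu : a k + s * (b k - a k) ∈ Icc (a k) (b k) :=
    ⟨by nlinarith [hs.1], by nlinarith [hs.2]⟩
  have hu' : a k + s * (b k - a k) ∈ Icc (0 : ℝ) 1 :=
    ⟨(hp.a_nonneg k).trans hu.1, hu.2.trans (hp.b_le k)⟩
  set u := a k + s * (b k - a k) with hud
  have e1 : g (p k) u = Q.pt k s := by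
    rw [hg k u hu]
    congr 1
    rw [hud]
    field_simp
    ring
  have e2 := hcl.dist (p k) hu'
  have e3 := slope_le hab hu (h1 u) (hN.2 k u hu)
  have e4 := hm (g (p k) u - c u) ((1 / (b k - a k)) • (Q.pos (Q.σ k) - Q.pos k) - d u)
    (by linarith) (by linarith) u hu'
  rw [add_sub_cancel, add_sub_cancel, e1] at e4
  have e5 : al (Q.pt k s) (dir Q k) =
      (b k - a k) * al (Q.pt k s) ((1 / (b k - a k)) • (Q.pos (Q.σ k) - Q.pos k)) := by
    simp only [al, dir, Prod.smul_fst, Prod.smul_snd, smul_eq_mul]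
    field_simp
  rw [e5]
  positivity

/-- the self-linking number is computed on a close polygon -/
theorem lk_push (h1 : ∀ t, HasDerivAt c (d t) t) (h2 : Continuous d) (h3 : ∀ t, c (t + 1) = c t)
    (h4 : InjOn c (Ico 0 1)) (h5 : ∀ t, 0 < al (c t) (d t)) : ∃ ε : ℝ, 0 < ε ∧
      ∀ (n : ℕ) (x : Fin (n + 1) → P3),
        NearP ε (fun _ : Unit => c) (fun _ => ()) (fun k : Fin (n + 1) => ((k : ℕ) : ℝ) / (n + 1))
          (fun k => (((k : ℕ) : ℝ) + 1) / (n + 1)) ⟨finRotate (n + 1), x⟩ →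
        ∀ η : ℝ, 0 < η → η ≤ ε → lk c (fun t => c t - (0, η, 0)) =
          lkZ (⟨finRotate (n + 1), x⟩ : PG (Fin (n + 1)))
            (shiftP ⟨finRotate (n + 1), x⟩ (0, -η, 0)) := by
  have hc : Continuous c := continuous_iff_continuousAt.2 fun t => (h1 t).continuousAt
  obtain ⟨hE, hd⟩ := embD_of h1 h2 h3 h4 h5
  have hne : ∀ t, pxz (d t) ≠ 0 := fun t h => by
    have := h5 t
    rw [pxz_apply, Prod.ext_iff, Prod.ext_iff] at h
    simp only [Prod.fst_zero, Prod.snd_zero] at h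
    simp [al, h.1, h.2.2] at this
  obtain ⟨ε, hε, hst⟩ := stab hE pxz (fun _ u _ => hne u) (by
    intro v r hr h
    rw [hd] at h
    have : (1 + r) • pxz (d 0) = 0 := by
      rw [add_smul, one_smul]
      exact eq_neg_iff_add_eq_zero.1 h
    rcases smul_eq_zero.1 this with h | h
    · linarith
    · exact hne 0 h)
  refine ⟨ε, hε, fun n x hN η hη hηε => ?_⟩
  have hp : Part (1 : Equiv.Perm Unit) (⟨finRotate (n + 1), x⟩ : PG (Fin (n + 1))).σ (fun _ => ())
      (fun k : Fin (n + 1) => ((k : ℕ) : ℝ) / (n + 1))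
      fun k => (((k : ℕ) : ℝ) + 1) / (n + 1) := part_unif n
  obtain ⟨g, hg⟩ := plc_exists hp
  have hcl := hg.close hp hN
  have hg1 : g () 1 = g () 0 := hg.closed hp ()
  have hc1 : c 1 = c 0 := by simpa using h3 0
  have hgc := close_cont hc hcl
  have hap : ∀ s ∈ Icc (0 : ℝ) 1, Apart (fun t => c t + s • (g () t - c t))
      fun t => c t + s • (g () t - c t) - (0, η, 0) := by
    intro s hs
    have hs' : |s| ≤ 1 := abs_le.2 ⟨by linarith [hs.1], hs.2⟩
    have hcs : Close ε (fun _ : Unit => c) fun _ t => c t + s • (g () t - c t) := by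
      intro v
      refine ⟨?_, fun u hu u' hu' => ?_⟩
      · rw [add_sub_cancel_left, norm_smul, Real.norm_eq_abs]
        have := (hcl ()).1
        nlinarith [norm_nonneg (g () 0 - c 0), abs_nonneg s]
      · have := (hcl ()).2 u hu u' hu'
        have e : c u' + s • (g () u' - c u') - (c u + s • (g () u - c u)) - (c u' - c u) =
            s • (g () u' - g () u - (c u' - c u)) := by
          simp only [smul_sub]; abel
        rw [e, norm_smul, Real.norm_eq_abs]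
        nlinarith [norm_nonneg (g () u' - g () u - (c u' - c u)), abs_nonneg s]
    have red : ∀ u ∈ Icc (0 : ℝ) 1, ∃ u' ∈ Ico (0 : ℝ) 1,
        c u' + s • (g () u' - c u') = c u + s • (g () u - c u) := by
      intro u hu
      rcases hu.2.eq_or_lt with h | h
      · exact ⟨0, ⟨le_rfl, one_pos⟩, by rw [h, hg1, hc1]⟩
      · exact ⟨u, ⟨hu.1, h⟩, rfl⟩
    intro u hu u' hu' he
    obtain ⟨v, hv, ev⟩ := red u hu
    obtain ⟨v', hv', ev'⟩ := red u' hu'
    simp only at he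
    rw [← ev, ← ev'] at he
    have := hst _ hcs (fun _ => by simp only [hg1, hc1]) () () v hv v' hv'
      (by simp only [he, pxz_apply]; simp)
      (by
        simp only [he, sub_sub_cancel_left, norm_neg, Prod.norm_def, norm_zero, Real.norm_eq_abs,
          abs_of_pos hη]
        exact max_le hε.le (max_le hηε hε.le))
    rw [this.2] at he
    have h6 := congrArg (fun p : P3 => p.2.1) he
    simp only [Prod.snd_sub, Prod.fst_sub] at h6
    linarith
  have hA : ContinuousOn (fun a : ℝ × ℝ => c a.2 + a.1 • (g () a.2 - c a.2))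
      (Icc 0 1 ×ˢ Icc 0 1) := by
    have t1 : ContinuousOn (fun a : ℝ × ℝ => g () a.2) (Icc 0 1 ×ˢ Icc 0 1) :=
      hgc.comp continuous_snd.continuousOn fun a ha => ha.2
    have t2 : Continuous fun a : ℝ × ℝ => c a.2 := hc.comp continuous_snd
    exact t2.continuousOn.add (continuous_fst.continuousOn.smul (t1.sub t2.continuousOn))
  have h6 := lk_hom (fun s t => c t + s • (g () t - c t))
    (fun s t => c t + s • (g () t - c t) - (0, η, 0)) hA (hA.sub continuousOn_const)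
    fun s hs => ⟨by simp only [hg1, hc1], by simp only [hg1, hc1], hap s hs⟩
  have h7 := hap 1 ⟨zero_le_one, le_rfl⟩
  simp only [zero_smul, add_zero, one_smul, add_sub_cancel] at h6 h7
  have e1 : (fun t => g () t - ((0, η, 0) : P3)) = fun t => g () t + ((0, -η, 0) : P3) := by
    funext t
    ext <;> simp [sub_eq_add_neg]
  have p1 := poly_of hg 0
  have p2 := poly_of hg (0, -η, 0)
  simp only [add_zero] at p1
  rw [e1] at h6 h7
  rw [h6, lk_poly' _ _ _ _ _ _ p1 p2 h7]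
  exact (lkZ_fin n n x fun v => x v + (0, -η, 0)).symm

theorem vk_ben {T : ODTheory} (PT : PTheory T) (h1 : ∀ t, HasDerivAt c (d t) t)
    (h2 : Continuous d) (h3 : ∀ t, c (t + 1) = c t) (h4 : InjOn c (Ico 0 1))
    (h5 : ∀ t, 0 < al (c t) (d t)) :
    ∀ᶠ ε : ℝ in 𝓝[>] 0, VK PT (⟨1, fun _ => c⟩ : CPL Unit) (lk c fun t => c t - (0, ε, 0)) := by
  obtain ⟨hE, -⟩ := embD_of h1 h2 h3 h4 h5
  obtain ⟨ε1, p1, k1⟩ := vk_iff PT (⟨_, hE⟩ : (⟨1, fun _ => c⟩ : CPL Unit).Emb)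
  obtain ⟨ε2, p2, k2⟩ := near_trv h1 h2 h5
  obtain ⟨ε3, p3, k3⟩ := lk_push h1 h2 h3 h4 h5
  set ε := min ε1 (min ε2 ε3) with hε
  have pε : 0 < ε := by positivity
  have l1 : ε ≤ ε1 := min_le_left _ _
  have l2 : ε ≤ ε2 := (min_le_right _ _).trans (min_le_left _ _)
  have l3 : ε ≤ ε3 := (min_le_right _ _).trans (min_le_right _ _)
  obtain ⟨δ, hδ, k4⟩ := inscribed (Reg.of_embD hE) (half_pos pε)
  obtain ⟨n, hn⟩ := exists_nat_one_div_lt hδ
  have hp := part_unif n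
  have hN := k4 _ _ _ _ _ hp fun k => Or.inl (by
    have : (((k : ℕ) : ℝ) + 1) / (n + 1) - ((k : ℕ) : ℝ) / (n + 1) = 1 / (n + 1) := by ring
    rw [this]
    exact hn.le)
  set Q : PG (Fin (n + 1)) := ⟨finRotate (n + 1), fun k => c (((k : ℕ) : ℝ) / (n + 1))⟩ with hQ
  have hp' : Part (1 : Equiv.Perm Unit) Q.σ (fun _ => ())
      (fun k : Fin (n + 1) => ((k : ℕ) : ℝ) / (n + 1))
      fun k => (((k : ℕ) : ℝ) + 1) / (n + 1) := hp
  have hN' : NearP (ε / 2) (fun _ : Unit => c) (fun _ => ())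
      (fun k : Fin (n + 1) => ((k : ℕ) : ℝ) / (n + 1))
      (fun k => (((k : ℕ) : ℝ) + 1) / (n + 1)) Q := hN
  have hQe : Q.Emb := (k1 _ Q ⟨_, _, _, hp', hN'.mono (by linarith)⟩).1
  obtain ⟨x, ⟨hG, hx, -⟩, hx2⟩ :=
    (hQe.frequently.and_eventually (NearP.eventually hp' hN' (half_lt_self pε))).exists
  have hV := pben PT hG (k2 _ _ _ _ _ hp (hx2.mono l2)) hx
  have hV' := ((k1 _ _ ⟨_, _, _, hp, hx2.mono l1⟩).2 _).2 hV
  filter_upwards [lkZ_shift hG, Ioc_mem_nhdsGT p3] with η e1 e2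
  rw [k3 n x (hx2.mono l3) η e2.1 e2.2]
  exact e1 ▸ hV'

end K2

end Pool.Agent.Lib.MP_4d7d0a_gt
end

-- part Pool.Agent.Lib.MP_4d7d0a_gt.K2
section

/-! Part K2: the knot theory of curved links from the theory of polygons. -/

set_option autoImplicit false

namespace Pool.Agent.Lib.MP_4d7d0a_gt

theorem k2_holds : K2Stmt := fun _ PT =>
  ⟨{ V := fun L q => K2.VK PT L q
     lk := K2.lk
     mono := fun L q q' h hV => K2.vk_mono PT L q q' h hV
     relabel := fun β L L' q _ h1 h2 hV => K2.vk_relabel PT β L L' q h1 h2 hV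
     fam := fun σ c d q h1 h2 h3 hV => K2.vk_fam PT σ c d q h1 h2 h3 hV
     split := fun n L L' q h h1 h2 h3 => K2.vk_split PT n L L' q h h1 h2 h3
     saddle := fun L L' d a c A B C D pr q hL hL' hac h1 h2 h3 h4 h5 h6 h7 h8 h9 hV =>
       K2.vk_saddle PT L L' d a c A B C D pr q hL hL' hac h1 h2 h3 h4 h5 h6 h7 h8 h9 hV
     unlink := fun L m comp h h1 h2 h3 => K2.vk_unlink PT L m comp h h1 h2 h3
     lk_hom := K2.lk_hom
     lk_add_left := K2.lk_add_left
     lk_add_right := K2.lk_add_right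
     lk_poly := K2.lk_poly
     ben := fun _ _ h1 h2 h3 h4 h5 => K2.vk_ben PT h1 h2 h3 h4 h5 }⟩

end Pool.Agent.Lib.MP_4d7d0a_gt
end
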