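import Pool.Agent.Lib.MP_4d7d0a_gt.AHp
import Pool.Agent.Lib.MP_4d7d0a_gt.DSpec
import Pool.Agent.Lib.MP_4d7d0a_gt.K2
import Pool.Agent.Lib.MP_4d7d0a_gt.K2Gr
import Pool.Agent.Lib.MP_4d7d0a_gt.ATwSD
import Pool.Agent.Lib.MP_4d7d0a_gt.K2Lay
import Pool.Agent.Lib.MP_4d7d0a_gt.ALeaf3

-- part Pool.Agent.Lib.MP_4d7d0a_gt.ASlabS
section

/-! The slab in the sphere. -/

set_option autoImplicit false

open Set Filter Topology
open scoped ContDiff

namespace Pool.Agent.Lib.MP_4d7d0a_gt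

theorem slabS_dil {k ζ : ℝ} (hk : 0 < k) (p : P3) :
    ContactAt (fun q : P3 => ((q.1, k * q.2.1, k * (q.2.2 + ζ)) : P3)) p := by
  refine ⟨by fun_prop, k, hk, fun v => ?_⟩
  have h : HasFDerivAt (fun q : P3 => ((q.1, k * q.2.1, k * (q.2.2 + ζ)) : P3))
      ((ContinuousLinearMap.fst ℝ ℝ (ℝ × ℝ)).prod
        ((k • (ContinuousLinearMap.fst ℝ ℝ ℝ).comp (ContinuousLinearMap.snd ℝ ℝ (ℝ × ℝ))).prod
          (k • (ContinuousLinearMap.snd ℝ ℝ ℝ).comp (ContinuousLinearMap.snd ℝ ℝ (ℝ × ℝ))))) p := by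
    refine hasFDerivAt_fst.prodMk (HasFDerivAt.prodMk ?_ ?_)
    · exact (hasFDerivAt_fst.comp p hasFDerivAt_snd).const_mul k
    · exact ((hasFDerivAt_snd.comp p hasFDerivAt_snd).add_const ζ).const_mul k
  rw [h.fderiv]
  simp only [al, ContinuousLinearMap.prod_apply, smul_apply,
    ContinuousLinearMap.comp_apply, ContinuousLinearMap.coe_fst', ContinuousLinearMap.coe_snd',
    smul_eq_mul]
  ring

theorem slabS_transl (e : ℝ) (p : P3) : ContactAt (fun q : P3 => q + ((0, 0, e) : P3)) p := by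
  refine ⟨by fun_prop, 1, one_pos, fun v => ?_⟩
  have h : HasFDerivAt (fun q : P3 => q + ((0, 0, e) : P3)) (ContinuousLinearMap.id ℝ P3) p :=
    (hasFDerivAt_id p).add_const _
  rw [h.fderiv]
  simp [al]

theorem slabS_abs_es (c : Bool) : |es c| = 1 := by
  cases c <;> simp [es]

theorem slabS_mem {ζ ε ρ : ℝ} (hζ : 0 < ζ) (hρ : 0 < ρ) (h : ρ ≤ ε) (c : Bool) {p : P3}
    (hp : p ∈ tube ρ) : p + ((0, 0, es c * ζ) : P3) ∈ slab ζ ε := by
  have hp' : p.2.1 ^ 2 + p.2.2 ^ 2 < ρ ^ 2 := hp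
  have h1 : |p.2.1| < ρ := abs_lt_of_sq_lt_sq (by nlinarith [sq_nonneg p.2.2]) hρ.le
  have h2 : |p.2.2| < ρ := abs_lt_of_sq_lt_sq (by nlinarith [sq_nonneg p.2.1]) hρ.le
  refine ⟨?_, ?_⟩
  · simp only [Prod.snd_add, Prod.fst_add, add_zero]
    linarith
  · simp only [Prod.snd_add]
    have h3 := abs_add_le p.2.2 (es c * ζ)
    rw [abs_mul, slabS_abs_es, abs_of_pos hζ] at h3
    linarith

theorem slabS_base {U : ℝ → P3} {E : ℝ} (hE : 0 < E) (hU : IsLeg3 U)
    (hz : ∀ t t' τ : ℝ, |τ| ≤ E + 1 → U t = U t' + (0, 0, τ) → τ = 0) {ζ : ℝ} (hζ : 0 < ζ) :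
    ∃ (ε : ℝ) (j : P3 → P3), 0 < ε ∧ SlabMap j (slab ζ ε) ∧ (∀ p ∈ slab ζ ε, ContactAt j p) ∧
      ∀ (c : Bool) (x : ℝ), j (x, 0, es c * ζ) = if c then U x + (0, 0, E) else U x := by
  obtain ⟨ε1, h1, hbox⟩ := can_box (a := -(1 / 2)) (b := E + 1 / 2) hU
    (fun t t' τ h => hz t t' τ (by linarith))
  obtain ⟨ε2, h2, hct, -⟩ := can_fam (G := fun _ => U) (hU.1.comp contDiff_snd) (fun _ _ => hU)
  obtain ⟨k, hk, hkE⟩ : ∃ k : ℝ, 0 < k ∧ k * (2 * ζ) = E :=
    ⟨E / (2 * ζ), by positivity, by field_simp⟩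
  obtain ⟨ε, hε, e1, e2, e3⟩ : ∃ ε : ℝ, 0 < ε ∧ k * ε ≤ ε1 ∧ k * ε ≤ ε2 ∧ k * ε ≤ 1 / 2 := by
    refine ⟨min ε1 (min ε2 (1 / 2)) / k, by positivity, ?_, ?_, ?_⟩ <;>
      rw [mul_div_cancel₀ _ hk.ne']
    · exact min_le_left _ _
    · exact (min_le_right _ _).trans (min_le_left _ _)
    · exact (min_le_right _ _).trans (min_le_right _ _)
  have hy : ∀ p ∈ slab ζ ε, |k * p.2.1| < k * ε := by
    intro p hp
    rw [abs_mul, abs_of_pos hk]
    exact mul_lt_mul_of_pos_left hp.1 hk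
  have hZ : ∀ p ∈ slab ζ ε, k * (p.2.2 + ζ) ∈ Icc (-(1 / 2)) (E + 1 / 2) := by
    intro p hp
    have h3 := abs_lt.mp hp.2
    constructor
    · nlinarith [mul_lt_mul_of_pos_left h3.1 hk]
    · nlinarith [mul_lt_mul_of_pos_left h3.2 hk]
  refine ⟨ε, fun q => can U (q.1, k * q.2.1, k * (q.2.2 + ζ)), hε, ⟨fun p => ?_, ?_⟩, ?_, ?_⟩
  · exact can_periodic hU.2.1 (p.1, k * p.2.1, k * (p.2.2 + ζ))
  · intro p hp q hq h
    obtain ⟨h3, h4⟩ := hbox (p.1, k * p.2.1, k * (p.2.2 + ζ)) (q.1, k * q.2.1, k * (q.2.2 + ζ))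
      ((hy p hp).trans_le e1) ((hy q hq).trans_le e1) (hZ p hp) (hZ q hq) h
    refine ⟨Prod.ext ?_ ?_, h4⟩
    · exact mul_left_cancel₀ hk.ne' (congrArg Prod.fst h3)
    · exact add_right_cancel (mul_left_cancel₀ hk.ne' (congrArg Prod.snd h3))
  · intro p hp
    exact ContactAt.comp (g := can U)
      (hct 0 ⟨le_rfl, zero_le_one⟩ (p.1, k * p.2.1, k * (p.2.2 + ζ))
        ((hy p hp).trans_le e2)).2.1 (slabS_dil hk p)
  · intro c x
    simp only [mul_zero]
    rw [can_core]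
    cases c
    · simp [es]
    · simp only [es, if_true, one_mul]
      rw [← two_mul, hkE]

theorem exists_slabS {a : Bool → ℝ → P3} {U : ℝ → P3} {E : ℝ} (hE : 0 < E) (hU : IsLeg3 U)
    (hz : ∀ t t' τ : ℝ, |τ| ≤ E + 1 → U t = U t' + (0, 0, τ) → τ = 0)
    (hch : LegChain a fun c t => if c then U t + (0, 0, E) else U t)
    {n : Bool → P3 → P3} {r : ℝ} (hr : 0 < r) (ht : ∀ c, TubeMap (n c) r)
    (hc : ∀ c, ∀ p ∈ tube r, ContactAt (n c) p) (h0 : ∀ c x, n c (x, 0, 0) = a c x)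
    {ζ : ℝ} (hζ : 0 < ζ) :
    ∃ (ε ρ : ℝ) (j : P3 → P3), 0 < ε ∧ 0 < ρ ∧ SlabMap j (slab ζ ε) ∧
      (∀ p ∈ slab ζ ε, ContactAt j p) ∧
      ∀ c, ∀ p ∈ tube ρ, j (p + (0, 0, es c * ζ)) = n c p := by
  obtain ⟨f, g, hfg, r0, hr0, hf⟩ := amb_chain hch
  obtain ⟨ε, j1, hε, hm1, hc1, hk1⟩ := slabS_base hE hU hz hζ
  have hgc : Continuous g := continuous_iff_continuousAt.mpr fun p => (hfg.2.1 p).1.continuousAt
  have hgi : Function.Injective g := fun p q h => by
    rw [← hfg.2.2.2.1 p, h, hfg.2.2.2.1 q]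
  have ha : ∀ c x, a c x = g (if c then U x + (0, 0, E) else U x) := by
    intro c x
    have h1 := hf c (x, 0, 0) (loc_aux_core hr0 x)
    rw [can_core, can_core] at h1
    have h2 : ((0, 0, 0) : P3) = 0 := rfl
    rw [h2, add_zero, add_zero] at h1
    rw [← h1, hfg.2.2.1]
  have hcomp : ∀ c, IsCompact (range (a c)) := by
    intro c
    have h1 : range (a c) = (fun q => g (if c then q + (0, 0, E) else q)) '' range U := by
      rw [← range_comp]
      congr 1
      funext x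
      exact ha c x
    rw [h1]
    refine hU.isCompact.image (hgc.comp ?_)
    cases c
    · exact continuous_id
    · exact continuous_id.add continuous_const
  have hdis : Disjoint (range (a false)) (range (a true)) := by
    rw [Set.disjoint_left]
    rintro _ ⟨x, rfl⟩ ⟨y, hy⟩
    rw [ha, ha] at hy
    have h1 := hgi hy
    have h2 := hz x y E (by rw [abs_of_pos hE]; linarith) h1.symm
    exact hE.ne' h2
  obtain ⟨V0, V1, o0, o1, s0, s1, hV⟩ :=
    SeparatedNhds.of_isCompact_isCompact (hcomp false) (hcomp true) hdis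
  set ρ := min ε r with hρ
  have hρ0 : 0 < ρ := lt_min hε hr
  let n0 : Bool → P3 → P3 := fun c p => g (j1 (p + (0, 0, es c * ζ)))
  have t0 : ∀ c, TubeMap (n0 c) ρ := by
    intro c
    refine ⟨fun p => ?_, fun p hp q hq h => ?_⟩
    · have h1 := hm1.1 (p + (0, 0, es c * ζ))
      have h2 : ((p.1 + 1, p.2) : P3) + (0, 0, es c * ζ) =
          ((p + ((0, 0, es c * ζ) : P3)).1 + 1, (p + ((0, 0, es c * ζ) : P3)).2) := by
        simp
      show g (j1 _) = g (j1 _)
      rw [h2, h1]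
    · obtain ⟨h1, k, h2⟩ := hm1.2 _ (slabS_mem hζ hρ0 (min_le_left _ _) c hp) _
        (slabS_mem hζ hρ0 (min_le_left _ _) c hq) (hgi h)
      refine ⟨?_, k, ?_⟩
      · exact add_right_cancel (b := ((0, es c * ζ) : ℝ × ℝ)) h1
      · simpa using h2
  have c0 : ∀ c, ∀ p ∈ tube ρ, ContactAt (n0 c) p := by
    intro c p hp
    exact ContactAt.comp (g := g) (hfg.2.1 _)
      (ContactAt.comp (g := j1) (hc1 _ (slabS_mem hζ hρ0 (min_le_left _ _) c hp))
        (slabS_transl _ p))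
  have k0 : ∀ c x, n0 c (x, 0, 0) = a c x := by
    intro c x
    have h2 : ((x, 0, 0) : P3) + (0, 0, es c * ζ) = (x, 0, es c * ζ) := by simp
    show g (j1 _) = _
    rw [h2, hk1, ha]
  have t1 : ∀ c, TubeMap (n c) ρ := fun c => amb_aux_tube (ht c) hρ0.le (min_le_right _ _)
  have c1 : ∀ c, ∀ p ∈ tube ρ, ContactAt (n c) p := fun c p hp =>
    hc c p (tube_mono hρ0.le (min_le_right _ _) hp)
  obtain ⟨F0, G0, hF0, hoff0, r1, hr1, hm0⟩ := tube_match hρ0 (t0 false) (t1 false) (c0 false)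
    (c1 false) (fun x => by rw [k0, h0]) o0 (fun x => by rw [k0]; exact s0 ⟨x, rfl⟩)
  obtain ⟨F1, G1, hF1, hoff1, r2, hr2, hm2⟩ := tube_match hρ0 (t0 true) (t1 true) (c0 true)
    (c1 true) (fun x => by rw [k0, h0]) o1 (fun x => by rw [k0]; exact s1 ⟨x, rfl⟩)
  obtain ⟨r3, hr3, -, hin0⟩ := amb_aux_shrink (ι := Unit) (N := fun _ _ => n false) hρ0 o0
    (fun _ s _ p hp => ContinuousAt.comp (g := n false) (f := Prod.snd)
      (c1 false p hp).1.continuousAt continuousAt_snd)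
    (fun _ _ _ => t1 false) (fun _ _ _ x => by rw [h0]; exact s0 ⟨x, rfl⟩)
  obtain ⟨r4, hr4, -, hin1⟩ := amb_aux_shrink (ι := Unit) (N := fun _ _ => n0 true) hρ0 o1
    (fun _ s _ p hp => ContinuousAt.comp (g := n0 true) (f := Prod.snd)
      (c0 true p hp).1.continuousAt continuousAt_snd)
    (fun _ _ _ => t0 true) (fun _ _ _ x => by rw [k0]; exact s1 ⟨x, rfl⟩)
  have hi0 : Function.Injective F0 := fun p q h => by
    rw [← hF0.2.2.1 p, h, hF0.2.2.1 q]
  have hi1 : Function.Injective F1 := fun p q h => by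
    rw [← hF1.2.2.1 p, h, hF1.2.2.1 q]
  have hm : 0 < min (min r1 r2) (min r3 r4) := lt_min (lt_min hr1 hr2) (lt_min hr3 hr4)
  refine ⟨ε, min (min r1 r2) (min r3 r4), fun p => F1 (F0 (g (j1 p))), hε, hm,
    ⟨fun p => ?_, fun p hp q hq h => hm1.2 p hp q hq (hgi (hi0 (hi1 h)))⟩, fun p hp => ?_,
    fun c p hp => ?_⟩
  · show F1 (F0 (g (j1 _))) = F1 (F0 (g (j1 _)))
    rw [hm1.1]
  · exact ContactAt.comp (g := F1) (hF1.1 _) (ContactAt.comp (g := F0) (hF0.1 _)
      (ContactAt.comp (g := g) (hfg.2.1 _) (hc1 p hp)))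
  · show F1 (F0 (n0 c p)) = n c p
    cases c
    · rw [hm0 p (tube_mono hm.le ((min_le_left _ _).trans (min_le_left _ _)) hp)]
      apply hoff1
      exact Set.disjoint_left.mp hV (hin0 () 0 ⟨le_rfl, zero_le_one⟩ p
        (tube_mono hm.le ((min_le_right _ _).trans (min_le_left _ _)) hp))
    · rw [hoff0, hm2 p (tube_mono hm.le ((min_le_left _ _).trans (min_le_right _ _)) hp)]
      exact Set.disjoint_right.mp hV (hin1 () 0 ⟨le_rfl, zero_le_one⟩ p
        (tube_mono hm.le ((min_le_right _ _).trans (min_le_right _ _)) hp))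

end Pool.Agent.Lib.MP_4d7d0a_gt
end

-- part Pool.Agent.Lib.MP_4d7d0a_gt.A
section

/-! The family of knots with a common surgery. -/

set_option autoImplicit false

open Set Filter Topology
open scoped ContDiff

namespace Pool.Agent.Lib.MP_4d7d0a_gt

namespace AMain

theorem ct_shift (c : ℝ) (p : P3) : ContactAt (fun q : P3 => q + (0, 0, c)) p := by
  refine ⟨by fun_prop, 1, one_pos, fun v => ?_⟩
  rw [fderiv_add_const]
  simp [al]

theorem slab_mono {ζ ε ε' : ℝ} (h : ε ≤ ε') : slab ζ ε ⊆ slab ζ ε' := fun _ hp =>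
  ⟨hp.1.trans_le h, hp.2.trans_le (by linarith)⟩

theorem slabMap_mono {X : Type} {f : P3 → X} {D D' : Set P3} (h : SlabMap f D') (hD : D ⊆ D') :
    SlabMap f D := ⟨h.1, fun p hp q hq => h.2 p (hD hp) q (hD hq)⟩

theorem tube_abs {r : ℝ} (hr : 0 < r) {p : P3} (hp : p ∈ tube r) : |p.2.1| < r ∧ |p.2.2| < r := by
  have h : p.2.1 ^ 2 + p.2.2 ^ 2 < r ^ 2 := hp
  constructor
  · exact abs_lt_of_sq_lt_sq (by nlinarith [sq_nonneg p.2.2]) hr.le
  · exact abs_lt_of_sq_lt_sq (by nlinarith [sq_nonneg p.2.1]) hr.le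

theorem abs_es (c : Bool) : |es c| = 1 := by cases c <;> simp [es]

theorem tube_slab {ζ ε r : ℝ} (hζ : 0 < ζ) (hr : 0 < r) (h : r ≤ ε) (c : Bool) {p : P3}
    (hp : p ∈ tube r) : p + (0, 0, es c * ζ) ∈ slab ζ ε := by
  obtain ⟨h1, h2⟩ := tube_abs hr hp
  refine ⟨by simpa using h1.trans_le h, ?_⟩
  have : |es c * ζ| = ζ := by rw [abs_mul, abs_es, one_mul, abs_of_pos hζ]
  have h3 := abs_add_le p.2.2 (es c * ζ)
  simp only [Prod.snd_add]
  linarith

theorem sg_eq : sg = 16384 := rfl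

theorem chain_U {π : Prof} (hU : IsLeg3 (π.knot WU))
    (hz : ∀ t t' τ : ℝ, |τ| ≤ 33 * sg → π.knot WU t = π.knot WU t' + (0, 0, τ) → τ = 0) :
    LegChain (fun c : Bool => if c then fun t => π.knot WU (t + 4 / 44) + (0, 0, 32 * sg)
      else π.knot WU)
      fun c t => if c then π.knot WU t + (0, 0, 32 * sg) else π.knot WU t := by
  have hne : ∀ t t', π.knot WU t ≠ π.knot WU t' + (0, 0, 32 * sg) := fun t t' h => by
    have := hz t t' (32 * sg) (by rw [sg_eq]; norm_num) h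
    rw [sg_eq] at this
    norm_num at this
  have hK : ∀ c : Bool,
      IsLeg3 fun t => if c then π.knot WU t + (0, 0, 32 * sg) else π.knot WU t := by
    intro c
    cases c
    · simpa using hU
    · simpa using hU.map (f := fun q => q + (0, 0, 32 * sg))
        (fun t => Eventually.of_forall fun q => ct_shift _ q) (add_left_injective _).injOn
  have h := LegChain.of_fam (isLegFam_reparam
    (K := fun (c : Bool) t => if c then π.knot WU t + (0, 0, 32 * sg) else π.knot WU t) hK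
    (fun i j hij t t' => by
      cases i <;> cases j
      · exact absurd rfl hij
      · simpa using hne t t'
      · simpa using (hne t' t).symm
      · exact absurd rfl hij)
    (g := fun c t => t + if c then 4 / 44 else 0) (fun _ => by fun_prop)
    (fun _ t => by simp) (fun _ t => by ring))
  have h' := h.symm
  convert h' using 2 with c c
  · cases c
    · funext t
      simp
    · funext t
      simp
  · funext t
    simp

end AMain

open AMain in
theorem fam_holds : FamStmt := by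
  refine Small.mono (lok_small.and (zok_small.and (cert_chain.and (shift_sound shift_WU)))) ?_
  rintro π ⟨⟨ε₀, hL⟩, hZ, hch, hU, hUz⟩
  obtain ⟨tw⟩ := exists_tw
  obtain ⟨A, B, hA, hB, hAp, hBp, hAB, hcart⟩ := exists_AB tw
  obtain ⟨r0, hr0, ht0, hc0⟩ := can_tube hL.leg
  have hrr : 0 < min r0 ε₀ := lt_min hr0 hL.pos
  have hsub : tube (min r0 ε₀) ⊆ tube r0 := tube_mono hrr.le (min_le_left _ _)
  obtain ⟨M, tM, cM, t2, hAt, sd, hnu, hr, hsA, hsB⟩ := exists_surgery hL.leg hrr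
    (nu := can (π.knot WL)) ⟨ht0.1, fun p hp q hq => ht0.2 p (hsub hp) q (hsub hq)⟩
    (fun p hp => hc0 p (hsub hp)) (fun x => (can_core (π.knot WL) x 0).trans (add_zero _))
    hA hB hAp hBp hAB
  have hc := hcart _ M sd hsA hsB
  obtain ⟨ζ1, hζ1, hslab⟩ := exists_slabM hL tw hAt sd hnu (hr.trans (min_le_right _ _)) hc
  obtain ⟨ζ2, hζ2, hleaf⟩ := leaf_chain hL hZ tw
  obtain ⟨ζ, hζ, hζa, hζb, hζc⟩ : ∃ ζ : ℝ, 0 < ζ ∧ ζ < ζ1 ∧ ζ < ζ2 ∧ ζ < 1 := by
    refine ⟨min (min ζ1 ζ2) 1 / 2, by positivity, ?_, ?_, ?_⟩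
    · have := (min_le_left (min ζ1 ζ2) 1).trans (min_le_left ζ1 ζ2)
      linarith
    · have := (min_le_left (min ζ1 ζ2) 1).trans (min_le_right ζ1 ζ2)
      linarith
    · have := min_le_right (min ζ1 ζ2) 1
      linarith
  obtain ⟨ε1, j', hε1, hε11, hlt, hj'm, hj'c, hj'i, hmid, hcore, hlf, hav⟩ := hslab ζ hζ hζa
  obtain ⟨-, -, hnotL, hlc, hhom⟩ := hleaf ζ hζ hζb
  have hr1 : 0 < min ε1 ζ := lt_min hε1 hζ
  have hin : ∀ c, ∀ p ∈ tube (min ε1 ζ), p + (0, 0, es c * ζ) ∈ slab ζ ε1 := fun c p hp =>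
    tube_slab hζ hr1 (min_le_left _ _) c hp
  have hoff : ∀ c, ∀ p ∈ tube (min ε1 ζ),
      j' (p + (0, 0, es c * ζ)) ∉ range fun x : ℝ => sd.ns (x, 0, 0) := by
    rintro c p hp ⟨x, hx⟩
    have h1 := (hcore _ (hin c p hp) x hx.symm).2
    have h2 := (tube_abs hr1 hp).2.trans_le (min_le_right _ _)
    have h3 : p.2.2 = -(es c * ζ) := by
      simp only [Prod.snd_add] at h1
      linarith
    rw [h3, abs_neg, abs_mul, abs_es, one_mul, abs_of_pos hζ] at h2
    exact lt_irrefl _ h2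
  have hps : ∀ c, ∀ p ∈ tube (min ε1 ζ),
      cai (sd.th (j' (p + (0, 0, es c * ζ)))) ∉ range (π.knot WL) ∧
        sd.psi (cai (sd.th (j' (p + (0, 0, es c * ζ))))) = j' (p + (0, 0, es c * ζ)) :=
    fun c p hp => sd.psi_cai (hoff c p hp) (hj'i _ (hin c p hp))
  obtain ⟨ε2, ρ2, j, hε2, hρ2, hjm, hjc, hjn⟩ := exists_slabS (a := fun c => leaf π tw ζ c 0)
    (E := 32 * sg) (by rw [sg_eq]; norm_num) hU
    (fun t t' τ hτ => hUz t t' τ (hτ.trans (by rw [sg_eq]; norm_num)))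
    ((hlc.trans hch).trans (chain_U hU hUz))
    (n := fun c p => cai (sd.th (j' (p + (0, 0, es c * ζ))))) hr1
    (fun c => ⟨fun p => by
        have := hj'm.1 (p + (0, 0, es c * ζ))
        simp only [Prod.fst_add, add_zero, Prod.snd_add] at this
        have e : ((p.1 + 1, p.2) : P3) + (0, 0, es c * ζ) = (p.1 + 1, p.2 + (0, es c * ζ)) := by
          simp
        simp only [e, this], fun p hp q hq h => by
        have h1 : j' (p + (0, 0, es c * ζ)) = j' (q + (0, 0, es c * ζ)) := by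
          rw [← (hps c p hp).2, ← (hps c q hq).2]
          exact congrArg _ h
        obtain ⟨h2, k, h3⟩ := hj'm.2 _ (hin c p hp) _ (hin c q hq) h1
        exact ⟨by simpa using h2, k, by simpa using h3⟩⟩)
    (fun c p hp => by
      have h1 : CtInto (fun q => j' (q + (0, 0, es c * ζ))) p :=
        CtInto.comp (F := j') (f := fun q => q + (0, 0, es c * ζ)) (hj'c _ (hin c p hp))
          (ct_shift _ p)
      have h2 := ct4_comp_into (G := sd.th) (F := fun q => j' (q + (0, 0, es c * ζ))) (p := p)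
        (sd.th_ct _ (hoff c p hp)) h1
      refine h2.cai ?_ fun h => ?_
      · filter_upwards [(isOpen_tube _).mem_nhds hp] with q hq
        exact (sd.th_bij.mapsTo (hoff c q hq)).1
      · exact hj'i _ (hin c p hp)
          (sd.th_bij.injOn (hoff c p hp) sd.minf_not (h.trans sd.th_minf.symm)))
    (fun c x => by
      have e : ((x, 0, 0) : P3) + (0, 0, es c * ζ) = (x, 0, es c * ζ) := by simp
      simp only [e, hlf c x, sd.th_psi _ (hnotL c x), cai_cay]) hζ
  have hε : 0 < min ε1 ε2 := lt_min hε1 hε2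
  have hρ : 0 < min (min ρ2 (min ε1 ζ)) (min ε1 ε2) := by positivity
  have s1 : slab ζ (min ε1 ε2) ⊆ slab ζ ε1 := slab_mono (min_le_left _ _)
  have s2 : slab ζ (min ε1 ε2) ⊆ slab ζ ε2 := slab_mono (min_le_right _ _)
  have hv : 0 < vv := by unfold vv; rw [sg_eq]; norm_num
  have S : Slabs sd ζ (min ε1 ε2) (min (min ρ2 (min ε1 ζ)) (min ε1 ε2)) (1 / (2 * vv)) j j' :=
    { ζ_pos := hζ
      ε_pos := hε
      ρ_pos := hρ
      ρ_le := min_le_right _ _
      κ_pos := by positivity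
      κ_le := by
        have h1 : min ε1 ε2 < 1 := (min_le_left _ _).trans_lt hε11
        have h2 : (1 : ℝ) / (2 * vv) ≤ 1 / 2 := by unfold vv; rw [sg_eq]; norm_num
        nlinarith
      lt_r := by linarith [min_le_left ε1 ε2]
      j_map := slabMap_mono hjm s2
      j_ct := fun p hp => hjc p (s2 hp)
      j'_map := slabMap_mono hj'm s1
      j'_ct := fun p hp => hj'c p (s1 hp)
      mat := fun c p hp => by
        have h1 := tube_mono hρ.le ((min_le_left _ _).trans (min_le_left _ _)) hp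
        have h2 := tube_mono hρ.le ((min_le_left _ _).trans (min_le_right _ _)) hp
        rw [hjn c p h1]
        exact ⟨(hps c p h2).1, (hps c p h2).2.symm⟩
      minf_ne := fun p hp => hj'i p (s1 hp)
      mid := fun y z hy hz => hmid y z (hy.trans_le (min_le_left _ _))
        (hz.trans_le (by linarith [min_le_left ε1 ε2]))
      core := fun p hp => hcore p (s1 hp) }
  obtain ⟨τ, W, hτ⟩ := exists_tau hζ hε
  obtain ⟨T, hT⟩ := exists_twist isContactAtlas_P3 hζ hε S.j_map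
    (fun p hp => ctInto_P3.2 (S.j_ct p hp)) hτ
  obtain ⟨T', hT'⟩ := exists_twist hAt hζ hε S.j'_map S.j'_ct hτ
  have hfam := fun n : ℕ => exists_family hAt hL.leg sd S hτ hT hT' (n : ℤ)
  choose hleg sn hn1 hn2 hn3 hn4 using hfam
  have hW : ∀ p ∈ W, p ∈ slab ζ (min ε1 ε2) := fun p hp =>
    ⟨(hτ.W_sub p hp).1.trans_lt (by linarith), (hτ.W_sub p hp).2.trans (by linarith)⟩
  have psi0 : (sn 0).psi = sd.psi := by
    rw [hn3]
    funext p
    simp [hT.zero, hT'.zero]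
  have ns0 : (sn 0).ns = sd.ns := by
    rw [hn2]
    funext p
    simp [hT'.zero]
  have K0 : (fun t => T ((0 : ℕ) : ℤ) (π.knot WL t)) = π.knot WL := by
    funext t
    simp [hT.zero]
  have key : ∀ m : M, m = sd.minf → ∀ (G : Type) [Group G] (F : PathFun ({m}ᶜ : Set M) G) (n : ℕ),
      IsConj (F.F fun t => T' n (sd.ns (t, 0, 0)))
        (F.F (fun t => sd.psi (loopX π t)) * F.F (fun t => sd.psi (loopY π t)) ^ (-1 * (n : ℤ))) := by
    rintro m rfl G _ F n
    obtain ⟨F0, hF0⟩ := F.exists_comap (S' := (range (π.knot WL))ᶜ) (f := sd.psi)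
      (fun p hp => (sd.psi_ct p hp).1.continuousWithinAt) fun p hp => sd.psi_ne hp
    have hb := tw.β_mem 0
    have he : Real.exp (tw.β 0) ≤ 3 :=
      (Real.exp_le_exp.2 hb.2).trans (Real.exp_one_lt_d9.le.trans (by norm_num))
    have he0 := Real.exp_pos (tw.β 0)
    have h1 := push_hom hL (a := ζ * Real.exp (tw.β 0)) (by positivity)
      (by rw [sg_eq]; nlinarith) F0
    have h2 := hhom G F0
    have e1 : (fun t : ℝ => sd.ns (t, 0, -ζ)) =
        fun t => sd.psi (π.knot WL (t + 41 / 172) - (0, 0, ζ * Real.exp (tw.β 0))) := by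
      funext t
      have := (hc.down t 0 (-ζ) (by nlinarith) (by linarith)).2
      rw [this, hnu]
      simp only [zero_div, mul_zero, tw.R_mid 0 (by norm_num), sub_zero, can_core]
      congr 1
      ext <;> simp
      ring
    have e2 : (fun t : ℝ => j' (t, 0, -ζ)) = fun t => sd.psi (leaf π tw ζ false 0 t) := by
      funext t
      simpa [es] using hlf false t
    refine (core_conj sd S hτ hT' n F).trans ?_
    rw [e1, e2, ← hF0, ← hF0, ← hF0 (loopX π), ← hF0 (loopY π), eq_mul_inv_of_mul_eq h1,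
      eq_mul_inv_of_mul_eq h2, conj_zpow, neg_one_mul]
    exact (isConj_iff.2 ⟨F0.F (vseg π (ζ * Real.exp (tw.β 0))), by group⟩).symm
  refine ⟨M, tM, cM, t2, hAt, ⟨
    { K := fun n t => T n (π.knot WL t)
      leg := hleg
      sd := sn
      K0 := K0
      nu0 := by
        rw [hn1, hnu]
        funext p
        simp [hT.zero]
      minf_eq := fun n => by rw [hn4, hn4]
      ε := -1
      ε_eq := Or.inr rfl
      hp := fun G _ F n => by
        rw [psi0, hn2]
        exact key _ (hn4 0) G F n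
      avoid := fun n x => ?_ }⟩⟩
  rw [psi0, ns0, hn2, K0]
  by_cases hx : sd.ns (x, 0, 0) ∈ j' '' W
  · obtain ⟨w, hw, hw'⟩ := hx
    simp only [← hw', hT'.on _ w (hW w hw)]
    exact hav _ (s1 (hW _ (hτ.W_map _ w hw)))
  · exact Or.inl ⟨x, hT'.off _ _ hx⟩

end Pool.Agent.Lib.MP_4d7d0a_gt
end
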