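import Pool.Agent.Lib.MP_4d7d0a_gt.AHp
import Pool.Agent.Lib.MP_4d7d0a_gt.TFG
import Pool.Agent.Lib.MP_4d7d0a_gt.DST2

/-! Geometric facts on the knot and on the two curves. -/

set_option autoImplicit false

open Set Filter Topology
open scoped ContDiff

namespace Pool.Agent.Lib.MP_4d7d0a_gt

namespace GeoAux

theorem sg_pos : 0 < sg := by norm_num [sg]

theorem vv_pos : 0 < vv := by norm_num [vv, sg]

theorem cyc_of {l : List Z3} {i : ℤ} {v : Z3} (h : realVtx l i = v) : cyc l i = toP3 v :=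
  congrArg toP3 h

theorem rel_shift {W : ℤ → P3} (h : Rel W) (k : ℤ) : Rel fun i => W (i + k) := fun i => by
  have := h (i + k)
  rwa [add_right_comm] at this

theorem rel_rev {W : ℤ → P3} (h : Rel W) : Rel fun i => W (-i) := fun i => by
  have := h (-(i + 1))
  rw [show -(i + 1) + 1 = -i by ring] at this
  linear_combination -this

theorem tip_at (π : Prof) (i : ℤ) (x : ℤ) (h0 : realVtx WL (i - 1) = (x, 16384, 0))
    (h1 : realVtx WL i = (x, 0, 0)) (h2 : realVtx WL (i + 1) = (x, -16384, 0)) {s : ℝ}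
    (hs : |86 * s - i| < 15 / 16) : π.knot WL s = ((x : ℝ), sg * i - vv * s, 0) := by
  have hη := π.small
  obtain ⟨a1, a2⟩ := abs_lt.1 hs
  have e : ((WL.length : ℕ) : ℝ) * s = i + (86 * s - i) := by
    rw [CertAux.len_WL]
    push_cast
    ring
  unfold Prof.knot
  rw [e, π.real_eq_cor rel_WL i (by linarith) (by linarith), cyc_of h0, cyc_of h1, cyc_of h2,
    π.cor_straight (by simp [toP3]) (by simp [toP3])]
  refine Prod.ext ?_ (Prod.ext ?_ ?_)
  · simp [edge, toP3]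
  · simp only [edge, toP3, vv, sg]
    push_cast
    ring
  · simp [edge, toP3]

theorem can_at (π : Prof) (i : ℤ) (x : ℤ) (h0 : realVtx WL (i - 1) = (x, 16384, 0))
    (h1 : realVtx WL i = (x, 0, 0)) (h2 : realVtx WL (i + 1) = (x, -16384, 0)) {p : P3}
    (hs : |86 * p.1 - i| < 15 / 16) : can (π.knot WL) p =
      ((x : ℝ) + p.2.1 / vv, -(vv * (p.1 - i / 86)), p.2.2 - (p.1 - i / 86) * p.2.1) := by
  have hc : Continuous fun s : ℝ => |86 * s - i| := by fun_prop
  have hev : ∀ᶠ s in 𝓝 p.1, π.knot WL s = ((x : ℝ), sg * i - vv * s, 0) := by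
    filter_upwards [(hc.tendsto p.1).eventually (gt_mem_nhds hs)] with s h
    exact tip_at π i x h0 h1 h2 h
  rw [can_tip vv_pos hev]
  refine Prod.ext rfl (Prod.ext ?_ ?_)
  · simp only [vv]
    ring
  · simp only [vv, sg]
    ring

theorem knot_int (π : Prof) (l : List Z3) (s : ℝ) (k : ℤ) : π.knot l (s - k) = π.knot l s := by
  have h : Function.Periodic (π.knot l) 1 := π.knot_periodic l
  have := h.sub_int_mul_eq (x := s) k
  rwa [mul_one] at this

theorem es_sq (c : Bool) : es c * es c = 1 := by cases c <;> simp [es]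

theorem es_abs (c : Bool) : |es c| = 1 := by cases c <;> simp [es]

theorem rel_Wc (c : Bool) : Rel (cyc (Wc c)) := by
  cases c
  · exact rel_Wa
  · exact rel_Wb

theorem len_Wc (c : Bool) : (Wc c).length = 44 := by cases c <;> rfl

theorem Wc41 (c : Bool) : cyc (Wc c) 41 = (-1, -(es c * sg), 0) := by
  cases c
  · rw [cyc_of (v := (-1, 16384, 0)) (by decide +kernel)]
    simp [toP3, es, sg]
  · rw [cyc_of (v := (-1, -16384, 0)) (by decide +kernel)]
    simp [toP3, es, sg]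

theorem Wc42 (c : Bool) : cyc (Wc c) 42 = (-1, 0, 0) := by
  cases c
  · rw [cyc_of (v := (-1, 0, 0)) (by decide +kernel)]
    simp [toP3]
  · rw [cyc_of (v := (-1, 0, 0)) (by decide +kernel)]
    simp [toP3]

theorem Wc43 (c : Bool) : cyc (Wc c) 43 = (1, 0, 0) := by
  cases c
  · rw [cyc_of (v := (1, 0, 0)) (by decide +kernel)]
    simp [toP3]
  · rw [cyc_of (v := (1, 0, 0)) (by decide +kernel)]
    simp [toP3]

theorem Wc44 (c : Bool) : cyc (Wc c) 44 = (1, es c * sg, 0) := by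
  cases c
  · rw [cyc_of (v := (1, -16384, 0)) (by decide +kernel)]
    simp [toP3, es, sg]
  · rw [cyc_of (v := (1, 16384, 0)) (by decide +kernel)]
    simp [toP3, es, sg]

theorem abs_es (c : Bool) {a b : ℝ} (h : |a| ≤ b) : |a * (es c * sg)| ≤ b * sg := by
  rw [abs_mul, abs_mul, es_abs, one_mul, abs_of_pos sg_pos]
  exact mul_le_mul_of_nonneg_right h sg_pos.le

theorem pq (π : Prof) {u : ℝ} (h : |u| ≤ 1 / 2) :
    (-(11 / 20) ≤ (u - π.ab u) / 2 ∧ (u - π.ab u) / 2 ≤ 1 / 20) ∧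
      (-(1 / 20) ≤ (u + π.ab u) / 2 ∧ (u + π.ab u) / 2 ≤ 11 / 20) ∧
      |(u - π.ab u) / 2 * ((u + π.ab u) / 2)| ≤ π.η := by
  have h1 := π.small
  have h0 := π.pos
  obtain ⟨a1, a2⟩ := abs_le.1 (π.ab_close u)
  have a3 := le_abs_self u
  have a4 := neg_abs_le u
  refine ⟨⟨by linarith, by linarith⟩, ⟨by linarith, by linarith⟩, ?_⟩
  have e : (u - π.ab u) / 2 * ((u + π.ab u) / 2) =
      -((π.ab u - |u|) * ((π.ab u + |u|) / 4)) := by
    have := abs_mul_abs_self u
    linarith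
  rw [e, abs_neg]
  have a5 := abs_nonneg u
  exact (real_aux_mul (π.ab_close u) (Y := 1)
    (abs_le.2 ⟨by linarith, by linarith⟩)).trans_eq (mul_one _)

end GeoAux

open GeoAux

theorem lok_small : Small fun π => ∃ ε₀, LOK π ε₀ := by
  refine ((shift_sound shift_WL).and zone_WL).mono fun π ⟨⟨hleg, hz⟩, hzone⟩ => ?_
  obtain ⟨ε₁, h1, hbox⟩ := can_box hleg (a := -(12 * sg)) (b := 12 * sg)
    fun t t' τ hτ => hz t t' τ (by linarith)
  obtain ⟨ε₂, h2, hct, hn⟩ := can_fam (G := fun _ => π.knot WL) (hleg.1.comp contDiff_snd)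
    fun _ _ => hleg
  obtain ⟨ε₃, h3, hn⟩ := hn 1 one_pos
  have z : (0 : ℝ) ∈ Icc (0 : ℝ) 1 := ⟨le_rfl, zero_le_one⟩
  have m1 : min (min ε₁ ε₂) (min ε₃ 1) ≤ ε₁ := (min_le_left _ _).trans (min_le_left _ _)
  have m2 : min (min ε₁ ε₂) (min ε₃ 1) ≤ ε₂ := (min_le_left _ _).trans (min_le_right _ _)
  have m3 : min (min ε₁ ε₂) (min ε₃ 1) ≤ ε₃ := (min_le_right _ _).trans (min_le_left _ _)
  refine ⟨min (min ε₁ ε₂) (min ε₃ 1), lt_min (lt_min h1 h2) (lt_min h3 one_pos),
    (min_le_right _ _).trans (min_le_right _ _), hleg,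
    fun p hp => (hct 0 z p (hp.trans_le m2)).2,
    fun p q hp hq a b => hbox p q (hp.trans_le m1) (hq.trans_le m1) (abs_le.1 a) (abs_le.1 b),
    fun p hp => hn 0 z p (hp.trans_le m3), fun p hp => ?_, fun p hp => ?_, fun s a b => ?_⟩
  · have := can_at π 42 (-1) (by decide +kernel) (by decide +kernel) (by decide +kernel) (p := p)
      (by exact_mod_cast hp)
    rw [this]
    push_cast
    rfl
  · have := can_at π (-1) 1 (by decide +kernel) (by decide +kernel) (by decide +kernel) (p := p)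
      (by push_cast; rwa [sub_neg_eq_add])
    rw [this]
    push_cast
    rw [neg_div, sub_neg_eq_add]
  · obtain ⟨k, hk⟩ : ∃ k : ℤ, k = ⌊s + 1 / 86⌋ := ⟨_, rfl⟩
    have k1 : (k : ℝ) ≤ s + 1 / 86 := hk ▸ Int.floor_le _
    have k2 : s + 1 / 86 < k + 1 := hk ▸ Int.lt_floor_add_one _
    have e : π.knot WL s = π.real (cyc WL) (86 * (s - k)) := by
      rw [← knot_int π WL s k]
      unfold Prof.knot
      rw [CertAux.len_WL]
      rfl
    rw [e] at a b
    rcases hzone _ (by linarith) (by linarith) a b with h | h | h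
    · exact ⟨k, Or.inr (abs_le.2 ⟨by linarith, by linarith⟩)⟩
    · exact ⟨k, Or.inl (abs_le.2 ⟨by linarith [h.1], by linarith [h.2]⟩)⟩
    · refine ⟨k + 1, Or.inr (abs_le.2 ⟨?_, ?_⟩)⟩
      · push_cast
        linarith
      · push_cast
        linarith

theorem zok_small : Small ZOK := by
  refine (small_lt (c := 1 / 65536) (by norm_num)).mono fun π hη => ?_
  have h0 := π.pos
  refine ⟨fun c => π.real_smooth (rel_Wc c), fun c T => ?_, fun c T => π.real_leg (rel_Wc c) T,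
    fun c T a b => ?_, fun c T a b => ?_, fun c T a b => ?_⟩
  · have h1 := π.real_shift (cyc (Wc c)) 44 T
    have h2 : (fun i => cyc (Wc c) (i + 44)) = cyc (Wc c) := funext fun i => by
      have := cyc_add_length (Wc c) i
      rwa [len_Wc] at this
    rw [h2] at h1
    exact_mod_cast h1.symm
  · unfold Prof.knot
    rw [CertAux.len_WL]
    cases c
    · have e : ((86 : ℕ) : ℝ) * ((42 + es false * (42 - T)) / 86) = T := by
        simp only [es]
        push_cast
        ring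
      rw [e]
      exact π.real_local rel_Wa rel_WL cyc_Wa_eq (by push_cast; linarith) (by push_cast; linarith)
    · have e : ((86 : ℕ) : ℝ) * ((42 + es true * (42 - T)) / 86) = -T + (84 : ℤ) := by
        simp only [es]
        push_cast
        ring
      rw [e, ← π.real_shift, ← π.real_rev (rel_shift rel_WL 84)]
      exact π.real_local rel_Wb (rel_rev (rel_shift rel_WL 84))
        (fun i a b => (cyc_Wb_eq i a b).trans (congrArg _ (by ring)))
        (by push_cast; linarith) (by push_cast; linarith)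
  · have hs := sg_pos.ne'
    have he := es_sq c
    rcases le_total T (42 + 1 / 2) with h | h
    · obtain ⟨d1, d2⟩ := π.real_deriv (rel_Wc c) 42 (u := T - 42) (by linarith) (by linarith)
      have e : ((42 : ℤ) : ℝ) + (T - 42) = T := by
        push_cast
        ring
      rw [e, show (42 : ℤ) - 1 = 41 from rfl, show (42 : ℤ) + 1 = 43 from rfl, Wc41, Wc42,
        Wc43] at d1 d2
      obtain ⟨a1, -⟩ := abs_le.1 (π.ab_der (T - 42))
      have e2 : es c / sg * (deriv (π.real (cyc (Wc c))) T).2.1 =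
          (1 - deriv π.ab (T - 42)) / 2 := by
        rw [d2]
        field_simp
        linear_combination sg * (1 - deriv π.ab (T - 42)) * he
      rw [e2, d1]
      dsimp only
      linarith
    · obtain ⟨d1, d2⟩ := π.real_deriv (rel_Wc c) 43 (u := T - 43) (by linarith) (by linarith)
      have e : ((43 : ℤ) : ℝ) + (T - 43) = T := by
        push_cast
        ring
      rw [e, show (43 : ℤ) - 1 = 42 from rfl, show (43 : ℤ) + 1 = 44 from rfl, Wc42, Wc43,
        Wc44] at d1 d2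
      obtain ⟨-, a1⟩ := abs_le.1 (π.ab_der (T - 43))
      have e2 : es c / sg * (deriv (π.real (cyc (Wc c))) T).2.1 =
          (1 + deriv π.ab (T - 43)) / 2 := by
        rw [d2]
        field_simp
        linear_combination sg * (1 + deriv π.ab (T - 43)) * he
      rw [e2, d1]
      dsimp only
      linarith
  · have hsg : sg = 16384 := rfl
    rcases le_total T (42 + 1 / 2) with h | h
    · have d := π.real_eq_cor (rel_Wc c) 42 (u := T - 42) (by linarith) (by linarith)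
      have e : ((42 : ℤ) : ℝ) + (T - 42) = T := by
        push_cast
        ring
      rw [e, show (42 : ℤ) - 1 = 41 from rfl, show (42 : ℤ) + 1 = 43 from rfl, Wc41, Wc42,
        Wc43] at d
      obtain ⟨⟨p1, p2⟩, ⟨q1, q2⟩, -⟩ := pq π (u := T - 42) (abs_le.2 ⟨by linarith, by linarith⟩)
      have e1 : (π.real (cyc (Wc c)) T).1 = -1 + 2 * ((T - 42 + π.ab (T - 42)) / 2) := by
        rw [d]
        simp only [Prof.cor]
        ring
      have e2 : (π.real (cyc (Wc c)) T).2.1 = (T - 42 - π.ab (T - 42)) / 2 * (es c * sg) := by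
        rw [d]
        simp only [Prof.cor]
        ring
      have e3 : (π.real (cyc (Wc c)) T).2.2 = 2 * (π.w (T - 42) * (es c * sg)) := by
        rw [d]
        simp only [Prof.cor]
        ring
      rw [e1, e2, e3]
      have b3 := abs_le.1 (abs_es c (π.w_le (T - 42)))
      rw [hsg] at b3
      exact ⟨abs_le.2 ⟨by linarith, by linarith⟩, abs_es c (abs_le.2 ⟨p1, by linarith⟩),
        abs_le.2 ⟨by rw [hsg]; linarith [b3.1], by rw [hsg]; linarith [b3.2]⟩⟩
    · have d := π.real_eq_cor (rel_Wc c) 43 (u := T - 43) (by linarith) (by linarith)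
      have e : ((43 : ℤ) : ℝ) + (T - 43) = T := by
        push_cast
        ring
      rw [e, show (43 : ℤ) - 1 = 42 from rfl, show (43 : ℤ) + 1 = 44 from rfl, Wc42, Wc43,
        Wc44] at d
      obtain ⟨⟨p1, p2⟩, ⟨q1, q2⟩, r⟩ := pq π (u := T - 43) (abs_le.2 ⟨by linarith, by linarith⟩)
      have e1 : (π.real (cyc (Wc c)) T).1 = 1 + 2 * ((T - 43 - π.ab (T - 43)) / 2) := by
        rw [d]
        simp only [Prof.cor]
        ring
      have e2 : (π.real (cyc (Wc c)) T).2.1 = (T - 43 + π.ab (T - 43)) / 2 * (es c * sg) := by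
        rw [d]
        simp only [Prof.cor]
        ring
      have e3 : (π.real (cyc (Wc c)) T).2.2 =
          2 * ((T - 43 - π.ab (T - 43)) / 2 * ((T - 43 + π.ab (T - 43)) / 2) * (es c * sg)) -
            2 * (π.w (T - 43) * (es c * sg)) := by
        rw [d]
        simp only [Prof.cor]
        ring
      rw [e1, e2, e3]
      have b3 := abs_le.1 (abs_es c (π.w_le (T - 43)))
      have b4 := abs_le.1 (abs_es c r)
      rw [hsg] at b3 b4
      exact ⟨abs_le.2 ⟨by linarith, by linarith⟩, abs_es c (abs_le.2 ⟨by linarith, q2⟩),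
        abs_le.2 ⟨by rw [hsg]; linarith [b3.2, b4.1], by rw [hsg]; linarith [b3.1, b4.2]⟩⟩

/-- a chart point over the gap lies over a tip -/
theorem LOK.tip {π : Prof} {ε₀ : ℝ} (h : LOK π ε₀) {p : P3} (hp : |p.2.1| < ε₀)
    (hx : |(can (π.knot WL) p).1| ≤ 4) (hy : |(can (π.knot WL) p).2.1| ≤ 3 / 5 * sg) :
    ∃ k : ℤ, |86 * (p.1 - k) - 42| ≤ 7 / 8 ∨ |86 * (p.1 - k) + 1| ≤ 7 / 8 := by
  have h1 := h.near p hp
  have h2 := (norm_fst_le _).trans_lt h1
  have h3 := ((norm_fst_le _).trans (norm_snd_le _)).trans_lt h1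
  simp only [Prod.fst_sub, Prod.snd_sub, Prod.fst_add, Prod.snd_add, add_zero,
    Real.norm_eq_abs] at h2 h3
  have hsg : sg = 16384 := rfl
  obtain ⟨a1, a2⟩ := abs_lt.1 h2
  obtain ⟨a3, a4⟩ := abs_lt.1 h3
  obtain ⟨b1, b2⟩ := abs_le.1 hx
  obtain ⟨b3, b4⟩ := abs_le.1 hy
  exact h.zone p.1 (abs_le.2 ⟨by linarith, by linarith⟩) (abs_le.2 ⟨by linarith, by linarith⟩)

theorem LOK.can_int {π : Prof} {ε₀ : ℝ} (h : LOK π ε₀) (p : P3) (k : ℤ) :
    can (π.knot WL) (p.1 + k, p.2) = can (π.knot WL) p :=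
  CanAux.can_int h.leg.2.1 p.1 k p.2

theorem LOK.geo_tip {π : Prof} {ε₀ : ℝ} (h : LOK π ε₀) {p : P3} (hp : |p.2.1| < ε₀)
    (hx : |(can (π.knot WL) p).1| ≤ 4) (hy : |(can (π.knot WL) p).2.1| ≤ 3 / 5 * sg) :
    ∃ σ : ℝ, |σ| ≤ 1 ∧ (can (π.knot WL) p).2.1 = -(vv * σ) ∧
      (can (π.knot WL) p).2.2 = p.2.2 - σ * p.2.1 := by
  obtain ⟨k, hk⟩ := h.tip hp hx hy
  have e : can (π.knot WL) p = can (π.knot WL) (p.1 - k, p.2) := by
    have := h.can_int (p.1 - k, p.2) k
    rwa [sub_add_cancel] at this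
  rcases hk with hk | hk
  · obtain ⟨a1, a2⟩ := abs_le.1 hk
    rw [e, h.tipL (p.1 - k, p.2) (hk.trans_lt (by norm_num))]
    exact ⟨p.1 - k - 42 / 86, abs_le.2 ⟨by linarith, by linarith⟩, rfl, rfl⟩
  · obtain ⟨a1, a2⟩ := abs_le.1 hk
    rw [e, h.tipR (p.1 - k, p.2) (hk.trans_lt (by norm_num))]
    exact ⟨p.1 - k + 1 / 86, abs_le.2 ⟨by linarith, by linarith⟩, rfl, rfl⟩

theorem LOK.geo_gap {π : Prof} {ε₀ : ℝ} (h : LOK π ε₀) {p q : P3} (hp : |p.2.1| < ε₀)
    (e : q = can (π.knot WL) p) (hx : |q.1| < 1) (hy : q.2.1 = 0) : q.2.2 = p.2.2 := by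
  subst e
  obtain ⟨σ, -, h2, h3⟩ := h.geo_tip hp (by linarith) (by
    rw [hy, abs_zero]
    have := sg_pos
    positivity)
  have h4 : σ = 0 := by
    rw [hy] at h2
    exact (mul_eq_zero.1 (neg_eq_zero.1 h2.symm)).resolve_left vv_pos.ne'
  rw [h3, h4, zero_mul, sub_zero]

theorem LOK.geo_zone {π : Prof} {ε₀ : ℝ} (h : LOK π ε₀) {p q : P3} (hp : |p.2.1| < ε₀)
    (e : q = can (π.knot WL) p) (hx : |q.1| ≤ 4) (hy : |q.2.1| ≤ 3 / 5 * sg) :
    |q.2.2 - p.2.2| ≤ 1 := by
  subst e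
  obtain ⟨σ, h1, -, h3⟩ := h.geo_tip hp hx hy
  rw [h3, sub_sub_cancel_left, abs_neg]
  exact (real_aux_mul h1 (hp.le.trans h.le_one)).trans_eq (mul_one _)

theorem LOK.reg_disj {π : Prof} {ε₀ : ℝ} (h : LOK π ε₀) {q : P3} (h1 : Reg π ε₀ true q)
    (h2 : Reg π ε₀ false q) : False := by
  have hsg : sg = 16384 := rfl
  have e1 : es true = 1 := rfl
  have e2 : es false = -1 := rfl
  unfold Reg at h1 h2
  rw [e1] at h1
  rw [e2] at h2
  rcases h1 with ⟨p, a1, a2, a3, a4⟩ | ⟨a1, a2, a3⟩ | ⟨a1, a2, a3⟩ <;>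
    rcases h2 with ⟨p', b1, b2, b3, b4⟩ | ⟨b1, b2, b3⟩ | ⟨b1, b2, b3⟩
  · have := congrArg Prod.snd (h.box p p' a1 b1 a3 b3 (a4.symm.trans b4)).1
    linarith
  · have := h.geo_gap a1 a4 b1 b2
    linarith
  · have := (abs_le.1 (h.geo_zone a1 a4 b1 b2)).1
    linarith
  · have := h.geo_gap b1 b4 a1 a2
    linarith
  · linarith
  · linarith
  · have := (abs_le.1 (h.geo_zone b1 b4 a1 a2)).2
    linarith
  · linarith
  · linarith

theorem LOK.reg_not {π : Prof} {ε₀ : ℝ} (h : LOK π ε₀) {c : Bool} {q : P3}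
    (h1 : Reg π ε₀ c q) : q ∉ range (π.knot WL) := by
  rintro ⟨t, ht⟩
  have hsg : sg = 16384 := rfl
  have e : q = can (π.knot WL) (t, 0, 0) := by
    rw [can_core, ht]
    exact (add_zero q).symm
  have h0 : |((t, 0, 0) : P3).2.1| < ε₀ := by
    rw [abs_zero]
    exact h.pos
  rcases h1 with ⟨p, a1, a2, a3, a4⟩ | ⟨a1, a2, a3⟩ | ⟨a1, a2, a3⟩
  · have h2 : p.2.2 = 0 := congrArg Prod.snd (h.box p (t, 0, 0) a1 h0 a3 (by
      rw [abs_zero]
      linarith) (a4.symm.trans e)).1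
    rw [h2, mul_zero] at a2
    exact lt_irrefl _ a2
  · have h2 : q.2.2 = 0 := h.geo_gap h0 e a1 a2
    rw [h2, mul_zero] at a3
    exact lt_irrefl _ a3
  · have h2 := h.geo_zone h0 e a1 a2
    rw [sub_zero] at h2
    have h3 := le_abs_self (es c * q.2.2)
    rw [abs_mul, es_abs, one_mul] at h3
    linarith

end Pool.Agent.Lib.MP_4d7d0a_gt
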