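import Pool.Agent.Lib.MP_4d7d0a_gt.CableSnd

-- part Pool.Agent.Lib.MP_4d7d0a_gt.CableBand
section

/-! The parallel bands and the planar end. -/

set_option autoImplicit false

open Set Filter Topology

namespace Pool.Agent.Lib.MP_4d7d0a_gt

namespace Cab

variable {κ ι : Type}

theorem band_ia (σ : Equiv.Perm ι) (x : ι) : σ⁻¹ (σ x) = x := σ.symm_apply_apply x

theorem band_ai (σ : Equiv.Perm ι) (x : ι) : σ (σ⁻¹ x) = x := σ.apply_symm_apply x

/-- the band at the level `t` -/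
def band_H (σ : Equiv.Perm ι) (Q V : ι → P3) (a c : ι) (t : ℝ) : Set P3 :=
  convexHull ℝ {lv Q V t a, lv Q V t (σ a), lv Q V t c, lv Q V t (σ c)}

theorem band_lm (f : P3 →ₗ[ℝ] ℝ) (x y : P3) (u : ℝ) :
    f (AffineMap.lineMap x y u) = f x + u * (f y - f x) := by
  simp only [AffineMap.lineMap_apply, vsub_eq_sub, vadd_eq_add, map_add, map_smul, map_sub,
    smul_eq_mul]
  ring

theorem band_f (f : P3 →ₗ[ℝ] ℝ) (Q V : ι → P3) (t : ℝ) (v : ι) :
    f (lv Q V t v) = f (Q v) + t * f (V v) := by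
  simp [lv]

section

variable {σ σ' : Equiv.Perm ι} {Q V : ι → P3} {a c : ι}

theorem band_crn (B : BandR σ σ' Q V a c) (t : ℝ) {z : P3}
    (hz : z ∈ ({lv Q V t a, lv Q V t (σ a), lv Q V t c, lv Q V t (σ c)} : Set P3)) :
    ∃ p, Crn σ Q a c p ∧ z = p + t • V a := by
  rcases hz with rfl | rfl | rfl | rfl
  · exact ⟨_, Or.inl rfl, rfl⟩
  · exact ⟨_, Or.inr (Or.inl rfl), by rw [lv, B.vb]⟩
  · exact ⟨_, Or.inr (Or.inr (Or.inl rfl)), by rw [lv, B.vc]⟩
  · exact ⟨_, Or.inr (Or.inr (Or.inr rfl)), by rw [lv, B.vd]⟩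

theorem band_sub (B : BandR σ σ' Q V a c) {t : ℝ} {K : Set P3} (hK : Convex ℝ K)
    (h : ∀ p, Crn σ Q a c p → p + t • V a ∈ K) : band_H σ Q V a c t ⊆ K :=
  convexHull_min (fun z hz => by
    obtain ⟨p, hp, rfl⟩ := band_crn B t hz
    exact h p hp) hK

theorem band_le (B : BandR σ σ' Q V a c) {t m : ℝ} {f : P3 →ₗ[ℝ] ℝ} (h0 : f (V a) = 0)
    (h : ∀ p, Crn σ Q a c p → f p ≤ m) {z : P3} (hz : z ∈ band_H σ Q V a c t) : f z ≤ m :=
  band_sub B (convex_halfSpace_le f.isLinear m) (fun p hp => by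
    show f (p + t • V a) ≤ m
    rw [map_add, map_smul, h0, smul_zero, add_zero]
    exact h p hp) hz

theorem band_lev (B : BandR σ σ' Q V a c) {t t' : ℝ} {z : P3} (hz : z ∈ band_H σ Q V a c t)
    (hz' : z ∈ band_H σ Q V a c t') : t = t' := by
  obtain ⟨ν, h0, hν⟩ := B.nrm
  have key : ∀ r, z ∈ band_H σ Q V a c r → ν z = ν (Q a) + r * ν (V a) := fun r hr =>
    band_sub B (convex_hyperplane ν.isLinear (ν (Q a) + r * ν (V a))) (fun p hp => by
      show ν (p + r • V a) = _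
      rw [map_add, map_smul, hν p hp, smul_eq_mul]) hr
  have h1 := (key t hz).symm.trans (key t' hz')
  exact mul_right_cancel₀ h0 (by linarith)

theorem band_mem (σ : Equiv.Perm ι) (Q V : ι → P3) (a c : ι) (t : ℝ) {x : ι}
    (hx : x = a ∨ x = σ a ∨ x = c ∨ x = σ c) : lv Q V t x ∈ band_H σ Q V a c t :=
  subset_convexHull ℝ _ (by rcases hx with rfl | rfl | rfl | rfl <;> simp)

theorem band_seg (σ : Equiv.Perm ι) (Q V : ι → P3) (a c : ι) (t : ℝ) {x y : ι}
    (hx : x = a ∨ x = σ a ∨ x = c ∨ x = σ c) (hy : y = a ∨ y = σ a ∨ y = c ∨ y = σ c) {u : ℝ}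
    (hu : u ∈ Icc (0 : ℝ) 1) :
    (AffineMap.lineMap (lv Q V t x) (lv Q V t y) u : P3) ∈ band_H σ Q V a c t :=
  (convex_convexHull ℝ _).lineMap_mem (band_mem σ Q V a c t hx) (band_mem σ Q V a c t hy) hu

theorem band_key (B : BandR σ σ' Q V a c) {g : ι} (ha : g ≠ a) (hc : g ≠ c) {u t t' : ℝ}
    (hu : u ∈ Icc (0 : ℝ) 1) (ht : t ∈ Icc (0 : ℝ) 1) (ht' : t' ∈ Icc (0 : ℝ) 1)
    (hz : (AffineMap.lineMap (lv Q V t g) (lv Q V t (σ g)) u : P3) ∈ band_H σ Q V a c t') :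
    t = t' ∧ ((u = 0 ∧ (g = σ a ∨ g = σ c)) ∨ (u = 1 ∧ (σ g = a ∨ σ g = c))) := by
  by_cases h1 : σ g = a ∨ σ g = c
  · obtain ⟨f, f0, f1, f2⟩ := B.inn g h1
    have e : f (lv Q V t (σ g)) = f (Q (σ g)) := by
      rcases h1 with h1 | h1 <;> simp [band_f, h1, f0, B.vc]
    have h2 := band_le B f0 f1 hz
    rw [band_lm, e] at h2
    have h3 : u = 1 := le_antisymm hu.2 (by nlinarith [f2 t ht])
    subst h3
    rw [AffineMap.lineMap_apply_one] at hz
    exact ⟨band_lev B (band_mem σ Q V a c t (by tauto)) hz, Or.inr ⟨rfl, h1⟩⟩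
  by_cases h2 : g = σ a ∨ g = σ c
  · obtain ⟨f, f0, f1, f2⟩ := B.out g h2
    have e : f (lv Q V t g) = f (Q g) := by
      rcases h2 with h2 | h2 <;> simp [band_f, h2, f0, B.vb, B.vd]
    have h3 := band_le B f0 f1 hz
    rw [band_lm, e] at h3
    have h4 : u = 0 := le_antisymm (by nlinarith [f2 t ht]) hu.1
    subst h4
    rw [AffineMap.lineMap_apply_zero] at hz
    exact ⟨band_lev B (band_mem σ Q V a c t (by tauto)) hz, Or.inl ⟨rfl, h2⟩⟩
  exfalso
  push Not at h1 h2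
  obtain ⟨f, hf⟩ := B.far g ha hc h1.1 h1.2 h2.1 h2.2
  have h3 : f _ < min (f (lv Q V t g)) (f (lv Q V t (σ g))) :=
    band_sub B (convex_halfSpace_lt f.isLinear _)
      (fun p hp => lt_min (hf p hp t' ht' t ht).1 (hf p hp t' ht' t ht).2) hz
  rw [band_lm, lt_min_iff] at h3
  rcases le_total (f (lv Q V t g)) (f (lv Q V t (σ g))) with h | h
  · nlinarith [h3.1, mul_nonneg hu.1 (sub_nonneg.2 h)]
  · nlinarith [h3.2, mul_nonneg (sub_nonneg.2 hu.2) (sub_nonneg.2 h)]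

theorem band_miss0 (B : BandR σ σ' Q V a c) {s : Equiv.Perm ι} (hs : s = σ ∨ s = σ') (v : ι)
    {u t t' : ℝ} (hu : u ∈ Icc (0 : ℝ) 1) (ht : t ∈ Icc (0 : ℝ) 1) (ht' : t' ∈ Icc (0 : ℝ) 1)
    (hz : (AffineMap.lineMap (lv Q V t v) (lv Q V t (s v)) u : P3) ∈ band_H σ Q V a c t') :
    t = t' := by
  by_cases ha : v = a
  · refine band_lev B (band_seg σ Q V a c t (by tauto) ?_ hu) hz
    rcases hs with rfl | rfl <;> simp [ha, B.s1]
  by_cases hc : v = c
  · refine band_lev B (band_seg σ Q V a c t (by tauto) ?_ hu) hz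
    rcases hs with rfl | rfl <;> simp [hc, B.s2]
  rcases hs with rfl | rfl
  · exact (band_key B ha hc hu ht ht' hz).1
  · rw [B.s3 v ha hc] at hz
    exact (band_key B ha hc hu ht ht' hz).1

theorem band_miss (B : BandR σ σ' Q V a c) {s : Equiv.Perm ι}
    (hs : ∃ o, s = op σ o ∨ s = op σ' o) (v : ι)
    {u t t' : ℝ} (hu : u ∈ Icc (0 : ℝ) 1) (ht : t ∈ Icc (0 : ℝ) 1) (ht' : t' ∈ Icc (0 : ℝ) 1)
    (hz : (AffineMap.lineMap (lv Q V t v) (lv Q V t (s v)) u : P3) ∈ band_H σ Q V a c t') :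
    t = t' := by
  obtain ⟨o, hs⟩ := hs
  cases o
  · refine band_miss0 B (s := s⁻¹) (by rcases hs with rfl | rfl <;> simp [op]) (s v) (u := 1 - u)
      ⟨by linarith [hu.2], by linarith [hu.1]⟩ ht ht' ?_
    rwa [AffineMap.lineMap_apply_one_sub, band_ia]
  · exact band_miss0 B hs v hu ht ht' hz

theorem band_ribInv (h : RibEmb σ Q V) : RibEmb σ⁻¹ Q V := by
  intro v w u hu u' hu' t ht t' ht' e
  by_cases h1 : t = t'
  · subst h1
    have := (h.poly ht).op false v w u hu u' hu' e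
    exact ⟨this.1, this.2, rfl⟩
  · exact absurd e ((h.apart ht ht' h1).op false false v w u (Ico_subset_Icc_self hu) u'
      (Ico_subset_Icc_self hu'))

/-- the reflection of the first coordinate -/
def band_refl : P3 →ₗ[ℝ] P3 where
  toFun p := (-p.1, p.2)
  map_add' p q := by ext <;> simp [add_comm]
  map_smul' c p := by ext <;> simp

theorem band_det (pr : P3 →ₗ[ℝ] P3) {x y z : P3} (h : 0 < det2 (pr (y - x)) (pr (z - y))) :
    0 < det2 ((band_refl.comp pr) (y - z)) ((band_refl.comp pr) (x - y)) := by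
  simp only [det2, band_refl, LinearMap.comp_apply, LinearMap.coe_mk, AddHom.coe_mk, map_sub,
    Prod.fst_sub, Prod.snd_sub] at h ⊢
  linarith

theorem band_inv (B : BandR σ σ' Q V a c) : BandR σ⁻¹ σ'⁻¹ Q V (σ a) (σ c) := by
  have cr : ∀ p, Crn σ⁻¹ Q (σ a) (σ c) p → Crn σ Q a c p := fun p hp => by
    simp only [Crn, band_ia] at hp ⊢
    tauto
  refine ⟨fun h => B.ne (σ.injective h), ?_, ?_, fun g h1 h2 => ?_, band_ribInv B.emb,
    band_ribInv B.emb', ?_, ?_, ?_, ?_, ?_, fun g h1 h2 h3 h4 h5 h6 => ?_, fun g hg => ?_,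
    fun g hg => ?_⟩
  · rw [← B.s2, band_ia, band_ia]
  · rw [← B.s1, band_ia, band_ia]
  · rw [Equiv.Perm.inv_eq_iff_eq, B.s3 _ (fun h => h1 (by rw [← h]; simp))
      (fun h => h2 (by rw [← h]; simp)), band_ai]
  · rw [band_ia, B.vb]
  · rw [B.vd, B.vb]
  · rw [band_ia, B.vc, B.vb]
  · obtain ⟨ν, h0, hν⟩ := B.nrm
    exact ⟨ν, by rwa [B.vb], fun p hp => (hν p (cr p hp)).trans (hν _ (Or.inr (Or.inl rfl))).symm⟩
  · obtain ⟨pr, h1, h2, h3, h4⟩ := B.cvx
    simp only [band_ia]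
    exact ⟨band_refl.comp pr, band_det pr h4, band_det pr h3, band_det pr h2, band_det pr h1⟩
  · simp only [band_ia] at h5 h6
    obtain ⟨f, hf⟩ := B.far (σ⁻¹ g) (fun h => h1 (by rw [← h]; simp))
      (fun h => h2 (by rw [← h]; simp)) (by simpa using h5) (by simpa using h6) h3 h4
    refine ⟨f, fun p hp t ht t' ht' => ?_⟩
    have := hf p (cr p hp) t ht t' ht'
    rw [band_ai] at this
    rw [B.vb]
    exact this.symm
  · obtain ⟨f, f0, f1, f2⟩ := B.out (σ⁻¹ g) hg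
    rw [band_ai] at f2
    exact ⟨f, by rwa [B.vb], fun p hp => f1 p (cr p hp), f2⟩
  · simp only [band_ia] at hg
    obtain ⟨f, f0, f1, f2⟩ := B.inn (σ⁻¹ g) (by simpa using hg)
    rw [band_ai] at f1 f2
    exact ⟨f, by rwa [B.vb], fun p hp => f1 p (cr p hp), f2⟩

end

/-- strands before and after the band move at different levels are disjoint -/
theorem BandR.apart {σ σ' : Equiv.Perm ι} {Q V : ι → P3} {a c : ι} (B : BandR σ σ' Q V a c)
    {τ τ' : ℝ} (hτ : τ ∈ Icc (0 : ℝ) 1) (hτ' : τ' ∈ Icc (0 : ℝ) 1) (hne : τ ≠ τ') :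
    PolyApart σ σ' (lv Q V τ) (lv Q V τ') := by
  intro v w u hu u' hu' e
  by_cases ha : w = a
  · exact hne (band_miss0 B (Or.inl rfl) v hu hτ hτ'
      (e ▸ band_seg σ Q V a c τ' (by tauto) (by simp [ha, B.s1]) hu'))
  by_cases hc : w = c
  · exact hne (band_miss0 B (Or.inl rfl) v hu hτ hτ'
      (e ▸ band_seg σ Q V a c τ' (by tauto) (by simp [hc, B.s2]) hu'))
  rw [B.s3 w ha hc] at e
  exact B.emb.apart hτ hτ' hne v w u hu u' hu' e

theorem band_emb {σ σ' : Equiv.Perm ι} {Q V : ι → P3} {a c : ι} (B : BandR σ σ' Q V a c)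
    {τ : κ → ℝ} (hτ : Lev τ) {s : κ → Equiv.Perm ι}
    (hs : ∀ j, ∃ o, s j = op σ o ∨ s j = op σ' o) :
    EmbE (sp s) (cab s Q V τ) (fun a _ => lv Q V (τ a.1) (s a.1 a.2) - lv Q V (τ a.1) a.2) := by
  refine cab_embE (fun i => ?_) fun i j hij => ?_
  · obtain ⟨o, h | h⟩ := hs i <;> rw [h]
    · exact (B.emb.poly (hτ.2 i)).op o
    · exact (B.emb'.poly (hτ.2 i)).op o
  · have hne : τ i ≠ τ j := fun h => hij (hτ.1 h)
    obtain ⟨o, h | h⟩ := hs i <;> obtain ⟨o', h' | h'⟩ := hs j <;> rw [h, h']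
    · exact (B.emb.apart (hτ.2 i) (hτ.2 j) hne).op o o'
    · exact (B.apart (hτ.2 i) (hτ.2 j) hne).op o o'
    · exact fun v w u hu u' hu' e =>
        (B.apart (hτ.2 j) (hτ.2 i) hne.symm).op o' o w v u' hu' u hu e.symm
    · exact (B.emb'.apart (hτ.2 i) (hτ.2 j) hne).op o o'

theorem band_aux (T : KTheory) [Finite κ] [Finite ι] [DecidableEq κ] {σ σ' : Equiv.Perm ι}
    {Q V : ι → P3} {a c : ι} (B : BandR σ σ' Q V a c) {τ : κ → ℝ} (hτ : Lev τ)
    (s : κ → Equiv.Perm ι) (hs : ∀ j, ∃ o, s j = op σ o ∨ s j = op σ' o) (i : κ)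
    (hi : s i = σ) {q : ℤ} (h : T.V (⟨sp s, cab s Q V τ⟩ : CPL (κ × ι)) q) :
    T.V (⟨sp (Function.update s i σ'), cab (Function.update s i σ') Q V τ⟩ : CPL (κ × ι))
      (q - 1) := by
  have hs' : ∀ j, ∃ o, Function.update s i σ' j = op σ o ∨ Function.update s i σ' j = op σ' o := by
    intro j
    by_cases hj : j = i
    · subst hj
      exact ⟨true, Or.inr (Function.update_self _ _ _)⟩
    · rw [Function.update_of_ne hj]
      exact hs j
  have same : ∀ g : κ × ι, g ≠ (i, a) → g ≠ (i, c) →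
      Function.update s i σ' g.1 g.2 = s g.1 g.2 := by
    rintro ⟨j, v⟩ h1 h2
    by_cases hj : j = i
    · subst hj
      rw [Function.update_self, hi]
      exact B.s3 v (fun e => h1 (by rw [e])) fun e => h2 (by rw [e])
    · rw [Function.update_of_ne hj]
  obtain ⟨pr, c1, c2, c3, c4⟩ := B.cvx
  have eA : lv Q V (τ i) a = Q a + τ i • V a := rfl
  have eB : lv Q V (τ i) (σ a) = Q (σ a) + τ i • V a := by rw [lv, B.vb]
  have eC : lv Q V (τ i) c = Q c + τ i • V a := by rw [lv, B.vc]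
  have eD : lv Q V (τ i) (σ c) = Q (σ c) + τ i • V a := by rw [lv, B.vd]
  refine T.saddle ⟨sp s, cab s Q V τ⟩ _ _ (i, a) (i, c) (lv Q V (τ i) a) (lv Q V (τ i) (σ a))
    (lv Q V (τ i) c) (lv Q V (τ i) (σ c)) pr q (band_emb B hτ hs) ⟨_, band_emb B hτ hs'⟩
    (fun e => B.ne (congrArg Prod.snd e)) ?_ ?_ (fun g h1 h2 => ?_) (fun g h1 h2 u _ => ?_)
    (fun u _ => ?_) ?_ ?_ ?_ ?_ h
  · simp [sp_apply, hi, B.s1]
  · simp [sp_apply, hi, B.s2]
  · simp only [sp_apply, same g h1 h2]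
  · simp only [cab, same g h1 h2]
  · simp [cab, hi, B.s1, B.s2]
  · rw [eA, eB, eC, eD]
    simp only [add_sub_add_right_eq_sub]
    exact ⟨c1, c2, c3, c4⟩
  · rintro ⟨j, v⟩ h1 h2 u hu hz
    obtain rfl : j = i := hτ.1 (band_miss B (hs j) v hu (hτ.2 j) (hτ.2 i) hz)
    simp only [cab, hi] at hz
    have := (band_key B (fun e => h1 (by rw [e])) (fun e => h2 (by rw [e])) hu (hτ.2 j) (hτ.2 j)
      hz).2
    simpa [sp_apply, hi] using this
  · rintro ⟨j, v⟩ hg
    simp only [sp_apply, Prod.mk.injEq] at hg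
    obtain rfl : j = i := by tauto
    have hg' : σ v = a ∨ σ v = c := by simpa [hi] using hg
    obtain ⟨f, f0, f1, f2⟩ := B.inn v hg'
    have e : f (lv Q V (τ j) (σ v)) = f (Q (σ v)) := by
      rcases hg' with h1 | h1 <;> simp [band_f, h1, f0, B.vc]
    refine ⟨f, ?_, fun p hp => ?_⟩
    · simp only [hi, map_sub, e]
      linarith [f2 _ (hτ.2 j)]
    · simp only [cab, hi, AffineMap.lineMap_apply_one, e]
      exact band_le B f0 f1 (subset_convexHull ℝ _ hp)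
  · rintro ⟨j, v⟩ hg
    simp only [sp_apply, Prod.mk.injEq] at hg
    obtain rfl : j = i := by tauto
    have hg' : v = σ a ∨ v = σ c := by simpa [hi] using hg
    obtain ⟨f, f0, f1, f2⟩ := B.out v hg'
    have e : f (lv Q V (τ j) v) = f (Q v) := by
      rcases hg' with h1 | h1 <;> simp [band_f, h1, f0, B.vb, B.vd]
    refine ⟨f, ?_, fun p hp => ?_⟩
    · simp only [hi, map_sub, e]
      linarith [f2 _ (hτ.2 j)]
    · simp only [cab, AffineMap.lineMap_apply_zero, e]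
      exact band_le B f0 f1 (subset_convexHull ℝ _ hp)

/-- one saddle on the strand `i` -/
theorem band_one (T : KTheory) [Finite κ] [Finite ι] [DecidableEq κ] {σ σ' : Equiv.Perm ι}
    {Q V : ι → P3} {a c : ι} (B : BandR σ σ' Q V a c) {τ : κ → ℝ} (hτ : Lev τ) (o : κ → Bool)
    (s : κ → Equiv.Perm ι) (hs : ∀ j, s j = op σ (o j) ∨ s j = op σ' (o j)) (i : κ)
    (hi : s i = op σ (o i)) {q : ℤ} (h : T.V (⟨sp s, cab s Q V τ⟩ : CPL (κ × ι)) q) :
    T.V (⟨sp (Function.update s i (op σ' (o i))),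
      cab (Function.update s i (op σ' (o i))) Q V τ⟩ : CPL (κ × ι)) (q - 1) := by
  cases ho : o i
  · rw [ho] at hi
    refine band_aux T (band_inv B) hτ s (fun j => ⟨!o j, ?_⟩) i hi h
    have := hs j
    revert this
    cases o j <;> simp [op]
  · rw [ho] at hi
    exact band_aux T B hτ s (fun j => ⟨o j, hs j⟩) i hi h

theorem band_V (T : KTheory) {k : ℕ} [Finite ι] {σ σ' : Equiv.Perm ι} {Q V : ι → P3} {a c : ι}
    (B : BandR σ σ' Q V a c) {τ : Fin k → ℝ} (hτ : Lev τ) (o : Fin k → Bool) {q : ℤ}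
    (h : T.V (⟨sp fun i => op σ (o i), cab (fun i => op σ (o i)) Q V τ⟩ : CPL (Fin k × ι)) q) :
    T.V (⟨sp fun i => op σ' (o i), cab (fun i => op σ' (o i)) Q V τ⟩ : CPL (Fin k × ι))
      (q - k) := by
  let s : ℕ → Fin k → Equiv.Perm ι := fun m i => if i.val < m then op σ' (o i) else op σ (o i)
  have key : ∀ m ≤ k, T.V (⟨sp (s m), cab (s m) Q V τ⟩ : CPL (Fin k × ι)) (q - m) := by
    intro m
    induction m with
    | zero => intro _; simpa [s] using h
    | succ m ih =>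
      intro hm
      have h1 := band_one T B hτ o (s m) (fun j => by simp only [s]; split_ifs <;> simp) ⟨m, hm⟩
        (by simp [s]) (ih (Nat.le_of_succ_le hm))
      have e : Function.update (s m) ⟨m, hm⟩ (op σ' (o ⟨m, hm⟩)) = s (m + 1) := by
        funext j
        by_cases hj : j = ⟨m, hm⟩
        · subst hj
          simp [s]
        · have : j.val ≠ m := fun e => hj (Fin.ext e)
          rw [Function.update_of_ne hj]
          simp only [s]
          exact if_congr (by omega) rfl rfl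
      rw [e] at h1
      push_cast
      rwa [← sub_sub]
  have e : s k = fun i => op σ' (o i) := funext fun i => if_pos i.isLt
  have := key k le_rfl
  rwa [e] at this

theorem unlink_cab (T : KTheory) {k : ℕ} [Finite ι] {σ : Equiv.Perm ι} {Q V : ι → P3}
    (h : RibEmb σ Q V) (hp : ∀ v, (Q v).2.1 = 0 ∧ (V v).2.1 = 0) (comp : ι → Fin 2)
    (hs : Function.Surjective comp) (hc : ∀ v, comp (σ v) = comp v) {τ : Fin k → ℝ} (hτ : Lev τ)
    (o : Fin k → Bool) :
    ¬ T.V (⟨sp fun i => op σ (o i), cab (fun i => op σ (o i)) Q V τ⟩ : CPL (Fin k × ι))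
      (1 - 2 * k) := by
  have h1 := T.unlink (⟨sp fun i => op σ (o i), cab (fun i => op σ (o i)) Q V τ⟩ : CPL (Fin k × ι))
    (k * 2) (fun a => finProdFinEquiv (a.1, comp a.2)) ⟨_, h.embE hτ o⟩ (fun v u _ => ?_)
    (fun x => ?_) fun v => ?_
  · rwa [show ((k * 2 : ℕ) : ℤ) = 2 * k by push_cast; ring] at h1
  · simp [cab, AffineMap.lineMap_apply, lv, hp]
  · obtain ⟨⟨i, j⟩, rfl⟩ := finProdFinEquiv.surjective x
    obtain ⟨v, rfl⟩ := hs j
    exact ⟨(i, v), rfl⟩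
  · simp only [sp_apply]
    congr 2
    cases o v.1
    · exact (hc _).symm.trans (by simp [op])
    · exact hc _

end Cab

end Pool.Agent.Lib.MP_4d7d0a_gt
end

-- part Pool.Agent.Lib.MP_4d7d0a_gt.CableIso
section

/-! Reversal of strands, the first subdivision and the linking number along families. -/

set_option autoImplicit false

open Set Filter Topology

namespace Pool.Agent.Lib.MP_4d7d0a_gt

namespace Cab

theorem iso_closed {ι : Type} {s : Equiv.Perm ι} {c d : ι → ℝ → P3} (h : EmbE s c d) {a b : ι}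
    {u u' : ℝ} (hu : u ∈ Icc (0 : ℝ) 1) (hu' : u' ∈ Icc (0 : ℝ) 1) (e : c a u = c b u') :
    (a = b ∧ u = u') ∨ (u = 1 ∧ u' = 0 ∧ b = s a) ∨ (u = 0 ∧ u' = 1 ∧ a = s b) := by
  have h0 : (0 : ℝ) ∈ Ico (0 : ℝ) 1 := ⟨le_rfl, zero_lt_one⟩
  rcases hu.2.lt_or_eq with h1 | h1 <;> rcases hu'.2.lt_or_eq with h2 | h2
  · exact Or.inl (h.2.2.2.2 a b u ⟨hu.1, h1⟩ u' ⟨hu'.1, h2⟩ e)
  · rw [h2, h.2.2.1 b] at e
    have h3 := h.2.2.2.2 a _ u ⟨hu.1, h1⟩ 0 h0 e
    exact Or.inr (Or.inr ⟨h3.2, h2, h3.1⟩)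
  · rw [h1, h.2.2.1 a] at e
    have h3 := h.2.2.2.2 _ b 0 h0 u' ⟨hu'.1, h2⟩ e
    exact Or.inr (Or.inl ⟨h1, h3.2.symm, h3.1.symm⟩)
  · rw [h1, h2, h.2.2.1 a, h.2.2.1 b] at e
    have h3 := h.2.2.2.2 _ _ 0 h0 0 h0 e
    exact Or.inl ⟨s.injective h3.1, h1.trans h2.symm⟩

theorem iso_fst {κ ι : Type} {s : κ → Equiv.Perm ι} {c d : κ × ι → ℝ → P3}
    (h : EmbE (sp s) c d) {a b : κ × ι} {u u' : ℝ} (hu : u ∈ Icc (0 : ℝ) 1)
    (hu' : u' ∈ Icc (0 : ℝ) 1) (e : c a u = c b u') : a.1 = b.1 := by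
  rcases iso_closed h hu hu' e with h1 | h1 | h1
  · rw [h1.1]
  · rw [h1.2.2, sp_apply]
  · rw [h1.2.2, sp_apply]

theorem iso_flip {u : ℝ} (hu : u ∈ Icc (0 : ℝ) 1) : 1 - u ∈ Icc (0 : ℝ) 1 :=
  ⟨by linarith [hu.2], by linarith [hu.1]⟩

theorem iso_equiv {ι ι' : Type} {σ : Equiv.Perm ι} {σ' : Equiv.Perm ι'} {c d : ι → ℝ → P3}
    (h : EmbE σ c d) (β : ι' → ι) (hβ : Function.Injective β) (hs : ∀ v, β (σ' v) = σ (β v)) :
    EmbE σ' (fun v => c (β v)) (fun v => d (β v)) :=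
  ⟨fun v => h.1 (β v), fun v => h.2.1 (β v), fun v => by simp only [hs]; exact h.2.2.1 _,
    fun v => by simp only [hs]; exact h.2.2.2.1 _,
    fun v w u hu u' hu' e => (h.2.2.2.2 _ _ u hu u' hu' e).imp (fun h1 => hβ h1) id⟩

theorem iso_ai {ι : Type} (σ : Equiv.Perm ι) (v : ι) : σ (σ⁻¹ v) = v := σ.apply_symm_apply v

theorem iso_ia {ι : Type} (σ : Equiv.Perm ι) (v : ι) : σ⁻¹ (σ v) = v := σ.symm_apply_apply v

theorem embE_reor {κ ι : Type} {σ : Equiv.Perm ι} (o : κ → Bool) {c d : κ × ι → ℝ → P3}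
    (h : EmbE (sp fun _ : κ => σ) c d) :
    EmbE (sp fun i => op σ (o i)) (reor σ o c)
      (fun a u => if o a.1 then d a u else -d (a.1, σ⁻¹ a.2) (1 - u)) := by
  refine ⟨?_, ?_, ?_, ?_, ?_⟩
  · rintro ⟨i, v⟩ u hu
    cases hi : o i
    · have e1 : reor σ o c (i, v) = c (i, σ⁻¹ v) ∘ fun u => 1 - u := by
        funext u
        simp [reor, hi]
      have h1 := h.1 (i, σ⁻¹ v) (1 - u) (iso_flip hu)
      have h2 : HasDerivWithinAt (fun u : ℝ => 1 - u) (-1) (Icc 0 1) u :=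
        ((hasDerivAt_id' u).const_sub 1).hasDerivWithinAt
      have h3 := h1.1.scomp u h2 fun w hw => iso_flip hw
      rw [e1]
      simp only [hi, Bool.false_eq_true, if_false]
      exact ⟨by simpa using h3, neg_ne_zero.2 h1.2⟩
    · have e1 : reor σ o c (i, v) = c (i, v) := by
        funext u
        simp [reor, hi]
      rw [e1]
      simp only [hi, if_true]
      exact h.1 (i, v) u hu
  · rintro ⟨i, v⟩
    cases hi : o i
    · simp only [hi, Bool.false_eq_true, if_false]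
      exact ((h.2.1 (i, σ⁻¹ v)).comp (continuous_const.sub continuous_id).continuousOn
        fun w hw => iso_flip hw).neg
    · simp only [hi, if_true]
      exact h.2.1 (i, v)
  · rintro ⟨i, v⟩
    cases hi : o i
    · have h1 := h.2.2.1 (i, σ⁻¹ (σ⁻¹ v))
      simp only [sp_apply, iso_ai] at h1
      simp only [reor, sp_apply, op, hi, Bool.false_eq_true, if_false, sub_self, sub_zero]
      exact h1.symm
    · have h1 := h.2.2.1 (i, v)
      simp only [sp_apply] at h1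
      simp only [reor, sp_apply, op, hi, if_true]
      exact h1
  · rintro ⟨i, v⟩ r hr
    cases hi : o i
    · have h1 := h.2.2.2.1 (i, σ⁻¹ (σ⁻¹ v)) r⁻¹ (inv_pos.2 hr)
      simp only [sp_apply, iso_ai] at h1
      simp only [sp_apply, op, hi, Bool.false_eq_true, if_false, sub_self, sub_zero]
      intro h2
      apply h1
      rw [neg_inj.1 h2, smul_smul, inv_mul_cancel₀ hr.ne', one_smul, neg_neg]
    · have h1 := h.2.2.2.1 (i, v) r hr
      simp only [sp_apply] at h1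
      simp only [sp_apply, op, hi, if_true]
      exact h1
  · rintro ⟨i, v⟩ ⟨j, w⟩ u hu u' hu' e
    have k := Ico_subset_Icc_self hu
    have k' := Ico_subset_Icc_self hu'
    cases hi : o i <;> cases hj : o j <;>
      simp only [reor, hi, hj, Bool.false_eq_true, if_false, if_true] at e
    · rcases iso_closed h (iso_flip k) (iso_flip k') e with h1 | h1 | h1
      · have h2 := Prod.ext_iff.1 h1.1
        exact ⟨Prod.ext h2.1 (σ⁻¹.injective h2.2), by linarith [h1.2]⟩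
      · linarith [h1.2.1, hu'.2]
      · linarith [h1.1, hu.2]
    · have h1 : i = j := iso_fst h (iso_flip k) k' e
      rw [h1, hj] at hi
      exact absurd hi (by decide)
    · have h1 : i = j := iso_fst h k (iso_flip k') e
      rw [h1, hj] at hi
      exact absurd hi (by decide)
    · exact h.2.2.2.2 _ _ u hu u' hu' e

theorem famE_reor {κ ι : Type} {σ : Equiv.Perm ι} (o : κ → Bool) {c c' : κ × ι → ℝ → P3}
    (h : FamE univ (sp fun _ : κ => σ) c c') :
    FamE univ (sp fun i => op σ (o i)) (reor σ o c) (reor σ o c') := by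
  obtain ⟨C, D, h1, h2, h3, -, h5, h6⟩ := h
  have hf : Continuous fun a : ℝ × ℝ => ((a.1, 1 - a.2) : ℝ × ℝ) := by fun_prop
  have hm : MapsTo (fun a : ℝ × ℝ => ((a.1, 1 - a.2) : ℝ × ℝ)) (Icc 0 1 ×ˢ Icc 0 1)
      (Icc 0 1 ×ˢ Icc 0 1) := fun a ha => ⟨ha.1, iso_flip ha.2⟩
  refine ⟨fun s => reor σ o (C s),
    fun s a u => if o a.1 then D s a u else -D s (a.1, σ⁻¹ a.2) (1 - u),
    fun s hs => embE_reor o (h1 s hs), ?_, ?_, fun _ _ _ _ _ => trivial, ?_, ?_⟩
  · rintro ⟨i, v⟩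
    cases hi : o i
    · simp only [reor, hi, Bool.false_eq_true, if_false]
      exact (h2 (i, σ⁻¹ v)).comp hf.continuousOn hm
    · simp only [reor, hi, if_true]
      exact h2 (i, v)
  · rintro ⟨i, v⟩
    cases hi : o i
    · simp only [hi, Bool.false_eq_true, if_false]
      exact ((h3 (i, σ⁻¹ v)).comp hf.continuousOn hm).neg
    · simp only [hi, if_true]
      exact h3 (i, v)
  · intro a u hu
    simp only [reor]
    rw [h5 _ u hu, h5 _ _ (iso_flip hu)]
  · intro a u hu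
    simp only [reor]
    rw [h6 _ u hu, h6 _ _ (iso_flip hu)]

theorem reor_cab {κ ι : Type} (σ : Equiv.Perm ι) (o : κ → Bool) (Q V : ι → P3) (τ : κ → ℝ) :
    reor σ o (cab (fun _ => σ) Q V τ) = cab (fun i => op σ (o i)) Q V τ := by
  funext a u
  obtain ⟨i, v⟩ := a
  cases hi : o i
  · simp only [reor, cab, op, hi, Bool.false_eq_true, if_false, iso_ai,
      AffineMap.lineMap_apply_one_sub]
  · simp only [reor, cab, op, hi, if_true]

theorem iso_rot {n : ℕ} (j : Fin (n + 1)) : rot n (Fin.rev (rot n j)) = Fin.rev j := by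
  apply Fin.ext
  have h1 := j.2
  rw [finRotate_apply, Fin.val_add_one]
  simp only [Fin.ext_iff, Fin.val_last, Fin.val_rev, finRotate_apply, Fin.val_add_one]
  split_ifs <;> omega

/-- cut oriented closed curves into `n + 1` arcs named by their starting points -/
theorem V_start (T : KTheory) {κ : Type} [Finite κ] (n : ℕ) (o : κ → Bool) {γ d : κ → ℝ → P3}
    (he : EmbE (1 : Equiv.Perm κ) γ d) {q : ℤ}
    (h : T.V (⟨1, fun i t => γ i (if o i then t else 1 - t)⟩ : CPL κ) q) :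
    T.V (⟨sp fun i => op (rot n) (o i), reor (rot n) o (usub n γ)⟩ : CPL (κ × Fin (n + 1))) q := by
  have e1 : EmbE (sp fun _ : κ => (1 : Equiv.Perm Unit)) (fun a => γ a.1) (fun a => d a.1) :=
    iso_equiv he Prod.fst (fun _ _ e => Prod.ext e rfl) fun _ => rfl
  have e2 := iso_equiv (σ' := (1 : Equiv.Perm κ)) (embE_reor o e1) (fun i => (i, ()))
    (fun _ _ e => (Prod.ext_iff.1 e).1) fun _ => rfl
  have e3 := e2.congr (c' := fun i t => γ i (if o i then t else 1 - t)) fun i u _ => by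
    cases hi : o i <;> simp [reor, hi]
  have s1 : ∀ (v : κ) (j : Fin n), sp (fun _ : κ => rot n) (v, j.castSucc) = (v, j.succ) := by
    intro v j
    simp [sp_apply]
  have s2 : ∀ v : κ, sp (fun _ : κ => rot n) (v, Fin.last n) = ((1 : Equiv.Perm κ) v, 0) := by
    intro v
    simp [sp_apply]
  have hE := e3.split n _ s1 s2
  have hV := (T.split n ⟨1, fun i t => γ i (if o i then t else 1 - t)⟩
    ⟨sp fun _ : κ => rot n, fun v u => γ v.1 (if o v.1 then ((v.2 : ℕ) + u) / (n + 1) else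
      1 - ((v.2 : ℕ) + u) / (n + 1))⟩ q ⟨_, e3⟩ s1 s2 (fun _ _ _ _ => rfl)).1 h
  refine T.relabel (Equiv.prodCongrRight fun i =>
    if o i then Equiv.refl _ else Fin.revPerm.trans (rot n))
    ⟨sp fun _ : κ => rot n, fun v u => γ v.1 (if o v.1 then ((v.2 : ℕ) + u) / (n + 1) else
      1 - ((v.2 : ℕ) + u) / (n + 1))⟩ _ q ⟨_, hE⟩ ?_ ?_ hV
  · rintro ⟨i, j⟩
    cases hi : o i
    · simp only [Equiv.prodCongrRight_apply, sp_apply, op, hi, Bool.false_eq_true, if_false,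
        Equiv.trans_apply, Fin.revPerm_apply, iso_ia, iso_rot]
    · simp only [Equiv.prodCongrRight_apply, sp_apply, op, hi, if_true, Equiv.refl_apply]
  · rintro ⟨i, j⟩ u _
    cases hi : o i
    · simp only [Equiv.prodCongrRight_apply, reor, usub, hi, Bool.false_eq_true, if_false,
        Equiv.trans_apply, Fin.revPerm_apply, iso_ia]
      congr 1
      have h1 : ((Fin.rev j : Fin (n + 1)) : ℕ) + (j : ℕ) = n := by
        have := j.2
        rw [Fin.val_rev]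
        omega
      have h2 : (((Fin.rev j : Fin (n + 1)) : ℕ) : ℝ) = n - (j : ℕ) := by
        rw [eq_sub_iff_add_eq]
        exact_mod_cast h1
      rw [h2]
      field_simp
      ring
    · simp only [Equiv.prodCongrRight_apply, reor, usub, hi, if_true, Equiv.refl_apply]

theorem cat_usub {κ : Type} (n : ℕ) (γ : κ → ℝ → P3) (i : κ) :
    cat n (fun j => usub n γ (i, j)) = γ i := by
  funext t
  simp only [cat, usub]
  congr 1
  field_simp
  ring

theorem cat_eq {n : ℕ} {c : Fin (n + 1) → ℝ → P3} (hc : ∀ j, c j 1 = c (rot n j) 0)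
    (j : Fin (n + 1)) {u : ℝ} (hu : u ∈ Icc (0 : ℝ) 1) :
    cat n c (((j : ℕ) + u) / (n + 1)) = c j u := by
  have h1 : ((n : ℝ) + 1) * ((((j : ℕ) : ℝ) + u) / (n + 1)) = (j : ℕ) + u := by field_simp
  have key : ∀ (k : Fin (n + 1)) (w : ℝ), min ⌊((j : ℕ) : ℝ) + u⌋₊ n = k →
      ((j : ℕ) : ℝ) + u - (k : ℕ) = w → cat n c (((j : ℕ) + u) / (n + 1)) = c k w := by
    intro k w e1 e2
    unfold cat
    simp only [h1, e1, e2]
  have hj := j.2
  rcases hu.2.lt_or_eq with h2 | h2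
  · refine key j u ?_ (by ring)
    have h3 : ⌊((j : ℕ) : ℝ) + u⌋₊ = j :=
      (Nat.floor_eq_iff (by linarith [hu.1, (Nat.cast_nonneg j : (0 : ℝ) ≤ (j : ℕ))])).2
        ⟨by linarith [hu.1], by linarith⟩
    omega
  · have h3 : ⌊((j : ℕ) : ℝ) + u⌋₊ = j + 1 := by
      rw [h2]
      exact_mod_cast Nat.floor_natCast (R := ℝ) ((j : ℕ) + 1)
    by_cases h4 : (j : ℕ) = n
    · exact key j u (by omega) (by ring)
    · have h5 : ((rot n j : Fin (n + 1)) : ℕ) = j + 1 := by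
        rw [finRotate_apply, Fin.val_add_one, if_neg fun h => h4 (by rw [h, Fin.val_last])]
      rw [key (rot n j) 0 (by omega) (by rw [h5, h2]; push_cast; ring), ← hc, h2]

theorem iso_par (n : ℕ) {t : ℝ} (ht : t ∈ Icc (0 : ℝ) 1) :
    ((n : ℝ) + 1) * t - (min ⌊((n : ℝ) + 1) * t⌋₊ n : ℕ) ∈ Icc (0 : ℝ) 1 := by
  have h0 : (0 : ℝ) ≤ ((n : ℝ) + 1) * t := mul_nonneg (by positivity) ht.1
  have h1 := Nat.floor_le h0
  have h2 := Nat.lt_floor_add_one (((n : ℝ) + 1) * t)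
  have h3 : ((n : ℝ) + 1) * t ≤ n + 1 := mul_le_of_le_one_right (by positivity) ht.2
  rcases le_total ⌊((n : ℝ) + 1) * t⌋₊ n with h | h
  · rw [min_eq_left h]
    exact ⟨by linarith, by linarith⟩
  · rw [min_eq_right h]
    have h4 : (n : ℝ) ≤ ⌊((n : ℝ) + 1) * t⌋₊ := by exact_mod_cast h
    exact ⟨by linarith, by linarith⟩

/-- every time is a time of some arc -/
theorem cat_mem {n : ℕ} (c : Fin (n + 1) → ℝ → P3) {t : ℝ} (ht : t ∈ Icc (0 : ℝ) 1) :
    ∃ j : Fin (n + 1), ∃ u ∈ Icc (0 : ℝ) 1, t = ((j : ℕ) + u) / (n + 1) ∧ cat n c t = c j u := by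
  refine ⟨⟨min ⌊(n + 1) * t⌋₊ n, Nat.lt_succ_of_le (min_le_right _ _)⟩, _, iso_par n ht, ?_, rfl⟩
  field_simp
  ring

/-- different strands of an embedded chain are disjoint -/
theorem apart_of_embE {κ ι : Type} {s : κ → Equiv.Perm ι} {c d : κ × ι → ℝ → P3}
    (h : EmbE (sp s) c d) {i j : κ} (hij : i ≠ j) (v w : ι) {u u' : ℝ} (hu : u ∈ Icc (0 : ℝ) 1)
    (hu' : u' ∈ Icc (0 : ℝ) 1) : c (i, v) u ≠ c (j, w) u' :=
  fun e => hij (iso_fst h hu hu' e)

theorem iso_cat_congr {n : ℕ} {c c' : Fin (n + 1) → ℝ → P3}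
    (e : ∀ j, ∀ u ∈ Icc (0 : ℝ) 1, c j u = c' j u) {t : ℝ} (ht : t ∈ Icc (0 : ℝ) 1) :
    cat n c t = cat n c' t := e _ _ (iso_par n ht)

theorem iso_cat_cont {n : ℕ} {C : ℝ → Fin (n + 1) → ℝ → P3}
    (hc : ∀ s ∈ Icc (0 : ℝ) 1, ∀ j, C s j 1 = C s (rot n j) 0)
    (h : ∀ j, ContinuousOn (fun a : ℝ × ℝ => C a.1 j a.2) (Icc 0 1 ×ˢ Icc 0 1)) :
    ContinuousOn (fun a : ℝ × ℝ => cat n (C a.1) a.2) (Icc 0 1 ×ˢ Icc 0 1) := by
  let K : Fin (n + 1) → Set (ℝ × ℝ) := fun j =>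
    {a | a.1 ∈ Icc (0 : ℝ) 1 ∧ ((n : ℝ) + 1) * a.2 - (j : ℕ) ∈ Icc (0 : ℝ) 1}
  have hf : ∀ j : Fin (n + 1),
      Continuous fun a : ℝ × ℝ => ((a.1, ((n : ℝ) + 1) * a.2 - (j : ℕ)) : ℝ × ℝ) := by
    intro j
    fun_prop
  have hK : ∀ j, IsClosed (K j) := fun j => (isClosed_Icc.prod isClosed_Icc).preimage (hf j)
  have h1 : ContinuousOn (fun a : ℝ × ℝ => cat n (C a.1) a.2) (⋃ j, K j) := by
    refine (locallyFinite_of_finite K).continuousOn_iUnion hK fun j => ?_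
    refine ((h j).comp (hf j).continuousOn fun a ha => ha).congr fun a ha => ?_
    have h2 := cat_eq (hc a.1 ha.1) j ha.2
    have h3 : (((j : ℕ) : ℝ) + (((n : ℝ) + 1) * a.2 - (j : ℕ))) / (n + 1) = a.2 := by
      field_simp
      ring
    rw [h3] at h2
    exact h2
  exact h1.mono fun a ha => mem_iUnion.2
    ⟨⟨min ⌊(n + 1) * a.2⌋₊ n, Nat.lt_succ_of_le (min_le_right _ _)⟩, ha.1, iso_par n ha.2⟩

theorem lk_fam (T : KTheory) {n : ℕ} {c c' : Bool × Fin (n + 1) → ℝ → P3}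
    (h : FamE univ (sp fun _ : Bool => rot n) c c') :
    T.lk (cat n fun j => c (true, j)) (cat n fun j => c (false, j)) =
      T.lk (cat n fun j => c' (true, j)) (cat n fun j => c' (false, j)) := by
  classical
  obtain ⟨C, D, h1, h2, -, -, h5, h6⟩ := h
  let A : Bool → ℝ → ℝ → P3 := fun b s =>
    if s = 0 then cat n fun j => c (b, j) else if s = 1 then cat n fun j => c' (b, j) else
      cat n fun j => C s (b, j)
  have hA : ∀ b s, ∀ t ∈ Icc (0 : ℝ) 1, A b s t = cat n (fun j => C s (b, j)) t := by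
    intro b s t ht
    simp only [A]
    split_ifs with e0 e1
    · rw [e0]
      exact iso_cat_congr (fun j u hu => (h5 _ u hu).symm) ht
    · rw [e1]
      exact iso_cat_congr (fun j u hu => (h6 _ u hu).symm) ht
    · rfl
  have hcl : ∀ b, ∀ s ∈ Icc (0 : ℝ) 1, ∀ j, C s (b, j) 1 = C s (b, rot n j) 0 :=
    fun b s hs j => (h1 s hs).2.2.1 (b, j)
  have hc : ∀ b, ContinuousOn (fun a : ℝ × ℝ => A b a.1 a.2) (Icc 0 1 ×ˢ Icc 0 1) := fun b =>
    (iso_cat_cont (C := fun s j => C s (b, j)) (hcl b) fun j => h2 (b, j)).congr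
      fun a ha => hA b a.1 a.2 ha.2
  have hl : ∀ b, ∀ s ∈ Icc (0 : ℝ) 1, A b s 1 = A b s 0 := by
    intro b s hs
    have e1 := cat_eq (c := fun j => C s (b, j)) (hcl b s hs) (Fin.last n) tb1_one
    have e0 := cat_eq (c := fun j => C s (b, j)) (hcl b s hs) 0 tb1_zero
    have e2 : (((Fin.last n : Fin (n + 1)) : ℕ) + (1 : ℝ)) / (n + 1) = 1 := by
      rw [Fin.val_last]
      field_simp
    have e3 : ((((0 : Fin (n + 1)) : ℕ) : ℝ) + 0) / (n + 1) = 0 := by simp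
    rw [e2] at e1
    rw [e3] at e0
    rw [hA b s 1 tb1_one, hA b s 0 tb1_zero, e1, e0, hcl b s hs]
    simp
  have key := T.lk_hom (A true) (A false) (hc true) (hc false) fun s hs =>
    ⟨hl true s hs, hl false s hs, fun t ht t' ht' => by
      obtain ⟨j, u, hu, -, e⟩ := cat_mem (fun j => C s (true, j)) ht
      obtain ⟨j', u', hu', -, e'⟩ := cat_mem (fun j => C s (false, j)) ht'
      rw [hA true s t ht, hA false s t' ht', e, e']
      exact apart_of_embE (h1 s hs) (by decide) j j' hu hu'⟩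
  simpa only [A, if_true, one_ne_zero, if_false] using key

end Cab

end Pool.Agent.Lib.MP_4d7d0a_gt
end

-- part Pool.Agent.Lib.MP_4d7d0a_gt.CableLk
section

/-! The linking number of a polygon with its push-off. -/

set_option autoImplicit false

open Set Filter Topology

namespace Pool.Agent.Lib.MP_4d7d0a_gt

namespace Cab

theorem lk_lm1 (a b : P3) (u : ℝ) : (AffineMap.lineMap a b u : P3).1 = a.1 + u * (b.1 - a.1) := by
  simp [AffineMap.lineMap_apply, add_comm]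

theorem lk_lm2 (a b : P3) (u : ℝ) :
    (AffineMap.lineMap a b u : P3).2.1 = a.2.1 + u * (b.2.1 - a.2.1) := by
  simp [AffineMap.lineMap_apply, add_comm]

theorem lk_lm3 (a b : P3) (u : ℝ) :
    (AffineMap.lineMap a b u : P3).2.2 = a.2.2 + u * (b.2.2 - a.2.2) := by
  simp [AffineMap.lineMap_apply, add_comm]

theorem lk_crT (a b c d : P3) : crT c d a b = det2 (c - a) (b - a) / det2 (b - a) (d - c) := by
  rw [crT, ← neg_div_neg_eq]
  congr 1 <;> simp only [det2, Prod.fst_sub, Prod.snd_sub] <;> ring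

theorem lk_disj {a b c d : P3} (h : ∀ u ∈ Icc (0 : ℝ) 1, ∀ v ∈ Icc (0 : ℝ) 1,
    a.1 + u * (b.1 - a.1) = c.1 + v * (d.1 - c.1) →
      a.2.2 + u * (b.2.2 - a.2.2) = c.2.2 + v * (d.2.2 - c.2.2) → False) :
    GenPair a b c d ∧ crS a b c d = 0 := by
  refine ⟨Or.inr fun u hu v hv e => h u hu v hv ?_ ?_, if_neg fun e => ?_⟩
  · simpa only [lk_lm1] using e.1
  · simpa only [lk_lm3] using e.2
  · obtain ⟨⟨h0, h1, h2⟩, -⟩ := e
    refine h _ (Ioo_subset_Icc_self h1) _ (Ioo_subset_Icc_self h2) ?_ ?_ <;>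
    · rw [lk_crT a b c d, crT]
      field_simp
      simp only [det2, Prod.fst_sub, Prod.snd_sub]
      ring

theorem lk_ioo {s D : ℝ} (h : s * (s - D) < 0) : D ≠ 0 ∧ s / D ∈ Ioo (0 : ℝ) 1 := by
  have h0 : D ≠ 0 := by
    rintro rfl
    nlinarith [mul_self_nonneg s]
  have h1 : 0 < D * D := mul_self_pos.2 h0
  have e : s / D = s * D / (D * D) := by field_simp
  rw [e]
  exact ⟨h0, div_pos (by nlinarith [mul_self_nonneg s]) h1,
    (div_lt_one h1).2 (by nlinarith [mul_self_nonneg (D - s)])⟩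

theorem lk_out {s D u : ℝ} (h : 0 < s * (s - D)) (hu : u ∈ Icc (0 : ℝ) 1) : s ≠ u * D := by
  rintro rfl
  nlinarith [mul_nonneg (mul_nonneg hu.1 (sub_nonneg.2 hu.2)) (mul_self_nonneg D)]

theorem lk_sep {p q r s u v : ℝ} (hu : u ∈ Icc (0 : ℝ) 1) (hv : v ∈ Icc (0 : ℝ) 1)
    (h : max p q < min r s) : p + u * (q - p) ≠ r + v * (s - r) := by
  have h1 : p + u * (q - p) ≤ max p q := by
    nlinarith [mul_nonneg hu.1 (sub_nonneg.2 (le_max_right p q)),
      mul_nonneg (sub_nonneg.2 hu.2) (sub_nonneg.2 (le_max_left p q))]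
  have h2 : min r s ≤ r + v * (s - r) := by
    nlinarith [mul_nonneg hv.1 (sub_nonneg.2 (min_le_right r s)),
      mul_nonneg (sub_nonneg.2 hv.2) (sub_nonneg.2 (min_le_left r s))]
  exact ((h1.trans_lt h).trans_le h2).ne

theorem lk_over {a b c d : P3} (h0 : det2 (b - a) (d - c) ≠ 0) : Over a b c d ↔
    ((a.2.1 - c.2.1) * det2 (b - a) (d - c) + det2 (c - a) (d - c) * (b.2.1 - a.2.1) -
      det2 (c - a) (b - a) * (d.2.1 - c.2.1)) * det2 (b - a) (d - c) < 0 := by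
  rw [Over, lk_lm2, lk_lm2, lk_crT a b c d, crT, ← sub_neg]
  generalize det2 (b - a) (d - c) = D at h0 ⊢
  generalize det2 (c - a) (d - c) = s
  generalize det2 (c - a) (b - a) = t
  have h1 : 0 < D * D := mul_self_pos.2 h0
  rw [show ((a.2.1 - c.2.1) * D + s * (b.2.1 - a.2.1) - t * (d.2.1 - c.2.1)) * D =
    (a.2.1 + s / D * (b.2.1 - a.2.1) - (c.2.1 + t / D * (d.2.1 - c.2.1))) * (D * D) by
      field_simp; ring]
  exact ⟨fun h => mul_neg_of_neg_of_pos h h1, fun h => by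
    by_contra h2
    exact absurd h (not_lt.2 (mul_nonneg (not_lt.1 h2) h1.le))⟩

theorem lk_det (a b c d : Z3) : det2 (toP3 b - toP3 a) (toP3 d - toP3 c) =
    (((b.1 - a.1) * (d.2.2 - c.2.2) - (b.2.2 - a.2.2) * (d.1 - c.1) : ℤ) : ℝ) := by
  simp [det2, toP3]

theorem crI_sound {a b c d : Z3} {s : ℤ} (h : crI a b c d = some s) :
    GenPair (toP3 a) (toP3 b) (toP3 c) (toP3 d) ∧
      crS (toP3 a) (toP3 b) (toP3 c) (toP3 d) = s := by
  unfold crI at h
  by_cases h1 : max a.1 b.1 < min c.1 d.1 ∨ max c.1 d.1 < min a.1 b.1 ∨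
      max a.2.2 b.2.2 < min c.2.2 d.2.2 ∨ max c.2.2 d.2.2 < min a.2.2 b.2.2
  · rw [if_pos h1, Option.some.injEq] at h
    rw [← h]
    refine lk_disj fun u hu v hv e1 e2 => ?_
    simp only [toP3] at e1 e2
    rcases h1 with h1 | h1 | h1 | h1
    · exact lk_sep hu hv (by exact_mod_cast h1) e1
    · exact lk_sep hv hu (by exact_mod_cast h1) e1.symm
    · exact lk_sep hu hv (by exact_mod_cast h1) e2
    · exact lk_sep hv hu (by exact_mod_cast h1) e2.symm
  rw [if_neg h1] at h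
  have eD := lk_det a b c d
  have es := lk_det a c c d
  have et := lk_det a c a b
  simp only at h
  generalize (b.1 - a.1) * (d.2.2 - c.2.2) - (b.2.2 - a.2.2) * (d.1 - c.1) = D at h eD
  generalize (c.1 - a.1) * (d.2.2 - c.2.2) - (c.2.2 - a.2.2) * (d.1 - c.1) = S at h es
  generalize (c.1 - a.1) * (b.2.2 - a.2.2) - (c.2.2 - a.2.2) * (b.1 - a.1) = T at h et
  by_cases h2 : 0 < S * (S - D) ∨ 0 < T * (T - D)
  · rw [if_pos h2, Option.some.injEq] at h
    rw [← h]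
    refine lk_disj fun u hu v hv e1 e2 => ?_
    simp only [det2, Prod.fst_sub, Prod.snd_sub] at eD es et
    rcases h2 with h2 | h2
    · refine lk_out (s := S) (D := D) (by exact_mod_cast h2) hu ?_
      rw [← eD, ← es]
      linear_combination ((toP3 d).1 - (toP3 c).1) * e2 - ((toP3 d).2.2 - (toP3 c).2.2) * e1
    · refine lk_out (s := T) (D := D) (by exact_mod_cast h2) hv ?_
      rw [← eD, ← et]
      linear_combination ((toP3 b).1 - (toP3 a).1) * e2 - ((toP3 b).2.2 - (toP3 a).2.2) * e1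
  rw [if_neg h2] at h
  by_cases h3 : S * (S - D) < 0 ∧ T * (T - D) < 0
  · rw [if_pos h3, Option.some.injEq] at h
    have a1 := lk_ioo (s := S) (D := D) (by exact_mod_cast h3.1)
    have a2 := lk_ioo (s := T) (D := D) (by exact_mod_cast h3.2)
    have hc : Cross (toP3 a) (toP3 b) (toP3 c) (toP3 d) :=
      ⟨by rw [eD]; exact a1.1, by rw [crT, eD, es]; exact a1.2, by rw [lk_crT, eD, et]; exact a2.2⟩
    refine ⟨Or.inl hc, ?_⟩
    have ho : Over (toP3 a) (toP3 b) (toP3 c) (toP3 d) ↔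
        ((a.2.1 - c.2.1) * D + S * (b.2.1 - a.2.1) - T * (d.2.1 - c.2.1)) * D < 0 := by
      rw [lk_over hc.1, eD, es, et]
      simp only [toP3]
      norm_cast
    rw [← h, crS, eD]
    simp only [hc, ho, true_and, Int.cast_pos]
  · rw [if_neg h3] at h
    exact absurd h (by simp)

theorem lk_poly_cat {n : ℕ} {Q V : Fin (n + 1) → P3} (τ : Bool → ℝ) (i : Bool) (a : ℕ → Z3)
    (ha : ∀ j : Fin (n + 1), toP3 (a j) = lv Q V (τ i) j) (ha' : a (n + 1) = a 0) :
    IsPoly (n + 1) (fun j => toP3 (a j))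
      (cat n fun j => cab (fun _ => rot n) Q V τ (i, j)) := by
  refine ⟨Nat.succ_pos n, by simp only [ha'], fun j hj u hu => ?_⟩
  have h1 := cat_eq (n := n) (c := fun j => cab (fun _ => rot n) Q V τ (i, j))
    (fun j => by simp [cab]) ⟨j, hj⟩ hu
  have h2 : toP3 (a (j + 1)) = lv Q V (τ i) (rot n ⟨j, hj⟩) := by
    rw [← ha]
    rcases Nat.lt_or_ge j n with h | h
    · rw [coe_finRotate_of_ne_last (by simp [Fin.ext_iff, h.ne])]
    · obtain rfl : j = n := by omega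
      rw [ha', show (⟨j, hj⟩ : Fin (j + 1)) = Fin.last j from rfl, finRotate_last]
      rfl
  push_cast
  rw [h1, h2, ha ⟨j, hj⟩]
  rfl

theorem lk_cab (T : KTheory) {n : ℕ} {Q V : Fin (n + 1) → P3} (h : RibEmb (rot n) Q V)
    (a b : ℕ → Z3) (ha : ∀ j : Fin (n + 1), toP3 (a j) = Q j + V j) (ha' : a (n + 1) = a 0)
    (hb : ∀ j : Fin (n + 1), toP3 (b j) = Q j) (hb' : b (n + 1) = b 0) (s : ℕ → ℕ → ℤ)
    (hs : ∀ i ≤ n, ∀ j ≤ n, crI (a i) (a (i + 1)) (b j) (b (j + 1)) = some (s i j)) :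
    T.lk (cat n fun j => cab (fun _ => rot n) Q V (fun c : Bool => if c then 1 else 0) (true, j))
      (cat n fun j => cab (fun _ => rot n) Q V (fun c : Bool => if c then 1 else 0) (false, j)) =
      ∑ i ∈ Finset.range (n + 1), ∑ j ∈ Finset.range (n + 1), s i j := by
  rw [T.lk_poly (n + 1) (n + 1) _ _ _ _
    (lk_poly_cat _ true a (fun j => by simp [ha, lv]) ha')
    (lk_poly_cat _ false b (fun j => by simp [hb, lv]) hb') (fun t ht t' ht' => ?_)
    fun i hi j hj => (crI_sound (hs i (by omega) j (by omega))).1]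
  · exact Finset.sum_congr rfl fun i hi => Finset.sum_congr rfl fun j hj =>
      (crI_sound (hs i (Nat.lt_succ_iff.1 (Finset.mem_range.1 hi)) j
        (Nat.lt_succ_iff.1 (Finset.mem_range.1 hj)))).2
  · obtain ⟨i, u, hu, -, e⟩ := cat_mem
      (fun j => cab (fun _ => rot n) Q V (fun c : Bool => if c then 1 else 0) (true, j)) ht
    obtain ⟨j, u', hu', -, e'⟩ := cat_mem
      (fun j => cab (fun _ => rot n) Q V (fun c : Bool => if c then 1 else 0) (false, j)) ht'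
    rw [e, e']
    exact h.apart (τ := 1) (τ' := 0) ⟨zero_le_one, le_rfl⟩ ⟨le_rfl, zero_le_one⟩ one_ne_zero
      i j u hu u' hu'

end Cab

end Pool.Agent.Lib.MP_4d7d0a_gt
end
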