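import Pool.Agent.Lib.MP_4d7d0a_gt.CableData
import Pool.Agent.Lib.MP_4d7d0a_gt.CableSnd
import Pool.Agent.Lib.MP_4d7d0a_gt.CableLk

/-! The framing of the certified polygon is zero. -/

set_option autoImplicit false

open Set

namespace Pool.Agent.Lib.MP_4d7d0a_gt

namespace Cab

/-- a coordinate of the core (`e = 0`) or of the push-off (`e = 1`), shifted -/
def lkN (k : ℕ → ℕ → ℕ) (e j : ℕ) : ℕ :=
  Nat.add (k 4294967296 (qw sL (Nat.mod j 95)))
    (Bool.rec (k 4096 (xw sL (Nat.mod j 95))) 2048 (Nat.beq e 0))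

def lkZ (e j : ℕ) : Z3 :=
  (Int.subNatNat (lkN k1 e j) 2147485696, Int.subNatNat (lkN k2 e j) 2147485696,
    Int.subNatNat (lkN k3 e j) 2147485696)

def bx (a b c d : ℕ) : Bool :=
  an (an (Nat.ble (Nat.add a 1) c) (Nat.ble (Nat.add a 1) d))
    (an (Nat.ble (Nat.add b 1) c) (Nat.ble (Nat.add b 1) d))

def bx2 (a b c d : ℕ) : Bool := orr (bx a b c d) (bx c d a b)

/-- the boxes of the projections are disjoint -/
def box (i i' j j' : ℕ) : Bool :=
  orr (bx2 (lkN k1 1 i) (lkN k1 1 i') (lkN k1 0 j) (lkN k1 0 j'))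
    (bx2 (lkN k3 1 i) (lkN k3 1 i') (lkN k3 0 j) (lkN k3 0 j'))

def crJ (i j : ℕ) : Option ℤ :=
  frc (Nat.add i 1) fun i' => frc (Nat.add j 1) fun j' =>
    Bool.rec (crI (lkZ 1 i) (lkZ 1 i') (lkZ 0 j) (lkZ 0 j')) (some 0) (box i i' j j')

theorem crJ_eq (i j : ℕ) : crI (lkZ 1 i) (lkZ 1 (i + 1)) (lkZ 0 j) (lkZ 0 (j + 1)) = crJ i j := by
  simp only [crJ, frc_eq, Nat.add_eq]
  cases h : box i (i + 1) j (j + 1)
  · rfl
  · simp only [box, bx2, bx, orr_iff, an_iff, Nat.ble_eq, Nat.add_eq] at h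
    unfold crI
    rw [if_pos]
    simp only [lkZ, Int.subNatNat_eq_coe]
    omega

/-- sum of optional integers -/
def sumO (f : ℕ → Option ℤ) (n : ℕ) : Option ℤ :=
  Nat.rec (some 0) (fun i acc => Option.rec none
    (fun x => Option.rec none (fun y => some (Int.add y x)) acc) (f i)) n

theorem sumO_sound {f : ℕ → Option ℤ} {n : ℕ} {z : ℤ} (h : sumO f n = some z) :
    (∀ i < n, f i = some ((f i).getD 0)) ∧ ∑ i ∈ Finset.range n, (f i).getD 0 = z := by
  induction n generalizing z with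
  | zero =>
    obtain rfl : 0 = z := Option.some.inj h
    simp
  | succ n ih =>
    have h' : (Option.rec none (fun x => Option.rec none (fun y => some (Int.add y x)) (sumO f n))
      (f n) : Option ℤ) = some z := h
    cases e : f n with
    | none => simp [e] at h'
    | some x =>
      cases e' : sumO f n with
      | none => simp [e, e'] at h'
      | some y =>
        obtain ⟨a, b⟩ := ih e'
        rw [e, e'] at h'
        obtain rfl : y + x = z := Option.some.inj h'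
        refine ⟨fun i hi => ?_, by rw [Finset.sum_range_succ, b, e]; rfl⟩
        rcases Nat.lt_succ_iff_lt_or_eq.1 hi with k | rfl
        · exact a i k
        · rw [e]; rfl

theorem lk_check : sumO (fun i => sumO (crJ i) 95) 95 = some 0 := by decide +kernel

theorem lkZ_eq (j : Fin 95) :
    toP3 (lkZ 1 j) = Qr 95 sL j + Vr 95 sL j ∧ toP3 (lkZ 0 j) = Qr 95 sL j := by
  have e : Nat.mod j 95 = j := Nat.mod_eq_of_lt j.2
  simp only [lkZ, lkN, e, Int.subNatNat_eq_coe, Qr, Vr, toP3, qz, xz, vz, Nat.add_eq,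
    Prod.mk_add_mk, Prod.mk.injEq]
  have b1 : Nat.beq 1 0 = false := rfl
  have b0 : Nat.beq 0 0 = true := rfl
  rw [b1, b0]
  push_cast
  refine ⟨⟨?_, ?_, ?_⟩, ?_, ?_, ?_⟩ <;> ring

theorem lkZ_per (e : ℕ) : lkZ e (94 + 1) = lkZ e 0 := by
  have h : Nat.mod (94 + 1) 95 = Nat.mod 0 95 := by decide
  simp only [lkZ, lkN, h]

theorem lk_zero (T : KTheory) (h : RibEmb (rot 94) (Qr 95 sL) (Vr 95 sL)) :
    T.lk (cat 94 fun j => cab (fun _ => rot 94) (Qr 95 sL) (Vr 95 sL)
        (fun c : Bool => if c then 1 else 0) (true, j))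
      (cat 94 fun j => cab (fun _ => rot 94) (Qr 95 sL) (Vr 95 sL)
        (fun c : Bool => if c then 1 else 0) (false, j)) = 0 := by
  obtain ⟨a, b⟩ := sumO_sound lk_check
  rw [lk_cab T h (lkZ 1) (lkZ 0) (fun j => (lkZ_eq j).1) (lkZ_per 1) (fun j => (lkZ_eq j).2)
    (lkZ_per 0) (fun i j => (crJ i j).getD 0) fun i hi j hj => by
      rw [crJ_eq]
      exact (sumO_sound (a i (by omega))).1 j (by omega)]
  refine Eq.trans (Finset.sum_congr rfl fun i hi => ?_) b
  exact (sumO_sound (a i (Finset.mem_range.1 hi))).2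

end Cab

end Pool.Agent.Lib.MP_4d7d0a_gt
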