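import Pool.Agent.Lib.MP_4d7d0a_gt.CableSnd

-- part Pool.Agent.Lib.MP_4d7d0a_gt.CableCore
section

/-! The segment between the rounded and the sharp polygon: injectivity and velocity. -/

set_option autoImplicit false

open Set Filter Topology

namespace Pool.Agent.Lib.MP_4d7d0a_gt

namespace Cab

theorem plc_per (l : List Z3) (t : ℝ) : plc (cyc l) (t + l.length) = plc (cyc l) t := by
  rw [plc, plc, Int.floor_add_natCast, Int.fract_add_natCast, add_right_comm, cyc_add_length,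
    cyc_add_length]

theorem core_plc (W : ℤ → P3) {i : ℤ} {t : ℝ} (h0 : (i : ℝ) ≤ t) (h1 : t < i + 1) :
    plc W t = edge (W i) (W (i + 1)) (t - i) := by
  rw [plc, Int.fract, Int.floor_eq_iff.2 ⟨h0, h1⟩]

/-- on a straight edge the sharp polygon is the segment -/
theorem plc_eq {W : ℤ → P3} (h : Rel W) {i : ℤ}
    (hs : (W (i + 1)).1 = (W i).1 ∨ (W (i + 1)).2.1 = (W i).2.1) {t : ℝ} (h0 : (i : ℝ) ≤ t)
    (h1 : t ≤ i + 1) : plc W t = AffineMap.lineMap (W i) (W (i + 1)) (t - i) := by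
  rcases h1.eq_or_lt with rfl | h2
  · rw [core_plc W (i := i + 1) (by push_cast; rfl) (by push_cast; linarith), add_sub_cancel_left,
      AffineMap.lineMap_apply_one]
    push_cast
    rw [sub_self, EmbAux.edge_zero]
  · have k := h i
    rw [core_plc W h0 h2, AffineMap.lineMap_apply]
    refine Prod.ext ?_ (Prod.ext ?_ ?_) <;>
      simp only [edge, vsub_eq_sub, vadd_eq_add, Prod.fst_add, Prod.snd_add, Prod.smul_fst,
        Prod.smul_snd, Prod.fst_sub, Prod.snd_sub, smul_eq_mul]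
    · ring
    · ring
    · rcases hs with e | e <;> rw [e] at k ⊢ <;> linear_combination (-(t - i) / 2) * k

theorem core_fin (l : List Z3) {α : Type} (k : α → ℤ) : (range fun a => cyc l (k a)).Finite :=
  (EmbAux.cyc_fin l).subset (range_subset_iff.2 fun _ => ⟨_, rfl⟩)

open EmbAux in
theorem core_q {l : List Z3} {h : ℝ} (H : ShiftOK l h) : Small fun π => ∀ i : ℤ, ∃ a b c : ℝ,
    16 * |b| * π.η < c ∧
    c < a * ((cyc l i).1 - (cyc l (i - 1)).1) + b * ((cyc l i).2.1 - (cyc l (i - 1)).2.1) ∧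
    c < a * ((cyc l (i + 1)).1 - (cyc l i).1) + b * ((cyc l (i + 1)).2.1 - (cyc l i).2.1) ∧
    ∀ t ∈ Ioo ((i : ℝ) - 1 + π.η) (i + 1 - π.η),
      c < a * (deriv (π.real (cyc l)) t).1 + b * (deriv (π.real (cyc l)) t).2.1 := by
  refine small_of ((unif _ (fin_pair (core_fin l fun i => i - 1) (fin_pair (core_fin l fun i => i)
    (core_fin l fun i => i + 1))) (Q := fun _ => True)
    (P := fun i η => ∃ a b c : ℝ, 16 * |b| * η < c ∧
      c < a * ((cyc l i).1 - (cyc l (i - 1)).1) + b * ((cyc l i).2.1 - (cyc l (i - 1)).2.1) ∧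
      c < a * ((cyc l (i + 1)).1 - (cyc l i).1) + b * ((cyc l (i + 1)).2.1 - (cyc l i).2.1) ∧
      ∀ d : ℝ, |d| ≤ 1 + η → c < (1 - d) / 2 *
        (a * ((cyc l i).1 - (cyc l (i - 1)).1) + b * ((cyc l i).2.1 - (cyc l (i - 1)).2.1)) +
        (1 + d) / 2 * (a * ((cyc l (i + 1)).1 - (cyc l i).1) +
          b * ((cyc l (i + 1)).2.1 - (cyc l i).2.1)))
    (fun i i' η e k => ?_) fun i _ => ?_).mono ?_)
  · simp only [Prod.mk.injEq] at e
    rwa [← e.1, ← e.2.1, ← e.2.2]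
  · obtain ⟨a, b, k⟩ := H.2.2.1 i
    obtain ⟨k1, k2⟩ := k _ (Or.inl rfl)
    obtain ⟨c, c0, c1⟩ := exists_between (lt_min k1 k2)
    obtain ⟨c2, c3⟩ := lt_min_iff.1 c1
    filter_upwards [ev_conv (sub_pos.2 c2) (sub_pos.2 c3), ev_lt (16 * |b|) c0] with η h1 h2
    exact ⟨a, b, c, h2, c2, c3, fun d hd => by linarith [h1 d hd]⟩
  · rintro _ k π rfl i
    obtain ⟨a, b, c, k1, k2, k3, k⟩ := k i trivial
    refine ⟨a, b, c, k1, k2, k3, fun t ht => ?_⟩
    obtain ⟨u, rfl⟩ : ∃ u, t = i + u := ⟨t - i, by ring⟩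
    obtain ⟨h1, h2⟩ := π.real_deriv H.2.1 i (u := u) (by linarith [ht.1]) (by linarith [ht.2])
    rw [h1, h2]
    linarith [k _ (π.ab_der u)]

/-- one planar covector for the two edges at a vertex and the rounded velocity -/
theorem core_vel {l : List Z3} {h : ℝ} (H : ShiftOK l h) : Small fun π => ∀ i : ℤ, ∃ a b : ℝ,
    0 < a * ((cyc l i).1 - (cyc l (i - 1)).1) + b * ((cyc l i).2.1 - (cyc l (i - 1)).2.1) ∧
    0 < a * ((cyc l (i + 1)).1 - (cyc l i).1) + b * ((cyc l (i + 1)).2.1 - (cyc l i).2.1) ∧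
    ∀ t ∈ Ioo ((i : ℝ) - 1 + π.η) (i + 1 - π.η),
      0 < a * (deriv (π.real (cyc l)) t).1 + b * (deriv (π.real (cyc l)) t).2.1 := by
  refine (core_q H).mono fun π k i => ?_
  obtain ⟨a, b, c, k1, k2, k3, k4⟩ := k i
  have c0 : 0 < c := lt_of_le_of_lt (by have := π.pos; positivity) k1
  exact ⟨a, b, c0.trans k2, c0.trans k3, fun t ht => c0.trans (k4 t ht)⟩

theorem core_real_mono {π : Prof} {X : ℤ → P3} (hX : Rel X) {a b c p q t t' : ℝ}
    (h : ∀ t ∈ Ioo p q, c < a * (deriv (π.real X) t).1 + b * (deriv (π.real X) t).2.1)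
    (ht : t ∈ Ioo p q) (ht' : t' ∈ Ioo p q) (hl : t ≤ t') :
    a * (π.real X t).1 + b * (π.real X t).2.1 - c * t ≤
      a * (π.real X t').1 + b * (π.real X t').2.1 - c * t' := by
  have hd : ∀ t, HasDerivAt (fun t => a * (π.real X t).1 + b * (π.real X t).2.1 - c * t)
      (a * (deriv (π.real X) t).1 + b * (deriv (π.real X) t).2.1 - c * 1) t := fun t => by
    have := ((π.real_smooth hX).differentiable (by simp) t).hasDerivAt
    exact (((hasFDerivAt_fst.comp_hasDerivAt t this).const_mul a).add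
      ((hasFDerivAt_fst.comp_hasDerivAt t
        (hasFDerivAt_snd.comp_hasDerivAt t this)).const_mul b)).sub
      ((hasDerivAt_id' t).const_mul c)
  refine (strictMonoOn_of_deriv_pos (convex_Ioo _ _)
    (fun t _ => (hd t).continuousAt.continuousWithinAt) fun t ht => ?_).monotoneOn ht ht' hl
  rw [(hd t).deriv]
  linarith [h t (interior_subset ht)]

theorem core_plc_mono (X : ℤ → P3) {k : ℤ} {a b c t t' : ℝ}
    (h1 : c < a * ((X k).1 - (X (k - 1)).1) + b * ((X k).2.1 - (X (k - 1)).2.1))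
    (h2 : c < a * ((X (k + 1)).1 - (X k).1) + b * ((X (k + 1)).2.1 - (X k).2.1))
    (ht : (k : ℝ) - 1 ≤ t) (ht' : t' < k + 1) (hl : t ≤ t') :
    a * (plc X t).1 + b * (plc X t).2.1 - c * t ≤
      a * (plc X t').1 + b * (plc X t').2.1 - c * t' := by
  have l : ∀ t : ℝ, (k : ℝ) - 1 ≤ t → t < k →
      plc X t = edge (X (k - 1)) (X k) (t - (k - 1)) := fun t a1 a2 => by
    rw [core_plc X (i := k - 1) (by push_cast; exact a1) (by push_cast; linarith), sub_add_cancel]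
    push_cast
    rfl
  rcases lt_or_ge t k with a1 | a1 <;> rcases lt_or_ge t' k with a2 | a2
  · rw [l t ht a1, l t' (ht.trans hl) a2]
    simp only [edge]
    nlinarith [mul_nonneg (sub_nonneg.2 hl) (sub_pos.2 h1).le]
  · rw [l t ht a1, core_plc X a2 ht']
    simp only [edge]
    nlinarith [mul_nonneg (sub_pos.2 a1).le (sub_pos.2 h1).le,
      mul_nonneg (sub_nonneg.2 a2) (sub_pos.2 h2).le]
  · linarith
  · rw [core_plc X a1 (hl.trans_lt ht'), core_plc X a2 ht']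
    simp only [edge]
    nlinarith [mul_nonneg (sub_nonneg.2 hl) (sub_pos.2 h2).le]

theorem core_mid (π : Prof) {X : ℤ → P3} (hX : Rel X) (s : ℝ) {j : ℤ} {t : ℝ}
    (h0 : (j : ℝ) + 1 / 8 ≤ t) (h1 : t ≤ j + 7 / 8) :
    (mixc π X s t).1 = (X j).1 + (t - j) * ((X (j + 1)).1 - (X j).1) := by
  have h2 := π.small
  have h3 := π.real_edge hX j (u := t - j) (by linarith) (by linarith)
  rw [add_sub_cancel] at h3
  rw [mixc, h3, core_plc X (i := j) (by linarith) (by linarith), ← add_smul, sub_add_cancel,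
    one_smul, edge]

theorem core_near (π : Prof) {X : ℤ → P3} (h : Rel X) {C : ℝ} (hC : ∀ i, ‖X i‖ ≤ C) {s : ℝ}
    (hs : s ∈ Icc (0 : ℝ) 1) {i : ℤ} {t : ℝ} (ht : EmbAux.Near π.η i t) :
    ∃ u ∈ Icc (0 : ℝ) 1, ‖mixc π X s t - edge (X i) (X (i + 1)) u‖ ≤ 44 * (1 + C) ^ 2 * π.η := by
  obtain ⟨u, hu, k⟩ := EmbAux.near_edge π h hC ht
  refine ⟨u, hu, (norm_sub_le_norm_sub_add_norm_sub _ (π.real X t) _).trans ?_⟩
  have e : mixc π X s t - π.real X t = -(s • (π.real X t - plc X t)) := by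
    rw [mixc]
    module
  have h1 := π.real_close h hC t
  rw [e, norm_neg, norm_smul, Real.norm_of_nonneg hs.1]
  nlinarith [mul_nonneg (sub_nonneg.2 hs.2) (norm_nonneg (π.real X t - plc X t))]

open EmbAux in
theorem core_far {l : List Z3} {h : ℝ} (H : ShiftOK l h) : Small fun π =>
    ∀ s ∈ Icc (0 : ℝ) 1, ∀ i j : ℤ, i + 2 ≤ j → j + 2 ≤ i + l.length → ∀ t t',
      EmbAux.Near π.η i t → EmbAux.Near π.η j t' →
        2 * π.η < ‖mixc π (cyc l) s t' - mixc π (cyc l) s t‖ := by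
  obtain ⟨C, hC⟩ := (cyc_fin l).isBounded.exists_norm_le
  have hC' : ∀ i, ‖cyc l i‖ ≤ C := fun i => hC _ ⟨i, rfl⟩
  have hM : Mv (cyc l) (cyc l) := ⟨H.2.1, H.2.1, fun _ => Or.inl rfl, cyc_fin l, cyc_fin l⟩
  refine small_of ((unif _ (fin_pair
    (fin_pair (core_fin l Prod.fst) (core_fin l fun a : ℤ × ℤ => a.1 + 1))
    (fin_pair (core_fin l Prod.snd) (core_fin l fun a : ℤ × ℤ => a.2 + 1)))
    (Q := fun a => a.1 + 2 ≤ a.2 ∧ a.2 + 2 ≤ a.1 + l.length)
    (P := fun a η => ∀ u ∈ Icc (0 : ℝ) 1, ∀ v ∈ Icc (0 : ℝ) 1,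
      (88 * (1 + C) ^ 2 + 2) * η < ‖edge (cyc l a.2) (cyc l (a.2 + 1)) v -
        edge (cyc l a.1) (cyc l (a.1 + 1)) u‖) (fun a a' η e k => ?_)
    fun a ha => ?_).mono ?_)
  · simp only [Prod.mk.injEq] at e
    rwa [← e.1.1, ← e.1.2, ← e.2.1, ← e.2.2]
  · obtain ⟨δ, h1, h2⟩ := gap hM (mv_shift H.2.1 h) (H.2.2.2 a.1 a.2 ha.1 ha.2).1
    have h3 := h2 0 (left_mem_Icc.2 zero_le_one)
    rw [mix_zero, mix_zero] at h3
    exact (ev_lt _ h1).mono fun η hη u hu v hv => hη.trans_le (h3 u hu v hv)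
  · rintro _ k π rfl s hs i j q1 q2 t t' ht ht'
    obtain ⟨u, hu, h1⟩ := core_near π H.2.1 hC' hs ht
    obtain ⟨v, hv, h2⟩ := core_near π H.2.1 hC' hs ht'
    have h3 := k (i, j) ⟨q1, q2⟩ u hu v hv
    rw [norm_sub_rev] at h2
    have h4 := norm_sub_le_norm_sub_add_norm_sub (edge (cyc l j) (cyc l (j + 1)) v)
      (mixc π (cyc l) s t') (edge (cyc l i) (cyc l (i + 1)) u)
    have h5 := norm_sub_le_norm_sub_add_norm_sub (mixc π (cyc l) s t') (mixc π (cyc l) s t)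
      (edge (cyc l i) (cyc l (i + 1)) u)
    linarith

/-- the time `t` is in the middle of an edge along which `x` changes -/
def coreMid (X : ℤ → P3) (t : ℝ) : Prop :=
  ∃ j : ℤ, (X (j + 1)).1 ≠ (X j).1 ∧ t ∈ Icc ((j : ℝ) + 1 / 4) (j + 3 / 4)

theorem core_key {l : List Z3} {h : ℝ} (H : ShiftOK l h) : Small fun π =>
    ∀ s ∈ Icc (0 : ℝ) 1, ∀ (t t' : ℝ) (w w' : P3), w.1 = 0 → w'.1 = 0 → ‖w‖ ≤ π.η → ‖w'‖ ≤ π.η →
      (w.2.1 = 0 ∨ coreMid (cyc l) t) → (w'.2.1 = 0 ∨ coreMid (cyc l) t') → t ≤ t' →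
      t' ≤ t + l.length / 2 → mixc π (cyc l) s t + w = mixc π (cyc l) s t' + w' → t = t' := by
  refine ((core_q H).and (core_far H)).mono fun π k s hs t t' w w' x0 x0' n n' m m' hl hu e => ?_
  have p0 := π.pos
  rcases EmbAux.cases_near π.pos π.small H.1 hl hu with ⟨i, j, k1, k2, k3, k4⟩ | ⟨i, k1, k2⟩
  · have h1 := k.2 s hs i j k1 k2 t t' k3 k4
    have h2 : mixc π (cyc l) s t' - mixc π (cyc l) s t = w - w' := by
      rw [sub_eq_sub_iff_add_eq_add, ← e, add_comm]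
    rw [h2] at h1
    linarith [norm_sub_le w w']
  obtain ⟨a, b, c, c1, c2, c3, c4⟩ := k.1 i
  have c0 : 0 < c := lt_of_le_of_lt (by positivity) c1
  have h1 := mul_le_mul_of_nonneg_left (core_real_mono H.2.1 c4 k1 k2 hl) (sub_nonneg.2 hs.2)
  have h2 := mul_le_mul_of_nonneg_left
    (core_plc_mono (cyc l) c2 c3 (by linarith [k1.1]) (by linarith [k2.2]) hl) hs.1
  have ex := congrArg (fun p : P3 => p.1) e
  have ey := congrArg (fun p : P3 => p.2.1) e
  simp only [Prod.fst_add, Prod.snd_add, x0, x0', add_zero] at ex ey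
  have h3 : c * (t' - t) ≤ b * (w.2.1 - w'.2.1) := by
    simp only [mixc, Prod.fst_add, Prod.snd_add, Prod.smul_fst, Prod.smul_snd, smul_eq_mul]
      at ex ey
    linear_combination h1 + h2 - a * ex - b * ey
  have h4 : t' - t < 1 / 8 := by
    have a1 : |w.2.1| ≤ π.η := ((norm_fst_le w.2).trans (norm_snd_le w)).trans n
    have a2 : |w'.2.1| ≤ π.η := ((norm_fst_le w'.2).trans (norm_snd_le w')).trans n'
    have a3 := real_aux_mul (le_refl |b|) ((abs_sub _ _).trans (add_le_add a1 a2))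
    refine lt_of_mul_lt_mul_left ?_ c0.le
    linarith [le_abs_self (b * (w.2.1 - w'.2.1))]
  have f : ∀ j : ℤ, (cyc l (j + 1)).1 ≠ (cyc l j).1 → (j : ℝ) + 1 / 8 ≤ t → t' ≤ j + 7 / 8 →
      t = t' := fun j a1 a2 a3 => by
    rw [core_mid π H.2.1 s a2 (hl.trans a3), core_mid π H.2.1 s (a2.trans hl) a3] at ex
    linarith [mul_right_cancel₀ (sub_ne_zero.2 a1) (add_left_cancel ex)]
  rcases m with m | ⟨j, a1, a2⟩
  · rcases m' with m' | ⟨j, a1, a2⟩
    · rw [m, m', sub_self, mul_zero] at h3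
      exact hl.antisymm (sub_nonpos.1 (nonpos_of_mul_nonpos_right h3 c0))
    · exact f j a1 (by linarith [a2.1]) (by linarith [a2.2])
  · exact f j a1 (by linarith [a2.1]) (by linarith [a2.2])

/-- small vertical displacements, and small displacements with `x = 0` in the middle of the
edge `e`, do not create double points -/
theorem core_inj {l : List Z3} {h : ℝ} (H : ShiftOK l h) {e : ℤ}
    (he : (cyc l (e + 1)).1 ≠ (cyc l e).1) : Small fun π => ∃ δ : ℝ, 0 < δ ∧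
    ∀ s ∈ Icc (0 : ℝ) 1, ∀ (t t' : ℝ) (w w' : P3), w.1 = 0 → w'.1 = 0 → ‖w‖ ≤ δ → ‖w'‖ ≤ δ →
      (w.2.1 = 0 ∨ t ∈ Icc ((e : ℝ) + 1 / 4) (e + 3 / 4)) →
      (w'.2.1 = 0 ∨ t' ∈ Icc ((e : ℝ) + 1 / 4) (e + 3 / 4)) → |t - t'| < l.length →
      mixc π (cyc l) s t + w = mixc π (cyc l) s t' + w' → t = t' := by
  refine (core_key H).mono fun π k => ⟨π.η, π.pos, fun s hs => ?_⟩
  have key : ∀ (t t' : ℝ) (w w' : P3), w.1 = 0 → w'.1 = 0 → ‖w‖ ≤ π.η → ‖w'‖ ≤ π.η →
      (w.2.1 = 0 ∨ t ∈ Icc ((e : ℝ) + 1 / 4) (e + 3 / 4)) →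
      (w'.2.1 = 0 ∨ t' ∈ Icc ((e : ℝ) + 1 / 4) (e + 3 / 4)) → t ≤ t' → t' < t + l.length →
      mixc π (cyc l) s t + w = mixc π (cyc l) s t' + w' → t = t' := by
    intro t t' w w' x0 x0' n n' m m' hl hu q
    have m1 : w'.2.1 = 0 ∨ coreMid (cyc l) t' := m'.imp_right fun a => ⟨e, he, a⟩
    rcases le_total t' (t + l.length / 2) with a | a
    · exact k s hs t t' w w' x0 x0' n n' (m.imp_right fun a => ⟨e, he, a⟩) m1 hl a q
    · have r := EmbAux.real_per π (cyc_add_length l) 1 t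
      rw [Int.cast_one, one_mul] at r
      refine absurd (k s hs t' (t + l.length) w' w x0' x0 n' n m1 (m.imp_right fun b =>
        ⟨e + l.length, ?_, ?_⟩) hu.le (by linarith) ?_) hu.ne
      · rwa [add_right_comm, cyc_add_length, cyc_add_length]
      · push_cast
        exact ⟨by linarith [b.1], by linarith [b.2]⟩
      · rw [← q, mixc, mixc, r, plc_per]
  intro t t' w w' x0 x0' n n' m m' d q
  obtain ⟨d1, d2⟩ := abs_lt.1 d
  rcases le_total t t' with a | a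
  · exact key t t' w w' x0 x0' n n' m m' a (by linarith) q
  · exact (key t' t w' w x0' x0 n' n m' m a (by linarith) q.symm).symm

end Cab

end Pool.Agent.Lib.MP_4d7d0a_gt
end

-- part Pool.Agent.Lib.MP_4d7d0a_gt.CableStr
section

/-! From the canonical chart to the framed polygon. -/

set_option autoImplicit false

open Set Filter Topology

namespace Pool.Agent.Lib.MP_4d7d0a_gt

namespace Cab

theorem str_mem {a b u : ℝ} (h : a < b) (hu : u ∈ Icc (0 : ℝ) 1) :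
    a ≤ a + u * (b - a) ∧ a + u * (b - a) ≤ b := by
  constructor <;> nlinarith [hu.1, hu.2]

theorem str_edge (π : Prof) {W : ℤ → P3} (hr : Rel W) {e : ℤ} {t : ℝ}
    (ht : t ∈ Icc ((e : ℝ) + 1 / 4) (e + 3 / 4)) :
    ∀ᶠ t' in 𝓝 t, π.real W t' = edge (W e) (W (e + 1)) (t' - e) := by
  have h1 := π.small
  filter_upwards [Ioo_mem_nhds (show (e : ℝ) + 1 / 8 < t by linarith [ht.1])
    (show t < e + 7 / 8 by linarith [ht.2])] with t' h
  rw [← π.real_edge hr e (by linarith [h.1]) (by linarith [h.2]), add_sub_cancel]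

/-- in the canonical chart the arcs are push-offs along `fr` -/
theorem tarc_eq (π : Prof) {l : List Z3} (hl : 0 < l.length) (hr : Rel (cyc l)) {n : ℕ}
    {T Θ : ℕ → ℝ} {E : ℕ → ℤ} {e : ℤ} (D : StrD l n T Θ E e) {κ : Type} (μ : κ → ℝ)
    (a : κ × Fin (n + 1)) {u : ℝ} (hu : u ∈ Icc (0 : ℝ) 1) :
    tarc n (can (π.knot l)) (fun j => T j / l.length) Θ μ a u =
      π.real (cyc l) (T a.2 + u * (T (a.2 + 1) - T a.2)) +
        μ a.1 • fr (l.length * ((cyc l (e + 1)).1 - (cyc l e).1))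
          (Θ a.2 + u * (Θ (a.2 + 1) - Θ a.2)) := by
  have hN : (0 : ℝ) < l.length := by exact_mod_cast hl
  have hj : (a.2 : ℕ) ≤ n := Nat.lt_succ_iff.1 a.2.2
  have hm := str_mem (D.lt _ hj) hu
  unfold tarc
  generalize ht : T a.2 + u * (T (a.2 + 1) - T a.2) = t at hm
  have h1 : T a.2 / l.length + u * (T (a.2 + 1) / l.length - T a.2 / l.length) =
      t / l.length := by
    rw [← ht]
    ring
  have h2 : π.knot l (t / l.length) = π.real (cyc l) t := by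
    rw [Prof.knot, mul_div_cancel₀ _ hN.ne']
  rw [h1]
  rcases D.turn _ hj with ⟨a1, a2, a3⟩ | ⟨-, a2, a3⟩
  · rw [a1, sub_self, mul_zero, add_zero, pol, a2, a3, mul_zero, mul_one, can_core, h2, fr, a2, a3]
    simp
  · have hv : (l.length : ℝ) * ((cyc l (e + 1)).1 - (cyc l e).1) ≠ 0 :=
      mul_ne_zero hN.ne' (sub_ne_zero.2 D.run)
    have h3 := str_edge π hr (e := e) (t := t) ⟨by linarith [hm.1], by linarith [hm.2]⟩
    have h4 : Tendsto (fun x : ℝ => l.length * x) (𝓝 (t / l.length)) (𝓝 t) := by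
      have := (continuous_const.mul continuous_id).tendsto (t / l.length) (f := fun x : ℝ =>
        (l.length : ℝ) * x)
      rwa [mul_div_cancel₀ _ hN.ne'] at this
    have h5 : ∀ᶠ x in 𝓝 (t / l.length), π.knot l x =
        ((cyc l e).1 - e * ((cyc l (e + 1)).1 - (cyc l e).1) +
          l.length * ((cyc l (e + 1)).1 - (cyc l e).1) * x, (cyc l e).2.1,
        (cyc l e).2.2 - (cyc l e).2.1 * ((cyc l (e + 1)).1 - (cyc l e).1) * e +
          (cyc l e).2.1 * (l.length * ((cyc l (e + 1)).1 - (cyc l e).1)) * x) := by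
      filter_upwards [h4.eventually h3] with x hx
      rw [Prof.knot, hx, edge, D.flat]
      refine Prod.ext ?_ (Prod.ext ?_ ?_) <;> simp only <;> ring
    rw [can_flat hv h5, ← h2, h5.self_of_nhds]
    refine Prod.ext ?_ (Prod.ext ?_ ?_) <;>
      simp only [pol, fr, Prod.fst_add, Prod.snd_add, Prod.smul_fst, Prod.smul_snd, smul_eq_mul] <;>
      ring

/-- the interpolated framing -/
noncomputable def strG (v a b s u : ℝ) : P3 :=
  (1 - s) • fr v (a + u * (b - a)) + s • (fr v a + u • (fr v b - fr v a))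

/-- its velocity -/
noncomputable def strH (v a b s u : ℝ) : P3 :=
  (1 - s) • (0, -Real.sin (a + u * (b - a)) * (b - a) / v, Real.cos (a + u * (b - a)) * (b - a)) +
    s • (fr v b - fr v a)

/-- the interpolated core on the edge `i` -/
noncomputable def strC (π : Prof) (W : ℤ → P3) (s t : ℝ) (i : ℤ) : P3 :=
  (1 - s) • π.real W t + s • (W i + (t - i) • (W (i + 1) - W i))

/-- its velocity -/
noncomputable def strB (π : Prof) (W : ℤ → P3) (s t : ℝ) (i : ℤ) : P3 :=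
  (1 - s) • deriv (π.real W) t + s • (W (i + 1) - W i)

theorem str_lin (a b u : ℝ) : HasDerivAt (fun u : ℝ => a + u * (b - a)) (b - a) u := by
  simpa using ((hasDerivAt_id u).mul_const (b - a)).const_add a

theorem str_dG (v a b s u : ℝ) : HasDerivAt (strG v a b s) (strH v a b s u) u := by
  have h1 := (hasDerivAt_const u (0 : ℝ)).prodMk
    (((str_lin a b u).cos.div_const v).prodMk (str_lin a b u).sin)
  have h2 := ((hasDerivAt_id u).smul_const (fr v b - fr v a)).const_add (fr v a)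
  rw [one_smul] at h2
  exact (h1.const_smul (1 - s)).add (h2.const_smul s)

theorem str_dC (π : Prof) {W : ℤ → P3} (hr : Rel W) (s t : ℝ) (i : ℤ) :
    HasDerivAt (fun t => strC π W s t i) (strB π W s t i) t := by
  have h1 := ((π.real_smooth hr).differentiable (by simp) t).hasDerivAt
  have h2 := (((hasDerivAt_id t).sub_const (i : ℝ)).smul_const (W (i + 1) - W i)).const_add (W i)
  rw [one_smul] at h2
  exact (h1.const_smul (1 - s)).add (h2.const_smul s)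

theorem str_G0 (v a b s : ℝ) : strG v a b s 0 = fr v a := by
  simp only [strG, zero_mul, add_zero, zero_smul]
  module

theorem str_G1 (v a b s : ℝ) : strG v a b s 1 = fr v b := by
  simp only [strG, one_mul, add_sub_cancel, one_smul]
  module

theorem str_Gx (v a b s u : ℝ) : (strG v a b s u).1 = 0 := by simp [strG, fr]

theorem str_Hx (v a b s u : ℝ) : (strH v a b s u).1 = 0 := by simp [strH, fr]

theorem str_H0 (v a s u : ℝ) : strH v a a s u = 0 := by simp [strH]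

theorem str_Gy {v a : ℝ} (h : Real.cos a = 0) (s u : ℝ) : (strG v a a s u).2.1 = 0 := by
  simp [strG, fr, h]

theorem str_cvx {K : Set P3} (hK : Convex ℝ K) {v a b s u : ℝ} (hs : s ∈ Icc (0 : ℝ) 1)
    (hu : u ∈ Icc (0 : ℝ) 1) (h : ∀ x ∈ Icc (0 : ℝ) 1, fr v (a + x * (b - a)) ∈ K) :
    strG v a b s u ∈ K := by
  have h0 := h 0 tb1_zero
  have h1 := h 1 tb1_one
  rw [zero_mul, add_zero] at h0
  rw [one_mul, add_sub_cancel] at h1
  exact hK (h u hu) (hK.add_smul_sub_mem h0 h1 hu) (sub_nonneg.2 hs.2) hs.1 (sub_add_cancel _ _)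

theorem str_norm (v a b : ℝ) {s u : ℝ} (hs : s ∈ Icc (0 : ℝ) 1) (hu : u ∈ Icc (0 : ℝ) 1) :
    ‖strG v a b s u‖ ≤ 1 + |v|⁻¹ := by
  refine mem_closedBall_zero_iff.1 (str_cvx (convex_closedBall 0 _) hs hu fun x _ => ?_)
  have h1 : 0 ≤ |v|⁻¹ := by positivity
  rw [mem_closedBall_zero_iff, fr, norm_prod_le_iff, norm_prod_le_iff]
  refine ⟨by simp only [norm_zero]; linarith, ?_, ?_⟩
  · simp only [Real.norm_eq_abs, div_eq_mul_inv, abs_mul, abs_inv]
    nlinarith [Real.abs_cos_le_one (a + x * (b - a))]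
  · exact (Real.abs_sin_le_one _).trans (by linarith)

theorem str_ne {v a b s u : ℝ} (hv : v ≠ 0) (hab : |b - a| < Real.pi) (hs : s ∈ Icc (0 : ℝ) 1)
    (hu : u ∈ Icc (0 : ℝ) 1) : strG v a b s u ≠ 0 := by
  have hK : Convex ℝ {p : P3 | 0 < p.2.1 * (v * Real.cos ((a + b) / 2)) +
      p.2.2 * Real.sin ((a + b) / 2)} :=
    convex_halfSpace_gt ⟨fun x y => by simp only [Prod.fst_add, Prod.snd_add]; ring,
      fun c x => by simp only [Prod.smul_fst, Prod.smul_snd, smul_eq_mul]; ring⟩ 0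
  have h1 := str_cvx hK (v := v) (a := a) (b := b) hs hu fun x hx => by
    have h2 : |(x - 1 / 2) * (b - a)| < Real.pi / 2 := by
      have h3 : |x - 1 / 2| ≤ 1 / 2 := abs_le.2 ⟨by linarith [hx.1], by linarith [hx.2]⟩
      rw [abs_mul]
      nlinarith [abs_nonneg (b - a)]
    have h3 := Real.cos_pos_of_mem_Ioo (abs_lt.1 h2)
    have h4 : (x - 1 / 2) * (b - a) = a + x * (b - a) - (a + b) / 2 := by ring
    rw [h4, Real.cos_sub] at h3
    change 0 < Real.cos _ / v * (v * _) + Real.sin _ * _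
    rwa [div_mul_eq_mul_div, mul_left_comm, mul_div_cancel_left₀ _ hv]
  intro h0
  rw [h0] at h1
  simp at h1

theorem str_Bper (π : Prof) (l : List Z3) (s t : ℝ) (i : ℤ) :
    strB π (cyc l) s (t + l.length) (i + l.length) = strB π (cyc l) s t i := by
  have h1 : (fun x => π.real (cyc l) (x + l.length)) = π.real (cyc l) := funext fun x => by
    simpa using EmbAux.real_per π (cyc_add_length l) 1 x
  rw [strB, strB, ← deriv_comp_add_const, h1, add_right_comm, cyc_add_length, cyc_add_length]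

theorem str_Bx (π : Prof) {W : ℤ → P3} (hr : Rel W) {e i : ℤ} (s : ℝ) {t : ℝ}
    (ht : t ∈ Icc ((e : ℝ) + 1 / 4) (e + 3 / 4)) (h0 : (i : ℝ) ≤ t) (h1 : t ≤ i + 1) :
    (strB π W s t i).1 = (W (e + 1)).1 - (W e).1 := by
  obtain rfl : i = e := by
    have a1 : (i : ℝ) < e + 1 := by linarith [ht.2]
    have a2 : (e : ℝ) < i + 1 := by linarith [ht.1]
    have a3 : i < e + 1 := by exact_mod_cast a1
    have a4 : e < i + 1 := by exact_mod_cast a2
    omega
  have h2 : HasDerivAt (fun t' => (π.real W t').1) (deriv (π.real W) t).1 t :=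
    (ContinuousLinearMap.fst ℝ ℝ (ℝ × ℝ)).hasFDerivAt.comp_hasDerivAt t
      ((π.real_smooth hr).differentiable (by simp) t).hasDerivAt
  have h3 : HasDerivAt (fun t' => (π.real W t').1) ((W (i + 1)).1 - (W i).1) t := by
    have h4 := (((hasDerivAt_id t).sub_const (i : ℝ)).mul_const
      ((W (i + 1)).1 - (W i).1)).const_add (W i).1
    rw [one_mul] at h4
    refine h4.congr_of_eventuallyEq ?_
    filter_upwards [str_edge π hr ht] with x hx
    rw [hx]
    rfl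
  simp only [strB, Prod.fst_add, Prod.smul_fst, Prod.fst_sub, smul_eq_mul, h2.unique h3]
  ring

/-- the hypothesis on velocities -/
def StrV (π : Prof) (W : ℤ → P3) : Prop := ∀ i : ℤ, ∃ a b : ℝ,
  0 < a * ((W i).1 - (W (i - 1)).1) + b * ((W i).2.1 - (W (i - 1)).2.1) ∧
  0 < a * ((W (i + 1)).1 - (W i).1) + b * ((W (i + 1)).2.1 - (W i).2.1) ∧
  ∀ t ∈ Ioo ((i : ℝ) - 1 + π.η) (i + 1 - π.η),
    0 < a * (deriv (π.real W) t).1 + b * (deriv (π.real W) t).2.1

theorem str_cov {π : Prof} {W : ℤ → P3} (hV : StrV π W) {s : ℝ} (hs : s ∈ Icc (0 : ℝ) 1) (t : ℝ) :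
    ∃ a b : ℝ, ∀ i : ℤ, (i : ℝ) ≤ t → t ≤ i + 1 →
      0 < a * (strB π W s t i).1 + b * (strB π W s t i).2.1 := by
  obtain ⟨a, b, h1, h2, h3⟩ := hV (round t)
  have h4 := real_aux_round t
  have h5 := π.small
  have h6 := h3 t ⟨by linarith [h4.1], by linarith [h4.2]⟩
  refine ⟨a, b, fun i h0 h0' => ?_⟩
  have h7 : 0 < a * ((W (i + 1)).1 - (W i).1) + b * ((W (i + 1)).2.1 - (W i).2.1) := by
    have a1 : (i : ℝ) < round t + 1 := by linarith [h4.2]
    have a2 : (round t : ℝ) < i + 2 := by linarith [h4.1]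
    have a3 : i < round t + 1 := by exact_mod_cast a1
    have a4 : round t < i + 2 := by exact_mod_cast a2
    obtain h | h : round t = i ∨ round t = i + 1 := by omega
    · rwa [h] at h2
    · rwa [h, add_sub_cancel_right] at h1
  have h8 := convex_Ioi (0 : ℝ) h6 h7 (sub_nonneg.2 hs.2) hs.1 (sub_add_cancel _ _)
  simp only [strB, Prod.fst_add, Prod.snd_add, Prod.smul_fst, Prod.smul_snd, Prod.fst_sub,
    Prod.snd_sub, smul_eq_mul, mem_Ioi] at h8 ⊢
  linarith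

theorem str_nc {π : Prof} {l : List Z3} (hr : Rel (cyc l)) (hV : StrV π (cyc l)) {e : ℤ}
    (he : (cyc l (e + 1)).1 ≠ (cyc l e).1) {s t p q r : ℝ} (hs : s ∈ Icc (0 : ℝ) 1) {i k : ℤ}
    (hi : (i : ℝ) ≤ t ∧ t ≤ i + 1) (hk : (k : ℝ) ≤ t ∧ t ≤ k + 1) (hp : 0 < p) (hq : 0 < q)
    (hr0 : 0 ≤ r) {g g' : P3} (hg : g.1 = 0) (hg' : g'.1 = 0)
    (h : (g = 0 ∧ g' = 0) ∨ t ∈ Icc ((e : ℝ) + 1 / 4) (e + 3 / 4) ∨
      t + l.length ∈ Icc ((e : ℝ) + 1 / 4) (e + 3 / 4)) :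
    p • strB π (cyc l) s t i + g ≠ -(r • (q • strB π (cyc l) s t k + g')) := by
  intro h0
  have hx := congrArg Prod.fst h0
  simp only [Prod.fst_add, Prod.smul_fst, Prod.fst_neg, hg, hg', smul_eq_mul, add_zero] at hx
  have hrq := mul_nonneg hr0 hq.le
  have key : (∀ j : ℤ, (j : ℝ) ≤ t → t ≤ j + 1 →
      (strB π (cyc l) s t j).1 = (cyc l (e + 1)).1 - (cyc l e).1) → False := fun hb => by
    rw [hb i hi.1 hi.2, hb k hk.1 hk.2] at hx
    have h1 : (p + r * q) * ((cyc l (e + 1)).1 - (cyc l e).1) = 0 := by linarith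
    exact mul_ne_zero (by positivity) (sub_ne_zero.2 he) h1
  rcases h with ⟨rfl, rfl⟩ | h | h
  · obtain ⟨a, b, hab⟩ := str_cov hV hs t
    have hy := congrArg (fun x : P3 => x.2.1) h0
    simp only [Prod.smul_fst, Prod.smul_snd, Prod.fst_neg, Prod.snd_neg, smul_eq_mul,
      add_zero] at hy
    have h1 := mul_pos hp (hab i hi.1 hi.2)
    have h2 := mul_nonneg hrq (hab k hk.1 hk.2).le
    have h3 : p * (a * (strB π (cyc l) s t i).1 + b * (strB π (cyc l) s t i).2.1) +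
        r * q * (a * (strB π (cyc l) s t k).1 + b * (strB π (cyc l) s t k).2.1) = 0 := by
      linear_combination a * hx + b * hy
    linarith
  · exact key fun j h1 h2 => str_Bx π hr s h h1 h2
  · refine key fun j h1 h2 => ?_
    rw [← str_Bper]
    exact str_Bx π hr s h (by push_cast; linarith) (by push_cast; linarith)

theorem str_rot {n : ℕ} (j : Fin (n + 1)) :
    ((rot n j : ℕ) = j + 1) ∨ ((j : ℕ) = n ∧ (rot n j : ℕ) = 0) := by
  rw [finRotate_apply, Fin.val_add_one]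
  split_ifs with h
  · exact Or.inr ⟨by rw [h, Fin.val_last], rfl⟩
  · exact Or.inl rfl

section D

variable {l : List Z3} {n : ℕ} {T Θ : ℕ → ℝ} {E : ℕ → ℤ} {e : ℤ}

theorem str_mono (D : StrD l n T Θ E e) {a b : ℕ} (h : a ≤ b) (hb : b ≤ n + 1) : T a ≤ T b := by
  induction b, h using Nat.le_induction with
  | base => exact le_rfl
  | succ b _ ih => exact (ih (by omega)).trans (D.lt b (by omega)).le

theorem str_in (D : StrD l n T Θ E e) {j : ℕ} (hj : j ≤ n) {u : ℝ} (hu : u ∈ Icc (0 : ℝ) 1) :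
    (E j : ℝ) ≤ T j + u * (T (j + 1) - T j) ∧ T j + u * (T (j + 1) - T j) ≤ E j + 1 :=
  ⟨(D.lo j hj).trans (str_mem (D.lt j hj) hu).1, (str_mem (D.lt j hj) hu).2.trans (D.hi j hj)⟩

theorem str_plc (hr : Rel (cyc l)) (D : StrD l n T Θ E e) {j : ℕ} (hj : j ≤ n) {u : ℝ}
    (hu : u ∈ Icc (0 : ℝ) 1) : plc (cyc l) (T j + u * (T (j + 1) - T j)) =
      cyc l (E j) + (T j + u * (T (j + 1) - T j) - E j) • (cyc l (E j + 1) - cyc l (E j)) := by
  rw [plc_eq hr (D.str (E j)) (str_in D hj hu).1 (str_in D hj hu).2, AffineMap.lineMap_apply,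
    vsub_eq_sub, vadd_eq_add, add_comm]

theorem str_mix (π : Prof) (hr : Rel (cyc l)) (D : StrD l n T Θ E e) (s : ℝ) {j : ℕ} (hj : j ≤ n)
    {u : ℝ} (hu : u ∈ Icc (0 : ℝ) 1) : strC π (cyc l) s (T j + u * (T (j + 1) - T j)) (E j) =
      mixc π (cyc l) s (T j + u * (T (j + 1) - T j)) := by
  rw [mixc, str_plc hr D hj hu, strC]

theorem str_next (π : Prof) (D : StrD l n T Θ E e) (v : ℝ) (j : Fin (n + 1)) :
    π.real (cyc l) (T (rot n j)) = π.real (cyc l) (T (j + 1)) ∧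
      plc (cyc l) (T (rot n j)) = plc (cyc l) (T (j + 1)) ∧
      fr v (Θ (rot n j)) = fr v (Θ (j + 1)) := by
  rcases str_rot j with h | ⟨h, h'⟩
  · rw [h]
    exact ⟨rfl, rfl, rfl⟩
  · rw [h, h', D.per, D.perΘ, plc_per, fr, fr, Real.cos_add_two_pi, Real.sin_add_two_pi]
    refine ⟨?_, rfl, rfl⟩
    simpa using (EmbAux.real_per π (cyc_add_length l) 1 (T 0)).symm

theorem str_case (D : StrD l n T Θ E e) {j : ℕ} (hj : j ≤ n) (v m s : ℝ) {u : ℝ}
    (hu : u ∈ Icc (0 : ℝ) 1) : |Θ (j + 1) - Θ j| < Real.pi ∧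
      ((m • strH v (Θ j) (Θ (j + 1)) s u = 0 ∧ (m • strG v (Θ j) (Θ (j + 1)) s u).2.1 = 0) ∨
        T j + u * (T (j + 1) - T j) ∈ Icc ((e : ℝ) + 1 / 4) (e + 3 / 4)) := by
  rcases D.turn j hj with ⟨a1, a2, -⟩ | ⟨a1, a2, a3⟩
  · rw [a1, sub_self, abs_zero, str_H0, smul_zero, Prod.smul_snd, Prod.smul_fst, str_Gy a2,
      smul_zero]
    exact ⟨Real.pi_pos, Or.inl ⟨rfl, rfl⟩⟩
  · have h := str_mem (D.lt j hj) hu
    exact ⟨a1, Or.inr ⟨a2.trans h.1, h.2.trans a3⟩⟩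

end D

theorem str_fam {l : List Z3} {h : ℝ} (H : ShiftOK l h) {n : ℕ} {T Θ : ℕ → ℝ} {E : ℕ → ℤ}
    {e : ℤ} (D : StrD l n T Θ E e) : Small fun π => ∃ δ : ℝ, 0 < δ ∧
    ∀ (κ : Type) (μ : κ → ℝ), Function.Injective μ → (∀ i, μ i ∈ Icc 0 δ) →
      FamE univ (sp fun _ : κ => rot n) (tarc n (can (π.knot l)) (fun j => T j / l.length) Θ μ)
        (cab (fun _ => rot n) (fun j => plc (cyc l) (T j))
          (fun j => fr (l.length * ((cyc l (e + 1)).1 - (cyc l e).1)) (Θ j)) μ) := by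
  refine ((core_vel H).and (core_inj H D.run)).mono fun π ⟨hV, δ, hδ, hI⟩ => ?_
  have hr := H.2.1
  have hl : 0 < l.length := by linarith [H.1]
  have hN : (0 : ℝ) < l.length := by exact_mod_cast hl
  have hv : (l.length : ℝ) * ((cyc l (e + 1)).1 - (cyc l e).1) ≠ 0 :=
    mul_ne_zero hN.ne' (sub_ne_zero.2 D.run)
  have ht := fun (κ : Type) (μ : κ → ℝ) (a : κ × Fin (n + 1)) (u : ℝ) =>
    tarc_eq π hl hr D μ a (u := u)
  generalize (l.length : ℝ) * ((cyc l (e + 1)).1 - (cyc l e).1) = v at hv ht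
  have hC : 0 < 1 + |v|⁻¹ := by positivity
  have hj : ∀ j : Fin (n + 1), (j : ℕ) ≤ n := fun j => Nat.lt_succ_iff.1 j.2
  have hΔ : ∀ j : Fin (n + 1), 0 < T (j + 1) - T j := fun j => sub_pos.2 (D.lt j (hj j))
  have c1 : Continuous (π.real (cyc l)) := (π.real_smooth hr).continuous
  have c2 : Continuous (deriv (π.real (cyc l))) := (π.real_smooth hr).continuous_deriv (by simp)
  refine ⟨δ / (1 + |v|⁻¹), by positivity, fun κ μ hμ hm => ⟨
    fun s a u => strC π (cyc l) s (T a.2 + u * (T (a.2 + 1) - T a.2)) (E a.2) +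
      μ a.1 • strG v (Θ a.2) (Θ (a.2 + 1)) s u,
    fun s a u => (T (a.2 + 1) - T a.2) •
      strB π (cyc l) s (T a.2 + u * (T (a.2 + 1) - T a.2)) (E a.2) +
      μ a.1 • strH v (Θ a.2) (Θ (a.2 + 1)) s u,
    fun s hs => ⟨fun a u hu => ⟨?_, ?_⟩, fun a => ?_, fun a => ?_, fun a r hr0 => ?_,
      fun a b u hu u' hu' hh => ?_⟩, fun a => ?_, fun a => ?_, fun _ _ _ _ _ => trivial,
    fun a u hu => ?_, fun a u hu => ?_⟩⟩
  · exact (((str_dC π hr s _ _).scomp u (str_lin _ _ u)).add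
      ((str_dG v _ _ s u).const_smul (μ a.1))).hasDerivWithinAt
  · have h1 := str_nc hr hV D.run hs (str_in D (hj a.2) hu) (str_in D (hj a.2) hu) (hΔ a.2)
      one_pos le_rfl (g := μ a.1 • strH v (Θ a.2) (Θ (a.2 + 1)) s u) (g' := 0)
      (by simp [str_Hx]) rfl
      (((str_case D (hj a.2) v (μ a.1) s hu).2.imp (fun h => ⟨h.1, rfl⟩) Or.inl))
    rwa [zero_smul, neg_zero] at h1
  · simp only [strB, strH]
    fun_prop
  · obtain ⟨a1, a2, a3⟩ := str_next π D v a.2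
    simp only [sp_apply]
    rw [str_mix π hr D s (hj _) tb1_one, str_mix π hr D s (hj _) tb1_zero, str_G0, str_G1, one_mul,
      add_sub_cancel, zero_mul, add_zero, mixc, mixc, a1, a2, a3]
  · have b1 := str_in D (hj a.2) tb1_one
    have b2 := str_in D (hj (rot n a.2)) tb1_zero
    have b3 := (str_case D (hj a.2) v (μ a.1) s tb1_one).2
    have b4 := (str_case D (hj (rot n a.2)) v (μ a.1) s tb1_zero).2
    simp only [sp_apply]
    simp only [one_mul, add_sub_cancel, zero_mul, add_zero] at b1 b2 b3 b4 ⊢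
    rcases str_rot a.2 with h1 | ⟨h1, h2⟩
    · have h3 : T (a.2 + 1) = T (rot n a.2) := by rw [h1]
      have h4 := hΔ a.2
      rw [h3] at b1 b3 h4 ⊢
      refine str_nc hr hV D.run hs b1 b2 h4 (hΔ _) hr0.le (by simp [str_Hx]) (by simp [str_Hx]) ?_
      tauto
    · have h3 : T (a.2 + 1) = T (rot n a.2) + l.length := by rw [h1, h2, D.per]
      have h4 := hΔ a.2
      have h5 := str_Bper π l s (T (rot n a.2)) (E a.2 - l.length)
      rw [sub_add_cancel] at h5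
      rw [h3] at b1 b3 h4 ⊢
      rw [h5]
      refine str_nc hr hV D.run hs (by push_cast; constructor <;> linarith [b1.1, b1.2]) b2 h4
        (hΔ _) hr0.le (by simp [str_Hx]) (by simp [str_Hx]) ?_
      tauto
  · have hw : ∀ (a : κ × Fin (n + 1)) (u : ℝ), u ∈ Icc (0 : ℝ) 1 →
        ‖μ a.1 • strG v (Θ a.2) (Θ (a.2 + 1)) s u‖ ≤ δ := fun a u hu => by
      rw [norm_smul, Real.norm_of_nonneg (hm _).1]
      exact (mul_le_mul (hm _).2 (str_norm v _ _ hs hu) (norm_nonneg _) (by positivity)).trans_eq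
        (div_mul_cancel₀ _ hC.ne')
    have hb : ∀ (j : Fin (n + 1)) (u : ℝ), u ∈ Ico (0 : ℝ) 1 →
        T j ≤ T j + u * (T (j + 1) - T j) ∧ T j + u * (T (j + 1) - T j) < T (j + 1) :=
      fun j u hu => ⟨by nlinarith [hΔ j, hu.1], by nlinarith [hΔ j, hu.2]⟩
    have hu1 := Ico_subset_Icc_self hu
    have hu2 := Ico_subset_Icc_self hu'
    have b1 := hb a.2 u hu
    have b2 := hb b.2 u' hu'
    have hh' := hh
    simp only [str_mix π hr D s (hj _) hu1, str_mix π hr D s (hj _) hu2] at hh'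
    have e1 := hI s hs _ _ _ _ (by simp [str_Gx]) (by simp [str_Gx]) (hw a u hu1) (hw b u' hu2)
      ((str_case D (hj a.2) v (μ a.1) s hu1).2.imp_left And.right)
      ((str_case D (hj b.2) v (μ b.1) s hu2).2.imp_left And.right) (by
        have m1 := str_mono D (Nat.zero_le a.2) (by linarith [hj a.2])
        have m2 := str_mono D (Nat.zero_le b.2) (by linarith [hj b.2])
        have m3 := str_mono D (Nat.succ_le_succ (hj a.2)) le_rfl
        have m4 := str_mono D (Nat.succ_le_succ (hj b.2)) le_rfl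
        rw [D.per] at m3 m4
        rw [abs_lt]
        constructor <;> linarith [b1.1, b1.2, b2.1, b2.2]) hh'
    obtain ⟨i, j⟩ := a
    obtain ⟨i', j'⟩ := b
    obtain rfl : j = j' := by
      by_contra hne
      rcases lt_or_gt_of_ne (Fin.val_ne_of_ne hne) with h1 | h1
      · linarith [str_mono D (Nat.succ_le_of_lt h1) (by linarith [hj j']), b1.2, b2.1]
      · linarith [str_mono D (Nat.succ_le_of_lt h1) (by linarith [hj j]), b1.1, b2.2]
    obtain rfl : u = u' := mul_right_cancel₀ (hΔ j).ne' (add_left_cancel e1)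
    have e2 := smul_left_injective ℝ
      (str_ne hv (str_case D (hj j) v 0 s hu1).1 hs hu1) (add_left_cancel hh)
    exact ⟨Prod.ext (hμ e2) rfl, rfl⟩
  · simp only [strC, strG, fr]
    fun_prop
  · simp only [strB, strH]
    fun_prop
  · rw [ht κ μ a u hu]
    simp [strC, strG]
  · obtain ⟨-, a2, a3⟩ := str_next π D v a.2
    have p0 := str_plc hr D (hj a.2) tb1_zero
    have p1 := str_plc hr D (hj a.2) tb1_one
    rw [zero_mul, add_zero] at p0
    rw [one_mul, add_sub_cancel] at p1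
    simp only [cab, lv, a2, a3, p0, p1, strC, strG, AffineMap.lineMap_apply, vsub_eq_sub,
      vadd_eq_add]
    module

end Cab

end Pool.Agent.Lib.MP_4d7d0a_gt
end

-- part Pool.Agent.Lib.MP_4d7d0a_gt.CableTube
section

/-! Moving parallel curves inside a tube. -/

set_option autoImplicit false

open Set Filter Topology

namespace Pool.Agent.Lib.MP_4d7d0a_gt

namespace Cab

/-- a point moving linearly in cylindrical coordinates -/
noncomputable def tubeP (s₀ s₁ θ₀ θ₁ m u : ℝ) : P3 :=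
  (s₀ + u * (s₁ - s₀), pol m (θ₀ + u * (θ₁ - θ₀)))

/-- its velocity -/
noncomputable def tubeD (s₀ s₁ θ₀ θ₁ m u : ℝ) : P3 :=
  (s₁ - s₀, (θ₁ - θ₀) • ((-(m * Real.sin (θ₀ + u * (θ₁ - θ₀))),
    m * Real.cos (θ₀ + u * (θ₁ - θ₀))) : P2))

theorem tube_der (s₀ s₁ θ₀ θ₁ m u : ℝ) :
    HasDerivAt (tubeP s₀ s₁ θ₀ θ₁ m) (tubeD s₀ s₁ θ₀ θ₁ m u) u := by
  have h1 : ∀ a b : ℝ, HasDerivAt (fun u : ℝ => a + u * b) b u := fun a b => by
    simpa using ((hasDerivAt_id u).mul_const b).const_add a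
  exact (h1 _ _).prodMk ((hasDerivAt_pol m _).scomp u (h1 θ₀ (θ₁ - θ₀)))

theorem tube_mem {r m : ℝ} (hm : 0 ≤ m ∧ m < r) (s a : ℝ) : ((s, pol m a) : P3) ∈ tube r := by
  show (pol m a).1 ^ 2 + (pol m a).2 ^ 2 < r ^ 2
  rw [pol_sq]
  nlinarith [hm.1, hm.2]

theorem tube_pol (m a : ℝ) : pol m (a + 2 * Real.pi) = pol m a := by
  simp [pol]

theorem tube_fderiv {nu : P3 → P3} {r : ℝ} (h : TubeI nu r) (s : ℝ) (w : P2) :
    fderiv ℝ nu (s + 1, w) = fderiv ℝ nu (s, w) := by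
  have h1 : nu = fun p => nu (p + (1, 0)) := funext fun p => by
    rw [← h.map.1 p]
    congr 1
    ext <;> simp
  conv_rhs => rw [h1, fderiv_comp_add_right]
  congr 1
  ext <;> simp

theorem tube_emb {nu : P3 → P3} {r : ℝ} (h : TubeI nu r) {ι : Type} (σ : Equiv.Perm ι)
    {s₀ s₁ θ₀ θ₁ m : ι → ℝ} (hlt : ∀ a, s₀ a < s₁ a) (hm : ∀ a, 0 ≤ m a ∧ m a < r)
    (hcl : ∀ a, m (σ a) = m a ∧ ((s₁ a = s₀ (σ a) ∧ θ₁ a = θ₀ (σ a)) ∨
      (s₁ a = s₀ (σ a) + 1 ∧ θ₁ a = θ₀ (σ a) + 2 * Real.pi)))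
    (hinj : ∀ a b, ∀ u ∈ Ico (0 : ℝ) 1, ∀ u' ∈ Ico (0 : ℝ) 1, ∀ k : ℤ,
      pol (m a) (θ₀ a + u * (θ₁ a - θ₀ a)) = pol (m b) (θ₀ b + u' * (θ₁ b - θ₀ b)) →
      s₀ a + u * (s₁ a - s₀ a) = s₀ b + u' * (s₁ b - s₀ b) + k → a = b ∧ u = u') :
    EmbE σ (fun a u => nu (tubeP (s₀ a) (s₁ a) (θ₀ a) (θ₁ a) (m a) u))
      fun a u => fderiv ℝ nu (tubeP (s₀ a) (s₁ a) (θ₀ a) (θ₁ a) (m a) u)
        (tubeD (s₀ a) (s₁ a) (θ₀ a) (θ₁ a) (m a) u) := by
  have hP : ∀ a u, tubeP (s₀ a) (s₁ a) (θ₀ a) (θ₁ a) (m a) u ∈ tube r := fun a u =>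
    tube_mem (hm a) _ _
  have hend : ∀ a, tubeP (s₀ a) (s₁ a) (θ₀ a) (θ₁ a) (m a) 1 =
      (s₀ (σ a), pol (m (σ a)) (θ₀ (σ a))) ∨ tubeP (s₀ a) (s₁ a) (θ₀ a) (θ₁ a) (m a) 1 =
      (s₀ (σ a) + 1, pol (m (σ a)) (θ₀ (σ a))) := fun a => by
    obtain ⟨h1, h2 | h2⟩ := hcl a
    · left
      simp only [tubeP, one_mul, add_sub_cancel, h1, h2.1, h2.2]
    · right
      simp only [tubeP, one_mul, add_sub_cancel, h1, h2.1, h2.2, tube_pol]
  have hst : ∀ a, tubeP (s₀ a) (s₁ a) (θ₀ a) (θ₁ a) (m a) 0 = (s₀ a, pol (m a) (θ₀ a)) :=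
    fun a => by simp only [tubeP, zero_mul, add_zero]
  refine ⟨fun a u _ => ⟨?_, fun h0 => ?_⟩, fun a u _ => ?_, fun a => ?_, fun a t ht h0 => ?_,
    fun a b u hu u' hu' e => ?_⟩
  · exact (((h.sm _ (hP a u)).differentiableAt one_ne_zero).hasFDerivAt.comp_hasDerivAt u
      (tube_der _ _ _ _ _ u)).hasDerivWithinAt
  · have h1 := congrArg Prod.fst (h.imm _ (hP a u) (h0.trans (map_zero _).symm))
    exact (sub_pos.2 (hlt a)).ne' h1
  · refine ContinuousAt.continuousWithinAt (ContinuousAt.clm_apply ?_ ?_)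
    · exact ((h.sm _ (hP a u)).continuousAt_fderiv one_ne_zero).comp
        (tube_der _ _ _ _ _ u).continuousAt
    · unfold tubeD
      fun_prop
  · beta_reduce
    rw [hst]
    rcases hend a with e | e
    · rw [e]
    · rw [e]
      exact h.map.1 (s₀ (σ a), pol (m (σ a)) (θ₀ (σ a)))
  · have e : fderiv ℝ nu (tubeP (s₀ a) (s₁ a) (θ₀ a) (θ₁ a) (m a) 1) = fderiv ℝ nu
        (tubeP (s₀ (σ a)) (s₁ (σ a)) (θ₀ (σ a)) (θ₁ (σ a)) (m (σ a)) 0) := by
      rw [hst]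
      rcases hend a with e | e
      · rw [e]
      · rw [e, tube_fderiv h]
    beta_reduce at h0
    rw [e, ← map_smul, ← map_neg] at h0
    have h1 : s₁ a - s₀ a = -(t * (s₁ (σ a) - s₀ (σ a))) :=
      congrArg Prod.fst (h.imm _ (hP (σ a) 0) h0)
    nlinarith [hlt a, mul_pos ht (sub_pos.2 (hlt (σ a)))]
  · obtain ⟨e1, k, e2⟩ := h.map.2 _ (hP a u) _ (hP b u') e
    exact hinj a b u hu u' hu' k e1 e2

theorem tube_rad {m m' a a' : ℝ} (hm : 0 ≤ m) (hm' : 0 ≤ m') (e : pol m a = pol m' a') :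
    m = m' := by
  have h1 := pol_sq m a
  rw [e, pol_sq] at h1
  exact (pow_left_inj₀ hm hm' two_ne_zero).1 h1.symm

theorem tube_dist {κ : Type} {x ρ : κ → ℝ} (hρ : ∀ i, 0 ≤ ρ i) (h0 : Dist x ρ) {i j : κ}
    {t t' : ℝ} {k : ℤ} (e : pol (ρ i) (2 * Real.pi * t) = pol (ρ j) (2 * Real.pi * t'))
    (e' : x i + t = x j + t' + k) : i = j := by
  by_contra hij
  have h1 := tube_rad (hρ i) (hρ j) e
  rcases h0 i j hij with h2 | h2
  · exact h2 h1
  · have h3 : 0 < ρ i := (hρ i).lt_of_ne' h2.1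
    obtain ⟨-, k', hk'⟩ := pol_inj h3 (h1 ▸ h3) e
    have h4 : t = t' + k' := mul_left_cancel₀ Real.two_pi_pos.ne' (by linarith)
    exact h2.2 (k - k') (by push_cast; linarith)

theorem tube_int {s s' b : ℝ} {k : ℤ} (hs : s ∈ Ico b (b + 1)) (hs' : s' ∈ Ico b (b + 1))
    (e : s = s' + k) : s = s' := by
  have h1 : (k : ℝ) < 1 := by linarith [hs.2, hs'.1]
  have h2 : (-1 : ℝ) < k := by linarith [hs.1, hs'.2]
  have h3 : k < 1 := by exact_mod_cast h1
  have h4 : -1 < k := by exact_mod_cast h2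
  have h5 : k = 0 := by omega
  simpa [h5] using e

theorem tube_seq {n : ℕ} {a : ℕ → ℝ} (hlt : ∀ j ≤ n, a j < a (j + 1)) (hn : a (n + 1) = a 0 + 1)
    {j j' : ℕ} (hj : j ≤ n) (hj' : j' ≤ n) {u u' : ℝ} (hu : u ∈ Ico (0 : ℝ) 1)
    (hu' : u' ∈ Ico (0 : ℝ) 1) {k : ℤ}
    (e : a j + u * (a (j + 1) - a j) = a j' + u' * (a (j' + 1) - a j') + k) : j = j' ∧ u = u' := by
  have mono : ∀ p q, p ≤ q → q ≤ n + 1 → a p ≤ a q := fun p q hpq => by
    induction q, hpq using Nat.le_induction with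
    | base => exact fun _ => le_rfl
    | succ q _ ih => exact fun h => (ih (by omega)).trans (hlt q (by omega)).le
  have mem : ∀ j ≤ n, ∀ u ∈ Ico (0 : ℝ) 1,
      a j + u * (a (j + 1) - a j) ∈ Ico (a j) (a (j + 1)) := fun j hj u hu =>
    ⟨by nlinarith [hlt j hj, hu.1], by nlinarith [hlt j hj, hu.2]⟩
  have mem' : ∀ j ≤ n, ∀ u ∈ Ico (0 : ℝ) 1,
      a j + u * (a (j + 1) - a j) ∈ Ico (a 0) (a 0 + 1) := fun j hj u hu =>
    ⟨(mono 0 j (Nat.zero_le j) (by omega)).trans (mem j hj u hu).1,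
      hn ▸ (mem j hj u hu).2.trans_le (mono _ _ (by omega) le_rfl)⟩
  have e1 := tube_int (mem' j hj u hu) (mem' j' hj' u' hu') e
  have e2 : j = j' := by
    rcases lt_trichotomy j j' with h | h | h
    · linarith [(mem j hj u hu).2, (mem j' hj' u' hu').1, mono (j + 1) j' h (by omega)]
    · exact h
    · linarith [(mem j hj u hu).1, (mem j' hj' u' hu').2, mono (j' + 1) j h (by omega)]
  subst e2
  exact ⟨rfl, mul_right_cancel₀ (sub_pos.2 (hlt j hj)).ne' (by linarith)⟩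

theorem tubeI_can {K : ℝ → P3} (h : IsLeg3 K) : ∃ r : ℝ, 0 < r ∧ TubeI (can K) r := by
  obtain ⟨r, h1, h2, h3⟩ := can_tube h
  exact ⟨r, h1, h2, fun p hp => (h3 p hp).1.of_le (by exact_mod_cast le_top), fun p hp =>
    fderiv_inj_of_contact (((isOpen_tube r).eventually_mem hp).mono h3)⟩

theorem longi_emb {nu : P3 → P3} {r : ℝ} (h : TubeI nu r) {κ : Type} {x ρ : κ → ℝ}
    (hρ : ∀ i, 0 ≤ ρ i ∧ ρ i < r) (h0 : Dist x ρ) :
    ∃ d, EmbE (1 : Equiv.Perm κ) (fun i => longi nu (x i) (ρ i)) d := by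
  refine ⟨_, (tube_emb h 1 (s₀ := x) (s₁ := fun i => x i + 1) (θ₀ := fun _ => 0)
    (θ₁ := fun _ => 2 * Real.pi) (m := ρ) (fun a => lt_add_one _) hρ
    (fun a => ⟨rfl, Or.inr ⟨rfl, (zero_add _).symm⟩⟩) fun a b u hu u' hu' k e e' => ?_).congr
      fun v u _ => ?_⟩
  · simp only [zero_add, sub_zero, add_sub_cancel_left, mul_one, mul_comm _ (2 * Real.pi)] at e e'
    obtain rfl := tube_dist (fun i => (hρ i).1) h0 e e'
    exact ⟨rfl, tube_int (b := 0) (k := k) (by simpa using hu) (by simpa using hu') (by linarith)⟩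
  · simp only [tubeP, zero_add, sub_zero, add_sub_cancel_left, mul_one, mul_comm _ (2 * Real.pi)]
    rfl

theorem tube_fam {nu : P3 → P3} {r : ℝ} (h : TubeI nu r) {κ : Type} (n : ℕ) {x ρ μ : κ → ℝ}
    {S Θ : ℕ → ℝ} (hS : ∀ j ≤ n, S j < S (j + 1)) (hSn : S (n + 1) = S 0 + 1)
    (hΘ : Θ (n + 1) = Θ 0 + 2 * Real.pi) (hρ : ∀ i, 0 ≤ ρ i ∧ ρ i < r)
    (hμ : ∀ i, 0 ≤ μ i ∧ μ i < r) (h0 : Dist x ρ)
    (hl : ∀ i j, i ≠ j → ∀ l ∈ Ioc (0 : ℝ) 1,
      (1 - l) * ρ i + l * μ i ≠ (1 - l) * ρ j + l * μ j) :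
    FamE univ (sp fun _ : κ => rot n) (usub n fun i => longi nu (x i) (ρ i))
      (tarc n nu S Θ μ) := by
  have hn : (0 : ℝ) < n + 1 := by positivity
  have hd := hl
  let A : ℝ → κ → ℕ → ℝ := fun l i j => (1 - l) * (x i + j / (n + 1)) + l * S j
  let B : ℝ → ℕ → ℝ := fun l j => (1 - l) * (2 * Real.pi * (j / (n + 1))) + l * Θ j
  let m : ℝ → κ → ℝ := fun l i => (1 - l) * ρ i + l * μ i
  have hA : ∀ l ∈ Icc (0 : ℝ) 1, ∀ i, ∀ j ≤ n, A l i j < A l i (j + 1) := fun l hl i j hj => by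
    have h1 : (j : ℝ) / (n + 1) < ((j + 1 : ℕ) : ℝ) / (n + 1) := by
      push_cast
      gcongr
      exact lt_add_one _
    have h2 := hS j hj
    rcases hl.1.eq_or_lt with rfl | h3
    · simpa [A] using h1
    · simp only [A]
      nlinarith [mul_le_mul_of_nonneg_left h1.le (sub_nonneg.2 hl.2), mul_lt_mul_of_pos_left h2 h3]
  have hAn : ∀ l i, A l i (n + 1) = A l i 0 + 1 := fun l i => by
    simp only [A, hSn]
    push_cast
    rw [div_self hn.ne']
    ring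
  have hBn : ∀ l, B l (n + 1) = B l 0 + 2 * Real.pi := fun l => by
    simp only [B, hΘ]
    push_cast
    rw [div_self hn.ne']
    ring
  have hm : ∀ l ∈ Icc (0 : ℝ) 1, ∀ i, 0 ≤ m l i ∧ m l i < r := fun l hl i => by
    refine ⟨add_nonneg (mul_nonneg (sub_nonneg.2 hl.2) (hρ i).1) (mul_nonneg hl.1 (hμ i).1), ?_⟩
    simp only [m]
    rcases hl.1.eq_or_lt with rfl | h3
    · simpa using (hρ i).2
    · nlinarith [mul_le_mul_of_nonneg_left (hρ i).2.le (sub_nonneg.2 hl.2),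
        mul_lt_mul_of_pos_left (hμ i).2 h3]
  have eA : ∀ i (j : ℕ) (u : ℝ), A 0 i j + u * (A 0 i (j + 1) - A 0 i j) =
      x i + (j + u) / (n + 1) := fun i j u => by
    simp only [A]
    push_cast
    ring
  have eB : ∀ (j : ℕ) (u : ℝ), B 0 j + u * (B 0 (j + 1) - B 0 j) =
      2 * Real.pi * ((j + u) / (n + 1)) := fun j u => by
    simp only [B]
    push_cast
    ring
  have em : ∀ i, m 0 i = ρ i := fun i => by simp [m]
  have cP : ∀ a : κ × Fin (n + 1), Continuous fun z : ℝ × ℝ => tubeP (A z.1 a.1 a.2)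
      (A z.1 a.1 (a.2 + 1)) (B z.1 a.2) (B z.1 (a.2 + 1)) (m z.1 a.1) z.2 := fun a => by
    simp only [tubeP, pol, A, B, m]
    fun_prop
  have cD : ∀ a : κ × Fin (n + 1), Continuous fun z : ℝ × ℝ => tubeD (A z.1 a.1 a.2)
      (A z.1 a.1 (a.2 + 1)) (B z.1 a.2) (B z.1 (a.2 + 1)) (m z.1 a.1) z.2 := fun a => by
    simp only [tubeD, A, B, m]
    fun_prop
  refine ⟨_, _, fun l hl => tube_emb h (ι := κ × Fin (n + 1)) _ (s₀ := fun a => A l a.1 a.2)
    (s₁ := fun a => A l a.1 (a.2 + 1)) (θ₀ := fun a => B l a.2) (θ₁ := fun a => B l (a.2 + 1))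
    (m := fun a => m l a.1) (fun a => hA l hl a.1 a.2 (Nat.lt_succ_iff.1 a.2.2))
    (fun a => hm l hl a.1) (fun a => ⟨rfl, ?_⟩) fun a b u hu u' hu' k e e' => ?_,
    fun a z hz => ?_, fun a z hz => ?_, fun _ _ _ _ _ => trivial, fun a u _ => ?_,
    fun a u _ => ?_⟩
  · have h1 : ((sp (fun _ : κ => rot n) a).2 : ℕ) =
        if a.2 = Fin.last n then 0 else (a.2 : ℕ) + 1 := by
      rw [sp_apply, finRotate_apply, Fin.val_add_one]
    have h2 : (sp (fun _ : κ => rot n) a).1 = a.1 := rfl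
    rw [h1, h2]
    split_ifs with h3
    · right
      rw [h3, Fin.val_last]
      exact ⟨hAn l a.1, hBn l⟩
    · exact Or.inl ⟨rfl, rfl⟩
  · have h1 : a.1 = b.1 := by
      rcases hl.1.eq_or_lt with rfl | h3
      · rw [eB, eB, em, em] at e
        rw [eA, eA] at e'
        exact tube_dist (fun i => (hρ i).1) h0 e e'
      · by_contra h4
        exact hd _ _ h4 l ⟨h3, hl.2⟩
          (tube_rad (hm l hl a.1).1 (hm l hl b.1).1 e)
    rw [← h1] at e'
    obtain ⟨h2, h3⟩ := tube_seq (hA l hl a.1) (hAn l a.1) (Nat.lt_succ_iff.1 a.2.2)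
      (Nat.lt_succ_iff.1 b.2.2) hu hu' e'
    exact ⟨Prod.ext h1 (Fin.ext h2), h3⟩
  · exact ((h.sm _ (tube_mem (hm z.1 hz.1 a.1) _ _)).continuousAt.comp
      (f := fun z : ℝ × ℝ => tubeP (A z.1 a.1 a.2) (A z.1 a.1 (a.2 + 1)) (B z.1 a.2)
        (B z.1 (a.2 + 1)) (m z.1 a.1) z.2) (cP a).continuousAt).continuousWithinAt
  · exact ((((h.sm _ (tube_mem (hm z.1 hz.1 a.1) _ _)).continuousAt_fderiv one_ne_zero).comp
      (f := fun z : ℝ × ℝ => tubeP (A z.1 a.1 a.2) (A z.1 a.1 (a.2 + 1)) (B z.1 a.2)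
        (B z.1 (a.2 + 1)) (m z.1 a.1) z.2) (cP a).continuousAt).clm_apply
          (cD a).continuousAt).continuousWithinAt
  · simp only [tubeP, eA, eB, em]
    rfl
  · simp [tubeP, tarc, A, B, m]

end Cab

end Pool.Agent.Lib.MP_4d7d0a_gt
end
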