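import Pool.Agent.Lib.MP_4d7d0a_gt.CableFin
import Pool.Agent.Lib.MP_4d7d0a_gt.CableLk0
import Pool.Agent.Lib.MP_4d7d0a_gt.CableTube

import Pool.Agent.Lib.MP_4d7d0a_gt.DST2

/-! The parallel cables of `L` satisfy the slice bound and the framing is zero. -/

set_option autoImplicit false

open Set Filter Topology

namespace Pool.Agent.Lib.MP_4d7d0a_gt

namespace Cab

def tN (j : ℕ) : ℕ := tL.getD j 0

noncomputable def tT (j : ℕ) : ℝ := (tN j : ℝ) / 16

def tE (j : ℕ) : ℤ := (tN j / 16 : ℕ)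

def pH (j : ℕ) : ℕ := min (j - 1) 4

noncomputable def tA (j : ℕ) : ℝ := Real.pi / 2 + pH j * (Real.pi / 2)

theorem len_WL : WL.length = 86 := by decide +kernel

theorem str_WL (i : ℤ) :
    (cyc WL (i + 1)).1 = (cyc WL i).1 ∨ (cyc WL (i + 1)).2.1 = (cyc WL i).2.1 := by
  have h : ∀ k : ℕ, k < WL.length → (realVtx WL (k + 1)).1 = (realVtx WL k).1 ∨
      (realVtx WL (k + 1)).2.1 = (realVtx WL k).2.1 := by decide +kernel
  have h0 : (0 : ℤ) < WL.length := by rw [len_WL]; norm_num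
  have h1 := Int.emod_nonneg i h0.ne'
  have h2 := h (i % WL.length).toNat (by have := Int.emod_lt_of_pos i h0; omega)
  rw [Int.toNat_of_nonneg h1] at h2
  simp only [realVtx, Int.emod_add_emod, Int.emod_emod_of_dvd _ dvd_rfl] at h2
  simp only [cyc, toP3]
  exact_mod_cast h2

theorem cyc_22 : cyc WL 22 = (-448, -16384, -4177920) := by
  have h : realVtx WL 22 = (-448, -16384, -4177920) := by decide +kernel
  change toP3 (realVtx WL 22) = _
  rw [h, toP3]
  norm_num

theorem cyc_23 : cyc WL (22 + 1) = (128, -16384, -13615104) := by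
  have h : realVtx WL (22 + 1) = (128, -16384, -13615104) := by decide +kernel
  change toP3 (realVtx WL (22 + 1)) = _
  rw [h, toP3]
  norm_num

theorem tA_cs (j : ℕ) : (pH j = 0 ∨ pH j = 4 → Real.cos (tA j) = 0 ∧ Real.sin (tA j) = 1) ∧
    (pH j = 1 → Real.cos (tA j) = -1 ∧ Real.sin (tA j) = 0) ∧
    (pH j = 2 → Real.cos (tA j) = 0 ∧ Real.sin (tA j) = -1) ∧
    (pH j = 3 → Real.cos (tA j) = 1 ∧ Real.sin (tA j) = 0) := by
  refine ⟨fun h => ?_, fun h => ?_, fun h => ?_, fun h => ?_⟩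
  · rcases h with h | h
    · simp [tA, h]
    · have e : tA j = Real.pi / 2 + 2 * Real.pi := by rw [tA, h]; push_cast; ring
      rw [e, Real.cos_add_two_pi, Real.sin_add_two_pi]
      simp
  · have e : tA j = Real.pi := by rw [tA, h]; push_cast; ring
    rw [e]
    simp
  · have e : tA j = Real.pi / 2 + Real.pi := by rw [tA, h]; push_cast; ring
    rw [e, Real.cos_add_pi, Real.sin_add_pi]
    simp
  · have e : tA j = 2 * Real.pi := by rw [tA, h]; push_cast; ring
    rw [e]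
    simp

theorem tT_lo (j : ℕ) : (tE j : ℝ) ≤ tT j := by
  have h : (((tN j / 16 : ℕ) : ℝ)) ≤ (tN j : ℝ) / (16 : ℕ) := Nat.cast_div_le
  simpa only [tE, tT, Int.cast_natCast, Nat.cast_ofNat] using h

theorem strD : StrD WL 94 tT tA tE 22 := by
  have h : ∀ j : ℕ, j < 95 → tN j < tN (j + 1) ∧ tN (j + 1) ≤ 16 * (tN j / 16) + 16 := by
    decide +kernel
  have h' : tN (94 + 1) = 1731 ∧ tN 0 = 355 ∧ ∀ j : ℕ, j < 5 → 1 ≤ j →
      356 ≤ tN j ∧ tN (j + 1) ≤ 364 := by decide +kernel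
  have pp := Real.pi_pos
  refine ⟨fun j _ => tT_lo j, fun j hj => ?_, fun j hj => ?_, ?_, ?_, str_WL, ?_, ?_,
    fun j hj => ?_⟩
  · have : (tN j : ℝ) < tN (j + 1) := by exact_mod_cast (h j (by omega)).1
    simp only [tT]
    linarith
  · have : (tN (j + 1) : ℝ) ≤ 16 * (tN j / 16 : ℕ) + 16 := by exact_mod_cast (h j (by omega)).2
    simp only [tT, tE, Int.cast_natCast]
    linarith
  · simp only [tT, h'.1, h'.2.1, len_WL]
    norm_num
  · simp only [tA, show pH (94 + 1) = 4 from rfl, show pH 0 = 0 from rfl]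
    push_cast
    ring
  · rw [cyc_22, cyc_23]
  · rw [cyc_22, cyc_23]
    norm_num
  · by_cases c : 1 ≤ j ∧ j < 5
    · right
      have e : pH (j + 1) = pH j + 1 := by unfold pH; omega
      have a1 : (356 : ℝ) ≤ tN j := by exact_mod_cast (h'.2.2 j c.2 c.1).1
      have a2 : (tN (j + 1) : ℝ) ≤ 364 := by exact_mod_cast (h'.2.2 j c.2 c.1).2
      refine ⟨?_, ?_, ?_⟩
      · have : tA (j + 1) - tA j = Real.pi / 2 := by
          simp only [tA, e]
          push_cast
          ring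
        rw [this, abs_of_pos (by linarith)]
        linarith
      · simp only [tT]
        push_cast
        linarith
      · simp only [tT]
        push_cast
        linarith
    · left
      have e : pH (j + 1) = pH j := by unfold pH; omega
      exact ⟨by simp only [tA, e], (tA_cs j).1 (by unfold pH; omega)⟩

/-- the change to grid coordinates -/
noncomputable def phi : P3 →ₗ[ℝ] P3 where
  toFun p := (64 * (p.2.2 + 16384 * p.1), 16384 * p.2.1, 64 * (p.2.2 - 16384 * p.1))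
  map_add' p q := by
    simp only [Prod.fst_add, Prod.snd_add, Prod.mk_add_mk, Prod.mk.injEq]
    refine ⟨?_, ?_, ?_⟩ <;> ring
  map_smul' r p := by
    simp only [Prod.smul_fst, Prod.smul_snd, smul_eq_mul, RingHom.id_apply, Prod.smul_mk,
      Prod.mk.injEq]
    refine ⟨?_, ?_, ?_⟩ <;> ring

theorem phi_apply (p : P3) :
    phi p = (64 * (p.2.2 + 16384 * p.1), 16384 * p.2.1, 64 * (p.2.2 - 16384 * p.1)) := rfl

theorem phi_path (l : ℝ) (hl : l ∈ Icc (0 : ℝ) 1) (p : P3) (h : (1 - l) • p + l • phi p = 0) :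
    p = 0 := by
  obtain ⟨x, y, z⟩ := p
  obtain ⟨l0, l1⟩ := hl
  simp only [phi_apply, Prod.smul_mk, smul_eq_mul, Prod.mk_add_mk, Prod.mk_eq_zero] at h ⊢
  obtain ⟨h1, h2, h3⟩ := h
  have hx : ((1 + 1048575 * l) * (1 + 63 * l) + 64 * l * (1048576 * l)) * x = 0 := by
    linear_combination (1 + 63 * l) * h1 - 64 * l * h3
  have x0 : x = 0 := (mul_eq_zero.1 hx).resolve_left (by positivity)
  have hy : (1 + 16383 * l) * y = 0 := by linear_combination h2
  have hz : (1 + 63 * l) * z = 0 := by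
    rw [x0] at h3
    linear_combination h3
  exact ⟨x0, (mul_eq_zero.1 hy).resolve_left (by positivity),
    (mul_eq_zero.1 hz).resolve_left (by positivity)⟩

theorem phi_Q (j : Fin 95) : phi (plc (cyc WL) (tT j)) = Qr 95 s0 j := by
  have h : ∀ j : Fin 95, 16 * (qz (qw s0 j)).1 =
      64 * (16 * (realVtx WL (tE j)).2.2 + (tN j % 16 : ℕ) * ((realVtx WL (tE j + 1)).2.2 -
        (realVtx WL (tE j)).2.2) + 16384 * (16 * (realVtx WL (tE j)).1 + (tN j % 16 : ℕ) *
          ((realVtx WL (tE j + 1)).1 - (realVtx WL (tE j)).1))) ∧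
      16 * (qz (qw s0 j)).2.1 = 16384 * (16 * (realVtx WL (tE j)).2.1 + (tN j % 16 : ℕ) *
        ((realVtx WL (tE j + 1)).2.1 - (realVtx WL (tE j)).2.1)) ∧
      16 * (qz (qw s0 j)).2.2 =
      64 * (16 * (realVtx WL (tE j)).2.2 + (tN j % 16 : ℕ) * ((realVtx WL (tE j + 1)).2.2 -
        (realVtx WL (tE j)).2.2) - 16384 * (16 * (realVtx WL (tE j)).1 + (tN j % 16 : ℕ) *
          ((realVtx WL (tE j + 1)).1 - (realVtx WL (tE j)).1))) := by decide +kernel
  have e : tT j - tE j = ((tN j % 16 : ℕ) : ℝ) / 16 := by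
    have : (tN j : ℝ) = 16 * (tN j / 16 : ℕ) + (tN j % 16 : ℕ) := by
      exact_mod_cast (Nat.div_add_mod (tN j) 16).symm
    simp only [tT, tE, Int.cast_natCast]
    linarith
  have hi : tT j ≤ tE j + 1 := ((strD.lt j (by omega)).le.trans (strD.hi j (by omega)))
  rw [plc_eq rel_WL (str_WL (tE j)) (tT_lo j) hi, e]
  obtain ⟨h1, h2, h3⟩ := h j
  have c1 : cyc WL (tE j) = toP3 (realVtx WL (tE j)) := rfl
  have c2 : cyc WL (tE j + 1) = toP3 (realVtx WL (tE j + 1)) := rfl
  rw [c1, c2, Qr]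
  generalize realVtx WL (tE j) = p at h1 h2 h3 ⊢
  generalize realVtx WL (tE j + 1) = p' at h1 h2 h3 ⊢
  generalize qz (qw s0 j) = q at h1 h2 h3 ⊢
  generalize tN j % 16 = a at h1 h2 h3 ⊢
  have g1 := congrArg (Int.cast : ℤ → ℝ) h1
  have g2 := congrArg (Int.cast : ℤ → ℝ) h2
  have g3 := congrArg (Int.cast : ℤ → ℝ) h3
  push_cast at g1 g2 g3
  simp only [phi_apply, AffineMap.lineMap_apply, toP3, vsub_eq_sub, vadd_eq_add, Prod.mk_sub_mk,
    Prod.smul_mk, Prod.mk_add_mk, smul_eq_mul, Prod.mk.injEq]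
  refine ⟨?_, ?_, ?_⟩ <;> linarith

theorem phi_V (j : Fin 95) : phi ((387 / 16 : ℝ) •
    fr (WL.length * ((cyc WL (22 + 1)).1 - (cyc WL 22).1)) (tA j)) = Vr 95 s0 j := by
  have h : ∀ j : Fin 95, (pH j = 0 ∨ pH j = 4) ∧ xz (xw s0 j) = (1548, 0, 1548) ∨
      pH j = 1 ∧ xz (xw s0 j) = (0, -8, 0) ∨ pH j = 2 ∧ xz (xw s0 j) = (-1548, 0, -1548) ∨
      pH j = 3 ∧ xz (xw s0 j) = (0, 8, 0) := by decide +kernel
  obtain ⟨a0, a1, a2, a3⟩ := tA_cs j
  rw [cyc_22, cyc_23, len_WL, Vr]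
  rcases h j with ⟨k, e⟩ | ⟨k, e⟩ | ⟨k, e⟩ | ⟨k, e⟩
  · simp only [e, fr, (a0 k).1, (a0 k).2, phi_apply, toP3, Prod.smul_mk, smul_eq_mul]
    norm_num
  · simp only [e, fr, (a1 k).1, (a1 k).2, phi_apply, toP3, Prod.smul_mk, smul_eq_mul]
    norm_num
  · simp only [e, fr, (a2 k).1, (a2 k).2, phi_apply, toP3, Prod.smul_mk, smul_eq_mul]
    norm_num
  · simp only [e, fr, (a3 k).1, (a3 k).2, phi_apply, toP3, Prod.smul_mk, smul_eq_mul]
    norm_num

/-- from the curves in the tube to the first certified polygon -/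
theorem to_s0 : Small fun π => ∃ ε : ℝ, 0 < ε ∧ ε ≤ 1 ∧
    ∀ (κ : Type) (x ρ μ : κ → ℝ), (∀ i, 0 ≤ ρ i ∧ ρ i < ε) → (∀ i, 0 ≤ μ i ∧ μ i < ε) → Dist x ρ →
      (∀ i j, i ≠ j → ∀ l ∈ Ioc (0 : ℝ) 1,
        (1 - l) * ρ i + l * μ i ≠ (1 - l) * ρ j + l * μ j) →
      (∃ d, EmbE (1 : Equiv.Perm κ) (fun i => longi (can (π.knot WL)) (x i) (ρ i)) d) ∧
      Lev (fun i => μ i / (387 / 16)) ∧
      FamE univ (sp fun _ : κ => rot 94) (usub 94 fun i => longi (can (π.knot WL)) (x i) (ρ i))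
        (cab (fun _ => rot 94) (Qr 95 s0) (Vr 95 s0) fun i => μ i / (387 / 16)) := by
  refine ((shift_sound shift_WL).and (str_fam shift_WL strD)).mono ?_
  rintro π ⟨⟨hK, -⟩, δ, hδ, hs⟩
  obtain ⟨r, hr, hT⟩ := tubeI_can hK
  refine ⟨min 1 (min δ r), by positivity, min_le_left _ _, fun κ x ρ μ hρ hμ h0 hl => ?_⟩
  have m1 : min 1 (min δ r) ≤ 1 := min_le_left _ _
  have m2 : min 1 (min δ r) ≤ δ := (min_le_right _ _).trans (min_le_left _ _)
  have m3 : min 1 (min δ r) ≤ r := (min_le_right _ _).trans (min_le_right _ _)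
  have hρ' : ∀ i, 0 ≤ ρ i ∧ ρ i < r := fun i => ⟨(hρ i).1, (hρ i).2.trans_le m3⟩
  have hμ' : ∀ i, 0 ≤ μ i ∧ μ i < r := fun i => ⟨(hμ i).1, (hμ i).2.trans_le m3⟩
  have inj : Function.Injective μ := fun i j e => by
    by_contra k
    exact hl i j k 1 ⟨one_pos, le_rfl⟩ (by rw [e]; ring)
  have lev : Lev fun i => μ i / (387 / 16) :=
    ⟨fun i j e => inj (by simpa using e), fun i =>
      ⟨by have := (hμ i).1; positivity, by have := (hμ i).2; linarith⟩⟩
  have n0 : (WL.length : ℝ) = 86 := by rw [len_WL]; norm_num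
  have f1 := tube_fam hT 94 (S := fun j => tT j / WL.length) (Θ := tA)
    (fun j hj => by have := strD.lt j hj; rw [n0]; linarith)
    (by have := strD.per; rw [n0] at this ⊢; linarith) strD.perΘ hρ' hμ' h0 hl
  have f2 := hs κ μ inj fun i => ⟨(hμ i).1, ((hμ i).2.trans_le m2).le⟩
  rw [← cab_smul _ _ _ μ (c := 387 / 16) (by norm_num)] at f2
  have e1 : (fun j : Fin 95 => phi (plc (cyc WL) (tT j))) = Qr 95 s0 := funext phi_Q
  have e2 : (fun j : Fin 95 => phi ((387 / 16 : ℝ) •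
      fr (WL.length * ((cyc WL (22 + 1)).1 - (cyc WL 22).1)) (tA j))) = Vr 95 s0 := funext phi_V
  have f3 := ribIso_lin (σ := rot 94) (Q := fun j : Fin 95 => plc (cyc WL) (tT j))
    (V := fun j : Fin 95 => (387 / 16 : ℝ) •
      fr (WL.length * ((cyc WL (22 + 1)).1 - (cyc WL 22).1)) (tA j)) phi phi_path
    (by rw [e1, e2]; exact st_0.emb_left) κ _ lev
  rw [e1, e2] at f3
  exact ⟨longi_emb hT hρ' h0, lev, (f1.trans f2).trans f3⟩

end Cab

open Cab in
theorem cable_holds : CableStmt := by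
  intro T
  refine to_s0.mono ?_
  rintro π ⟨ε, hε, hε1, h⟩
  refine ⟨?_, fun k x o _ hx hx1 => ?_⟩
  · filter_upwards [Ioo_mem_nhdsGT hε] with ρ hρ
    have b : ∀ i : Bool, 0 ≤ (if i then ρ else 0) ∧ (if i then ρ else 0) < ε := fun i => by
      cases i
      exacts [⟨le_rfl, hε⟩, ⟨hρ.1.le, hρ.2⟩]
    have ne : ∀ i j : Bool, i ≠ j → (if i then ρ else 0) ≠ (if j then ρ else 0) := fun i j e => by
      cases i <;> cases j
      exacts [absurd rfl e, hρ.1.ne, hρ.1.ne', absurd rfl e]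
    obtain ⟨-, lev, f⟩ := h Bool (fun _ => 0) (fun i => if i then ρ else 0)
      (fun i => if i then ρ else 0) b b (fun i j e => Or.inl (ne i j e))
      fun i j e l _ k => ne i j e (by linarith)
    have f2 := cab_level st_L.emb_left (τ := fun i : Bool => (if i then ρ else 0) / (387 / 16))
      (τ' := fun c : Bool => if c then 1 else 0) fun l hl => by
        have p : 0 < (1 - l) * (ρ / (387 / 16)) + l * 1 := by
          have := hρ.1
          rcases eq_or_lt_of_le hl.1 with e | e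
          · rw [← e]; positivity
          · have := mul_nonneg (sub_nonneg.2 hl.2) (by positivity : 0 ≤ ρ / (387 / 16))
            linarith
        have p' : (1 - l) * (ρ / (387 / 16)) + l * 1 ≤ 1 := by
          have := mul_le_mul_of_nonneg_left (by linarith [hρ.2] : ρ / (387 / 16) ≤ 1)
            (sub_nonneg.2 hl.2)
          linarith
        refine ⟨fun i j e => ?_, fun i => ?_⟩
        · cases i <;> cases j <;> simp at e p ⊢ <;> linarith
        · cases i
          · simp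
          · exact ⟨p.le, p'⟩
    have k := lk_fam T ((f.trans (iso_L _ _ lev)).trans f2)
    rw [lk_zero T st_L.emb_left, cat_usub, cat_usub] at k
    have e : longi (can (π.knot WL)) 0 0 = fun t => can (π.knot WL) (t, 0, 0) := by
      funext t
      simp [longi]
    simpa only [if_true, Bool.false_eq_true, if_false, e] using k
  · filter_upwards [Ioo_mem_nhdsGT hε] with ρ hρ hV
    obtain ⟨⟨d, hd⟩, lev, f⟩ := h (Fin k) x (fun _ => ρ) (fun i => ρ * (1 + x i) / 2)
      (fun _ => ⟨hρ.1.le, hρ.2⟩)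
      (fun i => ⟨by have := hρ.1; have := (hx1 i).1; positivity,
        by nlinarith [hρ.1, hρ.2, (hx1 i).2]⟩)
      (fun i j e => Or.inr ⟨hρ.1.ne', fun m hm => e (hx (by
        have a1 : (m : ℝ) < 1 := by linarith [(hx1 i).2, (hx1 j).1]
        have a2 : (-1 : ℝ) < m := by linarith [(hx1 i).1, (hx1 j).2]
        have a3 : m < 1 := by exact_mod_cast a1
        have a4 : -1 < m := by exact_mod_cast a2
        obtain rfl : m = 0 := by omega
        simpa using hm))⟩)
      (fun i j e l hl k => e (hx (by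
        have : l * ρ * (x i - x j) = 0 := by linarith
        rcases mul_eq_zero.1 this with a | a
        · exact absurd a (mul_pos hl.1 hρ.1).ne'
        · linarith)))
    have h1 := famE_reor o f
    rw [reor_cab] at h1
    exact not_V_0 T lev o (V_fam T h1 (V_start T 94 o hd hV))

end Pool.Agent.Lib.MP_4d7d0a_gt
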