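import Pool.Agent.Lib.MP_4d7d0a_gt.CableRun1
import Pool.Agent.Lib.MP_4d7d0a_gt.CableRun2
import Pool.Agent.Lib.MP_4d7d0a_gt.CableRun3
import Pool.Agent.Lib.MP_4d7d0a_gt.CableSnd
import Pool.Agent.Lib.MP_4d7d0a_gt.CableLk


/-! The certified isotopies, the band and the planar end. -/

set_option autoImplicit false

open Set

namespace Pool.Agent.Lib.MP_4d7d0a_gt

namespace Cab

theorem rot_val (v : Fin 95) : (rot 94 v).val = if v.val = 94 then 0 else v.val + 1 := by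
  rw [finRotate_apply, Fin.val_add_one]
  simp only [Fin.ext_iff, Fin.val_last]

/-- the successor after the band move -/
def rot' : Equiv.Perm (Fin 95) := rot 94 * Equiv.swap 94 49

theorem rot'_val (v : Fin 95) :
    (rot' v).val = if v.val = 49 then 0 else if v.val = 94 then 50 else v.val + 1 := by
  rw [rot', Equiv.Perm.mul_apply, rot_val, Equiv.swap_apply_def]
  revert v
  decide +kernel

theorem nx_rot (v : Fin 95) : nxt2 50 0 v = rot 94 v := by
  rw [rot_val]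
  revert v
  decide +kernel

theorem pv_rot (v w : Fin 95) (h : (w : ℕ) = prv2 50 0 v) : rot 94 w = v := by
  rw [Fin.ext_iff, rot_val, h]
  clear h
  revert v
  decide +kernel

theorem nx_rot' (v : Fin 95) : nxt2 0 50 v = rot' v := by
  rw [rot'_val]
  revert v
  decide +kernel

theorem pv_rot' (v w : Fin 95) (h : (w : ℕ) = prv2 0 50 v) : rot' w = v := by
  rw [Fin.ext_iff, rot'_val, h]
  clear h
  revert v
  decide +kernel

theorem st_0 : StepR 2048 (rot 94) (Qr 95 s0) (Vr 95 s0) (Qr 95 s0) (Vr 95 s0) :=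
  chk_sound nx_rot pv_rot (fun h => absurd h (by decide)) chk_s0

theorem iso_L : RibIso (rot 94) (Qr 95 s0) (Vr 95 s0) (Qr 95 sL) (Vr 95 sL) :=
  (run_sound nx_rot pv_rot st_0 run_1).2

theorem st_L : StepR 2048 (rot 94) (Qr 95 sL) (Vr 95 sL) (Qr 95 sL) (Vr 95 sL) :=
  (run_sound nx_rot pv_rot st_0 run_1).1

theorem iso_B : RibIso (rot 94) (Qr 95 s0) (Vr 95 s0) (Qr 95 sB) (Vr 95 sB) :=
  iso_L.trans (run_sound nx_rot pv_rot st_L run_2).2

theorem st_B : StepR 2048 (rot 94) (Qr 95 sB) (Vr 95 sB) (Qr 95 sB) (Vr 95 sB) :=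
  (run_sound nx_rot pv_rot st_L run_2).1

theorem st_C : StepR 2048 rot' (Qr 95 sB) (Vr 95 sB) (Qr 95 sC) (Vr 95 sC) :=
  chk_sound nx_rot' pv_rot' (fun h => absurd h (by decide)) chk_sB

theorem st_M : StepR 2048 rot' (Qr 95 sM) (Vr 95 sM) (Qr 95 sM) (Vr 95 sM) :=
  (run_sound nx_rot' pv_rot' st_C.right run_3).1

theorem iso_Z : RibIso rot' (Qr 95 sB) (Vr 95 sB) (Qr 95 sZ) (Vr 95 sZ) :=
  ((ribIso_of_emb st_C.emb).trans (run_sound nx_rot' pv_rot' st_C.right run_3).2).trans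
    (run_sound nx_rot' pv_rot' st_M run_4).2

theorem emb_Z : RibEmb rot' (Qr 95 sZ) (Vr 95 sZ) :=
  (run_sound nx_rot' pv_rot' st_M run_4).1.emb_left

theorem flat_Z (v : Fin 95) : (Qr 95 sZ v).2.1 = 0 ∧ (Vr 95 sZ v).2.1 = 0 := by
  have h : ∀ v : Fin 95, k2 4294967296 (qw sZ v) = 2147483648 ∧ k2 4096 (xw sZ v) = 2048 := by
    decide +kernel
  simp only [Qr, Vr, toP3, qz, xz, vz, (h v).1, (h v).2]
  norm_num

theorem not_V_Z (T : KTheory) {k : ℕ} {τ : Fin k → ℝ} (hτ : Lev τ) (o : Fin k → Bool) :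
    ¬ T.V (⟨sp fun i => op rot' (o i), cab (fun i => op rot' (o i)) (Qr 95 sZ) (Vr 95 sZ) τ⟩ :
      CPL (Fin k × Fin 95)) (1 - 2 * k) := by
  refine unlink_cab T emb_Z flat_Z (fun v => if (v : ℕ) < 50 then 0 else 1) ?_ (fun v => ?_) hτ o
  · intro b
    fin_cases b
    exacts [⟨0, by simp⟩, ⟨50, by decide⟩]
  · rw [rot'_val]
    revert v
    decide +kernel

theorem lv_norm {s : ℕ} {τ : ℝ} (hτ : τ ∈ Icc (0 : ℝ) 1) (v : Fin 95) :
    ‖τ • Vr 95 s v‖ ≤ 2048 := by
  rw [norm_smul, Real.norm_of_nonneg hτ.1]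
  have := xz_norm (xw s v)
  have h0 := norm_nonneg (Vr 95 s v)
  change ‖Vr 95 s v‖ ≤ 2048 at this
  nlinarith [hτ.1, hτ.2]

theorem fn_le_of {a b c p q : ℕ} (h : val a b c p ≤ val a b c q) :
    fn a b c (toP3 (qz p)) ≤ fn a b c (toP3 (qz q)) := by
  have h0 : (val a b c p : ℝ) ≤ val a b c q := by exact_mod_cast h
  rw [val_cast, val_cast] at h0
  linarith

/-- the four corners are below the vertex `g` -/
def farB (a c g : ℕ) : Bool :=
  an (an (gapB a 1048576 c (qw sB 94) (qw sB g)) (gapB a 1048576 c (qw sB 0) (qw sB g)))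
    (an (gapB a 1048576 c (qw sB 49) (qw sB g)) (gapB a 1048576 c (qw sB 50) (qw sB g)))

def far2 (a c g : ℕ) : Bool := an (farB a c g) (farB a c (nxt2 50 0 g))

/-- the corner `m` is extreme and `g` is beyond it -/
def extB (a c m g : ℕ) : Prop :=
  val a 1048576 c (qw sB 94) ≤ val a 1048576 c (qw sB m) ∧
    val a 1048576 c (qw sB 0) ≤ val a 1048576 c (qw sB m) ∧
    val a 1048576 c (qw sB 49) ≤ val a 1048576 c (qw sB m) ∧
    val a 1048576 c (qw sB 50) ≤ val a 1048576 c (qw sB m) ∧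
    val a 1048576 c (qw sB m) + mg a 1048576 c ≤ val a 1048576 c (qw sB g)

theorem r94 : rot 94 94 = 0 := Fin.ext (by rw [rot_val]; rfl)

theorem r49 : rot 94 49 = 50 := Fin.ext (by rw [rot_val]; rfl)

theorem vB (v : Fin 95) (h : v = 94 ∨ v = 0 ∨ v = 49 ∨ v = 50) : Vr 95 sB v = (0, 1800, 0) := by
  have k : ∀ v : Fin 95, v = 94 ∨ v = 0 ∨ v = 49 ∨ v = 50 → xz (xw sB v) = (0, 1800, 0) := by
    decide +kernel
  simp only [Vr, k v h, toP3]
  norm_num

theorem far_sound {a c : ℕ} {g : Fin 95} (h : farB a c g = true) (p : P3)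
    (hp : Crn (rot 94) (Qr 95 sB) 94 49 p) {τ τ' : ℝ} (hτ : τ ∈ Icc (0 : ℝ) 1)
    (hτ' : τ' ∈ Icc (0 : ℝ) 1) :
    fn a 1048576 c (p + τ • Vr 95 sB 94) < fn a 1048576 c (lv (Qr 95 sB) (Vr 95 sB) τ' g) := by
  simp only [farB, an_iff, gapB_iff] at h
  simp only [Crn, r94, r49] at hp
  rcases hp with rfl | rfl | rfl | rfl
  exacts [gap_of h.1.1 _ _ (lv_norm hτ _) (lv_norm hτ' _),
    gap_of h.1.2 _ _ (lv_norm hτ _) (lv_norm hτ' _),
    gap_of h.2.1 _ _ (lv_norm hτ _) (lv_norm hτ' _),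
    gap_of h.2.2 _ _ (lv_norm hτ _) (lv_norm hτ' _)]

theorem ext_sound {a c : ℕ} {m g : Fin 95} (h : extB a c m g) :
    ∃ f : P3 →ₗ[ℝ] ℝ, f (Vr 95 sB 94) = 0 ∧
      (∀ p, Crn (rot 94) (Qr 95 sB) 94 49 p → f p ≤ f (Qr 95 sB m)) ∧
      ∀ τ ∈ Icc (0 : ℝ) 1, f (Qr 95 sB m) < f (lv (Qr 95 sB) (Vr 95 sB) τ g) := by
  obtain ⟨h1, h2, h3, h4, h5⟩ := h
  refine ⟨fn a 1048576 c, ?_, fun p hp => ?_, fun τ hτ => ?_⟩
  · rw [vB 94 (Or.inl rfl), fn_apply]
    norm_num
  · simp only [Crn, r94, r49] at hp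
    rcases hp with rfl | rfl | rfl | rfl
    exacts [fn_le_of h1, fn_le_of h2, fn_le_of h3, fn_le_of h4]
  · have := gap_of h5 0 _ (by norm_num) (lv_norm (s := sB) hτ g)
    rwa [add_zero] at this

theorem band_B : BandR (rot 94) rot' (Qr 95 sB) (Vr 95 sB) 94 49 := by
  have q : qz (qw sB 94) = (-737148928, -268435456, 51380224) ∧
      qz (qw sB 0) = (-737148928, -268435456, -24117248) ∧
      qz (qw sB 49) = (-703594496, -268435456, 9437184) ∧
      qz (qw sB 50) = (-703594496, -268435456, 84934656) := by decide +kernel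
  have qA : Qr 95 sB 94 = (-737148928, -268435456, 51380224) := by
    change toP3 (qz (qw sB 94)) = _
    rw [q.1, toP3]
    norm_num
  have qB : Qr 95 sB 0 = (-737148928, -268435456, -24117248) := by
    change toP3 (qz (qw sB 0)) = _
    rw [q.2.1, toP3]
    norm_num
  have qC : Qr 95 sB 49 = (-703594496, -268435456, 9437184) := by
    change toP3 (qz (qw sB 49)) = _
    rw [q.2.2.1, toP3]
    norm_num
  have qD : Qr 95 sB 50 = (-703594496, -268435456, 84934656) := by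
    change toP3 (qz (qw sB 50)) = _
    rw [q.2.2.2, toP3]
    norm_num
  refine ⟨by decide, ?_, ?_, fun g h1 h2 => ?_, st_B.emb_left, st_C.emb_left, ?_, ?_, ?_,
    ⟨fn 1048576 1048577 1048576, ?_, fun p hp => ?_⟩, ⟨LinearMap.id, ?_⟩,
    fun g h1 h2 h3 h4 h5 h6 => ?_, fun g hg => ?_, fun g hg => ?_⟩
  · rw [rot', Equiv.Perm.mul_apply, Equiv.swap_apply_left]
  · rw [rot', Equiv.Perm.mul_apply, Equiv.swap_apply_right]
  · rw [rot', Equiv.Perm.mul_apply, Equiv.swap_apply_of_ne_of_ne h1 h2]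
  · rw [r94, vB 0 (by simp), vB 94 (by simp)]
  · rw [vB 49 (by simp), vB 94 (by simp)]
  · rw [r49, vB 50 (by simp), vB 94 (by simp)]
  · rw [vB 94 (by simp), fn_apply]
    norm_num
  · simp only [Crn, r94, r49, qA, qB, qC, qD] at hp
    rcases hp with rfl | rfl | rfl | rfl <;> simp only [qA, fn_apply] <;> norm_num
  · simp only [r94, r49, qA, qB, qC, qD, LinearMap.id_apply, det2, Prod.mk_sub_mk]
    norm_num
  · have k : ∀ g : Fin 95, g = 94 ∨ g = 49 ∨ g = 93 ∨ g = 48 ∨ g = 0 ∨ g = 50 ∨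
        far2 1048577 1048576 g = true ∨ far2 1048576 1048577 g = true ∨
        far2 1048576 1048575 g = true := by decide +kernel
    rw [r94] at h5
    rw [r49] at h6
    have h3' : g ≠ 93 := fun e => h3 (Fin.ext (by rw [e, rot_val]; rfl))
    have h4' : g ≠ 48 := fun e => h4 (Fin.ext (by rw [e, rot_val]; rfl))
    have k' := k g
    simp only [h1, h2, h3', h4', h5, h6, false_or, far2, an_iff, nx_rot] at k'
    rcases k' with k' | k' | k' <;>
      exact ⟨_, fun p hp τ hτ τ' hτ' =>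
        ⟨far_sound k'.1 p hp hτ hτ', far_sound k'.2 p hp hτ hτ'⟩⟩
  · rcases hg with hg | hg
    · obtain rfl : g = 93 := (rot 94).injective (hg.trans (Fin.ext (by rw [rot_val]; rfl)))
      rw [hg]
      exact ext_sound (a := 1048574) (c := 1048577) (by unfold extB; decide +kernel)
    · obtain rfl : g = 48 := (rot 94).injective (hg.trans (Fin.ext (by rw [rot_val]; rfl)))
      rw [hg]
      exact ext_sound (a := 1048578) (c := 1048575) (by unfold extB; decide +kernel)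
  · rcases hg with rfl | rfl
    · rw [r94, show rot 94 0 = 1 from Fin.ext (by rw [rot_val]; rfl)]
      exact ext_sound (a := 1048574) (c := 1048575) (by unfold extB; decide +kernel)
    · rw [r49, show rot 94 50 = 51 from Fin.ext (by rw [rot_val]; rfl)]
      exact ext_sound (a := 1048578) (c := 1048577) (by unfold extB; decide +kernel)

/-- the bound for the cables of the first polygon -/
theorem not_V_0 (T : KTheory) {k : ℕ} {τ : Fin k → ℝ} (hτ : Lev τ) (o : Fin k → Bool) :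
    ¬ T.V (⟨sp fun i => op (rot 94) (o i),
      cab (fun i => op (rot 94) (o i)) (Qr 95 s0) (Vr 95 s0) τ⟩ : CPL (Fin k × Fin 95)) (1 - k) := by
  intro h
  have h1 := famE_reor o (iso_B _ τ hτ)
  rw [reor_cab, reor_cab] at h1
  have h2 := band_V T band_B hτ o (V_fam T h1 h)
  have h3 := famE_reor o (iso_Z _ τ hτ)
  rw [reor_cab, reor_cab] at h3
  refine not_V_Z T hτ o ?_
  have h4 := V_fam T h3 h2
  rwa [show (1 : ℤ) - k - k = 1 - 2 * k by ring] at h4

end Cab

end Pool.Agent.Lib.MP_4d7d0a_gt
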