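import Pool.Agent.Lib.MP_4d7d0a_gt.DSQ
import Pool.Agent.Lib.MP_4d7d0a_gt.DST2

/-! Straightening one rounded corner. -/

set_option autoImplicit false

open Set Filter Topology

namespace Pool.Agent.Lib.MP_4d7d0a_gt

namespace DS

namespace H2Aux

/-- the sharp corner -/
noncomputable def shp (U V W : P3) (u : ℝ) : P3 :=
  realGen U V W ((u - |u|) / 2) ((u + |u|) / 2) 0

theorem plc_gen {W : ℤ → P3} (h : Rel W) (i : ℤ) {u : ℝ} (hu : |u| ≤ 1 / 2) :
    plc W (i + u) = shp (W (i - 1)) (W i) (W (i + 1)) u := by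
  obtain ⟨h2, h3⟩ := abs_le.1 hu
  unfold shp
  rcases le_or_gt 0 u with h6 | h6
  · have f : ⌊i + u⌋ = i := Int.floor_eq_iff.2 ⟨by linarith, by linarith⟩
    rw [plc, Int.fract, f, abs_of_nonneg h6, sub_self, zero_div, add_self_div_two, realGen_pos,
      add_sub_cancel_left]
  · have f : ⌊i + u⌋ = i - 1 :=
      Int.floor_eq_iff.2 ⟨by push_cast; linarith, by push_cast; linarith⟩
    rw [plc, Int.fract, f, abs_of_neg h6, sub_neg_eq_add, add_neg_cancel, zero_div,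
      add_self_div_two, realGen_neg (h.prev i), sub_add_cancel]
    congr 1
    push_cast
    ring

theorem len : WL.length = 86 := by decide +kernel

theorem cyc_per (i k : ℤ) : cyc WL (i + 86 * k) = cyc WL i := by
  rw [cyc, cyc, len]
  congr 3
  push_cast
  omega

theorem split {t : ℝ} {i k : ℤ} : t = ((i + 86 * k : ℤ) : ℝ) + (t - i - 86 * k) := by
  push_cast
  ring

theorem locQ (i : ℤ) {p : P3} (hp : p ∈ Metric.ball (cyc WL i) (1 / 2)) :
    p ∈ Q ↔ ∃ u, |u| ≤ 1 / 2 ∧ p = shp (cyc WL (i - 1)) (cyc WL i) (cyc WL (i + 1)) u := by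
  rw [← range_plc]
  constructor
  · rintro ⟨t, rfl⟩
    rw [mem_ball_iff_norm] at hp
    obtain ⟨k, hk⟩ := plc_sep i t (by linarith)
    refine ⟨_, hk.le, ?_⟩
    conv_lhs => rw [split (t := t) (i := i) (k := k)]
    rw [plc_gen rel_WL _ hk.le, cyc_per, show i + 86 * k - 1 = i - 1 + 86 * k by ring,
      show i + 86 * k + 1 = i + 1 + 86 * k by ring, cyc_per, cyc_per]
  · rintro ⟨u, hu, rfl⟩
    exact ⟨_, plc_gen rel_WL i hu⟩

theorem locK (π : Prof) (hπ : 20 * (1 + 16777216) ^ 2 * π.η ≤ 1 / 2) (i : ℤ) {p : P3}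
    (hp : p ∈ Metric.ball (cyc WL i) (1 / 2)) :
    p ∈ range (π.knot WL) ↔
      ∃ u, |u| ≤ 1 / 2 ∧ p = π.cor (cyc WL (i - 1)) (cyc WL i) (cyc WL (i + 1)) u := by
  have h0 := π.small
  constructor
  · rintro ⟨s, rfl⟩
    rw [Prof.knot] at hp ⊢
    generalize (WL.length : ℝ) * s = t at hp ⊢
    rw [mem_ball_iff_norm] at hp
    have h1 := π.real_close rel_WL CertAux.norm_WL t
    have h2 : ‖plc (cyc WL) t - cyc WL i‖ < 1 := by
      have h3 := norm_sub_le_norm_sub_add_norm_sub (plc (cyc WL) t) (π.real (cyc WL) t) (cyc WL i)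
      rw [norm_sub_rev] at h1
      linarith
    obtain ⟨k, hk⟩ := plc_sep i t h2
    obtain ⟨h4, h5⟩ := abs_lt.1 hk
    refine ⟨_, hk.le, ?_⟩
    conv_lhs => rw [split (t := t) (i := i) (k := k)]
    rw [π.real_eq_cor rel_WL _ (by linarith) (by linarith), cyc_per,
      show i + 86 * k - 1 = i - 1 + 86 * k by ring,
      show i + 86 * k + 1 = i + 1 + 86 * k by ring, cyc_per, cyc_per]
  · rintro ⟨u, hu, rfl⟩
    obtain ⟨h4, h5⟩ := abs_le.1 hu
    refine ⟨(i + u) / 86, ?_⟩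
    rw [Prof.knot, len, show ((86 : ℕ) : ℝ) * ((i + u) / 86) = i + u by push_cast; ring,
      π.real_eq_cor rel_WL _ (by linarith) (by linarith)]

/-- the two kinds of vertices -/
def Kind (U V W : P3) : Prop :=
  (V.1 - U.1) * (W.2.1 - V.2.1) - (W.1 - V.1) * (V.2.1 - U.2.1) ≠ 0 ∨
    (V.1 - U.1 = 0 ∧ W.1 - V.1 = 0 ∧ ((1 ≤ V.2.1 - U.2.1 ∧ 1 ≤ W.2.1 - V.2.1) ∨
      (V.2.1 - U.2.1 ≤ -1 ∧ W.2.1 - V.2.1 ≤ -1)))

/-- the same for integer points -/
def KindZ (U V W : Z3) : Prop :=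
  (V.1 - U.1) * (W.2.1 - V.2.1) - (W.1 - V.1) * (V.2.1 - U.2.1) ≠ 0 ∨
    (V.1 - U.1 = 0 ∧ W.1 - V.1 = 0 ∧ ((1 ≤ V.2.1 - U.2.1 ∧ 1 ≤ W.2.1 - V.2.1) ∨
      (V.2.1 - U.2.1 ≤ -1 ∧ W.2.1 - V.2.1 ≤ -1)))

instance (U V W : Z3) : Decidable (KindZ U V W) := by unfold KindZ; infer_instance

theorem kind_WL (i : ℤ) : Kind (cyc WL (i - 1)) (cyc WL i) (cyc WL (i + 1)) := by
  have h : ∀ k : ℕ, k < 86 →
      KindZ (realVtx WL (k - 1)) (realVtx WL k) (realVtx WL (k + 1)) := by decide +kernel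
  have h1 := h (i % 86).toNat (by omega)
  rw [Int.toNat_of_nonneg (by omega)] at h1
  have e : ∀ j : ℤ, cyc WL (i + j) = toP3 (realVtx WL (i % 86 + j)) := fun j => by
    rw [show i + j = i % 86 + j + 86 * (i / 86) by omega, cyc_per]
    rfl
  have e0 := e 0
  have e1 := e (-1)
  rw [add_zero, add_zero] at e0
  rw [← sub_eq_add_neg, ← sub_eq_add_neg] at e1
  rw [e0, e1, e 1]
  unfold KindZ at h1
  unfold Kind toP3
  dsimp only
  exact_mod_cast h1

theorem line_iff {U V W : P3} (h1 : V.1 - U.1 = 0) (h2 : W.1 - V.1 = 0)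
    (h3 : (1 ≤ V.2.1 - U.2.1 ∧ 1 ≤ W.2.1 - V.2.1) ∨ (V.2.1 - U.2.1 ≤ -1 ∧ W.2.1 - V.2.1 ≤ -1))
    {a w : ℝ → ℝ} (ha : Continuous a) (a0 : a (-(1 / 2)) = 1 / 2) (a1 : a (1 / 2) = 1 / 2) {p : P3}
    (hp : p ∈ Metric.ball V (1 / 2)) :
    (∃ u, |u| ≤ 1 / 2 ∧ p = realGen U V W ((u - a u) / 2) ((u + a u) / 2) (w u)) ↔
      p.1 = V.1 ∧ p.2.2 = V.2.2 := by
  constructor
  · rintro ⟨u, -, rfl⟩
    simp [realGen, h1, h2]
  · rintro ⟨e1, e2⟩
    have hy : |p.2.1 - V.2.1| < 1 / 2 := by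
      rw [mem_ball_iff_norm] at hp
      exact ((norm_fst_le (p - V).2).trans (norm_snd_le (p - V))).trans_lt hp
    obtain ⟨y1, y2⟩ := abs_lt.1 hy
    have hc : Continuous fun u => V.2.1 + (u - a u) / 2 * (V.2.1 - U.2.1) +
        (u + a u) / 2 * (W.2.1 - V.2.1) := by fun_prop
    obtain ⟨u, hu, e⟩ := intermediate_value_uIcc (a := -(1 / 2)) (b := 1 / 2) hc.continuousOn
      (show p.2.1 ∈ _ by
        simp only [a0, a1, mem_uIcc]
        rcases h3 with h3 | h3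
        · left
          constructor <;> linarith [h3.1, h3.2]
        · right
          constructor <;> linarith [h3.1, h3.2])
    rw [uIcc_of_le (by norm_num)] at hu
    refine ⟨u, abs_le.2 hu, Prod.ext ?_ (Prod.ext e.symm ?_)⟩
    · simp [realGen, h1, h2, e1]
    · simp [realGen, h1, h2, e2]

theorem shp_eq (π : Prof) (U V W : P3) {u : ℝ} (hu : π.η ≤ |u|) :
    shp U V W u = π.cor U V W u := by
  rw [Prof.cor_gen, π.ab_eq u hu, π.w_eq u hu, shp]

theorem corner (π : Prof) {U V W : P3} {C : ℝ} (hU : ‖U‖ ≤ C) (hV : ‖V‖ ≤ C) (hW : ‖W‖ ≤ C)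
    (hπ : 20 * (1 + C) ^ 2 * π.η ≤ 1 / 12)
    (hd : (V.1 - U.1) * (W.2.1 - V.2.1) - (W.1 - V.1) * (V.2.1 - U.2.1) ≠ 0) :
    ∃ Φ : P3 ≃ₜ P3, (∀ p ∉ Metric.ball V (1 / 2), Φ p = p) ∧
      ∀ u, Φ (π.cor U V W u) = shp U V W u := by
  have h0 := π.small
  have h1 := π.pos
  set d := (V.1 - U.1) * (W.2.1 - V.2.1) - (W.1 - V.1) * (V.2.1 - U.2.1) with hdd
  let l : P3 → ℝ := fun p => (((W.2.1 - V.2.1) - (V.2.1 - U.2.1)) * (p.1 - V.1) +
    ((V.1 - U.1) - (W.1 - V.1)) * (p.2.1 - V.2.1)) / d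
  have lg : ∀ p q w, l (realGen U V W p q w) = p + q := fun p q w => by
    simp only [l, realGen]
    rw [div_eq_iff hd, hdd]
    ring
  have l1 : ∀ u, l (π.cor U V W u) = u := fun u => by rw [Prof.cor_gen, lg]; ring
  have l2 : ∀ u, l (shp U V W u) = u := fun u => by rw [shp, lg]; ring
  let D : ℝ → P3 := fun u => shp U V W u - π.cor U V W u
  let χ : P3 → ℝ := fun p => max 0 (min 1 (2 - 4 * dist p V))
  have hab := π.ab_sm.continuous
  have hw := π.w_sm.continuous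
  have hD : Continuous D := by
    simp only [D, shp, realGen, Prof.cor]
    fun_prop
  have hinv : ∀ (p : P3) (u s : ℝ), l (p + s • D u) = l p := fun p u s => by
    have e : l (p + s • D u) = l p + s * (l (shp U V W u) - l (π.cor U V W u)) := by
      simp only [l, D, Prod.fst_add, Prod.snd_add, Prod.smul_fst, Prod.smul_snd, Prod.fst_sub,
        Prod.snd_sub, smul_eq_mul]
      ring
    rw [e, l1, l2, sub_self, mul_zero, add_zero]
  have hχ : LipschitzWith 4 χ := by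
    refine LipschitzWith.const_max (LipschitzWith.const_min ?_ 1) 0
    refine LipschitzWith.of_dist_le_mul fun x y => ?_
    have := abs_dist_sub_le x y V
    rw [Real.dist_eq, show 2 - 4 * dist x V - (2 - 4 * dist y V) = -(4 * (dist x V - dist y V)) by
      ring, abs_neg, abs_mul, abs_of_pos (by norm_num : (0 : ℝ) < 4)]
    push_cast
    linarith
  have hχ1 : ∀ p, |χ p| ≤ 1 := fun p => abs_le.2
    ⟨by linarith [le_max_left 0 (min 1 (2 - 4 * dist p V))],
      max_le zero_le_one (min_le_left _ _)⟩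
  have c0 : 0 ≤ 20 * (1 + C) ^ 2 * π.η := by positivity
  have hb : ∀ u, ‖D u‖ ≤ 20 * (1 + C) ^ 2 * π.η := fun u => by
    rcases le_or_gt π.η |u| with h | h
    · simp only [D]
      rw [shp_eq π U V W h, sub_self, norm_zero]
      exact c0
    · obtain ⟨a1, a2⟩ := abs_le.1 (π.ab_close u)
      obtain ⟨a3, a4⟩ := abs_lt.1 h
      have a5 := abs_nonneg u
      simp only [D]
      rw [norm_sub_rev, Prof.cor_gen, shp]
      refine realGen_close hU hV hW ?_ ?_ (π.w_le u) ?_ ?_ ?_ ?_ <;>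
        exact abs_le.2 ⟨by linarith, by linarith⟩
  obtain ⟨Φ, hΦ⟩ := shear_homeo (l := l) (by simp only [l]; fun_prop) hD hinv hχ hχ1 hb
    (by push_cast; linarith)
  refine ⟨Φ, fun p hp => ?_, fun u => ?_⟩
  · rw [Metric.mem_ball, not_lt] at hp
    have : χ p = 0 := max_eq_left ((min_le_right _ _).trans (by linarith))
    rw [hΦ, this, zero_smul, add_zero]
  · rw [hΦ, l1]
    rcases le_or_gt π.η |u| with h | h
    · simp only [D]
      rw [shp_eq π U V W h, sub_self, smul_zero, add_zero]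
    · obtain ⟨a1, a2⟩ := abs_le.1 (π.ab_close u)
      obtain ⟨a3, a4⟩ := abs_lt.1 h
      have a5 := abs_nonneg u
      have e : realGen U V W 0 0 0 = V := by simp [realGen]
      have n : ‖π.cor U V W u - V‖ ≤ 20 * (1 + C) ^ 2 * (3 * π.η) := by
        conv_lhs => rw [Prof.cor_gen]; congr; congr; rfl; rw [← e]
        refine realGen_close hU hV hW ?_ ?_ ((π.w_le u).trans (by linarith)) ?_ ?_ ?_ ?_ <;>
          exact abs_le.2 ⟨by linarith, by linarith⟩
      have : χ (π.cor U V W u) = 1 := by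
        simp only [χ]
        rw [dist_eq_norm, min_eq_left (by linarith), max_eq_right zero_le_one]
      rw [this, one_smul]
      simp only [D]
      abel

end H2Aux

open H2Aux in
theorem vertex_homeo : Small fun π => ∀ i : ℤ, ∃ Φ : P3 ≃ₜ P3,
    (∀ p ∉ Metric.ball (cyc WL i) (1 / 2), Φ p = p) ∧
      ∀ p ∈ Metric.ball (cyc WL i) (1 / 2), (Φ p ∈ Q ↔ p ∈ range (π.knot WL)) := by
  refine (small_lt (c := 1 / (12 * (20 * (1 + 16777216) ^ 2))) (by positivity)).mono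
    fun π hπ i => ?_
  have h0 := π.small
  have h1 : 20 * (1 + 16777216) ^ 2 * π.η ≤ 1 / 12 := by
    rw [lt_div_iff₀ (by positivity)] at hπ
    linarith
  rcases kind_WL i with hk | ⟨k1, k2, k3⟩
  · obtain ⟨Φ, f1, f2⟩ := corner π (CertAux.norm_WL _) (CertAux.norm_WL _) (CertAux.norm_WL _)
      h1 hk
    refine ⟨Φ, f1, fun p hp => ?_⟩
    have hq : Φ p ∈ Metric.ball (cyc WL i) (1 / 2) := by
      by_contra h
      rw [Φ.injective (f1 _ h)] at h
      exact h hp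
    rw [locQ i hq, locK π (by linarith) i hp]
    refine exists_congr fun u => and_congr_right fun _ => ?_
    rw [← f2, Φ.injective.eq_iff]
  · refine ⟨Homeomorph.refl _, fun _ _ => rfl, fun p hp => ?_⟩
    have b0 : π.η ≤ |(-(1 / 2) : ℝ)| := by rw [abs_neg, abs_of_pos] <;> linarith
    have b1 : π.η ≤ |(1 / 2 : ℝ)| := by rw [abs_of_pos] <;> linarith
    rw [Homeomorph.refl_apply, id, locQ i hp, locK π (by linarith) i hp]
    exact (line_iff k1 k2 k3 (a := fun u => |u|) (w := fun _ => 0) continuous_abs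
      (by norm_num [abs_of_pos]) (by norm_num [abs_of_pos]) hp).trans
      (line_iff k1 k2 k3 (a := π.ab) (w := π.w) π.ab_sm.continuous
        (by rw [π.ab_eq _ b0]; norm_num [abs_of_pos]) (by rw [π.ab_eq _ b1]; norm_num [abs_of_pos])
        hp).symm

end DS

end Pool.Agent.Lib.MP_4d7d0a_gt
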