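import Pool.Agent.Lib.MP_4d7d0a_gt.DSGeo
import Pool.Agent.Lib.MP_4d7d0a_gt.DST2

/-! The polygon through WL is the grid polygon. -/

set_option autoImplicit false

open Set Filter Topology

namespace Pool.Agent.Lib.MP_4d7d0a_gt

namespace DS

namespace DSQ

open CertAux

/-- the integer grid coordinates of vertex number `k` -/
def gX (k : ℕ) : ℤ := (gv WL k).2.2 + 16384 * (gv WL k).1

def gU (k : ℕ) : ℤ := (gv WL k).2.2 - 16384 * (gv WL k).1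

def gY (k : ℕ) : ℤ := (gv WL k).2.1

def gx (k : ℕ) : ℤ := (gv WL k).1

def cI (j : ℕ) : ℤ := 16384 * cZ.getD j 0

def rI (i : ℕ) : ℤ := 16384 * rZ.getD i 0

theorem cI_cast (j : ℕ) : (cI j : ℝ) = cL j := by
  simp only [cI, cL, sg]; push_cast; ring

theorem rI_cast (i : ℕ) : (rI i : ℝ) = rL i := by
  simp only [rI, rL, sg]; push_cast; ring

theorem aff_chk : ∀ k < 86, ((gv WL k).1 = (gv WL (k + 1)).1 ∨ (gv WL k).2.1 = (gv WL (k + 1)).2.1) ∧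
    (gv WL (k + 1)).2.2 - (gv WL k).2.2 = (gv WL k).2.1 * ((gv WL (k + 1)).1 - (gv WL k).1) := by
  decide +kernel

/-- the point with parameter `u` on edge number `k` -/
noncomputable def ept (k : ℕ) (u : ℝ) : P3 := edge (toP3 (gv WL k)) (toP3 (gv WL (k + 1))) u

theorem ept_z {k : ℕ} (hk : k < 86) (u : ℝ) :
    (ept k u).2.2 = (gv WL k).2.2 + u * ((gv WL (k + 1)).2.2 - (gv WL k).2.2) := by
  obtain ⟨h1, h2⟩ := aff_chk k hk
  have h3 : (((gv WL (k + 1)).2.2 : ℝ) - (gv WL k).2.2) =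
      (gv WL k).2.1 * (((gv WL (k + 1)).1 : ℝ) - (gv WL k).1) := by exact_mod_cast h2
  have h4 : (((gv WL (k + 1)).1 : ℝ) - (gv WL k).1) *
      (((gv WL (k + 1)).2.1 : ℝ) - (gv WL k).2.1) = 0 := by
    rcases h1 with h1 | h1 <;> simp [h1]
  simp only [ept, edge, toP3]
  rw [h3, h4]
  ring

theorem ept_x (k : ℕ) (u : ℝ) : (ept k u).1 = gx k + u * (gx (k + 1) - gx k) := rfl

theorem ept_y (k : ℕ) (u : ℝ) : (ept k u).2.1 = gY k + u * (gY (k + 1) - gY k) := rfl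

theorem ept_xi {k : ℕ} (hk : k < 86) (u : ℝ) : xi (ept k u) = gX k + u * (gX (k + 1) - gX k) := by
  rw [xi, ept_z hk, ept_x]
  simp only [gX, gx, sg]
  push_cast
  ring

theorem ept_up {k : ℕ} (hk : k < 86) (u : ℝ) : up (ept k u) = gU k + u * (gU (k + 1) - gU k) := by
  rw [up, ept_z hk, ept_x]
  simp only [gU, gx, sg]
  push_cast
  ring

theorem plc_eq (t : ℝ) : plc (cyc WL) t = ept (res 86 ⌊t⌋) (Int.fract t) := by
  rw [plc, ept, cyc_zero len_WL (by norm_num), cyc_one len_WL (by norm_num)]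

theorem res_nat {k : ℕ} (hk : k < 86) : res 86 (k : ℤ) = k := by
  have := res_cast (show 0 < 86 by norm_num) (k : ℤ)
  omega

theorem ept_mem {k : ℕ} (hk : k < 86) {u : ℝ} (h0 : 0 ≤ u) (h1 : u ≤ 1) :
    ept k u ∈ range (plc (cyc WL)) := by
  rcases h1.lt_or_eq with h1 | rfl
  · refine ⟨(k : ℤ) + u, ?_⟩
    have hf : ⌊((k : ℤ) : ℝ) + u⌋ = k := by
      rw [Int.floor_intCast_add, Int.floor_eq_zero_iff.2 ⟨h0, h1⟩, add_zero]
    rw [plc_eq, hf, res_nat hk, Int.fract_intCast_add, Int.fract_eq_self.2 ⟨h0, h1⟩]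
  · refine ⟨((k + 1 : ℤ) : ℝ), ?_⟩
    rw [plc, Int.floor_intCast, Int.fract_intCast, cyc_one len_WL (by norm_num), res_nat hk]
    have hz := ept_z hk 1
    refine Prod.ext ?_ (Prod.ext ?_ ?_)
    · simp [edge, ept]
    · simp [edge, ept]
    · rw [hz]
      simp [edge, toP3]

theorem mem_of_coords {k : ℕ} (hk : k < 86) {u : ℝ} (h0 : 0 ≤ u) (h1 : u ≤ 1) {p : P3}
    (hx : xi p = gX k + u * (gX (k + 1) - gX k)) (hu : up p = gU k + u * (gU (k + 1) - gU k))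
    (hy : p.2.1 = gY k + u * (gY (k + 1) - gY k)) : p ∈ range (plc (cyc WL)) := by
  have h : p = ept k u := by
    rw [← pt_eq p, ← pt_eq (ept k u), hx, hu, hy, ept_xi hk, ept_up hk, ept_y]
  rw [h]
  exact ept_mem hk h0 h1

theorem exists_par {a b v : ℝ} (h : (a ≤ v ∧ v ≤ b) ∨ (b ≤ v ∧ v ≤ a)) :
    ∃ u, 0 ≤ u ∧ u ≤ 1 ∧ v = a + u * (b - a) := by
  have hv : v ∈ segment ℝ a b := by
    rw [segment_eq_uIcc]
    exact mem_uIcc.2 h
  rw [segment_eq_image'] at hv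
  obtain ⟨u, hu, rfl⟩ := hv
  exact ⟨u, hu.1, hu.2, rfl⟩

theorem between {a b lo hi u : ℝ} (h0 : 0 ≤ u) (h1 : u ≤ 1) (ha : lo ≤ a ∧ a ≤ hi)
    (hb : lo ≤ b ∧ b ≤ hi) : lo ≤ a + u * (b - a) ∧ a + u * (b - a) ≤ hi := by
  constructor <;> nlinarith [ha.1, ha.2, hb.1, hb.2]

theorem type_chk : ∀ k < 86, ∃ j < 20,
    (gY k = -16384 ∧ gY (k + 1) = -16384 ∧ gX k = cI j ∧ gX (k + 1) = cI j ∧
      (rI (cLo j) ≤ gU k ∧ gU k ≤ rI (cHi j)) ∧ rI (cLo j) ≤ gU (k + 1) ∧ gU (k + 1) ≤ rI (cHi j)) ∨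
    (gY k = 16384 ∧ gY (k + 1) = 16384 ∧ gU k = rI j ∧ gU (k + 1) = rI j ∧
      (cI (rLo j) ≤ gX k ∧ gX k ≤ cI (rHi j)) ∧ cI (rLo j) ≤ gX (k + 1) ∧ gX (k + 1) ≤ cI (rHi j)) ∨
    (gX k = cI j ∧ gX (k + 1) = cI j ∧ gU (k + 1) = gU k ∧ (gU k = rI (cLo j) ∨ gU k = rI (cHi j)) ∧
      (-16384 ≤ gY k ∧ gY k ≤ 16384) ∧ -16384 ≤ gY (k + 1) ∧ gY (k + 1) ≤ 16384) := by
  decide +kernel

theorem ept_Q {k : ℕ} (hk : k < 86) {u : ℝ} (h0 : 0 ≤ u) (h1 : u ≤ 1) : ept k u ∈ Q := by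
  obtain ⟨j, hj, h | h | h⟩ := type_chk k hk
  · obtain ⟨e1, e2, e3, e4, e5, e6⟩ := h
    refine Or.inl ⟨⟨j, hj, ?_, ?_⟩, ?_⟩
    · rw [ept_xi hk, e3, e4, cI_cast]; ring
    · rw [ept_up hk, ← rI_cast, ← rI_cast]
      exact between h0 h1 (by exact_mod_cast e5) (by exact_mod_cast e6)
    · rw [ept_y, e1, e2, sg]; push_cast; ring
  · obtain ⟨e1, e2, e3, e4, e5, e6⟩ := h
    refine Or.inr (Or.inl ⟨⟨j, hj, ?_, ?_⟩, ?_⟩)
    · rw [ept_up hk, e3, e4, rI_cast]; ring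
    · rw [ept_xi hk, ← cI_cast, ← cI_cast]
      exact between h0 h1 (by exact_mod_cast e5) (by exact_mod_cast e6)
    · rw [ept_y, e1, e2, sg]; push_cast; ring
  · obtain ⟨e1, e2, e3, e4, e5, e6⟩ := h
    refine Or.inr (Or.inr ⟨⟨j, hj, ?_, ?_⟩, ?_⟩)
    · rw [ept_xi hk, e1, e2, cI_cast]; ring
    · rw [ept_up hk, e3, ← rI_cast, ← rI_cast, sub_self, mul_zero, add_zero]
      exact_mod_cast e4
    · rw [ept_y, abs_le, sg]
      exact between h0 h1 (by exact_mod_cast e5) (by exact_mod_cast e6)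

theorem col_chk : ∀ j < 20, ∃ k < 86, gY k = -16384 ∧ gY (k + 1) = -16384 ∧ gX k = cI j ∧
    gX (k + 1) = cI j ∧ ((gU k = rI (cLo j) ∧ gU (k + 1) = rI (cHi j)) ∨
      (gU (k + 1) = rI (cLo j) ∧ gU k = rI (cHi j))) := by
  decide +kernel

theorem row_chk : ∀ j < 20, ∃ k < 86, gY k = 16384 ∧ gY (k + 1) = 16384 ∧ gU k = rI j ∧
    gU (k + 1) = rI j ∧ ((gX k = cI (rLo j) ∧ gX (k + 1) = cI (rHi j)) ∨
      (gX (k + 1) = cI (rLo j) ∧ gX k = cI (rHi j))) := by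
  decide +kernel

theorem leg_chk : ∀ j < 20, ∀ e ∈ [cLo j, cHi j], ∀ m ∈ [(-2 : ℤ), -1, 0, 1], ∃ k < 86,
    gX k = cI j ∧ gX (k + 1) = cI j ∧ gU k = rI e ∧ gU (k + 1) = rI e ∧
      ((gY k ≤ 8192 * m ∧ 8192 * m + 8192 ≤ gY (k + 1)) ∨
        (gY (k + 1) ≤ 8192 * m ∧ 8192 * m + 8192 ≤ gY k)) := by
  decide +kernel

theorem Q_sub {p : P3} (hp : p ∈ Q) : p ∈ range (plc (cyc WL)) := by
  rcases hp with ⟨⟨j, hj, h1, h2⟩, h3⟩ | ⟨⟨j, hj, h1, h2⟩, h3⟩ | ⟨⟨j, hj, h1, h2⟩, h3⟩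
  · obtain ⟨k, hk, e1, e2, e3, e4, e5⟩ := col_chk j hj
    obtain ⟨u, h0, h0', hu⟩ := exists_par (a := gU k) (b := gU (k + 1)) (v := up p) (by
      rcases e5 with ⟨e5, e6⟩ | ⟨e5, e6⟩
      · rw [e5, e6, rI_cast, rI_cast]; exact Or.inl h2
      · rw [e5, e6, rI_cast, rI_cast]; exact Or.inr h2)
    refine mem_of_coords hk h0 h0' ?_ hu ?_
    · rw [h1, e3, e4, cI_cast]; ring
    · rw [h3, e1, e2, sg]; push_cast; ring
  · obtain ⟨k, hk, e1, e2, e3, e4, e5⟩ := row_chk j hj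
    obtain ⟨u, h0, h0', hu⟩ := exists_par (a := gX k) (b := gX (k + 1)) (v := xi p) (by
      rcases e5 with ⟨e5, e6⟩ | ⟨e5, e6⟩
      · rw [e5, e6, cI_cast, cI_cast]; exact Or.inl h2
      · rw [e5, e6, cI_cast, cI_cast]; exact Or.inr h2)
    refine mem_of_coords hk h0 h0' hu ?_ ?_
    · rw [h1, e3, e4, rI_cast]; ring
    · rw [h3, e1, e2, sg]; push_cast; ring
  · obtain ⟨e, he, he'⟩ : ∃ e ∈ [cLo j, cHi j], up p = rL e := by
      rcases h2 with h2 | h2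
      · exact ⟨_, by simp, h2⟩
      · exact ⟨_, by simp, h2⟩
    obtain ⟨m, hm, hm1, hm2⟩ : ∃ m ∈ [(-2 : ℤ), -1, 0, 1],
        (8192 * m : ℝ) ≤ p.2.1 ∧ p.2.1 ≤ 8192 * m + 8192 := by
      rw [abs_le, sg] at h3
      rcases le_total p.2.1 0 with h4 | h4
      · rcases le_total p.2.1 (-8192) with h5 | h5
        · exact ⟨-2, by simp, by push_cast; linarith [h3.1], by push_cast; linarith⟩
        · exact ⟨-1, by simp, by push_cast; linarith, by push_cast; linarith⟩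
      · rcases le_total p.2.1 8192 with h5 | h5
        · exact ⟨0, by simp, by push_cast; linarith, by push_cast; linarith⟩
        · exact ⟨1, by simp, by push_cast; linarith, by push_cast; linarith [h3.2]⟩
    obtain ⟨k, hk, e1, e2, e3, e4, e5⟩ := leg_chk j hj e he m hm
    obtain ⟨u, h0, h0', hu⟩ := exists_par (a := gY k) (b := gY (k + 1)) (v := p.2.1) (by
      rcases e5 with ⟨e5, e6⟩ | ⟨e5, e6⟩
      · have e7 : (gY k : ℝ) ≤ 8192 * m := by exact_mod_cast e5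
        have e8 : (8192 * m + 8192 : ℝ) ≤ gY (k + 1) := by exact_mod_cast e6
        exact Or.inl ⟨by linarith, by linarith⟩
      · have e7 : (gY (k + 1) : ℝ) ≤ 8192 * m := by exact_mod_cast e5
        have e8 : (8192 * m + 8192 : ℝ) ≤ gY k := by exact_mod_cast e6
        exact Or.inr ⟨by linarith, by linarith⟩)
    refine mem_of_coords hk h0 h0' ?_ ?_ hu
    · rw [h1, e1, e2, cI_cast]; ring
    · rw [he', e3, e4, rI_cast]; ring

/-- both `a` and `b` are on the same side of `v` at distance at least `d` -/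
def Sep (a b v d : ℤ) : Prop := (v + d ≤ a ∧ v + d ≤ b) ∨ (a + d ≤ v ∧ b + d ≤ v)

instance (a b v d : ℤ) : Decidable (Sep a b v d) := by unfold Sep; infer_instance

theorem Sep.le {a b v d : ℤ} (h : Sep a b v d) {u : ℝ} (h0 : 0 ≤ u) (h1 : u ≤ 1) :
    (d : ℝ) ≤ |a + u * (b - a) - v| := by
  rcases h with ⟨e1, e2⟩ | ⟨e1, e2⟩
  · have e3 : (v + d : ℝ) ≤ a := by exact_mod_cast e1
    have e4 : (v + d : ℝ) ≤ b := by exact_mod_cast e2
    exact le_abs.2 (Or.inl (by nlinarith))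
  · have e3 : (a + d : ℝ) ≤ v := by exact_mod_cast e1
    have e4 : (b + d : ℝ) ≤ v := by exact_mod_cast e2
    exact le_abs.2 (Or.inr (by nlinarith))

theorem sep_chk : ∀ n < 86, ∀ k < 86, k = n ∨ (k + 1) % 86 = n ∨
    Sep (gX k) (gX (k + 1)) (gX n) 16385 ∨ Sep (gU k) (gU (k + 1)) (gU n) 16385 ∨
      Sep (gY k) (gY (k + 1)) (gY n) 1 := by
  decide +kernel

theorem len_chk : ∀ k < 86, 2 ≤ |gx (k + 1) - gx k| ∨ 2 ≤ |gY (k + 1) - gY k| := by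
  decide +kernel

theorem gv_mod (k : ℕ) : gv WL (k % 86) = gv WL k := by
  unfold gv
  rw [len_WL, Nat.mod_mod]

theorem half {a b : ℤ} (h : 2 ≤ |b - a|) {s : ℝ} (hs : |s * (b - a)| < 1) : |s| < 1 / 2 := by
  have h1 : (2 : ℝ) ≤ |(b : ℝ) - a| := by exact_mod_cast h
  rw [abs_mul] at hs
  nlinarith [abs_nonneg s]

end DSQ

theorem range_plc : range (plc (cyc WL)) = Q := by
  refine Subset.antisymm (range_subset_iff.2 fun t => ?_) fun p hp => DSQ.Q_sub hp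
  rw [DSQ.plc_eq]
  exact DSQ.ept_Q (CertAux.res_lt (by norm_num) _) (Int.fract_nonneg t) (Int.fract_lt_one t).le

theorem plc_sep (i : ℤ) (t : ℝ) (h : ‖plc (cyc WL) t - cyc WL i‖ < 1) :
    ∃ k : ℤ, |t - i - 86 * k| < 1 / 2 := by
  have hn := CertAux.res_lt (show 0 < 86 by norm_num) i
  have hk := CertAux.res_lt (show 0 < 86 by norm_num) ⌊t⌋
  have hn' := CertAux.res_cast (show 0 < 86 by norm_num) i
  have hk' := CertAux.res_cast (show 0 < 86 by norm_num) ⌊t⌋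
  have h0 := Int.fract_nonneg t
  have h1 := (Int.fract_lt_one t).le
  have ht : t = ⌊t⌋ + Int.fract t := (Int.floor_add_fract t).symm
  rw [DSQ.plc_eq, CertAux.cyc_zero CertAux.len_WL (by norm_num)] at h
  generalize CertAux.res 86 i = n at *
  generalize CertAux.res 86 ⌊t⌋ = k at *
  generalize Int.fract t = u at *
  simp only [Prod.norm_def, Real.norm_eq_abs, max_lt_iff, Prod.fst_sub, Prod.snd_sub] at h
  obtain ⟨hx, hy, hz⟩ := h
  have hx' : |(DSQ.gx k : ℝ) + u * (DSQ.gx (k + 1) - DSQ.gx k) - DSQ.gx n| < 1 := hx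
  have hy' : |(DSQ.gY k : ℝ) + u * (DSQ.gY (k + 1) - DSQ.gY k) - DSQ.gY n| < 1 := hy
  rcases DSQ.sep_chk n hn k hk with e | e | e | e | e
  · subst e
    refine ⟨(⌊t⌋ - i) / 86, ?_⟩
    have e1 : ⌊t⌋ - i = 86 * ((⌊t⌋ - i) / 86) := by omega
    have e2 : (⌊t⌋ : ℝ) - i = 86 * (((⌊t⌋ - i) / 86 : ℤ) : ℝ) := by exact_mod_cast e1
    have e3 : t - i - 86 * (((⌊t⌋ - i) / 86 : ℤ) : ℝ) = u := by linarith
    rw [e3]
    rcases DSQ.len_chk k hk with e4 | e4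
    · exact DSQ.half e4 (by rwa [add_sub_cancel_left] at hx')
    · exact DSQ.half e4 (by rwa [add_sub_cancel_left] at hy')
  · refine ⟨(⌊t⌋ + 1 - i) / 86, ?_⟩
    have e1 : ⌊t⌋ + 1 - i = 86 * ((⌊t⌋ + 1 - i) / 86) := by omega
    have e2 : (⌊t⌋ : ℝ) + 1 - i = 86 * (((⌊t⌋ + 1 - i) / 86 : ℤ) : ℝ) := by exact_mod_cast e1
    have e3 : t - i - 86 * (((⌊t⌋ + 1 - i) / 86 : ℤ) : ℝ) = u - 1 := by linarith
    rw [e3]
    have e5 : DSQ.gx n = DSQ.gx (k + 1) := by rw [← e, DSQ.gx, DSQ.gx, DSQ.gv_mod]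
    have e6 : DSQ.gY n = DSQ.gY (k + 1) := by rw [← e, DSQ.gY, DSQ.gY, DSQ.gv_mod]
    rcases DSQ.len_chk k hk with e4 | e4
    · refine DSQ.half e4 ?_
      rw [e5] at hx'
      convert hx' using 2
      ring
    · refine DSQ.half e4 ?_
      rw [e6] at hy'
      convert hy' using 2
      ring
  · exfalso
    have e1 := e.le h0 h1
    rw [← DSQ.ept_xi hk] at e1
    have e2 : xi (DSQ.ept k u) - DSQ.gX n = ((DSQ.ept k u).2.2 - (toP3 (CertAux.gv WL n)).2.2) +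
        16384 * ((DSQ.ept k u).1 - (toP3 (CertAux.gv WL n)).1) := by
      simp only [xi, DSQ.gX, toP3, sg]; push_cast; ring
    rw [e2] at e1
    rw [abs_lt] at hx hz
    push_cast at e1
    rcases le_abs.1 e1 with e3 | e3 <;> linarith [hx.1, hx.2, hz.1, hz.2]
  · exfalso
    have e1 := e.le h0 h1
    rw [← DSQ.ept_up hk] at e1
    have e2 : up (DSQ.ept k u) - DSQ.gU n = ((DSQ.ept k u).2.2 - (toP3 (CertAux.gv WL n)).2.2) -
        16384 * ((DSQ.ept k u).1 - (toP3 (CertAux.gv WL n)).1) := by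
      simp only [up, DSQ.gU, toP3, sg]; push_cast; ring
    rw [e2] at e1
    rw [abs_lt] at hx hz
    push_cast at e1
    rcases le_abs.1 e1 with e3 | e3 <;> linarith [hx.1, hx.2, hz.1, hz.2]
  · exfalso
    have e1 := e.le h0 h1
    push_cast at e1
    linarith

end DS

end Pool.Agent.Lib.MP_4d7d0a_gt
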