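import Mathlib

/-! Definitions used in the statement: contact 3-manifolds by Darboux atlases, the standard
contact 3-sphere, Legendrian knots and isotopies, overtwisted discs, contact (+1)-surgery. -/

set_option autoImplicit false

open Set
open scoped ContDiff

namespace Pool.Agent.Lib.MP_4d7d0a_gt

/-- coordinates `(x, y, z)` -/
abbrev P3 : Type := ℝ × ℝ × ℝ

/-- coordinates `(x₁, y₁, x₂, y₂)` of `ℂ²` -/
abbrev P4 : Type := ℝ × ℝ × ℝ × ℝ

/-- the standard contact form `dz - y dx` at `p` applied to `v` -/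
def al (p v : P3) : ℝ := v.2.2 - p.2.1 * v.1

/-- the form `x₁ dy₁ - y₁ dx₁ + x₂ dy₂ - y₂ dx₂` at `q` applied to `w` -/
def lam (q w : P4) : ℝ := q.1 * w.2.1 - q.2.1 * w.1 + q.2.2.1 * w.2.2.2 - q.2.2.2 * w.2.2.1

/-- the unit sphere; its standard contact structure is the kernel of `lam` -/
def S3 : Set P4 := {q | q.1 ^ 2 + q.2.1 ^ 2 + q.2.2.1 ^ 2 + q.2.2.2 ^ 2 = 1}

/-- `f` is smooth at `p` and pulls `al` back to a positive multiple of `al` at `p` -/
def ContactAt (f : P3 → P3) (p : P3) : Prop :=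
  ContDiffAt ℝ ∞ f p ∧ ∃ c : ℝ, 0 < c ∧ ∀ v, al (f p) (fderiv ℝ f p v) = c * al p v

/-- `f` is smooth at `p` and pulls `lam` back to a positive multiple of `al` at `p` -/
def ContactAt4 (f : P3 → P4) (p : P3) : Prop :=
  ContDiffAt ℝ ∞ f p ∧ ∃ c : ℝ, 0 < c ∧ ∀ v, lam (f p) (fderiv ℝ f p v) = c * al p v

/-- the atlas of `M` is a Darboux atlas of a cooriented contact structure -/
def IsContactAtlas (M : Type) [TopologicalSpace M] [ChartedSpace P3 M] : Prop :=
  ∀ e ∈ atlas P3 M, ∀ e' ∈ atlas P3 M, ∀ m ∈ e.source ∩ e'.source,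
    ContactAt (fun p => e' (e.symm p)) (e m)

/-- a Legendrian knot in the standard sphere, parametrised with period one -/
def IsLegKnot (K : ℝ → P4) : Prop :=
  ContDiff ℝ ∞ K ∧ (∀ t, K (t + 1) = K t) ∧ (∀ t, K t ∈ S3) ∧ InjOn K (Ico 0 1) ∧
    (∀ t, deriv K t ≠ 0) ∧ ∀ t, lam (K t) (deriv K t) = 0

/-- a smooth family of Legendrian knots joins the (unoriented, unparametrised) knots -/
def LegIsotopic (K K' : ℝ → P4) : Prop :=
  ∃ H : ℝ → ℝ → P4, ContDiffOn ℝ ∞ (fun a : ℝ × ℝ => H a.1 a.2) (Icc 0 1 ×ˢ univ) ∧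
    (∀ s ∈ Icc (0 : ℝ) 1, IsLegKnot (H s)) ∧ range (H 0) = range K ∧ range (H 1) = range K'

/-- the closed unit disc -/
def disc : Set (ℝ × ℝ) := {u | u.1 ^ 2 + u.2 ^ 2 ≤ 1}

/-- the unit circle -/
def circ : Set (ℝ × ℝ) := {u | u.1 ^ 2 + u.2 ^ 2 = 1}

/-- `f` read in the chart at `f u` -/
def inChart {M E : Type} [TopologicalSpace M] [ChartedSpace P3 M] (f : E → M) (u : E) : E → P3 :=
  fun w => chartAt P3 (f u) (f w)

/-- the contact form of the chart at `f u` on the image of the vector `v` at `u` -/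
noncomputable def alDisc {M : Type} [TopologicalSpace M] [ChartedSpace P3 M] (f : ℝ × ℝ → M)
    (u v : ℝ × ℝ) : ℝ :=
  al (inChart f u u) (fderiv ℝ (inChart f u) u v)

/-- a smoothly embedded disc with Legendrian boundary that is tangent to the contact planes at
every boundary point, or transverse to them at every boundary point -/
def IsOTDisc {M : Type} [TopologicalSpace M] [ChartedSpace P3 M] (f : ℝ × ℝ → M) : Prop :=
  (∃ O : Set (ℝ × ℝ), IsOpen O ∧ disc ⊆ O ∧
    ∀ u ∈ O, ContinuousAt f u ∧ ContDiffAt ℝ ∞ (inChart f u) u) ∧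
  InjOn f disc ∧ (∀ u ∈ disc, Function.Injective (fderiv ℝ (inChart f u) u)) ∧
  (∀ u ∈ circ, alDisc f u (-u.2, u.1) = 0) ∧
  ((∀ u ∈ circ, alDisc f u u = 0) ∨ ∀ u ∈ circ, alDisc f u u ≠ 0)

/-- no overtwisted disc -/
def Tight (M : Type) [TopologicalSpace M] [ChartedSpace P3 M] : Prop :=
  ¬ ∃ f : ℝ × ℝ → M, IsOTDisc f

/-- the solid cylinder of radius `r` around the `x`-axis -/
def tube (r : ℝ) : Set P3 := {p | p.2.1 ^ 2 + p.2.2 ^ 2 < r ^ 2}

/-- `f` has period one in `x` and is injective on the solid cylinder modulo the period -/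
def TubeMap {X : Type} (f : P3 → X) (r : ℝ) : Prop :=
  (∀ p : P3, f (p.1 + 1, p.2) = f p) ∧
    ∀ p ∈ tube r, ∀ q ∈ tube r, f p = f q → p.2 = q.2 ∧ ∃ k : ℤ, p.1 = q.1 + k

/-- `M` is the contact (+1)-surgery on `K`: `nu` and `ns` are standard neighbourhoods of `K` in
the sphere and of a Legendrian knot in `M`, `th` is a contactomorphism between the complements,
and it is given near the cores by a homogeneous twist that sends the meridian in `M` to the
curve with framing one more than the contact framing of `K` -/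
def IsPlusOneSurgery (K : ℝ → P4) (M : Type) [TopologicalSpace M] [ChartedSpace P3 M] : Prop :=
  ∃ (r : ℝ) (nu : P3 → P4) (ns : P3 → M) (th : M → P4) (A B : ℝ → ℝ), 0 < r ∧
    TubeMap nu r ∧ (∀ p ∈ tube r, nu p ∈ S3 ∧ ContactAt4 nu p) ∧ (∀ x, nu (x, 0, 0) = K x) ∧
    TubeMap ns r ∧ (∀ p ∈ tube r, ContinuousAt ns p ∧ ContactAt (inChart ns p) p) ∧
    BijOn th (range fun x : ℝ => ns (x, 0, 0))ᶜ (S3 \ range K) ∧
    (∀ m ∈ (range fun x : ℝ => ns (x, 0, 0))ᶜ,
      ContactAt4 (fun p => th ((chartAt P3 m).symm p)) (chartAt P3 m m)) ∧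
    Continuous A ∧ Continuous B ∧ (∀ a, A (a + 2 * Real.pi) = A a + 1) ∧
    (∀ a, B (a + 2 * Real.pi) = B a) ∧
    ∃ r' : ℝ, 0 < r' ∧ ∀ x a ρ : ℝ, 0 < ρ → ρ < r' →
      th (ns (x, ρ * Real.cos a, ρ * Real.sin a)) =
        nu (x + A a, ρ * Real.exp (B a) * Real.cos a, ρ * Real.exp (B a) * Real.sin a)

end Pool.Agent.Lib.MP_4d7d0a_gt
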