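import Pool.Agent.Lib.MP_4d7d0a_gt.TBCab

-- part Pool.Agent.Lib.MP_4d7d0a_gt.Cpt
section

/-! The surgered manifold is compact. -/

set_option autoImplicit false

open Set Filter Topology
open scoped ContDiff

namespace Pool.Agent.Lib.MP_4d7d0a_gt

theorem cpt_neg {f : P3 → P4} {p : P3} (h : ContactAt4 f p) : ContactAt4 (fun q => -f q) p := by
  obtain ⟨h1, c, h2, h3⟩ := h
  refine ⟨h1.neg, c, h2, fun v => ?_⟩
  rw [← h3, fderiv_fun_neg]
  simp [lam]

theorem cpt_pole : -pole ≠ pole := fun h => by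
  have := congrArg (fun q : P4 => q.2.2.1) h
  simp only [pole, Prod.neg_mk] at this
  linarith

theorem cpt_polar (y z : ℝ) :
    ∃ R a : ℝ, 0 ≤ R ∧ R ^ 2 = y ^ 2 + z ^ 2 ∧ y = R * Real.cos a ∧ z = R * Real.sin a :=
  ⟨‖(⟨y, z⟩ : ℂ)‖, Complex.arg ⟨y, z⟩, norm_nonneg _, by
    rw [Complex.sq_norm, Complex.normSq_mk, sq, sq], (Complex.norm_mul_cos_arg ⟨y, z⟩).symm,
    (Complex.norm_mul_sin_arg ⟨y, z⟩).symm⟩

section

variable {M : Type} [TopologicalSpace M] [ChartedSpace P3 M] {K : ℝ → P3}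

theorem cpt_inf [T2Space M] (hA : IsContactAtlas M) (sd : SD K M) {V : Set M}
    (hV : V ∈ 𝓝 sd.minf) : ∀ᶠ p in cocompact P3, p ∉ range K → sd.psi p ∈ V := by
  have hs := mem_chart_source P3 sd.minf
  have h1 : ∀ᶠ m in 𝓝 sd.minf, m ∈ V ∧ (m ∉ range fun x : ℝ => sd.ns (x, 0, 0)) ∧
      -sd.th m ≠ pole :=
    Eventually.and hV (Eventually.and (sd.isClosed_core.isOpen_compl.mem_nhds sd.minf_not)
      ((sd.continuousAt_th sd.minf_not).neg.eventually_ne (by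
        rw [Pi.neg_apply, sd.th_minf]; exact cpt_pole)))
  rw [← (chartAt P3 sd.minf).symm_map_nhds_eq hs, eventually_map] at h1
  have h2 : ∀ᶠ q in 𝓝 (chartAt P3 sd.minf sd.minf),
      ContactAt (fun w => cai (-sd.th ((chartAt P3 sd.minf).symm w))) q := by
    filter_upwards [h1.eventually_nhds, chart_target_mem_nhds P3 sd.minf] with q k1 k2
    have k3 := hA _ (chart_mem_atlas P3 sd.minf) _ (chart_mem_atlas P3 _) _
      ⟨(chartAt P3 sd.minf).map_target k2, mem_chart_source P3 _⟩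
    rw [(chartAt P3 sd.minf).right_inv k2] at k3
    exact (cpt_neg (ct4_comp_into (sd.th_ct _ k1.self_of_nhds.2.1)
      ⟨(chartAt P3 sd.minf).continuousAt_symm k2, k3⟩)).cai
      (k1.mono fun w hw => neg_mem_S3 (sd.th_bij.1 hw.2.1).1) k1.self_of_nhds.2.2
  have h3 := image_mem_map (m := fun w => cai (-sd.th ((chartAt P3 sd.minf).symm w))) h1
  rw [map_nhds_of_contact h2, (chartAt P3 sd.minf).left_inv hs, sd.th_minf] at h3
  filter_upwards [((contDiffAt_cai (caiN_pos (neg_mem_S3 pole_mem)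
    cpt_pole).ne').continuousAt.tendsto.comp tendsto_cay.neg).eventually h3,
    tendsto_cay.neg.eventually_ne cpt_pole] with p k1 k2 hp
  obtain ⟨q, ⟨k3, k4, k5⟩, k6⟩ := k1
  have k7 := congrArg cay k6
  rw [Function.comp_apply, cay_cai (neg_mem_S3 (sd.th_bij.1 k4).1) k5,
    cay_cai (neg_mem_S3 (cay_mem p)) k2, neg_inj, ← sd.th_psi p hp] at k7
  rwa [← sd.th_bij.2.1 k4 (sd.psi_not p hp) k7]

theorem cpt_mem (sd : SD K M) (x : ℝ) {q : ℝ × ℝ} (hq : ‖q‖ ≤ sd.r' / 2) :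
    sd.ns (x, q) ∈ sd.ns '' (Icc 0 1 ×ˢ Metric.closedBall 0 (sd.r' / 2)) := by
  obtain ⟨y, hy, e⟩ := Function.Periodic.exists_mem_Ico₀ (f := fun x => sd.ns (x, q))
    (fun x => sd.ns_tube.1 (x, q)) zero_lt_one x
  exact ⟨(y, q), ⟨Ico_subset_Icc_self hy, mem_closedBall_zero_iff.2 hq⟩, e.symm⟩

theorem cpt_core (sd : SD K M) :
    IsCompact (sd.ns '' (Icc 0 1 ×ˢ Metric.closedBall 0 (sd.r' / 2))) := by
  refine (isCompact_Icc.prod (isCompact_closedBall _ _)).image_of_continuousOn fun p hp =>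
    (sd.ns_ct p (tube_mono sd.r'_pos.le sd.r'_le ?_)).1.continuousWithinAt
  have h := mem_closedBall_zero_iff.1 hp.2
  have h1 := sq_le_sq' (abs_le.1 ((norm_fst_le p.2).trans h)).1
    (abs_le.1 ((norm_fst_le p.2).trans h)).2
  have h2 := sq_le_sq' (abs_le.1 ((norm_snd_le p.2).trans h)).1
    (abs_le.1 ((norm_snd_le p.2).trans h)).2
  have h3 := pow_pos sd.r'_pos 2
  simp only [tube, mem_ofPred_eq]
  linarith

theorem cpt_near (sd : SD K M) : ∃ ρ : ℝ, 0 < ρ ∧ ρ ≤ sd.r ∧ ∀ p ∈ tube ρ, sd.nu p ∉ range K →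
    sd.psi (sd.nu p) ∈ sd.ns '' (Icc 0 1 ×ˢ Metric.closedBall 0 (sd.r' / 2)) := by
  obtain ⟨b, hb⟩ := (Function.Periodic.isBounded_of_continuous (f := sd.B) sd.B_per
    (by positivity) sd.B_sm.continuous).bddBelow
  have h0 := half_pos sd.r'_pos
  have h1 := mul_pos h0 (Real.exp_pos b)
  refine ⟨min sd.r (sd.r' / 2 * Real.exp b), lt_min sd.r_pos h1, min_le_left _ _, ?_⟩
  rintro ⟨x, y, z⟩ hp hK
  obtain ⟨R, a, k1, k2, rfl, rfl⟩ := cpt_polar y z
  have k3 : R < sd.r' / 2 * Real.exp b :=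
    lt_of_pow_lt_pow_left₀ 2 h1.le
      (k2.trans_lt (tube_mono (lt_min sd.r_pos h1).le (min_le_right _ _) hp))
  have k4 : 0 < R := k1.lt_of_ne fun e => hK ⟨x, by rw [← e, zero_mul, zero_mul, sd.nu_core]⟩
  have he := Real.exp_pos (sd.B a)
  have k5 : R / Real.exp (sd.B a) ≤ sd.r' / 2 := (div_le_iff₀ he).2
    (k3.le.trans (mul_le_mul_of_nonneg_left (Real.exp_le_exp.2 (hb ⟨a, rfl⟩)) h0.le))
  have k6 := (sd.ns_eq (x := x - sd.A a) (a := a) (div_pos k4 he)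
    (k5.trans_lt (half_lt_self sd.r'_pos))).2
  rw [sub_add_cancel, div_mul_cancel₀ _ he.ne'] at k6
  rw [← k6]
  refine cpt_mem sd _ (le_trans ?_ k5)
  simp only [Prod.norm_mk, Real.norm_eq_abs, max_le_iff, abs_mul, abs_of_pos (div_pos k4 he)]
  exact ⟨mul_le_of_le_one_right (div_pos k4 he).le (Real.abs_cos_le_one a),
    mul_le_of_le_one_right (div_pos k4 he).le (Real.abs_sin_le_one a)⟩

end

theorem SD.compactSpace {M : Type} [TopologicalSpace M] [ChartedSpace P3 M] [T2Space M]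
    (hA : IsContactAtlas M) {K : ℝ → P3} (hK : IsLeg3 K) (sd : SD K M) : CompactSpace M := by
  have _ := hK
  have := ChartedSpace.locallyCompactSpace P3 M
  obtain ⟨V, hV, hV'⟩ := exists_compact_mem_nhds sd.minf
  obtain ⟨C, hC, hC'⟩ := mem_cocompact.1 (cpt_inf hA sd hV')
  obtain ⟨ρ, h0, h1, h2⟩ := cpt_near sd
  have hO : IsOpen (sd.nu '' tube ρ) := isOpen_iff_mem_nhds.2 (by
    rintro _ ⟨p, hp, rfl⟩
    rw [← map_nhds_of_contact (mem_of_superset ((isOpen_tube ρ).mem_nhds hp)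
      fun q hq => sd.nu_ct q (tube_mono h0.le h1 hq))]
    exact image_mem_map ((isOpen_tube ρ).mem_nhds hp))
  have h3 : IsCompact (sd.psi '' (C \ sd.nu '' tube ρ)) :=
    (hC.diff hO).image_of_continuousOn fun p hp => (sd.psi_ct p fun ⟨x, e⟩ =>
      hp.2 ⟨_, loc_aux_core h0 x, (sd.nu_core x).trans e⟩).1.continuousWithinAt
  refine ⟨eq_univ_of_forall (s := _ ∪ (V ∪ _)) (fun m => ?_) ▸ (cpt_core sd).union (hV.union h3)⟩
  by_cases a1 : m ∈ range fun x : ℝ => sd.ns (x, 0, 0)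
  · obtain ⟨x, rfl⟩ := a1
    exact Or.inl (cpt_mem sd x (by simpa using (half_pos sd.r'_pos).le))
  by_cases a2 : m = sd.minf
  · exact Or.inr (Or.inl (a2 ▸ mem_of_mem_nhds hV'))
  obtain ⟨a3, a4⟩ := sd.psi_cai a1 a2
  rw [← a4]
  generalize cai (sd.th m) = p at a3
  by_cases a5 : p ∈ C
  · by_cases a6 : p ∈ sd.nu '' tube ρ
    · obtain ⟨q, hq, rfl⟩ := a6
      exact Or.inl (h2 q hq a3)
    · exact Or.inr (Or.inr ⟨p, ⟨a5, a6⟩, rfl⟩)
  · exact Or.inr (Or.inl (hC' a5 a3))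

end Pool.Agent.Lib.MP_4d7d0a_gt
end

-- part Pool.Agent.Lib.MP_4d7d0a_gt.Fin
section

/-! The assembly, with compactness of the surgered manifold. -/

set_option autoImplicit false

open Set Filter Topology
open scoped ContDiff

namespace Pool.Agent.Lib.MP_4d7d0a_gt

theorem final_cpt (hOD : ODStmt) (hK : KStmt) (hT : TGenStmt) (hC : CableStmt) (hF : FamStmt)
    (hD : DGenStmt) (hS : DSpecStmt) (hP : ProfStmt) (hU : SurgStmt) :
    ∃ (M : Type) (_ : TopologicalSpace M) (_ : ChartedSpace P3 M), T2Space M ∧ CompactSpace M ∧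
      IsContactAtlas M ∧ Tight M ∧ ∃ K : ℕ → ℝ → P4, (∀ n, IsLegKnot (K n)) ∧
        (∀ n m, n ≠ m → ¬ LegIsotopic (K n) (K m)) ∧ ∀ n, IsPlusOneSurgery (K n) M := by
  obtain ⟨T⟩ := hK hOD
  obtain ⟨e1, p1, h1⟩ := hC T
  obtain ⟨e2, p2, h2⟩ := hF
  obtain ⟨e3, p3, h3⟩ := hS
  obtain ⟨π, hπ⟩ := hP (min e1 (min e2 e3)) (by positivity)
  obtain ⟨M, tM, cM, t2, hA, ⟨fam⟩⟩ := h2 π (by grind)
  obtain ⟨p, hp, ⟨F, hF0⟩, hall⟩ := h3 π (by grind) M hA fam
  have key : ∀ n m, 1 ≤ n → n < m →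
      ¬ LegIsotopic (fun t => cay (fam.K n t)) (fun t => cay (fam.K m t)) := by
    intro n m hn hnm hi
    obtain ⟨F', hc, hna⟩ := hD M hA _ _ (fam.sd n) (fam.sd m) _ (fam.leg n) (fam.leg m)
      (fam.minf_eq n) (fam.minf_eq m) hi SL2Z F
    have h4 := hall F' (hna (hF0 n).2) m
    have h5 := hp n m hn hnm
    have h6 := (hF0 n).1
    rcases hc with hc | hc
    · have := atr_conj hc
      omega
    · have := atr_conj hc
      rw [atr_inv] at this
      omega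
  refine ⟨M, tM, cM, t2, (fam.sd 0).compactSpace hA (fam.leg 0), hA, ?_,
    fun n t => cay (fam.K (n + 1) t),
    fun n => (hU M _ (fam.leg _) (fam.sd _)).1, ?_, fun n => (hU M _ (fam.leg _) (fam.sd _)).2⟩
  · exact hT T M hA _ (fam.sd 0) (fam.leg 0) (by rw [fam.nu0]; exact h1 π (by grind))
  · intro n m hnm hi
    rcases lt_or_gt_of_ne hnm with h | h
    · exact key (n + 1) (m + 1) (by omega) (by omega) hi
    · exact key (m + 1) (n + 1) (by omega) (by omega) hi.symm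

end Pool.Agent.Lib.MP_4d7d0a_gt
end
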