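import Pool.Agent.Lib.MP_4d7d0a_gt.K1H

-- part Pool.Agent.Lib.MP_4d7d0a_gt.K1I
section

/-! All generic polygons near an embedded polygon have the same invariant. -/

set_option autoImplicit false

open Set Filter Topology

namespace Pool.Agent.Lib.MP_4d7d0a_gt

namespace K1

open PAdm (Pr dir pt_eq pt_zero pt_one cr_det tt_eq cr_param cr_pr cr_mem cr_symm pr_symm coin0
  coin dir_ne not_cr not_cr')

variable {ι : Type}

/-- the two triangles swept when the vertex `σ u` moves to `x` avoid the fixed edges -/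
def Swp (R : PG ι) (u : ι) (x : P3) : Prop :=
  ∀ g, g ≠ u → g ≠ R.σ u → ∀ t ∈ Ico (0 : ℝ) 1,
    R.pt g t ∉ Tri (R.pos u) (R.pos (R.σ u)) x ∧
      (R.pt g t ∈ Tri (R.pos (R.σ (R.σ u))) x (R.pos (R.σ u)) → R.pt g t = R.pos (R.σ (R.σ u)))

variable {P : PG ι}

theorem i_tri {A c d y : P3} (h : y ∈ Tri A c d) : ∃ s ∈ Icc (0 : ℝ) 1, ∃ r ∈ Icc (0 : ℝ) 1,
    y = AffineMap.lineMap A (AffineMap.lineMap c d s : P3) r := by
  obtain ⟨β, γ, h1, h2, h3, rfl⟩ := h
  rcases (add_nonneg h1 h2).eq_or_lt with h0 | h0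
  · have a1 : β = 0 := by linarith
    have a2 : γ = 0 := by linarith
    exact ⟨0, ⟨le_rfl, zero_le_one⟩, 0, ⟨le_rfl, zero_le_one⟩, by simp [a1, a2]⟩
  · refine ⟨γ / (β + γ), ⟨by positivity, (div_le_one h0).2 (by linarith)⟩, β + γ, ⟨h0.le, h3⟩, ?_⟩
    have e : (β + γ) * (γ / (β + γ)) = γ := mul_div_cancel₀ _ h0.ne'
    rw [PBA.lm, PBA.lm]
    calc _ = A + (β + γ) • (c - A) + ((β + γ) * (γ / (β + γ))) • (d - c) := by rw [e]; module
      _ = _ := by module

theorem i_cont {X : Type} [TopologicalSpace X] {c d : X → P3} (hc : Continuous c)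
    (hd : Continuous d) : Continuous fun z : X × ℝ => (AffineMap.lineMap (c z.1) (d z.1) z.2 : P3) := by
  simp only [PBA.lm]
  fun_prop

theorem i_dis (h : P.Emb) {e f : ι} (h1 : e ≠ f) (h2 : f ≠ P.σ e) (h3 : e ≠ P.σ f) :
    PBA.Dis (P.pos e) (P.pos (P.σ e)) (P.pos f) (P.pos (P.σ f)) :=
  ((PBA.emb_iff P).1 h).dis (fun _ _ _ _ _ hF => hF.elim) h1 h2 h3 id

theorem i_one (h : P.Emb) {u g : ι} (h1 : g ≠ u) (h2 : g ≠ P.σ u) :
    ∀ᶠ z : (ι → P3) × P3 in 𝓝 (P.pos, P.pos (P.σ u)), ∀ t ∈ Ico (0 : ℝ) 1,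
      (mv P z.1).pt g t ∉ Tri (z.1 u) (z.1 (P.σ u)) z.2 := by
  have hc := i_cont (X := (ι → P3) × P3) (c := fun z => z.1 (P.σ u)) (d := fun z => z.2)
    (by fun_prop) (by fun_prop)
  by_cases h3 : P.σ g = u
  · have key := IsCompact.eventually_forall_of_forall_eventually
      (x₀ := ((P.pos, P.pos (P.σ u)) : (ι → P3) × P3)) (K := Icc (0 : ℝ) 1) isCompact_Icc
      (P := fun z s => PBA.NF (z.1 g) (z.1 u) (AffineMap.lineMap (z.1 (P.σ u)) z.2 s : P3))
      fun s _ => PBA.NF.eventually (by fun_prop) (by fun_prop) hc (by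
        have := PBA.emb_nf h g
        rw [h3] at this
        simpa using this)
    filter_upwards [key] with z hz t ht hm
    obtain ⟨s, hs, r, hr, e⟩ := i_tri hm
    refine (hz s hs).adj ht.2 hr.1 (Eq.trans ?_ e)
    rw [← h3]; rfl
  · have key := IsCompact.eventually_forall_of_forall_eventually
      (x₀ := ((P.pos, P.pos (P.σ u)) : (ι → P3) × P3)) (K := Icc (0 : ℝ) 1) isCompact_Icc
      (P := fun z s => PBA.Dis (z.1 g) (z.1 (P.σ g)) (z.1 u)
        (AffineMap.lineMap (z.1 (P.σ u)) z.2 s : P3))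
      fun s _ => PBA.Dis.eventually (by fun_prop) (by fun_prop) (by fun_prop) hc (by
        simpa using i_dis h h1 (Ne.symm h3) h2)
    filter_upwards [key] with z hz t ht hm
    obtain ⟨s, hs, r, hr, e⟩ := i_tri hm
    exact hz s hs t (Ico_subset_Icc_self ht) r hr e

theorem i_two (h : P.Emb) {u g : ι} (h1 : g ≠ u) (h2 : g ≠ P.σ u) :
    ∀ᶠ z : (ι → P3) × P3 in 𝓝 (P.pos, P.pos (P.σ u)), ∀ t ∈ Ico (0 : ℝ) 1,
      (mv P z.1).pt g t ∈ Tri (z.1 (P.σ (P.σ u))) z.2 (z.1 (P.σ u)) →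
        (mv P z.1).pt g t = z.1 (P.σ (P.σ u)) := by
  have hc := i_cont (X := (ι → P3) × P3) (c := fun z => z.2) (d := fun z => z.1 (P.σ u))
    (by fun_prop) (by fun_prop)
  by_cases h3 : g = P.σ (P.σ u)
  · have key := IsCompact.eventually_forall_of_forall_eventually
      (x₀ := ((P.pos, P.pos (P.σ u)) : (ι → P3) × P3)) (K := Icc (0 : ℝ) 1) isCompact_Icc
      (P := fun z s => PBA.NF (AffineMap.lineMap z.2 (z.1 (P.σ u)) s : P3) (z.1 g) (z.1 (P.σ g)))
      fun s _ => PBA.NF.eventually hc (by fun_prop) (by fun_prop) (by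
        have := PBA.emb_nf h (P.σ u)
        rw [← h3] at this
        simpa using this)
    filter_upwards [key] with z hz t ht hm
    obtain ⟨s, hs, r, hr, e⟩ := i_tri hm
    rw [← h3] at e ⊢
    have e1 : (mv P z.1).pt g t = z.1 g + t • (z.1 (P.σ g) - z.1 g) := PBA.lm _ _ _
    rw [e1, PBA.lm (z.1 g)] at e
    have e2 : t = 0 := by
      by_contra h0
      have := lt_of_le_of_ne ht.1 (Ne.symm h0)
      exact (hz s hs).ne hr.1 ht.1 (by linarith [hr.1]) (add_left_cancel e).symm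
    rw [e1, e2, zero_smul, add_zero]
  · have key := IsCompact.eventually_forall_of_forall_eventually
      (x₀ := ((P.pos, P.pos (P.σ u)) : (ι → P3) × P3)) (K := Icc (0 : ℝ) 1) isCompact_Icc
      (P := fun z s => PBA.Dis (z.1 g) (z.1 (P.σ g))
        (AffineMap.lineMap z.2 (z.1 (P.σ u)) s : P3) (z.1 (P.σ (P.σ u))))
      fun s _ => PBA.Dis.eventually (by fun_prop) (by fun_prop) hc (by fun_prop) (by
        simpa using i_dis h h2 (fun e => h1 (P.σ.injective e).symm) h3)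
    filter_upwards [key] with z hz t ht hm
    obtain ⟨s, hs, r, hr, e⟩ := i_tri hm
    refine (hz s hs t (Ico_subset_Icc_self ht) (1 - r) ⟨by linarith [hr.2], by linarith [hr.1]⟩
      (e.trans ?_)).elim
    rw [AffineMap.lineMap_apply_one_sub]

theorem tri_nbhd [Fintype ι] (h : P.Emb) : ∃ ε > 0, ∀ p, dist p P.pos < ε →
    (mv P p).Emb ∧ ∀ u x, dist x (P.pos (P.σ u)) < ε → Swp (mv P p) u x := by
  have a1 : ∀ u, ∀ᶠ z : (ι → P3) × P3 in 𝓝 (P.pos, P.pos (P.σ u)), Swp (mv P z.1) u z.2 := by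
    intro u
    refine eventually_all.2 fun g => ?_
    by_cases h1 : g = u
    · exact .of_forall fun _ h => absurd h1 h
    by_cases h2 : g = P.σ u
    · exact .of_forall fun _ _ h => absurd h2 h
    filter_upwards [i_one h h1 h2, i_two h h1 h2] with z z1 z2 _ _ t ht
    exact ⟨z1 t ht, z2 t ht⟩
  have a2 : ∀ᶠ ε : ℝ in 𝓝[>] 0, ∀ u, ∀ p, dist p P.pos < ε → ∀ x, dist x (P.pos (P.σ u)) < ε →
      Swp (mv P p) u x := by
    refine eventually_all.2 fun u => ?_
    obtain ⟨δ, d0, d1⟩ := Metric.eventually_nhds_iff.1 (a1 u)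
    filter_upwards [Ioo_mem_nhdsGT d0] with ε hε p hp x hx
    refine d1 (y := (p, x)) ?_
    rw [Prod.dist_eq]
    exact max_lt (hp.trans hε.2) (hx.trans hε.2)
  obtain ⟨δ, d0, d1⟩ := Metric.eventually_nhds_iff.1 h.eventually
  obtain ⟨ε, e1, e2⟩ := (a2.and (Ioo_mem_nhdsGT d0)).exists
  exact ⟨ε, e2.1, fun p hp => ⟨d1 (hp.trans e2.2), fun u => e1 u p hp⟩⟩

theorem i_tf1 (h : P.Emb) {u : ι} {x : P3} {φ : P3 →ₗ[ℝ] ℝ}
    (f1 : φ (P.pos u - P.pos (P.σ u)) = 0) (f2 : φ (P.pos (P.σ (P.σ u)) - P.pos (P.σ u)) = 0)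
    (f3 : φ (x - P.pos (P.σ u)) ≠ 0) (hS : Swp P u x) : TF P u x := by
  intro g hg t ht hm
  by_cases h2 : g = P.σ u
  · subst h2
    obtain ⟨β, γ, h1, h2, h3, e⟩ := hm
    have e1 : P.pt (P.σ u) t = P.pos (P.σ u) + t • (P.pos (P.σ (P.σ u)) - P.pos (P.σ u)) :=
      PBA.lm _ _ _
    have e2 : (1 - β - γ) • (P.pos u - P.pos (P.σ u)) + γ • (x - P.pos (P.σ u)) =
        t • (P.pos (P.σ (P.σ u)) - P.pos (P.σ u)) := by
      rw [← add_left_cancel_iff (a := P.pos (P.σ u)), ← e1, e]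
      module
    have e3 := congrArg φ e2
    simp only [map_add, map_smul, f1, f2, smul_eq_mul, mul_zero, zero_add] at e3
    have e4 : γ = 0 := (mul_eq_zero.1 e3).resolve_right f3
    rw [e4, zero_smul, add_zero] at e2
    have e5 : t = 0 := by
      by_contra h0
      have := lt_of_le_of_ne ht.1 (Ne.symm h0)
      exact (PBA.emb_nf h u).ne (by linarith) ht.1 (by linarith) e2
    rw [e5, pt_zero]
  · exact absurd hm (hS g hg h2 t ht).1

theorem i_tf2 (h : P.Emb) {u : ι} {x : P3} {φ : P3 →ₗ[ℝ] ℝ}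
    (f1 : φ (P.pos u - P.pos (P.σ u)) = 0) (f2 : φ (P.pos (P.σ (P.σ u)) - P.pos (P.σ u)) = 0)
    (f3 : φ (x - P.pos (P.σ u)) ≠ 0) (hS : Swp P u x) :
    TF (upd P (P.σ u) x) (P.σ u) (P.pos (P.σ u)) := by
  intro g hg t ht hm
  rw [upd_s, upd_same, upd_ne P x (PBA.emb_ne1 h (P.σ u))] at hm
  rw [upd_s, upd_ne P x (PBA.emb_ne1 h (P.σ u))]
  by_cases h2 : g = u
  · subst h2
    obtain ⟨β, γ, h1, h2, h3, e⟩ := hm
    have e1 : (upd P (P.σ g) x).pt g t = P.pos g + t • (x - P.pos g) := by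
      rw [PG.pt, upd_s, upd_same, upd_ne P x hg, PBA.lm]
    have e2 : (1 - t) • (P.pos g - P.pos (P.σ g)) + (t - (1 - β - γ)) • (x - P.pos (P.σ g)) =
        β • (P.pos (P.σ (P.σ g)) - P.pos (P.σ g)) := by
      rw [e1] at e
      rw [← sub_eq_zero] at e ⊢
      rw [← e]
      module
    have e3 := congrArg φ e2
    simp only [map_add, map_smul, f1, f2, smul_eq_mul, mul_zero, zero_add] at e3
    have e4 := (mul_eq_zero.1 e3).resolve_right f3
    rw [e4, zero_smul, add_zero] at e2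
    exact ((PBA.emb_nf h g).ne (by linarith [ht.2]) h1 (by linarith [ht.2]) e2).elim
  · have hF : Fx P (P.σ u) g := ⟨hg, fun e => h2 (P.σ.injective e)⟩
    rw [upd_pt P x hF] at hm ⊢
    rw [← tri_swap] at hm
    exact (hS g h2 hg t ht).2 hm

theorem step (T : ODTheory) [Finite ι] (h : P.Gen) (u : ι) : ∃ G : Set P3, Dense G ∧
    ∀ x ∈ G, (upd P (P.σ u) x).Emb → Swp P u x →
      (upd P (P.σ u) x).Gen ∧ Eqv T P (upd P (P.σ u) x) := by
  classical
  obtain ⟨S, hS, hS'⟩ := gen_ins h u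
  obtain ⟨φ, f1, f2, f3, f4⟩ := dense_phi (P.pos (P.σ u)) (P.pos u - P.pos (P.σ u))
    (P.pos (P.σ (P.σ u)) - P.pos (P.σ u))
  refine ⟨_, (dense_off ((spt_finite P).union hS)).inter_of_isOpen_right f4 f3,
    fun x hx hE hw => ?_⟩
  have o1 : OffS (Spt P) x := OffS.mono hx.1 subset_union_left
  have o2 : OffS S x := OffS.mono hx.1 subset_union_right
  have n1 := PBA.emb_ne1 h.1 u
  have n2 := PBA.emb_ne1 h.1 (P.σ u)
  have g1 := gen_upd h (P.σ u) hE o1
  have d1 : det2 (P.pos (P.σ u) - P.pos u) (x - P.pos u) ≠ 0 :=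
    o1 _ (pos_spt P u) _ (pos_spt P (P.σ u)) fun e => n1 (gen_pos h e).symm
  have t1 := i_tf1 h.1 f1 f2 hx.2 hw
  have t2 := i_tf2 h.1 f1 f2 hx.2 hw
  have g2 := hS' x o2 (emb_tri h.1 d1 t1)
  have d2 : det2 ((upd P (P.σ u) x).pos ((upd P (P.σ u) x).σ (P.σ u)) -
      (upd P (P.σ u) x).pos (P.σ u)) (P.pos (P.σ u) - (upd P (P.σ u) x).pos (P.σ u)) ≠ 0 := by
    rw [upd_s, upd_same, upd_ne P x n2]
    have := o1 _ (pos_spt P (P.σ (P.σ u))) _ (pos_spt P (P.σ u)) fun e => n2 (gen_pos h e)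
    rwa [w_rot] at this
  have sw : ∀ g, g ≠ P.σ u → Equiv.swap (some (P.σ u)) none (some g) = some g := fun g hg =>
    Equiv.swap_apply_of_ne_of_ne (by simpa using hg) (by simp)
  have hs : ∀ a, (ins (upd P (P.σ u) x) (P.σ u) (P.pos (P.σ u))).σ
      (Equiv.swap (some (P.σ u)) none a) = Equiv.swap (some (P.σ u)) none ((ins P u x).σ a) := by
    rintro (_ | g)
    · rw [Equiv.swap_apply_right, ins_e, ins_none, Equiv.swap_apply_left]
    by_cases h1 : g = u
    · subst h1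
      rw [sw _ n1.symm, ins_ne _ _ n1.symm, ins_e, Equiv.swap_apply_right, upd_s]
    by_cases h2 : g = P.σ u
    · subst h2
      rw [Equiv.swap_apply_left, ins_none, ins_ne _ _ h1, sw _ n2, upd_s]
    · rw [sw _ h2, ins_ne _ _ h2, ins_ne _ _ h1, sw _ fun e => h1 (P.σ.injective e), upd_s]
  have hp : ∀ a, (ins (upd P (P.σ u) x) (P.σ u) (P.pos (P.σ u))).pos
      (Equiv.swap (some (P.σ u)) none a) = (ins P u x).pos a := by
    rintro (_ | g)
    · rw [Equiv.swap_apply_right, ins_pos_some, upd_same, ins_pos_none]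
    by_cases h2 : g = P.σ u
    · subst h2
      rw [Equiv.swap_apply_left, ins_pos_none, ins_pos_some]
    · rw [sw _ h2, ins_pos_some, ins_pos_some, upd_ne _ _ h2]
  exact ⟨g1, ((delta T h d1 t1 g2).trans (relab_eqv T _ hs hp g2)).trans
    (delta T g1 d2 t2 (relab_gen _ hs hp g2)).symm⟩

theorem key (T : ODTheory) [Finite ι] (h : P.Emb) : Loc T P := by
  classical
  have := Fintype.ofFinite ι
  obtain ⟨ε, e0, hε⟩ := tri_nbhd h
  refine ⟨Metric.ball P.pos ε, Metric.ball_mem_nhds _ e0, fun p hp p' hp' g g' => ?_⟩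
  obtain ⟨δ, d0, d1⟩ := Metric.eventually_nhds_iff.1 (gen_near T g')
  have main : ∀ F : Finset ι, ∃ q, dist q P.pos < ε ∧ (mv P q).Gen ∧ Eqv T (mv P p) (mv P q) ∧
      ∀ v ∈ F, dist (q v) (p' v) < δ := by
    intro F
    induction F using Finset.induction_on with
    | empty => exact ⟨p, hp, g, Eqv.refl T _, by simp⟩
    | insert v F _ ih =>
      obtain ⟨q, q1, q2, q3, q4⟩ := ih
      obtain ⟨u, rfl⟩ := P.σ.surjective v
      obtain ⟨G, hG, hG'⟩ := step T q2 u
      obtain ⟨x, ⟨x1, x2⟩, x3⟩ := hG.inter_open_nonempty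
        (Metric.ball (p' (P.σ u)) δ ∩ Metric.ball (P.pos (P.σ u)) ε)
        (Metric.isOpen_ball.inter Metric.isOpen_ball)
        ⟨p' (P.σ u), Metric.mem_ball_self d0, (dist_le_pi_dist p' P.pos _).trans_lt hp'⟩
      have r1 : dist (upd (mv P q) (P.σ u) x).pos P.pos < ε := by
        refine (dist_pi_lt_iff e0).2 fun w => ?_
        by_cases hw : w = P.σ u
        · rw [hw, upd_same]; exact x2
        · rw [upd_ne _ _ hw]; exact (dist_le_pi_dist q P.pos w).trans_lt q1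
      obtain ⟨s1, s2⟩ := hG' x x3 (hε _ r1).1 ((hε q q1).2 u x x2)
      refine ⟨_, r1, s1, q3.trans s2, fun w hw => ?_⟩
      by_cases hw' : w = P.σ u
      · rw [hw', upd_same]; exact x1
      · rw [upd_ne _ _ hw']
        exact q4 w ((Finset.mem_insert.1 hw).resolve_left hw')
  obtain ⟨q, -, -, q3, q4⟩ := main Finset.univ
  exact q3.trans (d1 (y := q) ((dist_pi_lt_iff d0).2 fun v => q4 v (Finset.mem_univ v))).2.symm

end K1

end Pool.Agent.Lib.MP_4d7d0a_gt
end

-- part Pool.Agent.Lib.MP_4d7d0a_gt.K1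
section

/-! Part K1: the invariant of embedded polygons. -/

set_option autoImplicit false

open Set Filter Topology

namespace Pool.Agent.Lib.MP_4d7d0a_gt

namespace K1

variable {ι : Type}

theorem vv_relabel (T : ODTheory) [Finite ι] {ι' : Type} (β : ι ≃ ι') (P : PG ι) (P' : PG ι')
    (q : ℤ) (hs : ∀ v, P'.σ (β v) = β (P.σ v)) (hp : ∀ v, P'.pos (β v) = P.pos v)
    (h : VV T P q) : VV T P' q := by
  have c : Continuous fun p' : ι' → P3 => fun v => p' (β v) :=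
    continuous_pi fun v => continuous_apply _
  have t : Tendsto (fun p' : ι' → P3 => fun v => p' (β v)) (𝓝 P'.pos) (𝓝 P.pos) :=
    c.tendsto' _ _ (funext hp)
  filter_upwards [t.eventually h] with p' k g
  have g' : (mv P fun v => p' (β v)).Gen :=
    relab_gen (P := mv P' p') β.symm
      (fun v => by rw [Equiv.eq_symm_apply, ← hs, Equiv.apply_symm_apply])
      (fun v => by simp) g
  exact (relab_eqv (P := mv P fun v => p' (β v)) T β (P' := mv P' p') hs (fun _ => rfl) g' q).1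
    (k g')

theorem vv_sub (T : ODTheory) [Finite ι] (P : PG ι) (e : ι) (l : ℝ) (q : ℤ) (h : P.Emb)
    (hl : l ∈ Ioo (0 : ℝ) 1) : VV T P q ↔ VV T (ins P e (P.pt e l)) q := by
  have c : Continuous fun z : (ι → P3) × ℝ => (ins (mv P z.1) e ((mv P z.1).pt e z.2)).pos := by
    refine continuous_pi fun o => ?_
    rcases o with _ | g
    · simp only [ins_pos_none, PG.pt, PBA.lm]
      fun_prop
    · simp only [ins_pos_some]
      fun_prop
  have h' := emb_sub h e hl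
  have k := (c.tendsto (P.pos, l)).eventually (vv_loc T h' (key T h') q)
  rw [nhds_prod_eq, eventually_prod_iff] at k
  obtain ⟨U, hU, I, hI, k⟩ := k
  obtain ⟨p, ⟨g, -⟩, k1, k2⟩ :=
    (h.frequently.and_eventually (hU.and (vv_loc T h (key T h) q))).exists
  obtain ⟨l', ⟨i1, i2⟩, hn⟩ := exists_l (mv P p) e (inter_mem hI (isOpen_Ioo.mem_nhds hl))
  rw [← k2, ← k k1 i1, vv_gen T g]
  exact ((subd T g.wf e (Ioo_subset_Icc_self i2) fun f _ => hn f).2 q).trans
    (vv_gen T (gen_sub g e i2 fun f _ => hn f) q).symm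

end K1

open K1 in
theorem p_holds : PStmt := fun T => ⟨{
  V := VV T
  mono := fun _ q q' hq h => h.mono fun _ k g => T.mono _ q q' hq (k g)
  gen := fun _ q h => vv_gen T h q
  fam := fun σ pos q hc hE => (vv_path T σ pos q hc hE fun s hs => key T (hE s hs)).1
  relabel := fun β P P' q _ hs hp => vv_relabel T β P P' q hs hp
  sub := fun P P' e l q h hl h1 h2 h3 h4 h5 => by
    have e1 : P'.σ = (ins P e (P.pt e l)).σ := Equiv.ext fun o => by
      rcases o with _ | g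
      · rw [h2, ins_none]
      · by_cases hg : g = e
        · rw [hg, h1, ins_e]
        · rw [h3 g hg, ins_ne _ _ hg]
    have e2 : P'.pos = (ins P e (P.pt e l)).pos := funext fun o => by
      rcases o with _ | g
      · exact h5
      · exact h4 g
    have e3 : P' = ins P e (P.pt e l) := congrArg₂ PG.mk e1 e2
    rw [e3]
    exact vv_sub T P e l q h hl }⟩

end Pool.Agent.Lib.MP_4d7d0a_gt
end
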