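import Mathlib

-- part Pool.Agent.Lib.MP_4d7d0a_gt.OEDeg
section

/-! Polynomial degree of functions on subspaces over the field with two elements, defined by
finite differences, and the filtration level `dim - 2 deg`. -/

set_option autoImplicit false

namespace Pool.Agent.Lib.MP_4d7d0a_gt.ODA

abbrev F2 : Type := ZMod 2

variable {K K' : Type} [AddCommGroup K] [Module F2 K] [AddCommGroup K'] [Module F2 K']

/-- the restriction of `f` to `W` has degree `< n` -/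
def DegLt (W : Submodule F2 K) : ℕ → (K → F2) → Prop
  | 0, f => ∀ x ∈ W, f x = 0
  | n + 1, f => ∀ w ∈ W, DegLt W n fun x => f (x + w) + f x

theorem f2_cases (t : F2) : t = 0 ∨ t = 1 := by
  revert t; decide

theorem f2_add_self (t : F2) : t + t = 0 := by
  revert t; decide

theorem k_add_self (x : K) : x + x = 0 := by
  have h : ((1 : F2) + 1) = 0 := by decide
  calc x + x = ((1 : F2) + 1) • x := by rw [add_smul, one_smul]
    _ = 0 := by rw [h, zero_smul]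

theorem DegLt.congr {W : Submodule F2 K} {n : ℕ} {f g : K → F2} (h : DegLt W n f)
    (e : ∀ x ∈ W, g x = f x) : DegLt W n g := by
  induction n generalizing f g with
  | zero => exact fun x hx => (e x hx).trans (h x hx)
  | succ n ih =>
    intro w hw
    refine ih (h w hw) fun x hx => ?_
    rw [e (x + w) (W.add_mem hx hw), e x hx]

theorem DegLt.zero (W : Submodule F2 K) (n : ℕ) : DegLt W n fun _ => 0 := by
  induction n with
  | zero => exact fun _ _ => rfl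
  | succ n ih => exact fun _ _ => ih.congr fun _ _ => add_zero _

theorem DegLt.add {W : Submodule F2 K} {n : ℕ} {f g : K → F2} (hf : DegLt W n f)
    (hg : DegLt W n g) : DegLt W n fun x => f x + g x := by
  induction n generalizing f g with
  | zero =>
    intro x hx
    change f x + g x = 0
    rw [hf x hx, hg x hx, add_zero]
  | succ n ih =>
    intro w hw
    exact (ih (hf w hw) (hg w hw)).congr fun x _ => by ring

theorem oedeg_succ {W : Submodule F2 K} {n : ℕ} {f : K → F2} (hf : DegLt W n f) :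
    DegLt W (n + 1) f := by
  induction n generalizing f with
  | zero =>
    intro w hw x hx
    change f (x + w) + f x = 0
    rw [hf x hx, hf (x + w) (W.add_mem hx hw), add_zero]
  | succ n ih => exact fun w hw => ih (hf w hw)

theorem DegLt.mono {W : Submodule F2 K} {n m : ℕ} {f : K → F2} (hf : DegLt W n f) (h : n ≤ m) :
    DegLt W m f := by
  induction h with
  | refl => exact hf
  | step _ ih => exact oedeg_succ ih

theorem DegLt.comp {W : Submodule F2 K} {W' : Submodule F2 K'} {n : ℕ} {f : K → F2}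
    (hf : DegLt W n f) (φ : K' →ₗ[F2] K) (hφ : ∀ x ∈ W', φ x ∈ W) {t : K} (ht : t ∈ W) :
    DegLt W' n fun x => f (φ x + t) := by
  induction n generalizing f with
  | zero => exact fun x hx => hf _ (W.add_mem (hφ x hx) ht)
  | succ n ih =>
    intro w hw
    refine (ih (hf (φ w) (hφ w hw))).congr fun x _ => ?_
    beta_reduce
    rw [map_add, add_right_comm]

theorem DegLt.mul {W : Submodule F2 K} {n : ℕ} {f : K → F2} (hf : DegLt W n f)
    (l : K →ₗ[F2] F2) (t : F2) : DegLt W (n + 1) fun x => (t + l x) * f x := by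
  induction n generalizing f with
  | zero =>
    intro w hw x hx
    change (t + l (x + w)) * f (x + w) + (t + l x) * f x = 0
    rw [hf x hx, hf (x + w) (W.add_mem hx hw), mul_zero, mul_zero, add_zero]
  | succ n ih =>
    intro w hw
    have h1 := ih (hf w hw)
    have h2 : DegLt W (n + 1) fun x => l w * f (x + w) := by
      rcases f2_cases (l w) with h | h
      · exact (DegLt.zero W _).congr fun x _ => by rw [h, zero_mul]
      · exact (hf.comp LinearMap.id (fun x hx => hx) hw).congr fun x _ => by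
          rw [h, one_mul]; rfl
    refine (h1.add h2).congr fun x _ => ?_
    beta_reduce
    rw [map_add]
    ring

theorem finrank_hyper [FiniteDimensional F2 K] {W W' : Submodule F2 K} (l : K →ₗ[F2] F2)
    (h : ∀ x, x ∈ W' ↔ x ∈ W ∧ l x = 0) {u : K} (hu : u ∈ W) (hl : l u = 1) :
    Module.finrank F2 W = Module.finrank F2 W' + 1 := by
  have h1 := LinearMap.finrank_range_add_finrank_ker (l.domRestrict W)
  have h2 : LinearMap.range (l.domRestrict W) = ⊤ := by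
    rw [LinearMap.range_eq_top]
    intro t
    rcases f2_cases t with rfl | rfl
    · exact ⟨0, map_zero _⟩
    · exact ⟨⟨u, hu⟩, hl⟩
  have h3 : LinearMap.ker (l.domRestrict W) = W'.comap W.subtype := by
    ext x
    rw [LinearMap.mem_ker, Submodule.mem_comap, h]
    exact ⟨fun hx => ⟨x.2, hx⟩, fun hx => hx.2⟩
  have h4 : W' ≤ W := fun x hx => ((h x).1 hx).1
  rw [h2, h3, finrank_top, Module.finrank_self,
    (Submodule.comapSubtypeEquivOfLe h4).finrank_eq] at h1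
  omega

theorem finrank_hyper_le [FiniteDimensional F2 K] {W W' : Submodule F2 K} (l : K →ₗ[F2] F2)
    (h : ∀ x ∈ W, l x = 0 → x ∈ W') :
    Module.finrank F2 W ≤ Module.finrank F2 W' + 1 := by
  by_cases hu : ∃ u ∈ W, l u = 1
  · obtain ⟨u, hu, hl⟩ := hu
    rw [finrank_hyper (W' := W ⊓ LinearMap.ker l) l (fun x => Iff.rfl) hu hl]
    have hle : W ⊓ LinearMap.ker l ≤ W' := fun x hx => h x hx.1 hx.2
    exact Nat.add_le_add_right (Submodule.finrank_mono hle) 1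
  · refine le_trans (Submodule.finrank_mono fun x hx => h x hx ?_) (Nat.le_succ _)
    exact (f2_cases (l x)).resolve_right fun h1 => hu ⟨x, hx, h1⟩

theorem finrank_le_of_inj [FiniteDimensional F2 K'] {W : Submodule F2 K} {W' : Submodule F2 K'}
    (φ : K →ₗ[F2] K') (hφ : ∀ x ∈ W, φ x ∈ W') (hi : ∀ x ∈ W, φ x = 0 → x = 0) :
    Module.finrank F2 W ≤ Module.finrank F2 W' := by
  refine LinearMap.finrank_le_finrank_of_injective (f := φ.restrict hφ) ?_
  rw [injective_iff_map_eq_zero]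
  intro x hx
  exact Subtype.ext (hi x.1 x.2 (congrArg Subtype.val hx))

theorem oedeg_split [FiniteDimensional F2 K] {W : Submodule F2 K} {n : ℕ}
    (hn : Module.finrank F2 W = n + 1) : ∃ (u : K) (l : K →ₗ[F2] F2), u ∈ W ∧ l u = 1 ∧
      Module.finrank F2 (W ⊓ LinearMap.ker l : Submodule F2 K) = n := by
  have hW : W ≠ ⊥ := fun h => by
    rw [h, finrank_bot] at hn
    omega
  obtain ⟨u, hu, hu0⟩ := Submodule.exists_mem_ne_zero_of_ne_bot hW
  have h1 : ¬ ∀ l : Module.Dual F2 K, l u = 0 := fun h =>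
    hu0 ((Module.forall_dual_apply_eq_zero_iff F2 u).1 h)
  obtain ⟨l, hl⟩ := not_forall.1 h1
  have hl1 : l u = 1 := (f2_cases _).resolve_left hl
  refine ⟨u, l, hu, hl1, ?_⟩
  have := finrank_hyper (W' := W ⊓ LinearMap.ker l) l (fun x => Iff.rfl) hu hl1
  omega

theorem degLt_top [FiniteDimensional F2 K] (W : Submodule F2 K) (f : K → F2) :
    DegLt W (Module.finrank F2 W + 1) f := by
  obtain ⟨n, hn⟩ : ∃ n, Module.finrank F2 W = n := ⟨_, rfl⟩
  rw [hn]
  induction n generalizing W f with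
  | zero =>
    intro w hw x _
    have hW : W = ⊥ := Submodule.finrank_eq_zero.1 hn
    rw [hW, Submodule.mem_bot] at hw
    change f (x + w) + f x = 0
    rw [hw, add_zero, f2_add_self]
  | succ n ih =>
    obtain ⟨u, l, hu, hl, hr⟩ := oedeg_split hn
    have hπ : ∀ x ∈ W, (LinearMap.id + l.smulRight u : K →ₗ[F2] K) x ∈ W ⊓ LinearMap.ker l := by
      intro x hx
      refine ⟨W.add_mem hx (W.smul_mem _ hu), ?_⟩
      change l (x + l x • u) = 0
      rw [map_add, map_smul, hl, smul_eq_mul, mul_one, f2_add_self]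
    have h1 := ((ih _ f hr).comp _ hπ (Submodule.zero_mem _)).mul l 1
    have h2 := ((ih _ (fun x => f (x + u)) hr).comp _ hπ (Submodule.zero_mem _)).mul l 0
    refine (h1.add h2).congr fun x _ => ?_
    change f x = (1 + l x) * f (x + l x • u + 0) + (0 + l x) * f (x + l x • u + 0 + u)
    rcases f2_cases (l x) with h | h
    · rw [h]; simp
    · rw [h, f2_add_self, one_smul, add_zero, add_assoc, k_add_self]; simp

theorem not_degLt_delta [FiniteDimensional F2 K] {W : Submodule F2 K} {f : K → F2} {x0 : K}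
    (h0 : x0 ∈ W) (h1 : f x0 = 1) (hf : ∀ x ∈ W, x ≠ x0 → f x = 0) :
    ¬ DegLt W (Module.finrank F2 W) f := by
  obtain ⟨n, hn⟩ : ∃ n, Module.finrank F2 W = n := ⟨_, rfl⟩
  rw [hn]
  induction n generalizing W f x0 with
  | zero =>
    intro h
    have := h x0 h0
    rw [h1] at this
    exact one_ne_zero this
  | succ n ih =>
    intro h
    obtain ⟨u, l, hu, hl, hr⟩ := oedeg_split hn
    have h2 := (h u hu).comp (W' := W ⊓ LinearMap.ker l) LinearMap.id (fun x hx => hx.1) h0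
    have h3 : ∀ x ∈ W ⊓ LinearMap.ker l, f (x + x0 + u) = 0 := by
      intro x hx
      refine hf _ (W.add_mem (W.add_mem hx.1 h0) hu) fun e => ?_
      have e1 := congrArg l e
      have e2 : l x = 0 := hx.2
      rw [map_add, map_add, e2, hl, zero_add, add_eq_left] at e1
      exact one_ne_zero e1
    refine ih (x0 := 0) (Submodule.zero_mem _) ?_ (fun x hx hx0 => ?_) hr h2
    · change f (0 + x0 + u) + f (0 + x0) = 1
      rw [h3 0 (Submodule.zero_mem _), zero_add, zero_add, h1]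
    · change f (x + x0 + u) + f (x + x0) = 0
      rw [h3 x hx, zero_add]
      exact hf _ (W.add_mem hx.1 h0) fun e => hx0 (add_eq_right.1 e)

/-- `dim W - 2 deg f ≥ q` -/
def Lev (W : Submodule F2 K) (f : K → F2) (q : ℤ) : Prop :=
  ∀ n : ℕ, (Module.finrank F2 W : ℤ) - q < 2 * n → DegLt W n f

theorem Lev.mono {W : Submodule F2 K} {f : K → F2} {q q' : ℤ} (h : Lev W f q) (hq : q' ≤ q) :
    Lev W f q' := by
  intro n hn
  exact h n (by omega)

theorem Lev.congr {W : Submodule F2 K} {f g : K → F2} {q : ℤ} (h : Lev W f q)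
    (e : ∀ x ∈ W, g x = f x) : Lev W g q := by
  intro n hn
  exact (h n hn).congr e

theorem Lev.zero (W : Submodule F2 K) (q : ℤ) : Lev W (fun _ => 0) q := by
  intro n _
  exact DegLt.zero W n

theorem Lev.add {W : Submodule F2 K} {f g : K → F2} {q : ℤ} (hf : Lev W f q) (hg : Lev W g q) :
    Lev W (fun x => f x + g x) q := by
  intro n hn
  exact (hf n hn).add (hg n hn)

theorem Lev.comp {W : Submodule F2 K} {W' : Submodule F2 K'} {f : K → F2} {q : ℤ}
    (hf : Lev W f q) (φ : K' →ₗ[F2] K) (hφ : ∀ x ∈ W', φ x ∈ W) {t : K} (ht : t ∈ W) (k : ℤ)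
    (hk : (Module.finrank F2 W : ℤ) + k ≤ Module.finrank F2 W') :
    Lev W' (fun x => f (φ x + t)) (q + k) := by
  intro n hn
  exact (hf n (by omega)).comp φ hφ ht

theorem Lev.mul {W : Submodule F2 K} {f : K → F2} {q : ℤ} (hf : Lev W f q) (l : K →ₗ[F2] F2)
    (t : F2) : Lev W (fun x => (t + l x) * f x) (q - 2) := by
  intro n hn
  cases n with
  | zero =>
    intro x hx
    have h0 : f x = 0 := hf 0 (by omega) x hx
    change (t + l x) * f x = 0
    rw [h0, mul_zero]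
  | succ n => exact (hf n (by omega)).mul l t

theorem Lev.diff {W : Submodule F2 K} {f : K → F2} {q : ℤ} (hf : Lev W f q) {u : K}
    (hu : u ∈ W) : Lev W (fun x => f x + f (x + u)) (q + 2) := by
  intro n hn
  exact (hf (n + 1) (by omega) u hu).congr fun x _ => add_comm _ _

/-- restrict to the common hyperplane and extend by zero -/
theorem Lev.saddle [FiniteDimensional F2 K] {U U' : Submodule F2 K} {f : K → F2} {q : ℤ}
    (hf : Lev U f q) (l : K →ₗ[F2] F2) (h : ∀ x, l x = 0 → (x ∈ U ↔ x ∈ U'))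
    (par : ∀ x ∈ U, ∀ y ∈ U', l x * l y = 0) :
    Lev U' (fun x => (1 + l x) * f x) (q - 1) := by
  by_cases hy : ∃ y ∈ U', l y = 1
  · obtain ⟨y, hy, hl⟩ := hy
    have h0 : ∀ x ∈ U, l x = 0 := fun x hx => by
      have := par x hx y hy
      rwa [hl, mul_one] at this
    have hr := finrank_hyper (W := U') (W' := U) l
      (fun x => ⟨fun hx => ⟨(h x (h0 x hx)).1 hx, h0 x hx⟩, fun hx => (h x hx.2).2 hx.1⟩) hy hl
    have hπ : ∀ x ∈ U', (LinearMap.id + l.smulRight y : K →ₗ[F2] K) x ∈ U := by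
      intro x hx
      refine (h _ ?_).2 (U'.add_mem hx (U'.smul_mem _ hy))
      change l (x + l x • y) = 0
      rw [map_add, map_smul, hl, smul_eq_mul, mul_one, f2_add_self]
    have h1 := (hf.comp _ hπ (Submodule.zero_mem _) 1 (by omega)).mul l 1
    refine (h1.mono (by omega)).congr fun x _ => ?_
    change (1 + l x) * f x = (1 + l x) * f (x + l x • y + 0)
    rcases f2_cases (l x) with e | e
    · rw [e]; simp
    · rw [e, f2_add_self, zero_mul, zero_mul]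
  · have h0 : ∀ x ∈ U', l x = 0 := fun x hx =>
      (f2_cases (l x)).resolve_right fun h1 => hy ⟨x, hx, h1⟩
    have hr := finrank_hyper_le (W := U) (W' := U') l fun x hx hl => (h x hl).1 hx
    have h1 := hf.comp (W' := U') LinearMap.id (fun x hx => (h x (h0 x hx)).2 hx)
      (Submodule.zero_mem _) (-1) (by omega)
    refine (h1.mono (by omega)).congr fun x hx => ?_
    change (1 + l x) * f x = f (x + 0)
    rw [h0 x hx, add_zero, add_zero, one_mul]

theorem lev_top [FiniteDimensional F2 K] (W : Submodule F2 K) (f : K → F2) :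
    Lev W f (-(Module.finrank F2 W : ℤ)) := by
  intro n hn
  exact (degLt_top W f).mono (by omega)

theorem Lev.le_of_delta [FiniteDimensional F2 K] {W : Submodule F2 K} {f : K → F2} {q : ℤ}
    (h : Lev W f q) {x0 : K} (h0 : x0 ∈ W) (h1 : f x0 = 1) (hf : ∀ x ∈ W, x ≠ x0 → f x = 0) :
    q ≤ -(Module.finrank F2 W : ℤ) := by
  by_contra hq
  exact not_degLt_delta h0 h1 hf (h _ (by omega))

end Pool.Agent.Lib.MP_4d7d0a_gt.ODA
end

-- part Pool.Agent.Lib.MP_4d7d0a_gt.OECube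
section

/-! Cubes of resolutions given by linear functionals: `U` is the space of colourings, `S` the set
of crossings, `a c` and `b c` cut out the 0- and the 1-resolution of `c`; a state is the set `v`
of crossings with the 1-resolution. -/

set_option autoImplicit false

open scoped Classical

noncomputable section

namespace Pool.Agent.Lib.MP_4d7d0a_gt.ODA

/-- one functional for every crossing -/
abbrev Fn (K C : Type) [AddCommGroup K] [Module F2 K] : Type := C → K →ₗ[F2] F2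

/-- chains -/
abbrev Ch (K C : Type) : Type := Finset C → K → F2

variable {K K' C C' : Type} [AddCommGroup K] [Module F2 K] [AddCommGroup K'] [Module F2 K']

/-- the colourings of the state `v` -/
def Wv (a b : Fn K C) (U : Submodule F2 K) (S v : Finset C) : Submodule F2 K where
  carrier := {x | x ∈ U ∧ ∀ c ∈ S, (c ∈ v → b c x = 0) ∧ (c ∉ v → a c x = 0)}
  add_mem' := fun {x y} hx hy => ⟨U.add_mem hx.1 hy.1, fun c hc =>
    ⟨fun h => by rw [map_add, (hx.2 c hc).1 h, (hy.2 c hc).1 h, add_zero],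
      fun h => by rw [map_add, (hx.2 c hc).2 h, (hy.2 c hc).2 h, add_zero]⟩⟩
  zero_mem' := ⟨U.zero_mem, fun c _ => ⟨fun _ => map_zero _, fun _ => map_zero _⟩⟩
  smul_mem' := fun t {x} hx => ⟨U.smul_mem t hx.1, fun c hc =>
    ⟨fun h => by rw [map_smul, (hx.2 c hc).1 h, smul_zero],
      fun h => by rw [map_smul, (hx.2 c hc).2 h, smul_zero]⟩⟩

theorem mem_Wv {a b : Fn K C} {U : Submodule F2 K} {S v : Finset C} {x : K} :
    x ∈ Wv a b U S v ↔ x ∈ U ∧ ∀ c ∈ S, (c ∈ v → b c x = 0) ∧ (c ∉ v → a c x = 0) := Iff.rfl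

/-- the differential -/
def dd (a : Fn K C) (z : Ch K C) (v : Finset C) (x : K) : F2 :=
  ∑ c ∈ v, (1 + a c x) * z (v.erase c) x

/-- weight of a crossing: `1` if positive, `-2` if negative -/
def wt (t : F2) : ℤ := if t = 0 then 1 else -2

/-- the shift `n₊ - 2 n₋` -/
def sh (a : Fn K C) (S : Finset C) (x0 : K) : ℤ := ∑ c ∈ S, wt (a c x0)

/-- the colouring is not constant at any crossing -/
def NM (a b : Fn K C) (S : Finset C) (x : K) : Prop := ∀ c ∈ S, a c x + b c x = 1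

/-- the chain has level at least `q` -/
def L (a b : Fn K C) (U : Submodule F2 K) (S : Finset C) (z : Ch K C) (q : ℤ) : Prop :=
  ∀ v ⊆ S, Lev (Wv a b U S v) (z v) (q - v.card)

/-- the class of the colouring `x0` contains a cycle of level at least `q` -/
def V (a b : Fn K C) (U : Submodule F2 K) (S : Finset C) (x0 : K) (q : ℤ) : Prop :=
  ∃ z : Ch K C, (∀ v ⊆ S, ∀ x ∈ Wv a b U S v, dd a z v x = 0) ∧
    (∀ v ⊆ S, ∀ x ∈ Wv a b U S v, NM a b S x → (z v x = 1 ↔ x = x0)) ∧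
    L a b U S z (q - sh a S x0)

/-- the symplectic pairing -/
def om (a b : Fn K C) (S : Finset C) (x y : K) : F2 := ∑ c ∈ S, (a c x * b c y + b c x * a c y)

/-- all functionals of crossings in `S` vanish on `u` -/
def Nul (a b : Fn K C) (S : Finset C) (u : K) : Prop := ∀ c ∈ S, a c u = 0 ∧ b c u = 0

section basic

variable {a b : Fn K C} {U U' : Submodule F2 K} {S v : Finset C} {y y' : Ch K C} {q : ℤ} {x u : K}

theorem Wv.of_mem (hx : x ∈ Wv a b U S v) (h : x ∈ U') : x ∈ Wv a b U' S v := ⟨h, hx.2⟩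

theorem Wv.shift (hx : x ∈ Wv a b U S v) (hu : Nul a b S u) (t : F2) (h : x + t • u ∈ U') :
    x + t • u ∈ Wv a b U' S v := by
  refine ⟨h, fun c hc => ⟨fun hv => ?_, fun hv => ?_⟩⟩
  · rw [map_add, map_smul, (hx.2 c hc).1 hv, (hu c hc).2, smul_zero, add_zero]
  · rw [map_add, map_smul, (hx.2 c hc).2 hv, (hu c hc).1, smul_zero, add_zero]

theorem Wv.shift' (hx : x ∈ Wv a b U S v) (hu : Nul a b S u) (h : x + u ∈ U') :
    x + u ∈ Wv a b U' S v := by
  have h1 := Wv.shift (U' := U') hx hu 1 (by rwa [one_smul])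
  rwa [one_smul] at h1

theorem NM.shift (hx : NM a b S x) (hu : Nul a b S u) (t : F2) : NM a b S (x + t • u) := by
  intro c hc
  rw [map_add, map_add, map_smul, map_smul, (hu c hc).1, (hu c hc).2, smul_zero, add_zero,
    add_zero]
  exact hx c hc

theorem NM.shift' (hx : NM a b S x) (hu : Nul a b S u) : NM a b S (x + u) := by
  have h1 := hx.shift hu 1
  rwa [one_smul] at h1

theorem sh_shift (hu : Nul a b S u) (t : F2) : sh a S (x + t • u) = sh a S x := by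
  refine Finset.sum_congr rfl fun c hc => ?_
  rw [map_add, map_smul, (hu c hc).1, smul_zero, add_zero]

theorem sh_shift' (hu : Nul a b S u) : sh a S (x + u) = sh a S x := by
  have h1 := sh_shift (x := x) hu 1
  rwa [one_smul] at h1

theorem om_eq_zero {U' : Submodule F2 K} {x' : K} (hx : x ∈ Wv a b U S v)
    (hx' : x' ∈ Wv a b U' S v) : om a b S x x' = 0 := by
  refine Finset.sum_eq_zero fun c hc => ?_
  by_cases hv : c ∈ v
  · rw [(hx.2 c hc).1 hv, (hx'.2 c hc).1 hv, mul_zero, zero_mul, add_zero]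
  · rw [(hx.2 c hc).2 hv, (hx'.2 c hc).2 hv, mul_zero, zero_mul, add_zero]

theorem om_insert {S' : Finset C} {c1 : C} (h1 : c1 ∉ S) (hS : ∀ c, c ∈ S' ↔ c = c1 ∨ c ∈ S)
    (x x' : K) : om a b S' x x' = (a c1 x * b c1 x' + b c1 x * a c1 x') + om a b S x x' := by
  have e : S' = insert c1 S := Finset.ext fun c => by rw [hS, Finset.mem_insert]
  rw [e]
  exact Finset.sum_insert h1

theorem om_congr {a' b' : Fn K C} {x' : K} (h : ∀ c ∈ S, a' c x = a c x ∧ b' c x = b c x)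
    (h' : ∀ c ∈ S, a' c x' = a c x' ∧ b' c x' = b c x') : om a' b' S x x' = om a b S x x' := by
  refine Finset.sum_congr rfl fun c hc => ?_
  rw [(h c hc).1, (h c hc).2, (h' c hc).1, (h' c hc).2]

theorem dd_zero : dd a (fun _ _ => 0) v x = 0 := by
  exact Finset.sum_eq_zero fun c _ => mul_zero _

theorem dd_add : dd a (fun v x => y v x + y' v x) v x = dd a y v x + dd a y' v x := by
  unfold dd
  rw [← Finset.sum_add_distrib]
  exact Finset.sum_congr rfl fun c _ => mul_add _ _ _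

theorem dd_mul (g : K → F2) : dd a (fun v x => g x * y v x) v x = g x * dd a y v x := by
  unfold dd
  rw [Finset.mul_sum]
  exact Finset.sum_congr rfl fun c _ => mul_left_comm _ _ _

theorem dd_shift (hv : v ⊆ S) (hu : Nul a b S u) (l : K → F2) :
    dd a (fun v x => y v (x + l x • u)) v x = dd a y v (x + l x • u) := by
  refine Finset.sum_congr rfl fun c hc => ?_
  rw [map_add, map_smul, (hu c (hv hc)).1, smul_zero, add_zero]

theorem dd_shift' (hv : v ⊆ S) (hu : Nul a b S u) :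
    dd a (fun v x => y v (x + u)) v x = dd a y v (x + u) := by
  refine Finset.sum_congr rfl fun c hc => ?_
  rw [map_add, (hu c (hv hc)).1, add_zero]

theorem dd_nm (hv : v ⊆ S) (hx : x ∈ Wv a b U S v) (hn : NM a b S x) : dd a y v x = 0 := by
  refine Finset.sum_eq_zero fun c hc => ?_
  have h1 := hn c (hv hc)
  rw [(hx.2 c (hv hc)).1 hc, add_zero] at h1
  rw [h1, f2_add_self, zero_mul]

theorem L.mono (h : L a b U S y q) {q' : ℤ} (hq : q' ≤ q) : L a b U S y q' := by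
  exact fun v hv => (h v hv).mono (by omega)

theorem L.congr (h : L a b U S y q) (e : ∀ v ⊆ S, ∀ x ∈ Wv a b U S v, y' v x = y v x) :
    L a b U S y' q := by
  exact fun v hv => (h v hv).congr (e v hv)

theorem L.of_iff (h : L a b U S y q) (e : ∀ x, x ∈ U' ↔ x ∈ U) : L a b U' S y q := by
  have h1 : U' = U := Submodule.ext e
  rwa [h1]

theorem L.zero (q : ℤ) : L a b U S (fun _ _ => 0) q := by
  exact fun v _ => Lev.zero _ _

theorem L.add (h : L a b U S y q) (h' : L a b U S y' q) :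
    L a b U S (fun v x => y v x + y' v x) q := by
  exact fun v hv => (h v hv).add (h' v hv)

theorem L.mul (h : L a b U S y q) (l : K →ₗ[F2] F2) (t : F2) :
    L a b U S (fun v x => (t + l x) * y v x) (q - 2) := by
  exact fun v hv => ((h v hv).mul l t).mono (by omega)

/-- the map `x ↦ x + l x • u` -/
def cubeTau (l : K →ₗ[F2] F2) (u : K) : K →ₗ[F2] K := LinearMap.id + l.smulRight u

theorem cube_tau (l : K →ₗ[F2] F2) (u x : K) : cubeTau l u x = x + l x • u := rfl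

theorem cube_mem (hu : Nul a b S u) (huU : u ∈ U) : u ∈ Wv a b U S v :=
  ⟨huU, fun c hc => ⟨fun _ => (hu c hc).2, fun _ => (hu c hc).1⟩⟩

variable [FiniteDimensional F2 K]

theorem L.shear (h : L a b U S y q) (hu : Nul a b S u) (l : K →ₗ[F2] F2) (hl : l u = 0)
    (e : ∀ x, x ∈ U' ↔ x + l x • u ∈ U) : L a b U' S (fun v x => y v (x + l x • u)) q := by
  intro v hv
  have h1 : ∀ x ∈ Wv a b U' S v, cubeTau l u x ∈ Wv a b U S v := fun x hx =>
    Wv.shift hx hu _ ((e x).1 hx.1)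
  have h2 : ∀ x, cubeTau l u (cubeTau l u x) = x := fun x => by
    rw [cube_tau l u (cubeTau l u x), cube_tau l u x, map_add, map_smul, hl, smul_zero, add_zero,
      add_assoc, k_add_self, add_zero]
  have h3 : ∀ x ∈ Wv a b U S v, cubeTau l u x ∈ Wv a b U' S v := fun x hx =>
    Wv.shift hx hu _ ((e _).2 (by
      have h4 : cubeTau l u (cubeTau l u x) ∈ U := by rw [h2]; exact hx.1
      exact h4))
  have h4 := finrank_le_of_inj (cubeTau l u) h3 fun x _ hx => by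
    rw [← h2 x, hx, map_zero]
  have h5 := (h v hv).comp (cubeTau l u) h1 (Submodule.zero_mem _) 0 (by omega)
  exact (h5.congr fun x _ => by rw [add_zero, cube_tau]).mono (by omega)

theorem L.death (h : L a b U S y q) (hu : Nul a b S u) (huU : u ∈ U) (P : K →ₗ[F2] F2)
    (e : ∀ x, x ∈ U' ↔ x ∈ U ∧ P x = 0) :
    L a b U' S (fun v x => y v x + y v (x + u)) (q + 1) := by
  intro v hv
  have h1 := (h v hv).diff (cube_mem (v := v) hu huU)
  have h2 := finrank_hyper_le (W := Wv a b U S v) (W' := Wv a b U' S v) P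
    fun x hx hP => Wv.of_mem hx ((e x).2 ⟨hx.1, hP⟩)
  have h3 := h1.comp (W' := Wv a b U' S v) LinearMap.id
    (fun x hx => Wv.of_mem hx ((e x).1 hx.1).1) (Submodule.zero_mem _) (-1) (by omega)
  exact (h3.congr fun x _ => by rw [add_zero, LinearMap.id_apply]).mono (by omega)

theorem L.birth (h : L a b U S y q) (hu : Nul a b S u) (huU : u ∈ U') (P : K →ₗ[F2] F2)
    (hP : P u = 1) (e : ∀ x, x ∈ U ↔ x ∈ U' ∧ P x = 0) :
    L a b U' S (fun v x => y v (x + P x • u)) (q + 1) := by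
  intro v hv
  have h1 : ∀ x ∈ Wv a b U' S v, cubeTau P u x ∈ Wv a b U S v := fun x hx =>
    Wv.shift hx hu _ ((e _).2 ⟨U'.add_mem hx.1 (U'.smul_mem _ huU), by
      rw [map_add, map_smul, hP, smul_eq_mul, mul_one, f2_add_self]⟩)
  have h2 := finrank_hyper (W := Wv a b U' S v) (W' := Wv a b U S v) P
    (fun x => ⟨fun hx => ⟨Wv.of_mem hx ((e x).1 hx.1).1, ((e x).1 hx.1).2⟩,
      fun hx => Wv.of_mem hx.1 ((e x).2 ⟨hx.1.1, hx.2⟩)⟩) (cube_mem hu huU) hP
  have h3 := (h v hv).comp (cubeTau P u) h1 (Submodule.zero_mem _) 1 (by omega)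
  exact (h3.congr fun x _ => by rw [add_zero, cube_tau]).mono (by omega)

theorem L.restr (h : L a b U S y q) (hu : Nul a b S u) (huU : u ∈ U) (P : K →ₗ[F2] F2)
    (e : ∀ x, x ∈ U' ↔ x ∈ U ∧ P x = 0) : L a b U' S (fun v x => y v (x + u)) (q - 1) := by
  intro v hv
  have h2 := finrank_hyper_le (W := Wv a b U S v) (W' := Wv a b U' S v) P
    fun x hx hP => Wv.of_mem hx ((e x).2 ⟨hx.1, hP⟩)
  have h3 := (h v hv).comp (W' := Wv a b U' S v) LinearMap.id
    (fun x hx => Wv.of_mem hx ((e x).1 hx.1).1) (cube_mem hu huU) (-1) (by omega)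
  exact (h3.congr fun x _ => by rw [LinearMap.id_apply]).mono (by omega)

theorem L.saddle (h : L a b U S y q) (l : K →ₗ[F2] F2) (e : ∀ x, l x = 0 → (x ∈ U ↔ x ∈ U'))
    (par : ∀ x ∈ U, ∀ x' ∈ U', om a b S x x' = l x * l x') :
    L a b U' S (fun v x => (1 + l x) * y v x) (q - 1) := by
  intro v hv
  have h1 := (h v hv).saddle (U' := Wv a b U' S v) l
    (fun x hx => ⟨fun h2 => Wv.of_mem h2 ((e x hx).1 h2.1),
      fun h2 => Wv.of_mem h2 ((e x hx).2 h2.1)⟩)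
    fun x hx x' hx' => by rw [← par x hx.1 x' hx'.1, om_eq_zero hx hx']
  exact h1.mono (by omega)

end basic

end Pool.Agent.Lib.MP_4d7d0a_gt.ODA
end
end

-- part Pool.Agent.Lib.MP_4d7d0a_gt.OESplit
section

/-! Splitting off one, two or three crossings. -/

set_option autoImplicit false

open scoped Classical

noncomputable section

namespace Pool.Agent.Lib.MP_4d7d0a_gt.ODA

variable {K C : Type} [AddCommGroup K] [Module F2 K]

/-- a good cycle written in components over one extra crossing -/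
structure G1 (a b : Fn K C) (U : Submodule F2 K) (S : Finset C) (A1 B1 : K →ₗ[F2] F2) (x0 : K)
    (q : ℤ) (z : Bool → Ch K C) : Prop where
  cyc : ∀ t1, ∀ v ⊆ S, ∀ x ∈ Wv a b U S v, cond t1 B1 A1 x = 0 →
    dd a (z t1) v x = cond t1 ((1 + A1 x) * z false v x) 0
  val : ∀ t1, ∀ v ⊆ S, ∀ x ∈ Wv a b U S v, cond t1 B1 A1 x = 0 → NM a b S x →
    A1 x + B1 x = 1 → (z t1 v x = 1 ↔ x = x0)
  lev : ∀ t1, L a b (U ⊓ LinearMap.ker (cond t1 B1 A1)) S (z t1) (q - cond t1 1 0)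

/-- a good cycle written in components over two extra crossings -/
structure G2 (a b : Fn K C) (U : Submodule F2 K) (S : Finset C) (A1 B1 A2 B2 : K →ₗ[F2] F2)
    (x0 : K) (q : ℤ) (z : Bool → Bool → Ch K C) : Prop where
  cyc : ∀ t1 t2, ∀ v ⊆ S, ∀ x ∈ Wv a b U S v, cond t1 B1 A1 x = 0 → cond t2 B2 A2 x = 0 →
    dd a (z t1 t2) v x = cond t1 ((1 + A1 x) * z false t2 v x) 0 +
      cond t2 ((1 + A2 x) * z t1 false v x) 0
  val : ∀ t1 t2, ∀ v ⊆ S, ∀ x ∈ Wv a b U S v, cond t1 B1 A1 x = 0 → cond t2 B2 A2 x = 0 →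
    NM a b S x → A1 x + B1 x = 1 → A2 x + B2 x = 1 → (z t1 t2 v x = 1 ↔ x = x0)
  lev : ∀ t1 t2, L a b (U ⊓ LinearMap.ker (cond t1 B1 A1) ⊓ LinearMap.ker (cond t2 B2 A2)) S
    (z t1 t2) (q - cond t1 1 0 - cond t2 1 0)

/-- a good cycle written in components over three extra crossings -/
structure G3 (a b : Fn K C) (U : Submodule F2 K) (S : Finset C)
    (A1 B1 A2 B2 A3 B3 : K →ₗ[F2] F2) (x0 : K) (q : ℤ) (z : Bool → Bool → Bool → Ch K C) :
    Prop where
  cyc : ∀ t1 t2 t3, ∀ v ⊆ S, ∀ x ∈ Wv a b U S v, cond t1 B1 A1 x = 0 → cond t2 B2 A2 x = 0 →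
    cond t3 B3 A3 x = 0 →
    dd a (z t1 t2 t3) v x = cond t1 ((1 + A1 x) * z false t2 t3 v x) 0 +
      cond t2 ((1 + A2 x) * z t1 false t3 v x) 0 + cond t3 ((1 + A3 x) * z t1 t2 false v x) 0
  val : ∀ t1 t2 t3, ∀ v ⊆ S, ∀ x ∈ Wv a b U S v, cond t1 B1 A1 x = 0 → cond t2 B2 A2 x = 0 →
    cond t3 B3 A3 x = 0 → NM a b S x → A1 x + B1 x = 1 → A2 x + B2 x = 1 → A3 x + B3 x = 1 →
    (z t1 t2 t3 v x = 1 ↔ x = x0)
  lev : ∀ t1 t2 t3, L a b (U ⊓ LinearMap.ker (cond t1 B1 A1) ⊓ LinearMap.ker (cond t2 B2 A2) ⊓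
    LinearMap.ker (cond t3 B3 A3)) S (z t1 t2 t3) (q - cond t1 1 0 - cond t2 1 0 - cond t3 1 0)

variable {a b : Fn K C} {U : Submodule F2 K} {S S' : Finset C} {x0 : K} {q : ℤ}

/-- insert `c` if `t` -/
def splitIns (t : Bool) (c : C) (v : Finset C) : Finset C := cond t (insert c v) v

theorem split_mem_ins {t : Bool} {c d : C} {v : Finset C} :
    d ∈ splitIns t c v ↔ (t = true ∧ d = c) ∨ d ∈ v := by
  cases t <;> simp [splitIns]

/-- generalised good chain -/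
structure SplitGG (a b : Fn K C) (U : Submodule F2 K) (S : Finset C) (r : Ch K C) (g : K → Prop)
    (x0 : K) (q : ℤ) (z : Ch K C) : Prop where
  cyc : ∀ v ⊆ S, ∀ x ∈ Wv a b U S v, dd a z v x = r v x
  val : ∀ v ⊆ S, ∀ x ∈ Wv a b U S v, NM a b S x → g x → (z v x = 1 ↔ x = x0)
  lev : L a b U S z q

theorem split_V_iff : V a b U S x0 q ↔
    ∃ z, SplitGG a b U S (fun _ _ => 0) (fun _ => True) x0 (q - sh a S x0) z := by
  constructor
  · rintro ⟨z, h1, h2, h3⟩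
    exact ⟨z, h1, fun v hv x hx hn _ => h2 v hv x hx hn, h3⟩
  · rintro ⟨z, h1, h2, h3⟩
    exact ⟨z, h1, fun v hv x hx hn => h2 v hv x hx hn trivial, h3⟩

theorem split_eq {c1 : C} (hS : ∀ c, c ∈ S' ↔ c = c1 ∨ c ∈ S) : S' = insert c1 S := by
  ext c
  rw [hS, Finset.mem_insert]

theorem split_sh {c1 : C} (h1 : c1 ∉ S) (hS : ∀ c, c ∈ S' ↔ c = c1 ∨ c ∈ S) :
    sh a S' x0 = sh a S x0 + wt (a c1 x0) := by
  rw [split_eq hS]
  unfold sh
  rw [Finset.sum_insert h1, add_comm]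

theorem split_ins_sub {c1 : C} (hS : ∀ c, c ∈ S' ↔ c = c1 ∨ c ∈ S) (t : Bool) {v : Finset C}
    (hv : v ⊆ S) : splitIns t c1 v ⊆ S' := by
  intro d hd
  rw [hS]
  rcases split_mem_ins.mp hd with h | h
  · exact Or.inl h.2
  · exact Or.inr (hv h)

theorem split_cases {c1 : C} (hS : ∀ c, c ∈ S' ↔ c = c1 ∨ c ∈ S) {w : Finset C} (hw : w ⊆ S') :
    ∃ t, ∃ v ⊆ S, w = splitIns t c1 v := by
  by_cases h : c1 ∈ w
  · refine ⟨true, w.erase c1, fun d hd => ?_, (Finset.insert_erase h).symm⟩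
    have hd' := Finset.mem_erase.mp hd
    exact ((hS d).mp (hw hd'.2)).resolve_left hd'.1
  · refine ⟨false, w, fun d hd => ?_, rfl⟩
    exact ((hS d).mp (hw hd)).resolve_left (fun e => h (e ▸ hd))

theorem split_Wv {c1 : C} (h1 : c1 ∉ S) (hS : ∀ c, c ∈ S' ↔ c = c1 ∨ c ∈ S) (t : Bool)
    {v : Finset C} (hv : v ⊆ S) :
    Wv a b U S' (splitIns t c1 v) = Wv a b (U ⊓ LinearMap.ker (cond t (b c1) (a c1))) S v := by
  ext x
  have hc : c1 ∉ v := fun h => h1 (hv h)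
  have hne : ∀ c ∈ S, (c ∈ splitIns t c1 v ↔ c ∈ v) := by
    intro c hc
    rw [split_mem_ins]
    exact ⟨fun h => h.resolve_left (fun e => h1 (e.2 ▸ hc)), Or.inr⟩
  rw [mem_Wv, mem_Wv, Submodule.mem_inf, LinearMap.mem_ker]
  constructor
  · rintro ⟨hx, h⟩
    refine ⟨⟨hx, ?_⟩, fun c hc => ?_⟩
    · have h2 := h c1 ((hS c1).mpr (Or.inl rfl))
      cases t
      · exact h2.2 hc
      · exact h2.1 (Finset.mem_insert_self _ _)
    · rw [← hne c hc]
      exact h c ((hS c).mpr (Or.inr hc))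
  · rintro ⟨⟨hx, hk⟩, h⟩
    refine ⟨hx, fun c hc' => ?_⟩
    rcases (hS c).mp hc' with e | e
    · subst e
      cases t
      · exact ⟨fun h' => absurd h' hc, fun _ => hk⟩
      · exact ⟨fun _ => hk, fun h' => absurd (Finset.mem_insert_self _ _) h'⟩
    · rw [hne c e]
      exact h c e

theorem split_card {c1 : C} (h1 : c1 ∉ S) (t : Bool) {v : Finset C} (hv : v ⊆ S) :
    ((splitIns t c1 v).card : ℤ) = v.card + cond t 1 0 := by
  have hc : c1 ∉ v := fun h => h1 (hv h)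
  cases t
  · simp [splitIns]
  · simp [splitIns, Finset.card_insert_of_notMem hc]

theorem split_NM {c1 : C} (hS : ∀ c, c ∈ S' ↔ c = c1 ∨ c ∈ S) {x : K} :
    NM a b S' x ↔ NM a b S x ∧ a c1 x + b c1 x = 1 := by
  constructor
  · intro h
    exact ⟨fun c hc => h c ((hS c).mpr (Or.inr hc)), h c1 ((hS c1).mpr (Or.inl rfl))⟩
  · rintro ⟨h, h'⟩ c hc
    rcases (hS c).mp hc with e | e
    · rw [e]; exact h'
    · exact h c e

theorem split_dd {c1 : C} (h1 : c1 ∉ S) {z : Ch K C} {Z : Bool → Ch K C}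
    (hZ : ∀ t, ∀ v ⊆ S, Z t v = z (splitIns t c1 v)) (t : Bool) {v : Finset C} (hv : v ⊆ S)
    (x : K) :
    dd a z (splitIns t c1 v) x = dd a (Z t) v x + cond t ((1 + a c1 x) * Z false v x) 0 := by
  have hc : c1 ∉ v := fun h => h1 (hv h)
  have he : ∀ c, v.erase c ⊆ S := fun c => (Finset.erase_subset c v).trans hv
  cases t
  · simp only [splitIns, cond_false, add_zero, dd]
    refine Finset.sum_congr rfl (fun c _ => ?_)
    rw [hZ false _ (he c)]
    rfl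
  · simp only [splitIns, cond_true, dd]
    rw [Finset.sum_insert hc, add_comm, Finset.erase_insert hc, hZ false v hv]
    congr 1
    refine Finset.sum_congr rfl (fun c hcv => ?_)
    rw [hZ true _ (he c), Finset.erase_insert_of_ne (fun e : c1 = c => hc (e ▸ hcv))]
    rfl

theorem split_f2 (s t r : F2) : s + t = r ↔ s = r + t := by
  revert s t r; decide

theorem split_gen {c1 : C} (h1 : c1 ∉ S) (hS : ∀ c, c ∈ S' ↔ c = c1 ∨ c ∈ S) {r : Ch K C}
    {g : K → Prop} {z : Ch K C} {Z : Bool → Ch K C}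
    (hZ : ∀ t, ∀ v ⊆ S, Z t v = z (splitIns t c1 v)) :
    SplitGG a b U S' r g x0 q z ↔ ∀ t, SplitGG a b (U ⊓ LinearMap.ker (cond t (b c1) (a c1))) S
      (fun v x => r (splitIns t c1 v) x + cond t ((1 + a c1 x) * Z false v x) 0)
      (fun x => g x ∧ a c1 x + b c1 x = 1) x0 (q - cond t 1 0) (Z t) := by
  constructor
  · rintro ⟨hc, hv', hl⟩ t
    refine ⟨fun v hv x hx => ?_, fun v hv x hx hn hg => ?_, fun v hv => ?_⟩
    · rw [← split_Wv h1 hS t hv] at hx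
      have h2 := hc _ (split_ins_sub hS t hv) x hx
      rw [split_dd h1 hZ t hv] at h2
      exact (split_f2 _ _ _).mp h2
    · rw [← split_Wv h1 hS t hv] at hx
      rw [hZ t v hv]
      exact hv' _ (split_ins_sub hS t hv) x hx ((split_NM hS).mpr ⟨hn, hg.2⟩) hg.1
    · have h2 := hl _ (split_ins_sub hS t hv)
      rw [split_Wv h1 hS t hv, split_card h1 t hv, ← hZ t v hv] at h2
      rw [sub_sub, add_comm]
      exact h2
  · intro h
    refine ⟨fun w hw x hx => ?_, fun w hw x hx hn hg => ?_, fun w hw => ?_⟩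
    · obtain ⟨t, v, hv, rfl⟩ := split_cases hS hw
      rw [split_Wv h1 hS t hv] at hx
      rw [split_dd h1 hZ t hv]
      exact (split_f2 _ _ _).mpr ((h t).cyc v hv x hx)
    · obtain ⟨t, v, hv, rfl⟩ := split_cases hS hw
      rw [split_Wv h1 hS t hv] at hx
      rw [← hZ t v hv]
      have hn' := (split_NM hS).mp hn
      exact (h t).val v hv x hx hn'.1 ⟨hg, hn'.2⟩
    · obtain ⟨t, v, hv, rfl⟩ := split_cases hS hw
      have h2 := (h t).lev v hv
      rw [split_Wv h1 hS t hv, split_card h1 t hv, ← hZ t v hv]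
      rw [sub_sub, add_comm] at h2
      exact h2

theorem split_mem_inf {v : Finset C} {l : K →ₗ[F2] F2} {x : K} :
    x ∈ Wv a b (U ⊓ LinearMap.ker l) S v ↔ x ∈ Wv a b U S v ∧ l x = 0 := by
  rw [mem_Wv, mem_Wv, Submodule.mem_inf, LinearMap.mem_ker]
  tauto

omit [AddCommGroup K] [Module F2 K] in
theorem split_glue1 {c1 : C} (h1 : c1 ∉ S) (Z : Bool → Ch K C) :
    ∃ z : Ch K C, ∀ t, ∀ v ⊆ S, Z t v = z (splitIns t c1 v) := by
  refine ⟨fun w => Z (decide (c1 ∈ w)) (w.erase c1), fun t v hv => ?_⟩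
  have hc : c1 ∉ v := fun h => h1 (hv h)
  cases t
  · simp [splitIns, hc]
  · simp [splitIns, hc]

theorem split_iff1 {c1 : C} (h1 : c1 ∉ S) (hS : ∀ c, c ∈ S' ↔ c = c1 ∨ c ∈ S) {z : Ch K C}
    {Z : Bool → Ch K C} (hZ : ∀ t, ∀ v ⊆ S, Z t v = z (splitIns t c1 v)) :
    SplitGG a b U S' (fun _ _ => 0) (fun _ => True) x0 q z ↔
      G1 a b U S (a c1) (b c1) x0 q Z := by
  rw [split_gen h1 hS hZ]
  constructor
  · intro h
    refine ⟨fun t v hv x hx k1 => ?_, fun t v hv x hx k1 hn n1 => ?_, fun t => (h t).lev⟩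
    · exact ((h t).cyc v hv x (split_mem_inf.mpr ⟨hx, k1⟩)).trans (zero_add _)
    · exact (h t).val v hv x (split_mem_inf.mpr ⟨hx, k1⟩) hn ⟨trivial, n1⟩
  · intro h t
    refine ⟨fun v hv x hx => ?_, fun v hv x hx hn hg => ?_, h.lev t⟩
    · have hx1 := split_mem_inf.mp hx
      exact (h.cyc t v hv x hx1.1 hx1.2).trans (zero_add _).symm
    · have hx1 := split_mem_inf.mp hx
      exact h.val t v hv x hx1.1 hx1.2 hn hg.2

theorem split_iff2 {c1 c2 : C} {S1 : Finset C} (h1 : c1 ∉ S1) (h2 : c2 ∉ S)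
    (hS : ∀ c, c ∈ S' ↔ c = c1 ∨ c ∈ S1) (hS1 : ∀ c, c ∈ S1 ↔ c = c2 ∨ c ∈ S) {z : Ch K C}
    {Y : Bool → Ch K C} {Z : Bool → Bool → Ch K C}
    (hY : ∀ t, ∀ v ⊆ S1, Y t v = z (splitIns t c1 v))
    (hZ : ∀ t1 t2, ∀ v ⊆ S, Z t1 t2 v = Y t1 (splitIns t2 c2 v)) :
    SplitGG a b U S' (fun _ _ => 0) (fun _ => True) x0 q z ↔
      G2 a b U S (a c1) (b c1) (a c2) (b c2) x0 q Z := by
  rw [split_gen h1 hS hY, forall_congr' (fun t1 => split_gen h2 hS1 (hZ t1))]
  constructor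
  · intro h
    refine ⟨fun t1 t2 v hv x hx k1 k2 => ?_, fun t1 t2 v hv x hx k1 k2 hn n1 n2 => ?_,
      fun t1 t2 => (h t1 t2).lev⟩
    · have e := (h t1 t2).cyc v hv x (split_mem_inf.mpr ⟨split_mem_inf.mpr ⟨hx, k1⟩, k2⟩)
      rw [e, hZ false t2 v hv, zero_add]
    · exact (h t1 t2).val v hv x (split_mem_inf.mpr ⟨split_mem_inf.mpr ⟨hx, k1⟩, k2⟩) hn
        ⟨⟨trivial, n1⟩, n2⟩
  · intro h t1 t2
    refine ⟨fun v hv x hx => ?_, fun v hv x hx hn hg => ?_, h.lev t1 t2⟩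
    · have hx2 := split_mem_inf.mp hx
      have hx1 := split_mem_inf.mp hx2.1
      rw [h.cyc t1 t2 v hv x hx1.1 hx1.2 hx2.2, hZ false t2 v hv, zero_add]
    · have hx2 := split_mem_inf.mp hx
      have hx1 := split_mem_inf.mp hx2.1
      exact h.val t1 t2 v hv x hx1.1 hx1.2 hx2.2 hn hg.1.2 hg.2

theorem split_iff3 {c1 c2 c3 : C} {S1 S2 : Finset C} (h1 : c1 ∉ S1) (h2 : c2 ∉ S2) (h3 : c3 ∉ S)
    (hS : ∀ c, c ∈ S' ↔ c = c1 ∨ c ∈ S1) (hS1 : ∀ c, c ∈ S1 ↔ c = c2 ∨ c ∈ S2)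
    (hS2 : ∀ c, c ∈ S2 ↔ c = c3 ∨ c ∈ S) {z : Ch K C}
    {X : Bool → Ch K C} {Y : Bool → Bool → Ch K C} {Z : Bool → Bool → Bool → Ch K C}
    (hX : ∀ t, ∀ v ⊆ S1, X t v = z (splitIns t c1 v))
    (hY : ∀ t1 t2, ∀ v ⊆ S2, Y t1 t2 v = X t1 (splitIns t2 c2 v))
    (hZ : ∀ t1 t2 t3, ∀ v ⊆ S, Z t1 t2 t3 v = Y t1 t2 (splitIns t3 c3 v)) :
    SplitGG a b U S' (fun _ _ => 0) (fun _ => True) x0 q z ↔
      G3 a b U S (a c1) (b c1) (a c2) (b c2) (a c3) (b c3) x0 q Z := by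
  rw [split_gen h1 hS hX, forall_congr' (fun t1 => split_gen h2 hS1 (hY t1)),
    forall_congr' (fun t1 => forall_congr' (fun t2 => split_gen h3 hS2 (hZ t1 t2)))]
  constructor
  · intro h
    refine ⟨fun t1 t2 t3 v hv x hx k1 k2 k3 => ?_,
      fun t1 t2 t3 v hv x hx k1 k2 k3 hn n1 n2 n3 => ?_, fun t1 t2 t3 => (h t1 t2 t3).lev⟩
    · have e := (h t1 t2 t3).cyc v hv x
        (split_mem_inf.mpr ⟨split_mem_inf.mpr ⟨split_mem_inf.mpr ⟨hx, k1⟩, k2⟩, k3⟩)
      rw [e, hZ false t2 t3 v hv, hZ t1 false t3 v hv,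
        hY false t2 _ (split_ins_sub hS2 t3 hv), zero_add]
    · exact (h t1 t2 t3).val v hv x
        (split_mem_inf.mpr ⟨split_mem_inf.mpr ⟨split_mem_inf.mpr ⟨hx, k1⟩, k2⟩, k3⟩) hn
        ⟨⟨⟨trivial, n1⟩, n2⟩, n3⟩
  · intro h t1 t2 t3
    refine ⟨fun v hv x hx => ?_, fun v hv x hx hn hg => ?_, h.lev t1 t2 t3⟩
    · have hx3 := split_mem_inf.mp hx
      have hx2 := split_mem_inf.mp hx3.1
      have hx1 := split_mem_inf.mp hx2.1
      rw [h.cyc t1 t2 t3 v hv x hx1.1 hx1.2 hx2.2 hx3.2, hZ false t2 t3 v hv,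
        hZ t1 false t3 v hv, hY false t2 _ (split_ins_sub hS2 t3 hv), zero_add]
    · have hx3 := split_mem_inf.mp hx
      have hx2 := split_mem_inf.mp hx3.1
      have hx1 := split_mem_inf.mp hx2.1
      exact h.val t1 t2 t3 v hv x hx1.1 hx1.2 hx2.2 hx3.2 hn hg.1.1.2 hg.1.2 hg.2

theorem V_split1 {c1 : C} (h1 : c1 ∉ S) (hS : ∀ c, c ∈ S' ↔ c = c1 ∨ c ∈ S) :
    V a b U S' x0 q ↔
      ∃ z, G1 a b U S (a c1) (b c1) x0 (q - sh a S x0 - wt (a c1 x0)) z := by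
  rw [split_V_iff, split_sh h1 hS, ← sub_sub]
  constructor
  · rintro ⟨z, hz⟩
    exact ⟨fun t v => z (splitIns t c1 v), (split_iff1 h1 hS (fun _ _ _ => rfl)).mp hz⟩
  · rintro ⟨Z, hZ⟩
    obtain ⟨z, hz⟩ := split_glue1 h1 Z
    exact ⟨z, (split_iff1 h1 hS hz).mpr hZ⟩

theorem V_split2 {c1 c2 : C} (h1 : c1 ∉ S) (h2 : c2 ∉ S) (h12 : c1 ≠ c2)
    (hS : ∀ c, c ∈ S' ↔ c = c1 ∨ c = c2 ∨ c ∈ S) :
    V a b U S' x0 q ↔ ∃ z, G2 a b U S (a c1) (b c1) (a c2) (b c2) x0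
      (q - sh a S x0 - wt (a c1 x0) - wt (a c2 x0)) z := by
  have hS1 : ∀ c, c ∈ insert c2 S ↔ c = c2 ∨ c ∈ S := fun c => Finset.mem_insert
  have hS0 : ∀ c, c ∈ S' ↔ c = c1 ∨ c ∈ insert c2 S := fun c => by rw [hS, hS1]
  have k1 : c1 ∉ insert c2 S := fun h => ((hS1 c1).mp h).elim h12 h1
  have e : q - sh a S' x0 = q - sh a S x0 - wt (a c1 x0) - wt (a c2 x0) := by
    rw [split_sh k1 hS0, split_sh h2 hS1]; ring
  rw [split_V_iff, e]
  constructor
  · rintro ⟨z, hz⟩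
    exact ⟨fun t1 t2 v => z (splitIns t1 c1 (splitIns t2 c2 v)),
      (split_iff2 (Y := fun t v => z (splitIns t c1 v)) k1 h2 hS0 hS1 (fun _ _ _ => rfl)
        (fun _ _ _ _ => rfl)).mp hz⟩
  · rintro ⟨Z, hZ⟩
    choose Y hY using fun t1 => split_glue1 h2 (Z t1)
    obtain ⟨z, hz⟩ := split_glue1 k1 Y
    exact ⟨z, (split_iff2 k1 h2 hS0 hS1 hz hY).mpr hZ⟩

theorem V_split3 {c1 c2 c3 : C} (h1 : c1 ∉ S) (h2 : c2 ∉ S) (h3 : c3 ∉ S) (h12 : c1 ≠ c2)
    (h13 : c1 ≠ c3) (h23 : c2 ≠ c3) (hS : ∀ c, c ∈ S' ↔ c = c1 ∨ c = c2 ∨ c = c3 ∨ c ∈ S) :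
    V a b U S' x0 q ↔ ∃ z, G3 a b U S (a c1) (b c1) (a c2) (b c2) (a c3) (b c3) x0
      (q - sh a S x0 - wt (a c1 x0) - wt (a c2 x0) - wt (a c3 x0)) z := by
  have hS2 : ∀ c, c ∈ insert c3 S ↔ c = c3 ∨ c ∈ S := fun c => Finset.mem_insert
  have hS1 : ∀ c, c ∈ insert c2 (insert c3 S) ↔ c = c2 ∨ c ∈ insert c3 S :=
    fun c => Finset.mem_insert
  have hS0 : ∀ c, c ∈ S' ↔ c = c1 ∨ c ∈ insert c2 (insert c3 S) := fun c => by
    rw [hS, hS1, hS2]
  have k2 : c2 ∉ insert c3 S := fun h => ((hS2 c2).mp h).elim h23 h2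
  have k1 : c1 ∉ insert c2 (insert c3 S) := fun h =>
    ((hS1 c1).mp h).elim h12 (fun h' => ((hS2 c1).mp h').elim h13 h1)
  have e : q - sh a S' x0 = q - sh a S x0 - wt (a c1 x0) - wt (a c2 x0) - wt (a c3 x0) := by
    rw [split_sh k1 hS0, split_sh k2 hS1, split_sh h3 hS2]; ring
  rw [split_V_iff, e]
  constructor
  · rintro ⟨z, hz⟩
    exact ⟨fun t1 t2 t3 v => z (splitIns t1 c1 (splitIns t2 c2 (splitIns t3 c3 v))),
      (split_iff3 (X := fun t v => z (splitIns t c1 v))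
        (Y := fun t1 t2 v => z (splitIns t1 c1 (splitIns t2 c2 v))) k1 k2 h3 hS0 hS1 hS2
        (fun _ _ _ => rfl) (fun _ _ _ _ => rfl) (fun _ _ _ _ _ => rfl)).mp hz⟩
  · rintro ⟨Z, hZ⟩
    choose Y hY using fun t1 t2 => split_glue1 h3 (Z t1 t2)
    choose X hX using fun t1 => split_glue1 k2 (Y t1)
    obtain ⟨z, hz⟩ := split_glue1 k1 X
    exact ⟨z, (split_iff3 k1 k2 h3 hS0 hS1 hS2 hz hX hY).mpr hZ⟩

end Pool.Agent.Lib.MP_4d7d0a_gt.ODA
end
end

-- part Pool.Agent.Lib.MP_4d7d0a_gt.OEMv3K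
section

/-! Third Reidemeister move for cubes: chain maps given by kernels in the values of the six
local functionals. -/

set_option autoImplicit false
set_option synthInstance.maxSize 2000

noncomputable section

namespace Pool.Agent.Lib.MP_4d7d0a_gt.ODA.M3

abbrev A6 : Type := F2 × F2 × F2 × F2 × F2 × F2

abbrev T3 : Type := Bool × Bool × Bool

/-- the state `t` is compatible with the values `w = (A1, B1, A2, B2, A3, B3)` -/
def Cp (w : A6) (t : T3) : Prop :=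
  cond t.1 w.2.1 w.1 = 0 ∧ cond t.2.1 w.2.2.2.1 w.2.2.1 = 0 ∧ cond t.2.2 w.2.2.2.2.2 w.2.2.2.2.1 = 0

instance (w : A6) (t : T3) : Decidable (Cp w t) := by unfold Cp; infer_instance

/-- matrix of the local differential -/
def md (w : A6) (r t : T3) : F2 :=
  (if t.1 = true ∧ r = (false, t.2.1, t.2.2) then 1 + w.1 else 0) +
    (if t.2.1 = true ∧ r = (t.1, false, t.2.2) then 1 + w.2.2.1 else 0) +
    if t.2.2 = true ∧ r = (t.1, t.2.1, false) then 1 + w.2.2.2.2.1 else 0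

/-- the values after the move -/
def pr (w : A6) : A6 :=
  (w.1 + (w.2.2.1 + w.2.2.2.1) + (w.2.2.2.2.1 + w.2.2.2.2.2),
    w.2.1 + (w.2.2.1 + w.2.2.2.1) + (w.2.2.2.2.1 + w.2.2.2.2.2),
    w.2.2.1 + (w.1 + w.2.1) + (w.2.2.2.2.1 + w.2.2.2.2.2),
    w.2.2.2.1 + (w.1 + w.2.1) + (w.2.2.2.2.1 + w.2.2.2.2.2),
    w.2.2.2.2.1 + (w.1 + w.2.1) + (w.2.2.1 + w.2.2.2.1),
    w.2.2.2.2.2 + (w.1 + w.2.1) + (w.2.2.1 + w.2.2.2.1))

theorem sum_md (w : A6) (t : T3) (Z : T3 → F2) : ∑ r, md w r t * Z r =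
    cond t.1 ((1 + w.1) * Z (false, t.2.1, t.2.2)) 0 +
      cond t.2.1 ((1 + w.2.2.1) * Z (t.1, false, t.2.2)) 0 +
      cond t.2.2 ((1 + w.2.2.2.2.1) * Z (t.1, t.2.1, false)) 0 := by
  obtain ⟨t1, t2, t3⟩ := t
  simp only [md, add_mul, Finset.sum_add_distrib, ite_mul, zero_mul]
  cases t1 <;> cases t2 <;> cases t3 <;> simp

variable {K C : Type} [AddCommGroup K] [Module F2 K]

/-- the values of the six functionals -/
def vl (A1 B1 A2 B2 A3 B3 : K →ₗ[F2] F2) (x : K) : A6 := (A1 x, B1 x, A2 x, B2 x, A3 x, B3 x)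

/-- the image chain -/
def img (k0 k1 : A6 → T3 → T3 → F2) (w : K → A6) (u : K) (z : Bool → Bool → Bool → Ch K C)
    (s : T3) : Ch K C := fun v x =>
  ∑ t : T3, (k0 (w x) t s * z t.1 t.2.1 t.2.2 v x + k1 (w x) t s * z t.1 t.2.1 t.2.2 v (x + u))

theorem dd_img {a b : Fn K C} {S v : Finset C} {u : K} (hv : v ⊆ S) (hu : Nul a b S u)
    (k0 k1 : A6 → T3 → T3 → F2) (w : K → A6) (z : Bool → Bool → Bool → Ch K C) (s : T3) (x : K) :
    dd a (img k0 k1 w u z s) v x = ∑ t : T3, (k0 (w x) t s * dd a (z t.1 t.2.1 t.2.2) v x +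
      k1 (w x) t s * dd a (z t.1 t.2.1 t.2.2) v (x + u)) := by
  simp only [dd, img, Finset.mul_sum]
  rw [Finset.sum_comm]
  refine Finset.sum_congr rfl fun t _ => ?_
  rw [← Finset.sum_add_distrib]
  refine Finset.sum_congr rfl fun c hc => ?_
  rw [map_add, (hu c (hv hc)).1, add_zero]
  ring

theorem G3_of_kernel {a b : Fn K C} {U : Submodule F2 K} {S : Finset C} {x0 u : K} {q : ℤ}
    {A1 B1 A2 B2 A3 B3 : K →ₗ[F2] F2} {z : Bool → Bool → Bool → Ch K C}
    (hu : Nul a b S u) (huU : u ∈ U) (uv : A6) (huv : vl A1 B1 A2 B2 A3 B3 u = uv)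
    (Qp : A6 → Prop) (hQ : ∀ x ∈ U, Qp (vl A1 B1 A2 B2 A3 B3 x)) (k0 k1 : A6 → T3 → T3 → F2)
    (t0 : T3)
    (hs0 : ∀ w t s, ¬ Cp w t → k0 w t s = 0) (hs1 : ∀ w t s, ¬ Cp (w + uv) t → k1 w t s = 0)
    (hc0 : ∀ w, Qp w → ∀ s, Cp (pr w) s → ∀ r,
      ∑ t, k0 w t s * md w r t = ∑ s0, md (pr w) s0 s * k0 w r s0)
    (hc1 : ∀ w, Qp w → ∀ s, Cp (pr w) s → ∀ r,
      ∑ t, k1 w t s * md (w + uv) r t = ∑ s0, md (pr w) s0 s * k1 w r s0)
    (hv : ∀ w, Qp w → ∀ s, Cp (pr w) s → (pr w).1 + (pr w).2.1 = 1 →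
      (pr w).2.2.1 + (pr w).2.2.2.1 = 1 → (pr w).2.2.2.2.1 + (pr w).2.2.2.2.2 = 1 →
      pr w = w ∧ (∀ r, k0 w r s = if r = s then 1 else 0) ∧
        ((∀ r, k1 w r s = 0) ∨ (Cp (w + uv) t0 ∧ ∀ r, k1 w r s = md (w + uv) r t0)))
    (h : G3 a b U S A1 B1 A2 B2 A3 B3 x0 q z)
    (hl : ∀ t1 t2 t3 : Bool, L a b (U ⊓ LinearMap.ker (cond t1 (B1 + (A2 + B2) + (A3 + B3))
      (A1 + (A2 + B2) + (A3 + B3))) ⊓ LinearMap.ker (cond t2 (B2 + (A1 + B1) + (A3 + B3))
      (A2 + (A1 + B1) + (A3 + B3))) ⊓ LinearMap.ker (cond t3 (B3 + (A1 + B1) + (A2 + B2))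
      (A3 + (A1 + B1) + (A2 + B2)))) S (img k0 k1 (vl A1 B1 A2 B2 A3 B3) u z (t1, t2, t3))
      (q - cond t1 1 0 - cond t2 1 0 - cond t3 1 0)) :
    G3 a b U S (A1 + (A2 + B2) + (A3 + B3)) (B1 + (A2 + B2) + (A3 + B3))
      (A2 + (A1 + B1) + (A3 + B3)) (B2 + (A1 + B1) + (A3 + B3))
      (A3 + (A1 + B1) + (A2 + B2)) (B3 + (A1 + B1) + (A2 + B2)) x0 q
      (fun t1 t2 t3 => img k0 k1 (vl A1 B1 A2 B2 A3 B3) u z (t1, t2, t3)) := by
  set w := vl A1 B1 A2 B2 A3 B3 with hw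
  have wadd : ∀ x, w (x + u) = w x + uv := fun x => by
    rw [← huv]; simp [hw, vl]
  have hcy : ∀ v ⊆ S, ∀ x ∈ Wv a b U S v, ∀ t : T3, Cp (w x) t →
      dd a (z t.1 t.2.1 t.2.2) v x = ∑ r, md (w x) r t * z r.1 r.2.1 r.2.2 v x := by
    intro v hv x hx t ht
    rw [sum_md]
    obtain ⟨t1, t2, t3⟩ := t
    refine h.cyc t1 t2 t3 v hv x hx ?_ ?_ ?_
    · have := ht.1; cases t1 <;> exact this
    · have := ht.2.1; cases t2 <;> exact this
    · have := ht.2.2; cases t3 <;> exact this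
  have hcp : ∀ (t1 t2 t3 : Bool) (x : K),
      cond t1 (B1 + (A2 + B2) + (A3 + B3)) (A1 + (A2 + B2) + (A3 + B3)) x = 0 →
      cond t2 (B2 + (A1 + B1) + (A3 + B3)) (A2 + (A1 + B1) + (A3 + B3)) x = 0 →
      cond t3 (B3 + (A1 + B1) + (A2 + B2)) (A3 + (A1 + B1) + (A2 + B2)) x = 0 →
      Cp (pr (w x)) (t1, t2, t3) := by
    intro t1 t2 t3 x h1 h2 h3
    refine ⟨?_, ?_, ?_⟩
    · cases t1 <;> exact h1
    · cases t2 <;> exact h2
    · cases t3 <;> exact h3
  refine ⟨?_, ?_, hl⟩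
  · intro t1 t2 t3 v hv x hx h1 h2 h3
    have hxu : x + u ∈ Wv a b U S v := Wv.shift' hx hu (U.add_mem hx.1 huU)
    have hp := hcp t1 t2 t3 x h1 h2 h3
    have e := sum_md (pr (w x)) (t1, t2, t3) fun s => img k0 k1 w u z s v x
    refine Eq.trans ?_ e
    rw [dd_img hv hu]
    have e0 : ∀ t : T3, k0 (w x) t (t1, t2, t3) * dd a (z t.1 t.2.1 t.2.2) v x =
        ∑ r, k0 (w x) t (t1, t2, t3) * md (w x) r t * z r.1 r.2.1 r.2.2 v x := by
      intro t
      by_cases ht : Cp (w x) t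
      · rw [hcy v hv x hx t ht, Finset.mul_sum]; simp only [mul_assoc]
      · simp [hs0 _ _ _ ht]
    have e1 : ∀ t : T3, k1 (w x) t (t1, t2, t3) * dd a (z t.1 t.2.1 t.2.2) v (x + u) =
        ∑ r, k1 (w x) t (t1, t2, t3) * md (w x + uv) r t * z r.1 r.2.1 r.2.2 v (x + u) := by
      intro t
      by_cases ht : Cp (w x + uv) t
      · rw [hcy v hv _ hxu t (by rwa [wadd]), Finset.mul_sum, wadd]; simp only [mul_assoc]
      · simp [hs1 _ _ _ ht]
    simp only [e0, e1, img, Finset.mul_sum, Finset.sum_add_distrib, mul_add]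
    rw [Finset.sum_comm, Finset.sum_comm (f := fun t r => k1 (w x) t (t1, t2, t3) *
      md (w x + uv) r t * z r.1 r.2.1 r.2.2 v (x + u))]
    rw [Finset.sum_comm (f := fun s0 r => md (pr (w x)) s0 (t1, t2, t3) *
      (k0 (w x) r s0 * z r.1 r.2.1 r.2.2 v x)), Finset.sum_comm (f := fun s0 r =>
      md (pr (w x)) s0 (t1, t2, t3) * (k1 (w x) r s0 * z r.1 r.2.1 r.2.2 v (x + u)))]
    simp only [← mul_assoc, ← Finset.sum_mul, hc0 _ (hQ x hx.1) _ hp, hc1 _ (hQ x hx.1) _ hp]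
  · intro t1 t2 t3 v hv' x hx h1 h2 h3 hn j1 j2 j3
    have hxu : x + u ∈ Wv a b U S v := Wv.shift' hx hu (U.add_mem hx.1 huU)
    have hp := hcp t1 t2 t3 x h1 h2 h3
    obtain ⟨e, e0, e1⟩ := hv _ (hQ x hx.1) _ hp j1 j2 j3
    have e2 : ∑ r : T3, k1 (w x) r (t1, t2, t3) * z r.1 r.2.1 r.2.2 v (x + u) = 0 := by
      rcases e1 with e1 | ⟨e1, e2⟩
      · simp [e1]
      · have := hcy v hv' _ hxu t0 (by rwa [wadd])
        rw [dd_nm hv' hxu (hn.shift' hu), wadd] at this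
        simp only [e2]
        exact this.symm
    have e3 : img k0 k1 w u z (t1, t2, t3) v x = z t1 t2 t3 v x := by
      simp only [img, Finset.sum_add_distrib, e2, e0, add_zero, ite_mul, one_mul, zero_mul]
      simp
    rw [e3]
    rw [e] at hp
    have k1' : (pr (w x)).1 + (pr (w x)).2.1 = 1 := j1
    have k2' : (pr (w x)).2.2.1 + (pr (w x)).2.2.2.1 = 1 := j2
    have k3' : (pr (w x)).2.2.2.2.1 + (pr (w x)).2.2.2.2.2 = 1 := j3
    rw [e] at k1' k2' k3'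
    refine h.val t1 t2 t3 v hv' x hx ?_ ?_ ?_ hn k1' k2' k3'
    · have := hp.1; cases t1 <;> exact this
    · have := hp.2.1; cases t2 <;> exact this
    · have := hp.2.2; cases t3 <;> exact this

end Pool.Agent.Lib.MP_4d7d0a_gt.ODA.M3
end
end

-- part Pool.Agent.Lib.MP_4d7d0a_gt.OEMv3L
section

/-! Third Reidemeister move for cubes: a certificate for the levels. -/

set_option autoImplicit false
set_option synthInstance.maxSize 2000

noncomputable section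

namespace Pool.Agent.Lib.MP_4d7d0a_gt.ODA.M3

def lin (c w : A6) : F2 := c.1 * w.1 + c.2.1 * w.2.1 + c.2.2.1 * w.2.2.1 +
  c.2.2.2.1 * w.2.2.2.1 + c.2.2.2.2.1 * w.2.2.2.2.1 + c.2.2.2.2.2 * w.2.2.2.2.2

def omv (w w' : A6) : F2 := (w.1 * w'.2.1 + w.2.1 * w'.1) +
  (w.2.2.1 * w'.2.2.2.1 + w.2.2.2.1 * w'.2.2.1) +
  (w.2.2.2.2.1 * w'.2.2.2.2.2 + w.2.2.2.2.2 * w'.2.2.2.2.1)

/-- closed under addition -/
def Cl (p : A6 → Bool) : Prop := p 0 = true ∧ ∀ w, p w = true → ∀ w', p w' = true → p (w + w') = true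

instance (p : A6 → Bool) : Decidable (Cl p) := by unfold Cl; infer_instance

/-- `p` and `p'` differ by a saddle along the functional `c` -/
def Sad (c : A6) (p p' : A6 → Bool) : Prop :=
  (∀ w, lin c w = 0 → p w = p' w ∨ (p w = false ∧ p' w = false)) ∧
    (∀ w, p w = true → p' w = true → lin c w = 0) ∧
    ∀ w, p w = true → ∀ w', p' w' = true → omv w w' = lin c w * lin c w'

instance (c : A6) (p p' : A6 → Bool) : Decidable (Sad c p p') := by unfold Sad; infer_instance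

/-- `p` is the whole of `m` (circle) or a slice of `m` -/
def Sl (uv : A6) (p m : A6 → Bool) : Prop :=
  Cl m ∧ m uv = true ∧ (∀ w, m w = (p w || p (w + uv))) ∧
    (p uv = true ∧ (∀ w, p w = m w) ∨ p uv = false ∧ ∃ c, lin c uv = 1 ∧
      ∀ w, p w = true ↔ m w = true ∧ lin c w = 0)

instance (uv : A6) (p m : A6 → Bool) : Decidable (Sl uv p m) := by unfold Sl; infer_instance

variable {K C : Type} [AddCommGroup K] [Module F2 K] [FiniteDimensional F2 K]

/-- the level on the subspace cut out by `p` -/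
def LV (a b : Fn K C) (U : Submodule F2 K) (S : Finset C) (w : K → A6) (p : A6 → Bool)
    (y : Ch K C) (q : ℤ) : Prop :=
  ∃ U' : Submodule F2 K, (∀ x, x ∈ U' ↔ x ∈ U ∧ p (w x) = true) ∧ L a b U' S y q

variable {a b : Fn K C} {U : Submodule F2 K} {S : Finset C} {u : K} {q : ℤ}
  {A1 B1 A2 B2 A3 B3 : K →ₗ[F2] F2} {y y' : Ch K C} {p p' m : A6 → Bool}

omit [FiniteDimensional F2 K] in
theorem vl_add (x x' : K) : vl A1 B1 A2 B2 A3 B3 (x + x') =
    vl A1 B1 A2 B2 A3 B3 x + vl A1 B1 A2 B2 A3 B3 x' := by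
  simp [vl]

omit [FiniteDimensional F2 K] in
theorem ex_sub (U : Submodule F2 K) (A1 B1 A2 B2 A3 B3 : K →ₗ[F2] F2) (h : Cl p) :
    ∃ U' : Submodule F2 K, ∀ x, x ∈ U' ↔ x ∈ U ∧ p (vl A1 B1 A2 B2 A3 B3 x) = true := by
  have h0 : vl A1 B1 A2 B2 A3 B3 0 = 0 := by simp [vl]
  refine ⟨⟨⟨⟨{x | x ∈ U ∧ p (vl A1 B1 A2 B2 A3 B3 x) = true}, fun hx hy => ⟨U.add_mem hx.1 hy.1, ?_⟩⟩,
    ⟨U.zero_mem, by rw [h0]; exact h.1⟩⟩, fun t x hx => ?_⟩, fun x => Iff.rfl⟩
  · rw [vl_add]; exact h.2 _ hx.2 _ hy.2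
  · rcases f2_cases t with rfl | rfl
    · rw [zero_smul]; exact ⟨U.zero_mem, by rw [h0]; exact h.1⟩
    · rwa [one_smul]

omit [FiniteDimensional F2 K] in
theorem ex_lin (A1 B1 A2 B2 A3 B3 : K →ₗ[F2] F2) (c : A6) :
    ∃ l : K →ₗ[F2] F2, ∀ x, l x = lin c (vl A1 B1 A2 B2 A3 B3 x) :=
  ⟨c.1 • A1 + c.2.1 • B1 + c.2.2.1 • A2 + c.2.2.2.1 • B2 + c.2.2.2.2.1 • A3 + c.2.2.2.2.2 • B3,
    fun x => by simp [lin, vl]⟩

omit [FiniteDimensional F2 K] in
theorem LV.congr {w : K → A6} (h : LV a b U S w p y q)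
    (e : ∀ v x, x ∈ U → p (w x) = true → y' v x = y v x) : LV a b U S w p y' q := by
  obtain ⟨U', h1, h2⟩ := h
  exact ⟨U', h1, h2.congr fun v _ x hx => e v x ((h1 x).1 hx.1).1 ((h1 x).1 hx.1).2⟩

omit [FiniteDimensional F2 K] in
theorem LV.mono {w : K → A6} {q' : ℤ} (h : LV a b U S w p y q) (hq : q' ≤ q) :
    LV a b U S w p y q' := by
  obtain ⟨U', h1, h2⟩ := h
  exact ⟨U', h1, h2.mono hq⟩

theorem LV.sad (c : A6) (hs : Sad c p p') (hc : Cl p')
    (hI : ∀ x ∈ U, ∀ x' ∈ U, om a b S x x' =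
      omv (vl A1 B1 A2 B2 A3 B3 x) (vl A1 B1 A2 B2 A3 B3 x'))
    (h : LV a b U S (vl A1 B1 A2 B2 A3 B3) p y q) : LV a b U S (vl A1 B1 A2 B2 A3 B3) p'
      (fun v x => (if p (vl A1 B1 A2 B2 A3 B3 x) = true then 1 else 0) * y v x) (q - 1) := by
  obtain ⟨U', h1, h2⟩ := h
  obtain ⟨U'', h3⟩ := ex_sub U A1 B1 A2 B2 A3 B3 hc
  obtain ⟨l, hl⟩ := ex_lin A1 B1 A2 B2 A3 B3 c
  refine LV.congr ⟨U'', h3, h2.saddle l (fun x hx => ?_) fun x hx x' hx' => ?_⟩ ?_
  · rw [h1, h3]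
    rcases hs.1 _ (hl x ▸ hx) with e | ⟨e, e'⟩
    · rw [e]
    · simp [e, e']
  · rw [hI x ((h1 x).1 hx).1 x' ((h3 x').1 hx').1, hl, hl]
    exact hs.2.2 _ ((h1 x).1 hx).2 _ ((h3 x').1 hx').2
  · intro v x _ hp
    congr 1
    rw [hl]
    split_ifs with h
    · rw [hs.2.1 _ h hp, add_zero]
    · rcases f2_cases (lin c (vl A1 B1 A2 B2 A3 B3 x)) with e | e
      · rcases hs.1 _ e with e | ⟨_, e⟩
        · exact absurd (e.trans hp) h
        · rw [e] at hp; cases hp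
      · rw [e]; rfl

theorem LV.down {uv : A6} (hu : Nul a b S u) (huU : u ∈ U)
    (huv : vl A1 B1 A2 B2 A3 B3 u = uv) (hs : Sl uv p m)
    (h : LV a b U S (vl A1 B1 A2 B2 A3 B3) p y q) : LV a b U S (vl A1 B1 A2 B2 A3 B3) m
      (fun v x => (if p (vl A1 B1 A2 B2 A3 B3 x) = true then 1 else 0) * y v x +
        (if p (vl A1 B1 A2 B2 A3 B3 x + uv) = true then 1 else 0) * y v (x + u))
      (q + 1 + (p uv).toNat) := by
  obtain ⟨U', h1, h2⟩ := h
  obtain ⟨hc, hm, hor, ⟨e, e'⟩ | ⟨e, c, hc1, e'⟩⟩ := hs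
  · obtain rfl : p = m := funext e'
    have huU' : u ∈ U' := (h1 u).2 ⟨huU, by rwa [huv]⟩
    refine LV.congr (y := fun v x => y v x + y v (x + u)) ⟨U', h1, fun v hv => ?_⟩ ?_
    · have := (h2 v hv).diff (u := u) ⟨huU', fun c hc => ⟨fun _ => (hu c hc).2, fun _ => (hu c hc).1⟩⟩
      refine this.mono ?_
      simp only [e, Bool.toNat_true]; push_cast; omega
    · intro v x _ hp
      simp [hp, hc.2 _ hp _ hm]
  · obtain ⟨U'', h3⟩ := ex_sub U A1 B1 A2 B2 A3 B3 hc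
    obtain ⟨l, hl⟩ := ex_lin A1 B1 A2 B2 A3 B3 c
    have hlu : l u = 1 := by rw [hl, huv, hc1]
    refine LV.congr (LV.mono ⟨U'', h3, h2.birth hu ((h3 u).2 ⟨huU, by rwa [huv]⟩) l hlu
      fun x => ?_⟩ ?_) ?_
    · rw [h1, h3, e', hl, and_assoc]
    · simp [e]
    · intro v x _ hp
      have h4 := hc.2 _ hp _ hm
      have h5 : lin c (vl A1 B1 A2 B2 A3 B3 x + uv) = l x + 1 := by
        rw [← huv, ← vl_add, ← hl, map_add, hlu]
      simp only [e', hp, h4, h5, ← hl, true_and]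
      rcases f2_cases (l x) with e | e
      · simp [e]
      · simp [e, f2_add_self]

theorem LV.up {uv : A6} (hp : Cl p) (hs : Sl uv p m)
    (h : LV a b U S (vl A1 B1 A2 B2 A3 B3) m y q) :
    LV a b U S (vl A1 B1 A2 B2 A3 B3) p y (q - 1 + (p uv).toNat) := by
  obtain ⟨U', h1, h2⟩ := h
  obtain ⟨-, -, -, ⟨e, e'⟩ | ⟨e, c, -, e'⟩⟩ := hs
  · obtain rfl : p = m := funext e'
    exact LV.mono ⟨U', h1, h2⟩ (by simp [e])
  · obtain ⟨U'', h3⟩ := ex_sub U A1 B1 A2 B2 A3 B3 hp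
    obtain ⟨l, hl⟩ := ex_lin A1 B1 A2 B2 A3 B3 c
    refine ⟨U'', h3, fun v hv => ?_⟩
    have h4 := finrank_hyper_le (W := Wv a b U' S v) (W' := Wv a b U'' S v) l fun x hx h0 =>
      Wv.of_mem hx ((h3 x).2 ⟨((h1 x).1 hx.1).1, (e' _).2 ⟨((h1 x).1 hx.1).2, hl x ▸ h0⟩⟩)
    have := (h2 v hv).comp (W' := Wv a b U'' S v) LinearMap.id (fun x hx => Wv.of_mem hx
      ((h1 x).2 ⟨((h3 x).1 hx.1).1, ((e' _).1 ((h3 x).1 hx.1).2).1⟩)) (Submodule.zero_mem _) (-1)
      (by omega)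
    refine (this.congr fun x _ => by simp).mono ?_
    simp only [e, Bool.toNat_false]; push_cast; omega

omit [FiniteDimensional F2 K] in
theorem L_sum {I : Type} (s : Finset I) (f : I → Ch K C) (h : ∀ i ∈ s, L a b U S (f i) q) :
    L a b U S (fun v x => ∑ i ∈ s, f i v x) q := by
  classical
  induction s using Finset.induction_on with
  | empty => simpa using L.zero q
  | insert i s hi ih =>
    simp only [Finset.sum_insert hi]
    exact (h i (Finset.mem_insert_self _ _)).add (ih fun j hj => h j (Finset.mem_insert_of_mem hj))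

def wt3 (t : T3) : ℤ := cond t.1 1 0 + cond t.2.1 1 0 + cond t.2.2 1 0

def pb (Qb : A6 → Bool) (t : T3) (w : A6) : Bool := decide (Cp w t) && Qb w

def pb' (Qb : A6 → Bool) (t : T3) (w : A6) : Bool := decide (Cp (pr w) t) && Qb w

def sat (uv : A6) (p : A6 → Bool) (w : A6) : Bool := p w || p (w + uv)

def Cert (uv : A6) (Qb nb : A6 → Bool) (κ : A6 → T3 → T3 → F2) : Prop :=
  Cl nb ∧ (∀ t, Sl uv (pb Qb t) (sat uv (pb Qb t))) ∧
    (∀ t, Cl (pb' Qb t) ∧ Sl uv (pb' Qb t) (sat uv (pb' Qb t))) ∧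
    ∀ t s, (∀ w, κ w t s = 0) ∨
      (wt3 t - wt3 s ≤ (pb Qb t uv).toNat + (pb' Qb s uv).toNat ∧
        (∀ w, sat uv (pb Qb t) w = sat uv (pb' Qb s) w) ∧
        ∀ w, sat uv (pb' Qb s) w = true → κ w t s = 1) ∨
      (wt3 t - wt3 s + 1 ≤ (pb Qb t uv).toNat + (pb' Qb s uv).toNat ∧
        (∀ w, sat uv (pb Qb t) w = true → sat uv (pb' Qb s) w = true → κ w t s = 1) ∧
        ∃ c, Sad c (sat uv (pb Qb t)) (sat uv (pb' Qb s))) ∨
      (wt3 t - wt3 s + 2 ≤ (pb Qb t uv).toNat + (pb' Qb s uv).toNat ∧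
        (∀ w, κ w t s = if nb w = true then 1 else 0) ∧
        (∃ c, Sad c (sat uv (pb Qb t)) nb) ∧ ∃ c, Sad c nb (sat uv (pb' Qb s)))

instance (uv : A6) (Qb nb : A6 → Bool) (κ : A6 → T3 → T3 → F2) : Decidable (Cert uv Qb nb κ) := by
  unfold Cert; infer_instance

def kz0 (Qb : A6 → Bool) (κ : A6 → T3 → T3 → F2) (w : A6) (t s : T3) : F2 :=
  κ w t s * if pb Qb t w = true then 1 else 0

def kz1 (uv : A6) (Qb : A6 → Bool) (κ : A6 → T3 → T3 → F2) (w : A6) (t s : T3) : F2 :=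
  κ w t s * if pb Qb t (w + uv) = true then 1 else 0

theorem lev_of_cert {x0 : K} {z : Bool → Bool → Bool → Ch K C} {uv : A6} {Qb nb : A6 → Bool}
    {κ : A6 → T3 → T3 → F2} (hu : Nul a b S u) (huU : u ∈ U)
    (huv : vl A1 B1 A2 B2 A3 B3 u = uv) (hQ : ∀ x ∈ U, Qb (vl A1 B1 A2 B2 A3 B3 x) = true)
    (hI : ∀ x ∈ U, ∀ x' ∈ U, om a b S x x' =
      omv (vl A1 B1 A2 B2 A3 B3 x) (vl A1 B1 A2 B2 A3 B3 x'))
    (hc : Cert uv Qb nb κ) (h : G3 a b U S A1 B1 A2 B2 A3 B3 x0 q z) (t1 t2 t3 : Bool) :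
    L a b (U ⊓ LinearMap.ker (cond t1 (B1 + (A2 + B2) + (A3 + B3))
      (A1 + (A2 + B2) + (A3 + B3))) ⊓ LinearMap.ker (cond t2 (B2 + (A1 + B1) + (A3 + B3))
      (A2 + (A1 + B1) + (A3 + B3))) ⊓ LinearMap.ker (cond t3 (B3 + (A1 + B1) + (A2 + B2))
      (A3 + (A1 + B1) + (A2 + B2)))) S
      (img (kz0 Qb κ) (kz1 uv Qb κ) (vl A1 B1 A2 B2 A3 B3) u z (t1, t2, t3))
      (q - cond t1 1 0 - cond t2 1 0 - cond t3 1 0) := by
  obtain ⟨hN, hS, hS', hK⟩ := hc
  refine L_sum _ _ fun t _ => ?_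
  set s : T3 := (t1, t2, t3) with hs
  have key : LV a b U S (vl A1 B1 A2 B2 A3 B3) (pb' Qb s) (fun v x =>
      kz0 Qb κ (vl A1 B1 A2 B2 A3 B3 x) t s * z t.1 t.2.1 t.2.2 v x +
      kz1 uv Qb κ (vl A1 B1 A2 B2 A3 B3 x) t s * z t.1 t.2.1 t.2.2 v (x + u)) (q - wt3 s) := by
    have h0 : LV a b U S (vl A1 B1 A2 B2 A3 B3) (pb Qb t) (z t.1 t.2.1 t.2.2) (q - wt3 t) := by
      obtain ⟨r1, r2, r3⟩ := t
      refine ⟨_, fun x => ?_, (h.lev r1 r2 r3).mono (by simp only [wt3]; omega)⟩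
      simp only [Submodule.mem_inf, LinearMap.mem_ker, pb, Bool.and_eq_true, decide_eq_true_eq]
      have : Cp (vl A1 B1 A2 B2 A3 B3 x) (r1, r2, r3) ↔
          cond r1 B1 A1 x = 0 ∧ cond r2 B2 A2 x = 0 ∧ cond r3 B3 A3 x = 0 := by
        cases r1 <;> cases r2 <;> cases r3 <;> rfl
      rw [this]
      exact ⟨fun h => ⟨h.1.1.1, ⟨h.1.1.2, h.1.2, h.2⟩, hQ x h.1.1.1⟩,
        fun h => ⟨⟨⟨h.1, h.2.1.1⟩, h.2.1.2.1⟩, h.2.1.2.2⟩⟩
    have h1 := h0.down hu huU huv (hS t)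
    have hsat : ∀ w, pb' Qb s w = true → sat uv (pb' Qb s) w = true := fun w h => by
      simp [sat, h]
    rcases hK t s with e | ⟨e, e1, e2⟩ | ⟨e, e1, c, e2⟩ | ⟨e, e1, ⟨c, e2⟩, c', e3⟩
    · obtain ⟨U', h3⟩ := ex_sub U A1 B1 A2 B2 A3 B3 (hS' s).1
      exact LV.congr ⟨U', h3, L.zero _⟩ fun v x _ _ => by simp [kz0, kz1, e]
    · rw [show sat uv (pb Qb t) = sat uv (pb' Qb s) from funext e1] at h1
      refine ((h1.up (hS' s).1 (hS' s).2).mono (by omega)).congr fun v x _ hp => ?_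
      simp [kz0, kz1, e2 _ (hsat _ hp)]
    · refine (((h1.sad c e2 (hS' s).2.1 hI).up (hS' s).1 (hS' s).2).mono (by omega)).congr
        fun v x _ hp => ?_
      by_cases h5 : sat uv (pb Qb t) (vl A1 B1 A2 B2 A3 B3 x) = true
      · simp [kz0, kz1, e1 _ h5 (hsat _ hp), h5]
      · have h6 := h5
        simp only [sat, Bool.or_eq_true, not_or] at h6
        simp [kz0, kz1, h6.1, h6.2]
    · refine ((((h1.sad c e2 hN hI).sad c' e3 (hS' s).2.1 hI).up (hS' s).1 (hS' s).2).mono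
        (by omega)).congr fun v x _ _ => ?_
      by_cases h5 : sat uv (pb Qb t) (vl A1 B1 A2 B2 A3 B3 x) = true
      · simp only [kz0, kz1, e1, h5, if_true, one_mul, mul_add, mul_assoc]
      · have h6 := h5
        simp only [sat, Bool.or_eq_true, not_or] at h6
        simp [kz0, kz1, h6.1, h6.2]
  obtain ⟨U', h3, h4⟩ := key
  refine (h4.of_iff fun x => ?_).mono (by simp only [wt3, hs]; omega)
  rw [h3]
  simp only [Submodule.mem_inf, LinearMap.mem_ker, pb', Bool.and_eq_true, decide_eq_true_eq]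
  have : Cp (pr (vl A1 B1 A2 B2 A3 B3 x)) s ↔
      cond t1 (B1 + (A2 + B2) + (A3 + B3)) (A1 + (A2 + B2) + (A3 + B3)) x = 0 ∧
      cond t2 (B2 + (A1 + B1) + (A3 + B3)) (A2 + (A1 + B1) + (A3 + B3)) x = 0 ∧
      cond t3 (B3 + (A1 + B1) + (A2 + B2)) (A3 + (A1 + B1) + (A2 + B2)) x = 0 := by
    cases t1 <;> cases t2 <;> cases t3 <;> rfl
  rw [this]
  exact ⟨fun h => ⟨h.1.1.1, ⟨h.1.1.2, h.1.2, h.2⟩, hQ x h.1.1.1⟩,
    fun h => ⟨⟨⟨h.1, h.2.1.1⟩, h.2.1.2.1⟩, h.2.1.2.2⟩⟩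

end Pool.Agent.Lib.MP_4d7d0a_gt.ODA.M3
end
end
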