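import Pool.Agent.Lib.MP_4d7d0a_gt.TB1

-- part Pool.Agent.Lib.MP_4d7d0a_gt.IfP
section

/-! Interface of the polygon layer. -/

set_option autoImplicit false

open Set Filter Topology

namespace Pool.Agent.Lib.MP_4d7d0a_gt

/-- a closed polygonal link: the edge `e` is the segment from `pos e` to `pos (σ e)` -/
structure PG (ι : Type) where
  σ : Equiv.Perm ι
  pos : ι → P3

namespace PG

variable {ι : Type}

/-- the point with parameter `u` on the edge `e` -/
noncomputable def pt (P : PG ι) (e : ι) (u : ℝ) : P3 :=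
  AffineMap.lineMap (P.pos e) (P.pos (P.σ e)) u

/-- embedded: distinct half-open edges are disjoint and no edge is degenerate -/
def Emb (P : PG ι) : Prop :=
  ∀ e f, ∀ u ∈ Ico (0 : ℝ) 1, ∀ u' ∈ Ico (0 : ℝ) 1, P.pt e u = P.pt f u' → e = f ∧ u = u'

/-- the edges cross in the projection -/
def Cr (P : PG ι) (e f : ι) : Prop := Cross (P.pos e) (P.pos (P.σ e)) (P.pos f) (P.pos (P.σ f))

/-- the crossing parameter on `e` -/
noncomputable def tt (P : PG ι) (e f : ι) : ℝ :=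
  crT (P.pos e) (P.pos (P.σ e)) (P.pos f) (P.pos (P.σ f))

/-- generic projection: the only coincidences are transverse double points in the interior of
two edges -/
def Gen (P : PG ι) : Prop :=
  P.Emb ∧ (∀ e f, ∀ u ∈ Ico (0 : ℝ) 1, ∀ u' ∈ Ico (0 : ℝ) 1, (P.pt e u).1 = (P.pt f u').1 →
    (P.pt e u).2.2 = (P.pt f u').2.2 → (e = f ∧ u = u') ∨ P.Cr e f) ∧
    ∀ e f g, P.Cr e f → P.Cr e g → P.tt e f = P.tt e g → f = g

/-- the ordered diagram -/
noncomputable def od (P : PG ι) : OD ι where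
  σ := P.σ
  X := P.Cr
  t := P.tt
  sg e f := Over (P.pos e) (P.pos (P.σ e)) (P.pos f) (P.pos (P.σ f)) ↔
    0 < det2 (P.pos (P.σ e) - P.pos e) (P.pos (P.σ f) - P.pos f)

end PG

/-- the invariant of embedded polygons -/
structure PTheory (T : ODTheory) where
  V : ∀ {ι : Type}, PG ι → ℤ → Prop
  mono : ∀ {ι : Type} [Finite ι] (P : PG ι) (q q' : ℤ), q' ≤ q → V P q → V P q'
  gen : ∀ {ι : Type} [Finite ι] (P : PG ι) (q : ℤ), P.Gen → (V P q ↔ T.V P.od q)
  fam : ∀ {ι : Type} [Finite ι] (σ : Equiv.Perm ι) (pos : ℝ → ι → P3) (q : ℤ),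
    (∀ v, ContinuousOn (fun s => pos s v) (Icc 0 1)) →
    (∀ s ∈ Icc (0 : ℝ) 1, (⟨σ, pos s⟩ : PG ι).Emb) →
    V (⟨σ, pos 0⟩ : PG ι) q → V (⟨σ, pos 1⟩ : PG ι) q
  relabel : ∀ {ι ι' : Type} [Finite ι] (β : ι ≃ ι') (P : PG ι) (P' : PG ι') (q : ℤ), P.Emb →
    (∀ v, P'.σ (β v) = β (P.σ v)) → (∀ v, P'.pos (β v) = P.pos v) → V P q → V P' q
  sub : ∀ {ι : Type} [Finite ι] (P : PG ι) (P' : PG (Option ι)) (e : ι) (l : ℝ) (q : ℤ), P.Emb →
    l ∈ Ioo (0 : ℝ) 1 → P'.σ (some e) = none → P'.σ none = some (P.σ e) →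
    (∀ g, g ≠ e → P'.σ (some g) = some (P.σ g)) → (∀ g, P'.pos (some g) = P.pos g) →
    P'.pos none = P.pt e l → (V P q ↔ V P' q)

/-- Part K1 -/
def PStmt : Prop := ∀ T : ODTheory, Nonempty (PTheory T)

/-- Part K2 -/
def K2Stmt : Prop := ∀ T : ODTheory, PTheory T → Nonempty KTheory

theorem kStmt_of (h1 : PStmt) (h2 : K2Stmt) : KStmt := fun ⟨T⟩ => (h1 T).elim (h2 T)

end Pool.Agent.Lib.MP_4d7d0a_gt
end

-- part Pool.Agent.Lib.MP_4d7d0a_gt.PBaseA
section

/-! Basic facts on polygons: openness and density of generic polygons. -/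

set_option autoImplicit false

open Set Filter Topology

namespace Pool.Agent.Lib.MP_4d7d0a_gt

namespace PBA

section General

variable {E : Type} [NormedAddCommGroup E] [NormedSpace ℝ E]

/-- the consecutive segments `ab`, `bc` are nondegenerate and do not fold back -/
def NF (a b c : E) : Prop := ∀ α ∈ Icc (0 : ℝ) 1, α • (a - b) ≠ (1 - α) • (c - b)

/-- the closed segments are disjoint -/
def Dis (a b c d : E) : Prop :=
  ∀ s ∈ Icc (0 : ℝ) 1, ∀ t ∈ Icc (0 : ℝ) 1,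
    (AffineMap.lineMap a b s : E) ≠ AffineMap.lineMap c d t

/-- half-open edges meet only for pairs in `R` -/
def QQ {ι : Type} (σ : Equiv.Perm ι) (q : ι → E) (R : ι → ι → Prop) : Prop :=
  ∀ e f, ∀ u ∈ Ico (0 : ℝ) 1, ∀ u' ∈ Ico (0 : ℝ) 1,
    (AffineMap.lineMap (q e) (q (σ e)) u : E) = AffineMap.lineMap (q f) (q (σ f)) u' →
      (e = f ∧ u = u') ∨ R e f

theorem lm (a b : E) (u : ℝ) : (AffineMap.lineMap a b u : E) = a + u • (b - a) := by
  rw [AffineMap.lineMap_apply_module']; abel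

theorem NF.ne {a b c : E} (h : NF a b c) {p q : ℝ} (hp : 0 ≤ p) (hq : 0 ≤ q) (hpq : 0 < p + q) :
    p • (a - b) ≠ q • (c - b) := by
  intro he
  apply h (p / (p + q)) ⟨by positivity, by rw [div_le_one hpq]; linarith⟩
  have h1 : 1 - p / (p + q) = (p + q)⁻¹ * q := by field_simp; ring
  rw [h1, div_eq_inv_mul, mul_smul, mul_smul, he]

theorem NF.eventually {X : Type} [TopologicalSpace X] {a b c : X → E} (ha : Continuous a)
    (hb : Continuous b) (hc : Continuous c) {x₀ : X} (h : NF (a x₀) (b x₀) (c x₀)) :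
    ∀ᶠ x in 𝓝 x₀, NF (a x) (b x) (c x) := by
  apply IsCompact.eventually_forall_of_forall_eventually (K := Icc (0 : ℝ) 1) isCompact_Icc
    (P := fun x α => α • (a x - b x) ≠ (1 - α) • (c x - b x))
  intro α hα
  have h1 : Continuous fun z : X × ℝ => z.2 • (a z.1 - b z.1) := by fun_prop
  have h2 : Continuous fun z : X × ℝ => (1 - z.2) • (c z.1 - b z.1) := by fun_prop
  exact (isOpen_ne_fun h1 h2).mem_nhds (h α hα)

theorem Dis.eventually {X : Type} [TopologicalSpace X] {a b c d : X → E} (ha : Continuous a)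
    (hb : Continuous b) (hc : Continuous c) (hd : Continuous d) {x₀ : X}
    (h : Dis (a x₀) (b x₀) (c x₀) (d x₀)) : ∀ᶠ x in 𝓝 x₀, Dis (a x) (b x) (c x) (d x) := by
  have key := IsCompact.eventually_forall_of_forall_eventually (x₀ := x₀)
    (K := Icc (0 : ℝ) 1 ×ˢ Icc (0 : ℝ) 1) (isCompact_Icc.prod isCompact_Icc)
    (P := fun x z => a x + z.1 • (b x - a x) ≠ c x + z.2 • (d x - c x)) (by
      intro z hz
      have h1 : Continuous fun w : X × (ℝ × ℝ) => a w.1 + w.2.1 • (b w.1 - a w.1) := by fun_prop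
      have h2 : Continuous fun w : X × (ℝ × ℝ) => c w.1 + w.2.2 • (d w.1 - c w.1) := by fun_prop
      refine (isOpen_ne_fun h1 h2).mem_nhds ?_
      have := h z.1 hz.1 z.2 hz.2
      rwa [lm, lm] at this)
  filter_upwards [key] with x hx s hs t ht
  rw [lm, lm]
  exact hx (s, t) ⟨hs, ht⟩

variable {ι : Type}

theorem QQ.nf {σ : Equiv.Perm ι} {q : ι → E} {R : ι → ι → Prop} (h : QQ σ q R)
    (hR : ∀ e f (u u' : ℝ), (AffineMap.lineMap (q e) (q (σ e)) u : E) =
      AffineMap.lineMap (q f) (q (σ f)) u' → R e f → u ∈ Ioo (0 : ℝ) 1 ∧ u' ∈ Ioo (0 : ℝ) 1)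
    (e : ι) : NF (q e) (q (σ e)) (q (σ (σ e))) := by
  intro α hα he
  rcases eq_or_lt_of_le hα.1 with h0 | h0
  · subst h0
    rw [zero_smul, sub_zero, one_smul] at he
    have h1 : (AffineMap.lineMap (q (σ e)) (q (σ (σ e))) (0 : ℝ) : E) =
        AffineMap.lineMap (q (σ e)) (q (σ (σ e))) (1 / 2 : ℝ) := by
      rw [lm, lm, ← he]; simp
    rcases h _ _ 0 ⟨le_rfl, one_pos⟩ (1 / 2) ⟨by norm_num, by norm_num⟩ h1 with h2 | h2
    · norm_num at h2
    · exact lt_irrefl _ (hR _ _ _ _ h1 h2).1.1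
  · have h1 : (AffineMap.lineMap (q e) (q (σ e)) (1 - α / 2) : E) =
        AffineMap.lineMap (q (σ e)) (q (σ (σ e))) ((1 - α) / 2) := by
      rw [lm, lm]
      have h3 : ((1 - α) / 2) • (q (σ (σ e)) - q (σ e)) = (α / 2) • (q e - q (σ e)) := by
        rw [div_eq_inv_mul, mul_smul, ← he, smul_smul, ← div_eq_inv_mul]
      rw [h3]
      module
    rcases h _ _ (1 - α / 2) ⟨by linarith [hα.2], by linarith⟩ ((1 - α) / 2)
      ⟨by linarith [hα.2], by linarith⟩ h1 with h2 | h2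
    · linarith [h2.2]
    · have h4 : (AffineMap.lineMap (q e) (q (σ e)) (1 : ℝ) : E) =
          AffineMap.lineMap (q (σ e)) (q (σ (σ e))) (0 : ℝ) := by simp
      exact lt_irrefl _ (hR _ _ _ _ h4 h2).1.2

theorem QQ.dis {σ : Equiv.Perm ι} {q : ι → E} {R : ι → ι → Prop} (h : QQ σ q R)
    (hR : ∀ e f (u u' : ℝ), (AffineMap.lineMap (q e) (q (σ e)) u : E) =
      AffineMap.lineMap (q f) (q (σ f)) u' → R e f → u ∈ Ioo (0 : ℝ) 1 ∧ u' ∈ Ioo (0 : ℝ) 1)
    {e f : ι} (h1 : e ≠ f) (h2 : f ≠ σ e) (h3 : e ≠ σ f) (h4 : ¬ R e f) :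
    Dis (q e) (q (σ e)) (q f) (q (σ f)) := by
  intro s hs t ht he
  have z : (0 : ℝ) ∈ Ico (0 : ℝ) 1 := ⟨le_rfl, one_pos⟩
  rcases eq_or_lt_of_le hs.2 with s1 | s1 <;> rcases eq_or_lt_of_le ht.2 with t1 | t1
  · subst s1 t1
    have h5 : (AffineMap.lineMap (q (σ e)) (q (σ (σ e))) (0 : ℝ) : E) =
        AffineMap.lineMap (q (σ f)) (q (σ (σ f))) (0 : ℝ) := by simpa using he
    rcases h _ _ _ z _ z h5 with h6 | h6
    · exact h1 (σ.injective h6.1)
    · exact lt_irrefl _ (hR _ _ _ _ h5 h6).1.1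
  · subst s1
    have h5 : (AffineMap.lineMap (q (σ e)) (q (σ (σ e))) (0 : ℝ) : E) =
        AffineMap.lineMap (q f) (q (σ f)) t := by simpa using he
    rcases h _ _ _ z _ ⟨ht.1, t1⟩ h5 with h6 | h6
    · exact h2 h6.1.symm
    · exact lt_irrefl _ (hR _ _ _ _ h5 h6).1.1
  · subst t1
    have h5 : (AffineMap.lineMap (q e) (q (σ e)) s : E) =
        AffineMap.lineMap (q (σ f)) (q (σ (σ f))) (0 : ℝ) := by simpa using he
    rcases h _ _ _ ⟨hs.1, s1⟩ _ z h5 with h6 | h6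
    · exact h3 h6.1
    · exact lt_irrefl _ (hR _ _ _ _ h5 h6).2.1
  · rcases h _ _ _ ⟨hs.1, s1⟩ _ ⟨ht.1, t1⟩ he with h6 | h6
    · exact h1 h6.1
    · exact h4 h6

theorem NF.adj {a b c : E} (h : NF a b c) {s t : ℝ} (hs : s < 1) (ht : 0 ≤ t) :
    (AffineMap.lineMap a b s : E) ≠ AffineMap.lineMap b c t := by
  intro he
  apply h.ne (p := 1 - s) (q := t) (by linarith) ht (by linarith)
  rw [lm, lm] at he
  have : (1 - s) • (a - b) = (a + s • (b - a)) - b := by module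
  rw [this, he]
  abel

theorem qq_of {σ : Equiv.Perm ι} {q : ι → E} {R : ι → ι → Prop}
    (h1 : ∀ e, NF (q e) (q (σ e)) (q (σ (σ e))))
    (h2 : ∀ e f, e ≠ f → f ≠ σ e → e ≠ σ f → Dis (q e) (q (σ e)) (q f) (q (σ f)) ∨ R e f) :
    QQ σ q R := by
  intro e f u hu u' hu' he
  by_cases hef : e = f
  · subst hef
    left
    refine ⟨rfl, ?_⟩
    have hne : q e ≠ q (σ e) := by
      intro h0
      apply h1 e 1 ⟨zero_le_one, le_rfl⟩
      rw [h0]; simp
    exact AffineMap.lineMap_injective ℝ hne he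
  by_cases hf : f = σ e
  · subst hf
    exact absurd he ((h1 e).adj hu.2 hu'.1)
  by_cases hg : e = σ f
  · subst hg
    exact absurd he.symm ((h1 f).adj hu'.2 hu.1)
  rcases h2 e f hef hf hg with h3 | h3
  · exact absurd he (h3 u ⟨hu.1, hu.2.le⟩ u' ⟨hu'.1, hu'.2.le⟩)
  · exact Or.inr h3

theorem lt_eventually {X : Type} [TopologicalSpace X] {u v : X → ℝ} {x₀ : X}
    (hu : ContinuousAt u x₀) (hv : ContinuousAt v x₀) (h : u x₀ ≠ v x₀) :
    ∀ᶠ x in 𝓝 x₀, (u x₀ < v x₀ ↔ u x < v x) ∧ u x ≠ v x := by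
  rcases lt_or_gt_of_ne h with h1 | h1
  · filter_upwards [hu.eventually_lt hv h1] with x hx
    exact ⟨iff_of_true h1 hx, hx.ne⟩
  · filter_upwards [hv.eventually_lt hu h1] with x hx
    exact ⟨iff_of_false h1.not_gt hx.not_gt, hx.ne'⟩

theorem dense_gen {κ : Type} [Finite κ] [CompleteSpace E] (F : κ → E → ℝ)
    (hF : ∀ k x, AnalyticAt ℝ (F k) x) :
    Dense {x | ∀ k, (∃ y, F k y ≠ 0) → F k x ≠ 0} := by
  have h1 : {x | ∀ k, (∃ y, F k y ≠ 0) → F k x ≠ 0} =
      ⋂ k, {x | (∃ y, F k y ≠ 0) → F k x ≠ 0} := by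
    ext x; simp only [mem_ofPred_eq, mem_iInter]
  rw [h1]
  apply dense_iInter_of_isOpen
  · intro k
    by_cases hk : ∃ y, F k y ≠ 0
    · simp only [hk, forall_true_left]
      exact isOpen_ne_fun (continuous_iff_continuousAt.2 fun x => (hF k x).continuousAt)
        continuous_const
    · simp [hk]
  · intro k
    by_cases hk : ∃ y, F k y ≠ 0
    · simp only [hk, forall_true_left]
      intro x
      rw [mem_closure_iff_frequently]
      intro hx
      obtain ⟨y, hy⟩ := hk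
      apply hy
      have h2 : AnalyticOnNhd ℝ (F k) univ := fun z _ => hF k z
      refine h2.eqOn_zero_of_preconnected_of_eventuallyEq_zero isPreconnected_univ
        (mem_univ x) ?_ (mem_univ y)
      filter_upwards [hx] with z hz
      simpa using hz
    · simp [hk]

end General

/-- the projection to the `xz`-plane -/
def pj (p : P3) : ℝ × ℝ := (p.1, p.2.2)

theorem pj_cont : Continuous pj := by unfold pj; fun_prop

theorem lm1 (a b : P3) (u : ℝ) : (AffineMap.lineMap a b u : P3).1 = a.1 + u * (b.1 - a.1) := by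
  rw [lm]; simp

theorem lm2 (a b : P3) (u : ℝ) :
    (AffineMap.lineMap a b u : P3).2.1 = a.2.1 + u * (b.2.1 - a.2.1) := by
  rw [lm]; simp

theorem lm3 (a b : P3) (u : ℝ) :
    (AffineMap.lineMap a b u : P3).2.2 = a.2.2 + u * (b.2.2 - a.2.2) := by
  rw [lm]; simp

theorem pj_lm (a b c d : P3) (u u' : ℝ) :
    (AffineMap.lineMap (pj a) (pj b) u : ℝ × ℝ) = AffineMap.lineMap (pj c) (pj d) u' ↔
      (AffineMap.lineMap a b u : P3).1 = (AffineMap.lineMap c d u' : P3).1 ∧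
        (AffineMap.lineMap a b u : P3).2.2 = (AffineMap.lineMap c d u' : P3).2.2 := by
  rw [lm1, lm1, lm3, lm3, lm, lm, Prod.ext_iff]
  simp [pj]

theorem det2_swap (p q : P3) : det2 p q = -det2 q p := by unfold det2; ring

theorem crT_eq {a b c d : P3} {u u' : ℝ} (h : det2 (b - a) (d - c) ≠ 0)
    (h1 : (AffineMap.lineMap a b u : P3).1 = (AffineMap.lineMap c d u' : P3).1)
    (h2 : (AffineMap.lineMap a b u : P3).2.2 = (AffineMap.lineMap c d u' : P3).2.2) :
    crT a b c d = u := by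
  rw [lm1, lm1] at h1
  rw [lm3, lm3] at h2
  unfold crT
  rw [div_eq_iff h]
  simp only [det2, Prod.fst_sub, Prod.snd_sub]
  linear_combination (-(d.2.2 - c.2.2)) * h1 + (d.1 - c.1) * h2

theorem crT_pt {a b c d : P3} (h : det2 (b - a) (d - c) ≠ 0) :
    (AffineMap.lineMap a b (crT a b c d) : P3).1 = (AffineMap.lineMap c d (crT c d a b) : P3).1 ∧
      (AffineMap.lineMap a b (crT a b c d) : P3).2.2 =
        (AffineMap.lineMap c d (crT c d a b) : P3).2.2 := by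
  rw [lm1, lm1, lm3, lm3]
  unfold crT
  rw [det2_swap (d - c) (b - a)]
  constructor
  · field_simp
    simp only [det2, Prod.fst_sub, Prod.snd_sub]
    ring
  · field_simp
    simp only [det2, Prod.fst_sub, Prod.snd_sub]
    ring

theorem cross_symm {a b c d : P3} (h : Cross a b c d) : Cross c d a b :=
  ⟨by rw [det2_swap]; exact neg_ne_zero.2 h.1, h.2.2, h.2.1⟩

theorem cross_mem {a b c d : P3} {u u' : ℝ} (h : Cross a b c d)
    (h1 : (AffineMap.lineMap a b u : P3).1 = (AffineMap.lineMap c d u' : P3).1)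
    (h2 : (AffineMap.lineMap a b u : P3).2.2 = (AffineMap.lineMap c d u' : P3).2.2) :
    u ∈ Ioo (0 : ℝ) 1 ∧ u' ∈ Ioo (0 : ℝ) 1 := by
  have h3 := crT_eq h.1 h1 h2
  have h4 := crT_eq (cross_symm h).1 h1.symm h2.symm
  exact ⟨h3 ▸ h.2.1, h4 ▸ h.2.2⟩

theorem not_cross_self (a b : P3) : ¬ Cross a b a b := fun h =>
  h.1 (by unfold det2; ring)

theorem not_cross_adj (a b c : P3) : ¬ Cross a b b c := fun h =>
  lt_irrefl _ (cross_mem (u := 1) (u' := 0) h (by simp) (by simp)).1.2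

theorem det2_cont {X : Type} [TopologicalSpace X] {a b : X → P3} (ha : Continuous a)
    (hb : Continuous b) : Continuous fun x => det2 (a x) (b x) := by
  unfold det2; fun_prop

theorem crT_cont {X : Type} [TopologicalSpace X] {a b c d : X → P3} (ha : Continuous a)
    (hb : Continuous b) (hc : Continuous c) (hd : Continuous d) {x₀ : X}
    (h : det2 (b x₀ - a x₀) (d x₀ - c x₀) ≠ 0) :
    ContinuousAt (fun x => crT (a x) (b x) (c x) (d x)) x₀ :=
  ((det2_cont (hc.sub ha) (hd.sub hc)).continuousAt).div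
    ((det2_cont (hb.sub ha) (hd.sub hc)).continuousAt) h

theorem cross_eventually {X : Type} [TopologicalSpace X] {a b c d : X → P3} (ha : Continuous a)
    (hb : Continuous b) (hc : Continuous c) (hd : Continuous d) {x₀ : X}
    (h : Cross (a x₀) (b x₀) (c x₀) (d x₀)) : ∀ᶠ x in 𝓝 x₀, Cross (a x) (b x) (c x) (d x) := by
  have h1 := ((det2_cont (hb.sub ha) (hd.sub hc)).continuousAt (x := x₀)).eventually_ne h.1
  have h2 := (crT_cont ha hb hc hd h.1).eventually (isOpen_Ioo.mem_nhds h.2.1)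
  have h3 := (crT_cont hc hd ha hb (cross_symm h).1).eventually (isOpen_Ioo.mem_nhds h.2.2)
  filter_upwards [h1, h2, h3] with x k1 k2 k3
  exact ⟨k1, k2, k3⟩

theorem ycr_cont {X : Type} [TopologicalSpace X] {a b c d : X → P3} (ha : Continuous a)
    (hb : Continuous b) (hc : Continuous c) (hd : Continuous d) {x₀ : X}
    (h : det2 (b x₀ - a x₀) (d x₀ - c x₀) ≠ 0) :
    ContinuousAt (fun x =>
      (AffineMap.lineMap (a x) (b x) (crT (a x) (b x) (c x) (d x)) : P3).2.1) x₀ := by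
  simp only [lm2]
  have h1 : Continuous fun x => (a x).2.1 := by fun_prop
  have h2 : Continuous fun x => (b x).2.1 := by fun_prop
  exact h1.continuousAt.add ((crT_cont ha hb hc hd h).mul (h2.sub h1).continuousAt)

variable {ι : Type}

theorem emb_iff (P : PG ι) : P.Emb ↔ QQ P.σ P.pos fun _ _ => False := by
  simp only [PG.Emb, QQ, PG.pt, or_false]

theorem gen2_iff (P : PG ι) :
    (∀ e f, ∀ u ∈ Ico (0 : ℝ) 1, ∀ u' ∈ Ico (0 : ℝ) 1, (P.pt e u).1 = (P.pt f u').1 →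
      (P.pt e u).2.2 = (P.pt f u').2.2 → (e = f ∧ u = u') ∨ P.Cr e f) ↔
    QQ P.σ (fun v => pj (P.pos v)) P.Cr := by
  simp only [QQ, PG.pt, pj_lm, and_imp]

theorem cr_mem (P : PG ι) (e f : ι) (u u' : ℝ)
    (h : (AffineMap.lineMap (pj (P.pos e)) (pj (P.pos (P.σ e))) u : ℝ × ℝ) =
      AffineMap.lineMap (pj (P.pos f)) (pj (P.pos (P.σ f))) u') (hc : P.Cr e f) :
    u ∈ Ioo (0 : ℝ) 1 ∧ u' ∈ Ioo (0 : ℝ) 1 :=
  cross_mem hc ((pj_lm ..).1 h).1 ((pj_lm ..).1 h).2

theorem cr_ne (P : PG ι) {e f : ι} (h : P.Cr e f) : e ≠ f ∧ f ≠ P.σ e ∧ e ≠ P.σ f := by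
  refine ⟨?_, ?_, ?_⟩
  · rintro rfl
    exact not_cross_self _ _ h
  · rintro rfl
    exact not_cross_adj _ _ _ h
  · rintro rfl
    exact not_cross_adj _ _ _ (cross_symm h)

theorem y_ne {P : PG ι} (h : P.Emb) {e f : ι} (hc : P.Cr e f) :
    (P.pt e (P.tt e f)).2.1 ≠ (P.pt f (P.tt f e)).2.1 := by
  intro hy
  have h1 := crT_pt hc.1
  have h2 : P.pt e (P.tt e f) = P.pt f (P.tt f e) := Prod.ext h1.1 (Prod.ext hy h1.2)
  exact (cr_ne P hc).1
    (h e f _ ⟨hc.2.1.1.le, hc.2.1.2⟩ _ ⟨hc.2.2.1.le, hc.2.2.2⟩ h2).1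

theorem emb_nf {P : PG ι} (h : P.Emb) (e : ι) :
    NF (P.pos e) (P.pos (P.σ e)) (P.pos (P.σ (P.σ e))) :=
  ((emb_iff P).1 h).nf (fun _ _ _ _ _ h => h.elim) e

theorem emb_ne1 {P : PG ι} (h : P.Emb) (e : ι) : P.σ e ≠ e := by
  intro he
  apply emb_nf h e 1 ⟨zero_le_one, le_rfl⟩
  rw [he]; simp

theorem emb_ne2 {P : PG ι} (h : P.Emb) (e : ι) : P.σ (P.σ e) ≠ e := by
  intro he
  apply emb_nf h e (1 / 2) ⟨by norm_num, by norm_num⟩
  rw [he]; norm_num

/-- the quantity detecting triple points -/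
def tri (a b c d g h : P3) : ℝ :=
  det2 (c - a) (d - c) * det2 (b - a) (h - g) - det2 (g - a) (h - g) * det2 (b - a) (d - c)

theorem gen_of {P : PG ι} (h : P.Emb)
    (h2 : ∀ u v w, u ≠ v → v ≠ w → u ≠ w → det2 (P.pos v - P.pos u) (P.pos w - P.pos u) ≠ 0)
    (h3 : ∀ e f g, P.Cr e f → P.Cr e g → P.Cr f g →
      tri (P.pos e) (P.pos (P.σ e)) (P.pos f) (P.pos (P.σ f)) (P.pos g) (P.pos (P.σ g)) ≠ 0) :
    P.Gen := by
  have n1 := emb_ne1 h
  have n2 := emb_ne2 h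
  have col : ∀ e v (u : ℝ), (P.pos v).1 = (P.pt e u).1 → (P.pos v).2.2 = (P.pt e u).2.2 →
      v = e ∨ v = P.σ e := by
    intro e v u k1 k2
    by_contra hh
    push Not at hh
    apply h2 e (P.σ e) v (n1 e).symm hh.2.symm hh.1.symm
    rw [PG.pt, lm1] at k1
    rw [PG.pt, lm3] at k2
    simp only [det2, Prod.fst_sub, Prod.snd_sub]
    linear_combination ((P.pos (P.σ e)).1 - (P.pos e).1) * k2 -
      ((P.pos (P.σ e)).2.2 - (P.pos e).2.2) * k1
  have nd : ∀ e, ¬ ((P.pos (P.σ e)).1 = (P.pos e).1 ∧ (P.pos (P.σ e)).2.2 = (P.pos e).2.2) := by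
    intro e hh
    apply h2 e (P.σ e) (P.σ (P.σ e)) (n1 e).symm (n1 _).symm (n2 e).symm
    simp only [det2, Prod.fst_sub, Prod.snd_sub, hh.1, hh.2]
    ring
  have g2 : ∀ e f, ∀ u ∈ Ico (0 : ℝ) 1, ∀ u' ∈ Ico (0 : ℝ) 1, (P.pt e u).1 = (P.pt f u').1 →
      (P.pt e u).2.2 = (P.pt f u').2.2 → (e = f ∧ u = u') ∨ P.Cr e f := by
    intro e f u hu u' hu' k1 k2
    by_cases hef : e = f
    · subst hef
      left
      refine ⟨rfl, ?_⟩
      by_contra hne
      apply nd e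
      rw [PG.pt, PG.pt, lm1, lm1] at k1
      rw [PG.pt, PG.pt, lm3, lm3] at k2
      have hne' : u - u' ≠ 0 := sub_ne_zero.2 hne
      constructor
      · apply mul_left_cancel₀ hne'
        linear_combination k1
      · apply mul_left_cancel₀ hne'
        linear_combination k2
    right
    have hd : det2 (P.pos (P.σ e) - P.pos e) (P.pos (P.σ f) - P.pos f) ≠ 0 := by
      intro hd
      rw [PG.pt, PG.pt, lm1, lm1] at k1
      rw [PG.pt, PG.pt, lm3, lm3] at k2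
      simp only [det2, Prod.fst_sub, Prod.snd_sub] at hd
      by_cases hf : f = P.σ e
      · apply h2 e (P.σ e) (P.σ f) (n1 e).symm (fun hh => hef (P.σ.injective hh))
          (by rw [hf]; exact (n2 e).symm)
        simp only [det2, Prod.fst_sub, Prod.snd_sub]
        rw [← hf] at hd ⊢
        linear_combination hd
      · apply h2 e (P.σ e) f (n1 e).symm (Ne.symm hf) hef
        simp only [det2, Prod.fst_sub, Prod.snd_sub]
        linear_combination (-((P.pos (P.σ e)).1 - (P.pos e).1)) * k2 +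
          ((P.pos (P.σ e)).2.2 - (P.pos e).2.2) * k1 - u' * hd
    have hd' : det2 (P.pos (P.σ f) - P.pos f) (P.pos (P.σ e) - P.pos e) ≠ 0 := by
      rw [det2_swap]; exact neg_ne_zero.2 hd
    have t1 := crT_eq hd k1 k2
    have t2 := crT_eq hd' k1.symm k2.symm
    refine ⟨hd, ?_, ?_⟩
    · rw [t1]
      refine ⟨lt_of_le_of_ne hu.1 ?_, hu.2⟩
      rintro rfl
      rcases col f e u' (by simpa [PG.pt] using k1) (by simpa [PG.pt] using k2) with hh | hh
      · exact hef hh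
      · have t3 := crT_eq (u := 1) (u' := 0) hd' (by simp [hh]) (by simp [hh])
        linarith [hu'.2]
    · rw [t2]
      refine ⟨lt_of_le_of_ne hu'.1 ?_, hu'.2⟩
      rintro rfl
      rcases col e f u (by simpa [PG.pt] using k1.symm) (by simpa [PG.pt] using k2.symm)
        with hh | hh
      · exact hef hh.symm
      · have t3 := crT_eq (u := 1) (u' := 0) hd (by simp [hh]) (by simp [hh])
        linarith [hu.2]
  refine ⟨h, g2, ?_⟩
  intro e f g hf hg ht
  by_contra hfg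
  have p1 := crT_pt hf.1
  have p2 := crT_pt hg.1
  have ht' : crT (P.pos e) (P.pos (P.σ e)) (P.pos f) (P.pos (P.σ f)) =
      crT (P.pos e) (P.pos (P.σ e)) (P.pos g) (P.pos (P.σ g)) := ht
  rw [ht'] at p1
  rcases g2 f g _ ⟨hf.2.2.1.le, hf.2.2.2⟩ _ ⟨hg.2.2.1.le, hg.2.2.2⟩ (p1.1.symm.trans p2.1)
    (p1.2.symm.trans p2.2) with hh | hh
  · exact hfg hh.1
  · apply h3 e f g hf hg hh
    unfold crT at ht'
    rw [div_eq_div_iff hf.1 hg.1] at ht'
    unfold tri
    linear_combination ht'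

theorem dense_pos [Fintype ι] (σ : Equiv.Perm ι) :
    Dense {pos : ι → P3 | (∀ v w, (pos v).1 = (pos w).1 → v = w) ∧
      (∀ u v w, u ≠ v → v ≠ w → u ≠ w → det2 (pos v - pos u) (pos w - pos u) ≠ 0) ∧
      ∀ e f g, e ≠ σ e → e ≠ g → e ≠ σ f → e ≠ σ g → f ≠ σ e → f ≠ g → f ≠ σ f → f ≠ σ g →
        e ≠ f → σ f ≠ g → σ g ≠ g →
        tri (pos e) (pos (σ e)) (pos f) (pos (σ f)) (pos g) (pos (σ g)) ≠ 0} := by
  classical
  have ax : ∀ v (x : ι → P3), AnalyticAt ℝ (fun pos : ι → P3 => (pos v).1) x := fun v x =>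
    ((ContinuousLinearMap.fst ℝ ℝ (ℝ × ℝ)).comp (ContinuousLinearMap.proj (R := ℝ)
      (φ := fun _ : ι => P3) v)).analyticAt x
  have az : ∀ v (x : ι → P3), AnalyticAt ℝ (fun pos : ι → P3 => (pos v).2.2) x := fun v x =>
    ((ContinuousLinearMap.snd ℝ ℝ ℝ).comp ((ContinuousLinearMap.snd ℝ ℝ (ℝ × ℝ)).comp
      (ContinuousLinearMap.proj (R := ℝ) (φ := fun _ : ι => P3) v))).analyticAt x
  have ad : ∀ a b c d (x : ι → P3),
      AnalyticAt ℝ (fun pos : ι → P3 => det2 (pos a - pos b) (pos c - pos d)) x :=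
    fun a b c d x =>
      (((ax a x).sub (ax b x)).mul ((az c x).sub (az d x))).sub
        (((az a x).sub (az b x)).mul ((ax c x).sub (ax d x)))
  let F : Fin 3 × ι × ι × ι → (ι → P3) → ℝ := fun k pos =>
    if k.1 = 0 then (pos k.2.1).1 - (pos k.2.2.1).1
    else if k.1 = 1 then det2 (pos k.2.2.1 - pos k.2.1) (pos k.2.2.2 - pos k.2.1)
    else tri (pos k.2.1) (pos (σ k.2.1)) (pos k.2.2.1) (pos (σ k.2.2.1)) (pos k.2.2.2)
      (pos (σ k.2.2.2))
  have hF : ∀ k x, AnalyticAt ℝ (F k) x := by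
    intro k x
    by_cases h0 : k.1 = 0
    · simp only [F, h0, if_true]
      exact (ax _ x).sub (ax _ x)
    by_cases h1 : k.1 = 1
    · simp only [F, h1, if_true]
      exact ad _ _ _ _ x
    · simp only [F, h0, h1, if_false]
      exact ((ad _ _ _ _ x).mul (ad _ _ _ _ x)).sub ((ad _ _ _ _ x).mul (ad _ _ _ _ x))
  refine (dense_gen F hF).mono ?_
  intro pos hp
  refine ⟨?_, ?_, ?_⟩
  · intro v w hvw
    by_contra hne
    apply hp (0, v, w, w) ⟨fun k => if k = v then (1, 0, 0) else 0, by simp [F, Ne.symm hne]⟩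
    simp [F, hvw]
  · intro u v w h1 h2 h3
    have := hp (1, u, v, w) ⟨fun k => if k = v then (1, 0, 0) else if k = w then (0, 0, 1) else 0,
      by simp [F, h1, h3, Ne.symm h2, det2]⟩
    simpa [F] using this
  · intro e f g h1 h2 h3 h4 h5 h6 h7 h8 h9 h10 h11
    have h12 : σ f ≠ σ e := fun hh => h9 (σ.injective hh).symm
    have h13 : σ g ≠ σ e := fun hh => h2 (σ.injective hh).symm
    have := hp (2, e, f, g) ⟨fun k => if k = σ e ∨ k = g then (1, 0, 0) else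
        if k = σ f ∨ k = σ g then (0, 0, 1) else 0,
      by simp [F, tri, det2, h1, h2, h3, h4, h5, h6, h7, h8, h10, h11, h12, h13]⟩
    simpa [F] using this

end PBA

namespace PG

open PBA

variable {ι : Type} [Finite ι]

omit [Finite ι] in
theorem Gen.wf' {P : PG ι} (h : P.Gen) : P.od.WF := by
  refine ⟨fun e f hc => cross_symm hc, fun e hc => not_cross_self _ _ hc, ?_, h.2.2⟩
  intro e f hc
  have h1 := y_ne h.1 hc
  have h2 : det2 (P.pos (P.σ e) - P.pos e) (P.pos (P.σ f) - P.pos f) ≠ 0 := hc.1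
  change ((P.pt e (P.tt e f)).2.1 < (P.pt f (P.tt f e)).2.1 ↔
      0 < det2 (P.pos (P.σ e) - P.pos e) (P.pos (P.σ f) - P.pos f)) ↔
    ((P.pt f (P.tt f e)).2.1 < (P.pt e (P.tt e f)).2.1 ↔
      0 < det2 (P.pos (P.σ f) - P.pos f) (P.pos (P.σ e) - P.pos e))
  rw [det2_swap (P.pos (P.σ f) - P.pos f), neg_pos]
  rcases lt_or_gt_of_ne h1 with k1 | k1 <;> rcases lt_or_gt_of_ne h2 with k2 | k2 <;>
    simp [k1, k2, k1.not_gt, k2.not_gt]

set_option linter.unusedSectionVars false in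
theorem Gen.wf {P : PG ι} (h : P.Gen) : P.od.WF := h.wf'

/-- embeddedness is an open condition -/
theorem Emb.eventually {P : PG ι} (h : P.Emb) :
    ∀ᶠ pos in 𝓝 P.pos, (⟨P.σ, pos⟩ : PG ι).Emb := by
  have h1 : ∀ᶠ pos : ι → P3 in 𝓝 P.pos, ∀ e, NF (pos e) (pos (P.σ e)) (pos (P.σ (P.σ e))) :=
    eventually_all.2 fun e => NF.eventually (continuous_apply _) (continuous_apply _)
      (continuous_apply _) (emb_nf h e)
  have h2 : ∀ᶠ pos : ι → P3 in 𝓝 P.pos, ∀ e f, e ≠ f → f ≠ P.σ e → e ≠ P.σ f →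
      Dis (pos e) (pos (P.σ e)) (pos f) (pos (P.σ f)) := by
    refine eventually_all.2 fun e => eventually_all.2 fun f => eventually_all.2 fun k1 =>
      eventually_all.2 fun k2 => eventually_all.2 fun k3 => ?_
    exact Dis.eventually (continuous_apply _) (continuous_apply _) (continuous_apply _)
      (continuous_apply _) (((emb_iff P).1 h).dis (fun _ _ _ _ _ h => h.elim) k1 k2 k3 id)
  filter_upwards [h1, h2] with pos k1 k2
  exact (emb_iff _).2 (qq_of k1 fun e f a b c => Or.inl (k2 e f a b c))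

/-- genericity is an open condition and the diagram is locally constant -/
theorem Gen.eventually {P : PG ι} (h : P.Gen) : ∀ᶠ pos in 𝓝 P.pos,
    (⟨P.σ, pos⟩ : PG ι).Gen ∧ P.od.Agree (⟨P.σ, pos⟩ : PG ι).od fun _ _ => True := by
  have hq := (gen2_iff P).1 h.2.1
  have ca : ∀ v, Continuous fun pos : ι → P3 => pos v := fun v => continuous_apply v
  have cp : ∀ v, Continuous fun pos : ι → P3 => pj (pos v) := fun v => pj_cont.comp (ca v)
  have h1 : ∀ᶠ pos : ι → P3 in 𝓝 P.pos,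
      ∀ e, NF (pj (pos e)) (pj (pos (P.σ e))) (pj (pos (P.σ (P.σ e)))) :=
    eventually_all.2 fun e => NF.eventually (cp _) (cp _) (cp _) (hq.nf (cr_mem P) e)
  have h2 : ∀ᶠ pos : ι → P3 in 𝓝 P.pos, ∀ e f, e ≠ f → f ≠ P.σ e → e ≠ P.σ f → ¬ P.Cr e f →
      Dis (pj (pos e)) (pj (pos (P.σ e))) (pj (pos f)) (pj (pos (P.σ f))) := by
    refine eventually_all.2 fun e => eventually_all.2 fun f => eventually_all.2 fun k1 =>
      eventually_all.2 fun k2 => eventually_all.2 fun k3 => eventually_all.2 fun k4 => ?_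
    exact Dis.eventually (cp _) (cp _) (cp _) (cp _) (hq.dis (cr_mem P) k1 k2 k3 k4)
  have h3 : ∀ᶠ pos : ι → P3 in 𝓝 P.pos, ∀ e f, P.Cr e f → (⟨P.σ, pos⟩ : PG ι).Cr e f :=
    eventually_all.2 fun e => eventually_all.2 fun f => eventually_all.2 fun k =>
      cross_eventually (ca _) (ca _) (ca _) (ca _) k
  have h4 : ∀ᶠ pos : ι → P3 in 𝓝 P.pos, ∀ e f g, P.Cr e f → P.Cr e g → f ≠ g →
      (P.tt e f < P.tt e g ↔ (⟨P.σ, pos⟩ : PG ι).tt e f < (⟨P.σ, pos⟩ : PG ι).tt e g) ∧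
        (⟨P.σ, pos⟩ : PG ι).tt e f ≠ (⟨P.σ, pos⟩ : PG ι).tt e g := by
    refine eventually_all.2 fun e => eventually_all.2 fun f => eventually_all.2 fun g =>
      eventually_all.2 fun k1 => eventually_all.2 fun k2 => eventually_all.2 fun k3 => ?_
    exact lt_eventually (crT_cont (ca _) (ca _) (ca _) (ca _) k1.1)
      (crT_cont (ca _) (ca _) (ca _) (ca _) k2.1) fun hh => k3 (h.2.2 e f g k1 k2 hh)
  have h5 : ∀ᶠ pos : ι → P3 in 𝓝 P.pos, ∀ e f, P.Cr e f →
      (P.od.sg e f ↔ (⟨P.σ, pos⟩ : PG ι).od.sg e f) := by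
    refine eventually_all.2 fun e => eventually_all.2 fun f => eventually_all.2 fun k => ?_
    have a1 := lt_eventually (ycr_cont (ca e) (ca (P.σ e)) (ca f) (ca (P.σ f)) k.1)
      (ycr_cont (ca f) (ca (P.σ f)) (ca e) (ca (P.σ e)) (cross_symm k).1) (y_ne h.1 k)
    have a2 := lt_eventually (continuousAt_const (y := (0 : ℝ)))
      (det2_cont ((ca (P.σ e)).sub (ca e)) ((ca (P.σ f)).sub (ca f))).continuousAt (Ne.symm k.1)
    filter_upwards [a1, a2] with pos b1 b2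
    exact iff_congr b1.1 b2.1
  filter_upwards [h.1.eventually, h1, h2, h3, h4, h5] with pos k0 k1 k2 k3 k4 k5
  have hx : ∀ e f, P.Cr e f ↔ (⟨P.σ, pos⟩ : PG ι).Cr e f := by
    intro e f
    refine ⟨k3 e f, fun hc => ?_⟩
    by_contra hn
    have n := cr_ne _ hc
    exact k2 e f n.1 n.2.1 n.2.2 hn _ ⟨hc.2.1.1.le, hc.2.1.2.le⟩ _ ⟨hc.2.2.1.le, hc.2.2.2.le⟩
      ((pj_lm ..).2 (crT_pt hc.1))
  refine ⟨⟨k0, (gen2_iff _).2 (qq_of k1 fun e f a b c => ?_), ?_⟩, fun e f _ => hx e f,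
    fun e f _ hc => k5 e f hc, ?_⟩
  · by_cases hc : P.Cr e f
    · exact Or.inr (k3 e f hc)
    · exact Or.inl (k2 e f a b c hc)
  · intro e f g a b c
    by_contra hne
    exact (k4 e f g ((hx e f).2 a) ((hx e g).2 b) hne).2 c
  · intro e f g _ _ a b
    by_cases hfg : f = g
    · subst hfg
      exact iff_of_false (lt_irrefl _) (lt_irrefl _)
    · exact (k4 e f g a b hfg).1

/-- generic polygons with vertices of distinct abscissae and no three vertices projecting to a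
line are dense -/
theorem Emb.frequently {P : PG ι} (h : P.Emb) : ∃ᶠ pos in 𝓝 P.pos,
    (⟨P.σ, pos⟩ : PG ι).Gen ∧ (∀ v w, (pos v).1 = (pos w).1 → v = w) ∧
      ∀ u v w, u ≠ v → v ≠ w → u ≠ w → det2 (pos v - pos u) (pos w - pos u) ≠ 0 := by
  cases nonempty_fintype ι
  have h1 := mem_closure_iff_frequently.1 (dense_pos P.σ P.pos)
  refine (h1.and_eventually h.eventually).mono ?_
  rintro pos ⟨⟨k1, k2, k3⟩, k4⟩
  refine ⟨gen_of k4 k2 fun e f g a b c => ?_, k1, k2⟩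
  have na := cr_ne _ a
  have nb := cr_ne _ b
  have nc := cr_ne _ c
  exact k3 e f g (emb_ne1 h e).symm nb.1 na.2.2 nb.2.2 na.2.1 nc.1 (emb_ne1 h f).symm nc.2.2
    na.1 (Ne.symm nc.2.1) (emb_ne1 h g)

end PG

end Pool.Agent.Lib.MP_4d7d0a_gt
end
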