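import Pool.Agent.Lib.MP_4d7d0a_gt.TB1

/-! Existence of corner profiles. -/

set_option autoImplicit false

open Set Filter Topology
open scoped ContDiff

namespace Pool.Agent.Lib.MP_4d7d0a_gt

namespace ProfExAux

/-- the smooth step -/
noncomputable def ph : ℝ → ℝ := Real.smoothTransition

theorem ph_sm : ContDiff ℝ ∞ ph := Real.smoothTransition.contDiff

theorem ph1_sm : ContDiff ℝ ∞ (deriv ph) := (contDiff_infty_iff_deriv.mp ph_sm).2

theorem ph2_sm : ContDiff ℝ ∞ (deriv (deriv ph)) := (contDiff_infty_iff_deriv.mp ph1_sm).2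

theorem ph_neg {t : ℝ} (ht : t < 0) : ph t = 0 := Real.smoothTransition.zero_of_nonpos ht.le

theorem ph_big {t : ℝ} (ht : 1 < t) : ph t = 1 := Real.smoothTransition.one_of_one_le ht.le

theorem ph_abs (t : ℝ) : |ph t| ≤ 1 := by
  rw [abs_le]
  exact ⟨by linarith [Real.smoothTransition.nonneg t, show ph t = Real.smoothTransition t from rfl],
    Real.smoothTransition.le_one t⟩

theorem ph1_neg {t : ℝ} (ht : t < 0) : deriv ph t = 0 := by
  have h : ph =ᶠ[𝓝 t] fun _ => (0 : ℝ) := by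
    filter_upwards [Iio_mem_nhds ht] with s hs using ph_neg hs
  rw [h.deriv_eq]; simp

theorem ph1_big {t : ℝ} (ht : 1 < t) : deriv ph t = 0 := by
  have h : ph =ᶠ[𝓝 t] fun _ => (1 : ℝ) := by
    filter_upwards [Ioi_mem_nhds ht] with s hs using ph_big hs
  rw [h.deriv_eq]; simp

theorem ph2_neg {t : ℝ} (ht : t < 0) : deriv (deriv ph) t = 0 := by
  have h : deriv ph =ᶠ[𝓝 t] fun _ => (0 : ℝ) := by
    filter_upwards [Iio_mem_nhds ht] with s hs using ph1_neg hs
  rw [h.deriv_eq]; simp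

theorem ph2_big {t : ℝ} (ht : 1 < t) : deriv (deriv ph) t = 0 := by
  have h : deriv ph =ᶠ[𝓝 t] fun _ => (0 : ℝ) := by
    filter_upwards [Ioi_mem_nhds ht] with s hs using ph1_big hs
  rw [h.deriv_eq]; simp

theorem bound_of {f : ℝ → ℝ} (hf : Continuous f) (h0 : ∀ t, t < 0 → f t = 0)
    (h1 : ∀ t, 1 < t → f t = 0) : ∃ M : ℝ, 1 ≤ M ∧ ∀ t, |f t| ≤ M := by
  obtain ⟨C, hC⟩ := (isCompact_Icc (a := (0 : ℝ)) (b := 1)).exists_bound_of_continuousOn
    hf.continuousOn
  refine ⟨max C 1, le_max_right _ _, fun t => ?_⟩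
  by_cases ha : t < 0
  · rw [h0 t ha, abs_zero]; exact le_trans zero_le_one (le_max_right _ _)
  by_cases hb : 1 < t
  · rw [h1 t hb, abs_zero]; exact le_trans zero_le_one (le_max_right _ _)
  exact le_trans (hC t ⟨not_lt.mp ha, not_lt.mp hb⟩) (le_max_left _ _)

theorem ph_bound : ∃ M : ℝ, 1 ≤ M ∧ ∀ t, |deriv ph t| ≤ M ∧ |deriv (deriv ph) t| ≤ M := by
  obtain ⟨M1, h1, k1⟩ := bound_of ph1_sm.continuous (fun _ h => ph1_neg h) (fun _ h => ph1_big h)
  obtain ⟨M2, _, k2⟩ := bound_of ph2_sm.continuous (fun _ h => ph2_neg h) (fun _ h => ph2_big h)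
  exact ⟨max M1 M2, le_trans h1 (le_max_left _ _), fun t =>
    ⟨le_trans (k1 t) (le_max_left _ _), le_trans (k2 t) (le_max_right _ _)⟩⟩

/-- logarithmic time -/
noncomputable def LL (k r u : ℝ) : ℝ := k * (Real.log u - Real.log r) + 1

/-- the corrected step -/
noncomputable def ps (k t : ℝ) : ℝ := ph t + k / 2 * deriv ph t

/-- the rounded absolute value -/
noncomputable def ab (k r u : ℝ) : ℝ := |u| * ps k (LL k r u)

/-- its primitive -/
noncomputable def AA (k r u : ℝ) : ℝ := u * |u| / 2 * ph (LL k r u)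

theorem ps_sm (k : ℝ) : ContDiff ℝ ∞ (ps k) := ph_sm.add (contDiff_const.mul ph1_sm)

theorem ps_der (k t : ℝ) :
    HasDerivAt (ps k) (deriv ph t + k / 2 * deriv (deriv ph) t) t :=
  ((ph_sm.differentiable (by simp)) t).hasDerivAt.add
    (((ph1_sm.differentiable (by simp)) t).hasDerivAt.const_mul (k / 2))

theorem LL_sm (k r : ℝ) {u : ℝ} (hu : u ≠ 0) : ContDiffAt ℝ ∞ (LL k r) u :=
  (contDiffAt_const.mul ((Real.contDiffAt_log.mpr hu).sub contDiffAt_const)).add contDiffAt_const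

theorem LL_der (k r : ℝ) {u : ℝ} (hu : u ≠ 0) : HasDerivAt (LL k r) (k * u⁻¹) u :=
  (((Real.hasDerivAt_log hu).sub_const (Real.log r)).const_mul k).add_const 1

theorem LL_even (k r u : ℝ) : LL k r (-u) = LL k r u := by
  simp [LL, Real.log_neg_eq_log]

theorem LL_big {k r u : ℝ} (hk : 0 < k) (hr : 0 < r) (hu : r < |u|) : 1 < LL k r u := by
  have h := Real.log_lt_log hr hu
  rw [Real.log_abs] at h
  have : 0 < k * (Real.log u - Real.log r) := mul_pos hk (sub_pos.mpr h)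
  unfold LL; linarith

theorem LL_small {k : ℝ} (hk : 0 < k) (r : ℝ) :
    ∀ᶠ u in 𝓝 (0 : ℝ), u = 0 ∨ LL k r u < 0 := by
  have hd : 0 < Real.exp (Real.log r - 1 / k) := Real.exp_pos _
  filter_upwards [Ioo_mem_nhds (neg_lt_zero.mpr hd) hd] with u hu
  by_cases h0 : u = 0
  · exact Or.inl h0
  right
  have h1 : |u| < Real.exp (Real.log r - 1 / k) := abs_lt.mpr hu
  have h2 := Real.log_lt_log (abs_pos.mpr h0) h1
  rw [Real.log_abs, Real.log_exp] at h2
  have h3 : k * (Real.log u - Real.log r) < k * (-(1 / k)) :=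
    mul_lt_mul_of_pos_left (by linarith) hk
  have h4 : k * (-(1 / k)) = -1 := by field_simp
  unfold LL; linarith

theorem ab_zero {k r : ℝ} (hk : 0 < k) (_hr : 0 < r) : ab k r =ᶠ[𝓝 0] fun _ => (0 : ℝ) := by
  filter_upwards [LL_small hk r] with u hu
  rcases hu with h | h
  · simp [ab, h]
  · simp [ab, ps, ph_neg h, ph1_neg h]

theorem AA_zero {k r : ℝ} (hk : 0 < k) (_hr : 0 < r) : AA k r =ᶠ[𝓝 0] fun _ => (0 : ℝ) := by
  filter_upwards [LL_small hk r] with u hu
  rcases hu with h | h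
  · simp [AA, h]
  · simp [AA, ph_neg h]

theorem ab_sm {k r : ℝ} (hk : 0 < k) (hr : 0 < r) : ContDiff ℝ ∞ (ab k r) := by
  rw [contDiff_iff_contDiffAt]
  intro u
  by_cases hu : u = 0
  · subst hu
    exact contDiffAt_const.congr_of_eventuallyEq (ab_zero hk hr)
  · exact (contDiffAt_abs hu).mul ((ps_sm k).contDiffAt.comp u (LL_sm k r hu))

theorem AA_sm {k r : ℝ} (hk : 0 < k) (hr : 0 < r) : ContDiff ℝ ∞ (AA k r) := by
  rw [contDiff_iff_contDiffAt]
  intro u
  by_cases hu : u = 0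
  · subst hu
    exact contDiffAt_const.congr_of_eventuallyEq (AA_zero hk hr)
  · exact ((contDiffAt_id.mul (contDiffAt_abs hu)).div_const 2).mul
      (ph_sm.contDiffAt.comp u (LL_sm k r hu))

theorem abs_der {u : ℝ} (hu : u ≠ 0) :
    ∃ s : ℝ, HasDerivAt (fun x : ℝ => |x|) s u ∧ |s| = 1 ∧ u * s = |u| ∧ |u| * u⁻¹ = s := by
  rcases lt_or_gt_of_ne hu with h | h
  · refine ⟨-1, hasDerivAt_abs_neg h, by simp, by rw [abs_of_neg h]; ring, ?_⟩
    rw [abs_of_neg h]; field_simp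
  · refine ⟨1, hasDerivAt_abs_pos h, by simp, by rw [abs_of_pos h]; ring, ?_⟩
    rw [abs_of_pos h]; field_simp

theorem AA_der {k r : ℝ} (hk : 0 < k) (hr : 0 < r) (u : ℝ) :
    HasDerivAt (AA k r) (ab k r u) u := by
  by_cases hu : u = 0
  · subst hu
    have h : ab k r 0 = 0 := by simp [ab]
    rw [h]
    exact (hasDerivAt_const (0 : ℝ) (0 : ℝ)).congr_of_eventuallyEq (AA_zero hk hr)
  · obtain ⟨s, hs, _, h2, _⟩ := abs_der hu
    have h1 : HasDerivAt (fun x => ph (LL k r x)) (deriv ph (LL k r u) * (k * u⁻¹)) u :=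
      ((ph_sm.differentiable (by simp)) (LL k r u)).hasDerivAt.comp u (LL_der k r hu)
    have h3 := (((hasDerivAt_id u).mul hs).div_const 2).mul h1
    refine HasDerivAt.congr_deriv h3 ?_
    simp only [ab, ps, id, Pi.mul_apply, h2]
    field_simp
    ring

theorem ab_der_le {k r M : ℝ} (hk : 0 < k) (hk1 : k ≤ 1) (hr : 0 < r) (hM1 : 1 ≤ M)
    (hM : ∀ t, |deriv ph t| ≤ M ∧ |deriv (deriv ph) t| ≤ M) (u : ℝ) :
    |deriv (ab k r) u| ≤ 1 + 2 * k * M := by
  have hkM : 0 ≤ k * M := mul_nonneg hk.le (by linarith)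
  by_cases hu : u = 0
  · subst hu
    rw [(ab_zero hk hr).deriv_eq]
    simp only [deriv_const, abs_zero]
    nlinarith
  · obtain ⟨s, hs, h1, _, h3⟩ := abs_der hu
    have h4 : HasDerivAt (fun x => ps k (LL k r x))
        ((deriv ph (LL k r u) + k / 2 * deriv (deriv ph) (LL k r u)) * (k * u⁻¹)) u :=
      (ps_der k (LL k r u)).comp u (LL_der k r hu)
    have h5 : HasDerivAt (ab k r) (s * (ph (LL k r u) + 3 * k / 2 * deriv ph (LL k r u) +
        k * k / 2 * deriv (deriv ph) (LL k r u))) u := by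
      refine HasDerivAt.congr_deriv (hs.mul h4) ?_
      simp only [ps]
      rw [← h3]
      ring
    rw [h5.deriv, abs_mul, h1, one_mul]
    obtain ⟨a1, a2⟩ := hM (LL k r u)
    have a0 := ph_abs (LL k r u)
    have b1 : |3 * k / 2 * deriv ph (LL k r u)| ≤ 3 * k / 2 * M := by
      rw [abs_mul, abs_of_pos (by positivity : 0 < 3 * k / 2)]
      exact mul_le_mul_of_nonneg_left a1 (by positivity)
    have b2 : |k * k / 2 * deriv (deriv ph) (LL k r u)| ≤ k * k / 2 * M := by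
      rw [abs_mul, abs_of_pos (by positivity : 0 < k * k / 2)]
      exact mul_le_mul_of_nonneg_left a2 (by positivity)
    have b3 : k * (k * M) ≤ 1 * (k * M) := mul_le_mul_of_nonneg_right hk1 hkM
    have b4 := abs_add_three (ph (LL k r u)) (3 * k / 2 * deriv ph (LL k r u))
      (k * k / 2 * deriv (deriv ph) (LL k r u))
    nlinarith

theorem ps_abs {k M : ℝ} (hk : 0 < k) (hkM : k * M ≤ 1)
    (hM : ∀ t, |deriv ph t| ≤ M ∧ |deriv (deriv ph) t| ≤ M) (t : ℝ) : |ps k t| ≤ 3 / 2 := by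
  have b1 : |k / 2 * deriv ph t| ≤ k / 2 * M := by
    rw [abs_mul, abs_of_pos (by positivity : 0 < k / 2)]
    exact mul_le_mul_of_nonneg_left (hM t).1 (by positivity)
  have b2 := abs_add_le (ph t) (k / 2 * deriv ph t)
  have b3 := ph_abs t
  unfold ps
  linarith

theorem ab_out {k r u : ℝ} (hk : 0 < k) (hr : 0 < r) (hu : r < |u|) : ab k r u = |u| := by
  have h := LL_big hk hr hu
  simp [ab, ps, ph_big h, ph1_big h]

theorem AA_out {k r u : ℝ} (hk : 0 < k) (hr : 0 < r) (hu : r < |u|) :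
    AA k r u = u * |u| / 2 := by
  have h := LL_big hk hr hu
  simp [AA, ph_big h]

/-- the area correction -/
noncomputable def ww (k r u : ℝ) : ℝ :=
  (u ^ 2 / 2 + u * ab k r u - ab k r u ^ 2 / 2 - 2 * AA k r u) / 4

theorem ww_sm {k r : ℝ} (hk : 0 < k) (hr : 0 < r) : ContDiff ℝ ∞ (ww k r) :=
  (((((contDiff_id.pow 2).div_const 2).add (contDiff_id.mul (ab_sm hk hr))).sub
    (((ab_sm hk hr).pow 2).div_const 2)).sub (contDiff_const.mul (AA_sm hk hr))).div_const 4

theorem ww_der {k r : ℝ} (hk : 0 < k) (hr : 0 < r) (u : ℝ) :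
    HasDerivAt (ww k r) ((u - ab k r u) * (1 + deriv (ab k r) u) / 4) u := by
  have ha : HasDerivAt (ab k r) (deriv (ab k r) u) u :=
    (((ab_sm hk hr).differentiable (by simp)) u).hasDerivAt
  have h := ((((((hasDerivAt_id u).fun_pow 2).div_const 2).add ((hasDerivAt_id u).mul ha)).sub
    ((ha.fun_pow 2).div_const 2)).sub ((AA_der hk hr u).const_mul 2)).div_const 4
  refine HasDerivAt.congr_deriv h ?_
  simp only [id]
  push_cast
  ring

theorem ww_out {k r u : ℝ} (hk : 0 < k) (hr : 0 < r) (hu : r < |u|) : ww k r u = 0 := by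
  unfold ww
  rw [ab_out hk hr hu, AA_out hk hr hu, sq_abs]
  ring

end ProfExAux

open ProfExAux in
theorem prof_holds : ProfStmt := by
  intro η₀ h₀
  obtain ⟨M, hM1, hM⟩ := ph_bound
  obtain ⟨η, hη, hη1, hη2⟩ : ∃ η : ℝ, 0 < η ∧ η < η₀ ∧ η ≤ 1 / 16 :=
    ⟨min (η₀ / 2) (1 / 16), by positivity, lt_of_le_of_lt (min_le_left _ _) (by linarith),
      min_le_right _ _⟩
  have hM0 : 0 < M := by linarith
  obtain ⟨k, hk, hkM⟩ : ∃ k : ℝ, 0 < k ∧ 2 * k * M = η :=
    ⟨η / (2 * M), by positivity, by field_simp⟩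
  have hk1 : k ≤ 1 := by nlinarith
  have hkM1 : k * M ≤ 1 := by nlinarith
  have hr : 0 < η / 4 := by positivity
  have hps := ps_abs hk hkM1 hM
  have hab : ∀ u, |ab k (η / 4) u| ≤ 3 / 2 * |u| := by
    intro u
    unfold ab
    rw [abs_mul, abs_abs, mul_comm]
    exact mul_le_mul_of_nonneg_right (hps _) (abs_nonneg u)
  have hAA : ∀ u, |AA k (η / 4) u| ≤ |u| * |u| / 2 := by
    intro u
    unfold AA
    rw [abs_mul, abs_div, abs_mul, abs_abs, abs_two]
    exact mul_le_of_le_one_right (by positivity) (ph_abs _)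
  refine ⟨⟨η, ab k (η / 4), ww k (η / 4), hη, hη2, ab_sm hk hr, ww_sm hk hr, ?_, ?_, ?_, ?_,
    ww_der hk hr, ?_, ?_⟩, hη1⟩
  · intro u
    simp only [ab, LL_even, abs_neg]
  · intro u hu
    exact ab_out hk hr (by linarith)
  · intro u
    by_cases hu : η / 4 < |u|
    · rw [ab_out hk hr hu, sub_self, abs_zero]; exact hη.le
    · have h1 := hab u
      have h2 := abs_sub (ab k (η / 4) u) |u|
      rw [abs_abs] at h2
      linarith [not_lt.mp hu]
  · intro u
    have h := ab_der_le hk hk1 hr hM1 hM u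
    rwa [hkM] at h
  · intro u hu
    exact ww_out hk hr (by linarith)
  · intro u
    by_cases hu : η / 4 < |u|
    · rw [ww_out hk hr hu, abs_zero]; exact hη.le
    · have h0 : |u| ≤ η / 4 := not_lt.mp hu
      have h1 := hab u
      have h2 := hAA u
      have h3 : |u| ≤ 1 := by linarith
      have h4 := abs_nonneg u
      have h5 : |u| * |u| ≤ η / 4 := by nlinarith
      have h6 : u ^ 2 = |u| * |u| := by rw [← sq_abs]; ring
      have h7 : |u * ab k (η / 4) u| ≤ 3 / 2 * (|u| * |u|) := by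
        rw [abs_mul]; nlinarith
      have h8 : ab k (η / 4) u ^ 2 ≤ 9 / 4 * (|u| * |u|) := by
        rw [← sq_abs]
        nlinarith [abs_nonneg (ab k (η / 4) u)]
      have h9 := sq_nonneg (ab k (η / 4) u)
      have h10 := abs_le.mp h7
      have h11 := abs_le.mp h2
      have h12 : 0 ≤ |u| * |u| := mul_nonneg h4 h4
      unfold ww
      rw [abs_le]
      constructor <;> linarith [h10.1, h10.2, h11.1, h11.2]

end Pool.Agent.Lib.MP_4d7d0a_gt
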